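import Pool.Agent.Lib.IS3.Kit

/-! Row B2: every jet occurs on both sides, and no germ occurs twice. -/

open scoped ContDiff Topology ENNReal
open MeasureTheory Set Filter

noncomputable section

namespace Pool.Agent.Lib.IS3

open Pool.Agent.Lib.ISO Pool.Agent.Lib.IS2

namespace B2

theorem sym {f g : ℝ → ℝ} {s t : ℝ} (h : Eqj f s g t) : Eqj g t f s :=
  ⟨h.1.symm, fun n hn => (h.2 n hn).symm⟩

theorem tra {f g k : ℝ → ℝ} {s t r : ℝ} (h : Eqj f s g t) (h' : Eqj g t k r) : Eqj f s k r :=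
  ⟨h.1.trans h'.1, fun n hn => (h.2 n hn).trans (h'.2 n hn)⟩

theorem germ {f g : ℝ → ℝ} {s τ β : ℝ} (hτ : τ = 1 ∨ τ = -1)
    (h : f =ᶠ[𝓝 s] fun u => g (τ * u + β)) : Eqj f s g (τ * s + β) := by
  refine ⟨h.eq_of_nhds, fun n _ => ?_⟩
  rw [h.iteratedDeriv_eq n]
  rcases hτ with rfl | rfl
  · simp only [one_mul]
    rw [iteratedDeriv_comp_add_const n g β]
  · simp only [neg_one_mul]
    rw [iteratedDeriv_comp_neg n (fun u => g (u + β)) s, iteratedDeriv_comp_add_const n g β,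
      smul_eq_mul, abs_mul, abs_pow, abs_neg, abs_one, one_pow, one_mul]

theorem pz {L : ℝ} {g : ℝ → ℝ} (h : Per L g) (m : ℤ) (t : ℝ) : g (t + m * L) = g t :=
  (Function.Periodic.int_mul (f := g) (c := L) h.per m) t

theorem shift {L : ℝ} {g : ℝ → ℝ} (h : Per L g) (m : ℤ) (t : ℝ) : Eqj g t g (t + m * L) := by
  have h1 := germ (f := g) (g := g) (s := t) (τ := 1) (β := m * L) (Or.inl rfl)
    (Eventually.of_forall fun u => by
      show g u = g (1 * u + m * L)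
      rw [one_mul, pz h])
  rwa [one_mul] at h1

theorem red {L : ℝ} (hL : 0 < L) (t : ℝ) : ∃ m : ℤ, t + m * L ∈ Ico 0 L := by
  refine ⟨-⌊t / L⌋, ?_, ?_⟩
  · have h1 := Int.floor_le (t / L)
    rw [le_div_iff₀ hL] at h1
    push_cast
    linarith
  · have h1 := Int.lt_floor_add_one (t / L)
    rw [div_lt_iff₀ hL] at h1
    push_cast
    linarith

theorem red' {L : ℝ} {f g : ℝ → ℝ} (hL : 0 < L) (h : Per L g) {s t : ℝ} (e : Eqj f s g t) :
    ∃ m : ℤ, t + m * L ∈ Ico 0 L ∧ Eqj f s g (t + m * L) := by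
  obtain ⟨m, hm⟩ := red hL t
  exact ⟨m, hm, tra e (shift h m t)⟩

theorem cl {f g : ℝ → ℝ} (hf : ContDiff ℝ ∞ f) (hg : ContDiff ℝ ∞ g) (a b : ℝ) :
    IsClosed {s | ∃ t ∈ Icc a b, Eqj f s g t} := by
  have cf : ∀ n : ℕ, Continuous (iteratedDeriv n f) := fun n =>
    hf.continuous_iteratedDeriv n (by exact_mod_cast le_top)
  have cg : ∀ n : ℕ, Continuous (iteratedDeriv n g) := fun n =>
    hg.continuous_iteratedDeriv n (by exact_mod_cast le_top)
  have c2 : Continuous fun p : ℝ × Icc a b => (p.2 : ℝ) := continuous_subtype_val.comp continuous_snd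
  have h1 : IsClosed {p : ℝ × Icc a b | Eqj f p.1 g p.2} := by
    have e : {p : ℝ × Icc a b | Eqj f p.1 g p.2} = {p | f p.1 = g p.2} ∩
        ⋂ n : ℕ, ⋂ _ : 1 ≤ n, {p | |iteratedDeriv n f p.1| = |iteratedDeriv n g p.2|} := by
      ext p
      simp only [Eqj, mem_ofPred_eq, mem_inter_iff, mem_iInter]
    rw [e]
    exact (isClosed_eq (hf.continuous.comp continuous_fst) (hg.continuous.comp c2)).inter
      (isClosed_iInter fun n => isClosed_iInter fun _ =>
        isClosed_eq ((cf n).comp continuous_fst).abs ((cg n).comp c2).abs)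
  have h2 := isClosedMap_fst_of_compactSpace _ h1
  have e2 : {s | ∃ t ∈ Icc a b, Eqj f s g t} =
      Prod.fst '' {p : ℝ × Icc a b | Eqj f p.1 g p.2} := by
    ext s
    constructor
    · rintro ⟨t, ht, h⟩
      exact ⟨(s, ⟨t, ht⟩), h, rfl⟩
    · rintro ⟨p, h, rfl⟩
      exact ⟨p.2, p.2.2, h⟩
  rw [e2]
  exact h2

theorem one {N' : ℕ} {f : ℝ → ℝ} {g : Fin N' → ℝ → ℝ} {L' : Fin N' → ℝ} (hf : ContDiff ℝ ∞ f)
    (hg : ∀ a, 0 < L' a ∧ Per (L' a) (g a)) (h : Ger f g) (s : ℝ) : ∃ a t, Eqj f s (g a) t := by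
  have h1 : IsClosed (⋃ a, {s | ∃ t ∈ Icc 0 (L' a), Eqj f s (g a) t}) :=
    isClosed_iUnion_of_finite fun a => cl hf (hg a).2.smooth _ _
  have h2 : s ∈ closure (⋃ a, {s | ∃ t ∈ Icc 0 (L' a), Eqj f s (g a) t}) := by
    refine Metric.mem_closure_iff.2 fun ε hε => ?_
    obtain ⟨a, τ, β, u0, δ, hτ, hδ, hu, he⟩ := h s ε hε
    have e : Eqj f u0 (g a) (τ * u0 + β) := germ hτ (by
      filter_upwards [Metric.ball_mem_nhds u0 hδ] with u hu'
      exact (he u (by rwa [Metric.mem_ball, Real.dist_eq] at hu')).symm)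
    obtain ⟨m, hm, e'⟩ := red' (hg a).1 (hg a).2 e
    refine ⟨u0, mem_iUnion.2 ⟨a, _, Ico_subset_Icc_self hm, e'⟩, ?_⟩
    rwa [Real.dist_eq, abs_sub_comm]
  rw [h1.closure_eq] at h2
  obtain ⟨a, t, _, e⟩ := mem_iUnion.1 h2
  exact ⟨a, t, e⟩

theorem del (hB : St_B2a) {N N' : ℕ} {κ : Fin N → ℝ → ℝ} {L : Fin N → ℝ} {g : Fin N' → ℝ → ℝ}
    {L' : Fin N' → ℝ} (hκ : GJ κ L) (hg : ∀ a, 0 < L' a ∧ Per (L' a) (g a))
    (hs : ∑ i, L i = ∑ a, L' a) (a0 : Fin N') {c ε : ℝ} (hε : 0 < ε) (hc : 0 ≤ c)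
    (hc' : c + ε ≤ L' a0)
    (h : ∀ i s, ∃ a, ∃ t ∈ Ico 0 (L' a), (a = a0 → t ∉ Ioo c (c + ε)) ∧ Eqj (κ i) s (g a) t) :
    False := by
  have h1 := hB N N' κ L g (fun a => Ico 0 (L' a) \ if a = a0 then Ioo c (c + ε) else ∅) hκ
    (fun a => (hg a).2.smooth)
    (fun a => measurableSet_Ico.diff (by
      split_ifs
      · exact measurableSet_Ioo
      · exact MeasurableSet.empty))
    (fun i s => by
      obtain ⟨a, t, ht, h2, e⟩ := h i s
      refine ⟨a, t, ⟨ht, ?_⟩, e⟩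
      split_ifs with ha
      · exact h2 ha
      · exact notMem_empty t)
  have h0 : ∀ a, 0 ≤ L' a - if a = a0 then ε else 0 := fun a => by
    split_ifs with ha
    · rw [ha]
      linarith
    · linarith [(hg a).1]
  have h2 : ∀ a, volume (Ico 0 (L' a) \ if a = a0 then Ioo c (c + ε) else ∅) =
      ENNReal.ofReal (L' a - if a = a0 then ε else 0) := fun a => by
    split_ifs with ha
    · have hsub : Ioo c (c + ε) ⊆ Ico 0 (L' a0) :=
        fun t ht => ⟨hc.trans ht.1.le, ht.2.trans_le hc'⟩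
      have hfin : volume (Ioo c (c + ε)) ≠ ⊤ := by
        rw [Real.volume_Ioo]
        exact ENNReal.ofReal_ne_top
      rw [ha, measure_sdiff hsub measurableSet_Ioo.nullMeasurableSet hfin, Real.volume_Ico,
        Real.volume_Ioo, ← ENNReal.ofReal_sub _ (by linarith)]
      congr 1
      ring
    · rw [sdiff_empty, Real.volume_Ico]
  rw [Finset.sum_congr rfl fun a _ => h2 a, ← ENNReal.ofReal_sum_of_nonneg fun a _ => h0 a,
    ENNReal.ofReal_le_ofReal_iff (Finset.sum_nonneg fun a _ => h0 a), Finset.sum_sub_distrib,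
    Finset.sum_ite_eq' Finset.univ a0 fun _ => ε, if_pos (Finset.mem_univ _), hs] at h1
  linarith

theorem gap {L x : ℝ} (hL : 0 < L) (h : ∀ m : ℤ, x + m * L ≠ 0) :
    ∃ d, 0 < d ∧ ∀ m : ℤ, d ≤ |x + m * L| := by
  obtain ⟨k, hk, hk'⟩ := red hL x
  have h1 : 0 < x + k * L := lt_of_le_of_ne hk (h k).symm
  refine ⟨min (x + k * L) (L - (x + k * L)), lt_min h1 (by linarith), fun m => ?_⟩
  rcases le_or_gt k m with hm | hm
  · have h2 : (k : ℝ) * L ≤ m * L := mul_le_mul_of_nonneg_right (by exact_mod_cast hm) hL.le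
    exact (min_le_left _ _).trans (le_trans (by linarith) (le_abs_self _))
  · have h3 : (m : ℝ) + 1 ≤ k := by exact_mod_cast hm
    have h2 : ((m : ℝ) + 1) * L ≤ k * L := mul_le_mul_of_nonneg_right h3 hL.le
    exact (min_le_right _ _).trans (le_trans (by linarith) (neg_le_abs _))

end B2

theorem st_b2 (hB : St_B2a) : St_B2 := by
  intro N N' κ L g L' hκ hg hs hG
  have h1 : ∀ i s, ∃ a, ∃ t ∈ Ico 0 (L' a), Eqj (κ i) s (g a) t := fun i s => by
    obtain ⟨a, t, e⟩ := B2.one (hκ.per i).smooth hg (hG i) s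
    obtain ⟨m, hm, e'⟩ := B2.red' (hg a).1 (hg a).2 e
    exact ⟨a, _, hm, e'⟩
  refine ⟨fun i s => ?_, fun a0 t0 => ?_, fun a a' t t' τ δ hτ hδ he => ?_⟩
  · obtain ⟨a, t, _, e⟩ := h1 i s
    exact ⟨a, t, e⟩
  · by_contra hn
    obtain ⟨m, hm, hm'⟩ := B2.red (hg a0).1 t0
    have h2 : IsClosed (⋃ i, {t | ∃ s ∈ Icc 0 (L i), Eqj (g a0) t (κ i) s}) :=
      isClosed_iUnion_of_finite fun i => B2.cl (hg a0).2.smooth (hκ.per i).smooth _ _
    have h3 : t0 + m * L' a0 ∈ (⋃ i, {t | ∃ s ∈ Icc 0 (L i), Eqj (g a0) t (κ i) s})ᶜ := fun h => by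
      obtain ⟨i, s, _, e⟩ := mem_iUnion.1 h
      exact hn ⟨i, s, B2.sym (B2.tra (B2.shift (hg a0).2 m t0) e)⟩
    obtain ⟨r, hr, hb⟩ := Metric.isOpen_iff.1 h2.isOpen_compl _ h3
    refine B2.del hB hκ hg hs a0 (c := t0 + m * L' a0) (ε := min r (L' a0 - (t0 + m * L' a0)))
      (lt_min hr (by linarith)) hm (by linarith [min_le_right r (L' a0 - (t0 + m * L' a0))])
      fun i s => ?_
    obtain ⟨a, t, ht, e⟩ := h1 i s
    refine ⟨a, t, ht, fun ha hI => ?_, e⟩
    subst ha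
    obtain ⟨k, hk, e'⟩ := B2.red' (hκ.pos i) (hκ.per i) (B2.sym e)
    refine hb (a := t) ?_ (mem_iUnion.2 ⟨i, _, Ico_subset_Icc_self hk, e'⟩)
    rw [Metric.mem_ball, Real.dist_eq, abs_lt]
    constructor <;> linarith [hI.1, hI.2, min_le_left r (L' a - (t0 + m * L' a))]
  · by_contra hn
    obtain ⟨m, hm, hm'⟩ := B2.red (hg a').1 t'
    obtain ⟨d, hd, hd'⟩ : ∃ d, 0 < d ∧ (a = a' → ∀ k : ℤ, d ≤ |t - t' + k * L' a|) := by
      by_cases ha : a = a'
      · obtain ⟨d, hd, hd'⟩ := B2.gap (x := t - t') (hg a).1 fun k hk => hn ⟨ha, k, by linarith⟩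
        exact ⟨d, hd, fun _ => hd'⟩
      · exact ⟨1, one_pos, fun h => absurd h ha⟩
    obtain ⟨ε, hε, e1, e2, e3⟩ : ∃ ε, 0 < ε ∧ ε ≤ δ ∧ ε ≤ d / 2 ∧ ε ≤ L' a' - (t' + m * L' a') :=
      ⟨min δ (min (d / 2) (L' a' - (t' + m * L' a'))), lt_min hδ (lt_min (by linarith) (by linarith)),
        min_le_left _ _, (min_le_right _ _).trans (min_le_left _ _),
        (min_le_right _ _).trans (min_le_right _ _)⟩
    refine B2.del hB hκ hg hs a' (c := t' + m * L' a') hε hm (by linarith) fun i s => ?_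
    obtain ⟨b, r, hr, e⟩ := h1 i s
    by_cases hb : b = a' ∧ r ∈ Ioo (t' + m * L' a') (t' + m * L' a' + ε)
    · obtain ⟨rfl, hI⟩ := hb
      obtain ⟨u, hu⟩ : ∃ u, u = τ * (r - (t' + m * L' b)) := ⟨_, rfl⟩
      have hττ : τ * τ = 1 := by rcases hτ with rfl | rfl <;> norm_num
      have hu1 : |u| < ε := by
        rw [abs_lt]
        rcases hτ with rfl | rfl <;> constructor <;> linarith [hI.1, hI.2]
      have e4 : Eqj (g a) (t + u) (g b) (τ * (t + u) + (t' - τ * t)) := B2.germ hτ (by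
        have ho : IsOpen {x : ℝ | |x - t| < δ} :=
          isOpen_lt (continuous_id.sub continuous_const).abs continuous_const
        filter_upwards [ho.mem_nhds (show |t + u - t| < δ by
          rw [add_sub_cancel_left]; linarith)] with x hx
        have h5 := he (x - t) hx
        rw [add_sub_cancel] at h5
        rw [h5]
        congr 1
        ring)
      have e5 : τ * (t + u) + (t' - τ * t) + m * L' b = r := by
        have : τ * u = r - (t' + m * L' b) := by rw [hu, ← mul_assoc, hττ, one_mul]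
        linarith [mul_add τ t u]
      have e6 := B2.tra e4 (B2.shift (hg b).2 m _)
      rw [e5] at e6
      obtain ⟨k, hk, e7⟩ := B2.red' (hg a).1 (hg a).2 (B2.tra e (B2.sym e6))
      refine ⟨a, _, hk, fun ha hJ => ?_, e7⟩
      have h6 := hd' ha (k - m)
      subst ha
      push_cast at h6
      have h7 := abs_lt.1 hu1
      have h8 : |t - t' + ((k : ℝ) - m) * L' a| < d := by
        rw [abs_lt]
        constructor <;> linarith [hJ.1, hJ.2, sub_mul (k : ℝ) m (L' a)]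
      linarith
    · exact ⟨b, r, hr, fun h h' => hb ⟨h, h'⟩, e⟩

end Pool.Agent.Lib.IS3
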