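import Pool.Agent.Lib.IS3.Kit

/-! Row B2a: comparison of the lengths. -/

open scoped ContDiff Topology ENNReal
open MeasureTheory Set Filter

noncomputable section

namespace Pool.Agent.Lib.IS3

open Pool.Agent.Lib.ISO Pool.Agent.Lib.IS2

namespace B2a

variable {κ g : ℝ → ℝ}

theorem itd (h : ContDiff ℝ ∞ κ) (n : ℕ) : Differentiable ℝ (iteratedDeriv n κ) :=
  h.differentiable_iteratedDeriv n (by exact_mod_cast WithTop.coe_lt_top _)

theorem cls (hκ : ContDiff ℝ ∞ κ) (hg : ContDiff ℝ ∞ g) {K : Set ℝ} (hK : IsCompact K) :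
    IsClosed {t | ∃ s ∈ K, Eqj κ s g t} := by
  have := isCompact_iff_compactSpace.1 hK
  have c1 : Continuous fun p : K × ℝ => (p.1 : ℝ) := continuous_subtype_val.comp continuous_fst
  have h : IsClosed {p : K × ℝ | Eqj κ p.1 g p.2} := by
    simp only [Eqj, ofPred_and, ofPred_forall]
    exact (isClosed_eq (hκ.continuous.comp c1) (hg.continuous.comp continuous_snd)).inter
      (isClosed_iInter fun n => isClosed_iInter fun _ => isClosed_eq
        ((itd hκ n).continuous.comp c1).abs ((itd hg n).continuous.comp continuous_snd).abs)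
  have e : {t | ∃ s ∈ K, Eqj κ s g t} = Prod.snd '' {p : K × ℝ | Eqj κ p.1 g p.2} :=
    Set.ext fun t => ⟨fun ⟨s, hs, h⟩ => ⟨(⟨s, hs⟩, t), h, rfl⟩,
      fun ⟨p, h, e⟩ => ⟨p.1, p.1.2, e ▸ h⟩⟩
  rw [e]
  exact isClosedMap_snd_of_compactSpace _ h

theorem cnt (hκ : ContDiff ℝ ∞ κ) (hf : ∀ s, ∃ n, 1 ≤ n ∧ iteratedDeriv n κ s ≠ 0) :
    {s | deriv κ s = 0}.Countable := by
  refine (countable_iUnion fun n : ℕ => countable_setOfPred_isolated_right_within
    (s := {s | iteratedDeriv n κ s = 0})).mono fun s hs => ?_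
  have h1 := Nat.find_spec (hf s)
  obtain ⟨m, hm⟩ := Nat.exists_eq_add_of_le' h1.1
  have h2 : iteratedDeriv m κ s = 0 := by
    by_contra c
    rcases Nat.eq_zero_or_pos m with h | h
    · rw [hm, h, zero_add, iteratedDeriv_one] at h1
      exact h1.2 hs
    · exact Nat.find_min (hf s) (m := m) (by omega) ⟨h, c⟩
  refine mem_iUnion.2 ⟨m, h2, empty_mem_iff_bot.1 ?_⟩
  rw [hm, iteratedDeriv_succ] at h1
  have h3 := (itd hκ m s).hasDerivAt.eventually_ne (c := 0) h1.2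
  filter_upwards [nhdsWithin_mono s (fun x hx => (ne_of_gt hx.2 : x ≠ s)) h3,
    self_mem_nhdsWithin] with x a b using a b.1

theorem pn0 (κ : ℝ → ℝ) (n : ℕ) : Pn 0 κ n = iteratedDeriv n κ := by
  induction n with
  | zero => funext t; simp [Pn]
  | succ n ih => funext t; simp [Pn, ih, iteratedDeriv_succ]

/-- The parameters where a regular jet of the interior occurs. -/
def A (κ : ℝ → ℝ) (L : ℝ) (g : ℝ → ℝ) : Set ℝ :=
  {t | ∃ s ∈ Icc 0 L, Eqj κ s g t} ∩ {t | ∃ s ∈ ({0, L} : Set ℝ), Eqj κ s g t}ᶜ ∩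
    {t | deriv g t = 0}ᶜ

theorem mA (hκ : ContDiff ℝ ∞ κ) (hg : ContDiff ℝ ∞ g) (L : ℝ) : MeasurableSet (A κ L g) :=
  ((cls hκ hg isCompact_Icc).measurableSet.inter
    (cls hκ hg (toFinite _).isCompact).measurableSet.compl).inter
    (measurable_deriv g (measurableSet_singleton 0)).compl

theorem one (hκ : ContDiff ℝ ∞ κ) (hg : ContDiff ℝ ∞ g) {L : ℝ} {S : Set ℝ} (hS : MeasurableSet S)
    (hu : ∀ s ∈ Ioo 0 L, ∀ s' ∈ Icc 0 L, ∀ t, Eqj κ s g t → Eqj κ s' g t → s' = s) :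
    volume {s ∈ Ioo 0 L | deriv κ s ≠ 0 ∧ ∃ t ∈ S, Eqj κ s g t} ≤ volume (A κ L g ∩ S) := by
  have ex : ∀ t, ∃ s, t ∈ A κ L g → s ∈ Ioo 0 L ∧ Eqj κ s g t := fun t => by
    by_cases h : t ∈ A κ L g
    · obtain ⟨s, h1, h2⟩ := h.1.1
      exact ⟨s, fun _ => ⟨⟨h1.1.lt_of_ne fun c => h.1.2 ⟨s, Or.inl c.symm, h2⟩,
        h1.2.lt_of_ne fun c => h.1.2 ⟨s, Or.inr c, h2⟩⟩, h2⟩⟩
    · exact ⟨0, fun c => absurd c h⟩
  choose Φ hΦ using ex
  have d1 : ∀ s t, Eqj κ s g t → |deriv κ s| = |deriv g t| := fun s t h => by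
    simpa using h.2 1 le_rfl
  have mS := (mA hκ hg L).inter hS
  have der : ∀ t ∈ A κ L g ∩ S, HasDerivWithinAt Φ ((deriv κ (Φ t))⁻¹ * deriv g t)
      (A κ L g ∩ S) t := fun t ht => by
    obtain ⟨h1, h2⟩ := hΦ t ht.1
    have k0 : deriv κ (Φ t) ≠ 0 := fun c => ht.1.2 (by
      have := d1 _ _ h2
      rw [c, abs_zero] at this
      exact abs_eq_zero.1 this.symm)
    have hs := hκ.contDiffAt.hasStrictDerivAt (x := Φ t) (by simp)
    have li := (hs.hasStrictFDerivAt_equiv k0).eventually_left_inverse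
    have ld := (hs.to_localInverse (hf' := k0)).hasDerivAt
    obtain ⟨U, hU, oU, mU⟩ := mem_nhds_iff.1 li
    have cK := (cls hκ hg ((isCompact_Icc (a := 0) (b := L)).diff oU)).isOpen_compl.mem_nhds
      (x := t) fun ⟨s, a, b⟩ => a.2 (by rw [hu _ h1 s a.1 t h2 b]; exact mU)
    rw [h2.1] at ld
    refine (ld.comp t (hg.differentiable (by simp) t).hasDerivAt).hasDerivWithinAt
      |>.congr_of_eventuallyEq ?_ ?_
    · filter_upwards [mem_nhdsWithin_of_mem_nhds cK, self_mem_nhdsWithin] with x a b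
      obtain ⟨b1, b2⟩ := hΦ x b.1
      have c : Φ x ∈ U := by_contra fun c => a ⟨_, ⟨Ioo_subset_Icc_self b1, c⟩, b2⟩
      rw [Function.comp_apply, ← b2.1]
      exact (hU c).symm
    · rw [Function.comp_apply, ← h2.1]
      exact (hU mU).symm
  have key := addHaar_image_le_lintegral_abs_det_fderiv volume mS
    fun t ht => (der t ht).hasFDerivWithinAt
  refine (measure_mono ?_).trans (key.trans ?_)
  · rintro s ⟨h1, h2, t, h3, h4⟩
    have hA : t ∈ A κ L g := ⟨⟨⟨s, Ioo_subset_Icc_self h1, h4⟩, fun ⟨s', a, b⟩ => ?_⟩,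
      fun c => h2 (abs_eq_zero.1 (by rw [d1 _ _ h4, mem_ofPred.1 c, abs_zero]))⟩
    · exact ⟨t, ⟨hA, h3⟩, hu s h1 _ (Ioo_subset_Icc_self (hΦ t hA).1) t h4 (hΦ t hA).2⟩
    · have L0 := (h1.1.trans h1.2).le
      rcases a with rfl | rfl
      · exact h1.1.ne (hu s h1 0 ⟨le_rfl, L0⟩ t h4 b)
      · exact h1.2.ne' (hu s h1 _ ⟨L0, le_rfl⟩ t h4 b)
  · rw [← setLIntegral_one]
    refine setLIntegral_mono' mS fun t ht => ?_
    rw [ContinuousLinearMap.det_toSpanSingleton, abs_mul, abs_inv, d1 _ _ (hΦ t ht.1).2,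
      inv_mul_cancel₀ (abs_ne_zero.2 ht.1.2), ENNReal.ofReal_one]

end B2a

open B2a in
theorem st_b2a : St_B2a := by
  intro N N' κ L g S h hg hS hc
  have h1 : ∀ i, ENNReal.ofReal (L i) ≤ ∑ a, volume (A (κ i) (L i) (g a) ∩ S a) := fun i => by
    have hu : ∀ a, ∀ s ∈ Ioo 0 (L i), ∀ s' ∈ Icc 0 (L i), ∀ t, Eqj (κ i) s (g a) t →
        Eqj (κ i) s' (g a) t → s' = s := fun a s hs s' hs' t e e' => by
      obtain ⟨m, hm⟩ := h.jet i s s' fun n hn => (e.2 n hn).trans (e'.2 n hn).symm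
      have a1 : (m : ℝ) < 1 := by nlinarith [h.pos i, hs.1, hs'.2]
      have a2 : (-1 : ℝ) < m := by nlinarith [h.pos i, hs.2, hs'.1]
      have a3 : m = 0 := by
        have b1 : m < 1 := by exact_mod_cast a1
        have b2 : -1 < m := by exact_mod_cast a2
        omega
      simpa [a3] using hm
    have e : volume (Ioo 0 (L i) \ {s | deriv (κ i) s = 0}) = ENNReal.ofReal (L i) := by
      rw [measure_sdiff_null ((cnt (h.per i).smooth (h.flat i)).measure_zero _), Real.volume_Ioo,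
        sub_zero]
    rw [← e]
    refine le_trans ?_ (Finset.sum_le_sum fun a _ => one (h.per i).smooth (hg a) (hS a) (hu a))
    refine (measure_mono fun s hs => ?_).trans (measure_iUnion_fintype_le _ _)
    obtain ⟨a, t, h2, h3⟩ := hc i s
    exact mem_iUnion.2 ⟨a, hs.1, hs.2, t, h2, h3⟩
  rw [ENNReal.ofReal_sum_of_nonneg fun i _ => (h.pos i).le]
  refine (Finset.sum_le_sum fun i _ => h1 i).trans ?_
  rw [Finset.sum_comm]
  refine Finset.sum_le_sum fun a _ => ?_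
  rw [← measure_biUnion_finset (fun i _ k _ ik => ?_)
    fun i _ => (mA (h.per i).smooth (hg a) _).inter (hS a)]
  · exact measure_mono (iUnion₂_subset fun i _ => inter_subset_right)
  · refine disjoint_left.2 fun t ⟨⟨⟨⟨s, _, e⟩, _⟩, _⟩, _⟩ ⟨⟨⟨⟨s', _, e'⟩, _⟩, _⟩, _⟩ => ?_
    obtain ⟨n, hn⟩ := h.par i k ik 0 s s' (by simp)
    rw [pn0] at hn
    rcases Nat.eq_zero_or_pos n with c | c
    · simp only [c, iteratedDeriv_zero] at hn
      exact hn (by rw [e.1, e'.1])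
    · exact hn ((e.2 n c).trans (e'.2 n c).symm)

end Pool.Agent.Lib.IS3
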