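import Pool.Agent.Lib.IS3.Kit

/-! The case of one curve. -/

open scoped ContDiff ComplexConjugate Topology Real ENNReal
open Complex MeasureTheory Set Filter

noncomputable section

namespace Pool.Agent.Lib.IS3

open Pool.Agent.Lib.ISO Pool.Agent.Lib.IS2

namespace BR1

lemma adm {j B ϖ : ℝ} {γ : ℝ → ℂ} {P : ℝ → C2} (h : Adm j B γ ϖ P) :
    Admm j B (fun _ : Fin 1 => γ) ϖ fun _ => P :=
  ⟨fun _ => h, fun i k c => (c (Subsingleton.elim i k)).elim⟩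

/-- the weight that forgets the labels -/
def up (w : ∀ n, (Fin n → ℝ) → ℂ) : Wg 1 := fun n v => w n fun i => (v i).2

lemma wm {w : ∀ n, (Fin n → ℝ) → ℂ} (h : Wt w) : Wm (up w) := fun n =>
  ⟨(h n).1.comp (measurable_pi_lambda _ fun i => (measurable_pi_apply i).snd),
    fun _ => (h n).2.1 _, fun _ k => (h n).2.2 _ k⟩

lemma tc (w : ∀ n, (Fin n → ℝ) → ℂ) (μ : ℂ) (P : ℝ → C2) (n : ℕ) :
    Tc (up w) μ (fun _ => P) n = Tn w μ P n := by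
  rw [Tc, bm_one, (emb_lab _).integral_map]
  rfl

end BR1

theorem st_br1 (hKB : St_KBm) (hKM : St_KMm) (hCR : St_CRm) (hHOL : St_HOLm) : St_BR1 := by
  refine ⟨fun j B => ?_, fun j B γ ϖ μ P ζ n v h1 h2 h3 h4 h5 h6 => ?_, fun j q hq => ?_,
    fun j B q hq => ?_⟩
  · obtain ⟨C, C1, hC⟩ := hKB j B
    exact ⟨C, C1, fun γ ϖ P h1 h2 n v μ o h3 h4 h5 =>
      (hC 1 _ ϖ _ h1 (BR1.adm h2)).2 n (lab (fun _ => 0) v) μ o h3 h4 h5⟩
  · exact (hKM 1).2 j B _ ϖ μ (fun ζ _ => P ζ) ζ n (lab (fun _ => 0) v) h1 (BR1.adm h2) h3 h4 h5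
      fun _ => h6
  · obtain ⟨C, h0, hC⟩ := hCR j q hq
    refine ⟨C, h0, fun h hh γ h1 n => ?_⟩
    obtain ⟨a, b, c⟩ := hC h hh 1 _ h1 n
    rw [bm_one, (emb_lab _).integral_map] at c
    exact ⟨ae_bm.1 a fun _ => 0, integrable_bm.1 b fun _ => 0, c⟩
  · obtain ⟨C, h0, hC⟩ := hHOL j B q hq
    refine ⟨C, h0, fun h hh γ ϖ w n h1 hw => ?_⟩
    obtain ⟨a, b⟩ := hC h hh 1 _ ϖ _ n h1 (BR1.wm hw)
    refine ⟨fun P μ l0 h2 h3 h4 => ?_, fun U μ P h2 h3 h4 h5 => ?_⟩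
    · obtain ⟨c, d⟩ := a _ μ l0 (BR1.adm h2) h3 fun m v hv => h4 m _ hv
      rw [BR1.tc] at d
      exact ⟨integrable_bm.1 c fun _ => 0, d⟩
    · have := b U μ (fun ζ _ => P ζ) h2 h3 (fun ζ hζ => ⟨(h4 ζ hζ).1, BR1.adm (h4 ζ hζ).2⟩)
        fun _ => h5
      simpa only [BR1.tc] using this

end Pool.Agent.Lib.IS3
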