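import Pool.Agent.Lib.IS3.Kit
import Pool.Agent.Lib.IS2.B_BR

/-! Row BRM: the identity between the branches that follows from the weighted moments. -/

open scoped ContDiff Topology Real ENNReal NNReal
open MeasureTheory Set Filter

noncomputable section

namespace Pool.Agent.Lib.IS3

open Pool.Agent.Lib.ISO Pool.Agent.Lib.IS2 Pool.Agent.Lib.IS2.BR

namespace BRM

theorem sh {k : ℝ → ℝ} (hk : Per (2 * π) k) (v : ℝ) (F : BoundedContinuousFunction ℝ ℝ) :
    ∫ x, F x ∂(volume.restrict (Ico v (v + 2 * π))).map k = ∫ s in (0 : ℝ)..(2 * π), F (k s) := by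
  rw [integral_map (cont hk).aemeasurable F.continuous.aestronglyMeasurable,
    integral_Ico_eq_integral_Ioo, ← integral_Ioc_eq_integral_Ioo,
    ← intervalIntegral.integral_of_le (by linarith [pp])]
  have : Function.Periodic (fun s => F (k s)) (2 * π) := fun s => by simp only [hk.per]
  simpa using this.intervalIntegral_add_eq v 0

theorem pol {k : ℝ → ℝ} (hk : Continuous k) (p : Polynomial ℝ) :
    ∫ s in (0 : ℝ)..(2 * π), p.eval (k s) = ∑ i ∈ Finset.range (p.natDegree + 1),
      p.coeff i * ∫ s in (0 : ℝ)..(2 * π), k s ^ i := by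
  simp only [Polynomial.eval_eq_sum_range]
  rw [intervalIntegral.integral_finsetSum fun i _ =>
    Continuous.intervalIntegrable (by fun_prop) _ _]
  exact Finset.sum_congr rfl fun i _ => intervalIntegral.integral_const_mul _ _

theorem near {k F : ℝ → ℝ} (hk : Continuous k) (hF : Continuous F) {p : Polynomial ℝ} {B η : ℝ}
    (hq : ∀ x ∈ Icc (-B) B, |p.eval x - F x| < η) (hb : ∀ s ∈ uIcc 0 (2 * π), |k s| ≤ B) :
    |(∫ s in (0 : ℝ)..(2 * π), p.eval (k s)) - ∫ s in (0 : ℝ)..(2 * π), F (k s)| ≤ η * (2 * π) := by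
  rw [← intervalIntegral.integral_sub (Continuous.intervalIntegrable (by fun_prop) _ _)
    (Continuous.intervalIntegrable (by fun_prop) _ _)]
  refine (intervalIntegral.norm_integral_le_of_norm_le_const (C := η)
    (f := fun s => p.eval (k s) - F (k s)) fun s hs =>
    (hq _ (abs_le.1 (hb s (uIoc_subset_uIcc hs)))).le).trans (le_of_eq ?_)
  rw [sub_zero, abs_of_pos pp]

theorem push {N : ℕ} {κ : ℝ → ℝ} {m : Fin N → ℝ} {g : Fin N → ℝ → ℝ} (h : Per (2 * π) κ)
    (h' : ∀ c, Per (2 * π) (g c)) (hM : MoM κ m g) (u : ℝ) (u' : Fin N → ℝ) :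
    (volume.restrict (Ico u (u + 2 * π))).map κ =
      ∑ c, (m c).toNNReal • (volume.restrict (Ico (u' c) (u' c + 2 * π))).map (g c) := by
  refine ext_of_forall_integral_eq_of_IsFiniteMeasure fun F => ?_
  rw [integral_finsetSum_measure fun c _ => F.integrable _, sh h]
  simp only [integral_smul_nnreal_measure, sh (h' _), NNReal.smul_def, smul_eq_mul,
    Real.coe_toNNReal _ (hM.1 _)]
  have hp : ∀ p : Polynomial ℝ, ∫ s in (0 : ℝ)..(2 * π), p.eval (κ s) =
      ∑ c, m c * ∫ s in (0 : ℝ)..(2 * π), p.eval (g c s) := fun p => by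
    simp only [pol (cont h), pol (cont (h' _)), hM.2, Finset.mul_sum]
    rw [Finset.sum_comm]
    exact Finset.sum_congr rfl fun c _ => Finset.sum_congr rfl fun i _ => by ring
  obtain ⟨B, hB⟩ := (isCompact_uIcc (a := (0 : ℝ)) (b := 2 * π)).exists_bound_of_continuousOn
    ((cont h).prodMk (continuous_pi fun c => cont (h' c))).continuousOn
  have hS : 0 ≤ ∑ c, m c := Finset.sum_nonneg fun c _ => hM.1 c
  have hC : 0 < 2 * π * (1 + ∑ c, m c) := mul_pos pp (by linarith)
  refine eq_of_forall_dist_le fun ε hε => ?_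
  obtain ⟨η, hη, he⟩ : ∃ η, 0 < η ∧ η * (2 * π * (1 + ∑ c, m c)) = ε :=
    ⟨ε / (2 * π * (1 + ∑ c, m c)), div_pos hε hC, div_mul_cancel₀ _ hC.ne'⟩
  obtain ⟨p, hq⟩ := exists_polynomial_near_of_continuousOn (-B) B F F.continuous.continuousOn η hη
  have k1 := near (cont h) F.continuous hq fun s hs => (le_max_left _ _).trans (hB s hs)
  have k2 : ∀ c, |(∫ s in (0 : ℝ)..(2 * π), p.eval (g c s)) -
      ∫ s in (0 : ℝ)..(2 * π), F (g c s)| ≤ η * (2 * π) := fun c =>
    near (cont (h' c)) F.continuous hq fun s hs =>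
      (norm_le_pi_norm (fun c => g c s) c).trans ((le_max_right _ _).trans (hB s hs))
  have k3 : |(∑ c, m c * ∫ s in (0 : ℝ)..(2 * π), p.eval (g c s)) -
      ∑ c, m c * ∫ s in (0 : ℝ)..(2 * π), F (g c s)| ≤ (∑ c, m c) * (η * (2 * π)) := by
    rw [← Finset.sum_sub_distrib, Finset.sum_mul]
    refine (Finset.abs_sum_le_sum_abs _ _).trans (Finset.sum_le_sum fun c _ => ?_)
    rw [← mul_sub, abs_mul, abs_of_nonneg (hM.1 c)]
    exact mul_le_mul_of_nonneg_left (k2 c) (hM.1 c)
  rw [hp p] at k1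
  rw [Real.dist_eq, abs_le] at *
  constructor <;> linarith [k1.1, k1.2, k3.1, k3.2]

theorem nn (k : ℝ → ℝ) (t : ℝ) : 0 ≤ sl k t := inv_nonneg.2 (abs_nonneg _)

end BRM

theorem st_brm : St_BRM := by
  intro N κ m g h h' hM a b n s n' s' hB hB' x hx
  obtain ⟨u, V, hV, H⟩ := cnt h hB hx
  choose u' V' hV' H' using fun c => cnt (h' c) (hB' c) hx
  obtain ⟨U, hU, hO, hxU⟩ := mem_nhds_iff.1
    (inter_mem (inter_mem hV (iInter_mem.2 hV')) (isOpen_Ioo.mem_nhds hx))
  have c1 : ContinuousOn (fun y => ∑ i, sl κ (s i y)) U :=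
    continuousOn_finsetSum _ fun i _ => (csl h hB i).mono fun y hy => (hU hy).2
  have c3 : ∀ c, ContinuousOn (fun y => ∑ k, sl (g c) (s' c k y)) U := fun c =>
    continuousOn_finsetSum _ fun i _ => (csl (h' c) (hB' c) i).mono fun y hy => (hU hy).2
  have c2 : ContinuousOn (fun y => ∑ c, m c * ∑ k, sl (g c) (s' c k y)) U :=
    continuousOn_finsetSum _ fun c _ => continuousOn_const.mul (c3 c)
  have n3 : ∀ c y, 0 ≤ m c * ∑ k, sl (g c) (s' c k y) := fun c y =>
    mul_nonneg (hM.1 c) (Finset.sum_nonneg fun i _ => BRM.nn _ _)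
  refine Measure.eqOn_open_of_ae_eq (μ := volume) ?_ hO c1 c2 hxU
  have := ae_eq_of_forall_setLIntegral_eq_of_sigmaFinite₀ (μ := volume.restrict U)
    (c1.aemeasurable hO.measurableSet).ennreal_ofReal
    (c2.aemeasurable hO.measurableSet).ennreal_ofReal fun E hE _ => by
      have hm := hE.inter hO.measurableSet
      have hc : ∀ c, AEMeasurable (fun y => ENNReal.ofReal (∑ k, sl (g c) (s' c k y)))
          (volume.restrict (E ∩ U)) := fun c =>
        (((c3 c).mono inter_subset_right).aemeasurable hm).ennreal_ofReal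
      rw [Measure.restrict_restrict hE, ← H _ (fun y hy => (hU hy.2).1.1) hm,
        BRM.push h h' hM u u', Measure.finsetSum_apply]
      simp only [ENNReal.ofReal_sum_of_nonneg fun c _ => n3 c _, ENNReal.ofReal_mul (hM.1 _)]
      rw [lintegral_finsetSum' _ fun c _ => (hc c).const_mul _]
      refine Finset.sum_congr rfl fun c _ => ?_
      rw [lintegral_const_mul'' _ (hc c),
        ← H' c _ (fun y hy => mem_iInter.1 (hU hy.2).1.2 c) hm]
      rfl
  filter_upwards [this] with y hy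
  exact (ENNReal.ofReal_eq_ofReal_iff (Finset.sum_nonneg fun i _ => BRM.nn _ _)
    (Finset.sum_nonneg fun c _ => n3 c y)).1 hy

end Pool.Agent.Lib.IS3
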