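import Pool.Agent.Lib.IS3.Kit

/-! The row BUMP. -/

open scoped ContDiff Topology Real
open Set Filter

noncomputable section

namespace Pool.Agent.Lib.IS3

open Pool.Agent.Lib.ISO Pool.Agent.Lib.IS2

namespace BUMP

/-- The profile. -/
def f (x : ℝ) : ℝ := Real.smoothTransition ((1 / 5 - x) * (40 / 3))

lemma f_sm : ContDiff ℝ ∞ f :=
  Real.smoothTransition.contDiff.comp ((contDiff_const.sub contDiff_id).mul contDiff_const)

lemma f1_sm : ContDiff ℝ ∞ (deriv f) := (contDiff_infty_iff_deriv.1 f_sm).2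

lemma f2_sm : ContDiff ℝ ∞ (deriv (deriv f)) := (contDiff_infty_iff_deriv.1 f1_sm).2

lemma f_zero {x : ℝ} (h : 1 / 5 ≤ x) : f x = 0 :=
  Real.smoothTransition.zero_of_nonpos (by linarith)

lemma f_one {x : ℝ} (h : x ≤ 1 / 8) : f x = 1 :=
  Real.smoothTransition.one_of_one_le (by linarith)

lemma dz {g : ℝ → ℝ} (h : ∀ x, 1 / 5 < x → g x = 0) (x : ℝ) (hx : 1 / 5 < x) : deriv g x = 0 := by
  have : g =ᶠ[𝓝 x] fun _ => 0 := (lt_mem_nhds hx).mono h
  rw [this.deriv_eq, deriv_const]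

lemma f1_zero (x : ℝ) (hx : 1 / 5 < x) : deriv f x = 0 := dz (fun _ h => f_zero h.le) x hx

lemma f2_zero (x : ℝ) (hx : 1 / 5 < x) : deriv (deriv f) x = 0 := dz f1_zero x hx

lemma bd : ∃ K, 0 ≤ K ∧ ∀ x ∈ Icc (0 : ℝ) (1 / 5), |deriv f x| ≤ K ∧ |deriv (deriv f) x| ≤ K := by
  obtain ⟨A, hA⟩ := isCompact_Icc.exists_bound_of_continuousOn
    (f1_sm.continuous.continuousOn (s := Icc (0 : ℝ) (1 / 5)))
  obtain ⟨B, hB⟩ := isCompact_Icc.exists_bound_of_continuousOn
    (f2_sm.continuous.continuousOn (s := Icc (0 : ℝ) (1 / 5)))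
  refine ⟨|A| + |B|, by positivity, fun x hx => ⟨?_, ?_⟩⟩
  · have := hA x hx
    rw [Real.norm_eq_abs] at this
    linarith [le_abs_self A, abs_nonneg B]
  · have := hB x hx
    rw [Real.norm_eq_abs] at this
    linarith [le_abs_self B, abs_nonneg A]

lemma cos_dc (s α : ℝ) : Real.cos (s - α) = Real.cos (dc s α) := by
  obtain ⟨k, hk⟩ := exists_dc s α
  rw [← hk, Real.cos_abs, ← sub_sub, Real.cos_sub_int_mul_two_pi]

lemma low {d : ℝ} (h0 : 0 ≤ d) (h : d ≤ π) : d ^ 2 / 5 ≤ 1 - Real.cos d := by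
  have h1 := Real.cos_le_one_sub_mul_cos_sq (x := d) (by rwa [abs_of_nonneg h0])
  have h2 : π ^ 2 ≤ 10 := by nlinarith [Real.pi_lt_d2, Real.pi_pos]
  have h3 : 1 / 5 ≤ 2 / π ^ 2 := by
    rw [div_le_div_iff₀ (by norm_num) (by positivity)]
    linarith
  nlinarith [mul_le_mul_of_nonneg_right h3 (sq_nonneg d)]

end BUMP

open BUMP in
theorem st_bump : St_BUMP := by
  obtain ⟨K, K0, hK⟩ := bd
  refine ⟨2 * K, fun e α e0 e1 => ?_⟩
  have e2 : 0 < e ^ 2 := by positivity
  set u : ℝ → ℝ := fun s => (1 - Real.cos (s - α)) / e ^ 2 with hu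
  have us : ContDiff ℝ ∞ u :=
    (contDiff_const.sub (Real.contDiff_cos.comp (contDiff_id.sub contDiff_const))).div_const _
  have u0 : ∀ s, 0 ≤ u s := fun s => div_nonneg (sub_nonneg.2 (Real.cos_le_one _)) e2.le
  have hd : ∀ s, HasDerivAt u (Real.sin (s - α) / e ^ 2) s := fun s => by
    simpa using ((((hasDerivAt_id' s).sub_const α).cos).const_sub 1).div_const (e ^ 2)
  have hs : ∀ s, HasDerivAt (fun s => Real.sin (s - α) / e ^ 2) (Real.cos (s - α) / e ^ 2) s :=
    fun s => by simpa using (((hasDerivAt_id' s).sub_const α).sin).div_const (e ^ 2)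
  have d1 : deriv (fun s => f (u s)) = fun s => deriv f (u s) * (Real.sin (s - α) / e ^ 2) :=
    funext fun s => (((f_sm.differentiable (by simp)) (u s)).hasDerivAt.comp s (hd s)).deriv
  have d2 : ∀ s, deriv (deriv fun s => f (u s)) s =
      deriv (deriv f) (u s) * (Real.sin (s - α) / e ^ 2) * (Real.sin (s - α) / e ^ 2) +
        deriv f (u s) * (Real.cos (s - α) / e ^ 2) := fun s => by
    rw [d1]
    exact ((((f1_sm.differentiable (by simp)) (u s)).hasDerivAt.comp s (hd s)).mul (hs s)).deriv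
  have sb : ∀ s, u s ≤ 1 / 5 → |Real.sin (s - α) / e ^ 2| ≤ 1 / e := fun s h => by
    rw [hu, div_le_iff₀ e2] at h
    have h1 : Real.sin (s - α) ^ 2 ≤ e ^ 2 := by
      nlinarith [Real.sin_sq_add_cos_sq (s - α), sq_nonneg (1 - Real.cos (s - α))]
    rw [abs_div, abs_of_pos e2, div_le_div_iff₀ e2 e0]
    nlinarith [abs_le_of_sq_le_sq h1 e0.le]
  refine ⟨fun s => f (u s), ⟨f_sm.comp us, fun s => ?_⟩, fun s => Real.smoothTransition.nonneg _,
    fun s => Real.smoothTransition.le_one _, fun s h => f_one ?_, fun s h => f_zero ?_,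
    fun s => ?_, fun s => ?_⟩
  · simp only [hu, add_sub_right_comm, Real.cos_add_two_pi]
  · rw [hu, div_le_iff₀ e2, cos_dc]
    nlinarith [Real.one_sub_sq_div_two_le_cos (x := dc s α), dc_nonneg s α]
  · rw [hu, le_div_iff₀ e2, cos_dc]
    nlinarith [low (dc_nonneg s α) (dc_le_pi s α)]
  · rw [d1]
    rcases le_or_gt (u s) (1 / 5) with h | h
    · rw [abs_mul]
      calc _ ≤ K * (1 / e) := mul_le_mul (hK _ ⟨u0 s, h⟩).1 (sb s h) (abs_nonneg _) K0
        _ ≤ 2 * K * (1 / e) := mul_le_mul_of_nonneg_right (by linarith) (by positivity)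
        _ = _ := by ring
    · simp only [f1_zero _ h, zero_mul, abs_zero]
      positivity
  · rw [d2]
    rcases le_or_gt (u s) (1 / 5) with h | h
    · have c : |Real.cos (s - α) / e ^ 2| ≤ 1 / e ^ 2 := by
        rw [abs_div, abs_of_pos e2]
        exact div_le_div_of_nonneg_right (Real.abs_cos_le_one _) e2.le
      refine (abs_add_le _ _).trans ?_
      rw [abs_mul, abs_mul, abs_mul]
      calc _ ≤ K * (1 / e) * (1 / e) + K * (1 / e ^ 2) :=
            add_le_add (mul_le_mul (mul_le_mul (hK _ ⟨u0 s, h⟩).2 (sb s h) (abs_nonneg _) K0)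
              (sb s h) (abs_nonneg _) (by positivity))
              (mul_le_mul (hK _ ⟨u0 s, h⟩).1 c (abs_nonneg _) K0)
        _ = _ := by field_simp; ring
    · simp only [f1_zero _ h, f2_zero _ h, zero_mul, add_zero, abs_zero]
      positivity

end Pool.Agent.Lib.IS3
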