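import Pool.Agent.Lib.IS3.Blue
import Pool.Agent.Lib.IS2.BlueG

/-! Statements of the blocks that use the operator library. -/

open scoped ContDiff ComplexConjugate Topology Real
open Complex MeasureTheory Set Filter

noncomputable section

namespace Pool.Agent.Lib.IS3

open Pool.Agent.Lib.ISO Pool.Agent.Lib.IS2
open Pool.Agent.Lib.MP_312682_mp (Geo GO hsq tl vol E3 Defs.SmoothDomain Defs.dirEig)

/-- a domain bounded by the curves `l i * G i` -/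
def GM {N : ℕ} (Ω : Set ℂ) (l : Fin N → ℝ) (G : MC N) (φ : ℂ → ℝ) : Prop :=
  (∀ i, 0 < l i) ∧ Geo Ω (fun i s => l i * G i (s / l i)) (fun i => 2 * π * l i) φ
def Isp (Ω Ω' : Set ℂ) : Prop :=
  Defs.SmoothDomain Ω ∧ Defs.SmoothDomain Ω' ∧ ∀ n, Defs.dirEig Ω n = Defs.dirEig Ω' n

def St_STAR : Prop := ∃ ε > 0, ∀ (H : ℝ → ℂ) (z u : ℂ), ‖u‖ = 1 → ContDiff ℝ ∞ H →
  Function.Periodic H (2 * π) → (∀ s, ‖deriv H s‖ = 1) →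
  (∀ s : ℝ, ‖H s - (z + u * exp (I * s))‖ ≤ ε ∧ ‖deriv H s - I * u * exp (I * s)‖ ≤ ε) →
  ∃ Ω φ, G1 Ω H φ

def St_DIVm : Prop := ∀ (N : ℕ) Ω l (G : MC N) φ, GM Ω l G φ → CDm Ω (scm l G)

def St_HSQ1m : Prop := ∀ (N : ℕ) μ (Γ : MC N) Ω, Potm μ Γ Ω → ∀ f : ℂ → ℝ, ContDiff ℝ ∞ f →
  HasCompactSupport f → tsupport f ⊆ Ω →
  GO μ Ω (tl vol fun z => (!₂[(f z : ℂ), 0, 0] : E3)) = tl vol fun x =>
    (!₂[((Ω.indicator (fun x => μ ^ 2 * ∫ y in Ω, Rgm μ Γ Ω x y * f y) x : ℝ) : ℂ), 0, 0] : E3)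

def St_HSQm : Prop := ∀ (N : ℕ) μ (Γ : MC N) Ω, Potm μ Γ Ω → hsq (GO μ Ω) = μ ^ 4 * RRm μ μ Γ Ω

def St_NCM : Prop := ∀ (N : ℕ) Ω l (G : MC N) φ, GM Ω l G φ → ∃ j0, ∀ j, j0 ≤ j → Sd j l G

def St_ONEM : Prop := ∃ C : ℕ → ℝ, ∀ (N N' : ℕ) Ω Ω' l l' (G : MC N) (G' : MC N') φ φ',
  GM Ω l G φ → GM Ω' l' G' φ' → Isp Ω Ω' → volume.real Ω = volume.real Ω' ∧
    (∀ μ : ℝ, 1 ≤ μ → hsq (GO μ Ω) = hsq (GO μ Ω')) ∧ ∑ i, l i = ∑ i, l' i ∧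
    InvB C l (fun i => kp (G i)) l' fun i => kp (G' i)

def St_CST : Prop := ∀ (N N' : ℕ) Ω Ω' l l' (G : MC N) (G' : MC N') φ φ', GM Ω l G φ →
  GM Ω' l' G' φ' → Isp Ω Ω' → ∃ j, Sd j l G ∧ Sd j l' G' ∧ Cst j (scm l G) (scm l' G')

def St_GEOM : Prop := (∀ Ω, Defs.SmoothDomain Ω → ∃ (N : ℕ) (l : Fin N → ℝ) (G : MC N) (φ : ℂ → ℝ),
    GM Ω l G φ) ∧
  (∀ (N : ℕ) Ω l (G : MC N) φ (c : ℝ), 0 < c → GM Ω l G φ →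
    ∃ φ', GM ((fun z : ℂ => (c : ℂ) * z) '' Ω) (fun i => c * l i) G φ') ∧
  ∀ (N : ℕ) (f : Fin N → Jordan) Ω, Defs.SmoothDomain Ω →
    Pairwise (fun i k => Disjoint (range (UniformFun.toFun ((f i).1 0)))
      (range (UniformFun.toFun ((f k).1 0)))) →
    frontier Ω = ⋃ i, range (UniformFun.toFun ((f i).1 0)) → ∃ σ φ, GM Ω (sp f) (uc σ f) φ

def St_CGM : Prop :=
  (∀ (N N' : ℕ) Ω Ω' l l' (G : MC N) (G' : MC N') φ φ' (e : Fin N ≃ Fin N') (τ β : Fin N → ℝ),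
    GM Ω l G φ → GM Ω' l' G' φ' → (∀ i, l' (e i) = l i ∧ (τ i = 1 ∨ τ i = -1) ∧
      ∀ t, kp (G' (e i)) t = kp (G i) (τ i * t + β i)) →
    ∃ r p, (∀ i, ‖(p i).1‖ = 1) ∧ GM Ω' l (actm r p G) φ') ∧
  ∀ (N : ℕ) Ω Ω' l (G : MC N) φ φ' r p, GM Ω l G φ → GM Ω' l (actm r p G) φ' → IsConnected Ω →
    IsConnected Ω' → (∀ i, ‖(p i).1‖ = 1) → (∀ i k, r i = r k ∧ pl l p i = pl l p k) →
    ∃ e : ℂ ≃ᵢ ℂ, e '' Ω = Ω'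

/-- the boundary curves of an isospectral mate are congruent to the given ones -/
def St_SBM : Prop := ∃ W0 : ℕ → ℕ → ℕ, ∀ (N : ℕ) Ω Ω' l (G : MC N) φ, GM Ω l G φ → Isp Ω Ω' →
  Gmm W0 (fun i => fc (kp (G i))) → ∃ r p φ', (∀ i, ‖(p i).1‖ = 1) ∧ GM Ω' l (actm r p G) φ'

def St_SCL : Prop := ∀ (N : ℕ) Ω l (G : MC N) φ, GM Ω l G φ → IsConnected Ω → SCq (scm l G)

def St_T3 : Prop := ∀ n : ℕ, ∃ G : Set (Fin n → Jordan), IsGδ G ∧ Dense G ∧ ∀ f ∈ G, ∀ Ω Ω' : Set ℂ,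
  Defs.SmoothDomain Ω → Defs.SmoothDomain Ω' →
  Pairwise (fun i k => Disjoint (range (UniformFun.toFun ((f i).1 0)))
    (range (UniformFun.toFun ((f k).1 0)))) →
  frontier Ω = ⋃ i, range (UniformFun.toFun ((f i).1 0)) →
  (∀ k, Defs.dirEig Ω k = Defs.dirEig Ω' k) → ∃ e : ℂ ≃ᵢ ℂ, e '' Ω = Ω'

end Pool.Agent.Lib.IS3
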