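import Pool.Agent.Lib.IS3.Kit
import Pool.Agent.Lib.IS3.BlueG
import Pool.Agent.Lib.ISO.B_CONG

/-! Curves with equal curvature are congruent; domains with congruent boundaries are congruent. -/

open scoped ContDiff ComplexConjugate Topology Real
open Complex Set Filter

noncomputable section

namespace Pool.Agent.Lib.IS3

open Pool.Agent.Lib.ISO Pool.Agent.Lib.IS2
open Pool.Agent.Lib.MP_312682_mp

namespace CGM

lemma cv0 {l : ℝ} {G : ℝ → ℂ} (hl : 0 < l) (h : Cv0 fun s => l * G (s / l)) : Cv0 G := by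
  have l0 : (l : ℂ) ≠ 0 := ofReal_ne_zero.2 hl.ne'
  have e : G = fun s => (l : ℂ)⁻¹ * (fun s => l * G (s / l)) (l * s) := funext fun s => by
    simp only [mul_div_cancel_left₀ s hl.ne', inv_mul_cancel_left₀ l0]
  refine ⟨by rw [e]; exact contDiff_const.mul (h.smooth.comp (contDiff_const.mul contDiff_id)),
    fun s => ?_⟩
  have d := ((h.hd0 (l * s)).scomp s ((hasDerivAt_id s).const_mul l)).const_mul (l : ℂ)⁻¹
  have d' : HasDerivAt G ((l : ℂ)⁻¹ * ((l * 1) • deriv (fun s => (l : ℂ) * G (s / l)) (l * s))) s :=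
    d.congr_of_eventuallyEq (Eventually.of_forall fun t => congrFun e t)
  rw [d'.deriv, mul_one, real_smul, inv_mul_cancel_left₀ l0, h.unit]

lemma relabel {Ω : Set ℂ} {ι κ : Type} {γ : κ → ℝ → ℂ} {L : κ → ℝ} {φ : ℂ → ℝ} (h : Geo Ω γ L φ)
    (e : ι ≃ κ) (c : ι → ℝ) : Geo Ω (fun i s => γ (e i) (s + c i)) (fun i => L (e i)) φ where
  cv i := ⟨⟨(h.cv _).smooth.comp (contDiff_id.add contDiff_const), fun s => by
    rw [deriv_comp_add_const, (h.cv _).unit]⟩, (h.cv _).pos, fun s => by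
      rw [add_right_comm, (h.cv _).per]⟩
  disj i j s t q := e.injective (h.disj _ _ _ _ q)
  inj i s t q := by
    obtain ⟨n, hn⟩ := h.inj _ _ _ q
    exact ⟨n, by linarith⟩
  smooth := h.smooth
  eq := h.eq
  zero z := by
    rw [h.zero]
    refine ⟨fun ⟨k, s, q⟩ => ⟨e.symm k, s - c (e.symm k), ?_⟩, fun ⟨i, s, q⟩ => ⟨_, _, q⟩⟩
    rw [sub_add_cancel, e.apply_symm_apply, q]
  neg i s := by
    rw [deriv_comp_add_const]
    exact h.neg _ _
  bdd := h.bdd

lemma one {G G' : ℝ → ℂ} (c : Cv0 G) (c' : Cv0 G') {τ β : ℝ} (hτ : τ = 1 ∨ τ = -1)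
    (hk : ∀ t, kap G' t = kap G (τ * t + β)) :
    ∃ (r : Bool) (p : ℂ × ℂ) (b : ℝ), ‖p.1‖ = 1 ∧ ∀ s, act r p G s = G' (s + b) := by
  rcases hτ with rfl | rfl
  · obtain ⟨m, b, hm, H⟩ := CONG.ode (g := fun s => G (s + β)) (t := fun s => deriv G (s + β))
      (k := kap G') (fun s => (c.hd0 _).comp_add_const s β) c'.hd0
      (fun s => by rw [hk, one_mul]; exact (c.hd1' _).comp_add_const s β) c'.hd1'
      (fun s => c.unit _) c'.unit
    refine ⟨false, (m, b), -β, hm, fun s => ?_⟩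
    rw [(H _).1]
    simp [act, mo, fl, add_comm]
  · obtain ⟨m, b, hm, H⟩ := CONG.ode (g := fun s => conj (G (β - s)))
      (t := fun s => -conj (deriv G (β - s))) (k := kap G')
      (fun s => by simpa using ((c.hd0 _).comp_const_sub β s).star) c'.hd0
      (fun s => by
        refine (((c.hd1' _).comp_const_sub β s).star.neg).congr_deriv ?_
        rw [hk, show -1 * s + β = β - s by ring]
        simp) c'.hd1'
      (fun s => by simpa using c.unit _) c'.unit
    refine ⟨true, (m, b), β, hm, fun s => ?_⟩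
    rw [(H _).1]
    simp [act, mo, fl, add_comm]

lemma image_eq {Ω Ω' : Set ℂ} {ι : Type} [Fintype ι] {γ γ' : ι → ℝ → ℂ} {L : ι → ℝ}
    {φ φ' : ℂ → ℝ} (h : Geo Ω γ L φ) (h' : Geo Ω' γ' L φ') (hc : IsConnected Ω)
    (hc' : IsConnected Ω') (e : ℂ ≃ᵢ ℂ) {a : ℝ → ℝ} (ha : Function.Surjective a)
    (he : ∀ i s, e (γ i (a s)) = γ' i s) (i : ι)
    (hn : ∀ x : ℝ, e (Phi (γ i) (a 0 + x * I)) = Phi (γ' i) ((0 : ℝ) + x * I)) : e '' Ω = Ω' := by
  obtain ⟨x, ⟨h1, h2⟩, hx⟩ :=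
    (((h.sign i).and (h'.sign i)).filter_mono (nhdsWithin_le_nhds (s := Ioi 0))).and
      self_mem_nhdsWithin |>.exists
  have h3 := (h1 (a 0 + x * I) (by simp)).1 (by simpa using hx)
  have h4 := (h2 ((0 : ℝ) + x * I) (by simp)).1 (by simpa using hx)
  apply Subset.antisymm
  · rintro _ ⟨z, hz, rfl⟩
    refine h'.mem.2 (CONG.sub hc.2 (h'.smooth.continuous.comp e.continuous) (fun w hw h0 => ?_)
      (h.mem.2 h3) (by rwa [Function.comp_apply, hn]) z hz)
    obtain ⟨k, s, hs⟩ := (h'.zero _).1 h0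
    rw [← he] at hs
    exact h.not_mem k _ (e.injective hs ▸ hw)
  · intro z hz
    refine ⟨e.symm z, h.mem.2 (CONG.sub hc'.2 (h.smooth.continuous.comp e.symm.continuous)
      (fun w hw h0 => ?_) (h'.mem.2 h4) ?_ z hz), e.apply_symm_apply z⟩
    · obtain ⟨k, s, hs⟩ := (h.zero _).1 h0
      obtain ⟨s, rfl⟩ := ha s
      have : γ' k s = w := by rw [← he, hs, e.apply_symm_apply]
      exact h'.not_mem k _ (this ▸ hw)
    · rwa [Function.comp_apply, ← hn, e.symm_apply_apply]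

lemma nonempty {Ω : Set ℂ} {ι : Type} [Fintype ι] {γ : ι → ℝ → ℂ} {L : ι → ℝ} {φ : ℂ → ℝ}
    (h : Geo Ω γ L φ) (hc : Ω.Nonempty) : Nonempty ι := by
  by_contra h0
  obtain ⟨z, hz⟩ := hc
  have hu := CONG.sub (Ω := univ) isPreconnected_univ h.smooth.continuous
    (fun w _ q => by
      obtain ⟨i, -⟩ := (h.zero w).1 q
      exact h0 ⟨i⟩) (mem_univ z) (h.mem.1 hz)
  obtain ⟨R, hR⟩ := h.bdd.exists_norm_le
  have h1 := hR ((|R| + 1 : ℝ) : ℂ) (h.mem.2 (hu _ (mem_univ _)))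
  rw [norm_real, Real.norm_eq_abs, abs_of_pos (by positivity)] at h1
  linarith [le_abs_self R]

lemma exists_mo (r : Bool) {p : ℂ × ℂ} (hp : ‖p.1‖ = 1) : ∃ e : ℂ ≃ᵢ ℂ, ∀ z, e z = mo r p z := by
  obtain ⟨e, he⟩ := CONG.exists_iso p.2 hp
  cases r
  · exact ⟨e, fun z => by simp [he, mo, add_comm]⟩
  · refine ⟨conjLIE.toIsometryEquiv.trans e, fun z => ?_⟩
    have : (conjLIE.toIsometryEquiv.trans e) z = p.2 + p.1 * conj z := he _
    simp [this, mo, add_comm]

lemma act_sc (l : ℝ) (r : Bool) (p : ℂ × ℂ) (G : ℝ → ℂ) :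
    (fun s => l * act r p G (s / l)) = act r (p.1, l * p.2) fun s => l * G (s / l) := by
  funext s
  simp only [act, mo_eq, ml_real, mul_add, fl_eq, mul_div_assoc]

end CGM

theorem st_cgm : St_CGM := by
  refine ⟨fun N N' Ω Ω' l l' G G' φ φ' e τ β h h' H => ?_,
    fun N Ω Ω' l G φ φ' r p h h' hc hc' hp H => ?_⟩
  · choose r p b hp hb using fun i => CGM.one (CGM.cv0 (h.1 i) (h.2.cv i).toCv0)
      (CGM.cv0 (h'.1 (e i)) (h'.2.cv (e i)).toCv0) (H i).2.1 (H i).2.2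
    refine ⟨r, p, hp, h.1, ?_⟩
    have q := CGM.relabel h'.2 e fun i => l i * b i
    have e1 : (fun i s => (l i : ℂ) * actm r p G i (s / l i)) =
        fun i s => (l' (e i) : ℂ) * G' (e i) ((s + l i * b i) / l' (e i)) := by
      funext i s
      rw [actm, hb, (H i).1, add_div, mul_div_cancel_left₀ _ (h.1 i).ne']
    have e2 : (fun i => 2 * π * l i) = fun i => 2 * π * l' (e i) := funext fun i => by rw [(H i).1]
    rw [e1, e2]
    exact q
  · obtain ⟨i⟩ := CGM.nonempty h.2 hc.1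
    obtain ⟨e, he⟩ := CGM.exists_mo (r i) (p := pl l p i) (hp i)
    have e1 : ∀ k, (fun s => (l k : ℂ) * actm r p G k (s / l k)) =
        act (r i) (pl l p i) fun s => l k * G k (s / l k) := fun k => by
      rw [← (H k i).1, ← (H k i).2]
      exact CGM.act_sc _ _ _ _
    refine ⟨e, CGM.image_eq h.2 h'.2 hc hc' e (a := fl (r i)) (fun t => ⟨_, fl_fl _ t⟩)
      (fun k s => by rw [he, congrFun (e1 k) s, act]) i fun x => ?_⟩
    have d := nr_act (r i) (pl l p i) ((h.2.cv i).smooth.differentiable (by simp)) 0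
    rw [e1 i, he]
    simp only [nr] at d
    simp only [Phi, add_re, ofReal_re, mul_re, I_re, mul_zero, ofReal_im, I_im, mul_one, sub_self,
      add_zero, add_im, mul_im, zero_add, d, act, mo_eq, map_add, ml_real]
    ring

end Pool.Agent.Lib.IS3
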