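import Pool.Agent.Lib.IS3.Kit
import Pool.Agent.Lib.IS3.BlueG

/-! Every short arc of a scaled curve lies on a Jordan curve of length `2π`. -/

open scoped ContDiff ComplexConjugate Topology Real
open Complex MeasureTheory Set Filter

noncomputable section

namespace Pool.Agent.Lib.IS3

open Pool.Agent.Lib.ISO Pool.Agent.Lib.IS2

namespace CMP

lemma add_int {ψ : ℝ → ℝ} (h : ∀ u, ψ (u + 2 * π) = ψ u + 2 * π) (u : ℝ) (k : ℤ) :
    ψ (u + k * (2 * π)) = ψ u + k * (2 * π) := by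
  have p : Function.Periodic (fun u => ψ u - u) (2 * π) := fun u => by simp only [h]; ring
  linarith [p.int_mul k u]

lemma shift {j l β : ℝ} {G : ℝ → ℂ} (hG : Function.Periodic G (2 * π)) (h : Cp j l G β) (k : ℤ) :
    Cp j l G (β + k * (2 * π)) := by
  obtain ⟨Ω, H, η, ψ, χ, c, h1, h2, h3, h4, h5⟩ := h
  refine ⟨Ω, H, η, ψ, χ, c + k * (2 * π) - l * (k * (2 * π)), h1, h2, h3, h4, fun u hu => ?_⟩
  obtain ⟨v, rfl⟩ : ∃ v, u = v + k * (2 * π) := ⟨u - k * (2 * π), by ring⟩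
  obtain ⟨a, b⟩ := h5 v (by rwa [add_sub_add_right_eq_sub] at hu)
  rw [add_int h3.a1, h2.per.int_mul k, a, b, sc, sc, hG.int_mul k]
  exact ⟨rfl, by ring⟩

lemma rc {Ω : Set ℂ} {H : ℝ → ℂ} {φ : ℂ → ℝ} {ψ χ : ℝ → ℝ} {j : ℝ} (g : G1 Ω H φ) (h : Nc j H)
    (r : Rp ψ χ) : Rc fun _ : Fin 1 => fun u => H (ψ u) := by
  refine ⟨fun _ => h.smooth.comp r.s1, fun _ u => by simp only [r.a1, h.per (ψ u)], fun _ s e => ?_,
    fun x y e => ⟨Subsingleton.elim _ _, ?_⟩⟩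
  · have d := ((h.smooth.differentiable (by simp) (ψ s)).hasDerivAt.scomp s
      (r.s1.differentiable (by simp) s).hasDerivAt).deriv
    have n := congrArg norm (d.symm.trans e)
    rw [norm_smul, h.unit, mul_one, norm_zero, norm_eq_zero] at n
    exact (r.p1 s).ne' n
  · obtain ⟨k, hk⟩ := g.inj 0 (ψ x.2) (ψ y.2) e
    refine ⟨k, ?_⟩
    rw [← r.l y.2, hk, ← add_int r.a1, r.l]

lemma loc (h1 : St_CMP1) (hP : St_PSI) (hN : St_NVE) (hS : St_STAR) (hB : St_B0) (hC : St_NCE)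
    {j l : ℝ} {G : ℝ → ℂ} (hl : 0 < l) (h : Nc j G) (b : ℝ) :
    ∃ j1 > 0, ∀ β, |β - b| ≤ j1⁻¹ → Cp j1 l G β := by
  obtain ⟨ε, hε, st⟩ := hS
  have hd : ∀ s, HasDerivAt (fun s => (l : ℂ) * G (b + s / l)) (deriv G (b + s / l)) s := fun s => by
    have a : HasDerivAt (fun s : ℝ => b + s / l) (1 / l) s :=
      ((hasDerivAt_id s).div_const l).const_add b
    have := ((h.smooth.differentiable (by simp) _).hasDerivAt.scomp s a).const_mul (l : ℂ)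
    refine this.congr_deriv ?_
    have : (l : ℂ) ≠ 0 := ofReal_ne_zero.2 hl.ne'
    rw [real_smul]
    push_cast
    field_simp
  obtain ⟨δ, hδ, H, z, u, hu, s1, s2, s3, s4, s5⟩ := h1 (fun s => (l : ℂ) * G (b + s / l)) ε
    (contDiff_const.mul (h.smooth.comp (contDiff_const.add (contDiff_id.div_const l))))
    (fun s => by rw [(hd s).deriv, h.unit]) hε
  obtain ⟨Ω, φ, g⟩ := st H z u hu s1 s2 s3 s5
  obtain ⟨η, dg⟩ := hB Ω H φ g
  obtain ⟨-, j0, nc⟩ := hC Ω H φ g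
  obtain ⟨ψ, χ, δ', hδ', rp, ps⟩ := hP l b hl
  obtain ⟨j2, nv⟩ := hN.1 1 _ (rc g (nc j0 le_rfl) rp)
  obtain ⟨J, a0, a1, a2, a3⟩ : ∃ J, j0 ≤ J ∧ j2 ≤ J ∧ 2 / δ' ≤ J ∧ 2 * l / δ ≤ J :=
    ⟨max (max j0 j2) (max (2 / δ') (2 * l / δ)), by simp, by simp, by simp, by simp⟩
  have J0 : 0 < J := (div_pos two_pos hδ').trans_le a2
  refine ⟨J, J0, fun β hβ => ⟨Ω, H, η, ψ, χ, -(l * b), dg, nc J a0, rp, nv J a1, fun v hv => ?_⟩⟩
  have e : |v - b| ≤ 2 * J⁻¹ := (abs_sub_le v β b).trans (by linarith)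
  rw [div_le_iff₀ hδ'] at a2
  rw [div_le_iff₀ hδ] at a3
  rw [← div_eq_mul_inv, le_div_iff₀ J0] at e
  have e1 : |v - b| ≤ δ' := le_of_mul_le_mul_right (by nlinarith) J0
  have e2 : |l * (v - b)| ≤ δ := le_of_mul_le_mul_right (by
    rw [abs_mul, abs_of_pos hl]; nlinarith) J0
  rw [ps v e1, s4 _ e2, mul_div_cancel_left₀ _ hl.ne', add_sub_cancel]
  exact ⟨rfl, by ring⟩

end CMP

open CMP in
theorem st_cmp (h1 : St_CMP1) (hP : St_PSI) (hN : St_NVE) (hS : St_STAR) (hB : St_B0)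
    (hC : St_NCE) : St_CMP := by
  intro j l G hl h
  obtain ⟨j0, k⟩ : ∃ j0, ∀ β ∈ Icc (0 : ℝ) (2 * π), Cp j0 l G β := by
    refine isCompact_Icc.induction_on (p := fun s => ∃ j0, ∀ β ∈ s, Cp j0 l G β)
      ⟨0, fun _ e => e.elim⟩ (fun _ _ e ⟨a, ha⟩ => ⟨a, fun β hβ => ha β (e hβ)⟩)
      (fun _ _ ⟨a, ha⟩ ⟨b, hb⟩ => ⟨max a b, fun β hβ => hβ.elim
        (fun e => (ha β e).mono (le_max_left _ _)) fun e => (hb β e).mono (le_max_right _ _)⟩)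
      fun b _ => ?_
    obtain ⟨J, J0, hJ⟩ := loc h1 hP hN hS hB hC hl h b
    exact ⟨_, mem_nhdsWithin_of_mem_nhds (Metric.closedBall_mem_nhds b (inv_pos.2 J0)), J, hJ⟩
  refine ⟨j0, fun j' hj β => ?_⟩
  have m := toIcoMod_mem_Ico' Real.two_pi_pos β
  have := shift h.per ((k _ (Ico_subset_Icc_self m)).mono hj) (toIcoDiv Real.two_pi_pos 0 β)
  rwa [← zsmul_eq_mul, toIcoMod_add_toIcoDiv_zsmul] at this

end Pool.Agent.Lib.IS3
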