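import Pool.Agent.Lib.IS3.Kit

/-! An arc closes up to a curve near a circle. -/

open scoped ContDiff ComplexConjugate Topology Real
open Complex MeasureTheory Set Filter

noncomputable section

namespace Pool.Agent.Lib.IS3

namespace CMP1

theorem cd_arg {w : ℂ} (h : w ∈ slitPlane) : ContDiffAt ℝ ∞ arg w :=
  (imCLM.contDiff.contDiffAt.comp w
    ((Complex.contDiffAt_log h (n := ∞)).restrict_scalars ℝ)).congr_of_eventuallyEq
    (Eventually.of_forall fun x => (log_im x).symm)

theorem cd_exp {X : ℝ → ℝ} (h : ContDiff ℝ ∞ X) : ContDiff ℝ ∞ fun s => exp (I * X s) :=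
  (contDiff_const.mul (ofRealCLM.contDiff.comp h)).cexp

/-- periodic extension of a germ -/
theorem ext {Y : ℝ → ℝ} {e : ℝ} (h : ∀ᶠ s in 𝓝 (0 : ℝ), ContDiffAt ℝ ∞ Y s ∧ |Y s| ≤ e) :
    ∃ δ > 0, ∃ X : ℝ → ℝ, ContDiff ℝ ∞ X ∧ Function.Periodic X π ∧ (∀ s, |X s| ≤ e) ∧
      ∀ s, |s| ≤ δ → X s = Y s := by
  have a1 : Tendsto (fun w : ℂ => arg w / 2) (𝓝 1) (𝓝 0) := by
    simpa using ((continuousAt_arg one_mem_slitPlane).div_const 2).tendsto
  have a2 : ∀ᶠ w in 𝓝 (1 : ℂ), ContDiffAt ℝ ∞ (fun w => Y (arg w / 2)) w ∧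
      |Y (arg w / 2)| ≤ e := by
    filter_upwards [a1.eventually h, isOpen_slitPlane.mem_nhds one_mem_slitPlane] with w hw hs
    exact ⟨hw.1.comp w ((cd_arg hs).div_const 2), hw.2⟩
  obtain ⟨r, hr, hb⟩ := Metric.nhds_basis_closedBall.eventually_iff.1 a2
  let b : ContDiffBump (1 : ℂ) := ⟨r / 2, r, half_pos hr, half_lt_self hr⟩
  have c1 : ContDiff ℝ ∞ fun w => b w * Y (arg w / 2) := contDiff_iff_contDiffAt.2 fun w => by
    by_cases hw : w ∈ tsupport b
    · exact b.contDiff.contDiffAt.mul (hb (b.tsupport_eq ▸ hw)).1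
    · refine (contDiffAt_const (c := 0)).congr_of_eventuallyEq ?_
      filter_upwards [notMem_tsupport_iff_eventuallyEq.1 hw] with x hx
      rw [hx, Pi.zero_apply, zero_mul]
  have c2 : ∀ w, |b w * Y (arg w / 2)| ≤ e := fun w => by
    by_cases hw : w ∈ tsupport b
    · rw [abs_mul, abs_of_nonneg b.nonneg]
      exact (mul_le_of_le_one_left (abs_nonneg _) b.le_one).trans (hb (b.tsupport_eq ▸ hw)).2
    · rw [image_eq_zero_of_notMem_tsupport hw, zero_mul, abs_zero]
      exact (abs_nonneg _).trans h.self_of_nhds.2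
  refine ⟨min (r / 4) 1, by positivity,
    (fun w => b w * Y (arg w / 2)) ∘ fun s : ℝ => exp (I * (2 * s : ℝ)),
    c1.comp (cd_exp (contDiff_const.mul contDiff_id)), fun s => ?_, fun s => c2 _, fun s hs => ?_⟩
  · have : exp (I * (2 * (s + π) : ℝ)) = exp (I * (2 * s : ℝ)) := by
      rw [← exp_periodic (I * (2 * s : ℝ))]
      push_cast
      ring_nf
    simp only [Function.comp_apply, this]
  · obtain ⟨h1, h2⟩ := le_min_iff.1 hs
    have h3 := abs_le.1 h2
    have h4 : b (exp (I * (2 * s : ℝ))) = 1 := b.one_of_mem_closedBall (by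
      rw [mem_closedBall_iff_norm]
      refine Real.norm_exp_I_mul_ofReal_sub_one_le.trans ?_
      rw [Real.norm_eq_abs, abs_mul, abs_two]
      show _ ≤ r / 2
      linarith)
    have h5 : arg (exp (I * (2 * s : ℝ))) = 2 * s := by
      rw [mul_comm, exp_mul_I]
      exact arg_cos_add_sin_mul_I ⟨by linarith [Real.pi_gt_three], by linarith [Real.pi_gt_three]⟩
    simp only [Function.comp_apply, h4, h5, one_mul, mul_div_cancel_left₀ s two_ne_zero]

end CMP1

open CMP1 in
theorem st_cmp1 : St_CMP1 := by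
  intro g ε hg h1 hε
  obtain ⟨hd, hg'⟩ := contDiff_infty_iff_deriv.1 hg
  set v := deriv g 0 with hv
  have v1 : ‖v‖ = 1 := h1 0
  have v0 : v ≠ 0 := norm_ne_zero_iff.1 (v1 ▸ one_ne_zero)
  set T : ℝ → ℂ := fun s => deriv g s / v * exp (I * (-s : ℝ)) with hT
  have T1 : ContDiff ℝ ∞ T := (hg'.div_const v).mul (cd_exp contDiff_neg)
  have T0 : T 0 = 1 := by simp [hT, ← hv, v0]
  have T2 : ∀ s, ‖T s‖ = 1 := fun s => by
    rw [hT, norm_mul, norm_div, h1, v1, norm_exp_I_mul_ofReal]; norm_num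
  have T3 : Tendsto T (𝓝 0) (𝓝 1) := T0 ▸ T1.continuous.tendsto 0
  have T4 : Tendsto (fun s => |arg (T s)|) (𝓝 0) (𝓝 0) := by
    simpa using ((continuousAt_arg one_mem_slitPlane).tendsto.comp T3).abs
  obtain ⟨δ, hδ, X, X1, X2, X3, X4⟩ := ext (Y := fun s => arg (T s)) (e := ε / 7) (by
    filter_upwards [T3.eventually (isOpen_slitPlane.mem_nhds one_mem_slitPlane),
      T4.eventually (ge_mem_nhds (show 0 < ε / 7 by positivity))] with s a b
    exact ⟨(cd_arg a).comp s T1.contDiffAt, b⟩)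
  set D : ℝ → ℂ := fun s => v * exp (I * s) * exp (I * X s) with hD
  have D1 : ContDiff ℝ ∞ D := (contDiff_const.mul (cd_exp contDiff_id)).mul (cd_exp X1)
  have D2 : ∀ s, D (s + π) = -D s := fun s => by
    simp only [hD, X2 s, ofReal_add, mul_add, exp_add, mul_comm I π, exp_pi_mul_I]
    ring
  have D3 : ∀ s, ‖D s - v * exp (I * s)‖ ≤ ε / 7 := fun s => by
    rw [hD, ← mul_sub_one, norm_mul, norm_mul, v1, norm_exp_I_mul_ofReal, one_mul, one_mul]
    exact Real.norm_exp_I_mul_ofReal_sub_one_le.trans (X3 s)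
  have D4 : ∀ s, |s| ≤ δ → D s = deriv g s := fun s hs => by
    have := norm_mul_exp_arg_mul_I (T s)
    rw [T2, ofReal_one, one_mul, mul_comm] at this
    simp only [hD, X4 s hs, this]
    simp only [hT, ofReal_neg, mul_neg, exp_neg]
    field_simp
  set H : ℝ → ℂ := fun s => g 0 + ∫ t in (0 : ℝ)..s, D t with hH
  have H1 : ∀ s, HasDerivAt H (D s) s := fun s =>
    (D1.continuous.integral_hasStrictDerivAt 0 s).hasDerivAt.const_add _
  have H2 : deriv H = D := funext fun s => (H1 s).deriv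
  have H3 : ∀ s, H (s + π) + H s = H (0 + π) + H 0 := fun s => by
    have a : ∀ s, HasDerivAt (fun s => H (s + π) + H s) 0 s := fun s => by
      simpa [D2] using ((H1 (s + π)).comp_add_const s π).fun_add (H1 s)
    exact is_const_of_deriv_eq_zero (fun s => (a s).differentiableAt) (fun s => (a s).deriv) s 0
  have H4 : Function.Periodic H (2 * π) := fun s => by
    rw [two_mul, ← add_assoc]
    linear_combination H3 (s + π) - H3 s
  have u1 : I * (v / I) = v := mul_div_cancel₀ _ I_ne_zero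
  set Er : ℝ → ℂ := fun s => H s - (g 0 - v / I + v / I * exp (I * s)) with hE
  have E1 : ∀ s, HasDerivAt Er (D s - v * exp (I * s)) s := fun s => by
    have := (H1 s).fun_sub ((((hasDerivAt_id s).ofReal_comp.const_mul I).cexp.const_mul
      (v / I)).const_add (g 0 - v / I))
    refine this.congr_deriv ?_
    simp only [id, ofReal_one, mul_one]
    linear_combination -exp (I * s) * u1
  have E2 : Function.Periodic Er (2 * π) := fun s => by
    have : exp (I * (s + 2 * π : ℝ)) = exp (I * s) := by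
      rw [← exp_periodic (I * s)]
      push_cast
      ring_nf
    simp only [hE, H4 s, this]
  refine ⟨δ, hδ, H, g 0 - v / I, v / I, by simp [v1],
    contDiff_infty_iff_deriv.2 ⟨fun s => (H1 s).differentiableAt, H2 ▸ D1⟩, H4, fun s => ?_,
    fun s hs => ?_, fun s => ⟨?_, by rw [H2, u1]; linarith [D3 s]⟩⟩
  · simp only [H2, hD, norm_mul, v1, norm_exp_I_mul_ofReal, one_mul]
  · rw [hH]
    beta_reduce
    rw [intervalIntegral.integral_congr (g := deriv g) fun t ht => D4 t
      (by rcases mem_uIcc.1 ht with h | h <;> exact abs_le.2 ⟨by linarith [abs_le.1 hs], by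
        linarith [abs_le.1 hs]⟩), intervalIntegral.integral_deriv_eq_sub (fun t _ => hd t)
      (hg'.continuous.intervalIntegrable _ _), add_sub_cancel]
  · obtain ⟨t, ht, e⟩ := E2.exists_mem_Ico₀ Real.two_pi_pos s
    have := convex_univ.norm_image_sub_le_of_norm_hasDerivWithin_le (x := 0) (y := t)
      (fun s _ => (E1 s).hasDerivWithinAt) (fun s _ => D3 s) (mem_univ _) (mem_univ _)
    rw [show Er 0 = 0 by simp [hE, hH], sub_zero, sub_zero, Real.norm_of_nonneg ht.1, ← e] at this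
    nlinarith [ht.2, Real.pi_lt_d2]

end Pool.Agent.Lib.IS3
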