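import Pool.Agent.Lib.IS3.Kit

/-! Change of variables on the labelled boxes. -/

open scoped ContDiff ComplexConjugate Topology Real
open Complex MeasureTheory Set Filter

noncomputable section

namespace Pool.Agent.Lib.IS3

open Pool.Agent.Lib.ISO Pool.Agent.Lib.IS2

namespace COV

lemma fund {m : ℕ} {S : Fin m → Set ℝ} (hS : ∀ i, MeasurableSet (S i))
    (hu : ∀ i x, ∃! k : ℤ, x + k • (2 * π) ∈ S i) : IsAddFundamentalDomain
    (AddSubgroup.pi univ fun _ : Fin m => AddSubgroup.zmultiples (2 * π)) (univ.pi S) volume := by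
  refine IsAddFundamentalDomain.mk' (MeasurableSet.univ_pi hS).nullMeasurableSet fun x => ?_
  choose k hk hu using fun i => hu i (x i)
  refine ⟨⟨fun i => k i • (2 * π), fun i _ => ⟨k i, rfl⟩⟩, fun i _ => ?_, ?_⟩
  · have : x i + k i • (2 * π) ∈ S i := hk i
    rw [add_comm (x i)] at this
    exact this
  · rintro ⟨g, hg⟩ h
    refine Subtype.ext (funext fun i => ?_)
    obtain ⟨l, hl⟩ := hg i (mem_univ i)
    have h1 : g i + x i ∈ S i := h i (mem_univ i)
    have hl' : l • (2 * π) = g i := hl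
    rw [← hl', add_comm _ (x i)] at h1
    change g i = k i • (2 * π)
    rw [← hu i l h1]
    exact hl'.symm

/-- A good change of the parameter. -/
def Gd (ψ : ℝ → ℝ) : Prop := Differentiable ℝ ψ ∧ Function.Injective ψ ∧
  MeasurableSet (ψ '' Ioc 0 (2 * π)) ∧ ∀ x, ∃! k : ℤ, x + k • (2 * π) ∈ ψ '' Ioc 0 (2 * π)

lemma one {m : ℕ} (F : (Fin m → ℝ) → ℂ)
    (hF : ∀ v (k : Fin m → ℤ), F (fun i => v i + k i * (2 * π)) = F v) {ψ : Fin m → ℝ → ℝ}
    (h : ∀ i, Gd (ψ i)) :
    (Integrable (fun v => |∏ i, deriv (ψ i) (v i)| • F fun i => ψ i (v i)) (box m) ↔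
      Integrable F (box m)) ∧
    ∫ v, |∏ i, deriv (ψ i) (v i)| • F (fun i => ψ i (v i)) ∂box m = ∫ v, F v ∂box m := by
  have hb : box m = volume.restrict (univ.pi fun _ : Fin m => Ioc 0 (2 * π)) := by
    rw [box, volume_pi, Measure.restrict_pi_pi]
  have : Countable (AddSubgroup.pi univ fun _ : Fin m => AddSubgroup.zmultiples (2 * π)) := by
    refine Set.Countable.to_subtype
      ((countable_range fun (k : Fin m → ℤ) (i : Fin m) => k i • (2 * π)).mono fun g hg => ?_)
    choose k hk using fun i => hg i (mem_univ i)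
    exact ⟨k, funext hk⟩
  have inv : ∀ (g : AddSubgroup.pi univ fun _ : Fin m => AddSubgroup.zmultiples (2 * π))
      (x : Fin m → ℝ), F (g +ᵥ x) = F x := by
    rintro ⟨g, hg⟩ x
    choose k hk using fun i => hg i (mem_univ i)
    rw [← hF x k]
    refine congrArg F (funext fun i => ?_)
    have h1 : k i • (2 * π) = g i := hk i
    rw [← zsmul_eq_mul, h1, add_comm]
    rfl
  have f1 := fund (fun i => (h i).2.2.1) fun i => (h i).2.2.2
  have f0 := fund (m := m) (S := fun _ => Ioc 0 (2 * π)) (fun _ => measurableSet_Ioc) fun _ x => by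
    simpa only [zero_add] using existsUnique_add_zsmul_mem_Ioc Real.two_pi_pos x 0
  have him : (fun (v : Fin m → ℝ) i => ψ i (v i)) '' (univ.pi fun _ => Ioc 0 (2 * π)) =
      univ.pi fun i => ψ i '' Ioc 0 (2 * π) := piMap_image_univ_pi ψ _
  have ms : MeasurableSet (univ.pi fun _ : Fin m => Ioc 0 (2 * π)) :=
    MeasurableSet.univ_pi fun _ => measurableSet_Ioc
  have hd : ∀ v ∈ univ.pi fun _ : Fin m => Ioc 0 (2 * π), HasFDerivWithinAt
      (fun (v : Fin m → ℝ) i => ψ i (v i)) (ContinuousLinearMap.pi fun i =>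
      (ContinuousLinearMap.toSpanSingleton ℝ (deriv (ψ i) (v i))).comp (ContinuousLinearMap.proj i))
      (univ.pi fun _ : Fin m => Ioc 0 (2 * π)) v := fun v _ => (hasFDerivAt_pi.2 fun i =>
      ((h i).1 (v i)).hasDerivAt.hasFDerivAt.comp v (hasFDerivAt_apply i v)).hasFDerivWithinAt
  have hi : InjOn (fun (v : Fin m → ℝ) i => ψ i (v i)) (univ.pi fun _ => Ioc 0 (2 * π)) :=
    fun v _ w _ e => funext fun i => (h i).2.1 (congrFun e i)
  have k1 := integral_image_eq_integral_abs_det_fderiv_smul volume ms hd hi F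
  have k2 := integrableOn_image_iff_integrableOn_abs_det_fderiv_smul volume ms hd hi F
  have e : (fun v : Fin m → ℝ => |(ContinuousLinearMap.pi fun i =>
      (ContinuousLinearMap.toSpanSingleton ℝ (deriv (ψ i) (v i))).comp
        (ContinuousLinearMap.proj (R := ℝ) (φ := fun _ : Fin m => ℝ) i)).det| •
          F fun i => ψ i (v i)) = fun v => |∏ i, deriv (ψ i) (v i)| • F fun i => ψ i (v i) :=
    funext fun v => by
      simp only [ContinuousLinearMap.det_pi, ContinuousLinearMap.det_toSpanSingleton]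
  rw [him, e] at k1 k2
  rw [hb]
  exact ⟨k2.symm.trans (f1.integrableOn_iff f0 inv), k1.symm.trans (f1.setIntegral_eq f0 inv)⟩

lemma all {N n : ℕ} (F : (Fin n → XN N) → ℂ) (hF : Pw F) {ψ : Fin N → ℝ → ℝ} (h : ∀ i, Gd (ψ i)) :
    ∫ v, |∏ i, deriv (ψ (v i).1) (v i).2| • F (fun i => ((v i).1, ψ (v i).1 (v i).2)) ∂bm N n =
      ∫ v, F v ∂bm N n := by
  have k := fun σ : Fin n → Fin N => one (fun v => F (lab σ v)) (fun v k => hF (lab σ v) k)
    (ψ := fun i => ψ (σ i)) fun i => h (σ i)
  have e : Integrable (fun v : Fin n → XN N => |∏ i, deriv (ψ (v i).1) (v i).2| •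
      F fun i => ((v i).1, ψ (v i).1 (v i).2)) (bm N n) ↔ Integrable F (bm N n) := by
    rw [integrable_bm, integrable_bm]
    exact forall_congr' fun σ => (k σ).1
  by_cases hi : Integrable F (bm N n)
  · rw [integral_bm hi, integral_bm (e.2 hi)]
    exact Finset.sum_congr rfl fun σ _ => (k σ).2
  · rw [integral_undef hi, integral_undef (mt e.1 hi)]

lemma gd_up {φ : ℝ → ℝ} (h : Up φ) : Gd φ := by
  have hd : Differentiable ℝ φ := h.1.differentiable one_ne_zero
  have hm : StrictMono φ := strictMono_of_deriv_pos h.2.1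
  have e : φ '' Ioc 0 (2 * π) = Ioc (φ 0) (φ 0 + 2 * π) := by
    rw [← h.2.2, zero_add, hd.continuous.image_Ioc_of_strictMono hm]
  refine ⟨hd, hm.injective, e ▸ measurableSet_Ioc, fun x => ?_⟩
  rw [e]
  exact existsUnique_add_zsmul_mem_Ioc Real.two_pi_pos x _

lemma gd_fl (r : Bool) : Gd (fl r) ∧ ∀ s, |deriv (fl r) s| = 1 := by
  cases r
  · have e : fl false = id := rfl
    rw [e]
    refine ⟨⟨differentiable_id, Function.injective_id, by simp, fun x => ?_⟩, by simp⟩
    simpa only [zero_add, image_id] using existsUnique_add_zsmul_mem_Ioc Real.two_pi_pos x 0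
  · have e : fl true = fun s => -s := rfl
    have e' : (fun s : ℝ => -s) '' Ioc 0 (2 * π) = Ico (-(2 * π)) (-(2 * π) + 2 * π) := by simp
    rw [e]
    refine ⟨⟨differentiable_neg, neg_injective, e' ▸ measurableSet_Ico, fun x => ?_⟩, by simp⟩
    rw [e']
    exact existsUnique_add_zsmul_mem_Ico Real.two_pi_pos x _

end COV

theorem st_cov : St_COV := by
  intro N n F hF
  refine ⟨fun φ hφ => ?_, fun r => ?_⟩
  · rw [← COV.all F hF fun i => COV.gd_up (hφ i)]
    refine integral_congr_ae (Eventually.of_forall fun v => ?_)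
    beta_reduce
    rw [abs_of_pos (Finset.prod_pos fun i _ => (hφ _).2.1 _), real_smul]
  · rw [← COV.all F hF (ψ := fun i => fl (r i)) fun i => (COV.gd_fl _).1]
    refine integral_congr_ae (Eventually.of_forall fun v => ?_)
    beta_reduce
    rw [Finset.abs_prod, Finset.prod_eq_one fun i _ => (COV.gd_fl _).2 _, one_smul]
    rfl

end Pool.Agent.Lib.IS3
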