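import Pool.Agent.Lib.IS3.Kit1
import Pool.Agent.Lib.IS2.B_CR

/-! Integrals of the majorants of the chains on several curves. -/

open scoped ContDiff ComplexConjugate Topology Real ENNReal
open Complex MeasureTheory Set Filter

noncomputable section

namespace Pool.Agent.Lib.IS3

open Pool.Agent.Lib.ISO Pool.Agent.Lib.IS2 Pool.Agent.Lib.IS2.CRB

namespace CRm

/-- majorant of the kernel -/
def kq (j o T s t : ℝ) : ℝ := (1 + √(o * T)) * Real.exp (-(dc s t / (4 * j * T)))

theorem kq0 (j o T s t : ℝ) : 0 ≤ kq j o T s t := by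
  unfold kq
  positivity

theorem kqc (j o T : ℝ) : Continuous fun p : ℝ × ℝ => kq j o T p.1 p.2 :=
  continuous_const.mul ((continuous_dc.div_const _).neg.rexp)

theorem le_kq {j o T c s t : ℝ} (j0 : 0 < j) (ho : 0 ≤ o) (hT : 0 < T) (h0 : 0 ≤ c)
    (h1 : dc s t ≤ j * c) : (1 + √(o * c)) * Real.exp (-(c / (2 * T))) ≤ kq j o T s t := by
  have h2 : 1 + c / (4 * T) ≤ Real.exp (c / (4 * T)) := by
    linarith [Real.add_one_le_exp (c / (4 * T))]
  have h3 : √(o * c) ≤ √(o * T) * Real.exp (c / (4 * T)) := by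
    rw [show o * c = o * T * (c / T) by field_simp, Real.sqrt_mul (by positivity)]
    refine mul_le_mul_of_nonneg_left (le_trans (Real.sqrt_le_iff.2 ⟨by positivity, ?_⟩) h2)
      (Real.sqrt_nonneg _)
    rw [show c / T = 4 * (c / (4 * T)) by field_simp]
    nlinarith [sq_nonneg (1 - c / (4 * T))]
  have h4 : 0 ≤ c / (4 * T) := by positivity
  calc _ ≤ (1 + √(o * T)) * Real.exp (c / (4 * T)) * Real.exp (-(c / (2 * T))) := by
        gcongr
        linarith
    _ = (1 + √(o * T)) * Real.exp (-(j * c / (4 * j * T))) := by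
        rw [mul_assoc, ← Real.exp_add]
        congr 2
        field_simp
        ring
    _ ≤ _ := by unfold kq; gcongr

theorem col {j o T : ℝ} (j0 : 0 < j) (hT : 0 < T) (t : ℝ) :
    ∫ s in (0 : ℝ)..(2 * π), kq j o T s t ≤ 8 * j * (T + √(o * T) * T) := by
  obtain ⟨-, e1⟩ := circ (f := fun x => (1 + √(o * T)) * Real.exp (-(x / (4 * j * T))))
    (Continuous.intervalIntegrable (by fun_prop) _ _) t
  simp only [kq, dc_comm _ t]
  rw [e1, intervalIntegral.integral_const_mul, intervalIntegral.integral_eq_sub_of_hasDerivAt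
    (f := fun x => -(4 * j * T) * Real.exp (-(x / (4 * j * T)))) (fun x _ =>
      ((((hasDerivAt_id' x).div_const (4 * j * T)).fun_neg.exp).const_mul
        (-(4 * j * T))).congr_deriv (by field_simp))
    (Continuous.intervalIntegrable (by fun_prop) _ _)]
  have : 0 ≤ (1 + √(o * T)) * (4 * j * T * Real.exp (-(π / (4 * j * T)))) := by positivity
  simp only [zero_div, neg_zero, Real.exp_zero]
  linarith

theorem gen {k : ℝ → ℝ → ℝ} (kc : Continuous fun p : ℝ × ℝ => k p.1 p.2) (k0 : ∀ s t, 0 ≤ k s t)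
    (j : ℝ) {o R : ℝ} (o1 : 1 ≤ o) (R0 : 0 ≤ R) (hR : ∀ t, ∫ s in (0 : ℝ)..(2 * π), k s t ≤ R)
    (n : ℕ) : ∫⁻ v, ENNReal.ofReal ((∏ i : Fin n, k (v i.castSucc.castSucc) (v i.succ.castSucc)) *
      CRB.GG j o (v (Fin.last n).castSucc) (v 0) (v (Fin.last (n + 1)))) ∂box (n + 2) ≤
      ENNReal.ofReal (2 * π * KK j * o * R ^ n) := by
  have km : ∀ {α : Type} [MeasurableSpace α] {a b : α → ℝ}, Measurable a → Measurable b →
      Measurable fun x => ENNReal.ofReal (k (a x) (b x)) := fun ha hb =>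
    (CRB.mc kc ha hb).ennreal_ofReal
  have pm : Measurable fun w : Fin (n + 1) → ℝ =>
      ∏ i : Fin n, ENNReal.ofReal (k (w i.castSucc) (w i.succ)) :=
    Finset.measurable_prod _ fun i _ => km (measurable_pi_apply _) (measurable_pi_apply _)
  have sp := split (Fin.last (n + 1)) (F := fun p =>
    (∏ i : Fin n, ENNReal.ofReal (k (p.2 i.castSucc) (p.2 i.succ))) *
      ENNReal.ofReal (CRB.GG j o (p.2 (Fin.last n)) (p.2 0) p.1))
    ((pm.comp measurable_snd).mul (CRB.Gm j o (by fun_prop) (by fun_prop) measurable_fst))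
  simp only [Fin.succAbove_last, Fin.castSucc_zero] at sp
  refine le_trans (lintegral_mono fun v => ?_) (sp.trans_le ?_)
  · simp only
    rw [← ENNReal.ofReal_prod_of_nonneg fun _ _ => k0 _ _,
      ← ENNReal.ofReal_mul (Finset.prod_nonneg fun _ _ => k0 _ _)]
  · calc _ ≤ ∫⁻ w, (∏ i : Fin n, ENNReal.ofReal (k (w i.castSucc) (w i.succ))) *
          ENNReal.ofReal (o * KK j) ∂box (n + 1) := by
          refine lintegral_mono fun w => ?_
          simp only
          rw [lintegral_const_mul _ (CRB.Gm j o measurable_const measurable_const measurable_id')]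
          exact mul_le_mul_right (hG j o1 _ _) _
      _ ≤ ENNReal.ofReal (2 * π) * ENNReal.ofReal R ^ n * ENNReal.ofReal (o * KK j) := by
          rw [lintegral_mul_const _ pm]
          refine mul_le_mul_left (chain (k := fun s t => ENNReal.ofReal (k s t))
            (km measurable_fst measurable_snd) (fun t => ?_) n) _
          rw [lint (g := fun s => k s t) (Continuous.intervalIntegrable
            (kc.comp (Continuous.prodMk_left t)) _ _) (k0 · t)]
          exact ENNReal.ofReal_le_ofReal (hR t)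
      _ = _ := by
          rw [← ENNReal.ofReal_pow R0, ← ENNReal.ofReal_mul (by positivity),
            ← ENNReal.ofReal_mul (by positivity)]
          congr 1
          ring

variable {N : ℕ} {j : ℝ} {Γ : MC N} (hΓ : Nv j Γ)
include hΓ

theorem sing (x y : XN N) :
    (cm Γ x y ^ (-(1 / 4) : ℝ)) ^ 2 ≤ √j * dc x.2 y.2 ^ (-(1 / 2) : ℝ) + √j := by
  have h0 := cm_nonneg Γ x y
  have h1 := dc_nonneg x.2 y.2
  have j0 := hΓ.pos
  rw [← Real.rpow_natCast, ← Real.rpow_mul h0,
    show (-(1 / 4) * (2 : ℕ) : ℝ) = -(1 / 2) by norm_num]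
  by_cases e : x.1 = y.1
  · refine le_add_of_le_of_nonneg ?_ (Real.sqrt_nonneg _)
    rcases h0.eq_or_lt with h | h
    · rw [← h, Real.zero_rpow (by norm_num)]
      positivity
    · have h2 : 0 < dc x.2 y.2 := (mul_pos_iff_of_pos_left j0).1 (h.trans_le (hΓ.cm_le e))
      calc _ ≤ (dc x.2 y.2 / j) ^ (-(1 / 2) : ℝ) :=
            Real.rpow_le_rpow_of_nonpos (by positivity) ((div_le_iff₀' j0).2 (hΓ.le_cm e))
              (by norm_num)
        _ = _ := by
            rw [Real.div_rpow h1 j0.le, Real.sqrt_eq_rpow, Real.rpow_neg j0.le, div_inv_eq_mul,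
              mul_comm]
  · refine le_add_of_nonneg_of_le (by positivity) ((Real.rpow_le_rpow_of_nonpos (by positivity)
      (hΓ.inv_le_cm e) (by norm_num)).trans_eq ?_)
    rw [Real.inv_rpow j0.le, Real.rpow_neg j0.le, inv_inv, Real.sqrt_eq_rpow]

theorem fm (o T : ℝ) (n : ℕ) :
    Measurable fun v : Fin (n + 2) → XN N => Mm o Γ n v * Real.exp (-(elm Γ v / (2 * T))) := by
  have m : ∀ a b : Fin (n + 2), Measurable fun v : Fin (n + 2) → XN N => cm Γ (v a) (v b) :=
    fun a b => hΓ.rc.cm_cont.measurable.comp (f := fun v : Fin (n + 2) → XN N => (v a, v b))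
      ((measurable_pi_apply a).prodMk (measurable_pi_apply b))
  exact ((Finset.measurable_prod _ fun i _ => ((m _ _).const_mul _).sqrt.const_add _).mul
    (((((m _ _).pow_const _).const_mul _).mul ((m _ _).pow_const _)).add
      (((m _ _).const_mul _).sqrt.const_add _))).mul
    ((Finset.measurable_sum _ fun i _ => m _ _).div_const _).neg.exp

omit hΓ in
theorem f0 (Γ : MC N) (o : ℝ) (n : ℕ) (v : Fin (n + 2) → XN N) : 0 ≤ Mm o Γ n v := by
  have := cm_nonneg Γ (v (Fin.last n).castSucc) (v (Fin.last (n + 1)))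
  have := cm_nonneg Γ (v (Fin.last (n + 1))) (v 0)
  unfold Mm
  positivity

theorem pt {o T : ℝ} (o1 : 1 ≤ o) (T0 : 0 < T) (n : ℕ) (v : Fin (n + 2) → XN N) :
    Mm o Γ n v * Real.exp (-(elm Γ v / (2 * T))) ≤ 2 * j *
      ((∏ i : Fin n, kq (4 * j) o T (v i.castSucc.castSucc).2 (v i.succ.castSucc).2) *
        CRB.GG j o (v (Fin.last n).castSucc).2 (v 0).2 (v (Fin.last (n + 1))).2) := by
  have j1 := hΓ.one_le
  rw [elm, sum_edges, add_div, add_div, neg_add, neg_add, Real.exp_add, Real.exp_add,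
    Finset.sum_div, ← Finset.sum_neg_distrib, Real.exp_sum, Mm]
  have p := Finset.prod_le_prod (s := Finset.univ) (fun _ _ => by positivity)
    fun (i : Fin n) _ => le_kq (o := o) (by linarith) (by linarith) T0 (cm_nonneg Γ _ _)
      (hΓ.dc_le (v i.castSucc.castSucc) (v i.succ.castSucc))
  rw [Finset.prod_mul_distrib] at p
  have s1 := sing hΓ (v (Fin.last n).castSucc) (v (Fin.last (n + 1)))
  have s2 := sing hΓ (v (Fin.last (n + 1))) (v 0)
  rw [dc_comm] at s2
  have s3 := hΓ.cm_le_j (v (Fin.last n).castSucc) (v (Fin.last (n + 1)))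
  have c1 := cm_nonneg Γ (v (Fin.last n).castSucc) (v (Fin.last (n + 1)))
  have c2 := cm_nonneg Γ (v (Fin.last (n + 1))) (v 0)
  have d1 := Real.rpow_nonneg (dc_nonneg (v (Fin.last n).castSucc).2 (v (Fin.last (n + 1))).2)
    (-(1 / 2))
  have d2 := Real.rpow_nonneg (dc_nonneg (v 0).2 (v (Fin.last (n + 1))).2) (-(1 / 2))
  have P0 : 0 ≤ ∏ i : Fin n, kq (4 * j) o T (v i.castSucc.castSucc).2 (v i.succ.castSucc).2 :=
    Finset.prod_nonneg fun _ _ => kq0 _ _ _ _ _
  simp only [CRB.GG]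
  generalize cm Γ (v (Fin.last n).castSucc) (v (Fin.last (n + 1))) = c at *
  generalize cm Γ (v (Fin.last (n + 1))) (v 0) = c' at *
  have e1 : Real.exp (-(c / (2 * T))) ≤ 1 := Real.exp_le_one_iff.2 (neg_nonpos.2 (by positivity))
  have e2 : Real.exp (-(c' / (2 * T))) ≤ 1 := Real.exp_le_one_iff.2 (neg_nonpos.2 (by positivity))
  have r0 : √j ≤ j := Real.sqrt_le_iff.2 ⟨by linarith, by nlinarith⟩
  have r1 : 1 ≤ √o := Real.one_le_sqrt.2 o1
  have r2 : √(o * c) ≤ √o * j := by
    rw [Real.sqrt_mul (by linarith)]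
    gcongr
    exact (Real.sqrt_le_sqrt s3).trans r0
  have x0 := Real.rpow_nonneg c1 (-(1 / 4))
  have y0 := Real.rpow_nonneg c2 (-(1 / 4))
  generalize c ^ (-(1 / 4) : ℝ) = x at *
  generalize c' ^ (-(1 / 4) : ℝ) = y at *
  have a0 := mul_nonneg (Real.sqrt_nonneg j) d1
  have b0 := mul_nonneg (Real.sqrt_nonneg j) d2
  generalize √j * dc (v (Fin.last n).castSucc).2 (v (Fin.last (n + 1))).2 ^ (-(1 / 2) : ℝ) = a at *
  generalize √j * dc (v 0).2 (v (Fin.last (n + 1))).2 ^ (-(1 / 2) : ℝ) = b at *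
  have r3 : x * y + (1 + j) ≤ 2 * j * (a + b + 3) := by
    nlinarith [sq_nonneg (x - y), mul_nonneg (sub_nonneg.2 j1) (add_nonneg a0 b0)]
  have r4 : √o * x * y + (1 + √(o * c)) ≤ 2 * j * (√o * (a + b + 3)) := by
    linarith [mul_le_mul_of_nonneg_left r3 (Real.sqrt_nonneg o)]
  have r5 : (√o * x * y + (1 + √(o * c))) * (Real.exp (-(c / (2 * T))) *
      Real.exp (-(c' / (2 * T)))) ≤ 2 * j * (√o * (a + b + 3)) * (1 * 1) := by gcongr
  exact le_of_eq_of_le (by ring) ((mul_le_mul p r5 (by positivity) P0).trans_eq (by ring))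

theorem key {o T R : ℝ} (o1 : 1 ≤ o) (T0 : 0 < T) (R0 : 0 ≤ R)
    (hR : ∀ t, ∫ s in (0 : ℝ)..(2 * π), kq (4 * j) o T s t ≤ R) (n : ℕ) :
    ∫⁻ v, ENNReal.ofReal (Mm o Γ n v * Real.exp (-(elm Γ v / (2 * T)))) ∂bm N (n + 2) ≤
      ENNReal.ofReal (2 * j ^ 3 * (2 * π * KK j) * o * (j * R) ^ n) := by
  have j0 := hΓ.pos
  have K0 : 0 ≤ KK j := by unfold KK; positivity
  rw [lintegral_bm]
  refine (Finset.sum_le_card_nsmul _ _ (ENNReal.ofReal (2 * j) *
    ENNReal.ofReal (2 * π * KK j * o * R ^ n)) fun σ _ => ?_).trans ?_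
  · refine le_trans ?_ (mul_le_mul_right (gen (kqc (4 * j) o T) (kq0 _ _ _) j o1 R0 hR n) _)
    rw [← lintegral_const_mul' _ _ ENNReal.ofReal_ne_top]
    refine lintegral_mono fun v => ?_
    simp only
    rw [← ENNReal.ofReal_mul (by positivity)]
    exact ENNReal.ofReal_le_ofReal (pt hΓ o1 T0 n (lab σ v))
  · rw [nsmul_eq_mul, ← ENNReal.ofReal_natCast, ← ENNReal.ofReal_mul (by positivity),
      ← ENNReal.ofReal_mul (by positivity), Finset.card_univ, Fintype.card_fun, Fintype.card_fin,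
      Fintype.card_fin, Nat.cast_pow]
    refine ENNReal.ofReal_le_ofReal ((mul_le_mul_of_nonneg_right (pow_le_pow_left₀
      (Nat.cast_nonneg _) hΓ.card _) (by positivity)).trans_eq (by ring))

end CRm

theorem st_crm (_hP : St_PATH) : St_CRm := by
  intro j q hq
  refine ⟨64 * j ^ 2 + 2 * j ^ 3 * (2 * π * KK j), 1, fun h h1 N Γ hΓ n => ⟨hΓ.ae_gw, ?_⟩⟩
  have j0 := hΓ.pos
  have K0 : 0 ≤ 2 * j ^ 3 * (2 * π * KK j) := by unfold KK; positivity
  have key := @CRm.key N j Γ hΓ
  generalize 2 * j ^ 3 * (2 * π * KK j) = K at *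
  have h0 : 0 < h := by linarith
  have o1 : 1 ≤ om q h := one_le_pow₀ h1
  have T0 : 0 < Tt q h := by unfold Tt; positivity
  have hrow : ∀ t, ∫ s in (0 : ℝ)..(2 * π), CRm.kq (4 * j) (om q h) (Tt q h) s t ≤
      64 * j / h ^ 3 := fun s => by
    refine (CRm.col (by linarith) T0 s).trans ?_
    have e1 : Tt q h ≤ (h ^ 3)⁻¹ := inv_anti₀ (by positivity) (pow_le_pow_right₀ h1 (by omega))
    have e2 : √(om q h * Tt q h) * Tt q h = (h ^ 3)⁻¹ := by
      rw [← Real.sqrt_sq T0.le, ← Real.sqrt_mul (by positivity), Real.sqrt_sq T0.le,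
        ← Real.sqrt_sq (x := (h ^ 3)⁻¹) (by positivity)]
      congr 1
      unfold om Tt
      field_simp
      ring
    rw [e2, div_eq_mul_inv]
    nlinarith
  have k := key o1 T0 (by positivity) hrow n
  have fm := (CRm.fm hΓ (om q h) (Tt q h) n).aestronglyMeasurable (μ := bm N (n + 2))
  have f0 := Eventually.of_forall (f := ae (bm N (n + 2))) fun v =>
    mul_nonneg (CRm.f0 Γ (om q h) n v) (Real.exp_nonneg (-(elm Γ v / (2 * Tt q h))))
  refine ⟨⟨fm, (hasFiniteIntegral_iff_ofReal f0).2 (k.trans_lt ENNReal.ofReal_lt_top)⟩, ?_⟩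
  rw [integral_eq_lintegral_of_nonneg_ae f0 fm]
  refine (ENNReal.toReal_le_of_le_ofReal (by positivity) k).trans ?_
  rw [← mul_div_assoc]
  gcongr <;> nlinarith

end Pool.Agent.Lib.IS3
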