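import Pool.Agent.Lib.IS3.Kit
import Pool.Agent.Lib.IS3.BlueG

/-! The traces of isospectral domains differ by a constant. -/

noncomputable section

namespace Pool.Agent.Lib.IS3

theorem st_cst (hD : St_DIVm) (hN : St_NCM) (hO : St_ONEM) (hH : St_HSQm) (hT : St_TEQM) :
    St_CST := by
  intro N N' Ω Ω' l l' G G' φ φ' h h' hi
  obtain ⟨j, hj⟩ := hN N Ω l G φ h
  obtain ⟨j', hj'⟩ := hN N' Ω' l' G' φ' h'
  obtain ⟨C, hC⟩ := hO
  obtain ⟨v, q, -⟩ := hC N N' Ω Ω' l l' G G' φ φ' h h' hi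
  obtain ⟨k, hk⟩ := hT N N' _ _ Ω Ω' _ (hj _ (le_max_left j j')).nv (hj' _ (le_max_right j j')).nv
    (hD N Ω l G φ h) (hD N' Ω' l' G' φ' h') v fun μ hμ a b =>
      mul_left_cancel₀ (pow_ne_zero 4 a.pos.ne') (by rw [← hH N μ _ Ω a, ← hH N' μ _ Ω' b, q μ hμ])
  exact ⟨max k (max j j'), hj _ (le_max_of_le_right (le_max_left _ _)),
    hj' _ (le_max_of_le_right (le_max_right _ _)), hk _ (le_max_left _ _)⟩

end Pool.Agent.Lib.IS3
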