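import Pool.Agent.Lib.IS3.Kit
import Pool.Agent.Lib.IS2.B_DEF

/-! The complex deformation of the parameter of a scaled curve. -/

open scoped ContDiff ComplexConjugate Topology Real
open Complex MeasureTheory Set Filter

noncomputable section

namespace Pool.Agent.Lib.IS3

open Pool.Agent.Lib.ISO Pool.Agent.Lib.IS2 Pool.Agent.Lib.IS2.DEF

namespace DEFL

theorem root_mul {l : ℝ} (hl : 0 < l) (x : ℂ) :
    ((l : ℂ) ^ 2 * x) ^ (1 / 2 : ℂ) = l * x ^ (1 / 2 : ℂ) := by
  rcases eq_or_ne x 0 with rfl | hx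
  · simp
  have h0 : (l : ℂ) ≠ 0 := ofReal_ne_zero.2 hl.ne'
  rw [cpow_def_of_ne_zero (mul_ne_zero (pow_ne_zero 2 h0) hx), cpow_def_of_ne_zero hx,
    ← ofReal_pow, log_ofReal_mul (pow_pos hl 2) hx, add_mul, Complex.exp_add, Real.log_pow]
  congr 1
  rw [show (((2 : ℕ) * Real.log l : ℝ) : ℂ) * (1 / 2) = (Real.log l : ℝ) by push_cast; ring,
    ← ofReal_exp, Real.exp_log hl]

theorem pc_smul {l : ℝ} (hl : 0 < l) (Q : ℝ → C2) (s t : ℝ) :
    pc ((l : ℂ) • Q) s t = l * pc Q s t := by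
  rw [pc, pc, ← root_mul hl]
  congr 1
  simp only [dot, pD, Pi.smul_apply, Prod.fst_sub, Prod.snd_sub, Prod.smul_fst, Prod.smul_snd,
    smul_eq_mul]
  ring

theorem d_smul {Q : ℝ → C2} (h : Q ∈ SP) (c : ℂ) : deriv (c • Q) = c • deriv Q :=
  funext fun s => deriv_const_smul c (h.1.differentiable (by simp) s)

theorem dd_smul {Q : ℝ → C2} (h : Q ∈ SP) (c : ℂ) (s : ℝ) :
    deriv (deriv (c • Q)) s = c • deriv (deriv Q) s := by
  rw [d_smul h]
  exact deriv_const_smul c ((h.1.deriv' (n := ∞)).differentiable (by simp) s)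

variable {j B Cb h y o α e1 e2 : ℝ} {P : ℂ → C2} {p : ℝ → C2} {b : ℝ → ℝ} {G : ℝ → ℂ} {ζ : ℂ}

/-- the three bounds before scaling -/
theorem core {r c : ℝ} (hG : Nc j G) (hP : Str B y o P) (hn : nm (rs P - cp G) ≤ o) (hp : p ∈ SP)
    (hnp : nm p ≤ o) (hb : Per (2 * π) b) (hy : r ≤ y) (n0 : ∀ s, ‖ζ * b s‖ ≤ r)
    (n1 : ∀ s, ‖ζ * deriv b s‖ ≤ c) (hc : c ≤ 1) (n2 : ∀ s, ‖ζ * deriv (deriv b) s‖ ≤ Cb) (s : ℝ) :
    ‖Pz P p b ζ s - cp G s‖ ≤ 2 * r + 2 * o ∧
    ‖deriv (Pz P p b ζ) s - deriv (cp G) s‖ ≤ 2 * c + B * r + 2 * o ∧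
    ‖deriv (deriv (Pz P p b ζ)) s‖ ≤ 4 * B + 2 * Cb + o := by
  have hs : |(s : ℂ).im| ≤ y := by
    rw [ofReal_im, abs_zero]
    exact ((norm_nonneg _).trans (n0 s)).trans hy
  have hφ : |(s + ζ * b s : ℂ).im| ≤ y := by
    rw [add_im, ofReal_im, zero_add]
    exact ((abs_im_le_norm _).trans (n0 s)).trans hy
  have hB : 0 ≤ B := (norm_nonneg _).trans (hP.s2 _ hs)
  have m1 : ‖(1 + ζ * deriv b s : ℂ)‖ ≤ 2 :=
    (norm_add_le_of_le norm_one.le ((n1 s).trans hc)).trans (by norm_num)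
  have hm := SP.sub_mem (rs_sp hP) (cp_sp hG)
  refine ⟨?_, ?_, ?_⟩
  · have e : Pz P p b ζ s - cp G s = (P (s + ζ * b s) - P s) + ((rs P - cp G) s + p s) := by
      simp only [Pz, rs, Pi.sub_apply]
      abel
    have a := lip0 hP hs hφ
    rw [add_sub_cancel_left] at a
    rw [e]
    refine (norm_add_le_of_le a (norm_add_le_of_le ((three hm s).1.trans hn)
      ((three hp s).1.trans hnp))).trans ?_
    linarith [n0 s]
  · have e : deriv (Pz P p b ζ) s - deriv (cp G) s = (ζ * deriv b s) • deriv P (s + ζ * b s) +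
        ((deriv P (s + ζ * b s) - deriv P s) + (deriv (rs P - cp G) s + deriv p s)) := by
      rw [d1 hP hp hb, deriv_sub ((rs_sp hP).1.differentiable (by simp) s)
        ((cp_sp hG).1.differentiable (by simp) s), d_rs hP]
      simp only [add_smul, one_smul]
      abel
    have a := lip1 hP hs hφ
    rw [add_sub_cancel_left] at a
    have a' : ‖(ζ * deriv b s) • deriv P (s + ζ * b s)‖ ≤ c * 2 := by
      rw [norm_smul]
      exact mul_le_mul (n1 s) (hP.s1 _ hφ) (norm_nonneg _) ((norm_nonneg _).trans (n1 s))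
    rw [e]
    refine (norm_add_le_of_le a' (norm_add_le_of_le a (norm_add_le_of_le
      ((three hm s).2.1.trans hn) ((three hp s).2.1.trans hnp)))).trans ?_
    linarith [mul_le_mul_of_nonneg_left (n0 s) hB]
  · rw [d2 hP hp hb]
    have a : ‖(1 + ζ * deriv b s) • ((1 + ζ * deriv b s) • deriv (deriv P) (s + ζ * b s))‖ ≤
        2 * (2 * B) := by
      rw [norm_smul, norm_smul]
      gcongr
      exact hP.s2 _ hφ
    have a' : ‖(ζ * deriv (deriv b) s) • deriv P (s + ζ * b s)‖ ≤ Cb * 2 := by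
      rw [norm_smul]
      exact mul_le_mul (n2 s) (hP.s1 _ hφ) (norm_nonneg _) ((norm_nonneg _).trans (n2 s))
    refine (norm_add_le_of_le (norm_add_le_of_le a a') ((three hp s).2.2.trans hnp)).trans ?_
    linarith

theorem pzl_eq {l : ℝ} (hl : 0 < l) (P : ℂ → C2) (p : ℝ → C2) (b : ℝ → ℝ) (ζ : ℂ) :
    PzL l P p b ζ = (l : ℂ) • Pz P ((l : ℂ)⁻¹ • p) b ζ := by
  funext s
  rw [Pi.smul_apply, Pz, smul_add, Pi.smul_apply, smul_inv_smul₀ (ofReal_ne_zero.2 hl.ne'), PzL]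

end DEFL

open DEFL in
theorem st_defl : St_DEFL := by
  intro j B Cb q hq
  refine ⟨j * (4 * B + 2 * Cb + 1), j * (1126 * j + 4096000 * B ^ 2 * j ^ 3),
    1 + 2 * |Cb| + 40 * j ^ 2 * (4 * |Cb| + 80 * |j| * |B| + 2),
    fun h hh l G P p α b hG hP hn hp hnp hb => ?_⟩
  have hj := hG.nc.one_le
  have hj0 : 0 < j := one_pos.trans_le hj
  have hl := hG.pos
  have hC : 0 ≤ Cb := (abs_nonneg _).trans (hb.b1 0)
  have h1 : 1 ≤ h := le_trans (by
    have : 0 ≤ 2 * |Cb| + 40 * j ^ 2 * (4 * |Cb| + 80 * |j| * |B| + 2) := by positivity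
    linarith) hh
  have h0 : 0 < h := by linarith
  obtain ⟨o0, T0, T1, T3, vT, v0, v1, o1, vh⟩ := par hq h1
  have hB : 0 ≤ B := (norm_nonneg _).trans (hP.s2 0 (by simp only [zero_im, abs_zero]; positivity))
  rw [abs_of_nonneg hC, abs_of_nonneg hB, abs_of_nonneg hj0.le] at hh
  have hh2 : 0 ≤ 40 * j ^ 2 * (4 * Cb + 80 * j * B + 2) := by positivity
  have oh : (om q h)⁻¹ ≤ h / om q h := by
    rw [div_eq_mul_inv]
    exact le_mul_of_one_le_left (by positivity) h1
  have ho : 0 ≤ h / om q h := by positivity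
  have i1 := inv_le_one_of_one_le₀ h1
  have vC : 2 * vt q h * Cb ≤ 2 * Cb * h⁻¹ := by nlinarith
  have vC1 : 2 * Cb * h⁻¹ ≤ 1 := by
    rw [← div_eq_mul_inv, div_le_one h0]
    linarith
  have hp' := SP.smul_mem (l : ℂ)⁻¹ hp
  have hnp' : nm ((l : ℂ)⁻¹ • p) ≤ (om q h)⁻¹ := by
    refine (sn_nm.smul _ _ hp).trans ?_
    rw [norm_inv, norm_real, Real.norm_of_nonneg hl.le]
    refine (mul_le_mul (inv_le_of_inv_le₀ hj0 hG.lo) hnp (sn_nm.nn _ hp) hj0.le).trans_eq ?_
    field_simp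
  have nl : ∀ {x : C2} {c : ℝ}, ‖x‖ ≤ c → ‖(l : ℂ) • x‖ ≤ j * c := fun hx => by
    rw [norm_smul, norm_real, Real.norm_of_nonneg hl.le]
    exact mul_le_mul hG.hi hx (norm_nonneg _) hj0.le
  simp only [pzl_eq hl]
  refine ⟨fun ζ hζ => ?_, fun s => ⟨?_, ?_⟩, ?_⟩
  · have nb : ∀ {x c : ℝ}, |x| ≤ c → ‖ζ * x‖ ≤ 2 * vt q h * c := fun hx => by
      rw [norm_mul, norm_real, Real.norm_eq_abs]
      exact mul_le_mul hζ.le hx (abs_nonneg _) (by positivity)
    have k := core (r := 80 * j * (h / om q h)) (Cb := Cb) (ζ := ζ) hG.nc hP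
      (hn.trans (div_le_self (by positivity) hj)) hp' hnp' hb.per
      (by rw [mul_div_assoc]; nlinarith)
      (fun s => (nb (hb.b0 s)).trans (le_of_eq (by rw [← vT]; ring)))
      (fun s => (nb (hb.b1 s)).trans vC) vC1 fun s => (nb (hb.b2 s)).trans (by
        rw [show 2 * vt q h * (Cb / (2 * j * Tt q h / h)) = Cb * (vt q h * h / (j * Tt q h)) by
          field_simp]
        exact mul_le_of_le_one_right hC ((div_le_one (by positivity)).2
          (vh.trans (le_mul_of_one_le_left T0.le hj))))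
    have hQ := pz_sp hP hp' hb.per ζ
    refine ⟨SP.smul_mem _ hQ, fun s => ?_, fun s => ?_, fun s => ?_⟩
    · rw [cp_sc, Pi.smul_apply, Pi.smul_apply, ← smul_sub, mul_div_assoc, mul_assoc]
      refine (nl (k s).1).trans (mul_le_mul_of_nonneg_left ?_ hj0.le)
      have : 0 ≤ B ^ 2 * j ^ 3 * (h / om q h) := by positivity
      nlinarith [mul_le_mul_of_nonneg_right hj ho]
    · rw [cp_sc, d_smul hQ, d_smul (cp_sp hG.nc), Pi.smul_apply, Pi.smul_apply, ← smul_sub]
      refine (nl (k s).2.1).trans ?_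
      have k1 : j * ((4 * Cb + 80 * j * B + 2) * h⁻¹) ≤ (40 * j)⁻¹ := by
        rw [← mul_assoc, ← div_eq_mul_inv, ← one_div, div_le_div_iff₀ h0 (by positivity)]
        linarith
      refine le_trans (mul_le_mul_of_nonneg_left ?_ hj0.le) k1
      have k2 := mul_le_mul_of_nonneg_left o1 (by positivity : 0 ≤ 80 * j * B)
      linarith
    · rw [dd_smul hQ]
      exact nl ((k s).2.2.trans (by linarith))
  · exact ((hP.hol.comp ((differentiable_id.mul_const _).const_add _)).add_const _).const_smul _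
  · simp only [fun ζ => d_smul (pz_sp hP hp' hb.per ζ), d1 hP hp' hb.per, Pi.smul_apply]
    have := hol' hP
    fun_prop
  · have g : ∀ s t, |s - α| ≤ 20 * j * Tt q h → |t - α| ≤ 20 * j * Tt q h → s ≤ t →
        vt q h * (t - s) / j - j * (1126 * j + 4096000 * B ^ 2 * j ^ 3) / om q h ≤
          -(pc ((l : ℂ) • Pz P ((l : ℂ)⁻¹ • p) b (-I * vt q h)) s t).im := by
      intro s t hs ht hst
      have k0 := gain hP hp' hnp' (by linarith) hb (by positivity) ?_ v0.le (by nlinarith) ?_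
        hs ht hst
      · have e : vt q h * (2 * j * Tt q h / h) = 2 * j * (om q h)⁻¹ := by
          rw [← mul_div_assoc, mul_left_comm, vT]
          field_simp
        have k := mul_le_mul_of_nonneg_left T1 (mul_pos hj0 (inv_pos.2 o0)).le
        have k2 := mul_le_mul_of_nonneg_left T3 (by positivity : 0 ≤ B ^ 2 * j ^ 3)
        have k3 : vt q h * (t - s) - (1126 * j + 4096000 * B ^ 2 * j ^ 3) / om q h ≤
            -(pc (Pz P ((l : ℂ)⁻¹ • p) b (-I * vt q h)) s t).im := by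
          refine le_trans ?_ k0
          rw [e, div_eq_mul_inv]
          nlinarith
        have k4 := mul_le_mul_of_nonneg_left hG.lo (mul_nonneg v0.le (sub_nonneg.2 hst))
        have k5 := mul_le_mul_of_nonneg_right hG.hi
          (by positivity : 0 ≤ (1126 * j + 4096000 * B ^ 2 * j ^ 3) / om q h)
        have k6 := mul_le_mul_of_nonneg_left k3 hl.le
        rw [pc_smul hl, im_ofReal_mul, div_eq_mul_inv _ j, mul_div_assoc]
        linarith
      · have : 2 * j * Tt q h / h ≤ 2 * j * Tt q h := div_le_self (by positivity) h1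
        nlinarith [mul_pos hj0 T0]
      · rw [mul_div_assoc, ← vT]
        nlinarith [mul_pos hj0 (mul_pos v0 T0)]
    intro s t hs ht
    rcases le_total s t with hst | hst
    · rw [abs_of_nonneg (sub_nonneg.2 hst)]
      exact g s t hs ht hst
    · rw [abs_sub_comm, abs_of_nonneg (sub_nonneg.2 hst), pc_symm]
      exact g t s ht hs hst

end Pool.Agent.Lib.IS3
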