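import Pool.Agent.Lib.IS3.Kit
import Pool.Agent.Lib.ISO.B_BAIRE
import Pool.Agent.Lib.IS2.B_T2

/-! Block DEN: the markers are generic for several curves. -/

open scoped ContDiff ComplexConjugate Topology Real
open Complex MeasureTheory Set Filter

noncomputable section

namespace Pool.Agent.Lib.IS3

open Pool.Agent.Lib.ISO Pool.Agent.Lib.IS2

namespace DEN

lemma emb (hEMB : St_EMB) : Topology.IsOpenEmbedding (inclusion BAIRE.sub) := by
  refine Topology.IsOpenEmbedding.inclusion BAIRE.sub ?_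
  rw [isOpen_iff_mem_nhds]
  intro f hf
  obtain ⟨η, hη, h⟩ := hEMB f hf
  obtain ⟨v, hv, h3⟩ := hf.2.2.2
  have h4 : ∀ᶠ g in 𝓝 f.1, 0 < ‖UniformFun.toFun (g 1) 0‖ :=
    (BAIRE.cont_ev 1 0).norm.continuousAt.eventually (lt_mem_nhds (hv.trans_eq (h3 0).symm))
  have h5 := continuous_subtype_val.continuousAt.eventually
    (((BAIRE.near f.1 0 hη).and (BAIRE.near f.1 1 hη)).and h4)
  filter_upwards [h5] with g hg
  exact ⟨g.2.1, g.2.2.1, h _ _ (g.2.1 0) g.2.2.1 hg.1.1 hg.1.2, _, hg.2, g.2.2.2⟩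

lemma baire (hEMB : St_EMB) (N : ℕ) : BaireSpace (Fin N → Jordan) := by
  have : CompleteSpace BAIRE.Cl := BAIRE.closed_Cl.completeSpace_coe
  have : BaireSpace (Fin N → BAIRE.Cl) := inferInstance
  exact (Topology.IsOpenEmbedding.piMap fun _ : Fin N => emb hEMB).baireSpace

lemma mk_conj {M W : ℕ} {a a' z : ℤ → ℂ} (r : ∀ t, a' t = -conj (a t)) (c : Mk M W a' z) :
    Mk M W a fun j => -conj (z j) := by
  refine lt_of_eq_of_lt (tsum_congr fun ξ => ?_) c
  have : -conj (z ξ) - amp M W * gm a W ξ = -conj (z ξ - amp M W * gm a' W ξ) := by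
    simp only [gm, r, map_sub, map_mul, map_add, map_neg, conj_conj, conj_ofReal]
    ring
  rw [this, norm_neg, norm_conj]

lemma kp_uc {N : ℕ} (σ : Fin N → Bool) (f : Fin N → Jordan) (i : Fin N) (s : ℝ) :
    kp (uc σ f i) s = sg (σ i) * kf (f i).1 (fl (σ i) s) := by
  have h1 : deriv (uc σ f i) =
      fun s => sg (σ i) * UniformFun.toFun ((f i).1 1) (fl (σ i) s) / sp f i :=
    funext fun s => ((hd_ori σ f i s).div_const _).deriv
  have h2 := ((((f i).2.1 1 _).scomp s (hd_fl (σ i) s)).const_mul (sg (σ i) : ℂ)).div_const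
    (sp f i : ℂ)
  simp only [real_smul, Function.comp_def] at h2
  have h0 := (sp_pos f i).ne'
  rw [kp, h1, h2.deriv, kf, ← sp]
  have e : (sg (σ i) : ℂ) * (sg (σ i) * UniformFun.toFun ((f i).1 (1 + 1)) (fl (σ i) s)) / sp f i *
      conj (sg (σ i) * UniformFun.toFun ((f i).1 1) (fl (σ i) s) / sp f i) =
      ((sg (σ i) * sg (σ i) * sg (σ i) / sp f i ^ 2 : ℝ) : ℂ) *
        (UniformFun.toFun ((f i).1 2) (fl (σ i) s) *
          conj (UniformFun.toFun ((f i).1 1) (fl (σ i) s))) := by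
    simp only [map_mul, map_div₀, conj_ofReal]
    push_cast
    ring
  rw [e, im_ofReal_mul, sg_sq]
  ring

lemma env_ite {j : ℕ} {a : ℤ → ℂ} (h : Env j a) (p : Prop) [Decidable p] :
    Env j (if p then a else 0) := by
  split_ifs
  · exact h
  · exact ⟨fun _ _ => rfl, fun _ => by simp⟩

lemma flip (hFOU : St_FOU) (hOPEN : St_OPEN) {N : ℕ} {W0 : ℕ → ℕ → ℕ} (f : Fin N → Jordan)
    (h : Gmm W0 fun i => fc (kf (f i).1)) (σ : Fin N → Bool) :
    Gmm W0 fun i => fc (kp (uc σ f i)) := by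
  intro j i l e
  have r : ∀ t, ra (l.mapRange (fun p => (-p.1, p.2)) (by simp)) t = -conj (ra l t) := fun t => by
    simp [ra, add_comm]
  obtain ⟨l', e', r'⟩ : ∃ l', Env j (ra l') ∧ ∀ t, ra l' t = if σ i then -conj (ra l t) else ra l t := by
    cases σ i
    · exact ⟨l, e, fun _ => rfl⟩
    · exact ⟨_, ⟨fun t ht => by rw [r, e.1 t ht]; simp,
        fun t => by rw [r, norm_neg, norm_conj]; exact e.2 t⟩, r⟩
  obtain ⟨M, W, a, b, c⟩ := h j i l' e'
  refine ⟨M, W, a, b, fun k => ?_⟩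
  have c := c k
  show Mk M W _ (fc (kp (uc σ f k)))
  rw [funext (kp_uc σ f k)]
  cases hk : σ k
  · simp only [sg, fl, Bool.false_eq_true, if_false, one_mul]
    by_cases hi : k = i
    · subst hi
      simp only [hk, Bool.false_eq_true, if_false] at r'
      rwa [funext r'] at c
    · rwa [if_neg hi] at c ⊢
  · simp only [sg, fl, if_true, neg_one_mul]
    rw [T2.fc_flip hFOU (hOPEN.1 _ (f k).2)]
    refine mk_conj (fun t => ?_) c
    by_cases hi : k = i
    · subst hi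
      simpa only [hk, if_true] using r' t
    · simp [hi]

end DEN

open DEN in
theorem st_den (hEMB : St_EMB) (hFOU : St_FOU) (hOPEN : St_OPEN) (hDEN1 : St_DEN1) : St_DEN := by
  intro N
  have := baire hEMB N
  refine ⟨this, fun W0 => ?_⟩
  let U : {p : ℕ × Fin N × (ℤ →₀ ℚ × ℚ) // Env p.1 (ra p.2.2)} → Set (Fin N → Jordan) := fun p =>
    {f | ∃ M W, p.1.1 ≤ M ∧ W0 p.1.1 M ≤ W ∧
      Mkm M W p.1.2.1 (ra p.1.2.2) fun i => fc (kf (f i).1)}
  have hU : ∀ p, IsOpen (U p) := fun p => by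
    have : U p = ⋃ M, ⋃ W, ⋃ _ : p.1.1 ≤ M ∧ W0 p.1.1 M ≤ W, ⋂ k, (fun f : Fin N → Jordan => f k) ⁻¹'
        {g : Jordan | Mk M W (if k = p.1.2.1 then ra p.1.2.2 else 0) (fc (kf g.1))} := by
      ext f
      simp only [U, Mkm, mem_ofPred_eq, mem_iUnion, mem_iInter, mem_preimage, exists_prop, and_assoc]
    rw [this]
    exact isOpen_iUnion fun M => isOpen_iUnion fun W => isOpen_iUnion fun _ =>
      isOpen_iInter_of_finite fun k =>
        (hOPEN.2 M W _ _ (env_ite p.2 _)).preimage (continuous_apply k)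
  refine ⟨⋂ p, U p, IsGδ.iInter_of_isOpen hU, dense_iInter_of_isOpen hU fun p f => ?_,
    fun f hf σ => flip hFOU hOPEN f (fun j i l h => mem_iInter.1 hf ⟨(j, i, l), h⟩) σ⟩
  rw [mem_closure_iff_nhds]
  intro V hV
  rw [nhds_pi, Filter.mem_pi] at hV
  obtain ⟨I, -, t, ht, hV⟩ := hV
  choose M0 h1 using fun k => hDEN1 (f k) p.1.1 _ (env_ite p.2 (k = p.1.2.1)) (t k) (ht k)
  choose W1 h2 using fun k => h1 k (max p.1.1 (Finset.univ.sup M0))
    ((Finset.le_sup (Finset.mem_univ k)).trans (le_max_right _ _))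
  choose g h3 h4 using fun k => h2 k
    (max (W0 p.1.1 (max p.1.1 (Finset.univ.sup M0))) (Finset.univ.sup W1))
    ((Finset.le_sup (Finset.mem_univ k)).trans (le_max_right _ _))
  exact ⟨g, hV fun k _ => h3 k, _, _, le_max_left _ _, le_max_left _ _, h4⟩

end Pool.Agent.Lib.IS3
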