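import Pool.Agent.Lib.IS3.Kit
import Pool.Agent.Lib.ISO.B_DENSE

/-! Markers of every large order and frequency can be inserted by a small perturbation. -/

open scoped ContDiff ComplexConjugate
open Complex Filter Topology

noncomputable section

namespace Pool.Agent.Lib.IS3

open Pool.Agent.Lib.ISO Pool.Agent.Lib.IS2

namespace DEN1

open Pool.Agent.Lib.ISO.DENSE

theorem approx (hEMB : St_EMB) (hFOU : St_FOU) (hOPEN : St_OPEN) (J : ℕ)
    {a : ℤ → ℂ} (ha : Env J a) {f : ℕ → UniformFun ℝ ℂ} (hf : f ∈ Jordan) (N : ℕ) {ε : ℝ}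
    (hε : 0 < ε) {M : ℕ} (hM : N + 1 ≤ M) : ∀ᶠ W : ℕ in atTop,
    ∃ g ∈ Jordan, (∀ n ≤ N, ∀ t, ‖UniformFun.toFun (g n) t - UniformFun.toFun (f n) t‖ ≤ ε) ∧
      Mk M W a (fc (kf g)) := by
  obtain ⟨δ, hδ, hR⟩ := rotate hEMB hf N hε
  have hk := hOPEN.1 f hf
  obtain ⟨hd, hp, -, v, hv, hn⟩ := hf
  obtain ⟨F, hF⟩ : ∃ F : ℕ → ℝ → ℂ, ∀ n, UniformFun.toFun (f n) = F n := ⟨_, fun _ => rfl⟩
  have hR' : ∀ θ : ℕ → ℝ → ℝ, (∀ n t, HasDerivAt (θ n) (θ (n + 1) t) t) →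
      Function.Periodic (θ 0) (2 * Real.pi) → (∀ n ≤ N, ∀ t, |θ n t| ≤ δ) →
      ∫ s in (0 : ℝ)..(2 * Real.pi), F 1 s * exp (I * θ 0 s) = 0 → _ :=
    fun θ h1 h2 h3 h4 => hR θ h1 h2 h3 (by rw [hF]; exact h4)
  simp only [hF] at hd hp hn
  obtain ⟨B, hB1, hB⟩ := chain_bd hd hp (N + 1)
  have hp0 : F 0 (2 * Real.pi) = F 0 0 := by
    have := hp 0
    rwa [zero_add] at this
  obtain ⟨δ', hδ', hC⟩ := closing (hd 0) (chain_sm hd 1).continuous hp0 hv hn
    (ε := min 1 (δ / 2 / B)) (by positivity)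
  have hre : Per (2 * Real.pi) fun s => (F 2 s).re :=
    ⟨reCLM.contDiff.comp (chain_sm hd 2), fun s => by rw [chain_per hd hp 2 s]⟩
  have him : Per (2 * Real.pi) fun s => (F 2 s).im :=
    ⟨imCLM.contDiff.comp (chain_sm hd 2), fun s => by rw [chain_per hd hp 2 s]⟩
  have hs : Summable fun ξ : ℤ => |(ξ : ℝ)| ^ (4 * M + 9) * (‖fc (kf f) ξ‖ +
      (‖fc (fun s => (F 2 s).re) ξ‖ + ‖fc (fun s => (F 2 s).im) ξ‖)) := by
    simp only [mul_add]
    exact ((hFOU _ hk).1.dec _).add (((hFOU _ hre).1.dec _).add ((hFOU _ him).1.dec _))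
  have hm : 0 < min δ' (δ / 2) := by positivity
  filter_upwards [eventually_gt_atTop J,
    tendsto_natCast_atTop_atTop.eventually_gt_atTop (∑' ξ : ℤ, |(ξ : ℝ)| ^ (4 * M + 9) *
      (‖fc (kf f) ξ‖ + (‖fc (fun s => (F 2 s).re) ξ‖ + ‖fc (fun s => (F 2 s).im) ξ‖))),
    tendsto_natCast_atTop_atTop.eventually_gt_atTop
      (2 * (((win J).card : ℝ) * (J * 2 ^ N)) / min δ' (δ / 2))] with W hW2 hW3 hW4
  have hG : ∀ n ≤ N, ∀ s, |DENSE.GG a J W (amp M W) n s| ≤ min δ' (δ / 2) := fun n hn s => by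
    refine (GG_bd ha hW2 hM n hn s).trans ?_
    have h1 : (0 : ℝ) < W := by exact_mod_cast (Nat.zero_le J).trans_lt hW2
    rw [div_lt_iff₀ hm] at hW4
    rw [div_le_iff₀ h1]
    linarith
  have sG := chain_sm (GG_der a J W (amp M W))
  obtain ⟨c, hc1, hc2⟩ := hC _ (sG 0).continuous
    fun s => (hG 0 (Nat.zero_le N) s).trans (min_le_left _ _)
  obtain ⟨g, hg, hg1, hg2⟩ := hR' (fun n s => DENSE.GG a J W (amp M W) n s + ip c (F (n + 1) s))
    (fun n t => (GG_der _ _ _ _ n t).fun_add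
      (((reCLM.hasFDerivAt.comp_hasDerivAt t (hd (n + 1) t)).const_mul c.re).fun_add
        ((imCLM.hasFDerivAt.comp_hasDerivAt t (hd (n + 1) t)).const_mul c.im)))
    (fun s => by simp only [GG_per a J W _ s, chain_per hd hp (0 + 1) s])
    (fun n hn t => by
      have h1 := (hG n hn t).trans (min_le_right _ _)
      have h2 := ip_le c (F (n + 1) t)
      have h3 := hc1.trans (min_le_right _ _)
      rw [le_div_iff₀ (by positivity)] at h3
      have h4 := mul_le_mul_of_nonneg_left (hB (n + 1) (by omega) t) (norm_nonneg c)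
      have h5 := abs_add_le (DENSE.GG a J W (amp M W) n t) (ip c (F (n + 1) t))
      linarith) hc2
  refine ⟨g, hg, hg1, tail _ (fun ξ => by positivity) hs hW3 fun ξ => ?_⟩
  have h1 := fc_lin hk.smooth.continuous (sG 1).continuous hre.smooth.continuous
    him.smooth.continuous c.re c.im ξ
  have h2 : kf g = fun s => kf f s + (DENSE.GG a J W (amp M W) 1 s +
      (c.re * (F 2 s).re + c.im * (F 2 s).im)) := hg2
  have h3 := hc1.trans (min_le_left _ _)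
  have h4 : ∀ (x : ℝ) (w : ℂ), |x| ≤ 1 → ‖x * w‖ ≤ ‖w‖ := fun x w hx => by
    rw [norm_mul, norm_real, Real.norm_eq_abs]
    exact mul_le_of_le_one_left (norm_nonneg _) hx
  rw [h2, h1, fc_GG ha hW2, add_left_comm, add_sub_cancel_left]
  exact norm_add_le_of_le le_rfl (norm_add_le_of_le (h4 _ _ ((abs_re_le_norm c).trans h3))
    (h4 _ _ ((abs_im_le_norm c).trans h3)))

theorem basis (f : Jordan) {U : Set Jordan} (hU : U ∈ 𝓝 f) : ∃ N : ℕ, ∀ g : Jordan,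
    (∀ n ≤ N, ∀ t, ‖UniformFun.toFun (g.1 n) t - UniformFun.toFun (f.1 n) t‖ ≤ 1 / (N + 1 : ℝ)) →
      g ∈ U := by
  by_contra h
  simp only [not_exists, not_forall] at h
  choose g h1 h2 using h
  have : Tendsto g atTop (𝓝 f) := by
    rw [tendsto_subtype_rng, tendsto_pi_nhds]
    intro n
    rw [UniformFun.tendsto_iff_tendstoUniformly, Metric.tendstoUniformly_iff]
    intro ε hε
    filter_upwards [eventually_ge_atTop n,
      (tendsto_one_div_add_atTop_nhds_zero_nat (𝕜 := ℝ)).eventually (gt_mem_nhds hε)] with N h3 h4 t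
    rw [dist_comm, dist_eq_norm]
    exact (h1 N n h3 t).trans_lt h4
  obtain ⟨N, hN⟩ := (this.eventually hU).exists
  exact h2 N hN

end DEN1

theorem st_den1 (hEMB : ISO.St_EMB) (hFOU : ISO.St_FOU) (hOPEN : ISO.St_OPEN) : St_DEN1 := by
  intro f J a ha U hU
  obtain ⟨N, hN⟩ := DEN1.basis f hU
  refine ⟨N + 1, fun M hM => ?_⟩
  obtain ⟨W1, h⟩ := eventually_atTop.1
    (DEN1.approx hEMB hFOU hOPEN J ha f.2 N (Nat.one_div_pos_of_nat (n := N)) hM)
  refine ⟨W1, fun W hW => ?_⟩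
  obtain ⟨g, hg, h1, h2⟩ := h W hW
  exact ⟨⟨g, hg⟩, hN _ h1, h2⟩

end Pool.Agent.Lib.IS3
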