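import Pool.Agent.Lib.IS3.Kit
import Pool.Agent.Lib.IS2.B_HI
import Pool.Agent.Lib.IS2.B_HOL
import Pool.Agent.Lib.IS2.B_LHT

/-! The first variation of the weighted trace is the sum of the integrated derivatives. -/

open scoped ContDiff ComplexConjugate Topology Real
open Complex MeasureTheory Set Filter

noncomputable section

namespace Pool.Agent.Lib.IS3

open Pool.Agent.Lib.ISO Pool.Agent.Lib.IS2

namespace DIF

variable {N n : ℕ}

theorem mm_nonneg (o : ℝ) (Γ : MC N) (n : ℕ) (v : Fin (n + 2) → XN N) : 0 ≤ Mm o Γ n v := by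
  unfold Mm cm
  positivity

theorem maj {C h ϖ : ℝ} {q : ℕ} {Γ : MC N} {P : MQ N} {μ : ℂ} {v : Fin (n + 2) → XN N}
    {w : ℂ} (hC : 1 ≤ C) (p0 : 0 ≤ ϖ) (hμ : μ ∈ DD q h) (hw : ‖w‖ ≤ 1)
    (h1 : ‖IM μ P n v‖ ≤ C ^ (n + 2) * Mm (om q h) Γ n v * ‖exp (-(μ * ecm P v))‖)
    (h2 : ‖exp (-(μ * ecm P v))‖ ≤ Real.exp (-(μ.re * elm Γ v) + C * (n + 2) * ‖μ‖ * ϖ)) :
    ‖w * IM μ P n v‖ ≤ C ^ (n + 2) * Real.exp (C * (n + 2) * om q h * ϖ) *
      (Mm (om q h) Γ n v * Real.exp (-(elm Γ v / (2 * Tt q h)))) := by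
  have m0 := mm_nonneg (om q h) Γ n v
  have l0 := elm_nonneg Γ v
  have e1 : elm Γ v / (2 * Tt q h) ≤ μ.re * elm Γ v := by
    rw [div_eq_inv_mul]; exact mul_le_mul_of_nonneg_right hμ.1.le l0
  have e2 : C * (n + 2) * ‖μ‖ * ϖ ≤ C * (n + 2) * om q h * ϖ := by
    have := hμ.2.le
    gcongr
  have e3 := h2.trans (Real.exp_le_exp.2 (add_le_add (neg_le_neg e1) e2))
  rw [Real.exp_add] at e3
  calc ‖w * IM μ P n v‖ ≤ 1 * ‖IM μ P n v‖ := by rw [norm_mul]; gcongr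
    _ ≤ C ^ (n + 2) * Mm (om q h) Γ n v * (Real.exp (-(elm Γ v / (2 * Tt q h))) *
        Real.exp (C * (n + 2) * om q h * ϖ)) := by
      rw [one_mul]; refine h1.trans ?_; gcongr
    _ = _ := by ring

theorem der_line {P y : MQ N} (hP : P ∈ SPm N) (hy : y ∈ SPm N) (ε : ℂ) (i : Fin N) (s : ℝ) :
    deriv ((P + ε • y) i) s = deriv (P i) s + ε • deriv (y i) s := by
  rw [Pi.add_apply, Pi.smul_apply, deriv_add (SP.diff (mem_SPm.1 hP i) s)
    (SP.diff (SP.smul_mem ε (mem_SPm.1 hy i)) s), deriv_const_smul ε (SP.diff (mem_SPm.1 hy i) s)]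

theorem line {P y : MQ N} (hP : P ∈ SPm N) (hy : y ∈ SPm N) (ζ : ℂ) (i : Fin N) (s : ℝ) :
    DifferentiableAt ℂ (fun ε : ℂ => (P + ε • y) i s) ζ ∧
      DifferentiableAt ℂ (fun ε : ℂ => deriv ((P + ε • y) i) s) ζ := by
  simp only [der_line hP hy]
  simp only [Pi.add_apply, Pi.smul_apply]
  exact ⟨by fun_prop, by fun_prop⟩

/-- the derivative vanishes when the direction vanishes to first order at the vertices -/
theorem dI_zero (μ : ℂ) {P y : MQ N} (hP : P ∈ SPm N) (hy : y ∈ SPm N) {v : Fin (n + 2) → XN N}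
    (h : ∀ a, y (v a).1 (v a).2 = 0 ∧ deriv (y (v a).1) (v a).2 = 0) : dI μ P y n v = 0 := by
  have e : (fun ε : ℂ => IM μ (P + ε • y) n v) = fun _ => IM μ P n v := funext fun ε =>
    IM_congr μ fun a => ⟨by simp only [Pi.add_apply, Pi.smul_apply, (h a).1, smul_zero, add_zero],
      by rw [der_line hP hy, (h a).2, smul_zero, add_zero]⟩
  rw [dI, e, deriv_const]

theorem bu_zero {Γ : MC N} (hΓ : Rc Γ) {k : Fin N} {S : Set ℝ} {ρ : ℝ → ℝ} (hρ : Per (2 * π) ρ)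
    (h0 : ∀ s ∉ S, ρ s = 0 ∧ deriv ρ s = 0) {x : XN N} (hx : ¬(x.1 = k ∧ x.2 ∈ S)) :
    bu Γ k ρ x.1 x.2 = 0 ∧ deriv (bu Γ k ρ x.1) x.2 = 0 := by
  by_cases e : x.1 = k
  · obtain ⟨a, b⟩ := h0 x.2 fun hs => hx ⟨e, hs⟩
    have d0 : HasDerivAt ρ 0 x.2 := b ▸ (hρ.smooth.differentiable (by simp) x.2).hasDerivAt
    have d1 := (d0.ofReal_comp).mul ((hΓ.nr_smooth k).differentiable (by simp) x.2).hasDerivAt
    rw [bu, e, Pi.single_eq_same, nl]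
    refine ⟨by simp [cp, a], (hasDerivAt_cp d1).deriv.trans ?_⟩
    simp [a]
  · rw [bu, Pi.single_eq_of_ne e]
    exact ⟨rfl, deriv_const _ _⟩

theorem main (hKB : St_KBm) (hKM : St_KMm) (hCR : St_CRm) (hHO : St_HOLm) (hLH : St_LHW) (j : ℝ) :
    ∃ μ0, ∀ μ : ℝ, μ0 ≤ μ → ∀ (N : ℕ) (Γ : MC N) w, Nv j Γ → Wm w → ∀ y ∈ SPm N,
      (∀ n, Integrable (fun v => w (n + 2) v * dI μ (cpm Γ) y n v) (bm N (n + 2))) ∧
      HasSum (fun n => 2 * (-2) ^ n * ∫ v, w (n + 2) v * dI μ (cpm Γ) y n v ∂bm N (n + 2))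
        (D1 (TW w μ) (cpm Γ) y) := by
  obtain ⟨C1, hC1, kb⟩ := hKB j (j + 1)
  obtain ⟨C2, h2, cr⟩ := hCR j 4 (by norm_num)
  obtain ⟨C3, h3, hol⟩ := hHO j (j + 1) 4 (by norm_num)
  obtain ⟨C4, h4, lh⟩ := hLH j 4 le_rfl
  set A := 2 * (|C3| + 1) * Real.exp (4 * |C3|) with hA
  have A0 : 0 < A := by positivity
  obtain ⟨μ0, -, dd⟩ := dd_real (max (max h2 h3) (max h4 (2 * A)))
  refine ⟨μ0, fun μ hμ N Γ w hΓ hw y hy => ?_⟩
  obtain ⟨h, hh, k5, -, hD, -, -⟩ := dd μ hμ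
  simp only [max_le_iff] at hh
  obtain ⟨⟨k2, k3⟩, k4, k1⟩ := hh
  have o0 : 0 < om 4 h := by unfold om; positivity
  have t1 : h ≤ h ^ 3 := le_self_pow₀ (by linarith) (by omega)
  have r0 : 0 ≤ A / h ^ 3 := by positivity
  have r1 : A / h ^ 3 < 1 := by rw [div_lt_one (by positivity)]; linarith
  have hc := hΓ.cpm_mem
  have hU := GH.opn sn_nmm (SPm N).zero_mem hy (2 / om 4 h)
  set U := {ε : ℂ | nmm (0 + ε • y) < 2 / om 4 h} with hUd
  have z0 : (0 : ℂ) ∈ U := by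
    rw [hUd, mem_ofPred_eq, zero_smul, add_zero, GH.p_zero sn_nmm]; positivity
  have ad : ∀ ε ∈ U, Admm j (j + 1) Γ (2 / om 4 h) (cpm Γ + ε • y) := fun ε hε =>
    ((lh h k4 N Γ w 0 hΓ hw (lg_zero Γ w)).1 _ ((SPm N).add_mem hc ((SPm N).smul_mem ε hy)) (by
      rw [add_sub_cancel_left, ← zero_add (ε • y)]; exact le_of_lt hε)).1
  have both : ∀ n, ∀ ζ ∈ U,
      Integrable (fun v => deriv (fun ε : ℂ => w (n + 2) v * IM μ (cpm Γ + ε • y) n v) ζ)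
        (bm N (n + 2)) ∧ HasDerivAt (fun ε : ℂ => Tc w μ (cpm Γ + ε • y) n)
        (∫ v, deriv (fun ε : ℂ => w (n + 2) v * IM μ (cpm Γ + ε • y) n v) ζ ∂bm N (n + 2)) ζ :=
    fun n ζ hζ => by
      obtain ⟨gv, gi, -⟩ := cr h k2 N Γ hΓ n
      refine HI.both (F := fun ε v => w (n + 2) v * IM μ (cpm Γ + ε • y) n v) hU
        (gi.const_mul (C1 ^ (n + 2) * Real.exp (C1 * (n + 2) * om 4 h * (2 / om 4 h))))
        (fun ε hε => ((hw _).1.mul (((hKM N).1 _ (ad ε hε).mem n).comp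
          (measurable_const.prodMk measurable_id))).aestronglyMeasurable)
        (gv.mono fun v hv => ⟨fun ε hε => ?_, fun ε hε => ?_⟩) hζ
      · exact (((hKM N).2 j (j + 1) Γ _ (fun _ => μ) (fun ε => cpm Γ + ε • y) ε n v hΓ (ad ε hε)
          (HOL.sm_of k5 hD) hv (differentiableAt_const _)
          (line hc hy ε)).const_mul _).differentiableWithinAt
      · obtain ⟨a, b⟩ := (kb N Γ _ _ hΓ (ad ε hε)).2 n v μ (om 4 h) hv (HOL.sm_of k5 hD) hD.2.le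
        exact maj hC1 (by positivity) hD ((hw _).2.1 v) a b
  have tb : ∀ n, ∀ ε ∈ U, ‖2 * (-2) ^ n * Tc w μ (cpm Γ + ε • y) n‖ ≤
      A * om 4 h * (A / h ^ 3) ^ n := fun n ε hε => by
    have := ((hol h k3 N Γ _ w n hΓ hw).1 _ μ 0 (ad ε hε) hD (lg_zero Γ w)).2
    rw [ga0, mul_zero, neg_zero, Real.exp_zero, mul_one] at this
    exact LHT.term o0 (by linarith) this
  have hs := Complex.hasSum_deriv_of_summable_norm
    (F := fun n ε => 2 * (-2) ^ n * Tc w μ (cpm Γ + ε • y) n)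
    ((summable_geometric_of_lt_one r0 r1).mul_left (A * om 4 h))
    (fun n ε hε => ((both n ε hε).2.differentiableAt.const_mul _).differentiableWithinAt) hU tb z0
  have e : ∀ n, deriv (fun ε : ℂ => 2 * (-2) ^ n * Tc w μ (cpm Γ + ε • y) n) 0 =
      2 * (-2) ^ n * ∫ v, w (n + 2) v * dI μ (cpm Γ) y n v ∂bm N (n + 2) := fun n => by
    rw [((both n 0 z0).2.const_mul _).deriv]
    simp only [deriv_const_mul_field, dI]
  refine ⟨fun n => ?_, ?_⟩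
  · exact (both n 0 z0).1.congr (ae_of_all _ fun v => deriv_const_mul_field _)
  · simp only [e] at hs
    exact hs

end DIF

theorem st_dif (hKB : St_KBm) (hKM : St_KMm) (hCR : St_CRm) (hHO : St_HOLm) (hLH : St_LHW) :
    St_DIF := fun j => by
  obtain ⟨μ0, h⟩ := DIF.main hKB hKM hCR hHO hLH j
  refine ⟨μ0, fun μ hμ N Γ w hΓ hw => ⟨fun y hy => ⟨(h μ hμ N Γ w hΓ hw y hy).1,
    (h μ hμ N Γ w hΓ hw y hy).2, fun w' hw' hs => ?_⟩, fun k S ρ hS hρ h0 => ?_⟩⟩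
  · obtain ⟨i1, s1⟩ := h μ hμ N Γ w hΓ hw y hy
    obtain ⟨i2, s2⟩ := h μ hμ N Γ w' hΓ hw' y hy
    refine (h μ hμ N Γ _ hΓ hs y hy).2.unique ?_
    have e : ∀ n, 2 * (-2) ^ n * ∫ v, (w + w') (n + 2) v * dI μ (cpm Γ) y n v ∂bm N (n + 2) =
        2 * (-2) ^ n * ∫ v, w (n + 2) v * dI μ (cpm Γ) y n v ∂bm N (n + 2) +
        2 * (-2) ^ n * ∫ v, w' (n + 2) v * dI μ (cpm Γ) y n v ∂bm N (n + 2) := fun n => by
      rw [← mul_add, ← integral_add (i1 n) (i2 n)]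
      simp only [Pi.add_apply, add_mul]
    simp only [e]
    exact s1.add s2
  · have hy := hΓ.rc.bu_mem k hρ
    refine (h μ hμ N Γ w hΓ hw _ hy).2.unique ?_
    have e : ∀ n v, w (n + 2) v * dI μ (cpm Γ) (bu Γ k ρ) n v =
        (w * wH k S) (n + 2) v * dI μ (cpm Γ) (bu Γ k ρ) n v := fun n v => by
      rcases wH_01 k S _ v with a | a
      · rw [DIF.dI_zero μ hΓ.cpm_mem hy fun i => DIF.bu_zero hΓ.rc hρ h0 fun c =>
          wH_ne.2 ⟨i, c⟩ a, mul_zero, mul_zero]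
      · simp only [Pi.mul_apply, a, mul_one]
    simp only [e]
    exact (h μ hμ N Γ _ hΓ (hw.mul hS) _ hy).2

end Pool.Agent.Lib.IS3
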