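import Pool.Agent.Lib.IS3.Blue

/-! Project is3: the zero set has small dimension. -/

open Set

noncomputable section

namespace Pool.Agent.Lib.IS3

theorem st_dim : St_DIM := by
  intro N m F S U c L hN hc h1 h2
  set T := {t | t ∈ S ∧ ∃ p ∈ U, F t p = 0}
  have ex : ∀ t, ∃ p, t ∈ T → p ∈ U ∧ F t p = 0 := fun t => by
    by_cases h : t ∈ T
    · exact h.2.imp fun _ h _ => h
    · exact ⟨0, fun k => absurd k h⟩
  choose P hP using ex
  have key : ∀ t ∈ T, ∀ t' ∈ T, ‖t - t'‖ ≤ max L 0 / c * ‖P t - P t'‖ := fun t ht t' ht' => by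
    have a := h1 t ht.1 t' ht'.1 _ (hP t ht).1
    have b := h2 t' ht'.1 _ (hP t ht).1 _ (hP t' ht').1
    rw [(hP t ht).2, zero_sub, norm_neg] at a
    rw [(hP t' ht').2, sub_zero] at b
    rw [div_mul_eq_mul_div, le_div_iff₀' hc]
    exact a.trans (b.trans (mul_le_mul_of_nonneg_right (le_max_left _ _) (norm_nonneg _)))
  have inj : InjOn P T := fun t ht t' ht' e => by
    have := key t ht t' ht'
    rwa [e, sub_self, norm_zero, mul_zero, norm_le_zero_iff, sub_eq_zero] at this
  have lip : LipschitzOnWith ⟨max L 0 / c, by positivity⟩ (Function.invFunOn P T) (P '' T) := by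
    refine LipschitzOnWith.of_dist_le_mul ?_
    rintro _ ⟨t, ht, rfl⟩ _ ⟨t', ht', rfl⟩
    rw [inj.leftInvOn_invFunOn ht, inj.leftInvOn_invFunOn ht', dist_eq_norm, dist_eq_norm]
    exact key t ht t' ht'
  have d := lip.dimH_image_le.trans (dimH_mono (subset_univ _))
  rw [inj.invFunOn_image Subset.rfl, Real.dimH_univ_eq_finrank] at d
  refine dense_compl_of_dimH_lt_finrank (d.trans_lt ?_)
  rw [Module.finrank_pi_fintype, Module.finrank_fin_fun]
  simp only [Module.finrank_prod, Complex.finrank_real_complex, Finset.sum_const, Finset.card_univ,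
    Fintype.card_fin, smul_eq_mul]
  exact_mod_cast (by omega : N * (2 + 2) < m)

end Pool.Agent.Lib.IS3
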