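import Pool.Agent.Lib.IS3.Defs

/-! The measures `nx`, `bm` label by label, and cycles. -/

open scoped ContDiff ComplexConjugate Topology Real ENNReal
open Complex MeasureTheory Set Filter

noncomputable section

namespace Pool.Agent.Lib.IS3

open Pool.Agent.Lib.ISO Pool.Agent.Lib.IS2

variable {N n : ℕ}

/-! ## The measures -/

abbrev nI : Measure ℝ := volume.restrict (Ioc 0 (2 * π))

lemma emb_mk (i : Fin N) : MeasurableEmbedding (Prod.mk i : ℝ → XN N) := measurableEmbedding_prodMk_left i

lemma nx_eq (N : ℕ) : nx N = ∑ i : Fin N, nI.map (Prod.mk i) := by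
  rw [nx, Measure.count, Measure.prod_sum_left, Measure.sum_fintype]
  exact Finset.sum_congr rfl fun i _ => Measure.dirac_prod i

lemma fin_nx : IsFiniteMeasure (nx N) := inferInstance

lemma ae_nx {p : XN N → Prop} : (∀ᵐ x ∂nx N, p x) ↔ ∀ i, ∀ᵐ s ∂nI, p (i, s) := by
  rw [nx_eq, ← Measure.sum_fintype, Measure.ae_sum_iff]
  exact forall_congr' fun i => (emb_mk i).ae_map_iff

lemma lintegral_nx (f : XN N → ℝ≥0∞) : ∫⁻ x, f x ∂nx N = ∑ i, ∫⁻ s, f (i, s) ∂nI := by
  rw [nx_eq, lintegral_finsetSum_measure]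
  exact Finset.sum_congr rfl fun i _ => (emb_mk i).lintegral_map f

section
variable {E : Type} [NormedAddCommGroup E]

lemma integrable_nx {f : XN N → E} : Integrable f (nx N) ↔ ∀ i, Integrable (fun s => f (i, s)) nI := by
  rw [nx_eq, integrable_finsetSum_measure]
  simp only [Finset.mem_univ, true_imp_iff]
  exact forall_congr' fun i => (emb_mk i).integrable_map_iff

lemma integral_nx' [NormedSpace ℝ E] {f : XN N → E} (hf : Integrable f (nx N)) :
    ∫ x, f x ∂nx N = ∑ i, ∫ s, f (i, s) ∂nI := by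
  have h := hf
  rw [nx_eq, integrable_finsetSum_measure] at h
  rw [nx_eq, integral_finsetSum_measure h]
  exact Finset.sum_congr rfl fun i _ => (emb_mk i).integral_map f

lemma integral_nx [NormedSpace ℝ E] {f : XN N → E} (hf : Integrable f (nx N)) :
    ∫ x, f x ∂nx N = ∑ i, ∫ s in (0 : ℝ)..(2 * π), f (i, s) := by
  simp only [integral_nx' hf, intervalIntegral.integral_of_le Real.two_pi_pos.le]

end

lemma nx_univ : (nx N).real univ = N * (2 * π) := by
  have := integral_nx (N := N) (f := fun _ => (1 : ℝ)) (integrable_const _)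
  simpa using this

/-- the vertices with prescribed labels -/
def lab (σ : Fin n → Fin N) (v : Fin n → ℝ) : Fin n → XN N := fun i => (σ i, v i)

lemma emb_lab (σ : Fin n → Fin N) : MeasurableEmbedding (lab σ) :=
  MeasurableEmbedding.of_measurable_inverse (g := fun w i => (w i).2)
    (measurable_pi_lambda _ fun i => measurable_const.prodMk (measurable_pi_apply i))
    (by
      have : range (lab σ) = ⋂ i, {w | (w i).1 = σ i} := by
        ext w
        simp only [mem_range, mem_iInter, mem_ofPred_eq]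
        exact ⟨fun ⟨v, h⟩ i => by rw [← h]; rfl,
          fun h => ⟨fun i => (w i).2, funext fun i => Prod.ext (h i).symm rfl⟩⟩
      rw [this]
      exact MeasurableSet.iInter fun i => measurableSet_eq_fun (by fun_prop) measurable_const)
    (by fun_prop) fun _ => rfl

lemma bm_eq (N n : ℕ) : bm N n = ∑ σ : Fin n → Fin N, (box n).map (lab σ) := by
  refine Measure.pi_eq fun s hs => ?_
  rw [Measure.finsetSum_apply]
  simp only [nx_eq, Measure.finsetSum_apply]
  rw [Finset.prod_univ_sum, Fintype.piFinset_univ]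
  refine Finset.sum_congr rfl fun σ _ => ?_
  rw [(emb_lab σ).map_apply, show lab σ ⁻¹' univ.pi s = univ.pi fun i => Prod.mk (σ i) ⁻¹' s i from rfl,
    box, Measure.pi_pi]
  exact Finset.prod_congr rfl fun i _ => ((emb_mk _).map_apply _ _).symm

lemma fin_bm : IsFiniteMeasure (bm N n) := inferInstance

lemma ae_bm {p : (Fin n → XN N) → Prop} : (∀ᵐ v ∂bm N n, p v) ↔ ∀ σ, ∀ᵐ v ∂box n, p (lab σ v) := by
  rw [bm_eq, ← Measure.sum_fintype, Measure.ae_sum_iff]
  exact forall_congr' fun σ => (emb_lab σ).ae_map_iff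

lemma lintegral_bm (f : (Fin n → XN N) → ℝ≥0∞) :
    ∫⁻ v, f v ∂bm N n = ∑ σ, ∫⁻ v, f (lab σ v) ∂box n := by
  rw [bm_eq, lintegral_finsetSum_measure]
  exact Finset.sum_congr rfl fun σ _ => (emb_lab σ).lintegral_map f

section
variable {E : Type} [NormedAddCommGroup E]

lemma integrable_bm {f : (Fin n → XN N) → E} :
    Integrable f (bm N n) ↔ ∀ σ, Integrable (fun v => f (lab σ v)) (box n) := by
  rw [bm_eq, integrable_finsetSum_measure]
  simp only [Finset.mem_univ, true_imp_iff]
  exact forall_congr' fun σ => (emb_lab σ).integrable_map_iff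

lemma integral_bm [NormedSpace ℝ E] {f : (Fin n → XN N) → E} (hf : Integrable f (bm N n)) :
    ∫ v, f v ∂bm N n = ∑ σ, ∫ v, f (lab σ v) ∂box n := by
  have h := hf
  rw [bm_eq, integrable_finsetSum_measure] at h
  rw [bm_eq, integral_finsetSum_measure h]
  exact Finset.sum_congr rfl fun σ _ => (emb_lab σ).integral_map f

end

lemma bm_one (n : ℕ) : bm 1 n = (box n).map (lab fun _ => 0) := by
  rw [bm_eq, Fintype.sum_unique]
  congr 2

/-! ## Continuity and measurability label by label -/

lemma cont_xn {X Y : Type} [TopologicalSpace X] [TopologicalSpace Y] {f : X × XN N → Y}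
    (h : ∀ i, Continuous fun p : X × ℝ => f (p.1, i, p.2)) : Continuous f := by
  refine continuous_iff_continuousAt.2 fun p => ?_
  have h1 : ∀ᶠ q : X × XN N in 𝓝 p, q.2.1 = p.2.1 :=
    (continuous_fst.comp continuous_snd).continuousAt.eventually
      ((isOpen_discrete {p.2.1}).mem_nhds rfl)
  refine (((h p.2.1).comp (f := fun q : X × XN N => (q.1, q.2.2)) (by fun_prop)).continuousAt).congr ?_
  filter_upwards [h1] with q hq
  simp only [Function.comp_apply, ← hq]

lemma cont_x1 {Y : Type} [TopologicalSpace Y] {f : XN N → Y}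
    (h : ∀ i, Continuous fun s => f (i, s)) : Continuous f :=
  (cont_xn (X := Unit) (f := fun p => f p.2) fun i => (h i).comp continuous_snd).comp
    (f := fun x => ((), x)) (by fun_prop)

lemma cont_x2 {Y : Type} [TopologicalSpace Y] {f : XN N → XN N → Y}
    (h : ∀ i k, Continuous fun p : ℝ × ℝ => f (i, p.1) (k, p.2)) :
    Continuous (Function.uncurry f) :=
  cont_xn fun k => (cont_xn (X := ℝ) (f := fun p => f p.2 (k, p.1)) fun i =>
    (h i k).comp continuous_swap).comp continuous_swap

lemma meas_xn {X Y : Type} [MeasurableSpace X] [MeasurableSpace Y] {f : X × XN N → Y}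
    (h : ∀ i, Measurable fun p : X × ℝ => f (p.1, i, p.2)) : Measurable f :=
  (measurable_from_prod_countable_left (f := fun q : (X × ℝ) × Fin N => f (q.1.1, q.2, q.1.2))
    h).comp (f := fun p : X × XN N => ((p.1, p.2.2), p.2.1)) (by fun_prop)

lemma meas_x1 {Y : Type} [MeasurableSpace Y] {f : XN N → Y}
    (h : ∀ i, Measurable fun s => f (i, s)) : Measurable f :=
  measurable_from_prod_countable_right h

/-- evaluation of a family of continuous functions -/
lemma cont_ev {Y : Type} [TopologicalSpace Y] {P : Fin N → ℝ → Y} (h : ∀ i, Continuous (P i)) :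
    Continuous fun x : XN N => P x.1 x.2 := cont_x1 h

lemma meas_ev {Y : Type} [MeasurableSpace Y] {P : Fin N → ℝ → Y} (h : ∀ i, Measurable (P i)) :
    Measurable fun x : XN N => P x.1 x.2 := meas_x1 h

lemma int_cont {E : Type} [NormedAddCommGroup E] {f : XN N → E} (h : Continuous f) :
    Integrable f (nx N) := integrable_nx.2 fun i =>
  ((h.comp (Continuous.prodMk_right i)).integrableOn_Icc).mono_set Ioc_subset_Icc_self

/-- parameter integrals of continuous functions -/
lemma cont_int {X E : Type} [TopologicalSpace X] [NormedAddCommGroup E] [NormedSpace ℝ E]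
    {f : X → XN N → E} (h : Continuous (Function.uncurry f)) :
    Continuous fun a => ∫ x, f a x ∂nx N := by
  have e : (fun a => ∫ x, f a x ∂nx N) = fun a => ∑ i, ∫ s in (0 : ℝ)..(2 * π), f a (i, s) :=
    funext fun a => integral_nx (int_cont (h.comp (Continuous.prodMk_right a)))
  rw [e]
  exact continuous_finsetSum _ fun i _ =>
    intervalIntegral.continuous_parametric_intervalIntegral_of_continuous'
      (f := fun a s => f a (i, s)) (h.comp (f := fun p : X × ℝ => (p.1, (i, p.2))) (by fun_prop)) _ _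

/-- the fundamental domain is compact -/
def KX (N : ℕ) : Set (XN N) := univ ×ˢ Icc 0 (2 * π)

lemma cpt_KX : IsCompact (KX N) := isCompact_univ.prod isCompact_Icc

lemma red_KX (x : XN N) : ∃ k : ℤ, (x.1, x.2 + k * (2 * π)) ∈ KX N := by
  refine ⟨-toIcoDiv Real.two_pi_pos 0 x.2, trivial, ?_⟩
  have := toIcoMod_mem_Ico' Real.two_pi_pos x.2
  rw [toIcoMod, zsmul_eq_mul] at this
  refine Ico_subset_Icc_self ?_
  rwa [Int.cast_neg, neg_mul, ← sub_eq_add_neg]

lemma per_int {Y : Type} {f : XN N → Y} (h : ∀ x : XN N, f (x.1, x.2 + 2 * π) = f x) (x : XN N)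
    (k : ℤ) : f (x.1, x.2 + k * (2 * π)) = f x :=
  Function.Periodic.int_mul (f := fun s => f (x.1, s)) (fun s => h (x.1, s)) k x.2

lemma bd_per {E : Type} [NormedAddCommGroup E] {f : XN N → E} (hc : Continuous f)
    (h : ∀ x : XN N, f (x.1, x.2 + 2 * π) = f x) : ∃ B, 0 ≤ B ∧ ∀ x, ‖f x‖ ≤ B := by
  obtain ⟨B, hB⟩ := cpt_KX.exists_bound_of_continuousOn hc.continuousOn
  refine ⟨max B 0, le_max_right _ _, fun x => ?_⟩
  obtain ⟨k, hk⟩ := red_KX x
  exact le_max_of_le_left (per_int h x k ▸ hB _ hk)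

/-! ## Cycles -/

lemma cyc3 {E : Type} [PseudoMetricSpace E] (u : Fin (n + 2) → E) (f : Fin (n + 2) → ℝ)
    (h : ∀ i, dist (u i) (u (i + 1)) ≤ f i) (a b c : Fin (n + 2)) :
    dist (u a) (u b) + dist (u b) (u c) + dist (u c) (u a) ≤ ∑ i, f i := by
  let S : ℕ → ℝ := fun k => ∑ i ∈ Finset.range k, f (Fin.ofNat _ i)
  have st : ∀ p q : ℕ, p ≤ q → dist (u (Fin.ofNat _ p)) (u (Fin.ofNat _ q)) ≤ S q - S p := by
    intro p q hpq
    induction q, hpq using Nat.le_induction with
    | base => simp
    | succ q _ ih =>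
      have e : Fin.ofNat (n + 2) (q + 1) = Fin.ofNat (n + 2) q + 1 := by
        ext; simp [Fin.val_add]
      have := dist_triangle (u (Fin.ofNat _ p)) (u (Fin.ofNat _ q)) (u (Fin.ofNat _ (q + 1)))
      have h2 := h (Fin.ofNat _ q)
      rw [← e] at h2
      simp only [S, Finset.sum_range_succ] at ih ⊢
      linarith
  have tot : S (n + 2) = ∑ i, f i := by
    simp only [S]
    rw [Finset.sum_range]
    exact Finset.sum_congr rfl fun i _ => by rw [Fin.ofNat_val_eq_self]
  have key : ∀ a b c : Fin (n + 2), a ≤ b → b ≤ c →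
      dist (u a) (u b) + dist (u b) (u c) + dist (u c) (u a) ≤ ∑ i, f i := fun a b c h1 h2 => by
    have s1 := st a b h1
    have s2 := st b c h2
    have s3 := st c (n + 2) c.2.le
    have s4 := st 0 a (Nat.zero_le _)
    have e : Fin.ofNat (n + 2) (n + 2) = Fin.ofNat (n + 2) 0 := by ext; simp
    have s0 : S 0 = 0 := rfl
    rw [e] at s3
    simp only [Fin.ofNat_val_eq_self] at s1 s2 s3 s4
    linarith [dist_triangle (u c) (u (Fin.ofNat _ 0)) (u a)]
  have c1 := dist_comm (u a) (u b)
  have c2 := dist_comm (u b) (u c)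
  have c3 := dist_comm (u c) (u a)
  rcases le_total a b with h1 | h1 <;> rcases le_total b c with h2 | h2 <;>
    rcases le_total a c with h3 | h3
  · exact key a b c h1 h2
  · exact key a b c h1 h2
  · linarith [key a c b h3 h2]
  · linarith [key c a b h3 h1]
  · linarith [key b a c h1 h3]
  · linarith [key b c a h2 h3]
  · linarith [key c b a h2 h1]
  · linarith [key c b a h2 h1]

lemma cyc2 {E : Type} [PseudoMetricSpace E] (u : Fin (n + 2) → E) (f : Fin (n + 2) → ℝ)
    (h : ∀ i, dist (u i) (u (i + 1)) ≤ f i) (a b : Fin (n + 2)) :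
    2 * dist (u a) (u b) ≤ ∑ i, f i := by
  have := cyc3 u f h a b b
  rw [dist_self, dist_comm (u b)] at this
  linarith

/-- the edges of a cycle in the order used by the chains -/
lemma edge_cs (i : Fin n) : (i.castSucc.castSucc : Fin (n + 2)) + 1 = i.succ.castSucc := by
  ext
  rw [Fin.val_add_one_of_lt (Fin.castSucc_lt_last _)]
  simp
lemma edge_pen : ((Fin.last n).castSucc : Fin (n + 2)) + 1 = Fin.last (n + 1) := by
  ext
  rw [Fin.val_add_one_of_lt (Fin.castSucc_lt_last _)]
  simp
lemma edge_last : (Fin.last (n + 1) : Fin (n + 2)) + 1 = 0 := Fin.last_add_one _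

lemma prod_edges {M X : Type} [CommMonoid M] (k : Fin (n + 2) → X → X → M) (v : Fin (n + 2) → X) :
    ∏ i, k i (v i) (v (i + 1)) =
      (∏ i : Fin n, k i.castSucc.castSucc (v i.castSucc.castSucc) (v i.succ.castSucc)) *
      k (Fin.last n).castSucc (v (Fin.last n).castSucc) (v (Fin.last (n + 1))) *
      k (Fin.last (n + 1)) (v (Fin.last (n + 1))) (v 0) := by
  rw [Fin.prod_univ_castSucc, Fin.prod_univ_castSucc]
  simp only [edge_cs, edge_pen, edge_last]

lemma sum_edges {M X : Type} [AddCommMonoid M] (k : X → X → M) (v : Fin (n + 2) → X) :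
    ∑ i, k (v i) (v (i + 1)) =
      (∑ i : Fin n, k (v i.castSucc.castSucc) (v i.succ.castSucc)) +
      k (v (Fin.last n).castSucc) (v (Fin.last (n + 1))) + k (v (Fin.last (n + 1))) (v 0) := by
  rw [Fin.sum_univ_castSucc, Fin.sum_univ_castSucc]
  simp only [edge_cs, edge_pen, edge_last]

end Pool.Agent.Lib.IS3
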