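import Pool.Agent.Lib.IS3.BlueG
import Pool.Agent.Lib.IS3.Base
import Pool.Agent.Lib.IS2.B_DIV

/-! The divergence theorem on a domain bounded by several curves. -/

open scoped ContDiff ComplexConjugate Topology Real
open Complex MeasureTheory Set Filter

noncomputable section

namespace Pool.Agent.Lib.IS3

open Pool.Agent.Lib.ISO Pool.Agent.Lib.IS2 Pool.Agent.Lib.MP_312682_mp

namespace DIVm

open IS2.DIV

lemma one {Ω : Set ℂ} {γ : ℝ → ℂ} {L η : ℝ} (h : Col Ω γ L (8 * η)) {Z : ℂ → ℂ}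
    (sZ : ContDiff ℝ 1 Z) (h0 : ∀ s : ℝ, Z (Phi γ (s + (4 * η : ℝ) * I)) = 0) :
    ∫ z in Phi γ '' rect L (4 * η), dv Z z = ∫ s in (0 : ℝ)..L, rdot (Z (γ s)) (-nr γ s) := by
  have hη : 0 < η := by linarith [h.dpos]
  have h48 : 4 * η < 8 * η := by linarith
  rw [integral_image_eq_integral_abs_det_fderiv_smul volume (measurableSet_rect _ _)
      (fun z _ => (h.dPhi z).hasFDerivAt.hasFDerivWithinAt) (h.ch h48).inj,
    setIntegral_congr_fun (measurableSet_rect _ _)
      (g := fun p => (fderiv ℝ (Phi γ) p).det * dv Z (Phi γ p))]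
  · refine (green h.pos.le (by linarith) h.sPhi sZ h.Phi_per h0).trans
      (intervalIntegral.integral_congr fun s _ => ?_)
    have h1 : d1 (Phi γ) s = deriv γ s := by
      have := hd_line1 (F := Phi γ) (s := s) (x := 0) (h.dPhi _)
      simp only [ofReal_zero, zero_mul, add_zero, Phi_real] at this
      exact this.deriv.symm
    simp only [h1, Phi_real]
    simp [rdot, nr]
    ring
  · intro p hp
    simp only [h.det, abs_of_pos (h.Jpos (Col.rect_sub h48 hp)), smul_eq_mul]

theorem main {Ω : Set ℂ} {ι : Type} [Fintype ι] {γ : ι → ℝ → ℂ} {L : ι → ℝ} {η : ℝ}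
    (h : Fam Ω γ L (8 * η)) {X : ℂ → ℂ} (hX : ContDiff ℝ 1 X) :
    ∫ z in Ω, dv X z = ∑ i, ∫ s in (0 : ℝ)..L i, rdot (X (γ i s)) (-nr (γ i) s) := by
  have hη : 0 < η := by linarith [h.dpos]
  have h48 : 4 * η < 8 * η := by linarith
  obtain ⟨K, k1, k2, k3⟩ := h.cover η hη
  set P : ℂ → ℝ := fun z => ∑ j, push (γ j) (8 * η) (fun p => dstp 1 (2 * η) η p.im) z with hP
  have sP : ContDiffOn ℝ ∞ P Ω := ContDiffOn.sum fun j _ => (h.col j).push_on (by simp)
    (fun p _ => ((contDiff_dstp _ _ _).comp contDiff_im').contDiffAt) (b := 3 * η) (by linarith)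
    fun p _ hp => dstp_zero hη (by linarith)
  have PP : ∀ i, ∀ p ∈ strip (8 * η), P (Phi (γ i) p) = dstp 1 (2 * η) η p.im := fun i p hp =>
    h.sum_Phi (fun x => x) rfl (θ := dstp 1 (2 * η) η) hp
  set Y : ℂ → ℂ := Ω.indicator fun z => (1 - P z : ℝ) * X z with hY
  have Y0 : ∀ z, z ∉ K → Y z = 0 := fun z hz => by
    by_cases h1 : z ∈ Ω
    · obtain ⟨i, p, hp, rfl⟩ := k3 z h1 hz
      rw [hY, indicator_of_mem h1, PP i p ⟨hp.1, by linarith [hp.2]⟩,
        dstp_one hη (by linarith [hp.2])]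
      simp
    · exact indicator_of_notMem h1 _
  have Y1 : ∀ z, z ∉ Ω → Y =ᶠ[𝓝 z] fun _ => 0 := fun z hz => by
    filter_upwards [k1.isClosed.isOpen_compl.mem_nhds fun h1 => hz (k2 h1)] with y hy
    exact Y0 y hy
  have sY : ContDiff ℝ 1 Y := contDiff_iff_contDiffAt.2 fun z => by
    by_cases h1 : z ∈ Ω
    · refine (((s_ofReal.contDiffAt.comp z ((contDiffAt_const (c := (1 : ℝ))).sub (sP.contDiffAt
        (h.opn.mem_nhds h1)))).of_le (by simp)).mul hX.contDiffAt).congr_of_eventuallyEq ?_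
      filter_upwards [h.opn.mem_nhds h1] with y hy
      exact indicator_of_mem hy _
    · exact contDiffAt_const.congr_of_eventuallyEq (Y1 z h1)
  have cY : HasCompactSupport Y := HasCompactSupport.intro k1 Y0
  set Z : ℂ → ℂ := fun z => X z - Y z with hZ
  have sZ : ContDiff ℝ 1 Z := hX.sub sY
  have ZP : ∀ z ∈ Ω, Z z = P z * X z := fun z hz => by
    simp only [hZ, hY, indicator_of_mem hz]; push_cast; ring
  have e1 : ∫ z in Ω, dv Y z = 0 := by
    rw [setIntegral_eq_integral_of_forall_compl_eq_zero fun z hz => dv_zero (Y1 z hz),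
      int_dv sY cY]
  have ii : ∀ U : ℂ → ℂ, ContDiff ℝ 1 U → IntegrableOn (dv U) Ω := fun U hU =>
    ((c_dv hU).continuousOn.integrableOn_compact h.bdd.isCompact_closure).mono_set subset_closure
  have e2 : ∀ z, dv X z = dv Z z + dv Y z := fun z => by
    simp only [DIV.dv, hZ, fderiv_fun_sub (hX.differentiable one_ne_zero z)
      (sY.differentiable one_ne_zero z)]
    simp only [sub_apply, sub_re, sub_im]
    ring
  have sub : ∀ i, Phi (γ i) '' rect (L i) (4 * η) ⊆ Ω := by
    rintro i _ ⟨q, hq, rfl⟩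
    exact (h.col i).inside _ (Col.rect_sub h48 hq)
  simp_rw [e2]
  rw [integral_add (ii Z sZ) (ii Y sY), e1, add_zero,
    setIntegral_eq_of_subset_of_forall_sdiff_eq_zero h.opn.measurableSet
      (s := ⋃ i, Phi (γ i) '' rect (L i) (4 * η)) (iUnion_subset sub),
    integral_iUnion_fintype]
  · refine Finset.sum_congr rfl fun i _ => (one (h.col i) sZ fun s => ?_).trans
      (intervalIntegral.integral_congr fun s _ => ?_)
    · have h1 : (s + (4 * η : ℝ) * I : ℂ) ∈ strip (8 * η) := by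
        constructor <;> simp <;> linarith
      rw [ZP _ ((h.col i).inside _ h1), PP i _ h1, dstp_zero hη (by simp; linarith)]
      simp
    · simp only [hZ, (Y1 _ ((h.col i).bdry s)).eq_of_nhds, sub_zero]
  · exact fun i => measurable_image_of_fderivWithin (measurableSet_rect _ _)
      (fun z _ => ((h.col i).dPhi z).hasFDerivAt.hasFDerivWithinAt) ((h.col i).ch h48).inj
  · intro i j hij
    refine disjoint_left.2 ?_
    rintro _ ⟨p, hp, rfl⟩ ⟨q, hq, e⟩
    exact hij (h.disj i j p (Col.rect_sub h48 hp) q (Col.rect_sub h48 hq) e.symm)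
  · exact fun i => (ii Z sZ).mono_set (sub i)
  · rintro z ⟨hz, h1⟩
    refine dv_zero ?_
    have h2 : ∀ j, push (γ j) (8 * η) (fun p => dstp 1 (2 * η) η p.im) =ᶠ[𝓝 z] 0 := fun j =>
      (h.col j).push_zero' (w := fun p => dstp 1 (2 * η) η p.im)
        (a := 0) (b := 3 * η) (fun p h2 h3 => dstp_zero hη
          (by linarith [not_le.1 fun h4 => h3 ⟨h2.1.le, h4⟩])) (z := z) (by
        rintro ⟨p, hp, e⟩
        refine h1 (mem_iUnion.2 ⟨j, ?_⟩)
        rw [← e]
        exact mem_rect (h.col j).pos (h.col j).Phi_per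
          ⟨(h.col j).box_pos hz hp e, by linarith [hp.2.2]⟩)
    filter_upwards [h.opn.mem_nhds hz, eventually_all.2 h2] with y hy h3
    rw [ZP y hy, hP]
    simp only [h3]
    simp

end DIVm

theorem st_divm : St_DIVm := by
  intro N Ω l G φ ⟨hl, h⟩
  set γ : Fin N → ℝ → ℂ := fun i s => l i * G i (s / l i) with hγ
  obtain ⟨δ, hf, hs⟩ := Geo.fam h
  have e : ∀ i, scm l G i = fun u => γ i (l i * u) := fun i => funext fun u => by
    simp only [scm, sc, hγ, mul_div_cancel_left₀ _ (hl i).ne']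
  have d : ∀ i u, deriv (scm l G i) u = l i * deriv (γ i) (l i * u) := fun i u => by
    rw [e, deriv_comp_mul_left, real_smul]
  have sm : ∀ i, ContDiff ℝ ∞ (scm l G i) := fun i => by
    rw [e]; exact (h.cv i).smooth.comp (contDiff_const.mul contDiff_id)
  have ph : ∀ (x : XN N) (r : ℝ), gp (scm l G) x + r * gn (scm l G) x =
      Phi (γ x.1) ((l x.1 * x.2 : ℝ) + (r * l x.1 : ℝ) * I) := fun x r => by
    simp only [gp, gn, nr, d]
    rw [e]
    simp [Phi]
    ring
  have cl : ∀ z ∈ closure Ω, φ z ≤ 0 := fun z hz =>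
    closure_minimal (t := {z | φ z ≤ 0}) (fun z hz => (h.mem.1 hz).le)
      (isClosed_le h.smooth.continuous continuous_const) hz
  refine ⟨h.opn, h.bdd, sm, fun i s => ?_, fun i s => ?_, fun x y a => ?_, ?_, fun x => ?_,
    fun X hX => ?_⟩
  · rw [e]
    have := (h.cv i).per (l i * s)
    simp only [← this]
    congr 1
    ring
  · rw [d]
    exact mul_ne_zero (ofReal_ne_zero.2 (hl i).ne') fun a => by
      simpa [a] using (h.cv i).unit (l i * s)
  · obtain ⟨i, s⟩ := x
    obtain ⟨j, t⟩ := y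
    simp only [gp, e] at a
    obtain rfl := h.disj _ _ _ _ a
    obtain ⟨n, hn⟩ := h.inj _ _ _ a
    exact ⟨rfl, n, mul_left_cancel₀ (hl i).ne' (by rw [hn]; ring)⟩
  · ext z
    rw [h.opn.frontier_eq]
    constructor
    · rintro ⟨h1, h2⟩
      obtain ⟨i, s, rfl⟩ := (h.zero z).1 (le_antisymm (cl z h1) (not_lt.1 fun a => h2 (h.mem.2 a)))
      exact ⟨(i, s / l i), rfl⟩
    · rintro ⟨⟨i, s⟩, rfl⟩
      simp only [gp, e]
      refine ⟨by_contra fun hc => ?_, (hf.col i).bdry _⟩
      have : IsLocalMin φ (γ i (l i * s)) := by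
        filter_upwards [isClosed_closure.isOpen_compl.mem_nhds hc] with w hw
        rw [h.z0]
        exact not_lt.1 fun h2 => hw (subset_closure (h.mem.2 h2))
      have h3 := h.neg i (l i * s)
      rw [this.fderiv_eq_zero] at h3
      simp at h3
  · have h0 := hl x.1
    refine ⟨δ / l x.1, div_pos hf.dpos h0, fun r r0 r1 => ⟨?_, fun hc => ?_⟩⟩
    · rw [ph]
      refine (hf.col x.1).inside _ ⟨by simpa using mul_pos r0 h0, ?_⟩
      simpa using (lt_div_iff₀ h0).1 r1
    · have h1 := ph x (-r)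
      rw [ofReal_neg, neg_mul, ← sub_eq_add_neg] at h1
      have h2 := cl _ hc
      rw [h1] at h2
      refine h2.not_gt (hs x.1 _ ⟨?_, ?_⟩)
      · simpa using (lt_div_iff₀ h0).1 r1
      · simpa using mul_pos r0 h0
  · have hf' : Fam Ω γ (fun i => 2 * π * l i) (8 * (δ / 8)) := by
      rw [mul_div_cancel₀ _ (by norm_num)]; exact hf
    refine (DIVm.main hf' hX).trans ?_
    rw [integral_nx]
    · refine Finset.sum_congr rfl fun i _ => ?_
      have h1 := intervalIntegral.smul_integral_comp_mul_left (a := 0) (b := 2 * π)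
        (fun s => rdot (X (γ i s)) (-nr (γ i) s)) (l i)
      rw [mul_zero, mul_comm (l i) (2 * π)] at h1
      rw [← h1, ← intervalIntegral.integral_smul]
      refine intervalIntegral.integral_congr fun u _ => ?_
      simp only [gp, gn, nr, d]
      rw [e]
      simp [rdot]
      ring
    · refine integrable_nx.2 fun i => (Continuous.integrableOn_Icc ?_).mono_set Ioc_subset_Icc_self
      have c1 := (sm i).continuous
      have c2 := (sm i).continuous_deriv (by simp)
      have c3 := hX.continuous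
      simp only [gp, gn, nr, rdot]
      fun_prop

end Pool.Agent.Lib.IS3
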