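import Pool.Agent.Lib.IS3.Kit
import Pool.Agent.Lib.IS2.B_EXP

/-! Row EXPL: expansion of the tested trace of a scaled curve in the moments of the curvature. -/

open scoped ContDiff ComplexConjugate Topology Real
open Complex MeasureTheory Set Filter

noncomputable section

namespace Pool.Agent.Lib.IS3

open Pool.Agent.Lib.ISO Pool.Agent.Lib.IS2

namespace EXPL

open EXP

variable {q : ℕ} {h e l : ℝ} {w : ℝ → ℝ → ℝ} {ρ κ : ℝ → ℝ}

theorem wz (hw : Wf0 e w) {s d : ℝ} (hd : |d| ≤ e) : w s (s + d) = 0 :=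
  hw.zero _ _ ((dc_le_abs _ _).trans (by simpa using hd))

theorem uwL_c (he : 0 < e) (hl : 0 < l) (hw : Wf0 e w) (hρ : Continuous ρ) (hκ : Continuous κ)
    (n : ℕ) : Continuous (uwL l w ρ κ n) := by
  have c1 : Continuous fun z : ℝ × ℝ => w z.1 (z.1 + z.2) :=
    hw.cont.comp (f := fun z : ℝ × ℝ => (z.1, z.1 + z.2)) (by fun_prop)
  have c2 : Continuous fun z : ℝ × ℝ => (l * max |z.2| e) ^ (3 * (n : ℝ) / 2 - 3) :=
    Continuous.rpow_const (by fun_prop) fun z =>
      Or.inl (mul_pos hl (he.trans_le (le_max_right _ _))).ne'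
  have : uwL l w ρ κ n = fun z => l ^ 2 * (w z.1 (z.1 + z.2) * (ρ z.1 * ρ (z.1 + z.2)) *
      (κ z.1 ^ n * (l * max |z.2| e) ^ (3 * (n : ℝ) / 2 - 3))) := by
    ext z
    rcases le_total |z.2| e with a | a
    · simp only [uwL, wz hw a, zero_mul]
    · rw [uwL, max_eq_left a]
  rw [this]
  exact continuous_const.mul ((c1.mul (by fun_prop)).mul (Continuous.mul (by fun_prop) c2))

theorem rho_leL {M W n : ℕ} {a : ℂ} {o j B : ℝ} (hρ : Per (2 * π) ρ) (ha : ‖a‖ ≤ B) (hj : 0 < j)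
    (hl : j⁻¹ ≤ l) (ho : 0 < o)
    (h : ∫ s in (0 : ℝ)..(2 * π), (ρ s + tnn M W n a s / (l * o ^ 2)) ^ 2 ≤ amp M W ^ 2 / o ^ 4) :
    ∫ s in (0 : ℝ)..(2 * π), ρ s ^ 2 ≤ (2 + 64 * (B * j) ^ 2) * (amp M W ^ 2 / o ^ 4) := by
  have hc := hρ.smooth.continuous
  have ht : Continuous (tnn M W n a) := by unfold tnn; fun_prop
  have l0 : 0 < l := (inv_pos.2 hj).trans_le hl
  have l1 : l⁻¹ ≤ j := inv_le_of_inv_le₀ hj hl
  have A0 : 0 ≤ amp M W := by unfold amp; positivity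
  have B0 := (norm_nonneg a).trans ha
  have := H0.int_le (F := fun s => (ρ s : ℂ)) (u := fun s => ρ s + tnn M W n a s / (l * o ^ 2))
    (A := 2 * amp M W * B * j / o ^ 2) (by fun_prop) (by fun_prop) (fun s => by
      have t1 : |(a * exp (I * n * s)).re| ≤ B := by
        refine (abs_re_le_norm _).trans ?_
        rw [norm_mul, show I * n * s = (n * s : ℝ) * I by push_cast; ring, norm_exp_ofReal_mul_I,
          mul_one]
        exact ha
      have h2 : |tnn M W n a s / (l * o ^ 2)| ≤ 2 * amp M W * B * j / o ^ 2 := by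
        rw [abs_div, abs_of_pos (mul_pos l0 (pow_pos ho 2)), tnn, abs_mul,
          abs_of_nonneg (by positivity : 0 ≤ 2 * amp M W), ← div_div, div_eq_mul_inv _ l]
        gcongr
      have := abs_sub (ρ s + tnn M W n a s / (l * o ^ 2)) (tnn M W n a s / (l * o ^ 2))
      rw [add_sub_cancel_right] at this
      rw [norm_real, Real.norm_eq_abs]
      linarith) h
  simp only [norm_real, Real.norm_eq_abs, sq_abs] at this
  refine this.trans_eq ?_
  field_simp; ring

theorem termL (h1 : St_J1) (h2 : St_J2L) (j B : ℝ) (q n e : ℕ) (hj : 1 ≤ j) (he : e + 13 ≤ q) :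
    ∃ C, 0 ≤ C ∧ ∀ᶠ h in atTop, ∀ (M W k : ℕ) l κ ρ w a, (W : ℝ) ^ 2 = om q h → Nq j l W k →
      Per (2 * π) κ → Bk B κ → Per (2 * π) ρ → WfL j q h w → ‖a‖ ≤ B →
      ∫ s in (0 : ℝ)..(2 * π), (ρ s + tnn M W k a s / (l * om q h ^ 2)) ^ 2 ≤
        (h ^ e)⁻¹ ^ 2 * (amp M W ^ 2 / om q h ^ 4) →
      ‖∫ z, uwL l w ρ κ n z * Mp q h n (l * |z.2|) ∂bx - La M W q h *
        (2 * (‖a‖ ^ 2 / l : ℝ) * (bj q h n * (∫ s in (0 : ℝ)..(2 * π), κ s ^ n : ℝ)))‖ ≤
        C * (La M W q h / h ^ e) := by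
  obtain ⟨C1, g1, H1⟩ := h1 q n (by omega)
  obtain ⟨C2, g2, H2⟩ := h2 j B q n (by omega) hj
  set CR := 2 + 64 * (B * j) ^ 2 with hCR
  set C3 := j ^ 2 * |B| ^ n * |C1| * (2 * n).factorial with hC3
  refine ⟨3 / 2 * |C2| + CR * 64 * C3, by positivity, ?_⟩
  filter_upwards [eventually_ge_atTop g1, eventually_ge_atTop g2, eventually_ge_atTop 1]
    with h a1 a2 a3 M W k l κ ρ w a hW hq hκ hb hρ hw ha hR
  have hh : 0 < h := one_pos.trans_le a3
  have j0 : 0 < j := one_pos.trans_le hj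
  have l0 : 0 < l := (inv_pos.2 j0).trans_le hq.lo
  have hT := T_pos q hh
  have ho := o_pos q hh
  have sc := scale q hh n
  have s2 : 1 ≤ √2 ^ n := one_le_pow₀ (Real.one_le_sqrt.2 one_le_two)
  have eT : Tt q h ^ (3 * (n : ℝ) / 2 - 2) = Tt q h ^ (3 * (n : ℝ) / 2) / Tt q h ^ 2 := by
    rw [Real.rpow_sub hT, Real.rpow_two]
  have η1 : (h ^ e)⁻¹ ≤ 1 := inv_le_one_of_one_le₀ (one_le_pow₀ a3)
  have η0 : 0 < (h ^ e)⁻¹ := by positivity
  have k2 := H2 h a2 M W k l κ ρ w a _ hW hq hκ hb hρ hw ha η0.le η1 hR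
  rw [eT] at k2
  set S := Tt q h ^ (3 * (n : ℝ) / 2) with hS
  have S0 : 0 < S := by positivity
  have nb1 : ‖be q h n‖ * S = om q h / (2 * √2 ^ n) / h ^ (3 * n) := by
    rw [norm_be q hh, div_eq_mul_inv _ (h ^ (3 * n)), ← sc]; field_simp
  have C2' := le_abs_self C2
  set A := amp M W ^ 2 / om q h ^ 4 with hA
  have A0 : 0 ≤ A := by positivity
  have hρ2 := rho_leL hρ ha j0 hq.lo ho
    (hR.trans (mul_le_of_le_one_left A0 (pow_le_one₀ η0.le η1)))
  have uc := uwL_c (by positivity) l0 hw.1 hρ.smooth.continuous hκ.smooth.continuous n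
  have mc := Mp_c q hh n
  set g : ℝ × ℝ → ℂ := fun z => uwL l w ρ κ n z *
    (exp (-(I * om q h * (l * |z.2| : ℝ))) * ga q h (l * |z.2|)) with hg
  have gc : Continuous g := by
    simp only [hg, ga]
    fun_prop
  have e1 : (∫ s in (0 : ℝ)..(2 * π), ∫ d in (-π)..π,
      ((l ^ 2 * (w s (s + d) * (ρ s * ρ (s + d)) * κ s ^ n * g0 q h n (l * |d|)) : ℝ) : ℂ) *
        exp (-(I * om q h * (l * |d| : ℝ)))) = ∫ z, g z ∂bx := by
    rw [← dbl (int_c gc)]
    congr 1; ext s; congr 1; ext d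
    simp only [hg, uwL, g0, ofReal_mul]
    ring
  rw [e1] at k2
  set L := C3 * (8 * h ^ 9 / Tt q h ^ 4) with hL
  have k1 : ‖∫ z, (uwL l w ρ κ n z * Mp q h n (l * |z.2|) - be q h n * g z) ∂bx‖ ≤
      CR * A * (8 * L) := by
    refine nb hρ (φ := fun _ => L) continuous_const (fun _ => by positivity) hρ2 ?_ fun s d hd => ?_
    · rw [intervalIntegral.integral_const, smul_eq_mul]
      gcongr
      linarith [Real.pi_le_four]
    rcases le_total |d| (j * Tt q h / (2 * h)) with b | b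
    · simp only [hg, uwL, wz hw.1 b, zero_mul, ofReal_zero, mul_zero, sub_zero, norm_zero]
      positivity
    have b' : Tt q h / (2 * h) ≤ l * |d| :=
      calc _ = j⁻¹ * (j * Tt q h / (2 * h)) := by field_simp
        _ ≤ _ := mul_le_mul hq.lo b (by positivity) l0.le
    set D := l * |d| with hD
    have hd0 : 0 < D := lt_of_lt_of_le (by positivity) b'
    have m1 := (H1 h a1).1 D hd0.le
    have m2 : ‖(uwL l w ρ κ n (s, d) : ℂ)‖ ≤ j ^ 2 * (|ρ s| * |ρ (s + d)| *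
        (|B| ^ n * ((D / Tt q h) ^ (3 * (n : ℝ) / 2) * S * (2 * h / Tt q h) ^ 3))) := by
      have b1 : |κ s| ≤ |B| := le_trans (by simpa using hb 0 (by norm_num) s) (le_abs_self B)
      have b2 : (D ^ 3)⁻¹ ≤ (2 * h / Tt q h) ^ 3 := by
        rw [← inv_pow]
        gcongr
        rw [← inv_div]
        exact inv_anti₀ (by positivity) b'
      have b3 := hq.hi
      rw [norm_real, Real.norm_eq_abs, uwL, ← hD, abs_mul, abs_of_nonneg (sq_nonneg l), abs_mul,
        abs_mul, abs_mul, abs_mul, abs_pow, abs_of_nonneg (hw.1.nn _ _),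
        abs_of_nonneg (Real.rpow_nonneg hd0.le _), Real.rpow_sub hd0,
        Real.div_rpow hd0.le hT.le, div_mul_cancel₀ _ S0.ne', div_eq_mul_inv, Real.rpow_ofNat]
      refine mul_le_mul (by gcongr) (mul_le_mul (mul_le_of_le_one_left (by positivity)
        (hw.1.le _ _)) (by gcongr) (by positivity) (by positivity)) ?_ (by positivity)
      have := hw.1.nn s (s + d)
      positivity
    have m3 := rpow_le_exp (x := D / Tt q h) (by positivity) n
    have m4 : (h ^ (3 * n))⁻¹ ≤ 1 := inv_le_one_of_one_le₀ (one_le_pow₀ a3)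
    have C1' := le_abs_self C1
    calc _ = ‖(uwL l w ρ κ n (s, d) : ℂ)‖ * ‖Mp q h n D - be q h n *
          exp (-(I * om q h * (D : ℝ))) * ga q h D‖ := by
          rw [← norm_mul]; congr 1; simp only [hg, hD]; ring
      _ ≤ j ^ 2 * (|ρ s| * |ρ (s + d)| *
          (|B| ^ n * ((D / Tt q h) ^ (3 * (n : ℝ) / 2) * S * (2 * h / Tt q h) ^ 3))) *
          (|C1| * √(om q h) ^ n * (h ^ 6 / Tt q h) * Real.exp (-(D / Tt q h))) :=
          mul_le_mul m2 (m1.trans (by gcongr)) (norm_nonneg _) (by positivity)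
      _ = |ρ s| * |ρ (s + d)| * (j ^ 2 * |B| ^ n * |C1| *
          ((D / Tt q h) ^ (3 * (n : ℝ) / 2) * Real.exp (-(D / Tt q h)) * (h ^ (3 * n))⁻¹) *
          (8 * h ^ 9 / Tt q h ^ 4)) := by rw [← sc]; field_simp; ring
      _ ≤ _ := by
          rw [hL, hC3]; gcongr
          exact (mul_le_of_le_one_right (by positivity) m4).trans m3
  rw [integral_sub (int_c (by fun_prop)) ((int_c gc).const_mul _), integral_const_mul] at k1
  have p1 : h ^ 9 / Tt q h ^ 4 ≤ om q h / Tt q h ^ 2 / h ^ e := by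
    rw [div_div, div_le_div_iff₀ (by positivity) (by positivity)]
    have : h ^ (9 + e + 2 * (q + 2)) ≤ h ^ (3 * q) := pow_le_pow_right₀ a3 (by omega)
    calc _ = h ^ (9 + e + 2 * (q + 2)) * Tt q h ^ 4 := by rw [Tt]; field_simp; ring
      _ ≤ _ := by rw [om]; gcongr
  have p2 : h ^ 6 / (om q h * Tt q h) ≤ (h ^ e)⁻¹ := by
    rw [inv_eq_one_div, div_le_div_iff₀ (by positivity) (by positivity)]
    have : h ^ (6 + e + (q + 2)) ≤ h ^ (3 * q) := pow_le_pow_right₀ a3 (by omega)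
    calc _ = h ^ (6 + e + (q + 2)) * Tt q h := by rw [Tt]; field_simp; ring
      _ ≤ _ := by rw [om, one_mul]; gcongr
  have p4 : Tt q h ≤ (h ^ e)⁻¹ := inv_anti₀ (by positivity) (pow_le_pow_right₀ a3 (by omega))
  have p3 : ‖be q h n‖ * S ≤ om q h / 2 := by
    rw [nb1]
    exact (div_le_self (by positivity) (one_le_pow₀ a3)).trans (by gcongr; linarith)
  have k3 := mul_le_mul_of_nonneg_left k2 (norm_nonneg (be q h n))
  rw [← norm_mul] at k3
  refine (le_of_eq ?_).trans (((norm_add_le _ _).trans (add_le_add k3 k1)).trans ?_)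
  · congr 1
    have := ofReal_ne_zero.2 ho.ne'
    have := ofReal_ne_zero.2 hT.ne'
    have := ofReal_ne_zero.2 l0.ne'
    rw [La, bj, ← hA]
    push_cast
    field_simp
    ring
  · rw [La, ← hA, add_mul (3 / 2 * |C2|)]
    refine add_le_add ?_ ?_
    · calc _ ≤ ‖be q h n‖ * (|C2| * A * (S / Tt q h ^ 2) *
            ((h ^ e)⁻¹ + (h ^ e)⁻¹ + (h ^ e)⁻¹)) := by gcongr
        _ = |C2| * A * (‖be q h n‖ * S) * (3 / Tt q h ^ 2 / h ^ e) := by field_simp; ring
        _ ≤ |C2| * A * (om q h / 2) * (3 / Tt q h ^ 2 / h ^ e) := by gcongr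
        _ = _ := by field_simp
    · calc _ = CR * 64 * C3 * (A * (h ^ 9 / Tt q h ^ 4)) := by rw [hL]; ring
        _ ≤ CR * 64 * C3 * (A * (om q h / Tt q h ^ 2 / h ^ e)) := by gcongr
        _ = _ := by ring

theorem kh_per {j : ℝ} {G : ℝ → ℂ} (hG : Nc j G) (l : ℝ) : Per (2 * π) (kh l (kp G)) :=
  ⟨(H0.smk hG).div_const l, fun s => by
    simp only [kh, kp, per_deriv' hG.per s, per_deriv' (per_deriv' hG.per) s]⟩

theorem kh_bk {j : ℝ} {G : ℝ → ℂ} (hG : Nc j G) (hl : j⁻¹ ≤ l) {B : ℝ} (hB : j ^ 2 ≤ B) :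
    Bk B (kh l (kp G)) := fun i hi s => by
  have j0 := hG.pos
  have l0 : 0 < l := (inv_pos.2 j0).trans_le hl
  have l1 : l⁻¹ ≤ j := inv_le_of_inv_le₀ j0 hl
  have := hG.kb i hi s
  rw [show kh l (kp G) = fun s => kp G s / l from rfl, iteratedDeriv_div_const, abs_div,
    abs_of_pos l0, div_eq_mul_inv]
  refine le_trans ?_ hB
  rw [sq]
  gcongr

end EXPL

open EXPL EXP in
theorem st_expl (hH : St_H2L) (hT : St_TAYL) (hG : St_G) (h1 : St_J1) (h2 : St_J2)
    (h3 : St_J2L) : St_EXPL := by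
  intro j K p0 M hM
  set e := 3 * p0 + 1 with he
  set m := p0 + 2 + 2 with hm
  refine ⟨6 * M + 4 * p0 + 30, 2 * m, by omega, fun r hr => ?_⟩
  set q := 2 * r with hq
  set B := j ^ 2 + |K| with hB
  choose c C hc hC H using fun n => term h1 h2 j q n e (by omega)
  choose C' hC' H' using fun n => termL h1 h3 (max j 1) B q n e (le_max_right _ _) (by omega)
  obtain ⟨CH, gH, HH⟩ := hH j K M q (by omega) (by omega)
  obtain ⟨CT, gT, HT⟩ := hT j K M (p0 + 2) q hM (by omega) (by omega)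
  have n0 : ∀ n, 0 ≤ cn m n := fun n => by have := ct_nn hG m n; unfold cn; positivity
  have n1 : 0 < cn m p0 := by have := ct_pos hG (m := m) (n := p0) (by omega); unfold cn; positivity
  set D := ∑ n ∈ Finset.range (2 * m + 1), cn m n * C n with hD
  set D' := ∑ n ∈ Finset.range (2 * m + 1), cn m n * C' n with hD'
  set CR := 2 + 64 * (B * j) ^ 2 with hCR
  set E := |CT| * ((1 + 2 ^ (e + 1) * (e + 1).factorial) * CR) + |CT| with hE
  have E0 : 0 ≤ E := by positivity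
  have D0 : 0 ≤ D := Finset.sum_nonneg fun n _ => mul_nonneg (n0 n) (hC n)
  have D0' : 0 ≤ D' := Finset.sum_nonneg fun n _ => mul_nonneg (n0 n) (hC' n)
  refine Exists.elim ((eventually_atTop (α := ℝ)).1 ?_) fun h0 H0 =>
    ⟨cn m p0 * c p0, E + D + D', h0, fun n h => cn m n * bj q h n, mul_pos n1 (hc p0), H0⟩
  filter_upwards [(Finset.range (2 * m + 1)).eventually_all.2 fun n _ => H n,
    (Finset.range (2 * m + 1)).eventually_all.2 fun n _ => H' n, eventually_ge_atTop gH,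
    eventually_ge_atTop gT, eventually_ge_atTop 1, eventually_ge_atTop CH] with h H H' aH aT a1 aC
  have hh : 0 < h := one_pos.trans_le a1
  have T0 := T_pos q hh
  have o0 := o_pos q hh
  have so : √(om q h) = h ^ (3 * r) := by
    rw [Real.sqrt_eq_iff_mul_self_eq o0.le (by positivity), om, ← pow_add]; congr 1; omega
  have nc : ∀ n, ‖(cn m n : ℂ)‖ = cn m n := fun n => by rw [norm_real, Real.norm_of_nonneg (n0 n)]
  refine ⟨fun n hn => ?_, ?_, fun W k l G a hW hs hc hk hT' => ?_⟩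
  · have hn' := Finset.mem_range.2 (Nat.lt_succ_of_le hn)
    have := Finset.single_le_sum (f := fun n => cn m n * C n)
      (fun n _ => mul_nonneg (n0 n) (hC n)) hn'
    rw [norm_mul, nc]
    refine (mul_le_mul_of_nonneg_left (H n hn').2.1 (n0 n)).trans ?_
    rw [← mul_div_assoc]
    gcongr
    linarith
  · rw [norm_mul, nc, mul_div_assoc]
    exact mul_le_mul_of_nonneg_left (H p0 (Finset.mem_range.2 (by omega))).1 (n0 _)
  have hγ := hs.nc
  rw [max_eq_left hγ.one_le] at H'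
  obtain ⟨hρ0, r1⟩ := HH h aH W k l G a hW hγ hk hT'
  have hρ : Per (2 * π) fun s => l * rho q h G s :=
    ⟨contDiff_const.mul hρ0.smooth, fun s => by rw [hρ0.per]⟩
  set A := amp M W ^ 2 / om q h ^ 4 with hA
  have eW : (W : ℝ) = h ^ (3 * r) := by rw [← so, ← hW, Real.sqrt_sq (Nat.cast_nonneg W)]
  have eA : A = (om q h ^ (2 * M + 4))⁻¹ := by
    rw [hA, amp, pow_mul, hW, inv_pow]; field_simp; ring
  have A0 : 0 < A := by rw [eA]; positivity
  have eL : La M W q h = A * (om q h / Tt q h ^ 2) := rfl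
  have L0 : 0 < La M W q h := by rw [eL]; positivity
  have r2 : ∫ s in (0 : ℝ)..(2 * π), (l * rho q h G s + tnn M W k a s / (l * om q h ^ 2)) ^ 2 ≤
      (h ^ e)⁻¹ ^ 2 * A := by
    refine r1.trans ?_
    have : h ^ (1 + (8 * M + 24) + e * 2) ≤ W := eW ▸ pow_le_pow_right₀ a1 (by omega)
    have W0 : (0 : ℝ) < W := lt_of_lt_of_le (by positivity) this
    calc _ ≤ h * A * (h ^ (8 * M + 24) / W) := by gcongr
      _ = h ^ (1 + (8 * M + 24) + e * 2) / W * ((h ^ e)⁻¹ ^ 2 * A) := by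
          rw [inv_pow]; field_simp; ring
      _ ≤ _ := mul_le_of_le_one_left (by positivity) ((div_le_one W0).2 this)
  have ha : ‖a‖ ≤ B := hT'.b0.trans ((le_abs_self K).trans (le_add_of_nonneg_left (sq_nonneg j)))
  have r3 := rho_leL hρ ha hγ.pos hk.lo o0 (r2.trans (mul_le_of_le_one_left A0.le
    (pow_le_one₀ (by positivity) (inv_le_one_of_one_le₀ (one_le_pow₀ a1)))))
  rw [← hA, ← hCR] at r3
  obtain ⟨w, hw, t1⟩ := HT h aT W k l G a _ hW hs hc hk hT' r3
  set Z := La M W q h / h ^ e with hZ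
  have Z0 : 0 < Z := by positivity
  have f0 : CT / om q h ^ (2 * M + 4) ≤ |CT| * Z := by
    have : h ^ e ≤ om q h / Tt q h ^ 2 := by
      rw [om, Tt, inv_pow, div_inv_eq_mul, ← pow_mul, ← pow_add]
      exact pow_le_pow_right₀ a1 (by omega)
    rw [div_eq_mul_inv, ← eA, hZ, eL, mul_div_assoc]
    exact mul_le_mul (le_abs_self _) (le_mul_of_one_le_right A0.le
      ((one_le_div (by positivity)).2 this)) A0.le (abs_nonneg _)
  have f1 : CT * Er (p0 + 2) q h (CR * A) ≤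
      |CT| * ((1 + 2 ^ (e + 1) * (e + 1).factorial) * CR) * Z := by
    have e0 : 0 < eps (p0 + 2) h := by unfold eps; positivity
    have u1 : eps (p0 + 2) h * h ^ 6 ≤ (h ^ e)⁻¹ := by
      rw [eps, inv_mul_le_iff₀ (by positivity), ← div_eq_mul_inv, le_div_iff₀ (by positivity),
        ← pow_add]
      exact pow_le_pow_right₀ a1 (by omega)
    have u2 := exp_le a1 e
    rw [Er]
    calc _ ≤ |CT| * (((h ^ e)⁻¹ + 2 ^ (e + 1) * (e + 1).factorial / h ^ e) *
          (CR * A * (om q h / Tt q h ^ 2))) := by gcongr; exact le_abs_self _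
      _ = _ := by rw [hZ, eL]; field_simp
  have f4 : ‖∑ n ∈ Finset.range (2 * m + 1), (cn m n : ℂ) *
      (∫ z, uwL l w (fun s => l * rho q h G s) (kh l (kp G)) n z * Mp q h n (l * |z.2|) ∂bx -
        La M W q h * (2 * (‖a‖ ^ 2 / l : ℝ) *
        (bj q h n * (∫ s in (0 : ℝ)..(2 * π), kh l (kp G) s ^ n : ℝ))))‖ ≤ D' * Z := by
    rw [hD', Finset.sum_mul]
    refine norm_sum_le_of_le _ fun n hn => ?_
    rw [norm_mul, nc, mul_assoc (cn m n)]
    exact mul_le_mul_of_nonneg_left ((H' n hn) M W k l _ _ w a hW hk (kh_per hγ l)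
      (kh_bk hγ hk.lo (le_add_of_nonneg_right (abs_nonneg K))) hρ hw ha r2) (n0 n)
  simp only [mul_sub, Finset.sum_sub_distrib] at f4
  rw [Mo, ← hm] at t1
  have L1 := ofReal_ne_zero.2 L0.ne'
  generalize FT q h (cp (sc l G)) = x0 at *
  generalize (∑ n ∈ Finset.range (2 * m + 1), (cn m n : ℂ) * ∫ z, uwL l w
    (fun s => l * rho q h G s) (kh l (kp G)) n z * Mp q h n (l * |z.2|) ∂bx) = x3 at *
  generalize ((‖a‖ ^ 2 / l : ℝ) : ℂ) = y at *
  set x4 : ℂ := ∑ n ∈ Finset.range (2 * m + 1), (cn m n : ℂ) * bj q h n *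
    (∫ s in (0 : ℝ)..(2 * π), kh l (kp G) s ^ n : ℝ) with hx
  have e4 : ∑ n ∈ Finset.range (2 * m + 1), (cn m n : ℂ) * (La M W q h * (2 * y *
      (bj q h n * (∫ s in (0 : ℝ)..(2 * π), kh l (kp G) s ^ n : ℝ)))) =
      La M W q h * (2 * y * x4) := by
    simp only [hx, Finset.mul_sum]
    exact Finset.sum_congr rfl fun n _ => by ring
  rw [e4] at f4
  have e5 : x0 / La M W q h - y * x4 =
      (x0 - 1 / 2 * x3 + 1 / 2 * (x3 - La M W q h * (2 * y * x4))) / La M W q h := by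
    field_simp; ring
  rw [e5, norm_div, norm_real, Real.norm_of_nonneg L0.le, div_le_iff₀ L0,
    show (E + D + D') / h ^ e * La M W q h = (E + D + D') * Z by rw [hZ]; ring]
  have g1 := norm_add_le (x0 - 1 / 2 * x3) (1 / 2 * (x3 - La M W q h * (2 * y * x4)))
  have g4 : ∀ x : ℂ, ‖1 / 2 * x‖ = ‖x‖ / 2 := fun x => by rw [norm_mul]; simp [div_eq_inv_mul]
  rw [g4] at g1
  have g5 := mul_nonneg D0 Z0.le
  have g6 := mul_nonneg D0' Z0.le
  rw [hE]
  linarith

end Pool.Agent.Lib.IS3
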