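import Pool.Agent.Lib.IS3.Kit

/-! The difference of the two traces is bi-Lipschitz in the heights of the bumps and Lipschitz in
the curves and the placements. -/

open scoped ContDiff ComplexConjugate Topology Real ENNReal
open Complex MeasureTheory Set Filter

noncomputable section

namespace Pool.Agent.Lib.IS3

open Pool.Agent.Lib.ISO Pool.Agent.Lib.IS2

namespace FZ

variable {N m : ℕ}

lemma sm_of {γ : ℝ → ℂ} (h : cp γ ∈ SP) : ContDiff ℝ ∞ γ := h.1.fst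
lemma per_of {γ : ℝ → ℂ} (h : cp γ ∈ SP) : Function.Periodic γ (2 * π) :=
  fun s => congrArg Prod.fst (h.2 s)
lemma act_mem (r : Bool) (p : ℂ × ℂ) {γ : ℝ → ℂ} (h : cp γ ∈ SP) : cp (act r p γ) ∈ SP :=
  cp_mem (act_smooth r p (sm_of h)) (act_per r p (per_of h))
lemma actm_mem (r : Fin N → Bool) (p : Fin N → ℂ × ℂ) {Γ : MC N} (h : cpm Γ ∈ SPm N) :
    cpm (actm r p Γ) ∈ SPm N := mem_SPm.2 fun i => act_mem _ _ (mem_SPm.1 h i)
lemma cp_sub (γ η : ℝ → ℂ) : cp (γ - η) = cp γ - cp η := by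
  funext s; simp [cp]

lemma cp_three {γ : ℝ → ℂ} (h : ContDiff ℝ ∞ γ) (s : ℝ) :
    ‖cp γ s‖ + ‖deriv (cp γ) s‖ + ‖deriv (deriv (cp γ)) s‖ =
      ‖γ s‖ + ‖deriv γ s‖ + ‖deriv (deriv γ) s‖ := by
  rw [deriv_cp (h.differentiable (by simp)),
    deriv_cp ((contDiff_infty_iff_deriv.1 h).2.differentiable (by simp)), norm_cp, norm_cp, norm_cp]

lemma nm_act (r : Bool) (p : ℂ × ℂ) {γ : ℝ → ℂ} (h : cp γ ∈ SP) :
    nm (cp (act r p γ)) ≤ ‖p.1‖ * nm (cp γ) + ‖p.2‖ := nm_le fun s => by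
  have a := le_nm h (fl r s)
  rw [cp_three (sm_of h)] at a
  rw [cp_three (act_smooth r p (sm_of h)), deriv2_act r p (sm_of h),
    deriv_act r p ((sm_of h).differentiable (by simp)), norm_mul, norm_real, Real.norm_eq_abs, abs_sg,
    one_mul, norm_ml, norm_ml, act, mo_eq]
  have b := norm_add_le (ml r p.1 (γ (fl r s))) p.2
  rw [norm_ml] at b
  nlinarith [mul_le_mul_of_nonneg_left a (norm_nonneg p.1)]

lemma mv1 (r : Bool) (p p' : ℂ × ℂ) {γ η : ℝ → ℂ} (h : cp γ ∈ SP) (h' : cp η ∈ SP) :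
    nm (cp (act r p γ) - cp (act r p' η)) ≤
      ‖p‖ * nm (cp γ - cp η) + ‖p - p'‖ * (nm (cp η) + 1) := by
  have hd : cp (γ - η) ∈ SP := cp_sub γ η ▸ SP.sub_mem h h'
  have e : cp (act r p γ) - cp (act r p' η) =
      cp (act r (p.1, 0) (γ - η)) + cp (act r (p - p') η) := by
    funext s
    cases r <;> simp [cp, act, mo] <;> constructor <;> ring
  have a := sn_nm.add _ (act_mem r (p.1, 0) hd) _ (act_mem r (p - p') h')
  have b := nm_act r (p.1, 0) hd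
  have c := nm_act r (p - p') h'
  rw [cp_sub] at b
  simp only [norm_zero] at b
  rw [e]
  nlinarith [mul_le_mul_of_nonneg_right (norm_fst_le p) (nm_nonneg (SP.sub_mem h h')),
    mul_le_mul_of_nonneg_right (norm_fst_le (p - p')) (nm_nonneg h'), norm_snd_le (p - p')]

lemma mv (r : Fin N → Bool) (p p' : Fin N → ℂ × ℂ) {Γ H : MC N} (h : cpm Γ ∈ SPm N)
    (h' : cpm H ∈ SPm N) : nmm (cpm (actm r p Γ) - cpm (actm r p' H)) ≤
      ‖p‖ * nmm (cpm Γ - cpm H) + ‖p - p'‖ * (nmm (cpm H) + N) := by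
  have e : (N : ℝ) = ∑ _i : Fin N, (1 : ℝ) := by simp
  rw [nmm, nmm, nmm, e, ← Finset.sum_add_distrib, Finset.mul_sum, Finset.mul_sum,
    ← Finset.sum_add_distrib]
  refine Finset.sum_le_sum fun i _ =>
    (mv1 (r i) (p i) (p' i) (mem_SPm.1 h i) (mem_SPm.1 h' i)).trans (add_le_add ?_ ?_)
  · exact mul_le_mul_of_nonneg_right (norm_le_pi_norm p i)
      (nm_nonneg (SP.sub_mem (mem_SPm.1 h i) (mem_SPm.1 h' i)))
  · exact mul_le_mul_of_nonneg_right (norm_le_pi_norm (p - p') i)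
      (add_nonneg (nm_nonneg (mem_SPm.1 h' i)) zero_le_one)

lemma four (r : Fin N → Bool) (p q : Fin N → ℂ × ℂ) (Γ H : MC N) :
    cpm (actm r p Γ) - cpm (actm r p H) = cpm (actm r q Γ) - cpm (actm r q H) +
      (cpm (actm r (p - q) Γ) - cpm (actm r (p - q) H)) := by
  funext i s
  simp only [cpm, cp, actm, act, mo, Pi.sub_apply, Pi.add_apply, Prod.fst_sub, Prod.snd_sub,
    Prod.mk_sub_mk, Prod.mk_add_mk, map_add, map_mul, map_sub, Prod.mk.injEq]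
  constructor <;> ring

/-- the combination of the bumps -/
def Bv (Γ : MC N) (k : Fin m → Fin N) (ρ : Fin m → ℝ → ℝ) (v : Fin m → ℝ) : MQ N :=
  ∑ b, (v b : ℂ) • bu Γ (k b) (ρ b)

lemma cpm_pert (Γ : MC N) (k : Fin m → Fin N) (ρ : Fin m → ℝ → ℝ) (t : Fin m → ℝ) :
    cpm (pert Γ k ρ t) = cpm Γ + Bv Γ k ρ t := by
  funext i s
  have e : ∀ b, bu Γ (k b) (ρ b) i s =
      cp (fun s => if k b = i then ρ b s * nr (Γ i) s else 0) s := fun b => by
    by_cases h : k b = i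
    · subst h
      simp only [bu, Pi.single_eq_same, nl, if_true]
    · simp only [bu, Pi.single_eq_of_ne (Ne.symm h), if_neg h, cp, map_zero]; rfl
  simp only [Bv, Pi.add_apply, Finset.sum_apply, Pi.smul_apply, e]
  refine Prod.ext ?_ ?_
  · simp only [cpm, cp, pert, Prod.fst_add, Prod.fst_sum, Prod.smul_fst, smul_eq_mul]
  · simp only [cpm, cp, pert, Prod.snd_add, Prod.snd_sum, Prod.smul_snd, smul_eq_mul, map_add,
      map_sum, map_mul, conj_ofReal]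

lemma Bv_sub (Γ : MC N) (k : Fin m → Fin N) (ρ : Fin m → ℝ → ℝ) (t t' : Fin m → ℝ) :
    cpm (pert Γ k ρ t) - cpm (pert Γ k ρ t') = Bv Γ k ρ (t - t') := by
  rw [cpm_pert, cpm_pert, add_sub_add_left_eq_sub, Bv, Bv, Bv, ← Finset.sum_sub_distrib]
  exact Finset.sum_congr rfl fun b _ => by rw [Pi.sub_apply, ofReal_sub, sub_smul]

lemma act_pert (r : Fin N → Bool) (p : Fin N → ℂ × ℂ) {Γ : MC N} (h : ∀ i, Differentiable ℝ (Γ i))
    (k : Fin m → Fin N) (ρ : Fin m → ℝ → ℝ) (t : Fin m → ℝ) :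
    actm r p (pert Γ k ρ t) = pert (actm r p Γ) k (fun b s => ρ b (fl (r (k b)) s)) t := by
  funext i s
  simp only [actm, act, pert, mo_eq, map_add, map_sum, ml_real]
  rw [add_right_comm]
  congr 1
  refine Finset.sum_congr rfl fun b _ => ?_
  by_cases e : k b = i
  · rw [if_pos e, if_pos e, ml_real, e]
    exact congrArg _ (congrArg _ (nr_act _ _ (h i) s).symm)
  · rw [if_neg e, if_neg e, map_zero]

lemma nmm_sum {ι : Type} (s : Finset ι) {Q : ι → MQ N} (h : ∀ b, Q b ∈ SPm N) :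
    nmm (∑ b ∈ s, Q b) ≤ ∑ b ∈ s, nmm (Q b) := by
  classical
  induction s using Finset.induction_on with
  | empty => simp [nmm, nm_zero]
  | insert a s ha ih =>
    rw [Finset.sum_insert ha, Finset.sum_insert ha]
    exact (sn_nmm.add _ (h a) _ (Submodule.sum_mem _ fun b _ => h b)).trans (add_le_add le_rfl ih)

section
variable {Γ : MC N} {k : Fin m → Fin N} {ρ : Fin m → ℝ → ℝ} (h : ∀ b, bu Γ (k b) (ρ b) ∈ SPm N)
include h

lemma Bv_mem (v : Fin m → ℝ) : Bv Γ k ρ v ∈ SPm N :=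
  Submodule.sum_mem _ fun b _ => Submodule.smul_mem _ _ (h b)

lemma Bv_le (v : Fin m → ℝ) : nmm (Bv Γ k ρ v) ≤ ‖v‖ * ∑ b, nmm (bu Γ (k b) (ρ b)) := by
  rw [Finset.mul_sum]
  refine (nmm_sum _ fun b => Submodule.smul_mem _ _ (h b)).trans (Finset.sum_le_sum fun b _ =>
    (sn_nmm.smul _ _ (h b)).trans (mul_le_mul_of_nonneg_right ?_ (sn_nmm.nn _ (h b))))
  rw [norm_real]
  exact norm_le_pi_norm v b

end

lemma nmm_sub_le {X Y Z : MQ N} (hX : X ∈ SPm N) (hY : Y ∈ SPm N) (hZ : Z ∈ SPm N) :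
    nmm (Y - X) ≤ nmm (Y - Z) + nmm (X - Z) := by
  have a := sn_nmm.add _ (sub_mem hY hZ) _ (Submodule.smul_mem _ (-1 : ℂ) (sub_mem hX hZ))
  have b := sn_nmm.smul (-1) _ (sub_mem hX hZ)
  rw [show Y - Z + (-1 : ℂ) • (X - Z) = Y - X by rw [neg_one_smul]; abel] at a
  rw [norm_neg, norm_one, one_mul] at b
  linarith

/-- first order expansion near `x` with one constant -/
structure Lp (f : MQ N → ℂ) (x : MQ N) (K : ℝ) : Prop where
  pos : 0 < K
  add : ∀ y ∈ SPm N, ∀ z ∈ SPm N, D1 f x (y + z) = D1 f x y + D1 f x z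
  smul : ∀ y ∈ SPm N, ∀ c : ℂ, D1 f x (c • y) = c * D1 f x y
  bd : ∀ y ∈ SPm N, ‖D1 f x y‖ ≤ K * nmm y
  lip : ∀ δ, K * δ ≤ 1 → ∀ X ∈ SPm N, ∀ Y ∈ SPm N, nmm (X - x) ≤ δ → nmm (Y - x) ≤ δ →
    ‖f Y - f X‖ ≤ K * nmm (Y - X) ∧ ‖f Y - f X - D1 f x (Y - X)‖ ≤ K * δ * nmm (Y - X)

lemma Lp.mono {f : MQ N → ℂ} {x : MQ N} {K K' : ℝ} (h : Lp f x K) (hx : x ∈ SPm N) (hK : K ≤ K') :
    Lp f x K' where
  pos := h.pos.trans_le hK
  add := h.add
  smul := h.smul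
  bd y hy := (h.bd y hy).trans (mul_le_mul_of_nonneg_right hK (sn_nmm.nn _ hy))
  lip δ hδ X hX Y hY a b := by
    have d0 : 0 ≤ δ := (sn_nmm.nn _ (sub_mem hX hx)).trans a
    have n0 := sn_nmm.nn _ (sub_mem hY hX)
    obtain ⟨u, v⟩ := h.lip δ ((mul_le_mul_of_nonneg_right hK d0).trans hδ) X hX Y hY a b
    exact ⟨u.trans (by gcongr), v.trans (by gcongr)⟩

lemma lp_of (hLIP : St_LIP) {f : MQ N → ℂ} {x : MQ N} {r M : ℝ} (hx : x ∈ SPm N) (hr : 0 < r)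
    (h : LH (SPm N) nmm f x r M) : ∃ K, Lp f x K := by
  obtain ⟨C, hC⟩ := hLIP
  obtain ⟨h1, h2, h3⟩ := hC _ _ _ f x r M sn_nmm hr h
  have a0 := abs_nonneg (C * M)
  have a1 := le_abs_self (C * M)
  have k1 : 0 ≤ |C * M| / r := by positivity
  have k2 : 0 ≤ 3 * |C * M| / r ^ 2 := by positivity
  have k3 : 0 < 16 / r := by positivity
  have l1 : ∀ y ∈ SPm N, C * M * nmm y / r ≤
      (16 / r + |C * M| / r + 3 * |C * M| / r ^ 2) * nmm y := fun y hy => by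
    have n0 := sn_nmm.nn _ hy
    calc _ ≤ |C * M| * nmm y / r := by gcongr
      _ = |C * M| / r * nmm y := by ring
      _ ≤ _ := by gcongr; linarith
  refine ⟨16 / r + |C * M| / r + 3 * |C * M| / r ^ 2, by positivity, h1, fun y hy => (h2 y hy).1,
    fun y hy => (h2 y hy).2.trans (l1 y hy), fun δ hδ X hX Y hY a b => ?_⟩
  have x0 := sn_nmm.nn _ (sub_mem hX hx)
  have d0 : 0 ≤ δ := x0.trans a
  have n0 := sn_nmm.nn _ (sub_mem hY hX)
  have n1 := nmm_sub_le hX hY hx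
  have d1 : 16 / r * δ ≤ 1 := (mul_le_mul_of_nonneg_right (by linarith) d0).trans hδ
  rw [div_mul_eq_mul_div, div_le_one hr] at d1
  obtain ⟨u, v⟩ := h3 _ (sub_mem hX hx) _ (sub_mem hY hX) (by linarith) (by linarith)
  rw [add_sub_cancel, add_sub_cancel] at u v
  refine ⟨u.trans (l1 _ (sub_mem hY hX)), v.trans ?_⟩
  calc _ ≤ |C * M| * (3 * δ) * nmm (Y - X) / r ^ 2 := by gcongr; linarith
    _ = 3 * |C * M| / r ^ 2 * δ * nmm (Y - X) := by ring
    _ ≤ _ := by gcongr; linarith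

lemma Lp.sum {f : MQ N → ℂ} {x : MQ N} {K : ℝ} (h : Lp f x K) {Γ : MC N} {k : Fin m → Fin N}
    {ρ : Fin m → ℝ → ℝ} (hb : ∀ b, bu Γ (k b) (ρ b) ∈ SPm N) (v : Fin m → ℝ) :
    (D1 f x (Bv Γ k ρ v)).re = ∑ b, (D1 f x (bu Γ (k b) (ρ b))).re * v b := by
  have z : D1 f x 0 = 0 := by simpa using h.smul 0 (zero_mem _) 0
  have : ∀ s : Finset (Fin m), D1 f x (∑ b ∈ s, (v b : ℂ) • bu Γ (k b) (ρ b)) =
      ∑ b ∈ s, v b * D1 f x (bu Γ (k b) (ρ b)) := fun s => by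
    induction s using Finset.induction_on with
    | empty => simpa using z
    | insert a s ha ih =>
      rw [Finset.sum_insert ha, Finset.sum_insert ha, h.add _ (Submodule.smul_mem _ _ (hb a)) _
        (Submodule.sum_mem _ fun b _ => Submodule.smul_mem _ _ (hb b)), ih, h.smul _ (hb a)]
  rw [Bv, this, re_sum]
  exact Finset.sum_congr rfl fun b _ => by rw [re_ofReal_mul, mul_comm]

lemma low (A : Matrix (Fin m) (Fin m) ℝ) (h : A.det ≠ 0) :
    ∃ c > 0, ∀ v, 2 * c * ‖v‖ ≤ ‖A.mulVec v‖ := by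
  obtain ⟨K, hK, a⟩ := A.mulVecLin.exists_antilipschitzWith (LinearMap.ker_eq_bot'.2 fun v hv => by
    by_contra n
    exact h (Matrix.exists_mulVec_eq_zero_iff.1 ⟨v, n, hv⟩))
  have K0 : (0 : ℝ) < K := hK
  refine ⟨(2 * K)⁻¹, by positivity, fun v => ?_⟩
  have := a.le_mul_dist v 0
  rw [map_zero, dist_zero_right, dist_zero_right, Matrix.mulVecLin_apply] at this
  rw [show 2 * (2 * (K : ℝ))⁻¹ * ‖v‖ = ‖v‖ / K by field_simp, div_le_iff₀' K0]
  exact this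

end FZ

open FZ in
theorem st_fz (hLIP : St_LIP) (hPU : St_PU) : St_FZ := fun j => by
  obtain ⟨μ1, h1⟩ := hPU j 1 one_pos
  refine ⟨μ1, fun N m cl r μ Γ p0 k ρ hμ hΓ hΓ' hρ hD => ?_⟩
  have m0 := hΓ.cpm_mem
  have m0' := hΓ'.cpm_mem
  have hk : ∀ a, ∃ K, Lp (TW (wX cl) (μ a : ℝ)) (cpm Γ) K ∧
      Lp (TW (wX cl) (μ a : ℝ)) (cpm (actm r p0 Γ)) K := fun a => by
    obtain ⟨R, hR, M, hM⟩ := (h1 _ (hμ a)).1
    obtain ⟨K, hK⟩ := lp_of hLIP m0 hR (hM N Γ _ hΓ (wm_wX cl))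
    obtain ⟨K', hK'⟩ := lp_of hLIP m0' hR (hM N _ _ hΓ' (wm_wX cl))
    exact ⟨max K K', hK.mono m0 (le_max_left _ _), hK'.mono m0' (le_max_right _ _)⟩
  choose Ka hKa using hk
  obtain ⟨K, K0, hK⟩ : ∃ K, 0 < K ∧ ∀ a, Lp (TW (wX cl) (μ a : ℝ)) (cpm Γ) K ∧
      Lp (TW (wX cl) (μ a : ℝ)) (cpm (actm r p0 Γ)) K := by
    have s0 : 0 ≤ ∑ a, Ka a := Finset.sum_nonneg fun a _ => (hKa a).1.pos.le
    have l : ∀ a, Ka a ≤ 1 + ∑ a, Ka a := fun a => by
      linarith [Finset.single_le_sum (f := Ka) (fun a _ => (hKa a).1.pos.le) (Finset.mem_univ a)]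
    exact ⟨1 + ∑ a, Ka a, by linarith, fun a => ⟨(hKa a).1.mono m0 (l a), (hKa a).2.mono m0' (l a)⟩⟩
  obtain ⟨c, c0, hc⟩ := low _ hD
  have hb : ∀ b, bu Γ (k b) (ρ b) ∈ SPm N := fun b => hΓ.rc.bu_mem _ (hρ b)
  have hb' : ∀ b, bu (actm r p0 Γ) (k b) (fun s => ρ b (fl (r (k b)) s)) ∈ SPm N := fun b =>
    hΓ'.rc.bu_mem _ (Per.fl (hρ b) _)
  obtain ⟨β, β1, hβ⟩ : ∃ β, 1 ≤ β ∧ ∀ v, nmm (Bv Γ k ρ v) ≤ ‖v‖ * β := by
    have s0 : 0 ≤ ∑ b, nmm (bu Γ (k b) (ρ b)) := Finset.sum_nonneg fun b _ => sn_nmm.nn _ (hb b)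
    exact ⟨1 + ∑ b, nmm (bu Γ (k b) (ρ b)), by linarith, fun v => (Bv_le hb v).trans (by
      gcongr; linarith)⟩
  have g0 := sn_nmm.nn _ m0
  have q0 := norm_nonneg p0
  have N0 : (0 : ℝ) ≤ N := Nat.cast_nonneg N
  obtain ⟨G, hG⟩ : ∃ G, G = ‖p0‖ + 2 + nmm (cpm Γ) + N := ⟨_, rfl⟩
  have G1 : 1 ≤ G := by linarith
  obtain ⟨δ, δ0, δ1, δ2, δ3⟩ : ∃ δ > 0, δ ≤ 1 ∧ K * (δ * β * (2 * G)) ≤ 1 ∧
      δ * (K * β * (β + β * (2 * G) * G + 1)) ≤ c := by
    have t : ∀ u w : ℝ, 0 < w → ∀ᶠ δ in 𝓝[>] (0 : ℝ), δ * u ≤ w := fun u w hw =>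
      nhdsWithin_le_nhds (((by fun_prop : Continuous fun δ : ℝ => δ * u).tendsto' 0 0
        (zero_mul u)).eventually_le_const hw)
    obtain ⟨δ, a, b, d, e⟩ := ((eventually_mem_nhdsWithin (a := (0 : ℝ)) (s := Ioi 0)).and
      ((t 1 1 one_pos).and ((t (K * (β * (2 * G))) 1 one_pos).and (t _ c c0)))).exists
    exact ⟨δ, a, by linarith, by linarith, e⟩
  have pn : ∀ p, ‖p - p0‖ ≤ δ → ‖p‖ ≤ G := fun p hp => by
    linarith [norm_le_insert' p p0]
  have near : ∀ H p, cpm H ∈ SPm N → nmm (cpm H - cpm Γ) ≤ δ * β → ‖p - p0‖ ≤ δ →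
      nmm (cpm (actm r p H) - cpm (actm r p0 Γ)) ≤ δ * β * (2 * G) := fun H p hH a b => by
    refine (mv r p p0 hH m0).trans ?_
    have := sn_nmm.nn _ (sub_mem hH m0)
    calc _ ≤ G * (δ * β) + δ * β * G := by
          gcongr
          · exact pn p b
          · nlinarith
          · linarith
      _ = _ := by ring
  have db : δ ≤ δ * β := by nlinarith
  have δ2' : K * (δ * β) ≤ 1 := le_trans (mul_le_mul_of_nonneg_left
    (by nlinarith [mul_pos δ0 (one_pos.trans_le β1)]) K0.le) δ2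
  refine ⟨δ, δ0, c, c0, K + 2 * K * G, fun t t' p ht ht' hp => ?_,
    fun H H' p p' hH hH' a a' b b' => ?_⟩
  · have mt : ∀ t, cpm (pert Γ k ρ t) ∈ SPm N := fun t =>
      cpm_pert Γ k ρ t ▸ add_mem m0 (Bv_mem hb t)
    have nt : ∀ t, ‖t‖ ≤ δ → nmm (cpm (pert Γ k ρ t) - cpm Γ) ≤ δ * β := fun t ht => by
      rw [cpm_pert, add_sub_cancel_left]
      exact (hβ t).trans (by gcongr)
    have v0 := norm_nonneg (t - t')
    have key : ‖Fz cl r μ (pert Γ k ρ t) p - Fz cl r μ (pert Γ k ρ t') p -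
        (Matrix.of fun a b => Dd cl r (μ a) Γ (actm r p0 Γ) (k b) (ρ b)).mulVec (t - t')‖ ≤
        c * ‖t - t'‖ := by
      refine (pi_norm_le_iff_of_nonneg (by positivity)).2 fun a => ?_
      have u1 := ((hK a).1.lip _ δ2' _ (mt t') _ (mt t) (nt t' ht') (nt t ht)).2
      have u2 := ((hK a).2.lip _ δ2 _ (actm_mem r p (mt t')) _ (actm_mem r p (mt t))
        (near _ p (mt t') (nt t' ht') hp) (near _ p (mt t) (nt t ht) hp)).2
      have u3 := mv r p p (mt t) (mt t')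
      have u4 := mv r (p - p0) (p - p0) (mt t) (mt t')
      rw [sub_self, norm_zero, zero_mul, add_zero, Bv_sub] at u3 u4
      have w := sub_mem (actm_mem r (p - p0) (mt t)) (actm_mem r (p - p0) (mt t'))
      have u5 := (hK a).2.bd _ w
      have s1 := (hK a).1.sum hb (t - t')
      have s2 := (hK a).2.sum hb' (t - t')
      have e := (hK a).2.add _ (Bv_mem hb' (t - t')) _ w
      rw [← Bv_sub, ← act_pert r p0 hΓ.rc.diff, ← act_pert r p0 hΓ.rc.diff, ← four] at e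
      rw [e, act_pert r p0 hΓ.rc.diff, act_pert r p0 hΓ.rc.diff, Bv_sub] at u2
      rw [Bv_sub] at u1
      have n0 := sn_nmm.nn _ (Bv_mem hb (t - t'))
      have n1 := hβ (t - t')
      have z1 := (abs_re_le_norm _).trans (u1.trans (mul_le_mul_of_nonneg_left n1 (by positivity)))
      have z2 := (abs_re_le_norm _).trans (u2.trans (mul_le_mul_of_nonneg_left
        (u3.trans (mul_le_mul (pn p hp) n1 n0 (by positivity))) (by positivity)))
      have z3 := (abs_re_le_norm _).trans (u5.trans (mul_le_mul_of_nonneg_left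
        (u4.trans (mul_le_mul hp n1 n0 δ0.le)) K0.le))
      simp only [sub_re, add_re, s1, s2] at z1 z2
      have z4 := mul_le_mul_of_nonneg_right δ3 v0
      simp only [Pi.sub_apply, Fz, Matrix.mulVec, dotProduct, Matrix.of_apply, Dd, DX, sub_mul,
        Finset.sum_sub_distrib, Real.norm_eq_abs, ofReal_natCast] at z1 z2 z3 ⊢
      rw [abs_le] at z1 z2 z3 ⊢
      constructor <;> nlinarith [z1.1, z1.2, z2.1, z2.2, z3.1, z3.2]
    have := hc (t - t')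
    have := norm_le_insert (Fz cl r μ (pert Γ k ρ t) p - Fz cl r μ (pert Γ k ρ t') p)
      ((Matrix.of fun a b => Dd cl r (μ a) Γ (actm r p0 Γ) (k b) (ρ b)).mulVec (t - t'))
    linarith
  · have n0 := sn_nmm.nn _ (sub_mem hH hH')
    have v0 := norm_nonneg (p - p')
    refine (pi_norm_le_iff_of_nonneg (by positivity)).2 fun i => ?_
    have u1 := ((hK i).1.lip _ δ2' _ hH' _ hH (a'.trans db) (a.trans db)).1
    have u2 := ((hK i).2.lip _ δ2 _ (actm_mem r p' hH') _ (actm_mem r p hH)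
      (near _ p' hH' (a'.trans db) b') (near _ p hH (a.trans db) b)).1
    have u3 := mv r p p' hH hH'
    have u4 : nmm (cpm H') + N ≤ G := by
      have := sn_nmm.add _ (sub_mem hH' m0) _ m0
      rw [sub_add_cancel] at this
      linarith
    have u5 : ‖p‖ * nmm (cpm H - cpm H') + ‖p - p'‖ * (nmm (cpm H') + N) ≤
        G * nmm (cpm H - cpm H') + ‖p - p'‖ * G := by
      gcongr
      exact pn p b
    have z1 := (abs_re_le_norm _).trans u1
    have z2 := (abs_re_le_norm _).trans (u2.trans (mul_le_mul_of_nonneg_left (u3.trans u5) K0.le))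
    simp only [Pi.sub_apply, Fz, Real.norm_eq_abs, sub_re, ofReal_natCast] at z1 z2 ⊢
    rw [abs_le] at z1 z2 ⊢
    have kg : 0 ≤ K * G := by positivity
    constructor <;> nlinarith [z1.1, z1.2, z2.1, z2.2, mul_nonneg K0.le v0, mul_nonneg kg v0,
      mul_nonneg kg n0]

end Pool.Agent.Lib.IS3
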