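import Pool.Agent.Lib.IS3.Kit
import Pool.Agent.Lib.IS2.B_GC

/-! Row GCm: the collar of several regular closed curves. -/

open scoped ContDiff ComplexConjugate Topology Real
open Complex MeasureTheory Set Filter Metric

noncomputable section

namespace Pool.Agent.Lib.IS3

open Pool.Agent.Lib.ISO Pool.Agent.Lib.IS2 Pool.Agent.Lib.IS2.GC

namespace GCm

theorem core90 {γ : ℝ → ℂ} (hsm : ContDiff ℝ ∞ γ) (hper : Function.Periodic γ (2 * π))
    (hreg : ∀ s, deriv γ s ≠ 0) (hinj : ∀ s t, γ s = γ t → ∃ k : ℤ, t = s + k * (2 * π)) :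
    ∃ c > 0, (∀ s, c ≤ ‖deriv γ s‖) ∧ ∀ s t r : ℝ, |r| ≤ c →
    c * (dc s t + |r|) ≤ ‖γ t - (γ s + r * nr γ s)‖ ∧
      |r| * ‖nr γ s‖ ≤ ‖γ t - (γ s + r * nr γ s)‖ := by
  have s1 : ContDiff ℝ ∞ (deriv γ) := (contDiff_infty_iff_deriv.1 hsm).2
  have s2 : ContDiff ℝ ∞ (deriv (deriv γ)) := (contDiff_infty_iff_deriv.1 s1).2
  have p1 := per_deriv' hper
  have p2 := per_deriv' p1
  obtain ⟨a, ha⟩ := exists_min s1.continuous.norm (fun s => by simp only [p1 s])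
  obtain ⟨b, hb⟩ := exists_min (f := fun s => -(‖deriv γ s‖ + ‖deriv (deriv γ) s‖))
    (s1.continuous.norm.add s2.continuous.norm).neg (fun s => by simp only [p1 s, p2 s])
  set m := ‖deriv γ a‖ with hm
  set M := ‖deriv γ b‖ + ‖deriv (deriv γ) b‖ with hM
  have m0 : 0 < m := norm_pos_iff.2 (hreg a)
  have b1 : ∀ s, ‖deriv γ s‖ ≤ M := fun s => by
    linarith [hb s, norm_nonneg (deriv (deriv γ) s)]
  have b2 : ∀ s, ‖deriv (deriv γ) s‖ ≤ M := fun s => by
    linarith [hb s, norm_nonneg (deriv γ s)]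
  have M0 : 0 < M := m0.trans_le (b1 a)
  have cγ := hsm.continuous
  have cp : IsCompact (Icc (0 : ℝ) (2 * π) ×ˢ (Icc (-π) π ∩ {x : ℝ | m / (2 * M) ≤ |x|})) :=
    isCompact_Icc.prod (isCompact_Icc.inter_right (isClosed_le continuous_const continuous_abs))
  obtain ⟨δ, δ0, hδ⟩ := cp.exists_forall_le' (f := fun p => ‖γ (p.1 + p.2) - γ p.1‖) (a := 0)
    (by fun_prop) fun p hp => by
      refine norm_pos_iff.2 (sub_ne_zero.2 fun e => ?_)
      obtain ⟨k, hk⟩ := hinj _ _ e.symm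
      have e2 : p.2 = k * (2 * π) := by linarith
      have k1 : |p.2| ≤ π := abs_le.2 hp.2.1
      have k2 : 0 < |p.2| := lt_of_lt_of_le (by positivity) hp.2.2
      have k3 : k ≠ 0 := fun e3 => by simp [e2, e3] at k2
      have k4 : (1 : ℝ) ≤ |(k : ℝ)| := by exact_mod_cast Int.one_le_abs k3
      rw [e2, abs_mul, abs_of_pos Real.two_pi_pos] at k1
      nlinarith [Real.pi_pos]
  set c1 := min (m / 2) (δ / π) with hc1
  have c10 : 0 < c1 := lt_min (by positivity) (div_pos δ0 Real.pi_pos)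
  have arc : ∀ s x : ℝ, |x| ≤ π → c1 * |x| ≤ ‖γ (s + x) - γ s‖ := fun s x hx => by
    by_cases hs : m / (2 * M) ≤ |x|
    · have pp : Function.Periodic (fun s => ‖γ (s + x) - γ s‖) (2 * π) := fun s => by
        simp only [add_right_comm s (2 * π) x, hper (s + x), hper s]
      obtain ⟨y, hy, e⟩ := pp.exists_mem_Ico₀ Real.two_pi_pos s
      have k := hδ (y, x) ⟨Ico_subset_Icc_self hy, abs_le.1 hx, hs⟩
      simp only at e k
      rw [e]
      calc c1 * |x| ≤ δ / π * π := mul_le_mul (min_le_right _ _) hx (abs_nonneg _)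
            (div_pos δ0 Real.pi_pos).le
        _ = δ := by field_simp
        _ ≤ _ := k
    · rw [not_le, lt_div_iff₀ (by positivity)] at hs
      have k1 := taylor hsm b2 s x
      have k2 := (norm_sub_norm_le ((x : ℂ) * deriv γ s) (γ (s + x) - γ s)).trans_eq (norm_sub_rev _ _)
      rw [norm_mul, norm_real, Real.norm_eq_abs] at k2
      have k3 := mul_le_mul_of_nonneg_left (ha s) (abs_nonneg x)
      have k4 := mul_le_mul_of_nonneg_right (min_le_left (m / 2) (δ / π)) (abs_nonneg x)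
      rw [← sq_abs] at k1
      have k5 := mul_le_mul_of_nonneg_left hs.le (abs_nonneg x)
      rw [← hc1] at k4
      linarith
  have rd : ∀ s x : ℝ, |rdot (γ (s + x) - γ s) (nr γ s)| ≤ M ^ 2 * x ^ 2 := fun s x => by
    have e : rdot (γ (s + x) - γ s) (nr γ s) = rdot (γ (s + x) - γ s - x * deriv γ s) (nr γ s) := by
      simp only [rdot, nr, sub_re, sub_im, mul_re, mul_im, ofReal_re, ofReal_im, conj_re, conj_im,
        I_re, I_im]
      ring
    rw [e]
    refine (abs_rdot_le _ _).trans ?_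
    rw [norm_nr]
    exact (mul_le_mul (taylor hsm b2 s x) (b1 s) (norm_nonneg _) (by positivity)).trans_eq
      (by ring)
  refine ⟨min (c1 / 2) (c1 ^ 2 / (4 * M ^ 2)), by positivity, fun s => ?_, fun s t r hr => ?_⟩
  · linarith [min_le_left (c1 / 2) (c1 ^ 2 / (4 * M ^ 2)), min_le_left (m / 2) (δ / π), ha s]
  obtain ⟨k, hk⟩ := exists_dc t s
  rw [dc_comm t s] at hk
  set x := t - (s + k * (2 * π)) with hx
  have e : γ t = γ (s + x) := by
    rw [← hper.int_mul k (s + x), hx]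
    congr 1
    ring
  have k1 := arc s x (hk.trans_le (dc_le_pi s t))
  have k2 := rd s x
  have k3 := sq_norm_sub (γ (s + x) - γ s) (nr γ s) r
  rw [sub_sub, ← e] at k3
  rw [← e] at k1 k2
  rw [← hk]
  set c := min (c1 / 2) (c1 ^ 2 / (4 * M ^ 2)) with hc
  have c0 : 0 < c := by positivity
  have l1 : c ≤ c1 / 2 := min_le_left _ _
  have l2 : c * (4 * M ^ 2) ≤ c1 ^ 2 := (le_div_iff₀ (by positivity)).1 (min_le_right _ _)
  have l3 : c1 ≤ m / 2 := min_le_left _ _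
  exact arith c0 c10 m0 l1 l2 l3 hr k1 k2 k3 (by rw [norm_nr]; exact ha s) (norm_nonneg _)

variable {N : ℕ} {Ω : Set ℂ} {Γ : MC N}

theorem sep90 (h : Rc Γ) : ∃ δ > 0, ∀ x y : XN N, x.1 ≠ y.1 → δ ≤ cm Γ y x := by
  have cp : IsCompact ((KX N ×ˢ KX N) ∩ {p : XN N × XN N | p.1.1 ≠ p.2.1}) :=
    (cpt_KX.prod cpt_KX).inter_right ((isClosed_discrete {q : Fin N × Fin N | q.1 ≠ q.2}).preimage
      (f := fun p : XN N × XN N => (p.1.1, p.2.1)) (by fun_prop))
  obtain ⟨δ, δ0, hδ⟩ := cp.exists_forall_le' (f := Function.uncurry (cm Γ)) (a := 0)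
    h.cm_cont.continuousOn fun p hp => cm_pos fun e => hp.2 (h.inj _ _ e).1
  refine ⟨δ, δ0, fun x y e => ?_⟩
  obtain ⟨a, ha⟩ := red_KX y
  obtain ⟨b, hb⟩ := red_KX x
  have := hδ (_, _) ⟨⟨ha, hb⟩, Ne.symm e⟩
  rwa [Function.uncurry_apply_pair, cm, h.gp_int, h.gp_int] at this

theorem corem90 (h : Rc Γ) : ∃ c > 0, (∀ x, c ≤ ‖gn Γ x‖) ∧ ∀ (x y : XN N) (r : ℝ), |r| ≤ c →
    c * (dm x y + |r|) ≤ ‖gp Γ y - (gp Γ x + r * gn Γ x)‖ ∧
      |r| * ‖gn Γ x‖ ≤ ‖gp Γ y - (gp Γ x + r * gn Γ x)‖ := by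
  choose c c0 hm hc using fun i => core90 (h.smooth i) (h.per i) (h.reg i)
    fun s t e => (h.inj (i, s) (i, t) e).2
  obtain ⟨δ, δ0, hδ⟩ := sep90 h
  obtain ⟨M, M0, hM⟩ := h.gn_bd
  have ev : ∀ {a : ℝ}, 0 < a → ∀ᶠ b in 𝓝[>] (0 : ℝ), b ≤ a := fun ha =>
    nhdsWithin_le_nhds (eventually_le_nhds ha)
  obtain ⟨b, ⟨b1, b2, b3, b4⟩, b0⟩ := (((eventually_all.2 fun i => ev (c0 i)).and ((ev one_pos).and
    ((ev (show 0 < δ / 4 by positivity)).and (ev (show 0 < δ / (2 * (M + 1)) by positivity))))).and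
    self_mem_nhdsWithin).exists
  have b0 : 0 < b := b0
  refine ⟨b, b0, fun x => ?_, fun x y r hr => ?_⟩
  · rw [gn, norm_nr]
    exact (b1 _).trans (hm _ _)
  by_cases e : x.1 = y.1
  · have := hc x.1 x.2 y.2 r (hr.trans (b1 _))
    rw [dm, if_pos e, gp, gp, gn, ← e]
    exact ⟨le_trans (mul_le_mul_of_nonneg_right (b1 _)
      (add_nonneg (dc_nonneg _ _) (abs_nonneg _))) this.1, this.2⟩
  · have k1 := hδ x y e
    have k2 := norm_sub_norm_le (gp Γ y - gp Γ x) (r * gn Γ x)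
    rw [sub_sub, norm_mul, norm_real, Real.norm_eq_abs] at k2
    rw [le_div_iff₀ (by positivity)] at b4
    have k3 : |r| * ‖gn Γ x‖ ≤ b * M := mul_le_mul hr (hM x) (norm_nonneg _) b0.le
    have k4 := mul_le_mul_of_nonneg_left (hr.trans b2) b0.le
    rw [dm, if_neg e]
    rw [cm] at k1
    constructor <;> linarith

theorem split90 (h : CDm Ω Γ) {S : Set ℂ} (hS : ∀ t, gp Γ t ∉ S) : S ⊆ Ω ∪ (closure Ω)ᶜ :=
  fun z hz => by
    by_cases c : z ∈ closure Ω
    · exact Or.inl ((h.cl_cases c).resolve_right fun ⟨t, e⟩ => hS t (e ▸ hz))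
    · exact Or.inr c

theorem near90 (h : Rc Γ) (z : ℂ) (y : XN N) : ∃ x, ∀ t, ‖z - gp Γ x‖ ≤ ‖z - gp Γ t‖ := by
  obtain ⟨_, ⟨x, rfl⟩, hx⟩ := h.cpt.exists_isMinOn ⟨_, y, rfl⟩ (f := fun w => ‖z - w‖) (by fun_prop)
  exact ⟨x, fun t => hx (mem_range_self t)⟩

end GCm

open GCm in
theorem st_gcm : St_GCm := by
  intro N Ω Γ h
  obtain ⟨c, c0, hm, hc⟩ := corem90 h.rc
  have oc : IsOpen (closure Ω)ᶜ := isClosed_closure.isOpen_compl
  have seg : ∀ (s : XN N) (σ : ℝ), |σ| = 1 →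
      IsPreconnected ((fun r : ℝ => gp Γ s + (σ * r : ℝ) * gn Γ s) '' Ioc 0 c) ∧
      (fun r : ℝ => gp Γ s + (σ * r : ℝ) * gn Γ s) '' Ioc 0 c ⊆ Ω ∪ (closure Ω)ᶜ := fun s σ hσ =>
    ⟨isPreconnected_Ioc.image _ (by fun_prop), split90 h fun t ⟨r, hr, e⟩ => by
      have a : |σ * r| = r := by rw [abs_mul, hσ, one_mul, abs_of_pos hr.1]
      have := (hc s t (σ * r) (a.trans_le hr.2)).1
      simp only at e
      rw [e, sub_self, norm_zero, a] at this
      nlinarith [dm_nonneg s t, hr.1]⟩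
  have g3 : ∀ s (r : ℝ), 0 < r → r ≤ c →
      gp Γ s + r * gn Γ s ∈ Ω ∧ gp Γ s - r * gn Γ s ∉ closure Ω := by
    intro s r r0 rc
    obtain ⟨δ, δ0, hδ⟩ := h.side s
    have b : 0 < min c (δ / 2) := by positivity
    obtain ⟨q1, q2⟩ := hδ _ b ((min_le_right _ _).trans_lt (by linarith))
    constructor
    · have := (seg s 1 (by simp)).1.subset_left_of_subset_union h.opn oc (disj Ω)
        (seg s 1 (by simp)).2 ⟨_, ⟨_, ⟨b, min_le_left _ _⟩, rfl⟩, by simpa using q1⟩ ⟨r, ⟨r0, rc⟩, rfl⟩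
      simpa using this
    · have := (seg s (-1) (by simp)).1.subset_right_of_subset_union h.opn oc (disj Ω)
        (seg s (-1) (by simp)).2 ⟨_, ⟨_, ⟨b, min_le_left _ _⟩, rfl⟩, by simpa [sub_eq_add_neg] using q2⟩
        ⟨r, ⟨r0, rc⟩, rfl⟩
      simpa [sub_eq_add_neg] using this
  have e0 : 0 < min c (c * c) := by positivity
  have e1 : min c (c * c) ≤ c := min_le_left _ _
  refine ⟨min c (c * c), e0, fun s t r hr => ?_, fun x t hx => ?_,
    fun s r r0 rc => g3 s r r0 (rc.trans e1), fun s z hz => ?_⟩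
  · exact le_trans (mul_le_mul_of_nonneg_right e1 (add_nonneg (dm_nonneg _ _) (abs_nonneg _)))
      (hc s t r (hr.trans e1)).1
  · obtain ⟨s, hs⟩ := near90 h.rc x t
    have d1 : HasDerivAt (fun u => ‖x - Γ s.1 u‖ ^ 2)
        (2 * inner ℝ (x - Γ s.1 s.2) (-deriv (Γ s.1) s.2)) s.2 :=
      ((h.rc.diff s.1 s.2).hasDerivAt.const_sub x).norm_sq
    have d2 := IsLocalMin.hasDerivAt_eq_zero (Eventually.of_forall fun u =>
      pow_le_pow_left₀ (norm_nonneg _) (hs (s.1, u)) 2) d1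
    set r := rdot (x - gp Γ s) (gn Γ s) / ‖deriv (Γ s.1) s.2‖ ^ 2 with hr
    have e : x = gp Γ s + r * gn Γ s :=
      sub_eq_iff_eq_add'.1 (orth (h.reg s.1 s.2) ((mul_eq_zero.1 d2).resolve_left two_ne_zero))
    have k1 := hs t
    have k2 : ‖x - gp Γ s‖ = |r| * ‖gn Γ s‖ := by
      conv_lhs => rw [e]
      rw [add_sub_cancel_left, norm_mul, norm_real, Real.norm_eq_abs]
    have k3 : c * |r| ≤ ‖x - gp Γ t‖ := by nlinarith [hm s, abs_nonneg r]
    refine ⟨s, r, (mul_le_mul_of_nonneg_right e1 (abs_nonneg r)).trans k3, e, fun hΩ => ?_⟩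
    have k4 : |r| ≤ c := le_of_mul_le_mul_left (k3.trans (hx.le.trans (min_le_right _ _))) c0
    rcases lt_trichotomy r 0 with a | a | a
    · have := (g3 s (-r) (by linarith) ((neg_le_abs r).trans k4)).2
      rw [ofReal_neg, neg_mul, sub_neg_eq_add, ← e] at this
      exact absurd (subset_closure hΩ) this
    · exact absurd (by rw [e, a, ofReal_zero, zero_mul, add_zero]) (h.ne_curve hΩ s)
    · exact a
  · set b := min c (c * c)
    by_contra hn
    rw [not_le] at hn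
    have n0 : 0 < b * ‖gn Γ s‖ := (norm_nonneg _).trans_lt hn
    have := (convex_ball (gp Γ s - b * gn Γ s)
      (b * ‖gn Γ s‖)).isPreconnected.subset_right_of_subset_union
      h.opn oc (disj Ω) (split90 h fun t ht => ?_) ⟨_, mem_ball_self n0, (g3 s b e0 e1).2⟩
      (mem_ball_iff_norm.2 hn)
    · exact this (subset_closure hz)
    · have k := (hc s t (-b) (by rwa [abs_neg, abs_of_pos e0])).2
      rw [abs_neg, abs_of_pos e0, ofReal_neg, neg_mul, ← sub_eq_add_neg] at k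
      exact absurd (mem_ball_iff_norm.1 ht) (not_lt.2 k)

end Pool.Agent.Lib.IS3
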