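import Pool.Agent.Lib.IS3.Kit
import Pool.Agent.Lib.IS2.B_SB

/-! The markers give the generic properties of the jets. -/

open scoped ContDiff ComplexConjugate Topology Real
open Complex MeasureTheory Set Filter

noncomputable section

namespace Pool.Agent.Lib.IS3

open Pool.Agent.Lib.ISO Pool.Agent.Lib.IS2

namespace GEN

variable {l : ℝ} {k : ℝ → ℝ}

lemma dph (h : ContDiff ℝ ∞ k) (l : ℝ) (n : ℕ) :
    iteratedDeriv n (ph l k) = fun s => iteratedDeriv n k (s / l) / l ^ (n + 1) := by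
  induction n with
  | zero => funext s; simp [ph]
  | succ n ih =>
    funext s
    have d := (h.differentiable_iteratedDeriv n (by exact_mod_cast ENat.natCast_lt_top n)
      (s / l)).hasDerivAt
    rw [iteratedDeriv_succ, ih, iteratedDeriv_succ]
    refine ((d.comp s ((hasDerivAt_id s).div_const l)).div_const _).deriv.trans ?_
    ring

lemma aph (h : ContDiff ℝ ∞ k) (hl : 0 < l) (n : ℕ) (s : ℝ) :
    |iteratedDeriv n k (s / l)| = |iteratedDeriv n (ph l k) s| * l ^ (n + 1) := by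
  rw [dph h, abs_div, abs_of_pos (pow_pos hl _), div_mul_cancel₀ _ (pow_pos hl _).ne']

lemma per (h : Per (2 * π) k) (hl : 0 < l) : Per (2 * π * l) (ph l k) :=
  ⟨(h.smooth.comp (contDiff_id.div_const l)).div_const l, fun s => by
    rw [ph, ph, add_div, mul_div_cancel_right₀ _ hl.ne', h.per]⟩

lemma xx (M : ℕ) {W : ℕ} (h : 1 ≤ W) : XX M W = (W : ℝ) ^ (2 * M + 8) := by
  have : (W : ℝ) ≠ 0 := Nat.cast_ne_zero.2 (by omega)
  rw [XX, amp, inv_mul_eq_iff_eq_mul₀ (pow_ne_zero _ this)]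
  ring

lemma big {A A' w X η : ℝ} (hX : 0 < X) (hw : 1 ≤ w) (hη : η ≤ 1)
    (h : |A ^ 2 + (A' / w) ^ 2 - 4 * X ^ 2| ≤ η * X ^ 2) (h1 : |A| ≤ X) (h2 : |A'| ≤ X) :
    False := by
  have h3 : |A' / w| ≤ X := by
    rw [abs_div, abs_of_pos (one_pos.trans_le hw)]
    exact (div_le_self (abs_nonneg _) hw).trans h2
  have h4 := sq_le_sq' (abs_le.1 h1).1 (abs_le.1 h1).2
  have h5 := sq_le_sq' (abs_le.1 h3).1 (abs_le.1 h3).2
  have h6 := pow_pos hX 2
  nlinarith [(abs_le.1 h).1]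

end GEN

open GEN in
theorem st_gen (hJ : St_JET2) (hQ : St_QUI) (hP : St_PAR) : St_GEN := by
  classical
  choose W3 h3 using fun (M j : ℕ) => hJ.1 M j ((j : ℝ) + 1)⁻¹ (by positivity)
  choose Q hQ using hQ
  choose P hP using hP
  let B : ℕ → ℕ → ℝ := fun j M => max j (|Q M j| * (j : ℝ) ^ (2 * M + 6))
  let K : ℕ → ℕ → ℝ := fun j M =>
    (|P (2 * M + 4) (B j M)| + |P (2 * M + 5) (B j M)|) * (j : ℝ) ^ (2 * M + 6)
  refine ⟨fun j M => max (max (W3 M j) 1) ⌈K j M⌉₊, fun N j l k hC hG => ?_⟩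
  have key : ∀ c ∈ ({0, 1, I} : Set ℂ), ∀ i, ∀ J : ℕ, j ≤ J → ∃ M W : ℕ, 1 ≤ W ∧ K J M ≤ W ∧
      (∀ i' ≠ i, Mk M W 0 (fc (k i'))) ∧ ∀ s, |iteratedDeriv (2 * M + 4) (k i) s ^ 2 +
        (iteratedDeriv (2 * M + 5) (k i) s / (W : ℝ) ^ 2) ^ 2 -
        4 * XX M W ^ 2 * ‖1 + c * exp (I * s)‖ ^ 2| ≤ ((J : ℝ) + 1)⁻¹ * XX M W ^ 2 := by
    intro c hc i J hJ
    obtain ⟨c1, r, hr⟩ := SB.ex_ra hc
    obtain ⟨M, W, -, a, b⟩ := hG J i r (by
      rw [hr]; exact SB.env_ok c1 (by exact_mod_cast hC.one_le.trans hJ))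
    simp only [max_le_iff, Nat.ceil_le] at a
    exact ⟨M, W, a.1.2, a.2, fun i' hi => by simpa only [if_neg hi] using b i',
      h3 M J W a.1.1 _ c (hC.per i) ((hC.mono hJ).bk i) c1 (by simpa only [if_pos, hr] using b i)⟩
  have g : ∀ i, G01 (k i) := fun i => hJ.2 _ (hC.per i) fun c hc η hη => by
    obtain ⟨J, hJ⟩ := exists_nat_ge (max j η⁻¹)
    obtain ⟨M, W, w, -, -, m⟩ := key c hc i J (le_of_max_le_left hJ)
    refine ⟨2 * M + 4, (W : ℝ) ^ 2, XX M W, by omega, by rw [xx M w]; positivity, fun s =>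
      (m s).trans (mul_le_mul_of_nonneg_right ?_ (sq_nonneg _))⟩
    exact inv_le_of_inv_le₀ hη (by linarith [le_of_max_le_right hJ])
  have lt : ∀ i s (J M W : ℕ), 1 ≤ W → |iteratedDeriv (2 * M + 4) (k i) s ^ 2 +
      (iteratedDeriv (2 * M + 5) (k i) s / (W : ℝ) ^ 2) ^ 2 -
      4 * XX M W ^ 2 * ‖1 + 0 * exp (I * s)‖ ^ 2| ≤ ((J : ℝ) + 1)⁻¹ * XX M W ^ 2 →
      (∀ n ∈ ({2 * M + 4, 2 * M + 5} : Set ℕ), |iteratedDeriv n (k i) s| ≤ (W : ℝ) ^ (2 * M + 8)) →
      False := fun i s J M W w m h => by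
    have w1 : (1 : ℝ) ≤ W := by exact_mod_cast w
    rw [xx M w, zero_mul, add_zero, norm_one, one_pow, mul_one] at m
    exact big (by positivity) (one_le_pow₀ w1) (inv_le_one_of_one_le₀ (by simp)) m (h _ (by simp))
      (h _ (by simp))
  refine ⟨⟨fun i => mul_pos Real.two_pi_pos (hC.pos i), fun i => per (hC.per i) (hC.pos i),
    fun i c => ?_, fun i s t h => ?_, fun i s => ?_, fun i i' hi d s t hd => ?_⟩, g⟩
  · refine (((g i).1 (c * l i)).preimage (f := fun t => t / l i)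
      fun _ _ _ _ => (div_left_inj' (hC.pos i).ne').1).subset fun t ht => ⟨⟨div_nonneg ht.1.1
        (hC.pos i).le, (div_le_iff₀ (hC.pos i)).2 ht.1.2⟩, (div_eq_iff (hC.pos i).ne').1 ht.2⟩
  · obtain ⟨m, hm⟩ := (g i).2 (s / l i) (t / l i) fun n hn => by
      rw [aph (hC.per i).smooth (hC.pos i), aph (hC.per i).smooth (hC.pos i), h n hn]
    refine ⟨m, ?_⟩
    rw [div_eq_iff (hC.pos i).ne', add_mul, div_mul_cancel₀ _ (hC.pos i).ne'] at hm
    rw [hm, mul_assoc]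
  · by_contra h
    push Not at h
    obtain ⟨J, hJ⟩ := exists_nat_ge j
    obtain ⟨M, W, w, -, -, m⟩ := key 0 (by simp) i J hJ
    refine lt i _ J M W w (m (s / l i)) fun n hn => ?_
    rw [aph (hC.per i).smooth (hC.pos i), h n (by rcases hn with rfl | rfl <;> omega), abs_zero,
      zero_mul]
    positivity
  · by_contra h
    push Not at h
    obtain ⟨J, hJ⟩ := exists_nat_ge (max j (max |d| |1 - d * ph (l i') (k i') t|⁻¹))
    simp only [max_le_iff] at hJ
    have hC' := hC.mono hJ.1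
    obtain ⟨M, W, w, wK, q, m⟩ := key 0 (by simp) i J hJ.1
    have w1 : (1 : ℝ) ≤ W := by exact_mod_cast w
    have b1 : ∀ a ≤ 2 * M + 5, |iteratedDeriv a (ph (l i') (k i')) t| ≤ B J M * (W : ℝ) ^ a := by
      intro a ha
      have e := hQ M J W _ w (hC.per i') (hC'.bk i') (q i' hi.symm) a ha (t / l i')
      have e1 : (l i' ^ (a + 1))⁻¹ ≤ (J : ℝ) ^ (2 * M + 6) := by
        have e2 : (l i')⁻¹ ≤ J := inv_le_of_inv_le₀ (one_pos.trans_le hC'.one_le) (hC'.lo i')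
        rw [← inv_pow]
        exact (pow_le_pow_left₀ (inv_pos.2 (hC.pos i')).le e2 _).trans
          (pow_le_pow_right₀ hC'.one_le (by omega))
      rw [aph (hC.per i').smooth (hC.pos i'), ← le_div_iff₀ (pow_pos (hC.pos i') _)] at e
      refine e.trans ?_
      rw [div_eq_mul_inv, mul_right_comm]
      refine mul_le_mul_of_nonneg_right (le_max_of_le_right ?_) (by positivity)
      exact mul_le_mul (le_abs_self _) e1 (inv_pos.2 (pow_pos (hC.pos i') _)).le (abs_nonneg _)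
    refine lt i _ J M W w (m (s / l i)) fun n hn => ?_
    have n1 : n ≤ 2 * M + 5 := by rcases hn with rfl | rfl <;> omega
    have e := hP n (B J M) _ d t W (per (hC.per i') (hC.pos i')).smooth w1
      (le_max_of_le_left hJ.2.1) hd (le_max_of_le_left hJ.2.2) fun a ha => b1 a (ha.trans n1)
    have e1 : P n (B J M) ≤ |P (2 * M + 4) (B J M)| + |P (2 * M + 5) (B J M)| := by
      rcases hn with rfl | rfl
      · exact (le_abs_self _).trans (le_add_of_nonneg_right (abs_nonneg _))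
      · exact (le_abs_self _).trans (le_add_of_nonneg_left (abs_nonneg _))
    have e2 : l i ^ (n + 1) ≤ (J : ℝ) ^ (2 * M + 6) :=
      (pow_le_pow_left₀ (hC.pos i).le (hC'.hi i) _).trans (pow_le_pow_right₀ hC'.one_le (by omega))
    rw [aph (hC.per i).smooth (hC.pos i), h n]
    calc _ ≤ (|P (2 * M + 4) (B J M)| + |P (2 * M + 5) (B J M)|) * (W : ℝ) ^ n *
          (J : ℝ) ^ (2 * M + 6) := mul_le_mul (e.trans (mul_le_mul_of_nonneg_right e1
            (by positivity))) e2 (pow_pos (hC.pos i) _).le (by positivity)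
      _ = K J M * (W : ℝ) ^ n := mul_right_comm _ _ _
      _ ≤ W * (W : ℝ) ^ n := mul_le_mul_of_nonneg_right wK (by positivity)
      _ ≤ _ := by rw [← pow_succ']; exact pow_le_pow_right₀ w1 (by omega)

end Pool.Agent.Lib.IS3
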