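import Pool.Agent.Lib.IS3.Kit
import Pool.Agent.Lib.IS3.BlueG
import Pool.Agent.Lib.ISO.B_GEO1

/-! Block GEOM: boundary curves of a smooth domain, scaling, and orientation of given curves. -/

open scoped ContDiff ComplexConjugate Topology Real
open Complex MeasureTheory Set Filter

noncomputable section

namespace Pool.Agent.Lib.IS3

open Pool.Agent.Lib.ISO Pool.Agent.Lib.IS2
open Pool.Agent.Lib.MP_312682_mp (Geo Cv exists_geo Defs.SmoothDomain)

namespace GEOM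

theorem reindex {ι κ : Type} (e : κ ≃ ι) {Ω : Set ℂ} {γ : ι → ℝ → ℂ} {L : ι → ℝ} {φ : ℂ → ℝ}
    (h : Geo Ω γ L φ) : Geo Ω (fun i => γ (e i)) (fun i => L (e i)) φ :=
  ⟨fun _ => h.cv _, fun _ _ s t k => e.injective (h.disj _ _ s t k), fun _ => h.inj _, h.smooth,
    h.eq, fun z => (h.zero z).trans ⟨fun ⟨i, s, k⟩ => ⟨e.symm i, s, by simpa using k⟩,
      fun ⟨_, s, k⟩ => ⟨_, s, k⟩⟩, fun _ => h.neg _, h.bdd⟩

theorem one (Ω : Set ℂ) (h : Defs.SmoothDomain Ω) :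
    ∃ (N : ℕ) (l : Fin N → ℝ) (G : MC N) (φ : ℂ → ℝ), GM Ω l G φ := by
  obtain ⟨-, -, hb, φ, hφ, he, hr⟩ := h
  obtain ⟨ι, _, γ, L, g⟩ := exists_geo hb hφ he hr
  have g' := reindex (Fintype.equivFin ι).symm g
  set e := (Fintype.equivFin ι).symm
  have hl : ∀ i, 0 < L (e i) / (2 * π) := fun i => div_pos (g.cv _).pos Real.two_pi_pos
  refine ⟨_, fun i => L (e i) / (2 * π),
    fun i s => γ (e i) (L (e i) / (2 * π) * s) / (L (e i) / (2 * π) : ℝ), φ, hl, ?_⟩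
  have e1 : (fun i s => ((L (e i) / (2 * π) : ℝ) : ℂ) * (γ (e i) (L (e i) / (2 * π) *
      (s / (L (e i) / (2 * π)))) / (L (e i) / (2 * π) : ℝ))) = fun i => γ (e i) := by
    funext i s
    rw [mul_div_cancel₀ _ (hl i).ne', mul_div_cancel₀ _ (ofReal_ne_zero.2 (hl i).ne')]
  have e2 : (fun i => 2 * π * (L (e i) / (2 * π))) = fun i => L (e i) :=
    funext fun i => mul_div_cancel₀ _ Real.two_pi_pos.ne'
  rw [e1, e2]
  exact g'

theorem scale {ι : Type} {Ω : Set ℂ} {γ : ι → ℝ → ℂ} {L : ι → ℝ} {φ : ℂ → ℝ} {c : ℝ} (hc : 0 < c)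
    (h : Geo Ω γ L φ) : Geo ((fun z : ℂ => (c : ℂ) * z) '' Ω) (fun i s => c * γ i (s / c))
      (fun i => c * L i) fun z => φ (c⁻¹ • z) := by
  have c0 : (c : ℂ) ≠ 0 := ofReal_ne_zero.2 hc.ne'
  have k : ∀ z : ℂ, c⁻¹ • ((c : ℂ) * z) = z := fun z => by
    rw [real_smul, ofReal_inv, inv_mul_cancel_left₀ c0]
  have k' : ∀ z : ℂ, (c : ℂ) * (c⁻¹ • z) = z := fun z => by
    rw [real_smul, ofReal_inv, mul_inv_cancel_left₀ c0]
  have d : ∀ i s, deriv (fun s => (c : ℂ) * γ i (s / c)) s = deriv (γ i) (s / c) := fun i s => by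
    have := ((((h.cv i).smooth.differentiable (by simp)) (s / c)).hasDerivAt.scomp s
      ((hasDerivAt_id s).div_const c)).const_mul (c : ℂ)
    rw [one_div, k'] at this
    exact this.deriv
  refine ⟨fun i => ⟨⟨?_, fun s => ?_⟩, mul_pos hc (h.cv i).pos, fun s => ?_⟩,
    fun i j s t e => h.disj i j _ _ (mul_left_cancel₀ c0 e), fun i s t e => ?_,
    h.smooth.comp (contDiff_id.const_smul _), ?_, fun z => ?_, fun i s => ?_, ?_⟩
  · exact contDiff_const.mul ((h.cv i).smooth.comp (contDiff_id.div_const c))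
  · rw [d, (h.cv i).unit]
  · rw [add_div, mul_div_cancel_left₀ _ hc.ne', (h.cv i).per]
  · obtain ⟨n, hn⟩ := h.inj i _ _ (mul_left_cancel₀ c0 e)
    refine ⟨n, ?_⟩
    field_simp at hn
    linarith
  · rw [h.eq]
    ext z
    exact ⟨fun ⟨w, hw, e⟩ => by simpa only [← e, mem_ofPred_eq, k] using hw,
      fun hz => ⟨c⁻¹ • z, hz, k' z⟩⟩
  · rw [h.zero]
    refine ⟨fun ⟨i, s, e⟩ => ⟨i, s * c, ?_⟩, fun ⟨i, s, e⟩ => ⟨i, s / c, ?_⟩⟩
    · rw [mul_div_cancel_right₀ _ hc.ne', e, k']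
    · rw [← e, k]
  · have := ((h.smooth.differentiable (by simp)) (c⁻¹ • ((c : ℂ) * γ i (s / c)))).hasFDerivAt.comp
      ((c : ℂ) * γ i (s / c)) ((hasFDerivAt_id _).const_smul c⁻¹)
    rw [d, show (fun z => φ (c⁻¹ • z)) = φ ∘ HSMul.hSMul c⁻¹ from rfl, this.fderiv, k]
    simp only [ContinuousLinearMap.comp_apply, ContinuousLinearMap.smul_apply,
      ContinuousLinearMap.id_apply, map_smul, smul_eq_mul]
    exact mul_neg_of_pos_of_neg (inv_pos.2 hc) (h.neg i _)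
  · exact ((ContinuousLinearMap.mul ℝ ℂ c).lipschitz).isBounded_image h.bdd

theorem two (N : ℕ) (Ω : Set ℂ) (l : Fin N → ℝ) (G : MC N) (φ : ℂ → ℝ) (c : ℝ) (hc : 0 < c)
    (h : GM Ω l G φ) : ∃ φ', GM ((fun z : ℂ => (c : ℂ) * z) '' Ω) (fun i => c * l i) G φ' := by
  refine ⟨fun z => φ (c⁻¹ • z), fun i => mul_pos hc (h.1 i), ?_⟩
  have := scale hc h.2
  have e1 : (fun i s => ((c * l i : ℝ) : ℂ) * G i (s / (c * l i))) =
      fun i s => (c : ℂ) * (l i * G i (s / c / l i)) := by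
    funext i s
    rw [ofReal_mul, mul_assoc, div_div]
  have e2 : (fun i => 2 * π * (c * l i)) = fun i => c * (2 * π * l i) := funext fun i => by ring
  rw [e1, e2]
  exact this

theorem three (N : ℕ) (f : Fin N → Jordan) (Ω : Set ℂ) (hΩ : Defs.SmoothDomain Ω)
    (hd : Pairwise fun i k => Disjoint (range (UniformFun.toFun ((f i).1 0)))
      (range (UniformFun.toFun ((f k).1 0))))
    (hfr : frontier Ω = ⋃ i, range (UniformFun.toFun ((f i).1 0))) :
    ∃ σ φ, GM Ω (sp f) (uc σ f) φ := by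
  obtain ⟨-, -, hb, φ, hφ, he, hr⟩ := hΩ
  set g : Fin N → ℕ → ℝ → ℂ := fun i n => UniformFun.toFun ((f i).1 n) with hg
  have hz : ∀ z, φ z = 0 ↔ ∃ i t, g i 0 t = z := fun z => by
    rw [GEO1.zero_iff hφ.continuous hr z, ← he, hfr, mem_iUnion]
    rfl
  have hz0 : ∀ i t, φ (g i 0 t) = 0 := fun i t => (hz _).2 ⟨i, t, rfl⟩
  have htan : ∀ i t, fderiv ℝ φ (g i 0 t) (g i 1 t) = 0 := fun i t => by
    have h1 := (hφ.differentiable (by simp) (g i 0 t)).hasFDerivAt.comp_hasDerivAt t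
      ((f i).2.1 0 t)
    rw [show φ ∘ UniformFun.toFun ((f i).1 0) = fun _ => 0 from funext (hz0 i)] at h1
    exact h1.unique (hasDerivAt_const t 0)
  have hs : ∀ i, ∃ r : Bool, ∀ t, sg r * fderiv ℝ φ (g i 0 t) (I * g i 1 t) < 0 := fun i => by
    obtain ⟨σ, hσ, hs⟩ := GEO1.sign (h := fun t => fderiv ℝ φ (g i 0 t) (I * g i 1 t))
      (((hφ.continuous_fderiv (by simp)).comp (f_smooth (f i) 0).continuous).clm_apply
        (continuous_const.mul (f_smooth (f i) 1).continuous))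
      fun t h => hr _ (hz0 i t) (GEO1.eq_zero
        (fun e => (sp_pos f i).ne' (by rw [← norm_f1 f i t]; exact norm_eq_zero.2 e)) (htan i t) h)
    rcases hσ with rfl | rfl
    · exact ⟨false, hs⟩
    · exact ⟨true, hs⟩
  choose σ hs using hs
  refine ⟨σ, φ, sp_pos f, ?_⟩
  have e1 : (fun i s => (sp f i : ℂ) * uc σ f i (s / sp f i)) =
      fun i s => ori σ f i (s / sp f i) := by
    funext i s
    exact congrFun (congrFun (scm_uc σ f) i) _
  rw [e1]
  have d : ∀ i s, deriv (fun s => ori σ f i (s / sp f i)) s =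
      (sg (σ i) / sp f i) • g i 1 (fl (σ i) (s / sp f i)) := fun i s => by
    have := (hd_ori σ f i (s / sp f i)).scomp s ((hasDerivAt_id s).div_const (sp f i))
    rw [← real_smul, smul_smul, one_div, inv_mul_eq_div] at this
    exact this.deriv
  refine ⟨fun i => ⟨⟨(ori_smooth σ f i).comp (contDiff_id.div_const _), fun s => ?_⟩,
    mul_pos Real.two_pi_pos (sp_pos f i), fun s => ?_⟩, fun i k s t e => ?_, fun i s t h => ?_,
    hφ, he, fun z => ?_, fun i s => ?_, hb⟩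
  · rw [d, norm_smul, norm_f1, Real.norm_eq_abs, abs_div, abs_sg, abs_of_pos (sp_pos f i),
      div_mul_cancel₀ _ (sp_pos f i).ne']
  · rw [add_div, mul_div_cancel_right₀ _ (sp_pos f i).ne', ori_per]
  · by_contra hn
    exact disjoint_left.1 (hd hn) ⟨_, rfl⟩ ⟨_, e.symm⟩
  · have hper : Function.Periodic (g i 0) (2 * π) := (f i).2.2.1
    have e : ∀ a, g i 0 (toIcoMod Real.two_pi_pos 0 a) = g i 0 a := fun a => hper.sub_zsmul_eq _
    have m : ∀ a, toIcoMod Real.two_pi_pos 0 a ∈ Ico 0 (2 * π) := fun a => by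
      simpa using toIcoMod_mem_Ico Real.two_pi_pos 0 a
    obtain ⟨n, hn⟩ := (toIcoMod_eq_toIcoMod Real.two_pi_pos).1
      ((f i).2.2.2.1 (m (fl (σ i) (s / sp f i))) (m (fl (σ i) (t / sp f i)))
        ((e _).trans (h.trans (e _).symm)))
    have hv := (sp_pos f i).ne'
    rw [zsmul_eq_mul] at hn
    cases hσ : σ i
    · refine ⟨n, ?_⟩
      simp only [hσ, fl, Bool.false_eq_true, if_false] at hn
      field_simp at hn
      linarith
    · refine ⟨-n, ?_⟩
      simp only [hσ, fl, if_true] at hn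
      field_simp at hn
      push_cast
      linarith
  · rw [hz]
    refine ⟨fun ⟨i, t, e⟩ => ⟨i, fl (σ i) t * sp f i, ?_⟩, fun ⟨i, _, e⟩ => ⟨i, _, e⟩⟩
    rw [mul_div_cancel_right₀ _ (sp_pos f i).ne', ori, fl_fl]
    exact e
  · rw [d, mul_smul_comm, map_smul, smul_eq_mul, div_mul_eq_mul_div]
    exact div_neg_of_neg_of_pos (hs i _) (sp_pos f i)

end GEOM

theorem st_geom : St_GEOM := ⟨GEOM.one, GEOM.two, GEOM.three⟩

end Pool.Agent.Lib.IS3
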