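import Pool.Agent.Lib.IS3.Kit

/-! The generic properties of the curvature are kept by motions. -/

open scoped ContDiff ComplexConjugate Topology Real
open Complex Set Filter

noncomputable section

namespace Pool.Agent.Lib.IS3

open Pool.Agent.Lib.ISO Pool.Agent.Lib.IS2

namespace GJF

lemma kp_act (r : Bool) {p : ℂ × ℂ} (hp : ‖p.1‖ = 1) {G : ℝ → ℂ} (h : ContDiff ℝ ∞ G) (s : ℝ) :
    kp (act r p G) s = kp G (fl r s) := by
  have e : p.1.re ^ 2 + p.1.im ^ 2 = 1 := by
    have := Complex.sq_norm p.1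
    rw [hp, normSq_apply] at this
    linarith
  rw [kp, kp, deriv2_act r p h, deriv_act r p (h.differentiable (by simp))]
  generalize deriv (deriv G) (fl r s) = a
  generalize deriv G (fl r s) = b
  cases r <;> simp [ml_apply, sg] <;> linear_combination (a.im * b.re - a.re * b.im) * e

lemma itd (r : Bool) (κ : ℝ → ℝ) (n : ℕ) (s : ℝ) :
    |iteratedDeriv n (fun t => κ (fl r t)) s| = |iteratedDeriv n κ (fl r s)| := by
  cases r
  · rfl
  · show |iteratedDeriv n (fun t => κ (-t)) s| = |iteratedDeriv n κ (-s)|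
    rw [iteratedDeriv_comp_neg, smul_eq_mul, abs_mul, abs_neg_one_pow, one_mul]

lemma pn_neg (d : ℝ) (κ : ℝ → ℝ) (n : ℕ) :
    Pn d (fun t => κ (-t)) n = fun t => (-1) ^ n * Pn d κ n (-t) := by
  induction n with
  | zero => funext t; simp [Pn]
  | succ n ih =>
    funext t
    simp only [Pn, ih]
    rw [deriv_const_mul_field, deriv_comp_neg (Pn d κ n)]
    ring

lemma pn (r : Bool) (d : ℝ) (κ : ℝ → ℝ) (n : ℕ) (s : ℝ) :
    |Pn d (fun t => κ (fl r t)) n s| = |Pn d κ n (fl r s)| := by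
  cases r
  · rfl
  · show |Pn d (fun t => κ (-t)) n s| = |Pn d κ n (-s)|
    rw [pn_neg, abs_mul, abs_neg_one_pow, one_mul]

lemma gj {N : ℕ} {κ : Fin N → ℝ → ℝ} {L : Fin N → ℝ} (h : GJ κ L) (r : Fin N → Bool) :
    GJ (fun i s => κ i (fl (r i) s)) L where
  pos := h.pos
  per i := Per.fl (h.per i) _
  fin i c := by
    cases hr : r i
    · exact h.fin i c
    · refine ((h.fin i c).image fun t => L i - t).subset fun t ht => ⟨L i - t, ⟨⟨?_, ?_⟩, ?_⟩, ?_⟩
      · linarith [ht.1.2]
      · linarith [ht.1.1]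
      · rw [← ht.2, sub_eq_neg_add, (h.per i).per]
        rfl
      · exact sub_sub_cancel _ _
  jet i s t H := by
    obtain ⟨m, hm⟩ := h.jet i (fl (r i) s) (fl (r i) t) fun n hn => by
      rw [← itd, ← itd]
      exact H n hn
    cases hr : r i
    · exact ⟨m, by simpa [hr, fl] using hm⟩
    · refine ⟨-m, ?_⟩
      simp only [hr, fl, if_true] at hm
      push_cast
      linarith
  flat i s := by
    obtain ⟨n, hn, h0⟩ := h.flat i (fl (r i) s)
    exact ⟨n, hn, abs_ne_zero.1 (by rw [itd]; exact abs_ne_zero.2 h0)⟩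
  par i k hik d s t H := by
    obtain ⟨n, hn⟩ := h.par i k hik d (fl (r i) s) (fl (r k) t) H
    exact ⟨n, by rwa [itd, pn]⟩

end GJF

theorem st_gjf : St_GJF := by
  intro N l G r p hG hp
  have k : ∀ i s, kp (actm r p G i) s = kp (G i) (fl (r i) s) :=
    fun i s => GJF.kp_act _ (hp i) (hG i) s
  refine ⟨k, fun h => ?_⟩
  have e : (fun i => ph (l i) (kp (actm r p G i))) =
      fun i s => ph (l i) (kp (G i)) (fl (r i) s) := by
    funext i s
    simp only [ph, k, fl_eq, mul_div_assoc]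
  rw [GG, e]
  exact GJF.gj h r

end Pool.Agent.Lib.IS3
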