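import Pool.Agent.Lib.IS3.Kit
import Pool.Agent.Lib.IS2.B_GRE

/-! The Green function of a domain with several boundary curves. -/

open scoped ContDiff ComplexConjugate Topology Real
open Complex MeasureTheory Set Filter

noncomputable section

namespace Pool.Agent.Lib.IS3

open Pool.Agent.Lib.ISO Pool.Agent.Lib.IS2
open Pool.Agent.Lib.IS2.GRE (har_mono har_shift har_sub gr_comm ball_int)

namespace GREm

variable {N : ℕ} {Ω : Set ℂ} {Γ : MC N}

lemma not_mem (h : CDm Ω Γ) (t : XN N) : gp Γ t ∉ Ω := fun ht => h.ne_curve ht t rfl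

lemma ne_of_mem (h : CDm Ω Γ) {y : ℂ} (hy : y ∈ Ω) (t : XN N) : gp Γ t ≠ y :=
  (h.ne_curve hy t).symm

/-- an integrable function moved along the curves -/
lemma along {g : ℂ → ℝ} (hg : Integrable g) (hm : Measurable g) (hγ : Continuous (gp Γ)) :
    Integrable (fun p : ℂ × XN N => g (p.1 - gp Γ p.2)) (volume.prod (nx N)) := by
  refine (integrable_prod_iff' ?_).2 ⟨ae_of_all _ fun t => hg.comp_sub_right (gp Γ t), ?_⟩
  · exact (hm.comp (measurable_fst.sub (hγ.measurable.comp measurable_snd))).aestronglyMeasurable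
  · simp only [integral_sub_right_eq_self (fun x => ‖g x‖)]
    exact integrable_const _

end GREm

open GREm in
theorem st_grem (hL : St_LAY) (hLm : St_LAYm) (hV : St_VP) (hM : St_MAX) (hP : St_POIm) :
    St_GREm := by
  intro N μ Γ Ω hp
  have hc := hp.cd
  have hγ : Continuous (gp Γ) := hc.rc.gp_cont
  obtain ⟨⟨Gh, -, Gm, -, G2, ⟨C, GC⟩, Gp⟩, -⟩ := hL μ hp.pos
  obtain ⟨P1, P2, P3, ⟨C', P7⟩, P9⟩ := hP N μ Γ Ω hp
  have Gc : ContinuousOn (Gr μ) {0}ᶜ := Gh.1.continuousOn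
  have cpG : ∀ y, (∀ t, gp Γ t ≠ y) → CPm fun t => Gr μ (gp Γ t - y) := fun y hy =>
    ⟨Gc.comp_continuous (hγ.sub continuous_const) fun t => sub_ne_zero.2 (hy t),
      fun t => by simp only [hc.rc.gp_per t]⟩
  have c1 : ContinuousOn (Function.uncurry (hRm μ Γ Ω)) (closure Ω ×ˢ Ω) :=
    P3 Ω (fun y t => Gr μ (gp Γ t - y))
      (Gc.comp (f := fun p : ℂ × XN N => gp Γ p.2 - p.1) (by fun_prop)
        fun p hp => sub_ne_zero.2 (ne_of_mem hc hp.1 _))
      fun y hy => (cpG y (ne_of_mem hc hy)).2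
  have rep : ∀ y, (∀ t, gp Γ t ≠ y) → ∀ x ∈ Ω,
      hRm μ Γ Ω x y = ∫ t, psm μ Γ x t * Gr μ (gp Γ t - y) ∂nx N := fun y hy x hx =>
    ((P1 _ (cpG y hy)).2.2.2 x hx).2
  have sl : ∀ y x, SLom μ Γ (psm μ Γ y) x =
      ∫ t, psm μ Γ y t * Gr μ (gp Γ t - x) ∂nx N := fun y x => by
    unfold SLom
    simp only [gr_comm μ x, mul_comm]
  have lay : ∀ y ∈ Ω, Continuous (SLom μ Γ (psm μ Γ y)) ∧ Har μ Ω (SLom μ Γ (psm μ Γ y)) :=
    fun y hy => by
      obtain ⟨B, -, hB⟩ := (P9 y hy).1.bd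
      have h := (hLm N Ω Γ hc).2 μ hp.pos _ (P9 y hy).1.1.measurable ⟨B, hB⟩
      exact ⟨h.1, har_mono h.2.1 fun x hx ⟨t, ht⟩ => ne_of_mem hc hx t ht⟩
  have ext0 : ∀ y ∈ Ω, ∀ x ∉ closure Ω, SLom μ Γ (psm μ Γ y) x = Gr μ (x - y) := fun y hy x hx => by
    have hx' : ∀ z ∈ closure Ω, z ≠ x := fun z hz e => hx (e ▸ hz)
    have h := P2 (fun z => Gr μ (z - x)) ((har_shift Gh x).1.continuousOn.mono hx')
      (har_mono (har_shift Gh x) fun z hz => hx' z (subset_closure hz)) y (subset_closure hy)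
    rw [sl, ← rep x (fun t => hx' _ (hc.mem_cl t)) y hy, gr_comm]
    exact h.symm
  have ext : ∀ y ∈ Ω, ∀ x ∉ Ω, SLom μ Γ (psm μ Γ y) x = Gr μ (x - y) := fun y hy x hx => by
    by_cases hx1 : x ∈ closure Ω
    swap
    · exact ext0 y hy x hx1
    have hf : x ∈ frontier Ω := by rw [hc.opn.frontier_eq]; exact ⟨hx1, hx⟩
    obtain ⟨s, rfl⟩ : x ∈ range (gp Γ) := hc.fr ▸ hf
    obtain ⟨δ, hδ, hs⟩ := hc.side s
    have ht : Tendsto (fun r : ℝ => gp Γ s - r * gn Γ s) (𝓝[>] 0) (𝓝 (gp Γ s)) := by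
      have : Continuous fun r : ℝ => gp Γ s - r * gn Γ s := by fun_prop
      simpa using (this.tendsto 0).mono_left (nhdsWithin_le_nhds (s := Ioi 0))
    have hg : ContinuousAt (fun z => Gr μ (z - y)) (gp Γ s) :=
      (har_shift Gh y).1.continuousOn.continuousAt
        (isOpen_compl_singleton.mem_nhds (ne_of_mem hc hy s))
    refine tendsto_nhds_unique_of_eventuallyEq (((lay y hy).1.tendsto _).comp ht)
      (hg.tendsto.comp ht) ?_
    filter_upwards [Ioo_mem_nhdsGT hδ] with r hr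
    exact ext0 y hy _ (hs r hr.1 hr.2).2
  have ins : ∀ y ∈ Ω, ∀ x ∈ Ω, SLom μ Γ (psm μ Γ y) x = hRm μ Γ Ω x y := fun y hy x hx => by
    rw [P2 _ (lay y hy).1.continuousOn (lay y hy).2 x (subset_closure hx)]
    simp only [ext y hy _ (not_mem hc _)]
    rfl
  have sym : ∀ y ∈ Ω, ∀ x ∈ Ω, hRm μ Γ Ω x y = hRm μ Γ Ω y x := fun y hy x hx => by
    rw [← ins y hy x hx, sl, rep x (ne_of_mem hc hx) y hy]
  have nn : ∀ y ∈ Ω, ∀ x ∈ Ω, 0 ≤ hRm μ Γ Ω x y := fun y hy x hx => by
    rw [rep y (ne_of_mem hc hy) x hx]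
    exact integral_nonneg fun t => mul_nonneg ((P9 x hx).2 t)
      (Gp _ (sub_ne_zero.2 (ne_of_mem hc hy t))).1.le
  have hK : IsCompact (closure Ω) := hc.bdd.isCompact_closure
  have bd : ∀ y ∈ Ω, ∃ B, ∀ x ∈ closure Ω, ‖hRm μ Γ Ω x y‖ ≤ B := fun y hy =>
    hK.exists_bound_of_continuousOn (P1 _ (cpG y (ne_of_mem hc hy))).1
  have mΩ : MeasurableSet Ω := hc.opn.measurableSet
  obtain ⟨R, hR0⟩ := hK.isBounded.exists_norm_le
  refine ⟨c1, ?_, fun F hF hF0 x hx => ?_, fun y hy => ?_⟩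
  · set g : ℂ → ℝ := (Metric.ball 0 (2 * R + 1)).indicator fun z =>
      |C'| * |C| * (‖z‖ ^ (-(1 / 4 : ℝ)) + ‖z‖ ^ (-(5 / 4 : ℝ))) with hg
    have gi : Integrable g := (integrable_indicator_iff Metric.isOpen_ball.measurableSet).2
      (((ball_int _ _ (by norm_num)).add (ball_int _ _ (by norm_num))).const_mul _)
    have gm : Measurable g := Measurable.indicator (by fun_prop (disch := measurability))
      Metric.isOpen_ball.measurableSet
    have ha := along gi gm hγ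
    refine Integrable.mono' ha.integral_prod_left.integrableOn
      ((c1.comp (f := fun x : ℂ => (x, x)) (by fun_prop)
        fun x hx => ⟨subset_closure hx, hx⟩).aestronglyMeasurable mΩ) ?_
    filter_upwards [ae_restrict_of_ae ha.prod_right_ae, ae_restrict_mem mΩ] with x h1 hx
    rw [rep x (ne_of_mem hc hx) x hx]
    refine norm_integral_le_of_norm_le h1 (ae_of_all _ fun t => ?_)
    have h0 : x - gp Γ t ≠ 0 := sub_ne_zero.2 (ne_of_mem hc hx t).symm
    have h2 : 0 < ‖x - gp Γ t‖ := norm_pos_iff.2 h0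
    have h3 : x - gp Γ t ∈ Metric.ball (0 : ℂ) (2 * R + 1) := by
      rw [mem_ball_zero_iff]
      have := norm_sub_le x (gp Γ t)
      have := hR0 _ (subset_closure hx)
      have := hR0 _ (hc.mem_cl t)
      linarith
    have h4 : ‖x - gp Γ t‖ ^ (-(5 / 4 : ℝ)) = ‖x - gp Γ t‖⁻¹ * ‖x - gp Γ t‖ ^ (-(1 / 4 : ℝ)) := by
      rw [← Real.rpow_neg_one, ← Real.rpow_add h2]; norm_num
    have h5 : 0 ≤ ‖x - gp Γ t‖ ^ (-(1 / 4 : ℝ)) := by positivity
    have h6 : psm μ Γ x t ≤ |C'| * (1 + ‖x - gp Γ t‖⁻¹) :=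
      (P7 x hx t).trans (by gcongr; exact le_abs_self _)
    have h7 : |Gr μ (x - gp Γ t)| ≤ |C| * ‖x - gp Γ t‖ ^ (-(1 / 4 : ℝ)) := by
      have := GC _ h0
      rw [neg_div'] at this
      exact this.trans (by rw [neg_div']; gcongr; exact le_abs_self _)
    rw [hg, indicator_of_mem h3, h4, norm_mul, Real.norm_of_nonneg ((P9 x hx).2 t), gr_comm,
      Real.norm_eq_abs]
    calc _ ≤ |C'| * (1 + ‖x - gp Γ t‖⁻¹) * (|C| * ‖x - gp Γ t‖ ^ (-(1 / 4 : ℝ))) :=
          mul_le_mul h6 h7 (abs_nonneg _) (by positivity)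
      _ = _ := by ring
  · have iG : ∀ w, Integrable fun z => Gr μ (w - z) * F z := fun w =>
      (G2.comp_measurePreserving (Measure.measurePreserving_sub_left volume w)).integrable_mul hF
    have hR1 : ∀ z, R < ‖z‖ → F z = 0 := fun z hz =>
      hF0 z fun h => absurd (hR0 z (subset_closure h)) (not_le.2 hz)
    have v1 := (hV μ F hp.pos hF ⟨R, hR1⟩).1
    have v2 := (hV μ (fun z => |F z|) hp.pos hF.abs ⟨R, fun z hz => by
      rw [hR1 z hz, abs_zero]⟩).1
    have fin : IsFiniteMeasure (volume.restrict Ω) :=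
      isFiniteMeasure_restrict.2 hc.bdd.measure_lt_top.ne
    have iF : IntegrableOn F Ω := (hF.restrict Ω).integrable (by norm_num)
    obtain ⟨B, hB⟩ := bd x hx
    have iH : IntegrableOn (fun z => hRm μ Γ Ω x z * F z) Ω := by
      refine iF.bdd_mul (c := B) ((c1.comp (f := fun z : ℂ => (x, z)) (by fun_prop)
        fun z hz => ⟨subset_closure hx, hz⟩).aestronglyMeasurable mΩ) ?_
      filter_upwards [ae_restrict_mem mΩ] with z hz
      rw [sym z hz x hx]
      exact hB z (subset_closure hz)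
    have e : ∀ z, Rgm μ Γ Ω x z * F z = Gr μ (x - z) * F z - hRm μ Γ Ω x z * F z := fun z => by
      unfold Rgm; ring
    simp only [e]
    refine ⟨(iG x).integrableOn.sub iH, ?_⟩
    have pc := (P9 x hx).1.1
    have iP : Integrable (Function.uncurry fun (t : XN N) (z : ℂ) =>
        psm μ Γ x t * (Gr μ (gp Γ t - z) * F z)) ((nx N).prod volume) := by
      refine (integrable_prod_iff ?_).2 ⟨ae_of_all _ fun t => (iG (gp Γ t)).const_mul (psm μ Γ x t), ?_⟩
      · exact (pc.measurable.comp measurable_fst).aestronglyMeasurable.mul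
          ((Gm.comp ((hγ.measurable.comp measurable_fst).sub
            measurable_snd)).aestronglyMeasurable.mul hF.1.comp_snd)
      · have : ∀ t, ∫ z, ‖psm μ Γ x t * (Gr μ (gp Γ t - z) * F z)‖ =
            psm μ Γ x t * Vp μ (fun z => |F z|) (gp Γ t) := fun t => by
          unfold Vp
          rw [← integral_const_mul]
          refine integral_congr_ae (ae_of_all _ fun z => ?_)
          by_cases hz : z ∈ Ω
          · simp only [norm_mul, Real.norm_eq_abs, abs_of_nonneg ((P9 x hx).2 t),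
              abs_of_pos (Gp _ (sub_ne_zero.2 (ne_of_mem hc hz t))).1]
          · simp [hF0 z hz]
        simp only [Function.uncurry, this]
        exact int_cont (pc.mul (v2.comp hγ))
    rw [integral_sub (iG x).integrableOn iH, setIntegral_eq_integral_of_forall_compl_eq_zero
      fun z hz => by rw [hF0 z hz, mul_zero],
      ((P1 (fun t => Vp μ F (gp Γ t)) ⟨v1.comp hγ, fun t => by simp only [hc.rc.gp_per t]⟩).2.2.2 x hx).2]
    congr 1
    simp only [Vp, ← integral_const_mul]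
    rw [integral_integral_swap iP]
    refine (setIntegral_congr_fun mΩ fun z hz => ?_).trans
      (setIntegral_eq_integral_of_forall_compl_eq_zero (s := Ω) fun z hz => by simp [hF0 z hz])
    simp only [rep z (ne_of_mem hc hz) x hx, ← integral_mul_const, mul_assoc]
  · obtain ⟨q1, q2, q3, -⟩ := P1 _ (cpG y (ne_of_mem hc hy))
    have z0 : ∀ t, Rgm μ Γ Ω (gp Γ t) y = 0 := fun t => sub_eq_zero.2 (q3 t).symm
    refine ⟨q2, z0, fun x hx => ⟨sym y hy x hx, nn y hy x hx, fun hxy => ?_⟩⟩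
    obtain ⟨B, hB⟩ := bd y hy
    have hh := har_sub (hc.opn.sdiff isClosed_singleton) (har_mono q2 sdiff_subset)
      (har_mono (har_shift Gh y) fun z hz => hz.2)
    have := (hM μ hp.pos).2.1 Ω (fun z => hRm μ Γ Ω z y - Gr μ (z - y)) 0 B y hy hc.opn hc.bdd le_rfl
      ((q1.mono sdiff_subset).sub ((har_shift Gh y).1.continuousOn.mono fun z hz => hz.2)) hh.1
      (fun z hz => ⟨(hh.2 z hz).ge, by
        have h1 := (le_abs_self _).trans (hB z (subset_closure hz.1))
        have h2 := (Gp _ (sub_ne_zero.2 hz.2)).1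
        linarith⟩)
      (fun z hz => by
        obtain ⟨t, rfl⟩ : z ∈ range (gp Γ) := hc.fr ▸ hz
        have := z0 t
        unfold Rgm at this
        linarith) x ⟨hx, hxy⟩
    unfold Rgm
    linarith

end Pool.Agent.Lib.IS3
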