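import Pool.Agent.Lib.IS3.Kit
import Pool.Agent.Lib.IS2.B_GRN

/-! Row GRNm: the Green representation formula, several curves. -/

open scoped ContDiff ComplexConjugate Topology Real Manifold Interval
open Complex MeasureTheory Set Filter

noncomputable section

namespace Pool.Agent.Lib.IS3

open Pool.Agent.Lib.ISO Pool.Agent.Lib.IS2

namespace GRNm

open GRN

variable {N : ℕ}

theorem away (hL : St_LAY) {μ : ℝ} (hμ : 0 < μ) {Ω : Set ℂ} {Γ : MC N} (hC : CDm Ω Γ) {x : ℂ}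
    (hx : x ∉ range (gp Γ)) {g : ℂ → ℝ} (hg : ContDiff ℝ 2 g) (h0 : g =ᶠ[𝓝 x] 0) :
    (∫ z in Ω, Gr μ (x - z) * (μ ^ 2 * g z - lap g z)) + ∫ t,
      (Gr μ (x - gp Γ t) * fderiv ℝ g (gp Γ t) (-gn Γ t) + DLx μ Γ x t * g (gp Γ t)) ∂nx N = 0 := by
  obtain ⟨⟨-, hH⟩, hS, -, -, -, -, hF⟩ := (hL μ hμ).1
  set G : ℂ → ℝ := fun z => Gr μ (z - x) with hG
  have hGs : ∀ z ≠ x, ContDiffAt ℝ 2 G z := fun z hz =>
    ((hS.contDiffAt (isOpen_compl_singleton.mem_nhds (sub_ne_zero.2 hz))).of_le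
      (WithTop.coe_le_coe.2 le_top)).comp z (contDiffAt_id.sub contDiffAt_const)
  set a : ℂ → ℂ → ℝ := fun v z => G z * fderiv ℝ g z v - g z * fderiv ℝ G z v with ha
  have a0 : ∀ v, a v =ᶠ[𝓝 x] 0 := fun v => by
    filter_upwards [h0, h0.fderiv (𝕜 := ℝ)] with z h1 h2
    simp [ha, h1, h2]
  have a1 : ∀ v, ContDiff ℝ 1 (a v) := fun v => contDiff_iff_contDiffAt.2 fun z => by
    by_cases hz : z = x
    · exact hz ▸ contDiffAt_const.congr_of_eventuallyEq (a0 v)
    · exact (((hGs z hz).of_le one_le_two).mul (cd_fd hg.contDiffAt v)).sub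
        ((hg.contDiffAt.of_le one_le_two).mul (cd_fd (hGs z hz) v))
  have a2 : ∀ z, fderiv ℝ (a 1) z 1 + fderiv ℝ (a I) z I = -(G z * (μ ^ 2 * g z - lap g z)) := by
    intro z
    by_cases hz : z = x
    · subst hz
      rw [(a0 1).fderiv_eq, (a0 I).fderiv_eq, lap_cg h0, h0.self_of_nhds]
      simp [lap]
    · have e : ∀ v, fderiv ℝ (a v) z v = G z * fderiv ℝ (fun z => fderiv ℝ g z v) z v -
          g z * fderiv ℝ (fun z => fderiv ℝ G z v) z v := fun v => by
        have := ((((hGs z hz).differentiableAt two_ne_zero).hasFDerivAt.mul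
          ((cd_fd hg.contDiffAt v).differentiableAt one_ne_zero).hasFDerivAt).sub
          ((hg.differentiable two_ne_zero z).hasFDerivAt.mul
          ((cd_fd (hGs z hz) v).differentiableAt one_ne_zero).hasFDerivAt)).fderiv
        refine (congrArg (fun T : ℂ →L[ℝ] ℝ => T v) this).trans ?_
        simp only [sub_apply, add_apply, smul_apply, smul_eq_mul]
        ring
      have e2 : lap G z = μ ^ 2 * G z := by
        rw [hG, ← hH _ (sub_ne_zero.2 hz)]
        simp only [sub_eq_add_neg, lap_tr]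
      rw [e, e, lap]
      rw [lap] at e2
      linear_combination -g z * e2
  have h := hC.div (fun z => (a 1 z : ℂ) + a I z * I)
    ((ofRealCLM.contDiff.comp (a1 1)).add ((ofRealCLM.contDiff.comp (a1 I)).mul contDiff_const))
  have e1 : ∀ z, (fderiv ℝ (fun z => (a 1 z : ℂ) + a I z * I) z 1).re +
      (fderiv ℝ (fun z => (a 1 z : ℂ) + a I z * I) z I).im =
        -(Gr μ (x - z) * (μ ^ 2 * g z - lap g z)) := fun z => by
    have := ((ofRealCLM.hasFDerivAt.comp z ((a1 1).differentiable one_ne_zero z).hasFDerivAt).add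
      ((ofRealCLM.hasFDerivAt.comp z
        ((a1 I).differentiable one_ne_zero z).hasFDerivAt).mul_const I)).fderiv
    rw [gr_sub, ← a2]
    erw [this]
    simp
  simp only [e1, integral_neg] at h
  rw [add_comm, ← sub_neg_eq_add, h, sub_eq_zero]
  refine integral_congr_ae (ae_of_all _ fun t => ?_)
  have ht : gp Γ t - x ≠ 0 := sub_ne_zero.2 fun h => hx ⟨t, h⟩
  have e2 : fderiv ℝ G (gp Γ t) (-gn Γ t) = -DLx μ Γ x t := by
    rw [hG, fderiv_comp_sub, (hF _ ht).2, DLx_def]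
    simp only [rdot, mul_re, conj_re, conj_im]
    ring
  have e3 : DLx μ Γ x t = -fderiv ℝ G (gp Γ t) (-gn Γ t) := by rw [e2, neg_neg]
  simp only [gr_sub μ x, e3, fd_split _ _ (-gn Γ t), ha, rdot]
  simp
  ring

end GRNm

open GRN in
theorem st_grnm (hA : IS2.St_A3) (hL : IS2.St_LAY) : St_GRNm := by
  intro μ hμ N Ω Γ O u x hC hO hΩ hu hx
  obtain ⟨-, -, hm, hG, -⟩ := (hL μ hμ).1
  obtain ⟨ψ, h0, h1, -⟩ := exists_contMDiffMap_zero_one_nhds_of_isClosed 𝓘(ℝ, ℂ) (n := 2)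
    hO.isClosed_compl isClosed_closure (disjoint_compl_left_iff_subset.2 hΩ)
  have hψ : ContDiff ℝ 2 ψ := ψ.contMDiff.contDiff
  set w : ℂ → ℝ := fun z => ψ z * u z with hw
  have hw2 : ContDiff ℝ 2 w := contDiff_iff_contDiffAt.2 fun z => by
    by_cases hz : z ∈ O
    · exact hψ.contDiffAt.mul (hu.contDiffAt (hO.mem_nhds hz))
    · refine (contDiffAt_const (c := 0)).congr_of_eventuallyEq ?_
      filter_upwards [h0.filter_mono (nhds_le_nhdsSet hz)] with y hy
      simp [hw, hy]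
  have hwu : ∀ z ∈ closure Ω, u =ᶠ[𝓝 z] w := fun z hz => by
    filter_upwards [h1.filter_mono (nhds_le_nhdsSet hz)] with y hy
    simp [hw, hy]
  obtain ⟨U, hU, hxU, hUf, hUΩ⟩ : ∃ U, IsOpen U ∧ x ∈ U ∧ (∀ t, gp Γ t ∉ U) ∧
      (U = Ω ∨ x ∉ Ω ∧ Disjoint U Ω) := by
    have hf : ∀ t, gp Γ t ∈ frontier Ω := fun t => hC.fr ▸ mem_range_self t
    by_cases h : x ∈ Ω
    · exact ⟨Ω, hC.opn, h, fun t => (hC.opn.frontier_eq ▸ hf t).2, Or.inl rfl⟩
    · exact ⟨(closure Ω)ᶜ, isClosed_closure.isOpen_compl,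
        fun h' => hx (hC.fr ▸ hC.opn.frontier_eq ▸ ⟨h', h⟩), fun t ht => ht (hf t).1,
        Or.inr ⟨h, disjoint_compl_left_iff_subset.2 subset_closure⟩⟩
  obtain ⟨r, hr, hrU⟩ := Metric.nhds_basis_closedBall.mem_iff.1 (hU.mem_nhds hxU)
  let χ : ContDiffBump x := ⟨r / 2, r, half_pos hr, half_lt_self hr⟩
  set f : ℂ → ℝ := fun z => χ z * w z with hf
  have hf2 : ContDiff ℝ 2 f := χ.contDiff.mul hw2
  have hf0 : ∀ z ∉ U, f =ᶠ[𝓝 z] 0 := fun z hz => notMem_tsupport_iff_eventuallyEq.1 fun h =>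
    hz (hrU (χ.tsupport_eq ▸ tsupport_mul_subset_left h))
  have hf1 : ∀ z ∉ U, Gr μ (x - z) * (μ ^ 2 * f z - lap f z) = 0 := fun z hz => by
    rw [lap_cg (hf0 z hz), (hf0 z hz).self_of_nhds]
    simp [lap]
  have hg2 : ContDiff ℝ 2 (w - f) := hw2.sub hf2
  have hfx : f =ᶠ[𝓝 x] w := χ.eventuallyEq_one.mono fun z hz => by simp [hf, hz]
  have hi : ∀ g : ℂ → ℝ, ContDiff ℝ 2 g →
      IntegrableOn (fun z => Gr μ (x - z) * (μ ^ 2 * g z - lap g z)) Ω := fun g hg =>
    ((hG.comp_sub_left x).integrableOn.mul_continuousOn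
      ((continuous_const.mul hg.continuous).sub (lap_cont hg)).continuousOn
      hC.bdd.isCompact_closure).mono_set subset_closure
  have e1 := GRNm.away hL hμ hC hx hg2 (hfx.mono fun z hz => by simp [hz])
  have e2 : ∫ z in Ω, Gr μ (x - z) * (μ ^ 2 * u z - lap u z) =
      (∫ z in Ω, Gr μ (x - z) * (μ ^ 2 * f z - lap f z)) +
        ∫ z in Ω, Gr μ (x - z) * (μ ^ 2 * (w - f) z - lap (w - f) z) := by
    rw [← integral_add (hi f hf2) (hi _ hg2)]
    refine setIntegral_congr_fun hC.opn.measurableSet fun z hz => ?_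
    have h2 := lap_add hf2 hg2 z
    rw [add_sub_cancel] at h2
    simp only [lap_cg (hwu z (subset_closure hz)), (hwu z (subset_closure hz)).self_of_nhds, h2,
      Pi.sub_apply]
    ring
  have e3 : ∫ z in Ω, Gr μ (x - z) * (μ ^ 2 * f z - lap f z) = Ω.indicator u x := by
    rcases hUΩ with rfl | ⟨h2, h3⟩
    · rw [setIntegral_eq_integral_of_forall_compl_eq_zero hf1,
        whole hA hμ hG hm f hf2 χ.hasCompactSupport.mul_right, indicator_of_mem hxU,
        hfx.self_of_nhds, (hwu x (subset_closure hxU)).self_of_nhds]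
    · rw [indicator_of_notMem h2]
      exact setIntegral_eq_zero_of_forall_eq_zero fun z hz => hf1 z (h3.notMem_of_mem_right hz)
  rw [e2, e3, add_assoc]
  refine (add_zero _).symm.trans (congrArg _ (e1.symm.trans (congrArg _ ?_)))
  refine integral_congr_ae (ae_of_all _ fun t => ?_)
  have h2 : w - f =ᶠ[𝓝 (gp Γ t)] u := by
    filter_upwards [hf0 _ (hUf t), hwu (gp Γ t) (hC.mem_cl t)]
      with z h3 h4
    simp [h3, h4]
  simp only [h2.fderiv_eq, h2.self_of_nhds]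

end Pool.Agent.Lib.IS3
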