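import Pool.Agent.Lib.IS3.Kit
import Pool.Agent.Lib.IS2.B_H0

/-! Derivatives of a curve whose curvature carries a tone of frequency `n`. -/

open scoped ContDiff ComplexConjugate Topology Real
open Complex MeasureTheory Set Filter

noncomputable section

namespace Pool.Agent.Lib.IS3

open Pool.Agent.Lib.ISO Pool.Agent.Lib.IS2

namespace H0L

open H0

variable {j : ℝ} {γ : ℝ → ℂ}

theorem tn_iter (M W n : ℕ) (a : ℂ) (k : ℕ) : iteratedDeriv k (tnn M W n a) = fun s : ℝ =>
    2 * amp M W * ((I * (n : ℂ)) ^ k * (a * exp (I * (n : ℂ) * s))).re := by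
  induction k with
  | zero =>
    funext s
    simp [tnn]
  | succ k ih =>
    rw [iteratedDeriv_succ, ih]
    funext s
    have b : HasDerivAt (fun s : ℝ => I * (n : ℂ) * (s : ℂ)) (I * (n : ℂ) * 1) s :=
      ((hasDerivAt_id s).ofReal_comp).const_mul _
    have c := (reCLM.hasFDerivAt.comp_hasDerivAt s
      ((b.cexp.const_mul a).const_mul ((I * (n : ℂ)) ^ k))).const_mul (2 * amp M W)
    refine c.deriv.trans ?_
    rw [reCLM_apply]
    congr 2
    ring

theorem tn_sm (M W n : ℕ) (a : ℂ) : ContDiff ℝ ∞ (tnn M W n a) := by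
  have e : ContDiff ℝ ∞ fun s : ℝ => (s : ℂ) := ofRealCLM.contDiff
  unfold tnn
  exact contDiff_const.mul (reCLM.contDiff.comp (contDiff_const.mul (contDiff_const.mul e).cexp))

theorem tn_top (M W n : ℕ) (a : ℂ) (s : ℝ) : iteratedDeriv (2 * M + 4) (tnn M W n a) s =
    (-1) ^ M * (n : ℝ) ^ (2 * M + 4) * tnn M W n a s := by
  have e : (I * (n : ℂ)) ^ (2 * M + 4) = (((-1) ^ M * (n : ℝ) ^ (2 * M + 4) : ℝ) : ℂ) := by
    rw [mul_pow, pow_add I, pow_mul, I_sq, I_pow_four]
    push_cast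
    ring
  rw [tn_iter]
  simp only [e, re_ofReal_mul, tnn]
  ring

variable {M W n : ℕ}

theorem n_le {l : ℝ} (hW : 1 ≤ W) (hN : Nq j l W n) : (n : ℝ) ≤ (j + 1) * (W : ℝ) ^ 2 := by
  have ho : (1 : ℝ) ≤ (W : ℝ) ^ 2 := one_le_pow₀ (by exact_mod_cast hW)
  have h1 := (abs_le.1 hN.nr).2
  have h2 := mul_le_mul_of_nonneg_right hN.hi (sq_nonneg (W : ℝ))
  linarith

theorem tn_le {K l : ℝ} {a : ℂ} (hj : 1 ≤ j) (hW : 1 ≤ W) (hN : Nq j l W n) (h : ‖a‖ ≤ K)
    {k : ℕ} (hk : k ≤ 2 * M + 4) (s : ℝ) : |iteratedDeriv k (tnn M W n a) s| ≤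
      2 * |K| * (j + 1) ^ (2 * M + 4) * amp M W * ((W : ℝ) ^ 2) ^ k := by
  have ha := amp_nn M W
  have e : ‖exp (I * (n : ℂ) * s)‖ = 1 := by
    rw [show I * (n : ℂ) * s = (((n : ℝ) * s : ℝ) : ℂ) * I by push_cast; ring,
      norm_exp_ofReal_mul_I]
  rw [tn_iter, abs_mul, abs_of_nonneg (by positivity)]
  refine (mul_le_mul_of_nonneg_left (abs_re_le_norm _) (by positivity)).trans ?_
  rw [norm_mul, norm_mul, e, norm_pow, norm_mul, norm_I, norm_natCast, one_mul, mul_one]
  have h1 : (n : ℝ) ^ k ≤ (j + 1) ^ (2 * M + 4) * ((W : ℝ) ^ 2) ^ k :=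
    calc _ ≤ ((j + 1) * (W : ℝ) ^ 2) ^ k := pow_le_pow_left₀ (Nat.cast_nonneg _) (n_le hW hN) k
      _ = (j + 1) ^ k * ((W : ℝ) ^ 2) ^ k := mul_pow _ _ _
      _ ≤ _ := mul_le_mul_of_nonneg_right (pow_le_pow_right₀ (by linarith) hk) (by positivity)
  have h2 := h.trans (le_abs_self K)
  have h3 : 0 ≤ j + 1 := by linarith
  calc _ ≤ 2 * amp M W * ((j + 1) ^ (2 * M + 4) * ((W : ℝ) ^ 2) ^ k * |K|) := by gcongr
    _ = _ := by ring

theorem g_le {K : ℝ} {a : ℂ} (hW : 1 ≤ W) (h : Nc j γ) (hT : Ton1 M K W n a (kp γ)) (l : ℕ) :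
    l ≤ 2 * M + 4 → ∀ s, ‖iteratedDeriv l (deriv γ) s‖ ≤
      (2 ^ (2 * M + 5) * (|K| + 1)) ^ l * lam M W ^ (l - 3) := by
  have hl := one_le_lam (M := M) hW
  set D : ℝ := 2 ^ (2 * M + 5) * (|K| + 1) with hD
  have hD1 : 1 ≤ D := one_le_mul_of_one_le_of_one_le (one_le_pow₀ one_le_two)
    (by linarith [abs_nonneg K])
  induction l using Nat.strong_induction_on with
  | _ l ih =>
    intro hle s
    rcases l with _ | l
    · simp [h.unit]
    have key : ∀ k ≤ l, |iteratedDeriv k (kp γ) s| * ‖iteratedDeriv (l - k) (deriv γ) s‖ ≤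
        |K| * D ^ l * lam M W ^ (l + 1 - 3) := fun k hk => by
      have a1 := (hT.sup k (by omega) s).trans
        (mul_le_mul_of_nonneg_right (le_abs_self K) (by positivity))
      have a2 := ih (l - k) (by omega) (by omega) s
      have a3 : D ^ (l - k) ≤ D ^ l := pow_le_pow_right₀ hD1 (by omega)
      have a4 : lam M W ^ (k - 2) * lam M W ^ (l - k - 3) ≤ lam M W ^ (l + 1 - 3) := by
        rw [← pow_add]
        exact pow_le_pow_right₀ hl (by omega)
      calc _ ≤ |K| * lam M W ^ (k - 2) * (D ^ (l - k) * lam M W ^ (l - k - 3)) := by gcongr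
        _ = |K| * D ^ (l - k) * (lam M W ^ (k - 2) * lam M W ^ (l - k - 3)) := by ring
        _ ≤ _ := by gcongr
    have e : deriv (deriv γ) = fun s => I * (kp γ s * deriv γ s) := funext (frenet h)
    rw [iteratedDeriv_succ', e, iteratedDeriv_const_mul_field, norm_mul, norm_I, one_mul]
    have b1 := leib (smk h) (sm1 h) l s _ (by positivity) fun k hk => key k hk.le
    have b2 := key l le_rfl
    rw [Nat.sub_self, iteratedDeriv_zero, ← Real.norm_eq_abs, ← norm_real, ← norm_mul] at b2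
    have b3 := (norm_le_norm_sub_add _ _).trans (add_le_add b1 b2)
    refine b3.trans ?_
    have b4 : (2 : ℝ) ^ l + 1 ≤ 2 ^ (2 * M + 5) := by
      have : (2 : ℝ) ^ l ≤ 2 ^ (2 * M + 4) := pow_le_pow_right₀ one_le_two (by omega)
      have : (1 : ℝ) ≤ 2 ^ (2 * M + 4) := one_le_pow₀ one_le_two
      rw [pow_succ _ (2 * M + 4)]
      linarith
    calc _ = (2 ^ l + 1) * |K| * (D ^ l * lam M W ^ (l + 1 - 3)) := by ring
      _ ≤ D * (D ^ l * lam M W ^ (l + 1 - 3)) := by
        rw [hD]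
        gcongr
        linarith
      _ = _ := by ring

end H0L

open H0 in
theorem st_h0l : St_H0L := by
  intro j K M hM
  set D : ℝ := 2 ^ (2 * M + 5) * (|K| + 1) with hD
  have hD1 : 1 ≤ D := one_le_mul_of_one_le_of_one_le (one_le_pow₀ one_le_two)
    (by linarith [abs_nonneg K])
  set E := D ^ (2 * M + 4) with hE
  have hE1 : 1 ≤ E := one_le_pow₀ hD1
  set T : ℝ := 2 * |K| * (j + 1) ^ (2 * M + 4) with hT0
  set A := 2 ^ (2 * M + 4) * ((|K| + T) * E) + T with hA
  refine ⟨E + 2 * |K| + 16 * A ^ 2, fun W n l γ a hW h hN hT => ?_⟩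
  have hj := h.one_le
  have hTn : 0 ≤ T := by
    have : 0 ≤ j + 1 := by linarith
    positivity
  have hl := one_le_lam (M := M) hW
  have hW1 : (1 : ℝ) ≤ W := by exact_mod_cast hW
  have ho : (1 : ℝ) ≤ (W : ℝ) ^ 2 := one_le_pow₀ hW1
  have hX : 0 ≤ XX M W := by
    rw [← lam_pow hW]
    positivity
  have hg : ∀ l ≤ 2 * M + 4, ∀ s, ‖iteratedDeriv l (deriv γ) s‖ ≤ E * lam M W ^ (l - 3) :=
    fun l hl' s => (H0L.g_le hW h hT l hl' s).trans
      (mul_le_mul_of_nonneg_right (pow_le_pow_right₀ hD1 hl') (by positivity))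
  have k1 : ∀ s, ∀ k < 2 * M + 4, |iteratedDeriv k (kp γ) s| *
      ‖iteratedDeriv (2 * M + 4 - k) (deriv γ) s‖ ≤ |K| * E * (XX M W / (W : ℝ) ^ 2) := by
    intro s k hk
    have a1 := (hT.sup k (by omega) s).trans
      (mul_le_mul_of_nonneg_right (le_abs_self K) (by positivity))
    have a2 := hg (2 * M + 4 - k) (by omega) s
    have a4 : lam M W ^ (k - 2) * lam M W ^ (2 * M + 4 - k - 3) ≤ XX M W / (W : ℝ) ^ 2 := by
      rw [← pow_add, ← lam_pow hW, mul_div_cancel_right₀ _ (by positivity)]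
      exact pow_le_pow_right₀ hl (by omega)
    calc _ ≤ |K| * lam M W ^ (k - 2) * (E * lam M W ^ (2 * M + 4 - k - 3)) := by gcongr
      _ = |K| * E * (lam M W ^ (k - 2) * lam M W ^ (2 * M + 4 - k - 3)) := by ring
      _ ≤ _ := by gcongr
  have k2 : ∀ s, ∀ k < 2 * M + 4, |iteratedDeriv k (tnn M W n a) s| *
      ‖iteratedDeriv (2 * M + 4 - k) (deriv γ) s‖ ≤ T * E * (XX M W / (W : ℝ) ^ 2) := by
    intro s k hk
    have a1 := H0L.tn_le (M := M) hj hW hN hT.b0 hk.le s
    have a2 := hg (2 * M + 4 - k) (by omega) s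
    have ha := amp_nn M W
    have a4 : ((W : ℝ) ^ 2) ^ k * lam M W ^ (2 * M + 4 - k - 3) ≤ ((W : ℝ) ^ 2) ^ (2 * M + 3) :=
      calc _ ≤ ((W : ℝ) ^ 2) ^ k * ((W : ℝ) ^ 2) ^ (2 * M + 4 - k - 3) := by
            gcongr
            exact lam_le hM hW
        _ ≤ _ := by
            rw [← pow_add]
            exact pow_le_pow_right₀ ho (by omega)
    calc _ ≤ T * amp M W * ((W : ℝ) ^ 2) ^ k * (E * lam M W ^ (2 * M + 4 - k - 3)) := by gcongr
      _ = T * E * (amp M W * (((W : ℝ) ^ 2) ^ k * lam M W ^ (2 * M + 4 - k - 3))) := by ring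
      _ ≤ T * E * (amp M W * ((W : ℝ) ^ 2) ^ (2 * M + 3)) := by gcongr
      _ = _ := by
        rw [XX, pow_succ _ (2 * M + 3)]
        field_simp
  have hu : Continuous fun s => iteratedDeriv (2 * M + 4) (kp γ) s -
      (-1) ^ M * (n : ℝ) ^ (2 * M + 4) * tnn M W n a s :=
    ((smk h).continuous_iteratedDeriv _ (le_inf _)).sub
      (continuous_const.mul (H0L.tn_sm M W n a).continuous)
  have hK : K * XX M W ^ 2 / W ≤ |K| * (XX M W ^ 2 / W) := by
    rw [mul_div_assoc]
    exact mul_le_mul_of_nonneg_right (le_abs_self K) (by positivity)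
  have hXW : XX M W / (W : ℝ) ^ 2 ≤ XX M W := div_le_self hX ho
  refine ⟨fun l hl' s => ?_, ?_, ?_⟩
  · rw [iteratedDeriv_succ']
    refine (hg l hl' s).trans (mul_le_mul_of_nonneg_right ?_ (by positivity))
    nlinarith [abs_nonneg K, sq_nonneg A]
  · refine (int_le (A := A * XX M W) (h.smooth.continuous_iteratedDeriv _ (le_inf _)) hu
      (fun s => ?_) (hT.l2.trans hK)).trans ?_
    · have e : deriv (deriv γ) = fun s => I * (kp γ s * deriv γ s) := funext (frenet h)
      rw [iteratedDeriv_succ', iteratedDeriv_succ', e, iteratedDeriv_const_mul_field, norm_mul,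
        norm_I, one_mul]
      have b1 := leib (smk h) (sm1 h) _ s _ (by positivity) (k1 s)
      have b2 := H0L.tn_le (M := M) hj hW hN hT.b0 le_rfl s
      rw [H0L.tn_top, ← hT0, mul_assoc T, ← XX] at b2
      refine (norm_le_norm_sub_add _ _).trans ((add_le_add b1 le_rfl).trans ?_)
      rw [norm_mul, h.unit, mul_one, norm_real, Real.norm_eq_abs]
      have b3 := abs_sub_abs_le_abs_sub (iteratedDeriv (2 * M + 4) (kp γ) s)
        ((-1) ^ M * (n : ℝ) ^ (2 * M + 4) * tnn M W n a s)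
      have b4 : 2 ^ (2 * M + 4) * (|K| * E * (XX M W / (W : ℝ) ^ 2)) ≤
          2 ^ (2 * M + 4) * ((|K| + T) * E * XX M W) := by
        gcongr
        linarith
      rw [hA]
      linarith
    · have : XX M W ^ 2 / W ≤ XX M W ^ 2 := div_le_self (by positivity) hW1
      nlinarith [abs_nonneg K, sq_nonneg (XX M W), mul_le_mul_of_nonneg_left this (abs_nonneg K)]
  · have hs : ContDiff ℝ ∞ fun s => kp γ s - tnn M W n a s := (smk h).sub (H0L.tn_sm M W n a)
    have hsub : ∀ k s, iteratedDeriv k (fun s => kp γ s - tnn M W n a s) s =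
        iteratedDeriv k (kp γ) s - iteratedDeriv k (tnn M W n a) s := fun k s =>
      iteratedDeriv_fun_sub ((smk h).of_le (le_inf _)).contDiffAt
        ((H0L.tn_sm M W n a).of_le (le_inf _)).contDiffAt
    refine (int_le (A := A * (XX M W / (W : ℝ) ^ 2))
      (((ofRealCLM.contDiff.comp hs).mul (sm1 h)).continuous_iteratedDeriv _ (le_inf _)) hu
      (fun s => ?_) (hT.l2.trans hK)).trans ?_
    · have b1 := leib hs (sm1 h) (2 * M + 4) s ((|K| + T) * E * (XX M W / (W : ℝ) ^ 2))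
        (by positivity) fun k hk => by
          rw [hsub]
          have := mul_le_mul_of_nonneg_right (abs_sub (iteratedDeriv k (kp γ) s)
            (iteratedDeriv k (tnn M W n a) s))
            (norm_nonneg (iteratedDeriv (2 * M + 4 - k) (deriv γ) s))
          linarith [k1 s k hk, k2 s k hk]
      refine (norm_le_norm_sub_add _ _).trans ((add_le_add b1 le_rfl).trans ?_)
      rw [norm_mul, h.unit, mul_one, norm_real, Real.norm_eq_abs, hsub, H0L.tn_top, hA]
      have : 0 ≤ T * (XX M W / (W : ℝ) ^ 2) := by positivity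
      linarith
    · have a1 : (XX M W / (W : ℝ) ^ 2) ^ 2 ≤ XX M W ^ 2 / W := by
        rw [div_pow]
        refine div_le_div_of_nonneg_left (by positivity) (by positivity) ?_
        rw [← pow_mul]
        exact le_self_pow₀ hW1 (by norm_num)
      have a2 : 0 ≤ XX M W ^ 2 / W := by positivity
      rw [mul_div_assoc, mul_pow]
      nlinarith [mul_le_mul_of_nonneg_left a1 (sq_nonneg A)]

end Pool.Agent.Lib.IS3
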