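import Pool.Agent.Lib.IS3.Kit
import Pool.Agent.Lib.IS2.B_H1

/-! The low pass of a scaled curve with a tone. -/

open scoped ContDiff ComplexConjugate Topology Real
open Complex MeasureTheory Set Filter

noncomputable section

namespace Pool.Agent.Lib.IS3

open Pool.Agent.Lib.ISO Pool.Agent.Lib.IS2

open H1 in
theorem st_h1l (h0 : St_H0L) : St_H1L := by
  intro j
  refine ⟨2 * (j + 1), fun K M q hM hq => ?_⟩
  obtain ⟨C, hC⟩ := h0 j K M (by omega)
  set A := |C| + 1 with hA
  have hA1 : 1 ≤ A := by linarith [abs_nonneg C]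
  refine ⟨12 * A, max (400 * j) (24 * A), fun h hh W n l γ a0 hW hγ hN hT => ?_⟩
  have hj := hγ.one_le
  have h400 : 400 * j ≤ h := (le_max_left _ _).trans hh
  have h24 : 24 * A ≤ h := (le_max_right _ _).trans hh
  have h1 : 1 ≤ h := by linarith
  have ho := le_om (q := q) (by omega) h1
  have ho1 : 1 ≤ om q h := h1.trans ho
  have ha := H0.amp_nn M W
  obtain ⟨-, c2, -⟩ := hC W n l γ a0 (one_le_W h1 hW) hγ hN hT
  have hX : XX M W = amp M W * om q h ^ (2 * M + 4) := by rw [XX, hW]
  have hz : ∀ k ≤ 2, ∀ s, ‖Zc (Xi q h) (iteratedDeriv k γ) s‖ ≤ 4 * A * amp M W * om q h ^ 2 := by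
    intro k hk s
    refine (z_le hγ.smooth hγ.per (Xi q h) (2 * M + 2) (A := A * XX M W) (by rw [hX]; positivity)
      (c2.trans ?_) hk s).trans ?_
    · rw [mul_pow]
      exact mul_le_mul_of_nonneg_right (by nlinarith [le_abs_self C, abs_nonneg C]) (sq_nonneg _)
    · have a1 : (h ^ 2) ^ (2 * M + 3) ≤ om q h := by
        rw [← pow_mul]
        exact pow_le_pow_right₀ h1 (by omega)
      calc _ ≤ 4 * (A * XX M W) / (om q h / h ^ 2) ^ (2 * M + 2 + 1) := by
            rw [hX]
            gcongr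
            exact lt_xi.le
        _ = 4 * A * amp M W * (om q h * (h ^ 2) ^ (2 * M + 3)) := by
            rw [hX, div_pow]
            field_simp
            ring
        _ ≤ 4 * A * amp M W * (om q h * om q h) := by gcongr
        _ = _ := by ring
  have hδ : 4 * A * amp M W * om q h ^ 2 ≤ (6 * om q h)⁻¹ := by
    rw [amp_eq hW, ← one_div (6 * _), le_div_iff₀ (by positivity)]
    have a1 : om q h ^ 4 ≤ om q h ^ M := pow_le_pow_right₀ ho1 (by omega)
    calc _ = 24 * A * om q h ^ 3 / om q h ^ M := by ring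
      _ ≤ om q h * om q h ^ 3 / om q h ^ 4 := by gcongr; linarith
      _ = 1 := by field_simp
  have hδ' : (6 * om q h)⁻¹ ≤ 1 / 6 := by
    rw [← one_div]
    gcongr
    linarith
  have hE : ∀ v : ℂ, |v.im| ≤ 100 * j * h / om q h → Real.exp (Xi q h * |v.im|) ≤ 4 / 3 := by
    intro v hv
    have a1 : (Xi q h : ℝ) * |v.im| ≤ 1 / 4 :=
      calc _ ≤ om q h / h ^ 2 * (100 * j * h / om q h) := by
            gcongr
            exact xi_le h1
        _ = 100 * j / h := by field_simp
        _ ≤ 1 / 4 := by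
            rw [div_le_div_iff₀ (by linarith) (by norm_num)]
            linarith
    refine (Real.exp_le_exp.2 a1).trans ?_
    exact (Real.exp_bound_div_one_sub_of_interval (by norm_num) (by norm_num)).trans (by norm_num)
  have z0 := hz 0 (by norm_num)
  have z1 := hz 1 (by norm_num)
  have z2 := hz 2 le_rfl
  rw [iteratedDeriv_zero] at z0
  rw [iteratedDeriv_one] at z1
  rw [iteratedDeriv_succ, iteratedDeriv_one] at z2
  have p1 := per_deriv' hγ.per
  have d1 := lo_deriv hγ.smooth hγ.per (Xi q h)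
  have d2 := lo_deriv hγ.s1 p1 (Xi q h)
  refine ⟨⟨fun v => (lo_hd hγ.smooth hγ.per _ v).differentiableAt, lo_per _ _, fun v hv => ?_,
    fun v hv => ?_, fun v hv => ?_⟩, rs_mem _ _, Zc_sm hγ.smooth _, Zc_per hγ.per _, ?_, ?_⟩
  · rw [d1]
    refine (lo_le (fun s => (hγ.unit s).le) (fun s => (z1 s).trans (hδ.trans hδ')) v).trans ?_
    linarith [hE v hv]
  · rw [d1, d2]
    refine (lo_le hγ.b2 (fun s => (z2 s).trans (hδ.trans hδ')) v).trans ?_
    nlinarith [hE v hv]
  · rw [d1]
    refine (strip (fun ε hε => (tp1 _ _ hε).mul_sub (tp2 _ _ hε)) (A := 3 * (6 * om q h)⁻¹)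
      (fun s => ?_) v).trans ?_
    · have a1 := (z1 s).trans hδ
      have e : (lo (Xi q h) (deriv γ) s).1 = deriv γ s - Zc (Xi q h) (deriv γ) s := by simp [Zc]
      simp only [lo_two, e, map_sub]
      generalize Zc (Xi q h) (deriv γ) s = z at a1
      rw [show (deriv γ s - z) * (conj (deriv γ s) - conj z) - 1 =
        z * conj z - (deriv γ s * conj z + z * conj (deriv γ s)) by
          linear_combination H0.mul_cj hγ s]
      refine (norm_sub_le _ _).trans ((add_le_add le_rfl (norm_add_le _ _)).trans ?_)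
      simp only [norm_mul, RCLike.norm_conj, hγ.unit]
      nlinarith [norm_nonneg z]
    · have a1 : Real.exp ((2 * Xi q h : ℕ) * |v.im|) ≤ 2 := by
        rw [Nat.cast_mul, mul_assoc, Real.exp_nat_mul]
        nlinarith [hE v hv, Real.exp_pos (Xi q h * |v.im|)]
      calc _ ≤ 3 * (6 * om q h)⁻¹ * 2 := by gcongr
        _ = _ := by field_simp; norm_num
  · funext s
    refine Prod.ext ?_ ?_
    · simp [cp, rs, Zc]
    · simp [cp, rs, Zc, lo_two]
  · refine nm_le fun s => ?_
    have s0 := Zc_sm hγ.smooth (Xi q h)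
    have s1 := Zc_sm hγ.s1 (Xi q h)
    rw [deriv_cp (s0.differentiable (by simp)), Zc_deriv hγ.smooth hγ.per,
      deriv_cp (s1.differentiable (by simp)), Zc_deriv hγ.s1 p1]
    simp only [norm_cp]
    linarith [z0 s, z1 s, z2 s]

end Pool.Agent.Lib.IS3
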