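import Pool.Agent.Lib.IS3.Kit
import Pool.Agent.Lib.IS2.B_H2

/-! The normal part of the high pass is the tone, for a scaled curve. -/

open scoped ContDiff ComplexConjugate Topology Real
open Complex MeasureTheory Set Filter

noncomputable section

namespace Pool.Agent.Lib.IS3

open Pool.Agent.Lib.ISO Pool.Agent.Lib.IS2

namespace H2L

theorem tnn_eq (M W n : ℕ) (a : ℂ) (s : ℝ) : (tnn M W n a s : ℂ) =
    amp M W * a * exp (I * (n : ℤ) * s) + amp M W * conj a * exp (I * (-(n : ℤ) : ℤ) * s) := by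
  have := add_conj (a * exp (I * (n : ℂ) * s))
  rw [map_mul, ← exp_conj] at this
  simp only [map_mul, conj_I, conj_natCast, conj_ofReal] at this
  simp only [tnn]
  push_cast at this ⊢
  rw [show I * -(n : ℂ) * s = -I * (n : ℂ) * s by ring]
  linear_combination (-amp M W : ℂ) * this

theorem tnn_sm (M W n : ℕ) (a : ℂ) : ContDiff ℝ ∞ (tnn M W n a) := by
  have e : ContDiff ℝ ∞ fun s : ℝ => (s : ℂ) := ofRealCLM.contDiff
  unfold tnn
  exact contDiff_const.mul (reCLM.contDiff.comp (contDiff_const.mul (contDiff_const.mul e).cexp))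

theorem one_add (x : ℝ) : |x| + 1 ≤ 2 * ‖I * x + 1‖ := by
  have a := abs_im_le_norm (I * x + 1)
  have b := re_le_norm (I * x + 1)
  simp at a b
  linarith

end H2L

open H1 H2 H2L in
theorem st_h2l (h0 : St_H0L) : St_H2L := by
  intro j K M q hM hq
  obtain ⟨C, hC⟩ := h0 j K M (by omega)
  refine ⟨j ^ 2 * (3 * |C| + 192 * j ^ 2 * (4 * K * j ^ 7) ^ 2), 2 * j,
    fun h hh W n l γ a0 hW hγ hq hT => ?_⟩
  have hj := hγ.one_le
  have hK := (norm_nonneg _).trans hT.b0
  have hl : 0 < l := lt_of_lt_of_le (by positivity) hq.lo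
  have h1 : 1 ≤ h := by linarith
  have ho1 : 1 ≤ om q h := one_le_pow₀ h1
  have ha := H0.amp_nn M W
  have hW1 := one_le_W h1 hW
  have hW2 : (1 : ℝ) ≤ W := by exact_mod_cast hW1
  obtain ⟨-, -, c3⟩ := hC W n l γ a0 hW1 hγ hq hT
  have p1 := per_deriv' hγ.per
  have sZ := Zc_sm hγ.smooth (Xi q h)
  have sρ : ContDiff ℝ ∞ (rho q h γ) :=
    reCLM.contDiff.comp (sZ.mul (conjCLE.contDiff.comp (contDiff_const.mul hγ.s1)))
  refine ⟨⟨sρ, fun s => by simp only [rho, nr, Zc_per hγ.per _ s, p1 s]⟩, ?_⟩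
  set o := om q h with ho
  set N := Xi q h with hN
  set t := tnn M W n a0 with ht
  set m := l * o with hm
  have m0 : 0 < m := by positivity
  have m1 : o ≤ j * m := by
    have := mul_le_mul_of_nonneg_left hq.lo (show 0 ≤ j * o by positivity)
    rwa [mul_right_comm, mul_inv_cancel₀ (by positivity), one_mul, mul_assoc, mul_comm o] at this
  have m2 : m ≤ j * o := mul_le_mul_of_nonneg_right hq.hi (by positivity)
  have m3 : |m - n| ≤ 1 := by rw [abs_sub_comm, hm, ← hW]; exact hq.nr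
  have st : ContDiff ℝ ∞ t := tnn_sm M W n a0
  have pt : ∀ s, (t (s + 2 * π) : ℂ) = t s := fun s => by
    simp only [ht, tnn_eq, ofReal_add, ofReal_mul, ofReal_ofNat, mul_add, exp_add, ex_two_pi,
      mul_one]
  set u : ℝ → ℂ := fun s => ((kp γ s - t s : ℝ) : ℂ) * deriv γ s with hu
  set v : ℝ → ℂ := fun s => (t s : ℂ) * deriv γ s with hv
  have su : ContDiff ℝ ∞ u := (ofRealCLM.contDiff.comp ((H0.smk hγ).sub st)).mul hγ.s1
  have sv : ContDiff ℝ ∞ v := (ofRealCLM.contDiff.comp st).mul hγ.s1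
  have pu : Function.Periodic u (2 * π) := fun s => by
    simp only [hu, kp, ofReal_sub, pt, p1 s, per_deriv' p1 s]
  set R : ℝ → ℂ := fun s => Zc N γ s + I / m ^ 2 * v s with hR
  have cR : Continuous R := sZ.continuous.add (continuous_const.mul sv.continuous)
  have s2 := H0.sm2 hγ
  have e1 : ∀ η : ℤ, (η : ℂ) ^ 2 * fcc γ η = -I * (fcc u η + fcc v η) := fun η => by
    have a1 : deriv (deriv γ) = fun s => I * (u s + v s) := funext fun s => by
      rw [H0.frenet hγ]
      simp only [hu, hv]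
      push_cast
      ring
    have a2 := fcc_deriv hγ.s1 p1 η
    rw [fcc_deriv hγ.smooth hγ.per, a1, fcc_mul, fcc_add su.continuous sv.continuous] at a2
    linear_combination a2 + (η : ℂ) ^ 2 * fcc γ η * I_sq
  set E : ℤ → ℝ → ℂ := fun k s => exp (I * k * s) * (deriv (deriv γ) s + deriv γ s)
    with hE
  have cE : ∀ k, Continuous (E k) := fun k => Continuous.mul (by fun_prop)
    (s2.continuous.add hγ.s1.continuous)
  have e2 : ∀ k η : ℤ, (|(η : ℝ) - k| + 1) * ‖fcc (deriv γ) (η - k)‖ ≤ 2 * ‖fcc (E k) η‖ :=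
    fun k η => by
      rw [hE, fcc_shift, fcc_add s2.continuous hγ.s1.continuous, fcc_deriv hγ.s1 p1, ← add_one_mul,
        norm_mul, ← mul_assoc]
      refine mul_le_mul_of_nonneg_right ((one_add _).trans_eq ?_) (norm_nonneg _)
      push_cast
      rfl
  have e3 : ∀ η : ℤ, ‖fcc v η‖ ≤ amp M W * K * (‖fcc (deriv γ) (η - (n : ℤ))‖ +
      ‖fcc (deriv γ) (η - -(n : ℤ))‖) := fun η => by
    have a1 : v = fun s : ℝ => amp M W * a0 * (exp (I * (n : ℤ) * s) * deriv γ s) +
        amp M W * conj a0 * (exp (I * (-(n : ℤ) : ℤ) * s) * deriv γ s) := funext fun s => by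
      simp only [hv, ht, tnn_eq]
      ring
    have := hγ.s1.continuous
    rw [a1, fcc_add (by fun_prop) (by fun_prop), fcc_mul, fcc_mul, fcc_shift, fcc_shift]
    refine (norm_add_le _ _).trans ?_
    simp only [norm_mul, RCLike.norm_conj, norm_real, Real.norm_of_nonneg ha]
    have b := hT.b0
    rw [mul_add]
    gcongr
  set c1 := (h ^ 2 / o) ^ (2 * M + 6) with hc1
  set c0 := 2 * j ^ 7 * h ^ 4 / o ^ 3 with hc0
  set c2 := amp M W * K * (2 * c0) with hc2
  have e4 : ∀ (η : ℤ) (μ : ℝ), (∀ σ : ℝ, |σ| = m → |μ| ≤ 2 * (j * h) ^ 4 / m ^ 3 * |η - σ|) →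
      |μ| * ‖fcc v η‖ ≤ c2 * ‖fcc (E n) η‖ + c2 * ‖fcc (E (-(n : ℤ))) η‖ := by
    intro η μ hμ
    have a0 : 2 * (j * h) ^ 4 / m ^ 3 ≤ c0 := by
      rw [hc0, div_le_div_iff₀ (by positivity) (by positivity)]
      calc _ ≤ 2 * (j * h) ^ 4 * (j * m) ^ 3 := by gcongr
        _ = _ := by ring
    have a : ∀ (σ : ℝ) (k : ℤ), |σ| = m → |σ - k| ≤ 1 →
        |μ| * ‖fcc (deriv γ) (η - k)‖ ≤ 2 * c0 * ‖fcc (E k) η‖ := fun σ k hσ hk => by
      have b : |η - σ| ≤ |(η : ℝ) - k| + 1 := by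
        have := abs_sub_le (η : ℝ) k σ
        rw [abs_sub_comm (k : ℝ)] at this
        linarith
      calc _ ≤ c0 * (|(η : ℝ) - k| + 1) * ‖fcc (deriv γ) (η - k)‖ := by
            gcongr
            exact (hμ σ hσ).trans (by gcongr)
        _ ≤ c0 * (2 * ‖fcc (E k) η‖) := by
            rw [mul_assoc]
            exact mul_le_mul_of_nonneg_left (e2 k η) (by positivity)
        _ = _ := by ring
    have a1 := a m n (abs_of_pos m0) (by exact_mod_cast m3)
    have a2 := a (-m) (-n) (by rw [abs_neg, abs_of_pos m0])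
      (by push_cast; rwa [neg_sub_neg, abs_sub_comm])
    calc _ ≤ |μ| * (amp M W * K * (‖fcc (deriv γ) (η - (n : ℤ))‖ +
          ‖fcc (deriv γ) (η - -(n : ℤ))‖)) := by gcongr; exact e3 η
      _ = amp M W * K * (|μ| * ‖fcc (deriv γ) (η - (n : ℤ))‖ +
          |μ| * ‖fcc (deriv γ) (η - -(n : ℤ))‖) := by ring
      _ ≤ amp M W * K * (2 * c0 * ‖fcc (E n) η‖ + 2 * c0 * ‖fcc (E (-(n : ℤ))) η‖) := by gcongr
      _ = _ := by rw [hc2]; ring
  have e5 : ∀ η : ℤ, ‖fcc R η‖ ≤ c1 * ‖fcc (iteratedDeriv (2 * M + 4) u) η‖ +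
      c2 * ‖fcc (E n) η‖ + c2 * ‖fcc (E (-(n : ℤ))) η‖ := fun η => by
    rw [hR, fcc_add (g := fun s => I / m ^ 2 * v s) sZ.continuous
      (continuous_const.mul sv.continuous), fcc_mul, fcc_Zc hγ.smooth.continuous, add_assoc]
    split_ifs with hη
    · have a1 : |(η : ℝ)| ≤ o / h ^ 2 := le_trans (by exact_mod_cast hη) (xi_le h1)
      have a2 : |(η : ℝ)| ≤ m / 2 ^ 2 := a1.trans (by
        rw [div_le_div_iff₀ (by positivity) (by positivity)]
        calc _ ≤ j * m * 2 ^ 2 := by gcongr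
          _ = m * (2 * j * 2) := by ring
          _ ≤ m * (h * h) := by gcongr; linarith
          _ = _ := by ring)
      refine le_trans ?_ ((e4 η _ fun σ hσ => (mult_near m0 le_rfl hσ a2).trans
        (by gcongr; nlinarith)).trans (le_add_of_nonneg_left (by positivity)))
      simp
    · have a0 : (N : ℝ) + 1 ≤ |(η : ℝ)| := by exact_mod_cast not_le.1 hη
      have a1 : o / h ^ 2 ≤ |(η : ℝ)| := lt_xi.le.trans a0
      have a2 : 0 < |(η : ℝ)| := lt_of_lt_of_le (by positivity) a1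
      have a3 : (η : ℂ) ≠ 0 := by exact_mod_cast abs_pos.1 a2
      have a4 : fcc γ η + I / m ^ 2 * fcc v η = -I * (fcc u η / (η : ℂ) ^ 2) +
          I * (((1 / m ^ 2 - 1 / (η : ℝ) ^ 2 : ℝ) : ℂ) * fcc v η) := by
        have := eq_div_of_mul_eq (pow_ne_zero 2 a3) ((mul_comm _ _).trans (e1 η))
        rw [this]
        push_cast
        ring
      rw [a4]
      refine (norm_add_le _ _).trans (add_le_add ?_ ?_)
      · rw [norm_iter su pu, norm_mul, norm_neg, norm_I, one_mul, norm_div, norm_pow, norm_intCast,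
          div_le_iff₀ (by positivity)]
        have a5 : 1 ≤ h ^ 2 / o * |(η : ℝ)| := by
          rw [div_le_iff₀ (by positivity)] at a1
          rw [div_mul_eq_mul_div, le_div_iff₀ (by positivity)]
          linarith
        calc _ ≤ (h ^ 2 / o * |(η : ℝ)|) ^ (2 * M + 6) * ‖fcc u η‖ :=
              le_mul_of_one_le_left (norm_nonneg _) (one_le_pow₀ a5)
          _ = _ := by rw [hc1, mul_pow]; ring
      · rw [norm_mul, norm_I, one_mul, norm_mul, norm_real, Real.norm_eq_abs]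
        refine e4 η _ fun σ hσ => mult_far m0 (by nlinarith) hσ (le_trans ?_ a1)
        rw [div_le_div_iff₀ (by positivity) (by positivity)]
        calc _ ≤ j * o * h ^ 2 := by gcongr
          _ = o * (j * 1 * h ^ 2) := by ring
          _ ≤ o * (j * j * h ^ 2) := by gcongr
          _ = _ := by ring
  have iE : ∀ k, ∫ s in (0 : ℝ)..(2 * π), ‖E k s‖ ^ 2 ≤ 32 * j ^ 2 := fun k => by
    refine (intervalIntegral.integral_mono_on (g := fun _ => (2 * j) ^ 2) Real.two_pi_pos.le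
      (((cE k).norm.pow 2).intervalIntegrable _ _) (by simp) fun s _ => ?_).trans ?_
    · simp only [hE, norm_mul, norm_ex, one_mul]
      exact pow_le_pow_left₀ (norm_nonneg _)
        ((norm_add_le _ _).trans (by linarith [hγ.b2 s, hγ.unit s])) 2
    · simp only [intervalIntegral.integral_const, sub_zero, smul_eq_mul]
      nlinarith [Real.pi_le_four, sq_nonneg j]
  have key := hasSum_le (fun η => (three _ _ _ _ (norm_nonneg _) (e5 η)).trans_eq (by ring))
    (parseval cR) ((((parseval (sm_iter su (2 * M + 4)).continuous).mul_left (3 * c1 ^ 2)).add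
      ((parseval (cE n)).mul_left (3 * c2 ^ 2))).add
      ((parseval (cE (-(n : ℤ)))).mul_left (3 * c2 ^ 2)))
  simp only [mul_left_comm _ (2 * π)⁻¹, ← mul_add] at key
  replace key := le_of_mul_le_mul_left key (by positivity)
  have b1 : ∫ s in (0 : ℝ)..(2 * π), (l * rho q h γ s + t s / (l * o ^ 2)) ^ 2 ≤
      j ^ 2 * ∫ s in (0 : ℝ)..(2 * π), ‖R s‖ ^ 2 := by
    rw [← intervalIntegral.integral_const_mul]
    refine intervalIntegral.integral_mono_on Real.two_pi_pos.le
      ((((continuous_const.mul sρ.continuous).add (st.continuous.div_const _)).pow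
        2).intervalIntegrable _ _)
      ((continuous_const.mul (cR.norm.pow 2)).intervalIntegrable _ _) fun s _ => ?_
    have a1 : R s * conj (nr γ s) = Zc N γ s * conj (nr γ s) + (t s / m ^ 2 : ℝ) := by
      simp only [hR, hv, nr, map_mul, conj_I]
      push_cast
      linear_combination (t s / m ^ 2 : ℂ) * H0.mul_cj hγ s -
        (t s / m ^ 2 * (deriv γ s * conj (deriv γ s)) : ℂ) * I_sq
    have a2 : l * rho q h γ s + t s / (l * o ^ 2) = l * (R s * conj (nr γ s)).re := by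
      rw [a1, add_re, ofReal_re, mul_add, hm]
      congr 1
      field_simp
    rw [a2, ← sq_abs, ← mul_pow, abs_mul, abs_of_pos hl]
    refine pow_le_pow_left₀ (by positivity) (mul_le_mul hq.hi ((abs_re_le_norm _).trans_eq ?_)
      (abs_nonneg _) (by positivity)) 2
    simp [nr, hγ.unit]
  have b2 : c1 ^ 2 * (XX M W ^ 2 / W) = amp M W ^ 2 / o ^ 4 * (h ^ (8 * M + 24) / W) := by
    rw [hc1, XX, hW, div_pow]
    field_simp
    ring
  have b3 : c2 ^ 2 ≤ (4 * K * j ^ 7) ^ 2 * (amp M W ^ 2 / o ^ 4 * (h ^ (8 * M + 24) / W)) := by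
    have a1 : h ^ 8 / o ^ 2 ≤ h ^ (8 * M + 24) / W := by
      have : (W : ℝ) ≤ o ^ 2 := by nlinarith
      gcongr
      omega
    calc _ = (4 * K * j ^ 7) ^ 2 * (amp M W ^ 2 / o ^ 4 * (h ^ 8 / o ^ 2)) := by
          rw [hc2, hc0]; field_simp; ring
      _ ≤ _ := by gcongr
  have b4 : C * XX M W ^ 2 / W ≤ |C| * (XX M W ^ 2 / W) := by
    rw [mul_div_assoc]
    exact mul_le_mul_of_nonneg_right (le_abs_self C) (by positivity)
  rw [mul_assoc, mul_assoc]
  refine b1.trans (mul_le_mul_of_nonneg_left ?_ (by positivity))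
  calc _ ≤ 3 * c1 ^ 2 * (|C| * (XX M W ^ 2 / W)) + 3 * c2 ^ 2 * (32 * j ^ 2) +
        3 * c2 ^ 2 * (32 * j ^ 2) := by
        refine key.trans ?_
        gcongr
        · exact c3.trans b4
        · exact iE _
        · exact iE _
    _ = 3 * |C| * (c1 ^ 2 * (XX M W ^ 2 / W)) + 192 * j ^ 2 * c2 ^ 2 := by ring
    _ ≤ 3 * |C| * (c1 ^ 2 * (XX M W ^ 2 / W)) + 192 * j ^ 2 *
        ((4 * K * j ^ 7) ^ 2 * (amp M W ^ 2 / o ^ 4 * (h ^ (8 * M + 24) / W))) := by gcongr
    _ = _ := by rw [b2]; ring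

end Pool.Agent.Lib.IS3
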