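import Pool.Agent.Lib.IS3.Kit
import Pool.Agent.Lib.IS2.B_HOL

/-! Weighted chain integrals on several curves: integrable, bounded, holomorphic in parameters. -/

open scoped Topology Real
open Complex MeasureTheory Set Filter

noncomputable section

namespace Pool.Agent.Lib.IS3

open Pool.Agent.Lib.ISO Pool.Agent.Lib.IS2

namespace HOLm

variable {N : ℕ}

theorem mm_nonneg (o : ℝ) (Γ : MC N) (n : ℕ) (v : Fin (n + 2) → XN N) : 0 ≤ Mm o Γ n v := by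
  unfold Mm cm
  positivity

theorem p0 {j B ϖ : ℝ} {Γ : MC N} {P : MQ N} (hP : Admm j B Γ ϖ P) (x : XN N) : 0 ≤ ϖ :=
  (norm_nonneg _).trans ((hP.1 x.1).a0 0)

theorem maj {j B C h ϖ l0 : ℝ} {q n : ℕ} {Γ : MC N} {P : MQ N} {μ : ℂ} {v : Fin (n + 2) → XN N}
    {w : ℂ} (hC : 1 ≤ C) (hP : Admm j B Γ ϖ P) (hμ : μ ∈ DD q h) (hw : ‖w‖ ≤ 1)
    (hl : w ≠ 0 → l0 ≤ elm Γ v)
    (h1 : ‖IM μ P n v‖ ≤ C ^ (n + 2) * Mm (om q h) Γ n v * ‖exp (-(μ * ecm P v))‖)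
    (h2 : ‖exp (-(μ * ecm P v))‖ ≤ Real.exp (-(μ.re * elm Γ v) + C * (n + 2) * ‖μ‖ * ϖ)) :
    ‖w * IM μ P n v‖ ≤ C ^ (n + 2) * Real.exp (C * (n + 2) * om q h * ϖ) * ga0 q h l0 μ *
      (Mm (om q h) Γ n v * Real.exp (-(elm Γ v / (2 * Tt q h)))) := by
  have p0 : 0 ≤ ϖ := p0 hP (v 0)
  have m0 := mm_nonneg (om q h) Γ n v
  by_cases w0 : w = 0
  · rw [w0, zero_mul, norm_zero]
    unfold ga0
    positivity
  have l1 := hl w0
  have e1 : (μ.re - (2 * Tt q h)⁻¹) * l0 + elm Γ v / (2 * Tt q h) ≤ μ.re * elm Γ v := by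
    rw [div_eq_inv_mul]
    nlinarith [mul_le_mul_of_nonneg_left l1 (sub_nonneg.2 hμ.1.le)]
  have e2 : C * (n + 2) * ‖μ‖ * ϖ ≤ C * (n + 2) * om q h * ϖ := by
    have := hμ.2.le
    gcongr
  have e3 := h2.trans (Real.exp_le_exp.2 (add_le_add (neg_le_neg e1) e2))
  rw [neg_add, Real.exp_add, Real.exp_add] at e3
  calc ‖w * IM μ P n v‖ ≤ 1 * ‖IM μ P n v‖ := by rw [norm_mul]; gcongr
    _ ≤ C ^ (n + 2) * Mm (om q h) Γ n v * (ga0 q h l0 μ * Real.exp (-(elm Γ v / (2 * Tt q h))) *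
        Real.exp (C * (n + 2) * om q h * ϖ)) := by
      rw [one_mul]; refine h1.trans ?_; unfold ga0; gcongr
    _ = _ := by ring

end HOLm

open HOLm in
theorem st_holm (hKB : St_KBm) (hKM : St_KMm) (hCR : St_CRm) (hHI : IS2.St_HI) : St_HOLm := by
  intro j B q hq
  obtain ⟨C1, hC1, kb⟩ := hKB j B
  obtain ⟨C2, h0, cr⟩ := hCR j q hq
  refine ⟨C1 ^ 2 * (|C2| + 1), max h0 2, fun h hh N Γ ϖ wt n hγ hwt => ?_⟩
  have h2 : 2 ≤ h := (le_max_right _ _).trans hh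
  obtain ⟨gv, gi, gb⟩ := cr h ((le_max_left _ _).trans hh) N Γ hγ n
  have ms : ∀ P ∈ SPm N, ∀ μ, AEStronglyMeasurable (fun v => wt (n + 2) v * IM μ P n v)
      (bm N (n + 2)) := fun P hP μ =>
    ((hwt _).1.mul (((hKM N).1 P hP n).comp
      (measurable_const.prodMk measurable_id))).aestronglyMeasurable
  have bd : ∀ P μ l0 v, Admm j B Γ ϖ P → μ ∈ DD q h → Lg Γ l0 wt → Gw Γ v →
      ‖wt (n + 2) v * IM μ P n v‖ ≤
      C1 ^ (n + 2) * Real.exp (C1 * (n + 2) * om q h * ϖ) * ga0 q h l0 μ *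
        (Mm (om q h) Γ n v * Real.exp (-(elm Γ v / (2 * Tt q h)))) := fun P μ l0 v hP hμ hl hv => by
    obtain ⟨a, b⟩ := (kb N Γ ϖ P hγ hP).2 n v μ (om q h) hv (HOL.sm_of h2 hμ) hμ.2.le
    exact maj hC1 hP hμ ((hwt _).2.1 v) (hl n v) a b
  refine ⟨fun P μ l0 hP hμ hl => ?_, fun U μ P hU hμ hA hP => ?_⟩
  · have gi' := gi.const_mul (C1 ^ (n + 2) * Real.exp (C1 * (n + 2) * om q h * ϖ) * ga0 q h l0 μ)
    have ae : ∀ᵐ v ∂bm N (n + 2), _ := gv.mono fun v hv => bd P μ l0 v hP hμ hl hv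
    have o0 : 0 ≤ om q h := by unfold om; positivity
    have a0 := abs_nonneg C2
    have g0 : 0 ≤ ga0 q h l0 μ := (Real.exp_pos _).le
    refine ⟨gi'.mono' (ms P hP.mem μ) ae, ?_⟩
    rcases isEmpty_or_nonempty (XN N) with hE | ⟨⟨x⟩⟩
    · rw [Tc, integral_of_isEmpty, norm_zero]
      positivity
    refine (norm_integral_le_of_norm_le gi' ae).trans ?_
    rw [integral_const_mul]
    have p0 : 0 ≤ ϖ := p0 hP x
    have g2 : C2 * om q h * (C2 / h ^ 3) ^ n ≤ (|C2| + 1) * om q h * ((|C2| + 1) / h ^ 3) ^ n := by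
      refine (le_abs_self _).trans ?_
      rw [abs_mul, abs_mul, abs_pow, abs_div, abs_of_nonneg o0, abs_of_nonneg (a := h ^ 3)
        (by positivity)]
      gcongr <;> linarith
    have c1 : C1 ≤ C1 ^ 2 * (|C2| + 1) := by nlinarith
    have c2 : C1 * ((|C2| + 1) / h ^ 3) ≤ C1 ^ 2 * (|C2| + 1) / h ^ 3 := by
      rw [← mul_div_assoc]; gcongr; nlinarith
    calc _ ≤ C1 ^ (n + 2) * Real.exp (C1 * (n + 2) * om q h * ϖ) * ga0 q h l0 μ *
          ((|C2| + 1) * om q h * ((|C2| + 1) / h ^ 3) ^ n) := by gcongr; exact gb.trans g2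
      _ = C1 ^ 2 * (|C2| + 1) * om q h * (C1 * ((|C2| + 1) / h ^ 3)) ^ n *
          Real.exp (C1 * (n + 2) * om q h * ϖ) * ga0 q h l0 μ := by rw [mul_pow]; ring
      _ ≤ _ := by gcongr
  · intro ζ hζ
    have gi' := gi.const_mul (C1 ^ (n + 2) * Real.exp (C1 * (n + 2) * om q h * ϖ))
    refine (hHI _ (bm N (n + 2)) (fun ζ v => wt (n + 2) v * IM (μ ζ) (P ζ) n v) U _ hU gi'
      (fun ζ hζ => ms _ (hA ζ hζ).2.mem _) (gv.mono fun v hv => ⟨fun ζ hζ => ?_,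
        fun ζ hζ => ?_⟩) ζ hζ).differentiableAt.differentiableWithinAt
    · have n := hU.mem_nhds hζ
      exact (((hKM N).2 j B Γ ϖ μ P ζ _ v hγ (hA ζ hζ).2 (HOL.sm_of h2 (hA ζ hζ).1) hv
        (hμ.differentiableAt n) fun i s => ⟨(hP i s).1.differentiableAt n,
          (hP i s).2.differentiableAt n⟩).const_mul _).differentiableWithinAt
    · have := bd _ _ 0 v (hA ζ hζ).2 (hA ζ hζ).1 (lg_zero Γ wt) hv
      rwa [ga0, mul_zero, neg_zero, Real.exp_zero, mul_one] at this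

end Pool.Agent.Lib.IS3
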