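import Pool.Agent.Lib.IS3.Kit
import Pool.Agent.Lib.IS3.BlueG
import Pool.Agent.Lib.IS2.B_HSQ1

/-! The resolvent of the form is given by the Green function, for several curves. -/

open scoped ContDiff ComplexConjugate Topology Real InnerProductSpace
open Complex MeasureTheory Set Filter

noncomputable section

namespace Pool.Agent.Lib.IS3

open Pool.Agent.Lib.ISO Pool.Agent.Lib.IS2 Pool.Agent.Lib.MP_312682_mp

namespace HSQ1m

variable {N : ℕ} {Ω : Set ℂ} {μ : ℝ} {Γ : MC N}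

theorem cd_DL (hL : St_LAY) (hμ : 0 < μ) (h : CDm Ω Γ) {φ : XN N → ℝ} (hφ : CPm φ) :
    ContDiffOn ℝ ∞ (DLom μ Γ φ) Ω := by
  obtain ⟨⟨-, c, -⟩, -⟩ := hL μ hμ
  obtain ⟨B, -, hB⟩ := hφ.bd
  have ck : ∀ i, ContDiffOn ℝ ∞ (fun p : ℂ × ℝ => DLx μ Γ p.1 (i, p.2)) (Ω ×ˢ univ) := fun i => by
    have mp : MapsTo (fun p : ℂ × ℝ => p.1 - Γ i p.2) (Ω ×ˢ univ) {0}ᶜ := fun p hp e =>
      h.ne_curve hp.1 (i, p.2) (sub_eq_zero.1 e)
    have cs : ContDiff ℝ ∞ fun p : ℂ × ℝ => p.1 - Γ i p.2 :=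
      contDiff_fst.sub ((h.smooth i).comp contDiff_snd)
    have cn : ContDiff ℝ ∞ fun p : ℂ × ℝ => -nr (Γ i) p.2 :=
      ((h.rc.nr_smooth i).comp contDiff_snd).neg
    exact ((((contDiffOn_infty_iff_fderiv_of_isOpen isOpen_compl_singleton).1 c).2.comp
      cs.contDiffOn mp).clm_apply cn.contDiffOn).congr fun p hp =>
        DLx_eq hL hμ (h.ne_curve hp.1 (i, p.2))
  have cs : ContDiffOn ℝ ∞
      (fun z => ∑ i, ∫ s in (0 : ℝ)..(2 * π), φ (i, s) • DLx μ Γ z (i, s)) Ω :=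
    ContDiffOn.sum fun i _ => contDiffOn_infty.2 fun n =>
      LAY.pcd h.opn (hφ.cp i).1.measurable (fun t => hB (i, t)) n ℝ _ ((ck i).of_le (LAY.le_oo n))
  refine cs.congr fun z hz => ?_
  have c1 : Continuous (DLx μ Γ z) := cont_x1 fun i =>
    (ck i).continuousOn.comp_continuous (f := fun s => (z, s)) (by fun_prop) fun s => ⟨hz, trivial⟩
  rw [DLom, integral_nx (f := fun y => DLx μ Γ z y * φ y) (int_cont (c1.mul hφ.1))]
  simp only [smul_eq_mul, mul_comm]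

end HSQ1m

open HSQ1 in
theorem st_hsq1m (hLAY : St_LAY) (hVP : St_VP) (hNEU : St_NEUm) (hPOI : St_POIm)
    (hGRE : St_GREm) : St_HSQ1m := by
  intro N μ Γ Ω hP f f1 f2 f3
  have hf : TR Ω f := ⟨f1, f2, f3⟩
  have ho := hP.cd.opn
  have sV : ContDiff ℝ ∞ (Vp μ f) := by
    refine (funext fun x => ?_ : _ = Vp μ f) ▸ f2.contDiff_convolution_left (n := ⊤)
      (ContinuousLinearMap.mul ℝ ℝ) f1 (hLAY μ hP.pos).1.2.2.2.1.locallyIntegrable
    simp [Vp, convolution_def, mul_comm]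
  have cp : CPm fun t => Vp μ f (gp Γ t) :=
    ⟨sV.continuous.comp hP.cd.rc.gp_cont, fun t => by simp only [hP.cd.rc.gp_per t]⟩
  obtain ⟨u1, u2, u3, u4⟩ := (hPOI N μ Γ Ω hP).1 _ cp
  have sU := (HSQ1m.cd_DL hLAY hP.pos hP.cd ((hNEU N μ Γ Ω hP).2.2.2.2.2.2.2.2.2 _ cp).1).congr
    fun x hx => (u4 x hx).1
  obtain ⟨R, hR⟩ := f2.isCompact.isBounded.subset_closedBall 0
  have pV := ((hVP μ f hP.pos hf.memLp ⟨R, fun z hz => image_eq_zero_of_notMem_tsupport fun h =>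
    hz.not_ge (by simpa using hR h)⟩).2 Ω ho (f1.of_le (LAY.le_oo 2)).contDiffOn).2
  set u := fun x => Vp μ f x - Uem μ Γ Ω (fun t => Vp μ f (gp Γ t)) x with hu
  have e : EqOn (Ω.indicator u) u Ω := fun x hx => indicator_of_mem hx _
  rw [core (U := Ω.indicator u) ho hP.cd.bdd (continuous_indicator (fun z hz => by
      obtain ⟨t, rfl⟩ := hP.cd.fr ▸ hz
      simp only [hu, u3, sub_self]) (sV.continuous.continuousOn.sub u1))
    (fun z hz => indicator_of_notMem hz _) ((sV.contDiffOn.sub sU).congr e) hf fun x hx => by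
      rw [LAY.lap_congr ho e hx, e hx, hu, lap_sub ho sV.contDiffOn sU hx, u2.2 x hx, ← pV x hx]
      ring]
  congr 1
  ext1 x
  by_cases hx : x ∈ Ω
  · rw [e hx, indicator_of_mem hx, ((hGRE N μ Γ Ω hP).2.2.1 f hf.memLp (fun z hz =>
      image_eq_zero_of_notMem_tsupport fun h => hz (f3 h)) x hx).2]
  · rw [indicator_of_notMem hx, indicator_of_notMem hx, mul_zero]

end Pool.Agent.Lib.IS3
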