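import Pool.Agent.Lib.IS3.Kit
import Pool.Agent.Lib.IS3.BlueG
import Pool.Agent.Lib.IS2.B_HSQ

/-! The Hilbert-Schmidt norm of the resolvent for several boundary curves. -/

open scoped ContDiff ComplexConjugate Topology Real InnerProductSpace ENNReal
open Complex MeasureTheory Set Filter

noncomputable section

namespace Pool.Agent.Lib.IS3

open Pool.Agent.Lib.ISO Pool.Agent.Lib.IS2 Pool.Agent.Lib.MP_312682_mp

open IS2.HSQ in
theorem st_hsqm (hL : IS2.St_LAY) (hG : St_GREm) (hS : St_RESm) (h1 : St_HSQ1m) : St_HSQm := by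
  intro N μ Γ Ω hP
  have hO := hP.cd.opn
  have hM := hO.measurableSet
  have hI := (hS N μ μ Γ Ω hP hP).2.1
  have mR : AEStronglyMeasurable (fun p : ℂ × ℂ => Rgm μ Γ Ω p.1 p.2)
      ((vol.restrict Ω).prod (vol.restrict Ω)) := by
    have a : Measurable fun p : ℂ × ℂ => Gr μ (p.1 - p.2) :=
      (hL μ hP.pos).1.2.2.1.comp (measurable_fst.sub measurable_snd)
    have b : AEStronglyMeasurable (Function.uncurry (hRm μ Γ Ω))
        ((vol.restrict Ω).prod (vol.restrict Ω)) := by
      rw [Measure.prod_restrict]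
      exact ((hG N μ Γ Ω hP).1.mono (prod_mono subset_closure Subset.rfl)).aestronglyMeasurable
        (hM.prod hM)
    exact a.aestronglyMeasurable.sub b
  obtain ⟨k, hk⟩ : ∃ k : ℂ → ℂ → ℝ, k = fun x => Ω.indicator fun y => μ ^ 2 * Rgm μ Γ Ω x y :=
    ⟨_, rfl⟩
  have hm : ∀ᵐ x ∂vol, x ∈ Ω → MemLp (k x) 2 vol := by
    rw [← ae_restrict_iff' hM, hk]
    filter_upwards [hI.prod_right_ae, mR.prodMk_left] with x hx hx'
    exact (memLp_indicator_iff_restrict hM).2 (MemLp.const_mul
      ((memLp_two_iff_integrable_sq hx').2 (by simpa only [sq] using hx)) _)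
  obtain ⟨r, hr⟩ : ∃ r : ℂ → L2 vol,
      r = Ω.indicator fun x => tl vol fun y => (!₂[(k x y : ℂ), 0, 0] : E3) := ⟨_, rfl⟩
  have hc : (fun x => ‖r x‖ ^ 2) =ᵐ[vol] Ω.indicator fun x =>
      μ ^ 4 * ∫ y in Ω, Rgm μ Γ Ω x y * Rgm μ Γ Ω x y := by
    filter_upwards [hm] with x hx
    by_cases hx' : x ∈ Ω
    · rw [hr, indicator_of_mem hx', indicator_of_mem hx', ← inner_self_eq_norm_sq (𝕜 := ℂ),
        inner_ee (hx hx') (hx hx'), ← integral_const_mul, ← integral_indicator hM]
      refine integral_congr_ae (Eventually.of_forall fun y => ?_)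
      by_cases hy : y ∈ Ω
      · simp only [hk, indicator_of_mem hy]; ring
      · simp only [hk, indicator_of_notMem hy, mul_zero]
    · rw [hr, indicator_of_notMem hx', indicator_of_notMem hx', norm_zero, sq, mul_zero]
  have hi : Integrable (fun x => ‖r x‖ ^ 2) vol :=
    ((integrable_indicator_iff hM).2 (hI.integral_prod_left.const_mul _)).congr hc.symm
  have ha : ts Ω ⊆ S (GO μ Ω) r := by
    rintro _ ⟨f, f1, f2, f3, rfl⟩
    have mf : MemLp f 2 vol := f1.continuous.memLp_of_hasCompactSupport f2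
    obtain ⟨w, hw⟩ : ∃ w, w = tl vol fun z => (!₂[(f z : ℂ), 0, 0] : E3) := ⟨_, rfl⟩
    have e : ∀ᵐ x ∂vol, ((Ω.indicator (fun x => μ ^ 2 * ∫ y in Ω, Rgm μ Γ Ω x y * f y) x : ℝ) : ℂ) =
        ⟪r x, w⟫_ℂ := by
      filter_upwards [hm] with x hx
      by_cases hx' : x ∈ Ω
      · rw [hr, hw, indicator_of_mem hx', indicator_of_mem hx', inner_ee (hx hx') mf,
          ← integral_const_mul, ← integral_indicator hM]
        simp only [hk, ← indicator_mul_left, mul_assoc]
      · rw [hr, indicator_of_notMem hx', indicator_of_notMem hx', inner_zero_left, ofReal_zero]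
    have m : AEStronglyMeasurable (Ω.indicator fun x => μ ^ 2 * ∫ y in Ω, Rgm μ Γ Ω x y * f y) vol :=
      (aestronglyMeasurable_indicator_iff hM).2 ((mR.mul (f1.continuous.comp
        continuous_snd).aestronglyMeasurable).integral_prod_right'.const_mul _)
    show GO μ Ω _ =ᵐ[vol] _
    rw [h1 N μ Γ Ω hP f f1 f2 f3, ← hw]
    refine (tl_coe (mem_e ((memLp_two_iff_integrable_sq m).2 ((hi.mul_const (‖w‖ ^ 2)).mono'
      (m.pow 2) ?_)))).trans ?_
    · filter_upwards [e] with x hx
      rw [norm_pow, ← norm_real, hx, ← mul_pow]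
      exact pow_le_pow_left₀ (norm_nonneg _) (norm_inner_le_norm _ _) 2
    · filter_upwards [e] with x hx
      rw [hx]
  have hb : ∀ w, w ∈ S (GO μ Ω) r := fun w => by
    rw [← add_sub_cancel (PC (ts Ω) w) w]
    refine add_mem (cl_le (closed _ _) ha (PC_mem _ _)) ?_
    have ho := orth hO (w := w - PC (ts Ω) w) fun x hx =>
      (Submodule.sub_starProjection_mem_orthogonal (K := cl (ts Ω)) w) x (mem_cl hx)
    show GO μ Ω _ =ᵐ[vol] _
    rw [go_zero μ ho]
    filter_upwards [hm, Lp.coeFn_zero E3 2 vol] with x hx h0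
    have : ⟪r x, w - PC (ts Ω) w⟫_ℂ = 0 := by
      by_cases hx' : x ∈ Ω
      · rw [hr, indicator_of_mem hx', inner_e (hx hx')]
        refine integral_eq_zero_of_ae ?_
        filter_upwards [ho] with z hz
        by_cases hz' : z ∈ Ω
        · rw [hz hz', smul_zero]; rfl
        · rw [hk]; simp only [indicator_of_notMem hz', zero_smul]; rfl
      · rw [hr, indicator_of_notMem hx', inner_zero_left]
    rw [h0, this]
    refine E3_ext ?_ ?_ ?_ <;> simp
  rw [hsq, ker hb]
  simp only [nsq]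
  rw [← ofReal_integral_eq_lintegral_ofReal hi (Eventually.of_forall fun _ => by positivity),
    ENNReal.toReal_ofReal (integral_nonneg fun _ => by positivity), integral_congr_ae hc,
    integral_indicator hM, integral_const_mul, RRm]

end Pool.Agent.Lib.IS3
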