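import Pool.Agent.Lib.IS3.Kit
import Pool.Agent.Lib.IS2.B_J2

/-! The resonant double integral for a scaled curve. -/

open scoped ContDiff ComplexConjugate Topology Real
open Complex MeasureTheory Set Filter

noncomputable section

namespace Pool.Agent.Lib.IS3

open Pool.Agent.Lib.ISO Pool.Agent.Lib.IS2 Pool.Agent.Lib.IS2.J2 intervalIntegral

namespace J2L

lemma far (a : ℝ) : ∃ C, 0 ≤ C ∧ ∀ h T w d : ℝ, 8 ≤ h → 0 < T → w = T / h ^ 2 → T / (2 * h) ≤ d →
    (d ≤ T / 4 ∨ T ≤ d) → J2.GG a T w d ≤ C * T ^ a * (Real.exp (-(h ^ 4 / 32)) / w) := by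
  obtain ⟨K, K0, hK⟩ := pw a
  refine ⟨2 * √(2 * π) * K, by positivity, fun h T w d h8 T0 hw hd h2 => ?_⟩
  have h0 : 0 < h := by linarith
  have w0 : 0 < w := by rw [hw]; positivity
  have d0 : 0 < d := lt_of_lt_of_le (by positivity) hd
  have wT : w * h ^ 2 = T := by rw [hw]; field_simp
  have := hK h (d / T) (by linarith) (by rw [le_div_iff₀ T0, ← div_eq_inv_mul]; exact hd)
  rw [show h ^ 2 * (1 - 2 * (d / T)) = (T - 2 * d) / w by rw [hw]; field_simp,
    Real.div_rpow d0.le T0.le] at this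
  have u2 : (h ^ 2 / 2) ^ 2 ≤ ((T - 2 * d) / w) ^ 2 := by
    rcases h2 with b | b
    · exact pow_le_pow_left₀ (by positivity) (by rw [le_div_iff₀ w0]; linarith) 2
    · rw [← neg_sq ((T - 2 * d) / w), ← neg_div]
      exact pow_le_pow_left₀ (by positivity) (by rw [le_div_iff₀ w0]; linarith) 2
  unfold J2.GG
  generalize (T - 2 * d) / w = u at this u2 ⊢
  have e : Real.exp (-(u ^ 2 / 2)) ≤ Real.exp (-(u ^ 2 / 8)) * Real.exp (-(h ^ 4 / 32)) := by
    rw [← Real.exp_add]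
    exact Real.exp_le_exp.2 (by nlinarith [pow_pos h0 4])
  have Ta : 0 < T ^ a := by positivity
  calc _ ≤ 2 * √(2 * π) / w * d ^ a * (Real.exp (-(u ^ 2 / 8)) * Real.exp (-(h ^ 4 / 32))) := by
        gcongr
    _ = 2 * √(2 * π) * T ^ a * (Real.exp (-(h ^ 4 / 32)) / w) *
          (d ^ a / T ^ a * Real.exp (-(u ^ 2 / 8))) := by field_simp
    _ ≤ 2 * √(2 * π) * T ^ a * (Real.exp (-(h ^ 4 / 32)) / w) * K := by gcongr
    _ = _ := by ring

lemma cmp {f g : ℝ → ℂ} (cf : Continuous f) (cg : Continuous g) {T A A' ε : ℝ} (T0 : 0 ≤ T)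
    (hA : T ≤ A) (hA' : T ≤ A') (ε0 : 0 ≤ ε) (h1 : ∀ x, |x| ≤ T → ‖f x - g x‖ ≤ ε)
    (h2 : ∀ x, T ≤ |x| → ‖f x‖ ≤ ε ∧ ‖g x‖ ≤ ε) :
    ‖(∫ x in (-A)..A, f x) - ∫ x in (-A')..A', g x‖ ≤ ε * (2 * A + 2 * A') := by
  have t : ∀ (u : ℝ → ℂ) (B : ℝ), Continuous u → T ≤ B → (∀ x, T ≤ |x| → ‖u x‖ ≤ ε) →
      ‖(∫ x in (-B)..B, u x) - ∫ x in (-T)..T, u x‖ ≤ ε * (2 * (B - T)) := fun u B cu hB hu => by
    have i := fun a b => cu.intervalIntegrable (μ := volume) a b
    have b1 : ‖∫ x in (-B)..(-T), u x‖ ≤ ε * |-T - -B| :=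
      norm_integral_le_of_norm_le_const fun x hx => hu x (by
        rw [uIoc_of_le (by linarith)] at hx
        exact le_abs.2 (Or.inr (by linarith [hx.2])))
    have b2 : ‖∫ x in T..B, u x‖ ≤ ε * |B - T| :=
      norm_integral_le_of_norm_le_const fun x hx => hu x (by
        rw [uIoc_of_le hB] at hx
        exact le_abs.2 (Or.inl hx.1.le))
    rw [abs_of_nonneg (by linarith)] at b1 b2
    rw [← integral_add_adjacent_intervals (i (-B) (-T)) (i (-T) B),
      ← integral_add_adjacent_intervals (i (-T) T) (i T B),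
      show ∀ a b c : ℂ, a + (b + c) - b = a + c from fun a b c => by ring]
    linarith [norm_add_le (∫ x in (-B)..(-T), u x) (∫ x in T..B, u x)]
  have m : ‖(∫ x in (-T)..T, f x) - ∫ x in (-T)..T, g x‖ ≤ ε * |T - -T| := by
    rw [← intervalIntegral.integral_sub (cf.intervalIntegrable _ _) (cg.intervalIntegrable _ _)]
    exact norm_integral_le_of_norm_le_const fun x hx => h1 x (by
      rw [uIoc_of_le (by linarith)] at hx
      exact abs_le.2 ⟨hx.1.le, hx.2⟩)
  rw [abs_of_nonneg (by linarith)] at m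
  have t1 := t f A cf hA fun x hx => (h2 x hx).1
  have t2 := t g A' cg hA' fun x hx => (h2 x hx).2
  generalize ∫ x in (-A)..A, f x = a, ∫ x in (-A')..A', g x = b, ∫ x in (-T)..T, f x = c,
    ∫ x in (-T)..T, g x = d at *
  rw [show a - b = (a - c) + (c - d) - (b - d) by ring]
  nlinarith [norm_sub_le ((a - c) + (c - d)) (b - d), norm_add_le (a - c) (c - d),
    mul_nonneg ε0 T0]

lemma tnn_eq (M W n : ℕ) (a : ℂ) (s : ℝ) :
    tnn M W n a s = 2 * amp M W * ‖a‖ * Real.cos (n * s + arg a) := by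
  have : a * exp (I * n * s) = (‖a‖ : ℝ) * exp ((n * s + arg a : ℝ) * I) := by
    conv_lhs => rw [← norm_mul_exp_arg_mul_I a, mul_assoc, ← exp_add]
    push_cast; ring_nf
  rw [tnn, this, re_ofReal_mul, exp_ofReal_mul_I_re, mul_assoc (2 * _)]

lemma par2 {q : ℕ} (hq : 4 ≤ q) {h j : ℝ} (j1 : 1 ≤ j) (hj : 16 * j ^ 2 ≤ h) :
    16 * j ^ 2 * Tt q h ≤ 1 ∧ 2 * j ≤ om q h * Tt q h ∧ 1 / (ww q h * om q h) ≤ h ^ 6 / (om q h * Tt q h) ∧
    Real.exp (-(h ^ 4 / 32)) / ww q h ≤ 32 ^ (q + 2) * (q + 2).factorial * Tt q h := by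
  have h1 : 1 ≤ h := by nlinarith
  have h0 : 0 < h := by linarith
  refine ⟨?_, ?_, ?_, ?_⟩
  · rw [Tt, ← div_eq_mul_inv, div_le_one (by positivity)]
    exact hj.trans (le_self_pow₀ h1 (by omega))
  · rw [om, Tt, ← div_eq_mul_inv, le_div_iff₀ (by positivity)]
    calc _ ≤ h ^ 1 * h ^ (q + 2) := by gcongr; nlinarith
      _ ≤ _ := by rw [← pow_add]; exact pow_le_pow_right₀ h1 (by omega)
  · have T0 : 0 < Tt q h := by unfold Tt; positivity
    have o0 : 0 < om q h := by unfold om; positivity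
    rw [ww, show 1 / (Tt q h / h ^ 2 * om q h) = h ^ 2 / (om q h * Tt q h) by field_simp]
    gcongr; omega
  · have := Real.pow_div_factorial_le_exp (h ^ 4 / 32) (by positivity) (q + 2)
    rw [Real.exp_neg, ww, Tt, show (Real.exp (h ^ 4 / 32))⁻¹ / ((h ^ (q + 2))⁻¹ / h ^ 2) =
      h ^ (q + 4) / Real.exp (h ^ 4 / 32) by field_simp; ring]
    refine (div_le_div_of_nonneg_left (by positivity) (by positivity) this).trans ?_
    rw [show h ^ (q + 4) / ((h ^ 4 / 32) ^ (q + 2) / (q + 2).factorial) =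
      32 ^ (q + 2) * (q + 2).factorial * (h ^ (q + 4) / h ^ (4 * (q + 2))) by
      rw [div_pow, pow_mul]; field_simp]
    gcongr
    rw [inv_eq_one_div, div_le_div_iff₀ (by positivity) (by positivity), ← pow_add, one_mul]
    exact pow_le_pow_right₀ h1 (by omega)

/-- the integral in the scaled distance -/
lemma dsc {Φ Ψ g : ℝ → ℝ} {o n l j T r m U e e1 e2 : ℝ} (cΦ : Continuous Φ) (cΨ : Continuous Ψ)
    (cg : Continuous g) (ev : ∀ d, g (-d) = g d) (g0 : ∀ d, 0 ≤ g d) (j1 : 1 ≤ j) (l1 : j⁻¹ ≤ l)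
    (l2 : l ≤ j) (T0 : 0 < T) (T1 : 16 * j ^ 2 * T ≤ 1) (r0 : 0 ≤ r) (r1 : r ≤ T / 4)
    (hn : |n - l * o| ≤ 1) (Te : T ≤ e) (e2' : e ≤ 2) (hm : |m| ≤ 16 * U)
    (h0 : ∀ d, |Φ d| ≤ 300 * U) (h1 : ∀ d, |Ψ d - m * Real.cos (n * d)| ≤ 300 * U * e)
    (h2 : ∀ x, T / 4 ≤ |x| → |x| ≤ T → Φ (x / l) = Ψ (x / l))
    (hg : ∀ x, |x| ≤ T / 4 ∨ T ≤ |x| → g x ≤ e1)
    (hR : ‖∫ d in r..π, g d • exp (-(I * (2 * o * d : ℝ)))‖ ≤ e2) :
    ‖(∫ x in (-(l * π))..(l * π), ((Φ (x / l) * g x : ℝ) : ℂ) * exp (-(I * o * (|x| : ℝ)))) -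
      ((m * ∫ d in r..π, g d : ℝ) : ℂ)‖ ≤
      22032 * j ^ 2 * U * e1 + 632 * j * U * e * (∫ d in r..π, g d) + 16 * U * e2 := by
  have j0 : 0 < j := by linarith
  have l0 : 0 < l := (inv_pos.2 j0).trans_le l1
  have U0 : 0 ≤ U := by linarith [abs_nonneg m]
  have e10 : 0 ≤ e1 := (g0 0).trans (hg 0 (Or.inl (by rw [abs_zero]; positivity)))
  have e20 : 0 ≤ e2 := (norm_nonneg _).trans hR
  have p3 := Real.pi_gt_three
  have p4 := Real.pi_lt_four
  have jT : j * T ≤ 1 := by nlinarith [mul_pos j0 T0]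
  have T2 : T ≤ 1 := by nlinarith
  have li : l⁻¹ ≤ j := (inv_le_comm₀ l0 j0).2 l1
  have Tl : T ≤ l := le_trans (by rw [← one_div, le_div_iff₀ j0]; linarith) l1
  set c : ℝ → ℝ := fun x => max (-T) (min x T) with hc
  have c1 : ∀ x, |c x| ≤ T := fun x =>
    abs_le.2 ⟨le_max_left _ _, max_le (by linarith) (min_le_right _ _)⟩
  have c2 : ∀ x, |x| ≤ T → c x = x := fun x hx => by
    rw [hc]; dsimp only
    rw [min_eq_left (abs_le.1 hx).2, max_eq_right (abs_le.1 hx).1]
  set Θ : ℝ → ℝ := fun x => Ψ (c x / l) - m * Real.cos (o * c x) + m * Real.cos (o * x) with hΘ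
  have cΘ : Continuous Θ := by fun_prop
  have t1 : ∀ x, |Θ x - m * Real.cos (o * x)| ≤ 316 * j * U * e := fun x => by
    have a1 : |Real.cos (n * (c x / l)) - Real.cos (o * c x)| ≤ j * e := by
      refine (Real.abs_cos_sub_cos_le _ _).trans ?_
      rw [show n * (c x / l) - o * c x = (n - l * o) * (l⁻¹ * c x) by field_simp, abs_mul, abs_mul,
        abs_of_pos (inv_pos.2 l0)]
      exact (mul_le_of_le_one_left (by positivity) hn).trans
        (mul_le_mul li ((c1 x).trans Te) (abs_nonneg _) j0.le)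
    rw [show Θ x - m * Real.cos (o * x) = (Ψ (c x / l) - m * Real.cos (n * (c x / l))) +
      m * (Real.cos (n * (c x / l)) - Real.cos (o * c x)) by rw [hΘ]; ring]
    refine (abs_add_le _ _).trans ?_
    rw [abs_mul]
    have a2 := mul_le_mul hm a1 (abs_nonneg _) (by positivity)
    have a3 : 0 ≤ U * e := mul_nonneg U0 (by linarith)
    linarith [h1 (c x / l), mul_le_mul_of_nonneg_right j1 a3]
  have t0 : ∀ x, |Θ x| ≤ 648 * j * U := fun x => by
    have a1 : |m * Real.cos (o * x)| ≤ 16 * U := by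
      rw [abs_mul]
      exact (mul_le_of_le_one_right (abs_nonneg _) (Real.abs_cos_le_one _)).trans hm
    have a2 := abs_add_le (Θ x - m * Real.cos (o * x)) (m * Real.cos (o * x))
    rw [sub_add_cancel] at a2
    have a3 : 0 ≤ j * U := by positivity
    linarith [t1 x, mul_le_mul_of_nonneg_left e2' a3, mul_le_mul_of_nonneg_right j1 U0]
  have D := dint cΘ cg ev g0 r0 (by linarith) t0 (fun d _ _ => t1 d)
    (fun d hd => hg d (Or.inl (hd.trans r1))) hR
  have ne : ∀ x : ℝ, ‖exp (-(I * o * x))‖ = 1 := fun x => by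
    rw [norm_exp]; simp
  have nb : ∀ (u x b : ℝ), |u| ≤ b → |x| ≤ T / 4 ∨ T ≤ |x| →
      ‖((u * g x : ℝ) : ℂ) * exp (-(I * o * (|x| : ℝ)))‖ ≤ b * e1 := fun u x b hu hx => by
    rw [norm_mul, ne, mul_one, norm_real, Real.norm_eq_abs, abs_mul, abs_of_nonneg (g0 x)]
    exact mul_le_mul hu (hg x hx) (g0 x) ((abs_nonneg _).trans hu)
  have s0 : ∀ d, |Φ d| ≤ 648 * j * U := fun d =>
    (h0 d).trans (by linarith [mul_le_mul_of_nonneg_right j1 U0])
  have jU : 0 ≤ j * U * e1 := by positivity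
  have K := cmp (f := fun x => ((Φ (x / l) * g x : ℝ) : ℂ) * exp (-(I * o * (|x| : ℝ))))
    (g := fun x => ((Θ x * g x : ℝ) : ℂ) * exp (-(I * o * (|x| : ℝ)))) (by fun_prop) (by fun_prop)
    (T := T) (A := l * π) (A' := π) (ε := 1296 * j * U * e1) T0.le
    (Tl.trans (le_mul_of_one_le_right l0.le (by linarith))) (by linarith)
    (by positivity) (fun x hx => by
      rcases le_total |x| (T / 4) with b | b
      · exact (norm_sub_le _ _).trans (by
          linarith [nb _ x _ (s0 (x / l)) (Or.inl b), nb _ x _ (t0 x) (Or.inl b)])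
      · simp only [hΘ, c2 x hx, h2 x b hx, sub_add_cancel, sub_self, norm_zero]
        positivity)
    fun x hx => ⟨by linarith [nb _ x _ (s0 (x / l)) (Or.inr hx)],
      by linarith [nb _ x _ (t0 x) (Or.inr hx)]⟩
  refine (norm_sub_le_norm_sub_add_norm_sub _ _ _).trans ((add_le_add K D).trans ?_)
  have b1 : 1296 * j * U * e1 * (2 * (l * π) + 2 * π) ≤ 1296 * j * U * e1 * (16 * j) :=
    mul_le_mul_of_nonneg_left (by linarith [mul_le_mul l2 p4.le (by linarith) j0.le]) (by positivity)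
  have b2 : 2 * r * (648 * j * U * e1) ≤ j * (1296 * j * U * e1) := by
    linarith [mul_le_mul_of_nonneg_right (by linarith : r ≤ j) jU]
  have b3 := mul_le_mul_of_nonneg_right hm e20
  linarith

end J2L

open J2L

theorem st_j2l : St_J2L := by
  intro j B q p hq j1
  obtain ⟨c, C, -, C0, H⟩ := gf (3 * (p : ℝ) / 2 - 2)
  obtain ⟨C2, C20, H2⟩ := far (3 * (p : ℝ) / 2 - 2)
  set J : ℝ := (p + 1) * (|B| + 1) ^ (p + 1) with hJ
  have J0 : 0 ≤ J := by positivity
  set Q : ℝ := B ^ 2 * j ^ 2 + 1 with hQ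
  have Q1 : 1 ≤ Q := le_add_of_nonneg_left (by positivity)
  set K : ℝ := 32 ^ (q + 2) * (q + 2).factorial with hK
  refine ⟨j * (J * Q) * (22032 * j ^ 2 * C2 * K + 648 * j * C), 16 * j ^ 2, fun h hj => ?_⟩
  have h8 : 8 ≤ h := by nlinarith
  obtain ⟨T0, T1, o0, -, -⟩ := par hq h8
  obtain ⟨T2, o2, w1, ex⟩ := par2 hq j1 hj
  obtain ⟨-, up, -, osc⟩ := H h _ (ww q h) h8 T0 T1 rfl
  have fr := fun d => H2 h _ (ww q h) d h8 T0 rfl
  have h0 : 0 < h := by linarith
  have j0 : 0 < j := by linarith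
  have hw : ww q h = Tt q h / h ^ 2 := rfl
  have hg := fun d => @g0_eq q p h d
  have hjp : jp q h p = ∫ d in (2 * Tt q h / h)..π, g0 q h p d := rfl
  generalize 3 * (p : ℝ) / 2 - 2 = a at *
  generalize g0 q h p = g at *
  generalize jp q h p = jj at *
  have r0 : Tt q h / (2 * h) ≤ 2 * Tt q h / h := by
    rw [div_le_div_iff₀ (by positivity) h0]; linarith [mul_pos T0 h0]
  have r1 : 0 < Tt q h / (2 * h) := by positivity
  have r4 : 2 * Tt q h / h ≤ Tt q h / 4 := by
    rw [div_le_iff₀ h0]; linarith [mul_le_mul_of_nonneg_left h8 T0.le]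
  have rp : 2 * Tt q h / h ≤ π := by linarith [Real.pi_gt_three]
  set gt : ℝ → ℝ := fun d => J2.GG a (Tt q h) (ww q h) (max |d| (Tt q h / (2 * h))) with hgt
  have m0 : ∀ d : ℝ, 0 < max |d| (Tt q h / (2 * h)) := fun d => lt_max_of_lt_right r1
  have g1 : ∀ d ∈ uIcc (2 * Tt q h / h) π, gt d = J2.GG a (Tt q h) (ww q h) d := fun d hd => by
    rw [uIcc_of_le rp] at hd
    rw [hgt]; dsimp only
    rw [abs_of_pos (r1.trans_le (r0.trans hd.1)), max_eq_left (r0.trans hd.1)]
  have j2 : jj = ∫ d in (2 * Tt q h / h)..π, J2.GG a (Tt q h) (ww q h) d :=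
    hjp.trans (integral_congr fun d hd => hg d (by
      rw [uIcc_of_le rp] at hd; exact r1.trans_le (r0.trans hd.1)))
  have Ta : 0 ≤ Tt q h ^ a := by positivity
  rw [← j2] at up
  intro M W n l κ ρ w a0 η hW hN pκ bκ pρ hw' ha η0 η1 hs
  have l0 : 0 < l := (inv_pos.2 j0).trans_le hN.lo
  have li : l⁻¹ ≤ j := (inv_le_comm₀ l0 j0).2 hN.lo
  have lj : 1 ≤ l * j := by
    have := mul_le_mul_of_nonneg_right hN.lo j0.le
    rwa [inv_mul_cancel₀ j0.ne'] at this
  have hn : |(n : ℝ) - l * om q h| ≤ 1 := hW ▸ hN.nr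
  have nT : 1 ≤ n * Tt q h := by
    have a1 := mul_le_mul_of_nonneg_right (abs_le.1 hn).1 T0.le
    have a2 := mul_le_mul_of_nonneg_left o2 l0.le
    linarith
  have n0 : (0 : ℝ) < n := (pos_iff_pos_of_mul_pos (one_pos.trans_le nT)).2 T0
  have cgt : Continuous gt := by
    unfold gt J2.GG
    exact (continuous_const.mul ((by fun_prop :
      Continuous fun d : ℝ => max |d| (Tt q h / (2 * h))).rpow_const
      fun d => Or.inl (m0 d).ne')).mul (by fun_prop)
  have cκ := pκ.smooth.continuous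
  have cκ' := pκ.smooth.continuous_deriv (by simp)
  have cρ := pρ.smooth.continuous
  have cw : Continuous fun x : ℝ × ℝ => w x.1 (x.1 + x.2) :=
    hw'.1.cont.comp (continuous_fst.prodMk (continuous_fst.add continuous_snd))
  set L := amp M W ^ 2 / om q h ^ 4 with hL
  have L0 : 0 ≤ L := by positivity
  set δ := h ^ 6 / (om q h * Tt q h) with hδ
  have δ0 : 0 ≤ δ := by positivity
  have k0 : ∀ s, |κ s| ≤ |B| + 1 := fun s => by
    have := bκ 0 (by norm_num) s
    rw [iteratedDeriv_zero] at this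
    linarith [le_abs_self B]
  have k1 : ∀ s, |deriv κ s| ≤ |B| + 1 := fun s => by
    have := bκ 1 (by norm_num) s
    rw [iteratedDeriv_one] at this
    linarith [le_abs_self B]
  have j3 : 1 ≤ |B| + 1 := by linarith [abs_nonneg B]
  have kp0 : ∀ s, |κ s ^ p| ≤ J := fun s => by
    rw [abs_pow]
    exact ((pow_le_pow_left₀ (abs_nonneg _) (k0 s) p).trans (pow_le_pow_right₀ j3 p.le_succ)).trans
      (le_mul_of_one_le_left (by positivity) (by linarith [p.cast_nonneg (α := ℝ)]))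
  have β2 : (-(2 * amp M W * ‖a0‖) / (l * om q h ^ 2)) ^ 2 / 2 = L * (2 * (‖a0‖ * l⁻¹) ^ 2) := by
    rw [hL]; field_simp
  have a4 : (‖a0‖ * l⁻¹) ^ 2 ≤ Q := by
    have := pow_le_pow_left₀ (by positivity)
      (mul_le_mul ha li (by positivity) ((norm_nonneg _).trans ha)) 2
    rw [hQ]; linarith
  have a5 := mul_le_mul_of_nonneg_left a4 L0
  have S := sint (τ := fun s => -tnn M W n a0 s / (l * om q h ^ 2)) (k := fun s => κ s ^ p)
    (k' := fun s => p * κ s ^ (p - 1) * deriv κ s) (o := n) (φ := arg a0)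
    (β := -(2 * amp M W * ‖a0‖) / (l * om q h ^ 2)) (L := L * Q) (e := η + Tt q h) (J := J) cρ
    (by fun_prop) pρ.per
    (fun s => by
      rw [tnn_eq, tnn_eq, ← Real.cos_add_nat_mul_two_pi (_ * s + _) n]
      ring_nf)
    (fun s => by rw [tnn_eq]; ring) (by linarith [mul_nonneg L0 (one_pos.le.trans Q1)])
    (fun s => (pκ.smooth.differentiable (by simp) s).hasDerivAt.fun_pow p) kp0
    (fun s => by
      rw [abs_mul, abs_mul, abs_pow, hJ, pow_succ, ← mul_assoc, Nat.abs_cast]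
      gcongr
      · linarith
      · exact (pow_le_pow_left₀ (abs_nonneg _) (k0 s) _).trans (pow_le_pow_right₀ j3 (by omega))
      · exact k1 s) n0
    (le_trans (by rw [← one_div, div_le_iff₀' n0]; exact nT) (le_add_of_nonneg_left η0))
    (by linarith)
    (by
      simp only [neg_div, sub_neg_eq_add]
      exact hs.trans (mul_le_mul (by gcongr; linarith) (le_mul_of_one_le_right L0 Q1) L0
        (sq_nonneg _)))
  set Φ : ℝ → ℝ := fun d => ∫ s in (0 : ℝ)..(2 * π), w s (s + d) * (ρ s * ρ (s + d)) * κ s ^ p with hΦ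
  have cF : Continuous fun x : ℝ × ℝ => w x.1 (x.1 + x.2) * (ρ x.1 * ρ (x.1 + x.2)) * κ x.1 ^ p :=
    (cw.mul (by fun_prop)).mul (by fun_prop)
  have b3 : |L * (2 * (‖a0‖ * l⁻¹) ^ 2) * ∫ s in (0 : ℝ)..(2 * π), κ s ^ p| ≤ 16 * (J * (L * Q)) := by
    rw [abs_mul, abs_of_nonneg (by positivity), show 16 * (J * (L * Q)) = 2 * (L * Q) * (J * 8) by ring]
    refine mul_le_mul (by linarith) ?_ (abs_nonneg _) (by positivity)
    refine (norm_integral_le_of_norm_le_const (f := fun s => κ s ^ p) fun s _ => kp0 s).trans ?_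
    rw [sub_zero, abs_of_pos Real.two_pi_pos]
    gcongr; linarith [Real.pi_lt_four]
  simp only [β2] at S
  have D := dsc (Φ := Φ) (Ψ := fun d => ∫ s in (0 : ℝ)..(2 * π), ρ s * ρ (s + d) * κ s ^ p)
    (U := J * (L * Q)) (e := η + Tt q h) (continuous_parametric_intervalIntegral_of_continuous'
      (f := fun d s => w s (s + d) * (ρ s * ρ (s + d)) * κ s ^ p) (cF.comp continuous_swap) _ _)
    (continuous_parametric_intervalIntegral_of_continuous'
      (f := fun d s => ρ s * ρ (s + d) * κ s ^ p) (by unfold Function.uncurry; fun_prop) _ _)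
    cgt (fun d => by simp only [hgt, abs_neg])
    (fun d => by have := m0 d; simp only [hgt, J2.GG, hw]; positivity) j1 hN.lo hN.hi T0 T2
    (r1.le.trans r0) r4 hn (le_add_of_nonneg_left η0) (by linarith) b3
    (fun d => ((S d).1 (fun s => w s (s + d)) fun s =>
      abs_le.2 ⟨by linarith [hw'.1.nn s (s + d)], hw'.1.le _ _⟩).trans_eq (by ring))
    (fun d => (S d).2.trans_eq (by ring))
    (fun x x1 x2 => integral_congr fun s _ => by
      have y1 : |x / l| ≤ (16 * j)⁻¹ := by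
        rw [abs_div, abs_of_pos l0, div_eq_mul_inv, ← one_div (16 * j), le_div_iff₀ (by positivity)]
        have := mul_le_mul_of_nonneg_right (mul_le_mul x2 li (by positivity) T0.le)
          (by positivity : 0 ≤ 16 * j)
        linarith
      have y2 : 2 * j * Tt q h / h ≤ |x / l| := by
        rw [abs_div, abs_of_pos l0, div_le_div_iff₀ h0 l0]
        have a1 := mul_le_mul_of_nonneg_left hN.hi (by positivity : 0 ≤ 2 * j * Tt q h)
        have a2 := mul_le_mul x1 hj (by positivity) (abs_nonneg _)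
        linarith [mul_pos (pow_pos j0 2) T0]
      have y3 : dc s (s + x / l) = |x / l| := by
        rw [dc_eq_abs, sub_add_cancel_left, abs_neg]
        rw [sub_add_cancel_left, abs_neg]
        refine y1.trans ((inv_le_one_of_one_le₀ (by linarith)).trans ?_)
        linarith [Real.pi_gt_three]
      rw [hw'.2 s (s + x / l) (y3 ▸ y2) (y3 ▸ y1), one_mul])
    (fun x hx => fr _ (le_max_right _ _)
      (hx.imp (fun b => max_le b (r0.trans r4)) fun b => le_max_of_le_left b))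
    ((congrArg norm (integral_congr fun d hd => by rw [g1 d hd])).trans_le (osc _ o0))
  rw [integral_congr g1, ← j2] at D
  have e1 : ∀ s d, w s (s + d) * (ρ s * ρ (s + d)) * κ s ^ p * g (l * |d|) =
      w s (s + d) * (ρ s * ρ (s + d)) * κ s ^ p * gt (l * d) := fun s d => by
    rcases le_total (l * |d|) (Tt q h / (2 * h)) with b | b
    · rw [hw'.1.zero s (s + d) ((dc_le_abs _ _).trans (by
        rw [sub_add_cancel_left, abs_neg, mul_div_assoc]
        linarith [mul_le_mul_of_nonneg_left b j0.le, mul_le_mul_of_nonneg_right lj (abs_nonneg d)]))]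
      simp
    · rw [hg _ (r1.trans_le b), hgt]; dsimp only
      rw [abs_mul, abs_of_pos l0, max_eq_left b]
  simp only [e1]
  rw [intervalIntegral_intervalIntegral_swap ((Continuous.continuousOn ((continuous_ofReal.comp
    (continuous_const.mul (cF.mul (cgt.comp (continuous_const.mul continuous_snd))))).mul
      (by fun_prop))).integrableOn_compact (isCompact_uIcc.prod isCompact_uIcc) |>.mono_set
      (prod_mono uIoc_subset_uIcc uIoc_subset_uIcc))]
  simp only [intervalIntegral.integral_mul_const, intervalIntegral.integral_ofReal,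
    intervalIntegral.integral_const_mul]
  have ch := integral_comp_mul_left (a := -π) (b := π) (fun x : ℝ =>
    ((Φ (x / l) * gt x : ℝ) : ℂ) * exp (-(I * om q h * (|x| : ℝ)))) l0.ne'
  simp only [mul_div_cancel_left₀ _ l0.ne', abs_mul, abs_of_pos l0, mul_neg] at ch
  have lc : (l : ℂ) ≠ 0 := ofReal_ne_zero.2 l0.ne'
  have e2 : (∫ d in (-π)..π, ((l ^ 2 * (Φ d * gt (l * d)) : ℝ) : ℂ) *
      exp (-(I * om q h * (l * |d| : ℝ)))) = l * ∫ x in (-(l * π))..(l * π),
        ((Φ (x / l) * gt x : ℝ) : ℂ) * exp (-(I * om q h * (|x| : ℝ))) := by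
    simp only [ofReal_mul (l ^ 2), mul_assoc ((l ^ 2 : ℝ) : ℂ), intervalIntegral.integral_const_mul]
    rw [ch, real_smul]
    push_cast
    field_simp
  rw [e2, show ((L * (2 * (‖a0‖ ^ 2 / l) * jj * ∫ s in (0 : ℝ)..(2 * π), κ s ^ p) : ℝ) : ℂ) =
    l * (((L * (2 * (‖a0‖ * l⁻¹) ^ 2) * ∫ s in (0 : ℝ)..(2 * π), κ s ^ p) * jj : ℝ) : ℂ) by
      rw [← ofReal_mul]; congr 1; field_simp, ← mul_sub, norm_mul, norm_real, Real.norm_of_nonneg l0.le]
  have U0 : 0 ≤ J * (L * Q) := by positivity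
  have w0 : 0 < ww q h := by rw [hw]; positivity
  refine (mul_le_mul hN.hi D (norm_nonneg _) j0.le).trans ?_
  calc _ = j * (J * (L * Q)) * (22032 * j ^ 2 * C2 * Tt q h ^ a * (Real.exp (-(h ^ 4 / 32)) / ww q h) +
        632 * j * ((η + Tt q h) * jj) + 16 * (C * Tt q h ^ a) * (1 * (1 / (ww q h * om q h)))) := by ring
    _ ≤ j * (J * (L * Q)) * (22032 * j ^ 2 * C2 * Tt q h ^ a * (K * (η + δ + Tt q h)) +
        632 * j * ((η + δ + Tt q h) * (C * Tt q h ^ a)) +
          16 * (C * Tt q h ^ a) * (j * (η + δ + Tt q h))) := by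
      gcongr _ * (_ * ?_ + _ * ?_ + _ * ?_)
      · exact ex.trans (by gcongr; linarith)
      · exact (mul_le_mul_of_nonneg_left up (by positivity)).trans (by gcongr; linarith)
      · exact mul_le_mul j1 (w1.trans (by linarith)) (by positivity) j0.le
    _ = _ := by ring

end Pool.Agent.Lib.IS3
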