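import Pool.Agent.Lib.IS3.Blue

/-! Two smooth plane curves have the same jet of curvature at all but countably many common
points. -/

open scoped ContDiff ComplexConjugate Topology
open Complex Set Filter

noncomputable section

namespace Pool.Agent.Lib.IS3

open Pool.Agent.Lib.IS2

namespace JL0

variable {E F G : Type} [NormedAddCommGroup E] [NormedSpace ℝ E] [NormedAddCommGroup F]
  [NormedSpace ℝ F] [NormedAddCommGroup G] [NormedSpace ℝ G] {a : ℝ}

theorem smd {f : ℝ → E} (h : ContDiffAt ℝ ∞ f a) : ContDiffAt ℝ ∞ (deriv f) a :=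
  h.derivWithin (by simp)

theorem evd {f : ℝ → E} (h : ContDiffAt ℝ ∞ f a) : ∀ᶠ t in 𝓝 a, HasDerivAt f (deriv f t) t :=
  ((h.of_le (by simp : (1 : WithTop ℕ∞) ≤ ∞)).eventually (by simp)).mono fun _ ht =>
    (ht.differentiableAt (by simp)).hasDerivAt

/-- Smooth at `a`, and all derivatives vanish at `a`. -/
def Fl (a : ℝ) (f : ℝ → E) : Prop := ContDiffAt ℝ ∞ f a ∧ ∀ n, iteratedDeriv n f a = 0

theorem Fl.zero {f : ℝ → E} (h : Fl a f) : f a = 0 := by simpa using h.2 0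

theorem Fl.der {f : ℝ → E} (h : Fl a f) : Fl a (deriv f) :=
  ⟨smd h.1, fun n => by rw [← iteratedDeriv_succ', h.2]⟩

theorem Fl.cng {f g : ℝ → E} (h : Fl a f) (e : g =ᶠ[𝓝 a] f) : Fl a g :=
  ⟨h.1.congr_of_eventuallyEq e, fun n => by rw [(e.iteratedDeriv n).self_of_nhds, h.2]⟩

theorem Fl.add {f g : ℝ → E} (h : Fl a f) (h' : Fl a g) : Fl a fun t => f t + g t :=
  ⟨h.1.add h'.1, fun n => by
    have := iteratedDeriv_add (n := n) (h.1.of_le (by exact_mod_cast le_top))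
      (h'.1.of_le (by exact_mod_cast le_top))
    rw [h.2, h'.2, add_zero] at this
    exact this⟩

theorem bil_sm (B : E →L[ℝ] F →L[ℝ] G) {u : ℝ → E} {f : ℝ → F} (hu : ContDiffAt ℝ ∞ u a)
    (hf : ContDiffAt ℝ ∞ f a) : ContDiffAt ℝ ∞ (fun t => B (u t) (f t)) a :=
  (B.contDiff.contDiffAt.comp a hu).clm_apply hf

theorem bil_aux (B : E →L[ℝ] F →L[ℝ] G) (n : ℕ) : ∀ (u : ℝ → E) (f : ℝ → F),
    ContDiffAt ℝ ∞ u a → Fl a f → iteratedDeriv n (fun t => B (u t) (f t)) a = 0 := by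
  induction n with
  | zero => intro u f _ hf; simp [hf.zero]
  | succ n ih =>
    intro u f hu hf
    have e : deriv (fun t => B (u t) (f t)) =ᶠ[𝓝 a]
        (fun t => B (deriv u t) (f t)) + fun t => B (u t) (deriv f t) := by
      filter_upwards [evd hu, evd hf.1] with t h1 h2
      exact ((B.hasFDerivAt.comp_hasDerivAt t h1).clm_apply h2).deriv
    rw [iteratedDeriv_succ', (e.iteratedDeriv n).self_of_nhds,
      iteratedDeriv_add ((bil_sm B (smd hu) hf.1).of_le (by exact_mod_cast le_top))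
        ((bil_sm B hu hf.der.1).of_le (by exact_mod_cast le_top)),
      ih _ _ (smd hu) hf, ih _ _ hu hf.der, add_zero]

theorem Fl.bil (B : E →L[ℝ] F →L[ℝ] G) {u : ℝ → E} {f : ℝ → F} (hu : ContDiffAt ℝ ∞ u a)
    (hf : Fl a f) : Fl a fun t => B (u t) (f t) :=
  ⟨bil_sm B hu hf.1, fun n => bil_aux B n u f hu hf⟩

theorem Fl.mul {A : Type} [NormedRing A] [NormedAlgebra ℝ A] {u f : ℝ → A}
    (hu : ContDiffAt ℝ ∞ u a) (hf : Fl a f) : Fl a fun t => u t * f t :=
  hf.bil (ContinuousLinearMap.mul ℝ A) hu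

theorem Fl.lin (L : F →L[ℝ] G) {f : ℝ → F} (hf : Fl a f) : Fl a fun t => L (f t) :=
  hf.bil (u := fun _ => L) (ContinuousLinearMap.id ℝ (F →L[ℝ] G)) contDiffAt_const

omit [NormedSpace ℝ E] in
theorem fr_zero {f : ℝ → E} (h : ContinuousAt f a) (z : ∃ᶠ t in 𝓝 a, t ≠ a ∧ f t = 0) :
    f a = 0 := by
  by_contra h0
  obtain ⟨t, ht, ht'⟩ := (z.and_eventually (h.eventually_ne h0)).exists
  exact ht' ht.2

theorem rolle {f : ℝ → ℝ} (h : ContDiffAt ℝ ∞ f a) (z : ∃ᶠ t in 𝓝 a, t ≠ a ∧ f t = 0) :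
    ∃ᶠ t in 𝓝 a, t ≠ a ∧ deriv f t = 0 := by
  have h0 := fr_zero h.continuousAt z
  rw [frequently_iff]
  intro U hU
  obtain ⟨l, u, hm, hs⟩ := mem_nhds_iff_exists_Ioo_subset.1 (inter_mem hU (evd h))
  obtain ⟨t, ⟨hne, ht⟩, htm⟩ := (z.and_eventually (Ioo_mem_nhds hm.1 hm.2)).exists
  have hc : ContinuousOn f (Ioo l u) := fun x hx =>
    (HasDerivAt.continuousAt (hs hx).2).continuousWithinAt
  rcases lt_or_gt_of_ne hne with hl | hl
  · obtain ⟨x, hx, hx0⟩ := exists_deriv_eq_zero hl (hc.mono (Icc_subset_Ioo htm.1 hm.2))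
      (ht.trans h0.symm)
    exact ⟨x, (hs ⟨htm.1.trans hx.1, hx.2.trans hm.2⟩).1, hx.2.ne, hx0⟩
  · obtain ⟨x, hx, hx0⟩ := exists_deriv_eq_zero hl (hc.mono (Icc_subset_Ioo hm.1 htm.2))
      (h0.trans ht.symm)
    exact ⟨x, (hs ⟨hm.1.trans hx.1, hx.2.trans htm.2⟩).1, hx.1.ne', hx0⟩

theorem fl_real (n : ℕ) : ∀ f : ℝ → ℝ, ContDiffAt ℝ ∞ f a → (∃ᶠ t in 𝓝 a, t ≠ a ∧ f t = 0) →
    iteratedDeriv n f a = 0 := by
  induction n with
  | zero => intro f h z; simpa using fr_zero h.continuousAt z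
  | succ n ih => intro f h z; rw [iteratedDeriv_succ', ih _ (smd h) (rolle h z)]

theorem fl_of {f : ℝ → ℂ} (h : ContDiffAt ℝ ∞ f a) (z : ∃ᶠ t in 𝓝 a, t ≠ a ∧ f t = 0) :
    Fl a f := by
  have k : ∀ L : ℂ →L[ℝ] ℝ, Fl a fun t => L (f t) := fun L =>
    have s : ContDiffAt ℝ ∞ (fun t => L (f t)) a := L.contDiff.contDiffAt.comp a h
    ⟨s, fun n => fl_real n _ s (z.mono fun t ht => ⟨ht.1, by simp [ht.2]⟩)⟩
  refine (((k reCLM).lin ofRealCLM).add (((k imCLM).lin ofRealCLM).mul (u := fun _ => I)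
    contDiffAt_const)).cng (Eventually.of_forall fun t => ?_)
  simp [mul_comm I]

theorem cj {f : ℝ → ℂ} (h : ContDiffAt ℝ ∞ f a) : ContDiffAt ℝ ∞ (fun t => conj (f t)) a :=
  conjCLE.contDiff.contDiffAt.comp a h

theorem kp_sm {g : ℝ → ℂ} (h : ContDiffAt ℝ ∞ g a) : ContDiffAt ℝ ∞ (kp g) a :=
  imCLM.contDiff.contDiffAt.comp a ((smd (smd h)).mul (cj (smd h)))

/-- The jets of the curvature agree when the curves are tangent to infinite order. -/
theorem jet {c g : ℝ → ℂ} {ψ : ℝ → ℝ} (hc : ContDiffAt ℝ ∞ c a) (hg : ContDiff ℝ ∞ g)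
    (h1 : ∀ s, ‖deriv g s‖ = 1) (hψ : ContDiffAt ℝ ∞ ψ a) (h0 : deriv c a ≠ 0)
    (hf : Fl a fun t => c t - g (ψ t)) : ∃ τ : ℝ, (τ = 1 ∨ τ = -1) ∧
      ∀ n, iteratedDeriv n (kp g) (ψ a) = τ ^ (n + 1) * Dn c n a := by
  have g1 := (contDiff_infty_iff_deriv.1 hg).2
  have g2 := (contDiff_infty_iff_deriv.1 g1).2
  have dg : ∀ s, HasDerivAt g (deriv g s) s := fun s =>
    ((contDiff_infty_iff_deriv.1 hg).1 s).hasDerivAt
  have dg1 : ∀ s, HasDerivAt (deriv g) (deriv (deriv g) s) s := fun s =>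
    ((contDiff_infty_iff_deriv.1 g1).1 s).hasDerivAt
  have sp := smd hψ
  have oR : ∀ {u : ℝ → ℝ}, ContDiffAt ℝ ∞ u a → ContDiffAt ℝ ∞ (fun t => (u t : ℂ)) a :=
    fun h => ofRealCLM.contDiff.contDiffAt.comp a h
  set p := deriv ψ with hp
  set A : ℝ → ℂ := fun t => p t * deriv g (ψ t) with hA
  set B : ℝ → ℂ := fun t => (deriv p t : ℝ) * deriv g (ψ t) +
    p t * (p t * deriv (deriv g) (ψ t)) with hB
  have sA : ContDiffAt ℝ ∞ A a := (oR sp).mul (g1.contDiffAt.comp a hψ)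
  have sB : ContDiffAt ℝ ∞ B a := ((oR (smd sp)).mul (g1.contDiffAt.comp a hψ)).add
    ((oR sp).mul ((oR sp).mul (g2.contDiffAt.comp a hψ)))
  have f1 : Fl a fun t => deriv c t - A t := hf.der.cng (by
    filter_upwards [evd hc, evd hψ] with t e1 e2
    exact (e1.sub ((dg (ψ t)).scomp t e2)).deriv.symm)
  have f2 : Fl a fun t => deriv (deriv c) t - B t := f1.der.cng (by
    filter_upwards [evd (smd hc), evd hψ, evd sp] with t e1 e2 e3
    exact (e1.sub (e3.ofReal_comp.mul ((dg1 (ψ t)).scomp t e2))).deriv.symm)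
  have ns : ∀ s, (deriv g s).re ^ 2 + (deriv g s).im ^ 2 = 1 := fun s => by
    have := Complex.sq_norm (deriv g s)
    rw [h1, normSq_apply] at this
    linarith
  have fc : Fl a fun t => conj (deriv c t - A t) := f1.lin (conjCLE : ℂ →L[ℝ] ℂ)
  have k1 : Fl a fun t => kp c t - kp g (ψ t) * p t ^ 3 :=
    (((f2.mul (cj (smd hc))).add (fc.mul sB)).lin imCLM).cng (Eventually.of_forall fun t => by
      simp only [kp, hA, hB, imCLM_apply, add_im, mul_im, sub_re, sub_im, conj_re, conj_im, add_re,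
        mul_re, ofReal_re, ofReal_im]
      ring)
  set N : ℝ → ℝ := fun t => ‖deriv c t‖ with hN
  have sN : ContDiffAt ℝ ∞ N a := (smd hc).norm ℝ h0
  have N0 : 0 < N a := norm_pos_iff.2 h0
  have k2 : Fl a fun t => N t ^ 2 - p t ^ 2 :=
    (((f1.mul (cj (smd hc))).add (fc.mul sA)).lin reCLM).cng (Eventually.of_forall fun t => by
      have := ns (ψ t)
      simp only [hN, Complex.sq_norm, normSq_apply, hA, reCLM_apply, mul_im, sub_re, sub_im,
        conj_re, conj_im, add_re, mul_re, ofReal_re, ofReal_im]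
      linear_combination (p t ^ 2) * this)
  obtain ⟨τ, hτ, hpos⟩ : ∃ τ : ℝ, (τ = 1 ∨ τ = -1) ∧ 0 ≤ τ * p a := by
    rcases le_total 0 (p a) with h | h
    · exact ⟨1, Or.inl rfl, by linarith⟩
    · exact ⟨-1, Or.inr rfl, by linarith⟩
  have t2 : τ ^ 2 = 1 := by rcases hτ with h | h <;> simp [h]
  have sS : ContDiffAt ℝ ∞ (fun t => N t + τ * p t) a := sN.add (contDiffAt_const.mul sp)
  have S0 : N a + τ * p a ≠ 0 := by positivity
  have eN : ∀ᶠ t in 𝓝 a, N t ≠ 0 := sN.continuousAt.eventually_ne N0.ne'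
  have k3 : Fl a fun t => N t - τ * p t := (k2.mul (sS.inv S0)).cng (by
    filter_upwards [sS.continuousAt.eventually_ne S0] with t ht
    rw [Pi.inv_apply, eq_inv_mul_iff_mul_eq₀ ht]
    linear_combination (-p t ^ 2) * t2)
  have sk : ContDiff ℝ ∞ (kp g) := contDiff_iff_contDiffAt.2 fun s => kp_sm hg.contDiffAt
  have sK : ∀ n, ContDiff ℝ ∞ (iteratedDeriv n (kp g)) := fun n => by
    rw [iteratedDeriv_eq_iterate]
    exact sk.iterate_deriv n
  have sK' : ∀ n, ContDiffAt ℝ ∞ (fun t => iteratedDeriv n (kp g) (ψ t)) a := fun n =>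
    (sK n).contDiffAt.comp a hψ
  have sI : ContDiffAt ℝ ∞ (fun t => (N t)⁻¹) a := sN.inv N0.ne'
  have main : ∀ n, Fl a fun t => Dn c n t - τ ^ (n + 1) * iteratedDeriv n (kp g) (ψ t) := by
    intro n
    induction n with
    | zero =>
      refine ((k1.mul (sI.pow 3)).add (k3.mul (u := fun t => -τ * iteratedDeriv 0 (kp g) (ψ t) *
        (N t ^ 2 + τ * N t * p t + p t ^ 2) * (N t)⁻¹ ^ 3) (((contDiffAt_const.mul (sK' 0)).mul
          (((sN.pow 2).add ((contDiffAt_const.mul sN).mul sp)).add (sp.pow 2))).mul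
            (sI.pow 3)))).cng ?_
      filter_upwards [eN] with t ht
      show kp c t / N t ^ 3 - _ = _
      simp only [iteratedDeriv_zero]
      field_simp
      rcases hτ with h | h <;> rw [h] <;> ring
    | succ n ih =>
      have sD : ContDiffAt ℝ ∞ (Dn c n) a := by
        have := ih.1.add ((contDiffAt_const (c := τ ^ (n + 1))).mul (sK' n))
        simpa using this
      refine ((ih.der.mul sI).add (k3.mul (u := fun t => -τ ^ (n + 2) *
        iteratedDeriv (n + 1) (kp g) (ψ t) * (N t)⁻¹)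
          ((contDiffAt_const.mul (sK' (n + 1))).mul sI))).cng ?_
      filter_upwards [eN, evd sD, evd hψ] with t ht e1 e2
      have e3 : HasDerivAt (iteratedDeriv n (kp g)) (iteratedDeriv (n + 1) (kp g) (ψ t)) (ψ t) := by
        rw [iteratedDeriv_succ]
        exact ((contDiff_infty_iff_deriv.1 (sK n)).1 _).hasDerivAt
      have e4 : deriv (fun t => Dn c n t - τ ^ (n + 1) * iteratedDeriv n (kp g) (ψ t)) t = _ :=
        (e1.sub ((e3.comp t e2).const_mul (τ ^ (n + 1)))).deriv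
      rw [e4]
      show deriv (Dn c n) t / N t - _ = _
      field_simp
      linear_combination (-(τ ^ (n + 1) * iteratedDeriv (n + 1) (kp g) (ψ t) * p t)) * t2
  refine ⟨τ, hτ, fun n => ?_⟩
  have := (main n).zero
  have t3 : τ ^ (n + 1) * τ ^ (n + 1) = 1 := by rw [← mul_pow, ← sq, t2, one_pow]
  linear_combination (-τ ^ (n + 1)) * this - iteratedDeriv n (kp g) (ψ a) * t3

/-- A smooth local left inverse of a curve of unit speed. -/
theorem inv {g : ℝ → ℂ} (hg : ContDiff ℝ ∞ g) (h1 : ∀ s, ‖deriv g s‖ = 1) (s : ℝ) :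
    ∃ σ : ℂ → ℝ, ContDiffAt ℝ ∞ σ (g s) ∧ ∀ᶠ r in 𝓝 s, σ (g r) = r := by
  have sl : ContDiff ℝ ∞ fun z : ℂ => (z * conj (deriv g s)).re :=
    reCLM.contDiff.comp (contDiff_id.mul contDiff_const)
  have sx : ContDiffAt ℝ ∞ (fun r => (g r * conj (deriv g s)).re) s := (sl.comp hg).contDiffAt
  have d : HasDerivAt (fun r => (g r * conj (deriv g s)).re) 1 s := by
    have := reCLM.hasFDerivAt.comp_hasDerivAt s
      ((((contDiff_infty_iff_deriv.1 hg).1 s).hasDerivAt).mul_const (conj (deriv g s)))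
    rwa [mul_conj, normSq_eq_norm_sq, h1, one_pow, reCLM_apply, ofReal_re] at this
  have d' := d.hasFDerivAt_equiv one_ne_zero
  exact ⟨sx.localInverse d' (by simp) ∘ fun z => (z * conj (deriv g s)).re,
    ContDiffAt.comp (g s) (sx.to_localInverse d' (by simp)) sl.contDiffAt,
    (sx.hasStrictFDerivAt' d' (by simp)).eventually_left_inverse⟩

end JL0

open JL0 in
theorem st_jl0 : St_JL0 := by
  intro c g hc hg h1
  have hZ : IsClosed {q : ℝ × ℝ | c q.1 = g q.2} :=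
    isClosed_eq (hc.continuous.comp continuous_fst) (hg.continuous.comp continuous_snd)
  obtain ⟨V, D, hV, hD, hVD⟩ := exists_countable_union_perfect_of_isClosed hZ
  refine (hV.image Prod.fst).mono ?_
  rintro t ⟨h0, s, hts, hn⟩
  have hm : (t, s) ∈ V ∪ D := hVD ▸ hts
  refine ⟨(t, s), hm.resolve_right fun hd => hn ?_, rfl⟩
  obtain ⟨σ, sσ, hσ⟩ := inv hg h1 s
  have hψ : ContDiffAt ℝ ∞ (fun r => σ (c r)) t := (hts ▸ sσ).comp t hc.contDiffAt
  have e0 : σ (c t) = s := hts ▸ hσ.self_of_nhds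
  have fr : ∃ᶠ r in 𝓝 t, r ≠ t ∧ c r - g (σ (c r)) = 0 := by
    have h2 := (accPt_iff_frequently.1 (hD.acc _ hd)).and_eventually
      ((continuous_snd.tendsto (t, s)).eventually hσ)
    refine (continuous_fst.tendsto (t, s)).frequently (h2.mono ?_)
    rintro q ⟨⟨hne, hq⟩, hq'⟩
    have hz : c q.1 = g q.2 := (hVD.symm ▸ Or.inr hq : q ∈ {q : ℝ × ℝ | c q.1 = g q.2})
    refine ⟨fun e => hne (Prod.ext e ?_), by rw [hz, hq', sub_self]⟩
    rw [← hq', ← hz, e, e0]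
  have := jet hc.contDiffAt hg h1 hψ h0
    (fl_of (hc.contDiffAt.sub (hg.contDiffAt.comp t hψ)) fr)
  rwa [e0] at this

end Pool.Agent.Lib.IS3
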