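import Pool.Agent.Lib.IS3.Kit

/-! Generic curves meet lines and moved curves in countably many points. -/

open scoped ContDiff ComplexConjugate Topology Real
open Complex Set Filter

noncomputable section

namespace Pool.Agent.Lib.IS3

open Pool.Agent.Lib.ISO Pool.Agent.Lib.IS2

namespace JLM

/-- the scaled curve in arc length -/
def al (l : ℝ) (G : ℝ → ℂ) (u : ℝ) : ℂ := l * G (u / l)

variable {l : ℝ} {G : ℝ → ℂ}

lemma al_smooth (h : ContDiff ℝ ∞ G) : ContDiff ℝ ∞ (al l G) :=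
  contDiff_const.mul (h.comp (contDiff_id.div_const l))

lemma hd_div {F : ℝ → ℂ} (h : Differentiable ℝ F) (l u : ℝ) :
    HasDerivAt (fun u => F (u / l)) ((l : ℂ)⁻¹ * deriv F (u / l)) u := by
  have := (h (u / l)).hasDerivAt.scomp u ((hasDerivAt_id u).div_const l)
  simpa [Function.comp_def] using this

lemma deriv_al (hl : 0 < l) (h : ContDiff ℝ ∞ G) : deriv (al l G) = fun u => deriv G (u / l) := by
  funext u
  have := ((hd_div (h.differentiable (by simp)) l u).const_mul (l : ℂ)).deriv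
  rwa [mul_inv_cancel_left₀ (ofReal_ne_zero.2 hl.ne')] at this

lemma kp_al (hl : 0 < l) (h : ContDiff ℝ ∞ G) : kp (al l G) = ph l (kp G) := by
  funext u
  have h1 := (contDiff_infty_iff_deriv.1 h).2.differentiable (by simp)
  simp only [kp, ph, deriv_al hl h, (hd_div h1 l u).deriv]
  rw [mul_assoc, ← ofReal_inv, im_ofReal_mul, div_eq_inv_mul _ l, div_eq_inv_mul _ l]

lemma kp_act (r : Bool) {p : ℂ × ℂ} (hp : ‖p.1‖ = 1) (h : ContDiff ℝ ∞ G) :
    kp (act r p G) = fun s => kp G (fl r s) := by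
  funext s
  have e : p.1 * conj p.1 = 1 := by rw [mul_conj, normSq_eq_norm_sq, hp]; simp
  rw [kp, deriv2_act r p h, deriv_act r p (h.differentiable (by simp)), kp]
  generalize deriv (deriv G) (fl r s) = a
  generalize deriv G (fl r s) = b
  cases r
  · rw [show ml false p.1 a * conj ((sg false : ℂ) * ml false p.1 b) =
      p.1 * conj p.1 * (a * conj b) by simp [ml_apply, sg]; ring, e, one_mul]
  · rw [show ml true p.1 a * conj ((sg true : ℂ) * ml true p.1 b) =
      -(p.1 * conj p.1 * conj (a * conj b)) by simp [ml_apply, sg]; ring, e, one_mul, neg_im,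
      conj_im, neg_neg]

lemma dn_unit {c : ℝ → ℂ} (h : ∀ s, ‖deriv c s‖ = 1) (n : ℕ) : Dn c n = iteratedDeriv n (kp c) := by
  induction n with
  | zero => funext t; simp [Dn, h]
  | succ n ih => funext t; simp [Dn, h, ih, iteratedDeriv_succ]

lemma pn_zero (κ : ℝ → ℝ) (n : ℕ) : Pn 0 κ n = iteratedDeriv n κ := by
  induction n with
  | zero => funext t; simp [Pn]
  | succ n ih => funext t; simp [Pn, ih, iteratedDeriv_succ]

lemma abs_fl (r : Bool) (κ : ℝ → ℝ) (n : ℕ) (s : ℝ) :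
    |iteratedDeriv n (fun s => κ (fl r s)) s| = |iteratedDeriv n κ (fl r s)| := by
  cases r
  · rfl
  · show |iteratedDeriv n (fun s => κ (-s)) s| = |iteratedDeriv n κ (-s)|
    rw [iteratedDeriv_comp_neg]
    simp [abs_mul]

lemma jl (h0 : St_JL0) {c g : ℝ → ℂ} (hc : ContDiff ℝ ∞ c) (hg : ContDiff ℝ ∞ g)
    (uc : ∀ s, ‖deriv c s‖ = 1) (ug : ∀ s, ‖deriv g s‖ = 1) :
    {t | ∃ s, c t = g s ∧ ¬∀ n, |iteratedDeriv n (kp g) s| = |iteratedDeriv n (kp c) t|}.Countable := by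
  refine (h0 c g hc hg ug).mono ?_
  rintro t ⟨s, e, h⟩
  refine ⟨norm_ne_zero_iff.1 (by simp [uc]), s, e, ?_⟩
  rintro ⟨τ, hτ, h1⟩
  refine h fun n => ?_
  rw [h1 n, dn_unit uc]
  rcases hτ with rfl | rfl <;> simp [abs_mul]

lemma line (h0 : St_JL0) {c : ℝ → ℂ} (hc : ContDiff ℝ ∞ c) (uc : ∀ s, ‖deriv c s‖ = 1)
    (hf : ∀ s, ∃ n, 1 ≤ n ∧ iteratedDeriv n (kp c) s ≠ 0) (z : ℂ) {v : ℂ} (hv : v ≠ 0) :
    {s | ∃ t : ℝ, c s = z + t * v}.Countable := by
  have hn : (‖v‖ : ℂ) ≠ 0 := ofReal_ne_zero.2 (norm_ne_zero_iff.2 hv)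
  have hd : deriv (fun t : ℝ => z + t * (v / ‖v‖)) = fun _ => v / ‖v‖ := funext fun t => by
    simpa using ((ofRealCLM.hasDerivAt (x := t)).mul_const (v / ‖v‖)).const_add z |>.deriv
  refine (jl h0 (g := fun t : ℝ => z + t * (v / ‖v‖)) hc
    (contDiff_const.add (ofRealCLM.contDiff.mul contDiff_const)) uc fun s => ?_).mono ?_
  · rw [hd]
    simp [hv]
  · rintro s ⟨t, e⟩
    refine ⟨t * ‖v‖, by rw [e]; push_cast; field_simp, fun h => ?_⟩
    obtain ⟨n, -, h1⟩ := hf s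
    have h2 : kp (fun t : ℝ => z + t * (v / ‖v‖)) = fun _ => 0 := funext fun t => by simp [kp, hd]
    have h3 := h n
    rw [h2] at h3
    exact h1 (by simpa using h3.symm)

lemma real_of {a a' v d : ℂ} (ha : ‖a‖ = 1) (hv : v ≠ 0) (h1 : a * v = a' * conj v)
    (h2 : a * d = a' * conj d) : ∃ t : ℝ, d = t * v := by
  have h3 : a ≠ 0 := norm_ne_zero_iff.1 (by simp [ha])
  have h4 : conj v ≠ 0 := by simpa using hv
  refine ⟨(d / v).re, ?_⟩
  rw [conj_eq_iff_re.1 (show conj (d / v) = d / v from ?_), div_mul_cancel₀ _ hv]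
  have h5 : a' ≠ 0 := fun h => mul_ne_zero h3 hv (by rw [h1, h, zero_mul])
  rw [map_div₀, div_eq_div_iff h4 hv]
  refine mul_left_cancel₀ (mul_ne_zero h3 h5) ?_
  linear_combination (a' * conj d) * h1 - (a' * conj v) * h2

lemma mo_ext {r r' : Bool} {p p' : ℂ × ℂ} (hp : ‖p.1‖ = 1) (hp' : ‖p'.1‖ = 1) {w v d : ℂ}
    (hv : v ≠ w) (hd : ¬∃ t : ℝ, d = w + t * (v - w)) (e0 : mo r p w = mo r' p' w)
    (e1 : mo r p v = mo r' p' v) (e2 : mo r p d = mo r' p' d) : r = r' ∧ p = p' := by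
  have h0 := sub_ne_zero.2 hv
  have h1 : ml r p.1 (v - w) = ml r' p'.1 (v - w) := by rw [← mo_sub, ← mo_sub, e0, e1]
  have h2 : ml r p.1 (d - w) = ml r' p'.1 (d - w) := by rw [← mo_sub, ← mo_sub, e0, e2]
  have h3 : r = r' := by
    by_contra h
    refine hd (Exists.imp (fun t => sub_eq_iff_eq_add'.1) ?_)
    rw [ml_apply, ml_apply] at h1 h2
    cases r <;> cases r'
    exacts [absurd rfl h, real_of hp h0 h1 h2, real_of hp' h0 h1.symm h2.symm, absurd rfl h]
  subst h3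
  have h4 : p.1 = p'.1 := by
    rw [ml_apply, ml_apply] at h1
    refine mul_right_cancel₀ ?_ h1
    cases r
    exacts [h0, (map_ne_zero _).2 h0]
  rw [mo, mo, h4] at e0
  exact ⟨rfl, Prod.ext h4 (add_left_cancel e0)⟩

end JLM

open JLM in
theorem st_jlm (h0 : St_JL0) : St_JLM := by
  intro j N l G h
  have hl : ∀ i, 0 < l i := fun i =>
    (inv_pos.2 (one_pos.trans_le h.sd.nv.one_le)).trans_le (h.sd.ns i).lo
  have hs := fun i => (h.sd.ns i).nc.smooth
  have sa := fun i => al_smooth (l := l i) (hs i)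
  have ua : ∀ i s, ‖deriv (al (l i) (G i)) s‖ = 1 := fun i s => by
    rw [deriv_al (hl i) (hs i)]
    exact (h.sd.ns i).nc.unit _
  have ea : ∀ i s, scm l G i s = al (l i) (G i) (l i * s) := fun i s => by
    rw [al, mul_div_cancel_left₀ _ (hl i).ne']
    rfl
  have ln := fun i => line h0 (sa i) (ua i) fun s => by
    rw [kp_al (hl i) (hs i)]
    exact h.gg.flat i s
  refine ⟨fun i z v hv => ?_, fun i i' r r' p p' hp hp' hc => ?_⟩
  · simp only [ea]
    exact (ln i z hv).preimage (mul_right_injective₀ (hl i).ne')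
  have ub : ∀ i r (p : ℂ × ℂ), ‖p.1‖ = 1 → ∀ s, ‖deriv (act r p (al (l i) (G i))) s‖ = 1 :=
    fun i r p hp s => by
      rw [deriv_act r p ((sa i).differentiable (by simp)), norm_mul, norm_ml, hp, ua, norm_real,
        Real.norm_eq_abs, abs_sg, one_mul, one_mul]
  have eb : ∀ i r (p : ℂ × ℂ) s,
      act r p (scm l G i) s = act r p (al (l i) (G i)) (l i * s) := fun i r p s => by
    rw [act, act, ea, fl_eq, fl_eq, mul_left_comm]
  have hB := jl h0 (act_smooth r p (sa i)) (act_smooth r' p' (sa i')) (ub i r p hp) (ub i' r' p' hp')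
  simp only [kp_act _ hp (sa i), kp_act _ hp' (sa i'), abs_fl, kp_al (hl _) (hs _)] at hB
  have hA : ¬{t | ∃ s, act r p (al (l i) (G i)) t = act r' p' (al (l i') (G i')) s ∧ ∀ n,
      |iteratedDeriv n (ph (l i') (kp (G i'))) (fl r' s)| =
        |iteratedDeriv n (ph (l i) (kp (G i))) (fl r t)|}.Countable := fun hA =>
    hc (((hA.union hB).image (act r p (al (l i) (G i)))).mono (by
      rintro _ ⟨⟨t, rfl⟩, s, e⟩
      rw [eb, eb] at e
      refine ⟨l i * t, ?_, (eb ..).symm⟩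
      by_cases h1 : ∀ n, |iteratedDeriv n (ph (l i') (kp (G i'))) (fl r' (l i' * s))| =
        |iteratedDeriv n (ph (l i) (kp (G i))) (fl r (l i * t))|
      exacts [Or.inl ⟨_, e.symm, h1⟩, Or.inr ⟨_, e.symm, h1⟩]))
  obtain rfl : i = i' := by
    by_contra hi
    obtain ⟨t, ⟨s, -, h1⟩, -⟩ := not_subset.1 fun e => hA (countable_empty.mono e)
    obtain ⟨n, hn⟩ := h.gg.par i i' hi 0 (fl r t) (fl r' s) (by simp)
    rw [pn_zero] at hn
    exact hn (h1 n).symm
  have hD : ¬{u | mo r p (al (l i) (G i) u) = mo r' p' (al (l i) (G i) u)}.Countable := fun hD =>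
    hA ((hD.preimage (f := fl r) (Function.LeftInverse.injective (fl_fl r))).mono (by
      rintro t ⟨s, e, h1⟩
      obtain ⟨m, hm⟩ := h.gg.jet i (fl r t) (fl r' s) fun n _ => (h1 n).symm
      refine e.trans ?_
      rw [act, hm, al, al, add_div, mul_div_assoc, mul_div_cancel_right₀ _ (hl i).ne',
        ((h.sd.ns i).nc.per.int_mul m) _]))
  have pick : ∀ {S : Set ℝ}, S.Countable → ∃ u,
      mo r p (al (l i) (G i) u) = mo r' p' (al (l i) (G i) u) ∧ u ∉ S :=
    fun hS => not_subset.1 fun e => hD (hS.mono e)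
  obtain ⟨u0, e0, -⟩ := pick countable_empty
  obtain ⟨u1, e1, n1⟩ := pick (ln i (al (l i) (G i) u0) one_ne_zero)
  have hv : al (l i) (G i) u1 ≠ al (l i) (G i) u0 := fun e => n1 ⟨0, by simp [e]⟩
  obtain ⟨u2, e2, n2⟩ := pick (ln i (al (l i) (G i) u0) (sub_ne_zero.2 hv))
  exact ⟨rfl, mo_ext hp hp' hv n2 e0 e1 e2⟩

end Pool.Agent.Lib.IS3
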