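import Pool.Agent.Lib.IS3.Kit
import Pool.Agent.Lib.IS2.B_JMP

/-! The jump relation for the double layer potential on several curves. -/

open scoped ContDiff ComplexConjugate Topology Real
open Complex MeasureTheory Set Filter

noncomputable section

namespace Pool.Agent.Lib.IS3

open Pool.Agent.Lib.ISO Pool.Agent.Lib.IS2

namespace JMPm

open IS2.JMP (abs_rdot rdot_exp rdot_nn sq_diff l1_bd sum_bd)

variable {N : ℕ} {μ : ℝ} {Ω : Set ℂ} {Γ : MC N}

open Classical in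
/-- the geometric factor of the kernel -/
def qm (Γ : MC N) (x y : XN N) : ℝ :=
  if gp Γ x = gp Γ y then
    rdot (gn Γ y) (deriv (deriv (Γ y.1)) y.2) / (2 * ‖deriv (Γ y.1) y.2‖ ^ 2)
  else rdot (-gn Γ y) (gp Γ y - gp Γ x) / ‖gp Γ y - gp Γ x‖ ^ 2

lemma qm_same (i : Fin N) (s t : ℝ) : qm Γ (i, s) (i, t) = qq (Γ i) s t := by
  by_cases e : Γ i s = Γ i t
  · rw [qq, if_pos e, qm, if_pos (show gp Γ (i, s) = gp Γ (i, t) from e)]; rfl
  · rw [qq, if_neg e, qm, if_neg (show ¬gp Γ (i, s) = gp Γ (i, t) from e)]; rfl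

lemma cqm (hQ : St_QS) (h : Rc Γ) : Continuous (Function.uncurry (qm Γ)) := by
  refine cont_x2 fun i k => ?_
  by_cases e : i = k
  · subst e
    simp only [qm_same]
    exact (hQ.1 (Γ i) (h.smooth i) (h.per i) (h.reg i)
      fun s t a => (h.inj (i, s) (i, t) a).2).continuous
  · have n : ∀ p : ℝ × ℝ, gp Γ (i, p.1) ≠ gp Γ (k, p.2) := fun p a => e (h.inj _ _ a).1
    have cγ := h.gp_cont
    have cn := h.gn_cont
    simp only [qm, if_neg (n _)]
    exact (K28.rdot_cont (by fun_prop) (by fun_prop)).div (by fun_prop) fun p =>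
      pow_ne_zero _ (norm_ne_zero_iff.2 (sub_ne_zero.2 (n p).symm))

lemma q_bd (hQ : St_QS) (h : Rc Γ) : ∃ Q, 0 ≤ Q ∧ ∀ x y,
    |rdot (-gn Γ y) (gp Γ y - gp Γ x)| ≤ Q * ‖gp Γ y - gp Γ x‖ ^ 2 := by
  obtain ⟨Q, Q0, hq⟩ := bd_per2 (cqm hQ h) fun x y => by
    simp only [qm, h.gp_per, h.gn_per, per_deriv' (h.per y.1) y.2,
      per_deriv' (per_deriv' (h.per y.1)) y.2, and_self]
  refine ⟨Q, Q0, fun x y => ?_⟩
  by_cases e : gp Γ x = gp Γ y
  · simp [e, rdot]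
  · have := hq x y
    have p : 0 < ‖gp Γ y - gp Γ x‖ ^ 2 := pow_pos (norm_pos_iff.2 (sub_ne_zero.2 (Ne.symm e))) 2
    rwa [qm, if_neg e, abs_div, abs_of_pos p, div_le_iff₀ p] at this

lemma Krm_qm (h : Rc Γ) (x y : XN N) :
    Krm μ Γ x y = l1 (μ * ‖gp Γ y - gp Γ x‖) * qm Γ x y / (2 * π) := by
  obtain ⟨i, s⟩ := x
  obtain ⟨k, t⟩ := y
  by_cases e : i = k
  · subst e
    rw [Krm, if_pos rfl, qm_same, norm_sub_rev]; rfl
  · rw [Krm, if_neg e, DLx_def, qm, if_neg fun a => e (h.inj _ _ a).1, mul_div_assoc, mul_div_assoc,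
      div_div, mul_comm (_ ^ 2)]

lemma cKr (hA : St_A3) (hQ : St_QS) (hμ : 0 < μ) (h : Rc Γ) (x : XN N) :
    Continuous (Krm μ Γ x) := by
  rw [funext (Krm_qm h x)]
  exact (((IS2.JMP.cl1 hA hμ).comp (h.gp_cont.sub continuous_const)).mul
    ((cqm hQ h).comp (continuous_const.prodMk continuous_id))).div_const _

lemma tDL (hA : St_A3) (hμ : 0 < μ) (h : Rc Γ) {x y : XN N} (e : gp Γ x ≠ gp Γ y) :
    Tendsto (fun z => DLx μ Γ z y) (𝓝 (gp Γ x)) (𝓝 (Krm μ Γ x y)) := by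
  have : Krm μ Γ x y = DLx μ Γ (gp Γ x) y := by
    rw [Krm_qm h, DLx_def, qm, if_neg e, mul_div_assoc, mul_div_assoc, div_div, mul_comm (_ ^ 2)]
  rw [this]
  exact ((h.DLx_cont hA hμ).comp (f := fun z => (z, y)) (s := {gp Γ y}ᶜ) (by fun_prop)
    fun z hz => hz).continuousAt (isOpen_compl_singleton.mem_nhds e)

lemma near (hQ : St_QS) (h : Rc Γ) {c : ℝ} (hc : 0 < c)
    (h1 : ∀ x y (r : ℝ), |r| ≤ c → c * (dm x y + |r|) ≤ ‖gp Γ y - (gp Γ x + r * gn Γ x)‖) :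
    ∃ A, 0 ≤ A ∧ ∀ s t (r : ℝ), |r| ≤ c → |r| ≤ c⁻¹ * ‖gp Γ t - gp Γ s - r * gn Γ s‖ ∧
      |rdot (-gn Γ t) (gp Γ t - gp Γ s)| ≤ A * ‖gp Γ t - gp Γ s - r * gn Γ s‖ ^ 2 ∧
      |rdot (gn Γ s) (gp Γ t - gp Γ s)| ≤ A * ‖gp Γ t - gp Γ s - r * gn Γ s‖ ^ 2 := by
  obtain ⟨M, M0, hM⟩ := h.gn_bd
  obtain ⟨Q, Q0, hq⟩ := q_bd hQ h
  refine ⟨Q * (1 + c⁻¹ * M) ^ 2, by positivity, fun s t r hr => ?_⟩
  have a := h1 s t r hr
  rw [← sub_sub] at a
  have b : |r| ≤ c⁻¹ * ‖gp Γ t - gp Γ s - r * gn Γ s‖ := by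
    rw [le_inv_mul_iff₀ hc]
    nlinarith [dm_nonneg s t]
  have d : ‖gp Γ t - gp Γ s‖ ≤ (1 + c⁻¹ * M) * ‖gp Γ t - gp Γ s - r * gn Γ s‖ := by
    have := norm_add_le (gp Γ t - gp Γ s - r * gn Γ s) (r * gn Γ s)
    rw [sub_add_cancel, norm_mul, norm_real, Real.norm_eq_abs] at this
    have e := mul_le_mul b (hM s) (norm_nonneg _) (by positivity)
    linarith
  have f : Q * ‖gp Γ t - gp Γ s‖ ^ 2 ≤
      Q * (1 + c⁻¹ * M) ^ 2 * ‖gp Γ t - gp Γ s - r * gn Γ s‖ ^ 2 := by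
    rw [mul_assoc, ← mul_pow]; gcongr
  refine ⟨b, (hq s t).trans f, le_trans ?_ f⟩
  have := hq t s
  rwa [← neg_sub (gp Γ t), rdot_nn, norm_neg] at this

lemma DL_eq (s t : XN N) (r : ℝ) : DLx μ Γ (gp Γ s + r * gn Γ s) t =
    l1 (μ * ‖gp Γ t - gp Γ s - r * gn Γ s‖) *
      (rdot (-gn Γ t) (gp Γ t - gp Γ s) + r * rdot (gn Γ t) (gn Γ s)) /
      ‖gp Γ t - gp Γ s - r * gn Γ s‖ ^ 2 / (2 * π) := by
  rw [DLx_def, ← sub_sub, rdot_exp, div_div, mul_comm (_ ^ 2)]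

lemma cpk (s : XN N) {a : ℝ} (ha : 0 < a) : Continuous fun t => a / (a ^ 2 + dm s t ^ 2) := by
  refine continuous_const.div (continuous_const.add (Continuous.pow (cont_x1 fun i => ?_) 2))
    fun t => by positivity
  by_cases e : s.1 = i
  · simp only [dm, if_pos e]
    simp only [dc_comm s.2]
    exact cont_dc s.2
  · simp only [dm, if_neg e]
    exact continuous_const

lemma int_pk (s : XN N) {a : ℝ} (ha : 0 < a) : ∫ t, a / (a ^ 2 + dm s t ^ 2) ∂nx N ≤ N * π := by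
  rw [integral_nx (int_cont (cpk s ha))]
  refine (Finset.sum_le_card_nsmul _ _ π fun i _ => ?_).trans_eq (by simp)
  by_cases e : s.1 = i
  · simp only [dm, if_pos e]
    exact IS2.JMP.int_pk s.2 a
  · simp only [dm, if_neg e, intervalIntegral.integral_const, sub_zero, smul_eq_mul]
    have : a / (a ^ 2 + 1 ^ 2) ≤ 1 / 2 := by
      rw [div_le_div_iff₀ (by positivity) two_pos]
      nlinarith [sq_nonneg (a - 1)]
    nlinarith [Real.pi_pos]

lemma bound (hA : St_A3) (hQ : St_QS) (hG : St_GCm) (hμ : 0 < μ) (h : CDm Ω Γ) :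
    ∃ C, ∀ x ∉ range (gp Γ), ∫ t, |DLx μ Γ x t| ∂nx N ≤ C := by
  obtain ⟨c, hc, h1, h2, -, -⟩ := hG N Ω Γ h
  obtain ⟨M, M0, hM⟩ := h.rc.gn_bd
  obtain ⟨A, A0, hA'⟩ := near hQ h.rc hc h1
  have hd : 0 < min c (c ^ 2) := lt_min hc (by positivity)
  have π0 := Real.pi_pos
  refine ⟨max ((nx N).real univ * (M / (2 * π * min c (c ^ 2))))
    ((nx N).real univ * (A / (2 * π)) + M ^ 2 / c ^ 2 / (2 * π) * (N * π)), fun x hx => ?_⟩
  have ci := int_cont (h.rc.DLx_cont1 hA hμ hx).abs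
  by_cases hf : ∀ t, min c (c ^ 2) ≤ ‖gp Γ t - x‖
  · refine le_trans ?_ (le_max_left _ _)
    exact (integral_mono ci (integrable_const _) fun t =>
      IS2.JMP.far hA hμ (fun u => hM (t.1, u)) hd (hf t)).trans_eq (integral_const _)
  · refine le_trans ?_ (le_max_right _ _)
    push Not at hf
    obtain ⟨t0, ht0⟩ := hf
    rw [norm_sub_rev] at ht0
    obtain ⟨s, r, hr, rfl, -⟩ := h2 x t0 (ht0.trans_le (min_le_left _ _))
    have r1 : |r| ≤ c := by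
      have := (hr.trans_lt ht0).trans_le (min_le_right _ _)
      nlinarith
    have r0 : 0 < |r| := abs_pos.2 fun e => hx ⟨s, by simp [e]⟩
    have pw : ∀ t, |DLx μ Γ (gp Γ s + r * gn Γ s) t| ≤
        A / (2 * π) + M ^ 2 / c ^ 2 / (2 * π) * (|r| / (|r| ^ 2 + dm s t ^ 2)) := fun t => by
      obtain ⟨-, a2, -⟩ := hA' s t r r1
      have a := h1 s t r r1
      rw [← sub_sub] at a
      have d0 := dm_nonneg s t
      rw [DL_eq]
      set ρ := ‖gp Γ t - gp Γ s - r * gn Γ s‖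
      have p : 0 < ρ := lt_of_lt_of_le (by positivity) a
      have a3 : c ^ 2 * (|r| ^ 2 + dm s t ^ 2) ≤ ρ ^ 2 := by
        have : (c * (dm s t + |r|)) ^ 2 ≤ ρ ^ 2 := by gcongr
        nlinarith [mul_nonneg (sq_nonneg c) (mul_nonneg d0 r0.le)]
      have a4 : |rdot (gn Γ t) (gn Γ s)| ≤ M ^ 2 :=
        (abs_rdot _ _).trans ((mul_le_mul (hM t) (hM s) (norm_nonneg _) M0).trans_eq (by ring))
      have a5 := (l1_bd hA).1 (μ * ρ) (by positivity)
      rw [abs_div, abs_div, abs_mul, abs_of_pos (pow_pos p 2), abs_of_pos Real.two_pi_pos]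
      calc _ ≤ 1 * (A * ρ ^ 2 + |r| * M ^ 2) / ρ ^ 2 / (2 * π) := by
            gcongr
            refine (abs_add_le _ _).trans (add_le_add a2 ?_)
            rw [abs_mul]; gcongr
        _ = (A + |r| * M ^ 2 / ρ ^ 2) / (2 * π) := by field_simp
        _ ≤ (A + |r| * M ^ 2 / (c ^ 2 * (|r| ^ 2 + dm s t ^ 2))) / (2 * π) := by gcongr
        _ = _ := by field_simp
    have i2 := (int_cont (cpk s r0)).const_mul (M ^ 2 / c ^ 2 / (2 * π))
    refine (integral_mono ci ((integrable_const _).add i2) pw).trans ?_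
    rw [integral_add' (integrable_const _) i2, integral_const_mul, integral_const, smul_eq_mul]
    exact add_le_add le_rfl (mul_le_mul_of_nonneg_left (int_pk s r0) (by positivity))

lemma small {f g : XN N → ℝ} {η : ℝ} (hf : Continuous f) (hg : ∀ t, |g t| ≤ η) :
    |∫ t, f t * g t ∂nx N| ≤ η * ∫ t, |f t| ∂nx N := by
  rw [← integral_const_mul, ← Real.norm_eq_abs]
  refine norm_integral_le_of_norm_le ((int_cont hf.abs).const_mul _)
    (Eventually.of_forall fun t => ?_)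
  rw [Real.norm_eq_abs, abs_mul, mul_comm]
  exact mul_le_mul_of_nonneg_right (hg t) (abs_nonneg _)

lemma zero_lim (hA : St_A3) (hQ : St_QS) (hG : St_GCm) (hμ : 0 < μ) (h : CDm Ω Γ) (s : XN N)
    {ψ : XN N → ℝ} (hψ : Continuous ψ) (h0 : ∀ t, gp Γ s = gp Γ t → ψ t = 0) :
    Tendsto (fun x => ∫ t, DLx μ Γ x t * ψ t ∂nx N) (𝓝[Ω] (gp Γ s))
      (𝓝 (∫ t, Krm μ Γ s t * ψ t ∂nx N)) := by
  obtain ⟨C, hC⟩ := bound hA hQ hG hμ h
  obtain ⟨M, M0, hM⟩ := h.rc.gn_bd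
  have cK := cKr hA hQ hμ h.rc s
  set CK := ∫ t, |Krm μ Γ s t| ∂nx N with hCK
  refine Metric.tendsto_nhds.2 fun ε hε => ?_
  obtain ⟨η, η0, hη⟩ : ∃ η > 0, η * (|C| + |CK| + 1) = ε / 2 :=
    ⟨ε / 2 / (|C| + |CK| + 1), by positivity, by field_simp⟩
  set g : XN N → ℝ := fun t => max (-η) (min η (ψ t)) with hg
  have cg : Continuous g := by fun_prop
  have g1 : ∀ t, |g t| ≤ η := fun t =>
    abs_le.2 ⟨le_max_left _ _, max_le (by linarith) (min_le_left _ _)⟩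
  have g2 : ∀ t, |ψ t| ≤ η → ψ t - g t = 0 := fun t ht => by
    rw [abs_le] at ht
    simp only [hg, min_eq_right ht.2, max_eq_right ht.1, sub_self]
  obtain ⟨d, d0, hd⟩ := (cpt_KX.inter_right
    (isClosed_le (continuous_const (y := η)) hψ.abs)).exists_forall_le' (a := 0)
    (f := fun t => ‖gp Γ t - gp Γ s‖) ((h.rc.gp_cont.sub continuous_const).norm.continuousOn)
    fun t ht => norm_pos_iff.2 (sub_ne_zero.2 fun e => by
      have := ht.2
      simp only [mem_ofPred_eq, h0 t e.symm, abs_zero] at this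
      linarith)
  have ev : ∀ᶠ x in 𝓝[Ω] (gp Γ s), x ∉ range (gp Γ) :=
    eventually_nhdsWithin_of_forall fun x hx => h.sub_compl hx
  have ak : ∀ᵐ x ∂nx N, x ∈ KX N := ae_nx.2 fun i =>
    (ae_restrict_mem measurableSet_Ioc).mono fun s hs => ⟨trivial, Ioc_subset_Icc_self hs⟩
  have T : Tendsto (fun x => ∫ t, DLx μ Γ x t * (ψ t - g t) ∂nx N) (𝓝[Ω] (gp Γ s))
      (𝓝 (∫ t, Krm μ Γ s t * (ψ t - g t) ∂nx N)) := by
    refine tendsto_integral_filter_of_dominated_convergence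
      (fun t => M / (2 * π * (d / 2)) * |ψ t - g t|)
      (ev.mono fun x hx => ((h.rc.DLx_cont1 hA hμ hx).mul (hψ.sub cg)).aestronglyMeasurable) ?_
      ((int_cont (hψ.sub cg).abs).const_mul _) (Eventually.of_forall fun t => ?_)
    · filter_upwards [mem_nhdsWithin_of_mem_nhds (Metric.ball_mem_nhds (gp Γ s) (half_pos d0))]
        with x hx
      refine ak.mono fun t ht => ?_
      rcases le_total |ψ t| η with a | a
      · simp [g2 t a]
      · have b := hd t ⟨ht, a⟩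
        rw [Real.norm_eq_abs, abs_mul]
        refine mul_le_mul_of_nonneg_right (IS2.JMP.far hA hμ (fun u => hM (t.1, u)) (half_pos d0)
          (show d / 2 ≤ ‖gp Γ t - x‖ from ?_)) (abs_nonneg _)
        have := norm_sub_le_norm_sub_add_norm_sub (gp Γ t) x (gp Γ s)
        rw [mem_ball_iff_norm] at hx
        linarith
    · by_cases e : gp Γ s = gp Γ t
      · simp only [g2 t (by rw [h0 t e, abs_zero]; exact η0.le), mul_zero]
        exact tendsto_const_nhds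
      · exact ((tDL hA hμ h.rc e).mono_left nhdsWithin_le_nhds).mul_const _
  have sp : ∀ f : XN N → ℝ, Continuous f → ∫ t, f t * ψ t ∂nx N =
      (∫ t, f t * (ψ t - g t) ∂nx N) + ∫ t, f t * g t ∂nx N := fun f hf => by
    rw [← integral_add (int_cont (by fun_prop)) (int_cont (by fun_prop))]
    congr 1; funext t; ring
  filter_upwards [ev, Metric.tendsto_nhds.1 T _ (half_pos hε)] with x hx hT
  have c1 := h.rc.DLx_cont1 hA hμ hx
  rw [sp _ c1, sp _ cK]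
  have a1 := abs_le.1 ((small c1 g1).trans
    (mul_le_mul_of_nonneg_left ((hC x hx).trans (le_abs_self C)) η0.le))
  have a2 := abs_le.1 ((small cK g1).trans (mul_le_mul_of_nonneg_left (le_abs_self CK) η0.le))
  rw [Real.dist_eq, abs_lt] at hT ⊢
  constructor <;> linarith [a1.1, a1.2, a2.1, a2.2, hT.1, hT.2]

lemma dl_one (hN : St_GRNm) (hμ : 0 < μ) (h : CDm Ω Γ) {x : ℂ} (hx : x ∉ range (gp Γ)) :
    ∫ t, DLx μ Γ x t ∂nx N =
      Ω.indicator (fun _ => (1 : ℝ)) x - μ ^ 2 * Vp μ (Ω.indicator fun _ => 1) x := by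
  have := hN μ hμ N Ω Γ univ (fun _ => 1) x h isOpen_univ (subset_univ _) contDiffOn_const hx
  have e : Vp μ (Ω.indicator fun _ => 1) x = ∫ z in Ω, Gr μ (x - z) := by
    rw [Vp, ← integral_indicator h.opn.measurableSet]
    congr 1; funext z
    by_cases a : z ∈ Ω <;> simp [a]
  simp only [lap, fderiv_fun_const, Pi.zero_apply, zero_apply, mul_zero, mul_one,
    add_zero, sub_zero, zero_add, integral_mul_const] at this
  rw [this, e]; ring

lemma cV (hV : St_VP) (hμ : 0 < μ) (h : CDm Ω Γ) : Continuous (Vp μ (Ω.indicator fun _ => 1)) := by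
  obtain ⟨R, hR⟩ := h.bdd.exists_norm_le
  exact (hV μ _ hμ (memLp_indicator_const _ h.opn.measurableSet _ (Or.inr h.bdd.measure_lt_top.ne))
    ⟨R, fun z hz => indicator_of_notMem (fun a => (hR z a).not_gt hz) _⟩).1

lemma k_one (hA : St_A3) (hQ : St_QS) (hG : St_GCm) (hN : St_GRNm) (hV : St_VP) (hμ : 0 < μ)
    (h : CDm Ω Γ) (s : XN N) : ∫ t, Krm μ Γ s t ∂nx N =
      1 / 2 - μ ^ 2 * Vp μ (Ω.indicator fun _ => 1) (gp Γ s) := by
  obtain ⟨c, hc, h1, -, h3, -⟩ := hG N Ω Γ h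
  obtain ⟨M, M0, hM⟩ := h.rc.gn_bd
  obtain ⟨A, A0, hA'⟩ := near hQ h.rc hc h1
  obtain ⟨l1a, L, L0, hL⟩ := l1_bd hA
  set V := Vp μ (Ω.indicator fun _ => 1)
  have cv : Continuous V := cV hV hμ h
  have cK := int_cont (cKr hA hQ hμ h.rc s)
  have ev : ∀ᶠ r : ℝ in 𝓝[>] 0, r ∈ Ioc 0 c := Ioc_mem_nhdsGT hc
  have o1 : ∀ r ∈ Ioc 0 c, gp Γ s + ((-r : ℝ) : ℂ) * gn Γ s ∉ closure Ω := fun r hr => by
    have := (h3 s r hr.1 hr.2).2
    rwa [ofReal_neg, neg_mul, ← sub_eq_add_neg]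
  have n1 : ∀ r ∈ Ioc 0 c, gp Γ s + (r : ℂ) * gn Γ s ∉ range (gp Γ) := fun r hr =>
    h.sub_compl (h3 s r hr.1 hr.2).1
  have n2 : ∀ r ∈ Ioc 0 c, gp Γ s + ((-r : ℝ) : ℂ) * gn Γ s ∉ range (gp Γ) := fun r hr e =>
    o1 r hr (frontier_subset_closure (h.fr ▸ e))
  have t1 : Tendsto (fun r : ℝ => gp Γ s + (r : ℂ) * gn Γ s) (𝓝[>] 0) (𝓝 (gp Γ s)) :=
    ((by fun_prop : Continuous fun r : ℝ => gp Γ s + (r : ℂ) * gn Γ s).tendsto' 0 _
      (by simp)).mono_left nhdsWithin_le_nhds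
  have t2 : Tendsto (fun r : ℝ => gp Γ s + ((-r : ℝ) : ℂ) * gn Γ s) (𝓝[>] 0) (𝓝 (gp Γ s)) :=
    ((by fun_prop : Continuous fun r : ℝ => gp Γ s + ((-r : ℝ) : ℂ) * gn Γ s).tendsto' 0 _
      (by simp)).mono_left nhdsWithin_le_nhds
  have cD := fun {z} (hz : z ∉ range (gp Γ)) => h.rc.DLx_cont1 hA hμ hz
  have T1 : Tendsto (fun r : ℝ => ∫ t, (DLx μ Γ (gp Γ s + (r : ℂ) * gn Γ s) t +
      DLx μ Γ (gp Γ s + ((-r : ℝ) : ℂ) * gn Γ s) t) ∂nx N) (𝓝[>] 0)
      (𝓝 (∫ t, (Krm μ Γ s t + Krm μ Γ s t) ∂nx N)) := by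
    refine tendsto_integral_filter_of_dominated_convergence
      (fun _ => (2 * A + 2 * (L * μ * c⁻¹ * M ^ 2) + 4 * (c⁻¹ ^ 2 * M ^ 2 * A)) / (2 * π))
      (ev.mono fun r hr => ((cD (n1 r hr)).add (cD (n2 r hr))).aestronglyMeasurable)
      (ev.mono fun r hr => Eventually.of_forall fun t => ?_) (integrable_const _) ?_
    · have r1 : |r| ≤ c := by rw [abs_of_pos hr.1]; exact hr.2
      obtain ⟨a1, a2, a3⟩ := hA' s t r r1
      obtain ⟨b1, b2, -⟩ := hA' s t (-r) (by rwa [abs_neg])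
      rw [abs_neg] at b1
      have p : ∀ {x d : ℝ}, |r| ≤ d * x → 0 ≤ x → 0 < x := fun {x d} a b =>
        b.lt_of_ne fun e => by
          rw [← e, mul_zero] at a
          exact (abs_pos.2 hr.1.ne').not_ge a
      have p1 := p a1 (norm_nonneg _)
      have p2 := p b1 (norm_nonneg _)
      have a4 : |rdot (gn Γ t) (gn Γ s)| ≤ M ^ 2 :=
        (abs_rdot _ _).trans ((mul_le_mul (hM t) (hM s) (norm_nonneg _) M0).trans_eq (by ring))
      rw [DL_eq, DL_eq, ← add_div, Real.norm_eq_abs, abs_div, abs_of_pos Real.two_pi_pos]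
      refine div_le_div_of_nonneg_right (sum_bd p1 p2 a2 b2 a4 a1 b1 (l1a _ (by positivity))
        (l1a _ (by positivity)) ?_ ?_ (sq_diff _ _ r) a3) Real.two_pi_pos.le
      · exact (hL _ (by positivity)).trans_eq (mul_assoc _ _ _).symm
      · exact (hL _ (by positivity)).trans_eq (mul_assoc _ _ _).symm
    · filter_upwards [h.rc.ae_ne s] with t ht
      exact ((tDL hA hμ h.rc ht).comp t1).add ((tDL hA hμ h.rc ht).comp t2)
  have T2 : Tendsto (fun r : ℝ => ∫ t, (DLx μ Γ (gp Γ s + (r : ℂ) * gn Γ s) t +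
      DLx μ Γ (gp Γ s + ((-r : ℝ) : ℂ) * gn Γ s) t) ∂nx N) (𝓝[>] 0)
      (𝓝 ((1 - μ ^ 2 * V (gp Γ s)) + (0 - μ ^ 2 * V (gp Γ s)))) := by
    refine (((((cv.tendsto _).comp t1).const_mul _).const_sub 1).add
      ((((cv.tendsto _).comp t2).const_mul _).const_sub 0)).congr' (ev.mono fun r hr => ?_)
    beta_reduce
    rw [integral_add (int_cont (cD (n1 r hr))) (int_cont (cD (n2 r hr))), dl_one hN hμ h (n1 r hr),
      dl_one hN hμ h (n2 r hr), indicator_of_mem (h3 s r hr.1 hr.2).1,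
      indicator_of_notMem fun a => o1 r hr (subset_closure a)]
    rfl
  have := tendsto_nhds_unique T1 T2
  rw [integral_add cK cK] at this
  linarith

end JMPm

open JMPm in
theorem st_jmpm (hA : St_A3) (hQ : St_QS) (hG : St_GCm) (hN : St_GRNm) (hV : St_VP) : St_JMPm := by
  intro μ N Ω Γ hμ h
  refine ⟨bound hA hQ hG hμ h, fun φ hφ s => ?_⟩
  have c := hφ.1
  have T := zero_lim hA hQ hG hμ h s (ψ := fun t => φ t - φ s) (by fun_prop) fun t e => by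
    obtain ⟨e1, k, e2⟩ := h.inj s t e
    rw [show t = (s.1, s.2 + k * (2 * π)) from Prod.ext e1.symm e2, per_int hφ.2 s k, sub_self]
  have sp : ∀ f : XN N → ℝ, Continuous f → ∫ t, f t * φ t ∂nx N =
      (∫ t, f t * (φ t - φ s) ∂nx N) + (∫ t, f t ∂nx N) * φ s := fun f hf => by
    rw [← integral_mul_const, ← integral_add (int_cont (by fun_prop)) (int_cont (by fun_prop))]
    congr 1; funext t; ring
  have U := T.add ((((((cV hV hμ h).tendsto (gp Γ s)).mono_left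
    (nhdsWithin_le_nhds (s := Ω))).const_mul (μ ^ 2)).const_sub 1).mul_const (φ s))
  rw [sp _ (cKr hA hQ hμ h.rc s), k_one hA hQ hG hN hV hμ h s]
  refine (U.congr' (eventually_nhdsWithin_of_forall fun x hx => ?_)).mono_right
    (le_of_eq (congrArg _ (by ring)))
  rw [DLom, sp _ (h.rc.DLx_cont1 hA hμ (h.sub_compl hx)), dl_one hN hμ h (h.sub_compl hx),
    indicator_of_mem hx]

end Pool.Agent.Lib.IS3
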