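import Pool.Agent.Lib.IS3.Kit
import Pool.Agent.Lib.IS2.B_KB

/-! Pointwise bounds of the four kernels for real parameter. -/

open scoped ContDiff ComplexConjugate Topology Real
open Complex MeasureTheory Set Filter

noncomputable section

namespace Pool.Agent.Lib.IS3

open Pool.Agent.Lib.ISO Pool.Agent.Lib.IS2

namespace KBP

variable {N : ℕ} {j B ϖ : ℝ} {Γ : MC N} {P : MQ N}

theorem n2 (hΓ : Nv j Γ) (hP : Admm j B Γ ϖ P) (i : Fin N) (s : ℝ) :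
    ‖deriv (P i) s‖ ≤ 2 * j := by
  have j1 := hΓ.one_le
  have h1 := (hP.1 i).a1 s
  have h2 : ‖deriv (cp (Γ i)) s‖ ≤ j := by
    rw [(KBB.hd_cp (hΓ.rc.diff i) s).deriv]
    simpa [Prod.norm_def] using hΓ.b1 i s
  have h3 : (40 * j)⁻¹ ≤ 1 := inv_le_one_of_one_le₀ (by linarith)
  have := norm_sub_norm_le (deriv (P i) s) (deriv (cp (Γ i)) s)
  linarith

theorem nn (hΓ : Nv j Γ) (hP : Admm j B Γ ϖ P) (x : XN N) {u : C2} (hu : ‖u‖ ≤ 2 * j) :
    ‖dot (mn P x) u‖ ≤ 4 * j ^ 3 := by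
  have j1 := hΓ.one_le
  refine (KBB.dot_le _ _).trans ?_
  rw [mn, KBB.pn_norm]
  calc _ ≤ 2 * j * (2 * j) := mul_le_mul (n2 hΓ hP _ _) hu (norm_nonneg _) (by positivity)
    _ = 4 * (j ^ 2 * 1) := by ring
    _ ≤ 4 * (j ^ 2 * j) := by gcongr
    _ = _ := by ring

theorem far (hΓ : Nv j Γ) (hP : Admm j B Γ ϖ P) {x y : XN N} (h : x.1 ≠ y.1) :
    ‖mD P x y‖ ≤ 2 * j := by
  have j1 := hΓ.one_le
  have a := (hP.1 x.1).a0 x.2
  have b := (hP.1 y.1).a0 y.2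
  have c := hP.2 _ _ h
  have d : (80 * j)⁻¹ ≤ 80⁻¹ := inv_anti₀ (by norm_num) (by linarith)
  have e : ‖cp (Γ y.1) y.2 - cp (Γ x.1) x.2‖ ≤ j := by
    have := hΓ.diam y.1 x.1 y.2 x.2
    simpa only [cp, Prod.mk_sub_mk, ← map_sub, Prod.norm_def, RCLike.norm_conj, max_self]
  rw [show mD P x y = (P y.1 y.2 - cp (Γ y.1) y.2) - (P x.1 x.2 - cp (Γ x.1) x.2) +
    (cp (Γ y.1) y.2 - cp (Γ x.1) x.2) by rw [mD]; ring]
  refine (norm_add_le _ _).trans ((add_le_add_left (norm_sub_le _ _) _).trans ?_)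
  linarith

theorem near (hΓ : Nv j Γ) (hP : Admm j B Γ ϖ P) (i : Fin N) (s t : ℝ) :
    ‖dot (mn P (i, t)) (mD P (i, s) (i, t))‖ ≤ 4 * j ^ 3 * (B * cm Γ (i, s) (i, t) ^ 2) ∧
    ‖dot (mn P (i, s)) (mD P (i, s) (i, t))‖ ≤ 4 * j ^ 3 * (B * cm Γ (i, s) (i, t) ^ 2) := by
  have j1 := hΓ.one_le
  have hQ := hP.1 i
  have dP : Differentiable ℝ (P i) := hQ.sp.1.differentiable (by simp)
  have dP' : Differentiable ℝ (deriv (P i)) :=
    (contDiff_infty_iff_deriv.1 hQ.sp.1).2.differentiable (by simp)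
  have B0 : 0 ≤ B := (norm_nonneg _).trans (hQ.a2 0)
  have arc : dc s t ≤ j * cm Γ (i, s) (i, t) := hΓ.arc i s t
  have c0 := cm_nonneg Γ (i, s) (i, t)
  obtain ⟨-, k, hk⟩ := KBB.red s t
  have nd : ∀ x y : ℝ, |y - x| = dc s t →
      ‖dot (pn (P i) x) (P i y - P i x)‖ ≤ 4 * j ^ 3 * (B * cm Γ (i, s) (i, t) ^ 2) := by
    intro x y hxy
    have e : dot (pn (P i) x) (P i y - P i x) =
        dot (pn (P i) x) (P i y - P i x - (y - x) • deriv (P i) x) := by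
      simp only [dot, pn, Prod.fst_sub, Prod.snd_sub, Prod.smul_fst, Prod.smul_snd, real_smul]
      ring
    rw [e]
    refine (KBB.dot_le _ _).trans ?_
    rw [KBB.pn_norm]
    calc _ ≤ 2 * j * (B * |y - x| ^ 2) :=
          mul_le_mul (n2 hΓ hP i x) (KBB.tay dP dP' hQ.a2 x y) (norm_nonneg _) (by positivity)
      _ ≤ 4 * j * (B * (j * cm Γ (i, s) (i, t)) ^ 2) := by
          rw [hxy]
          have : 0 ≤ dc s t := norm_nonneg _
          gcongr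
          norm_num
      _ = _ := by ring
  have pe : P i (s - k * (2 * π)) = P i s := hQ.sp.2.sub_int_mul_eq k
  have pe' : pn (P i) (s - k * (2 * π)) = pn (P i) s := by
    simp only [pn, (SP.s1 hQ.sp).2.sub_int_mul_eq k]
  constructor
  · have := nd t _ hk.symm
    rw [pe] at this
    rwa [show dot (mn P (i, t)) (mD P (i, s) (i, t)) = -dot (pn (P i) t) (P i s - P i t) by
      simp only [dot, mD, mn, Prod.fst_sub, Prod.snd_sub]; ring, norm_neg]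
  · have := nd (s - k * (2 * π)) t (by rw [hk, abs_sub_comm])
    rwa [pe, pe'] at this

/-- Elementary inequalities. -/
theorem elem {x : ℝ} (hx : 0 < x) :
    1 + √x ≤ 2 * (x ^ (-(1 / 4) : ℝ) + 1 + x ^ 3) ∧
    (1 + √x) * x ^ 2 ≤ 2 * (x ^ (-(1 / 4) : ℝ) + 1 + x ^ 3) ∧
    x ^ (-(1 / 4) : ℝ) * x ^ 2 ≤ x ^ (-(1 / 4) : ℝ) + 1 + x ^ 3 := by
  have r0 : 0 < x ^ (-(1 / 4) : ℝ) := Real.rpow_pos_of_pos hx _
  have x3 : 0 < x ^ 3 := by positivity
  have x2 : 0 < x ^ 2 := by positivity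
  rcases le_total x 1 with h | h
  · have a : √x ≤ 1 := Real.sqrt_le_one.2 h
    have b : x ^ 2 ≤ 1 := pow_le_one₀ hx.le h
    exact ⟨by linarith, by nlinarith [Real.sqrt_nonneg x], by nlinarith⟩
  · have a : √x ≤ x := Real.sqrt_le_iff.2 ⟨hx.le, by nlinarith⟩
    have b : x ^ (-(1 / 4) : ℝ) ≤ 1 := Real.rpow_le_one_of_one_le_of_nonpos h (by norm_num)
    have c : x ^ 2 ≤ x ^ 3 := pow_le_pow_right₀ h (by norm_num)
    have d : x ≤ x ^ 2 := by nlinarith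
    exact ⟨by linarith, by nlinarith, by nlinarith⟩

theorem p2 : 1 ≤ ‖(2 * π : ℂ)‖ := by simp [abs_of_pos Real.pi_pos]; linarith [Real.pi_gt_three]

theorem p4 : 1 ≤ ‖(4 * π : ℂ)‖ := by simp [abs_of_pos Real.pi_pos]; linarith [Real.pi_gt_three]

/-- Two points of the same curve. -/
theorem same {X Q B μ c r Y p E R C : ℝ} {k l a b e D : ℂ} (X0 : 0 ≤ X) (Q1 : 1 ≤ Q) (B1 : 1 ≤ B)
    (hB : B ≤ μ) (hc : 0 < c) (r0 : 0 ≤ r) (Y0 : 0 ≤ Y) (E0 : 0 ≤ E) (hC : 16 * X * Q ^ 4 ≤ C)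
    (hk : ‖k‖ ≤ X * (2 * r) * E) (hl : ‖l‖ ≤ X * (2 * Y) * E) (ha : ‖a‖ ≤ Q * (B * c ^ 2))
    (hb : ‖b‖ ≤ Q * (B * c ^ 2)) (he : ‖e‖ ≤ Q) (hD : c ^ 2 / 2 ≤ ‖D‖) (hR : p * E ≤ R)
    (e0 : r ≤ p) (e1 : Y ≤ 2 * p) (e2 : Y * (μ * c) ^ 2 ≤ 2 * p) (e3 : r * (μ * c) ^ 2 ≤ p) :
    ‖l * a / (2 * π * D)‖ ≤ C * B * R ∧ ‖k / (2 * π)‖ ≤ C * R ∧
    ‖-(k * e) / (4 * π) + l * b * a / (4 * π * D)‖ ≤ C * R ∧
    ‖-(k * a) / (4 * π)‖ ≤ C * R / μ := by
  have c2 : 0 < c ^ 2 / 2 := by positivity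
  have p0 : 0 ≤ p := r0.trans e0
  have m0 : 0 < μ := by linarith
  have q1 : Q ≤ Q ^ 4 := le_self_pow₀ Q1 (by norm_num)
  have q2 : Q ^ 2 ≤ Q ^ 4 := pow_le_pow_right₀ Q1 (by norm_num)
  have C0 : 0 ≤ C := le_trans (by positivity) hC
  have u1 := mul_le_mul_of_nonneg_left q1 X0
  have u2 := mul_le_mul_of_nonneg_left q2 X0
  have u3 := mul_le_mul_of_nonneg_left Q1 X0
  have a2 := p2
  have a4 := p4
  refine ⟨?_, ?_, ?_, ?_⟩
  · rw [norm_div, norm_mul, norm_mul _ D]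
    calc _ ≤ X * (2 * (2 * p)) * E * (Q * (B * c ^ 2)) / (1 * (c ^ 2 / 2)) := by
          have : ‖l‖ ≤ X * (2 * (2 * p)) * E := hl.trans (by gcongr)
          gcongr
      _ = 8 * (X * Q) * B * (p * E) := by field_simp; ring
      _ ≤ _ := by gcongr; linarith
  · rw [norm_div]
    calc _ ≤ X * (2 * p) * E / 1 := by
          have : ‖k‖ ≤ X * (2 * p) * E := hk.trans (by gcongr)
          gcongr
      _ = 2 * X * (p * E) := by ring
      _ ≤ _ := by gcongr; linarith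
  · refine (norm_add_le _ _).trans ?_
    rw [norm_div, norm_div, norm_neg, norm_mul, norm_mul _ a, norm_mul _ b, norm_mul _ D]
    calc _ ≤ X * (2 * r) * E * Q / 1 +
          X * (2 * Y) * E * (Q * (B * c ^ 2)) * (Q * (B * c ^ 2)) / (1 * (c ^ 2 / 2)) := by
          gcongr
      _ = 2 * (X * Q) * (r * E) + 4 * (X * Q ^ 2) * (Y * (B * c) ^ 2 * E) := by field_simp; ring
      _ ≤ 2 * (X * Q) * (p * E) + 4 * (X * Q ^ 2) * (2 * p * E) := by
          have : Y * (B * c) ^ 2 ≤ 2 * p := le_trans (by gcongr) e2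
          gcongr
      _ = (2 * (X * Q) + 8 * (X * Q ^ 2)) * (p * E) := by ring
      _ ≤ _ := by gcongr; linarith
  · rw [norm_div, norm_neg, norm_mul]
    calc _ ≤ X * (2 * r) * E * (Q * (μ * c ^ 2)) / 1 := by
          have : ‖a‖ ≤ Q * (μ * c ^ 2) := ha.trans (by gcongr)
          gcongr
      _ = 2 * (X * Q) * (r * (μ * c) ^ 2 * E) / μ := by field_simp
      _ ≤ 2 * (X * Q) * (p * E) / μ := by gcongr
      _ ≤ _ := by gcongr; linarith

/-- Two points of different curves. -/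
theorem diff {X Q m C : ℝ} {k l a b e D E : ℂ} (X0 : 0 ≤ X) (Q1 : 1 ≤ Q) (m1 : 1 ≤ m)
    (hC : 16 * X * Q ^ 4 ≤ C) (hk : ‖k * E‖ ≤ X * Q / m) (hl : ‖l * E‖ ≤ X * Q * m)
    (ha : ‖a‖ ≤ Q) (hb : ‖b‖ ≤ Q) (he : ‖e‖ ≤ Q) (hD : Q⁻¹ ≤ ‖D‖) :
    ‖l * a / (2 * π * D) * E‖ ≤ C * m ∧
    ‖(-(k * e) / (4 * π) + l * b * a / (4 * π * D)) * E‖ ≤ C * m ∧
    ‖k / (2 * π) * E‖ ≤ C / m ∧ ‖-(k * a) / (4 * π) * E‖ ≤ C / m := by
  have q0 : 0 < Q⁻¹ := by positivity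
  have q1 : Q ≤ Q ^ 4 := le_self_pow₀ Q1 (by norm_num)
  have q2 : Q ^ 2 ≤ Q ^ 4 := pow_le_pow_right₀ Q1 (by norm_num)
  have q3 : Q ^ 3 ≤ Q ^ 4 := pow_le_pow_right₀ Q1 (by norm_num)
  have u0 : 0 ≤ X * Q ^ 4 := by positivity
  have u1 := mul_le_mul_of_nonneg_left q1 X0
  have u2 := mul_le_mul_of_nonneg_left q2 X0
  have u3 := mul_le_mul_of_nonneg_left q3 X0
  have a2 := p2
  have a4 := p4
  refine ⟨?_, ?_, ?_, ?_⟩
  · rw [show l * a / (2 * π * D) * E = l * E * a / (2 * π * D) by ring, norm_div, norm_mul,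
      norm_mul _ D]
    calc _ ≤ X * Q * m * Q / (1 * Q⁻¹) := by gcongr
      _ = X * Q ^ 3 * m := by field_simp
      _ ≤ _ := by gcongr; linarith
  · rw [show (-(k * e) / (4 * π) + l * b * a / (4 * π * D)) * E =
      -(k * E * e) / (4 * π) + l * E * b * a / (4 * π * D) by ring]
    refine (norm_add_le _ _).trans ?_
    rw [norm_div, norm_div, norm_neg, norm_mul, norm_mul _ a, norm_mul _ b, norm_mul _ D]
    have : ‖k * E‖ ≤ X * Q * m := hk.trans ((div_le_self (by positivity) m1).trans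
      (le_mul_of_one_le_right (by positivity) m1))
    calc _ ≤ X * Q * m * Q / 1 + X * Q * m * Q * Q / (1 * Q⁻¹) := by gcongr
      _ = (X * Q ^ 2 + X * Q ^ 4) * m := by field_simp
      _ ≤ _ := by gcongr; linarith
  · rw [show k / (2 * π) * E = k * E / (2 * π) by ring, norm_div]
    calc _ ≤ X * Q / m / 1 := by gcongr
      _ = X * Q / m := by ring
      _ ≤ _ := by gcongr; linarith
  · rw [show -(k * a) / (4 * π) * E = -(k * E * a) / (4 * π) by ring, norm_div, norm_neg,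
      norm_mul]
    calc _ ≤ X * Q / m * Q / 1 := by gcongr
      _ = X * Q ^ 2 / m := by ring
      _ ≤ _ := by gcongr; linarith

end KBP

open KBP in
theorem st_kbp (hA2 : IS2.St_A2) (hKB : St_KBm) : St_KBP := by
  intro j
  obtain ⟨A, hA⟩ := hA2
  refine ⟨1 + 16 * |A| * (4 * j ^ 3) ^ 4, le_add_of_nonneg_right (by positivity),
    fun N Γ B ϖ P μ x y hΓ hP B1 hB hxy => ?_⟩
  obtain ⟨_, -, hK⟩ := hKB j B
  have r1 := ((hK N Γ ϖ P hΓ hP).1 x y hxy).1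
  have j1 := hΓ.one_le
  have hc := cm_pos hxy
  have m1 : 1 ≤ μ := B1.trans hB
  have nμ : ‖(μ : ℂ)‖ = μ := by rw [norm_real, Real.norm_of_nonneg (by linarith)]
  obtain ⟨s1, s2, s3⟩ := KBB.sec (μ := μ) hc ⟨by rwa [nμ], by rw [nμ, ofReal_re]; linarith⟩ r1
  obtain ⟨k1, k1', k2, -⟩ := hA _ s1
  have d1 : cm Γ x y ^ 2 / 2 ≤ ‖dot (mD P x y) (mD P x y)‖ := by
    have h1 : mc P x y ^ 2 = dot (mD P x y) (mD P x y) := by
      rw [mc, one_div]
      exact_mod_cast Complex.cpow_nat_inv_pow _ two_ne_zero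
    rw [← h1, norm_pow]
    nlinarith
  have j3 : j ≤ j ^ 3 := le_self_pow₀ j1 (by norm_num)
  have Q1 : 1 ≤ 4 * j ^ 3 := by linarith
  have he := nn hΓ hP x (u := mn P y) (by rw [mn, KBB.pn_norm]; exact n2 hΓ hP _ _)
  have hC : 16 * |A| * (4 * j ^ 3) ^ 4 ≤ 1 + 16 * |A| * (4 * j ^ 3) ^ 4 := by linarith
  have sq4 : √4 = 2 := by rw [show (4 : ℝ) = 2 ^ 2 by norm_num, Real.sqrt_sq two_pos.le]
  rw [norm_mul, nμ] at k1 k1' k2
  refine ⟨fun h => ?_, fun h => ?_⟩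
  · obtain ⟨i, s⟩ := x
    obtain ⟨_, t⟩ := y
    obtain rfl : i = _ := h
    obtain ⟨ha, hb⟩ := near hΓ hP i s t
    have x0 := mul_pos (one_pos.trans_le m1) hc
    obtain ⟨e1, e2, e3⟩ := elem x0
    have h16 : (16 : ℝ) ^ (-(1 / 4) : ℝ) = 1 / 2 := by
      rw [show (16 : ℝ) = 2 ^ (4 : ℝ) by norm_num, ← Real.rpow_mul two_pos.le]
      norm_num
    refine same (abs_nonneg A) Q1 B1 hB hc (Real.rpow_nonneg x0.le _) (by positivity)
      (norm_nonneg (exp (-(μ * mc P (i, s) (i, t))))) hC ?_ ?_ ha hb he d1 ?_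
      (by linarith [pow_pos x0 3]) e1 e2 e3
    · refine k1.trans (mul_le_mul_of_nonneg_right (mul_le_mul (le_abs_self A) ?_ (by positivity)
        (abs_nonneg _)) (norm_nonneg _))
      calc _ ≤ (μ * cm Γ (i, s) (i, t) / 16) ^ (-(1 / 4) : ℝ) :=
            Real.rpow_le_rpow_of_nonpos (by positivity) (by nlinarith) (by norm_num)
        _ = _ := by rw [Real.div_rpow x0.le (by norm_num), h16]; ring
    · refine k2.trans (mul_le_mul_of_nonneg_right (mul_le_mul (le_abs_self A) ?_ (by positivity)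
        (abs_nonneg _)) (norm_nonneg _))
      have : √(μ * ‖mc P (i, s) (i, t)‖) ≤ √(4 * (μ * cm Γ (i, s) (i, t))) :=
        Real.sqrt_le_sqrt (by nlinarith)
      rw [Real.sqrt_mul (by norm_num : (0 : ℝ) ≤ 4), sq4] at this
      linarith
    · rw [rk, mul_assoc, ← Real.exp_add, norm_exp]
      refine mul_le_mul_of_nonneg_left (Real.exp_le_exp.2 ?_) (by positivity)
      have := (abs_le.1 ((abs_re_le_norm _).trans r1)).1
      simp only [neg_re, re_ofReal_mul, sub_re, ofReal_re] at this ⊢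
      nlinarith
  · have c1 := hΓ.inv_le_cm h
    have c2 := hΓ.cm_le_j x y
    have c3 : 1 ≤ j * cm Γ x y := by rwa [inv_le_iff_one_le_mul₀' hΓ.pos] at c1
    have m2 : 1 ≤ √μ := Real.one_le_sqrt.2 m1
    have e1 : ‖exp (-(μ * mc P x y))‖ * ‖exp (μ * mc P x y)‖ = 1 := by
      rw [← norm_mul, ← exp_add, neg_add_cancel, exp_zero, norm_one]
    have z0 : 0 < ‖mc P x y‖ := by linarith
    refine diff (abs_nonneg A) Q1 m2 hC ?_ ?_ (nn hΓ hP y (far hΓ hP h)) (nn hΓ hP x (far hΓ hP h))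
      he ?_
    · rw [norm_mul]
      refine (mul_le_mul_of_nonneg_right k1' (norm_nonneg _)).trans ?_
      rw [mul_assoc, e1, mul_one, mul_div_assoc]
      refine mul_le_mul (le_abs_self A) ?_ (by positivity) (abs_nonneg _)
      rw [Real.sqrt_mul (by linarith), mul_inv, div_eq_inv_mul]
      refine mul_le_mul_of_nonneg_left ?_ (by positivity)
      refine (inv_le_comm₀ (by positivity) (by positivity)).2 (Real.le_sqrt_of_sq_le ?_)
      calc _ ≤ (4 * j ^ 3)⁻¹ := pow_le_of_le_one (by positivity) (inv_le_one_of_one_le₀ Q1)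
            two_ne_zero
        _ ≤ _ := by rw [inv_le_iff_one_le_mul₀' (by positivity)]; nlinarith
    · rw [norm_mul]
      refine (mul_le_mul_of_nonneg_right k2 (norm_nonneg _)).trans ?_
      rw [mul_assoc, e1, mul_one, mul_assoc]
      refine mul_le_mul (le_abs_self A) ?_ (by positivity) (abs_nonneg _)
      have : √‖mc P x y‖ ≤ 2 * j := Real.sqrt_le_iff.2 ⟨by positivity, by nlinarith⟩
      rw [Real.sqrt_mul (by linarith)]
      nlinarith
    · refine le_trans ?_ d1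
      rw [inv_le_iff_one_le_mul₀' (by positivity)]
      nlinarith [mul_le_mul c3 c3 zero_le_one (by positivity), mul_pos hΓ.pos hc]

end Pool.Agent.Lib.IS3
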