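import Pool.Agent.Lib.IS3.Kit
import Pool.Agent.Lib.IS2.B_KB

/-! Bounds of the kernels on several curves. -/

open scoped ContDiff ComplexConjugate Topology Real
open Complex MeasureTheory Set Filter

noncomputable section

namespace Pool.Agent.Lib.IS3

open Pool.Agent.Lib.ISO Pool.Agent.Lib.IS2 Pool.Agent.Lib.IS2.KBB

namespace KBm

variable {N : ℕ} {j B ϖ : ℝ} {Γ : MC N} {P : MQ N}

theorem n2 (hΓ : Nv j Γ) (hP : Admm j B Γ ϖ P) (i : Fin N) (s : ℝ) : ‖deriv (P i) s‖ ≤ 2 * j := by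
  have j1 := hΓ.one_le
  have h1 := (hP.1 i).a1 s
  have h2 : ‖deriv (cp (Γ i)) s‖ ≤ j := by
    rw [(hd_cp ((hΓ.smooth i).differentiable (by simp)) s).deriv]
    simpa [Prod.norm_def] using hΓ.b1 i s
  have h3 : (40 * j)⁻¹ ≤ 1 := inv_le_one_of_one_le₀ (by linarith)
  have := norm_sub_norm_le (deriv (P i) s) (deriv (cp (Γ i)) s)
  linarith

/-- the error of the chord -/
def qq (Γ : MC N) (P : MQ N) (x y : XN N) : C2 :=
  (P y.1 y.2 - cp (Γ y.1) y.2) - (P x.1 x.2 - cp (Γ x.1) x.2)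

theorem q2 (hP : Admm j B Γ ϖ P) (x y : XN N) : ‖qq Γ P x y‖ ≤ 2 * ϖ :=
  (norm_sub_le _ _).trans (by have := (hP.1 x.1).a0 x.2; have := (hP.1 y.1).a0 y.2; linarith)

theorem q1 (hΓ : Nv j Γ) (hP : Admm j B Γ ϖ P) (x y : XN N) : ‖qq Γ P x y‖ ≤ cm Γ x y / 40 := by
  have j1 := hΓ.one_le
  obtain ⟨i, s⟩ := x
  obtain ⟨k, t⟩ := y
  rcases eq_or_ne i k with rfl | h
  · have dP : Differentiable ℝ (P i) := (hP.1 i).sp.1.differentiable (by simp)
    have dC : Differentiable ℝ (cp (Γ i)) := fun s =>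
      (hd_cp ((hΓ.smooth i).differentiable (by simp)) s).differentiableAt
    refine (lipc (dP.sub dC) ((hP.1 i).sp.2.sub fun s => by simp [cp, hΓ.per i s])
      (fun s => by rw [deriv_sub (dP s) (dC s)]; exact (hP.1 i).a1 s) s t).trans ?_
    have arc : dc s t ≤ j * cm Γ (i, s) (i, t) := hΓ.arc i s t
    calc (40 * j)⁻¹ * dc s t ≤ (40 * j)⁻¹ * (j * cm Γ (i, s) (i, t)) := by gcongr
      _ = _ := by field_simp
  · have sep : 1 ≤ j * cm Γ (i, s) (k, t) := hΓ.sep i k s t h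
    refine (q2 hP _ _).trans ?_
    calc 2 * ϖ ≤ 2 * (80 * j)⁻¹ * 1 := by have := hP.2 i k h; linarith
      _ ≤ 2 * (80 * j)⁻¹ * (j * cm Γ (i, s) (k, t)) := by gcongr
      _ = _ := by field_simp; ring

theorem q3 (x y : XN N) (h : ‖qq Γ P x y‖ ≤ cm Γ x y) :
    ‖dot (mD P x y) (mD P x y) - cm Γ x y ^ 2‖ ≤ 3 * ‖qq Γ P x y‖ * cm Γ x y := by
  have e : dot (mD P x y) (mD P x y) - cm Γ x y ^ 2 = -((gp Γ x - gp Γ y) * (qq Γ P x y).2) -
      (qq Γ P x y).1 * conj (gp Γ x - gp Γ y) + (qq Γ P x y).1 * (qq Γ P x y).2 := by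
    rw [cm, ← Complex.mul_conj']
    simp only [dot, mD, qq, gp, cp, Prod.fst_sub, Prod.snd_sub, map_sub]
    ring
  have h3 : ‖gp Γ x - gp Γ y‖ = cm Γ x y := rfl
  rw [e]
  generalize qq Γ P x y = Q at *
  have h1 := norm_fst_le Q
  have h2 := norm_snd_le Q
  refine (norm_add_le _ _).trans ((add_le_add_left (norm_sub_le _ _) _).trans ?_)
  simp only [norm_neg, norm_mul, RCLike.norm_conj, h3]
  have := mul_le_mul h1 h2 (norm_nonneg _) (norm_nonneg _)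
  have c0 : 0 ≤ cm Γ x y := norm_nonneg _
  nlinarith [norm_nonneg Q]

theorem symm (x y : XN N) : cm Γ x y = cm Γ y x := norm_sub_rev _ _

/-- the normal component of the chord at its first end -/
theorem nd (hΓ : Nv j Γ) (hP : Admm j B Γ ϖ P) (x y : XN N) :
    ‖dot (mn P x) (mD P x y)‖ ≤ (2 * |B| * j ^ 4 + 4 * j ^ 2) * cm Γ x y ^ 2 := by
  have j1 := hΓ.one_le
  have c0 : 0 ≤ cm Γ x y := norm_nonneg _
  have a1 := q1 hΓ hP x y
  obtain ⟨i, s⟩ := x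
  obtain ⟨k, t⟩ := y
  have B0 : 0 ≤ B := (norm_nonneg _).trans ((hP.1 i).a2 0)
  rw [abs_of_nonneg B0]
  rcases eq_or_ne i k with rfl | h
  · have dP : Differentiable ℝ (P i) := (hP.1 i).sp.1.differentiable (by simp)
    have dP' : Differentiable ℝ (deriv (P i)) :=
      (contDiff_infty_iff_deriv.1 (hP.1 i).sp.1).2.differentiable (by simp)
    obtain ⟨m, hm⟩ := (red t s).2
    have arc : dc t s ≤ j * cm Γ (i, s) (i, t) := symm (Γ := Γ) (i, t) (i, s) ▸ hΓ.arc i t s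
    have pe : P i (t - m * (2 * π)) = P i t := (hP.1 i).sp.2.sub_int_mul_eq m
    have e : dot (mn P (i, s)) (mD P (i, s) (i, t)) = dot (pn (P i) s)
        (P i (t - m * (2 * π)) - P i s - (t - m * (2 * π) - s) • deriv (P i) s) := by
      rw [pe]
      simp only [dot, mn, mD, pn, Prod.fst_sub, Prod.snd_sub, Prod.smul_fst, Prod.smul_snd,
        real_smul]
      ring
    rw [e]
    refine (dot_le _ _).trans ?_
    rw [pn_norm]
    have : 0 ≤ dc t s := norm_nonneg _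
    calc _ ≤ 2 * j * (B * |t - m * (2 * π) - s| ^ 2) :=
          mul_le_mul (n2 hΓ hP i s) (tay dP dP' (hP.1 i).a2 _ _) (norm_nonneg _) (by linarith)
      _ ≤ 2 * (j * j) * (B * (j * cm Γ (i, s) (i, t)) ^ 2) := by
          rw [← hm]
          gcongr
          nlinarith
      _ = (2 * B * j ^ 4 + 0) * cm Γ (i, s) (i, t) ^ 2 := by ring
      _ ≤ _ := by gcongr; positivity
  · have sep : 1 ≤ j * cm Γ (i, s) (k, t) := hΓ.sep i k s t h
    have e : mD P (i, s) (k, t) = qq Γ P (i, s) (k, t) + (cp (Γ k) t - cp (Γ i) s) := by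
      simp only [mD, qq]
      abel
    have e2 : ‖cp (Γ k) t - cp (Γ i) s‖ = cm Γ (i, s) (k, t) := by
      rw [symm]
      simp only [cp, Prod.norm_def, Prod.fst_sub, Prod.snd_sub, ← map_sub, RCLike.norm_conj,
        max_self, cm, gp]
    have a2 : ‖mD P (i, s) (k, t)‖ ≤ 2 * cm Γ (i, s) (k, t) := by
      rw [e]
      refine (norm_add_le _ _).trans ?_
      rw [e2]
      linarith
    refine (dot_le _ _).trans ?_
    rw [mn, pn_norm]
    calc _ ≤ 2 * j * (2 * cm Γ (i, s) (k, t)) * 1 :=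
          (mul_le_mul (n2 hΓ hP i s) a2 (norm_nonneg _) (by linarith)).trans (mul_one _).ge
      _ ≤ 2 * j * (2 * cm Γ (i, s) (k, t)) * (j * cm Γ (i, s) (k, t)) := by gcongr
      _ = (0 + 4 * j ^ 2) * cm Γ (i, s) (k, t) ^ 2 := by ring
      _ ≤ _ := by gcongr; positivity

theorem geo (hΓ : Nv j Γ) (hP : Admm j B Γ ϖ P) (x y : XN N) :
    cm Γ x y ≤ j ∧ ‖dot (mD P x y) (mD P x y) - cm Γ x y ^ 2‖ ≤ cm Γ x y / 10 * cm Γ x y ∧
    ‖dot (mD P x y) (mD P x y) - cm Γ x y ^ 2‖ ≤ 6 * ϖ * cm Γ x y ∧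
    ‖dot (mn P y) (mD P x y)‖ ≤ (2 * |B| * j ^ 4 + 4 * j ^ 2) * cm Γ x y ^ 2 ∧
    ‖dot (mn P x) (mD P x y)‖ ≤ (2 * |B| * j ^ 4 + 4 * j ^ 2) * cm Γ x y ^ 2 ∧
    ‖dot (mn P x) (mn P y)‖ ≤ 4 * j ^ 2 := by
  have c0 : 0 ≤ cm Γ x y := norm_nonneg _
  have a1 := q1 hΓ hP x y
  have a2 := q2 hP x y
  have a3 := q3 x y (a1.trans (by linarith))
  refine ⟨hΓ.diam _ _ _ _, by nlinarith, by nlinarith, ?_, nd hΓ hP x y, (dot_le _ _).trans ?_⟩
  · have := nd hΓ hP y x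
    rwa [show dot (mn P y) (mD P y x) = -dot (mn P y) (mD P x y) by
      simp only [dot, mD, Prod.fst_sub, Prod.snd_sub]; ring, norm_neg, symm] at this
  · rw [mn, mn, pn_norm, pn_norm]
    have := hΓ.one_le
    exact (mul_le_mul (n2 hΓ hP _ _) (n2 hΓ hP _ _) (norm_nonneg _) (by linarith)).trans
      (le_of_eq (by ring))

/-- The bounds of the four kernels. -/
theorem ker (hA2 : St_A2) (j B : ℝ) : ∃ C, 6 ≤ C ∧ ∀ (N : ℕ) (Γ : MC N) ϖ P, Nv j Γ →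
    Admm j B Γ ϖ P → ∀ x y, gp Γ x ≠ gp Γ y → ‖mc P x y - cm Γ x y‖ ≤ cm Γ x y / 10 ∧
    ‖mc P x y - cm Γ x y‖ ≤ C * ϖ ∧
    ∀ μ, Sm μ → ‖mK μ P x y‖ ≤ C * (1 + √(‖μ‖ * cm Γ x y)) * ‖exp (-(μ * mc P x y))‖ ∧
      ‖mS μ P x y‖ ≤ C * cm Γ x y ^ (-(1 / 4) : ℝ) * ‖exp (-(μ * mc P x y))‖ ∧
      ‖mKd μ P x y‖ ≤ C / 2 * ‖exp (-(μ * mc P x y))‖ ∧
      ‖mNd μ P x y‖ ≤ C * √‖μ‖ * cm Γ x y ^ (-(1 / 4) : ℝ) * ‖exp (-(μ * mc P x y))‖ := by
  obtain ⟨A, hA⟩ := hA2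
  set G := 2 * |B| * j ^ 4 + 4 * j ^ 2 with hG
  have G0 : 0 ≤ G := by positivity
  have A0 := abs_nonneg A
  set X := |A| with hX
  have t1 : 0 ≤ X * G := by positivity
  have t2 : 0 ≤ X * (G * j ^ 2) := by positivity
  have t3 : 0 ≤ X * j ^ 2 := by positivity
  have t4 : 0 ≤ X * (G ^ 2 * j ^ 4) := by positivity
  refine ⟨6 + X * (2 + 4 * G + 4 * (G * j ^ 2) + 8 * j ^ 2 + 8 * (G ^ 2 * j ^ 4)),
    le_add_of_nonneg_right (by positivity), fun N Γ ϖ P hΓ hP s t hst => ?_⟩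
  obtain ⟨g1, g2, g3, g4, g5, g6⟩ := geo hΓ hP s t
  have j1 := hΓ.one_le
  have w0 : 0 ≤ ϖ := (norm_nonneg _).trans ((hP.1 s.1).a0 0)
  rw [← hG] at g4 g5
  have hc : 0 < cm Γ s t := norm_pos_iff.2 (sub_ne_zero.2 hst)
  have r1 : ‖mc P s t - cm Γ s t‖ ≤ cm Γ s t / 10 := root hc g2
  refine ⟨r1, (root hc g3).trans (mul_le_mul_of_nonneg_right
    (le_add_of_nonneg_right (by positivity)) w0), fun μ hμ => ?_⟩
  obtain ⟨s1, s2, s3⟩ := sec hc hμ r1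
  obtain ⟨k1, -, k2, -⟩ := hA _ s1
  have m1 := hμ.1
  have d1 : cm Γ s t ^ 2 / 2 ≤ ‖dot (mD P s t) (mD P s t)‖ := by
    have := norm_sub_norm_le ((cm Γ s t : ℂ) ^ 2) (dot (mD P s t) (mD P s t))
    rw [norm_sub_rev, norm_pow, norm_real, Real.norm_of_nonneg hc.le] at this
    nlinarith
  simp only [mK, mS, mKd, mNd]
  generalize cm Γ s t = c at *
  generalize mc P s t = z at *
  generalize dot (mD P s t) (mD P s t) = D at *
  generalize dot (mn P t) (mD P s t) = a at *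
  generalize dot (mn P s) (mD P s t) = b at *
  generalize dot (mn P s) (mn P t) = e at *
  set E := ‖exp (-(μ * z))‖
  have E0 : 0 ≤ E := norm_nonneg _
  set r := c ^ (-(1 / 4) : ℝ) with hr
  have r0 : 0 < r := Real.rpow_pos_of_pos hc _
  have h16 : (16 : ℝ) ^ (-(1 / 4) : ℝ) = 1 / 2 := by
    rw [show (16 : ℝ) = 2 ^ (4 : ℝ) by norm_num, ← Real.rpow_mul two_pos.le]
    norm_num
  have r2 : 1 ≤ j * r := by
    calc (1 : ℝ) = j ^ (0 : ℝ) := (Real.rpow_zero j).symm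
      _ ≤ j ^ (1 + -(1 / 4) : ℝ) := Real.rpow_le_rpow_of_exponent_le j1 (by norm_num)
      _ = j * j ^ (-(1 / 4) : ℝ) := Real.rpow_one_add' (by linarith) (by norm_num)
      _ ≤ _ := mul_le_mul_of_nonneg_left (Real.rpow_le_rpow_of_nonpos hc g1 (by norm_num))
          (by linarith)
  have r3 : c * r ≤ j := by
    rw [hr, ← Real.rpow_one_add' hc.le (by norm_num)]
    calc _ ≤ j ^ (1 + -(1 / 4) : ℝ) := Real.rpow_le_rpow hc.le g1 (by norm_num)
      _ ≤ j ^ (1 : ℝ) := Real.rpow_le_rpow_of_exponent_le j1 (by norm_num)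
      _ = j := Real.rpow_one j
  have K : ‖K0 (μ * z)‖ ≤ X * (2 * r) * E := by
    refine k1.trans (mul_le_mul_of_nonneg_right (mul_le_mul (le_abs_self A) ?_ (by positivity)
      A0) E0)
    calc ‖μ * z‖ ^ (-(1 / 4) : ℝ) ≤ (c / 16) ^ (-(1 / 4) : ℝ) :=
          Real.rpow_le_rpow_of_nonpos (by positivity) (by rw [norm_mul]; nlinarith) (by norm_num)
      _ = 2 * r := by rw [Real.div_rpow hc.le (by norm_num), h16, hr]; ring
  have sq4 : √4 = 2 := by rw [show (4 : ℝ) = 2 ^ 2 by norm_num, Real.sqrt_sq two_pos.le]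
  have L : ‖L1 (μ * z)‖ ≤ X * (2 * (1 + √(‖μ‖ * c))) * E := by
    refine k2.trans (mul_le_mul_of_nonneg_right (mul_le_mul (le_abs_self A) ?_ (by positivity)
      A0) E0)
    have : √‖μ * z‖ ≤ √(4 * (‖μ‖ * c)) := Real.sqrt_le_sqrt (by rw [norm_mul]; nlinarith)
    rw [Real.sqrt_mul (by norm_num), sq4] at this
    linarith
  have m2 : 1 ≤ √‖μ‖ := Real.one_le_sqrt.2 m1
  have L' : 1 + √(‖μ‖ * c) ≤ 2 * j * √‖μ‖ := by
    have : √c ≤ j := Real.sqrt_le_iff.2 ⟨by linarith, by nlinarith⟩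
    rw [Real.sqrt_mul (norm_nonneg _)]
    nlinarith
  have p2 : 1 ≤ ‖(2 * π : ℂ)‖ := by simp [abs_of_pos Real.pi_pos]; linarith [Real.pi_gt_three]
  have p4 : 1 ≤ ‖(4 * π : ℂ)‖ := by simp [abs_of_pos Real.pi_pos]; linarith [Real.pi_gt_three]
  have c2 : 0 < c ^ 2 / 2 := by positivity
  have j0 : 0 ≤ j := by linarith
  set Y := 1 + √(‖μ‖ * c)
  have Y0 : 0 ≤ Y := by positivity
  refine ⟨?_, ?_, ?_, ?_⟩
  · rw [norm_div, norm_mul, norm_mul]
    calc _ ≤ X * (2 * Y) * E * (G * c ^ 2) / (1 * (c ^ 2 / 2)) := by gcongr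
      _ = X * (4 * G) * Y * E := by field_simp; ring
      _ ≤ _ := by gcongr; linarith
  · rw [norm_div]
    calc _ ≤ X * (2 * r) * E / 1 := by gcongr
      _ = X * 2 * r * E := by ring
      _ ≤ _ := by gcongr; linarith
  · rw [norm_div, norm_neg, norm_mul]
    calc _ ≤ X * (2 * r) * E * (G * c ^ 2) / 1 := by gcongr
      _ = X * (2 * G) * (c * r * c) * E := by ring
      _ ≤ X * (2 * G) * (j * j) * E := by gcongr
      _ ≤ _ := by gcongr; linarith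
  · refine (norm_add_le _ _).trans ?_
    rw [norm_div, norm_div, norm_neg, norm_mul, norm_mul _ a, norm_mul _ b, norm_mul _ D]
    have L2 : ‖L1 (μ * z)‖ ≤ X * (2 * (2 * j * √‖μ‖)) * E := L.trans (by gcongr)
    calc _ ≤ X * (2 * r) * E * (4 * j ^ 2) / 1 +
          X * (2 * (2 * j * √‖μ‖)) * E * (G * c ^ 2) * (G * c ^ 2) / (1 * (c ^ 2 / 2)) := by
          gcongr
      _ = X * (8 * j ^ 2) * 1 * r * E + X * (8 * j * G ^ 2) * c ^ 2 * √‖μ‖ * 1 * E := by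
          field_simp; ring
      _ ≤ X * (8 * j ^ 2) * √‖μ‖ * r * E + X * (8 * j * G ^ 2) * j ^ 2 * √‖μ‖ * (j * r) * E := by
          gcongr
      _ = X * (8 * j ^ 2 + 8 * (G ^ 2 * j ^ 4)) * √‖μ‖ * r * E := by ring
      _ ≤ _ := by gcongr; linarith

theorem gw {n : ℕ} {v : Fin (n + 2) → XN N} (h : Gw Γ v) :
    (∀ i : Fin n, gp Γ (v i.castSucc.castSucc) ≠ gp Γ (v i.succ.castSucc)) ∧
      gp Γ (v (Fin.last n).castSucc) ≠ gp Γ (v (Fin.last (n + 1))) ∧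
      gp Γ (v (Fin.last (n + 1))) ≠ gp Γ (v 0) :=
  ⟨fun i => edge_cs i ▸ h _, edge_pen ▸ h _, edge_last ▸ h _⟩

end KBm

theorem st_kbm (hA2 : St_A2) : St_KBm := by
  intro j B
  obtain ⟨C, hC, h⟩ := KBm.ker hA2 j B
  refine ⟨C, by linarith, fun N γ ϖ P hγ hP => ⟨fun s t hst => ?_,
    fun n v μ o hv hμ ho => ⟨?_, ?_⟩⟩⟩
  · obtain ⟨h1, h2, -⟩ := h N γ ϖ P hγ hP s t hst
    exact ⟨h1, h2⟩
  · obtain ⟨v1, v2, v3⟩ := KBm.gw hv
    have hK : ∀ s t, gp γ s ≠ gp γ t →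
        ‖mK μ P s t‖ ≤ C * (1 + √(o * cm γ s t)) * ‖exp (-(μ * mc P s t))‖ := fun s t hst => by
      refine (((h N γ ϖ P hγ hP s t hst).2.2 μ hμ).1).trans ?_
      have : 0 ≤ cm γ s t := norm_nonneg _
      gcongr
    have e : ‖exp (-(μ * ecm P v))‖ = ∏ i, ‖exp (-(μ * mc P (v i) (v (i + 1))))‖ := by
      rw [ecm, Finset.mul_sum, ← Finset.sum_neg_distrib, exp_sum, norm_prod]
    obtain ⟨-, a2, -⟩ := (h N γ ϖ P hγ hP _ _ v2).2.2 μ hμ
    obtain ⟨-, -, a3, a4⟩ := (h N γ ϖ P hγ hP _ _ v3).2.2 μ hμ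
    have a1 := hK _ _ v2
    have a5 := a4.trans (mul_le_mul_of_nonneg_right (mul_le_mul_of_nonneg_right
      (mul_le_mul_of_nonneg_left (Real.sqrt_le_sqrt ho) (by linarith))
      (Real.rpow_nonneg (norm_nonneg _) _)) (norm_nonneg _))
    have a0 : ∏ i : Fin n, ‖mK μ P (v i.castSucc.castSucc) (v i.succ.castSucc)‖ ≤
        ∏ i : Fin n, C * (1 + √(o * cm γ (v i.castSucc.castSucc) (v i.succ.castSucc))) *
          ‖exp (-(μ * mc P (v i.castSucc.castSucc) (v i.succ.castSucc)))‖ :=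
      Finset.prod_le_prod (fun _ _ => norm_nonneg _) fun i _ => hK _ _ (v1 i)
    rw [Finset.prod_mul_distrib, Finset.prod_mul_distrib, Finset.prod_const, Finset.card_univ,
      Fintype.card_fin] at a0
    have c1 : 0 ≤ cm γ (v (Fin.last n).castSucc) (v (Fin.last (n + 1))) := norm_nonneg _
    have c2 : 0 ≤ cm γ (v (Fin.last (n + 1))) (v 0) := norm_nonneg _
    have c3 : ∀ i : Fin n, 0 ≤ cm γ (v i.castSucc.castSucc) (v i.succ.castSucc) := fun _ =>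
      norm_nonneg _
    have C0 : 0 ≤ C := by linarith
    rw [e, cyc (fun s t => ‖exp (-(μ * mc P s t))‖), IM, Mm, norm_mul, norm_prod]
    refine (mul_le_mul a0 ((norm_sub_le _ _).trans (add_le_add
      ((norm_mul_le _ _).trans (mul_le_mul a2 a5 (norm_nonneg _) (by positivity)))
      ((norm_mul_le _ _).trans (mul_le_mul ((norm_mul_le _ _).trans
        (mul_le_mul_of_nonneg_left a1 (norm_nonneg _))) a3 (norm_nonneg _) (by positivity)))))
      (norm_nonneg _) (by positivity)).trans (le_of_eq ?_)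
    rw [Complex.norm_two]
    ring
  · rw [norm_exp]
    refine Real.exp_le_exp.2 ?_
    have h1 : ‖ecm P v - elm γ v‖ ≤ (n + 2) * (C * ϖ) := by
      rw [ecm, elm, ofReal_sum, ← Finset.sum_sub_distrib]
      refine (norm_sum_le _ _).trans ((Finset.sum_le_card_nsmul _ _ (C * ϖ)
        fun i _ => (h N γ ϖ P hγ hP _ _ (hv i)).2.1).trans ?_)
      simp
    have h5 := (abs_le.1 (abs_re_le_norm (μ * (ecm P v - elm γ v)))).1
    have h6 : (-(μ * ecm P v)).re = -(μ * (ecm P v - elm γ v)).re - μ.re * elm γ v := by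
      simp; ring
    rw [norm_mul] at h5
    nlinarith [mul_le_mul_of_nonneg_left h1 (norm_nonneg μ)]

end Pool.Agent.Lib.IS3
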