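import Pool.Agent.Lib.IS3.Kit
import Pool.Agent.Lib.IS2.B_KILL

/-! The kill estimate for a scaled curve. -/

open scoped ContDiff ComplexConjugate Topology Real
open Complex MeasureTheory Set Filter

noncomputable section

namespace Pool.Agent.Lib.IS3

open Pool.Agent.Lib.ISO Pool.Agent.Lib.IS2 Pool.Agent.Lib.IS2.KILL

namespace KILLL

theorem str_l {B y η : ℝ} {P : ℂ → C2} (h : Str B y η P) (l : ℝ) :
    Str B (-1) η fun v => (l : ℂ) • P v :=
  have e : ∀ v : ℂ, ¬|v.im| ≤ -1 := fun v a => by linarith [abs_nonneg v.im]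
  ⟨h.hol.const_smul (l : ℂ), fun v => by rw [h.per], fun v a => (e v a).elim, fun v a => (e v a).elim,
    fun v a => (e v a).elim⟩

theorem lg0 (γ : ℝ → ℂ) (w : ∀ n, (Fin n → ℝ) → ℂ) : Lg1 γ 0 w :=
  fun _ _ _ => Finset.sum_nonneg fun _ _ => norm_nonneg _

theorem tt_j {q : ℕ} {h j : ℝ} (hj : 1 ≤ j) (hh : 20 * j ≤ h) : 20 * j * Tt q h ≤ 1 := by
  have h1 : h ≤ h ^ (q + 2) := le_self_pow₀ (by linarith) (by omega)
  rw [Tt, ← div_eq_mul_inv, div_le_one (by linarith)]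
  linarith

theorem main_j (q N : ℕ) {h j : ℝ} (hh : 1 ≤ h) (hj : 1 ≤ j) :
    h ^ (q + 3) * om q h ^ 3 * Real.exp (-(h / (8 * j ^ 2))) ≤ (j ^ 2) ^ (q + 3 + 3 * q * (N + 3)) *
      (8 ^ (q + 3 + 3 * q * (N + 3)) * (q + 3 + 3 * q * (N + 3)).factorial) / om q h ^ N := by
  have o0 : 0 < om q h := by unfold om; positivity
  have h1 := pow_exp (q + 3 + 3 * q * (N + 3)) (h := h / j ^ 2) (by positivity)
  rw [div_pow, div_mul_eq_mul_div, div_le_iff₀' (by positivity), div_div, mul_comm (j ^ 2) 8] at h1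
  rw [le_div_iff₀ (by positivity)]
  refine le_of_eq_of_le ?_ h1
  unfold om
  rw [pow_add h (q + 3), pow_mul h (3 * q)]
  ring

theorem nm_l {j l o : ℝ} {G : ℝ → ℂ} {Q : ℝ → C2} (hG : Ns j l G) (hQ : Q ∈ SP)
    (hn : nm (Q - cp G) ≤ o / j) : nm ((l : ℂ) • Q - cp (sc l G)) ≤ o := by
  have j0 := hG.nc.pos
  have m := SP.sub_mem hQ (cp_mem hG.nc.smooth hG.nc.per)
  rw [cp_sc, ← smul_sub]
  refine (sn_nm.smul _ _ m).trans ?_
  rw [norm_real, Real.norm_of_nonneg ((inv_pos.2 j0).le.trans hG.lo)]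
  exact (mul_le_mul_of_nonneg_right hG.hi (nm_nonneg m)).trans ((le_div_iff₀' j0).1 hn)

theorem core (hH : St_HOL1) (hR : St_REP) (hC : St_CUT) (hD : St_DEFL) (hE : St_ESTL) (hS : St_SH)
    (j B : ℝ) (q n : ℕ) (hq : 6 ≤ q) : ∃ C h0, ∀ h, h0 ≤ h → ∀ l G P p α wt, Ns j l G →
    Str B (100 * j * h / om q h) (om q h)⁻¹ P → nm (rs P - cp G) ≤ (om q h)⁻¹ / j → p ∈ SP →
    nm p ≤ (om q h)⁻¹ / j → (∀ s, 2 * j * Tt q h / h ≤ dc s α → p s = 0) → Wt wt →
    Iv (2 * j * Tt q h / h) α wt →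
    (∀ v, wt (n + 2) v ≠ 0 → ∃ i, dc (v i) α ≤ 2 * j * Tt q h / h) →
    ‖FF q h fun μ => Tn wt μ ((l : ℂ) • rs P + p) n‖ ≤
      C * om q h ^ 3 * Real.exp (-(h / (8 * j ^ 2))) := by
  obtain ⟨Cb, hCb, cb, -⟩ := hC
  obtain ⟨B', C1, h1, d⟩ := hD j B Cb q hq
  obtain ⟨C2, h2, e⟩ := hE j B' C1 q n (by omega)
  obtain ⟨C3, h3, o⟩ := hH j B' q (by omega)
  obtain ⟨C4, h4, s⟩ := hS q (by omega)
  refine ⟨C2, max (max h1 h2) (max h3 (max h4 (20 * j))),
    fun h hh l G P p α wt hγ hP hn hp hnp hp0 hw hi hz => ?_⟩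
  simp only [max_le_iff] at hh
  obtain ⟨⟨a1, a2⟩, a3, a4, a5⟩ := hh
  have j1 := hγ.nc.one_le
  have T0 := (tt_le (q := q) (h := h) (by linarith)).1
  have hp' : 0 < h := by linarith
  obtain ⟨b, hb⟩ := cb (2 * j * Tt q h / h) (20 * j * Tt q h) α (by positivity) (by
    rw [← mul_div_assoc, div_le_iff₀ hp']
    nlinarith [mul_pos hγ.nc.pos T0]) (tt_j j1 a5)
  obtain ⟨d1, d2, d3⟩ := d h a1 l G P p α b hγ hP hn hp hnp hb
  have v0 : 0 < vt q h := by unfold vt om; positivity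
  have hm : (-I * vt q h) ∈ Metric.ball (0 : ℂ) (2 * vt q h) := by
    simp [abs_of_pos v0, v0]
  have sg : Sg q h := ⟨by unfold YY; positivity, fun y hy => ((s h a4).2.1 y hy).1⟩
  rw [ff_congr sg (g := fun μ => Tn wt μ (PzL l P p b (-I * vt q h)) n) fun μ hμ => ?_]
  · exact e h a2 _ _ α wt hγ.n1 (d1 _ (by simpa using hm)) d3 hw hz
  · symm
    refine const_ball (F := fun ζ => Tn wt μ (PzL l P p b ζ) n) (δ := Cb⁻¹) (by positivity)
      (by positivity) ?_ (fun x hx => real_case hR hb (str_l hP l) hp hp0 hw hi μ n ?_) _ hm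
    · exact (o h a3 _ (C1 * h / om q h) wt n hγ.n1 hw).2 _ (fun _ => μ) _ Metric.isOpen_ball
        (differentiableOn_const μ) (fun ζ hζ => ⟨hμ, d1 ζ (by simpa using hζ)⟩)
        fun s => ⟨(d2 s).1.differentiableOn, (d2 s).2.differentiableOn⟩
    · rwa [← lt_div_iff₀ (by linarith), one_div]

end KILLL

open KILLL in
theorem st_killl (hC : St_CUT) (hS : St_SH) (hD : St_DEFL) (hR : St_REP) (hB : St_BR1)
    (hL : St_LH1) (hE : St_ESTL) : St_KILLL := by
  have hH := hB.2.2.2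
  intro j B q N hq
  choose c h1 co using fun n => KILLL.core hH hR hC hD hE hS j B q n hq
  obtain ⟨Cb, hCb, -, cu⟩ := hC
  obtain ⟨Cl, h2, lh⟩ := hL j q (by omega)
  obtain ⟨C3, h3, o⟩ := hH j (j + 1) q (by omega)
  obtain ⟨C4, h4, s⟩ := hS q (by omega)
  obtain ⟨h5, b5⟩ := ((finite_Iio (q * (N + 3))).image h1).bddAbove
  set n0 := q * (N + 3) with hn0
  set S : ℝ := ∑ n ∈ Finset.range n0, 2 * 2 ^ n * ((Cb + 2) * |c n|) with hSd
  set F : ℝ := (j ^ 2) ^ (q + 3 + 3 * q * (N + 3)) *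
    (8 ^ (q + 3 + 3 * q * (N + 3)) * (q + 3 + 3 * q * (N + 3)).factorial) with hF
  refine ⟨2 * |Cl ^ (n0 + 1)| + S * F, max (max h2 h3) (max h4 (max h5 (20 * j))),
    fun h hh l G P hγ hP hn0 => ?_⟩
  simp only [max_le_iff] at hh
  obtain ⟨⟨a2, a3⟩, a4, a5, a6⟩ := hh
  have a1 : ∀ n < n0, h1 n ≤ h := fun n hn => (b5 ⟨n, hn, rfl⟩).trans a5
  have j1 := hγ.nc.one_le
  have T0 := (tt_le (q := q) (h := h) (by linarith)).1
  have T1 := tt_j (q := q) j1 a6
  have hn := nm_l hγ (rs_mem hP) hn0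
  have hp' : 0 < h := by linarith
  have o0 : 0 < om q h := by unfold om; positivity
  have sg : Sg q h := ⟨by unfold YY; positivity, fun y hy => ((s h a4).2.1 y hy).1⟩
  have S0 : 0 ≤ S := Finset.sum_nonneg fun n _ => by positivity
  have g1 : 1 ≤ h ^ (q + 3) := one_le_pow₀ (by linarith)
  have mP := SP.smul_mem (l : ℂ) (rs_mem hP)
  have mγ := cp_mem (hγ.n1.smooth 0) (hγ.n1.per 0)
  have l1 := (lh h a2 _ _ 0 hγ.n1 wt_one (lg0 _ _)).1
  have oi : (om q h)⁻¹ ≤ 2 / om q h := by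
    rw [div_eq_mul_inv]; linarith [inv_pos.2 o0]
  have tl : ∀ Q ∈ SP, nm (Q - cp (sc l G)) ≤ 2 / om q h → ‖FT q h Q - ∑ n ∈ Finset.range n0,
      2 * (-2) ^ n * FF q h fun μ => Tn (fun _ _ => 1) μ Q n‖ ≤ |Cl ^ (n0 + 1)| / om q h ^ N :=
    fun Q hQ hq' => by
    refine ((l1 Q hQ hq').2.2.2.1 n0).trans ?_
    rw [tail_eq q N Cl hp']
    exact div_le_div_of_nonneg_right (le_abs_self _) (by positivity)
  have ho : ∀ Q ∈ SP, nm (Q - cp (sc l G)) ≤ 2 / om q h → ∀ wt n, Wt wt →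
      (∀ μ ∈ DD q h, Integrable (fun v => wt (n + 2) v * In μ Q n v) (box (n + 2))) ∧
      DifferentiableOn ℂ (fun μ => Tn wt μ Q n) (DD q h) := fun Q hQ hq' wt n hw => by
    have ad := (l1 Q hQ hq').1
    have := o h a3 _ (2 / om q h) wt n hγ.n1 hw
    exact ⟨fun μ hμ => (this.1 Q μ 0 ad hμ (lg0 _ _)).1, this.2 _ id (fun _ => Q) (dd_open q h)
      differentiableOn_id (fun μ hμ => ⟨hμ, ad⟩)
      fun s => ⟨differentiableOn_const _, differentiableOn_const _⟩⟩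
  set x : ℝ := h ^ (q + 3) * om q h ^ 3 * Real.exp (-(h / (8 * j ^ 2))) with hx
  set x0 : ℝ := om q h ^ 3 * Real.exp (-(h / (8 * j ^ 2))) with hx0
  have x0p : 0 ≤ x0 := by positivity
  have fin : S * x ≤ S * F / om q h ^ N := by
    rw [mul_div_assoc]
    exact mul_le_mul_of_nonneg_left (main_j q N (by linarith) j1) S0
  have cab : ∀ n, c n * om q h ^ 3 * Real.exp (-(h / (8 * j ^ 2))) ≤ |c n| * x0 := fun n => by
    rw [mul_assoc]; exact mul_le_mul_of_nonneg_right (le_abs_self _) x0p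
  have n00 : nm (0 : ℝ → C2) ≤ (om q h)⁻¹ / j := by rw [nm_zero]; positivity
  have ab : 0 ≤ |Cl ^ (n0 + 1)| / om q h ^ N := by positivity
  have c0' : ∀ n < n0, ∀ α wt, Wt wt → Iv (2 * j * Tt q h / h) α wt →
      (∀ v, wt (n + 2) v ≠ 0 → ∃ i, dc (v i) α ≤ 2 * j * Tt q h / h) →
      ‖FF q h fun μ => Tn wt μ ((l : ℂ) • rs P) n‖ ≤ |c n| * x0 := fun n hn' α wt hw hi hz => by
    have := co n h (a1 n hn') l G P 0 α wt hγ hP hn0 SP.zero_mem n00 (fun _ _ => rfl) hw hi hz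
    rw [add_zero] at this
    exact this.trans (cab n)
  refine ⟨?_, fun p hp α hnp hp0 => ?_⟩
  · obtain ⟨K, α, φ, pu⟩ := cu (2 * j * Tt q h / h) (by positivity) (by
      rw [div_le_one hp']; linarith)
    have hK : (K : ℝ) ≤ (Cb + 2) * h ^ (q + 3) := by
      refine pu.card.trans ?_
      rw [Tt, show Cb / (2 * j * (h ^ (q + 2))⁻¹ / h) = Cb / (2 * j) * h ^ (q + 3) by
        field_simp; ring]
      exact mul_le_mul_of_nonneg_right ((div_le_self (by linarith) (by linarith)).trans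
        (by linarith)) (by positivity)
    have wφ : ∀ k, Wt (wa (φ k)) := fun k => wa_wt (pu.per k) fun s => by
      rw [abs_of_nonneg (pu.nn k s), ← pu.sum s]
      exact Finset.single_le_sum (f := fun k => φ k s) (fun k _ => pu.nn k s) (Finset.mem_univ k)
    have m := sum_bd (f := fun n => FF q h fun μ => Tn (fun _ _ => 1) μ ((l : ℂ) • rs P) n)
      (c := fun n => (Cb + 2) * |c n|) (x := x) n0 fun n hn' => by
      rw [ff_congr sg (g := fun μ => ∑ k, Tn (wa (φ k)) μ ((l : ℂ) • rs P) n) fun μ hμ => ?_,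
        ff_sum sg fun k => (ho _ mP (hn.trans oi) _ n (wφ k)).2]
      · refine (norm_sum_le_of_le _ fun k _ => c0' n hn' (α k) _ (wφ k) (wa_iv (pu.supp k))
          fun v hv => ⟨0, le_of_not_gt fun a => hv ?_⟩).trans ?_
        · simp [wa, pu.supp k _ a.le]
        · rw [Finset.sum_const, Finset.card_univ, Fintype.card_fin, nsmul_eq_mul]
          refine (mul_le_mul_of_nonneg_right hK (by positivity)).trans_eq ?_
          rw [hx, hx0]; ring
      · simp only [Tn]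
        rw [← integral_finsetSum _ fun k _ => (ho _ mP (hn.trans oi) _ n (wφ k)).1 μ hμ]
        refine integral_congr_ae (Eventually.of_forall fun v => ?_)
        simp only [wa, Nat.zero_lt_succ, dite_true, ← Finset.sum_mul, ← ofReal_sum, pu.sum, ofReal_one]
    have := norm_le_norm_add_norm_sub' (FT q h ((l : ℂ) • rs P)) (∑ n ∈ Finset.range n0,
      2 * (-2) ^ n * FF q h fun μ => Tn (fun _ _ => 1) μ ((l : ℂ) • rs P) n)
    rw [add_div, mul_div_assoc]
    linarith [tl _ mP (hn.trans oi)]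
  · have mQ := SP.add_mem mP hp
    have nQ : nm ((l : ℂ) • rs P + p - cp (sc l G)) ≤ 2 / om q h := by
      rw [add_sub_right_comm, div_eq_mul_inv]
      linarith [sn_nm.add _ (SP.sub_mem mP mγ) _ hp, div_le_self (inv_pos.2 o0).le j1]
    have m := sum_bd (f := fun n => (FF q h fun μ => Tn (fun _ _ => 1) μ ((l : ℂ) • rs P + p) n) -
        FF q h fun μ => Tn (fun _ _ => 1) μ ((l : ℂ) • rs P) n)
      (c := fun n => (Cb + 2) * |c n|) (x := x) n0 fun n hn' => by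
      have w := wb_wt (2 * j * Tt q h / h) α
      have z : ∀ v, wb (2 * j * Tt q h / h) α (n + 2) v ≠ 0 → ∃ i, dc (v i) α ≤ 2 * j * Tt q h / h :=
        fun v hv => by
        by_contra a
        exact hv (if_neg a)
      rw [← ff_sub sg (ho _ mQ nQ _ n wt_one).2 (ho _ mP (hn.trans oi) _ n wt_one).2,
        ff_congr sg (g := fun μ => Tn (wb (2 * j * Tt q h / h) α) μ ((l : ℂ) • rs P + p) n -
          Tn (wb (2 * j * Tt q h / h) α) μ ((l : ℂ) • rs P) n) fun μ hμ => ?_,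
        ff_sub sg (ho _ mQ nQ _ n w).2 (ho _ mP (hn.trans oi) _ n w).2]
      · have b1 := (co n h (a1 n hn') l G P p α _ hγ hP hn0 hp hnp hp0 w (wb_iv _ _) z).trans (cab n)
        have b2 := c0' n hn' α _ w (wb_iv _ _) z
        refine (norm_sub_le_of_le b1 b2).trans ?_
        have e : (Cb + 2) * |c n| * x = ((Cb + 2) * h ^ (q + 3)) * (|c n| * x0) := by
          rw [hx, hx0]; ring
        rw [e, ← two_mul]
        exact mul_le_mul_of_nonneg_right (by nlinarith) (by positivity)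
      · simp only [Tn]
        rw [← integral_sub ((ho _ mQ nQ _ n wt_one).1 μ hμ) ((ho _ mP (hn.trans oi) _ n wt_one).1 μ hμ),
          ← integral_sub ((ho _ mQ nQ _ n w).1 μ hμ) ((ho _ mP (hn.trans oi) _ n w).1 μ hμ)]
        refine integral_congr_ae (Eventually.of_forall fun v => ?_)
        simp only [one_mul]
        exact in_far hp0 μ v
    simp only [mul_sub, Finset.sum_sub_distrib] at m
    have t1 := tl _ mQ nQ
    have t2 := tl _ mP (hn.trans oi)
    have key : ∀ a b a' b' : ℂ, ‖a - b‖ ≤ ‖a - a'‖ + ‖b - b'‖ + ‖a' - b'‖ := fun a b a' b' => by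
      rw [show a - b = (a - a') - (b - b') + (a' - b') by ring]
      exact (norm_add_le _ _).trans (add_le_add (norm_sub_le _ _) le_rfl)
    rw [add_div, mul_div_assoc]
    refine (key _ _ _ _).trans ((add_le_add (add_le_add t1 t2) m).trans ?_)
    linarith

end Pool.Agent.Lib.IS3
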