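import Pool.Agent.Lib.IS3.B_KBm
import Pool.Agent.Lib.IS2.B_KM

/-! Row KMm: the integrand of a chain on several curves is measurable and holomorphic in
parameters. -/

open scoped ContDiff ComplexConjugate Topology Real
open Complex MeasureTheory Set Filter

noncomputable section

namespace Pool.Agent.Lib.IS3

open Pool.Agent.Lib.ISO Pool.Agent.Lib.IS2

namespace KMm

variable {N : ℕ}

theorem meas90 (hA1 : St_A1) {P : MQ N} (hP : P ∈ SPm N) {α : Type} [MeasurableSpace α]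
    {μ : α → ℂ} {s t : α → XN N} (hμ : Measurable μ) (hs : Measurable s) (ht : Measurable t) :
    Measurable (fun a => mS (μ a) P (s a) (t a)) ∧ Measurable (fun a => mK (μ a) P (s a) (t a)) ∧
    Measurable (fun a => mKd (μ a) P (s a) (t a)) ∧
    Measurable fun a => mNd (μ a) P (s a) (t a) := by
  obtain ⟨-, m0, m1, -⟩ := hA1
  have h0 := meas_ev (P := P) fun i => (mem_SPm.1 hP i).1.continuous.measurable
  have h1 := meas_ev (P := fun i => deriv (P i)) fun i =>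
    ((mem_SPm.1 hP i).1.continuous_deriv (by simp)).measurable
  have hD : Measurable fun a => mD P (s a) (t a) := (h0.comp ht).sub (h0.comp hs)
  have hN : ∀ {u : α → XN N}, Measurable u → Measurable fun a => mn P (u a) := fun hu =>
    ((h1.comp hu).fst.const_mul _).prodMk ((h1.comp hu).snd.const_mul _)
  have d0 : ∀ {u v : α → C2}, Measurable u → Measurable v → Measurable fun a => dot (u a) (v a) :=
    fun hu hv => ((hu.fst.mul hv.snd).add (hu.snd.mul hv.fst)).div_const _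
  have hz : Measurable fun a => μ a * mc P (s a) (t a) := hμ.mul ((d0 hD hD).pow_const _)
  have k0 := m0.comp hz
  have k1 := m1.comp hz
  exact ⟨k0.div_const _, (k1.mul (d0 (hN ht) hD)).div ((d0 hD hD).const_mul _),
    (k0.mul (d0 (hN ht) hD)).neg.div_const _,
    ((k0.mul (d0 (hN hs) (hN ht))).neg.div_const _).add
      (((k1.mul (d0 (hN hs) hD)).mul (d0 (hN ht) hD)).div ((d0 hD hD).const_mul _))⟩

theorem diff90 (hA1 : St_A1) {j B ϖ : ℝ} {Γ : MC N} {μ : ℂ → ℂ} {P : ℂ → MQ N} {ζ : ℂ}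
    (hγ : Nv j Γ) (hP : Admm j B Γ ϖ (P ζ)) (hS : Sm (μ ζ)) (hμ : DifferentiableAt ℂ μ ζ)
    (hd : ∀ i s, DifferentiableAt ℂ (fun ζ => P ζ i s) ζ ∧
      DifferentiableAt ℂ (fun ζ => deriv (P ζ i) s) ζ) {s t : XN N} (hst : gp Γ s ≠ gp Γ t) :
    DifferentiableAt ℂ (fun ζ => mS (μ ζ) (P ζ) s t) ζ ∧
    DifferentiableAt ℂ (fun ζ => mK (μ ζ) (P ζ) s t) ζ ∧
    DifferentiableAt ℂ (fun ζ => mKd (μ ζ) (P ζ) s t) ζ ∧
    DifferentiableAt ℂ (fun ζ => mNd (μ ζ) (P ζ) s t) ζ := by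
  obtain ⟨-, g2, -⟩ := KBm.geo hγ hP s t
  have hc : 0 < cm Γ s t := cm_pos hst
  have s1 := KMB.slit (KBB.sec hc hS (KBB.root hc g2)).1
  have s2 : dot (mD (P ζ) s t) (mD (P ζ) s t) ∈ slitPlane := by
    have := (abs_le.1 ((abs_re_le_norm _).trans g2)).1
    rw [← ofReal_pow, sub_re, ofReal_re] at this
    exact Or.inl (by nlinarith)
  have d0 : ∀ {u v : ℂ → C2}, DifferentiableAt ℂ u ζ → DifferentiableAt ℂ v ζ →
      DifferentiableAt ℂ (fun ζ => dot (u ζ) (v ζ)) ζ := fun hu hv => by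
    simp only [dot]
    fun_prop
  have dD : DifferentiableAt ℂ (fun ζ => mD (P ζ) s t) ζ := (hd t.1 t.2).1.sub (hd s.1 s.2).1
  have dn : ∀ s, DifferentiableAt ℂ (fun ζ => mn (P ζ) s) ζ := fun s =>
    ((hd s.1 s.2).2.fst.const_mul _).prodMk ((hd s.1 s.2).2.snd.const_mul _)
  have dz : DifferentiableAt ℂ (fun ζ => μ ζ * mc (P ζ) s t) ζ :=
    hμ.mul ((d0 dD dD).cpow_const s2)
  have k0 : DifferentiableAt ℂ (fun ζ => K0 (μ ζ * mc (P ζ) s t)) ζ :=
    DifferentiableAt.comp (g := K0) ζ (hA1.1 _ s1).1.differentiableAt dz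
  have k1 : DifferentiableAt ℂ (fun ζ => L1 (μ ζ * mc (P ζ) s t)) ζ :=
    DifferentiableAt.comp (g := L1) ζ (hA1.1 _ s1).2.differentiableAt dz
  have hπ : (π : ℂ) ≠ 0 := ofReal_ne_zero.2 Real.pi_ne_zero
  have n0 := slitPlane_ne_zero s2
  exact ⟨k0.div_const _,
    (k1.mul (d0 (dn t) dD)).div ((d0 dD dD).const_mul _) (by simp [hπ, n0]),
    (k0.mul (d0 (dn t) dD)).neg.div_const _,
    ((k0.mul (d0 (dn s) (dn t))).neg.div_const _).add
      (((k1.mul (d0 (dn s) dD)).mul (d0 (dn t) dD)).div ((d0 dD dD).const_mul _)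
        (by simp [hπ, n0]))⟩

end KMm

theorem st_kmm (hA1 : St_A1) : St_KMm := by
  refine fun N => ⟨fun P hP n => ?_, fun j B γ ϖ μ P ζ n v hγ hP hS hv hμ hd => ?_⟩
  · have h := fun a b : Fin (n + 2) => KMm.meas90 hA1 hP (α := ℂ × (Fin (n + 2) → XN N))
      measurable_fst ((measurable_pi_apply a).comp measurable_snd)
      ((measurable_pi_apply b).comp measurable_snd)
    exact (Finset.measurable_prod _ fun i _ => (h _ _).2.1).mul
      (((h _ _).1.mul (h _ _).2.2.2).sub (((h _ _).2.1.const_mul 2).mul (h _ _).2.2.1))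
  · obtain ⟨v1, v2, v3⟩ := KBm.gw hv
    obtain ⟨a1, a2, -⟩ := KMm.diff90 hA1 hγ hP hS hμ hd v2
    obtain ⟨-, -, a3, a4⟩ := KMm.diff90 hA1 hγ hP hS hμ hd v3
    exact (DifferentiableAt.fun_finsetProd fun i _ =>
      (KMm.diff90 hA1 hγ hP hS hμ hd (v1 i)).2.1).mul ((a1.mul a4).sub ((a2.const_mul 2).mul a3))

end Pool.Agent.Lib.IS3
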