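import Pool.Agent.Lib.IS3.Kit
import Pool.Agent.Lib.IS2.B_LAY

/-! The layer potentials on several curves. -/

open scoped ContDiff ComplexConjugate Topology Real Interval
open Complex MeasureTheory Set Filter Metric

noncomputable section

namespace Pool.Agent.Lib.IS3

open Pool.Agent.Lib.ISO Pool.Agent.Lib.IS2
open IS2.LAY (dc_int ae_dc bd_k0' meas_Gr pcont pint har_int lap_sub har_D le_oo D)

namespace LAYm

variable {N : ℕ} {μ : ℝ} {Ω : Set ℂ} {Γ : MC N} {γ : ℝ → ℂ}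

/-- every point of the plane is far from the curve, except near one parameter -/
def Nr (γ : ℝ → ℂ) : Prop := Continuous γ ∧ ∃ c > 0, ∀ x, ∃ s, ∀ t, c * dc s t ≤ ‖x - γ t‖

theorem near (hG : St_GCm) (h : CDm Ω Γ) (i : Fin N) : Nr (Γ i) := by
  obtain ⟨c, hc, h1, -⟩ := hG N Ω Γ h
  refine ⟨(h.smooth i).continuous, c / 2, half_pos hc, fun x => ?_⟩
  obtain ⟨y, ⟨s, rfl⟩, hs⟩ := ((h.per i).compact_of_continuous Real.two_pi_pos.ne'
    (h.smooth i).continuous).exists_isMinOn (range_nonempty _) (f := fun y => ‖x - y‖) (by fun_prop)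
  refine ⟨s, fun t => ?_⟩
  have a1 := h1 (i, s) (i, t) 0 (by simpa using hc.le)
  have a2 : ‖x - Γ i s‖ ≤ ‖x - Γ i t‖ := hs (mem_range_self t)
  have a3 := norm_sub_le_norm_sub_add_norm_sub (Γ i t) x (Γ i s)
  rw [norm_sub_rev (Γ i t) x] at a3
  simp [dm, gp] at a1
  linarith

theorem sing (h : Nr γ) {a : ℝ} (a0 : 0 ≤ a) (ha : a < 1) : ∃ C, ∀ x,
    IntervalIntegrable (fun t => ‖x - γ t‖ ^ (-a)) volume 0 (2 * π) ∧
      ∫ t in (0 : ℝ)..(2 * π), ‖x - γ t‖ ^ (-a) ≤ C := by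
  obtain ⟨c, hc, h1⟩ := h.2
  refine ⟨c ^ (-a) * ∫ u in (-π)..π, |u| ^ (-a), fun x => ?_⟩
  obtain ⟨s, hs⟩ := h1 x
  have i := (dc_int ha s).1.const_mul (c ^ (-a))
  have b : ∀ᵐ t, ‖x - γ t‖ ^ (-a) ≤ c ^ (-a) * dc s t ^ (-a) := (ae_dc s).mono fun t ht => by
    rw [← Real.mul_rpow hc.le (dc_nonneg _ _)]
    exact Real.rpow_le_rpow_of_nonpos (mul_pos hc ((dc_nonneg _ _).lt_of_ne' ht)) (hs t)
      (by linarith)
  have m : Measurable fun t => ‖x - γ t‖ ^ (-a) :=
    (continuous_const.sub h.1).norm.measurable.pow_const _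
  have j := i.mono_fun' m.aestronglyMeasurable (ae_restrict_of_ae (b.mono fun t ht =>
    (Real.norm_of_nonneg (by positivity)).trans_le ht))
  refine ⟨j, (intervalIntegral.integral_mono_ae Real.two_pi_pos.le j i b).trans_eq ?_⟩
  rw [intervalIntegral.integral_const_mul, (dc_int ha s).2]

theorem int_SL (hA : St_A3) (hμ : 0 < μ) (h : Nr γ) {φ : ℝ → ℝ} {B : ℝ} (hφ : Measurable φ)
    (hB : ∀ t, |φ t| ≤ B) (x : ℂ) :
    IntervalIntegrable (fun t => Gr μ (x - γ t) * φ t) volume 0 (2 * π) := by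
  obtain ⟨C, C0, hC⟩ := bd_k0' hA hμ
  obtain ⟨K', hK'⟩ := sing h (a := 1 / 4) (by norm_num) (by norm_num)
  refine ((hK' x).1.const_mul (C * B)).mono_fun' ((((meas_Gr hA μ).comp (continuous_const.sub
    h.1).measurable).mul hφ).aestronglyMeasurable) (.of_forall fun t => ?_)
  simp only [Real.norm_eq_abs, abs_mul]
  rw [mul_right_comm]
  exact mul_le_mul (hC _ (norm_nonneg _)) (hB t) (abs_nonneg _) (by positivity)

theorem cont_SL (hA : St_A3) (hμ : 0 < μ) (h : Nr γ) {φ : ℝ → ℝ} {B : ℝ}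
    (hφ : Measurable φ) (hB : ∀ t, |φ t| ≤ B) : Continuous (SLo μ γ φ) := by
  obtain ⟨C, C0, hC⟩ := bd_k0' hA hμ
  obtain ⟨K, hK⟩ := sing h (a := 1 / 2) (by norm_num) (by norm_num)
  have B0 : 0 ≤ B := (abs_nonneg _).trans (hB 0)
  have K0 : 0 ≤ K := (intervalIntegral.integral_nonneg Real.two_pi_pos.le fun t _ => by
    positivity).trans (hK 0).2
  refine continuous_of_uniform_approx_of_continuous fun u hu => ?_
  obtain ⟨ε, ε0, hε⟩ := Metric.mem_uniformity_dist.1 hu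
  obtain ⟨η, η0, hη⟩ := exists_pos_mul_lt ε0 (2 * C * B * K)
  have d0 : 0 < η ^ 4 := by positivity
  have kc : Continuous fun p : ℂ × ℝ => k0 (μ * max ‖p.1 - γ p.2‖ (η ^ 4)) / (2 * π) := by
    have := h.1
    exact (hA.1.continuousOn.comp_continuous (by fun_prop) fun p =>
      mul_pos hμ (d0.trans_le (le_max_right _ _))).div_const _
  refine ⟨fun x => ∫ t in (0 : ℝ)..(2 * π), φ t • (k0 (μ * max ‖x - γ t‖ (η ^ 4)) / (2 * π)),
    continuousOn_univ.1 (pcont isOpen_univ kc.continuousOn hφ hB), fun x => hε ?_⟩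
  have i1 := int_SL hA hμ h hφ hB x
  rw [dist_eq_norm, SLo, ← intervalIntegral.integral_sub i1
    (pint isOpen_univ kc.continuousOn hφ hB (mem_univ x) _ _)]
  refine (intervalIntegral.norm_integral_le_of_norm_le Real.two_pi_pos.le ?_
    ((hK x).1.const_mul (2 * C * B * η))).trans_lt ?_
  · obtain ⟨c, hc, h1⟩ := h.2
    obtain ⟨s, hs⟩ := h1 x
    filter_upwards [ae_dc s] with t ht _
    have r0 : 0 < ‖x - γ t‖ := (mul_pos hc ((dc_nonneg _ _).lt_of_ne' ht)).trans_le (hs t)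
    rw [Gr, smul_eq_mul, mul_comm (φ t), ← sub_mul, norm_mul]
    generalize ‖x - γ t‖ = r at r0
    rcases le_total (η ^ 4) r with hr | hr
    · rw [max_eq_left hr, sub_self, norm_zero, zero_mul]
      positivity
    · rw [max_eq_right hr]
      have e1 : (η ^ 4) ^ (-(1 / 4) : ℝ) ≤ r ^ (-(1 / 4) : ℝ) :=
        Real.rpow_le_rpow_of_nonpos r0 hr (by norm_num)
      have e2 : r ^ (-(1 / 4) : ℝ) ≤ η * r ^ (-(1 / 2) : ℝ) := by
        rw [show (-(1 / 4) : ℝ) = 1 / 4 + -(1 / 2) by norm_num, Real.rpow_add r0]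
        refine mul_le_mul_of_nonneg_right ?_ (by positivity)
        refine (Real.rpow_le_rpow r0.le hr (by norm_num)).trans_eq ?_
        rw [← Real.rpow_natCast, ← Real.rpow_mul η0.le]
        norm_num
      have e3 := hC r r0.le
      have e4 := hC _ d0.le
      refine (mul_le_mul (b := 2 * C * (η * r ^ (-(1 / 2) : ℝ))) ((norm_sub_le _ _).trans ?_) (hB t)
        (abs_nonneg _) (by positivity)).trans_eq (by ring)
      simp only [Real.norm_eq_abs]
      nlinarith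
  · rw [intervalIntegral.integral_const_mul]
    refine (mul_le_mul_of_nonneg_left (hK x).2 (by positivity)).trans_lt ?_
    linarith

theorem ioc {f : ℝ → ℝ} (h : IntervalIntegrable f volume 0 (2 * π)) : Integrable f nI :=
  (intervalIntegrable_iff_integrableOn_Ioc_of_le Real.two_pi_pos.le).1 h

theorem har_sum {U : Set ℂ} (hU : IsOpen U) {u : Fin N → ℂ → ℝ} (h : ∀ i, Har μ U (u i)) :
    Har μ U fun z => ∑ i, u i z := by
  induction (Finset.univ : Finset (Fin N)) using Finset.induction_on with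
  | empty => simpa using K28.har_zero
  | insert i s hi ih => simpa only [Finset.sum_insert hi] using K28.har_add hU (h i) ih

end LAYm

open LAYm in
theorem st_laym (hA : St_A3) (hL : St_LAY) (hG : St_GCm) : St_LAYm := by
  intro N Ω Γ h
  have nr' := near hG h
  refine ⟨fun a a0 ha => ?_, fun μ hμ φ hφ ⟨B, hB⟩ => ?_⟩
  · choose C hC using fun i => sing (nr' i) a0 ha
    refine ⟨∑ i, C i, fun z => ?_⟩
    have i1 : Integrable (fun y => ‖z - gp Γ y‖ ^ (-a)) (nx N) :=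
      integrable_nx.2 fun i => ioc (hC i z).1
    exact ⟨i1, (integral_nx i1).trans_le (Finset.sum_le_sum fun i _ => (hC i z).2)⟩
  have m : ∀ i, Measurable fun s => φ (i, s) := fun i => hφ.comp measurable_prodMk_left
  have b : ∀ i s, |φ (i, s)| ≤ B := fun i s => hB _
  have e : SLom μ Γ φ = fun z => ∑ i, SLo μ (Γ i) (fun s => φ (i, s)) z := funext fun z =>
    integral_nx (integrable_nx.2 fun i => ioc (int_SL hA hμ (nr' i) (m i) (b i) z))
  obtain ⟨⟨⟨-, hl⟩, c, -⟩, -⟩ := hL μ hμ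
  have hU : IsOpen (range (gp Γ))ᶜ := h.rc.cpt.isClosed.isOpen_compl
  have mp : ∀ i, MapsTo (fun p : ℂ × ℝ => p.1 - Γ i p.2) ((range (gp Γ))ᶜ ×ˢ univ) {0}ᶜ :=
    fun i p hp e => hp.1 ⟨(i, p.2), (sub_eq_zero.1 e).symm⟩
  have cs : ∀ i, ContDiff ℝ ∞ fun p : ℂ × ℝ => p.1 - Γ i p.2 := fun i =>
    contDiff_fst.sub ((h.smooth i).comp contDiff_snd)
  refine ⟨?_, ?_, K28.har_congr hU (har_sum hU fun i => har_int (μ := μ) (a := 0) (b := 2 * π)
    (k := fun p => D (-nr (Γ i) p.2) (Gr μ) (p.1 - Γ i p.2)) hU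
    (((((contDiffOn_infty_iff_fderiv_of_isOpen isOpen_compl_singleton).1 c).2.comp
      (cs i).contDiffOn (mp i)).clm_apply
        ((h.rc.nr_smooth i).comp contDiff_snd).neg.contDiffOn).of_le (le_oo 2)) (m i) (b i)
    fun t x hx => (lap_sub (D (-nr (Γ i) t) (Gr μ)) (Γ i t) x).trans ((har_D _
      isOpen_compl_singleton (c.of_le (le_oo 3)) hl).2 _ (mp i (x := (x, t)) ⟨hx, trivial⟩)))
    fun z hz => ?_⟩
  · rw [e]
    exact continuous_finsetSum _ fun i _ => cont_SL hA hμ (nr' i) (m i) (b i)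
  · rw [e]
    exact har_sum hU fun i => har_int (k := fun p => Gr μ (p.1 - Γ i p.2)) hU
      ((c.comp (cs i).contDiffOn (mp i)).of_le (le_oo 2)) (m i) (b i)
      fun t x hx => (lap_sub _ _ _).trans (hl _ (mp i (x := (x, t)) ⟨hx, trivial⟩))
  · rw [DLom, integral_nx ((int_cont (h.rc.DLx_cont1 hA hμ hz)).mul_bdd hφ.aestronglyMeasurable
      (ae_of_all _ hB))]
    refine Finset.sum_congr rfl fun i _ => intervalIntegral.integral_congr fun t _ => ?_
    rw [DLx_eq hL hμ fun a => hz ⟨_, a.symm⟩]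
    rfl

end Pool.Agent.Lib.IS3
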