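import Pool.Agent.Lib.IS3.Kit
import Pool.Agent.Lib.IS2.B_LHT

/-! The weighted trace is bounded, additive and holomorphic on lines near a family of curves. -/

open scoped ContDiff Topology Real
open Complex MeasureTheory Set Filter

noncomputable section

namespace Pool.Agent.Lib.IS3

open Pool.Agent.Lib.ISO Pool.Agent.Lib.IS2

namespace LHW

theorem adm {N : ℕ} {j o : ℝ} {Γ : MC N} (hΓ : Nv j Γ) (ho : 80 * j ≤ o / 2) {P : MQ N}
    (hP : P ∈ SPm N) (hn : nmm (P - cpm Γ) ≤ 2 / o) : Admm j (j + 1) Γ (2 / o) P := by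
  have j1 := hΓ.one_le
  have s0 : 2 / o ≤ (80 * j)⁻¹ := by
    rw [inv_eq_one_div, div_le_div_iff₀ (by linarith) (by linarith)]; linarith
  refine ⟨fun i => ?_, fun _ _ _ => s0⟩
  have hp := mem_SPm.1 hP i
  have hc := cp_mem (hΓ.smooth i) (hΓ.per i)
  have hQ := SP.sub_mem hp hc
  have e1 : deriv (P i - cp (Γ i)) = deriv (P i) - deriv (cp (Γ i)) :=
    funext fun s => deriv_sub (SP.diff hp s) (SP.diff hc s)
  have k : ∀ s, ‖P i s - cp (Γ i) s‖ + ‖deriv (P i) s - deriv (cp (Γ i)) s‖ +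
      ‖deriv (deriv (P i)) s - deriv (deriv (cp (Γ i))) s‖ ≤ 2 / o := fun s => by
    have := le_nm hQ s
    rw [e1, deriv_sub (SP.diff (SP.s1 hp) s) (SP.diff (SP.s1 hc) s)] at this
    exact this.trans ((nm_le_nmm ((SPm N).sub_mem hP hΓ.cpm_mem) i).trans hn)
  have s1 : 2 / o ≤ (40 * j)⁻¹ := s0.trans (inv_anti₀ (by linarith) (by linarith))
  have s2 : 2 / o ≤ 1 := by rw [div_le_one (by linarith)]; linarith
  refine ⟨hp, fun s => ?_, fun s => ?_, fun s => ?_⟩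
  · linarith [k s, norm_nonneg (deriv (P i) s - deriv (cp (Γ i)) s),
      norm_nonneg (deriv (deriv (P i)) s - deriv (deriv (cp (Γ i))) s)]
  · linarith [k s, norm_nonneg (P i s - cp (Γ i) s),
      norm_nonneg (deriv (deriv (P i)) s - deriv (deriv (cp (Γ i))) s)]
  · have b : ‖deriv (deriv (cp (Γ i))) s‖ ≤ j := by
      have d := contDiff_infty_iff_deriv.1 (hΓ.smooth i)
      rw [deriv_cp d.1, deriv_cp (d.2.differentiable (by simp)), norm_cp]
      exact hΓ.b2 i s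
    linarith [k s, norm_nonneg (P i s - cp (Γ i) s),
      norm_nonneg (deriv (P i) s - deriv (cp (Γ i)) s),
      norm_sub_norm_le (deriv (deriv (P i)) s) (deriv (deriv (cp (Γ i))) s)]

theorem term {C o h g : ℝ} {X : ℂ} {n : ℕ} (ho : 0 < o) (hh : 0 < h) (hg : 0 < g)
    (hX : ‖X‖ ≤ C * o * (C / h ^ 3) ^ n * Real.exp (C * (n + 2) * o * (2 / o)) * g) :
    ‖2 * (-2) ^ n * X‖ ≤ 2 * (|C| + 1) * Real.exp (4 * |C|) * o * g *
      (2 * (|C| + 1) * Real.exp (4 * |C|) / h ^ 3) ^ n := by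
  have e : ∀ Y : ℂ, ‖Y / g‖ = ‖Y‖ / g := fun Y => by
    rw [norm_div, Complex.norm_real, Real.norm_of_nonneg hg.le]
  have := LHT.term (C := C) (X := X / g) (n := n) ho hh (by rwa [e, div_le_iff₀ hg])
  rw [← mul_div_assoc, e, div_le_iff₀ hg] at this
  exact this.trans_eq (by ring)

end LHW

open LHW in
theorem st_lhw (hHOL : St_HOLm) : St_LHW := by
  intro j q hq
  obtain ⟨C1, h1, hol⟩ := hHOL j (j + 1) q (by omega)
  set A := 2 * (|C1| + 1) * Real.exp (4 * |C1|) with hA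
  have A0 : 0 < A := by positivity
  refine ⟨2 * A, max h1 (max (max (2 * A) (160 * j)) 1), fun h hh N Γ w l0 hΓ hw hl => ?_⟩
  simp only [max_le_iff] at hh
  obtain ⟨k1, ⟨k3, k4⟩, k5⟩ := hh
  have o1 : h ≤ om q h := le_self_pow₀ k5 (by omega)
  have o0 : 0 < om q h := by linarith
  have t1 : h ≤ h ^ 3 := le_self_pow₀ k5 (by omega)
  have r0 : 0 ≤ A / h ^ 3 := by positivity
  have r1 : A / h ^ 3 ≤ 1 / 2 := by rw [div_le_iff₀ (by positivity)]; linarith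
  have g0 : ∀ l μ, 0 < ga0 q h l μ := fun _ _ => Real.exp_pos _
  have sm := fun K => (summable_geometric_of_lt_one r0 (by linarith)).mul_left K
  have ad : ∀ P ∈ SPm N, nmm (P - cpm Γ) ≤ 2 / om q h → Admm j (j + 1) Γ (2 / om q h) P :=
    fun P hP hn => adm hΓ (by linarith) hP hn
  have tb : ∀ w l0, Wm w → Lg Γ l0 w → ∀ P ∈ SPm N, nmm (P - cpm Γ) ≤ 2 / om q h →
      ∀ μ ∈ DD q h, ∀ n,
      ‖2 * (-2) ^ n * Tc w μ P n‖ ≤ A * om q h * ga0 q h l0 μ * (A / h ^ 3) ^ n :=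
    fun w l0 hw hl P hP hn μ hμ n => term o0 (by linarith) (g0 _ _)
      ((hol h k1 N Γ _ w n hΓ hw).1 P μ l0 (ad P hP hn) hμ hl).2
  have k : ∀ (U : Set ℂ) (μ : ℂ → ℂ) (P : ℂ → MQ N), IsOpen U → DifferentiableOn ℂ μ U →
      (∀ ζ ∈ U, μ ζ ∈ DD q h ∧ P ζ ∈ SPm N ∧ nmm (P ζ - cpm Γ) ≤ 2 / om q h) →
      (∀ i s, DifferentiableOn ℂ (fun ζ => P ζ i s) U ∧
        DifferentiableOn ℂ (fun ζ => deriv (P ζ i) s) U) →
      DifferentiableOn ℂ (fun ζ => TW w (μ ζ) (P ζ)) U := fun U μ P hU hμ hP hd =>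
    differentiableOn_tsum_of_summable_norm (sm (A * om q h))
      (fun n => ((hol h k1 N Γ _ w n hΓ hw).2 U μ P hU hμ (fun ζ hζ => ⟨(hP ζ hζ).1,
        ad _ (hP ζ hζ).2.1 (hP ζ hζ).2.2⟩) hd).const_mul _) hU fun n ζ hζ => by
      simpa only [ga0, mul_zero, neg_zero, Real.exp_zero, mul_one] using
        tb w 0 hw (lg_zero Γ w) _ (hP ζ hζ).2.1 (hP ζ hζ).2.2 _ (hP ζ hζ).1 n
  have bm : ∀ P ∈ SPm N, nmm (P - cpm Γ) ≤ 2 / om q h → ∀ μ ∈ DD q h,
      ‖TW w μ P‖ ≤ 2 * A * om q h * ga0 q h l0 μ := fun P hP hn μ hμ => by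
    have := LHT.tail (mul_pos (mul_pos A0 o0) (g0 l0 μ)).le r0 r1 (tb w l0 hw hl P hP hn μ hμ) 0
    rw [Finset.sum_range_zero, sub_zero, pow_zero] at this
    exact this.trans_eq (by ring)
  refine ⟨fun P hP hn => ⟨ad P hP hn, k _ (fun μ => μ) (fun _ => P) (LHT.opn q h)
    differentiableOn_id (fun _ hζ => ⟨hζ, hP, hn⟩) fun _ _ =>
      ⟨differentiableOn_const _, differentiableOn_const _⟩, fun μ hμ => ?_⟩, fun μ hμ => ?_⟩
  · have su : ∀ w, Wm w → Summable fun n => 2 * (-2) ^ n * Tc w μ P n := fun w hw =>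
      .of_norm_bounded (sm _) (tb w 0 hw (lg_zero Γ w) P hP hn μ hμ)
    refine ⟨su w hw, bm P hP hn μ hμ, fun w' hw' => ?_⟩
    rw [TW, TW, TW, ← (su w hw).tsum_add (su w' hw')]
    refine tsum_congr fun n => ?_
    rw [← mul_add, Tc, Tc, Tc, ← integral_add
      ((hol h k1 N Γ _ w n hΓ hw).1 P μ 0 (ad P hP hn) hμ (lg_zero Γ w)).1
      ((hol h k1 N Γ _ w' n hΓ hw').1 P μ 0 (ad P hP hn) hμ (lg_zero Γ w')).1]
    simp only [Pi.add_apply, add_mul]
  · have nr : ∀ x ∈ SPm N, nmm x < (om q h)⁻¹ →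
        cpm Γ + x ∈ SPm N ∧ nmm (cpm Γ + x - cpm Γ) ≤ 2 / om q h := fun x hx hn =>
      ⟨(SPm N).add_mem hΓ.cpm_mem hx, by
        rw [add_sub_cancel_left, div_eq_mul_inv]; linarith [inv_pos.2 o0]⟩
    refine ⟨fun x hx y hy => k _ (fun _ => μ) (fun ε => cpm Γ + x + ε • y)
      (GH.opn sn_nmm hx hy _) (differentiableOn_const _) (fun ε hε => ⟨hμ, ?_⟩)
      fun i s => ⟨?_, ?_⟩, fun x hx hn => bm _ (nr x hx hn).1 (nr x hx hn).2 μ hμ⟩
    · rw [add_assoc]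
      exact nr _ ((SPm N).add_mem hx ((SPm N).smul_mem ε hy)) hε
    · simp only [Pi.add_apply, Pi.smul_apply]
      fun_prop
    · have a := mem_SPm.1 ((SPm N).add_mem hΓ.cpm_mem hx) i
      have b := mem_SPm.1 hy i
      have : (fun ε : ℂ => deriv ((cpm Γ + x + ε • y) i) s) =
          fun ε : ℂ => deriv ((cpm Γ + x) i) s + ε • deriv (y i) s := funext fun ε => by
        rw [Pi.add_apply _ (ε • y), Pi.smul_apply,
          deriv_add (SP.diff a s) (SP.diff (SP.smul_mem ε b) s), deriv_const_smul ε (SP.diff b s)]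
      rw [this]
      fun_prop

end Pool.Agent.Lib.IS3
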