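import Pool.Agent.Lib.IS3.Blue
import Pool.Agent.Lib.IS2.B_GH

/-! Lipschitz bounds for bounded functions that are holomorphic on lines. -/

open Complex Set

noncomputable section

namespace Pool.Agent.Lib.IS3

open Pool.Agent.Lib.IS2 Pool.Agent.Lib.IS2.GH

theorem st_lip (hGH : IS2.St_GH) : St_LIP := by
  obtain ⟨C, hC⟩ := hGH
  refine ⟨32, fun E _ _ S p f x0 r M hp hr hf => ⟨(hC E S p f x0 r M hp hr hf).1,
    fun y hy => ⟨D1_smul f x0 y, ?_⟩, fun x hx y hy hxr hyr => ?_⟩⟩
  all_goals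
    have p0 := p_zero hp
    have M0 : 0 ≤ M := (norm_nonneg _).trans (hf.bd 0 S.zero_mem (by linarith))
    have y0 := hp.nn y hy
    have e1 : 2 * M * (p y / (r / 2)) ≤ 32 * M * p y / r := by
      rw [show 2 * M * (p y / (r / 2)) = 4 * M * p y / r by field_simp; ring]
      gcongr
      norm_num
  · have := (bds hp hf S.zero_mem hy (half_pos hr) (by linarith)).1
    rw [add_zero] at this
    exact this.trans e1
  have x0' := hp.nn x hx
  obtain ⟨h1, h2, -⟩ := (bds hp hf hx hy (half_pos hr) (by linarith)).2 (by linarith)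
  have h3 := ((bds hp (lhD hp hf hy (half_pos hr)) S.zero_mem hx (ρ := r / 4) (by linarith)
    (by linarith)).2 (by linarith)).1
  rw [add_zero] at h3
  refine ⟨h1.trans e1, ?_⟩
  rw [show f (x0 + x + y) - f (x0 + x) - D1 f x0 y = f (x0 + x + y) - f (x0 + x) -
    D1 f (x0 + x) y + (D1 f (x0 + x) y - D1 f x0 y) by ring]
  refine (norm_add_le _ _).trans ((add_le_add h2 h3).trans ?_)
  rw [show 4 * M * (p y / (r / 2)) ^ 2 + 2 * (2 * M * (p y / (r / 2))) * (p x / (r / 4)) =
    32 * M * (p x + p y / 2) * p y / r ^ 2 by field_simp; ring]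
  gcongr
  linarith

end Pool.Agent.Lib.IS3
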