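import Pool.Agent.Lib.IS3.Kit
import Pool.Agent.Lib.IS2.B_LNK

/-! Kernels on several real curves and their Schur bounds. -/

open scoped ContDiff ComplexConjugate Topology Real
open Complex MeasureTheory Set Filter

noncomputable section

namespace Pool.Agent.Lib.IS3

open Pool.Agent.Lib.ISO Pool.Agent.Lib.IS2 Pool.Agent.Lib.IS2.LNK

namespace LNKm

variable {N : ℕ} {Γ : MC N}

lemma mD_cp (Γ : MC N) (s t : XN N) :
    mD (cpm Γ) s t = (gp Γ t - gp Γ s, conj (gp Γ t - gp Γ s)) := by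
  simp [mD, cpm, cp, gp]

lemma mn_cp (h : ∀ i, Differentiable ℝ (Γ i)) (s : XN N) :
    mn (cpm Γ) s = (-gn Γ s, conj (-gn Γ s)) := pn_cp (h s.1) s.2

lemma dd_cp (Γ : MC N) (s t : XN N) :
    dot (mD (cpm Γ) s t) (mD (cpm Γ) s t) = ((cm Γ s t ^ 2 : ℝ) : ℂ) := by
  rw [mD_cp, dot_cp, rdot_self, cm_comm, cm]

lemma mc_cp (Γ : MC N) (s t : XN N) : mc (cpm Γ) s t = cm Γ s t := by
  have h := cm_nonneg Γ s t
  rw [mc, dd_cp, show (1 / 2 : ℂ) = ((1 / 2 : ℝ) : ℂ) by simp, ← ofReal_cpow (sq_nonneg _),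
    ← Real.sqrt_eq_rpow, Real.sqrt_sq h]

lemma one (hA : St_A1) {μ : ℝ} {s t : XN N} (hΓ : ∀ i, Differentiable ℝ (Γ i)) (hμ : 0 < μ)
    (h : gp Γ s ≠ gp Γ t) : mc (cpm Γ) s t = cm Γ s t ∧ mS μ (cpm Γ) s t = Srm μ Γ s t ∧
    mK μ (cpm Γ) s t = Krm μ Γ s t ∧ mK μ (cpm Γ) s t = DLx μ Γ (gp Γ s) t ∧
    mKd μ (cpm Γ) s t = Kdm μ Γ s t ∧ mNd μ (cpm Γ) s t = Ndm μ Γ s t := by
  obtain ⟨h1, h2, -⟩ := hA.2.2.2.2 _ (mul_pos hμ (cm_pos h))
  rw [ofReal_mul] at h1 h2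
  have k : mK μ (cpm Γ) s t = DLx μ Γ (gp Γ s) t := by
    rw [mK, mc_cp, h2, dd_cp, mD_cp, mn_cp hΓ, dot_cp, cm_comm]
    change _ = ((l1 (μ * cm Γ t s) * rdot (-gn Γ t) (gp Γ t - gp Γ s) /
      (2 * π * cm Γ t s ^ 2) : ℝ) : ℂ)
    push_cast
    rfl
  refine ⟨mc_cp Γ s t, ?_, ?_, k, ?_, ?_⟩
  · rw [mS, mc_cp, h1, Srm, Gr]
    push_cast
    rfl
  · rw [Krm]
    split_ifs with e
    · obtain ⟨i, s⟩ := s
      obtain ⟨l, t⟩ := t
      obtain rfl : i = l := e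
      exact (LNK.one hA (hΓ i) hμ h).2.2.1
    · exact k
  · rw [mKd, mc_cp, h1, mD_cp, mn_cp hΓ, dot_cp, Kdm]
    push_cast
    rfl
  · rw [mNd, mc_cp, h1, h2, dd_cp, mD_cp, mn_cp hΓ, mn_cp hΓ, dot_cp, dot_cp, dot_cp, Ndm]
    simp only [rdot_neg_left, rdot_neg_right]
    push_cast
    ring

lemma rk_nn {x : ℝ} (h : 0 ≤ x) : 0 ≤ rk x := by
  unfold rk
  positivity

lemma tail {j μ c : ℝ} (hj : 0 < j) (hμ : 1 ≤ μ) (hc : j⁻¹ ≤ c) :
    √μ ≤ 2 * j ^ 2 / μ * Real.exp (μ * c) := by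
  have a : √μ ≤ μ := Real.sqrt_le_iff.2 ⟨by linarith, by nlinarith⟩
  have p : 0 ≤ μ * j⁻¹ := by positivity
  have b := (Real.quadratic_le_exp_of_nonneg p).trans
    (Real.exp_le_exp.2 (mul_le_mul_of_nonneg_left hc (by linarith)))
  calc √μ ≤ 2 * j ^ 2 / μ * ((μ * j⁻¹) ^ 2 / 2) := a.trans (le_of_eq (by field_simp))
    _ ≤ _ := by gcongr; linarith

end LNKm

open LNKm in
theorem st_lnkm (hA : St_A1) (hK : St_KBP) (hR : St_RI) : St_LNKm := by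
  refine ⟨fun N Γ μ s t hΓ hμ h => LNKm.one hA hΓ hμ h, fun j => ?_⟩
  obtain ⟨C, hC, hK⟩ := hK j
  obtain ⟨C', hR⟩ := hR j
  refine ⟨max (max 1 j) (4 * (C * j * |C'| + 16 * C * j ^ 3)), fun μ hμ N Γ Ω hΓ hΩ => ?_⟩
  simp only [max_le_iff] at hμ
  obtain ⟨⟨m1, m2⟩, m3⟩ := hμ
  have j0 := hΓ.pos
  have m0 : 0 < μ := by linarith
  have key : ∀ x y, gp Γ x ≠ gp Γ y →
      |Krm μ Γ x y| ≤ C * j * rk (μ * cm Γ x y) + C * (2 * j ^ 2 / μ) := fun x y h => by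
    obtain ⟨k1, k2⟩ := hK N Γ j 0 _ μ x y hΓ hΓ.adm0 hΓ.one_le m2 h
    obtain ⟨e1, -, e2, -⟩ := LNKm.one hA hΓ.rc.diff m0 h
    have c0 := cm_nonneg Γ x y
    have r0 := rk_nn (mul_nonneg m0.le c0)
    by_cases e : x.1 = y.1
    · have k := (k1 e).1
      rw [e2, norm_real, Real.norm_eq_abs] at k
      have : Real.exp (-(μ * cm Γ x y / 2)) ≤ 1 := Real.exp_le_one_iff.2 (by
        have := mul_nonneg m0.le c0
        linarith)
      calc _ ≤ C * j * (rk (μ * cm Γ x y) * 1) + 0 := by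
            rw [add_zero]
            exact k.trans (by gcongr)
        _ ≤ _ := by rw [mul_one]; gcongr; positivity
    · have k := (k2 e).1
      rw [e2, e1, norm_mul, norm_real, Real.norm_eq_abs, ← ofReal_mul, norm_exp_ofReal] at k
      have k' : |Krm μ Γ x y| ≤ C * (2 * j ^ 2 / μ) := le_of_mul_le_mul_right
        (k.trans (by rw [mul_assoc]; gcongr; exact tail j0 m1 (hΓ.inv_le_cm e))) (Real.exp_pos _)
      exact k'.trans (le_add_of_nonneg_left (by positivity))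
  have fin : ∀ (x : XN N) (f : XN N → ℝ), (∀ y, gp Γ x ≠ gp Γ y →
      |f y| ≤ C * j * rk (μ * cm Γ x y) + C * (2 * j ^ 2 / μ)) → ∫ y, |f y| ∂nx N ≤ 1 / 4 := by
    intro x f hf
    obtain ⟨r1, r2, r3⟩ := hR N Γ μ x hΓ m1
    refine (integral_mono_of_nonneg (.of_forall fun _ => abs_nonneg _)
      ((r2.const_mul _).add (integrable_const _)) (r1.mono hf)).trans ?_
    have := hΓ.mass
    have := Real.pi_le_four
    rw [integral_add' (r2.const_mul _) (integrable_const _), integral_const_mul, integral_const,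
      smul_eq_mul]
    calc _ ≤ C * j * (|C'| / μ) + 8 * j * (C * (2 * j ^ 2 / μ)) := by
          gcongr
          · exact r3.trans (by gcongr; exact le_abs_self _)
          · nlinarith
      _ = (C * j * |C'| + 16 * C * j ^ 3) / μ := by ring
      _ ≤ _ := by rw [div_le_iff₀ m0]; linarith
  exact ⟨hΩ, m0, fun x => fin x _ (key x), fun y => fin y (fun x => Krm μ Γ x y) fun x h => by
    rw [cm_comm]
    exact key x y h.symm⟩

end Pool.Agent.Lib.IS3
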