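import Pool.Agent.Lib.IS3.Kit

/-! The second variation is local. -/

open scoped ContDiff ComplexConjugate Topology Real
open Complex MeasureTheory Set Filter

noncomputable section

namespace Pool.Agent.Lib.IS3

open Pool.Agent.Lib.ISO Pool.Agent.Lib.IS2

namespace LOC

section abstract

variable {E : Type} [AddCommGroup E] [Module ℂ E] {S : Submodule ℂ E} {p : E → ℝ} {f : E → ℂ}
  {x0 y z : E} {r M : ℝ}

theorem p_zero (hS : Sn S p) : p 0 ≤ 0 := by simpa using hS.smul 0 0 S.zero_mem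

theorem small (hS : Sn S p) (hr : 0 < r) (hy : y ∈ S) :
    ∀ᶠ ε : ℝ in 𝓝[>] 0, 0 < ε ∧ p ((ε : ℂ) • y) ≤ ε * p y ∧ ε * p y ≤ r / 8 := by
  have h1 : ∀ᶠ ε : ℝ in 𝓝 0, ε * p y < r / 8 :=
    (continuous_id.mul continuous_const).continuousAt.eventually_lt continuousAt_const
      (by simpa using hr)
  filter_upwards [self_mem_nhdsWithin, nhdsWithin_le_nhds h1] with ε h0 h2
  refine ⟨h0, ?_, h2.le⟩
  simpa [abs_of_pos (show 0 < ε from h0)] using hS.smul ε y hy

theorem tend (hG : St_GH) (hS : Sn S p) (hr : 0 < r) (hL : LH S p f x0 r M) (hy : y ∈ S)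
    (hz : z ∈ S) : Tendsto (fun ε : ℝ => mx f x0 ((ε : ℂ) • y) ((ε : ℂ) • z) / (ε : ℂ) ^ 2)
      (𝓝[>] 0) (𝓝 (D2 f x0 y z)) := by
  obtain ⟨C, hC⟩ := hG
  have h := (hC E S p f x0 r M hS hr hL).2.1 0 S.zero_mem ((p_zero hS).trans (by positivity))
  rw [add_zero] at h
  rw [tendsto_iff_norm_sub_tendsto_zero]
  refine squeeze_zero' (g := fun ε => |C * M| * p y * p z * (p y + p z) / r ^ 3 * ε)
    (.of_forall fun _ => norm_nonneg _) ?_ ?_
  · filter_upwards [small hS hr hy, small hS hr hz] with ε ⟨e0, a1, a2⟩ ⟨_, b1, b2⟩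
    have my := S.smul_mem (ε : ℂ) hy
    have mz := S.smul_mem (ε : ℂ) hz
    have e1 : (ε : ℂ) ≠ 0 := by exact_mod_cast e0.ne'
    have h1 := ((h _ my _ mz).2.2.2.2.2 (a1.trans a2) (b1.trans b2)).2
    rw [(h y hy _ mz).2.1, (h y hy _ mz).2.2.1, (h z hz y hy).2.1, (h z hz y hy).2.2.1] at h1
    have n1 := hS.nn _ my
    have n2 := hS.nn _ mz
    have n3 := hS.nn _ hy
    have n4 := hS.nn _ hz
    rw [div_sub' (pow_ne_zero 2 e1), norm_div, norm_pow, norm_real, Real.norm_of_nonneg e0.le,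
      div_le_iff₀ (by positivity), pow_two (ε : ℂ), mul_assoc (ε : ℂ)]
    calc _ ≤ _ := h1
      _ ≤ |C * M| * (ε * p y) * (ε * p z) * (ε * p y + ε * p z) / r ^ 3 := by
        gcongr
        exact le_abs_self _
      _ = _ := by ring
  · have : Tendsto (fun ε : ℝ => |C * M| * p y * p z * (p y + p z) / r ^ 3 * ε) (𝓝 0) (𝓝 _) :=
      (continuous_const.mul continuous_id).tendsto 0
    simpa using this.mono_left nhdsWithin_le_nhds

omit [Module ℂ E] in
theorem mx_comm (f : E → ℂ) (x y z : E) : mx f x y z = mx f x z y := by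
  rw [mx, mx, add_right_comm x y z]
  ring

end abstract

open Classical in
/-- the indicator of a family of sets of chains -/
def wi (p : ∀ n, (Fin n → ℝ) → Prop) : ∀ n, (Fin n → ℝ) → ℂ := fun n v => if p n v then 1 else 0

/-- the chain meets `A` -/
def mt (A : Set ℝ) (n : ℕ) (v : Fin n → ℝ) : Prop := ∃ i, v i ∈ A

/-- measurable and periodic -/
def Pp (p : ∀ n, (Fin n → ℝ) → Prop) : Prop := ∀ n, Measurable (p n) ∧
  ∀ v (k : Fin n → ℤ), p n (fun i => v i + k i * (2 * π)) ↔ p n v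

variable {p p' : ∀ n, (Fin n → ℝ) → Prop} {A B : Set ℝ} {w : ∀ n, (Fin n → ℝ) → ℂ} {q : ℕ} {h : ℝ}

theorem Pp.wt (h : Pp p) : Wt (wi p) := fun n =>
  ⟨Measurable.ite (measurableSet_setOfPred.2 (h n).1) measurable_const measurable_const,
    fun v => by unfold wi; split_ifs <;> simp, fun v k => by
      unfold wi; rw [propext ((h n).2 v k)]⟩

theorem Pp.not (h : Pp p) : Pp fun n v => ¬ p n v := fun n =>
  ⟨(h n).1.not, fun v k => ((h n).2 v k).not⟩

theorem Pp.and (h : Pp p) (h' : Pp p') : Pp fun n v => p n v ∧ p' n v := fun n =>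
  ⟨(h n).1.and (h' n).1, fun v k => ((h n).2 v k).and ((h' n).2 v k)⟩

theorem pp_mt (hA : MeasurableSet A) (hp : ∀ s (k : ℤ), s + k * (2 * π) ∈ A ↔ s ∈ A) :
    Pp (mt A) := fun _ =>
  ⟨Measurable.exists fun i => hA.mem.comp (measurable_pi_apply i),
    fun v k => exists_congr fun i => hp (v i) (k i)⟩

theorem wi_ne {n : ℕ} {v : Fin n → ℝ} (h : wi p n v ≠ 0) : p n v := by
  by_contra c
  exact h (if_neg c)

theorem miss (hw : ∀ n v, w n v ≠ 0 → ¬ mt A n v) {P Q : ℝ → C2} (e : ∀ s ∉ A, P =ᶠ[𝓝 s] Q) :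
    F1 q h w P = F1 q h w Q := by
  refine congrArg (FF q h) (funext fun μ => tsum_congr fun n => congrArg _
    (integral_congr_ae (.of_forall fun v => ?_)))
  by_cases c : w (n + 2) v = 0
  · simp only [c, zero_mul]
  have h0 := fun i => e (v i) fun m => hw _ v c ⟨i, m⟩
  simp only [In, pK, pS, pNd, pKd, pc, pD, pn, fun i => (h0 i).eq_of_nhds,
    fun i => (h0 i).deriv_eq]

theorem mx_zero (hw : ∀ n v, w n v ≠ 0 → ¬ mt A n v) {z : ℝ → C2} (e : ∀ s ∉ A, z =ᶠ[𝓝 s] 0)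
    (x a : ℝ → C2) (c : ℂ) : mx (F1 q h w) x a (c • z) = 0 := by
  have k (x : ℝ → C2) : F1 q h w (x + c • z) = F1 q h w x :=
    miss hw fun s hs => (e s hs).mono fun t ht => by simp [ht]
  rw [mx, k, k]
  ring

theorem decay (c : ℝ) (q n : ℕ) : ∃ K, ∀ h : ℝ, 0 < c → 1 ≤ h →
    om q h ^ 5 * Real.exp (-(c / Tt q h)) ≤ K / om q h ^ n := by
  refine ⟨(3 * q * (n + 5)).factorial / c ^ (3 * q * (n + 5)), fun h hc h1 => ?_⟩
  have h2 := Real.pow_div_factorial_le_exp (c * h) (by positivity) (3 * q * (n + 5))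
  have h3 : c * h ≤ c / Tt q h := by
    rw [Tt, div_inv_eq_mul]
    exact mul_le_mul_of_nonneg_left (le_self_pow₀ h1 (by omega)) hc.le
  rw [Real.exp_neg, ← div_eq_mul_inv, om]
  refine (div_le_div_of_nonneg_left (by positivity) (by positivity)
    (h2.trans (Real.exp_le_exp.2 h3))).trans_eq ?_
  rw [mul_pow, pow_mul h (3 * q) (n + 5)]
  field_simp
  ring

theorem core (hG : St_GH) (hL : St_LH1) (j ρ : ℝ) (q n : ℕ) (hρ : 0 < ρ) (hq : 4 ≤ q) :
    ∃ C h0, ∀ h, h0 ≤ h → ∀ γ, N1 j γ → ∀ A B, Pp (mt A) → Pp (mt B) →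
      (∀ s ∈ A, ∀ t ∈ B, ρ ≤ dc s t) → ∀ y ∈ SP, ∀ z ∈ SP, 0 ≤ C * nm y * nm z / om q h ^ n ∧
      Tendsto (fun ε : ℝ => mx (FT q h) (cp γ) ((ε : ℂ) • y) ((ε : ℂ) • z) / (ε : ℂ) ^ 2)
        (𝓝[>] 0) (𝓝 (D2 (FT q h) (cp γ) y z)) ∧ ∀ᶠ ε : ℝ in 𝓝[>] 0,
      ‖mx (FT q h) (cp γ) ((ε : ℂ) • y) ((ε : ℂ) • z) / (ε : ℂ) ^ 2 -
        (mx (F1 q h (wi fun n v => ¬ mt A n v)) (cp γ) ((ε : ℂ) • y) ((ε : ℂ) • z) +
          mx (F1 q h (wi fun n v => mt A n v ∧ ¬ mt B n v)) (cp γ) ((ε : ℂ) • y) ((ε : ℂ) • z)) /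
            (ε : ℂ) ^ 2‖ ≤ C * nm y * nm z / om q h ^ n := by
  obtain ⟨C, h0, hC⟩ := hL j q hq
  obtain ⟨G, hG'⟩ := id hG
  obtain ⟨K, hK⟩ := decay (ρ / j) q n
  refine ⟨|G * C| * |K|, max h0 1, fun h hh γ hγ A B hA hB hd y hy z hz => ?_⟩
  have h1 : 1 ≤ h := (le_max_right _ _).trans hh
  have hj := hγ.one_le
  have o0 : 0 < om q h := by unfold om; positivity
  have x0 : cp γ ∈ SP := cp_mem (hγ.smooth 0) (hγ.per 0)
  have n0 : nm (cp γ - cp γ) ≤ (om q h)⁻¹ := by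
    rw [sub_self]
    exact (p_zero sn_nm).trans (by positivity)
  have L0 (w) (hw : Wt w) := hC h ((le_max_left _ _).trans hh) γ w 0 hγ hw
    fun n v _ => Finset.sum_nonneg fun i _ => norm_nonneg _
  have L2 := (hC h ((le_max_left _ _).trans hh) γ _ (2 * (ρ / j)) hγ (hA.and hB).wt
    fun n v hv => by
      obtain ⟨⟨a, ha⟩, b, hb⟩ := wi_ne hv
      have c1 := cyc2 (fun i => γ (v i)) (fun i => c0 γ (v i) (v (i + 1)))
        (fun i => (dist_eq_norm _ _).le) a b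
      have c2 := (hd _ ha _ hb).trans (hγ.arc 0 (v a) (v b))
      rw [dist_eq_norm] at c1
      rw [mul_comm, ← div_le_iff₀ (by positivity)] at c2
      exact le_trans (by linarith) c1).2 _ x0 n0
  have ny := nm_nonneg hy
  have nz := nm_nonneg hz
  refine ⟨by positivity, tend hG sn_nm (inv_pos.2 o0) ((L0 (fun _ _ => 1) fun n =>
    ⟨measurable_const, fun _ => by simp, fun _ _ => rfl⟩).2 _ x0 n0) hy hz, ?_⟩
  have sp (a) (ha : a ∈ SP) (hn : nm a ≤ 2 / om q h) : FT q h (cp γ + a) =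
      F1 q h (wi fun n v => ¬ mt A n v) (cp γ + a) +
        (F1 q h (wi fun n v => mt A n v ∧ ¬ mt B n v) (cp γ + a) +
          F1 q h (wi fun n v => mt A n v ∧ mt B n v) (cp γ + a)) := by
    have k (w) (hw : Wt w) := ((L0 w hw).1 _ (SP.add_mem x0 ha)
      (by rwa [add_sub_cancel_left])).2.2.2.2
    have e1 : wi (mt A) = (wi fun n v => mt A n v ∧ ¬ mt B n v) +
        wi fun n v => mt A n v ∧ mt B n v := by
      funext n v
      by_cases c : mt A n v <;> by_cases c' : mt B n v <;> simp [wi, c, c']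
    have e2 : (fun _ _ => 1) = (wi fun n v => ¬ mt A n v) + wi (mt A) := by
      funext n v
      by_cases c : mt A n v <;> simp [wi, c]
    rw [← k _ (hA.and hB.not).wt _ (hA.and hB).wt, ← e1, ← k _ hA.not.wt _ hA.wt, ← e2]
    rfl
  filter_upwards [small sn_nm (inv_pos.2 o0) hy, small sn_nm (inv_pos.2 o0) hz]
    with ε ⟨e0, a1, a2⟩ ⟨_, b1, b2⟩
  have my := SP.smul_mem (ε : ℂ) hy
  have mz := SP.smul_mem (ε : ℂ) hz
  have oi : 2 / om q h = 2 * (om q h)⁻¹ := div_eq_mul_inv _ _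
  have oj := inv_pos.2 o0
  have s0 := sp 0 SP.zero_mem ((p_zero sn_nm).trans (by positivity))
  have s1 := sp _ my (by linarith)
  have s2 := sp _ mz (by linarith)
  have s3 := sp _ (SP.add_mem my mz) (by linarith [sn_nm.add _ my _ mz])
  rw [add_zero] at s0
  rw [← add_assoc] at s3
  have b := ((hG' _ _ _ _ _ _ _ sn_nm oj L2).2.1 0 SP.zero_mem
    ((p_zero sn_nm).trans (by positivity)) _ my _ mz).2.2.2.2.2 (a1.trans a2) (b1.trans b2)
  rw [add_zero] at b
  rw [← sub_div, show mx (FT q h) (cp γ) ((ε : ℂ) • y) ((ε : ℂ) • z) - _ =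
    mx (F1 q h (wi fun n v => mt A n v ∧ mt B n v)) (cp γ) ((ε : ℂ) • y) ((ε : ℂ) • z) by
      simp only [mx, s0, s1, s2, s3]; ring, norm_div, norm_pow, norm_real,
    Real.norm_of_nonneg e0.le, div_le_iff₀ (by positivity)]
  have k := (hK h (by positivity) h1).trans
    (div_le_div_of_nonneg_right (le_abs_self K) (by positivity))
  have n1 := nm_nonneg my
  have n2 := nm_nonneg mz
  calc _ ≤ _ := b.1
    _ = G * C * (om q h ^ 5 * Real.exp (-(ρ / j / Tt q h))) * nm ((ε : ℂ) • y) *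
        nm ((ε : ℂ) • z) := by
      rw [mul_div_mul_left _ _ two_ne_zero]
      field_simp
    _ ≤ |G * C| * (|K| / om q h ^ n) * (ε * nm y) * (ε * nm z) := by
      gcongr
      exact le_abs_self _
    _ = _ := by ring

end LOC

open LOC in
theorem st_loc (hG : IS2.St_GH) (hL : St_LH1) : St_LOC := by
  intro j r q n hr hq
  obtain ⟨C, h0, hC⟩ := core hG hL j (r / 2) q n (by positivity) hq
  refine ⟨2 * C, h0, fun h hh γ hγ y hy z hz => ⟨fun γ' β hγ' he h0 => ?_, fun hs => ?_⟩⟩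
  · have pA : Pp (mt {s | 2 * r ≤ dc s β}) :=
      pp_mt (isClosed_le continuous_const (cont_dc β)).measurableSet fun s k => by
        simp only [mem_ofPred_eq, dc_add_left]
    have pB : Pp (mt {s | dc s β ≤ r}) :=
      pp_mt (isClosed_le (cont_dc β) continuous_const).measurableSet fun s k => by
        simp only [mem_ofPred_eq, dc_add_left]
    have d : ∀ s ∈ {s | 2 * r ≤ dc s β}, ∀ t ∈ {s | dc s β ≤ r}, r / 2 ≤ dc s t :=
      fun s (hs : 2 * r ≤ dc s β) t (ht : dc t β ≤ r) => by linarith [dc_triangle s t β]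
    obtain ⟨-, t1, b1⟩ := hC h hh γ hγ _ _ pA pB d y hy z hz
    obtain ⟨-, t2, b2⟩ := hC h hh γ' hγ' _ _ pA pB d y hy z hz
    refine le_of_tendsto (t1.sub t2).norm ?_
    filter_upwards [b1, b2] with ε c1 c2
    have k (a : ℝ → C2) : F1 q h (wi fun n v => ¬ mt {s | 2 * r ≤ dc s β} n v) (cp γ + a) =
        F1 q h (wi fun n v => ¬ mt {s | 2 * r ≤ dc s β} n v) (cp γ' + a) :=
      miss (fun _ _ => wi_ne) fun s hs =>
        ((cont_dc β).continuousAt.eventually_lt continuousAt_const (not_le.1 hs)).mono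
          fun t ht => by simp only [Pi.add_apply, cp, he t ht.le]
    have k0 := k 0
    have kz := fun x => mx_zero (q := q) (h := h) (z := z)
      (w := wi fun n v => mt {s | 2 * r ≤ dc s β} n v ∧ ¬ mt {s | dc s β ≤ r} n v)
      (fun _ _ c => (wi_ne c).2) (fun s hs => (continuousAt_const.eventually_lt
        (cont_dc β).continuousAt (not_le.1 hs)).mono fun t ht => (h0 t ht).2) x ((ε : ℂ) • y) ε
    rw [add_zero, add_zero] at k0
    rw [kz] at c1 c2
    simp only [mx, add_assoc, k, k0] at c1 c2 ⊢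
    rw [norm_sub_rev] at c2
    exact (norm_sub_le_norm_sub_add_norm_sub _ _ _).trans ((add_le_add c1 c2).trans_eq (by ring))
  · have pp (y : ℝ → C2) : Pp (mt {s | ∃ t, y t ≠ 0 ∧ dc s t < r / 4}) := by
      refine pp_mt (IsOpen.measurableSet ?_) fun s k => by simp only [mem_ofPred_eq, dc_add_left]
      simp only [ofPred_exists]
      refine isOpen_iUnion fun t => ?_
      by_cases c : y t = 0
      · simp [c]
      · simpa [c] using isOpen_lt (cont_dc t) continuous_const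
    have zz (y : ℝ → C2) : ∀ s ∉ {s | ∃ t, y t ≠ 0 ∧ dc s t < r / 4}, y =ᶠ[𝓝 s] 0 := fun s hs =>
      ((cont_dc s).continuousAt.eventually_lt continuousAt_const
        (show dc s s < r / 4 by rw [dc_self]; positivity)).mono fun t ht => by
          by_contra c
          exact hs ⟨t, c, by rwa [dc_comm]⟩
    obtain ⟨c0, t1, b1⟩ := hC h hh γ hγ _ _ (pp y) (pp z) (fun s ⟨a, a1, a2⟩ t ⟨b, b1, b2⟩ => by
      linarith [hs a b a1 b1, dc_triangle a s b, dc_triangle s t b, dc_comm a s]) y hy z hz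
    refine le_of_tendsto t1.norm ?_
    filter_upwards [b1] with ε c1
    rw [mx_zero (w := wi fun n v => _ ∧ _) (fun _ _ c => (wi_ne c).2) (zz z), mx_comm (F1 _ _ _),
      mx_zero (fun _ _ => wi_ne) (zz y), add_zero, zero_div, sub_zero] at c1
    calc _ ≤ _ := c1
      _ ≤ 2 * (C * nm y * nm z / om q h ^ n) := by linarith
      _ = _ := by ring

end Pool.Agent.Lib.IS3
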