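import Pool.Agent.Lib.IS3.Kit

/-! The set of the curves with a common zero is nowhere dense near a regular point. -/

open scoped ContDiff ComplexConjugate Topology Real
open Complex Set Filter Metric

noncomputable section

namespace Pool.Agent.Lib.IS3

open Pool.Agent.Lib.ISO Pool.Agent.Lib.IS2

namespace LOCS

variable {N m : ℕ}

lemma up_fl {φ : ℝ → ℝ} (h : Up φ) (r : Bool) : Up fun s => fl r (φ (fl r s)) := by
  cases r
  · exact h
  have d : Differentiable ℝ φ := h.1.differentiable one_ne_zero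
  refine ⟨(h.1.comp contDiff_neg).neg, fun s => ?_, fun s => ?_⟩
  · have := (((d (-s)).hasDerivAt.comp s (hasDerivAt_neg s)).neg).deriv
    have e : deriv (fun s => fl true (φ (fl true s))) s = deriv (-(φ ∘ Neg.neg)) s := rfl
    rw [e, this]
    simpa using h.2.1 (-s)
  · have := h.2.2 (-(s + 2 * π))
    simp only [fl, if_true]
    rw [show -(s + 2 * π) + 2 * π = -s by ring] at this
    linarith

/-- the derivatives of an oriented curve -/
def od (r : Bool) (g : Jordan) (n : ℕ) (s : ℝ) : ℂ :=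
  (sg r : ℂ) ^ n * UniformFun.toFun (g.1 n) (fl r s)

lemma hd_od (r : Bool) (g : Jordan) (n : ℕ) (s : ℝ) :
    HasDerivAt (od r g n) (od r g (n + 1) s) s := by
  have := ((g.2.1 n _).scomp s (hd_fl r s)).const_mul ((sg r : ℂ) ^ n)
  simp only [real_smul, Function.comp_def, ← mul_assoc, ← pow_succ] at this
  exact this

lemma nm_le (r : Bool) (f g : Jordan) {η : ℝ}
    (h : ∀ n ≤ 2, ∀ s, ‖UniformFun.toFun (g.1 n) s - UniformFun.toFun (f.1 n) s‖ ≤ η) :
    nm (cp (od r g 0) - cp (od r f 0)) ≤ 3 * η := by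
  have hd : ∀ n s, HasDerivAt (od r g n - od r f n) ((od r g (n + 1) - od r f (n + 1)) s) s :=
    fun n s => (hd_od r g n s).sub (hd_od r f n s)
  have e : ∀ n, deriv (cp (od r g n - od r f n)) = cp (od r g (n + 1) - od r f (n + 1)) := fun n => by
    rw [deriv_cp fun s => (hd n s).differentiableAt]
    exact congrArg cp (funext fun s => (hd n s).deriv)
  have b : ∀ n ≤ 2, ∀ s, ‖cp (od r g n - od r f n) s‖ ≤ η := fun n hn s => by
    rw [norm_cp, Pi.sub_apply, od, od, ← mul_sub, norm_mul, norm_pow, norm_real, Real.norm_eq_abs,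
      abs_sg, one_pow, one_mul]
    exact h n hn _
  rw [show cp (od r g 0) - cp (od r f 0) = cp (od r g 0 - od r f 0) from
    funext fun s => by simp [cp], nm, e, e]
  refine ciSup_le fun s => ?_
  linarith [b 0 (by norm_num) s, b 1 (by norm_num) s, b 2 (by norm_num) s]

/-- continuity of the complexified curves -/
lemma near (σ : Fin N → Bool) (f : Fin N → Jordan) {η : ℝ} (hη : 0 < η) :
    ∀ᶠ g in 𝓝 f, nmm (cpm (ori σ g) - cpm (ori σ f)) ≤ η := by
  have p : 0 < η / (3 * (N + 1)) := by positivity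
  have h : ∀ᶠ g in 𝓝 f, ∀ i, ∀ n ∈ Finset.range 3, ∀ s,
      ‖UniformFun.toFun ((g i).1 n) s - UniformFun.toFun ((f i).1 n) s‖ ≤ η / (3 * (N + 1)) := by
    refine eventually_all.2 fun i => (eventually_all_finset _).2 fun n _ => ?_
    have c : Continuous fun g : Fin N → Jordan => (g i).1 n :=
      (continuous_apply n).comp (continuous_subtype_val.comp (continuous_apply i))
    filter_upwards [Metric.tendstoUniformly_iff.1
      (UniformFun.tendsto_iff_tendstoUniformly.1 (c.tendsto f)) _ p] with g hg s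
    rw [← dist_eq_norm, dist_comm]
    exact (hg s).le
  filter_upwards [h] with g hg
  have e : ∀ (g : Fin N → Jordan) i, cpm (ori σ g) i = cp (od (σ i) (g i) 0) := fun g i =>
    congrArg cp (funext fun s => by simp [ori, od])
  calc nmm (cpm (ori σ g) - cpm (ori σ f)) ≤ ∑ _i : Fin N, 3 * (η / (3 * (N + 1))) :=
        Finset.sum_le_sum fun i _ => by
          rw [Pi.sub_apply, e, e]
          exact nm_le _ _ _ fun n hn => hg i n (Finset.mem_range.2 (by omega))
    _ = N * (η / (N + 1)) := by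
        rw [Finset.sum_const, Finset.card_univ, Fintype.card_fin, nsmul_eq_mul]
        field_simp
    _ ≤ (N + 1) * (η / (N + 1)) := by gcongr; linarith
    _ = η := by field_simp

/-- the traces do not depend on the parameter -/
lemma fz_rep (hR : St_REPm) (cl : Fin N → Fin N) (r : Fin N → Bool) (μ : Fin m → ℕ) {Γ : MC N}
    (hs : ∀ i, ContDiff ℝ ∞ (Γ i)) (hp : ∀ i, Function.Periodic (Γ i) (2 * π))
    {ψ : Fin N → ℝ → ℝ} (hψ : ∀ i, Up (ψ i)) (p : Fin N → ℂ × ℂ) :
    Fz cl r μ (fun i s => Γ i (ψ i s)) p = Fz cl r μ Γ p := by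
  funext a
  have h1 := hR N (cpm Γ) (fun i _ => cp_mem (hs i) (hp i)) ψ cl (μ a) hψ
  have h2 := hR N (cpm (actm r p Γ))
    (fun i _ => cp_mem (act_smooth _ _ (hs i)) (act_per _ _ (hp i))) _ cl (μ a)
    fun i => up_fl (hψ i) (r i)
  have e : cpm (actm r p fun i s => Γ i (ψ i s)) =
      fun i s => cpm (actm r p Γ) i (fl (r i) (ψ i (fl (r i) s))) := by
    funext i s
    simp only [cpm, cp, actm, act, fl_fl]
  rw [Fz, Fz, e, h2, ← h1]
  rfl

/-- a family of curves that realises the normal displacements -/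
lemma fam (hP : St_RPM) (hR : St_REPm) (σ r : Fin N → Bool) (cl : Fin N → Fin N) (μ : Fin m → ℕ)
    (f : Fin N → Jordan) (k : Fin m → Fin N) {ρ : Fin m → ℝ → ℝ} (hρ : ∀ b, Per (2 * π) (ρ b)) :
    ∃ F : (Fin m → ℝ) → Fin N → Jordan, Tendsto F (𝓝 0) (𝓝 f) ∧
      ∀ᶠ t in 𝓝 0, Fz cl r μ (ori σ (F t)) = Fz cl r μ (pert (ori σ f) k ρ t) := by
  let Z : Fin N → Fin m → ℝ → ℂ := fun i b s => if k b = i then ρ b s * nr (ori σ f i) s else 0
  have hZ : ∀ i b, ContDiff ℝ ∞ (Z i b) ∧ Function.Periodic (Z i b) (2 * π) := fun i b => by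
    by_cases e : k b = i
    · simp only [Z, if_pos e]
      exact ⟨(ofRealCLM.contDiff.comp (hρ b).smooth).mul
        (contDiff_const.mul (contDiff_infty_iff_deriv.1 (ori_smooth σ f i)).2), fun s => by
          simp only [nr, (hρ b).per s, per_deriv' (ori_per σ f i) s]⟩
    · simp only [Z, if_neg e]
      exact ⟨contDiff_const, fun _ => rfl⟩
  choose F h1 h2 using fun i => hP (f i) m (fun b s => Z i b (fl (σ i) s)) fun b =>
    ⟨(hZ i b).1.comp (fl_smooth _), per_fl (hZ i b).2 _⟩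
  refine ⟨fun t i => F i t, tendsto_pi_nhds.2 h1, ?_⟩
  filter_upwards [eventually_all.2 h2] with t ht
  choose φ hφ e using ht
  funext p
  rw [← fz_rep hR cl r μ (Γ := pert (ori σ f) k ρ t)
    (fun i => (ori_smooth σ f i).add (ContDiff.sum fun b _ => contDiff_const.mul (hZ i b).1))
    (fun i s => by
      show _ + ∑ b, t b * Z i b _ = _ + ∑ b, t b * Z i b _
      simp only [ori_per σ f i s, fun b => (hZ i b).2 s])
    (fun i => up_fl (hφ i) (σ i)) p]
  refine congrArg (fun Γ => Fz cl r μ Γ p) (funext fun i => funext fun s => ?_)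
  show UniformFun.toFun ((F i t).1 0) (fl (σ i) s) =
    UniformFun.toFun ((f i).1 0) (fl (σ i) (fl (σ i) _)) + ∑ b, t b * Z i b _
  rw [e, fl_fl]

end LOCS

open LOCS in
theorem st_locs (hFZ : St_FZ) (hP : St_RPM) (hR : St_REPm) (hD : St_DIM) : St_LOCS := by
  intro j
  obtain ⟨μ1, hFZ⟩ := hFZ j
  refine ⟨μ1, fun N σ cl r μ f p0 k ρ hμ h1 h2 hρ hd => ?_⟩
  obtain ⟨δ, δ0, c, c0, L, a1, a2⟩ := hFZ N _ cl r μ _ p0 k ρ hμ h1 h2 hρ hd
  refine ⟨δ, δ0, fun U hU hf => ?_⟩
  obtain ⟨F, hF, eF⟩ := fam hP hR σ r cl μ f k hρ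
  have n0 : ∀ P : MQ N, nmm (P - P) = 0 := fun P => by simp [nmm, nm_zero]
  let S : Set (Fin (4 * N + 1) → ℝ) := {t | ‖t‖ ≤ δ ∧
    Fz cl r μ (ori σ (F t)) = Fz cl r μ (pert (ori σ f) k ρ t) ∧
    nmm (cpm (ori σ (F t)) - cpm (ori σ f)) ≤ δ / 2}
  have lip : ∀ t ∈ S, ∀ p ∈ closedBall p0 δ, ∀ p' ∈ closedBall p0 δ,
      ‖Fz cl r μ (ori σ (F t)) p - Fz cl r μ (ori σ (F t)) p'‖ ≤ L * ‖p - p'‖ :=
    fun t ht p hp p' hp' => by
      have q := ht.2.2.trans (half_le_self δ0.le)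
      have := a2 _ _ p p' (ori_mem σ (F t)) (ori_mem σ (F t)) q q (mem_closedBall_iff_norm.1 hp)
        (mem_closedBall_iff_norm.1 hp')
      rwa [n0, zero_add] at this
  have den := hD N _ (fun t => Fz cl r μ (ori σ (F t))) S (closedBall p0 δ) c L (Nat.lt_succ_self _)
    c0 (fun t ht t' ht' p hp => by
      simp only [ht.2.1, ht'.2.1]
      exact a1 t t' p ht.1 ht'.1 (mem_closedBall_iff_norm.1 hp)) lip
  have hS : S ∩ F ⁻¹' closure (Bs σ r cl μ U) ∈ 𝓝 (0 : Fin (4 * N + 1) → ℝ) := by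
    filter_upwards [closedBall_mem_nhds 0 δ0, eF, hF.eventually (near σ f (half_pos δ0)),
      hF.eventually (mem_interior_iff_mem_nhds.1 hf)] with t b1 b2 b3 b4
    exact ⟨⟨mem_closedBall_zero_iff.1 b1, b2, b3⟩, b4⟩
  obtain ⟨t, ht0, ht, hc⟩ := den.inter_nhds_nonempty hS
  have co : ContinuousOn (fun p => ‖Fz cl r μ (ori σ (F t)) p‖) (closedBall p0 δ) :=
    (LipschitzOnWith.of_dist_le' (K := L) fun p hp p' hp' => by
      rw [dist_eq_norm, dist_eq_norm]
      exact lip t ht p hp p' hp').continuousOn.norm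
  obtain ⟨η, η0, hη⟩ := (isCompact_closedBall p0 δ).exists_forall_le' co (a := 0) fun p hp =>
    norm_pos_iff.2 fun e => ht0 ⟨ht, p, hp, e⟩
  have q0 : 0 < min (δ / 2) (η / (|L| + 1)) := by positivity
  obtain ⟨g, hg, p, hp, e⟩ := mem_closure_iff_nhds.1 hc _ (near σ (F t) q0)
  have hp' := ball_subset_closedBall (hU hp)
  have m1 := (SPm N).sub_mem (ori_mem σ g) (ori_mem σ (F t))
  have tri := sn_nmm.add _ m1 _ ((SPm N).sub_mem (ori_mem σ (F t)) (ori_mem σ f))
  rw [sub_add_sub_cancel] at tri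
  obtain ⟨g1, g2⟩ := le_min_iff.1 (show nmm (cpm (ori σ g) - cpm (ori σ (F t))) ≤ _ from hg)
  have := a2 _ _ p p (ori_mem σ g) (ori_mem σ (F t)) (by linarith [ht.2.2])
    (by linarith [ht.2.2]) (mem_closedBall_iff_norm.1 hp') (mem_closedBall_iff_norm.1 hp')
  rw [e, zero_sub, norm_neg, sub_self p, norm_zero, add_zero] at this
  have k1 := sn_nmm.nn _ m1
  rw [le_div_iff₀ (by positivity)] at g2
  have k2 := mul_le_mul_of_nonneg_right (le_abs_self L) k1
  have k3 := hη p hp'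
  by_cases z : nmm (cpm (ori σ g) - cpm (ori σ (F t))) = 0
  · rw [z] at this
    linarith
  · have := lt_of_le_of_ne k1 (Ne.symm z)
    nlinarith

end Pool.Agent.Lib.IS3
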