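import Pool.Agent.Lib.IS3.B_MASA1
import Pool.Agent.Lib.ISO.B_K44

/-! Row MASA: the master estimate at a scale `l`, first part. -/

open scoped ComplexConjugate
open Complex

noncomputable section

namespace Pool.Agent.Lib.IS3

open Pool.Agent.Lib.ISO Pool.Agent.Lib.ISO.MAS

namespace MASA

variable {z : ℤ → ℂ} {B j l : ℝ} {W : ℕ}

theorem schurL (h : Sq z) (hB : An z ≤ B) (l : ℝ) (W : ℕ) (A : ℝ) :
    |qfL l W A z| ≤ B ^ 2 * momL 0 l W A z := by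
  rw [qfL, momL, abs_div, abs_of_nonneg (sq_nonneg A), ← mul_div_assoc]
  refine div_le_div_of_nonneg_right ((abs_re_le_norm _).trans ((norm_sum_le _ _).trans
    ((Finset.sum_le_sum fun t _ => norm_sum_le _ _).trans ?_))) (sq_nonneg A)
  have h1 : ∀ t t', ‖z t * conj (z t') * cv z z (t' - t)‖ ≤
      ‖z t‖ ^ 2 / 2 * ‖cv z z (t' - t)‖ + ‖z t'‖ ^ 2 / 2 * ‖cv z z (t' - t)‖ := fun t t' => by
    rw [norm_mul, norm_mul, norm_conj, ← add_mul]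
    exact mul_le_mul_of_nonneg_right (by nlinarith [sq_nonneg (‖z t‖ - ‖z t'‖)]) (norm_nonneg _)
  refine (Finset.sum_le_sum fun t _ => Finset.sum_le_sum fun t' _ => h1 t t').trans ?_
  simp only [Finset.sum_add_distrib]
  rw [Finset.sum_comm (f := fun t t' => ‖z t'‖ ^ 2 / 2 * ‖cv z z (t' - t)‖),
    ← Finset.sum_add_distrib, Finset.mul_sum]
  refine Finset.sum_le_sum fun t _ => ?_
  rw [← Finset.mul_sum, ← Finset.mul_sum, pow_zero, one_mul]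
  have h2 := K4.cv_le h hB (f := fun t' => t' - t) sub_left_injective (winL l W)
  have h3 := K4.cv_le h hB (f := fun t' => t - t') sub_right_injective (winL l W)
  have h4 : 0 ≤ ‖z t‖ ^ 2 / 2 := by positivity
  nlinarith [mul_le_mul_of_nonneg_left h2 h4, mul_le_mul_of_nonneg_left h3 h4]

theorem St.hs (s : St j l W) (h : Sq z) (hB : An z ≤ B) {m r k : ℕ} (h1 : m ≤ r + k)
    (h2 : r + k ≤ m + 4) : (Hs r z + Hs 0 z) / (W : ℝ) ^ (4 * r) ≤ (j ^ (2 * (m + 4))) ^ 2 *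
      (3 ^ (m + 4) * NrL l W z + (W : ℝ) ^ (2 * k) * JkL m l W z +
        2 * ((W : ℝ) ^ (2 * r))⁻¹ * B ^ 2) := by
  have hW1 := s.w1
  have l0 := s.l0
  have n0 := NrL0 l W z
  have j0 := JkL0 m l W z
  have J1 : 1 ≤ j ^ (2 * (m + 4)) := one_le_pow₀ s.j1
  have J2 : l ^ (2 * r) ≤ j ^ (2 * (m + 4)) :=
    (pow_le_pow_left₀ l0.le s.hi _).trans (pow_le_pow_right₀ s.j1 (by omega))
  have t := s.tri z h1 h2
  generalize j ^ (2 * (m + 4)) = J at J1 J2 t ⊢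
  have a1 := (sumbl h hB m l W (f := fun ξ => yl l W ξ ^ r * ‖z ξ‖ ^ 2) (a := 3 ^ (m + 4))
    (b := J * (W : ℝ) ^ (2 * k)) (c := J * ((W : ℝ) ^ (2 * r))⁻¹) (by positivity)
    (fun ξ => mul_nonneg (pow_nonneg (yl0 l W ξ) r) (by positivity)) fun ξ => by
      have n0 := nrl0 l W z ξ
      have j0 := jkl0 m l W z ξ
      rcases t ξ with ⟨a, b⟩ | a
      · refine le_add_of_le_of_nonneg (le_add_of_le_of_nonneg ?_ (by positivity)) (by positivity)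
        rw [a]
        exact mul_le_mul b (le_mul_of_one_le_left (by positivity) (by
          linarith [sq_nonneg (ce l W ξ)])) (by positivity) (by positivity)
      · rw [add_assoc]; exact le_add_of_nonneg_of_le (by positivity) a).2
  rw [(yl_sum h l W r).tsum_eq, ← div_div, div_right_comm, div_le_iff₀ (by positivity)] at a1
  have a2 : Hs 0 z ≤ B ^ 2 := by simpa [Hs] using sq_le h hB
  have a3 : Hs 0 z / (W : ℝ) ^ (4 * r) ≤ ((W : ℝ) ^ (2 * r))⁻¹ * B ^ 2 := by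
    rw [div_eq_inv_mul]
    refine mul_le_mul (inv_anti₀ (by positivity) (pow_le_pow_right₀ hW1 (by omega))) a2 ?_
      (by positivity)
    exact tsum_nonneg fun j => by rw [pow_mul]; positivity
  have a4 := a1.trans (mul_le_mul_of_nonneg_left J2 (by positivity))
  have a5 : J * (3 ^ (m + 4) * NrL l W z) ≤ J ^ 2 * (3 ^ (m + 4) * NrL l W z) := by
    gcongr; nlinarith
  have a6 : ((W : ℝ) ^ (2 * r))⁻¹ * B ^ 2 ≤ J ^ 2 * (((W : ℝ) ^ (2 * r))⁻¹ * B ^ 2) :=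
    le_mul_of_one_le_left (by positivity) (one_le_pow₀ J1)
  rw [add_div]; linarith

theorem St.p1 (s : St j l W) (h : Sq z) (hB : An z ≤ B) {e m : ℕ} (he : e ≤ m) :
    |Hs e z / (l ^ (2 * e) * (W : ℝ) ^ (4 * e)) - HiL e l W z| ≤
      j ^ (2 * m) * ((W : ℝ) ^ (2 * e))⁻¹ * B ^ 2 := by
  have := s.j1
  have h1 := yl_sum h l W e
  have y0 : ∀ ξ, 0 ≤ yl l W ξ ^ e * ‖z ξ‖ ^ 2 := fun ξ =>
    mul_nonneg (pow_nonneg (yl0 l W ξ) e) (by positivity)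
  have h2 : Summable fun ξ : ℤ => if (W : ℤ) < |ξ| then yl l W ξ ^ e * ‖z ξ‖ ^ 2 else 0 :=
    h1.summable.of_nonneg_of_le (fun ξ => by split_ifs; exacts [y0 ξ, le_rfl])
      fun ξ => by split_ifs; exacts [le_rfl, y0 ξ]
  rw [← h1.tsum_eq, HiL, ← h1.summable.tsum_sub h2, ← Real.norm_eq_abs]
  refine (tsum_of_norm_bounded ((sq_sum h).hasSum.mul_left (j ^ (2 * m) * ((W : ℝ) ^ (2 * e))⁻¹))
    fun ξ => ?_).trans (mul_le_mul_of_nonneg_left (sq_le h hB) (by positivity))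
  split_ifs with a
  · rw [sub_self, norm_zero]; positivity
  · rw [sub_zero, Real.norm_eq_abs, abs_of_nonneg (y0 ξ)]
    exact mul_le_mul_of_nonneg_right (s.low (not_lt.1 a) he) (by positivity)

theorem St.p3 (s : St j l W) (h : Sq z) (hB : An z ≤ B) {m e : ℕ} (h1 : m ≤ e + 2)
    (h2 : e + 2 ≤ m + 4) : Tm (e + 1) z / (W : ℝ) ^ (4 * (e + 2)) ≤
      (j ^ (2 * (m + 4))) ^ 2 * (3 ^ (m + 4) + 2 * B ^ 2) * erL m l W z := by
  have hW1 := s.w1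
  have n0 := NrL0 l W z
  have j0 := JkL0 m l W z
  have a1 := s.hs h hB (m := m) (r := e + 1) (k := 1) (by omega) (by omega)
  have a2 := s.hs h hB (m := m) (r := e) (k := 2) (by omega) (by omega)
  have J0 : 0 ≤ (j ^ (2 * (m + 4))) ^ 2 := sq_nonneg _
  generalize (j ^ (2 * (m + 4))) ^ 2 = J at a1 a2 J0 ⊢
  set X : ℝ := 3 ^ (m + 4) * NrL l W z + (W : ℝ) ^ (2 * 1) * JkL m l W z +
    2 * ((W : ℝ) ^ (2 * (e + 1)))⁻¹ * B ^ 2 with hX
  have X0 : 0 ≤ X := by positivity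
  have a3 : (Hs e z + Hs 0 z) / (W : ℝ) ^ (4 * e) ≤ J * (W ^ 2 * X) := by
    refine a2.trans (mul_le_mul_of_nonneg_left ?_ J0)
    have : 3 ^ (m + 4) * NrL l W z ≤ (W : ℝ) ^ 2 * (3 ^ (m + 4) * NrL l W z) :=
      le_mul_of_one_le_left (by positivity) (one_le_pow₀ hW1)
    have e : (W : ℝ) ^ 2 * X = (W : ℝ) ^ 2 * (3 ^ (m + 4) * NrL l W z) +
        (W : ℝ) ^ (2 * 2) * JkL m l W z + 2 * ((W : ℝ) ^ (2 * e))⁻¹ * B ^ 2 := by
      rw [hX]; field_simp; ring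
    rw [e]; linarith
  rw [div_le_iff₀ (by positivity)] at a1 a3
  have hs0 : ∀ r, 0 ≤ Hs r z := fun r => tsum_nonneg fun j => by rw [pow_mul]; positivity
  have a4 : Tm (e + 1) z ≤ J * X * (W : ℝ) ^ (4 * e + 3) := by
    rw [Tm, Nat.add_sub_cancel]
    refine Real.sqrt_le_iff.2 ⟨by positivity, ?_⟩
    calc _ ≤ J * X * (W : ℝ) ^ (4 * (e + 1)) * (J * (W ^ 2 * X) * (W : ℝ) ^ (4 * e)) :=
          mul_le_mul a1 a3 (add_nonneg (hs0 _) (hs0 _)) (by positivity)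
      _ = _ := by ring
  have a5 : Tm (e + 1) z / (W : ℝ) ^ (4 * (e + 2)) ≤ J * (X / (W : ℝ) ^ 5) := by
    rw [← mul_div_assoc, div_le_div_iff₀ (by positivity) (by positivity)]
    calc _ ≤ J * X * (W : ℝ) ^ (4 * e + 3) * W ^ 5 := by gcongr
      _ = _ := by ring
  rw [mul_assoc]
  refine a5.trans (mul_le_mul_of_nonneg_left ?_ J0)
  have t1 : (1 : ℝ) ≤ 3 ^ (m + 4) := one_le_pow₀ (by norm_num)
  have b1 : (W : ℝ) ^ (2 * 1) * JkL m l W z / W ^ 5 ≤ 3 ^ (m + 4) * ((W : ℝ)⁻¹ * JkL m l W z) := by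
    calc _ = ((W : ℝ) ^ 2)⁻¹ * ((W : ℝ)⁻¹ * JkL m l W z) := by field_simp; ring
      _ ≤ _ := mul_le_mul_of_nonneg_right
        ((inv_le_one_of_one_le₀ (one_le_pow₀ hW1)).trans t1) (by positivity)
  have b2 : ((W : ℝ) ^ (2 * (e + 1)))⁻¹ / W ^ 5 ≤ ((W : ℝ) ^ (2 * m))⁻¹ := by
    rw [div_eq_mul_inv, ← mul_inv, ← pow_add]
    exact inv_anti₀ (by positivity) (pow_le_pow_right₀ hW1 (by omega))
  have e : X / (W : ℝ) ^ 5 = 3 ^ (m + 4) * ((W : ℝ)⁻¹ * (NrL l W z / W ^ 4)) +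
      (W : ℝ) ^ (2 * 1) * JkL m l W z / W ^ 5 +
        2 * B ^ 2 * (((W : ℝ) ^ (2 * (e + 1)))⁻¹ / W ^ 5) := by
    rw [hX]; field_simp
  have b3 := mul_le_mul_of_nonneg_left b2 (by positivity : 0 ≤ 2 * B ^ 2)
  have p1 : 0 ≤ 3 ^ (m + 4) * ((W : ℝ) ^ (2 * m))⁻¹ := by positivity
  have p2 : 0 ≤ 2 * B ^ 2 * ((W : ℝ)⁻¹ * (NrL l W z / W ^ 4 + JkL m l W z)) := by positivity
  rw [e, erL]
  nlinarith

end MASA

theorem st_masa : St_MASA := by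
  intro m j B hm hj
  refine ⟨(j ^ (2 * (m + 4))) ^ 2 * (3 ^ (m + 4) + 2 * B ^ 2),
    fun W l z hW hw lo hi h hB => ⟨MASA.schurL h hB l W, fun i hi' => ?_⟩⟩
  have s : MASA.St j l W := ⟨hj, hW, hw, lo, hi⟩
  have hW1 := s.w1
  have n0 := MASA.NrL0 l W z
  have j0 := MASA.JkL0 m l W z
  obtain ⟨e, he⟩ : ∃ e, m + i = e + 2 := ⟨m + i - 2, by omega⟩
  rw [he, show e + 2 - 1 = e + 1 from rfl]
  refine ⟨(s.p1 h hB (m := m + 4) (by omega)).trans ?_, s.p3 h hB (by omega) (by omega)⟩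
  have a1 : ((W : ℝ) ^ (2 * (e + 2)))⁻¹ ≤ erL m l W z :=
    le_add_of_nonneg_of_le (by positivity)
      (inv_anti₀ (by positivity) (pow_le_pow_right₀ hW1 (by omega)))
  have J1 : 1 ≤ j ^ (2 * (m + 4)) := one_le_pow₀ hj
  rw [mul_right_comm]
  refine mul_le_mul (mul_le_mul (by nlinarith) ?_ (sq_nonneg B) (sq_nonneg _)) a1 (by positivity)
    (by positivity)
  have : (0 : ℝ) ≤ 3 ^ (m + 4) := by positivity
  nlinarith [sq_nonneg B]

end Pool.Agent.Lib.IS3
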