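import Pool.Agent.Lib.IS3.B_MASA1

/-! Row MASB: the master estimate at a scale `l`, second part. -/

open scoped ComplexConjugate
open Complex

noncomputable section

namespace Pool.Agent.Lib.IS3

open Pool.Agent.Lib.ISO Pool.Agent.Lib.ISO.MAS Pool.Agent.Lib.IS3.MASA

namespace MASB

variable {z : ℤ → ℂ} {B j l : ℝ} {W : ℕ}

/-- the normalised sequence, the two windows and the modulus on the windows -/
def bl (r : ℕ) (l : ℝ) (W : ℕ) (z : ℤ → ℂ) (p : ℤ) : ℂ := (((p : ℝ) / l / (W : ℝ) ^ 2) ^ r : ℝ) * z p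
def cl (l : ℝ) (W : ℕ) (z : ℤ → ℂ) (p : ℤ) : ℂ := if p ∈ winL l W then z p else 0
def dl (r : ℕ) (l : ℝ) (W : ℕ) (z : ℤ → ℂ) (p : ℤ) : ℂ := (-1) ^ r * conj (cl l W z (-p))
def nl (l : ℝ) (W : ℕ) (z : ℤ → ℂ) (p : ℤ) : ℝ := if |ce l W p| ≤ W then ‖z p‖ else 0
def gl (r : ℕ) (l : ℝ) (W : ℕ) (z : ℤ → ℂ) (p : ℤ) : ℝ :=
  W * ‖bl r l W z p - cl l W z p - dl r l W z p‖ ^ 2 + 5 * nl l W z p ^ 2 / W

theorem nl0 (l : ℝ) (W : ℕ) (z : ℤ → ℂ) (p : ℤ) : 0 ≤ nl l W z p := by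
  unfold nl; split_ifs <;> positivity

theorem win (s : St j l W) (p : ℤ) : p ∈ winL l W ↔ 0 < p ∧ |ce l W p| ≤ W := by
  have l0 := s.l0
  have w4 : (4 : ℝ) ≤ W := by exact_mod_cast s.w4
  rw [winL, Finset.mem_Icc, Int.ceil_le, Int.le_floor, ← le_div_iff₀' l0, ← div_le_iff₀' l0, ce,
    abs_le]
  refine ⟨fun h => ?_, fun h => ?_⟩
  · have a : (0 : ℝ) < p := (div_pos_iff_of_pos_right l0).1 (by nlinarith [h.1])
    rw [abs_of_pos a]
    exact ⟨by exact_mod_cast a, by linarith [h.1], by linarith [h.2]⟩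
  · rw [abs_of_pos (by exact_mod_cast h.1 : (0 : ℝ) < p)] at h
    exact ⟨by linarith [h.2.1], by linarith [h.2.2]⟩

theorem ce_neg (l : ℝ) (W : ℕ) (p : ℤ) : ce l W (-p) = ce l W p := by simp [ce]

theorem cl_le (s : St j l W) (z : ℤ → ℂ) (p : ℤ) : ‖cl l W z p‖ ≤ nl l W z p := by
  unfold cl; split_ifs with a
  · rw [nl, if_pos ((win s p).1 a).2]
  · rw [norm_zero]; exact nl0 l W z p

theorem dl_le (s : St j l W) (h : Sq z) (r : ℕ) (p : ℤ) : ‖dl r l W z p‖ ≤ nl l W z p := by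
  have := cl_le s z (-p)
  rw [nl, ce_neg, h.cj, norm_conj] at this
  rw [dl, norm_mul, norm_pow, norm_neg, norm_one, one_pow, one_mul, norm_conj]
  exact this

theorem bl_sq (r : ℕ) (l : ℝ) (W : ℕ) (z : ℤ → ℂ) (p : ℤ) :
    ‖bl r l W z p‖ ^ 2 = yl l W p ^ r * ‖z p‖ ^ 2 := by
  rw [bl, norm_mul, norm_real, Real.norm_eq_abs, mul_pow, sq_abs, yl, ← pow_mul, mul_comm r 2,
    pow_mul]
  exact congrArg (· ^ r * _) (by ring)

theorem nl_sum (h : Sq z) (l : ℝ) (W : ℕ) : Summable fun p => nl l W z p ^ 2 :=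
  (sq_sum h).of_nonneg_of_le (fun _ => by positivity) fun p => by
    unfold nl; split_ifs
    · exact le_rfl
    · rw [zero_pow two_ne_zero]; positivity

theorem cl_form (z : ℤ → ℂ) (l : ℝ) (W : ℕ) :
    (∑' p, fm (cl l W z) (cv z z) p).re = qfL l W 1 z := by
  rw [tsum_eq_sum (s := winL l W ×ˢ winL l W), Finset.sum_product, qfL, one_pow, div_one]
  · exact congrArg re (Finset.sum_congr rfl fun t a => Finset.sum_congr rfl fun t' b => by
      simp [fm, cl, a, b])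
  · rintro ⟨t, t'⟩ hp
    rw [Finset.mem_product, not_and_or] at hp
    rcases hp with a | a <;> simp [fm, cl, a]

theorem dl_form (h : Sq z) (r : ℕ) (l : ℝ) (W : ℕ) :
    ∑' p, fm (dl r l W z) (cv z z) p = conj (∑' p, fm (cl l W z) (cv z z) p) := by
  rw [conj_tsum, ← (Equiv.neg (ℤ × ℤ)).tsum_eq]
  refine tsum_congr fun p => ?_
  have e : (-p.2 - -p.1 : ℤ) = -(p.2 - p.1) := by ring
  have e2 : ((-1 : ℂ) ^ r) * (-1) ^ r = 1 := by rw [← mul_pow]; simp
  simp only [fm, dl, Equiv.neg_apply, Prod.fst_neg, Prod.snd_neg, neg_neg, e, cv_neg h, map_mul,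
    map_pow, map_neg, map_one, conj_conj]
  linear_combination (conj (cl l W z p.1) * cl l W z p.2 * conj (cv z z (p.2 - p.1))) * e2

theorem bl_form (z : ℤ → ℂ) (l : ℝ) (W r : ℕ) :
    Qs r z / (l ^ (2 * r) * (W : ℝ) ^ (4 * r)) = (∑' p, fm (bl r l W z) (cv z z) p).re := by
  rw [Qs, ← div_ofReal_re, ← tsum_div_const]
  refine congrArg re (tsum_congr fun p => ?_)
  simp only [fm, bl, map_mul, conj_ofReal, map_pow, map_intCast]
  push_cast
  ring

theorem cross (s : St j l W) (h : Sq z) (r : ℕ) (v : ℤ → ℂ) (p q k : ℤ) (hk : |k| = |q - p|) :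
    ‖cl l W z p‖ * ‖dl r l W z q‖ * ‖v k‖ ≤ nl l W z p * nl l W z q * (aa v k / W) := by
  have w4 : (4 : ℝ) ≤ W := by exact_mod_cast s.w4
  have a0 := aa0 v k
  have n1 := nl0 l W z p
  have n2 := nl0 l W z q
  by_cases a : p ∈ winL l W
  · by_cases b : -q ∈ winL l W
    · refine mul_le_mul (mul_le_mul (cl_le s z p) (dl_le s h r q) (norm_nonneg _) n1) ?_
        (norm_nonneg _) (by positivity)
      have c1 := Int.ceil_le.1 (Finset.mem_Icc.1 a).1
      have c2 : (0 : ℝ) < (-q : ℤ) := by exact_mod_cast ((win s _).1 b).1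
      have c3 : (2 : ℝ) ≤ l * W := by nlinarith [s.jl, s.wj, s.l0]
      have d : ((p - q : ℤ) : ℝ) ≤ |(k : ℝ)| := by
        exact_mod_cast (le_abs_self _).trans_eq ((abs_sub_comm _ _).trans hk.symm)
      push_cast at c2 d
      rw [le_div_iff₀ (by positivity), aa, mul_comm]
      exact mul_le_mul_of_nonneg_right (by nlinarith) (norm_nonneg _)
    · rw [dl, cl, cl, if_neg b, map_zero, mul_zero, norm_zero, mul_zero, zero_mul]; positivity
  · rw [cl, if_neg a, norm_zero, zero_mul, zero_mul]; positivity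

theorem point (s : St j l W) (h : Sq z) (r : ℕ) (v : ℤ → ℂ) (p : ℤ × ℤ) :
    ‖fm (bl r l W z) v p - fm (cl l W z) v p - fm (dl r l W z) v p‖ ≤
      (gl r l W z p.1 + gl r l W z p.2) * aa v (p.2 - p.1) := by
  have hW1 := s.w1
  have c1 := cross s h r v p.1 p.2 (p.2 - p.1) rfl
  have c2 := cross s h r v p.2 p.1 (p.2 - p.1) (abs_sub_comm _ _)
  have d : ∀ x, ‖cl l W z x + dl r l W z x‖ ≤ 2 * nl l W z x := fun x =>
    (norm_add_le _ _).trans (by linarith [cl_le s z x, dl_le s h r x])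
  have n1 := nl0 l W z p.1
  have n2 := nl0 l W z p.2
  have a0 := aa0 v (p.2 - p.1)
  have a1 := le_aa v (p.2 - p.1)
  have d1 := d p.1
  have d2 := d p.2
  simp only [fm, gl]
  generalize bl r l W z p.1 = b1, bl r l W z p.2 = b2, cl l W z p.1 = x1, cl l W z p.2 = x2,
    dl r l W z p.1 = y1, dl r l W z p.2 = y2, nl l W z p.1 = m1, nl l W z p.2 = m2,
    aa v (p.2 - p.1) = A, v (p.2 - p.1) = u at *
  have e : b1 * conj b2 * u - x1 * conj x2 * u - y1 * conj y2 * u =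
      ((b1 - x1 - y1) * conj (b2 - x2 - y2) + (b1 - x1 - y1) * conj (x2 + y2) +
        (x1 + y1) * conj (b2 - x2 - y2)) * u + x1 * conj y2 * u + y1 * conj x2 * u := by
    simp only [map_sub, map_add]; ring
  rw [e]
  generalize b1 - x1 - y1 = e1, b2 - x2 - y2 = e2
  have f1 : ‖e1 * conj e2 + e1 * conj (x2 + y2) + (x1 + y1) * conj e2‖ ≤
      ‖e1‖ * ‖e2‖ + ‖e1‖ * (2 * m2) + 2 * m1 * ‖e2‖ := by
    refine norm_add₃_le.trans ?_
    simp only [norm_mul, norm_conj]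
    gcongr
  have f2 : ‖e1‖ * ‖e2‖ + ‖e1‖ * (2 * m2) + 2 * m1 * ‖e2‖ + 2 * (m1 * m2 / W) ≤
      W * ‖e1‖ ^ 2 + 5 * m1 ^ 2 / W + (W * ‖e2‖ ^ 2 + 5 * m2 ^ 2 / W) := by
    have g : ‖e1‖ * ‖e2‖ ≤ W * (‖e1‖ * ‖e2‖) := le_mul_of_one_le_left (by positivity) hW1
    rw [← sub_nonneg]
    refine le_of_le_of_eq (b := (W * (‖e1‖ * ‖e2‖) - ‖e1‖ * ‖e2‖) + W / 2 * (‖e1‖ - ‖e2‖) ^ 2 +
      ((W * ‖e1‖ - 2 * m2) ^ 2 + (W * ‖e2‖ - 2 * m1) ^ 2 + 2 * (m1 - m2) ^ 2 + 4 * m1 ^ 2 +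
        4 * m2 ^ 2) / (2 * W)) (add_nonneg (add_nonneg (sub_nonneg.2 g) ?_) ?_) ?_
    · positivity
    · positivity
    · field_simp; ring
  refine norm_add₃_le.trans (le_trans ?_ (mul_le_mul_of_nonneg_right f2 a0))
  have f3 := mul_le_mul f1 a1 (norm_nonneg _) ((norm_nonneg _).trans f1)
  rw [norm_mul, norm_mul, norm_mul, norm_mul, norm_mul, norm_conj, norm_conj, mul_comm ‖y1‖]
  have f4 : m1 * m2 * (A / W) + m2 * m1 * (A / W) = 2 * (m1 * m2 / W) * A := by ring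
  linarith

theorem gl_le (s : St j l W) (h : Sq z) {m r : ℕ} (h1 : m ≤ r + 1) (h2 : r + 1 ≤ m + 4) (p : ℤ) :
    gl r l W z p ≤ (((m + 4) * 2 ^ (m + 4)) ^ 2 + 5 + 3 ^ (m + 4)) / W * nrl l W z p +
      j ^ (2 * (m + 4)) * (W : ℝ) ^ 3 * jkl m l W z p +
      j ^ (2 * (m + 4)) * (W * ((W : ℝ) ^ (2 * r))⁻¹) * ‖z p‖ ^ 2 := by
  have hW1 := s.w1
  have w4 : (4 : ℝ) ≤ W := by exact_mod_cast s.w4
  have j1 := s.j1
  have n0 := nrl0 l W z p
  have j0 := jkl0 m l W z p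
  set K : ℝ := (m + 4) * 2 ^ (m + 4) with hK
  set t : ℝ := ce l W p with ht
  by_cases a : |t| ≤ W
  · have b1 : nrl l W z p = (1 + t ^ 2) * ‖z p‖ ^ 2 := if_pos (by nlinarith)
    have b2 : ‖bl r l W z p - cl l W z p - dl r l W z p‖ ≤ K * |t| / W * ‖z p‖ := by
      rcases lt_trichotomy p 0 with c | c | c
      · have g : |(p : ℝ) / l - -1 * (W : ℝ) ^ 2| = |t| := by
          rw [ht, ce, abs_of_neg (by exact_mod_cast c : (p : ℝ) < 0), ← abs_neg]
          exact congrArg _ (by ring)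
        have f := win_err s.w4 (m := m) (r := r) (σ := -1) (by omega) (by simp) (g.trans_le a)
        have e : bl r l W z p - cl l W z p - dl r l W z p =
            (((p : ℝ) / l / (W : ℝ) ^ 2) ^ r - (-1) ^ r : ℝ) * z p := by
          rw [dl, cl, cl, if_pos ((win s (-p)).2 ⟨by omega, by rwa [ce_neg]⟩),
            if_neg fun d => by have := ((win s p).1 d).1; omega, bl, h.cj, conj_conj]
          push_cast; ring
        rw [g] at f
        rw [e, norm_mul, norm_real, Real.norm_eq_abs]; gcongr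
      · rw [ht, c, ce, abs_le] at a
        simp only [Int.cast_zero, abs_zero, zero_div] at a
        nlinarith [a.1]
      · have g : |(p : ℝ) / l - 1 * (W : ℝ) ^ 2| = |t| := by
          rw [ht, ce, abs_of_pos (by exact_mod_cast c : (0 : ℝ) < p), one_mul]
        have f := win_err s.w4 (m := m) (r := r) (σ := 1) (by omega) abs_one (g.trans_le a)
        have e : bl r l W z p - cl l W z p - dl r l W z p =
            (((p : ℝ) / l / (W : ℝ) ^ 2) ^ r - 1 ^ r : ℝ) * z p := by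
          rw [dl, cl, cl, if_pos ((win s p).2 ⟨c, a⟩),
            if_neg fun d => by have := ((win s (-p)).1 d).1; omega, bl, map_zero]
          push_cast; ring
        rw [g] at f
        rw [e, norm_mul, norm_real, Real.norm_eq_abs]; gcongr
    refine le_add_of_le_of_nonneg (le_add_of_le_of_nonneg ?_ (by positivity)) (by positivity)
    have b3 : W * ‖bl r l W z p - cl l W z p - dl r l W z p‖ ^ 2 ≤
        K ^ 2 / W * (t ^ 2 * ‖z p‖ ^ 2) :=
      calc _ ≤ W * (K * |t| / W * ‖z p‖) ^ 2 := by gcongr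
        _ = _ := by rw [← sq_abs t]; field_simp
    rw [gl, nl, if_pos a, b1]
    have b4 : (K ^ 2 + 5 + 3 ^ (m + 4)) / W * ((1 + t ^ 2) * ‖z p‖ ^ 2) =
        K ^ 2 / W * (t ^ 2 * ‖z p‖ ^ 2) + 5 * ‖z p‖ ^ 2 / W +
        ((K ^ 2 + 5 * t ^ 2 + 3 ^ (m + 4) * (1 + t ^ 2)) / W * ‖z p‖ ^ 2) := by ring
    rw [b4]
    exact le_add_of_le_of_nonneg (add_le_add b3 le_rfl) (by positivity)
  · have e : gl r l W z p = W * (yl l W p ^ r * ‖z p‖ ^ 2) := by
      rw [gl, nl, if_neg a, dl, cl, cl, if_neg fun d => a ((win s p).1 d).2,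
        if_neg fun d => a (by simpa only [ce_neg] using ((win s (-p)).1 d).2), ← bl_sq]
      simp
    rw [e]
    rcases s.tri z (k := 1) h1 h2 p with ⟨b, c⟩ | b
    · refine le_add_of_le_of_nonneg (le_add_of_le_of_nonneg ?_ (by positivity)) (by positivity)
      have b2 : (W : ℝ) ^ 2 ≤ 1 + t ^ 2 := by
        rw [← sq_abs t]; nlinarith [not_le.1 a]
      rw [b]
      calc W * (yl l W p ^ r * ‖z p‖ ^ 2) ≤ W * (3 ^ (m + 4) * ‖z p‖ ^ 2) := by gcongr
        _ = 3 ^ (m + 4) / W * ((W : ℝ) ^ 2 * ‖z p‖ ^ 2) := by field_simp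
        _ ≤ _ := by
          gcongr
          exact le_add_of_nonneg_left (by positivity)
    · rw [add_assoc]
      refine le_add_of_nonneg_of_le (by positivity)
        ((mul_le_mul_of_nonneg_left b (by positivity)).trans_eq ?_)
      ring

end MASB

open MASB in
theorem st_masb : St_MASB := by
  intro m j B hm hj
  set K : ℝ := ((m + 4) * 2 ^ (m + 4)) ^ 2 + 5 + 3 ^ (m + 4) with hK
  set J : ℝ := j ^ (2 * (m + 4)) with hJ
  refine ⟨2 * B ^ 2 * (K + J + J * B ^ 2), fun W l z hW hw lo hi h hB i hi' => ?_⟩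
  have s : St j l W := ⟨hj, hW, hw, lo, hi⟩
  obtain ⟨r, he⟩ : ∃ r, m + i = r + 1 := ⟨m + i - 1, by omega⟩
  rw [he, Nat.add_sub_cancel]
  have hW1 := s.w1
  have l0 := s.l0
  have G0 : ∀ p, 0 ≤ gl r l W z p := fun p => by unfold gl; positivity
  obtain ⟨g1, g2⟩ := sumbl h hB m l W (by positivity) G0
    (gl_le s h (m := m) (r := r) (by omega) (by omega))
  obtain ⟨u1, u2⟩ := uw_sum h hB
  have s1 := fm_sum h (a := bl r l W z) (by simpa only [bl_sq] using (yl_sum h l W r).summable)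
  have s2 := fm_sum h (a := cl l W z) ((nl_sum h l W).of_nonneg_of_le (fun _ => by positivity)
    fun p => pow_le_pow_left₀ (norm_nonneg _) (cl_le s z p) 2)
  have s3 := fm_sum h (a := MASB.dl r l W z) ((nl_sum h l W).of_nonneg_of_le
    (fun _ => by positivity) fun p => pow_le_pow_left₀ (norm_nonneg _) (dl_le s h r p) 2)
  have k1 := tsum_of_norm_bounded (dbl g1 u1 G0 (aa0 _) (uw_neg h)) (MASB.point s h r (cv z z))
  rw [(s1.sub s2).tsum_sub s3, s1.tsum_sub s2] at k1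
  have k2 := (abs_re_le_norm _).trans k1
  rw [sub_re, sub_re, dl_form h, conj_re, cl_form, ← bl_form z] at k2
  have e : Qs r z / (l ^ (2 * r) * (W : ℝ) ^ (4 * (r + 1))) - 2 * qfL l W 1 z / (W : ℝ) ^ 4 =
      (Qs r z / (l ^ (2 * r) * (W : ℝ) ^ (4 * r)) - qfL l W 1 z - qfL l W 1 z) / (W : ℝ) ^ 4 := by
    field_simp; ring
  rw [e, abs_div, abs_of_pos (a := (W : ℝ) ^ 4) (by positivity), div_le_iff₀ (by positivity)]
  refine k2.trans ?_
  have n0 := NrL0 l W z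
  have j0 := JkL0 m l W z
  have b1 : W * ((W : ℝ) ^ (2 * r))⁻¹ ≤ ((W : ℝ) ^ (2 * m))⁻¹ * W ^ 4 := by
    rw [← div_eq_mul_inv, ← div_eq_inv_mul, div_le_div_iff₀ (by positivity) (by positivity),
      ← pow_succ', ← pow_add]
    exact pow_le_pow_right₀ hW1 (by omega)
  have b2 : ∑' p, gl r l W z p ≤ (K + J + J * B ^ 2) * erL m l W z * W ^ 4 := by
    refine g2.trans ?_
    have e2 : (K + J + J * B ^ 2) * erL m l W z * W ^ 4 = K / W * NrL l W z +
        J * W ^ 3 * JkL m l W z + J * (((W : ℝ) ^ (2 * m))⁻¹ * W ^ 4) * B ^ 2 +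
        ((J + J * B ^ 2) * NrL l W z / W + (K + J * B ^ 2) * (W ^ 3 * JkL m l W z) +
          (K + J) * ((W : ℝ) ^ (2 * m))⁻¹ * W ^ 4) := by
      rw [erL]; field_simp; ring
    rw [e2]
    refine le_add_of_le_of_nonneg (add_le_add le_rfl ?_) (by positivity)
    gcongr
  have t0 : 0 ≤ ∑' p, gl r l W z p := tsum_nonneg G0
  calc _ ≤ 2 * ((K + J + J * B ^ 2) * erL m l W z * W ^ 4 * B ^ 2) := by
        gcongr
        · exact tsum_nonneg (aa0 _)
        · exact t0.trans b2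
    _ = _ := by ring

end Pool.Agent.Lib.IS3
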