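import Pool.Agent.Lib.IS3.B_POSL
import Pool.Agent.Lib.ISO.B_K44

/-! Row MKS: the sums forced by a marker and by silence. -/

noncomputable section

namespace Pool.Agent.Lib.IS3

open Pool.Agent.Lib.ISO Pool.Agent.Lib.ISO.K4 Pool.Agent.Lib.IS2

namespace MKS

variable {z : ℤ → ℂ} {W M : ℕ} {l j : ℝ}

lemma ce_one (W : ℕ) (ξ : ℤ) : ce 1 W ξ = |(ξ : ℝ)| - (W : ℝ) ^ 2 := by rw [ce, div_one]

lemma yl_one (W : ℕ) (ξ : ℤ) : yl 1 W ξ = yy W ξ := by rw [yl, yy, one_pow, one_mul]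

lemma nr_one (W : ℕ) (z : ℤ → ℂ) : NrL 1 W z = Nr W z := tsum_congr fun ξ => by
  rw [ce_one]
  exact if_congr (by norm_cast) rfl rfl

lemma jk_one (m W : ℕ) (z : ℤ → ℂ) : JkL m 1 W z = Jk m W z := tsum_congr fun ξ => by
  rw [ce_one, yl_one]
  exact if_congr (and_congr Iff.rfl (by norm_cast)) rfl rfl

lemma mom_one (hz : Sq z) (hW : 4 ≤ W) (e : ℕ) (A : ℝ) : momL e 1 W A z = mom e (sh z W A) W := by
  have h1 := POSL.sum_winL hz one_pos hW e
  have h2 := sum_win hz hW e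
  have h3 : (fun ξ : ℤ => if |ce 1 W ξ| ≤ W then ce 1 W ξ ^ e * ‖z ξ‖ ^ 2 else 0) =
      fun ξ : ℤ => if |(|ξ| - (W : ℤ) ^ 2)| ≤ W then
        (|(ξ : ℝ)| - (W : ℝ) ^ 2) ^ e * ‖z ξ‖ ^ 2 else 0 := funext fun ξ => by
    rw [ce_one]
    exact if_congr (by norm_cast) rfl rfl
  rw [h3] at h1
  rw [momL, mom_sh, mul_left_cancel₀ two_ne_zero (h1.unique h2)]

lemma env_one : Env 1 (env 0) := by
  refine ⟨fun t ht => ?_, fun t => ?_⟩
  · rw [env, if_neg (by rintro rfl; simp at ht), ite_self]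
  · rw [env, ite_self]
    split_ifs <;> simp

lemma mom_env0 (e : ℕ) : mom e (env 0) 1 = 0 ^ e := by
  rw [mom, Finset.sum_eq_single_of_mem 0 (by simp [win]) fun t _ ht => by simp [env, ht]]
  simp [env]

lemma env_zero : Env 0 (0 : ℤ → ℂ) := ⟨fun _ _ => rfl, fun _ => by simp⟩

lemma gm0 (W : ℕ) (ξ : ℤ) : gm 0 W ξ = 0 := by simp [gm]

lemma nr_sil (hW : 4 ≤ W) (hj : 1 ≤ j) (hjW : 2 * j < W) (h1 : j⁻¹ ≤ l) (hz : Sq z)
    (hm : Mk M W 0 z) : NrL l W z ≤ (W : ℝ)⁻¹ * amp M W ^ 2 := by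
  refine mk_le hz env_zero hm (POSL.sum_NrL hz.dec l W) (by positivity) fun ξ => ?_
  have h2 : (4 : ℝ) ≤ W := by exact_mod_cast hW
  by_cases k3 : 2 * |ce l W ξ| ≤ (W : ℝ) ^ 2
  swap
  · rw [if_neg k3, pow_mul]
    split_ifs <;> positivity
  have k1 := POSL.near_hi hj hjW h1 k3
  rw [if_pos k3, if_pos k1, gm0, mul_zero, sub_zero, ← mul_assoc]
  refine mul_le_mul_of_nonneg_right ?_ (by positivity)
  have h3 := pow_ge hW k1 (k := 5) (e := 2 * M + 8) (by omega)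
  have h5 := abs_nonneg (ce l W ξ)
  have h6 : (16 : ℝ) ≤ (W : ℝ) ^ 2 := by nlinarith
  rw [← sq_abs (ce l W ξ), le_inv_mul_iff₀ (by linarith)]
  refine le_trans ?_ h3
  rw [show (W : ℝ) ^ 5 = W * (W ^ 2) ^ 2 by ring]
  exact mul_le_mul_of_nonneg_left (by nlinarith) (by linarith)

lemma jk_sil (hW : 4 ≤ W) (hj : 1 ≤ j) (h1 : j⁻¹ ≤ l) (hz : Sq z) (hm : Mk M W 0 z) :
    JkL (2 * M + 4) l W z ≤ 2 * ((j ^ 2) ^ (2 * M + 8) / (W : ℝ) ^ 8) * amp M W ^ 2 := by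
  refine mk_le hz env_zero hm (POSL.sum_JkL hz.dec _ l W) (by positivity) fun ξ => ?_
  have h2 : (4 : ℝ) ≤ W := by exact_mod_cast hW
  have j0 : 0 < j := by linarith
  have hl : 0 < l := (inv_pos.2 j0).trans_le h1
  split_ifs with k1 k2 k2
  · rw [gm0, mul_zero, sub_zero, ← mul_assoc]
    refine mul_le_mul_of_nonneg_right ?_ (by positivity)
    have h4 : 1 ≤ (ξ : ℝ) ^ 2 := by simpa using pow_ge hW k2 (k := 0) (e := 1) (by norm_num)
    have h5 : yl l W ξ ≤ j ^ 2 * (ξ : ℝ) ^ 2 / (W : ℝ) ^ 4 := by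
      rw [yl, ← div_div]
      refine div_le_div_of_nonneg_right ?_ (by positivity)
      rw [div_eq_inv_mul, ← inv_pow]
      exact mul_le_mul_of_nonneg_right
        (pow_le_pow_left₀ (by positivity) (inv_le_of_inv_le₀ j0 h1) 2) (by positivity)
    have h3 : ∀ e, 2 ≤ e → e ≤ 2 * M + 8 → yl l W ξ ^ e ≤
        (j ^ 2) ^ (2 * M + 8) / (W : ℝ) ^ 8 * (ξ : ℝ) ^ (2 * (2 * M + 8)) := fun e e1 e2 => by
      refine (pow_le_pow_left₀ (POSL.yl_nonneg l W ξ) h5 e).trans ?_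
      rw [div_pow, div_mul_eq_mul_div, pow_mul, ← mul_pow (j ^ 2), ← pow_mul (W : ℝ)]
      exact div_le_div₀ (by positivity) (pow_le_pow_right₀
        (one_le_mul_of_one_le_of_one_le (one_le_pow₀ hj) h4) e2) (by positivity)
        (pow_le_pow_right₀ (by linarith) (by omega))
    linarith [h3 (2 * M + 4) (by omega) (by omega), h3 (2 * M + 4 + 4) (by omega) (by omega)]
  · exact absurd k1.1 k2
  · rw [pow_mul]; positivity
  · simp

end MKS

theorem st_mks : St_MKS := fun M j hj => by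
  obtain ⟨c, hc⟩ : ∃ c, (j ^ 2) ^ (2 * M + 8) = c := ⟨_, rfl⟩
  have c0 : 0 ≤ c := by rw [← hc]; positivity
  refine ⟨39 + 2 * c, ⌈2 * j⌉₊ + 4, fun W hW1 z hz => ?_⟩
  have hW : 4 ≤ W := by omega
  have h2 : (4 : ℝ) ≤ W := by exact_mod_cast hW
  have hjW : 2 * j < W := by
    have h3 : ((⌈2 * j⌉₊ + 4 : ℕ) : ℝ) ≤ W := by exact_mod_cast hW1
    push_cast at h3
    linarith [Nat.le_ceil (2 * j)]
  have A0 : 0 < amp M W := by unfold amp; positivity
  have a2 := pow_pos A0 2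
  have v0 : 0 < (W : ℝ)⁻¹ := by positivity
  have v1 : (W : ℝ)⁻¹ ≤ 1 := inv_le_one_of_one_le₀ (by linarith)
  have cv := mul_nonneg c0 v0.le
  have u0 : 0 ≤ amp M W ^ 2 / (W : ℝ) ^ 8 := by positivity
  refine ⟨fun l h1 _ hm => ⟨?_, ?_⟩, fun hm => ?_⟩
  · refine (MKS.nr_sil hW hj hjW h1 hz hm).trans ?_
    rw [mul_div_right_comm]
    exact mul_le_mul_of_nonneg_right (by rw [div_eq_mul_inv]; linarith) a2.le
  · refine (MKS.jk_sil hW hj h1 hz hm).trans ?_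
    rw [hc, mul_div_assoc, mul_assoc, div_mul_eq_mul_div, mul_div_assoc]
    linarith
  have hJ : 1 ≤ W := by omega
  have nr := fun t ht => near_le hW hJ hz MKS.env_one hm (t := t) ht
  have md := fun e he => mom_diff hW hJ MKS.env_one nr (e := e) he
  simp only [MKS.mom_env0, Nat.cast_one] at md
  have m0 := abs_le.1 (md 0 (by norm_num))
  have m1 := abs_le.1 (md 1 (by norm_num))
  have m2 := abs_le.1 (md 2 le_rfl)
  norm_num at m0 m1 m2
  have ho : Nr W z / amp M W ^ 2 - 2 * mom 0 (sh z W (amp M W)) W -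
      2 * mom 2 (sh z W (amp M W)) W ≤ (W : ℝ)⁻¹ := by
    rw [mom_sh 0 W (amp M W), mom_sh 2 W (amp M W)]
    exact le_of_eq_of_le (by ring) ((div_le_iff₀ a2).2 (out_le hW hJ hz MKS.env_one hm))
  have hn := nr 0 (by simp [win])
  rw [sh, add_zero, env, if_pos rfl] at hn
  simp only [MKS.nr_one, MKS.jk_one, MKS.mom_one hz hW, div_eq_mul_inv (39 + 2 * c)]
  refine ⟨(div_le_iff₀ a2).1 (by linarith), (jk_le hW hJ hz MKS.env_one hm).trans ?_, by linarith,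
    abs_le.2 ⟨by linarith, by linarith⟩, abs_le.2 ⟨by linarith, by linarith⟩, by linarith,
    hn.trans ((pow_le_of_le_one v0.le v1 (by norm_num)).trans (by linarith))⟩
  rw [mul_div_assoc, inv_pow, mul_assoc, ← div_eq_inv_mul]
  exact mul_le_mul_of_nonneg_right (by linarith) u0

end Pool.Agent.Lib.IS3
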