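import Pool.Agent.Lib.IS3.Kit
import Pool.Agent.Lib.IS2.B_SA

/-! Equal traces give a weighted equality of the moments of the curvature. -/

open scoped ContDiff ComplexConjugate Topology Real
open Complex MeasureTheory Set Filter

noncomputable section

namespace Pool.Agent.Lib.IS3

open Pool.Agent.Lib.ISO Pool.Agent.Lib.IS2

namespace MOMW

variable {N : ℕ}

/-- A moment of the curvature. -/
def mo1 (l : ℝ) (G : ℝ → ℂ) (p : ℕ) : ℝ := ∫ s in (0 : ℝ)..(2 * π), kh l (kp G) s ^ p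

/-- The weighted sum of the moments. -/
def Dp (l : Fin N → ℝ) (G : MC N) (a : Fin N → ℂ) (p : ℕ) : ℝ :=
  ∑ i, ‖a i‖ ^ 2 / l i * mo1 (l i) (G i) p

lemma inv_le {J l : ℝ} {G : ℝ → ℂ} (h : Ns J l G) : l⁻¹ ≤ J := inv_le_of_inv_le₀ h.nc.pos h.lo

lemma mo1_le {J l : ℝ} {G : ℝ → ℂ} (h : Ns J l G) {p P : ℕ} (hp : p ≤ P) :
    |mo1 l G p| ≤ (J * J) ^ P * (2 * π) := by
  have j1 := h.nc.one_le
  have := intervalIntegral.norm_integral_le_of_norm_le_const (a := 0) (b := 2 * π)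
    (f := fun s => kh l (kp G) s ^ p) (C := (J * J) ^ P) fun s _ => by
      rw [Real.norm_eq_abs, abs_pow]
      refine (pow_le_pow_left₀ (abs_nonneg _) ?_ p).trans (pow_le_pow_right₀ (by nlinarith) hp)
      rw [kh, div_eq_mul_inv, abs_mul, abs_of_pos (inv_pos.2 h.pos)]
      exact mul_le_mul (h.nc.bk s) (inv_le h) (inv_pos.2 h.pos).le h.nc.pos.le
  rwa [sub_zero, abs_of_pos Real.two_pi_pos, Real.norm_eq_abs] at this

lemma sum_le {E : Type} [SeminormedAddCommGroup E] {J e : ℝ} (hN : (N : ℝ) ≤ J) (he : 0 ≤ e)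
    {f : Fin N → E} (h : ∀ i, ‖f i‖ ≤ e) : ‖∑ i, f i‖ ≤ J * e := by
  refine (norm_sum_le _ _).trans ((Finset.sum_le_card_nsmul _ _ e fun i _ => h i).trans ?_)
  rw [Finset.card_univ, Fintype.card_fin, nsmul_eq_mul]
  exact mul_le_mul_of_nonneg_right hN he

lemma Dp_le {J K : ℝ} {l : Fin N → ℝ} {G : MC N} {a : Fin N → ℂ} (h : Sd J l G)
    (ha : ∀ i, ‖a i‖ ≤ K) {p P : ℕ} (hp : p ≤ P) :
    |Dp l G a p| ≤ J * (K ^ 2 * J * ((J * J) ^ P * (2 * π))) := by
  have j0 := h.nv.pos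
  refine sum_le (E := ℝ) h.nv.card (by positivity) fun i => ?_
  have l0 := (h.ns i).pos
  rw [Real.norm_eq_abs, abs_mul, abs_of_nonneg (by positivity), div_eq_mul_inv]
  exact mul_le_mul (mul_le_mul (pow_le_pow_left₀ (norm_nonneg _) (ha i) 2) (inv_le (h.ns i))
    (by positivity) (by positivity)) (mo1_le (h.ns i) hp) (abs_nonneg _) (by positivity)

lemma exp_sum {J e : ℝ} {l : Fin N → ℝ} {G : MC N} {a F : Fin N → ℂ} {L : ℂ} {cf : ℕ → ℂ}
    {s : Finset ℕ} (hN : (N : ℝ) ≤ J) (he : 0 ≤ e)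
    (h : ∀ i, ‖F i / L - (‖a i‖ ^ 2 / l i : ℝ) * ∑ p ∈ s, cf p * (mo1 (l i) (G i) p : ℝ)‖ ≤ e) :
    ‖(∑ i, F i) / L - ∑ p ∈ s, cf p * (Dp l G a p : ℝ)‖ ≤ J * e := by
  refine le_of_eq_of_le (congrArg _ ?_) (sum_le hN he h)
  simp only [Finset.sum_sub_distrib, Finset.sum_div, Dp, ofReal_sum, ofReal_mul, Finset.mul_sum]
  rw [Finset.sum_comm]
  simp only [mul_left_comm]

lemma ind (hT : St_TEQ2) (hE : St_EXPL) (J K : ℝ) (M : ℕ) (hM : 25 ≤ M) (p0 : ℕ) :
    ∃ (r : ℕ) (C : ℝ) (W1 : ℕ), 0 ≤ C ∧ ∀ W, W1 ≤ W → ∀ x : ℝ, 1 ≤ x → x ^ r ≤ W →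
      ∀ (N N' : ℕ) (l : Fin N → ℝ) G (l' : Fin N' → ℝ) G' a a', Sd J l G → Sd J l' G' →
      Cst J (scm l G) (scm l' G') → (∀ i, Ton1 M K W (nq (l i) W) (a i) (kp (G i))) →
      (∀ i, Ton1 M K W (nq (l' i) W) (a' i) (kp (G' i))) →
      ∀ p < p0, |Dp l G a p - Dp l' G' a' p| ≤ C / x := by
  induction p0 with
  | zero => exact ⟨0, 0, 0, le_rfl, fun _ _ _ _ _ _ _ _ _ _ _ _ _ _ _ _ _ _ p hp => by omega⟩
  | succ p0 ih =>
  obtain ⟨r', C', W', C0, ih⟩ := ih
  obtain ⟨r0, P, hP, hE⟩ := hE J K p0 M hM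
  obtain ⟨r, q1, q2, q3, q4⟩ : ∃ r, r0 ≤ r ∧ 2 ≤ r ∧ (3 * p0 + 1) * r' ≤ 3 * r ∧
      3 * p0 + 1 ≤ 3 * (2 * r) := ⟨r0 + 2 + (3 * p0 + 1) * r' + p0, by omega⟩
  obtain ⟨c, C1, h0, cf, hc, hE⟩ := hE r q1
  obtain ⟨C2, h1, hT⟩ := hT J (2 * r) (2 * M + 4) (by omega)
  set B : ℝ := |J| * (K ^ 2 * |J| * ((J * J) ^ P * (2 * π))) with hB
  have B0 : 0 ≤ B := by
    have := mul_self_nonneg J
    positivity
  set C5 : ℝ := 2 * (|J| * |C1|) + |C2| + (P + 1) * (|C1| * (C' + 2 * B)) with hC5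
  set H : ℝ := max (max h0 h1) 1 with hH
  refine ⟨3 * r, C' + C5 / c, max W' ⌈H ^ (3 * r)⌉₊, by positivity,
    fun W hW x x1 hx N N' l G l' G' a a' d d' cs t t' p hp => ?_⟩
  have H1 : 1 ≤ H := le_max_right _ _
  have w1 : H ^ (3 * r) ≤ W := Nat.ceil_le.1 ((le_max_right _ _).trans hW)
  obtain ⟨h, g, e0⟩ : ∃ h : ℝ, 0 ≤ h ∧ h ^ (3 * r) = W :=
    ⟨(W : ℝ) ^ (((3 * r : ℕ) : ℝ)⁻¹), by positivity,
      Real.rpow_inv_natCast_pow (by positivity) (by omega)⟩
  have hh : H ≤ h := le_of_pow_le_pow_left₀ (n := 3 * r) (by omega) g (e0 ▸ w1)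
  have xh : x ≤ h := le_of_pow_le_pow_left₀ (n := 3 * r) (by omega) g (e0 ▸ hx)
  have e : (W : ℝ) ^ 2 = om (2 * r) h := by
    rw [om, ← e0, ← pow_mul]
    congr 1
    ring
  have g1 : 1 ≤ h := H1.trans hh
  have g0 : 0 < h := one_pos.trans_le g1
  have x0 : 0 < x := one_pos.trans_le x1
  have jJ : |J| = J := abs_of_pos d.nv.pos
  set u : ℝ := h ^ (3 * p0 + 1) with hu
  have u1 : h ≤ u := le_self_pow₀ g1 (by omega)
  have u0 : 0 < u := by positivity
  have old : ∀ p < p0, |Dp l G a p - Dp l' G' a' p| ≤ C' / u :=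
    ih W ((le_max_left _ _).trans hW) u (g1.trans u1)
      (by rw [hu, ← pow_mul, ← e0]; exact pow_le_pow_right₀ g1 q3) N N' l G l' G' a a' d d' cs t t'
  have C50 : 0 ≤ C5 := by positivity
  rcases (Nat.lt_succ_iff.1 hp).lt_or_eq with hp | rfl
  · exact (old p hp).trans (div_le_div₀ (by positivity)
      (le_add_of_nonneg_right (by positivity)) x0 (xh.trans u1))
  obtain ⟨c1, c2, c4⟩ := hE h (((le_max_left _ _).trans (le_max_left _ _)).trans hh)
  have dv : C1 / u ≤ |C1| / u := div_le_div_of_nonneg_right (le_abs_self _) u0.le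
  have x1 := exp_sum (G := G) d.nv.card (by positivity) fun i => (c4 W _ _ _ _ e (d.ns i) (d.cm i)
    (nq_nq d.nv.pos.le (d.ns i).lo (d.ns i).hi W) (t i)).trans dv
  have x2 := exp_sum (G := G') d'.nv.card (by positivity) fun i => (c4 W _ _ _ _ e (d'.ns i)
    (d'.cm i) (nq_nq d'.nv.pos.le (d'.ns i).lo (d'.ns i).hi W) (t' i)).trans dv
  have x3 := hT h (((le_max_right _ _).trans (le_max_left _ _)).trans hh) _ _ _ _ d.nv d'.nv cs
  simp only [scm] at x3
  set F := ∑ i, FT (2 * r) h (cp (sc (l i) (G i)))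
  set F' := ∑ i, FT (2 * r) h (cp (sc (l' i) (G' i)))
  have o1 : u ≤ om (2 * r) h := pow_le_pow_right₀ g1 q4
  have o0 : 0 < om (2 * r) h := u0.trans_le o1
  have L0 : 0 < La M W (2 * r) h := lt_of_lt_of_le (by positivity) (SA.la_ge g1 e)
  have y3 : ‖F / La M W (2 * r) h - F' / La M W (2 * r) h‖ ≤ |C2| / u := by
    rw [← sub_div, norm_div, norm_real, Real.norm_of_nonneg L0.le]
    refine ((div_le_div_of_nonneg_right (x3.trans (div_le_div_of_nonneg_right (le_abs_self _)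
      (by positivity))) L0.le).trans (div_le_div_of_nonneg_left (by positivity) (by positivity)
      (SA.la_ge g1 e))).trans ?_
    have : |C2| / om (2 * r) h ^ (2 * M + 4) / (om (2 * r) h ^ (2 * M + 3))⁻¹ =
        |C2| / om (2 * r) h := by
      field_simp
      ring
    rw [this]
    exact div_le_div_of_nonneg_left (abs_nonneg _) u0 o1
  have cb : ∀ p ≤ P, ‖cf p h‖ ≤ |C1| / h ^ (3 * p) := fun p hp =>
    (c1 p hp).trans (div_le_div_of_nonneg_right (le_abs_self _) (by positivity))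
  set D : ℕ → ℝ := fun p => Dp l G a p - Dp l' G' a' p with hD
  have y5 : ‖∑ k ∈ (Finset.range (P + 1)).erase p, cf k h * (D k : ℂ)‖ ≤
      (P + 1) * (|C1| * (C' + 2 * B)) / u := by
    refine (norm_sum_le _ _).trans ((Finset.sum_le_card_nsmul _ _ (|C1| * (C' + 2 * B) / u)
      fun k hk => ?_).trans ?_)
    · obtain ⟨hk1, hk⟩ := Finset.mem_erase.1 hk
      have hk := Nat.lt_succ_iff.1 (Finset.mem_range.1 hk)
      rw [norm_mul, norm_real, Real.norm_eq_abs]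
      rcases lt_or_gt_of_ne hk1 with k1 | k1
      · rw [mul_div_assoc]
        exact mul_le_mul ((cb k hk).trans (div_le_self (abs_nonneg _) (one_le_pow₀ g1)))
          ((old k k1).trans (div_le_div_of_nonneg_right (by linarith) u0.le)) (abs_nonneg _)
          (abs_nonneg _)
      · rw [mul_div_right_comm]
        refine mul_le_mul ((cb k hk).trans (div_le_div_of_nonneg_left (abs_nonneg _) u0
          (pow_le_pow_right₀ g1 (by omega)))) ((abs_sub _ _).trans ?_) (abs_nonneg _)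
          (by positivity)
        have b1 := Dp_le d (fun i => (t i).b0) hk
        have b2 := Dp_le d' (fun i => (t' i).b0) hk
        rw [hB, jJ]
        linarith
    · rw [nsmul_eq_mul, mul_div_assoc ((P : ℝ) + 1)]
      refine mul_le_mul_of_nonneg_right ?_ (by positivity)
      exact_mod_cast (Finset.card_erase_le).trans (Finset.card_range _).le
  have id : cf p h * (D p : ℂ) = (F / La M W (2 * r) h - F' / La M W (2 * r) h) -
      (F / La M W (2 * r) h - ∑ k ∈ Finset.range (P + 1), cf k h * (Dp l G a k : ℝ)) +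
      (F' / La M W (2 * r) h - ∑ k ∈ Finset.range (P + 1), cf k h * (Dp l' G' a' k : ℝ)) -
      ∑ k ∈ (Finset.range (P + 1)).erase p, cf k h * (D k : ℂ) := by
    have := Finset.add_sum_erase (Finset.range (P + 1)) (fun k => cf k h * (D k : ℂ))
      (Finset.mem_range.2 (Nat.lt_succ_iff.2 hP))
    simp only [hD, ofReal_sub, mul_sub (cf _ h), Finset.sum_sub_distrib] at this ⊢
    linear_combination this
  have y7 : ‖cf p h‖ * |D p| ≤ C5 / u := by
    rw [← Real.norm_eq_abs, ← norm_real, ← norm_mul, id, hC5, add_div, add_div, jJ,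
      mul_div_assoc, mul_div_assoc J]
    refine (norm_sub_le _ _).trans (add_le_add ((norm_add_le _ _).trans ?_) y5)
    have := norm_sub_le (F / La M W (2 * r) h - F' / La M W (2 * r) h)
      (F / La M W (2 * r) h - ∑ k ∈ Finset.range (P + 1), cf k h * (Dp l G a k : ℝ))
    linarith
  have y8 : c / h ^ (3 * p) * |D p| ≤ C5 / u :=
    (mul_le_mul_of_nonneg_right c2 (abs_nonneg _)).trans y7
  rw [hu, pow_succ, div_mul_eq_mul_div, ← div_div, div_right_comm,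
    div_le_div_iff_of_pos_right (by positivity), mul_comm, ← le_div_iff₀ hc, div_right_comm] at y8
  exact y8.trans (div_le_div₀ (by positivity) (le_add_of_nonneg_left C0) x0 xh)

lemma step (hO : St_TONM) (hT : St_TEQ2) (hE : St_EXPL) (C : ℕ → ℝ) (J M : ℕ) :
    ∃ W1 : ℕ, 25 ≤ M → ∀ W, W1 ≤ W → ∀ (N N' : ℕ) (l : Fin N → ℝ) G (l' : Fin N' → ℝ) G' i0,
      Sd J l G → Sd J l' G' → Cst J (scm l G) (scm l' G') →
      InvB C l (fun i => kp (G i)) l' (fun i => kp (G' i)) →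
      Mkm M W i0 (env 0) (fun i => fc (kp (G i))) → l i0 = 1 → ∃ m ∈ Icc (0 : Fin N' → ℝ) 2,
        ∀ p < J, |mo1 1 (G i0) p - ∑ a, m a * mo1 (l' a) (G' a) p| ≤ 1 / ((J : ℝ) + 1) := by
  by_cases hM : 25 ≤ M
  swap
  · exact ⟨0, fun h => (hM h).elim⟩
  obtain ⟨K, W1, hK⟩ := hO C M J
  obtain ⟨r, C1, W2, C0, hI⟩ := ind hT hE J K M hM J
  set B : ℝ := ((J : ℝ) * J) ^ J * (2 * π) with hB
  set X : ℝ := 1 + |K| + (C1 + J * ((3 + J) * |K| * B)) * (J + 1) with hX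
  have B0 : 0 ≤ B := by positivity
  have k0 := abs_nonneg K
  have z0 : 0 ≤ (C1 + J * ((3 + J) * |K| * B)) * (J + 1) := by positivity
  have X1 : 1 ≤ X := by linarith
  have X0 : 0 < X := by linarith
  refine ⟨max (max W1 W2) ⌈X ^ (r + 1)⌉₊, fun _ W hW N N' l G l' G' i0 d d' cs iv mk l1 => ?_⟩
  have w1 : X ^ (r + 1) ≤ W := Nat.ceil_le.1 ((le_max_right _ _).trans hW)
  obtain ⟨a, a', t, t', s1, s2, s3⟩ := hK W (((le_max_left _ _).trans (le_max_left _ _)).trans hW)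
    N N' l _ l' _ i0 d.cl d'.cl iv mk l1
  have e1 : K / W ≤ |K| / X := div_le_div₀ k0 (le_abs_self _) X0
    ((le_self_pow₀ X1 r.succ_ne_zero).trans w1)
  have e2 : |K| / X ≤ 1 := (div_le_one X0).2 (by linarith)
  have e0 : 0 ≤ |K| / X := by positivity
  have nn : ∀ i, 0 ≤ ‖a' i‖ ^ 2 / l' i := fun i => div_nonneg (sq_nonneg _) (d'.ns i).pos.le
  refine ⟨fun i => ‖a' i‖ ^ 2 / l' i, ⟨nn, fun i => ?_⟩, fun p hp => ?_⟩
  · have := Finset.single_le_sum (fun i _ => nn i) (Finset.mem_univ i)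
    have := (abs_le.1 s3).2
    show ‖a' i‖ ^ 2 / l' i ≤ 2
    linarith
  have y1 := hI W (((le_max_right _ _).trans (le_max_left _ _)).trans hW) X X1
    ((pow_le_pow_right₀ X1 r.le_succ).trans w1) N N' l G l' G' a a' d d' cs t t' p hp
  have y2 : |mo1 1 (G i0) p - Dp l G a p| ≤ J * ((3 + J) * (|K| / X) * B) := by
    have : mo1 1 (G i0) p - Dp l G a p =
        ∑ i, ((if i = i0 then 1 else 0) - ‖a i‖ ^ 2 / l i) * mo1 (l i) (G i) p := by
      simp [sub_mul, Dp, l1]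
    rw [this]
    refine sum_le (E := ℝ) d.nv.card (by positivity) fun i => ?_
    rw [Real.norm_eq_abs, abs_mul]
    refine mul_le_mul ?_ (mo1_le (d.ns i) hp.le) (abs_nonneg _) (by positivity)
    have j0 : 0 ≤ (J : ℝ) * (|K| / X) := by positivity
    split_ifs with hi
    · subst hi
      have b := abs_le.1 ((abs_norm_sub_norm_le (a i) 1).trans (s1.trans e1))
      rw [norm_one] at b
      rw [l1, div_one, abs_le]
      constructor <;> nlinarith [norm_nonneg (a i)]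
    · have l0 := (d.ns i).pos
      rw [zero_sub, abs_neg, abs_of_nonneg (by positivity), div_eq_mul_inv]
      have := mul_le_mul ((s2 i hi).trans e1) (inv_le (d.ns i)) (by positivity) e0
      linarith
  refine ((abs_sub_le _ (Dp l G a p) _).trans (add_le_add y2 y1)).trans ?_
  rw [show J * ((3 + J) * (|K| / X) * B) + C1 / X = (C1 + J * ((3 + J) * |K| * B)) / X by ring,
    div_le_div_iff₀ X0 (by positivity)]
  linarith

end MOMW

open MOMW in
theorem st_momw (hTONM : St_TONM) (hTEQ2 : St_TEQ2) (hEXPL : St_EXPL) : St_MOMW := by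
  intro C
  choose W1 hW using step hTONM hTEQ2 hEXPL C
  refine ⟨W1, fun N N' j l G l' G' i0 d d' cs iv g l1 => ?_⟩
  have r : ra (Finsupp.single 0 (1, 0)) = env 0 := funext fun t => by
    by_cases h : t = 0
    · simp [ra, env, h]
    · simp [ra, env, h]
  have key : ∀ n : ℕ, ∃ m ∈ Icc (0 : Fin N' → ℝ) 2, ∀ p < n,
      |mo1 1 (G i0) p - ∑ a, m a * mo1 (l' a) (G' a) p| ≤ 1 / ((n : ℝ) + 1) := fun n => by
    obtain ⟨J, a, b, c⟩ : ∃ J : ℕ, ⌈j⌉₊ ≤ J ∧ n ≤ J ∧ 25 ≤ J := ⟨⌈j⌉₊ + n + 25, by omega⟩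
    have a := Nat.ceil_le.1 a
    obtain ⟨M, W, e1, e2, e3⟩ := g J i0 (Finsupp.single 0 (1, 0)) (by
      rw [r]
      refine ⟨fun t ht => ?_, fun t => ?_⟩
      · have : t ≠ 0 := by rintro rfl; simp at ht; omega
        simp [env, this]
      · have : (1 : ℝ) ≤ J := by exact_mod_cast (by omega : 1 ≤ J)
        by_cases h : t = 0
        · simp [env, h, this]
        · simp [env, h])
    obtain ⟨m, m1, m2⟩ := hW J M (c.trans e1) W e2 N N' l G l' G' i0 (d.mono a) (d'.mono a)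
      (cs.mono a) iv (r ▸ e3) l1
    exact ⟨m, m1, fun p hp => (m2 p (hp.trans_le b)).trans (Nat.one_div_le_one_div b)⟩
  choose m m1 m2 using key
  obtain ⟨w, w1, φ, φ1, φ2⟩ := isCompact_Icc.tendsto_subseq m1
  refine ⟨w, w1.1, fun p => ?_⟩
  have ct : Continuous fun w : Fin N' → ℝ =>
      |mo1 1 (G i0) p - ∑ a, w a * mo1 (l' a) (G' a) p| := by fun_prop
  have := le_of_tendsto_of_tendsto ((ct.tendsto w).comp φ2) tendsto_one_div_add_atTop_nhds_zero_nat
    ((eventually_gt_atTop p).mono fun n hn => (m2 (φ n) p (hn.trans_le (φ1.id_le n))).trans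
      (Nat.one_div_le_one_div (φ1.id_le n)))
  simpa only [mo1, kh, div_one] using sub_eq_zero.1 (abs_nonpos_iff.1 this)

end Pool.Agent.Lib.IS3
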