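import Pool.Agent.Lib.IS3.Kit
import Pool.Agent.Lib.IS3.BlueG

/-! The boundary curves of a domain have bounded geometry. -/

open scoped ContDiff ComplexConjugate Topology Real
open Complex MeasureTheory Set Filter

noncomputable section

namespace Pool.Agent.Lib.IS3

open Pool.Agent.Lib.ISO Pool.Agent.Lib.IS2

theorem st_ncm (hD : St_DIVm) (hN : St_NVE) (hC : St_CMP) : St_NCM := by
  intro N Ω l G φ h
  have rc := (hD N Ω l G φ h).rc
  have key (i : Fin N) : ∀ᶠ j in atTop, Ns j (l i) (G i) ∧ Cm j (l i) (G i) := by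
    have l0 := h.1 i
    have l1 : (l i : ℂ) ≠ 0 := by exact_mod_cast l0.ne'
    have e : G i = sc (l i)⁻¹ (scm l G i) := funext fun s => by
      simp only [scm, sc, ofReal_inv]
      rw [inv_mul_cancel_left₀ l1]
    have sm : ContDiff ℝ ∞ (G i) := by
      rw [e]
      exact contDiff_const.mul (rc.smooth i)
    have un (s : ℝ) : ‖deriv (G i) s‖ = 1 := by
      have d : HasDerivAt (fun t => (l i : ℂ) * G i (t / l i))
          (l i * ((l i)⁻¹ • deriv (G i) (l i * s / l i))) (l i * s) :=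
        (((sm.differentiable (by simp) _).hasDerivAt.scomp (l i * s)
          ((hasDerivAt_id _).div_const (l i))).congr_deriv (by rw [one_div])).const_mul _
      have u := (h.2.cv i).unit (l i * s)
      rwa [d.deriv, mul_div_cancel_left₀ _ l0.ne', real_smul, ofReal_inv,
        mul_inv_cancel_left₀ l1] at u
    have r1 : Rc fun _ : Fin 1 => sc (l i) (G i) :=
      ⟨fun _ => rc.smooth i, fun _ => rc.per i, fun _ => rc.reg i, fun x y q =>
        ⟨Subsingleton.elim _ _, (rc.inj (i, x.2) (i, y.2) q).2⟩⟩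
    obtain ⟨-, j1, h1⟩ := hN.2 (G i) ⟨fun _ => sm, fun _ s => mul_left_cancel₀ l1 (rc.per i s),
      fun _ s q => by simpa [q] using un s, fun x y q => r1.inj x y (congrArg ((l i : ℂ) * ·) q)⟩ un
    obtain ⟨j2, h2⟩ := hN.1 1 _ r1
    obtain ⟨j3, h3⟩ := hC j1 (l i) (G i) l0 (h1 j1 le_rfl)
    filter_upwards [eventually_ge_atTop j1, eventually_ge_atTop j2, eventually_ge_atTop j3,
      eventually_ge_atTop (l i), eventually_ge_atTop (l i)⁻¹] with j a1 a2 a3 a4 a5
    exact ⟨⟨h1 j a1, inv_le_of_inv_le₀ l0 a5, a4, h2 j a2⟩, h3 j a3⟩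
  obtain ⟨j0, h0⟩ := hN.1 N _ rc
  obtain ⟨j1, h1⟩ := eventually_atTop.1 ((eventually_ge_atTop j0).and (eventually_all.2 key))
  exact ⟨j1, fun j hj => ⟨h0 j (h1 j hj).1, fun i => ((h1 j hj).2 i).1, fun i => ((h1 j hj).2 i).2⟩⟩

end Pool.Agent.Lib.IS3
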