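import Pool.Agent.Lib.IS3.Kit

/-! Row NNE: nearest pairs whose distance is almost minimal. -/

open scoped ContDiff ComplexConjugate Topology Real
open Complex MeasureTheory Set Filter

noncomputable section

namespace Pool.Agent.Lib.IS3

open Pool.Agent.Lib.ISO Pool.Agent.Lib.IS2

namespace NNE

variable {N : ℕ} {j : ℝ} {Γ : MC N}

lemma sq_add (V W : ℂ) : ‖V + W‖ ^ 2 = ‖V‖ ^ 2 + 2 * rdot W V + ‖W‖ ^ 2 := by
  simp only [Complex.sq_norm, normSq_apply, rdot, add_re, add_im, mul_re, conj_re, conj_im]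
  ring

lemma pyth (T V : ℂ) : rdot (I * T) V ^ 2 + rdot T V ^ 2 = (‖T‖ * ‖V‖) ^ 2 := by
  simp only [mul_pow, Complex.sq_norm, normSq_apply, rdot, mul_re, mul_im, conj_re, conj_im, I_re,
    I_im]
  ring

lemma split (W T V : ℂ) (t : ℝ) : rdot W V = t * rdot T V + rdot (W - t * T) V := by
  simp only [rdot, mul_re, mul_im, sub_re, sub_im, conj_re, conj_im, ofReal_re, ofReal_im]
  ring

lemma rd_neg (T A B : ℂ) : rdot T (A - B) = -rdot T (B - A) := by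
  simp only [rdot, mul_re, sub_re, sub_im, conj_re, conj_im]
  ring

lemma rd_ext {T V W : ℂ} (hT : T ≠ 0) (h1 : rdot T V = rdot T W)
    (h2 : rdot (I * T) V = rdot (I * T) W) : V = W := by
  have e : (‖T‖ * ‖V - W‖) ^ 2 = 0 := by
    rw [← pyth]
    simp only [rdot, mul_re, mul_im, sub_re, sub_im, conj_re, conj_im, I_re, I_im] at h1 h2 ⊢
    have a : (0 * T.re - 1 * T.im) * (V.re - W.re) - (0 * T.im + 1 * T.re) * -(V.im - W.im) = 0 := by
      linarith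
    have b : T.re * (V.re - W.re) - T.im * -(V.im - W.im) = 0 := by linarith
    rw [a, b]
    ring
  rcases mul_eq_zero.1 (pow_eq_zero_iff two_ne_zero |>.1 e) with c | c
  · exact absurd (norm_eq_zero.1 c) hT
  · exact sub_eq_zero.1 (norm_eq_zero.1 c)

lemma tay (h : Nv j Γ) (i : Fin N) (s t : ℝ) :
    ‖Γ i (s + t) - Γ i s - t * deriv (Γ i) s‖ ≤ j * t ^ 2 := by
  have l1 : ∀ u, ‖deriv (Γ i) (s + u) - deriv (Γ i) s‖ ≤ j * |u| := fun u => by
    simpa using (convex_univ (𝕜 := ℝ) (E := ℝ)).norm_image_sub_le_of_norm_deriv_le (C := j)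
      (fun x _ => (h.rc.s1 i).differentiable (by simp) x) (fun x _ => h.b2 i x) (mem_univ s)
      (mem_univ (s + u))
  have d : ∀ u : ℝ, HasDerivAt (fun u : ℝ => Γ i (s + u) - u * deriv (Γ i) s)
      (deriv (Γ i) (s + u) - deriv (Γ i) s) u := fun u => by
    simpa using ((h.hd i (s + u)).comp_const_add s u).fun_sub
      ((Complex.ofRealCLM.hasDerivAt (x := u)).mul_const (deriv (Γ i) s))
  have := (convex_closedBall (0 : ℝ) |t|).norm_image_sub_le_of_norm_hasDerivWithin_le (C := j * |t|)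
    (fun u _ => (d u).hasDerivWithinAt) (fun u hu => (l1 u).trans
      (mul_le_mul_of_nonneg_left (by simpa using hu) h.pos.le))
    (Metric.mem_closedBall_self (abs_nonneg t)) (y := t) (by simp)
  simp only [add_zero, ofReal_zero, zero_mul, sub_zero, Real.norm_eq_abs] at this
  rw [mul_assoc, abs_mul_abs_self, ← sq, sub_right_comm] at this
  exact this

lemma quad (h : Nv j Γ) (i : Fin N) (s t : ℝ) (X : ℂ) (hD : ‖Γ i s - X‖ ≤ j) :
    ‖Γ i (s + t) - X‖ ^ 2 ≤ ‖Γ i s - X‖ ^ 2 + 2 * (t * rdot (deriv (Γ i) s) (Γ i s - X)) +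
      3 * (j * t) ^ 2 := by
  have e : Γ i (s + t) - X = Γ i s - X + (Γ i (s + t) - Γ i s) := by ring
  have a := h.le_abs i (s + t) s
  rw [add_sub_cancel_left] at a
  have a2 : ‖Γ i (s + t) - Γ i s‖ ^ 2 ≤ (j * t) ^ 2 := by
    have := pow_le_pow_left₀ (norm_nonneg _) a 2
    rwa [mul_pow, sq_abs, ← mul_pow] at this
  have b := (le_abs_self _).trans (K28.abs_rdot (Γ i (s + t) - Γ i s - t * deriv (Γ i) s) (Γ i s - X))
  have c := mul_le_mul (tay h i s t) hD (norm_nonneg _) (mul_nonneg h.pos.le (sq_nonneg t))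
  rw [e, sq_add, split _ (deriv (Γ i) s) _ t]
  nlinarith

/-- The small parameters. -/
structure Pa (j θ κ ε : ℝ) : Prop where
  k0 : 0 < κ
  k1 : κ ≤ θ * j⁻¹
  k2 : 4 * (j ^ 2 * κ) ≤ 1
  e0 : 0 < ε
  e1 : 12 * j ^ 3 * ε = κ ^ 2

lemma exists_pa {θ : ℝ} (hj : 0 < j) (hθ : 0 < θ) : ∃ κ ε, Pa j θ κ ε := by
  refine ⟨min (θ * j⁻¹) (4 * j ^ 2)⁻¹, min (θ * j⁻¹) (4 * j ^ 2)⁻¹ ^ 2 / (12 * j ^ 3),
    by positivity, min_le_left _ _, ?_, by positivity, by field_simp⟩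
  have := mul_le_mul_of_nonneg_left (min_le_right (θ * j⁻¹) (4 * j ^ 2)⁻¹)
    (by positivity : 0 ≤ 4 * j ^ 2)
  rwa [mul_inv_cancel₀ (by positivity), mul_assoc] at this

variable {θ κ ε d : ℝ} {cl : Fin N → Fin N} {x y : XN N}

lemma Pa.e2 (p : Pa j θ κ ε) (hj : 1 ≤ j) : 4 * (j ^ 3 * ε) ≤ 1 := by
  have := p.k0
  have a : κ ≤ j ^ 2 * κ := le_mul_of_one_le_left p.k0.le (one_le_pow₀ hj)
  nlinarith [p.e1, p.k2]

lemma Pa.e3 (p : Pa j θ κ ε) (hj : 1 ≤ j) : ε ≤ j⁻¹ := by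
  rw [le_inv_comm₀ p.e0 (by linarith), le_inv_comm₀ (by linarith) p.e0, ← one_div,
    le_div_iff₀ (by linarith)]
  have a : j ≤ j ^ 3 := le_self_pow₀ hj (by norm_num)
  nlinarith [p.e2 hj, p.e0, mul_le_mul_of_nonneg_right a p.e0.le]

lemma ne1 (c : cl x.1 ≠ cl y.1) : x.1 ≠ y.1 := fun e => c (by rw [e])

/-- The chord is almost normal. -/
lemma tang (h : Nv j Γ) (p : Pa j θ κ ε) (H : ∀ x y, cl x.1 ≠ cl y.1 → d ≤ cm Γ x y)
    (c : cl x.1 ≠ cl y.1) (l : cm Γ x y < d + ε) :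
    |rdot (deriv (Γ y.1) y.2) (gp Γ y - gp Γ x)| < κ := by
  have hj := h.pos
  have d0 : 0 ≤ d := by linarith [h.inv_le_cm (ne1 c), p.e3 h.one_le]
  have D1 : cm Γ y x ≤ j := h.cm_le_j y x
  have D2 : d ≤ cm Γ y x := H y x c.symm
  rw [cm_comm] at l
  have q : ∀ t, d ^ 2 ≤ cm Γ y x ^ 2 + 2 * (t * rdot (deriv (Γ y.1) y.2) (gp Γ y - gp Γ x)) +
      3 * (j * t) ^ 2 := fun t =>
    (pow_le_pow_left₀ d0 (H (y.1, y.2 + t) x c.symm) 2).trans (quad h y.1 y.2 t (gp Γ x) D1)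
  have g : cm Γ y x ^ 2 - d ^ 2 ≤ ε * (2 * j) := by
    rw [sq_sub_sq, mul_comm]
    exact mul_le_mul (by linarith) (by linarith) (by linarith) p.e0.le
  obtain ⟨t, t0, ht⟩ : ∃ t : ℝ, 0 < t ∧ 3 * j ^ 2 * t = κ :=
    ⟨κ / (3 * j ^ 2), div_pos p.k0 (by positivity), by field_simp⟩
  have e : 4 * (ε * j) = κ * t := by
    refine mul_left_cancel₀ (by positivity : 3 * j ^ 2 ≠ 0) ?_
    linear_combination p.e1 - κ * ht
  have e2 : 3 * (j * t) ^ 2 = κ * t := by rw [← ht]; ring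
  have k := mul_pos p.k0 t0
  have q1 := q t
  have q2 := q (-t)
  rw [mul_neg, neg_sq] at q2
  rw [abs_lt]
  constructor
  · exact lt_of_mul_lt_mul_left (a := t) (by linarith) t0.le
  · exact lt_of_mul_lt_mul_left (a := t) (by linarith) t0.le

/-- The chord does not meet the curves. -/
lemma free (hD : St_DLP) (h : Nv j Γ) (p : Pa j θ κ ε)
    (H : ∀ x y, cl x.1 ≠ cl y.1 → d ≤ cm Γ x y) (c : Nr0 cl Γ x y) (l : cm Γ x y < d + ε) :
    ∀ z ∈ openSegment ℝ (gp Γ x) (gp Γ y), ∀ a, z ≠ gp Γ a := by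
  rintro z ⟨u, v, u0, v0, uv, hz⟩ a rfl
  have hj := h.pos
  have D0 := h.inv_le_cm (ne1 c.1)
  have D1 : 0 < cm Γ x y := (inv_pos.2 hj).trans_le D0
  have uv' : (u : ℂ) + v = 1 := by exact_mod_cast uv
  simp only [real_smul] at hz
  have e1 : gp Γ a - gp Γ y = u * (gp Γ x - gp Γ y) := by
    linear_combination -hz + gp Γ y * uv'
  have e2 : gp Γ x - gp Γ a = v * (gp Γ x - gp Γ y) := by
    linear_combination hz - gp Γ x * uv'
  have n1 : cm Γ a y = u * cm Γ x y := by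
    rw [cm, e1, norm_mul, norm_real, Real.norm_of_nonneg u0.le, cm]
  have n2 : cm Γ x a = v * cm Γ x y := by
    rw [cm, e2, norm_mul, norm_real, Real.norm_of_nonneg v0.le, cm]
  have s : u * cm Γ x y + v * cm Γ x y = cm Γ x y := by rw [← add_mul, uv, one_mul]
  by_cases k : cl a.1 = cl y.1
  swap
  · have := ((hD j N cl Γ h).2.1 a y k).1
    rw [← c.2] at this
    nlinarith [mul_pos v0 D1]
  have m : cm Γ a y < ε := by linarith [H x a (k ▸ c.1)]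
  by_cases i : a.1 = y.1
  swap
  · linarith [h.inv_le_cm i, p.e3 h.one_le]
  obtain ⟨n, hn⟩ := exists_dc y.2 a.2
  obtain ⟨t, ht, hg⟩ : ∃ t : ℝ, |t| ≤ j * cm Γ a y ∧ Γ y.1 (y.2 + t) = gp Γ a := by
    refine ⟨a.2 + n * (2 * π) - y.2, ?_, ?_⟩
    · rw [abs_sub_comm, hn, dc_comm]
      exact h.le_cm i
    · rw [add_sub_cancel, (h.per y.1).int_mul n a.2, gp, i]
  have ty := tay h y.1 y.2 t
  rw [hg] at ty
  have tg := tang h p H c.1 l
  rw [rd_neg, abs_neg] at tg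
  have sp := split (gp Γ a - gp Γ y) (deriv (Γ y.1) y.2) (gp Γ x - gp Γ y) t
  have r1 : rdot (gp Γ a - gp Γ y) (gp Γ x - gp Γ y) = u * cm Γ x y ^ 2 := by
    rw [e1, cm]
    simp only [Complex.sq_norm, normSq_apply, rdot, mul_re, mul_im, conj_re, conj_im, ofReal_re,
      ofReal_im]
    ring
  have r2 := (le_abs_self _).trans
    (K28.abs_rdot (gp Γ a - gp Γ y - t * deriv (Γ y.1) y.2) (gp Γ x - gp Γ y))
  have r3 : t * rdot (deriv (Γ y.1) y.2) (gp Γ x - gp Γ y) ≤ j * cm Γ a y * κ :=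
    (le_abs_self _).trans (by
      rw [abs_mul]
      exact mul_le_mul ht tg.le (abs_nonneg _) ((abs_nonneg _).trans ht))
  have r4 : t ^ 2 ≤ j * cm Γ a y * (j * ε) := by
    rw [← sq_abs, sq]
    exact mul_le_mul ht (ht.trans (mul_le_mul_of_nonneg_left m.le hj.le)) (abs_nonneg _)
      ((abs_nonneg _).trans ht)
  have r5 : ‖gp Γ a - gp Γ y - t * deriv (Γ y.1) y.2‖ * ‖gp Γ x - gp Γ y‖ ≤
      j * (j * cm Γ a y * (j * ε)) * cm Γ x y :=
    mul_le_mul_of_nonneg_right (ty.trans (mul_le_mul_of_nonneg_left r4 hj.le)) (norm_nonneg _)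
  have a0 : 0 < cm Γ a y := n1 ▸ mul_pos u0 D1
  have r6 : cm Γ x y ≤ j * κ + j ^ 3 * ε * cm Γ x y := by
    refine le_of_mul_le_mul_left ?_ a0
    have : cm Γ a y * cm Γ x y = u * cm Γ x y ^ 2 := by rw [n1]; ring
    linarith
  have r7 : 1 ≤ j * cm Γ x y := h.sep _ _ _ _ (ne1 c.1)
  have r8 := mul_le_mul_of_nonneg_right (p.e2 h.one_le) D1.le
  have r9 : 3 * cm Γ x y ≤ 4 * (j * κ) := by linarith
  nlinarith [mul_le_mul_of_nonneg_left r9 hj.le, p.k2]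

lemma strict (h : Nv j Γ) (p : Pa j θ κ ε) (c : x.1 ≠ y.1)
    (t : |rdot (deriv (Γ y.1) y.2) (gp Γ x - gp Γ y)| < κ)
    (s : 0 ≤ rdot (gn Γ y) (gp Γ x - gp Γ y)) : 0 < rdot (gn Γ y) (gp Γ x - gp Γ y) := by
  refine s.lt_of_ne fun e => ?_
  have hj := h.pos
  have q := pyth (deriv (Γ y.1) y.2) (gp Γ x - gp Γ y)
  rw [show I * deriv (Γ y.1) y.2 = gn Γ y from rfl, ← e, zero_pow two_ne_zero, zero_add] at q
  have a : j⁻¹ * j⁻¹ ≤ ‖deriv (Γ y.1) y.2‖ * ‖gp Γ x - gp Γ y‖ :=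
    mul_le_mul (h.inv_le_d1 _ _) (h.inv_le_cm c) (by positivity) (norm_nonneg _)
  have b : |rdot (deriv (Γ y.1) y.2) (gp Γ x - gp Γ y)| =
      ‖deriv (Γ y.1) y.2‖ * ‖gp Γ x - gp Γ y‖ := by
    rw [← sq_eq_sq₀ (abs_nonneg _) (by positivity), sq_abs, q]
  have k := mul_lt_mul_of_pos_left (a.trans_lt (b ▸ t)) (by positivity : 0 < j ^ 2)
  have : j ^ 2 * (j⁻¹ * j⁻¹) = 1 := by field_simp
  linarith [p.k2]

/-- The chord leaves on the inner side at both ends. -/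
lemma side (hD : St_DLP) (h : Nv j Γ) (hS : SCq Γ) (p : Pa j θ κ ε)
    (H : ∀ x y, cl x.1 ≠ cl y.1 → d ≤ cm Γ x y) (c : Nr0 cl Γ x y) (l : cm Γ x y < d + ε) :
    0 < rdot (gn Γ y) (gp Γ x - gp Γ y) ∧ 0 < rdot (gn Γ x) (gp Γ y - gp Γ x) := by
  have f := free hD h p H c l
  refine ⟨strict h p (ne1 c.1) ?_ (hS y x (ne1 c.1).symm (openSegment_symm ℝ (gp Γ x) _ ▸ f)),
    strict h p (ne1 c.1).symm ?_ (hS x y (ne1 c.1) f)⟩
  · rw [rd_neg, abs_neg]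
    exact tang h p H c.1 l
  · rw [rd_neg, abs_neg]
    exact tang h p H c.1.symm (cm_comm Γ x y ▸ l)

/-- The nearest point is unique at a point of differentiability. -/
lemma uniq (hD : St_DLP) (h : Nv j Γ) (hS : SCq Γ) (p : Pa j θ κ ε)
    (H : ∀ x y, cl x.1 ≠ cl y.1 → d ≤ cm Γ x y) (c : Nr0 cl Γ x y) (l : cm Γ x y < d + ε)
    (df : DifferentiableAt ℝ (fun s => dl cl Γ (y.1, s)) y.2) {a : XN N} (c' : Nr0 cl Γ a y) :
    gp Γ a = gp Γ x := by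
  have e : cm Γ a y = cm Γ x y := c'.2.trans c.2.symm
  have t1 := (hD j N cl Γ h).2.2.2 x y c df
  have t2 := (hD j N cl Γ h).2.2.2 a y c' df
  rw [e, t1, rd_neg, rd_neg _ (gp Γ y) (gp Γ a), neg_inj] at t2
  have s1 := (side hD h hS p H c l).1
  have s2 := (side hD h hS p H c' (e ▸ l)).1
  have q1 := pyth (deriv (Γ y.1) y.2) (gp Γ x - gp Γ y)
  have q2 := pyth (deriv (Γ y.1) y.2) (gp Γ a - gp Γ y)
  rw [show ‖gp Γ a - gp Γ y‖ = ‖gp Γ x - gp Γ y‖ from e, ← q1, t2, add_left_inj] at q2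
  exact sub_left_inj.1 (rd_ext (h.rc.reg y.1 y.2) t2.symm ((sq_eq_sq₀ s2.le s1.le).1 q2))

lemma eg_shift (h : Rc Γ) (a b : XN N) (k m : ℤ)
    (e : Eg θ Γ (a.1, a.2 + k * (2 * π)) (b.1, b.2 + m * (2 * π))) : Eg θ Γ a b := by
  have d1 : ∀ (a : XN N) (k : ℤ), deriv (Γ a.1) (a.2 + k * (2 * π)) = deriv (Γ a.1) a.2 :=
    fun a k => mul_left_cancel₀ I_ne_zero (h.gn_int a k)
  simpa only [Eg, cm, h.gp_int, h.gn_int, d1] using e

lemma wn_lift {r : ℝ} {a : XN N} (w : Wn r x a) :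
    ∃ k : ℤ, a.1 = x.1 ∧ dist (a.2 + k * (2 * π)) x.2 ≤ r := by
  obtain ⟨k, hk⟩ := exists_dc x.2 a.2
  exact ⟨k, w.1, by rw [Real.dist_eq, abs_sub_comm, hk, dc_comm]; exact w.2⟩

/-- The angles in small windows. -/
lemma ang (h : Rc Γ) (a1 : |rdot (deriv (Γ x.1) x.2) (gp Γ x - gp Γ y)| < θ * cm Γ x y)
    (a2 : |rdot (deriv (Γ y.1) y.2) (gp Γ x - gp Γ y)| < θ * cm Γ x y)
    (a3 : 0 < rdot (gn Γ y) (gp Γ x - gp Γ y)) (a4 : 0 < rdot (gn Γ x) (gp Γ y - gp Γ x)) :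
    ∃ r, 0 < r ∧ r ≤ 1 ∧ ∀ a b : XN N, Wn r x a → Wn r y b → Eg θ Γ a b := by
  have cx : Continuous fun q : ℝ × ℝ => ((x.1, q.1) : XN N) := by fun_prop
  have cy : Continuous fun q : ℝ × ℝ => ((y.1, q.2) : XN N) := by fun_prop
  have gx := h.gp_cont.comp cx
  have gy := h.gp_cont.comp cy
  have c0 : Continuous fun q : ℝ × ℝ => θ * cm Γ (x.1, q.1) (y.1, q.2) :=
    continuous_const.mul (gx.sub gy).norm
  have o1 := (isOpen_lt (K28.rdot_cont (h.d1_cont.comp cx) (gx.sub gy)).abs c0).mem_nhds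
    (x := (x.2, y.2)) a1
  have o2 := (isOpen_lt (K28.rdot_cont (h.d1_cont.comp cy) (gx.sub gy)).abs c0).mem_nhds
    (x := (x.2, y.2)) a2
  have o3 := (isOpen_lt continuous_const (K28.rdot_cont (h.gn_cont.comp cy) (gx.sub gy))).mem_nhds
    (x := (x.2, y.2)) a3
  have o4 := (isOpen_lt continuous_const (K28.rdot_cont (h.gn_cont.comp cx) (gy.sub gx))).mem_nhds
    (x := (x.2, y.2)) a4
  obtain ⟨r, r0, hr⟩ := Metric.nhds_basis_closedBall.mem_iff.1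
    (inter_mem o1 (inter_mem o2 (inter_mem o3 o4)))
  refine ⟨min r 1, lt_min r0 one_pos, min_le_right _ _, fun a b wa wb => ?_⟩
  obtain ⟨k, ea, hk⟩ := wn_lift wa
  obtain ⟨m, eb, hm⟩ := wn_lift wb
  refine eg_shift h a b k m ?_
  have := hr (a := (a.2 + k * (2 * π), b.2 + m * (2 * π))) (by
    rw [Metric.mem_closedBall, Prod.dist_eq]
    exact max_le (hk.trans (min_le_left _ _)) (hm.trans (min_le_left _ _)))
  rw [ea, eb]
  exact ⟨this.1.le, this.2.1.le, this.2.2.1.le, this.2.2.2.le⟩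

lemma near_of (h : Rc Γ) {r : ℝ} (r0 : 0 < r) {z : XN N} (e : gp Γ x = gp Γ z) :
    z.1 = x.1 ∧ dc z.2 x.2 < r := by
  obtain ⟨e1, k, e2⟩ := h.inj x z e
  exact ⟨e1.symm, by rw [e2, dc_add_left, dc_self]; exact r0⟩

/-- Thin ellipses meet the curves only in the windows. -/
lemma ell (h : Rc Γ) {D r : ℝ} (r0 : 0 < r) (le : ∀ a, cl a.1 ≠ cl y.1 → D ≤ cm Γ a y)
    (un : ∀ a, cl a.1 ≠ cl y.1 → cm Γ a y = D → gp Γ a = gp Γ x)
    (f : ∀ z ∈ openSegment ℝ (gp Γ x) (gp Γ y), ∀ a, z ≠ gp Γ a) :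
    ∃ δ, 0 < δ ∧ ∀ a z : XN N, cl a.1 ≠ cl y.1 → cm Γ z a + cm Γ z y ≤ D + δ →
      Wn r x z ∨ Wn r y z := by
  have op : ∀ w : XN N, IsOpen {q : XN N × XN N | q.2.1 = w.1 ∧ dc q.2.2 w.2 < r} := fun w =>
    ((isOpen_discrete {w.1}).preimage (f := fun q : XN N × XN N => q.2.1) (by fun_prop)).inter
      (isOpen_lt ((cont_dc w.2).comp (by fun_prop)) continuous_const)
  have cp : IsCompact ((KX N ×ˢ KX N) ∩ ({q : XN N × XN N | cl q.1.1 ≠ cl y.1} ∩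
      ({q : XN N × XN N | q.2.1 = x.1 ∧ dc q.2.2 x.2 < r}ᶜ ∩
        {q : XN N × XN N | q.2.1 = y.1 ∧ dc q.2.2 y.2 < r}ᶜ))) :=
    (cpt_KX.prod cpt_KX).inter_right
      (((isClosed_discrete {i | cl i ≠ cl y.1}).preimage (f := fun q : XN N × XN N => q.1.1)
        (by fun_prop)).inter ((op x).isClosed_compl.inter (op y).isClosed_compl))
  have ct : Continuous fun q : XN N × XN N => cm Γ q.2 q.1 + cm Γ q.2 y :=
    ((h.gp_cont.comp continuous_snd).sub (h.gp_cont.comp continuous_fst)).norm.add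
      ((h.gp_cont.comp continuous_snd).sub continuous_const).norm
  obtain ⟨D', lt, hD'⟩ := cp.exists_forall_le' (a := D) ct.continuousOn (by
    rintro ⟨a, z⟩ ⟨-, c, n1, n2⟩
    have t := cm_triangle Γ a z y
    have l := le a c
    rw [cm_comm Γ a z] at t
    refine (l.trans t).lt_of_ne fun e => ?_
    have ea := un a c (le_antisymm (t.trans e.ge) l)
    have s : gp Γ z ∈ segment ℝ (gp Γ x) (gp Γ y) := by
      rw [mem_segment_iff_wbtw, ← dist_add_dist_eq_iff, ← ea, ← cm_eq_dist, ← cm_eq_dist,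
        ← cm_eq_dist, cm_comm Γ a z]
      exact le_antisymm (e.ge.trans l) t
    rw [← insert_endpoints_openSegment] at s
    rcases s with s | s | s
    · exact n1 (near_of h r0 s.symm)
    · exact n2 (near_of h r0 s.symm)
    · exact f _ s z rfl)
  refine ⟨(D' - D) / 2, by linarith, fun a z c l => ?_⟩
  by_contra n
  rw [not_or] at n
  obtain ⟨k, hk⟩ := red_KX a
  obtain ⟨m, hm⟩ := red_KX z
  have := hD' ((a.1, a.2 + k * (2 * π)), (z.1, z.2 + m * (2 * π))) ⟨⟨hk, hm⟩, c,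
    fun w => n.1 ⟨w.1, (dc_add_left z.2 x.2 m ▸ w.2).le⟩,
    fun w => n.2 ⟨w.1, (dc_add_left z.2 y.2 m ▸ w.2).le⟩⟩
  simp only [cm, h.gp_int] at this l
  linarith

end NNE

open NNE in
theorem st_nne (hD : St_DLP) : St_NNE := by
  intro j N cl Γ d θ h hS hθ H
  obtain ⟨κ, ε, p⟩ := exists_pa h.pos hθ
  refine ⟨d + ε, by linarith [p.e0], fun x y c l => ?_⟩
  obtain ⟨s1, s2⟩ := side hD h hS p H c l
  refine ⟨s1.le, fun df => ?_⟩
  have k : κ ≤ θ * cm Γ x y :=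
    p.k1.trans (mul_le_mul_of_nonneg_left (h.inv_le_cm (ne1 c.1)) hθ.le)
  obtain ⟨r, r0, r1, hr⟩ := ang (θ := θ) h.rc
    ((tang h p H c.1.symm (cm_comm Γ x y ▸ l)).trans_le k)
    (by rw [rd_neg, abs_neg]; exact (tang h p H c.1 l).trans_le k) s1 s2
  obtain ⟨δ, d0, hδ⟩ := ell (cl := cl) h.rc r0 (fun a e => ((hD j N cl Γ h).2.1 a y e).1)
    (fun a e e' => uniq hD h hS p H c l df ⟨e, e'⟩) (free hD h p H c l)
  exact ⟨r, δ, r0, r1, d0, c, hδ, hr⟩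

end Pool.Agent.Lib.IS3
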