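import Pool.Agent.Lib.IS3.Kit
import Pool.Agent.Lib.IS2.B_NCE

/-! Regular disjoint curves have bounded geometry. -/

open scoped ContDiff ComplexConjugate Topology Real
open Complex MeasureTheory Set Filter

noncomputable section

namespace Pool.Agent.Lib.IS3

open Pool.Agent.Lib.ISO Pool.Agent.Lib.IS2

namespace NVE

theorem near {γ : ℝ → ℂ} (hγ : ContDiff ℝ ∞ γ) {c B : ℝ} (hu : ∀ s, c ≤ ‖deriv γ s‖) (hB0 : 0 < B)
    (hB : ∀ s, ‖deriv (deriv γ) s‖ ≤ B) {s t : ℝ} (hd : |s - t| ≤ c / (2 * B)) :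
    c * |s - t| ≤ 2 * ‖γ s - γ t‖ := by
  have d0 : Differentiable ℝ γ := hγ.differentiable (by simp)
  have d1 : Differentiable ℝ (deriv γ) := (contDiff_infty_iff_deriv.1 hγ).2.differentiable (by simp)
  have h1 : ∀ x ∈ uIcc t s, ‖deriv γ x - deriv γ t‖ ≤ c / 2 := fun x hx => by
    have h2 := (convex_univ (𝕜 := ℝ) (E := ℝ)).norm_image_sub_le_of_norm_deriv_le (C := B)
      (fun x _ => d1 x) (fun x _ => hB x) (mem_univ t) (mem_univ x)
    have h3 : ‖x - t‖ ≤ c / (2 * B) := (abs_sub_left_of_mem_uIcc hx).trans hd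
    refine h2.trans ((mul_le_mul_of_nonneg_left h3 hB0.le).trans_eq ?_)
    field_simp
  have h2 := (convex_uIcc t s).norm_image_sub_le_of_norm_hasDerivWithin_le
    (f := fun x : ℝ => γ x - x * deriv γ t) (f' := fun x => deriv γ x - deriv γ t) (C := c / 2)
    (fun x _ => by
      have h3 := (d0 x).hasDerivAt.sub ((hasDerivAt_id x).ofReal_comp.mul_const (deriv γ t))
      simp only [ofReal_one, one_mul, id] at h3
      exact h3.hasDerivWithinAt) h1 left_mem_uIcc right_mem_uIcc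
  have h3 : c * |s - t| ≤ ‖((s - t : ℝ) : ℂ) * deriv γ t‖ := by
    rw [norm_mul, norm_real, Real.norm_eq_abs, mul_comm]
    exact mul_le_mul_of_nonneg_left (hu t) (abs_nonneg _)
  have h4 := norm_sub_le (γ s - γ t) (γ s - s * deriv γ t - (γ t - t * deriv γ t))
  rw [show γ s - γ t - (γ s - s * deriv γ t - (γ t - t * deriv γ t)) =
    ((s - t : ℝ) : ℂ) * deriv γ t by push_cast; ring] at h4
  rw [Real.norm_eq_abs] at h2
  linarith

variable {N : ℕ} {Γ : MC N}

theorem cpt {f : ℝ → ℂ} (h : Continuous f) (hp : Function.Periodic f (2 * π)) :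
    IsCompact (range f) := hp.compact_of_continuous Real.two_pi_pos.ne' h

theorem arc (h : Rc Γ) (i : Fin N) : ∀ᶠ j in atTop, ∀ s t, dc s t ≤ j * ‖Γ i s - Γ i t‖ := by
  obtain ⟨c, hc, h1⟩ := (cpt (contDiff_infty_iff_deriv.1 (h.smooth i)).2.continuous
    (per_deriv' (h.per i))).exists_forall_le' (f := fun z => ‖z‖) (a := 0) (by fun_prop)
    (by rintro _ ⟨s, rfl⟩; exact norm_pos_iff.2 (h.reg i s))
  obtain ⟨B, hB⟩ := NCE.bd_iter (h.smooth i) (h.per i) 2
  have hB2 : ∀ s, ‖deriv (deriv (Γ i)) s‖ ≤ max B 1 := fun s => by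
    have h1 := hB 2 le_rfl s
    rw [iteratedDeriv_succ, iteratedDeriv_one] at h1
    exact h1.trans (le_max_left _ _)
  have hB0 : 0 < max B 1 := lt_max_of_lt_right one_pos
  obtain ⟨m, hm, hf⟩ := NCE.far (h.smooth i).continuous (h.per i)
    (fun s t e => (h.inj (i, s) (i, t) e).2) (d := c / (2 * max B 1)) (by positivity)
  filter_upwards [eventually_ge_atTop (2 / c), eventually_ge_atTop (π / m)] with j j1 j2 s t
  rcases le_total (dc s t) (c / (2 * max B 1)) with h2 | h2
  · obtain ⟨k, hk⟩ := exists_dc s t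
    have h3 := near (h.smooth i) (fun s => h1 _ ⟨s, rfl⟩) hB0 hB2 (hk.trans_le h2)
    rw [hk, (h.per i).int_mul k t] at h3
    refine le_trans ?_ (mul_le_mul_of_nonneg_right j1 (norm_nonneg _))
    rwa [div_mul_eq_mul_div, le_div_iff₀' hc]
  · calc dc s t ≤ π / m * m := by rw [div_mul_cancel₀ _ hm.ne']; exact dc_le_pi s t
      _ ≤ _ := mul_le_mul j2 (hf s t h2) hm.le (le_trans (by positivity) j1)

theorem sep (h : Rc Γ) (i k : Fin N) :
    ∀ᶠ j : ℝ in atTop, ∀ s t, i ≠ k → 1 ≤ j * ‖Γ i s - Γ k t‖ := by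
  by_cases e : i = k
  · exact Eventually.of_forall fun _ _ _ e' => absurd e e'
  obtain ⟨m, hm, h1⟩ := ((cpt (h.smooth i).continuous (h.per i)).prod
    (cpt (h.smooth k).continuous (h.per k))).exists_forall_le' (f := fun z => ‖z.1 - z.2‖) (a := 0)
    (by fun_prop) (by
      rintro ⟨_, _⟩ ⟨⟨s, rfl⟩, t, rfl⟩
      exact norm_pos_iff.2 (sub_ne_zero.2 fun e' => e (h.inj (i, s) (k, t) e').1))
  filter_upwards [eventually_ge_atTop m⁻¹] with j hj s t _
  rw [← inv_mul_cancel₀ hm.ne']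
  exact mul_le_mul hj (h1 (_, _) ⟨⟨s, rfl⟩, t, rfl⟩) hm.le (le_trans (by positivity) hj)

end NVE

open NVE in
theorem st_nve : St_NVE := by
  refine ⟨fun N Γ h => eventually_atTop.1 ?_, fun G h hu => ?_⟩
  · choose B hB using fun i => NCE.bd_iter (h.smooth i) (h.per i) 2
    filter_upwards [eventually_ge_atTop 1, eventually_ge_atTop (N : ℝ),
      eventually_all.2 fun i => eventually_ge_atTop (B i), eventually_all.2 (arc h),
      eventually_all.2 fun i => eventually_all.2 (sep h i),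
      eventually_all.2 fun i => eventually_all.2 fun k => eventually_ge_atTop (B i + B k)]
      with j j1 j2 j3 j4 j5 j6
    refine ⟨j1, j2, h.smooth, h.per, fun i s => ?_, fun i s => ?_, j4, j5, fun i k s t =>
      (norm_sub_le_of_le (hB i 0 (by norm_num) s) (hB k 0 (by norm_num) t)).trans (j6 i k)⟩
    · rw [← iteratedDeriv_one]
      exact (hB i 1 (by norm_num) s).trans (j3 i)
    · have h1 := hB i 2 le_rfl s
      rw [iteratedDeriv_succ, iteratedDeriv_one] at h1
      exact h1.trans (j3 i)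
  · have hp : Function.Periodic G (2 * π) := h.per 0
    have s0 : ContDiff ℝ ∞ G := h.smooth 0
    have s1 : ContDiff ℝ ∞ (deriv G) := (contDiff_infty_iff_deriv.1 s0).2
    have s2 : ContDiff ℝ ∞ (deriv (deriv G)) := (contDiff_infty_iff_deriv.1 s1).2
    have hk : Per (2 * π) (kp G) :=
      ⟨imCLM.contDiff.comp (s2.mul (conjCLE.contDiff.comp s1)), fun s => by
        simp only [kp, per_deriv' hp s, per_deriv' (per_deriv' hp) s]⟩
    obtain ⟨B, hB⟩ := NCE.bd_iter s0 hp 6
    obtain ⟨B', hB'⟩ := NCE.bd_iter hk.smooth hk.per 4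
    refine ⟨hk, eventually_atTop.1 ?_⟩
    filter_upwards [eventually_ge_atTop 1, eventually_ge_atTop B, eventually_ge_atTop B', arc h 0]
      with j j1 j2 j3 j4
    exact ⟨j1, s0, hp, hu, fun k _ hk s => (hB k hk s).trans j2, j4,
      fun i hi s => (hB' i hi s).trans j3⟩

end Pool.Agent.Lib.IS3
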