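import Pool.Agent.Lib.IS3.Kit
import Pool.Agent.Lib.IS3.BlueG
import Pool.Agent.Lib.ISO.Main
import Pool.Agent.Lib.ISO.B_INV

/-! The invariants of two isospectral domains with several boundary curves. -/

open scoped ContDiff ComplexConjugate Topology Real
open Complex MeasureTheory Set Filter

noncomputable section

namespace Pool.Agent.Lib.IS3

open Pool.Agent.Lib.ISO Pool.Agent.Lib.IS2 Pool.Agent.Lib.MP_312682_mp

namespace ONEM

/-- equal traces give equal sums of the invariants -/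
def Ok (m : ℕ) (s : Finset (List ℕ)) (c : List ℕ → ℝ) : Prop :=
  (∀ α ∈ s, wt α = 2 * m + 2 ∧ Tame (m - 1) α) ∧
  ∀ (n n' : ℕ) Ω Ω' (γ : Fin n → ℝ → ℂ) (γ' : Fin n' → ℝ → ℂ) L L' δ δ', Fam Ω γ L δ →
    Fam Ω' γ' L' δ' → (∀ μ, 1 ≤ μ → Ft Ω μ = Ft Ω' μ) →
    ∑ i, Jm m s c (L i) (kap (γ i)) = ∑ i, Jm m s c (L' i) (kap (γ' i))

open INV in
theorem inv (hEXP : ISO.St_EXP) (hCOEF : St_COEF) (hDOM : St_DOM) (m : ℕ) (hm : 2 ≤ m) :
    ∃ s c, Ok m s c := by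
  obtain ⟨N', s, c, hE⟩ := hEXP (6 * m + 40) (by omega)
  obtain ⟨h2, h4⟩ := hCOEF m hm N' s c hE
  have m2 : [m, m] ∈ s := by
    by_contra h
    exact h2 (if_neg h)
  rw [if_pos m2] at h2 h4
  have w2 : wt [m, m] = 2 * m + 2 := by simp [wt]; omega
  have w4 : wt [m - 1, m - 1, 0, 0] = 2 * m + 2 := by simp [wt]; omega
  have ne : [m - 1, m - 1, 0, 0] ≠ [m, m] := by simp
  set t := s.filter fun α => wt α = 2 * m + 2 with ht
  have key : ∀ v : List ℕ → ℝ, ∑ α ∈ t, c α * v α = c [m, m] * (v [m, m] +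
      Sc m * v [m - 1, m - 1, 0, 0] +
      ∑ α ∈ (t.erase [m, m]).erase [m - 1, m - 1, 0, 0], c α / c [m, m] * v α) := by
    intro v
    have a1 : ∑ α ∈ (t.erase [m, m]).erase [m - 1, m - 1, 0, 0], c α * v α =
        c [m, m] * ∑ α ∈ (t.erase [m, m]).erase [m - 1, m - 1, 0, 0], c α / c [m, m] * v α := by
      rw [Finset.mul_sum]
      exact Finset.sum_congr rfl fun α _ => by field_simp
    rw [← Finset.add_sum_erase t _ (Finset.mem_filter.2 ⟨m2, w2⟩), mul_add, mul_add, ← a1,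
      ← mul_assoc, ← h4, add_assoc]
    refine congrArg _ ?_
    by_cases m4 : [m - 1, m - 1, 0, 0] ∈ s
    · rw [if_pos m4, Finset.add_sum_erase _ (fun α => c α * v α)
        (Finset.mem_erase.2 ⟨ne, Finset.mem_filter.2 ⟨m4, w4⟩⟩)]
    · rw [if_neg m4, zero_mul, zero_add, Finset.erase_eq_of_notMem
        (fun h => m4 (Finset.mem_filter.1 (Finset.mem_of_mem_erase h)).1)]
  refine ⟨(t.erase [m, m]).erase [m - 1, m - 1, 0, 0], fun α => c α / c [m, m], fun α hα => ?_, ?_⟩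
  · obtain ⟨a1, hα⟩ := Finset.mem_erase.1 hα
    obtain ⟨a2, hα⟩ := Finset.mem_erase.1 hα
    obtain ⟨a3, a4⟩ := Finset.mem_filter.1 hα
    exact ⟨a4, tame hm a4 (hE.1 α a3).2.1 (hE.1 α a3).2.2 a2 a1⟩
  intro n n' Ω Ω' γ γ' L L' δ δ' F F' hF
  obtain ⟨K, D⟩ := hDOM N' n Ω γ L δ F
  obtain ⟨K', D'⟩ := hDOM N' n' Ω' γ' L' δ' F'
  obtain ⟨C, μ0, b⟩ := hE.2 K
  obtain ⟨C', μ0', b'⟩ := hE.2 K'
  have u := uniq s wt (fun α => c α * mI α γ L - c α * mI α γ' L') (6 * m + 40)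
    (fun α hα => (hE.1 α hα).1) (C + C') (max μ0 μ0') (fun μ a1 a2 => by
      have b1 := abs_le.1 (b n Ω γ L D μ (le_of_max_le_left a1))
      have b2 := abs_le.1 (b' n' Ω' γ' L' D' μ (le_of_max_le_right a1))
      rw [hF μ a2] at b1
      simp only [mul_sub, Finset.sum_sub_distrib]
      rw [abs_le]
      constructor <;> linarith [b1.1, b1.2, b2.1, b2.2]) (2 * m + 2) (by omega)
  rw [Finset.sum_sub_distrib, sub_eq_zero, ← ht, key, key] at u
  have u' := mul_left_cancel₀ h2 u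
  simp only [mI, Finset.mul_sum] at u'
  rw [Finset.sum_comm, Finset.sum_comm (s := (t.erase [m, m]).erase [m - 1, m - 1, 0, 0])] at u'
  simpa only [Jm, Finset.sum_add_distrib] using u'

/-- the invariant is the quadratic and quartic term up to a tame error -/
theorem err (hFOU : ISO.St_FOU) (hTAME : St_TAME) {m : ℕ} (hm : 2 ≤ m) {s : Finset (List ℕ)}
    (c : List ℕ → ℝ) (hs : ∀ α ∈ s, wt α = 2 * m + 2 ∧ Tame (m - 1) α) :
    ∃ C, ∀ k B, Per (2 * π) k → 1 ≤ B → An (fc k) ≤ B →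
      |Jm m s c (2 * π) k - 2 * π * Iv m (fc k)| ≤ C * B ^ (2 * m + 2) * Tm (m - 1) (fc k) := by
  have h1 : ∀ α, ∃ C, 0 ≤ C ∧ (α ∈ s → ∀ k B, Per (2 * π) k → 1 ≤ B →
      An (fc k) ≤ B → |mint (2 * π) α k| ≤ C * B ^ α.length * Tm (m - 1) (fc k)) := by
    intro α
    by_cases h : α ∈ s
    · obtain ⟨C, h0, h2⟩ := hTAME (m - 1) α (by omega) (hs α h).2
      exact ⟨C, h0, fun _ => h2⟩
    · exact ⟨0, le_rfl, fun a => (h a).elim⟩
  choose CT h0 hT using h1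
  refine ⟨∑ α ∈ s, |c α| * CT α, fun k B hk hB a => ?_⟩
  obtain ⟨-, f1, f2, -⟩ := hFOU k hk
  have e : Jm m s c (2 * π) k - 2 * π * Iv m (fc k) = ∑ α ∈ s, c α * mint (2 * π) α k := by
    rw [Jm, f1, f2, Iv]; ring
  rw [e, Finset.sum_mul, Finset.sum_mul]
  refine (Finset.abs_sum_le_sum_abs _ _).trans (Finset.sum_le_sum fun α hα => ?_)
  have h3 : B ^ α.length ≤ B ^ (2 * m + 2) :=
    pow_le_pow_right₀ hB (by have := (hs α hα).1; unfold wt at this; omega)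
  rw [abs_mul, mul_assoc, mul_assoc]
  refine mul_le_mul_of_nonneg_left ((hT α hα k B hk hB a).trans ?_) (abs_nonneg _)
  rw [mul_assoc]
  exact mul_le_mul_of_nonneg_left (mul_le_mul_of_nonneg_right h3 (Main.Tm_nonneg _ _)) (h0 _)

theorem kap_sc {l : ℝ} (hl : 0 < l) {G : ℝ → ℂ} (hG : ContDiff ℝ ∞ G) :
    kap (fun s => l * G (s / l)) = fun s => 1 * kp G (1 * s / l) / l := by
  have g1 := contDiff_infty_iff_deriv.1 hG
  have g2 := contDiff_infty_iff_deriv.1 g1.2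
  have l0 : (l : ℂ) ≠ 0 := ofReal_ne_zero.2 hl.ne'
  have d : ∀ s, HasDerivAt (fun s : ℝ => s / l) (1 / l) s := fun s => (hasDerivAt_id s).div_const l
  have e1 : deriv (fun s : ℝ => l * G (s / l)) = fun s => deriv G (s / l) := funext fun s => by
    have := (((g1.1 (s / l)).hasDerivAt.scomp s (d s)).const_mul (l : ℂ)).deriv
    refine Eq.trans this ?_
    rw [real_smul]
    push_cast
    field_simp
  have e2 : ∀ s, deriv (fun s : ℝ => deriv G (s / l)) s = (1 / l : ℝ) * deriv (deriv G) (s / l) :=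
    fun s => by
      have := ((g2.1 (s / l)).hasDerivAt.scomp s (d s)).deriv
      exact this
  funext s
  rw [kap, e1, e2, mul_assoc, im_ofReal_mul, one_mul, one_mul, kp]
  ring

/-- the weighted sum of the invariants -/
theorem side (hSCL : ISO.St_SCL) {m N : ℕ} (hm : 2 ≤ m) {s : Finset (List ℕ)} {c : List ℕ → ℝ}
    (hs : ∀ α ∈ s, wt α = 2 * m + 2) {C B : ℝ} {l : Fin N → ℝ} {G : MC N} (hl : ∀ i, 0 < l i)
    (hG : ∀ i, ContDiff ℝ ∞ (G i)) (hp : ∀ i, Per (2 * π) (kp (G i)))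
    (h : ∀ i, |Jm m s c (2 * π) (kp (G i)) - 2 * π * Iv m (fc (kp (G i)))| ≤
      C * B ^ (2 * m + 2) * Tm (m - 1) (fc (kp (G i)))) :
    |∑ i, Jm m s c (2 * π * l i) (kap fun t => l i * G i (t / l i)) -
      2 * π * IvM m l fun i => fc (kp (G i))| ≤
      C * B ^ (2 * m + 2) * TmM m l fun i => fc (kp (G i)) := by
  rw [IvM, TmM, Finset.mul_sum, Finset.mul_sum, ← Finset.sum_sub_distrib]
  refine (Finset.abs_sum_le_sum_abs _ _).trans (Finset.sum_le_sum fun i _ => ?_)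
  have l0 := hl i
  have e : l i / l i ^ (2 * m + 2) * Jm m s c (2 * π) (kp (G i)) -
      2 * π * (Iv m (fc (kp (G i))) / l i ^ (2 * m + 1)) =
      (Jm m s c (2 * π) (kp (G i)) - 2 * π * Iv m (fc (kp (G i)))) / l i ^ (2 * m + 1) := by
    field_simp
    ring
  rw [kap_sc l0 (hG i), Main.Jm_scl hSCL hm c hs (Or.inl rfl) l0 (hp i), e, abs_div,
    abs_of_pos (pow_pos l0 _), ← mul_div_assoc]
  exact div_le_div_of_nonneg_right (h i) (pow_pos l0 _).le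

end ONEM

open ONEM in
theorem st_onem (hEXP : ISO.St_EXP) (hCOEF : St_COEF) (hDOM : St_DOM) (hSCL : ISO.St_SCL)
    (hTAME : St_TAME) (hFOU : ISO.St_FOU) (hNCM : St_NCM) : St_ONEM := by
  have h1 : ∀ m, ∃ (s : Finset (List ℕ)) (c : List ℕ → ℝ) (C : ℝ), 2 ≤ m → Ok m s c ∧
      ∀ k B, Per (2 * π) k → 1 ≤ B → An (fc k) ≤ B → |Jm m s c (2 * π) k - 2 * π * Iv m (fc k)| ≤
        C * B ^ (2 * m + 2) * Tm (m - 1) (fc k) := fun m => by
    by_cases hm : 2 ≤ m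
    · obtain ⟨s, c, h⟩ := inv hEXP hCOEF hDOM m hm
      obtain ⟨C, hC⟩ := err hFOU hTAME hm c h.1
      exact ⟨s, c, C, fun _ => ⟨h, hC⟩⟩
    · exact ⟨∅, 0, 0, fun h => (hm h).elim⟩
  choose s c C hsc using h1
  refine ⟨C, fun N N' Ω Ω' l l' G G' φ φ' g g' hI => ?_⟩
  obtain ⟨δ, F1, -⟩ := Geo.fam g.2
  obtain ⟨δ', F2, -⟩ := Geo.fam g'.2
  obtain ⟨C1, t1⟩ := trace_asym F1
  obtain ⟨C2, t2⟩ := trace_asym F2
  obtain ⟨c1, -, l1⟩ := HL_GO g.2.bdd
  obtain ⟨c2, -, l2⟩ := HL_GO g'.2.bdd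
  have eq : ∀ μ : ℝ, 1 ≤ μ → hsq (GO μ Ω) = hsq (GO μ Ω') := fun μ hμ =>
    hsq_GO_eq (by positivity) (l1 _ hμ).ne_top (l2 _ hμ).ne_top (CC_congr hI.2.2)
  obtain ⟨eA, eL, -, -⟩ := tr4_unique t1 (by
    filter_upwards [t2, eventually_ge_atTop 1] with τ e t
    rwa [eq _ (one_le_pow₀ (n := 6) t)])
  rw [← Finset.mul_sum, ← Finset.mul_sum] at eL
  refine ⟨eA, eq, mul_left_cancel₀ Real.two_pi_pos.ne' eL, fun B hB a1 a2 m hm => ?_⟩
  obtain ⟨j, hj⟩ := hNCM N Ω l G φ g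
  obtain ⟨j', hj'⟩ := hNCM N' Ω' l' G' φ' g'
  have S := hj j le_rfl
  have S' := hj' j' le_rfl
  obtain ⟨ok, hC⟩ := hsc m hm
  have hJ := ok.2 _ _ _ _ _ _ _ _ _ _ F1 F2 fun μ hμ => by rw [Ft, Ft, eq μ hμ, eA]
  have b1 := side hSCL hm (fun α h => (ok.1 α h).1) g.1 (fun i => (S.ns i).nc.smooth) S.cl.per
    fun i => hC _ B (S.cl.per i) hB (a1 i)
  have b2 := side hSCL hm (fun α h => (ok.1 α h).1) g'.1 (fun i => (S'.ns i).nc.smooth) S'.cl.per
    fun i => hC _ B (S'.cl.per i) hB (a2 i)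
  rw [hJ] at b1
  have h5 : |2 * π * ((IvM m l fun i => fc (kp (G i))) - IvM m l' fun i => fc (kp (G' i)))| ≤
      C m * B ^ (2 * m + 2) *
        ((TmM m l fun i => fc (kp (G i))) + TmM m l' fun i => fc (kp (G' i))) := by
    have b1 := abs_le.1 b1
    have b2 := abs_le.1 b2
    rw [abs_le]
    constructor <;> linarith [b1.1, b1.2, b2.1, b2.2]
  refine le_trans ?_ h5
  rw [abs_mul, abs_of_pos Real.two_pi_pos]
  exact le_mul_of_one_le_left (abs_nonneg _) (by linarith [Real.pi_gt_three])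

end Pool.Agent.Lib.IS3
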