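import Pool.Agent.Lib.IS3.B_NNE

/-! Row P3A: the two distance functions do not agree on an interval. -/

open scoped ContDiff ComplexConjugate Topology Real
open Complex MeasureTheory Set Filter

noncomputable section

namespace Pool.Agent.Lib.IS3

open Pool.Agent.Lib.ISO Pool.Agent.Lib.IS2

namespace P3A

variable {N : ℕ} {j : ℝ} {Γ : MC N} {cl : Fin N → Fin N} {x y : XN N}

lemma same {T V W : ℂ} (hT : T ≠ 0) (h1 : rdot T V = rdot T W) (h2 : ‖V‖ = ‖W‖)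
    (s1 : 0 ≤ rdot (I * T) V) (s2 : 0 ≤ rdot (I * T) W) : V = W := by
  have q1 := NNE.pyth T V
  have q2 := NNE.pyth T W
  rw [← h2, ← q1, h1, add_left_inj] at q2
  exact NNE.rd_ext hT h1 ((sq_eq_sq₀ s2 s1).1 q2).symm

lemma line {T V : ℂ} (hT : T ≠ 0) (h : rdot T V = 0) : ∃ t : ℝ, V = t * (I * T) := by
  have n : T.re ^ 2 + T.im ^ 2 ≠ 0 := fun e => hT (by
    have := normSq_apply T
    exact normSq_eq_zero.1 (by linarith))
  obtain ⟨t, ht⟩ : ∃ t : ℝ, t * (T.re ^ 2 + T.im ^ 2) = rdot (I * T) V :=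
    ⟨_, div_mul_cancel₀ _ n⟩
  refine ⟨t, NNE.rd_ext hT (h.trans ?_) (ht.symm.trans ?_)⟩ <;>
    simp only [rdot, mul_re, mul_im, conj_re, conj_im, I_re, I_im, ofReal_re, ofReal_im] <;> ring

lemma rd_real (c : ℝ) (T V : ℂ) : rdot (c * T) V = c * rdot T V := by
  simp only [rdot, mul_re, mul_im, conj_re, conj_im, ofReal_re, ofReal_im]
  ring

/-- The chord is normal at the nearest point. -/
lemma orth (hD : St_DLP) (h : Nv j Γ) (c : Nr0 cl Γ x y) :
    ∃ t : ℝ, gp Γ y = gp Γ x + t * gn Γ x := by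
  have hj := h.pos
  have q : ∀ t, 0 ≤ 2 * (t * rdot (deriv (Γ x.1) x.2) (gp Γ x - gp Γ y)) + 3 * (j * t) ^ 2 :=
    fun t => by
    have a := ((hD j N cl Γ h).2.1 (x.1, x.2 + t) y c.1).1
    rw [← c.2] at a
    have b := (pow_le_pow_left₀ (cm_nonneg Γ x y) a 2).trans
      (NNE.quad h x.1 x.2 t (gp Γ y) (h.cm_le_j x y))
    change _ ≤ cm Γ x y ^ 2 + 2 * (t * rdot _ (gp Γ x - gp Γ y)) + _ at b
    linarith
  obtain ⟨t, ht⟩ : ∃ t : ℝ, 3 * j ^ 2 * t = -rdot (deriv (Γ x.1) x.2) (gp Γ x - gp Γ y) :=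
    ⟨_, mul_div_cancel₀ _ (by positivity)⟩
  have q1 := q t
  have t0 : (j * t) ^ 2 ≤ 0 := by
    rw [← neg_eq_iff_eq_neg] at ht
    rw [← ht] at q1
    linarith
  have t1 : t = 0 := (mul_eq_zero.1 (pow_eq_zero_iff two_ne_zero |>.1
    (le_antisymm t0 (sq_nonneg _)))).resolve_left hj.ne'
  rw [t1, mul_zero, ← NNE.rd_neg] at ht
  obtain ⟨u, hu⟩ := line (h.rc.reg x.1 x.2) ht.symm
  exact ⟨u, by rw [← sub_eq_iff_eq_add']; exact hu⟩

lemma ae_diff (hD : St_DLP) (h : Nv j Γ) (k : Fin N) {a b : ℝ} (ab : a < b) :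
    ¬{s | s ∈ Ioo a b ∧ DifferentiableAt ℝ (fun s => dl cl Γ (k, s)) s}.Countable := by
  intro c
  have L : LipschitzWith ⟨j, h.pos.le⟩ fun s => dl cl Γ (k, s) :=
    LipschitzWith.of_dist_le_mul fun s t => ((hD j N cl Γ h).1 k s t).trans
      (mul_le_mul_of_nonneg_left (dc_le_abs s t) h.pos.le)
  have z : volume (Ioo a b) = 0 :=
    measure_mono_null (t := {s | s ∈ Ioo a b ∧ DifferentiableAt ℝ (fun s => dl cl Γ (k, s)) s} ∪
      {s | ¬DifferentiableAt ℝ (fun s => dl cl Γ (k, s)) s})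
      (fun s hs => (em _).imp (fun d => ⟨hs, d⟩) id)
      (measure_union_null (c.measure_zero _) (ae_iff.1 (L.ae_differentiableAt (μ := volume))))
  rw [Real.volume_Ioo, ENNReal.ofReal_eq_zero] at z
  linarith

lemma fib (h : Rc Γ) {C : Set ℂ} (hC : C.Countable) {M : ℂ → ℂ} (hM : Function.Injective M) :
    {x : XN N | M (gp Γ x) ∈ C}.Countable := by
  refine (hC.biUnion (t := fun c _ => {x : XN N | M (gp Γ x) = c}) fun c _ => ?_).mono
    fun x hx => mem_iUnion₂.2 ⟨M (gp Γ x), hx, rfl⟩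
  rcases {x : XN N | M (gp Γ x) = c}.eq_empty_or_nonempty with e | ⟨u, hu⟩
  · rw [e]
    exact countable_empty
  · refine (countable_range fun m : ℤ => ((u.1, u.2 + m * (2 * π)) : XN N)).mono fun x hx => ?_
    obtain ⟨e1, m, e2⟩ := h.inj u x (hM (hu.trans hx.symm))
    exact ⟨m, Prod.ext e1 e2.symm⟩

/-- The nearest points correspond under the motion. -/
lemma corr (hD : St_DLP) {r : Fin N → Bool} {P : Fin N → ℂ × ℂ} (h : Nv j Γ)
    (h' : Nv j (actm r P Γ)) (hP : ∀ i, ‖(P i).1‖ = 1) {k : Fin N} {s : ℝ} {x' : XN N}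
    (e : ∀ᶠ u in 𝓝 s, dl cl Γ (k, u) = dl cl (actm r P Γ) (k, fl (r k) u))
    (df : DifferentiableAt ℝ (fun s => dl cl Γ (k, s)) s) (c : Nr0 cl Γ x (k, s))
    (c' : Nr0 cl (actm r P Γ) x' (k, fl (r k) s))
    (s1 : 0 ≤ rdot (gn Γ (k, s)) (gp Γ x - gp Γ (k, s)))
    (s2 : 0 ≤ rdot (gn (actm r P Γ) (k, fl (r k) s))
      (gp (actm r P Γ) x' - gp (actm r P Γ) (k, fl (r k) s))) :
    gp (actm r P Γ) x' = mo (r k) (P k) (gp Γ x) := by
  have d' : HasDerivAt (fun u => dl cl (actm r P Γ) (k, u))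
      (deriv (fun s => dl cl Γ (k, s)) s * sg (r k)) (fl (r k) s) := by
    have a := df.hasDerivAt
    rw [← fl_fl (r k) s] at a e
    refine (by simpa only [fl_fl] using a.comp _ (hd_fl (r k) (fl (r k) s)) :
      HasDerivAt ((fun s => dl cl Γ (k, s)) ∘ fl (r k)) _ _).congr_of_eventuallyEq ?_
    filter_upwards [(hd_fl (r k) (fl (r k) s)).continuousAt.eventually e] with u hu
    simpa only [fl_fl, Function.comp_apply] using hu.symm
  have t1 := (hD j N cl Γ h).2.2.2 x (k, s) c df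
  have t2 := (hD j N cl _ h').2.2.2 x' (k, fl (r k) s) c' d'.differentiableAt
  have ed : cm (actm r P Γ) x' (k, fl (r k) s) = cm Γ x (k, s) :=
    c'.2.trans (e.self_of_nhds.symm.trans c.2.symm)
  have gy : gp (actm r P Γ) (k, fl (r k) s) = mo (r k) (P k) (gp Γ (k, s)) := gp_actm r P Γ (k, s)
  have ny : gn (actm r P Γ) (k, fl (r k) s) = ml (r k) (P k).1 (gn Γ (k, s)) :=
    gn_actm r P h.rc.diff (k, s)
  have ty : deriv (actm r P Γ k) (fl (r k) s) = sg (r k) * ml (r k) (P k).1 (deriv (Γ k) s) := by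
    have := deriv_act (r k) (P k) (h.rc.diff k) (fl (r k) s)
    rwa [fl_fl] at this
  refine sub_left_inj.1 (same (h'.rc.reg k (fl (r k) s)) ?_ ?_ s2 ?_ :
    _ - gp (actm r P Γ) (k, fl (r k) s) = _ - _)
  · rw [NNE.rd_neg, ← t2, d'.deriv, ed, gy, mo_sub, ty, rd_real, rdot_ml _ (hP k), NNE.rd_neg,
      ← t1]
    ring
  · rw [gy, mo_sub, norm_ml, hP, one_mul, ← gy]
    exact ed
  · change 0 ≤ rdot (gn (actm r P Γ) (k, fl (r k) s)) _
    rwa [ny, gy, mo_sub, rdot_ml _ (hP k)]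

end P3A

open P3A in
theorem st_p3a (hD : St_DLP) (hJ : St_JLM) : St_P3A := by
  intro j N l G r p cl k a b g g' hp hc ⟨i0, hi⟩ ab H
  have h := g.sd.nv
  have h' := g'.sd.nv
  rw [scm_actm] at h' H
  have hP : ∀ i, ‖(pl l p i).1‖ = 1 := hp
  obtain ⟨J1, J2⟩ := hJ j N l G g
  have cC : (⋃ i, ⋃ i' : {i' // cl i' ≠ cl k}, range (act (r k) (pl l p k) (scm l G i)) ∩
      range (act (r i') (pl l p i') (scm l G i'))).Countable :=
    countable_iUnion fun i => countable_iUnion fun i' => by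
      by_contra n
      obtain ⟨-, e1, e2⟩ := J2 i i' _ _ _ _ (hP k) (hP i') n
      exact i'.2 ((hc _ _).2 ⟨e1.symm, e2.symm⟩)
  have inj : Function.Injective (mo (r k) (pl l p k)) := fun z w e => by
    have := norm_ml (r k) (pl l p k).1 (z - w)
    rw [← mo_sub, e, sub_self, norm_zero, hP, one_mul] at this
    exact sub_eq_zero.1 (norm_eq_zero.1 this.symm)
  refine ae_diff (cl := cl) hD h k ab (((fib h.rc cC inj).biUnion fun x _ =>
    J1 k (gp (scm l G) x) (gn (scm l G) x)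
      (norm_pos_iff.1 ((inv_pos.2 h.pos).trans_le (h.le_gn x)))).mono ?_)
  rintro s ⟨hs, df⟩
  obtain ⟨-, -, -, x, c⟩ := (hD j N cl _ h).2.1 (i0, 0) (k, s) hi
  obtain ⟨-, -, -, x', c'⟩ := (hD j N cl _ h').2.1 (i0, 0) (k, fl (r k) s) hi
  have e := corr hD h h' hP
    (eventually_of_mem (isOpen_Ioo.mem_nhds hs) fun u hu => (H u hu).1) df c c'
    ((H s hs).2.1 x c) ((H s hs).2.2 x' c')
  refine mem_iUnion₂.2 ⟨x, mem_iUnion₂.2 ⟨x.1, ⟨x'.1, c'.1⟩, ⟨fl (r k) x.2, ?_⟩, x'.2, e⟩,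
    orth hD h c⟩
  simp only [act, fl_fl, gp]

end Pool.Agent.Lib.IS3
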