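import Pool.Agent.Lib.IS3.Kit

/-! Project is3, row P4: the first variation has large rank. -/

open scoped ContDiff Topology Real
open Set Filter

noncomputable section

namespace Pool.Agent.Lib.IS3

open Pool.Agent.Lib.ISO Pool.Agent.Lib.IS2

namespace P4

theorem small (K : ℝ) (n : ℕ) {b ε : ℝ} (hb : 0 < b) (hε : 0 < ε) :
    ∀ᶠ x : ℝ in atTop, K * (x ^ n * Real.exp (-b * x)) < ε := by
  have h := (tendsto_rpow_mul_exp_neg_mul_atTop_nhds_zero n b hb).const_mul K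
  simp only [Real.rpow_natCast, mul_zero] at h
  exact h.eventually (gt_mem_nhds hε)

theorem det_ne {m : ℕ} (B : Matrix (Fin (m + 1)) (Fin (m + 1)) ℝ) {x y z : ℝ}
    (h0 : x ≤ |B 0 0|) (h1 : ∀ b : Fin m, |B 0 b.succ| ≤ y) (h2 : ∀ (a : Fin m) b, |B a.succ b| ≤ z)
    (h : m * (y * (m.factorial * z ^ m)) < x * |(B.submatrix Fin.succ Fin.succ).det|) :
    B.det ≠ 0 := by
  intro hd
  rw [Matrix.det_succ_row_zero, Fin.sum_univ_succ, Fin.val_zero, pow_zero, one_mul,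
    Fin.succAbove_zero, add_eq_zero_iff_eq_neg] at hd
  have h3 : |∑ b : Fin m, (-1) ^ (b.succ : ℕ) * B 0 b.succ *
      (B.submatrix Fin.succ b.succ.succAbove).det| ≤ m * (y * (m.factorial * z ^ m)) := by
    refine (Finset.abs_sum_le_sum_abs _ _).trans ?_
    refine (Finset.sum_le_card_nsmul _ _ (y * (m.factorial * z ^ m)) fun b _ => ?_).trans_eq (by simp)
    rw [abs_mul, abs_mul, abs_pow, abs_neg, abs_one, one_pow, one_mul]
    refine mul_le_mul (h1 b) ?_ (abs_nonneg _) ((abs_nonneg _).trans (h1 b))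
    simpa using Matrix.det_le (A := B.submatrix Fin.succ b.succ.succAbove)
      (abv := AbsoluteValue.abs) (x := z) fun i j => h2 i _
  have h4 := congrArg abs hd
  rw [abs_neg, abs_mul] at h4
  have h5 := mul_le_mul_of_nonneg_right h0 (abs_nonneg (B.submatrix Fin.succ Fin.succ).det)
  linarith

theorem abstr {T : Type} (A : ℝ → T → ℝ) (c : ℝ → T → Prop) (d μ1 : ℝ)
    (h1 : ∀ ν, μ1 ≤ ν → ∃ C, ∀ μ, 1 ≤ μ → ∀ t, c μ t → |A ν t| ≤ C * μ ^ 2)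
    (h2 : ∀ α, d < α → ∃ D β, D < α ∧ d < β ∧ ∀ᶠ μ in atTop, ∃ t, c μ t ∧
      Real.exp (-(2 * μ * D)) / (2 * μ ^ 2) ≤ |A μ t| ∧
      ∀ η > 0, ∀ᶠ ν in atTop, |A ν t| ≤ 2 * Real.exp (-(2 * ν * β) + η * ν)) (m : ℕ) :
    ∃ (μ : Fin m → ℕ) (t : Fin m → T), (∀ a, μ1 ≤ μ a) ∧ (∀ b, ∃ ν, c ν (t b)) ∧
      (Matrix.of fun a b => A (μ a) (t b)).det ≠ 0 ∧ ∃ α, d < α ∧
      ∀ η > 0, ∀ᶠ ν in atTop, ∀ b, |A ν (t b)| ≤ 2 * Real.exp (-(2 * ν * α) + η * ν) := by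
  induction m with
  | zero =>
    exact ⟨Fin.elim0, Fin.elim0, fun a => a.elim0, fun a => a.elim0, by simp, d + 1, lt_add_one d,
      fun η _ => Eventually.of_forall fun ν b => b.elim0⟩
  | succ m ih =>
    obtain ⟨μ, t, hμ, ht, hd, α, hα, hdec⟩ := ih
    obtain ⟨D, β, hD, hβ, hev⟩ := h2 α hα
    choose C hC using fun a => h1 (μ a) (hμ a)
    obtain ⟨K, hK⟩ := (Set.finite_range fun p : Fin m × Fin m => |A (μ p.1) (t p.2)|).bddAbove
    obtain ⟨K', hK'⟩ := (Set.finite_range C).bddAbove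
    have hb := sub_pos.2 hD
    obtain ⟨ν, ⟨⟨⟨s, hs, hlow, hs'⟩, e1⟩, e2⟩, e3⟩ := (tendsto_natCast_atTop_atTop (R := ℝ)).eventually
      (((hev.and (hdec _ hb)).and (small (m * (4 * (m.factorial * max (max K K') 0 ^ m)))
        (2 * m + 2) hb (abs_pos.2 hd))).and (eventually_ge_atTop (max μ1 1))) |>.exists
    have n1 : (1 : ℝ) ≤ ν := (le_max_right _ _).trans e3
    have n2 : (1 : ℝ) ≤ (ν : ℝ) ^ 2 := one_le_pow₀ n1
    refine ⟨Fin.cons ν μ, Fin.cons s t, Fin.cases ((le_max_left _ _).trans e3) hμ,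
      Fin.cases ⟨_, hs⟩ ht, ?_, min α β, lt_min hα hβ, fun η hη => ?_⟩
    · refine det_ne _ (z := max (max K K') 0 * (ν : ℝ) ^ 2) hlow e1 (fun a b => ?_) ?_
      · refine Fin.cases ?_ (fun b => ?_) b
        · exact (hC a ν n1 s hs).trans (mul_le_mul_of_nonneg_right
            ((hK' ⟨a, rfl⟩).trans ((le_max_right _ _).trans (le_max_left _ _))) (by positivity))
        · exact ((hK ⟨(a, b), rfl⟩).trans ((le_max_left _ _).trans (le_max_left _ _))).trans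
            (le_mul_of_one_le_right (le_max_right _ _) n2)
      · have h3 := mul_lt_mul_of_pos_left e2
          (show 0 < Real.exp (-(2 * ν * D)) / (2 * (ν : ℝ) ^ 2) by positivity)
        refine lt_of_eq_of_lt ?_ h3
        rw [show -(2 * ν * α) + (α - D) * ν = -(2 * ν * D) + -(α - D) * ν by ring, Real.exp_add]
        field_simp
        ring
    · filter_upwards [hdec η hη, hs' η hη, eventually_ge_atTop 0] with x h3 h4 h5 b
      have h6 := mul_le_mul_of_nonneg_left (min_le_left α β) h5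
      have h7 := mul_le_mul_of_nonneg_left (min_le_right α β) h5
      refine Fin.cases (h4.trans ?_) (fun b => (h3 b).trans ?_) b <;>
        exact mul_le_mul_of_nonneg_left (Real.exp_le_exp.2 (by linarith)) zero_le_two

theorem tb_fl {μ e α : ℝ} {ρ : ℝ → ℝ} (h : Tb μ e α ρ) (b : Bool) :
    Tb μ e (fl b α) fun s => ρ (fl b s) := by
  refine ⟨Per.fl h.per b, fun s hs => h.zero _ (by rwa [← dc_fl b, fl_fl]), fun s => h.b0 _, ?_, ?_⟩
  · cases b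
    · exact h.b1
    · intro s
      simpa only [fl, if_true, deriv_comp_neg, abs_neg] using h.b1 (-s)
  · cases b
    · exact h.b2
    · intro s
      have e1 : (deriv fun s => ρ (-s)) = fun s => -deriv ρ (-s) := funext (deriv_comp_neg ρ)
      simpa only [fl, if_true, e1, deriv.fun_neg, deriv_comp_neg, abs_neg] using h.b2 (-s)

theorem tb_mono {μ ν e α : ℝ} {ρ : ℝ → ℝ} (h : Tb μ e α ρ) (h0 : 0 ≤ μ) (hν : μ ≤ ν) :
    Tb ν e α ρ :=
  ⟨h.per, h.zero, h.b0, fun s => (h.b1 s).trans (pow_le_pow_left₀ h0 hν 2),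
    fun s => (h.b2 s).trans (pow_le_pow_left₀ h0 hν 2)⟩

variable {N : ℕ} {cl : Fin N → Fin N} {Γ Γ' : MC N} {j : ℝ}

theorem core (hPUX : St_PUX) (h : Nv j Γ) (h' : Nv j Γ') {y : XN N} (b : Bool) {d : ℝ}
    (hd : d < dl cl Γ y) (hD : dl cl Γ y < dl cl Γ' (y.1, fl b y.2))
    (hL : ∀ e > 0, ∃ μ0, ∀ μ, μ0 ≤ μ → ∃ ρ, Tb μ e y.2 ρ ∧
      Real.exp (-(2 * μ * dl cl Γ y)) / μ ^ 2 ≤ DX cl μ Γ y.1 ρ) :
    ∃ β, d < β ∧ ∀ᶠ μ in atTop, ∃ ρ e, Tb μ e y.2 ρ ∧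
      Real.exp (-(2 * μ * dl cl Γ y)) / (2 * μ ^ 2) ≤
        |DX cl μ Γ y.1 ρ - DX cl μ Γ' y.1 fun s => ρ (fl b s)| ∧
      ∀ η > 0, ∀ᶠ ν in atTop, |DX cl ν Γ y.1 ρ - DX cl ν Γ' y.1 fun s => ρ (fl b s)| ≤
        2 * Real.exp (-(2 * ν * β) + η * ν) := by
  set D := dl cl Γ y
  set D' := dl cl Γ' (y.1, fl b y.2) with hD'
  have hj := h.pos
  have hx := half_pos (lt_min (sub_pos.2 hd) (sub_pos.2 hD))
  have x1 := min_le_left (D - d) (D' - D)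
  have x2 := min_le_right (D - d) (D' - D)
  set x := min (D - d) (D' - D) / 2 with hxd
  have hje : j * (x / j) = x := mul_div_cancel₀ x hj.ne'
  obtain ⟨μ0, h0⟩ := hL (x / j) (div_pos hx hj)
  obtain ⟨μ2, h2⟩ := (hPUX j N Γ' h').2 x hx
  refine ⟨D - x, by linarith, ?_⟩
  filter_upwards [eventually_ge_atTop μ0, eventually_ge_atTop μ2, eventually_gt_atTop 0,
    small 2 2 hx one_pos] with μ m0 m2 m3 m4
  obtain ⟨ρ, hρ, hlow⟩ := h0 μ m0
  refine ⟨ρ, _, hρ, ?_, fun η hη => ?_⟩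
  · have h3 := h2 μ m2 cl (y.1, fl b y.2) _ _ (tb_fl hρ b)
    rw [hje, ← hD'] at h3
    have h4 : Real.exp (-(2 * μ * (D' - x)) + x * μ) ≤
        Real.exp (-(2 * μ * D)) * Real.exp (-x * μ) := by
      rw [← Real.exp_add]
      exact Real.exp_le_exp.2 (by nlinarith)
    have h5 : Real.exp (-(2 * μ * D)) * Real.exp (-x * μ) ≤
        Real.exp (-(2 * μ * D)) / (2 * μ ^ 2) := by
      rw [div_eq_mul_one_div]
      refine mul_le_mul_of_nonneg_left ?_ (Real.exp_pos _).le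
      rw [le_div_iff₀ (by positivity)]
      linarith
    have h6 : Real.exp (-(2 * μ * D)) / μ ^ 2 = 2 * (Real.exp (-(2 * μ * D)) / (2 * μ ^ 2)) := by
      field_simp
    have h7 := (abs_le.1 h3).2
    exact le_trans (by linarith) (le_abs_self _)
  · obtain ⟨ν1, k1⟩ := (hPUX j N Γ h).2 η hη
    obtain ⟨ν2, k2⟩ := (hPUX j N Γ' h').2 η hη
    filter_upwards [eventually_ge_atTop ν1, eventually_ge_atTop ν2, eventually_ge_atTop μ]
      with ν n1 n2 n3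
    have h3 := k1 ν n1 cl y _ _ (tb_mono hρ m3.le n3)
    have h4 := k2 ν n2 cl (y.1, fl b y.2) _ _ (tb_fl (tb_mono hρ m3.le n3) b)
    rw [hje] at h3 h4
    have h5 : Real.exp (-(2 * ν * (D' - x)) + η * ν) ≤ Real.exp (-(2 * ν * (D - x)) + η * ν) :=
      Real.exp_le_exp.2 (by nlinarith)
    refine (abs_sub _ _).trans ?_
    linarith

theorem col (hPU : St_PU) (hPUX : St_PUX) (h : Nv j Γ) : ∃ μ0, ∀ ν, μ0 ≤ ν → ∃ C, ∀ μ, 1 ≤ μ →
    ∀ k e α ρ, Tb μ e α ρ → |DX cl ν Γ k ρ| ≤ C * μ ^ 2 := by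
  obtain ⟨μ0, h0⟩ := hPU j 1 one_pos
  obtain ⟨C, hC⟩ := (hPUX j N Γ h).1
  refine ⟨μ0, fun ν hν => ⟨C * Real.exp (-(2 * ν * 0) + 1 * ν), fun μ hμ k e α ρ hρ => ?_⟩⟩
  obtain ⟨h1, h2⟩ := hC μ hμ k e α ρ hρ
  have h3 := (((h0 ν hν).2 N Γ _ h (wm_wX cl)).2 0 le_rfl (by linarith [h.pos])
    (by rw [mul_zero]; exact lg_zero _ _)).2 _ h1
  refine ((Complex.abs_re_le_norm _).trans h3).trans ?_
  rw [mul_right_comm C]
  exact mul_le_mul_of_nonneg_right h2 (Real.exp_pos _).le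

end P4

open P4 in
theorem st_p4 (hPL : St_PL) (hPU : St_PU) (hPUX : St_PUX) : St_P4 := by
  intro j N cl r Γ Γ' μ1 m h h' ⟨d, hc⟩
  obtain ⟨θ, hθ, hL⟩ := hPL j
  obtain ⟨a, ha⟩ := col (cl := cl) hPU hPUX h
  obtain ⟨a', ha'⟩ := col (cl := cl) hPU hPUX h'
  obtain ⟨μ, t, h1, h2, h3, -⟩ := abstr (T := Fin N × (ℝ → ℝ))
    (fun μ t => Dd cl r μ Γ Γ' t.1 t.2) (fun μ t => ∃ e α, Tb μ e α t.2) d (max μ1 (max a a'))
    (fun ν hν => by
      obtain ⟨C, hC⟩ := ha ν (((le_max_left _ _).trans (le_max_right _ _)).trans hν)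
      obtain ⟨C', hC'⟩ := ha' ν (((le_max_right _ _).trans (le_max_right _ _)).trans hν)
      refine ⟨C + C', fun μ hμ t ⟨e, α, ht⟩ => (abs_sub _ _).trans ?_⟩
      rw [add_mul]
      exact add_le_add (hC μ hμ _ _ _ _ ht) (hC' μ hμ _ _ _ _ (tb_fl ht _)))
    (fun α hα => by
      obtain ⟨y, ⟨k1, k2, k3, x, ρ, δ, k4⟩ | ⟨k1, k2, k3, x, ρ, δ, k4⟩⟩ := hc θ α hθ hα
      · obtain ⟨β, hβ, e⟩ := core hPUX h h' (r y.1) k1 k3 (hL N cl Γ ρ δ x y h k4)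
        exact ⟨_, β, k2, hβ, e.mono fun μ ⟨σ, e, p1, p2, p3⟩ => ⟨(y.1, σ), ⟨e, _, p1⟩, p2, p3⟩⟩
      · obtain ⟨β, hβ, e⟩ := core hPUX h' h (y := fx r y) (r y.1) k1 (by simpa [fx] using k3)
          (hL N cl Γ' ρ δ x _ h' k4)
        refine ⟨_, β, k2, hβ, e.mono fun μ ⟨σ, e, p1, p2, p3⟩ =>
          ⟨(y.1, fun s => σ (fl (r y.1) s)), ⟨e, _, tb_fl p1 _⟩, ?_, fun η hη => ?_⟩⟩
        · simp only [Dd, fl_fl]
          rwa [abs_sub_comm]
        · filter_upwards [p3 η hη] with ν hν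
          simp only [Dd, fl_fl]
          rwa [abs_sub_comm]) m
  refine ⟨μ, fun b => (t b).1, fun b => (t b).2, fun a => (le_max_left _ _).trans (h1 a),
    fun b => ?_, h3⟩
  obtain ⟨ν, e, α, hb⟩ := h2 b
  exact hb.per

end Pool.Agent.Lib.IS3
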