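import Pool.Agent.Lib.IS3.Kit

/-! Row PAR: the jets of the curvature of a parallel curve. -/

open scoped ContDiff Topology
open Filter

namespace Pool.Agent.Lib.IS3

namespace PAR

/-- Polynomials of weight `k` in the derivatives, in `d` and in the inverse. -/
inductive Wt : ℕ → ((ℝ → ℝ) → ℝ → ℝ → ℝ) → Prop
  | der (a : ℕ) : Wt a fun κ _ t => iteratedDeriv a κ t
  | inv : Wt 0 fun κ d t => (1 - d * κ t)⁻¹
  | par : Wt 0 fun _ d _ => d
  | zero (k : ℕ) : Wt k fun _ _ _ => 0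
  | add {k F G} : Wt k F → Wt k G → Wt k fun κ d t => F κ d t + G κ d t
  | mul {k l m F G} : Wt k F → Wt l G → k + l = m → Wt m fun κ d t => F κ d t * G κ d t

theorem bound {k F} (h : Wt k F) (B : ℝ) : ∃ C, ∀ (κ : ℝ → ℝ) (d t w : ℝ), 1 ≤ w → |d| ≤ B →
    |1 - d * κ t|⁻¹ ≤ B → (∀ a ≤ k, |iteratedDeriv a κ t| ≤ B * w ^ a) →
    |F κ d t| ≤ C * w ^ k := by
  induction h with
  | der a => exact ⟨B, fun κ d t w _ _ _ h => h a le_rfl⟩
  | inv => exact ⟨B, fun κ d t w _ _ h _ => by rwa [abs_inv, pow_zero, mul_one]⟩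
  | par => exact ⟨B, fun κ d t w _ h _ _ => by rwa [pow_zero, mul_one]⟩
  | zero k => exact ⟨0, fun _ _ _ _ _ _ _ _ => by simp⟩
  | add _ _ i1 i2 =>
    obtain ⟨C, h1⟩ := i1
    obtain ⟨C', h2⟩ := i2
    exact ⟨C + C', fun κ d t w a b c e => (abs_add_le _ _).trans
      ((add_le_add (h1 κ d t w a b c e) (h2 κ d t w a b c e)).trans_eq (add_mul _ _ _).symm)⟩
  | mul _ _ e i1 i2 =>
    obtain ⟨C, h1⟩ := i1
    obtain ⟨C', h2⟩ := i2
    subst e
    refine ⟨C * C', fun κ d t w a b c e => ?_⟩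
    have g1 := h1 κ d t w a b c fun i hi => e i (hi.trans (Nat.le_add_right _ _))
    have g2 := h2 κ d t w a b c fun i hi => e i (hi.trans (Nat.le_add_left _ _))
    rw [abs_mul, pow_add, mul_mul_mul_comm]
    exact mul_le_mul g1 g2 (abs_nonneg _) ((abs_nonneg _).trans g1)

theorem hd {κ : ℝ → ℝ} (h : ContDiff ℝ ∞ κ) (a : ℕ) (t : ℝ) :
    HasDerivAt (iteratedDeriv a κ) (iteratedDeriv (a + 1) κ t) t := by
  rw [iteratedDeriv_succ]
  exact (h.differentiable_iteratedDeriv a (by exact_mod_cast ENat.natCast_lt_top a) t).hasDerivAt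

theorem der {k F} (h : Wt k F) : ∃ F', Wt (k + 1) F' ∧ ∀ (κ : ℝ → ℝ) (d t : ℝ), ContDiff ℝ ∞ κ →
    1 - d * κ t ≠ 0 → HasDerivAt (F κ d) (F' κ d t) t := by
  induction h with
  | der a => exact ⟨_, .der (a + 1), fun κ d t h _ => hd h a t⟩
  | inv =>
    refine ⟨_, .mul (.mul .par (.der 1) rfl) (.mul .inv .inv rfl) rfl, fun κ d t h h0 => ?_⟩
    refine ((((hd h 0 t).const_mul d).const_sub 1).fun_inv h0).congr_deriv ?_
    rw [neg_neg, div_eq_mul_inv, sq, mul_inv]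
    rfl
  | par => exact ⟨_, .zero _, fun κ d t _ _ => hasDerivAt_const t d⟩
  | zero k => exact ⟨_, .zero _, fun κ d t _ _ => hasDerivAt_const t 0⟩
  | add _ _ i1 i2 =>
    obtain ⟨F', a1, a2⟩ := i1
    obtain ⟨G', b1, b2⟩ := i2
    exact ⟨_, .add a1 b1, fun κ d t h h0 => (a2 κ d t h h0).fun_add (b2 κ d t h h0)⟩
  | mul hF hG e i1 i2 =>
    obtain ⟨F', a1, a2⟩ := i1
    obtain ⟨G', b1, b2⟩ := i2
    exact ⟨_, .add (.mul a1 hG (by omega)) (.mul hF b1 (by omega)),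
      fun κ d t h h0 => (a2 κ d t h h0).fun_mul (b2 κ d t h h0)⟩

theorem rep (n : ℕ) : ∃ F, Wt n F ∧ ∀ (κ : ℝ → ℝ) (d t : ℝ), ContDiff ℝ ∞ κ →
    1 - d * κ t ≠ 0 → Pn d κ n t = F κ d t := by
  induction n with
  | zero => exact ⟨_, .mul (.der 0) .inv rfl, fun κ d t _ _ => div_eq_mul_inv _ _⟩
  | succ n ih =>
    obtain ⟨F, h1, h2⟩ := ih
    obtain ⟨F', h3, h4⟩ := der h1
    refine ⟨_, .mul h3 .inv rfl, fun κ d t h h0 => ?_⟩
    have e : Pn d κ n =ᶠ[𝓝 t] F κ d :=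
      ((continuous_const.sub (continuous_const.mul h.continuous)).continuousAt.eventually_ne
        h0).mono fun s hs => h2 κ d s h hs
    show deriv (Pn d κ n) t / (1 - d * κ t) = _
    rw [e.deriv_eq, (h4 κ d t h h0).deriv, div_eq_mul_inv]

end PAR

theorem st_par : St_PAR := fun n B => by
  obtain ⟨F, h1, h2⟩ := PAR.rep n
  obtain ⟨C, hC⟩ := PAR.bound h1 B
  exact ⟨C, fun κ d t w h a b h0 c e => h2 κ d t h h0 ▸ hC κ d t w a b c e⟩

end Pool.Agent.Lib.IS3
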