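import Pool.Agent.Lib.IS3.Kit

/-! The distance to the other clusters is not constant on an interval. -/

open scoped ContDiff ComplexConjugate Topology Real ENNReal
open Complex MeasureTheory Set Filter

noncomputable section

namespace Pool.Agent.Lib.IS3

open Pool.Agent.Lib.ISO Pool.Agent.Lib.IS2

namespace PARG

/-- the parallel curve -/
def pc (d : ℝ) (γ : ℝ → ℂ) (t : ℝ) : ℂ := γ t + d * (I * deriv γ t)
/-- the scaled curve in arc length -/
def al (l : ℝ) (G : ℝ → ℂ) (t : ℝ) : ℂ := l * G (t / l)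

section
variable {γ : ℝ → ℂ} (h : ContDiff ℝ ∞ γ) (hu : ∀ s, ‖deriv γ s‖ = 1)
include h

lemma s1 : ContDiff ℝ ∞ (deriv γ) := (contDiff_infty_iff_deriv.1 h).2
lemma hd (s : ℝ) : HasDerivAt γ (deriv γ s) s := (h.differentiable (by simp) s).hasDerivAt
lemma pc_smooth (d : ℝ) : ContDiff ℝ ∞ (pc d γ) :=
  h.add (contDiff_const.mul (contDiff_const.mul (s1 h)))

include hu

omit h in
lemma mul_conj_one (s : ℝ) : deriv γ s * conj (deriv γ s) = 1 := by
  rw [mul_conj, normSq_eq_norm_sq, hu]; simp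

lemma frenet (s : ℝ) : deriv (deriv γ) s = I * kp γ s * deriv γ s := by
  have h2 := hd (s1 h) s
  have h3 : HasDerivAt (fun s => conj (deriv γ s)) (conj (deriv (deriv γ) s)) s :=
    conjCLE.hasFDerivAt.comp_hasDerivAt s h2
  have h4 := h2.mul h3
  have e : (deriv γ * fun s => conj (deriv γ s)) = fun _ => (1 : ℂ) :=
    funext fun s => mul_conj_one hu s
  rw [e] at h4
  have h5 := h4.unique (hasDerivAt_const s 1)
  have h6 : deriv (deriv γ) s * conj (deriv γ s) = I * kp γ s := by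
    have := congrArg re h5
    apply Complex.ext
    · simp at this ⊢; linarith
    · simp [kp]
  calc _ = deriv (deriv γ) s * (deriv γ s * conj (deriv γ s)) := by rw [mul_conj_one hu, mul_one]
    _ = deriv (deriv γ) s * conj (deriv γ s) * deriv γ s := by ring
    _ = _ := by rw [h6]

lemma deriv_pc (d : ℝ) : deriv (pc d γ) = fun t => ((1 - d * kp γ t : ℝ) : ℂ) * deriv γ t := by
  funext t
  have : HasDerivAt (pc d γ) _ t := (hd h t).add (((hd (s1 h) t).const_mul I).const_mul (d : ℂ))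
  rw [this.deriv, frenet h hu]
  push_cast
  linear_combination (d * kp γ t * deriv γ t : ℂ) * I_mul_I

lemma norm_pc (d t : ℝ) : ‖deriv (pc d γ) t‖ = |1 - d * kp γ t| := by
  rw [deriv_pc h hu, norm_mul, hu, mul_one, norm_real, Real.norm_eq_abs]

lemma kp_pc (d t : ℝ) : kp (pc d γ) t = kp γ t * (1 - d * kp γ t) ^ 2 := by
  have a : HasDerivAt (fun t => 1 - d * kp γ t) (-(d * deriv (kp γ) t)) t :=
    ((((kp_smooth h).differentiable (by simp)) t).hasDerivAt.const_mul d).const_sub 1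
  have b := a.ofReal_comp.fun_mul (hd (s1 h) t)
  have e : deriv (deriv (pc d γ)) t * conj (deriv (pc d γ) t) =
      ((-(d * deriv (kp γ) t) * (1 - d * kp γ t) : ℝ) : ℂ) +
        ((kp γ t * (1 - d * kp γ t) ^ 2 : ℝ) : ℂ) * I := by
    rw [deriv_pc h hu, b.deriv, frenet h hu, map_mul, conj_ofReal]
    push_cast
    linear_combination (-(d * deriv (kp γ) t) * (1 - d * kp γ t) +
      kp γ t * (1 - d * kp γ t) ^ 2 * I : ℂ) * mul_conj_one hu t
  rw [kp, e, add_im, ofReal_im, zero_add, mul_I_im, ofReal_re]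

lemma dn_pn (d ε : ℝ) (hε : ε * ε = 1) (n : ℕ) :
    ∀ t, 0 < ε * (1 - d * kp γ t) → Dn (pc d γ) n t = ε ^ (n + 1) * Pn d (kp γ) n t := by
  have ab : ∀ t, 0 < ε * (1 - d * kp γ t) → |1 - d * kp γ t| = ε * (1 - d * kp γ t) := fun t ht => by
    rw [← abs_of_pos ht, abs_mul, show |ε| = 1 by
      rcases mul_self_eq_one_iff.1 hε with e | e <;> simp [e], one_mul]
  have e0 : ε ≠ 0 := left_ne_zero_of_mul_eq_one hε
  induction n with
  | zero =>
    intro t ht
    have := right_ne_zero_of_mul ht.ne'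
    simp only [Dn, Pn]
    rw [norm_pc h hu, kp_pc h hu, ab t ht]
    generalize 1 - d * kp γ t = u at this ⊢
    field_simp
    linear_combination (-(kp γ t) * (ε * ε + 1)) * hε
  | succ n ih =>
    intro t ht
    have := right_ne_zero_of_mul ht.ne'
    have c : Continuous fun t => ε * (1 - d * kp γ t) :=
      continuous_const.mul (continuous_const.sub (continuous_const.mul (kp_smooth h).continuous))
    have ev : Dn (pc d γ) n =ᶠ[𝓝 t] fun t => ε ^ (n + 1) * Pn d (kp γ) n t :=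
      mem_of_superset ((isOpen_lt continuous_const c).mem_nhds ht) fun u hu' => ih u hu'
    simp only [Dn, Pn]
    rw [norm_pc h hu, ab t ht, ev.deriv_eq, deriv_const_mul_field]
    generalize 1 - d * kp γ t = u at this ⊢
    field_simp
    linear_combination (-(ε ^ (n + 1) * deriv (Pn d (kp γ) n) t)) * hε

lemma abs_dn (d t : ℝ) (ht : 1 - d * kp γ t ≠ 0) (n : ℕ) :
    |Dn (pc d γ) n t| = |Pn d (kp γ) n t| := by
  rcases ht.lt_or_gt with e | e
  · rw [dn_pn h hu d (-1) (by norm_num) n t (by linarith)]; simp [abs_mul]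
  · rw [dn_pn h hu d 1 (by norm_num) n t (by linarith)]; simp

omit h in
/-- a point on the normal line at distance `D` -/
lemma on_normal {t D : ℝ} {z : ℂ} (h0 : rdot (deriv γ t) (γ t - z) = 0) (hD : ‖z - γ t‖ = D) :
    pc D γ t = z ∨ pc (-D) γ t = z := by
  have a : (z - γ t) * conj (deriv γ t) = I * (((z - γ t) * conj (deriv γ t)).im : ℝ) := by
    apply Complex.ext
    · simp [rdot] at h0 ⊢; linarith
    · simp
  obtain ⟨y, hy⟩ : ∃ y : ℝ, (z - γ t) * conj (deriv γ t) = I * y := ⟨_, a⟩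
  have b : |y| = D := by
    have := congrArg norm hy
    rwa [norm_mul, norm_mul, norm_conj, hu, hD, norm_I, norm_real, mul_one, one_mul, eq_comm] at this
  have c : pc y γ t = z := by
    rw [pc]
    linear_combination (z - γ t) * mul_conj_one hu t - deriv γ t * hy
  rcases abs_cases y with e | e
  · exact Or.inl (by rw [← b, e.1, c])
  · exact Or.inr (by rw [← b, e.1, neg_neg, c])

end

section
variable {l : ℝ} (hl : 0 < l) {G : ℝ → ℂ} (h : ContDiff ℝ ∞ G)
include h

lemma al_smooth : ContDiff ℝ ∞ (al l G) :=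
  contDiff_const.mul (h.comp (contDiff_id.div_const l))

omit h in
lemma deriv_div {F : ℝ → ℂ} (hF : ContDiff ℝ ∞ F) (t : ℝ) :
    HasDerivAt (fun t => F (t / l)) ((l : ℂ)⁻¹ * deriv F (t / l)) t := by
  have := (hd hF (t / l)).scomp t ((hasDerivAt_id t).div_const l)
  simpa [Function.comp_def, real_smul] using this

include hl

lemma deriv_al : deriv (al l G) = fun t => deriv G (t / l) := by
  funext t
  have : (l : ℂ) ≠ 0 := ofReal_ne_zero.2 hl.ne'
  have e : HasDerivAt (al l G) _ t := (deriv_div h t).const_mul (l : ℂ)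
  rw [e.deriv]
  field_simp

lemma kp_al : kp (al l G) = ph l (kp G) := by
  funext t
  rw [kp, deriv_al hl h, (deriv_div (s1 h) t).deriv, ph, kp, mul_assoc, ← ofReal_inv,
    im_ofReal_mul, mul_comm l⁻¹, ← div_eq_mul_inv]

end

lemma level {κ : ℝ → ℝ} {L : ℝ} (hL : 0 < L) (hp : Function.Periodic κ L)
    (hf : ∀ c, {t ∈ Icc 0 L | κ t = c}.Finite) (d : ℝ) : {t | 1 - d * κ t = 0}.Countable := by
  refine (countable_iUnion fun m : ℤ => ((hf d⁻¹).countable.image fun t => t + m * L)).mono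
    fun t ht => ?_
  have e : κ t = d⁻¹ := eq_inv_of_mul_eq_one_right (by have : 1 - d * κ t = 0 := ht; linarith)
  refine mem_iUnion.2 ⟨⌊t / L⌋, t - ⌊t / L⌋ * L, ⟨⟨Int.sub_floor_div_mul_nonneg t hL,
    (Int.sub_floor_div_mul_lt t hL).le⟩, ?_⟩, by ring⟩
  rw [hp.sub_int_mul_eq, e]

end PARG

open PARG in
theorem st_parg (hDLP : St_DLP) (hJL0 : St_JL0) : St_PARG := by
  intro j N l G cl k a b D hG ⟨i0, hi0⟩ hab hD
  have sm : ∀ i, ContDiff ℝ ∞ (G i) := fun i => (hG.sd.ns i).nc.smooth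
  have lp : ∀ i, 0 < l i := fun i => (hG.sd.ns i).pos
  have sa : ∀ i, ContDiff ℝ ∞ (al (l i) (G i)) := fun i => al_smooth (sm i)
  have un : ∀ i s, ‖deriv (al (l i) (G i)) s‖ = 1 := fun i s => by
    rw [deriv_al (lp i) (sm i)]; exact (hG.sd.ns i).nc.unit _
  have ka : ∀ i, kp (al (l i) (G i)) = ph (l i) (kp (G i)) := fun i => kp_al (lp i) (sm i)
  have c1 : ∀ (d : ℝ) i, i ≠ k → {t | ∃ s, pc d (al (l k) (G k)) t = al (l i) (G i) s}.Countable := by
    intro d i hi
    refine ((hJL0 _ _ (pc_smooth (sa k) d) (sa i) (un i)).union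
      (level (hG.gg.pos k) (hG.gg.per k).per (hG.gg.fin k) d)).mono ?_
    rintro t ⟨s, hs⟩
    by_cases e : 1 - d * ph (l k) (kp (G k)) t = 0
    · exact Or.inr e
    refine Or.inl ⟨fun e' => e ?_, s, hs, ?_⟩
    · have := norm_pc (sa k) (un k) d t
      rwa [e', norm_zero, eq_comm, abs_eq_zero, ka] at this
    rintro ⟨τ, hτ, H⟩
    obtain ⟨n, hn⟩ := hG.gg.par i k hi d s t e
    refine hn ?_
    rw [← ka, ← ka, H, ← abs_dn (sa k) (un k) d t (by rwa [ka]) n, abs_mul, abs_pow]
    rcases hτ with rfl | rfl <;> simp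
  have c2 : (Ioo (l k * a) (l k * b)).Countable := by
    refine (countable_iUnion fun i : {i // i ≠ k} => (c1 D i i.2).union (c1 (-D) i i.2)).mono
      fun t ht => ?_
    have hs : t / l k ∈ Ioo a b :=
      ⟨(lt_div_iff₀' (lp k)).2 ht.1, (div_lt_iff₀' (lp k)).2 ht.2⟩
    obtain ⟨-, d2, -, d4⟩ := hDLP j N cl _ hG.sd.nv
    obtain ⟨-, -, -, x, hx⟩ := d2 (i0, 0) (k, t / l k) hi0
    have ev : (fun s => dl cl (scm l G) (k, s)) =ᶠ[𝓝 (t / l k)] fun _ => D :=
      mem_of_superset (Ioo_mem_nhds hs.1 hs.2) hD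
    have e := d4 x (k, t / l k) hx (ev.differentiableAt_iff.2 (differentiableAt_const D))
    have e0 : deriv (fun s => dl cl (scm l G) (k, s)) (t / l k) = 0 := by
      rw [ev.deriv_eq, deriv_const]
    have g1 : gp (scm l G) (k, t / l k) = al (l k) (G k) t := rfl
    have g2 : gp (scm l G) x = al (l x.1) (G x.1) (x.2 * l x.1) := by
      rw [al, mul_div_cancel_right₀ _ (lp _).ne']; rfl
    have g3 : deriv (scm l G k) (t / l k) = l k * deriv (al (l k) (G k)) t := by
      rw [deriv_al (lp k) (sm k), scm, deriv_sc, sc]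
    simp only [e0, zero_mul, g1, g3] at e
    have e1 : rdot (deriv (al (l k) (G k)) t) (al (l k) (G k) t - gp (scm l G) x) = 0 := by
      rw [rdot, mul_assoc, re_ofReal_mul, eq_comm] at e
      exact (mul_eq_zero.1 e).resolve_left (lp k).ne'
    have e2 : ‖gp (scm l G) x - al (l k) (G k) t‖ = D := hx.2.trans (hD _ hs)
    refine mem_iUnion.2 ⟨⟨x.1, fun e => hx.1 (congrArg cl e)⟩, ?_⟩
    exact (on_normal (un k) e1 e2).imp (fun e => ⟨_, e.trans g2⟩) fun e => ⟨_, e.trans g2⟩
  have := c2.measure_zero (volume : Measure ℝ)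
  rw [Real.volume_Ioo, ENNReal.ofReal_eq_zero] at this
  linarith [mul_lt_mul_of_pos_left hab (lp k)]

end Pool.Agent.Lib.IS3
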