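import Pool.Agent.Lib.IS3.Blue

/-! Row PATH: integral over a cycle with one edge removed. -/

open MeasureTheory Function
open scoped ENNReal

namespace Pool.Agent.Lib.IS3

namespace PATH

theorem tree {X ι : Type} [MeasurableSpace X] [Fintype ι] [DecidableEq ι] (ν : Measure X)
    [SigmaFinite ν] (a : ι) (g : X → ℝ≥0∞) (K : ι → X → X → ℝ≥0∞) (b : ι → ℝ≥0∞) (p c : ι → ι)
    (r : ι → ℕ) (hg : Measurable g) (hK : ∀ i, Measurable (uncurry (K i))) (S : Finset ι) :
    (∀ i ∈ S, ∀ x, ∫⁻ y, K i x y ∂ν ≤ b i) → (∀ i ∈ S, c i ≠ a) → (∀ i ∈ S, p i ≠ c i) →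
    (∀ i ∈ S, ∀ j ∈ S, c i = c j → i = j) → (∀ i ∈ S, ∀ j ∈ S, p j = c i → r i < r j) →
    ∀ x, (∫⋯∫⁻_(insert a (S.image c)), (fun v => g (v a) * ∏ i ∈ S, K i (v (p i)) (v (c i)))
      ∂(fun _ : ι => ν)) x ≤ (∫⁻ x, g x ∂ν) * ∏ i ∈ S, b i := by
  have hm : ∀ T : Finset ι,
      Measurable fun v : ι → X => g (v a) * ∏ i ∈ T, K i (v (p i)) (v (c i)) := fun T =>
    (hg.comp (measurable_pi_apply a)).mul (Finset.measurable_prod _ fun i _ =>
      (hK i).comp (f := fun v : ι → X => (v (p i), v (c i)))
        ((measurable_pi_apply (p i)).prodMk (measurable_pi_apply (c i))))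
  induction S using Finset.induction_on_max_value r with
  | empty =>
    intro _ _ _ _ _ x
    simp [lmarginal_singleton]
  | insert i S hi hr ih =>
    intro hb ha hp hc hl x
    have m : ∀ j ∈ S, j ∈ insert i S := fun j hj => Finset.mem_insert_of_mem hj
    have mi : i ∈ insert i S := Finset.mem_insert_self _ _
    have h1 : ∀ j ∈ S, c j ≠ c i := fun j hj h => hi (hc j (m j hj) i mi h ▸ hj)
    have h2 : ∀ j ∈ S, p j ≠ c i := fun j hj h =>
      absurd (hl i mi j (m j hj) h) (not_lt.2 (hr j hj))
    have h3 : c i ∉ insert a (S.image c) := by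
      rw [Finset.mem_insert, Finset.mem_image]
      rintro (h | ⟨j, hj, h⟩)
      · exact ha i mi h
      · exact h1 j hj h
    rw [Finset.image_insert, Finset.insert_comm, lmarginal_insert' _ (hm _) h3]
    have key := ih (fun j hj => hb j (m j hj)) (fun j hj => ha j (m j hj))
      (fun j hj => hp j (m j hj)) (fun j hj l hl' => hc j (m j hj) l (m l hl'))
      (fun j hj l hl' => hl j (m j hj) l (m l hl')) x
    have h4 : (fun v : ι → X => ∫⁻ y, (fun v : ι → X => g (v a) *
          ∏ j ∈ insert i S, K j (v (p j)) (v (c j))) (update v (c i) y) ∂ν) ≤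
        fun v => (g (v a) * ∏ j ∈ S, K j (v (p j)) (v (c j))) * b i := by
      intro v
      have e : ∀ y, (fun v : ι → X => g (v a) *
          ∏ j ∈ insert i S, K j (v (p j)) (v (c j))) (update v (c i) y) =
          (g (v a) * ∏ j ∈ S, K j (v (p j)) (v (c j))) * K i (v (p i)) y := by
        intro y
        have e1 : ∏ j ∈ S, K j (update v (c i) y (p j)) (update v (c i) y (c j)) =
            ∏ j ∈ S, K j (v (p j)) (v (c j)) := Finset.prod_congr rfl fun j hj => by
          rw [update_of_ne (h2 j hj), update_of_ne (h1 j hj)]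
        simp only [Finset.prod_insert hi]
        rw [e1, update_of_ne (ha i mi).symm, update_of_ne (hp i mi), update_self]
        ring
      simp only [e]
      rw [lintegral_const_mul _ (hK i).of_uncurry_left]
      exact mul_le_mul_right (hb i mi _) _
    refine (lmarginal_mono h4 x).trans ?_
    rw [Finset.prod_insert hi]
    simp only [lmarginal] at key ⊢
    refine (lintegral_mul_const _ ((hm S).comp measurable_updateFinset)).trans_le ?_
    calc _ ≤ ((∫⁻ x, g x ∂ν) * ∏ j ∈ S, b j) * b i := mul_le_mul_left key _
      _ = _ := by ring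

end PATH

theorem st_path : St_PATH := by
  intro X _ ν _ n a e g k b hg hk hr hc
  rcases isEmpty_or_nonempty (Fin (n + 2) → X) with h0 | ⟨⟨x⟩⟩
  · simp [lintegral_of_isEmpty]
  have ht : ∀ i : Fin (n + 2), (i + 1 - a).val = ((i - a).val + 1) % (n + 2) := fun i => by
    rw [show i + 1 - a = (i - a) + 1 by abel, Fin.val_add]
    simp
  have hi : ∀ i j : Fin (n + 2), (i - a).val = (j - a).val → i = j := fun i j h =>
    sub_left_injective (Fin.ext h)
  have hlt : ∀ i : Fin (n + 2), (i - a).val < n + 2 := fun i => (i - a).isLt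
  have h0 : (a - a).val = 0 := by simp
  have hw : ∀ i : Fin (n + 2), (i + 1 - a).val = (i - a).val + 1 ∨
      ((i + 1 - a).val = 0 ∧ (i - a).val = n + 1) := fun i => by
    rw [ht]
    rcases Nat.lt_or_ge ((i - a).val + 1) (n + 2) with h | h
    · exact Or.inl (Nat.mod_eq_of_lt h)
    · have : (i - a).val = n + 1 := by have := hlt i; omega
      exact Or.inr ⟨by rw [this]; simp, this⟩
  have hne : ∀ i ∈ Finset.univ.erase e, (i - a).val ≠ (e - a).val := fun i h h' =>
    (Finset.mem_erase.1 h).1 (hi _ _ h')
  set c : Fin (n + 2) → Fin (n + 2) := fun i => if (i - a).val < (e - a).val then i + 1 else i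
    with hcd
  have hca : ∀ i ∈ Finset.univ.erase e, c i ≠ a := by
    intro i h h'
    have h1 := hne i h
    have h2 := hw i
    have h3 := hlt e
    have h4 := congrArg (fun j : Fin (n + 2) => (j - a).val) h'
    simp only [hcd] at h4
    split_ifs at h4 with h5 <;> omega
  have hci : ∀ i ∈ Finset.univ.erase e, ∀ j ∈ Finset.univ.erase e, c i = c j → i = j := by
    intro i h j h' h''
    have h1 := hne i h
    have h1' := hne j h'
    have h2 := hw i
    have h2' := hw j
    have h3 := hlt e
    have h4 := congrArg (fun j : Fin (n + 2) => (j - a).val) h''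
    simp only [hcd] at h4
    apply hi
    split_ifs at h4 with h5 h6 h6 <;> omega
  have key := PATH.tree ν a g
    (fun i x y => if (i - a).val < (e - a).val then k i x y else k i y x) b
    (fun i => if (i - a).val < (e - a).val then i else i + 1) c
    (fun i => if (i - a).val < (e - a).val then (i - a).val else n + 2 - (i - a).val) hg
    (fun i => by
      by_cases h : (i - a).val < (e - a).val
      · simp only [if_pos h]; exact hk i
      · simp only [if_neg h]; exact (hk i).comp measurable_swap)
    (Finset.univ.erase e)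
    (fun i h x => by
      by_cases h' : (i - a).val < (e - a).val
      · simp only [if_pos h']; exact hr i h' x
      · simp only [if_neg h']; exact hc i (by have := hne i h; omega) x)
    hca
    (fun i _ h' => by
      have h2 := hw i
      have h4 := congrArg (fun j : Fin (n + 2) => (j - a).val) h'
      simp only [hcd] at h4
      split_ifs at h4 with h5 <;> omega)
    hci
    (fun i h j h' h'' => by
      have h1 := hne i h
      have h1' := hne j h'
      have h2 := hw i
      have h2' := hw j
      have h3 := hlt e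
      have h3' := hlt i
      have h3'' := hlt j
      have h4 := congrArg (fun j : Fin (n + 2) => (j - a).val) h''
      simp only [hcd] at h4
      split_ifs at h4 ⊢ <;> omega) x
  have hu : insert a ((Finset.univ.erase e).image c) = Finset.univ := by
    apply Finset.eq_univ_of_card
    rw [Finset.card_insert_of_notMem, Finset.card_image_of_injOn fun i h j h' => hci i h j h',
      Finset.card_erase_of_mem (Finset.mem_univ _)]
    · simp
    · rw [Finset.mem_image]
      rintro ⟨j, hj, h⟩
      exact hca j hj h
  rw [hu, lmarginal_univ] at key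
  refine le_of_eq_of_le (lintegral_congr fun v => ?_) key
  refine congrArg _ (Finset.prod_congr rfl fun i _ => ?_)
  simp only [hcd]
  split_ifs <;> rfl

end Pool.Agent.Lib.IS3
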