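import Pool.Agent.Lib.IS3.Kit

/-! The lower bound for the first variation at a nearest pair. -/

open scoped ContDiff ComplexConjugate Topology Real ENNReal
open Complex MeasureTheory Set Filter

noncomputable section

namespace Pool.Agent.Lib.IS3

open Pool.Agent.Lib.ISO Pool.Agent.Lib.IS2

namespace PL

lemma low {X : Type} [MeasurableSpace X] {ν : Measure X} {w f : X → ℂ} {g h : X → ℝ} {z : ℂ}
    {a b : ℝ} (h01 : ∀ v, w v = 0 ∨ w v = 1) (i1 : Integrable (fun v => w v * f v) ν)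
    (i2 : Integrable (fun v => ‖w v‖ * g v) ν) (i3 : Integrable (fun v => ‖w v‖ * h v) ν)
    (hp : ∀ᵐ v ∂ν, w v ≠ 0 → a * g v - b * h v ≤ (z * f v).re) :
    a * ∫ v, ‖w v‖ * g v ∂ν - b * ∫ v, ‖w v‖ * h v ∂ν ≤ (z * ∫ v, w v * f v ∂ν).re := by
  have e := integral_re (i1.const_mul z)
  simp only [RCLike.re_to_complex] at e
  rw [← integral_const_mul, ← integral_const_mul, ← integral_const_mul,
    ← integral_sub (i2.const_mul a) (i3.const_mul b), ← e]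
  refine integral_mono_ae ((i2.const_mul a).sub (i3.const_mul b)) (i1.const_mul z).re
    (hp.mono fun v hv => ?_)
  rcases h01 v with e | e
  · simp [e]
  · simpa [e] using hv (by simp [e])

lemma coef {D A : ℝ} (hD : 1 ≤ D) (hA : 2 * D ≤ A) (n : ℕ) :
    D ^ (n + 2) * (A / A ^ max 1 (n - 1)) ≤ 16 * D ^ 4 * (1 / 2) ^ (n + 2) := by
  have A0 : 0 < A := by linarith
  have p2 := pow_le_pow_right₀ hD (by norm_num : 2 ≤ 4)
  have p3 := pow_le_pow_right₀ hD (by norm_num : 3 ≤ 4)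
  have p0 : 0 ≤ D ^ 4 := by positivity
  rcases n with _ | _ | m
  · norm_num [div_self A0.ne']
    linarith
  · norm_num [div_self A0.ne']
    linarith
  · have e : max 1 (m + 1 + 1 - 1) = m + 1 := by omega
    have h1 : (D / A) ^ m ≤ (1 / 2) ^ m :=
      pow_le_pow_left₀ (by positivity) (by rw [div_le_iff₀ A0]; linarith) m
    have h2 : D ^ (m + 1 + 1 + 2) * (A / A ^ (m + 1)) = D ^ 4 * (D / A) ^ m := by
      rw [div_pow]
      field_simp
      ring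
    rw [e, h2]
    refine (mul_le_mul_of_nonneg_left h1 p0).trans_eq ?_
    ring

lemma eg_mono {N : ℕ} {θ θ' : ℝ} {Γ : MC N} {a b : XN N} (h : Eg θ Γ a b) (hθ : θ ≤ θ') :
    Eg θ' Γ a b :=
  ⟨h.1.trans (mul_le_mul_of_nonneg_right hθ (cm_nonneg _ _ _)),
    h.2.1.trans (mul_le_mul_of_nonneg_right hθ (cm_nonneg _ _ _)), h.2.2⟩

lemma tb {Cb A μ e α : ℝ} {ρ : ℝ → ℝ} (h : Bm Cb (A / μ) α ρ) (a1 : 1 ≤ A) (a2 : Cb ≤ A)
    (m1 : 1 ≤ μ) (he : A / μ ≤ e) : Tb μ e α ρ := by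
  have A0 : 0 < A := by linarith
  have m0 : 0 < μ := by linarith
  refine ⟨h.per, fun s hs => h.zero s (he.trans hs), fun s => abs_le.2 ⟨by linarith [h.nn s], h.le s⟩,
    fun s => (h.b1 s).trans ?_, fun s => (h.b2 s).trans ?_⟩
  · rw [div_le_iff₀ (by positivity), show μ ^ 2 * (A / μ) = μ * A by field_simp]
    nlinarith
  · rw [div_le_iff₀ (by positivity), show μ ^ 2 * (A / μ) ^ 2 = A ^ 2 by field_simp]
    nlinarith

lemma fin {a b K : ℝ} (ha : 0 < a) (hb : 0 < b) :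
    ∀ᶠ μ : ℝ in atTop, 1 / μ ^ 2 + K * μ ^ 2 * Real.exp (-b * μ) ≤ a / μ := by
  have t := (tendsto_rpow_mul_exp_neg_mul_atTop_nhds_zero (4 : ℕ) b hb).const_mul K
  rw [mul_zero] at t
  filter_upwards [t.eventually (gt_mem_nhds one_pos), eventually_ge_atTop (2 / a),
    eventually_gt_atTop 0] with μ h1 h2 h3
  rw [Real.rpow_natCast] at h1
  rw [div_le_iff₀ ha] at h2
  rw [← mul_le_mul_iff_left₀ (pow_pos h3 2), add_mul, one_div_mul_cancel (pow_pos h3 2).ne',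
    show a / μ * μ ^ 2 = μ * a by field_simp]
  linarith

end PL

open PL in
theorem st_pl (hBUMP : St_BUMP) (hDIF : St_DIF) (hPU : St_PU) (hPLM : St_PLM) (hPLA : St_PLA)
    (hPLI : St_PLI) (hPLJ : St_PLJ) (hDLP : St_DLP) (hPUX : St_PUX) : St_PL := by
  intro j
  by_cases j1 : 1 ≤ j
  swap
  · exact ⟨1, one_pos, fun N cl Γ r δ x y h => absurd h.one_le j1⟩
  have j0 : 0 < j := by linarith
  obtain ⟨Cb, hb⟩ := hBUMP
  obtain ⟨c, C, c0, C1, hM⟩ := hPLM j Cb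
  obtain ⟨C', C1', hI⟩ := hPLI j
  have D1' : 1 ≤ C * C' := one_le_mul_of_one_le_of_one_le C1 C1'
  obtain ⟨K, hK⟩ := ((summable_nat_add_iff 2).2 (summable_pow_mul_geometric_of_norm_lt_one 3
    (r := (1 / 2 : ℝ)) (by norm_num))).mul_left (16 * (C * C') ^ 4 * Real.exp 2)
  obtain ⟨A, a1, a2, a3⟩ : ∃ A, 2 * (C * C') ≤ A ∧ Cb ≤ A ∧ Real.exp 1 * (K + 1) / c ≤ A :=
    ⟨max _ (max _ _), le_max_left _ _, le_max_of_le_right (le_max_left _ _),
      le_max_of_le_right (le_max_right _ _)⟩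
  have A1 : 1 ≤ A := by linarith
  have A0 : 0 < A := by linarith
  obtain ⟨θ, t0, t1, t2⟩ : ∃ θ, 0 < θ ∧ θ * A ≤ 1 ∧ θ * j ≤ 1 / 8 :=
    ⟨min A⁻¹ (8 * j)⁻¹, by positivity, (le_div_iff₀ A0).1 (by simp),
      (le_div_iff₀ j0).1 ((min_le_right _ _).trans_eq (by field_simp))⟩
  refine ⟨θ, t0, fun N cl Γ r δ0 x y hΓ hW e he => ?_⟩
  obtain ⟨δ, d0, d1, d2⟩ : ∃ δ, 0 < δ ∧ δ ≤ δ0 ∧ δ ≤ j⁻¹ :=
    ⟨min δ0 j⁻¹, lt_min hW.d0 (by positivity), min_le_left _ _, min_le_right _ _⟩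
  have hW' : NW cl Γ r θ δ x y := ⟨hW.r0, hW.r1, d0, hW.near,
    fun a z h1 h2 => hW.ell a z h1 (by linarith), hW.ang⟩
  obtain ⟨μ1, h1⟩ := hM A (by nlinarith) N Γ hΓ
  obtain ⟨μ2, h2⟩ := hDIF j
  obtain ⟨μ3, h3⟩ := hPU j (δ / 4) (by positivity)
  obtain ⟨C2, h4⟩ := (hPUX j N Γ hΓ).1
  obtain ⟨-, l1, l2, -⟩ := (hDLP j N cl Γ hΓ).2.1 x y hW.near.1
  have tA : Tendsto (fun μ : ℝ => A / μ) atTop (𝓝 0) := tendsto_const_nhds.div_atTop tendsto_id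
  refine eventually_atTop.1 ?_
  filter_upwards [eventually_ge_atTop μ1, eventually_ge_atTop μ2, eventually_ge_atTop μ3,
    eventually_ge_atTop 1, tA.eventually (ge_mem_nhds hW.r0), tA.eventually (ge_mem_nhds he),
    tA.eventually (ge_mem_nhds (show 0 < δ / (4 * j) by positivity)),
    fin (K := c * A * (2 * π) + C2) (Real.exp_pos (-(2 * j))) (show 0 < δ / 4 by positivity)]
    with μ m1 m2 m3 m4 m5 m6 m7 m8
  have μ0 : 0 < μ := by linarith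
  have hP : Pd j cl Γ r θ δ x y A μ :=
    ⟨hΓ, hW', t2, d2, m4, A1, m5, (le_div_iff₀' (by positivity)).1 m7⟩
  obtain ⟨ρ, hρ⟩ := hb (A / μ) y.2 (by positivity) (m5.trans hW.r1)
  have hT := tb hρ A1 a2 m4 m6
  refine ⟨ρ, hT, ?_⟩
  obtain ⟨q1, q2⟩ := h4 μ m4 y.1 e y.2 ρ hT
  have wS := wm_wH_lt y.1 y.2 (A / μ)
  have wq : Wm (wQ cl Γ δ y (A / μ)) := wm_wP hΓ.rc cl wS _
  obtain ⟨wr, lr⟩ := wm_rest hΓ.rc cl wS (2 * dl cl Γ y + δ / 2)
  have e1 := (h2 μ m2 N Γ _ hΓ (wm_wX cl)).2 y.1 _ ρ wS hρ.per fun s hs => by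
    have z : ρ s = 0 := hρ.zero s (not_lt.1 hs)
    exact ⟨z, IsLocalMin.deriv_eq_zero (.of_forall fun t => by rw [z]; exact hρ.nn t)⟩
  obtain ⟨i1, s1, e2⟩ := (h2 μ m2 N Γ _ hΓ wq).1 _ q1
  have e3 := e2 _ wr (by rw [wQ, add_sub_cancel]; exact (wm_wX cl).mul wS)
  rw [wQ, add_sub_cancel] at e3
  have jj : j⁻¹ ≤ j := (inv_le_one_of_one_le₀ j1).trans j1
  have u1 := (((h3 μ m3).2 N Γ _ hΓ wr).2 (dl cl Γ y + δ / 4)
    (by linarith [inv_pos.2 j0]) (by linarith) (lr.mono (by linarith))).2 _ q1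
  obtain ⟨k1, k2, k3⟩ := hPLJ j N cl Γ r θ δ x y A μ Cb ρ hP hρ
  obtain ⟨J, hJ⟩ : ∃ J, J = Jw μ Γ r x y := ⟨_, rfl⟩
  obtain ⟨E, hE⟩ : ∃ E, E = Real.exp (-(2 * μ * dl cl Γ y)) := ⟨_, rfl⟩
  obtain ⟨F, hF⟩ : ∃ F, F = Real.exp (-(δ / 4) * μ) := ⟨_, rfl⟩
  have E0 : 0 < E := hE ▸ Real.exp_pos _
  have F0 : 0 < F := hF ▸ Real.exp_pos _
  have x1 : Real.exp (-(2 * μ * (dl cl Γ y + δ / 8))) = E * F := by
    rw [hE, hF, ← Real.exp_add]; congr 1; ring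
  have x2 : Real.exp (-(2 * μ * (dl cl Γ y + δ / 4)) + δ / 4 * μ) = E * F := by
    rw [hE, hF, ← Real.exp_add]; congr 1; ring
  rw [← hJ, ← hE] at k1
  rw [← hJ, x1] at k3
  rw [x2] at u1
  rw [← hF] at m8
  have J0 : 0 ≤ J := le_trans (by positivity) k1
  have up : ∀ n : ℕ, C ^ (n + 2) * (μ / A ^ max 1 (n - 1)) * ∫ v, ‖wQ cl Γ δ y (A / μ) (n + 2) v‖ *
      (Sk μ Γ v * Real.exp (-(μ * Lc Γ v))) ∂bm N (n + 2) ≤
      16 * (C * C') ^ 4 * Real.exp 2 * (((n + 2 : ℕ) : ℝ) ^ 3 * (1 / 2) ^ (n + 2)) * J := fun n => by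
    refine (mul_le_mul_of_nonneg_left (hI N cl Γ r θ δ x y A μ n hP).2 (by positivity)).trans ?_
    have := mul_le_mul (coef D1' a1 n) (Real.exp_le_exp.2 (show 2 * θ * A ≤ 2 by linarith))
      (by positivity) (by positivity)
    have := mul_le_mul_of_nonneg_right this (show 0 ≤ ((n : ℝ) + 2) ^ 3 * J by positivity)
    rw [← hJ]
    refine (Eq.trans_le ?_ this).trans_eq ?_
    · rw [mul_pow]; field_simp
    · push_cast; ring
  have pt : ∀ n : ℕ, ∀ᵐ v ∂bm N (n + 2), wQ cl Γ δ y (A / μ) (n + 2) v ≠ 0 →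
      ((if n = 0 then c * μ * rv y.1 ρ v else 0) - C ^ (n + 2) * (μ / A ^ max 1 (n - 1)) * Sk μ Γ v) *
        Real.exp (-(μ * Lc Γ v)) ≤ (2 * (-2) ^ n * dI μ (cpm Γ) (bu Γ y.1 ρ) n v).re := fun n =>
    hΓ.ae_gw.mono fun v hv hw => by
      obtain ⟨-, b1, b2, -⟩ := hPLA j N cl Γ r θ δ x y A μ n v hP hw
      refine h1 μ m1 y.1 ρ y.2 n v hρ hv b1 fun i hi => eg_mono (b2 i hi) ?_
      rw [← one_div, le_div_iff₀ (by positivity)]
      linarith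
  have sm := hasSum_le (fun n => ?_)
    ((hasSum_ite_eq 0 (c * A * Real.exp (-(θ * A)) * (J - 2 * π * (E * F)))).sub (hK.mul_right J))
    (hasSum_re s1)
  · have r1 := (abs_le.1 ((abs_re_le_norm _).trans u1)).1
    have r2 := mul_le_mul_of_nonneg_right q2 (mul_pos E0 F0).le
    have r3 : Real.exp (-(θ * A)) ≤ 1 := Real.exp_le_one_iff.2 (by nlinarith [mul_pos t0 A0])
    have r4 : K + 1 ≤ c * A * Real.exp (-(θ * A)) := by
      rw [div_le_iff₀ c0] at a3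
      have : Real.exp (-1) ≤ Real.exp (-(θ * A)) := Real.exp_le_exp.2 (by linarith)
      have := mul_le_mul a3 this (Real.exp_pos _).le (by positivity)
      rwa [mul_right_comm, ← Real.exp_add, add_neg_cancel, Real.exp_zero, one_mul, mul_comm A] at this
    have r5 := mul_le_mul_of_nonneg_right r4 J0
    have r6 : Real.exp (-(θ * A)) * (c * A * (2 * π) * (E * F)) ≤
        μ ^ 2 * (c * A * (2 * π) * (E * F)) :=
      mul_le_mul_of_nonneg_right (r3.trans (one_le_pow₀ m4)) (by positivity)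
    have r7 := mul_le_mul_of_nonneg_right m8 E0.le
    rw [DX, e1, e3, add_re, ← hE, div_eq_mul_one_div E]
    rw [wQ] at sm
    linarith
  · have i2 := (hI N cl Γ r θ δ x y A μ n hP).1
    have w01 := wP_01 cl Γ y.1 {s | dc s y.2 < A / μ} (2 * dl cl Γ y + δ / 2) (n + 2)
    refine (sub_le_sub_left (up n) _).trans ?_
    by_cases n0 : n = 0
    · subst n0
      refine le_trans (sub_le_sub_right ?_ _) (low (a := c * μ) w01 (i1 0) k2 i2
        ((pt 0).mono fun v hv hw => le_of_eq_of_le ?_ (hv hw)))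
      · refine le_of_eq_of_le ?_ (mul_le_mul_of_nonneg_left k3 (mul_pos c0 μ0).le)
        rw [if_pos rfl]
        field_simp
      · rw [if_pos rfl]
        ring
    · refine le_of_eq_of_le ?_ (low (a := 0) (b := C ^ (n + 2) * (μ / A ^ max 1 (n - 1))) w01
        (i1 n) i2 i2 ((pt n).mono fun v hv hw => le_of_eq_of_le ?_ (hv hw)))
      · rw [if_neg n0, zero_mul]
      · rw [if_neg n0]
        ring

end Pool.Agent.Lib.IS3
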