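import Pool.Agent.Lib.IS3.Kit

/-! Row PLA: the combinatorics of the short chains through two windows. -/

open scoped ContDiff ComplexConjugate Topology Real
open Complex MeasureTheory Set Filter

noncomputable section

namespace Pool.Agent.Lib.IS3

open Pool.Agent.Lib.ISO Pool.Agent.Lib.IS2

namespace PLA

lemma lip90 {γ : ℝ → ℂ} (hd : Differentiable ℝ γ) (hp : Function.Periodic γ (2 * π)) {p : ℂ}
    {α r θ : ℝ} (r1 : r ≤ 1)
    (h : ∀ u, dc u α ≤ r → γ u ≠ p ∧ |rdot (deriv γ u) (γ u - p)| ≤ θ * ‖γ u - p‖) {s t : ℝ}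
    (hs : dc s α ≤ r) (ht : dc t α ≤ r) : ‖γ s - p‖ ≤ ‖γ t - p‖ + θ * dc s t := by
  have red : ∀ s, dc s α ≤ r → ∃ k : ℤ, s + k * (2 * π) ∈ Icc (α - r) (α + r) := fun s hs => by
    obtain ⟨k, hk⟩ := exists_dc s α
    have := abs_le.1 (hk.trans_le hs)
    refine ⟨-k, ?_, ?_⟩ <;> rw [Int.cast_neg] <;> linarith [this.1, this.2]
  obtain ⟨k, hk⟩ := red s hs
  obtain ⟨m, hm⟩ := red t ht
  have key : ∀ u ∈ Icc (α - r) (α + r), HasDerivWithinAt (fun u => ‖γ u - p‖)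
      (rdot (deriv γ u) (γ u - p) / ‖γ u - p‖) (Icc (α - r) (α + r)) u ∧
      ‖rdot (deriv γ u) (γ u - p) / ‖γ u - p‖‖ ≤ θ := fun u hu => by
    obtain ⟨h1, h2⟩ := h u ((dc_le_abs u α).trans (abs_le.2 ⟨by linarith [hu.1], by linarith [hu.2]⟩))
    have h3 : 0 < ‖γ u - p‖ := norm_pos_iff.2 (sub_ne_zero.2 h1)
    refine ⟨?_, by rwa [Real.norm_eq_abs, abs_div, abs_of_pos h3, div_le_iff₀ h3]⟩
    have h4 := (((hd u).hasDerivAt.sub_const p).norm_sq).sqrt (pow_pos h3 2).ne'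
    simp only [Real.sqrt_sq (norm_nonneg _)] at h4
    refine (h4.congr_deriv ?_).hasDerivWithinAt
    rw [mul_div_mul_left _ _ two_ne_zero, Complex.inner, rdot]
  have := (convex_Icc _ _).norm_image_sub_le_of_norm_hasDerivWithin_le (fun u hu => (key u hu).1)
    (fun u hu => (key u hu).2) hm hk
  rw [hp.int_mul k s, hp.int_mul m t, Real.norm_eq_abs, Real.norm_eq_abs, ← dc_eq_abs
    (s := s + k * (2 * π)) (abs_le.2 ⟨by linarith [hk.1, hm.2, Real.pi_gt_three],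
      by linarith [hk.2, hm.1, Real.pi_gt_three]⟩), dc_add_left, dc_add_right] at this
  linarith [le_abs_self (‖γ s - p‖ - ‖γ t - p‖)]

variable {N n : ℕ} {Γ : MC N} {θ j r δ A μ : ℝ} {cl : Fin N → Fin N} {x y : XN N}

lemma eg_symm90 {a b : XN N} (h : Eg θ Γ a b) : Eg θ Γ b a := by
  have e : ∀ u : ℂ, |rdot u (gp Γ b - gp Γ a)| = |rdot u (gp Γ a - gp Γ b)| := fun u => by
    rw [← abs_neg, rdot, rdot, ← neg_sub (gp Γ a), map_neg, mul_neg, neg_re, neg_neg]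
  refine ⟨?_, ?_, h.2.2.2, h.2.2.1⟩ <;> rw [e, cm_comm]
  exacts [h.2.1, h.1]

lemma lipw90 (h : Nv j Γ) (r1 : r ≤ 1) {a y b b' : XN N} (ha : a.1 ≠ y.1)
    (hE : ∀ b, Wn r y b → Eg θ Γ b a) (hb : Wn r y b) (hb' : Wn r y b') :
    cm Γ b a ≤ cm Γ b' a + θ * dc b.2 b'.2 := by
  have := lip90 (θ := θ) (p := gp Γ a) (h.rc.diff y.1) (h.per y.1) r1 (fun u hu =>
    ⟨fun e => ha (h.rc.inj (y.1, u) a e).1.symm, (hE (y.1, u) ⟨rfl, hu⟩).1⟩) hb.2 hb'.2
  rwa [cm, cm, gp, gp, gp, hb.1, hb'.1]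

end PLA

open PLA in
theorem st_pla (hD : St_DLP) : St_PLA := by
  intro j N cl Γ r θ δ x y A μ n v P hw
  obtain ⟨hel, ⟨a1, a2, h12⟩, b0, hb1, hb2⟩ := wP_ne.1 hw
  have hv := P.nv
  have hn := P.nw
  obtain ⟨D1, D2, -⟩ := hD j N cl Γ hv
  have hj := hv.pos
  have hxy : x.1 ≠ y.1 := fun e => hn.near.1 (by rw [e])
  obtain ⟨a0, ha0⟩ : ∃ a0, cl (v a0).1 ≠ cl y.1 := by
    by_cases e : cl (v a1).1 = cl y.1
    · exact ⟨a2, fun e' => h12 (e.trans e'.symm)⟩
    · exact ⟨a1, e⟩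
  set e := A / μ with he
  set d := dl cl Γ y with hd
  have hb2' : dc (v b0).2 y.2 < e := hb2
  have e0 : 0 ≤ e := (dc_nonneg _ _).trans hb2'.le
  have hdj : j⁻¹ ≤ d := (D2 x y hn.near.1).2.1
  have hδ := P.d1
  have hδ0 := hn.d0
  have ha3 := P.a3
  have wx : Wn r x x := ⟨rfl, by rw [dc_self]; exact hn.r0.le⟩
  have wy : Wn r y y := ⟨rfl, by rw [dc_self]; exact hn.r0.le⟩
  have wb : Wn r y (v b0) := ⟨hb1, hb2'.le.trans P.a2⟩
  have θ0 : 0 ≤ θ := by
    have := (abs_nonneg _).trans (hn.ang x y wx wy).1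
    exact nonneg_of_mul_nonneg_left this ((inv_pos.2 hj).trans_le (hv.inv_le_cm hxy))
  have sm : ∀ i, cm Γ (v i) (v a0) + cm Γ (v i) y ≤ d + δ := fun i => by
    have h1 := three_cm_le Γ v i a0 b0
    have h2 := (D2 (v a0) (v b0) (by rwa [hb1])).1
    have h3 := abs_le.1 (D1 y.1 (v b0).2 y.2)
    have h4 : dl cl Γ (y.1, (v b0).2) = dl cl Γ (v b0) := by rw [← hb1]
    have h5 := cm_triangle Γ (v i) (v b0) y
    have h6 := hv.cm_le hb1
    have h7 := mul_le_mul_of_nonneg_left hb2'.le hj.le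
    have h8 := cm_comm Γ (v b0) (v i)
    have h9 : dl cl Γ (y.1, y.2) = d := rfl
    linarith [h3.1]
  have win : ∀ i, Wn r x (v i) ∨ Wn r y (v i) := fun i => hn.ell (v a0) (v i) ha0 (sm i)
  have wa : Wn r x (v a0) := (win a0).resolve_right fun w => ha0 (by rw [w.1])
  have ly : ∀ a b b', Wn r x a → Wn r y b → Wn r y b' → cm Γ b a ≤ cm Γ b' a + θ * dc b.2 b'.2 :=
    fun a b b' ha hb hb' => lipw90 hv hn.r1 (ha.1 ▸ hxy)
      (fun c hc => eg_symm90 (hn.ang a c ha hc)) hb hb'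
  have lx : ∀ a a' b, Wn r x a → Wn r x a' → Wn r y b → cm Γ a b ≤ cm Γ a' b + θ * dc a.2 a'.2 :=
    fun a a' b ha ha' hb => lipw90 hv hn.r1 (hb.1 ▸ hxy.symm) (fun c hc => hn.ang c b hc hb) ha ha'
  have dcm : ∀ a b : XN N, a.1 = b.1 → θ * dc a.2 b.2 ≤ θ * j * cm Γ a b := fun a b h => by
    rw [mul_assoc]
    exact mul_le_mul_of_nonneg_left (hv.le_cm h) θ0
  have dc8 : ∀ a b : XN N, a.1 = b.1 → θ * dc a.2 b.2 ≤ 1 / 8 * cm Γ a b := fun a b h =>
    (dcm a b h).trans (mul_le_mul_of_nonneg_right P.t1 (cm_nonneg _ _ _))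
  have dy : ∀ a, Wn r x a → d ≤ cm Γ y a := fun a ha => by
    rw [cm_comm]
    exact (D2 a y (by rw [ha.1]; exact hn.near.1)).1
  have lng : ∀ a b, Wn r x (v a) → Wn r y (v b) → d - δ / 7 ≤ cm Γ (v b) (v a) := fun a b ha hb => by
    have h1 := ly _ _ _ wa wy hb
    have h2 := ly _ _ _ ha wy hb
    have h3 := dc8 y (v b) hb.1.symm
    have h4 := cm_comm Γ y (v b)
    linarith [sm b, dy _ wa, dy _ ha]
  have crs2 : ∀ i ∈ crs v, (Wn r x (v i) ∧ Wn r y (v (i + 1))) ∨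
      (Wn r y (v i) ∧ Wn r x (v (i + 1))) := fun i hi => by
    have hne := (Finset.mem_filter.1 hi).2
    rcases win i with w | w <;> rcases win (i + 1) with w' | w'
    · exact absurd (w.1.trans w'.1.symm) hne
    · exact Or.inl ⟨w, w'⟩
    · exact Or.inr ⟨w, w'⟩
    · exact absurd (w.1.trans w'.1.symm) hne
  have ncr : ∀ i, i ∉ crs v → (v i).1 = (v (i + 1)).1 := fun i hi => by
    by_contra c
    exact hi (Finset.mem_filter.2 ⟨Finset.mem_univ _, c⟩)
  have card : (crs v).card = 2 := by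
    refine le_antisymm ?_ ?_
    · by_contra c
      have c3 : (3 : ℝ) ≤ (crs v).card := by exact_mod_cast not_le.1 c
      have h1 : (crs v).card • (d - δ / 7) ≤ ∑ i ∈ crs v, cm Γ (v i) (v (i + 1)) :=
        Finset.card_nsmul_le_sum _ _ _ fun i hi => (crs2 i hi).elim
          (fun w => cm_comm Γ _ _ ▸ lng _ _ w.1 w.2) fun w => lng _ _ w.2 w.1
      have h2 : ∑ i ∈ crs v, cm Γ (v i) (v (i + 1)) ≤ elm Γ v :=
        Finset.sum_le_sum_of_subset_of_nonneg (Finset.subset_univ _) fun _ _ _ => cm_nonneg _ _ _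
      rw [nsmul_eq_mul] at h1
      have h3 := mul_le_mul_of_nonneg_right c3 (show 0 ≤ d - δ / 7 by linarith)
      linarith
    · have h1 := cyc2 (fun i => if (v i).1 = x.1 then (1 : ℝ) else 0)
        (fun i => if i ∈ crs v then (1 : ℝ) else 0) (fun i => by
          by_cases c : i ∈ crs v
          · rw [if_pos c]
            split_ifs <;> simp
          · rw [if_neg c, ncr i c, dist_self]) a0 b0
      rw [if_pos wa.1, if_neg (by rw [hb1]; exact hxy.symm), Finset.sum_ite_mem, Finset.univ_inter,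
        Finset.sum_const, nsmul_eq_mul, Real.dist_eq] at h1
      have : (2 : ℝ) ≤ (crs v).card := by simpa using h1
      exact_mod_cast this
  refine ⟨win, card, fun i hi => (crs2 i hi).elim (fun w => hn.ang _ _ w.1 w.2)
    fun w => eg_symm90 (hn.ang _ _ w.2 w.1), fun i hi => ?_⟩
  have wi : Wn r x (v i) := (win i).resolve_right fun w => hxy (hi.symm.trans w.1)
  set U : Fin (n + 2) → ℝ := fun a => if (v a).1 = x.1 then cm Γ (v a) (v i) else cm Γ (v a) (v b0)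
    with hU
  have Ux : ∀ a, Wn r x (v a) → U a = cm Γ (v a) (v i) := fun a w => if_pos w.1
  have ny : ∀ a, Wn r y (v a) → (v a).1 ≠ x.1 := fun a w c => hxy (c.symm.trans w.1)
  have Uy : ∀ a, Wn r y (v a) → U a = cm Γ (v a) (v b0) := fun a w => if_neg (ny a w)
  have cj := hv.cm_le_j
  have h1 := cyc2 (fun a => if (v a).1 = x.1 then U a else 2 * j - U a)
    (fun a => if a ∈ crs v then 2 * j - (U a + U (a + 1)) else cm Γ (v a) (v (a + 1))) (fun a => by
      rw [Real.dist_eq, abs_le]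
      by_cases c : a ∈ crs v
      · rw [if_pos c]
        rcases crs2 a c with w | w
        · rw [if_pos w.1.1, if_neg (ny _ w.2), Ux _ w.1, Uy _ w.2]
          constructor <;> linarith [cj (v a) (v i), cj (v (a + 1)) (v b0)]
        · rw [if_neg (ny _ w.1), if_pos w.2.1, Uy _ w.1, Ux _ w.2]
          constructor <;> linarith [cj (v a) (v b0), cj (v (a + 1)) (v i)]
      · rw [if_neg c]
        have t : ∀ z, cm Γ (v a) z ≤ cm Γ (v a) (v (a + 1)) + cm Γ (v (a + 1)) z ∧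
            cm Γ (v (a + 1)) z ≤ cm Γ (v a) (v (a + 1)) + cm Γ (v a) z := fun z =>
          ⟨cm_triangle _ _ _ _, cm_comm Γ (v (a + 1)) (v a) ▸ cm_triangle _ _ _ _⟩
        simp only [hU, ← ncr a c]
        split_ifs <;> constructor <;> linarith [(t (v i)).1, (t (v i)).2, (t (v b0)).1, (t (v b0)).2])
    i b0
  rw [if_pos hi, if_neg (ny _ wb), Ux _ wi, Uy _ wb, cm_self, cm_self, ← Finset.sum_add_sum_compl (crs v),
    Finset.sum_congr rfl fun a (c : a ∈ crs v) => if_pos c,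
    Finset.sum_congr rfl fun a (c : a ∈ (crs v)ᶜ) => if_neg (Finset.mem_compl.1 c),
    Finset.sum_sub_distrib, Finset.sum_const, card, sub_zero, Real.dist_eq, zero_sub, abs_neg,
    abs_of_pos (by positivity), nsmul_eq_mul, Nat.cast_ofNat] at h1
  have h2 : ∀ a b, Wn r x (v a) → Wn r y (v b) →
      cm Γ (v i) y - θ * e - θ * j * (U a + U b) ≤ cm Γ (v a) (v b) := fun a b wa wb' => by
    have s1 := ly _ _ _ wi wy wb
    have s2 := ly _ _ _ wi wb wb'
    have s3 := lx _ _ _ wi wa wb'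
    have s4 := dcm _ _ (wb.1.trans wb'.1.symm)
    have s5 := dcm _ _ (wi.1.trans wa.1.symm)
    have s6 := mul_le_mul_of_nonneg_left hb2'.le θ0
    rw [dc_comm] at s6
    rw [Ux _ wa, Uy _ wb', cm_comm Γ (v a) (v i), cm_comm Γ (v b) (v b0), cm_comm Γ (v i) y]
    rw [cm_comm Γ (v i) (v b)] at s3
    linarith
  have h3 : ∑ a ∈ crs v, (cm Γ (v i) y - θ * e - θ * j * (U a + U (a + 1))) ≤ Lc Γ v :=
    Finset.sum_le_sum fun a c => (crs2 a c).elim (fun w => h2 _ _ w.1 w.2) fun w => by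
      rw [add_comm (U a), cm_comm Γ (v a)]
      exact h2 _ _ w.2 w.1
  rw [Finset.sum_sub_distrib, Finset.sum_const, card, ← Finset.mul_sum, nsmul_eq_mul,
    Nat.cast_ofNat] at h3
  have h4 := mul_le_mul_of_nonneg_left (show ∑ a ∈ crs v, (U a + U (a + 1)) ≤
    ∑ a ∈ (crs v)ᶜ, cm Γ (v a) (v (a + 1)) by linarith) (mul_nonneg θ0 hj.le)
  linarith

end Pool.Agent.Lib.IS3
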