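import Pool.Agent.Lib.IS3.Kit

/-! The bound of a chain with two long edges. -/

open scoped ContDiff ComplexConjugate Topology Real
open Complex MeasureTheory Set Filter

noncomputable section

namespace Pool.Agent.Lib.IS3

open Pool.Agent.Lib.ISO Pool.Agent.Lib.IS2

namespace PLE

lemma num {s β μ : ℝ} (hs : 1 ≤ s) (hμ : s * s = μ) (h0 : 1 / μ ≤ β) (h1 : β ≤ 1) {n m m' : ℕ}
    (hn : m + m' = n) (p q : Prop) [Decidable p] [Decidable q]
    (h : m + (if p then 1 else 0) + (if q then 1 else 0) = 2) :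
    s ^ m * β ^ m' * ((if p then 1 / s else 1 / μ) * (if q then s else 1 / μ) +
      2 * (if p then s else β) * (if q then 1 / s else 1 / μ ^ 2)) ≤
      3 * β ^ (if p then n else n - 1) := by
  have s0 : 0 < s := one_pos.trans_le hs
  have m0 : 0 < μ := hμ ▸ mul_pos s0 s0
  have b0 : 0 < β := (one_div_pos.2 m0).trans_le h0
  have bm := pow_pos b0 m'
  subst hn
  by_cases hp : p <;> by_cases hq : q <;> simp only [hp, hq, if_true, if_false] at h ⊢
  · obtain rfl : m = 0 := by omega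
    rw [zero_add]
    exact le_of_eq (by field_simp; ring)
  · obtain rfl : m = 1 := by omega
    have e : s ^ 1 * β ^ m' * (1 / s * (1 / μ) + 2 * s * (1 / μ ^ 2)) = 3 * β ^ m' * (1 / μ) := by
      rw [← hμ]; field_simp; ring
    rw [e, add_comm 1 m', pow_succ, ← mul_assoc]
    gcongr
  · obtain rfl : m = 1 := by omega
    have e : s ^ 1 * β ^ m' * (1 / μ * s + 2 * β * (1 / s)) = β ^ m' * (1 + 2 * β) := by
      rw [← hμ]; field_simp
    rw [e, show 1 + m' - 1 = m' by omega]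
    nlinarith
  · obtain rfl : m = 2 := by omega
    have e : s ^ 2 * β ^ m' * (1 / μ * (1 / μ) + 2 * β * (1 / μ ^ 2)) =
        β ^ m' * (1 / μ) * (1 + 2 * β) := by
      rw [← hμ]; field_simp
    rw [e, show 2 + m' - 1 = m' + 1 by omega, pow_succ, mul_comm 3]
    gcongr
    linarith

variable {N : ℕ}

/-- the exponential of a long edge -/
def ee (μ : ℝ) (P : MQ N) (x y : XN N) : ℂ := if x.1 ≠ y.1 then exp (μ * mc P x y) else 1
/-- the majorant of a short edge -/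
def ww (μ : ℝ) (Γ : MC N) (x y : XN N) : ℝ :=
  if x.1 ≠ y.1 then 1 else μ * rk (μ * cm Γ x y) * Real.exp (-(μ * cm Γ x y / 2))

lemma ww_nonneg {μ : ℝ} (h : 0 ≤ μ) (Γ : MC N) (x y : XN N) : 0 ≤ ww μ Γ x y := by
  have : 0 ≤ μ * cm Γ x y := mul_nonneg h (norm_nonneg _)
  unfold ww rk
  split_ifs <;> positivity

/-- the bounds of one edge -/
def Ed (C B μ : ℝ) (Γ : MC N) (P : MQ N) (x y : XN N) : Prop :=
  ‖mK μ P x y * ee μ P x y‖ ≤ C * (if x.1 ≠ y.1 then √μ else B / μ) * ww μ Γ x y ∧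
  ‖mS μ P x y * ee μ P x y‖ ≤ C * (if x.1 ≠ y.1 then 1 / √μ else 1 / μ) * ww μ Γ x y ∧
  ‖mNd μ P x y * ee μ P x y‖ ≤ C * (if x.1 ≠ y.1 then √μ else 1 / μ) * ww μ Γ x y ∧
  ‖mKd μ P x y * ee μ P x y‖ ≤ C * (if x.1 ≠ y.1 then 1 / √μ else 1 / μ ^ 2) * ww μ Γ x y

lemma edge (hK : St_KBP) (j : ℝ) : ∃ C, 1 ≤ C ∧ ∀ (N : ℕ) (Γ : MC N) B ϖ P (μ : ℝ) x y, Nv j Γ →
    Admm j B Γ ϖ P → 1 ≤ B → B ≤ μ → gp Γ x ≠ gp Γ y → Ed C B μ Γ P x y := by
  obtain ⟨C, c1, h⟩ := hK j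
  refine ⟨C, c1, fun N Γ B ϖ P μ x y a b b1 bm ne => ?_⟩
  have m0 : 0 < μ := by linarith
  obtain ⟨h1, h2⟩ := h N Γ B ϖ P μ x y a b b1 bm ne
  unfold Ed ee ww
  by_cases e : x.1 ≠ y.1
  · obtain ⟨k1, k2, k3, k4⟩ := h2 e
    simp only [if_pos e, mul_one, mul_one_div]
    exact ⟨k1, k3, k2, k4⟩
  · obtain ⟨k1, k2, k3, k4⟩ := h1 (not_not.1 e)
    simp only [if_neg e, mul_one]
    exact ⟨k1.trans_eq (by field_simp), k2.trans_eq (by field_simp), k3.trans_eq (by field_simp),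
      k4.trans_eq (by field_simp)⟩

lemma nx1 {n : ℕ} (i : Fin n) : (i.castSucc.castSucc + 1 : Fin (n + 2)) = i.succ.castSucc := by
  rw [Fin.coeSucc_eq_succ, Fin.succ_castSucc]
lemma nx2 (n : ℕ) : ((Fin.last n).castSucc + 1 : Fin (n + 2)) = Fin.last (n + 1) := by
  rw [Fin.coeSucc_eq_succ, Fin.succ_last]

lemma main {C B μ : ℝ} {Γ : MC N} {P : MQ N} (c1 : 1 ≤ C) (b1 : 1 ≤ B) (bm : B ≤ μ) {n : ℕ}
    {v : Fin (n + 2) → XN N} (h : ∀ i, Ed C B μ Γ P (v i) (v (i + 1))) (hc : (crs v).card = 2) :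
    ‖IE μ P n v‖ ≤ 3 * C ^ (n + 2) *
      (B / μ) ^ (if (Fin.last n).castSucc ∈ crs v then n else n - 1) * Sk μ Γ v := by
  have m1 : 1 ≤ μ := b1.trans bm
  have m0 : 0 < μ := by linarith
  have s1 : 1 ≤ √μ := Real.one_le_sqrt.2 m1
  have w0 := ww_nonneg m0.le Γ
  have e1 : exp (μ * ∑ i ∈ crs v, mc P (v i) (v (i + 1))) = ∏ i, ee μ P (v i) (v (i + 1)) := by
    rw [Finset.mul_sum, exp_sum, crs, Finset.prod_filter]; rfl
  have e2 : Sk μ Γ v = ∏ i, ww μ Γ (v i) (v (i + 1)) := by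
    rw [Sk, crs, Finset.compl_filter, Finset.prod_filter]
    exact Finset.prod_congr rfl fun i _ => by unfold ww; split_ifs <;> rfl
  have k1 := fun i : Fin n => (h i.castSucc.castSucc).1
  obtain ⟨k2, k3, -, -⟩ := h (Fin.last n).castSucc
  obtain ⟨-, -, k4, k5⟩ := h (Fin.last (n + 1))
  have mem : (Fin.last n).castSucc ∈ crs v ↔
      (v (Fin.last n).castSucc).1 ≠ (v ((Fin.last n).castSucc + 1)).1 := by simp [crs]
  rw [crs, Finset.card_filter] at hc
  rw [Fin.prod_univ_castSucc, Fin.prod_univ_castSucc] at e1 e2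
  rw [Fin.sum_univ_castSucc, Fin.sum_univ_castSucc, ← Finset.card_filter] at hc
  simp only [nx1, nx2, Fin.last_add_one] at e1 e2 k1 k2 k3 k4 k5 hc mem
  have hn := Finset.card_filter_add_card_filter_not (s := (Finset.univ : Finset (Fin n)))
    fun i => (v i.castSucc.castSucc).1 ≠ (v i.succ.castSucc).1
  rw [Finset.card_univ, Fintype.card_fin] at hn
  have key := num s1 (Real.mul_self_sqrt m0.le) (β := B / μ) (by gcongr) ((div_le_one m0).2 bm)
    hn _ _ hc
  have pr := (norm_prod Finset.univ _).trans_le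
    (Finset.prod_le_prod (fun _ _ => norm_nonneg _) fun i _ => k1 i)
  rw [Finset.prod_mul_distrib (f := fun _ => C * _), Finset.prod_mul_distrib (f := fun _ => C),
    Finset.prod_const, Finset.prod_ite, Finset.prod_const, Finset.prod_const, Finset.card_univ,
    Fintype.card_fin, Finset.prod_mul_distrib] at pr
  simp only [mem]
  rw [e2, IE, IM, e1]
  set x := v (Fin.last n).castSucc
  set y := v (Fin.last (n + 1))
  set a := ∏ i : Fin n, mK μ P (v i.castSucc.castSucc) (v i.succ.castSucc)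
  set b := ∏ i : Fin n, ee μ P (v i.castSucc.castSucc) (v i.succ.castSucc)
  set W := ∏ i : Fin n, ww μ Γ (v i.castSucc.castSucc) (v i.succ.castSucc)
  have W0 : 0 ≤ W := Finset.prod_nonneg fun _ _ => w0 _ _
  have e3 : a * (mS μ P x y * mNd μ P y (v 0) - 2 * mK μ P x y * mKd μ P y (v 0)) *
      (b * ee μ P x y * ee μ P y (v 0)) = a * b * (mS μ P x y * ee μ P x y *
        (mNd μ P y (v 0) * ee μ P y (v 0)) -
        2 * (mK μ P x y * ee μ P x y * (mKd μ P y (v 0) * ee μ P y (v 0)))) := by ring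
  have l1 := (norm_mul_le _ _).trans (mul_le_mul k3 k4 (norm_nonneg _) ((norm_nonneg _).trans k3))
  have l2 := (norm_mul_le _ _).trans (mul_le_mul k2 k5 (norm_nonneg _) ((norm_nonneg _).trans k2))
  have l3 := (norm_sub_le _ _).trans (add_le_add l1 ((norm_mul_le (2 : ℂ) _).trans
    (mul_le_mul (a := ‖(2 : ℂ)‖) (b := 2) (by simp) l2 (norm_nonneg _) zero_le_two)))
  rw [e3]
  refine ((norm_mul_le _ _).trans (mul_le_mul pr l3 (norm_nonneg _)
    ((norm_nonneg _).trans pr))).trans ?_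
  have f0 : 0 ≤ C ^ (n + 2) * (W * ww μ Γ x y * ww μ Γ y (v 0)) := by
    have := w0 x y
    have := w0 y (v 0)
    positivity
  exact (le_of_eq (by ring)).trans ((mul_le_mul_of_nonneg_left key f0).trans_eq (by ring))

end PLE

theorem st_ple (hKBP : St_KBP) : St_PLE := fun j => by
  obtain ⟨C, c1, h⟩ := PLE.edge hKBP j
  have c3 : 1 ≤ C ^ 3 := one_le_pow₀ c1
  refine ⟨3 * C ^ 3, by linarith, fun N Γ B ϖ P μ a b b1 bm => ?_⟩
  have m0 : 0 < μ := by linarith
  have b0 : 0 ≤ B / μ := by positivity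
  have s0 : ∀ {n} (v : Fin (n + 2) → XN N), 0 ≤ Sk μ Γ v := fun v =>
    Finset.prod_nonneg fun i _ => by
      have : 0 ≤ μ * cm Γ (v i) (v (i + 1)) := mul_nonneg m0.le (norm_nonneg _)
      unfold rk
      positivity
  refine ⟨fun n v g hc => (PLE.main c1 b1 bm (fun i => h N Γ B ϖ P μ _ _ a b b1 bm (g i)) hc).trans
    ?_, fun v g hc h1 => ?_⟩
  · have := s0 v
    have e1 : 3 * C ^ (n + 2) ≤ (3 * C ^ 3) ^ (n + 2) := by
      rw [mul_pow]
      gcongr
      · exact le_self_pow₀ (by norm_num) (by omega)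
      · exact le_self_pow₀ c1 (by omega)
    have e2 : (B / μ) ^ (if (Fin.last n).castSucc ∈ crs v then n else n - 1) ≤ (B / μ) ^ (n - 1) :=
      pow_le_pow_of_le_one b0 ((div_le_one m0).2 bm) (by split_ifs <;> omega)
    gcongr
  · have := PLE.main c1 b1 bm (fun i => h N Γ B ϖ P μ _ _ a b b1 bm (g i)) hc
    rwa [if_pos (show (Fin.last 1).castSucc ∈ crs v from h1), pow_one] at this

end Pool.Agent.Lib.IS3
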