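import Pool.Agent.Lib.IS3.Kit

/-! Row PLI: the integral of the majorant over the short chains. -/

open scoped ContDiff ComplexConjugate Topology Real ENNReal
open Complex MeasureTheory Set Filter

noncomputable section

namespace Pool.Agent.Lib.IS3

open Pool.Agent.Lib.ISO Pool.Agent.Lib.IS2

namespace PLI

variable {N n : ℕ}

lemma rk_nonneg {x : ℝ} (h : 0 ≤ x) : 0 ≤ rk x := by unfold rk; positivity

lemma rk_meas : Measurable rk := by unfold rk; fun_prop

lemma arc_le (k : Fin N) (α e : ℝ) :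
    nx N {u | u.1 = k ∧ dc u.2 α ≤ e} ≤ ENNReal.ofReal (2 * e) := by
  have : Fact (0 < 2 * π) := ⟨Real.two_pi_pos⟩
  have h := (AddCircle.measurePreserving_mk (2 * π) 0).measure_preimage
    (s := Metric.closedBall (α : AddCircle (2 * π)) e) measurableSet_closedBall.nullMeasurableSet
  rw [zero_add, AddCircle.volume_closedBall] at h
  have e1 : {u : XN N | u.1 = k ∧ dc u.2 α ≤ e} =
      {k} ×ˢ ((↑) ⁻¹' Metric.closedBall (α : AddCircle (2 * π)) e) := by
    ext u
    simp only [mem_ofPred_eq, mem_prod, mem_singleton_iff, mem_preimage, mem_closedBall_iff_norm,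
      dc, AddCircle.coe_sub]
  rw [e1, Measure.prod_prod, h, Measure.count_singleton, one_mul]
  exact ENNReal.ofReal_le_ofReal (min_le_right _ _)

lemma meas_win (r : ℝ) (x : XN N) : MeasurableSet {a | Wn r x a} :=
  ((isClosed_eq continuous_fst continuous_const).inter
    (isClosed_le ((cont_dc x.2).comp continuous_snd) continuous_const)).measurableSet

lemma meas_edge {M : Type} [MeasurableSpace M] (i : Fin (n + 2)) {f : XN N → XN N → M}
    (hf : Measurable (Function.uncurry f)) :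
    Measurable fun v : Fin (n + 2) → XN N => f (v i) (v (i + 1)) :=
  hf.comp (f := fun v : Fin (n + 2) → XN N => (v i, v (i + 1))) (by fun_prop)

lemma meas_Sk {Γ : MC N} (h : Rc Γ) (μ : ℝ) :
    Measurable fun v : Fin (n + 2) → XN N => Sk μ Γ v * Real.exp (-(μ * Lc Γ v)) := by
  have c := fun i : Fin (n + 2) => meas_edge i h.cm_cont.measurable
  have s : ∀ i, MeasurableSet {v : Fin (n + 2) → XN N | (v i).1 ≠ (v (i + 1)).1} := fun i =>
    (measurableSet_eq_fun (by fun_prop) (by fun_prop)).compl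
  simp only [Sk, Lc, crs, Finset.compl_filter, Finset.prod_filter, Finset.sum_filter]
  refine (Finset.measurable_prod _ fun i _ => Measurable.ite (s i).compl ?_ measurable_const).mul
    ((Finset.measurable_sum _ fun i _ =>
      Measurable.ite (s i) (c i) measurable_const).const_mul μ).neg.exp
  exact ((rk_meas.comp ((c i).const_mul μ)).const_mul μ).mul
    (((c i).const_mul μ).div_const 2).neg.exp

/-- the first long edge after a vertex -/
lemma first {v : Fin (n + 2) → XN N} (h : (crs v).card = 2) (a : Fin (n + 2)) :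
    ∃ c d, (c - a).val < (d - a).val ∧ (crs v)ᶜ = (Finset.univ.erase d).erase c ∧
      (v (c + 1)).1 ≠ (v a).1 := by
  obtain ⟨c, d, lt, e⟩ : ∃ c d, c - a < d - a ∧ crs v = {c, d} := by
    obtain ⟨c, d, ne, e⟩ := Finset.card_eq_two.1 h
    rcases lt_or_gt_of_ne (mt sub_left_inj.1 ne : c - a ≠ d - a) with l | l
    · exact ⟨c, d, l, e⟩
    · exact ⟨d, c, l, e.trans (Finset.pair_comm _ _)⟩
  have m : ∀ i, (v i).1 ≠ (v (i + 1)).1 ↔ i = c ∨ i = d := fun i => by
    simpa [crs] using Finset.ext_iff.1 e i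
  have k : ∀ m : Fin (n + 2), m ≤ c - a → (v (a + m)).1 = (v a).1 := fun i => by
    induction i using Fin.induction with
    | zero => simp
    | succ i ih =>
      intro hi
      have l := (Fin.castSucc_lt_succ (i := i)).trans_le hi
      rw [← ih l.le, ← Fin.coeSucc_eq_succ, ← add_assoc]
      refine by_contra fun ne => ((m _).1 (Ne.symm ne)).elim (fun x => l.ne ?_) fun x =>
        (l.trans lt).ne ?_ <;> rw [← x, add_sub_cancel_left]
  refine ⟨c, d, lt, ?_, ?_⟩
  · ext i
    simp [e]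
  · rw [← k _ le_rfl, add_sub_cancel]
    exact ((m c).2 (Or.inl rfl)).symm

/-- the kernels -/
def kr (μ : ℝ) (Γ : MC N) (r : ℝ) (x y : XN N) (c i : Fin (n + 2)) (u w : XN N) : ℝ :=
  if i = c then {a | Wn r x a}.indicator (fun a => Real.exp (-(2 * μ * cm Γ a y))) w
  else μ * rk (μ * cm Γ u w)

lemma pt (hA : St_PLA) {j : ℝ} {cl} {Γ : MC N} {r θ δ x y A μ} (h : Pd j cl Γ r θ δ x y A μ)
    {v : Fin (n + 2) → XN N} (hv : wQ cl Γ δ y (A / μ) (n + 2) v ≠ 0) :
    ∃ a c d, (c - a).val < (d - a).val ∧ ((v a).1 = y.1 ∧ dc (v a).2 y.2 ≤ A / μ) ∧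
      Sk μ Γ v * Real.exp (-(μ * Lc Γ v)) ≤ Real.exp (2 * θ * A) *
        ∏ i ∈ Finset.univ.erase d, kr μ Γ r x y c i (v i) (v (i + 1)) := by
  obtain ⟨w, c2, -, l⟩ := hA j N cl Γ r θ δ x y A μ n v h hv
  obtain ⟨-, -, a, a1, a2⟩ := wP_ne.1 hv
  obtain ⟨c, d, lt, e, ne⟩ := first c2 a
  have wx : Wn r x (v (c + 1)) := (w _).resolve_right fun z => ne (z.1.trans a1.symm)
  have m0 : 0 < μ := one_pos.trans_le h.m1
  refine ⟨a, c, d, lt, ⟨a1, le_of_lt a2⟩, ?_⟩
  replace l := l _ wx.1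
  rw [← Finset.mul_prod_erase _ _ (a := c) (Finset.mem_erase.2
    ⟨fun z => lt.ne (by rw [z]), Finset.mem_univ _⟩), kr, if_pos rfl,
    indicator_of_mem (s := {a | Wn r x a}) wx, ← e, Finset.prod_congr rfl
      (f := fun i => kr μ Γ r x y c i (v i) (v (i + 1)))
      (g := fun i => μ * rk (μ * cm Γ (v i) (v (i + 1)))) fun i hi =>
        if_neg (Finset.ne_of_mem_erase (e ▸ hi)), Sk, Finset.prod_mul_distrib, ← Real.exp_sum,
    mul_assoc, ← mul_assoc (Real.exp _), mul_comm, ← Real.exp_add, ← Real.exp_add]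
  refine mul_le_mul_of_nonneg_right (Real.exp_le_exp.2 ?_) (Finset.prod_nonneg fun i _ =>
    mul_nonneg m0.le (rk_nonneg (mul_nonneg m0.le (cm_nonneg _ _ _))))
  have s0 : 0 ≤ ∑ i ∈ (crs v)ᶜ, cm Γ (v i) (v (i + 1)) :=
    Finset.sum_nonneg fun _ _ => cm_nonneg _ _ _
  rw [Finset.sum_neg_distrib, ← Finset.sum_div, ← Finset.mul_sum]
  have l1 := mul_le_mul_of_nonneg_left l m0.le
  have l2 := mul_le_mul_of_nonneg_left (mul_le_mul_of_nonneg_right h.t1 s0) m0.le
  have l3 : μ * (2 * θ * (A / μ)) = 2 * θ * A := by field_simp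
  nlinarith [mul_nonneg m0.le s0]

end PLI

open PLI in
theorem st_pli (hP : St_PATH) (hR : St_RI) (hA : St_PLA) : St_PLI := by
  intro j
  obtain ⟨C, hC⟩ := hR j
  refine ⟨max C 2, le_max_of_le_right one_le_two, fun N cl Γ r θ δ x y A μ n h => ?_⟩
  have m0 : 0 < μ := one_pos.trans_le h.m1
  have A0 : 0 ≤ A / μ := div_nonneg (zero_le_one.trans h.a1) m0.le
  have rc := h.nv.rc
  have cy : Continuous fun a => Real.exp (-(2 * μ * cm Γ a y)) := by
    have := rc.cm_cont.comp (Continuous.prodMk_left y)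
    exact Real.continuous_exp.comp (continuous_const.mul this).neg
  have j0 : ∀ a, 0 ≤ {a | Wn r x a}.indicator (fun a => Real.exp (-(2 * μ * cm Γ a y))) a :=
    indicator_nonneg fun _ _ => (Real.exp_pos _).le
  have J0 : 0 ≤ Jw μ Γ r x y := integral_nonneg j0
  have s0 : ∀ u w, 0 ≤ μ * rk (μ * cm Γ u w) := fun u w =>
    mul_nonneg m0.le (rk_nonneg (mul_nonneg m0.le (cm_nonneg _ _ _)))
  have k0 : ∀ (c i : Fin (n + 2)) u w, 0 ≤ kr μ Γ r x y c i u w := fun c i u w => by
    unfold kr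
    split_ifs
    exacts [j0 _, s0 _ _]
  have km : ∀ c i : Fin (n + 2), Measurable (Function.uncurry fun u w =>
      ENNReal.ofReal (kr μ Γ r x y c i u w)) := fun c i => Measurable.ennreal_ofReal (by
    unfold kr
    split_ifs
    · exact (cy.measurable.indicator (meas_win r x)).comp measurable_snd
    · exact (rk_meas.comp (rc.cm_cont.measurable.const_mul μ)).const_mul μ)
  have row : ∀ u, ∫⁻ w, ENNReal.ofReal (μ * rk (μ * cm Γ u w)) ∂nx N ≤ ENNReal.ofReal (max C 2) :=
    fun u => by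
      obtain ⟨-, i1, i2⟩ := hC N Γ μ u h.nv h.m1
      rw [← ofReal_integral_eq_lintegral_ofReal (i1.const_mul μ) (ae_of_all _ (s0 u)),
        integral_const_mul]
      exact ENNReal.ofReal_le_ofReal (le_max_of_le_left ((le_div_iff₀' m0).1 i2))
  have sm : MeasurableSet {u : XN N | u.1 = y.1 ∧ dc u.2 y.2 ≤ A / μ} := meas_win (A / μ) y
  obtain ⟨G, hG⟩ : ∃ G : Fin (n + 2) × Fin (n + 2) × Fin (n + 2) → (Fin (n + 2) → XN N) → ℝ≥0∞,
      ∀ p v, G p v = if (p.2.1 - p.1).val < (p.2.2 - p.1).val then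
        {u : XN N | u.1 = y.1 ∧ dc u.2 y.2 ≤ A / μ}.indicator 1 (v p.1) *
          ∏ i ∈ Finset.univ.erase p.2.2, ENNReal.ofReal (kr μ Γ r x y p.2.1 i (v i) (v (i + 1)))
        else 0 := ⟨_, fun _ _ => rfl⟩
  have Gm : ∀ p, Measurable (G p) := fun p => by
    rw [funext (hG p)]
    split_ifs
    · refine Measurable.fun_mul ((measurable_one.indicator sm).comp (measurable_pi_apply _)) ?_
      exact Finset.measurable_prod _ fun i _ => meas_edge i (km p.2.1 i)
    · exact measurable_const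
  have Gi : ∀ p, ∫⁻ v, G p v ∂bm N (n + 2) ≤
      ENNReal.ofReal (2 * (A / μ) * (Jw μ Γ r x y * max C 2 ^ n)) := fun ⟨a, c, d⟩ => by
    simp only [hG]
    split_ifs with lt
    swap
    · simp
    have cd : c ∈ Finset.univ.erase d :=
      Finset.mem_erase.2 ⟨fun z => lt.ne (by rw [z]), Finset.mem_univ _⟩
    refine (hP _ (nx N) n a d _ (fun i u w => ENNReal.ofReal (kr μ Γ r x y c i u w))
      (fun i => if i = c then ENNReal.ofReal (Jw μ Γ r x y) else ENNReal.ofReal (max C 2))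
      (measurable_one.indicator sm) (km c) (fun i _ u => ?_) fun i hi u => ?_).trans ?_
    · unfold kr
      split_ifs
      · exact (ofReal_integral_eq_lintegral_ofReal ((int_cont cy).indicator (meas_win r x))
          (ae_of_all _ j0)).ge
      · exact row u
    · have ne : i ≠ c := fun z => lt_asymm lt (z ▸ hi)
      simp only [kr, if_neg ne, cm_comm Γ _ u]
      exact row u
    · rw [lintegral_indicator_one sm, ← Finset.mul_prod_erase _ _ cd, if_pos rfl,
        Finset.prod_congr rfl fun i hi => if_neg (Finset.ne_of_mem_erase hi), Finset.prod_const,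
        Finset.card_erase_of_mem cd, Finset.card_erase_of_mem (Finset.mem_univ _),
        Finset.card_univ, Fintype.card_fin, ENNReal.ofReal_mul (by positivity),
        ENNReal.ofReal_mul J0, ENNReal.ofReal_pow (by positivity)]
      exact mul_le_mul_left (arc_le _ _ _) _
  have wm := (wm_wP rc cl (wm_wH_lt y.1 y.2 (A / μ)) (2 * dl cl Γ y + δ / 2) (n + 2))
  have S0 : ∀ v : Fin (n + 2) → XN N, 0 ≤ Sk μ Γ v * Real.exp (-(μ * Lc Γ v)) := fun v =>
    mul_nonneg (Finset.prod_nonneg fun i _ => mul_nonneg (s0 _ _) (Real.exp_pos _).le)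
      (Real.exp_pos _).le
  have F0 : 0 ≤ᵐ[bm N (n + 2)] fun v => ‖wQ cl Γ δ y (A / μ) (n + 2) v‖ *
      (Sk μ Γ v * Real.exp (-(μ * Lc Γ v))) :=
    ae_of_all _ fun v => mul_nonneg (norm_nonneg _) (S0 v)
  have Fm := (wm.1.norm.mul (meas_Sk rc μ)).aestronglyMeasurable (μ := bm N (n + 2))
  have key : ∫⁻ v, ENNReal.ofReal (‖wQ cl Γ δ y (A / μ) (n + 2) v‖ *
      (Sk μ Γ v * Real.exp (-(μ * Lc Γ v)))) ∂bm N (n + 2) ≤ ENNReal.ofReal (max C 2 ^ (n + 2) *
        (n + 2) ^ 3 * (A / μ) * Real.exp (2 * θ * A) * Jw μ Γ r x y) := by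
    calc _ ≤ ∫⁻ v, ENNReal.ofReal (Real.exp (2 * θ * A)) * ∑ p, G p v ∂bm N (n + 2) :=
          lintegral_mono fun v => ?_
      _ ≤ ENNReal.ofReal (Real.exp (2 * θ * A)) * ∑ _p : Fin (n + 2) × Fin (n + 2) × Fin (n + 2),
          ENNReal.ofReal (2 * (A / μ) * (Jw μ Γ r x y * max C 2 ^ n)) := by
        rw [lintegral_const_mul' _ _ ENNReal.ofReal_ne_top, lintegral_finsetSum _ fun p _ => Gm p]
        exact mul_le_mul_right (Finset.sum_le_sum fun p _ => Gi p) _
      _ ≤ _ := by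
        rw [← ENNReal.ofReal_sum_of_nonneg fun _ _ => by positivity,
          ← ENNReal.ofReal_mul (Real.exp_pos _).le]
        refine ENNReal.ofReal_le_ofReal ?_
        simp only [Finset.sum_const, Finset.card_univ, Fintype.card_prod, Fintype.card_fin,
          nsmul_eq_mul, Nat.cast_mul, Nat.cast_add, Nat.cast_ofNat]
        have t : (2 : ℝ) ≤ max C 2 ^ 2 := by nlinarith [le_max_right C 2]
        have := mul_le_mul_of_nonneg_left t (by positivity : 0 ≤ max C 2 ^ n * ((n : ℝ) + 2) ^ 3 *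
          (A / μ) * Real.exp (2 * θ * A) * Jw μ Γ r x y)
        rw [pow_add]
        linarith
    by_cases hv : wQ cl Γ δ y (A / μ) (n + 2) v = 0
    · simp [hv]
    obtain ⟨a, c, d, lt, ha, le⟩ := pt hA h hv
    refine (ENNReal.ofReal_le_ofReal ((mul_le_of_le_one_left (S0 v) (wm.2.1 v)).trans le)).trans ?_
    rw [ENNReal.ofReal_mul (Real.exp_pos _).le, ENNReal.ofReal_prod_of_nonneg fun i _ => k0 _ _ _ _]
    refine mul_le_mul_right (le_trans ?_ (Finset.single_le_sum (f := fun p => G p v)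
      (fun _ _ => zero_le) (Finset.mem_univ (a, c, d)))) _
    simp only [hG, if_pos lt]
    rw [indicator_of_mem (s := {u : XN N | u.1 = y.1 ∧ dc u.2 y.2 ≤ A / μ}) ha, Pi.one_apply, one_mul]
  refine ⟨⟨Fm, (hasFiniteIntegral_iff_ofReal F0).2 (key.trans_lt ENNReal.ofReal_lt_top)⟩, ?_⟩
  rw [integral_eq_lintegral_of_nonneg_ae F0 Fm]
  exact ENNReal.toReal_le_of_le_ofReal (by positivity) key

end Pool.Agent.Lib.IS3
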