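import Pool.Agent.Lib.IS3.B_PLI

/-! Row PLJ: the lower bound for the chains with two vertices. -/

open scoped ContDiff ComplexConjugate Topology Real ENNReal
open Complex MeasureTheory Set Filter

noncomputable section

namespace Pool.Agent.Lib.IS3

open Pool.Agent.Lib.ISO Pool.Agent.Lib.IS2

namespace PLJ

variable {N : ℕ}

lemma arc_eq (k : Fin N) (α : ℝ) {e : ℝ} (h0 : 0 ≤ e) (h : e ≤ π) :
    (nx N).real {u | u.1 = k ∧ dc u.2 α ≤ e} = 2 * e := by
  have : Fact (0 < 2 * π) := ⟨Real.two_pi_pos⟩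
  have h1 := (AddCircle.measurePreserving_mk (2 * π) 0).measure_preimage
    (s := Metric.closedBall (α : AddCircle (2 * π)) e) measurableSet_closedBall.nullMeasurableSet
  rw [zero_add, AddCircle.volume_closedBall] at h1
  have e1 : {u : XN N | u.1 = k ∧ dc u.2 α ≤ e} =
      {k} ×ˢ ((↑) ⁻¹' Metric.closedBall (α : AddCircle (2 * π)) e) := by
    ext u
    simp only [mem_ofPred_eq, mem_prod, mem_singleton_iff, mem_preimage, mem_closedBall_iff_norm,
      dc, AddCircle.coe_sub]
  rw [Measure.real, e1, Measure.prod_prod, h1, Measure.count_singleton, one_mul,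
    min_eq_right (by linarith), ENNReal.toReal_ofReal (by linarith)]

lemma win_le (r : ℝ) (x : XN N) : (nx N).real {a | Wn r x a} ≤ 2 * π := by
  rw [← arc_eq x.1 x.2 Real.pi_pos.le le_rfl]
  exact measureReal_mono fun a ha => ⟨ha.1, dc_le_pi _ _⟩

/-- the distance to a point of one window is almost constant on the other window -/
lemma win_lip {j r θ δ : ℝ} {cl} {Γ : MC N} {x y a b : XN N} (h : Nv j Γ)
    (w : NW cl Γ r θ δ x y) (ha : Wn r x a) (hb : Wn r y b) :
    cm Γ a b ≤ cm Γ a y + θ * dc b.2 y.2 := by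
  obtain ⟨k, hk⟩ := exists_dc b.2 y.2
  have ne : a.1 ≠ y.1 := fun e => w.near.1 (by rw [← ha.1, e])
  have key := (convex_closedBall (y.2 + k * (2 * π)) r).norm_image_sub_le_of_norm_hasDerivWithin_le
    (f := fun u => √(‖gp Γ a - Γ y.1 u‖ ^ 2)) (C := θ)
    (f' := fun u => 2 * inner ℝ (gp Γ a - Γ y.1 u) (-deriv (Γ y.1) u) /
      (2 * √(‖gp Γ a - Γ y.1 u‖ ^ 2)))
    (fun u _ => (((h.hd y.1 u).const_sub (gp Γ a)).norm_sq.sqrt (pow_ne_zero 2
      ((inv_pos.2 h.pos).trans_le (h.inv_le_cm (x := a) (y := (y.1, u)) ne)).ne')).hasDerivWithinAt)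
    (fun u hu => by
      have p : 0 < ‖gp Γ a - Γ y.1 u‖ :=
        (inv_pos.2 h.pos).trans_le (h.inv_le_cm (x := a) (y := (y.1, u)) ne)
      have g := (w.ang a (y.1, u) ha ⟨rfl, by
        rw [← dc_add_right u y.2 k]
        exact (dc_le_abs _ _).trans hu⟩).2.1
      rw [Real.sqrt_sq p.le, mul_div_mul_left _ _ two_ne_zero, Real.norm_eq_abs, abs_div,
        abs_of_pos p, div_le_iff₀ p, inner_neg_right, abs_neg, Complex.inner]
      exact g)
    (Metric.mem_closedBall_self w.r0.le) (y := b.2) (hk.trans_le hb.2)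
  simp only [Real.sqrt_sq (norm_nonneg _), Real.norm_eq_abs, hk, (h.per y.1).int_mul k y.2] at key
  have e : cm Γ a b = ‖gp Γ a - Γ y.1 b.2‖ := by rw [← hb.1]; rfl
  have e' : cm Γ a y = ‖gp Γ a - Γ y.1 y.2‖ := rfl
  linarith [(abs_le.1 key).2]

end PLJ

open PLJ PLI in
theorem st_plj : St_PLJ := by
  intro j N cl Γ r θ δ x y A μ Cb ρ h hρ
  have m0 : 0 < μ := one_pos.trans_le h.m1
  have A0 : 0 < A / μ := div_pos (one_pos.trans_le h.a1) m0
  have A1 : A / μ ≤ 1 := h.a2.trans h.nw.r1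
  have rc := h.nv.rc
  have j0 := h.nv.pos
  have cy : Continuous fun a => Real.exp (-(2 * μ * cm Γ a y)) := by
    have := rc.cm_cont.comp (Continuous.prodMk_left y)
    exact Real.continuous_exp.comp (continuous_const.mul this).neg
  have iJ := (int_cont cy).indicator (meas_win r x)
  have wm := (wm_wP rc cl (wm_wH_lt y.1 y.2 (A / μ)) (2 * dl cl Γ y + δ / 2) (0 + 2))
  have r0 : ∀ (v : Fin (0 + 2) → XN N) i, 0 ≤ (if (v i).1 = y.1 then ρ (v i).2 else 0) ∧
      (if (v i).1 = y.1 then ρ (v i).2 else 0) ≤ 1 := fun v i => by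
    split_ifs
    exacts [⟨hρ.nn _, hρ.le _⟩, ⟨le_rfl, zero_le_one⟩]
  have F0 : ∀ v : Fin (0 + 2) → XN N, 0 ≤ rv y.1 ρ v * Real.exp (-(μ * Lc Γ v)) := fun v =>
    mul_nonneg (Finset.sum_nonneg fun i _ => (r0 v i).1) (Real.exp_pos _).le
  have iF : Integrable (fun v => ‖wQ cl Γ δ y (A / μ) (0 + 2) v‖ *
      (rv y.1 ρ v * Real.exp (-(μ * Lc Γ v)))) (bm N (0 + 2)) := by
    refine Integrable.of_bound (C := 2) (Measurable.aestronglyMeasurable (wm.1.norm.mul ?_))
      (ae_of_all _ fun v => ?_)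
    · simp only [rv, Lc, crs, Finset.sum_filter]
      refine (Finset.measurable_sum _ fun i _ => Measurable.ite
        (measurableSet_eq_fun (by fun_prop) measurable_const)
        (hρ.per.smooth.continuous.measurable.comp (by fun_prop)) measurable_const).mul
        ((Finset.measurable_sum _ fun i _ => Measurable.ite
          (measurableSet_eq_fun (by fun_prop) (by fun_prop)).compl
          (meas_edge i rc.cm_cont.measurable) measurable_const).const_mul μ).neg.exp
    · rw [Real.norm_of_nonneg (mul_nonneg (norm_nonneg _) (F0 v))]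
      refine (mul_le_of_le_one_left (F0 v) (wm.2.1 v)).trans
        ((mul_le_of_le_one_right (Finset.sum_nonneg fun i _ => (r0 v i).1) (Real.exp_le_one_iff.2
          (neg_nonpos.2 (mul_nonneg m0.le (Finset.sum_nonneg fun _ _ => cm_nonneg _ _ _))))).trans ?_)
      rw [Fin.sum_univ_two]
      linarith [(r0 v 0).2, (r0 v 1).2]
  refine ⟨?_, iF, ?_⟩
  · have i1 : μ⁻¹ ≤ A / μ := by rw [inv_eq_one_div]; gcongr; exact h.a1
    have s := meas_win μ⁻¹ x
    refine le_trans ?_ (integral_mono ((integrable_const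
      (Real.exp (-(2 * j)) * Real.exp (-(2 * μ * dl cl Γ y)))).indicator s) iJ fun a => ?_)
    · rw [integral_indicator_const _ s, smul_eq_mul]
      have := arc_eq x.1 x.2 (inv_pos.2 m0).le ((i1.trans A1).trans (by linarith [Real.two_le_pi]))
      rw [show {a | Wn μ⁻¹ x a} = {u : XN N | u.1 = x.1 ∧ dc u.2 x.2 ≤ μ⁻¹} from rfl, this,
        div_eq_mul_inv]
      have : 0 ≤ Real.exp (-(2 * j)) * μ⁻¹ * Real.exp (-(2 * μ * dl cl Γ y)) := by positivity
      linarith
    · refine le_trans (indicator_le_indicator' fun ha => ?_) (indicator_le_indicator_of_subset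
        (fun a (ha : Wn μ⁻¹ x a) => (⟨ha.1, ha.2.trans (i1.trans h.a2)⟩ : Wn r x a))
        (fun _ => (Real.exp_pos _).le) a)
      rw [← Real.exp_add, Real.exp_le_exp, ← h.nw.near.2]
      have l := mul_le_mul_of_nonneg_left ((cm_triangle Γ a x y).trans (add_le_add_left
        ((h.nv.cm_le ha.1).trans (mul_le_mul_of_nonneg_left ha.2 j0.le)) _)) m0.le
      have : μ * (j * μ⁻¹) = j := by field_simp
      linarith
  · have s := meas_win (A / μ / 2) y
    obtain ⟨E, hE⟩ : ∃ E, E = Real.exp (-(2 * μ * (dl cl Γ y + δ / 8))) := ⟨_, rfl⟩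
    have E0 : 0 < E := hE ▸ Real.exp_pos _
    rw [← hE]
    obtain ⟨f, f0, f1⟩ : ∃ f : Fin (0 + 2) → XN N → ℝ,
        f 0 = {a | Wn (A / μ / 2) y a}.indicator (fun _ => Real.exp (-(θ * A))) ∧
        f 1 = fun a => {a | Wn r x a}.indicator (fun a => Real.exp (-(2 * μ * cm Γ a y))) a -
          {a | Wn r x a}.indicator (fun _ => E) a := ⟨![_, _], rfl, rfl⟩
    have iE := (integrable_const (μ := nx N) E).indicator (meas_win r x)
    refine le_trans ?_ (integral_mono (Integrable.fintype_prod (f := f) (μ := fun _ => nx N)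
      (Fin.forall_fin_two.2 ⟨f0 ▸ (integrable_const _).indicator s, f1 ▸ iJ.sub iE⟩)) iF
      fun v => ?_)
    · rw [integral_fintype_prod_eq_prod, Fin.prod_univ_two, f0, f1, integral_indicator_const _ s,
        integral_sub iJ iE, integral_indicator_const _ (meas_win r x), smul_eq_mul, smul_eq_mul,
        show {a | Wn (A / μ / 2) y a} = {u : XN N | u.1 = y.1 ∧ dc u.2 y.2 ≤ A / μ / 2} from rfl,
        arc_eq y.1 y.2 (by positivity) (by linarith [Real.two_le_pi]),
        mul_div_cancel₀ _ two_ne_zero]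
      exact mul_le_mul_of_nonneg_left (sub_le_sub_left
        (mul_le_mul_of_nonneg_right (win_le r x) E0.le) _) (by positivity)
    · have z := mul_nonneg (norm_nonneg (wQ cl Γ δ y (A / μ) (0 + 2) v)) (F0 v)
      beta_reduce
      rw [Fin.prod_univ_two, f0, f1]
      beta_reduce
      by_cases c0 : v 0 ∈ {a | Wn (A / μ / 2) y a}
      swap
      · rwa [indicator_of_notMem c0, zero_mul]
      by_cases c1 : v 1 ∈ {a | Wn r x a}
      swap
      · rwa [indicator_of_notMem c1, indicator_of_notMem c1, sub_zero, mul_zero]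
      rw [indicator_of_mem c0, indicator_of_mem c1, indicator_of_mem c1]
      rcases le_total (dl cl Γ y + δ / 8) (cm Γ (v 1) y) with c2 | c2
      · refine (mul_nonpos_of_nonneg_of_nonpos (Real.exp_pos _).le (sub_nonpos.2 ?_)).trans z
        rw [hE]
        gcongr
      have el : elm Γ v = 2 * cm Γ (v 1) (v 0) := by
        rw [elm, Fin.sum_univ_two, two_mul, cm_comm]
        rfl
      have w1 : wQ cl Γ δ y (A / μ) (0 + 2) v = 1 := (wP_01 _ _ _ _ _ _ v).resolve_left
        (wP_ne.2 ⟨by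
          have := (h.nv.cm_le c0.1).trans (mul_le_mul_of_nonneg_left c0.2 j0.le)
          linarith [cm_triangle Γ (v 1) y (v 0), cm_comm Γ y (v 0), h.a3],
          ⟨1, 0, by rw [c1.1, c0.1]; exact h.nw.near.1⟩,
          0, c0.1, c0.2.trans_lt (half_lt_self A0)⟩)
      have r1 : 1 ≤ rv y.1 ρ v := by
        rw [rv, Fin.sum_univ_two, if_pos c0.1, hρ.one _ c0.2]
        linarith [(r0 v 1).1]
      have t0 : 0 ≤ θ := nonneg_of_mul_nonneg_left ((abs_nonneg _).trans (h.nw.ang x y
        ⟨rfl, (dc_self _).trans_le h.nw.r0.le⟩ ⟨rfl, (dc_self _).trans_le h.nw.r0.le⟩).1)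
        ((inv_pos.2 j0).trans_le (h.nv.inv_le_cm fun e => h.nw.near.1 (by rw [e])))
      have l1 := win_lip h.nv h.nw c1 ⟨c0.1, c0.2.trans ((half_le_self A0.le).trans h.a2)⟩
      have l2 : Lc Γ v ≤ elm Γ v := Finset.sum_le_univ_sum_of_nonneg fun _ => cm_nonneg _ _ _
      rw [w1, norm_one, one_mul]
      refine (mul_le_mul_of_nonneg_left (sub_le_self _ E0.le) (Real.exp_pos _).le).trans
        (le_trans ?_ (le_mul_of_one_le_left (Real.exp_pos _).le r1))
      rw [← Real.exp_add, Real.exp_le_exp]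
      have l3 := mul_le_mul_of_nonneg_left (l2.trans (el.trans_le (mul_le_mul_of_nonneg_left
        (l1.trans (add_le_add_right (mul_le_mul_of_nonneg_left c0.2 t0) _)) zero_le_two))) m0.le
      have : μ * (θ * (A / μ / 2)) = θ * A / 2 := by field_simp
      linarith

end Pool.Agent.Lib.IS3
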