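import Pool.Agent.Lib.IS3.Kit

/-! The lower bound for the first variation of a chain with two long edges. -/

open scoped ContDiff ComplexConjugate Topology Real
open Complex MeasureTheory Set Filter

noncomputable section

namespace Pool.Agent.Lib.IS3

open Pool.Agent.Lib.ISO Pool.Agent.Lib.IS2

namespace PLM

variable {N n : ℕ}

lemma leg {γ : ℝ → ℂ} {ρ : ℝ → ℝ} {j G a b : ℝ} (h : ContDiff ℝ ∞ γ) (hρ : ContDiff ℝ ∞ ρ)
    (h1 : ∀ s, ‖deriv γ s‖ ≤ j) (h2 : ∀ s, ‖deriv (deriv γ) s‖ ≤ j)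
    (h3 : ∀ s, ‖deriv (deriv (deriv γ)) s‖ ≤ G) (r0 : ∀ s, |ρ s| ≤ 1)
    (r1 : ∀ s, |deriv ρ s| ≤ a) (r2 : ∀ s, |deriv (deriv ρ) s| ≤ b) (s : ℝ) :
    ‖nl γ ρ s‖ ≤ j ∧ ‖deriv (nl γ ρ) s‖ ≤ a * j + j ∧
      ‖deriv (deriv (nl γ ρ)) s‖ ≤ b * j + 2 * (a * j) + G := by
  have s1 := (contDiff_infty_iff_deriv.1 h).2
  have s2 := (contDiff_infty_iff_deriv.1 s1).2
  have p1 := (contDiff_infty_iff_deriv.1 hρ).2
  have hd : ∀ {u : ℝ → ℝ} {g : ℝ → ℂ}, ContDiff ℝ ∞ u → ContDiff ℝ ∞ g → ∀ t,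
      HasDerivAt (fun s => (u s : ℂ) * (I * g s))
        ((deriv u t : ℝ) * (I * g t) + (u t : ℂ) * (I * deriv g t)) t := fun hu hg t =>
    (hu.differentiable (by simp) t).hasDerivAt.ofReal_comp.mul
      ((hg.differentiable (by simp) t).hasDerivAt.const_mul I)
  have nb : ∀ {x X Z : ℝ} {z : ℂ}, |x| ≤ X → ‖z‖ ≤ Z → ‖(x : ℂ) * (I * z)‖ ≤ X * Z :=
    fun hx hz => by
      rw [norm_mul, norm_mul, norm_I, one_mul, norm_real, Real.norm_eq_abs]
      exact mul_le_mul hx hz (norm_nonneg _) ((abs_nonneg _).trans hx)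
  have e1 : deriv (nl γ ρ) = cp fun t =>
      (deriv ρ t : ℝ) * (I * deriv γ t) + (ρ t : ℂ) * (I * deriv (deriv γ) t) := by
    exact (deriv_cp fun t => (hd hρ s1 t).differentiableAt).trans
      (congrArg cp (funext fun t => (hd hρ s1 t).deriv))
  have d2 := fun t => (hd p1 s1 t).fun_add (hd hρ s2 t)
  refine ⟨?_, ?_, ?_⟩
  · rw [nl, norm_cp]
    simpa only [one_mul, nr] using nb (r0 s) (h1 s)
  · rw [e1, norm_cp]
    linarith [norm_add_le ((deriv ρ s : ℝ) * (I * deriv γ s)) ((ρ s : ℂ) * (I * deriv (deriv γ) s)),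
      nb (r1 s) (h1 s), nb (r0 s) (h2 s)]
  · rw [e1, deriv_cp fun t => (d2 t).differentiableAt, norm_cp, (d2 s).deriv]
    refine (norm_add_le_of_le (norm_add_le_of_le (nb (r2 s) (h1 s)) (nb (r1 s) (h2 s)))
      (norm_add_le_of_le (nb (r1 s) (h2 s)) (nb (r0 s) (h3 s)))).trans_eq (by ring)

lemma dadd {P Q : ℝ → C2} (hP : P ∈ SP) (hQ : Q ∈ SP) (ε : ℂ) :
    deriv (P + ε • Q) = deriv P + ε • deriv Q := funext fun s =>
  ((SP.diff hP s).hasDerivAt.add ((SP.diff hQ s).hasDerivAt.const_smul ε)).deriv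

lemma adm {j G Cb c e α : ℝ} {Γ : MC N} {k : Fin N} {ρ : ℝ → ℝ} {ε : ℂ} (h : Nv j Γ)
    (h3 : ∀ i s, ‖deriv (deriv (deriv (Γ i))) s‖ ≤ G) (hρ : Bm Cb e α ρ) (e0 : 0 < e) (c0 : 0 < c)
    (hc : c * (80 * j ^ 2 * (|Cb| + 1)) = 1) (he : 2 * (j + 1 + |G|) * e ≤ 1) (hε : ‖ε‖ ≤ c * e) :
    Admm j e⁻¹ Γ (c * e * j) (cpm Γ + ε • bu Γ k ρ) := by
  have j1 := h.one_le
  have C0 := abs_nonneg Cb
  have G0 := abs_nonneg G
  have e1 : e ≤ 1 := by nlinarith
  have b : ∀ i s, ‖bu Γ k ρ i s‖ ≤ j ∧ ‖deriv (bu Γ k ρ i) s‖ ≤ |Cb| / e * j + j ∧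
      ‖deriv (deriv (bu Γ k ρ i)) s‖ ≤ |Cb| / e ^ 2 * j + 2 * (|Cb| / e * j) + |G| := fun i s => by
    by_cases l : i = k
    · rw [l, bu, Pi.single_eq_same]
      exact leg (h.smooth k) hρ.per.smooth (h.b1 k) (h.b2 k)
        (fun s => (h3 k s).trans (le_abs_self G))
        (fun s => abs_le.2 ⟨by linarith [hρ.nn s], hρ.le s⟩)
        (fun s => (hρ.b1 s).trans (by gcongr; exact le_abs_self _))
        (fun s => (hρ.b2 s).trans (by gcongr; exact le_abs_self _)) s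
    · rw [bu, Pi.single_eq_of_ne l, deriv_zero, deriv_zero, Pi.zero_apply, norm_zero]
      exact ⟨by positivity, by positivity, by positivity⟩
  have k1 : c * j * (|Cb| + 1) = (80 * j)⁻¹ := eq_inv_of_mul_eq_one_left (by linarith)
  have k2 : (80 * j)⁻¹ ≤ 1 / 80 := by
    rw [one_div]
    exact inv_anti₀ (by norm_num) (by linarith)
  have k3 : 0 ≤ c * j := by positivity
  refine ⟨fun i => ?_, fun _ _ _ => ?_⟩
  · have mP := mem_SPm.1 h.cpm_mem i
    have mQ := mem_SPm.1 (h.rc.bu_mem k hρ.per) i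
    have ee : (cpm Γ + ε • bu Γ k ρ) i = cpm Γ i + ε • bu Γ k ρ i := rfl
    rw [ee]
    refine ⟨SP.add_mem mP (SP.smul_mem ε mQ), fun s => ?_, fun s => ?_, fun s => ?_⟩
    · rw [Pi.add_apply, cpm, add_sub_cancel_left, Pi.smul_apply, norm_smul]
      exact mul_le_mul hε (b i s).1 (norm_nonneg _) (by positivity)
    · rw [dadd mP mQ, Pi.add_apply, cpm, add_sub_cancel_left, Pi.smul_apply, norm_smul]
      refine (mul_le_mul hε (b i s).2.1 (norm_nonneg _) (by positivity)).trans ?_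
      have : c * e * (|Cb| / e * j + j) = c * j * (|Cb| + e) := by field_simp
      rw [this]
      refine le_trans (le_trans ?_ k1.le) (inv_anti₀ (by positivity) (by linarith))
      gcongr
    · rw [dadd mP mQ, dadd (SP.s1 mP) (SP.s1 mQ), Pi.add_apply, Pi.smul_apply]
      refine (norm_add_le_of_le ((h.adm0.1 i).a2 s) ((norm_smul _ _).trans_le
        (mul_le_mul hε (b i s).2.2 (norm_nonneg _) (by positivity)))).trans ?_
      have : c * e * (|Cb| / e ^ 2 * j + 2 * (|Cb| / e * j) + |G|) =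
          c * j * |Cb| * e⁻¹ + 2 * (c * j * |Cb|) + c * e * |G| := by field_simp
      rw [this]
      have k4 : c * j * |Cb| ≤ 1 / 80 := by nlinarith
      have k5 : c * e ≤ 1 := by nlinarith
      have k6 : 2 * (j + 1 + |G|) ≤ e⁻¹ := by rwa [← one_div, le_div_iff₀ e0]
      nlinarith [mul_le_mul_of_nonneg_right k4 (inv_pos.2 e0).le, mul_le_mul_of_nonneg_right k5 G0]
  · rw [← k1]
    nlinarith [mul_le_mul_of_nonneg_left e1 k3]

lemma slit {z : ℂ} {r : ℝ} (r0 : 0 < r) (h : ‖z ^ (1 / 2 : ℂ) - r‖ ≤ r / 10) : z ∈ slitPlane := by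
  have e : (z ^ (1 / 2 : ℂ)) ^ 2 = z := by rw [one_div]; exact cpow_ofNat_inv_pow z 2
  have a := abs_le.1 ((abs_re_le_norm _).trans h)
  have b := abs_le.1 ((abs_im_le_norm _).trans h)
  rw [sub_re, ofReal_re] at a
  rw [sub_im, ofReal_im, sub_zero] at b
  refine Or.inl ?_
  rw [← e, sq, mul_re]
  nlinarith [a.1, b.1, b.2]

lemma sk_nonneg {μ : ℝ} (hμ : 0 ≤ μ) (Γ : MC N) (v : Fin (n + 2) → XN N) : 0 ≤ Sk μ Γ v :=
  Finset.prod_nonneg fun i _ => by
    have := cm_nonneg Γ (v i) (v (i + 1))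
    unfold rk
    positivity

lemma hol (hKB : St_KBm) (hKM : St_KMm) {j B ϖ μ : ℝ} {Γ : MC N} {Q : MQ N} {ε : ℂ}
    {v : Fin (n + 2) → XN N} (h : Nv j Γ) (hQ : Q ∈ SPm N) (ha : Admm j B Γ ϖ (cpm Γ + ε • Q))
    (hμ : 1 ≤ μ) (hv : Gw Γ v) : DifferentiableAt ℂ (fun ζ : ℂ => IE μ (cpm Γ + ζ • Q) n v) ε := by
  have d0 : ∀ i s, DifferentiableAt ℂ (fun ζ : ℂ => (cpm Γ + ζ • Q) i s) ε := fun i s =>
    show DifferentiableAt ℂ (fun ζ : ℂ => cpm Γ i s + ζ • Q i s) ε from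
      (differentiableAt_fun_id.smul_const (Q i s)).const_add (cpm Γ i s)
  have d1 : ∀ i s, DifferentiableAt ℂ (fun ζ : ℂ => deriv ((cpm Γ + ζ • Q) i) s) ε := fun i s => by
    have : ∀ ζ : ℂ, deriv ((cpm Γ + ζ • Q) i) s = deriv (cpm Γ i) s + ζ • deriv (Q i) s := fun ζ =>
      congrFun (dadd (mem_SPm.1 h.cpm_mem i) (mem_SPm.1 hQ i) ζ) s
    simp only [this]
    exact (differentiableAt_id.smul_const _).const_add _
  have sm : Sm (μ : ℂ) := by
    rw [Sm, norm_real, Real.norm_of_nonneg (by linarith), ofReal_re]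
    exact ⟨hμ, by linarith⟩
  obtain ⟨C, -, kb⟩ := hKB j B
  refine ((hKM N).2 j B Γ ϖ (fun _ => μ) (fun ζ => cpm Γ + ζ • Q) ε n v h ha sm hv
    (differentiableAt_const _) fun i s => ⟨d0 i s, d1 i s⟩).mul
    ((DifferentiableAt.fun_sum fun i _ => ?_).const_mul _).cexp
  have dD : DifferentiableAt ℂ (fun ζ : ℂ => mD (cpm Γ + ζ • Q) (v i) (v (i + 1))) ε :=
    (d0 _ _).sub (d0 _ _)
  exact (((dD.fst.mul dD.snd).add (dD.snd.mul dD.fst)).div_const 2).cpow_const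
    (slit (cm_pos (hv i)) ((kb N Γ ϖ _ h ha).1 _ _ (hv i)).1)

lemma der {f E L : ℂ → ℂ} {μ D l : ℝ} (hf : ∀ ε, E ε = f ε * exp (μ * L ε))
    (hE : DifferentiableAt ℂ E 0) (hL : HasDerivAt L D 0) (L0 : L 0 = l) :
    (2 * (-2) ^ n * deriv f 0).re =
      2 * (-2) ^ n * ((deriv E 0).re - μ * D * (E 0).re) * Real.exp (-(μ * l)) := by
  have e : f = fun ε => E ε * exp (-(μ * L ε)) := funext fun ε => by
    rw [hf, mul_assoc, ← exp_add, add_neg_cancel, exp_zero, mul_one]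
  have d := (hE.hasDerivAt.fun_mul (hL.const_mul (μ : ℂ)).fun_neg.cexp).deriv
  have : 2 * (-2) ^ n * deriv f 0 = ((2 * (-2) ^ n * Real.exp (-(μ * l)) : ℝ) : ℂ) *
      (deriv E 0 - ((μ * D : ℝ) : ℂ) * E 0) := by
    rw [e, d, L0]
    push_cast
    ring
  rw [this, re_ofReal_mul, sub_re, re_ofReal_mul]
  ring

lemma pw {x q : ℝ} (hx : 0 ≤ x) (hq : 1 ≤ q) : 2 * 2 ^ n * x ^ (n + 2) * q ≤ (2 * x * q) ^ (n + 2) := by
  rw [mul_pow, mul_pow]
  have : (2 : ℝ) * 2 ^ n ≤ 2 ^ (n + 2) := by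
    rw [pow_add]
    nlinarith [pow_pos (two_pos (α := ℝ)) n]
  gcongr
  exact le_self_pow₀ hq (by omega)

end PLM

theorem st_plm (hKB : St_KBm) (hKM : St_KMm) (hLN : St_LNKm) (hE : St_PLE) (hS : St_PLS) :
    St_PLM := by
  intro j Cb
  by_cases j1 : 1 ≤ j
  swap
  · exact ⟨1, 1, one_pos, le_rfl, fun _ _ _ _ h => absurd h.one_le j1⟩
  obtain ⟨CE, E1, ple⟩ := hE j
  obtain ⟨c, CS, μS, c0, pls⟩ := hS j
  set W : ℝ := 80 * j ^ 2 * (|Cb| + 1) with hW
  have W0 : 0 < W := by positivity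
  set K : ℝ := 1 + j + |CS| with hK
  have S0 := abs_nonneg CS
  have q1 : 1 ≤ 1 + W + 2 * |CS| * K := by
    have : 0 ≤ 2 * |CS| * K := by positivity
    linarith
  refine ⟨c * c, 2 * CE * (1 + W + 2 * |CS| * K), by positivity, by nlinarith,
    fun A hA N Γ h => ?_⟩
  have A1 : 1 ≤ A := le_trans (by nlinarith) hA
  obtain ⟨G, G0, hG⟩ := bd_per (f := fun x : XN N => deriv (deriv (deriv (Γ x.1))) x.2)
    (cont_ev (P := fun i => deriv (deriv (deriv (Γ i)))) fun i => (contDiff_infty_iff_deriv.1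
      (contDiff_infty_iff_deriv.1 (h.rc.s1 i)).2).2.continuous)
    fun x => per_deriv' (per_deriv' (per_deriv' (h.per x.1))) x.2
  refine ⟨max μS (2 * (j + 1 + |G|) * A), fun μ hμ k ρ α n v hρ hv h2 hg => ?_⟩
  have m1 : 2 * (j + 1 + |G|) * A ≤ μ := (le_max_right _ _).trans hμ
  have G1 := abs_nonneg G
  have m2 : A ≤ μ := by nlinarith
  have m3 : j ≤ μ := by nlinarith
  have μ0 : 0 < μ := by linarith
  have e0 : 0 < A / μ := by positivity
  have u1 : 1 ≤ μ / A := (one_le_div (by linarith)).2 m2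
  have mQ := h.rc.bu_mem k hρ.per
  have S1 := PLM.sk_nonneg μ0.le Γ v
  have ad : ∀ ε : ℂ, ‖ε‖ ≤ W⁻¹ * (A / μ) →
      Admm j (μ / A) Γ (W⁻¹ * (A / μ) * j) (cpm Γ + ε • bu Γ k ρ) := fun ε hε => by
    rw [← inv_div]
    exact PLM.adm h (fun i s => hG (i, s)) hρ e0 (inv_pos.2 W0) (inv_mul_cancel₀ W0.ne')
      (by rw [← mul_div_assoc, div_le_one μ0]; exact m1) hε
  have bd : ∀ ε : ℂ, ‖ε‖ ≤ W⁻¹ * (A / μ) → ‖IE μ (cpm Γ + ε • bu Γ k ρ) n v‖ ≤
      CE ^ (n + 2) * (A ^ (n - 1))⁻¹ * Sk μ Γ v := fun ε hε => by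
    have := (ple N Γ _ _ _ μ h (ad ε hε) u1 (div_le_self μ0.le A1)).1 n v hv h2
    rwa [show μ / A / μ = A⁻¹ by field_simp, inv_pow] at this
  have R0 : 0 < W⁻¹ * (A / μ) := by positivity
  have ho := fun ε hε => PLM.hol hKB hKM h mQ (ad ε hε) (A1.trans m2) hv
  have ca := norm_deriv_le_of_forall_mem_sphere_norm_le (c := 0) R0
    (DifferentiableOn.diffContOnCl fun ε hε => (ho ε (by
      rwa [closure_ball _ R0.ne', mem_closedBall_zero_iff] at hε)).differentiableWithinAt)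
    fun ε hε => bd ε (mem_sphere_zero_iff_norm.1 hε).le
  obtain ⟨p0, p1, p3⟩ := pls μ ((le_max_left _ _).trans hμ) N Γ h
  have mc : ∀ i, i ∈ crs v ↔ (v i).1 ≠ (v (i + 1)).1 := fun i => by simp [crs]
  choose! d hd using fun i (hi : i ∈ crs v) =>
    p3 k ρ (v i) (v (i + 1)) hρ.per (fun s => ⟨hρ.nn s, hρ.le s⟩) ((mc i).1 hi)
  have rv0 : ∀ {m : ℕ} (w : Fin m → XN N), 0 ≤ rv k ρ w := fun w =>
    Finset.sum_nonneg fun i _ => by split_ifs; exacts [hρ.nn _, le_rfl]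
  have hL : HasDerivAt (fun ε : ℂ => ∑ i ∈ crs v, IS3.mc (cpm Γ + ε • bu Γ k ρ) (v i) (v (i + 1)))
      ((∑ i ∈ crs v, d i : ℝ) : ℂ) 0 := by
    rw [ofReal_sum]
    exact HasDerivAt.fun_sum fun i hi => (hd i hi).1
  have z0 : cpm Γ + (0 : ℂ) • bu Γ k ρ = cpm Γ := by rw [zero_smul, add_zero]
  have D1 : ∑ i ∈ crs v, c * rv k ρ ![v i, v (i + 1)] ≤ -∑ i ∈ crs v, d i := by
    rw [← Finset.sum_neg_distrib]
    exact Finset.sum_le_sum fun i hi => (hd i hi).2.2 (hg i hi)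
  have D0 : 0 ≤ -∑ i ∈ crs v, d i :=
    (Finset.sum_nonneg fun i _ => mul_nonneg c0.le (rv0 _)).trans D1
  have D2 : -∑ i ∈ crs v, d i ≤ 2 * |CS| := by
    have := Finset.sum_le_card_nsmul (crs v) (fun i => -d i) |CS| fun i hi =>
      (neg_le_abs _).trans ((hd i hi).2.1.trans (le_abs_self _))
    rwa [Finset.sum_neg_distrib, h2, nsmul_eq_mul, Nat.cast_ofNat] at this
  rw [dI, PLM.der (E := fun ζ : ℂ => IE μ (cpm Γ + ζ • bu Γ k ρ) n v) (l := Lc Γ v) (fun _ => rfl)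
    (ho 0 (by rw [norm_zero]; exact R0.le)) hL (by
    rw [z0, Lc, ofReal_sum]
    exact Finset.sum_congr rfl fun i _ => (hLN.1 N Γ μ _ _ h.rc.diff μ0 (hv i)).1)]
  refine mul_le_mul_of_nonneg_right ?_ (Real.exp_pos _).le
  have b0 := bd 0 (by rw [norm_zero]; exact R0.le)
  simp only [z0] at b0 ⊢
  generalize (∑ i ∈ crs v, d i) = D at D0 D1 D2
  set T : ℝ := CE ^ (n + 2) * (μ / A ^ max 1 (n - 1)) * Sk μ Γ v with hT
  have T0 : 0 ≤ T := by positivity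
  have t1 : |(deriv (fun ζ : ℂ => IE μ (cpm Γ + ζ • bu Γ k ρ) n v) 0).re| ≤ W * T := by
    refine (abs_re_le_norm _).trans (ca.trans ?_)
    have : CE ^ (n + 2) * (A ^ (n - 1))⁻¹ * Sk μ Γ v / (W⁻¹ * (A / μ)) =
        W * (CE ^ (n + 2) * (μ / A ^ (n - 1 + 1)) * Sk μ Γ v) := by
      rw [pow_succ A]
      field_simp
    rw [this, hT]
    gcongr
    omega
  have t2 : (if n = 0 then c * c * μ * rv k ρ v else 0) - 2 * 2 ^ n * (2 * |CS| * (K * T)) ≤
      2 * (-2) ^ n * (μ * -D * (IE μ (cpm Γ) n v).re) := by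
    have KT : 0 ≤ K * T := by positivity
    have gen : μ * ‖IE μ (cpm Γ) n v‖ ≤ K * T → 0 - 2 * 2 ^ n * (2 * |CS| * (K * T)) ≤
        2 * (-2) ^ n * (μ * -D * (IE μ (cpm Γ) n v).re) := fun hb => by
      refine le_trans ?_ (neg_abs_le _)
      rw [zero_sub, neg_le_neg_iff, abs_mul, abs_mul, abs_pow, abs_neg, abs_two, mul_comm μ,
        mul_assoc (-D), abs_mul, abs_of_nonneg D0, abs_mul, abs_of_pos μ0]
      exact mul_le_mul_of_nonneg_left (mul_le_mul D2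
        ((mul_le_mul_of_nonneg_left (abs_re_le_norm _) μ0.le).trans hb) (by positivity)
        (by positivity)) (by positivity)
    obtain _ | _ | n := n
    · have u : crs v = Finset.univ := Finset.eq_univ_of_card _ (by rw [h2]; rfl)
      have a := (p0 v ((mc 0).1 (u ▸ Finset.mem_univ _)) (hg 0 (u ▸ Finset.mem_univ _))).2
      have b := (Finset.single_le_sum (f := fun i => c * rv k ρ ![v i, v (i + 1)])
        (fun i _ => mul_nonneg c0.le (rv0 _)) (u ▸ Finset.mem_univ (0 : Fin (0 + 2)))).trans D1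
      have e : rv k ρ ![v 0, v (0 + 1)] = rv k ρ v := by
        rw [rv, rv, Fin.sum_univ_two, Fin.sum_univ_two]; rfl
      rw [e] at b
      have := mul_le_mul_of_nonneg_left (mul_le_mul b a c0.le D0) μ0.le
      have := mul_nonneg μ0.le (mul_nonneg (mul_nonneg c0.le (rv0 v)) c0.le)
      have := mul_nonneg S0 KT
      rw [if_pos rfl, pow_zero, pow_zero]
      nlinarith
    · rw [if_neg (by omega)]
      have c3 : 1 ≤ CE ^ (0 + 1 + 2) * (μ / A ^ max 1 (0 + 1 - 1)) :=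
        one_le_mul_of_one_le_of_one_le (one_le_pow₀ E1) (by simpa using u1)
      by_cases o : 1 ∈ crs v
      · refine gen ((mul_le_mul_of_nonneg_left
          ((ple N Γ _ _ _ μ h h.adm0 j1 m3).2 v hv h2 o) μ0.le).trans ?_)
        have c4 : CE ≤ CE ^ (0 + 1 + 2) * (μ / A ^ max 1 (0 + 1 - 1)) :=
          (le_self_pow₀ E1 (by omega)).trans
            (le_mul_of_one_le_right (by positivity) (by simpa using u1))
        rw [show μ * (CE * (j / μ) * Sk μ Γ v) = j * (CE * Sk μ Γ v) by field_simp, hT]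
        gcongr
        linarith
      · have u : crs v = Finset.univ.erase 1 := Finset.eq_of_subset_of_card_le
          (fun i hi => Finset.mem_erase.2 ⟨fun e => o (e ▸ hi), Finset.mem_univ _⟩)
          (by rw [h2]; rfl)
        have i0 : 0 ∈ crs v := by rw [u]; decide
        have i2 : 2 ∈ crs v := by rw [u]; decide
        have a := (p1 v hv ((mc 0).1 i0) (not_not.1 (mt (mc 1).2 o)) (hg 0 i0) (hg 2 i2)).2
        have b : μ * (IE μ (cpm Γ) (0 + 1) v).re ≤ K * T := by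
          refine (mul_le_mul_of_nonneg_left a μ0.le).trans ?_
          rw [show μ * (CS / μ * Sk μ Γ v) = CS * (1 * Sk μ Γ v) by field_simp, hT]
          gcongr
          linarith [le_abs_self CS]
        rw [show (2 : ℝ) ^ (0 + 1) = 2 by norm_num, show (-2 : ℝ) ^ (0 + 1) = -2 by norm_num]
        linarith [mul_le_mul_of_nonneg_left b D0, mul_le_mul_of_nonneg_right D2 KT]
    · rw [if_neg (by omega)]
      refine gen ((mul_le_mul_of_nonneg_left b0 μ0.le).trans ?_)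
      refine le_trans (le_of_eq ?_) (le_mul_of_one_le_left T0 (by linarith))
      rw [hT, max_eq_right (by omega)]
      ring
  have t3 : -(2 * 2 ^ n * (W * T)) ≤
      2 * (-2) ^ n * (deriv (fun ζ : ℂ => IE μ (cpm Γ + ζ • bu Γ k ρ) n v) 0).re := by
    refine le_trans ?_ (neg_abs_le _)
    rw [neg_le_neg_iff, abs_mul, abs_mul, abs_pow, abs_neg, abs_two]
    gcongr
  have t4 := mul_le_mul_of_nonneg_right (PLM.pw (n := n) (by linarith : 0 ≤ CE) q1)
    (show 0 ≤ μ / A ^ max 1 (n - 1) * Sk μ Γ v by positivity)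
  have t5 : 0 ≤ 2 * 2 ^ n * T := by positivity
  rw [hT] at t2 t3 t5
  linarith

end Pool.Agent.Lib.IS3
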