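import Pool.Agent.Lib.IS3.Kit

/-! The short chains at the real curves. -/

open scoped ContDiff ComplexConjugate Topology Real
open Complex MeasureTheory Set Filter

noncomputable section

namespace Pool.Agent.Lib.IS3

open Pool.Agent.Lib.ISO Pool.Agent.Lib.IS2

namespace PLS

lemma asy (hA1 : St_A1) (hA2 : St_A2) : ∃ C : ℝ, 1 ≤ C ∧ ∀ z : ℝ, C ≤ z →
    1 ≤ (k0 z * Real.exp z) * (l1 z * Real.exp z) ∧ (k0 z * Real.exp z) ^ 2 ≤ C / z := by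
  obtain ⟨C, hC⟩ := hA2
  refine ⟨max 1 (max (5 * C) (C ^ 2)), le_max_left _ _, fun z hz => ?_⟩
  have z1 : 1 ≤ z := (le_max_left _ _).trans hz
  have z5 : 5 * C ≤ z := ((le_max_left _ _).trans (le_max_right _ _)).trans hz
  have zc : C ^ 2 ≤ max 1 (max (5 * C) (C ^ 2)) := (le_max_right _ _).trans (le_max_right _ _)
  have z0 : 0 < z := one_pos.trans_le z1
  obtain ⟨eK, eL, pK, pL⟩ := hA1.2.2.2.2 z z0
  have sec : Sec (z : ℂ) := ⟨ofReal_ne_zero.2 z0.ne', by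
    rw [ofReal_re, norm_real, Real.norm_of_nonneg z0.le]; linarith⟩
  obtain ⟨-, h2, -, h4, h5, -⟩ := hC _ sec
  obtain ⟨s, s0, rfl⟩ : ∃ s : ℝ, 0 < s ∧ z = s ^ 2 := ⟨√z, Real.sqrt_pos.2 z0, (Real.sq_sqrt z0.le).symm⟩
  have e1 : exp (-((s ^ 2 : ℝ) : ℂ)) = (Real.exp (-s ^ 2) : ℝ) := by push_cast; rfl
  have e2 : (2 * ((s ^ 2 : ℝ) : ℂ)) ^ (-(1 / 2) : ℂ) = (((√2 * s)⁻¹ : ℝ) : ℂ) := by
    have : (√2 * s)⁻¹ = (2 * s ^ 2) ^ (-(1 / 2) : ℝ) := by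
      rw [Real.rpow_neg (by positivity), ← Real.sqrt_eq_rpow, Real.sqrt_mul zero_le_two,
        Real.sqrt_sq s0.le]
    rw [this, ofReal_cpow (by positivity)]
    push_cast; rfl
  have e3 : ‖((s ^ 2 : ℝ) : ℂ)‖ = s ^ 2 := by rw [norm_real, Real.norm_of_nonneg z0.le]
  rw [eK, e1, e3, Real.sqrt_sq s0.le, norm_real, norm_real, Real.norm_of_nonneg pK.le,
    Real.norm_of_nonneg (Real.exp_pos _).le] at h2
  rw [eK, e1, e2, e3, Real.sqrt_sq s0.le, ← ofReal_mul, ← ofReal_mul, ← ofReal_sub, norm_real,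
    norm_real, Real.norm_of_nonneg (Real.exp_pos _).le, Real.norm_eq_abs] at h4
  rw [eL, e1, e2, e3, Real.sqrt_sq s0.le, ← ofReal_mul, ← ofReal_mul, ← ofReal_mul, ← ofReal_sub,
    norm_real, norm_real, Real.norm_of_nonneg (Real.exp_pos _).le, Real.norm_eq_abs] at h5
  obtain ⟨p, p0, ep⟩ : ∃ p : ℝ, 6 / 5 ≤ p ∧ √π = p * √2 := by
    refine ⟨√(π / 2), Real.le_sqrt_of_sq_le (by linarith [Real.pi_gt_three]), ?_⟩
    rw [← Real.sqrt_mul (by positivity), div_mul_cancel₀ _ two_ne_zero]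
  have r2 : √2 ≠ 0 := by positivity
  have ee : Real.exp (-s ^ 2) * Real.exp (s ^ 2) = 1 := by rw [← Real.exp_add]; simp
  have ep0 := Real.exp_pos (s ^ 2)
  set E := Real.exp (s ^ 2)
  set F := Real.exp (-s ^ 2)
  have k1 : s⁻¹ ≤ k0 (s ^ 2) * E := by
    have a := mul_le_mul_of_nonneg_right (abs_le.1 h4).1 ep0.le
    have b : F * (√π * (√2 * s)⁻¹) * E = p * s⁻¹ := by
      rw [ep]; field_simp; linear_combination ee
    have c : C * (s ^ 2 * s)⁻¹ * F * E = C / s ^ 2 * s⁻¹ := by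
      field_simp; linear_combination C * ee
    have d : C / s ^ 2 ≤ 1 / 5 := by rw [div_le_iff₀ z0]; linarith
    have si := inv_pos.2 s0
    nlinarith
  have l1' : s ≤ l1 (s ^ 2) * E := by
    have a := mul_le_mul_of_nonneg_right (abs_le.1 h5).1 ep0.le
    have b : F * (s ^ 2 * √π * (√2 * s)⁻¹) * E = p * s := by
      rw [ep]; field_simp; linear_combination ee
    have c : C * s⁻¹ * F * E = C / s ^ 2 * s := by
      field_simp; linear_combination C * ee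
    have d : C / s ^ 2 ≤ 1 / 5 := by rw [div_le_iff₀ z0]; linarith
    nlinarith
  refine ⟨?_, ?_⟩
  · calc (1 : ℝ) = s⁻¹ * s := (inv_mul_cancel₀ s0.ne').symm
      _ ≤ _ := mul_le_mul k1 l1' s0.le (by positivity)
  · have a := mul_le_mul_of_nonneg_right h2 ep0.le
    have c : C * s⁻¹ * F * E = C / s := by field_simp; linear_combination C * ee
    rw [c] at a
    calc _ ≤ (C / s) ^ 2 := pow_le_pow_left₀ (by positivity) a 2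
      _ = C ^ 2 / s ^ 2 := div_pow _ _ _
      _ ≤ _ := div_le_div_of_nonneg_right zc z0.le

lemma rd_neg (a b : ℂ) : rdot a (-b) = -rdot a b := by simp [rdot]
lemma rd_neg' (a b : ℂ) : rdot (-a) b = -rdot a b := by simp [rdot]
lemma rd_swap (a x y : ℂ) : rdot a (x - y) = -rdot a (y - x) := by rw [← rd_neg, neg_sub]

lemma nor0 {T D : ℂ} {θ : ℝ} (θ0 : 0 ≤ θ) (hT : 2 * θ ≤ ‖T‖) (h : |rdot T D| ≤ θ * ‖D‖)
    (p : 0 ≤ rdot (I * T) D) : θ * ‖D‖ ≤ rdot (I * T) D := by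
  have e : rdot T D ^ 2 + rdot (I * T) D ^ 2 = (‖T‖ * ‖D‖) ^ 2 := by
    rw [mul_pow, Complex.sq_norm, Complex.sq_norm]
    simp [rdot, normSq_apply]; ring
  have d := norm_nonneg D
  have a : rdot T D ^ 2 ≤ (θ * ‖D‖) ^ 2 := sq_le_sq' (abs_le.1 h).1 (abs_le.1 h).2
  have b : (2 * θ * ‖D‖) ^ 2 ≤ (‖T‖ * ‖D‖) ^ 2 := by gcongr
  exact le_of_pow_le_pow_left₀ two_ne_zero p (by nlinarith [sq_nonneg (θ * ‖D‖)])

variable {N : ℕ} {j : ℝ} {Γ : MC N}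

lemma nor (h : Nv j Γ) {a b : XN N} (e : Eg (2 * j)⁻¹ Γ a b) :
    (2 * j)⁻¹ * cm Γ a b ≤ rdot (gn Γ b) (gp Γ a - gp Γ b) ∧
    (2 * j)⁻¹ * cm Γ a b ≤ rdot (gn Γ a) (gp Γ b - gp Γ a) := by
  have p := h.pos
  have t : 2 * (2 * j)⁻¹ = j⁻¹ := by field_simp
  refine ⟨nor0 (by positivity) (t ▸ h.inv_le_d1 _ _) e.2.1 e.2.2.1, ?_⟩
  rw [cm_comm]
  refine nor0 (by positivity) (t ▸ h.inv_le_d1 _ _) ?_ e.2.2.2
  rw [rd_swap, abs_neg, norm_sub_rev]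
  exact e.1

lemma ne_of (h : Nv j Γ) {a b : XN N} (e : a.1 ≠ b.1) : gp Γ a ≠ gp Γ b := fun c =>
  e (h.rc.inj a b c).1

lemma rd_le (h : Nv j Γ) (a b : XN N) : |rdot (gn Γ a) (gn Γ b)| ≤ j ^ 2 := by
  rw [sq]
  exact (K28.abs_rdot _ _).trans (mul_le_mul (h.gn_le a) (h.gn_le b) (norm_nonneg _) h.pos.le)

lemma crs0 {v : Fin (0 + 2) → XN N} (e : (v 0).1 ≠ (v 1).1) : crs v = Finset.univ := by
  refine Finset.filter_true_of_mem fun i _ => ?_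
  fin_cases i
  · exact e
  · exact e.symm

lemma crs1 {v : Fin (1 + 2) → XN N} (e : (v 0).1 ≠ (v 1).1) (e' : (v 1).1 = (v 2).1) :
    crs v = {0, 2} := by
  ext i
  rw [crs, Finset.mem_filter]
  fin_cases i
  · simpa using e
  · simpa using e'
  · have : (v 2).1 ≠ (v 0).1 := e' ▸ e.symm
    simpa using this

lemma IE0 (hL : St_LNKm) (h : Nv j Γ) {μ : ℝ} (hμ : 0 < μ) {v : Fin (0 + 2) → XN N}
    (e : (v 0).1 ≠ (v 1).1) : IE μ (cpm Γ) 0 v =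
      ((Srm μ Γ (v 0) (v 1) * Ndm μ Γ (v 1) (v 0) - 2 * DLx μ Γ (gp Γ (v 0)) (v 1) *
        Kdm μ Γ (v 1) (v 0)) * Real.exp (μ * cm Γ (v 0) (v 1)) ^ 2 : ℝ) := by
  obtain ⟨a1, a2, -, a4, -, -⟩ := hL.1 N Γ μ _ _ h.rc.diff hμ (ne_of h e)
  obtain ⟨b1, -, -, -, b5, b6⟩ := hL.1 N Γ μ _ _ h.rc.diff hμ (ne_of h e.symm)
  have : IE μ (cpm Γ) 0 v = (mS μ (cpm Γ) (v 0) (v 1) * mNd μ (cpm Γ) (v 1) (v 0) -
      2 * mK μ (cpm Γ) (v 0) (v 1) * mKd μ (cpm Γ) (v 1) (v 0)) *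
      exp (μ * (mc (cpm Γ) (v 0) (v 1) + mc (cpm Γ) (v 1) (v 0))) := by
    rw [IE, crs0 e, Fin.sum_univ_two, IM, Fin.prod_univ_zero, one_mul]
    rfl
  rw [this, a1, a2, a4, b1, b5, b6, cm_comm Γ (v 1), mul_add, exp_add]
  push_cast
  ring

lemma part0 (hA1 : St_A1) (hA2 : St_A2) (hL : St_LNKm) (j : ℝ) : ∃ μ0 : ℝ, ∀ μ, μ0 ≤ μ →
    ∀ (N : ℕ) (Γ : MC N), Nv j Γ → ∀ v : Fin (0 + 2) → XN N, (v 0).1 ≠ (v 1).1 →
    Eg (2 * j)⁻¹ Γ (v 0) (v 1) →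
    (IE μ (cpm Γ) 0 v).im = 0 ∧ (64 * π ^ 2 * j ^ 2)⁻¹ ≤ (IE μ (cpm Γ) 0 v).re := by
  obtain ⟨C, C1, hC⟩ := asy hA1 hA2
  refine ⟨8 * C * j ^ 5, fun μ hμ N Γ h v e g => ?_⟩
  have p := h.pos
  have j1 := h.one_le
  have μ0 : 0 < μ := lt_of_lt_of_le (by positivity) hμ
  rw [IE0 hL h μ0 e, ofReal_re, ofReal_im]
  refine ⟨rfl, ?_⟩
  have c1 := h.inv_le_cm e
  obtain ⟨n1, n0⟩ := nor h g
  have r := (abs_le.1 (rd_le h (v 1) (v 0))).2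
  have c0 : 0 < cm Γ (v 0) (v 1) := (inv_pos.2 p).trans_le c1
  have z1 : 8 * C * j ^ 4 ≤ μ * cm Γ (v 0) (v 1) :=
    calc 8 * C * j ^ 4 = 8 * C * j ^ 5 * j⁻¹ := by field_simp
      _ ≤ _ := mul_le_mul hμ c1 (by positivity) μ0.le
  have j4 : 1 ≤ j ^ 4 := one_le_pow₀ j1
  obtain ⟨q1, q2⟩ := hC _ (le_trans (by nlinarith) z1)
  have q3 : C / (μ * cm Γ (v 0) (v 1)) ≤ (8 * j ^ 4)⁻¹ := by
    rw [div_le_iff₀ (by positivity), inv_mul_eq_div, le_div_iff₀ (by positivity)]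
    linarith
  have eq : (Srm μ Γ (v 0) (v 1) * Ndm μ Γ (v 1) (v 0) - 2 * DLx μ Γ (gp Γ (v 0)) (v 1) *
      Kdm μ Γ (v 1) (v 0)) * Real.exp (μ * cm Γ (v 0) (v 1)) ^ 2 =
      ((k0 (μ * cm Γ (v 0) (v 1)) * Real.exp (μ * cm Γ (v 0) (v 1))) *
        (l1 (μ * cm Γ (v 0) (v 1)) * Real.exp (μ * cm Γ (v 0) (v 1))) *
        ((rdot (gn Γ (v 1)) (gp Γ (v 0) - gp Γ (v 1)) / cm Γ (v 0) (v 1)) *
          (rdot (gn Γ (v 0)) (gp Γ (v 1) - gp Γ (v 0)) / cm Γ (v 0) (v 1))) -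
        (k0 (μ * cm Γ (v 0) (v 1)) * Real.exp (μ * cm Γ (v 0) (v 1))) ^ 2 *
          rdot (gn Γ (v 1)) (gn Γ (v 0))) / (8 * π ^ 2) := by
    have pi := Real.pi_pos
    rw [Srm, Gr, Ndm, DLx_def, Kdm, cm_comm Γ (v 1), norm_sub_rev (gp Γ (v 1)),
      show ‖gp Γ (v 0) - gp Γ (v 1)‖ = cm Γ (v 0) (v 1) from rfl, rd_neg', rd_neg',
      rd_swap (gn Γ (v 1)) (gp Γ (v 1)), rd_swap (gn Γ (v 0)) (gp Γ (v 0))]
    field_simp
    ring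
  rw [eq]
  rw [← le_div_iff₀ c0] at n0 n1
  have m : (2 * j)⁻¹ * (2 * j)⁻¹ ≤ _ := mul_le_mul n1 n0 (by positivity) (le_trans (by positivity) n1)
  have m2 := mul_le_mul q1 m (by positivity) (zero_le_one.trans q1)
  have m3 := mul_le_mul (q2.trans q3) (le_refl (j ^ 2)) (by positivity) (by positivity)
  have m4 := mul_le_mul_of_nonneg_left r (sq_nonneg
    (k0 (μ * cm Γ (v 0) (v 1)) * Real.exp (μ * cm Γ (v 0) (v 1))))
  have m5 : (64 * π ^ 2 * j ^ 2)⁻¹ * (8 * π ^ 2) =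
      1 * ((2 * j)⁻¹ * (2 * j)⁻¹) - (8 * j ^ 4)⁻¹ * j ^ 2 := by
    have pi := Real.pi_pos
    field_simp
    ring
  rw [le_div_iff₀ (by have := Real.pi_pos; positivity), m5]
  linarith

lemma part1 (hA1 : St_A1) (hKBP : St_KBP) (hL : St_LNKm) (j : ℝ) : ∃ C : ℝ, ∀ μ, j ≤ μ →
    ∀ (N : ℕ) (Γ : MC N), Nv j Γ → ∀ v : Fin (1 + 2) → XN N, Gw Γ v → (v 0).1 ≠ (v 1).1 →
    (v 1).1 = (v 2).1 → Eg (2 * j)⁻¹ Γ (v 0) (v 1) → Eg (2 * j)⁻¹ Γ (v 2) (v 0) →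
    (IE μ (cpm Γ) 1 v).im = 0 ∧ (IE μ (cpm Γ) 1 v).re ≤ C / μ * Sk μ Γ v := by
  obtain ⟨C, C1, hC⟩ := hKBP j
  refine ⟨C ^ 3 * (j ^ 2 + 2 * j), fun μ hμ N Γ h v gw e e' g g' => ?_⟩
  have p := h.pos
  have pi := Real.pi_pos
  have μ0 : 0 < μ := p.trans_le hμ
  have e2 : (v 2).1 ≠ (v 0).1 := e' ▸ e.symm
  have g12 : gp Γ (v 1) ≠ gp Γ (v 2) := gw 1
  obtain ⟨a1, -, -, a4, -, -⟩ := hL.1 N Γ μ _ _ h.rc.diff μ0 (ne_of h e)
  obtain ⟨-, b2, -, b4, -, -⟩ := hL.1 N Γ μ _ _ h.rc.diff μ0 g12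
  obtain ⟨c1, c2, -, -, c5, c6⟩ := hL.1 N Γ μ _ _ h.rc.diff μ0 (ne_of h e2)
  have A := ((hC N Γ j 0 _ μ _ _ h h.adm0 h.one_le hμ (ne_of h e)).2 e).1
  obtain ⟨B1, B2, -, -⟩ := (hC N Γ j 0 _ μ _ _ h h.adm0 h.one_le hμ g12).1 e'
  obtain ⟨-, -, D1, D2⟩ := (hC N Γ j 0 _ μ _ _ h h.adm0 h.one_le hμ (ne_of h e2)).2 e2
  have eI : IE μ (cpm Γ) 1 v = mK μ (cpm Γ) (v 0) (v 1) * exp (μ * mc (cpm Γ) (v 0) (v 1)) *
      (mS μ (cpm Γ) (v 1) (v 2) * (mNd μ (cpm Γ) (v 2) (v 0) * exp (μ * mc (cpm Γ) (v 2) (v 0))) -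
      2 * mK μ (cpm Γ) (v 1) (v 2) *
        (mKd μ (cpm Γ) (v 2) (v 0) * exp (μ * mc (cpm Γ) (v 2) (v 0)))) := by
    have : IE μ (cpm Γ) 1 v = mK μ (cpm Γ) (v 0) (v 1) *
        (mS μ (cpm Γ) (v 1) (v 2) * mNd μ (cpm Γ) (v 2) (v 0) -
        2 * mK μ (cpm Γ) (v 1) (v 2) * mKd μ (cpm Γ) (v 2) (v 0)) *
        exp (μ * (mc (cpm Γ) (v 0) (v 1) + mc (cpm Γ) (v 2) (v 0))) := by
      rw [IE, crs1 e e', Finset.sum_pair (by decide), IM, Fin.prod_univ_one]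
      rfl
    rw [this, mul_add, exp_add]
    ring
  have eS : Sk μ Γ v = μ * (rk (μ * cm Γ (v 1) (v 2)) * Real.exp (-(μ * cm Γ (v 1) (v 2) / 2))) := by
    rw [Sk, crs1 e e', show ({0, 2} : Finset (Fin (1 + 2)))ᶜ = {1} by decide, Finset.prod_singleton,
      mul_assoc]
    rfl
  rw [eS, eI]
  rw [a1, a4, ← ofReal_mul, ← ofReal_exp, ← ofReal_mul] at A ⊢
  rw [c1, ← ofReal_mul, ← ofReal_exp] at D1 D2 ⊢
  rw [c2, ← ofReal_mul] at D1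
  rw [c5, ← ofReal_mul] at D2 ⊢
  rw [b4] at B1 ⊢
  rw [b2] at B2 ⊢
  rw [c6, ← ofReal_mul, ← ofReal_mul, ← ofReal_ofNat, ← ofReal_mul, ← ofReal_mul, ← ofReal_sub,
    ← ofReal_mul, ofReal_im, ofReal_re]
  rw [norm_real, Real.norm_eq_abs] at A B1 B2 D1 D2
  refine ⟨rfl, ?_⟩
  have kp : ∀ x y, gp Γ x ≠ gp Γ y → 0 < k0 (μ * cm Γ x y) ∧ 0 < l1 (μ * cm Γ x y) := fun x y a =>
    (hA1.2.2.2.2 _ (mul_pos μ0 (cm_pos a))).2.2
  have K0' : 0 ≤ DLx μ Γ (gp Γ (v 0)) (v 1) := by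
    rw [DLx_def, rd_neg', ← rd_swap, norm_sub_rev]
    exact div_nonneg (mul_nonneg (kp _ _ (ne_of h e)).2.le g.2.2.1) (by positivity)
  have S0 : 0 ≤ Srm μ Γ (v 1) (v 2) := div_nonneg (kp _ _ g12).1.le (by positivity)
  have N0 : Ndm μ Γ (v 2) (v 0) ≤ j ^ 2 * Srm μ Γ (v 2) (v 0) := by
    obtain ⟨k1, k2⟩ := kp _ _ (ne_of h e2)
    have r := (abs_le.1 (rd_le h (v 2) (v 0))).1
    have t1 : l1 (μ * cm Γ (v 2) (v 0)) * rdot (gn Γ (v 2)) (gp Γ (v 0) - gp Γ (v 2)) *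
        rdot (gn Γ (v 0)) (gp Γ (v 0) - gp Γ (v 2)) / (4 * π * cm Γ (v 2) (v 0) ^ 2) ≤ 0 := by
      refine div_nonpos_of_nonpos_of_nonneg (mul_nonpos_of_nonneg_of_nonpos
        (mul_nonneg k2.le g'.2.2.2) ?_) (by positivity)
      rw [rd_swap]
      exact neg_nonpos.2 g'.2.2.1
    have t2 : -(k0 (μ * cm Γ (v 2) (v 0)) * rdot (gn Γ (v 2)) (gn Γ (v 0))) / (4 * π) ≤
        j ^ 2 * (k0 (μ * cm Γ (v 2) (v 0)) / (2 * π)) := by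
      rw [← mul_div_assoc, div_le_div_iff₀ (by positivity) (by positivity)]
      have := mul_le_mul_of_nonneg_left r (mul_pos k1 pi).le
      have : 0 ≤ k0 (μ * cm Γ (v 2) (v 0)) * π * j ^ 2 := by positivity
      nlinarith
    exact (add_le_add t2 t1).trans_eq (add_zero _)
  have x0 := Real.exp_pos (μ * cm Γ (v 0) (v 1))
  have x2 := Real.exp_pos (μ * cm Γ (v 2) (v 0))
  have s0 := Real.sqrt_pos.2 μ0
  set R := rk (μ * cm Γ (v 1) (v 2)) * Real.exp (-(μ * cm Γ (v 1) (v 2) / 2))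
  have R0 : 0 ≤ C * R := (abs_nonneg _).trans B2
  have N1 : Ndm μ Γ (v 2) (v 0) * Real.exp (μ * cm Γ (v 2) (v 0)) ≤ j ^ 2 * (C / √μ) := by
    refine (mul_le_mul_of_nonneg_right N0 x2.le).trans ?_
    rw [mul_assoc]
    exact mul_le_mul_of_nonneg_left (le_of_abs_le D1) (sq_nonneg j)
  have T1 := (mul_le_mul_of_nonneg_left N1 S0).trans
    (mul_le_mul_of_nonneg_right (le_of_abs_le B2) (by positivity))
  have T2 := (neg_le_abs _).trans ((abs_mul _ _).trans_le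
    (mul_le_mul B1 D2 (abs_nonneg _) ((abs_nonneg _).trans B1)))
  calc _ ≤ DLx μ Γ (gp Γ (v 0)) (v 1) * Real.exp (μ * cm Γ (v 0) (v 1)) *
        (C * R * ((j ^ 2 + 2 * j) * (C / √μ))) :=
        mul_le_mul_of_nonneg_left (by linarith) (mul_nonneg K0' x0.le)
    _ ≤ C * √μ * (C * R * ((j ^ 2 + 2 * j) * (C / √μ))) :=
        mul_le_mul_of_nonneg_right (le_of_abs_le A) (by positivity)
    _ = _ := by field_simp

lemma bu_eq (Γ : MC N) (k : Fin N) (ρ : ℝ → ℝ) (x : XN N) : bu Γ k ρ x.1 x.2 =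
    (((if x.1 = k then ρ x.2 else 0 : ℝ) : ℂ) * gn Γ x,
      conj (((if x.1 = k then ρ x.2 else 0 : ℝ) : ℂ) * gn Γ x)) := by
  by_cases e : x.1 = k
  · rw [if_pos e, bu, ← e, Pi.single_eq_same]; rfl
  · rw [if_neg e, bu, Pi.single_eq_of_ne e]; simp [Prod.ext_iff]

lemma hd_root {D δ : ℂ} (hD : D ≠ 0) :
    HasDerivAt (fun ε : ℂ => ((D + ε * δ) * (conj D + ε * conj δ)) ^ (1 / 2 : ℂ))
      (rdot D δ / ‖D‖ : ℝ) 0 := by
  have d0 := norm_pos_iff.2 hD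
  have e : (D + 0 * δ) * (conj D + 0 * conj δ) = ((‖D‖ ^ 2 : ℝ) : ℂ) := by
    simp [mul_conj, normSq_eq_norm_sq]
  have h1 : HasDerivAt (fun ε : ℂ => (D + ε * δ) * (conj D + ε * conj δ)) _ 0 :=
    (((hasDerivAt_id (0 : ℂ)).mul_const δ).const_add D).mul
      (((hasDerivAt_id (0 : ℂ)).mul_const (conj δ)).const_add (conj D))
  have h2 := h1.cpow_const (c := 1 / 2) (by rw [e]; exact ofReal_mem_slitPlane.2 (by positivity))
  refine h2.congr_deriv ?_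
  have e2 : ((‖D‖ ^ 2 : ℝ) : ℂ) ^ ((1 / 2 : ℂ) - 1) = (‖D‖⁻¹ : ℝ) := by
    have : ‖D‖⁻¹ = (‖D‖ ^ 2) ^ (-(1 / 2) : ℝ) := by
      rw [Real.rpow_neg (by positivity), ← Real.sqrt_eq_rpow, Real.sqrt_sq d0.le]
    rw [this, ofReal_cpow (by positivity)]
    push_cast; norm_num
  have e3 : (rdot D δ : ℂ) = (D * conj δ + δ * conj D) / 2 := by
    rw [rdot, re_eq_add_conj]; simp [mul_comm]
  rw [e, e2]
  push_cast
  rw [e3]
  simp only [id]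
  ring

lemma part2 (h : Nv j Γ) (k : Fin N) {ρ : ℝ → ℝ} (a b : XN N) (hρ : ∀ s, 0 ≤ ρ s ∧ ρ s ≤ 1)
    (e : a.1 ≠ b.1) : ∃ d : ℝ,
    HasDerivAt (fun ε : ℂ => mc (cpm Γ + ε • bu Γ k ρ) a b) d 0 ∧ |d| ≤ 2 * j ∧
    (Eg (2 * j)⁻¹ Γ a b → (2 * j)⁻¹ * rv k ρ ![a, b] ≤ -d) := by
  have r01 : ∀ x : XN N, 0 ≤ (if x.1 = k then ρ x.2 else 0) ∧ (if x.1 = k then ρ x.2 else 0) ≤ 1 :=
    fun x => by
      split_ifs
      · exact hρ _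
      · exact ⟨le_rfl, zero_le_one⟩
  have er : rv k ρ ![a, b] = (if a.1 = k then ρ a.2 else 0) + if b.1 = k then ρ b.2 else 0 := by
    rw [rv, Fin.sum_univ_two]; rfl
  have ea := bu_eq Γ k ρ a
  have eb := bu_eq Γ k ρ b
  obtain ⟨a0, a1⟩ := r01 a
  obtain ⟨b0, b1⟩ := r01 b
  rw [er]
  generalize (if a.1 = k then ρ a.2 else 0) = x at *
  generalize (if b.1 = k then ρ b.2 else 0) = y at *
  have hD : gp Γ b - gp Γ a ≠ 0 := sub_ne_zero.2 (ne_of h e).symm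
  have d0 := norm_pos_iff.2 hD
  have p := h.pos
  refine ⟨_, (hd_root (δ := y * gn Γ b - x * gn Γ a) hD).congr_of_eventuallyEq
    (Eventually.of_forall fun ε => ?_), ?_, fun g => ?_⟩
  · simp only [mc, mD, Pi.add_apply, Pi.smul_apply, ea, eb, cpm, cp, gp, dot, Prod.fst_sub,
      Prod.snd_sub, Prod.fst_add, Prod.snd_add, Prod.smul_mk, smul_eq_mul, map_sub]
    congr 1
    ring
  · rw [abs_div, abs_of_pos d0, div_le_iff₀ d0, mul_comm (2 * j)]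
    refine (K28.abs_rdot _ _).trans (mul_le_mul_of_nonneg_left ((norm_sub_le _ _).trans ?_) d0.le)
    rw [norm_mul, norm_mul, norm_real, norm_real, Real.norm_of_nonneg a0, Real.norm_of_nonneg b0]
    have := mul_le_mul a1 (h.gn_le a) (norm_nonneg _) zero_le_one
    have := mul_le_mul b1 (h.gn_le b) (norm_nonneg _) zero_le_one
    linarith
  · obtain ⟨n1, n0⟩ := nor h g
    have : rdot (gp Γ b - gp Γ a) (y * gn Γ b - x * gn Γ a) =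
        -(y * rdot (gn Γ b) (gp Γ a - gp Γ b) + x * rdot (gn Γ a) (gp Γ b - gp Γ a)) := by
      simp [rdot]; ring
    rw [this, neg_div, neg_neg, le_div_iff₀ d0, norm_sub_rev, show ‖gp Γ a - gp Γ b‖ = cm Γ a b from rfl]
    have := mul_le_mul_of_nonneg_left n1 b0
    have := mul_le_mul_of_nonneg_left n0 a0
    linarith

end PLS

theorem st_pls (hA1 : IS2.St_A1) (hA2 : IS2.St_A2) (hKBP : St_KBP) (hL : St_LNKm) : St_PLS := by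
  intro j
  rcases lt_or_ge j 1 with j1 | j1
  · exact ⟨1, 1, 0, one_pos, fun _ _ _ _ h => absurd h.one_le (not_le.2 j1)⟩
  obtain ⟨μ0, h0⟩ := PLS.part0 hA1 hA2 hL j
  obtain ⟨C, h1⟩ := PLS.part1 hA1 hKBP hL j
  have pi := Real.pi_pos
  refine ⟨min (64 * π ^ 2 * j ^ 2)⁻¹ (2 * j)⁻¹, max C (2 * j), max μ0 j,
    lt_min (by positivity) (by positivity), fun μ hμ N Γ h => ⟨fun v e g => ?_,
      fun v gw e e' g g' => ?_, fun k ρ a b _ hρ e => ?_⟩⟩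
  · obtain ⟨a, b⟩ := h0 μ ((le_max_left _ _).trans hμ) N Γ h v e g
    exact ⟨a, (min_le_left _ _).trans b⟩
  · have m := (le_max_right _ _).trans hμ
    obtain ⟨a, b⟩ := h1 μ m N Γ h v gw e e' g g'
    have μp := h.pos.trans_le m
    refine ⟨a, b.trans (mul_le_mul_of_nonneg_right
      (div_le_div_of_nonneg_right (le_max_left _ _) μp.le) (Finset.prod_nonneg fun i _ => ?_))⟩
    have := cm_nonneg Γ (v i) (v (i + 1))
    unfold rk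
    positivity
  · obtain ⟨d, a1, a2, a3⟩ := PLS.part2 h k a b hρ e
    refine ⟨d, a1, a2.trans (le_max_right _ _), fun g => le_trans
      (mul_le_mul_of_nonneg_right (min_le_right _ _) (Finset.sum_nonneg fun i _ => ?_)) (a3 g)⟩
    split_ifs
    · exact (hρ _).1
    · exact le_rfl

end Pool.Agent.Lib.IS3
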