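import Pool.Agent.Lib.IS3.Kit

/-! All curves are moved by one motion. -/

open scoped Topology
open Complex Set Filter

namespace Pool.Agent.Lib.IS3

namespace PM

/-- equal traces: the parts through two clusters agree -/
lemma cross (hSYM : St_SYM) (hPU : St_PU) {j : ℝ} {N : ℕ} {Γ : MC N} {cl : Fin N → Fin N}
    {r : Fin N → Bool} {p : Fin N → ℂ × ℂ} (h : Nv j Γ) (h' : Nv j (actm r p Γ))
    (hp : ∀ i, ‖(p i).1‖ = 1) (hc : ∀ i k, cl i = cl k → r i = r k ∧ p i = p k)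
    (c : Cst j Γ (actm r p Γ)) :
    ∃ μ0, ∀ μ : ℝ, μ0 ≤ μ → TW (wX cl) μ (cpm Γ) = TW (wX cl) μ (cpm (actm r p Γ)) := by
  have j0 := h.pos
  have j1 := h.one_le
  obtain ⟨μ0, H⟩ := hPU j j⁻¹ (inv_pos.2 j0)
  obtain ⟨c, c0⟩ := c
  have sp : ∀ μ : ℝ, μ0 ≤ μ → ∀ Γ : MC N, Nv j Γ →
      TM μ (cpm Γ) = TW (wX cl) μ (cpm Γ) + TW (1 - wX cl) μ (cpm Γ) := fun μ hμ Γ h => by
    rw [← ((H μ hμ).2 N Γ _ h (wm_wX cl)).1 _ (wm_wXc cl), add_sub_cancel]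
    rfl
  have e : ∀ μ : ℝ, max μ0 j ≤ μ →
      TW (wX cl) μ (cpm Γ) - TW (wX cl) μ (cpm (actm r p Γ)) = c := fun μ hμ => by
    rw [← c0 μ ((le_max_right _ _).trans hμ), sp μ ((le_max_left _ _).trans hμ) _ h,
      sp μ ((le_max_left _ _).trans hμ) _ h', hSYM N Γ cl r p μ h.rc hp hc]
    ring
  have b : ∀ μ : ℝ, μ0 ≤ μ → ∀ Γ : MC N, Nv j Γ →
      ‖TW (wX cl) μ (cpm Γ)‖ ≤ Real.exp (-(j⁻¹ * μ)) := fun μ hμ Γ h => by
    have := (((H μ hμ).2 N Γ _ h (wm_wX cl)).2 j⁻¹ (inv_pos.2 j0).le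
      ((inv_le_one_of_one_le₀ j1).trans (by linarith)) (div_eq_mul_inv 2 j ▸ h.lg_wX cl)).1
    exact this.trans_eq (by congr 1; ring)
  have t : Tendsto (fun μ : ℝ => 2 * Real.exp (-(j⁻¹ * μ))) atTop (𝓝 (2 * 0)) :=
    (Real.tendsto_exp_neg_atTop_nhds_zero.comp
      (tendsto_id.const_mul_atTop (inv_pos.2 j0))).const_mul 2
  have z : c = 0 := norm_le_zero_iff.1 (by
    refine (ge_of_tendsto t ?_).trans_eq (mul_zero _)
    filter_upwards [eventually_ge_atTop (max μ0 j)] with μ hμ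
    have m := (le_max_left _ _).trans hμ
    rw [← e μ hμ]
    exact (norm_sub_le _ _).trans (by linarith [b μ m _ h, b μ m _ h']))
  exact ⟨_, fun μ hμ => sub_eq_zero.1 ((e μ hμ).trans z)⟩

end PM

theorem st_pm (hP3 : St_P3) (hP4 : St_P4) (hL : St_LOCS) (hSYM : St_SYM) (hPU : St_PU) : St_PM := by
  intro N f hf σ j r p g g' hp c i0 k0
  by_contra ne
  have : Nonempty (Fin N) := ⟨i0⟩
  let u : Fin N → Bool × ℂ × ℂ := fun i => (r i, pl (sp f) p i)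
  let cl : Fin N → Fin N := fun i => Function.invFun u (u i)
  have hc : ∀ i k, cl i = cl k ↔ r i = r k ∧ pl (sp f) p i = pl (sp f) p k := fun i k => by
    rw [← Prod.mk.injEq]
    refine ⟨fun e => ?_, fun e => congrArg (Function.invFun u) e⟩
    exact (Function.invFun_eq ⟨i, rfl⟩).symm.trans ((congrArg u e).trans (Function.invFun_eq ⟨k, rfl⟩))
  have ch := hP3 j N _ _ r p cl g g' hp hc ⟨i0, k0, fun e => ne ((hc _ _).1 e)⟩
  have v := g.sd.nv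
  have v' := g'.sd.nv
  rw [scm_actm] at ch c v'
  rw [scm_uc] at ch c v v'
  obtain ⟨μ0, e⟩ := PM.cross hSYM hPU v v' hp (fun i k => (hc i k).1) c
  obtain ⟨μ1, L⟩ := hL j
  obtain ⟨μ, k, ρ, m, hρ, d⟩ := hP4 j N cl r _ _ (max μ0 μ1) (4 * N + 1) v v' ch
  obtain ⟨ε, ε0, H⟩ := L N σ cl r μ f _ k ρ (fun a => (le_max_right _ _).trans (m a)) v v' hρ d
  obtain ⟨U, hU, pU, sU⟩ := (TopologicalSpace.isBasis_countableBasis _).exists_subset_of_mem_open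
    (Metric.mem_ball_self (x := pl (sp f) p) ε0) Metric.isOpen_ball
  refine hf σ r cl μ U hU ⟨subset_closure (subset_closure ⟨_, pU, funext fun a => ?_⟩), H U sU⟩
  have := e (μ a) ((le_max_left _ _).trans (m a))
  rw [ofReal_natCast] at this
  rw [Fz, this, sub_self]
  rfl

end Pool.Agent.Lib.IS3
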