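import Pool.Agent.Lib.IS3.Kit

/-! Row POIm: the Dirichlet problem and the Poisson kernel for several curves. -/

open scoped ContDiff ComplexConjugate Topology Real
open Complex MeasureTheory Set Filter

noncomputable section

namespace Pool.Agent.Lib.IS3

open Pool.Agent.Lib.ISO Pool.Agent.Lib.IS2 Pool.Agent.Lib.IS2.K28

namespace POIm

variable {N : ℕ} {μ : ℝ} {Ω : Set ℂ} {Γ : MC N}

lemma base (hL : St_LAYm) (hJ : St_JMPm) (hN : St_NEUm) (h : Potm μ Γ Ω) {φ : XN N → ℝ}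
    (hφ : CPm φ) : ContinuousOn (Uem μ Γ Ω φ) (closure Ω) ∧ Har μ Ω (Uem μ Γ Ω φ) ∧
    (∀ t, Uem μ Γ Ω φ (gp Γ t) = φ t) ∧ ∀ x ∈ Ω, Uem μ Γ Ω φ x = DLom μ Γ (Hom μ Γ φ) x := by
  obtain ⟨hH, eH⟩ := (hN N μ Γ Ω h).2.2.2.2.2.2.2.2.2 φ hφ
  obtain ⟨B, -, hB⟩ := hH.bd
  have H := har_mono ((hL N Ω Γ h.cd).2 μ h.pos _ hH.1.measurable ⟨B, hB⟩).2.2 h.cd.sub_compl
  have lim (s : XN N) : Tendsto (DLom μ Γ (Hom μ Γ φ)) (𝓝[Ω] (gp Γ s)) (𝓝 (φ s)) := by
    have := (hJ μ N Ω Γ h.pos h.cd).2 _ hH s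
    rwa [eH s] at this
  have ext := extendFrom_extends H.1.continuousOn
  refine ⟨continuousOn_extendFrom subset_rfl fun x hx => ?_, har_congr h.cd.opn H ext,
    fun t => extendFrom_eq (h.cd.mem_cl t) (lim t), ext⟩
  rcases h.cd.cl_cases hx with hx | ⟨t, rfl⟩
  · exact ⟨_, H.1.continuousOn x hx⟩
  · exact ⟨_, lim t⟩

lemma form (h3 : St_A3) (hN : St_NEUm) (h : Potm μ Γ Ω) {φ : XN N → ℝ} (hφ : CPm φ) {x : ℂ}
    (hx : x ∈ Ω) : DLom μ Γ (Hom μ Γ φ) x = ∫ t, psm μ Γ x t * φ t ∂nx N := by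
  have cD := h.cd.rc.DLx_cont1 h3 h.pos (h.cd.sub_compl hx)
  have cP := (hN N μ Γ Ω h).2.2.2.2.2.2.1
  have cφ := hφ.1
  have c1 : Continuous (Function.uncurry fun u t => DLx μ Γ x u * Phm μ Γ u t * φ t) :=
    ((cD.comp continuous_fst).mul cP).mul (cφ.comp continuous_snd)
  have i1 := cont_int c1
  have i2 := cont_int (f := fun t u => DLx μ Γ x u * Phm μ Γ u t * φ t)
    (((cD.comp continuous_snd).mul (cP.comp continuous_swap)).mul (cφ.comp continuous_fst))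
  have i0 : Continuous fun t => 2 * DLx μ Γ x t * φ t := by fun_prop
  calc _ = ∫ u, (2 * DLx μ Γ x u * φ u + ∫ t, DLx μ Γ x u * Phm μ Γ u t * φ t ∂nx N) ∂nx N := by
        refine integral_congr_ae (.of_forall fun u => ?_)
        simp only [Hom, mul_assoc, integral_const_mul]
        ring
    _ = _ := by
        rw [integral_add (int_cont i0) (int_cont i1), swap_nx c1,
          ← integral_add (int_cont i0) (int_cont i2)]
        refine integral_congr_ae (.of_forall fun t => ?_)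
        simp only [psm, integral_mul_const]
        ring

lemma joint (hL : St_LAYm) (hM : St_MAX) (hJ : St_JMPm) (hN : St_NEUm) (h : Potm μ Γ Ω)
    {S : Set ℂ} {F : ℂ → XN N → ℝ} (hF : ContinuousOn (Function.uncurry F) (S ×ˢ univ))
    (hp : ∀ y ∈ S, ∀ x : XN N, F y (x.1, x.2 + 2 * π) = F y x) :
    ContinuousOn (fun p : ℂ × ℂ => Uem μ Γ Ω (F p.2) p.1) (closure Ω ×ˢ S) := by
  have cp (y) (hy : y ∈ S) : CPm (F y) :=
    ⟨hF.comp_continuous (f := fun t => (y, t)) (by fun_prop) fun t => ⟨hy, mem_univ _⟩, hp y hy⟩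
  rintro ⟨x0, y0⟩ ⟨hx0, hy0⟩
  refine Metric.tendsto_nhds.2 fun ε hε => ?_
  obtain ⟨V, hV, hV'⟩ := (cpt_KX (N := N)).mem_uniformity_of_prod
    (hF.mono (prod_mono_right (subset_univ _))) hy0 (Metric.dist_mem_uniformity (half_pos hε))
  obtain ⟨c2, h2, e2, -⟩ := base hL hJ hN h (cp y0 hy0)
  have c0 := Metric.tendsto_nhds.1 (c2 x0 hx0) _ (half_pos hε)
  rw [nhdsWithin_prod_eq]
  filter_upwards [prod_mem_prod (inter_mem c0 self_mem_nhdsWithin)
    (inter_mem hV self_mem_nhdsWithin)] with p hp'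
  obtain ⟨⟨a1, a2⟩, a3, a4⟩ := hp'
  obtain ⟨c1, h1, e1, -⟩ := base hL hJ hN h (cp _ a4)
  have b := h.cd.cmp hM h.pos c1 c2 h1 h2 (half_pos hε).le (fun t => by
    obtain ⟨k, hk⟩ := red_KX t
    rw [e1, e2, ← per_int (hp _ a4) t k, ← per_int (hp _ hy0) t k]
    exact le_of_lt (hV' _ a3 _ hk)) p.1 a2
  calc _ ≤ dist (Uem μ Γ Ω (F p.2) p.1) (Uem μ Γ Ω (F y0) p.1) +
        dist (Uem μ Γ Ω (F y0) p.1) (Uem μ Γ Ω (F y0) x0) := dist_triangle _ _ _
    _ < ε / 2 + ε / 2 := add_lt_add_of_le_of_lt b a1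
    _ = ε := add_halves ε

lemma cpK (hN : St_NEUm) (h : Potm μ Γ Ω) (v : XN N) : CPm fun u => Krm μ Γ u v :=
  ⟨(hN N μ Γ Ω h).1.comp (f := fun u => (u, v)) (by fun_prop),
    fun u => ((hN N μ Γ Ω h).2.1 u v).1⟩

lemma psK (hL : St_LAYm) (hJ : St_JMPm) (hN : St_NEUm) (h : Potm μ Γ Ω) {x : ℂ} (hx : x ∈ Ω)
    (v : XN N) : psm μ Γ x v = 2 * DLx μ Γ x v - 2 * Uem μ Γ Ω (fun u => Krm μ Γ u v) x := by
  rw [(base hL hJ hN h (cpK hN h v)).2.2.2 x hx, psm, DLom, sub_eq_add_neg, ← neg_mul,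
    ← integral_const_mul]
  congr 1
  refine integral_congr_ae (.of_forall fun u => ?_)
  simp only [Hom]
  rw [((hN N μ Γ Ω h).2.2.2.2.2.2.2.2.1 u v).2]
  ring

lemma neg_int {f : XN N → ℝ} (hf : CPm f) {t : XN N} (ht : f t < 0) :
    ∫ s, f s * max (-f s) 0 ∂nx N < 0 := by
  have c := hf.1
  have np : ∀ s, f s * max (-f s) 0 ≤ 0 := fun s => by
    rcases le_total 0 (f s) with k | k
    · simp [max_eq_right (neg_nonpos.2 k)]
    · exact mul_nonpos_of_nonpos_of_nonneg k (le_max_right _ _)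
  obtain ⟨k, hk⟩ := red_KX t
  rw [← per_int hf.2 t k] at ht
  rw [integral_nx (int_cont (by fun_prop))]
  refine Finset.sum_neg' (fun i _ => ?_) ⟨t.1, Finset.mem_univ _, ?_⟩
  · rw [intervalIntegral.integral_of_le Real.two_pi_pos.le]
    exact integral_nonpos fun s => np _
  · simpa only [intervalIntegral.integral_zero] using
      intervalIntegral.integral_lt_integral_of_continuousOn_of_le_of_exists_lt
        (f := fun s => f (t.1, s) * max (-f (t.1, s)) 0) (g := fun _ => 0) Real.two_pi_pos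
        (by fun_prop) continuousOn_const (fun s _ => np _)
        ⟨_, hk.2, mul_neg_of_neg_of_pos ht (lt_max_of_lt_left (neg_pos.2 ht))⟩

end POIm

open POIm in
theorem st_poim (h3 : St_A3) (hL : St_LAYm) (hM : St_MAX) (hJ : St_JMPm) (hN : St_NEUm) :
    St_POIm := by
  intro N μ Γ Ω h
  have rc := h.cd.rc
  have cp (x) (hx : x ∈ Ω) : CPm (psm μ Γ x) := by
    have cD := rc.DLx_cont1 h3 h.pos (h.cd.sub_compl hx)
    refine ⟨(continuous_const.mul cD).add (cont_int (f := fun t u => DLx μ Γ x u * Phm μ Γ u t)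
      ((cD.comp continuous_snd).mul ((hN N μ Γ Ω h).2.2.2.2.2.2.1.comp continuous_swap))),
      fun t => ?_⟩
    simp only [psm, rc.DLx_per μ x t, fun u => ((hN N μ Γ Ω h).2.2.2.2.2.2.2.1 u t).2]
  have fm {φ} (hφ : CPm φ) (x) (hx : x ∈ Ω) : Uem μ Γ Ω φ x = ∫ t, psm μ Γ x t * φ t ∂nx N :=
    ((base hL hJ hN h hφ).2.2.2 x hx).trans (form h3 hN h hφ hx)
  refine ⟨fun φ hφ => ?_, fun u cu hu x hx => ?_, fun S F hF hp => joint hL hM hJ hN h hF hp,
    ?_, fun x hx => ⟨cp x hx, fun t => ?_⟩⟩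
  · obtain ⟨a, b, c, d⟩ := base hL hJ hN h hφ
    exact ⟨a, b, c, fun x hx => ⟨d x hx, fm hφ x hx⟩⟩
  · have hφ : CPm fun t => u (gp Γ t) :=
      ⟨cu.comp_continuous rc.gp_cont h.cd.mem_cl, fun t => by simp only [rc.gp_per t]⟩
    obtain ⟨a, b, c, -⟩ := base hL hJ hN h hφ
    exact sub_eq_zero.1 (abs_nonpos_iff.1 (h.cd.cmp hM h.pos cu a hu b le_rfl
      (fun t => by rw [c, sub_self, abs_zero]) x hx))
  · obtain ⟨M, M0, hM'⟩ := rc.DLx_bd h3 h.pos
    obtain ⟨C, C0, hK⟩ := bd_per2 (hN N μ Γ Ω h).1 (hN N μ Γ Ω h).2.1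
    refine ⟨2 * (M + C), fun x hx t => ?_⟩
    obtain ⟨c1, h1, e1, -⟩ := base hL hJ hN h (cpK hN h t)
    have a := (abs_le.1 (hM' x t)).2
    have b := (abs_le.1 (h.cd.cmp hM h.pos c1 (continuousOn_const (c := 0)) h1 har_zero C0
      (fun s => by rw [e1, sub_zero]; exact hK s t) x (subset_closure hx))).1
    have c : 0 ≤ ‖x - gp Γ t‖⁻¹ := by positivity
    rw [psK hL hJ hN h hx]
    nlinarith [mul_nonneg C0 c]
  · by_contra hn
    obtain ⟨c, p⟩ := cp x hx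
    have hφ : CPm fun s => max (-psm μ Γ x s) 0 := ⟨by fun_prop, fun s => by simp only [p s]⟩
    obtain ⟨c1, h1, e1, -⟩ := base hL hJ hN h hφ
    have a := h.cd.le_of_bd hM h.pos c1.neg (har_neg h.cd.opn h1) le_rfl
      (fun t => by simp [e1]) x (subset_closure hx)
    have b := neg_int (cp x hx) (not_le.1 hn)
    rw [← fm hφ x hx] at b
    exact absurd (neg_nonpos.1 a) (not_le.2 b)

end Pool.Agent.Lib.IS3
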