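import Pool.Agent.Lib.IS3.Kit

/-! Row POSL: the inequalities between the normalised sums at the scale `l`. -/

open scoped ComplexConjugate

noncomputable section

namespace Pool.Agent.Lib.IS3

open Pool.Agent.Lib.ISO Pool.Agent.Lib.ISO.K4

namespace POSL

variable {z : ℤ → ℂ} {W : ℕ} {l j : ℝ}

lemma yl_nonneg (l : ℝ) (W : ℕ) (ξ : ℤ) : 0 ≤ yl l W ξ := by unfold yl; positivity

lemma ce_neg (l : ℝ) (W : ℕ) (ξ : ℤ) : ce l W (-ξ) = ce l W ξ := by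
  rw [ce, ce, Int.cast_neg, abs_neg]

lemma sm_yl (h : Dec z) (l : ℝ) (W e : ℕ) : Summable fun ξ : ℤ => yl l W ξ ^ e * ‖z ξ‖ ^ 2 := by
  refine ((h.sq (2 * e)).mul_left (((l ^ 2 * (W : ℝ) ^ 4)⁻¹) ^ e)).congr fun ξ => ?_
  rw [yl, pow_mul, sq_abs, div_eq_mul_inv, mul_pow]
  ring

lemma sum_HiL (h : Dec z) (e : ℕ) (l : ℝ) (W : ℕ) :
    HasSum (fun ξ : ℤ => if (W : ℤ) < |ξ| then yl l W ξ ^ e * ‖z ξ‖ ^ 2 else 0) (HiL e l W z) := by
  refine (Summable.of_nonneg_of_le (fun ξ => ?_) (fun ξ => ?_) (sm_yl h l W e)).hasSum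
  all_goals
    have := yl_nonneg l W ξ
    split_ifs
    all_goals first | positivity | exact le_rfl

lemma sum_JkL (h : Dec z) (m : ℕ) (l : ℝ) (W : ℕ) :
    HasSum (fun ξ : ℤ => if (W : ℤ) < |ξ| ∧ (W : ℝ) ^ 2 < 2 * |ce l W ξ| then
      (yl l W ξ ^ m + yl l W ξ ^ (m + 4)) * ‖z ξ‖ ^ 2 else 0) (JkL m l W z) := by
  refine (Summable.of_nonneg_of_le (fun ξ => ?_) (fun ξ => ?_)
    ((sm_yl h l W m).add (sm_yl h l W (m + 4)))).hasSum
  all_goals
    have := yl_nonneg l W ξ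
    split_ifs
    all_goals first | positivity | exact le_rfl | exact (add_mul _ _ _).le

lemma sum_NrL (h : Dec z) (l : ℝ) (W : ℕ) :
    HasSum (fun ξ : ℤ => if 2 * |ce l W ξ| ≤ (W : ℝ) ^ 2 then (1 + ce l W ξ ^ 2) * ‖z ξ‖ ^ 2 else 0)
      (NrL l W z) := by
  refine (Summable.of_nonneg_of_le (fun ξ => ?_) (fun ξ => ?_)
    ((h.sq 0).mul_left (1 + ((W : ℝ) ^ 2) ^ 2))).hasSum
  · split_ifs
    · positivity
    · exact le_rfl
  · split_ifs with h2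
    · rw [pow_zero, one_mul]
      refine mul_le_mul_of_nonneg_right ?_ (by positivity)
      have h3 := abs_nonneg (ce l W ξ)
      rw [← sq_abs (ce l W ξ)]
      nlinarith
    · positivity

lemma mem_winL (hl : 0 < l) (hW : 4 ≤ W) {ξ : ℤ} : ξ ∈ winL l W ↔ 0 < ξ ∧ |ce l W ξ| ≤ W := by
  have hw4 : (4 : ℝ) ≤ W := by exact_mod_cast hW
  have h0 : 0 < l * ((W : ℝ) ^ 2 - W) := mul_pos hl (by nlinarith)
  have key : 0 < ξ → (|ce l W ξ| ≤ W ↔ l * ((W : ℝ) ^ 2 - W) ≤ ξ ∧ ξ ≤ l * ((W : ℝ) ^ 2 + W)) :=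
    fun h => by
      rw [ce, abs_of_pos (show (0 : ℝ) < ξ by exact_mod_cast h), abs_le, le_sub_iff_add_le,
        sub_le_iff_le_add, le_div_iff₀ hl, div_le_iff₀ hl]
      constructor <;> rintro ⟨a, b⟩ <;> constructor <;> linarith
  rw [winL, Finset.mem_Icc, Int.ceil_le, Int.le_floor]
  refine ⟨fun h => ?_, fun h => (key h.1).1 h.2⟩
  have h1 : 0 < ξ := by exact_mod_cast h0.trans_le h.1
  exact ⟨h1, (key h1).2 h⟩

lemma sum_winL (h : Sq z) (hl : 0 < l) (hW : 4 ≤ W) (e : ℕ) :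
    HasSum (fun ξ : ℤ => if |ce l W ξ| ≤ W then ce l W ξ ^ e * ‖z ξ‖ ^ 2 else 0)
      (2 * ∑ ξ ∈ winL l W, ce l W ξ ^ e * ‖z ξ‖ ^ 2) := by
  let f : ℤ → ℝ := fun ξ => if ξ ∈ winL l W then ce l W ξ ^ e * ‖z ξ‖ ^ 2 else 0
  have h1 : HasSum f (∑ ξ ∈ winL l W, ce l W ξ ^ e * ‖z ξ‖ ^ 2) := by
    have h2 := hasSum_sum_of_ne_finset_zero (f := f) (s := winL l W)
      (L := SummationFilter.unconditional ℤ) fun t ht => if_neg ht
    rwa [Finset.sum_congr rfl fun t ht => show f t = _ from if_pos ht] at h2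
  have h2 : HasSum (f ∘ Equiv.neg ℤ) _ := (Equiv.neg ℤ).hasSum_iff.2 h1
  rw [two_mul]
  refine (congrArg (fun g => HasSum g _) (funext fun ξ => ?_)).mp (h1.add h2)
  have hw4 : (4 : ℝ) ≤ W := by exact_mod_cast hW
  simp only [f, Function.comp_apply, Equiv.neg_apply, mem_winL hl hW, h.cj, Complex.norm_conj, ce_neg]
  rcases lt_trichotomy 0 ξ with h5 | rfl | h5
  · simp only [h5, true_and, show ¬0 < -ξ by omega, false_and, if_false, add_zero]
  · have h6 : ¬|ce l W 0| ≤ W := by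
      rw [ce, Int.cast_zero, abs_zero, zero_div, zero_sub, abs_neg, abs_of_nonneg (by positivity)]
      nlinarith
    simp only [h6, and_false, if_false, add_zero]
  · simp only [show 0 < -ξ by omega, true_and, show ¬0 < ξ by omega, false_and, if_false, zero_add]

/-- near frequencies are high -/
lemma near_hi (hj : 1 ≤ j) (hW : 2 * j < W) (h1 : j⁻¹ ≤ l) {ξ : ℤ}
    (h : 2 * |ce l W ξ| ≤ (W : ℝ) ^ 2) : (W : ℤ) < |ξ| := by
  have j0 : 0 < j := by linarith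
  have hl : 0 < l := (inv_pos.2 j0).trans_le h1
  have h2 : (W : ℝ) ^ 2 / 2 ≤ |(ξ : ℝ)| / l := by
    have := neg_abs_le (ce l W ξ)
    rw [ce] at this h
    linarith
  rw [le_div_iff₀ hl] at h2
  have h3 : 1 ≤ l * j := by rwa [inv_le_iff_one_le_mul₀ j0] at h1
  have w0 : (0 : ℝ) < W := by linarith
  have h4 : 2 < l * W := by nlinarith
  have h5 : (W : ℝ) < |(ξ : ℝ)| := by nlinarith
  exact_mod_cast h5

/-- the positivity principle -/
def Ps (m W : ℕ) (q : Q) : Prop := ∀ c0 c1 c2 c3 c4 d0 d1 d2 cO cJ : ℝ,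
  (∀ s Y : ℝ, |s| ≤ (W : ℝ)⁻¹ → |s| ≤ 1 / 2 → (1 / 4 : ℝ) ^ m ≤ Y → Y ≤ 3 ^ m →
    |Y - 1| ≤ 3 * m * 3 ^ m * |s| →
    0 ≤ Y * K4.pl c0 c1 c2 c3 c4 (2 * s + s ^ 2) + (d0 + d1 * (W ^ 2 * s) + d2 * (W ^ 2 * s) ^ 2)) →
  (∀ s Y : ℝ, (W : ℝ)⁻¹ ≤ |s| → |s| ≤ 1 / 2 → (1 / 4 : ℝ) ^ m ≤ Y → Y ≤ 3 ^ m →
    0 ≤ Y * K4.pl c0 c1 c2 c3 c4 (2 * s + s ^ 2) + cO * (1 + (W ^ 2 * s) ^ 2)) →
  (∀ x F : ℝ, 1 / 2 ≤ x ^ 2 → 1 ≤ F → x ^ 4 ≤ F → F ≤ 9 * (1 + x ^ 4) →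
    0 ≤ K4.pl c0 c1 c2 c3 c4 x + cJ * F) →
  0 ≤ c0 * q.e 0 + c1 * q.e 1 + c2 * q.e 2 + c3 * q.e 3 + c4 * q.e 4 +
    2 * (d0 * q.m 0 + d1 * q.m 1 + d2 * q.m 2) + cO * (q.n - 2 * q.m 0 - 2 * q.m 2) + cJ * q.j

lemma pos (h : Sq z) (hW : 4 ≤ W) (hj : 1 ≤ j) (hjW : 2 * j < W) (h1 : j⁻¹ ≤ l) (m : ℕ) (A : ℝ) :
    Ps m W (qL m l W A z) := by
  intro c0 c1 c2 c3 c4 d0 d1 d2 cO cJ hw ho hf
  have hl : 0 < l := (inv_pos.2 (by linarith)).trans_le h1
  have H := fun i => sum_HiL h.dec (m + i) l W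
  have S := (((((((((((H 0).mul_left (c0 - c1 + c2 - c3 + c4)).add
    ((H 1).mul_left (c1 - 2 * c2 + 3 * c3 - 4 * c4))).add
    ((H 2).mul_left (c2 - 3 * c3 + 6 * c4))).add ((H 3).mul_left (c3 - 4 * c4))).add
    ((H 4).mul_left c4)).add ((sum_winL h hl hW 0).mul_left (d0 - cO))).add
    ((sum_winL h hl hW 1).mul_left d1)).add ((sum_winL h hl hW 2).mul_left (d2 - cO))).add
    ((sum_NrL h.dec l W).mul_left cO)).add ((sum_JkL h.dec m l W).mul_left cJ))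
  refine le_of_le_of_eq (div_nonneg (S.nonneg fun ξ => ?_) (sq_nonneg A))
    (by simp only [qL, momL, fd]; ring)
  have hw4 : (4 : ℝ) ≤ W := by exact_mod_cast hW
  have hw0 : (0 : ℝ) < W := by linarith
  have hq : 2 * (W : ℝ) ≤ (W : ℝ) ^ 2 := by nlinarith
  have ha : 0 ≤ ‖z ξ‖ ^ 2 := by positivity
  obtain ⟨s, hs⟩ : ∃ s : ℝ, ce l W ξ = W ^ 2 * s := ⟨ce l W ξ / W ^ 2, by field_simp⟩
  have hx : |(ξ : ℝ)| / l = W ^ 2 * (1 + s) := by rw [ce] at hs; linarith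
  have hy : yl l W ξ = (1 + s) ^ 2 := by
    rw [yl, ← sq_abs, ← div_div, ← div_pow, hx]
    field_simp
  have hab : |ce l W ξ| = W ^ 2 * |s| := by rw [hs, abs_mul, abs_of_nonneg (by positivity)]
  have hinv : (W : ℝ) ^ 2 * (W : ℝ)⁻¹ = W := by field_simp
  by_cases k3 : 2 * |ce l W ξ| ≤ (W : ℝ) ^ 2
  · have k1 := near_hi hj hjW h1 k3
    have k4 := not_lt.2 k3
    have hh : |s| ≤ 1 / 2 := le_of_mul_le_mul_left (a := (W : ℝ) ^ 2) (by linarith) (by positivity)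
    obtain ⟨f1, f2, f3⟩ := near_facts m hh
    by_cases k2 : |ce l W ξ| ≤ W
    · have := hw s _ (le_of_mul_le_mul_left (a := (W : ℝ) ^ 2) (by linarith) (by positivity))
        hh f1 f2 f3
      simp only [k1, k2, k3, k4, if_true, and_false, if_false]
      rw [hy, hs]
      refine le_of_le_of_eq (mul_nonneg this ha) ?_
      simp only [K4.pl, pow_add]
      ring
    · have := ho s _ (le_of_mul_le_mul_left (a := (W : ℝ) ^ 2) (by linarith) (by positivity))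
        hh f1 f2
      simp only [k1, k2, k3, k4, if_true, and_false, if_false]
      rw [hy, hs]
      refine le_of_le_of_eq (mul_nonneg this ha) ?_
      simp only [K4.pl, pow_add]
      ring
  have k4 := not_le.1 k3
  have k2 : ¬|ce l W ξ| ≤ W := fun k => k3 (by linarith)
  by_cases k1 : (W : ℤ) < |ξ|
  swap
  · simp only [k1, k2, k3, if_false, false_and, mul_zero, add_zero, le_refl]
  have k6 : 1 / 2 ≤ |s| := le_of_mul_le_mul_left (a := (W : ℝ) ^ 2) (by linarith) (by positivity)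
  have k7 : 0 ≤ 1 + s := by
    refine le_of_mul_le_mul_left (a := (W : ℝ) ^ 2) ?_ (by positivity)
    rw [← hx, mul_zero]
    positivity
  have y0 := yl_nonneg l W ξ
  obtain ⟨f1, f2, f3⟩ := far_facts y0 (by
    rw [hy]
    rcases le_abs.1 k6 with k | k
    · right; nlinarith
    · left; nlinarith)
  have := hf _ _ f1 (le_add_of_nonneg_right (by positivity)) f2 f3
  simp only [k1, k2, k3, k4, if_true, and_true, if_false]
  refine le_of_le_of_eq (mul_nonneg (mul_nonneg (pow_nonneg y0 m) this) ha) ?_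
  simp only [K4.pl, pow_add]
  ring

lemma momL_nonneg (e : ℕ) (l : ℝ) (W : ℕ) (A : ℝ) (z : ℤ → ℂ) : 0 ≤ momL (2 * e) l W A z :=
  div_nonneg (Finset.sum_nonneg fun ξ _ => by rw [pow_mul]; positivity) (sq_nonneg A)

/-- the inequalities follow from the positivity principle -/
lemma ineq (m : ℕ) : ∃ γ Λ, 0 < γ ∧ ∀ (W : ℕ) (q : Q), 4 ≤ W → Ps m W q → 0 ≤ q.m 0 → 0 ≤ q.m 2 →
    Ineq γ Λ m (W : ℝ)⁻¹ q := by
  obtain ⟨g, hg⟩ : ∃ g : ℝ, (1 / 4 : ℝ) ^ m = g := ⟨_, rfl⟩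
  obtain ⟨G, hG⟩ : ∃ G : ℝ, (3 : ℝ) ^ m = G := ⟨_, rfl⟩
  obtain ⟨κ, hκ⟩ : ∃ κ : ℝ, 3 * m * G = κ := ⟨_, rfl⟩
  obtain ⟨ρ, hρ⟩ : ∃ ρ : ℝ, (1 + 8 * (m : ℝ)) ^ 2 = ρ := ⟨_, rfl⟩
  have g0 : 0 < g := by rw [← hg]; positivity
  have g1 : g ≤ 1 := by rw [← hg]; exact pow_le_one₀ (by norm_num) (by norm_num)
  have G1 : 1 ≤ G := by rw [← hG]; exact one_le_pow₀ (by norm_num)
  have m0 : (0 : ℝ) ≤ m := Nat.cast_nonneg m
  have κ0 : 0 ≤ κ := by rw [← hκ]; positivity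
  have ρ1 : 1 + (m : ℝ) ^ 2 ≤ ρ := by rw [← hρ]; nlinarith
  have ρ2 : 1 ≤ ρ := by nlinarith
  have Gρ : G ≤ G * ρ := le_mul_of_one_le_right (by linarith) ρ2
  have Gρ' : ρ ≤ G * ρ := le_mul_of_one_le_left (by linarith) G1
  obtain ⟨Λ, hΛ⟩ : ∃ Λ : ℝ, 20 * (G * ρ) + 4 * κ = Λ := ⟨_, rfl⟩
  have Λ1 : 1 ≤ Λ := by linarith
  refine ⟨g / 18, Λ, by positivity, fun W q hW P q0 q2 => ?_⟩
  rw [Ps, hg, hG, hκ] at P
  have hw4 : (4 : ℝ) ≤ W := by exact_mod_cast hW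
  obtain ⟨v, hv⟩ : ∃ v : ℝ, (W : ℝ)⁻¹ = v := ⟨_, rfl⟩
  have v0 : 0 < v := by rw [← hv]; positivity
  have v1 : v ≤ 1 := by rw [← hv]; exact inv_le_one_of_one_le₀ (by linarith)
  have e2 : ∀ s : ℝ, v ^ 2 * (W ^ 2 * s) = s := fun s => by rw [← hv]; field_simp
  have e4 : ∀ s : ℝ, v ^ 4 * (W ^ 2 * s) ^ 2 = s ^ 2 := fun s => by rw [← hv]; field_simp
  have v4 : v ^ 4 ≤ v ^ 2 := pow_le_pow_of_le_one v0.le v1 (by norm_num)
  have v2 : v ^ 2 ≤ 1 := pow_le_one₀ v0.le v1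
  have v40 : 0 < v ^ 4 := by positivity
  rw [hv] at P ⊢
  have sq : ∀ s : ℝ, v ≤ |s| → v ^ 2 ≤ s ^ 2 := fun s h => by
    rw [← sq_abs s]; exact pow_le_pow_left₀ v0.le h 2
  have hA' : ∀ ε : ℝ, (∀ u, ε * u ≤ |u|) → ε * (q.e 0 - 2 * q.m 0) ≤
      Λ * (v * q.n + q.j) := fun ε hε => by
    have := (P (-ε) 0 0 0 0 (ε + Λ * v) 0 (Λ * v) (Λ * v) Λ (fun s Y h1 h2 h3 h4 h5 => by
      have h6 := (hε (Y - 1)).trans (h5.trans (mul_le_mul_of_nonneg_left h1 κ0))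
      have h7 : 0 ≤ Λ * v * (W ^ 2 * s) ^ 2 := by positivity
      have h8 : κ * v ≤ Λ * v := mul_le_mul_of_nonneg_right (by linarith) v0.le
      simp only [K4.pl]
      linarith) (fun s Y h1 h2 h3 h4 => by
      have h6 := (hε Y).trans (abs_le.2 ⟨by linarith, h4⟩)
      have h7 : 1 ≤ v * (W ^ 2 * s) ^ 2 := by
        have h8 := sq s h1
        rw [← e4 s] at h8
        have h9 : 1 ≤ v ^ 2 * (W ^ 2 * s) ^ 2 :=
          le_of_mul_le_mul_left (a := v ^ 2) (by linarith) (by positivity)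
        have h10 : 0 ≤ v * (W ^ 2 * s) ^ 2 := by positivity
        nlinarith
      have h8 : Λ * 1 ≤ Λ * (v * (W ^ 2 * s) ^ 2) := mul_le_mul_of_nonneg_left h7 (by linarith)
      have h9 : 0 ≤ Λ * v := by positivity
      simp only [K4.pl]
      linarith) (fun x F h1 h2 h3 h4 => by
      have h6 := hε 1
      have h7 : 1 * 1 ≤ Λ * F := mul_le_mul Λ1 h2 zero_le_one (by linarith)
      rw [abs_one] at h6
      simp only [K4.pl]
      linarith))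
    exact sub_nonneg.1 (le_of_le_of_eq this (by ring))
  have hB' : ∀ ε : ℝ, (∀ u, ε * u ≤ |u|) → ε * (q.e 1 - 4 * (v ^ 2 * q.m 1)) ≤
      Λ * (v ^ 3 * q.n + q.j) := fun ε hε => by
    have := (P 0 (-ε) 0 0 0 (Λ * v ^ 3) (2 * ε * v ^ 2) (Λ * v ^ 3) (Λ * v ^ 3) Λ
      (fun s Y h1 h2 h3 h4 h5 => by
      have h6 := hε (2 * (s * (Y - 1)) + Y * s ^ 2)
      have h7 : |2 * (s * (Y - 1)) + Y * s ^ 2| ≤ (2 * κ + G) * s ^ 2 := by
        refine (abs_add_le _ _).trans ?_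
        rw [abs_mul, abs_mul, abs_mul, abs_two, abs_of_nonneg (sq_nonneg s),
          abs_of_nonneg (show 0 ≤ Y by linarith)]
        have h8 := mul_le_mul_of_nonneg_left h5 (abs_nonneg s)
        have h9 := mul_le_mul_of_nonneg_right h4 (sq_nonneg s)
        have h10 := sq_abs s
        nlinarith
      have h8 : s ^ 2 ≤ v ^ 3 * (W ^ 2 * s) ^ 2 := by
        have h9 := mul_le_mul_of_nonneg_right (pow_le_pow_of_le_one v0.le v1 (show 3 ≤ 4 by norm_num))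
          (sq_nonneg ((W : ℝ) ^ 2 * s))
        rwa [e4] at h9
      have h9 : (2 * κ + G) * s ^ 2 ≤ Λ * (v ^ 3 * (W ^ 2 * s) ^ 2) :=
        mul_le_mul (by linarith) h8 (sq_nonneg s) (by linarith)
      have h10 : 0 ≤ Λ * v ^ 3 := by positivity
      have h11 := congrArg (fun u => 2 * ε * u) (e2 s)
      simp only [K4.pl] at h11 ⊢
      linarith) (fun s Y h1 h2 h3 h4 => by
      have h6 := hε (Y * (2 * s + s ^ 2))
      rw [abs_mul, abs_of_nonneg (show 0 ≤ Y by linarith)] at h6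
      have h7 : Y * |2 * s + s ^ 2| ≤ G * (3 * |s|) :=
        mul_le_mul h4 (x_facts h2).2.2.2.2.2 (abs_nonneg _) (by linarith)
      have h8 : |s| ≤ v ^ 3 * (W ^ 2 * s) ^ 2 := by
        refine le_of_mul_le_mul_left (a := v) ?_ v0
        have h9 := mul_le_mul_of_nonneg_right h1 (abs_nonneg s)
        have h10 := sq_abs s
        have h11 := e4 s
        nlinarith
      have h9 : 3 * G * |s| ≤ Λ * (v ^ 3 * (W ^ 2 * s) ^ 2) :=
        mul_le_mul (by linarith) h8 (abs_nonneg s) (by linarith)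
      have h10 : 0 ≤ Λ * v ^ 3 := by positivity
      simp only [K4.pl]
      linarith) (fun x F h1 h2 h3 h4 => by
      have h6 := (hε x).trans (far_abs h2 h3).1
      have h7 : 1 * F ≤ Λ * F := mul_le_mul_of_nonneg_right Λ1 (by linarith)
      simp only [K4.pl]
      linarith))
    exact sub_nonneg.1 (le_of_le_of_eq this (by ring))
  have p1 : ∀ u : ℝ, 1 * u ≤ |u| := fun u => by rw [one_mul]; exact le_abs_self u
  have p2 : ∀ u : ℝ, -1 * u ≤ |u| := fun u => by rw [neg_one_mul]; exact neg_le_abs u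
  refine ⟨q0, q2, ?_, ?_, ?_, ?_, ?_, ?_, abs_le.2 ⟨by linarith [hA' _ p2], by linarith [hA' _ p1]⟩,
    abs_le.2 ⟨by linarith [hB' _ p2], by linarith [hB' _ p1]⟩, fun ν n0 n1 => ?_, fun ν n0 n1 => ?_⟩
  · have := (P 0 0 0 0 0 0 0 0 0 1 (fun s Y _ _ _ _ _ => by simp [K4.pl])
      (fun s Y _ _ _ _ => by simp [K4.pl]) (fun x F _ h2 _ _ => by simp only [K4.pl]; linarith))
    exact le_of_le_of_eq this (by ring)
  · have := (P 0 0 0 0 0 0 0 0 1 0 (fun s Y _ _ _ _ _ => by simp [K4.pl])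
      (fun s Y _ _ _ _ => by simp only [K4.pl]; nlinarith [sq_nonneg ((W : ℝ) ^ 2 * s)])
      (fun x F _ h2 _ _ => by simp [K4.pl]))
    exact sub_nonneg.1 (le_of_le_of_eq this (by ring))
  · have := (P 1 0 0 0 1 (-(g / 18) * v ^ 4 - g / 18) 0 (-(g / 18) * v ^ 4)
      (-(g / 18) * v ^ 4) (-(g / 18)) (fun s Y h1 h2 h3 h4 h5 => by
      have h6 := (x_facts h2).2.2.2.2.1
      have h7 : 0 ≤ Y * (2 * s + s ^ 2) ^ 4 := mul_nonneg (by linarith) (by positivity)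
      have h8 := congrArg (fun u => g * u) (e4 s)
      have h9 := mul_le_mul_of_nonneg_left h6 g0.le
      have h10 := mul_le_mul_of_nonneg_left (v4.trans v2) g0.le
      simp only [K4.pl] at h8 ⊢
      linarith) (fun s Y h1 h2 h3 h4 => by
      have h6 := (x_facts h2).2.2.2.2.1
      have h7 : 0 ≤ Y * (2 * s + s ^ 2) ^ 4 := mul_nonneg (by linarith) (by positivity)
      have h8 := congrArg (fun u => g * u) (e4 s)
      have h9 := mul_le_mul_of_nonneg_left h6 g0.le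
      have h10 := mul_le_mul_of_nonneg_left (v4.trans v2) g0.le
      simp only [K4.pl] at h8 ⊢
      linarith) (fun x F h1 h2 h3 h4 => by
      have h6 := mul_le_mul_of_nonneg_right g1 (show 0 ≤ F by linarith)
      simp only [K4.pl]
      linarith))
    exact sub_nonneg.1 (le_of_le_of_eq this (by ring))
  · have := (P 0 0 1 0 1 0 0 (-(g / 18) * v ^ 4) (-(g / 18) * v ^ 4) (-(g / 18))
      (fun s Y h1 h2 h3 h4 h5 => by
      have h6 := mul_le_mul h3 (x_facts h2).1 (sq_nonneg s) (by linarith)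
      have h7 : 0 ≤ Y * (2 * s + s ^ 2) ^ 4 := mul_nonneg (by linarith) (by positivity)
      have h8 := congrArg (fun u => g * u) (e4 s)
      have h9 : 0 ≤ g * s ^ 2 := by positivity
      simp only [K4.pl] at h8 ⊢
      linarith) (fun s Y h1 h2 h3 h4 => by
      have h6 := mul_le_mul h3 (x_facts h2).1 (sq_nonneg s) (by linarith)
      have h7 : 0 ≤ Y * (2 * s + s ^ 2) ^ 4 := mul_nonneg (by linarith) (by positivity)
      have h8 := congrArg (fun u => g * u) (e4 s)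
      have h9 : 0 ≤ g * s ^ 2 := by positivity
      have h10 := mul_le_mul_of_nonneg_left (v4.trans (sq s h1)) g0.le
      simp only [K4.pl] at h8 ⊢
      linarith) (fun x F h1 h2 h3 h4 => by
      have h6 := mul_le_mul_of_nonneg_right g1 (show 0 ≤ F by linarith)
      have h7 : 0 ≤ x ^ 4 := by positivity
      simp only [K4.pl]
      linarith))
    exact sub_nonneg.1 (le_of_le_of_eq this (by ring))
  · have k : ∀ s Y : ℝ, |s| ≤ 1 / 2 → g ≤ Y → Y ≤ G →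
        0 ≤ Y * K4.pl (-1) 0 0 0 (-1) (2 * s + s ^ 2) + Λ * (1 + (W ^ 2 * s) ^ 2) := fun s Y h2 h3 h4 => by
      have h6 := mul_le_mul h4 (x_facts h2).2.2.1 (by positivity) (by linarith)
      have h7 : 0 ≤ Λ * (W ^ 2 * s) ^ 2 := by positivity
      simp only [K4.pl]
      linarith
    have := (P (-1) 0 0 0 (-1) Λ 0 Λ Λ Λ
      (fun s Y h1 h2 h3 h4 h5 => by linarith [k s Y h2 h3 h4])
      (fun s Y h1 h2 h3 h4 => k s Y h2 h3 h4) (fun x F h1 h2 h3 h4 => by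
      have h7 : 2 * F ≤ Λ * F := mul_le_mul_of_nonneg_right (by linarith) (by linarith)
      simp only [K4.pl]
      linarith))
    exact sub_nonneg.1 (le_of_le_of_eq this (by ring))
  · have k : ∀ s Y : ℝ, |s| ≤ 1 / 2 → g ≤ Y → Y ≤ G → 0 ≤ Y * K4.pl 0 0 (-1) 0 (-1) (2 * s + s ^ 2) +
        Λ * v ^ 4 * (1 + (W ^ 2 * s) ^ 2) := fun s Y h2 h3 h4 => by
      have h5 := mul_le_mul h4 (x_facts h2).2.1 (by positivity) (by linarith)
      have h6 := mul_le_mul h4 (x_facts h2).2.2.2.1 (by positivity) (by linarith)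
      have h7 : 0 ≤ Λ * v ^ 4 := by positivity
      have h8 := congrArg (fun u => Λ * u) (e4 s)
      have h9 : 17 * G * s ^ 2 ≤ Λ * s ^ 2 := mul_le_mul_of_nonneg_right (by linarith) (sq_nonneg s)
      simp only [K4.pl] at h8 ⊢
      linarith
    have := (P 0 0 (-1) 0 (-1) (Λ * v ^ 4) 0 (Λ * v ^ 4) (Λ * v ^ 4) Λ
      (fun s Y h1 h2 h3 h4 h5 => by linarith [k s Y h2 h3 h4])
      (fun s Y h1 h2 h3 h4 => k s Y h2 h3 h4) (fun x F h1 h2 h3 h4 => by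
      have h6 := (far_abs h2 h3).2
      have h7 : 2 * F ≤ Λ * F := mul_le_mul_of_nonneg_right (by linarith) (by linarith)
      simp only [K4.pl]
      linarith))
    exact sub_nonneg.1 (le_of_le_of_eq this (by ring))
  all_goals
    have pe : ∀ s : ℝ, K4.pl 0 0 1 (-2 * ν) (ν ^ 2) (2 * s + s ^ 2) =
        s ^ 2 * ((2 + s) * (1 - ν * (2 * s + s ^ 2))) ^ 2 := fun s => by simp only [K4.pl]; ring
    have pe' : ∀ x : ℝ, K4.pl 0 0 (-1) (2 * ν) (-ν ^ 2) x = -K4.pl 0 0 1 (-2 * ν) (ν ^ 2) x := fun x => by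
      simp only [K4.pl]; ring
    have k : ∀ s Y : ℝ, |s| ≤ v → |s| ≤ 1 / 2 → g ≤ Y → Y ≤ G → |Y - 1| ≤ κ * |s| →
        |Y * K4.pl 0 0 1 (-2 * ν) (ν ^ 2) (2 * s + s ^ 2) - 4 * s ^ 2| ≤ Λ * v * s ^ 2 := by
      intro s Y h1 h2 h3 h4 h5
      have h6 := (a_facts h2 n0 n1).1
      rw [hρ] at h6
      rw [pe]
      set a := ((2 + s) * (1 - ν * (2 * s + s ^ 2))) ^ 2
      rw [show Y * (s ^ 2 * a) - 4 * s ^ 2 = (Y * (a - 4) + 4 * (Y - 1)) * s ^ 2 by ring, abs_mul,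
        abs_of_nonneg (sq_nonneg s)]
      refine mul_le_mul_of_nonneg_right ((abs_add_le _ _).trans ?_) (sq_nonneg s)
      rw [abs_mul, abs_mul, abs_of_nonneg (show 0 ≤ Y by linarith),
        abs_of_nonneg (show (0 : ℝ) ≤ 4 by norm_num)]
      have h7 := mul_le_mul h4 h6 (abs_nonneg _) (by linarith)
      have h8 : (5 * (G * ρ) + 4 * κ) * |s| ≤ Λ * v :=
        mul_le_mul (by linarith) h1 (abs_nonneg s) (by linarith)
      linarith
  · have := (P 0 0 1 (-2 * ν) (ν ^ 2) (Λ * v ^ 5) 0 (Λ * v ^ 5 - 4 * v ^ 4) (Λ * v ^ 5) 0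
      (fun s Y h1 h2 h3 h4 h5 => by
      have h6 := (abs_le.1 (k s Y h1 h2 h3 h4 h5)).1
      have h7 : 0 ≤ Λ * v ^ 5 := by positivity
      have h8 := congrArg (fun u => Λ * v * u) (e4 s)
      have h9 := e4 s
      linarith) (fun s Y h1 h2 h3 h4 => by
      rw [pe]
      have : 0 ≤ Y := by linarith
      positivity) (fun x F h1 h2 h3 h4 => by
      simp only [K4.pl]
      nlinarith [sq_nonneg (x * (1 - ν * x))]))
    exact sub_nonneg.1 (le_of_le_of_eq this (by ring))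
  · have := (P 0 0 (-1) (2 * ν) (-ν ^ 2) (Λ * v ^ 5) 0 (Λ * v ^ 5 + 4 * v ^ 4)
      (Λ * v ^ 5 + Λ * v ^ 4) Λ (fun s Y h1 h2 h3 h4 h5 => by
      have h6 := (abs_le.1 (k s Y h1 h2 h3 h4 h5)).2
      have h7 : 0 ≤ Λ * v ^ 5 := by positivity
      have h8 := congrArg (fun u => Λ * v * u) (e4 s)
      have h9 := e4 s
      rw [pe']
      linarith) (fun s Y h1 h2 h3 h4 => by
      have h6 := (a_facts h2 n0 n1).2
      rw [hρ] at h6
      rw [pe', pe]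
      have h7 := mul_le_mul_of_nonneg_left (mul_le_mul h4 h6 (sq_nonneg _) (by linarith)) (sq_nonneg s)
      have h8 := congrArg (fun u => Λ * u) (e4 s)
      have h9 : 9 * (G * ρ) * s ^ 2 ≤ Λ * s ^ 2 :=
        mul_le_mul_of_nonneg_right (by linarith) (sq_nonneg s)
      have h10 : 0 ≤ Λ * v ^ 5 * (1 + (W ^ 2 * s) ^ 2) := by positivity
      have h11 : 0 ≤ Λ * v ^ 4 := by positivity
      linarith) (fun x F h1 h2 h3 h4 => by
      have h6 := (far_abs h2 h3).2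
      have h7 : ν ^ 2 * x ^ 4 ≤ (m : ℝ) ^ 2 * F :=
        mul_le_mul (pow_le_pow_left₀ n0 n1 2) h3 (by positivity) (by positivity)
      have h8 : 2 * (1 + (m : ℝ) ^ 2) * F ≤ Λ * F :=
        mul_le_mul_of_nonneg_right (by linarith) (by linarith)
      simp only [K4.pl]
      nlinarith [sq_nonneg (x * (1 + ν * x))]))
    exact sub_nonneg.1 (le_of_le_of_eq this (by ring))

end POSL

theorem st_posl : St_POSL := fun m => by
  obtain ⟨γ, Λ, h0, h⟩ := POSL.ineq m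
  exact ⟨γ, Λ, h0, fun j W A l z hW hjW h1 _ hj hz _ => h W _ hW (POSL.pos hz hW hj hjW h1 m A)
    (POSL.momL_nonneg 0 l W A z) (POSL.momL_nonneg 1 l W A z)⟩

end Pool.Agent.Lib.IS3
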