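import Pool.Agent.Lib.IS3.Kit

/-! Row PU: upper bounds for real values of the parameter. -/

open scoped ContDiff ComplexConjugate Topology Real
open Complex MeasureTheory Set Filter

noncomputable section

namespace Pool.Agent.Lib.IS3

open Pool.Agent.Lib.ISO Pool.Agent.Lib.IS2

namespace PU

lemma grow {K a η h : ℝ} (K0 : 0 ≤ K) (a0 : 0 ≤ a) (hη : 0 < η) (h1 : 1 ≤ h)
    (hh : (K + 24 + a) / η ≤ h) : K * h ^ 24 * Real.exp (a * h ^ 6) ≤ Real.exp (η * h ^ 9) := by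
  have h0 : 0 ≤ h := by linarith
  have e1 : K ≤ Real.exp K := by linarith [Real.add_one_le_exp K]
  have e2 : h ^ 24 ≤ Real.exp (24 * h) := by
    have := pow_le_pow_left₀ h0 (by linarith [Real.add_one_le_exp h] : h ≤ Real.exp h) 24
    rwa [← Real.exp_nat_mul] at this
  have p1 : 1 ≤ h ^ 6 := one_le_pow₀ h1
  have p2 : h ≤ h ^ 6 := le_self_pow₀ h1 (by norm_num)
  have p3 : h * h ^ 6 ≤ h ^ 9 := by
    rw [← pow_succ']
    exact pow_le_pow_right₀ h1 (by norm_num)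
  rw [div_le_iff₀ hη] at hh
  calc K * h ^ 24 * Real.exp (a * h ^ 6)
      ≤ Real.exp K * Real.exp (24 * h) * Real.exp (a * h ^ 6) := by gcongr
    _ = Real.exp (K + 24 * h + a * h ^ 6) := by rw [Real.exp_add, Real.exp_add]
    _ ≤ _ := Real.exp_le_exp.2 (by
      nlinarith [mul_le_mul_of_nonneg_right hh (zero_le_one.trans p1),
        mul_le_mul_of_nonneg_left p3 hη.le, mul_le_mul_of_nonneg_left p1 K0])

end PU

theorem st_pu (hW : St_LHW) (hL : St_LIP) : St_PU := by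
  intro j η hη
  obtain ⟨C, h0, hC⟩ := hW j 4 le_rfl
  obtain ⟨C', hC'⟩ := hL
  obtain ⟨μ0, -, hμ⟩ := dd_real (max h0 ((|C| + |C' * C| + 24 + 2 * |j|) / η))
  refine ⟨μ0, fun μ m => ?_⟩
  obtain ⟨h, a, h2, e, hD, eo, eT⟩ := hμ μ m
  replace hC := hC h ((le_max_left _ _).trans a)
  have h1 : 1 ≤ h := by linarith
  have o : 0 < om 4 h := by rw [eo]; positivity
  refine ⟨⟨_, inv_pos.2 o, _, fun N Γ w hΓ hw => (hC N Γ w 0 hΓ hw (lg_zero Γ w)).2 μ hD⟩,
    fun N Γ w hΓ hw => ?_⟩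
  have z : nmm (cpm Γ - cpm Γ) ≤ 2 / om 4 h := by
    rw [sub_self]
    simp only [nmm, Pi.zero_apply, nm_zero, Finset.sum_const_zero]
    positivity
  refine ⟨(((hC N Γ w 0 hΓ hw (lg_zero Γ w)).1 _ hΓ.cpm_mem z).2.2 μ hD).2.2,
    fun α a0 a1 lg => ?_⟩
  obtain ⟨b1, b2⟩ := hC N Γ w _ hΓ hw lg
  have g0 : 0 ≤ ga0 4 h (2 * α) μ := (Real.exp_pos _).le
  have key : (|C| + |C' * C|) * h ^ 24 * ga0 4 h (2 * α) μ ≤ Real.exp (-(2 * μ * α) + η * μ) := by
    have g : ga0 4 h (2 * α) μ ≤ Real.exp (2 * |j| * h ^ 6) * Real.exp (-(2 * μ * α)) := by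
      rw [ga0, eT, ofReal_re, ← Real.exp_add]
      refine Real.exp_le_exp.2 ?_
      have := mul_le_mul_of_nonneg_right (a1.trans (by linarith [le_abs_self j] : 2 * j ≤ 2 * |j|))
        (by positivity : 0 ≤ h ^ 6)
      linarith
    have G := PU.grow (by positivity) (by positivity) hη h1 ((le_max_right _ _).trans a)
    rw [← e] at G
    rw [add_comm (-_), Real.exp_add]
    exact (mul_le_mul_of_nonneg_left g (by positivity)).trans (by
      rw [← mul_assoc]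
      exact mul_le_mul_of_nonneg_right G (Real.exp_pos _).le)
  have p : h ^ 12 ≤ h ^ 24 := pow_le_pow_right₀ h1 (by norm_num)
  refine ⟨((b1 _ hΓ.cpm_mem z).2.2 μ hD).2.1.trans (le_trans ?_ key), fun Q hQ => ?_⟩
  · rw [eo]
    exact mul_le_mul_of_nonneg_right (mul_le_mul
      ((le_abs_self C).trans (le_add_of_nonneg_right (abs_nonneg _))) p (by positivity)
      (by positivity)) g0
  · refine (((hC' _ _ _ _ _ _ _ sn_nmm (inv_pos.2 o) (b2 μ hD)).2.1 Q hQ).2).trans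
      (le_trans ?_ (mul_le_mul_of_nonneg_left key (sn_nmm.nn Q hQ)))
    have : C' * (C * om 4 h * ga0 4 h (2 * α) μ) * nmm Q / (om 4 h)⁻¹ =
        nmm Q * (C' * C * h ^ 24 * ga0 4 h (2 * α) μ) := by
      rw [div_inv_eq_mul, eo]
      ring
    rw [this]
    exact mul_le_mul_of_nonneg_left (mul_le_mul_of_nonneg_right (mul_le_mul_of_nonneg_right
      ((le_abs_self _).trans (le_add_of_nonneg_left (abs_nonneg _))) (by positivity)) g0)
      (sn_nmm.nn Q hQ)

end Pool.Agent.Lib.IS3
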