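import Pool.Agent.Lib.IS3.Kit

/-! The variation of the trace in the direction of a test function. -/

open scoped ContDiff ComplexConjugate Topology Real
open Complex MeasureTheory Set Filter

noncomputable section

namespace Pool.Agent.Lib.IS3

open Pool.Agent.Lib.ISO Pool.Agent.Lib.IS2

namespace PUX

lemma prod {g : ℝ → ℂ} {ρ : ℝ → ℝ} {M m : ℝ} (hg : ContDiff ℝ ∞ g) (hρ : ContDiff ℝ ∞ ρ)
    (hM : ∀ s, ‖g s‖ + ‖deriv g s‖ + ‖deriv (deriv g) s‖ ≤ M) (b0 : ∀ s, |ρ s| ≤ m)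
    (b1 : ∀ s, |deriv ρ s| ≤ m) (b2 : ∀ s, |deriv (deriv ρ) s| ≤ m) :
    nm (cp fun s => ρ s * g s) ≤ 3 * M * m := by
  have g1 := contDiff_infty_iff_deriv.1 hg
  have g2 := contDiff_infty_iff_deriv.1 g1.2
  have r1 := contDiff_infty_iff_deriv.1 hρ
  have r2 := contDiff_infty_iff_deriv.1 r1.2
  have d1 : ∀ s, HasDerivAt (fun s => (ρ s : ℂ) * g s)
      ((deriv ρ s : ℝ) * g s + ρ s * deriv g s) s :=
    fun s => (r1.1 s).hasDerivAt.ofReal_comp.mul (g1.1 s).hasDerivAt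
  have e1 : deriv (fun s => (ρ s : ℂ) * g s) = fun s => (deriv ρ s : ℝ) * g s + ρ s * deriv g s :=
    funext fun s => (d1 s).deriv
  have d2 : ∀ s, HasDerivAt (fun s => ((deriv ρ s : ℝ) : ℂ) * g s + ρ s * deriv g s)
      ((deriv (deriv ρ) s : ℝ) * g s + (deriv ρ s : ℝ) * deriv g s +
        ((deriv ρ s : ℝ) * deriv g s + ρ s * deriv (deriv g) s)) s := fun s =>
    ((r2.1 s).hasDerivAt.ofReal_comp.mul (g1.1 s).hasDerivAt).add
      ((r1.1 s).hasDerivAt.ofReal_comp.mul (g2.1 s).hasDerivAt)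
  refine nm_le fun s => ?_
  rw [deriv_cp fun s => (d1 s).differentiableAt, e1, deriv_cp fun s => (d2 s).differentiableAt,
    norm_cp, norm_cp, norm_cp, (d2 s).deriv]
  have k : ∀ (a : ℝ) (z : ℂ), |a| ≤ m → ‖(a : ℂ) * z‖ ≤ m * ‖z‖ := fun a z h => by
    rw [norm_mul, norm_real, Real.norm_eq_abs]
    exact mul_le_mul_of_nonneg_right h (norm_nonneg _)
  have m0 : 0 ≤ m := (abs_nonneg _).trans (b0 s)
  have h1 := norm_add_le_of_le (k _ (g s) (b1 s)) (k _ (deriv g s) (b0 s))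
  have h2 := norm_add_le_of_le (norm_add_le_of_le (k _ (g s) (b2 s)) (k _ (deriv g s) (b1 s)))
    (norm_add_le_of_le (k _ (deriv g s) (b1 s)) (k _ (deriv (deriv g) s) (b0 s)))
  have h3 := mul_le_mul_of_nonneg_left (hM s) m0
  have h4 := mul_nonneg m0 (norm_nonneg (deriv (deriv g) s))
  linarith [k _ (g s) (b0 s)]

lemma bd {N : ℕ} {Γ : MC N} (h : Rc Γ) : ∃ C, 0 ≤ C ∧ ∀ k (ρ : ℝ → ℝ) m, ContDiff ℝ ∞ ρ →
    (∀ s, |ρ s| ≤ m) → (∀ s, |deriv ρ s| ≤ m) → (∀ s, |deriv (deriv ρ) s| ≤ m) →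
    nmm (bu Γ k ρ) ≤ C * m := by
  have hQ : (fun i => cp (nr (Γ i))) ∈ SPm N :=
    mem_SPm.2 fun i => cp_mem (h.nr_smooth i) (h.nr_per i)
  refine ⟨3 * nmm fun i => cp (nr (Γ i)), mul_nonneg (by norm_num) (sn_nmm.nn _ hQ),
    fun k ρ m hρ b0 b1 b2 => ?_⟩
  rw [bu, nmm_single]
  refine prod (h.nr_smooth k) hρ (fun s => ?_) b0 b1 b2
  have g1 := contDiff_infty_iff_deriv.1 (h.nr_smooth k)
  have g2 := contDiff_infty_iff_deriv.1 g1.2
  have := (le_nm (mem_SPm.1 hQ k) s).trans (nm_le_nmm hQ k)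
  rwa [deriv_cp g1.1, deriv_cp g2.1, norm_cp, norm_cp, norm_cp] at this

lemma grow {C η μ : ℝ} (hη : 0 < η) (h1 : 1 ≤ μ) (h : 6 * C / η ^ 3 ≤ μ) :
    C * μ ^ 2 ≤ Real.exp (η * μ) := by
  have h2 := Real.pow_div_factorial_le_exp (η * μ) (by positivity) 3
  rw [div_le_iff₀ (by positivity)] at h
  have h3 := mul_le_mul_of_nonneg_right h (sq_nonneg μ)
  norm_num [Nat.factorial] at h2
  nlinarith

end PUX

theorem st_pux (hPU : St_PU) (hDIF : St_DIF) (hDLP : St_DLP) : St_PUX := by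
  intro j N Γ h
  obtain ⟨C, C0, hC⟩ := PUX.bd h.rc
  have k1 : ∀ μ, 1 ≤ μ → ∀ k e α ρ, Tb μ e α ρ → nmm (bu Γ k ρ) ≤ C * μ ^ 2 :=
    fun μ hμ k e α ρ t => hC k ρ _ t.per.smooth (fun s => (t.b0 s).trans (one_le_pow₀ hμ)) t.b1 t.b2
  refine ⟨⟨C, fun μ hμ k e α ρ t => ⟨h.rc.bu_mem k t.per, k1 μ hμ k e α ρ t⟩⟩, fun η hη => ?_⟩
  obtain ⟨μ1, h1⟩ := hPU j (η / 2) (by positivity)
  obtain ⟨μ2, h2⟩ := hDIF j
  refine ⟨max (max μ1 μ2) (max 1 (6 * C / (η / 2) ^ 3)), fun μ hμ cl y e ρ t => ?_⟩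
  simp only [max_le_iff] at hμ
  obtain ⟨⟨m1, m2⟩, m3, m4⟩ := hμ
  have j0 := h.pos
  have hb := h.rc.bu_mem y.1 t.per
  refine (abs_re_le_norm _).trans ?_
  rcases lt_or_ge e 0 with he | he
  · have z : ρ = fun _ => 0 := funext fun s => t.zero s (he.le.trans (norm_nonneg _))
    have n0 := hC y.1 ρ 0 t.per.smooth (by simp [z]) (by simp [z]) (by simp [z])
    have := (((h1 μ m1).2 N Γ _ h (wm_wX cl)).2 0 le_rfl (by positivity)
      (by simpa using lg_zero Γ _)).2 _ hb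
    refine this.trans (le_trans ?_ (Real.exp_pos _).le)
    exact mul_nonpos_of_nonpos_of_nonneg (by linarith) (Real.exp_pos _).le
  obtain ⟨l1, l2, -⟩ := hDLP j N cl Γ h
  have hw := wm_wH_le y.1 y.2 e
  have e1 := (h2 μ m2 N Γ _ h (wm_wX cl)).2 y.1 _ ρ hw t.per fun s hs => by
    have hs' : e < dc s y.2 := not_le.1 hs
    refine ⟨t.zero s hs'.le, ?_⟩
    have ev : ρ =ᶠ[𝓝 s] fun _ => 0 := by
      filter_upwards [(isOpen_lt continuous_const (cont_dc y.2)).mem_nhds hs'] with u hu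
      exact t.zero u (le_of_lt hu)
    rw [ev.deriv_eq, deriv_const]
  have dj : dl cl Γ y ≤ j := by
    by_cases c : ∃ x : XN N, cl x.1 ≠ cl y.1
    · exact c.elim fun x hx => (l2 x y hx).2.2.1
    · have : {z | ∃ x : XN N, cl x.1 ≠ cl y.1 ∧ z = gp Γ x} = ∅ :=
        eq_empty_of_forall_notMem fun z ⟨x, hx, _⟩ => c ⟨x, hx⟩
      rw [dl, this, Metric.infDist_empty]
      exact j0.le
  have je := mul_nonneg j0.le he
  have lg : Lg Γ (2 * max 0 (dl cl Γ y - j * e)) (wX cl * wH y.1 {s | dc s y.2 ≤ e}) := by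
    intro n v hv
    obtain ⟨p1, p2⟩ := mul_ne_zero_iff.1 hv
    obtain ⟨a, b, hab⟩ := wX_ne.1 p1
    obtain ⟨c, c1, c2⟩ := wH_ne.1 p2
    obtain ⟨x, hx⟩ : ∃ x, cl (v x).1 ≠ cl (v c).1 := by
      by_cases q : cl (v a).1 = cl (v c).1
      · exact ⟨b, fun r => hab (q.trans r.symm)⟩
      · exact ⟨a, q⟩
    have q1 := (l2 _ _ hx).1
    have q2 := (abs_le.1 (l1 y.1 (v c).2 y.2)).1
    have q3 : ((y.1, (v c).2) : XN N) = v c := by rw [← c1]
    have q4 := mul_le_mul_of_nonneg_left (show dc (v c).2 y.2 ≤ e from c2) j0.le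
    have q5 := two_cm_le Γ v x c
    have q6 := elm_nonneg Γ v
    rw [q3] at q2
    change _ ≤ dl cl Γ (v c) - dl cl Γ y at q2
    rcases max_cases 0 (dl cl Γ y - j * e) with q | q <;> rw [q.1] <;> linarith
  have k2 := (((h1 μ m1).2 N Γ _ h ((wm_wX cl).mul hw)).2 _ (le_max_left _ _)
    (max_le (by positivity) (by linarith)) lg).2 _ hb
  rw [e1]
  refine k2.trans ((mul_le_mul_of_nonneg_right ((k1 μ m3 y.1 e y.2 ρ t).trans
    (PUX.grow (by positivity) m3 m4)) (Real.exp_pos _).le).trans ?_)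
  rw [← Real.exp_add]
  have := mul_le_mul_of_nonneg_left (le_max_right 0 (dl cl Γ y - j * e)) (by linarith : 0 ≤ 2 * μ)
  exact Real.exp_le_exp.2 (by linarith)

end Pool.Agent.Lib.IS3
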