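import Pool.Agent.Lib.IS3.Kit
import Pool.Agent.Lib.IS2.B_JET2

/-! Row QUI: the derivatives of a curvature without marker. -/

open scoped ContDiff Topology Real
open Complex MeasureTheory Set Filter

noncomputable section

namespace Pool.Agent.Lib.IS3

open Pool.Agent.Lib.ISO Pool.Agent.Lib.IS2 Pool.Agent.Lib.IS2.JET2

namespace QUI

variable {κ : ℝ → ℝ} {j : ℝ} {M W : ℕ}

theorem high (hW : 1 ≤ W) (h : Per (2 * π) κ) (hb : ∀ s, |κ s| ≤ j) (hm : Mk M W 0 (fc κ))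
    {ξ : ℤ} (hξ : (W : ℤ) < |ξ|) : |(ξ : ℝ)| ^ (2 * M + 8) * ‖fc κ ξ‖ ≤ 1 := by
  have hx : (1 : ℝ) ≤ W := by exact_mod_cast hW
  have hA : amp M W ≤ 1 := inv_le_one_of_one_le₀ (one_le_pow₀ hx)
  have hA0 : 0 ≤ amp M W := by
    unfold amp
    positivity
  simp only [Mk, gm, Pi.zero_apply, map_zero, add_zero, mul_zero, sub_zero] at hm
  have h4 : ∀ x : ℤ, (0 : ℝ) ≤ (x : ℝ) ^ (2 * (2 * M + 8)) := fun x => by
    rw [pow_mul]
    positivity
  have h0 : ∀ ξ : ℤ, 0 ≤ if (W : ℤ) < |ξ| then (ξ : ℝ) ^ (2 * (2 * M + 8)) *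
      ‖fc κ ξ‖ ^ 2 else 0 := fun ξ => by
    split_ifs
    · exact mul_nonneg (h4 ξ) (by positivity)
    · exact le_rfl
  have h1 : Summable fun ξ : ℤ => if (W : ℤ) < |ξ| then (ξ : ℝ) ^ (2 * (2 * M + 8)) *
      ‖fc κ ξ‖ ^ 2 else 0 := by
    refine Summable.of_nonneg_of_le h0 (fun x => ?_) ((FOU.dec h (2 * (2 * M + 8))).mul_right j)
    have h2 := fc_le hb x
    have h3 := norm_nonneg (fc κ x)
    rw [(even_two_mul _).pow_abs]
    split_ifs
    · rw [sq, ← mul_assoc]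
      exact mul_le_mul_of_nonneg_left h2 (mul_nonneg (h4 x) h3)
    · exact mul_nonneg (mul_nonneg (h4 x) h3) (h3.trans h2)
  have h2 := (h1.le_tsum ξ fun x _ => h0 x).trans (le_of_lt hm)
  rw [if_pos hξ, ← (even_two_mul _).pow_abs, mul_comm 2, pow_mul, ← mul_pow] at h2
  exact ((pow_le_pow_iff_left₀ (by positivity) hA0 two_ne_zero).1 h2).trans hA

theorem low (h : Per (2 * π) κ) (hb : Bk j κ) (ξ : ℤ) : (ξ : ℝ) ^ 2 * ‖fc κ ξ‖ ≤ j := by
  have h1 := fc_le (hb 2 (by norm_num)) ξ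
  rwa [FOU.fc_iter h, norm_mul, norm_pow, norm_mul, norm_I, one_mul, norm_intCast, sq_abs] at h1

end QUI

theorem st_qui : St_QUI := by
  intro M j
  refine ⟨j + (j + 1) * C0, fun W κ hW h hb hm a ha s => ?_⟩
  have hb0 : ∀ s, |κ s| ≤ j := fun s => by simpa only [iteratedDeriv_zero] using hb 0 (by norm_num) s
  have hj : 0 ≤ j := (abs_nonneg _).trans (hb0 0)
  have hx : (1 : ℝ) ≤ W := by exact_mod_cast hW
  have hp : (1 : ℝ) ≤ (W : ℝ) ^ a := one_le_pow₀ hx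
  have h1 := FOU.series (FOU.per_iter h a) s
  have h3 := ((hasSum_ite_eq (0 : ℤ) j).add
    ((Real.summable_one_div_int_pow.2 one_lt_two).hasSum.mul_left (j + 1))).mul_right ((W : ℝ) ^ a)
  have h4 := h1.norm_le_of_bounded h3 fun ξ => by
    rw [FOU.fc_iter h, norm_mul, FOU.norm_ex, mul_one, norm_mul, norm_pow, norm_mul, norm_I, one_mul,
      norm_intCast]
    have h5 := norm_nonneg (fc κ ξ)
    by_cases hξ : (W : ℤ) < |ξ|
    · have h6 : (1 : ℝ) ≤ |(ξ : ℝ)| := by exact_mod_cast (by omega : (1 : ℤ) ≤ |ξ|)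
      have h7 : |(ξ : ℝ)| ^ a * ‖fc κ ξ‖ ≤ 1 / (ξ : ℝ) ^ 2 := by
        rw [← sq_abs, le_div_iff₀ (by positivity), mul_right_comm, ← pow_add]
        exact (mul_le_mul_of_nonneg_right (pow_le_pow_right₀ h6 (by omega)) h5).trans
          (QUI.high hW h hb0 hm hξ)
      have h8 : (0 : ℝ) ≤ 1 / (ξ : ℝ) ^ 2 := by positivity
      have h9 : (0 : ℝ) ≤ if ξ = 0 then j else 0 := by
        split_ifs
        · exact hj
        · exact le_rfl
      refine h7.trans (le_trans ?_ (le_mul_of_one_le_right (by positivity) hp))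
      nlinarith [mul_nonneg hj h8]
    · have h6 : |(ξ : ℝ)| ≤ W := by exact_mod_cast not_lt.1 hξ
      rw [mul_comm]
      refine mul_le_mul ?_ (pow_le_pow_left₀ (abs_nonneg _) h6 a) (by positivity) ?_
      · split_ifs with h0
        · exact le_add_of_le_of_nonneg (fc_le hb0 ξ) (by positivity)
        · have h7 : (0 : ℝ) < (ξ : ℝ) ^ 2 := by positivity
          rw [zero_add, mul_one_div, le_div_iff₀ h7]
          linarith [QUI.low h hb ξ]
      · split_ifs <;> positivity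
  rwa [norm_real, Real.norm_eq_abs] at h4

end Pool.Agent.Lib.IS3
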