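import Pool.Agent.Lib.IS3.Blue
import Pool.Agent.Lib.IS2.B_REP

/-! Row REPm: reparametrisation invariance of the chains through two clusters. -/

open scoped ContDiff ComplexConjugate Topology Real
open Complex MeasureTheory Set Filter

noncomputable section

namespace Pool.Agent.Lib.IS3

open Pool.Agent.Lib.ISO Pool.Agent.Lib.IS2

namespace REPm

variable {N : ℕ}

lemma IM_congr (μ : ℂ) (P : MQ N) (n : ℕ) (v : Fin (n + 2) → XN N) (t : Fin (n + 2) → ℝ)
    (h1 : ∀ i, P (v i).1 (t i) = P (v i).1 (v i).2)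
    (h2 : ∀ i, deriv (P (v i).1) (t i) = deriv (P (v i).1) (v i).2) :
    IM μ P n (fun i => ((v i).1, t i)) = IM μ P n v := by
  simp only [IM, mK, mS, mNd, mKd, mc, mD, mn, pn, h1, h2]

section
variable {P : MQ N} {φ : Fin N → ℝ → ℝ} (hP : ∀ i, Differentiable ℝ (P i))
  (hφ : ∀ i, Differentiable ℝ (φ i)) (μ : ℂ)
include hP hφ

lemma mn_comp (x : XN N) : mn (fun i s => P i (φ i s)) x =
    ((deriv (φ x.1) x.2 : ℝ) : ℂ) • mn P (x.1, φ x.1 x.2) := REP.pn_comp (hP _) (hφ _) _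

lemma mK_comp (x y : XN N) : mK μ (fun i s => P i (φ i s)) x y =
    ((deriv (φ y.1) y.2 : ℝ) : ℂ) * mK μ P (x.1, φ x.1 x.2) (y.1, φ y.1 y.2) := by
  simp only [mK, mn_comp hP hφ, mc, mD, dot, Prod.smul_fst, Prod.smul_snd, smul_eq_mul]
  ring

lemma mKd_comp (x y : XN N) : mKd μ (fun i s => P i (φ i s)) x y =
    ((deriv (φ y.1) y.2 : ℝ) : ℂ) * mKd μ P (x.1, φ x.1 x.2) (y.1, φ y.1 y.2) := by
  simp only [mKd, mn_comp hP hφ, mc, mD, dot, Prod.smul_fst, Prod.smul_snd, smul_eq_mul]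
  ring

lemma mNd_comp (x y : XN N) : mNd μ (fun i s => P i (φ i s)) x y =
    ((deriv (φ x.1) x.2 : ℝ) : ℂ) * ((deriv (φ y.1) y.2 : ℝ) : ℂ) *
      mNd μ P (x.1, φ x.1 x.2) (y.1, φ y.1 y.2) := by
  simp only [mNd, mn_comp hP hφ, mc, mD, dot, Prod.smul_fst, Prod.smul_snd, smul_eq_mul]
  ring

lemma IM_comp (n : ℕ) (v : Fin (n + 2) → XN N) : IM μ (fun i s => P i (φ i s)) n v =
    ((∏ i, deriv (φ (v i).1) (v i).2 : ℝ) : ℂ) *
      IM μ P n fun i => ((v i).1, φ (v i).1 (v i).2) := by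
  have hS (x y : XN N) : mS μ (fun i s => P i (φ i s)) x y =
    mS μ P (x.1, φ x.1 x.2) (y.1, φ y.1 y.2) := rfl
  simp only [IM, mK_comp hP hφ, mKd_comp hP hφ, mNd_comp hP hφ, hS, Finset.prod_mul_distrib]
  rw [Fin.prod_univ_castSucc, Fin.prod_univ_succ]
  push_cast
  simp only [Fin.castSucc_zero]
  ring

end

end REPm

theorem st_repm (hC : St_COV) : St_REPm := by
  intro N P hP φ cl μ hφ
  have hP' : ∀ i, P i ∈ SP := fun i => hP i (mem_univ i)
  have hd : ∀ i, Differentiable ℝ (φ i) := fun i => (hφ i).1.differentiable one_ne_zero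
  refine tsum_congr fun n => congrArg _ ?_
  have hF : Pw fun v : Fin (n + 2) → XN N => wX cl (n + 2) v * IM μ P n v := fun v k => by
    have := REPm.IM_congr μ P n v (fun i => (v i).2 + k i * (2 * π))
      (fun i => (hP' _).2.int_mul (k i) _) fun i => (per_deriv' (hP' _).2).int_mul (k i) _
    exact congrArg (wX cl (n + 2) v * ·) this
  rw [Tc, Tc, ← (hC N (n + 2) _ hF).1 φ hφ]
  refine integral_congr_ae (Eventually.of_forall fun v => ?_)
  have e : wX cl (n + 2) (fun i => ((v i).1, φ (v i).1 (v i).2)) = wX cl (n + 2) v := rfl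
  simp only [REPm.IM_comp (fun i => SP.diff (hP' i)) hd, e]
  ring

end Pool.Agent.Lib.IS3
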