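import Pool.Agent.Lib.IS3.Kit
import Pool.Agent.Lib.IS2.B_RES

/-! The resolvent identity for the Green function of a domain with several boundary curves. -/

open scoped ContDiff ComplexConjugate Topology Real
open Complex MeasureTheory Set Filter

noncomputable section

namespace Pool.Agent.Lib.IS3

open Pool.Agent.Lib.ISO Pool.Agent.Lib.IS2
open Pool.Agent.Lib.IS2.RES (lap_shift lap_sub zero_of gr_lim gr_comm ae_ne)

namespace RESm

variable {N : ℕ}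

section
variable (hGRE : St_GREm) {μ : ℝ} {Γ : MC N} {Ω : Set ℂ} (h : Potm μ Γ Ω)
include hGRE h

lemma rg_comm {x y : ℂ} (hx : x ∈ Ω) (hy : y ∈ Ω) : Rgm μ Γ Ω x y = Rgm μ Γ Ω y x := by
  rw [Rgm, Rgm, gr_comm, (((hGRE N μ Γ Ω h).2.2.2 y hy).2.2 x hx).1]

lemma rg_nn {x y : ℂ} (hx : x ∈ Ω) (hy : y ∈ Ω) (hn : x ≠ y) : 0 ≤ Rgm μ Γ Ω x y :=
  (((hGRE N μ Γ Ω h).2.2.2 y hy).2.2 x hx).2.2 hn

lemma rg_le {x y : ℂ} (hx : x ∈ Ω) (hy : y ∈ Ω) : Rgm μ Γ Ω x y ≤ Gr μ (x - y) :=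
  sub_le_self _ (((hGRE N μ Γ Ω h).2.2.2 y hy).2.2 x hx).2.1

lemma hr_cont {y : ℂ} (hy : y ∈ Ω) : ContinuousOn (fun x => hRm μ Γ Ω x y) (closure Ω) := by
  have := (hGRE N μ Γ Ω h).1.comp (f := fun x : ℂ => (x, y)) (s := closure Ω) (by fun_prop)
    fun _ hx => ⟨hx, hy⟩
  simpa only [Function.comp_def, Function.uncurry_apply_pair] using this

lemma rg_har (hLAY : St_LAY) {y : ℂ} (hy : y ∈ Ω) :
    Har μ (Ω \ {y}) fun x => Rgm μ Γ Ω x y := by
  have hG := (hLAY μ h.pos).1.1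
  have hH := ((hGRE N μ Γ Ω h).2.2.2 y hy).1
  have a : ∀ x ∈ Ω \ {y}, ContDiffAt ℝ 2 (fun z => Gr μ (z - y)) x ∧
      ContDiffAt ℝ 2 (fun z => hRm μ Γ Ω z y) x := fun x hx =>
    ⟨(hG.1.contDiffAt (isOpen_compl_singleton.mem_nhds (sub_ne_zero.2 hx.2))).comp x
      (contDiffAt_id.sub contDiffAt_const), hH.1.contDiffAt (h.cd.opn.mem_nhds hx.1)⟩
  refine ⟨fun x hx => ((a x hx).1.sub (a x hx).2).contDiffWithinAt, fun x hx => ?_⟩
  have := lap_sub 1 (a x hx).1 (a x hx).2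
  simp only [one_mul] at this
  simp only [Rgm]
  rw [this, lap_shift, hG.2 _ (sub_ne_zero.2 hx.2), hH.2 x hx.1]
  ring

lemma rg_meas (hLAY : St_LAY) : AEStronglyMeasurable (fun p : ℂ × ℂ => Rgm μ Γ Ω p.1 p.2)
    ((volume.restrict Ω).prod (volume.restrict Ω)) := by
  have m := h.cd.opn.measurableSet
  refine ((hLAY μ h.pos).1.2.2.1.comp (measurable_fst.sub measurable_snd)).aestronglyMeasurable.sub ?_
  rw [Measure.prod_restrict]
  exact ((hGRE N μ Γ Ω h).1.mono (prod_mono subset_closure le_rfl)).aestronglyMeasurable (m.prod m)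

lemma src (hLAY : St_LAY) {y : ℂ} (hy : y ∈ Ω) :
    MemLp (Ω.indicator fun z => Rgm μ Γ Ω z y) 2 := by
  have m := h.cd.opn.measurableSet
  have hG := (hLAY μ h.pos).1
  rw [memLp_indicator_iff_restrict m]
  refine ((hG.2.2.2.2.1.comp_measurePreserving (measurePreserving_sub_right volume y)).restrict
    Ω).of_le ?_ ?_
  · exact (hG.2.2.1.comp (measurable_id.sub measurable_const)).aestronglyMeasurable.sub
      (((hr_cont hGRE h hy).mono subset_closure).aestronglyMeasurable m)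
  · filter_upwards [ae_ne Ω h.cd.opn y] with z hz
    rw [Real.norm_of_nonneg (rg_nn hGRE h hz.1 hy hz.2)]
    exact (rg_le hGRE h hz.1 hy).trans (le_abs_self _)

end

lemma key (hA3 : St_A3) (hLAY : St_LAY) (hVP : St_VP) (hMAX : St_MAX) (hPOI : St_POIm)
    (hGRE : St_GREm) {μ μ' : ℝ} {Γ : MC N} {Ω : Set ℂ} (h : Potm μ Γ Ω) (h' : Potm μ' Γ Ω) {y : ℂ}
    (hy : y ∈ Ω) : (∀ x ∈ Ω, IntegrableOn (fun z => Rgm μ Γ Ω x z * Rgm μ' Γ Ω z y) Ω ∧ (x ≠ y →
      Rgm μ Γ Ω x y - Rgm μ' Γ Ω x y =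
        (μ' ^ 2 - μ ^ 2) * ∫ z in Ω, Rgm μ Γ Ω x z * Rgm μ' Γ Ω z y)) ∧
    (μ' ^ 2 - μ ^ 2) * ∫ z in Ω, Rgm μ Γ Ω y z * Rgm μ' Γ Ω z y =
      Real.log (μ' / μ) / (2 * π) - hRm μ Γ Ω y y + hRm μ' Γ Ω y y := by
  classical
  have m := h.cd.opn.measurableSet
  have hO : IsOpen (Ω \ {y}) := h.cd.opn.sdiff isClosed_singleton
  obtain ⟨F, hF⟩ : ∃ F, F = Ω.indicator fun z => Rgm μ' Γ Ω z y := ⟨_, rfl⟩
  have F2 : MemLp F 2 := hF ▸ src hGRE h' hLAY hy
  have F0 : ∀ z ∉ Ω, F z = 0 := fun z hz => by rw [hF, indicator_of_notMem hz]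
  have F1 : ∀ z ∈ Ω, F z = Rgm μ' Γ Ω z y := fun z hz => by rw [hF, indicator_of_mem hz]
  obtain ⟨R, hR0⟩ := h.cd.bdd.exists_norm_le
  obtain ⟨v1, v2⟩ := hVP μ F h.pos F2 ⟨R, fun z hz => F0 z fun hz' => (hR0 z hz').not_gt hz⟩
  have r := rg_har hGRE h hLAY hy
  have r' := rg_har hGRE h' hLAY hy
  obtain ⟨v3, v4⟩ := v2 _ hO (r'.1.congr fun z hz => F1 z hz.1)
  obtain ⟨p1, p2, p3, -⟩ := (hPOI N μ Γ Ω h).1 (fun t => Vp μ F (gp Γ t))
    ⟨v1.comp h.cd.rc.gp_cont, fun t => by simp only [h.cd.rc.gp_per t]⟩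
  obtain ⟨U, hU⟩ : ∃ U, U = Uem μ Γ Ω fun t => Vp μ F (gp Γ t) := ⟨_, rfl⟩
  have rep : ∀ x ∈ Ω, IntegrableOn (fun z => Rgm μ Γ Ω x z * Rgm μ' Γ Ω z y) Ω ∧
      ∫ z in Ω, Rgm μ Γ Ω x z * Rgm μ' Γ Ω z y = Vp μ F x - 1 * U x := fun x hx => by
    obtain ⟨a, b⟩ := (hGRE N μ Γ Ω h).2.2.1 F F2 F0 x hx
    have e : EqOn (fun z => Rgm μ Γ Ω x z * F z) (fun z => Rgm μ Γ Ω x z * Rgm μ' Γ Ω z y) Ω :=
      fun z hz => by simp only [F1 z hz]
    exact ⟨a.congr_fun e m, by rw [← setIntegral_congr_fun m e, b, hU, one_mul]⟩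
  rw [← hU] at p1 p2 p3
  obtain ⟨c, hc⟩ : ∃ c, c = μ' ^ 2 - μ ^ 2 := ⟨_, rfl⟩
  obtain ⟨L, hL⟩ : ∃ L, L = Real.log (μ' / μ) / (2 * π) := ⟨_, rfl⟩
  have dc : Continuous (Function.update (fun z => Gr μ z - Gr μ' z) 0 L) := by
    refine continuous_iff_continuousAt.2 fun z => ?_
    by_cases hz : z = 0
    · rw [hz, hL]
      exact continuousAt_update_same.2 (gr_lim hA3 h.pos h'.pos)
    · have o := isOpen_compl_singleton.mem_nhds hz
      exact (continuousAt_update_of_ne hz).2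
        (((hLAY μ h.pos).1.1.1.continuousOn.continuousAt o).sub
          ((hLAY μ' h'.pos).1.1.1.continuousOn.continuousAt o))
  obtain ⟨W, hW⟩ : ∃ W : ℂ → ℝ, W = fun x => Function.update (fun z => Gr μ z - Gr μ' z) 0 L (x - y) -
    hRm μ Γ Ω x y + hRm μ' Γ Ω x y - c * (Vp μ F x - 1 * U x) := ⟨_, rfl⟩
  have wc : ContinuousOn W (closure Ω) := hW ▸
    (((dc.comp (continuous_id.sub continuous_const)).continuousOn.sub (hr_cont hGRE h hy)).add
      (hr_cont hGRE h' hy)).sub (continuousOn_const.mul (v1.continuousOn.sub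
        (continuousOn_const.mul p1)))
  have we : ∀ x, x ≠ y →
      Rgm μ Γ Ω x y - 1 * Rgm μ' Γ Ω x y - c * (Vp μ F x - 1 * U x) = W x := fun x hx => by
    simp only [hW, Function.update_of_ne (sub_ne_zero.2 hx), Rgm]
    ring
  obtain ⟨B, hB⟩ := h.cd.bdd.isCompact_closure.exists_bound_of_continuousOn wc
  have z0 := zero_of hMAX h.pos (B := B)
    (w := fun x => Rgm μ Γ Ω x y - 1 * Rgm μ' Γ Ω x y - c * (Vp μ F x - 1 * U x)) hy h.cd.opn h.cd.bdd
    ((wc.mono sdiff_subset).congr fun x hx => we x hx.2)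
    ((r.1.sub (contDiffOn_const.mul r'.1)).sub (contDiffOn_const.mul
      (v3.sub (contDiffOn_const.mul (p2.1.mono sdiff_subset))))) (fun x hx => ?_) fun x hx => ?_
  · refine ⟨fun x hx => ⟨(rep x hx).1, fun hn => ?_⟩, ?_⟩
    · have := z0 x ⟨hx, hn⟩
      rw [(rep x hx).2, ← hc]
      linarith
    · have o := h.cd.opn.mem_nhds hy
      have t1 : Tendsto W (𝓝[≠] y) (𝓝 (W y)) :=
        (wc.continuousAt (mem_of_superset o subset_closure)).tendsto.mono_left nhdsWithin_le_nhds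
      have t2 : Tendsto W (𝓝[≠] y) (𝓝 0) := tendsto_const_nhds.congr' (by
        filter_upwards [self_mem_nhdsWithin, mem_nhdsWithin_of_mem_nhds o] with x h1 h2
        rw [← we x h1]
        exact (z0 x ⟨h2, h1⟩).symm)
      have := tendsto_nhds_unique t1 t2
      simp only [hW, sub_self, Function.update_self] at this
      rw [(rep y hy).2, ← hc, ← hL]
      linarith
  · have o := hO.mem_nhds hx
    have a1 := r.1.contDiffAt o
    have a2 := r'.1.contDiffAt o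
    have a3 := v3.contDiffAt o
    have a4 := p2.1.contDiffAt (h.cd.opn.mem_nhds hx.1)
    refine ⟨?_, by rw [we x hx.2]; exact hB x (subset_closure hx.1)⟩
    rw [lap_sub c (a1.sub (contDiffAt_const.mul a2)) (a3.sub (contDiffAt_const.mul a4)),
      lap_sub 1 a1 a2, lap_sub 1 a3 a4, r.2 x hx, r'.2 x hx, p2.2 x hx.1,
      show lap (Vp μ F) x = μ ^ 2 * Vp μ F x - Rgm μ' Γ Ω x y by
        linarith [v4 x hx, F1 x hx.1], hc]
    ring
  · rw [h.cd.fr] at hx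
    obtain ⟨t, rfl⟩ := hx
    simp only [((hGRE N μ Γ Ω h).2.2.2 y hy).2.1 t, ((hGRE N μ' Γ Ω h').2.2.2 y hy).2.1 t, p3 t]
    ring

end RESm

open RESm in
theorem st_resm (hA3 : St_A3) (hLAY : St_LAY) (hVP : St_VP) (hMAX : St_MAX) (hPOI : St_POIm)
    (hGRE : St_GREm) : St_RESm := by
  intro N μ μ' Γ Ω h h'
  have k := fun y hy => key hA3 hLAY hVP hMAX hPOI hGRE h h' (y := y) hy
  have m := h.cd.opn.measurableSet
  have fin : volume Ω < ⊤ := h.cd.bdd.measure_lt_top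
  have e : ∀ y ∈ Ω, EqOn (fun z => Rgm μ Γ Ω y z * Rgm μ' Γ Ω z y)
      (fun z => Rgm μ Γ Ω y z * Rgm μ' Γ Ω y z) Ω := fun y hy z hz => by
    simp only [rg_comm hGRE h' hz hy]
  have ic : ∀ a : ℝ, IntegrableOn (fun _ : ℂ => a) Ω := fun a => integrableOn_const fin.ne
  refine ⟨fun x hx y hy hn => ⟨((k y hy).1 x hx).1, ((k y hy).1 x hx).2 hn⟩, ?_, ?_⟩
  · have ms := (rg_meas hGRE h hLAY).mul (rg_meas hGRE h' hLAY)
    have g : Integrable fun z => Gr μ z * Gr μ' z :=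
      (hLAY μ h.pos).1.2.2.2.2.1.integrable_mul (hLAY μ' h'.pos).1.2.2.2.2.1
    refine (integrable_prod_iff ms).2 ⟨?_, (ic (∫ z, |Gr μ z * Gr μ' z|)).mono'
      ms.norm.integral_prod_right' ?_⟩
    · filter_upwards [ae_restrict_mem m] with x hx
      exact ((k x hx).1 x hx).1.congr_fun (e x hx) m
    · filter_upwards [ae_restrict_mem m] with x hx
      have g1 := g.abs.comp_sub_left x
      refine (norm_integral_le_of_norm_le g1.integrableOn ?_).trans ((setIntegral_le_integral g1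
        (Eventually.of_forall fun _ => abs_nonneg _)).trans_eq
          (integral_sub_left_eq_self (fun z => |Gr μ z * Gr μ' z|) volume x))
      filter_upwards [ae_ne Ω h.cd.opn x] with z hz
      have a := rg_nn hGRE h hx hz.1 hz.2.symm
      have a' := rg_nn hGRE h' hx hz.1 hz.2.symm
      have b := rg_le hGRE h hx hz.1
      rw [norm_norm, Pi.mul_apply, Real.norm_of_nonneg (mul_nonneg a a')]
      exact (mul_le_mul b (rg_le hGRE h' hx hz.1) a' (a.trans b)).trans (le_abs_self _)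
  · have i := (hGRE N μ Γ Ω h).2.1
    have i' := (hGRE N μ' Γ Ω h').2.1
    rw [RRm, ← integral_const_mul, setIntegral_congr_fun m (g := fun y => Real.log (μ' / μ) / (2 * π) -
      hRm μ Γ Ω y y + hRm μ' Γ Ω y y) fun y hy => by
        simp only [← setIntegral_congr_fun m (e y hy), (k y hy).2],
      integral_add (f := fun y => Real.log (μ' / μ) / (2 * π) - hRm μ Γ Ω y y) ((ic _).sub i) i',
      integral_sub (ic _) i, setIntegral_const, TBm, TBm, smul_eq_mul]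
    ring

end Pool.Agent.Lib.IS3
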