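import Pool.Agent.Lib.IS3.Kit

/-! The row integrals of the model kernel. -/

open scoped ContDiff Topology Real ENNReal
open MeasureTheory Set Filter

noncomputable section

namespace Pool.Agent.Lib.IS3

open Pool.Agent.Lib.ISO Pool.Agent.Lib.IS2

namespace RI

/-- A decreasing majorant. -/
def G (x : ℝ) : ℝ := (x ^ (-(1 / 4) : ℝ) + 1) * Real.exp (-(x / 8))

theorem G_nonneg {x : ℝ} (hx : 0 ≤ x) : 0 ≤ G x := by unfold G; positivity

theorem rk_le {x y : ℝ} (hx : 0 < x) (h : x ≤ y) : rk y ≤ 3073 * G x := by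
  have hy : 0 < y := hx.trans_le h
  have h1 : y ^ (-(1 / 4) : ℝ) ≤ x ^ (-(1 / 4) : ℝ) :=
    Real.rpow_le_rpow_of_nonpos hx h (by norm_num)
  have h2 : Real.exp (-(y / 8)) ≤ Real.exp (-(x / 8)) := Real.exp_le_exp.2 (by linarith)
  have h3 := Real.pow_div_factorial_le_exp (y / 8) (by positivity) 3
  have e0 := Real.exp_pos (-(y / 8))
  have e1 : Real.exp (y / 8) * Real.exp (-(y / 8)) = 1 := by rw [← Real.exp_add]; simp
  have e2 : Real.exp (-(y / 8)) ≤ 1 := Real.exp_le_one_iff.2 (by linarith)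
  have h4 : y ^ 3 * Real.exp (-(y / 8)) ≤ 3072 := by
    have := mul_le_mul_of_nonneg_right h3 e0.le
    norm_num [Nat.factorial] at this
    nlinarith
  have p0 : 0 ≤ y ^ (-(1 / 4) : ℝ) := by positivity
  have h5 : (y ^ (-(1 / 4) : ℝ) + 1 + y ^ 3) * Real.exp (-(y / 8)) ≤
      3073 * (x ^ (-(1 / 4) : ℝ) + 1) := by nlinarith
  have e3 : Real.exp (-(y / 4)) = Real.exp (-(y / 8)) * Real.exp (-(y / 8)) := by
    rw [← Real.exp_add]; congr 1; ring
  rw [rk, G, e3, ← mul_assoc, ← mul_assoc]
  exact mul_le_mul h5 h2 e0.le (by positivity)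

theorem G_int : Integrable fun u : ℝ => G |u| := by
  have a := integrableOn_rpow_mul_exp_neg_mul_rpow (p := 1) (s := -(1 / 4)) (b := 1 / 8)
    (by norm_num) one_pos (by norm_num)
  have b := integrableOn_rpow_mul_exp_neg_mul_rpow (p := 1) (s := 0) (b := 1 / 8)
    (by norm_num) one_pos (by norm_num)
  have c : IntegrableOn (fun u : ℝ => G |u|) (Ioi 0) :=
    (a.add b).congr_fun (fun u hu => by
      simp only [G, abs_of_pos (mem_Ioi.1 hu), Pi.add_apply, Real.rpow_one, Real.rpow_zero]
      rw [show -(1 / 8 : ℝ) * u = -(u / 8) by ring]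
      ring) measurableSet_Ioi
  have d : IntegrableOn (fun u : ℝ => G |u|) (Iio 0) := by
    have := IntegrableOn.comp_neg_Iio (c := (0 : ℝ)) (f := fun u : ℝ => G |u|) (μ := volume)
      (by simpa using c)
    simpa using this
  rw [← integrableOn_univ, ← Iic_union_Ioi (a := (0 : ℝ)), integrableOn_union]
  exact ⟨(integrableOn_Iic_iff_integrableOn_Iio (by simp)).2 d, c⟩

theorem dc_int {F : ℝ → ℝ} (hF : Integrable fun u => F |u|) (h0 : ∀ u, 0 ≤ u → 0 ≤ F u) (s : ℝ) :
    Integrable (fun t => F (dc s t)) nI ∧ ∫ t, F (dc s t) ∂nI ≤ ∫ u, F |u| := by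
  have p : Function.Periodic (fun t => F (dc s t)) (2 * π) := fun t => by
    simpa using congrArg F (dc_add_right s t 1)
  have hp := Real.pi_pos
  have e : EqOn (fun t => F (dc s t)) (fun t => F |t - s|) (uIcc (-π + s) (π + s)) := by
    intro t ht
    rw [uIcc_of_le (by linarith)] at ht
    simp only [dc_comm s t,
      dc_eq_abs (abs_le.2 ⟨by linarith [ht.1], by linarith [ht.2]⟩ : |t - s| ≤ π)]
  have i1 : IntervalIntegrable (fun u : ℝ => F |u|) volume (-π) π := hF.intervalIntegrable
  have e2 : π + s = -π + s + 2 * π := by ring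
  constructor
  · refine (intervalIntegrable_iff_integrableOn_Ioc_of_le Real.two_pi_pos.le).1
      (p.intervalIntegrable (t := -π + s) Real.two_pi_pos.ne' ?_ _ _)
    rw [← e2]
    exact (i1.comp_sub_right s).congr fun t ht => (e (uIoc_subset_uIcc ht)).symm
  · have := p.intervalIntegral_add_eq 0 (-π + s)
    rw [zero_add, ← e2] at this
    rw [← intervalIntegral.integral_of_le Real.two_pi_pos.le, this,
      intervalIntegral.integral_congr e,
      intervalIntegral.integral_comp_sub_right (fun u => F |u|), add_sub_cancel_right,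
      add_sub_cancel_right, intervalIntegral.integral_of_le (by linarith)]
    exact setIntegral_le_integral hF (Eventually.of_forall fun u => h0 _ (abs_nonneg u))

end RI

open RI in
theorem st_ri : St_RI := by
  intro j
  refine ⟨j * (3073 * (4 * j * ∫ u : ℝ, G |u|)), fun N Γ μ x h hμ => ?_⟩
  have hj := h.pos
  have a0 : 0 < μ / (4 * j) := by positivity
  have I0 : 0 ≤ ∫ u : ℝ, G |u| := integral_nonneg fun u => G_nonneg (abs_nonneg u)
  have e : (fun u : ℝ => G (μ / (4 * j) * |u|)) = fun u => G |μ / (4 * j) * u| := by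
    simp only [abs_mul, abs_of_pos a0]
  obtain ⟨i1, i2⟩ := dc_int (F := fun u => G (μ / (4 * j) * u))
    (e ▸ G_int.comp_mul_left' a0.ne') (fun u hu => G_nonneg (by positivity)) x.2
  rw [e, Measure.integral_comp_mul_left (fun u : ℝ => G |u|), abs_of_pos (inv_pos.2 a0),
    smul_eq_mul] at i2
  have ae : ∀ᵐ t ∂nI, dc x.2 t ≠ 0 := by
    have : {t | dc x.2 t = 0} ⊆ range fun k : ℤ => x.2 - k * (2 * π) := fun t ht => by
      obtain ⟨k, hk⟩ := dc_eq_zero ht
      exact ⟨k, by simp only [hk]; ring⟩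
    exact ae_restrict_of_ae
      ((((countable_range _).mono this).ae_notMem volume).mono fun t ht => ht)
  have r0 : ∀ y, 0 ≤ rk (μ * cm Γ x y) := fun y => by
    have := cm_nonneg Γ x y
    unfold rk
    positivity
  have b : ∀ i, ∀ᵐ t ∂nI, rk (μ * cm Γ x (i, t)) ≤ 3073 * G (μ / (4 * j) * dc x.2 t) :=
    fun i => ae.mono fun t ht => rk_le (mul_pos a0 ((dc_nonneg _ _).lt_of_ne' ht)) (by
      rw [div_mul_eq_mul_div, mul_div_assoc]
      refine mul_le_mul_of_nonneg_left ((div_le_iff₀ (by positivity)).2 ?_) (by linarith)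
      exact (h.dc_le x (i, t)).trans_eq (mul_comm _ _))
  have m : ∀ i, Measurable fun t => rk (μ * cm Γ x (i, t)) := fun i => by
    have : Measurable fun t => μ * cm Γ x (i, t) :=
      ((continuous_const.sub (h.smooth i).continuous).norm.measurable).const_mul μ
    unfold rk
    fun_prop
  have it : ∀ i, Integrable (fun t => rk (μ * cm Γ x (i, t))) nI := fun i =>
    (i1.const_mul 3073).mono' (m i).aestronglyMeasurable
      ((b i).mono fun t ht => (Real.norm_of_nonneg (r0 _)).trans_le ht)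
  refine ⟨h.rc.ae_ne x, integrable_nx.2 it, ?_⟩
  rw [integral_nx' (integrable_nx.2 it)]
  have := Finset.sum_le_card_nsmul Finset.univ _ _ fun i _ =>
    (integral_mono_ae (it i) (i1.const_mul 3073) (b i)).trans
      ((integral_const_mul _ _).trans_le (mul_le_mul_of_nonneg_left i2 (by norm_num)))
  rw [Finset.card_univ, Fintype.card_fin, nsmul_eq_mul] at this
  refine this.trans ((mul_le_mul_of_nonneg_right h.card (by positivity)).trans_eq ?_)
  field_simp

end Pool.Agent.Lib.IS3
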