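import Pool.Agent.Lib.IS3.Kit
import Pool.Agent.Lib.ISO.B_DENSE1
import Pool.Agent.Lib.ISO.BlueV

/-! Block RPM: a perturbed curve in constant speed parametrisation depends continuously on the
parameter. -/

open scoped ContDiff ComplexConjugate Topology Real
open Complex MeasureTheory Set Filter

noncomputable section

namespace Pool.Agent.Lib.IS3

open Pool.Agent.Lib.ISO Pool.Agent.Lib.IS2

namespace RPM

theorem per_d {g : ℝ → ℂ} (hp : Function.Periodic g (2 * π)) :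
    Function.Periodic (deriv g) (2 * π) := fun θ => by
  rw [← deriv_comp_add_const, funext hp]

theorem mv {g g' : ℝ → ℝ} {C : ℝ} (hd : ∀ x, HasDerivAt g (g' x) x) (h0 : g 0 = 0)
    (hb : ∀ x, |g' x| ≤ C) {x : ℝ} (h1 : 0 ≤ x) (h2 : x ≤ 2 * π) : |g x| ≤ C * (2 * π) := by
  have h := Convex.norm_image_sub_le_of_norm_hasDerivWithin_le (s := univ) (x := 0) (y := x)
    (fun x _ => (hd x).hasDerivWithinAt) (fun x _ => hb x) convex_univ trivial trivial
  rw [h0, sub_zero, sub_zero, Real.norm_eq_abs, Real.norm_eq_abs, abs_of_nonneg h1] at h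
  exact h.trans (mul_le_mul_of_nonneg_left h2 ((abs_nonneg _).trans (hb 0)))

/-- the change to constant speed -/
theorem par (hRP : ISO.St_RP) {z : ℝ → ℂ} (hz : ContDiff ℝ ∞ z)
    (hp : Function.Periodic z (2 * π)) (hne : ∀ u, deriv z u ≠ 0) :
    ∃ (φ : ℝ → ℝ) (c : ℝ), Up φ ∧ 0 < c ∧ (∀ s, HasDerivAt φ (c * ‖deriv z (φ s)‖⁻¹) s) ∧
      ∀ v ε : ℝ, (∀ u, |‖deriv z u‖ - v| ≤ ε) → |c - v| ≤ ε ∧ ∀ s, c * |φ s - s| ≤ 4 * π * ε := by
  obtain ⟨γ, l, hcv, hl0, hld, hlp, -⟩ := hRP z hz hp hne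
  have hz1 : ContDiff ℝ ∞ (deriv z) := (contDiff_infty_iff_deriv.1 hz).2
  have h0 : ∀ θ, 0 < ‖deriv z θ‖ := fun θ => norm_pos_iff.2 (hne θ)
  have hL := hcv.pos
  have hπ := Real.two_pi_pos
  obtain ⟨c, hc⟩ : ∃ c : ℝ, c = l (2 * π) / (2 * π) := ⟨_, rfl⟩
  have hc0 : 0 < c := hc ▸ div_pos hL hπ
  have hcL : c * (2 * π) = l (2 * π) := by rw [hc]; field_simp
  have hd : ∀ s, HasDerivAt (fun s => l.symm (c * s)) (c * ‖deriv z (l.symm (c * s))‖⁻¹) s := by
    intro s
    have h1 : HasDerivAt l.symm ‖deriv z (l.symm (c * s))‖⁻¹ (c * s) :=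
      HasDerivAt.of_local_left_inverse l.symm.continuous.continuousAt (hld _) (h0 _).ne'
        (Eventually.of_forall fun y => l.apply_symm_apply y)
    have h2 := h1.comp s ((hasDerivAt_id s).const_mul c)
    rw [mul_one, mul_comm] at h2
    exact h2
  have hcont : Continuous fun s => l.symm (c * s) :=
    l.symm.continuous.comp (continuous_const.mul continuous_id)
  refine ⟨fun s => l.symm (c * s), c, ⟨?_, fun s => ?_, fun s => ?_⟩, hc0, hd, fun v ε hb => ?_⟩
  · rw [contDiff_one_iff_deriv, funext fun s => (hd s).deriv]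
    exact ⟨fun s => (hd s).differentiableAt, continuous_const.mul
      ((hz1.continuous.comp hcont).norm.inv₀ fun s => (h0 _).ne')⟩
  · rw [(hd s).deriv]
    exact mul_pos hc0 (inv_pos.2 (h0 _))
  · apply l.injective
    rw [hlp, l.apply_symm_apply, l.apply_symm_apply, mul_add, hcL]
  · have h1 : |c - v| ≤ ε := by
      have h2 := mv (g := fun x => l x - v * x) (g' := fun x => ‖deriv z x‖ - v)
        (fun x => (hld x).sub (hasDerivAt_const_mul v)) (by simp [hl0]) hb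
        hπ.le le_rfl
      beta_reduce at h2
      rw [← hcL, mul_comm v, mul_comm c, ← mul_sub, abs_mul, abs_of_pos hπ, mul_comm] at h2
      exact le_of_mul_le_mul_right h2 hπ
    refine ⟨h1, fun s => ?_⟩
    have hper : Function.Periodic (fun x => l x - c * x) (2 * π) := fun x => by
      beta_reduce
      rw [hlp, mul_add, hcL]
      ring
    obtain ⟨y, hy, hy'⟩ := hper.exists_mem_Ico₀ hπ (l.symm (c * s))
    have h2 := mv (g := fun x => l x - c * x) (g' := fun x => ‖deriv z x‖ - c) (C := 2 * ε)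
      (fun x => (hld x).sub (hasDerivAt_const_mul c)) (by simp [hl0])
      (fun x => by
        have h3 := abs_le.1 (hb x)
        have h4 := abs_le.1 h1
        exact abs_le.2 ⟨by linarith, by linarith⟩) hy.1 hy.2.le
    beta_reduce at h2 hy' ⊢
    rw [← hy', l.apply_symm_apply, ← mul_sub, abs_mul, abs_of_pos hc0, abs_sub_comm] at h2
    linarith

/-- uniform continuity along a periodic variable -/
theorem unif {X : Type} [TopologicalSpace X] {g : X → ℝ → ℂ} {x0 : X}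
    (hc : ∀ s, ContinuousAt (Function.uncurry g) (x0, s))
    (hp : ∀ x, Function.Periodic (g x) (2 * π)) {ε : ℝ} (hε : 0 < ε) :
    ∃ η > 0, ∀ᶠ x in 𝓝 x0, ∀ u s, |u - s| < η → ‖g x u - g x0 s‖ < ε := by
  have h1 : ∀ᶠ y : X × ℝ in 𝓝 (x0, 0), ∀ s ∈ Icc 0 (2 * π), ‖g y.1 (s + y.2) - g x0 s‖ < ε := by
    refine isCompact_Icc.eventually_forall_of_forall_eventually
      (P := fun (y : X × ℝ) s => ‖g y.1 (s + y.2) - g x0 s‖ < ε) fun s _ => ?_
    have h2 : ContinuousAt (fun w : (X × ℝ) × ℝ => g w.1.1 (w.2 + w.1.2)) ((x0, 0), s) :=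
      ContinuousAt.comp_of_eq (f := fun w : (X × ℝ) × ℝ => (w.1.1, w.2 + w.1.2)) (hc s)
        (by fun_prop) (by simp)
    have h3 : ContinuousAt (fun w : (X × ℝ) × ℝ => g x0 w.2) ((x0, 0), s) :=
      ContinuousAt.comp_of_eq (f := fun w : (X × ℝ) × ℝ => (x0, w.2)) (hc s) (by fun_prop) rfl
    exact (h2.sub h3).norm.eventually_lt continuousAt_const (by simpa using hε)
  rw [nhds_prod_eq, eventually_prod_iff] at h1
  obtain ⟨pa, ha, pb, hb, h⟩ := h1
  obtain ⟨η, hη, hb⟩ := Metric.eventually_nhds_iff.1 hb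
  refine ⟨η, hη, ha.mono fun x hx u s hus => ?_⟩
  have h2 := h hx (hb (y := u - s) (by simpa [Real.dist_eq] using hus))
    (toIcoMod Real.two_pi_pos 0 s)
    (Ico_subset_Icc_self (toIcoMod_mem_Ico' Real.two_pi_pos s))
  have h3 : toIcoMod Real.two_pi_pos 0 s + (u - s) =
      u - toIcoDiv Real.two_pi_pos 0 s • (2 * π) := by
    rw [toIcoMod]
    ring
  simp only at h2
  rw [h3, (hp x).sub_zsmul_eq, toIcoMod, (hp x0).sub_zsmul_eq] at h2
  exact h2

variable {T : Type}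

/-- derivative in arc length -/
def op (z g : T → ℝ → ℂ) : T → ℝ → ℂ := fun t u => ‖deriv (z t) u‖⁻¹ • deriv (g t) u

theorem op_eq (z g : T → ℝ → ℂ) (t : T) (u : ℝ) :
    op z g t u = ‖deriv (z t) u‖⁻¹ • deriv (g t) u := rfl

theorem op_per {z : T → ℝ → ℂ} (hp : ∀ t, Function.Periodic (z t) (2 * π)) (n : ℕ) (t : T) :
    Function.Periodic ((op z)^[n] z t) (2 * π) := by
  induction n with
  | zero => exact hp t
  | succ n ih =>
    rw [Function.iterate_succ_apply']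
    intro u
    rw [op_eq, op_eq, per_d (hp t) u, per_d ih u]

variable [NormedAddCommGroup T] [NormedSpace ℝ T]

theorem sm_d {g : T → ℝ → ℂ} {p : T × ℝ} (h : ContDiffAt ℝ ∞ (Function.uncurry g) p) :
    ContDiffAt ℝ ∞ (fun x : T × ℝ => deriv (g x.1) x.2) p := by
  have h1 : ContDiffAt ℝ ∞ (Function.uncurry fun (x : T × ℝ) (y : ℝ) => g x.1 y) (p, p.2) :=
    ContDiffAt.comp (f := fun w : (T × ℝ) × ℝ => (w.1.1, w.2)) (g := Function.uncurry g) (p, p.2)
      h (by fun_prop)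
  exact (ContDiffAt.fderiv (g := fun x : T × ℝ => x.2) h1 contDiffAt_snd (by simp)).clm_apply
    contDiffAt_const

theorem op_sm {z : T → ℝ → ℂ} (hz : ContDiff ℝ ∞ (Function.uncurry z)) {p : T × ℝ}
    (hne : deriv (z p.1) p.2 ≠ 0) (n : ℕ) :
    ContDiffAt ℝ ∞ (Function.uncurry ((op z)^[n] z)) p := by
  induction n with
  | zero => exact hz.contDiffAt
  | succ n ih =>
    rw [Function.iterate_succ_apply']
    exact (((sm_d hz.contDiffAt).norm ℝ hne).inv (norm_ne_zero_iff.2 hne)).smul (sm_d ih)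

theorem op_d {z : T → ℝ → ℂ} (hz : ContDiff ℝ ∞ (Function.uncurry z)) {t : T} {u : ℝ}
    (hne : deriv (z t) u ≠ 0) (n : ℕ) : DifferentiableAt ℝ ((op z)^[n] z t) u :=
  DifferentiableAt.comp (f := fun y : ℝ => (t, y)) (g := Function.uncurry ((op z)^[n] z)) u
    ((op_sm hz (p := (t, u)) hne n).differentiableAt (by simp)) (by fun_prop)

/-- the family of curves in constant speed -/
theorem fam (hRP : ISO.St_RP) (hEMB : ISO.St_EMB) (f : Jordan) {z : T → ℝ → ℂ}
    (hz : ContDiff ℝ ∞ (Function.uncurry z)) (hp : ∀ t, Function.Periodic (z t) (2 * π))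
    (h0 : z 0 = UniformFun.toFun (f.1 0)) : ∃ F : T → Jordan, Tendsto F (𝓝 0) (𝓝 f) ∧
      ∀ᶠ t in 𝓝 0, ∃ φ, Up φ ∧ ∀ s, UniformFun.toFun ((F t).1 0) s = z t (φ s) := by
  classical
  obtain ⟨hch, -, -, v, hv, hv1⟩ := f.2
  obtain ⟨η0, hη0, hemb⟩ := hEMB f.1 f.2
  have hd0 : deriv (z 0) = UniformFun.toFun (f.1 1) := by
    rw [h0]
    exact funext fun u => (hch 0 u).deriv
  have hne0 : ∀ u, deriv (z 0) u ≠ 0 := fun u => by
    rw [hd0, ← norm_pos_iff, hv1]
    exact hv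
  have hE0 : ∀ n u, v ^ n • (op z)^[n] z 0 u = UniformFun.toFun (f.1 n) u := by
    intro n
    induction n with
    | zero => intro u; simp [h0]
    | succ n ih =>
      intro u
      have h1 := (hch n u).deriv
      rw [← funext ih, deriv_fun_const_smul _ (op_d hz (hne0 u) n)] at h1
      rw [Function.iterate_succ_apply', ← h1]
      rw [op_eq, hd0, hv1, smul_smul, pow_succ, mul_assoc, mul_inv_cancel₀ hv.ne', mul_one]
  have hsp : ∀ ε > 0, ∀ᶠ t in 𝓝 (0 : T), ∀ u, |‖deriv (z t) u‖ - v| ≤ ε := by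
    intro ε hε
    obtain ⟨η, hη, h⟩ := unif (g := fun t => deriv (z t)) (x0 := (0 : T))
      (fun s => (sm_d (p := (0, s)) hz.contDiffAt).continuousAt) (fun t => per_d (hp t)) hε
    refine h.mono fun t ht u => ?_
    have h1 := ht u u (by simpa using hη)
    rw [← hv1 u, ← hd0]
    exact (abs_norm_sub_norm_le _ _).trans h1.le
  have hne : ∀ᶠ t in 𝓝 (0 : T), ∀ u, deriv (z t) u ≠ 0 :=
    (hsp (v / 2) (half_pos hv)).mono fun t ht u => by
      have h1 := abs_le.1 (ht u)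
      rw [← norm_pos_iff]
      linarith [h1.1]
  have hex : ∀ t, ∃ (φ : ℝ → ℝ) (c : ℝ), (∀ u, deriv (z t) u ≠ 0) → Up φ ∧ 0 < c ∧
      (∀ s, HasDerivAt φ (c * ‖deriv (z t) (φ s)‖⁻¹) s) ∧ ∀ v ε : ℝ,
      (∀ u, |‖deriv (z t) u‖ - v| ≤ ε) → |c - v| ≤ ε ∧ ∀ s, c * |φ s - s| ≤ 4 * π * ε := by
    intro t
    by_cases h : ∀ u, deriv (z t) u ≠ 0
    · obtain ⟨φ, c, h1⟩ := par hRP (z := z t)
        (hz.comp (f := fun y : ℝ => (t, y)) (by fun_prop)) (hp t) h
      exact ⟨φ, c, fun _ => h1⟩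
    · exact ⟨id, 0, fun h1 => absurd h1 h⟩
  choose φ c hφ using hex
  have hc : Tendsto c (𝓝 0) (𝓝 v) := Metric.tendsto_nhds.2 fun ε hε =>
    (hne.and (hsp (ε / 2) (half_pos hε))).mono fun t ht =>
      (((hφ t ht.1).2.2.2 v _ ht.2).1).trans_lt (half_lt_self hε)
  have hφ0 : ∀ η > 0, ∀ᶠ t in 𝓝 (0 : T), ∀ s, |φ t s - s| < η := by
    intro η hη
    have hπ := Real.pi_pos
    filter_upwards [hne, hsp (v * η / (16 * π)) (by positivity),
      hc.eventually (lt_mem_nhds (half_lt_self hv))] with t h1 h2 h3 s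
    have h4 := ((hφ t h1).2.2.2 v _ h2).2 s
    have h5 : 4 * π * (v * η / (16 * π)) = v * η / 4 := by field_simp; ring
    rw [h5] at h4
    by_contra h6
    have h7 := mul_le_mul h3.le (not_lt.1 h6) hη.le (hφ t h1).2.1.le
    nlinarith [mul_pos hv hη]
  obtain ⟨F0, hF0⟩ : ∃ F0 : T → ℕ → UniformFun ℝ ℂ, ∀ t n s,
      UniformFun.toFun (F0 t n) s = c t ^ n • (op z)^[n] z t (φ t s) :=
    ⟨fun t n => UniformFun.ofFun fun s => c t ^ n • (op z)^[n] z t (φ t s), fun _ _ _ => rfl⟩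
  have hcv : ∀ n, ∀ ε > 0, ∀ᶠ t in 𝓝 (0 : T), ∀ s,
      ‖UniformFun.toFun (F0 t n) s - UniformFun.toFun (f.1 n) s‖ < ε := by
    intro n ε hε
    obtain ⟨η, hη, h⟩ := unif (g := fun (x : T × ℝ) u => x.2 ^ n • (op z)^[n] z x.1 u)
      (x0 := (0, v)) (fun s => by
        have h1 : ContinuousAt (fun w : (T × ℝ) × ℝ => (op z)^[n] z w.1.1 w.2) ((0, v), s) :=
          ContinuousAt.comp_of_eq (f := fun w : (T × ℝ) × ℝ => (w.1.1, w.2))
            (op_sm hz (p := (0, s)) (hne0 s) n).continuousAt (by fun_prop) rfl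
        exact ContinuousAt.smul (f := fun w : (T × ℝ) × ℝ => w.1.2 ^ n) (by fun_prop) h1)
      (fun x u => by beta_reduce; rw [op_per hp n x.1 u]) hε
    have h2 : Tendsto (fun t => (t, c t)) (𝓝 0) (𝓝 ((0 : T), v)) := tendsto_id.prodMk_nhds hc
    filter_upwards [h2.eventually h, hφ0 η hη] with t h3 h4 s
    rw [hF0, ← hE0]
    exact h3 _ _ (h4 s)
  have hJ : ∀ᶠ t in 𝓝 (0 : T), F0 t ∈ Jordan := by
    filter_upwards [hne, hcv 0 η0 hη0, hcv 1 η0 hη0] with t h1 h2 h3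
    obtain ⟨hu, hc0, hd, -⟩ := hφ t h1
    have hch' : ∀ n s, HasDerivAt (UniformFun.toFun (F0 t n))
        (UniformFun.toFun (F0 t (n + 1)) s) s := by
      intro n s
      rw [funext (hF0 t n), hF0, Function.iterate_succ_apply']
      refine (((op_d hz (h1 (φ t s)) n).hasDerivAt.scomp s (hd s)).const_smul
        (c t ^ n)).congr_deriv ?_
      rw [op_eq, smul_smul, smul_smul, pow_succ, mul_assoc]
    have hper : Function.Periodic (UniformFun.toFun (F0 t 0)) (2 * π) := fun s => by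
      rw [hF0, hF0, hu.2.2, op_per hp 0 t]
    refine ⟨hch', hper, hemb _ _ (hch' 0) hper (fun s => (h2 s).le) fun s => (h3 s).le,
      c t, hc0, fun s => ?_⟩
    rw [hF0, pow_one, Function.iterate_one]
    rw [op_eq, norm_smul, norm_smul, norm_inv, norm_norm, inv_mul_cancel₀ (norm_ne_zero_iff.2 (h1 _)),
      mul_one, Real.norm_eq_abs, abs_of_pos hc0]
  refine ⟨fun t => if h : F0 t ∈ Jordan then ⟨F0 t, h⟩ else f, ?_, ?_⟩
  · rw [tendsto_subtype_rng]
    refine Tendsto.congr' (f₁ := F0) (hJ.mono fun t ht => by simp only [dif_pos ht]) ?_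
    refine tendsto_pi_nhds.2 fun n => UniformFun.tendsto_iff_tendstoUniformly.2 ?_
    refine Metric.tendstoUniformly_iff.2 fun ε hε => (hcv n ε hε).mono fun t ht s => ?_
    rw [dist_comm, dist_eq_norm]
    exact ht s
  · filter_upwards [hne, hJ] with t h1 h2
    refine ⟨φ t, (hφ t h1).1, fun s => ?_⟩
    simp only [dif_pos h2]
    rw [hF0]
    simp

end RPM

theorem st_rpm (hRP : ISO.St_RP) (hEMB : ISO.St_EMB) : St_RPM := by
  intro f m Z hZ
  have h1 : ContDiff ℝ ∞ (UniformFun.toFun (f.1 0)) :=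
    DENSE.chain_sm (F := fun n => UniformFun.toFun (f.1 n)) f.2.1 0
  refine RPM.fam hRP hEMB f (z := fun (t : Fin m → ℝ) u => UniformFun.toFun (f.1 0) u +
    ∑ b, t b * Z b u) ?_ (fun t u => ?_) (funext fun u => by simp)
  · refine (h1.comp contDiff_snd).add (ContDiff.sum fun b _ => ?_)
    exact (ofRealCLM.contDiff.comp ((contDiff_apply ℝ ℝ b).comp contDiff_fst)).mul
      ((hZ b).1.comp contDiff_snd)
  · beta_reduce
    rw [f.2.2.1 u]
    exact congrArg _ (Finset.sum_congr rfl fun b _ => by rw [(hZ b).2 u])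

end Pool.Agent.Lib.IS3
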