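import Pool.Agent.Lib.IS3.Kit
import Pool.Agent.Lib.IS2.B_TAY2

/-! Row RS0: the second variation on far pairs for a Jordan curve, and its model. -/

open scoped ContDiff ComplexConjugate Topology Real
open Complex MeasureTheory Set Filter

noncomputable section

namespace Pool.Agent.Lib.IS3

open Pool.Agent.Lib.ISO Pool.Agent.Lib.IS2

namespace RS0

open EXP TAY

variable {q : ℕ} {h : ℝ} {w : ℝ → ℝ → ℝ} {ρ κ : ℝ → ℝ}

theorem w0z (hw : Wf0 (Tt q h / (2 * h)) w) {s d : ℝ} (hd : |d| ≤ Tt q h / (2 * h)) : w s (s + d) = 0 :=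
  hw.zero _ _ ((dc_le_abs _ _).trans (by simpa using hd))

theorem uw_cz (hh : 0 < h) (hw : Wf0 (Tt q h / (2 * h)) w) (hρ : Continuous ρ) (hκ : Continuous κ) (n : ℕ) :
    Continuous (uw w ρ κ n) := by
  have hδ : 0 < Tt q h / (2 * h) := by have := T_pos q hh; positivity
  have c1 : Continuous fun z : ℝ × ℝ => w z.1 (z.1 + z.2) :=
    hw.cont.comp (f := fun z : ℝ × ℝ => (z.1, z.1 + z.2)) (by fun_prop)
  have c2 : Continuous fun z : ℝ × ℝ => max |z.2| (Tt q h / (2 * h)) ^ (3 * (n : ℝ) / 2 - 3) :=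
    Continuous.rpow_const (by fun_prop) fun z => Or.inl (hδ.trans_le (le_max_right _ _)).ne'
  have : uw w ρ κ n = fun z => w z.1 (z.1 + z.2) * (ρ z.1 * ρ (z.1 + z.2)) *
      (κ z.1 ^ n * max |z.2| (Tt q h / (2 * h)) ^ (3 * (n : ℝ) / 2 - 3)) := by
    ext z
    rcases le_total |z.2| (Tt q h / (2 * h)) with e | e
    · simp only [uw, w0z hw e, zero_mul]
    · rw [uw, max_eq_left e]
  rw [this]
  exact (c1.mul (by fun_prop)).mul (Continuous.mul (by fun_prop) c2)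

theorem fm_cz (hh : 0 < h) (hw : Wf0 (Tt q h / (2 * h)) w) (hρ : Continuous ρ) (hκ : Continuous κ) (m : ℕ) :
    Continuous fun p : ℝ × ℝ × ℝ => fm w ρ κ m (mu q h p.1) p.2 := by
  have := mu_c q h
  obtain ⟨r, hr, e⟩ := rt_c q hh
  have := uw_cz hh hw hρ hκ
  simp only [fm, e]
  fun_prop

theorem fubz (hh : 0 < h) (hw : Wf0 (Tt q h / (2 * h)) w) (hρ : Continuous ρ) (hκ : Continuous κ) (m : ℕ) :
    IntervalIntegrable (fun y => Gs' q h (mu q h y) * ∫ z, fm w ρ κ m (mu q h y) z ∂bx) volume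
      (-YY q h) (YY q h) ∧
    ∫ y in (-YY q h)..YY q h, Gs' q h (mu q h y) * ∫ z, fm w ρ κ m (mu q h y) z ∂bx =
      ∑ n ∈ Finset.range (2 * m + 1), (cn m n : ℂ) * ∫ z, uw w ρ κ n z * Mp q h n |z.2| ∂bx := by
  have a1 := mu_c q h
  obtain ⟨r, hr, e⟩ := rt_c q hh
  have a3 := Gs_c q h
  have a4 := uw_cz hh hw hρ hκ
  have a5 := Mp_c q hh
  have a6 := fm_cz hh hw hρ hκ m
  have i := int_c3 (f := fun p => Gs' q h (mu q h p.1) * fm w ρ κ m (mu q h p.1) p.2) (by fun_prop)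
    (-YY q h) (YY q h)
  simp only [← integral_const_mul]
  refine ⟨intervalIntegrable_iff.2 i.integral_prod_left, ?_⟩
  rw [intervalIntegral_integral_swap i, ← integral_finsetSum _ fun n _ => int_c (by fun_prop)]
  congr 1; ext z
  simp only [fm, Finset.mul_sum, Mp, ← intervalIntegral.integral_const_mul, e]
  rw [intervalIntegral.integral_finsetSum fun n _ => Continuous.intervalIntegrable (by fun_prop) _ _]
  refine Finset.sum_congr rfl fun n _ => ?_
  congr 1; ext y; ring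

theorem psiz (hN : St_NH) (hF : St_F2) (j : ℝ) (p q : ℕ) (hq : 9 * (p + 1) + 2 ≤ 2 * q) :
    ∃ C, 0 ≤ C ∧ ∀ᶠ h in atTop, ∀ γ ρ w R y, Nc j γ → Per (2 * π) ρ → Wf0 (Tt q h / (2 * h)) w →
      ∫ s in (0 : ℝ)..(2 * π), ρ s ^ 2 ≤ R → |y| ≤ YY q h →
      ‖PsN γ (fun s t => w s t * (ρ s * ρ t)) (mu q h y)‖ ≤
        C * h ^ 4 * (R * (om q h / Tt q h ^ 2)) ∧
      ‖PsN γ (fun s t => w s t * (ρ s * ρ t)) (mu q h y) -
        ∫ z, fm w ρ (kp γ) (p + 2) (mu q h y) z ∂bx‖ ≤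
        C * (eps p h * h ^ 4) * (R * (om q h / Tt q h ^ 2)) := by
  obtain ⟨C, h0, hC⟩ := hF j p q hq
  refine ⟨32 * |j| * C ^ 2, by positivity, ?_⟩
  filter_upwards [eventually_ge_atTop h0, eventually_ge_atTop 1] with h h1 h2 γ ρ w R y hγ hρ hw hR hy
  have hh : 0 < h := one_pos.trans_le h2
  have hT := T_pos q hh
  have ho := o_pos q hh
  have hj := hγ.pos
  have he0 : 0 < eps p h := by unfold eps; positivity
  have he1 : eps p h ≤ 1 := inv_le_one_of_one_le₀ (one_le_pow₀ h2)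
  have hc := hρ.smooth.continuous
  have hκ := (H0.smk hγ).continuous
  obtain ⟨-, m1, -, m2⟩ := (hN j).1 γ hγ
  set μ := mu q h y with hμ
  have hμ0 : μ ≠ 0 := fun e => by simpa [← hμ, e] using mu_re q hh y
  set L := 4 * C ^ 2 * h ^ 4 * (om q h / Tt q h ^ 3) with hL
  set φ : ℝ → ℝ := fun d => L * Real.exp (-(|d| / (4 * j * Tt q h))) with hφ
  have φc : Continuous φ := by fun_prop
  have φ0 : ∀ d, 0 ≤ φ d := fun d => by positivity
  have φi : ∫ d in (-π)..π, φ d ≤ 32 * |j| * C ^ 2 * h ^ 4 * (om q h / Tt q h ^ 2) := by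
    rw [intervalIntegral.integral_const_mul, abs_of_pos hj]
    refine (mul_le_mul_of_nonneg_left (int_exp (by positivity)) (by positivity)).trans_eq ?_
    rw [hL]; field_simp; ring
  set f : ℝ × ℝ → ℂ := fun z => ((w z.1 (z.1 + z.2) * (ρ z.1 * ρ (z.1 + z.2)) : ℝ) : ℂ) *
    NN μ γ z.1 (z.1 + z.2) ^ 2 with hf
  have key : ∀ s d, |d| ≤ π → ‖f (s, d)‖ ≤ |ρ s| * |ρ (s + d)| * φ d ∧
      ‖f (s, d) - fm w ρ (kp γ) (p + 2) μ (s, d)‖ ≤ |ρ s| * |ρ (s + d)| * (eps p h * φ d) := by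
    intro s d hd
    have := φ0 d
    rcases le_total |d| (Tt q h / (2 * h)) with e | e
    · simp only [hf, fm, uw, w0z hw e, zero_mul, ofReal_zero, mul_zero, Finset.sum_const_zero,
        sub_zero, norm_zero]
      constructor <;> positivity
    have hd0 : d ≠ 0 := abs_pos.1 (lt_of_lt_of_le (by positivity) e)
    obtain ⟨k1, k2⟩ := hC h h1 γ y s (s + d) hγ hy (by simpa using e) (by simpa using hd)
    rw [add_sub_cancel_left] at k1 k2
    set X := C * h ^ 2 * N0 q h * Real.exp (-(c0 γ s (s + d) / (8 * Tt q h))) with hX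
    have X0 : 0 ≤ X := (norm_nonneg _).trans k2
    have k1' : ‖NN μ γ s (s + d) - Nm μ (kp γ s) sN (p + 2) d‖ ≤ eps p h * X :=
      k1.trans_eq (by rw [hX]; ring)
    have X2 : 4 * X ^ 2 ≤ φ d := by
      have a := hγ.arc s (s + d)
      rw [dc_eq_abs (by simpa using hd), sub_add_cancel_left, abs_neg] at a
      have b : Real.exp (-(c0 γ s (s + d) / (8 * Tt q h))) ^ 2 ≤
          Real.exp (-(|d| / (4 * j * Tt q h))) := by
        rw [← Real.exp_nat_mul, Real.exp_le_exp]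
        have : |d| / (4 * j * Tt q h) ≤ j * c0 γ s (s + d) / (4 * j * Tt q h) := by gcongr; exact a
        refine le_trans (le_of_eq ?_) (neg_le_neg this)
        push_cast; field_simp; ring
      have c : N0 q h ^ 2 = om q h / Tt q h ^ 3 := by
        rw [N0, div_pow, mul_pow, Real.sq_sqrt ho.le, Real.sq_sqrt hT.le]; ring
      calc 4 * X ^ 2 = L * Real.exp (-(c0 γ s (s + d) / (8 * Tt q h))) ^ 2 := by
            rw [hX, hL, ← c]; ring
        _ ≤ _ := by simp only [hφ]; gcongr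
    have n1 : ‖NN μ γ s (s + d)‖ ≤ 2 * X := by
      have := norm_add_le (NN μ γ s (s + d) - Nm μ (kp γ s) sN (p + 2) d) (Nm μ (kp γ s) sN (p + 2) d)
      rw [sub_add_cancel] at this
      nlinarith
    have wl : ‖((w s (s + d) * (ρ s * ρ (s + d)) : ℝ) : ℂ)‖ ≤ |ρ s| * |ρ (s + d)| := by
      rw [norm_real, Real.norm_eq_abs, abs_mul, abs_mul, abs_of_nonneg (hw.nn _ _)]
      exact mul_le_of_le_one_left (by positivity) (hw.le _ _)
    have e1 : fm w ρ (kp γ) (p + 2) μ (s, d) =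
        ((w s (s + d) * (ρ s * ρ (s + d)) : ℝ) : ℂ) * Nm μ (kp γ s) sN (p + 2) d ^ 2 := by
      rw [Nm_sq hμ0 _ _ hd0, Finset.mul_sum, fm]
      refine Finset.sum_congr rfl fun n _ => ?_
      simp only [uw, cn, ofReal_mul]
      ring
    constructor
    · rw [hf, norm_mul, norm_pow]
      exact mul_le_mul wl ((pow_le_pow_left₀ (norm_nonneg _) n1 2).trans (by linarith))
        (by positivity) (by positivity)
    · rw [e1, hf, ← mul_sub, norm_mul, sq_sub_sq, norm_mul]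
      refine mul_le_mul wl ?_ (by positivity) (by positivity)
      calc _ ≤ (2 * X + X) * (eps p h * X) :=
            mul_le_mul ((norm_add_le _ _).trans (add_le_add n1 k2)) k1' (norm_nonneg _) (by positivity)
        _ ≤ eps p h * (4 * X ^ 2) := by nlinarith [mul_nonneg he0.le (sq_nonneg X)]
        _ ≤ _ := by gcongr
  have c1 : Continuous fun z : ℝ × ℝ => w z.1 (z.1 + z.2) :=
    hw.cont.comp (f := fun z : ℝ × ℝ => (z.1, z.1 + z.2)) (by fun_prop)
  have fi : Integrable f bx := by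
    refine Integrable.mono' (int_c (f := fun z => |ρ z.1| * |ρ (z.1 + z.2)| * φ z.2) (by fun_prop))
      (Measurable.aestronglyMeasurable ?_) (ae_bx.mono fun z hz => (key z.1 z.2 hz).1)
    have b1 : Continuous fun z : ℝ × ℝ => ρ z.1 * ρ (z.1 + z.2) := by fun_prop
    have b2 : Measurable fun z : ℝ × ℝ => ((w z.1 (z.1 + z.2) * (ρ z.1 * ρ (z.1 + z.2)) : ℝ) : ℂ) :=
      (continuous_ofReal.comp (c1.mul b1)).measurable
    have b3 : Measurable fun z : ℝ × ℝ => NN μ γ z.1 (z.1 + z.2) :=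
      m1.comp (f := fun z : ℝ × ℝ => (μ, z.1, z.1 + z.2)) (by fun_prop)
    exact b2.mul (b3.pow_const 2)
  have eP : PsN γ (fun s t => w s t * (ρ s * ρ t)) μ = ∫ z, f z ∂bx := by
    rw [← dbl fi, PsN]
    congr 1; ext s
    exact shift (fun t => by simp only [hw.p2, hρ.per, (m2 μ s t).2]) s
  have gi : Integrable (fun z => fm w ρ (kp γ) (p + 2) μ z) bx :=
    int_c (by
      have := (fm_cz hh hw hc hκ (p + 2)).comp (Continuous.prodMk_right y)
      simpa only [Function.comp_def] using this)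
  rw [eP, ← integral_sub fi gi]
  refine ⟨(nb hρ φc φ0 hR φi fun s d hd => (key s d hd).1).trans_eq (by ring),
    (nb hρ (φ := fun d => eps p h * φ d) (by fun_prop) (fun d => mul_nonneg he0.le (φ0 d)) hR
      (S := eps p h * (32 * |j| * C ^ 2 * h ^ 4 * (om q h / Tt q h ^ 2)))
      (by rw [intervalIntegral.integral_const_mul]; gcongr)
      fun s d hd => (key s d hd).2).trans_eq (by ring)⟩

theorem mo_one (m : ℕ) : Mo q h 1 m w ρ κ =
    ∑ n ∈ Finset.range (2 * m + 1), (cn m n : ℂ) * ∫ z, uw w ρ κ n z * Mp q h n |z.2| ∂bx := by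
  simp only [Mo, uwL, uw, one_pow, one_mul]

/-- The far pairs give the derivative of the Neumann functional. -/
theorem far (hGH : St_GH) (hL : St_LHT) (hT : St_TAN) (hC5 : St_C5) (hN : St_NH) (hS : St_SH)
    (j : ℝ) (q : ℕ) (hq : 4 ≤ q) : ∀ᶠ h in atTop, ∀ Ω γ η (K : ℕ) (φ : Fin K → ℝ → ℝ) F Z,
    Dg Ω γ η → Nc j γ → (∀ k, Per (2 * π) (φ k)) → ContDiff ℝ ∞ Z →
    Function.Periodic Z (2 * π) → (∀ x ∈ F, Sep (Tt q h / (2 * h)) (φ x.1) (φ x.2)) →
    DifferentiableOn ℂ (PsN γ fun s t => ws φ F s t * (rdot (Z s) (nr γ s) * rdot (Z t) (nr γ t)))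
      (DD q h) ∧ ∑ x ∈ F, D2 (FT q h) (cp γ) (yk φ Z x.1) (yk φ Z x.2) =
      -∫ y in (-YY q h)..YY q h, Gs q h (mu q h y) * deriv (PsN γ fun s t =>
        ws φ F s t * (rdot (Z s) (nr γ s) * rdot (Z t) (nr γ t))) (mu q h y) := by
  obtain ⟨CG, hG⟩ := hGH
  obtain ⟨CL, a1, hL⟩ := hL j q hq
  obtain ⟨a4, hT⟩ := hT j q hq
  obtain ⟨a5, hC5⟩ := hC5 j q hq
  obtain ⟨hN1, hN2⟩ := hN j
  obtain ⟨a6, hN2⟩ := hN2 q (by omega)
  obtain ⟨CS, a7, hS⟩ := hS q hq
  filter_upwards [eventually_ge_atTop a1, eventually_ge_atTop a4, eventually_ge_atTop a5,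
    eventually_ge_atTop a6, eventually_ge_atTop a7, eventually_ge_atTop 1]
    with h b1 b4 b5 b6 b7 hh1 Ω γ η K φ F Z hD hγ hφ sZ pZ sep
  have hh : 0 < h := one_pos.trans_le hh1
  have T0 := T_pos q hh
  have o0 := o_pos q hh
  have oi : 0 < (om q h)⁻¹ := by positivity
  have hY : 0 ≤ YY q h := by unfold YY; positivity
  set e := Tt q h / (2 * h) with he
  have e0 : 0 < e := by positivity
  obtain ⟨-, hL⟩ := hL h b1 γ hγ
  obtain ⟨mN, -⟩ := (hN1 γ hγ).2
  obtain ⟨CN, hCN⟩ := (hN2 h b6 γ hγ).2 e e0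
  have hmu := fun y hy => ((hS h b7).2.1 y hy).1
  have hT := hT h b4 γ hγ
  have hC5 := hC5 h b5 Ω γ η hD hγ
  have mZ : cp Z ∈ SP := cp_mem sZ pZ
  have mγ : cp γ ∈ SP := cp_mem hγ.smooth hγ.per
  have my : ∀ k, yk φ Z k ∈ SP := fun k => smul_mem_SP (hφ k) mZ
  obtain ⟨l1, -, l3⟩ := hL _ mγ (by rw [sub_self, nm_zero]; exact oi.le)
  have z0 : nm (0 : ℝ → C2) ≤ (om q h)⁻¹ / 4 := by rw [nm_zero]; positivity
  have p1' : Function.Periodic (deriv γ) (2 * π) := per_deriv' hγ.per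
  have pρ : Per (2 * π) fun s => rdot (Z s) (nr γ s) :=
    per_rdot sZ (contDiff_const.mul hγ.s1) pZ fun s => by simp only [nr, p1' s]
  have c5 := fun p (hp : p ∈ F) => hC5 _ _ e e0 (per_mul (hφ p.1) pρ)
    (per_mul (hφ p.2) pρ) fun s t hs ht =>
      sep p hp s t (left_ne_zero_of_mul hs) (left_ne_zero_of_mul ht)
  obtain ⟨r1, r2⟩ := ff_sum F (PsN γ fun s t => ws φ F s t *
      (rdot (Z s) (nr γ s) * rdot (Z t) (nr γ t)))
    (fun p => PsN γ fun s t => φ p.1 s * rdot (Z s) (nr γ s) * (φ p.2 t * rdot (Z t) (nr γ t)))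
    (fun p μ => D2 (TT μ) (cp γ) (yk φ Z p.1) (yk φ Z p.2)) hY hmu
    (fun μ hμ => by
      rw [← psn_sum F γ μ _ mN (hCN μ hμ)]
      · refine congrArg (fun w => PsN γ w μ) ?_
        funext s t
        rw [ws, Finset.sum_mul]
        exact Finset.sum_congr rfl fun p _ => by ring
      · intro p _
        exact ((per_mul (hφ p.1) pρ).smooth.continuous.comp continuous_fst).mul
          ((per_mul (hφ p.2) pρ).smooth.continuous.comp continuous_snd)
      · intro p hp s t hne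
        exact sep p hp s t (left_ne_zero_of_mul (left_ne_zero_of_mul hne))
          (left_ne_zero_of_mul (right_ne_zero_of_mul hne)))
    (fun p hp => (c5 p hp).1)
    (fun p hp μ hμ => by
      obtain ⟨-, u2, -⟩ := hG _ SP nm _ _ _ _ sn_nm oi (l1 μ hμ)
      rw [← (c5 p hp).2 μ hμ]
      refine congrArg (fun w => 2 * μ * w) ?_
      exact far_pair (g := D2 (TT μ) (cp γ)) hγ sZ pZ
        (fun a ha b hb c hc => by simpa using (u2 0 SP.zero_mem z0 a ha b hb).1 c hc)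
        (fun a ha b hb => by simpa using (u2 0 SP.zero_mem z0 a ha b hb).2.2.1)
        (fun Q hQ τ e he hτ hs => hT Q hQ τ e he hτ hs μ hμ) e0 (hφ p.1) (hφ p.2) (sep p hp))
  exact ⟨r1, by rw [Finset.sum_congr rfl fun p _ => (l3 _ (my p.1) _ (my p.2)).2, r2]⟩

end RS0

open RS0 EXP TAY in
theorem st_rs0 (hGH : St_GH) (hL : St_LHT) (hT : St_TAN) (hC5 : St_C5) (hN : St_NH) (hS : St_SH)
    (hF : St_F2) (h1 : St_J1) : St_RS0 := by
  intro j p q hq
  obtain ⟨CS, gS, HS⟩ := hS q (by omega)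
  obtain ⟨CJ, gJ, HJ⟩ := h1 q 0 (by omega)
  obtain ⟨CP, hCP, HP⟩ := psiz hN hF j p q hq
  refine ⟨2 * (|CJ| * CP), eventually_atTop.1 ?_⟩
  filter_upwards [far hGH hL hT hC5 hN hS j q (by omega), HP, eventually_ge_atTop gS,
    eventually_ge_atTop gJ, eventually_ge_atTop 1]
    with h HF HP aS aJ a1 Ω γ η K φ F Z R hD hγ hφ sZ pZ sep hw hR
  have hh : 0 < h := one_pos.trans_le a1
  have T0 := T_pos q hh
  have o0 := o_pos q hh
  obtain ⟨dΨ, t1⟩ := HF Ω γ η K φ F Z hD hγ hφ sZ pZ sep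
  obtain ⟨-, j1, j2, j3, j4⟩ := HJ h aJ
  have p1' : Function.Periodic (deriv γ) (2 * π) := per_deriv' hγ.per
  have hρ : Per (2 * π) fun s => rdot (Z s) (nr γ s) :=
    per_rdot sZ (contDiff_const.mul hγ.s1) pZ fun s => by simp only [nr, p1' s]
  have R0 : 0 ≤ R :=
    (intervalIntegral.integral_nonneg Real.two_pi_pos.le fun d _ => sq_nonneg _).trans hR
  have Y0 : 0 ≤ YY q h := by unfold YY; positivity
  have hY : ∀ y ∈ uIcc (-YY q h) (YY q h), |y| ≤ YY q h := fun y hy => by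
    rw [uIcc_of_le (by linarith)] at hy; exact abs_le.2 hy
  obtain ⟨i1, b1⟩ := ibp (isOpen_DD q h) dΨ j4 (Gs_c q h) (mu_d q h)
    fun y hy => ((HS h aS).2.1 y (hY y hy)).1
  obtain ⟨i2, b2⟩ := fubz hh hw hρ.smooth.continuous (H0.smk hγ).continuous (p + 2)
  have P := fun y hy => HP γ _ _ R y hγ hρ hw hR hy
  rw [t1, mo_one, ← b2]
  generalize (PsN γ fun s t => ws φ F s t * (rdot (Z s) (nr γ s) * rdot (Z t) (nr γ t))) = Ψ at *
  have CJ' := le_abs_self CJ
  have e0 : 0 < eps p h := by unfold eps; positivity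
  set X := R * (om q h / Tt q h ^ 2) with hX
  have X0 : 0 ≤ X := by positivity
  have f1 : ∀ y, |y| ≤ YY q h → ‖Gs q h (mu q h y)‖ ≤ CJ * Real.exp (-(h ^ 4 / 2)) →
      ‖Gs q h (mu q h y)‖ * ‖Ψ (mu q h y)‖ ≤
        |CJ| * CP * (Real.exp (-(h ^ 4 / 2)) * h ^ 4 * X) := fun y hy hg =>
    calc _ ≤ |CJ| * Real.exp (-(h ^ 4 / 2)) * (CP * h ^ 4 * X) :=
          mul_le_mul (hg.trans (by gcongr)) (P y hy).1 (norm_nonneg _) (by positivity)
      _ = _ := by ring
  have f2 := b1.trans (add_le_add (f1 _ (abs_of_nonneg Y0).le j2)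
    (f1 _ (by rw [abs_neg, abs_of_nonneg Y0]) j3))
  have f3 := intervalIntegral.norm_integral_le_of_norm_le (a := -YY q h) (b := YY q h)
    (μ := volume) (by linarith) (f := fun y => Gs' q h (mu q h y) * Ψ (mu q h y) -
      Gs' q h (mu q h y) * ∫ z, fm (ws φ F) (fun s => rdot (Z s) (nr γ s)) (kp γ) (p + 2)
        (mu q h y) z ∂bx)
    (g := fun y => ‖Gs' q h (mu q h y)‖ * (CP * (eps p h * h ^ 4) * X))
    (Eventually.of_forall fun y hy => by
      rw [← mul_sub, norm_mul]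
      exact mul_le_mul_of_nonneg_left (P y (abs_le.2 ⟨hy.1.le, hy.2⟩)).2 (norm_nonneg _))
    ((((Gs_c q h).comp (mu_c q h)).norm.mul continuous_const).intervalIntegrable _ _)
  rw [intervalIntegral.integral_sub i1 i2, intervalIntegral.integral_mul_const] at f3
  have f4 : (∫ y in (-YY q h)..YY q h, ‖Gs' q h (mu q h y)‖) * (CP * (eps p h * h ^ 4) * X) ≤
      |CJ| * CP * (eps p h * h ^ 6 * X) :=
    calc _ ≤ |CJ| * h ^ 2 * (CP * (eps p h * h ^ 4) * X) := by
          gcongr; exact j1.trans (by gcongr)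
      _ = _ := by ring
  generalize (∫ y in (-YY q h)..YY q h, Gs q h (mu q h y) * deriv Ψ (mu q h y)) = x1 at *
  generalize (∫ y in (-YY q h)..YY q h, Gs' q h (mu q h y) * Ψ (mu q h y)) = x2 at *
  generalize (∫ y in (-YY q h)..YY q h, Gs' q h (mu q h y) * ∫ z, fm (ws φ F)
    (fun s => rdot (Z s) (nr γ s)) (kp γ) (p + 2) (mu q h y) z ∂bx) = x3 at *
  have g := norm_sub_le (x2 - x3) (x1 + x2)
  have g6 : 0 ≤ |CJ| * CP * (eps p h * h ^ 6 * X) := by positivity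
  rw [show -x1 - x3 = x2 - x3 - (x1 + x2) by ring, Er, ← hX]
  linarith

end Pool.Agent.Lib.IS3
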