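import Pool.Agent.Lib.IS3.Kit

/-! Row RSP: a group of pairs on a scaled curve. -/

open scoped ContDiff ComplexConjugate Topology Real ENNReal
open Complex MeasureTheory Set Filter

noncomputable section

namespace Pool.Agent.Lib.IS3

open Pool.Agent.Lib.ISO Pool.Agent.Lib.IS2

theorem st_rsp (hL : St_LOC) (h2 : St_RSP2) : St_RSP := by
  intro j p q n hq
  rcases le_or_gt j 0 with j0 | j0
  · exact ⟨0, 0, fun h _ l G β K φ F Z R hs => absurd hs.nc.pos (not_lt.2 j0)⟩
  obtain ⟨C1, h1, H1⟩ := h2 j p q hq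
  obtain ⟨C2, h2, H2⟩ := hL j (3 / (8 * j)) q (n + 3) (by positivity) (by omega)
  refine ⟨max |C1| |C2|, max (max h1 h2) 1, fun h hh l G β K φ F Z R hs hc hp hF hy => ?_⟩
  obtain ⟨Ω, H, η, ψ, χ, c, a1, a2, a3, a4, a5⟩ := hc
  have h0 : 0 < h := one_pos.trans_le ((le_max_right _ _).trans hh)
  have o0 : 0 < om q h := pow_pos h0 _
  have R0 : 0 ≤ R := (intervalIntegral.integral_nonneg Real.two_pi_pos.le
    fun _ _ => sq_nonneg _).trans hp.l2
  have E0 : 0 ≤ Er p q h R := by unfold Er eps; positivity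
  have ym : ∀ k, yk φ Z k ∈ SP := fun k => smul_mem_SP (hp.per k) (cp_mem hp.sm hp.pz)
  have b1 := H1 h (((le_max_left _ _).trans (le_max_left _ _)).trans hh) l G β Ω H η ψ χ c K φ F Z R
    hs a1 a2 a3 a4 a5 hp
  have b2 : ∀ x ∈ F, ‖D2 (FT q h) (cp (sc l G)) (yk φ Z x.1) (yk φ Z x.2) -
      D2 (FT q h) (cp fun u => H (ψ u)) (yk φ Z x.1) (yk φ Z x.2)‖ ≤ |C2| / om q h ^ (n + 3) :=
    fun x hx => by
      refine ((H2 h (((le_max_right _ _).trans (le_max_left _ _)).trans hh) _ hs.n1 _ (ym _) _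
        (ym _)).1 _ β a4 (fun s h => ?_) fun s h => ?_).trans ?_
      · obtain ⟨k, hk⟩ := exists_dc β s
        refine ((hs.n1.per 0).int_mul k s).symm.trans
          ((a5 _ ?_).1.symm.trans ((a4.per 0).int_mul k s))
        rw [abs_sub_comm, hk, dc_comm]
        refine h.trans ?_
        rw [inv_eq_one_div, ← mul_div_assoc, div_le_div_iff₀ (by positivity) j0]
        linarith
      · simp only [yk, (hp.supp x hx s h).1, (hp.supp x hx s h).2, zero_smul, and_self]
      · refine div_le_div_of_nonneg_right ?_ (by positivity)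
        rw [mul_assoc]
        exact (mul_le_mul_of_nonneg_right (le_abs_self _)
          (mul_nonneg (nm_nonneg (ym _)) (nm_nonneg (ym _)))).trans (mul_le_of_le_one_right
            (abs_nonneg _) (mul_le_one₀ (hy _) (nm_nonneg (ym _)) (hy _)))
  refine (norm_sub_le_norm_sub_add_norm_sub _ _ _).trans ((add_comm _ _).trans_le (add_le_add
    (b1.trans (mul_le_mul_of_nonneg_right (le_max_of_le_left (le_abs_self _)) E0)) ?_))
  rw [← Finset.sum_sub_distrib]
  refine (norm_sum_le_of_le _ b2).trans ?_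
  rw [Finset.sum_const, nsmul_eq_mul]
  refine (mul_le_mul_of_nonneg_right hF (by positivity)).trans ?_
  rw [pow_add, ← mul_div_assoc, mul_comm (om q h ^ 3), mul_div_mul_right _ _ (by positivity)]
  exact div_le_div_of_nonneg_right (le_max_right _ _) (by positivity)

end Pool.Agent.Lib.IS3
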