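import Pool.Agent.Lib.IS3.Kit

/-! The second variation on an arc of a scaled curve, read on a closing curve. -/

open scoped ContDiff ComplexConjugate Topology Real
open Complex MeasureTheory Set Filter

noncomputable section

namespace Pool.Agent.Lib.IS3

open Pool.Agent.Lib.ISO Pool.Agent.Lib.IS2

namespace RSP2

lemma ft_comp (hREP : IS2.St_REP) {ψ χ : ℝ → ℝ} (hr : Rp ψ χ) (q : ℕ) (h : ℝ) {Q : ℝ → C2}
    (hQ : Q ∈ SP) : FT q h (fun s => Q (ψ s)) = FT q h Q := by
  have : ∀ μ, TT μ (fun s => Q (ψ s)) = TT μ Q := fun μ => by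
    unfold TT
    refine tsum_congr fun n => ?_
    rw [← hREP Q hQ ψ (fun _ _ => 1) μ n (hr.s1.of_le (by simp)) hr.p1 hr.a1
      fun _ => ⟨measurable_const, fun _ => by simp, fun _ _ => rfl⟩]
  simp only [FT, this]

lemma d2_comp {f : (ℝ → C2) → ℂ} {ψ χ : ℝ → ℝ} (hl : ∀ u, χ (ψ u) = u)
    (hf : ∀ Q ∈ SP, f (fun s => Q (ψ s)) = f Q) {P y z : ℝ → C2} (hP : P ∈ SP)
    (hy : (fun s => y (χ s)) ∈ SP) (hz : (fun s => z (χ s)) ∈ SP) :
    D2 f (fun s => P (ψ s)) y z = D2 f P (fun s => y (χ s)) (fun s => z (χ s)) := by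
  unfold D2 D1
  congr 1
  funext ε
  congr 1
  funext ε'
  rw [← hf _ (SP.add_mem (SP.add_mem hP (SP.smul_mem ε hz)) (SP.smul_mem ε' hy))]
  congr 1
  funext s
  simp [hl]

lemma cut {E : Type} [NormedAddCommGroup E] [NormedSpace ℝ E] {f : ℝ → E} {x r : ℝ} (h0 : 0 ≤ r)
    (hr : r ≤ π) (hf : ∀ s, r ≤ |s - x| → |s - x| ≤ π → f s = 0) :
    ∫ s in (x - π)..(x + π), f s = ∫ s in (x - r)..(x + r), f s := by
  have := Real.pi_pos
  rw [intervalIntegral.integral_of_le (by linarith), intervalIntegral.integral_of_le (by linarith)]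
  refine setIntegral_eq_of_subset_of_forall_sdiff_eq_zero measurableSet_Ioc
    (Ioc_subset_Ioc (by linarith) (by linarith)) fun s hs => hf s ?_ ?_
  · by_contra hc
    have := abs_lt.1 (not_le.1 hc)
    exact hs.2 ⟨by linarith, by linarith⟩
  · exact abs_le.2 ⟨by linarith [hs.1.1], by linarith [hs.1.2]⟩

lemma sc1 {E : Type} [NormedAddCommGroup E] [NormedSpace ℝ E] {f g : ℝ → E} {l c b a : ℝ}
    (hl : 0 < l) (ha : 0 ≤ a) (h1 : a ≤ π) (h2 : l * a ≤ π)
    (e : ∀ u, |u - b| ≤ a → f (l * u + c) = g u)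
    (hf : ∀ s, l * a ≤ |s - (l * b + c)| → |s - (l * b + c)| ≤ π → f s = 0)
    (hg : ∀ u, a ≤ |u - b| → |u - b| ≤ π → g u = 0) :
    ∫ s in (l * b + c - π)..(l * b + c + π), f s = l • ∫ u in (b - π)..(b + π), g u := by
  rw [cut (by positivity) h2 hf, cut ha h1 hg]
  have : ∫ u in (b - a)..(b + a), g u = ∫ u in (b - a)..(b + a), f (l * u + c) := by
    refine intervalIntegral.integral_congr fun u hu => (e u ?_).symm
    rw [uIcc_of_le (by linarith)] at hu
    exact abs_le.2 ⟨by linarith [hu.1], by linarith [hu.2]⟩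
  rw [this, intervalIntegral.integral_comp_mul_add _ hl.ne', smul_smul, mul_inv_cancel₀ hl.ne',
    one_smul]
  congr 1 <;> ring

lemma win {E : Type} [NormedAddCommGroup E] [NormedSpace ℝ E] {f : ℝ → E}
    (h : Function.Periodic f (2 * π)) (x : ℝ) :
    ∫ t in (0 : ℝ)..(2 * π), f t = ∫ t in (x - π)..(x + π), f t := by
  have := h.intervalIntegral_add_eq 0 (x - π)
  rwa [zero_add, show x - π + 2 * π = x + π by ring] at this

lemma far {s d x r : ℝ} (h1 : dc s x ≤ r) (h2 : dc (s + d) x ≤ r) (hd : |d| ≤ π) : |d| ≤ 2 * r := by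
  have e : dc (s + d) s = |d| := by
    rw [dc_eq_abs (by simpa using hd)]; simp
  have := dc_triangle (s + d) x s
  rw [dc_comm x s] at this
  linarith

lemma sc2 {F1 F2 : ℝ × ℝ → ℂ} {l c β a : ℝ} (hl : 0 < l) (ha : 0 < a) (h1 : a ≤ 1) (h2 : l * a ≤ 1)
    (c1 : Continuous F1) (c2 : Continuous F2) (p1 : ∀ s d, F1 (s + 2 * π, d) = F1 (s, d))
    (p2 : ∀ s d, F2 (s + 2 * π, d) = F2 (s, d))
    (s1 : ∀ s d, F1 (s, d) ≠ 0 → dc s (l * β + c) ≤ l * (3 / 8 * a) ∧
      dc (s + d) (l * β + c) ≤ l * (3 / 8 * a))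
    (s2 : ∀ u d, F2 (u, d) ≠ 0 → dc u β ≤ 3 / 8 * a ∧ dc (u + d) β ≤ 3 / 8 * a)
    (e : ∀ u d, |u - β| ≤ a → |u + d - β| ≤ a → (l : ℂ) ^ 2 * F1 (l * u + c, l * d) = F2 (u, d)) :
    ∫ z, F1 z ∂EXP.bx = ∫ z, F2 z ∂EXP.bx := by
  have hπ := Real.pi_gt_three
  have hla : 0 < l * a := by positivity
  have l0 : (l : ℂ) ≠ 0 := by exact_mod_cast hl.ne'
  rw [← EXP.dbl (EXP.int_c c1), ← EXP.dbl (EXP.int_c c2),
    win (f := fun s => ∫ d in (-π)..π, F1 (s, d)) (fun s => by simp only [p1]) (l * β + c),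
    win (f := fun s => ∫ d in (-π)..π, F2 (s, d)) (fun s => by simp only [p2]) β,
    sc1 (g := fun u => l⁻¹ • ∫ d in (-π)..π, F2 (u, d)) (a := a / 2) hl (by positivity)
      (by linarith) (by linarith), intervalIntegral.integral_smul, smul_smul,
    mul_inv_cancel₀ hl.ne', one_smul]
  · intro u hu
    have key := sc1 (f := fun d => F1 (l * u + c, d)) (g := fun d => (l⁻¹ ^ 2 : ℝ) • F2 (u, d))
      (c := 0) (b := 0) (a := a) hl ha.le (by linarith) (by linarith) ?_ ?_ ?_
    · simp only [mul_zero, add_zero, zero_sub, zero_add, intervalIntegral.integral_smul,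
        smul_smul] at key
      rw [key]
      congr 1
      field_simp
    · intro d hd
      rw [sub_zero] at hd
      by_cases hc : |u + d - β| ≤ a
      · rw [add_zero, ← e u d (by linarith) hc, real_smul]
        push_cast
        field_simp
      · have b1 : |u + d - β| ≤ 3 / 2 * a := by
          rw [show u + d - β = (u - β) + d by ring]
          exact (abs_add_le _ _).trans (by linarith)
        have z2 : F2 (u, d) = 0 := by
          by_contra hz
          have := (s2 u d hz).2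
          rw [dc_eq_abs (by linarith)] at this
          exact hc (by linarith)
        have z1 : F1 (l * u + c, l * d) = 0 := by
          by_contra hz
          have := (s1 _ _ hz).2
          have e1 : |l * u + c + l * d - (l * β + c)| = l * |u + d - β| := by
            rw [show l * u + c + l * d - (l * β + c) = l * (u + d - β) by ring, abs_mul,
              abs_of_pos hl]
          rw [dc_eq_abs (by rw [e1]; nlinarith), e1] at this
          exact hc (by nlinarith)
        simp only [add_zero, z1, z2, smul_zero]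
    · intro d h3 h4
      simp only [mul_zero, add_zero, sub_zero] at h3 h4
      by_contra hz
      have := far (s1 _ _ hz).1 (s1 _ _ hz).2 h4
      linarith
    · intro d h3 h4
      simp only [sub_zero] at h3 h4
      have z2 : F2 (u, d) = 0 := by
        by_contra hz
        have := far (s2 _ _ hz).1 (s2 _ _ hz).2 h4
        linarith
      simp only [z2, smul_zero]
  · intro s h3 h4
    have : ∀ d, F1 (s, d) = 0 := fun d => by
      by_contra hz
      have := (s1 _ _ hz).1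
      rw [dc_eq_abs h4] at this
      linarith
    simp only [this, intervalIntegral.integral_zero]
  · intro s h3 h4
    have : ∀ d, F2 (s, d) = 0 := fun d => by
      by_contra hz
      have := (s2 _ _ hz).1
      rw [dc_eq_abs h4] at this
      linarith
    simp only [this, intervalIntegral.integral_zero, smul_zero]

lemma uwL_c {l e : ℝ} {w : ℝ → ℝ → ℝ} {ρ κ : ℝ → ℝ} (hl : 0 < l) (he : 0 < e) (hw : Wf0 e w)
    (hρ : Continuous ρ) (hκ : Continuous κ) (n : ℕ) : Continuous (uwL l w ρ κ n) := by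
  have c1 : Continuous fun z : ℝ × ℝ => w z.1 (z.1 + z.2) :=
    hw.cont.comp (f := fun z : ℝ × ℝ => (z.1, z.1 + z.2)) (by fun_prop)
  have c2 : Continuous fun z : ℝ × ℝ => (l * max |z.2| e) ^ (3 * (n : ℝ) / 2 - 3) :=
    Continuous.rpow_const (by fun_prop) fun z =>
      Or.inl (mul_pos hl (he.trans_le (le_max_right _ _))).ne'
  have : uwL l w ρ κ n = fun z => l ^ 2 * (w z.1 (z.1 + z.2) * (ρ z.1 * ρ (z.1 + z.2)) *
      (κ z.1 ^ n * (l * max |z.2| e) ^ (3 * (n : ℝ) / 2 - 3))) := by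
    ext z
    rcases le_total |z.2| e with h | h
    · have : w z.1 (z.1 + z.2) = 0 := hw.zero _ _ ((dc_le_abs _ _).trans (by simpa using h))
      simp only [uwL, this, zero_mul]
    · rw [uwL, max_eq_left h]
  rw [this]
  exact continuous_const.mul ((c1.mul (by fun_prop)).mul (Continuous.mul (by fun_prop) c2))

section
variable {ψ χ : ℝ → ℝ} {l c β a : ℝ}

lemma chi_int (hr : Rp ψ χ) (s : ℝ) (k : ℤ) : χ (s + k * (2 * π)) = χ s + k * (2 * π) := by
  have p : Function.Periodic (fun u => χ u - u) (2 * π) := fun u => by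
    simp only [hr.a2]; ring
  have := p.int_mul k s
  linarith

/-- a point whose preimage is near `β` lies on the arc up to a period -/
lemma loc (hr : Rp ψ χ) (hψ : ∀ u, |u - β| ≤ a → ψ u = l * u + c) {s : ℝ} (hs : dc (χ s) β ≤ a) :
    ∃ u, ∃ k : ℤ, |u - β| = dc (χ s) β ∧ s = l * u + c + k * (2 * π) ∧ χ s = u + k * (2 * π) := by
  obtain ⟨k, hk⟩ := exists_dc (χ s) β
  have e : |χ s - k * (2 * π) - β| = dc (χ s) β := by rw [← hk]; congr 1; ring
  refine ⟨χ s - k * (2 * π), k, e, ?_, by ring⟩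
  have h1 := hψ _ (e.trans_le hs)
  have h2 := chi_int hr s (-k)
  have h3 : ψ (χ s - k * (2 * π)) = s - k * (2 * π) := by
    have := hr.r (s + (-k : ℤ) * (2 * π))
    rw [h2] at this
    simpa [sub_eq_add_neg] using this
  linarith

lemma near (hr : Rp ψ χ) (hl : 0 < l) (hψ : ∀ u, |u - β| ≤ a → ψ u = l * u + c) {s : ℝ}
    (hs : dc (χ s) β ≤ a) : dc s (l * β + c) ≤ l * dc (χ s) β := by
  obtain ⟨u, k, h1, h2, -⟩ := loc hr hψ hs
  rw [← h1]
  calc dc s (l * β + c) = dc (l * u + c) (l * β + c) := by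
        conv_lhs => rw [h2, dc_add_left]
    _ ≤ _ := dc_le_abs _ _
    _ = _ := by rw [show l * u + c - (l * β + c) = l * (u - β) by ring, abs_mul, abs_of_pos hl]

lemma apart (hr : Rp ψ χ) (hl : 0 < l) (ha : l * a ≤ 1) (hψ : ∀ u, |u - β| ≤ a → ψ u = l * u + c)
    {s t : ℝ} (hs : dc (χ s) β ≤ a) (ht : dc (χ t) β ≤ a) : l * dc (χ s) (χ t) ≤ dc s t := by
  obtain ⟨u, k, h1, h2, h3⟩ := loc hr hψ hs
  obtain ⟨v, m, h4, h5, h6⟩ := loc hr hψ ht
  have hπ := Real.pi_gt_three
  have e1 : |l * u + c - (l * v + c)| = l * |u - v| := by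
    rw [show l * u + c - (l * v + c) = l * (u - v) by ring, abs_mul, abs_of_pos hl]
  have b : |u - v| ≤ 2 * a := by
    rw [show u - v = (u - β) - (v - β) by ring]
    exact (abs_sub _ _).trans (by linarith)
  have e2 : dc s t = l * |u - v| := by
    conv_lhs => rw [h2, h5, dc_add_left, dc_add_right]
    rw [dc_eq_abs (by rw [e1]; nlinarith), e1]
  rw [e2, h3, h6, dc_add_left, dc_add_right]
  exact mul_le_mul_of_nonneg_left (dc_le_abs _ _) hl.le

lemma jets {G H : ℝ → ℂ} (hG : ContDiff ℝ ∞ G) (hH : ContDiff ℝ ∞ H) (hl : 0 < l)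
    (e : ∀ u, |u - β| < a → H (l * u + c) = l * G u) {u : ℝ} (hu : |u - β| < a) :
    nr H (l * u + c) = nr G u ∧ kp H (l * u + c) = kp G u / l := by
  have l0 : (l : ℂ) ≠ 0 := by exact_mod_cast hl.ne'
  have op : IsOpen {v : ℝ | |v - β| < a} := isOpen_lt (by fun_prop) continuous_const
  have ln : ∀ v : ℝ, HasDerivAt (fun v => l * v + c) l v := fun v => by
    simpa using ((hasDerivAt_id v).const_mul l).add_const c
  have H1 := (contDiff_infty_iff_deriv.1 hH).2
  have G1 := (contDiff_infty_iff_deriv.1 hG).2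
  have d1 : ∀ v, |v - β| < a → deriv H (l * v + c) = deriv G v := fun v hv => by
    have a1 := (hH.differentiable (by simp) (l * v + c)).hasDerivAt.scomp v (ln v)
    have a2 := ((hG.differentiable (by simp) v).hasDerivAt.const_mul (l : ℂ)).congr_of_eventuallyEq
      (f₁ := H ∘ fun v => l * v + c) (by filter_upwards [op.mem_nhds hv] with x hx using e x hx)
    have := a1.unique a2
    rw [real_smul] at this
    exact mul_left_cancel₀ l0 this
  have a1 := (H1.differentiable (by simp) (l * u + c)).hasDerivAt.scomp u (ln u)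
  have a2 := (G1.differentiable (by simp) u).hasDerivAt.congr_of_eventuallyEq
    (f₁ := deriv H ∘ fun v => l * v + c) (by filter_upwards [op.mem_nhds hu] with x hx using d1 x hx)
  have d2 := a1.unique a2
  rw [real_smul] at d2
  refine ⟨by rw [nr, nr, d1 u hu], ?_⟩
  rw [kp, kp, d1 u hu, ← d2, mul_assoc, im_ofReal_mul]
  field_simp

end

lemma ws_ne {K : ℕ} {φ : Fin K → ℝ → ℝ} {F : Finset (Fin K × Fin K)} {s t : ℝ}
    (h : ws φ F s t ≠ 0) : ∃ x ∈ F, φ x.1 s ≠ 0 ∧ φ x.2 t ≠ 0 := by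
  obtain ⟨x, hx, e⟩ := Finset.exists_ne_zero_of_sum_ne_zero h
  exact ⟨x, hx, mul_ne_zero_iff.1 e⟩

lemma rd_c {Z γ : ℝ → ℂ} (hZ : Continuous Z) (hγ : ContDiff ℝ ∞ γ) :
    Continuous fun s => rdot (Z s) (nr γ s) := by
  have := (contDiff_infty_iff_deriv.1 hγ).2.continuous
  unfold rdot nr
  fun_prop

lemma rd_p {Z γ : ℝ → ℂ} (hZ : Function.Periodic Z (2 * π)) (hγ : Function.Periodic γ (2 * π))
    (s : ℝ) : rdot (Z (s + 2 * π)) (nr γ (s + 2 * π)) = rdot (Z s) (nr γ s) := by
  simp only [nr, hZ s, per_deriv' hγ s]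

end RSP2

open RSP2 in
theorem st_rsp2 (hRS0 : St_RS0) (hREP : IS2.St_REP) (hBUMP : St_BUMP) : St_RSP2 := by
  intro j p q hq
  obtain ⟨C, h0, hC⟩ := hRS0 j p q hq
  obtain ⟨Cb, hB⟩ := hBUMP
  refine ⟨C * j, max h0 1, fun h hh l G β Ω H η ψ χ c K φ F Z R hN hD hH hr _ harc hP => ?_⟩
  have hh0 : 0 < h := one_pos.trans_le ((le_max_right _ _).trans hh)
  have hπ := Real.pi_gt_three
  have j1 := hH.one_le
  have j0 := hH.pos
  have hl := hN.pos
  have hT : 0 < Tt q h / (2 * h) := by have := EXP.T_pos q hh0; positivity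
  obtain ⟨a, ha⟩ : ∃ a, a = j⁻¹ := ⟨_, rfl⟩
  have a0 : 0 < a := ha ▸ inv_pos.2 j0
  have ja : j * a = 1 := ha ▸ mul_inv_cancel₀ j0.ne'
  have a1 : a ≤ 1 := by nlinarith
  have la : l * a ≤ 1 := by nlinarith [hN.hi]
  have jl : 1 ≤ j * l := by
    have := hN.lo
    rw [← ha] at this
    nlinarith
  have e38 : 3 / (8 * j) = 3 / 8 * a := by rw [ha]; field_simp
  rw [← ha] at harc
  have hψ : ∀ u, |u - β| ≤ a → ψ u = l * u + c := fun u hu => (harc u hu).2
  have hχ : ∀ u, |u - β| ≤ a → χ (l * u + c) = u := fun u hu => by rw [← hψ u hu, hr.l]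
  have hj := fun u => jets (β := β) (a := a) (c := c) (u := u) hN.nc.smooth hH.smooth hl
    fun v hv => by rw [← hψ v hv.le]; exact (harc v hv.le).1
  obtain ⟨b, hb⟩ := hB (3 / 4 * a) β (by positivity) (by linarith)
  have sp : ∀ x ∈ F, ∀ s, (φ x.1 s ≠ 0 → dc s β ≤ 3 / 8 * a) ∧ (φ x.2 s ≠ 0 → dc s β ≤ 3 / 8 * a) :=
    fun x hx s => ⟨fun e => not_lt.1 fun n => e (hP.supp x hx s (e38 ▸ n)).1,
      fun e => not_lt.1 fun n => e (hP.supp x hx s (e38 ▸ n)).2⟩
  have sw : ∀ s t, ws φ F s t ≠ 0 → dc s β ≤ 3 / 8 * a ∧ dc t β ≤ 3 / 8 * a := fun s t e =>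
    let ⟨x, hx, e1, e2⟩ := ws_ne e
    ⟨(sp x hx s).1 e1, (sp x hx t).2 e2⟩
  have zs : ContDiff ℝ ∞ fun s => (b (χ s) : ℂ) * Z (χ s) :=
    (ofRealCLM.contDiff.comp (hb.per.smooth.comp hr.s2)).mul (hP.sm.comp hr.s2)
  have zp : Function.Periodic (fun s => (b (χ s) : ℂ) * Z (χ s)) (2 * π) := fun s => by
    simp only [hr.a2, hb.per.per, hP.pz (χ s)]
  have fp : ∀ k, Per (2 * π) fun s => φ k (χ s) := fun k =>
    ⟨(hP.per k).smooth.comp hr.s2, fun s => by rw [hr.a2, (hP.per k).per]⟩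
  have ap : ∀ s t, dc (χ s) β ≤ 3 / 8 * a → dc (χ t) β ≤ 3 / 8 * a →
      dc (χ s) (χ t) ≤ j * dc s t := fun s t h1 h2 => by
    have := apart hr hl la hψ (s := s) (t := t) (by linarith) (by linarith)
    nlinarith [dc_nonneg (χ s) (χ t)]
  have wf : Wf0 (Tt q h / (2 * h)) (ws (fun k s => φ k (χ s)) F) := by
    have c2 := hr.s2.continuous
    refine ⟨hP.wf.cont.comp (f := fun z : ℝ × ℝ => (χ z.1, χ z.2)) (by fun_prop),
      fun s t => ?_, fun s t => ?_, fun s t => hP.wf.nn (χ s) (χ t),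
      fun s t => hP.wf.le (χ s) (χ t), fun s t e => ?_⟩
    · show ws φ F (χ (s + 2 * π)) (χ t) = ws φ F (χ s) (χ t)
      rw [hr.a2, hP.wf.p1]
    · show ws φ F (χ s) (χ (t + 2 * π)) = ws φ F (χ s) (χ t)
      rw [hr.a2, hP.wf.p2]
    · show ws φ F (χ s) (χ t) = 0
      by_contra n
      refine n (hP.wf.zero _ _ ((ap s t (sw _ _ n).1 (sw _ _ n).2).trans ?_))
      rw [mul_div_assoc]
      gcongr
  have rb : ∀ (r : ℝ) (z v : ℂ), rdot (r * z) v = r * rdot z v := fun r z v => by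
    rw [rdot, rdot, mul_assoc, re_ofReal_mul]
  have cρ := rd_c hP.sm.continuous hN.nc.smooth
  have cρ' := rd_c zs.continuous hH.smooth
  have pρ := rd_p hP.pz hN.nc.per
  have pρ' := rd_p zp hH.per
  have l2 : ∫ s in (0 : ℝ)..(2 * π), rdot ((b (χ s) : ℂ) * Z (χ s)) (nr H s) ^ 2 ≤ j * R := by
    have cb := hb.per.smooth.continuous
    have i1 : ∫ u in (β - π)..(β + π), (b u * rdot (Z u) (nr G u)) ^ 2 ≤ R := by
      refine le_trans ?_ hP.l2
      rw [win (f := fun s => rdot (Z s) (nr G s) ^ 2) (fun s => by simp only [pρ]) β]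
      refine intervalIntegral.integral_mono_on (by linarith)
        (Continuous.intervalIntegrable (by fun_prop) _ _)
        (Continuous.intervalIntegrable (by fun_prop) _ _) fun u _ => ?_
      rw [mul_pow]
      exact mul_le_of_le_one_left (sq_nonneg _) (pow_le_one₀ (hb.nn u) (hb.le u))
    have i0 : 0 ≤ ∫ u in (β - π)..(β + π), (b u * rdot (Z u) (nr G u)) ^ 2 :=
      intervalIntegral.integral_nonneg (by linarith) fun u _ => sq_nonneg _
    rw [win (f := fun s => rdot ((b (χ s) : ℂ) * Z (χ s)) (nr H s) ^ 2)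
      (fun s => by simp only [pρ']) (l * β + c),
      sc1 (g := fun u => (b u * rdot (Z u) (nr G u)) ^ 2) (a := 3 / 4 * a) hl (by positivity)
        (by linarith) (by nlinarith), smul_eq_mul]
    · exact mul_le_mul hN.hi i1 i0 j0.le
    · intro u hu
      simp only [hχ u (by linarith), (hj u (by linarith)).1, rb]
    · intro s h3 h4
      have : b (χ s) = 0 := by
        by_contra n
        have h5 : dc (χ s) β < 3 / 4 * a := not_le.1 fun e => n (hb.zero _ e)
        have := near hr hl hψ (s := s) (by linarith)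
        rw [dc_eq_abs h4] at this
        nlinarith
      simp [this, rdot]
    · intro u h3 h4
      rw [hb.zero u (by rw [dc_eq_abs h4]; exact h3)]
      simp
  have main := hC h ((le_max_left _ _).trans hh) Ω H η K (fun k s => φ k (χ s)) F
    (fun s => (b (χ s) : ℂ) * Z (χ s)) (j * R) hD hH fp zs zp (fun x hx s t e1 e2 => by
      have h1 := hP.sep x hx _ _ e1 e2
      have h2 := ap s t ((sp x hx _).1 e1) ((sp x hx _).2 e2)
      rw [mul_div_assoc] at h1
      exact le_of_mul_le_mul_left (h1.trans h2) j0) wf l2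
  have ey : ∀ k, (∀ s, φ k s ≠ 0 → dc s β ≤ 3 / 8 * a) → (fun s => yk φ Z k (χ s)) =
      yk (fun k s => φ k (χ s)) (fun s => (b (χ s) : ℂ) * Z (χ s)) k := fun k hk => by
    funext s
    by_cases e : φ k (χ s) = 0
    · simp only [yk, e, zero_smul]
    · simp only [yk, cp, hb.one _ ((hk _ e).trans_eq (by ring)), ofReal_one, one_mul]
  have ym : ∀ k, yk (fun k s => φ k (χ s)) (fun s => (b (χ s) : ℂ) * Z (χ s)) k ∈ SP := fun k =>
    smul_mem_SP (fp k) (cp_mem zs zp)
  have e1 : ∑ x ∈ F, D2 (FT q h) (cp fun u => H (ψ u)) (yk φ Z x.1) (yk φ Z x.2) =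
      ∑ x ∈ F, D2 (FT q h) (cp H)
        (yk (fun k s => φ k (χ s)) (fun s => (b (χ s) : ℂ) * Z (χ s)) x.1)
        (yk (fun k s => φ k (χ s)) (fun s => (b (χ s) : ℂ) * Z (χ s)) x.2) :=
    Finset.sum_congr rfl fun x hx => by
      have y1 := ey x.1 fun s => (sp x hx s).1
      have y2 := ey x.2 fun s => (sp x hx s).2
      have k := d2_comp (f := FT q h) (P := cp H) (y := yk φ Z x.1) (z := yk φ Z x.2) hr.l
        (fun Q hQ => ft_comp hREP hr q h hQ) (cp_mem hH.smooth hH.per)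
        (by rw [y1]; exact ym x.1) (by rw [y2]; exact ym x.2)
      rw [y1, y2] at k
      exact k
  have e2 : Mo q h 1 (p + 2) (ws (fun k s => φ k (χ s)) F)
      (fun s => rdot ((b (χ s) : ℂ) * Z (χ s)) (nr H s)) (kp H) =
      Mo q h l (p + 2) (ws φ F) (fun s => rdot (Z s) (nr G s)) (kh l (kp G)) := by
    refine Finset.sum_congr rfl fun n _ => ?_
    congr 1
    have cM := EXP.Mp_c q hh0 n
    have kH := kp_per hH.smooth hH.per
    have kG := kp_per hN.nc.smooth hN.nc.per
    have u1 := uwL_c one_pos hT wf cρ' kH.smooth.continuous n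
    have u2 := uwL_c (κ := kh l (kp G)) hl (by rw [mul_div_assoc]; positivity) hP.wf cρ
      (kG.smooth.continuous.div_const l) n
    refine sc2 (c := c) (β := β) hl a0 a1 la (by fun_prop) (by fun_prop) (fun s d => ?_)
      (fun s d => ?_) (fun s d e => ?_) (fun s d e => ?_) fun u d h1 h2 => ?_
    · simp only [uwL, add_right_comm s (2 * π) d, wf.p1, wf.p2, pρ', kH.per]
    · simp only [uwL, kh, add_right_comm s (2 * π) d, hP.wf.p1, hP.wf.p2, pρ, kG.per]
    · have n0 : ws φ F (χ s) (χ (s + d)) ≠ 0 := fun n => e (by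
        have : ws (fun k s => φ k (χ s)) F s (s + d) = 0 := n
        simp [uwL, this])
      obtain ⟨b1, b2⟩ := sw _ _ n0
      exact ⟨(near hr hl hψ (by linarith)).trans (by gcongr),
        (near hr hl hψ (by linarith)).trans (by gcongr)⟩
    · exact sw _ _ fun n => e (by simp [uwL, n])
    · have ed : l * u + c + l * d = l * (u + d) + c := by ring
      have ew : ws (fun k s => φ k (χ s)) F (l * u + c) (l * (u + d) + c) = ws φ F u (u + d) := by
        show ws φ F (χ (l * u + c)) (χ (l * (u + d) + c)) = _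
        rw [hχ u h1, hχ _ h2]
      by_cases n : ws φ F u (u + d) = 0
      · simp [uwL, ed, ew, n]
      · obtain ⟨b1, b2⟩ := sw _ _ n
        have o1 := hb.one u (by linarith only [b1])
        have o2 := hb.one (u + d) (by linarith only [b2])
        rw [dc_eq_abs (by linarith only [h1, a1, hπ])] at b1
        rw [dc_eq_abs (by linarith only [h2, a1, hπ])] at b2
        obtain ⟨n1, k1⟩ := hj u (by linarith only [b1, a0])
        obtain ⟨n2, -⟩ := hj (u + d) (by linarith only [b2, a0])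
        have x1 := hχ u h1
        have x2 := hχ _ h2
        simp only [uwL, ed, ew, x1, x2, o1, o2, n1, k1, n2, ofReal_one, one_mul, one_pow, kh,
          abs_mul, abs_of_pos hl]
        push_cast
        ring
  rw [e1, ← e2]
  refine main.trans_eq ?_
  unfold Er
  ring

end Pool.Agent.Lib.IS3
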