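import Pool.Agent.Lib.IS3.Blue
import Pool.Agent.Lib.IS2.B_S12

/-! Germs of one curvature function among several scaled curvature functions. -/

open scoped ContDiff ComplexConjugate Topology Real
open Complex MeasureTheory Set Filter

noncomputable section

namespace Pool.Agent.Lib.IS3

open Pool.Agent.Lib.ISO Pool.Agent.Lib.IS2 BR S12

namespace S1

variable {κ : ℝ → ℝ} {a b : ℝ}

lemma bq {n : ℕ} {s : Fin n → ℝ → ℝ} (hB : Br κ a b n s) (i : Fin n) : Bq κ a b (s i) :=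
  fun c hc => ⟨hB.lev i c hc, hB.ne i c hc, hB.der i c hc⟩

lemma tsm {ι : Type} [Fintype ι] {F : Set ((ℝ → ℝ) × ℝ)} {s0 : ℝ → ℝ} (s g : ι → ℝ → ℝ)
    (l w : ι → ℝ) (hT : ∀ j0 : ℕ, ∃ j, j0 ≤ j ∧ TsM κ F j) (hab : a < b) (h0 : Bq κ a b s0)
    (c0 : ContinuousOn (fun x => sl κ (s0 x)) (Ioo a b))
    (h1 : ∀ k, (g k, l k) ∈ F ∧ Bq (g k) a b (s k) ∧
      ContinuousOn (fun x => sl (g k) (s k x)) (Ioo a b) ∧
      ∀ x ∈ Ioo a b, l k * sl (g k) (s k x) ≠ sl κ (s0 x))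
    (h2 : ∀ x ∈ Ioo a b, sl κ (s0 x) = ∑ k, w k * sl (g k) (s k x)) : False := by
  obtain ⟨c1, e1⟩ := nonempty_Ioo.2 hab
  obtain ⟨c2, e2⟩ := nonempty_Ioo.2 e1.2
  have hs : Icc c1 c2 ⊆ Ioo a b := Icc_subset_Ioo e1.1 e2.2
  have v1 := ev_le (c0.mono hs)
  have v2 := eventually_all.2 fun k => ev_le ((h1 k).2.2.1.mono hs)
  have v3 := eventually_all.2 fun k => ev_ge (((continuousOn_const (c := l k)).mul
    ((h1 k).2.2.1.mono hs)).sub (c0.mono hs)) fun x hx => sub_ne_zero.2 ((h1 k).2.2.2 x (hs hx))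
  have v4 := eventually_all.2 fun k =>
    (tendsto_natCast_atTop_atTop (R := ℝ)).eventually_ge_atTop |w k|
  have v5 := (tendsto_inv_atTop_zero.comp (tendsto_natCast_atTop_atTop (R := ℝ))).eventually_lt_const
    (sub_pos.2 e2.1)
  obtain ⟨j0, hj0⟩ := eventually_atTop.1
    (v1.and (v2.and (v3.and (v4.and (v5.and (eventually_ge_atTop (Fintype.card ι)))))))
  obtain ⟨j, hj, hT⟩ := hT j0
  obtain ⟨w1, w2, w3, w4, w5, w6⟩ := hj0 j hj
  set e := (Fintype.equivFin ι).symm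
  refine absurd (hT a b c1 c2 _ s0 (s ∘ e) (g ∘ e) (l ∘ e) (w ∘ e) h0
    (fun k => ⟨(h1 _).1, (h1 _).2.1, w4 _⟩) (fun x hx => ?_) w6 e1.1 e2.1 e2.2
    fun x hx => ⟨w1 x hx, fun k => ⟨w2 _ x hx, w3 _ x hx⟩⟩) (not_le.2 w5)
  rw [h2 x hx, ← e.sum_comp]
  rfl

lemma reg' (hBR : IS2.St_BR) {N : ℕ} {g : Fin N → ℝ → ℝ} (h : Per (2 * π) κ)
    (h' : ∀ c, Per (2 * π) (g c)) (hG : G01 κ) {p q : ℝ} (hpq : p < q) :
    ∃ (a b : ℝ) (n : ℕ) (n' : Fin N → ℕ) (s : Fin n → ℝ → ℝ) (s' : ∀ c, Fin (n' c) → ℝ → ℝ)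
      (i : Fin n) (m : ℤ), a < b ∧ Br κ a b n s ∧ (∀ c, Br (g c) a b (n' c) (s' c)) ∧
      (∀ x ∈ Ioo a b, s i x + m * (2 * π) ∈ Ioo p q) ∧
      ∀ k ≠ i, ∀ x ∈ Ioo a b, sl κ (s k x) ≠ sl κ (s i x) := by
  obtain ⟨a1, b1, n, -, s, -, i, m, h1, B1, -, m1⟩ := reg hBR h h hG hpq
  obtain ⟨a2, b2, h2, u2, H2⟩ := pair h h B1 B1 h1
  obtain ⟨c, hc, r⟩ := (dense_iInter_of_isOpen (fun c => (hBR.1 _ (h' c)).1)
    fun c => (hBR.1 _ (h' c)).2.1).inter_open_nonempty _ isOpen_Ioo (nonempty_Ioo.2 h2)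
  choose ε hε n' s' hB using fun d => (hBR.1 _ (h' d)).2.2 c (mem_iInter.1 r d)
  obtain ⟨a, b, hab, hs⟩ := sub_nhds (inter_mem (isOpen_Ioo.mem_nhds hc) (iInter_mem.2 fun d =>
    isOpen_Ioo.mem_nhds (show c ∈ Ioo (c - ε d) (c + ε d) from
      ⟨by linarith [hε d], by linarith [hε d]⟩)))
  refine ⟨a, b, n, n', s, s', i, m, hab, mono B1 fun x hx => u2 (hs hx).1,
    fun d => mono (hB d) fun x hx => mem_iInter.1 (hs hx).2 d, fun x hx => m1 x (u2 (hs hx).1),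
    fun k hk x hx => ?_⟩
  rcases H2 i k with H | ⟨τ, β, hτ, H⟩
  · exact H x (hs hx).1
  · exact absurd (self h hG (mono B1 u2) h2 hτ fun x hx => (H x hx).1).symm hk

lemma per {l : ℝ} {k : ℝ → ℝ} (h : Per (2 * π) k) : Per (2 * π) (kh l k) :=
  ⟨h.smooth.div_const l, fun s => by rw [kh, kh, h.per]⟩

end S1

open S1 in
theorem st_s1 (hBR : IS2.St_BR) (hBRM : St_BRM) : St_S1 := by
  classical
  intro N κ l m k h hG hk hM hT t ε hε
  have h' : ∀ c, Per (2 * π) (kh (l c) (k c)) := fun c => per (hk c).2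
  obtain ⟨a1, b1, n, n', s, s', i0, z, h1, B1, B1', m1, ne⟩ := reg' hBR h h' hG
    (show t - ε < t + ε by linarith)
  obtain ⟨a, b, hab, u, H⟩ := dich (fun (p : (Σ c, Fin (n' c)) × Bool) x =>
    l p.1.1 * (deriv (kh (l p.1.1) (k p.1.1)) (s' p.1.1 p.1.2 x))⁻¹ -
      (cond p.2 1 (-1)) * (deriv κ (s i0 x))⁻¹) h1 fun p x hx =>
      (((cd (h' _) (B1' _) _ hx).const_mul _).sub ((cd h B1 _ hx).const_mul _)).continuousWithinAt
  have hB := mono B1 u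
  have hB' := fun c => mono (B1' c) u
  by_cases h0 : ∃ p : (Σ c, Fin (n' c)) × Bool, ∀ x ∈ Ioo a b,
      l p.1.1 * (deriv (kh (l p.1.1) (k p.1.1)) (s' p.1.1 p.1.2 x))⁻¹ -
        (cond p.2 1 (-1)) * (deriv κ (s i0 x))⁻¹ = 0
  · obtain ⟨⟨⟨c, r⟩, o⟩, H0⟩ := h0
    have hτ : (cond o 1 (-1) : ℝ) = 1 ∨ (cond o 1 (-1) : ℝ) = -1 := by cases o <;> simp
    dsimp only at H0
    generalize (cond o 1 (-1) : ℝ) = τ at H0 hτ
    have hd : ∀ x ∈ Ioo a b, HasDerivAt (fun x => l c * s' c r x - τ * s i0 x) 0 x := fun x hx =>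
      H0 x hx ▸ (((hB' c).der r x hx).const_mul _).sub ((hB.der i0 x hx).const_mul τ)
    obtain ⟨β, hβ⟩ := isOpen_Ioo.exists_is_const_of_deriv_eq_zero isPreconnected_Ioo
      (fun x hx => (hd x hx).differentiableAt.differentiableWithinAt) fun x hx => (hd x hx).deriv
    obtain ⟨x, hx⟩ := nonempty_Ioo.2 hab
    have hs := hasStrictDerivAt_of_hasDerivAt_of_continuousAt
      (eventually_of_mem (isOpen_Ioo.mem_nhds hx) fun y hy => hB.der i0 y hy) (cd h hB i0 hx)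
    have e : ∀ᶠ v in 𝓝 (s i0 x), ph (l c) (k c) (τ * v + β) = κ v := by
      rw [← hs.map_nhds_eq (inv_ne_zero (hB.ne i0 x hx)), eventually_map]
      filter_upwards [isOpen_Ioo.mem_nhds hx] with y hy
      have e1 : (τ * s i0 y + β) / l c = s' c r y := by
        rw [div_eq_iff (hk c).1.ne']
        linarith [hβ y hy]
      rw [ph, e1, hB.lev i0 y hy]
      exact (hB' c).lev r y hy
    obtain ⟨δ, hδ, e⟩ := Metric.eventually_nhds_iff.1 e
    have m2 := m1 x (u hx)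
    refine ⟨c, τ, β - τ * (z * (2 * π)), s i0 x + z * (2 * π), δ, hτ, hδ,
      abs_lt.2 ⟨by linarith [m2.1], by linarith [m2.2]⟩, fun v hv => ?_⟩
    have e2 := e (y := v - z * (2 * π)) (by rwa [Real.dist_eq, sub_right_comm, sub_sub])
    rw [← pz h _ z, sub_add_cancel] at e2
    rw [← e2]
    congr 1
    ring
  refine (tsm (ι := {i // i ≠ i0} ⊕ Σ c, Fin (n' c)) (Sum.elim (fun i => s i) fun p => s' p.1 p.2)
    (Sum.elim (fun _ => κ) fun p => kh (l p.1) (k p.1)) (Sum.elim (fun _ => 1) fun p => l p.1)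
    (Sum.elim (fun _ => -1) fun p => m p.1) hT hab (bq hB i0) (csl h hB i0) ?_ fun x hx => ?_).elim
  · rintro (i | ⟨c, r⟩)
    · exact ⟨mem_insert _ _, bq hB i, csl h hB i, fun x hx =>
        (one_mul _).trans_ne (ne i i.2 x (u hx))⟩
    refine ⟨mem_insert_of_mem _ ⟨c, rfl⟩, bq (hB' c) r, csl (h' c) (hB' c) r, fun x hx e => ?_⟩
    have H1 := fun o => (H (⟨c, r⟩, o)).resolve_left (fun e => h0 ⟨_, e⟩) x hx
    simp only [Sum.elim_inr, sl] at e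
    rw [← abs_inv, ← abs_inv, ← abs_of_pos (hk c).1, ← abs_mul, abs_eq_abs, abs_of_pos (hk c).1] at e
    rcases e with e | e
    · exact H1 true (by simp [e])
    · exact H1 false (by simp [e])
  · have hS := hBRM N κ m _ h h' hM a b n s n' s' hB hB' x hx
    rw [Fintype.sum_eq_add_sum_subtype_ne _ i0] at hS
    simp only [Fintype.sum_sum_type, Sum.elim_inl, Sum.elim_inr, Fintype.sum_sigma, neg_one_mul,
      Finset.sum_neg_distrib, ← Finset.mul_sum]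
    linarith

end Pool.Agent.Lib.IS3
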