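import Pool.Agent.Lib.IS3.Kit
import Pool.Agent.Lib.IS2.B_SB

/-! Equal moments and the markers give a dense set of common germs. -/

open scoped Real
open Complex Set

namespace Pool.Agent.Lib.IS3

open Pool.Agent.Lib.ISO Pool.Agent.Lib.IS2

theorem st_sb1 (hT : St_TONM) (hB : St_TSTM) (hS : St_S1) : St_SB1 := by
  intro C
  choose K W1 h1 using hT C
  choose W2 h2 using fun (M j : ℕ) => hB M (j + 1) (K M (j + 1 : ℕ)) (Nat.le_add_left _ _)
  refine ⟨fun j M => max (max (W1 M (j + 1 : ℕ)) (W2 M j)) (⌈2 * K M (j + 1 : ℕ)⌉₊ + 1),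
    fun N N' j l k l' k' i0 m c c' iv gm e g0 hm => ?_⟩
  refine hS N' _ l' m k' (c.per i0) g0 (fun a => ⟨c'.pos a, c'.per a⟩) hm fun j0 => ?_
  obtain ⟨c1, l0, hl⟩ := SB.ex_ra (c := 0) (by simp)
  let J := max (max j0 1) ⌈j⌉₊
  have hj : j ≤ ((J + 1 : ℕ) : ℝ) :=
    (Nat.le_ceil j).trans (Nat.cast_le.2 ((le_max_right _ _).trans (Nat.le_succ _)))
  obtain ⟨M, W, -, w, mk⟩ := gm J i0 l0 (by
    rw [hl]; exact SB.env_ok c1 ((le_max_right _ _).trans (le_max_left _ _)))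
  simp only [max_le_iff] at w
  rw [hl] at mk
  have d := c.mono hj
  have d' := c'.mono hj
  obtain ⟨a, a', t, t', b, -⟩ := h1 M _ W w.1.1 N N' l k l' k' i0 d d' iv mk e
  have J0 : (0 : ℝ) ≤ (J + 1 : ℕ) := Nat.cast_nonneg _
  refine ⟨J + 1, ((le_max_left _ _).trans (le_max_left _ _)).trans (Nat.le_succ _),
    h2 M J W w.1.2 _ (a i0) _ (c.per i0) (d.bk i0) ?_ ?_ ?_⟩
  · rw [← nq_one, ← e]; exact t i0
  · have w2 : (⌈2 * K M (J + 1 : ℕ)⌉₊ : ℝ) + 1 ≤ W := by exact_mod_cast w.2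
    have := Nat.le_ceil (2 * K M (J + 1 : ℕ))
    have W0 : (0 : ℝ) < W := lt_of_lt_of_le (by positivity) w2
    have : K M (J + 1 : ℕ) / W ≤ 1 / 2 := by rw [div_le_iff₀ W0]; linarith
    have := norm_sub_norm_le 1 (a i0)
    rw [norm_sub_rev, norm_one] at this
    linarith
  · rintro _ (rfl | ⟨x, rfl⟩)
    · exact ⟨k i0, _, _, funext fun s => (div_one _).symm, c.per i0, d.bk i0,
        e ▸ nq_nq J0 (d.lo i0) (d.hi i0) W, t i0⟩
    · exact ⟨k' x, _, _, rfl, c'.per x, d'.bk x, nq_nq J0 (d'.lo x) (d'.hi x) W, t' x⟩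

end Pool.Agent.Lib.IS3
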