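import Pool.Agent.Lib.IS3.Kit
import Pool.Agent.Lib.IS3.BlueG

/-! The boundary curves of an isospectral mate are congruent to the given ones. -/

open scoped Real ContDiff
open Complex Set

namespace Pool.Agent.Lib.IS3

open Pool.Agent.Lib.ISO Pool.Agent.Lib.IS2

namespace SBM

lemma per_ph {l : ℝ} (hl : 0 < l) {k : ℝ → ℝ} (h : Per (2 * π) k) : Per (2 * π * l) (ph l k) :=
  ⟨(h.smooth.comp (contDiff_id.div_const l)).div_const l, fun s => by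
    rw [ph, ph, add_div, mul_div_cancel_right₀ _ hl.ne', h.per]⟩

lemma unscale {N : ℕ} {l : ℝ} (hl : 0 < l) {k : ℝ → ℝ} {l' : Fin N → ℝ} {k' : Fin N → ℝ → ℝ}
    (h : Ger k fun a => ph (l⁻¹ * l' a) (k' a)) : Ger (ph l k) fun a => ph (l' a) (k' a) := by
  intro s ε hε
  obtain ⟨a, τ, β, u0, δ, hτ, hδ, h0, e⟩ := h (s / l) (ε / l) (by positivity)
  refine ⟨a, τ, l * β, l * u0, l * δ, hτ, by positivity, ?_, fun u hu => ?_⟩
  · rwa [lt_div_iff₀' hl, ← abs_of_pos hl, ← abs_mul, abs_of_pos hl, mul_sub,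
      mul_div_cancel₀ _ hl.ne'] at h0
  · have := e (u / l) (by
      rw [show u / l - u0 = (u - l * u0) / l by field_simp, abs_div, abs_of_pos hl, div_lt_iff₀' hl]
      exact hu)
    simp only [ph] at this ⊢
    rw [← this, show (τ * (u / l) + β) / (l⁻¹ * l' a) = (τ * u + l * β) / l' a by
      rw [div_eq_mul_inv, div_eq_mul_inv _ (l' a), mul_inv, inv_inv]; field_simp]
    rw [div_div, mul_right_comm, inv_mul_cancel₀ hl.ne', one_mul]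

lemma isp (hS : St_SCA) {Ω Ω' : Set ℂ} (h : Isp Ω Ω') {c : ℝ} (hc : 0 < c) :
    Isp ((fun z : ℂ => (c : ℂ) * z) '' Ω) ((fun z : ℂ => (c : ℂ) * z) '' Ω') :=
  ⟨(hS c Ω hc).1 h.1, (hS c Ω' hc).1 h.2.1, fun n => by
    rw [(hS c Ω hc).2.2.1, (hS c Ω' hc).2.2.1, h.2.2]⟩

end SBM

theorem st_sbm (hGEOM : St_GEOM) (hSCA : St_SCA) (hONE : St_ONEM) (hCST : St_CST) (hMOM : St_MOMW)
    (hSB : St_SB1) (hGEN : St_GEN) (hB2 : St_B2) (hB3 : St_B3) (hCGM : St_CGM) : St_SBM := by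
  obtain ⟨C, hO⟩ := hONE
  obtain ⟨W1, hM⟩ := hMOM C
  obtain ⟨W2, hS⟩ := hSB C
  obtain ⟨W3, hG⟩ := hGEN
  refine ⟨fun a b => max (W1 a b) (max (W2 a b) (W3 a b)), fun N Ω Ω' l G φ g isp gm => ?_⟩
  have g1 := gm.anti fun _ _ => le_max_left _ _
  have g2 := gm.anti fun _ _ => (le_max_left _ _).trans (le_max_right _ _)
  have g3 := gm.anti fun _ _ => (le_max_right _ _).trans (le_max_right _ _)
  obtain ⟨N', l', G', φ', g'⟩ := hGEOM.1 Ω' isp.2.1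
  obtain ⟨j, s, s', -⟩ := hCST _ _ _ _ _ _ _ _ _ _ g g' isp
  obtain ⟨gj, g0⟩ := hG N j _ _ s.cl g3
  have ger : ∀ i, Ger (ph (l i) (kp (G i))) fun a => ph (l' a) (kp (G' a)) := fun i => by
    have c0 := inv_pos.2 (g.1 i)
    obtain ⟨ψ, a⟩ := hGEOM.2.1 _ _ _ _ _ _ c0 g
    obtain ⟨ψ', a'⟩ := hGEOM.2.1 _ _ _ _ _ _ c0 g'
    have is := SBM.isp hSCA isp c0
    have iv := (hO _ _ _ _ _ _ _ _ _ _ a a' is).2.2.2
    obtain ⟨j1, t, t', c⟩ := hCST _ _ _ _ _ _ _ _ _ _ a a' is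
    have e := inv_mul_cancel₀ (g.1 i).ne'
    obtain ⟨m, hm⟩ := hM _ _ j1 _ _ _ _ i t t' c iv g1 e
    exact SBM.unscale (g.1 i) (hS _ _ j1 _ _ _ _ i m t.cl t'.cl iv g2 e (g0 i) hm)
  have pe : ∀ a, 0 < 2 * π * l' a ∧ Per (2 * π * l' a) (ph (l' a) (kp (G' a))) := fun a =>
    ⟨mul_pos Real.two_pi_pos (g'.1 a), SBM.per_ph (g'.1 a) (s'.cl.per a)⟩
  obtain ⟨e, τ, β, h⟩ := hB3 _ _ _ _ _ _ gj pe (hB2 _ _ _ _ _ _ gj pe (by
    rw [← Finset.mul_sum, ← Finset.mul_sum, (hO _ _ _ _ _ _ _ _ _ _ g g' isp).2.2.1]) ger)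
  obtain ⟨r, p, hp, q⟩ := hCGM.1 _ _ _ _ _ _ _ _ _ _ e τ (fun i => β i / l i) g g' fun i => by
    obtain ⟨h1, h2, h3⟩ := h i
    have el : l' (e i) = l i := mul_left_cancel₀ Real.two_pi_pos.ne' h1
    have l0 := (g.1 i).ne'
    refine ⟨el, h2, fun t => ?_⟩
    have := h3 (l i * t)
    simp only [ph, el] at this
    rwa [div_left_inj' l0, mul_div_cancel_left₀ _ l0,
      show (τ i * (l i * t) + β i) / l i = τ i * t + β i / l i by field_simp] at this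
  exact ⟨r, p, φ', hp, q⟩

end Pool.Agent.Lib.IS3
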