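import Pool.Agent.Lib.IS3.BlueG
import Pool.Agent.Lib.MP_312682_mp.Wind

/-! Free segments between different boundary curves of a connected domain leave inwards. -/

open scoped ContDiff ComplexConjugate Topology Real
open Complex MeasureTheory Set Filter Metric

noncomputable section

namespace Pool.Agent.Lib.IS3

open Pool.Agent.Lib.ISO Pool.Agent.Lib.IS2
open Pool.Agent.Lib.MP_312682_mp

namespace SCL

variable {Ω : Set ℂ} {ι : Type} [Fintype ι] {γ : ι → ℝ → ℂ} {L : ι → ℝ} {φ : ℂ → ℝ}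

/-- the winding number jumps across a boundary curve -/
lemma jump (h : Geo Ω γ L φ) (hc : IsPreconnected Ω) (i : ι) : ∃ δ > 0,
    (∀ p : ℂ, p.im ∈ Ioo 0 δ → Phi (γ i) p ∈ Ω) ∧ ∀ p : ℂ, p.im ∈ Ioo (-δ) 0 → ∀ z ∈ Ω,
      wn (γ i) (L i) (Phi (γ i) p) ≠ wn (γ i) (L i) z := by
  obtain ⟨δ, h1, h2⟩ := h.fam
  have hδ := h1.dpos
  have c := h.cv i
  refine ⟨δ, hδ, fun p hp => (h1.col i).inside _ hp, fun p hp z hz => ?_⟩
  have p1 : ∀ s x : ℝ, x ∈ Ioo 0 δ → φ (Phi (γ i) (s + x * I)) < 0 := fun s x hx =>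
    h.mem.1 ((h1.col i).inside _ (by simpa [strip] using hx))
  have p2 : ∀ s x : ℝ, x ∈ Ioo 0 δ → 0 < φ (Phi (γ i) (s + (-x : ℝ) * I)) := fun s x hx =>
    h2 i _ (by simpa [and_comm] using hx)
  have hm : δ / 2 ∈ Ioo 0 δ := ⟨by linarith, by linarith⟩
  have tr := c.torus (half_pos hδ) fun s t x y hx hy e e' => by
    have e2 := congrArg φ e'
    rcases hx.eq_or_lt with rfl | hx
    · have := p2 t y ⟨by linarith, by linarith⟩
      rw [← e2] at this
      simp [Phi_real, h.z0] at this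
    · have a := p1 s x ⟨hx, by linarith⟩
      rcases hy.eq_or_lt with rfl | hy
      · rw [e2] at a
        simp [Phi_real, h.z0] at a
      · linarith [p2 t y ⟨hy, by linarith⟩]
  have cv : Convex ℝ {p : ℂ | p.im ∈ Ioo (-δ) 0} :=
    (convex_Ioo (-δ) 0).linear_preimage imCLM.toLinearMap
  rw [c.wn_const hc (h.not_mem i) (h.mem.2 (p1 0 _ hm)) hz,
    c.wn_const (S := Phi (γ i) '' {p : ℂ | p.im ∈ Ioo (-δ) 0})
      (cv.isPreconnected.image _ c.sPhi.continuous.continuousOn) (by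
        rintro t ⟨u, hu, e⟩
        have := h2 i u hu
        rw [e, h.z0] at this
        exact this.false) ⟨_, by simpa using hδ, rfl⟩ ⟨p, hp, rfl⟩] at tr
  intro e
  rw [e] at tr
  rcases h.dich hc i hz with ⟨a, b⟩ | ⟨a, b⟩
  · rw [a, b] at tr
    have := congrArg im tr
    simp at this
  · rw [a, b] at tr
    have := congrArg im tr
    simp at this

/-- the defining function increases in a direction pointing to the outer side -/
lemma out (h : Geo Ω γ L φ) (i : ι) (s : ℝ) {v : ℂ} (hv : rdot (I * deriv (γ i) s) v < 0) :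
    ∀ᶠ u : ℝ in 𝓝[>] 0, 0 < φ (γ i s + u * v) := by
  have c := h.cv i
  have dφ := h.smooth.differentiable (by simp)
  have hT : fderiv ℝ φ (γ i s) (deriv (γ i) s) = 0 := by
    have a := (dφ (γ i s)).hasFDerivAt.comp_hasDerivAt s (c.hd0 s)
    have b : (φ ∘ γ i) = fun _ => 0 := funext fun t => h.z0 i t
    rw [b] at a
    exact a.unique (hasDerivAt_const _ _)
  have u1 := c.sq_add s
  set T := deriv (γ i) s with hT'
  have dec : v = rdot T v • T + rdot (I * T) v • (I * T) := by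
    apply Complex.ext <;> simp [rdot]
    · linear_combination (-v.re) * u1
    · linear_combination (-v.im) * u1
  have pos : 0 < fderiv ℝ φ (γ i s) v := by
    rw [dec, map_add, map_smul, map_smul, hT, smul_zero, zero_add, smul_eq_mul]
    exact mul_pos_of_neg_of_neg hv (h.neg i s)
  have d1 : HasDerivAt (fun u : ℝ => γ i s + u * v) v 0 := by
    simpa using ((hasDerivAt_id (0 : ℝ)).ofReal_comp.mul_const v).const_add (γ i s)
  have d2 : HasDerivAt (fun u : ℝ => φ (γ i s + u * v)) (fderiv ℝ φ (γ i s) v) 0 := by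
    have a := (dφ (γ i s + (0 : ℝ) * v)).hasFDerivAt.comp_hasDerivAt (0 : ℝ) d1
    simpa [Function.comp_def] using a
  exact (sign_of_deriv d2 (by simpa using h.z0 i s) pos).1

lemma main (h : Geo Ω γ L φ) (hc : IsPreconnected Ω) {i k : ι} (hik : i ≠ k) (s t : ℝ)
    (hs : ∀ z ∈ openSegment ℝ (γ i s) (γ k t), ∀ r, z ≠ γ i r) :
    0 ≤ rdot (I * deriv (γ i) s) (γ k t - γ i s) := by
  by_contra hv
  rw [not_le] at hv
  have c := h.cv i
  obtain ⟨δ, hδ, j1, j2⟩ := jump h hc i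
  set v := γ k t - γ i s with hv'
  -- the half open segment misses the curve
  have miss : ∀ r, γ i r ∉ (fun u : ℝ => γ i s + u * v) '' Ioc 0 1 := by
    rintro r ⟨u, hu, e⟩
    rcases hu.2.eq_or_lt with rfl | h1
    · refine hik (h.disj i k r t ?_)
      rw [← e, hv']; simp
    · refine hs _ ?_ r e
      rw [openSegment_eq_image']
      exact ⟨u, ⟨hu.1, h1⟩, by simp [hv']⟩
  -- a point of the segment in the outer strip
  have nb : Phi (γ i) '' {p : ℂ | p.im ∈ Ioo (-δ) δ} ∈ 𝓝 (γ i s) :=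
    c.toCv0.nhds_sub s ((isOpen_Ioo.preimage continuous_im).mem_nhds (by simpa using hδ))
  have t0 : Tendsto (fun u : ℝ => γ i s + u * v) (𝓝[>] 0) (𝓝 (γ i s)) :=
    (Continuous.tendsto' (by fun_prop) 0 _ (by simp)).mono_left nhdsWithin_le_nhds
  obtain ⟨u, ⟨a1, p, hp, e⟩, a3⟩ :=
    (((out h i s hv).and (t0.eventually nb)).and (Ioc_mem_nhdsGT one_pos)).exists
  have hp0 : p.im < 0 := by
    rcases lt_trichotomy p.im 0 with h0 | h0 | h0
    · exact h0
    · rw [← e, show Phi (γ i) p = γ i p.re by simp [Phi, h0], h.z0] at a1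
      exact a1.false.elim
    · have := h.mem.1 (j1 p ⟨h0, hp.2⟩)
      rw [e] at this
      linarith
  have w1 : wn (γ i) (L i) (Phi (γ i) p) = wn (γ i) (L i) (γ k t) := by
    refine c.wn_const (isPreconnected_Ioc.image _ (by fun_prop)) miss ⟨u, a3, e.symm⟩
      ⟨1, ⟨one_pos, le_rfl⟩, by simp [hv']⟩
  -- a ball at the end point
  have cl : IsClosed (range (γ i)) :=
    (Function.Periodic.compact_of_continuous c.per c.pos.ne' c.smooth.continuous).isClosed
  obtain ⟨r, hr, hb⟩ := Metric.isOpen_iff.1 cl.isOpen_compl (γ k t) (by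
    rintro ⟨r, e⟩
    exact hik (h.disj i k r t e))
  obtain ⟨δ', hδ', k1, -⟩ := jump h hc k
  have t1 : Tendsto (fun u : ℝ => Phi (γ k) (t + u * I)) (𝓝[>] 0) (𝓝 (γ k t)) :=
    (Continuous.tendsto' ((h.cv k).sPhi.continuous.comp (by fun_prop)) 0 _
      (by simp [Phi_real])).mono_left nhdsWithin_le_nhds
  obtain ⟨x, b1, b2⟩ := ((t1.eventually (ball_mem_nhds _ hr)).and (Ioo_mem_nhdsGT hδ')).exists
  refine j2 p ⟨hp.1, hp0⟩ _ (k1 (t + x * I) (by simpa using b2)) (w1.trans ?_)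
  exact c.wn_const (convex_ball _ r).isPreconnected (fun q hq => hb hq ⟨q, rfl⟩)
    (mem_ball_self hr) b1

end SCL

theorem st_scl : St_SCL := by
  intro N Ω l G φ ⟨hl, h⟩ hc x y hxy hs
  have e : ∀ (i : Fin N) (t : ℝ), l i * t / l i = t := fun i t => mul_div_cancel_left₀ _ (hl i).ne'
  have m := SCL.main h hc.isPreconnected hxy (l x.1 * x.2) (l y.1 * y.2) (fun z hz r => by
    simp only [e] at hz
    exact hs z hz (x.1, r / l x.1))
  simp only [e] at m
  have c := h.cv x.1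
  have d : deriv (scm l G x.1) x.2 =
      l x.1 * deriv (fun s => l x.1 * G x.1 (s / l x.1)) (l x.1 * x.2) := by
    have a := (c.hd0 (l x.1 * x.2)).scomp x.2 ((hasDerivAt_id x.2).const_mul (l x.1))
    have b : ((fun s => (l x.1 : ℂ) * G x.1 (s / l x.1)) ∘ HMul.hMul (l x.1)) = scm l G x.1 := by
      funext u
      simp [scm, sc, e]
    rw [b] at a
    rw [a.deriv]; simp
  have k : ∀ (a : ℝ) (T v : ℂ), rdot (I * (a * T)) v = a * rdot (I * T) v := fun a T v => by
    simp [rdot]; ring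
  show 0 ≤ rdot (I * deriv (scm l G x.1) x.2) _
  rw [d, k]
  exact mul_nonneg (hl _).le m

end Pool.Agent.Lib.IS3
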