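import Pool.Agent.Lib.IS3.Kit

/-! The trace splits into the traces of the single curves and the crossing chains. -/

open scoped ContDiff ComplexConjugate Topology Real
open Complex MeasureTheory Set Filter

noncomputable section

namespace Pool.Agent.Lib.IS3

open Pool.Agent.Lib.ISO Pool.Agent.Lib.IS2

namespace SPL

theorem term {N n : ℕ} {μ : ℂ} {P : MQ N}
    (h : Integrable (fun v => (1 - wX id : Wg N) (n + 2) v * IM μ P n v) (bm N (n + 2))) :
    Tc (1 - wX id) μ P n = ∑ i, Tn (fun _ _ => 1) μ (P i) n := by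
  rw [Tc, integral_bm h]
  refine (Finset.sum_of_injOn (fun (i : Fin N) (_ : Fin (n + 2)) => i)
    (fun a _ b _ e => congrFun e 0) (fun _ _ => Finset.mem_univ _) (fun σ _ hσ => ?_)
    fun i _ => ?_).symm
  · have e : ∀ v, wX id (n + 2) (lab σ v) = 1 := fun v => if_pos (by
      by_contra a
      push Not at a
      exact hσ ⟨σ 0, by simp, funext fun b => a 0 b⟩)
    simp [e]
  · have e : ∀ v, wX id (n + 2) (lab (fun _ => i) v) = 0 := fun v =>
      if_neg fun ⟨_, _, a⟩ => a rfl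
    simp only [Tn, Pi.sub_apply, Pi.one_apply, e, sub_zero, IM_lab]

end SPL

theorem st_spl (hW : St_LHW) (hL : St_LH1) (hH : St_HOLm) : St_SPL := by
  intro j q hq
  obtain ⟨C1, h1, a⟩ := hW j q hq
  obtain ⟨C2, h2, b⟩ := hL j q hq
  obtain ⟨C3, h3, c⟩ := hH j j q (by omega)
  refine ⟨max (max h1 h2) (max h3 1), fun h hh N Γ hΓ μ hμ => ?_⟩
  simp only [max_le_iff] at hh
  obtain ⟨⟨a1, a2⟩, a3, a4⟩ := hh
  have o0 : 0 ≤ 2 / om q h := by
    have : 0 < h := by linarith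
    unfold om
    positivity
  have e := (((a h a1 N Γ _ 0 hΓ (wm_wXc id) (lg_zero _ _)).1 _ hΓ.cpm_mem
    (by simpa [nmm, nm_zero] using o0)).2.2 μ hμ).2.2 _ (wm_wX id)
  rw [sub_add_cancel] at e
  refine e.trans (congrArg (· + _) ?_)
  simp only [TW, TT]
  rw [← Summable.tsum_finsetSum fun i _ => ((b h a2 (Γ i) (fun _ _ => 1) 0 (hΓ.n1 i)
    (fun _ => ⟨measurable_const, fun _ => by simp, fun _ _ => rfl⟩)
    fun _ _ _ => Finset.sum_nonneg fun _ _ => norm_nonneg _).1 _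
    (cp_mem (hΓ.smooth i) (hΓ.per i)) (by simpa [nm_zero] using o0)).2.2.1 μ hμ]
  refine tsum_congr fun n => ?_
  rw [SPL.term ((c h a3 N Γ 0 _ n hΓ (wm_wXc id)).1 _ μ 0 hΓ.adm0 hμ (lg_zero _ _)).1,
    Finset.mul_sum]
  rfl

end Pool.Agent.Lib.IS3
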