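import Pool.Agent.Lib.IS3.BlueG

/-! A curve close to a circle bounds a domain. -/

open scoped ContDiff ComplexConjugate Topology Real
open Complex Set Filter

noncomputable section

namespace Pool.Agent.Lib.IS3

open Pool.Agent.Lib.MP_312682_mp Pool.Agent.Lib.IS2

namespace STAR

theorem per_eq {R : ℝ → ℝ} (hR : Function.Periodic R (2 * π)) {a b : ℝ}
    (h : exp (a * I) = exp (b * I)) : R a = R b := by
  obtain ⟨n, hn⟩ := exp_eq_exp_iff_exists_int.1 h
  have := congrArg im hn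
  simp only [mul_im, ofReal_re, I_im, mul_one, ofReal_im, I_re, mul_zero, add_zero, add_im,
    intCast_re, intCast_im, mul_re, re_ofNat, im_ofNat, zero_mul, sub_zero] at this
  rw [this, hR.int_mul n b]

theorem cd_arg {w : ℂ} (h : w ∈ slitPlane) : ContDiffAt ℝ ∞ arg w := by
  have : ContDiffAt ℝ ∞ (fun w => (log w).im) w :=
    imCLM.contDiff.contDiffAt.comp w ((contDiffAt_log h).restrict_scalars ℝ)
  simpa only [log_im] using this

theorem exp_arg {w : ℂ} {r a : ℝ} (hr : 0 < r) (h : w = r * exp (a * I)) :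
    exp (arg w * I) = exp (a * I) := by
  have h1 := norm_mul_exp_arg_mul_I w
  have h2 : ‖w‖ = r := by rw [h, norm_mul, norm_exp_ofReal_mul_I, norm_real, mul_one,
    Real.norm_of_nonneg hr.le]
  rw [h2] at h1
  exact mul_left_cancel₀ (ofReal_ne_zero.2 hr.ne') (h1.trans h)

theorem cd_rt {R : ℝ → ℝ} (hs : ContDiff ℝ ∞ R) (hR : Function.Periodic R (2 * π)) {w : ℂ}
    (h : w ≠ 0) : ContDiffAt ℝ ∞ (fun w => R (arg w)) w := by
  rcases mem_slitPlane_or_neg_mem_slitPlane h with h1 | h1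
  · exact hs.contDiffAt.comp w (cd_arg h1)
  · have : ContDiffAt ℝ ∞ (fun w : ℂ => R (arg (-w) + π)) w :=
      hs.contDiffAt.comp w (((cd_arg h1).comp w contDiffAt_id.neg).add contDiffAt_const)
    refine this.congr_of_eventuallyEq ?_
    filter_upwards [isOpen_ne.mem_nhds h] with y hy
    refine per_eq hR (exp_arg (norm_pos_iff.2 hy) ?_)
    rw [ofReal_add, add_mul, exp_add, exp_pi_mul_I, ← norm_neg, ← mul_assoc,
      norm_mul_exp_arg_mul_I]
    ring

/-- polar coordinates along the curve -/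
theorem polar {W : ℝ → ℂ} (hW : ContDiff ℝ ∞ W) (hp : Function.Periodic W (2 * π))
    (h1 : ∀ s : ℝ, ‖W s - exp (I * s)‖ ≤ 1 / 10) (h2 : ∀ s, 0 < (deriv W s * conj (W s)).im) :
    ∃ Θ : ℝ ≃o ℝ, ContDiff ℝ ∞ Θ.symm ∧ (∀ s, Θ (s + 2 * π) = Θ s + 2 * π) ∧
      ∀ s, W s = ‖W s‖ * exp (Θ s * I) := by
  set q : ℝ → ℂ := fun s => W s * exp (-(I * s)) with hq
  have e1 : ∀ s : ℝ, exp (I * s) * exp (-(I * s)) = 1 := fun s => by
    rw [← exp_add, add_neg_cancel, exp_zero]
  have n1 : ∀ s : ℝ, ‖exp (-(I * s))‖ = 1 := fun s => by simp [norm_exp]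
  have sl : ∀ s, q s ∈ slitPlane := fun s => by
    have : q s = 1 + (W s - exp (I * s)) * exp (-(I * s)) := by rw [sub_mul, e1]; ring
    rw [this]
    exact mem_slitPlane_of_norm_lt_one (by rw [norm_mul, n1]; linarith [h1 s])
  have w0 : ∀ s, W s ≠ 0 := fun s h => slitPlane_ne_zero (sl s) (by simp [hq, h])
  have cr : ContDiff ℝ ∞ fun s : ℝ => (s : ℂ) := ofRealCLM.contDiff
  have cq : ContDiff ℝ ∞ q := hW.mul (contDiff_const.mul cr).neg.cexp
  have cT : ContDiff ℝ ∞ fun s => s + arg (q s) :=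
    contDiff_id.add (contDiff_iff_contDiffAt.2 fun s => (cd_arg (sl s)).comp s cq.contDiffAt)
  have hd : ∀ s, HasDerivAt (fun s => s + arg (q s)) ((deriv W s * conj (W s)).im / normSq (W s))
      s := fun s => by
    have d1 : HasDerivAt q (deriv W s * exp (-(I * s)) + W s * (exp (-(I * s)) * -(I * 1))) s :=
      (hW.differentiable (by simp) s).hasDerivAt.mul
        ((hasDerivAt_id s).ofReal_comp.const_mul I).neg.cexp
    have d2 := (hasDerivAt_id s).add (imCLM.hasFDerivAt.comp_hasDerivAt s (d1.clog_real (sl s)))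
    have e : (deriv W s * exp (-(I * s)) + W s * (exp (-(I * s)) * -(I * 1))) / q s =
        deriv W s * conj (W s) / normSq (W s) - I := by
      have := w0 s
      have := exp_ne_zero (-(I * s))
      have c0 : conj (W s) ≠ 0 := by simpa using w0 s
      rw [← mul_conj, hq]
      field_simp
      ring
    rw [e] at d2
    simpa [Function.comp_def, log_im, div_ofReal_im, Pi.add_def] using d2
  have v0 : ∀ s, 0 < (deriv W s * conj (W s)).im / normSq (W s) := fun s =>
    div_pos (h2 s) (normSq_pos.2 (w0 s))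
  have hm : StrictMono fun s => s + arg (q s) :=
    strictMono_of_deriv_pos fun s => by rw [(hd s).deriv]; exact v0 s
  have hs : Function.Surjective fun s => s + arg (q s) := cT.continuous.surjective
    (tendsto_atTop_add_right_of_le _ (-π) tendsto_id fun s => (neg_pi_lt_arg _).le)
    (tendsto_atBot_add_right_of_ge _ π tendsto_id fun s => arg_le_pi _)
  refine ⟨hm.orderIsoOfSurjective _ hs, Homeomorph.contDiff_symm_deriv
    (hm.orderIsoOfSurjective _ hs).toHomeomorph (fun s => (v0 s).ne') hd cT, fun s => ?_,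
    fun s => ?_⟩
  · have : q (s + 2 * π) = q s := by
      simp only [hq, hp s]
      congr 1
      exact exp_eq_exp_iff_exists_int.2 ⟨-1, by push_cast; ring⟩
    show s + 2 * π + arg (q (s + 2 * π)) = s + arg (q s) + 2 * π
    rw [this]; ring
  · show W s = ‖W s‖ * exp (((s + arg (q s) : ℝ) : ℂ) * I)
    have a1 := norm_mul_exp_arg_mul_I (q s)
    have a2 : ‖q s‖ = ‖W s‖ := by rw [hq, norm_mul, n1, mul_one]
    rw [a2] at a1
    rw [ofReal_add, add_mul, exp_add, mul_left_comm, a1, hq, mul_left_comm, mul_comm _ I, e1,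
      mul_one]

theorem core {W : ℝ → ℂ} (hW : ContDiff ℝ ∞ W) (hp : Function.Periodic W (2 * π))
    (h1 : ∀ s : ℝ, ‖W s - exp (I * s)‖ ≤ 1 / 10)
    (h2 : ∀ s : ℝ, ‖deriv W s - I * exp (I * s)‖ ≤ 1 / 10) :
    (∀ s t, W s = W t → ∃ n : ℤ, t = s + n * (2 * π)) ∧ ∃ φ : ℂ → ℝ, ContDiff ℝ ∞ φ ∧
      (∀ w, φ w = 0 ↔ ∃ s, W s = w) ∧ (∀ s, fderiv ℝ φ (W s) (I * deriv W s) < 0) ∧
      ∀ w, φ w < 0 → ‖w‖ ≤ 2 := by
  have n1 : ∀ s : ℝ, ‖exp (I * s)‖ = 1 := fun s => by simp [norm_exp]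
  have b1 : ∀ s, 9 / 10 ≤ ‖W s‖ ∧ ‖W s‖ ≤ 11 / 10 := fun s => by
    have := abs_le.1 ((abs_norm_sub_norm_le _ _).trans (h1 s))
    rw [n1] at this
    constructor <;> linarith [this.1, this.2]
  have D0 : ∀ s, 0 < (deriv W s * conj (W s)).im := fun s => by
    have e : deriv W s * conj (W s) = I * (exp (I * s) * conj (exp (I * s))) +
        (I * exp (I * s) * conj (W s - exp (I * s)) + (deriv W s - I * exp (I * s)) * conj (W s)) := by
      rw [map_sub]; ring
    have a := (abs_le.1 ((abs_im_le_norm _).trans (norm_add_le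
      (I * exp (I * s) * conj (W s - exp (I * s))) ((deriv W s - I * exp (I * s)) * conj (W s))))).1
    rw [norm_mul, norm_mul, norm_mul, norm_I, n1, norm_conj, norm_conj] at a
    rw [e, mul_conj, normSq_eq_norm_sq, n1, add_im]
    have := mul_le_mul (h2 s) (b1 s).2 (norm_nonneg _) (by norm_num)
    have := h1 s
    simp only [one_pow, ofReal_one, mul_one, I_im]
    linarith
  obtain ⟨Θ, c1, c2, c3⟩ := polar hW hp h1 D0
  have w0 : ∀ s, 0 < ‖W s‖ := fun s => by linarith [(b1 s).1]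
  set R : ℝ → ℝ := fun θ => ‖W (Θ.symm θ)‖ ^ 2 with hR
  have sR : ContDiff ℝ ∞ R := (hW.comp c1).norm_sq ℝ
  have pR : Function.Periodic R (2 * π) := fun θ => by
    obtain ⟨s, rfl⟩ := Θ.surjective θ
    simp only [hR, ← c2, Θ.symm_apply_apply, hp s]
  have bR : ∀ θ, |R θ - 1| ≤ 1 / 4 := fun θ => by
    have := b1 (Θ.symm θ)
    rw [abs_le, hR]
    constructor <;> nlinarith [this.1, this.2]
  have aR : ∀ s, ∀ t : ℝ, 0 < t → R (arg (t * W s)) = ‖W s‖ ^ 2 := fun s t ht => by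
    rw [per_eq pR (exp_arg (mul_pos ht (w0 s)) (a := Θ s) (by
      rw [ofReal_mul, mul_assoc, ← c3])), hR]
    simp
  set φ : ℂ → ℝ := fun w =>
    ‖w‖ ^ 2 - 1 - Real.smoothTransition (4 * ‖w‖ ^ 2 - 1) * (R (arg w) - 1) with hφ
  have big : ∀ w, 1 / 2 ≤ ‖w‖ ^ 2 → φ w = ‖w‖ ^ 2 - R (arg w) := fun w h => by
    simp only [hφ]
    rw [Real.smoothTransition.one_of_one_le (by linarith)]
    ring
  have bd : ∀ w, |φ w - (‖w‖ ^ 2 - 1)| ≤ 1 / 4 := fun w => by
    simp only [hφ]
    rw [sub_sub_cancel_left, abs_neg, abs_mul, abs_of_nonneg (Real.smoothTransition.nonneg _)]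
    exact (mul_le_of_le_one_left (abs_nonneg _) (Real.smoothTransition.le_one _)).trans (bR _)
  have sq : ContDiff ℝ ∞ fun w : ℂ => ‖w‖ ^ 2 := contDiff_norm_sq ℝ
  have sφ : ContDiff ℝ ∞ φ := contDiff_iff_contDiffAt.2 fun w => by
    by_cases h : w = 0
    · refine (sq.sub contDiff_const).contDiffAt.congr_of_eventuallyEq (f := fun w => ‖w‖ ^ 2 - 1) ?_
      filter_upwards [sq.continuous.continuousAt.eventually
        (gt_mem_nhds (show ‖w‖ ^ 2 < 1 / 4 by simp [h]))] with y hy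
      simp only [hφ]
      rw [Real.smoothTransition.zero_of_nonpos (by linarith), zero_mul, sub_zero]
    · exact (sq.sub contDiff_const).contDiffAt.sub ((Real.smoothTransition.contDiff.comp
        ((contDiff_const.mul sq).sub contDiff_const)).contDiffAt.mul
          ((cd_rt sR pR h).sub contDiffAt_const))
  have z0 : ∀ s, φ (W s) = 0 := fun s => by
    have := aR s 1 one_pos
    rw [ofReal_one, one_mul] at this
    rw [big _ (by nlinarith [(b1 s).1]), this, sub_self]
  refine ⟨fun s t h => ?_, φ, sφ, fun w => ⟨fun h => ⟨Θ.symm (arg w), ?_⟩, ?_⟩, fun s => ?_,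
    fun w h => ?_⟩
  · have e := (exp_arg (w0 t) (c3 t)).symm.trans (h ▸ exp_arg (w0 s) (c3 s))
    obtain ⟨n, hn⟩ := exp_eq_exp_iff_exists_int.1 e
    have := congrArg im hn
    simp only [mul_im, ofReal_re, I_im, mul_one, ofReal_im, I_re, mul_zero, add_zero, add_im,
      intCast_re, intCast_im, mul_re, re_ofNat, im_ofNat, zero_mul, sub_zero] at this
    have p : Function.Periodic (fun s => Θ s - s) (2 * π) := fun s => by
      simp only [c2]; ring
    have := p.int_mul n s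
    exact ⟨n, Θ.injective (by linarith)⟩
  · have a := (abs_le.1 (bd w)).2
    rw [big w (by have := (abs_le.1 (bd w)).2; linarith), sub_eq_zero, hR,
      sq_eq_sq₀ (norm_nonneg _) (norm_nonneg _)] at h
    rw [c3, Θ.apply_symm_apply, ← h, norm_mul_exp_arg_mul_I]
  · rintro ⟨s, rfl⟩
    exact z0 s
  · have dφ := (sφ.differentiable (by simp) (W s)).hasFDerivAt
    have t1 : fderiv ℝ φ (W s) (deriv W s) = 0 :=
      (dφ.comp_hasDerivAt s (hW.differentiable (by simp) s).hasDerivAt).unique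
        (by rw [show φ ∘ W = fun _ => 0 from funext z0]; exact hasDerivAt_const _ _)
    have t2 : fderiv ℝ φ (W s) (W s) = 2 * ‖W s‖ ^ 2 := by
      have l : HasDerivAt (fun t : ℝ => (t : ℂ) * W s) (W s) 1 := by
        simpa using (hasDerivAt_id (1 : ℝ)).ofReal_comp.mul_const (W s)
      have d1 := HasFDerivAt.comp_hasDerivAt_of_eq (1 : ℝ) dφ l (by simp)
      have d2 : HasDerivAt (fun t : ℝ => t ^ 2 * ‖W s‖ ^ 2 - ‖W s‖ ^ 2) (2 * ‖W s‖ ^ 2) 1 := by
        simpa using ((hasDerivAt_pow 2 (1 : ℝ)).mul_const (‖W s‖ ^ 2)).sub_const (‖W s‖ ^ 2)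
      refine d1.unique (d2.congr_of_eventuallyEq ?_)
      filter_upwards [lt_mem_nhds (show (9 / 10 : ℝ) < 1 by norm_num)] with t ht
      have e : ‖(t : ℂ) * W s‖ ^ 2 = t ^ 2 * ‖W s‖ ^ 2 := by
        rw [norm_mul, mul_pow, norm_real, Real.norm_eq_abs, sq_abs]
      have : 1 / 2 ≤ t ^ 2 * ‖W s‖ ^ 2 := by
        have a : 81 / 100 ≤ t ^ 2 := by nlinarith
        have b : 81 / 100 ≤ ‖W s‖ ^ 2 := by nlinarith [(b1 s).1]
        nlinarith
      rw [Function.comp_apply, big _ (e ▸ this), e, aR s t (by linarith)]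
    have n2 : 0 < normSq (deriv W s) := normSq_pos.2 fun h => by simpa [h] using D0 s
    have e : (deriv W s * conj (W s)).im • (I * deriv W s) =
        (deriv W s * conj (W s)).re • deriv W s - normSq (deriv W s) • W s := by
      apply Complex.ext <;> simp [normSq_apply] <;> ring
    have := congrArg (fderiv ℝ φ (W s)) e
    rw [map_smul, map_sub, map_smul, map_smul, t1, t2, smul_eq_mul, smul_eq_mul, smul_eq_mul]
      at this
    refine neg_of_mul_neg_right (a := (deriv W s * conj (W s)).im) ?_ (D0 s).le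
    have := mul_pos n2 (pow_pos (w0 s) 2)
    linarith
  · have := (abs_le.1 (bd w)).1
    nlinarith [norm_nonneg w]

end STAR

open STAR in
theorem st_star : St_STAR := by
  refine ⟨1 / 10, by norm_num, fun H z u hu hH hp h1 h2 => ?_⟩
  have u0 : u ≠ 0 := fun h => by simp [h] at hu
  have dW : ∀ s, deriv (fun s => (H s - z) * u⁻¹) s = deriv H s * u⁻¹ := fun s => by
    rw [deriv_mul_const_field, deriv_sub_const]
  have nu : ∀ a : ℂ, ‖a * u⁻¹‖ = ‖a‖ := fun a => by rw [norm_mul, norm_inv, hu, inv_one, mul_one]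
  obtain ⟨a1, φ, a2, a3, a4, a5⟩ := core (W := fun s => (H s - z) * u⁻¹)
    ((hH.sub contDiff_const).mul contDiff_const) (fun s => by simp only [hp s])
    (fun s => (le_of_eq (by rw [← nu (H s - _)]; congr 1; field_simp; ring)).trans (h2 s).1)
    fun s => (le_of_eq (by rw [dW, ← nu (deriv H s - _)]; congr 1; field_simp)).trans (h2 s).2
  have cA : ContDiff ℝ ∞ fun x : ℂ => (x - z) * u⁻¹ :=
    (contDiff_id.sub contDiff_const).mul contDiff_const
  refine ⟨_, fun x => φ ((x - z) * u⁻¹), ⟨fun _ => ⟨⟨hH, h1⟩, Real.two_pi_pos, hp⟩,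
    fun _ _ _ _ _ => Subsingleton.elim _ _, fun _ s t h => a1 s t (by simp only [h]), a2.comp cA,
    rfl, fun x => (a3 _).trans ⟨fun ⟨s, h⟩ => ⟨0, s, ?_⟩, fun ⟨_, s, h⟩ => ⟨s, by rw [← h]⟩⟩,
    fun _ s => ?_, ?_⟩⟩
  · simpa [u0] using h
  · have dA : HasFDerivAt (fun x : ℂ => (x - z) * u⁻¹) _ (H s) :=
      ((hasFDerivAt_id (𝕜 := ℝ) (H s)).sub_const z).mul_const' u⁻¹
    have := ((a2.differentiable (by simp) ((H s - z) * u⁻¹)).hasFDerivAt.comp (H s) dA).fderiv
    rw [show (fun x => φ ((x - z) * u⁻¹)) = φ ∘ fun x => (x - z) * u⁻¹ from rfl, this]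
    have b := a4 s
    rw [dW, ← mul_assoc] at b
    simpa using b
  · refine (Metric.isBounded_closedBall (x := z) (r := 2)).subset fun x hx => ?_
    rw [mem_closedBall_iff_norm, ← nu]
    exact a5 _ hx

end Pool.Agent.Lib.IS3
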