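import Pool.Agent.Lib.IS3.Kit
import Pool.Agent.Lib.IS3.B_REPm
import Pool.Agent.Lib.IS2.B_LNK

/-! Row SYM: chains inside one cluster do not see the motion. -/

open scoped ContDiff ComplexConjugate Topology Real
open Complex MeasureTheory Set Filter

noncomputable section

namespace Pool.Agent.Lib.IS3

open Pool.Agent.Lib.ISO Pool.Agent.Lib.IS2

namespace SYM

variable {N : ℕ}

lemma mD_cp (Γ : MC N) (x y : XN N) :
    mD (cpm Γ) x y = (gp Γ y - gp Γ x, conj (gp Γ y - gp Γ x)) := by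
  simp [mD, cpm, cp, gp]

lemma mn_cp {Γ : MC N} (h : ∀ i, Differentiable ℝ (Γ i)) (x : XN N) :
    mn (cpm Γ) x = (-gn Γ x, conj (-gn Γ x)) := LNK.pn_cp (h _) _

lemma IM_eq (μ : ℂ) {Γ Γ' : MC N} (h : ∀ i, Differentiable ℝ (Γ i))
    (h' : ∀ i, Differentiable ℝ (Γ' i)) (M : ℂ →L[ℝ] ℂ) (hM : ∀ a b, rdot (M a) (M b) = rdot a b)
    (n : ℕ) (v w : Fin (n + 2) → XN N)
    (h1 : ∀ a b, gp Γ' (w a) - gp Γ' (w b) = M (gp Γ (v a) - gp Γ (v b)))
    (h2 : ∀ a, -gn Γ' (w a) = M (-gn Γ (v a))) : IM μ (cpm Γ') n w = IM μ (cpm Γ) n v := by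
  simp only [IM, mK, mS, mNd, mKd, mc, mD_cp, mn_cp h, mn_cp h', LNK.dot_cp, h1, h2, hM]

end SYM

theorem st_sym (hC : St_COV) : St_SYM := by
  intro N Γ cl r p μ hΓ hp hc
  have hd : ∀ i, Differentiable ℝ (Γ i) := fun i => (hΓ.smooth i).differentiable (by simp)
  have hs : ∀ i, ContDiff ℝ ∞ (actm r p Γ i) := fun i => act_smooth _ _ (hΓ.smooth i)
  have hd' : ∀ i, Differentiable ℝ (actm r p Γ i) := fun i => (hs i).differentiable (by simp)
  have hq : ∀ i, Function.Periodic (cpm (actm r p Γ) i) (2 * π) := fun i s => by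
    have : actm r p Γ i (s + 2 * π) = actm r p Γ i s := act_per _ _ (hΓ.per i) s
    simp only [cpm, cp, this]
  refine tsum_congr fun n => congrArg _ ?_
  have hF : Pw fun v : Fin (n + 2) → XN N =>
      (1 - wX cl) (n + 2) v * IM μ (cpm (actm r p Γ)) n v := fun v k => by
    have := REPm.IM_congr μ (cpm (actm r p Γ)) n v (fun i => (v i).2 + k i * (2 * π))
      (fun i => (hq _).int_mul (k i) _) fun i => (per_deriv' (hq _)).int_mul (k i) _
    exact congrArg ((1 - wX cl) (n + 2) v * ·) this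
  rw [Tc, Tc, ← (hC N (n + 2) _ hF).2 r]
  refine integral_congr_ae (Eventually.of_forall fun v => ?_)
  have e : (1 - wX cl) (n + 2) (fun i => fx r (v i)) = (1 - wX cl) (n + 2) v := rfl
  simp only [e]
  by_cases hv : ∃ a b, cl (v a).1 ≠ cl (v b).1
  · have : (1 - wX cl) (n + 2) v = 0 := by
      change 1 - wX cl (n + 2) v = 0
      rw [wX, if_pos hv, sub_self]
    rw [this, zero_mul, zero_mul]
  · have hv' : ∀ a, r (v a).1 = r (v 0).1 ∧ p (v a).1 = p (v 0).1 := fun a =>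
      hc _ _ (by by_contra h; exact hv ⟨a, 0, h⟩)
    refine congrArg _ (SYM.IM_eq μ hd hd' (ml (r (v 0).1) (p (v 0).1).1) (rdot_ml _ (hp _)) n v _
      (fun a b => ?_) fun a => ?_)
    · rw [gp_actm, gp_actm, (hv' a).1, (hv' a).2, (hv' b).1, (hv' b).2, mo_sub]
    · rw [gn_actm r p hd, (hv' a).1, (hv' a).2, map_neg]

end Pool.Agent.Lib.IS3
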