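import Pool.Agent.Lib.IS3.Kit
import Pool.Agent.Lib.IS3.BlueG

/-! The final assembly. -/

namespace Pool.Agent.Lib.IS3

theorem st_t3 (hDEN : St_DEN) (hTOP : St_TOP) (hGEOM : St_GEOM) (hSBM : St_SBM) (hCST : St_CST)
    (hGEN : St_GEN) (hGJF : St_GJF) (hSCL : St_SCL) (hPM : St_PM) (hCGM : St_CGM) : St_T3 :=
  fun n => by
  obtain ⟨W1, hS⟩ := hSBM
  obtain ⟨W2, hG⟩ := hGEN
  obtain ⟨hB, hD⟩ := hDEN n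
  obtain ⟨S, S1, S2, S3⟩ := hD fun a b => max (W1 a b) (W2 a b)
  refine ⟨S ∩ GP n, S1.inter (hTOP n).1, S2.inter_of_Gδ S1 (hTOP n).1 (hTOP n).2, ?_⟩
  rintro f ⟨f1, f2⟩ Ω Ω' h h' hd hf hs
  obtain ⟨σ, φ, g⟩ := hGEOM.2.2 n f Ω h hd hf
  have isp : Isp Ω Ω' := ⟨h, h', hs⟩
  obtain ⟨r, p, φ', hp, g'⟩ := hS n Ω Ω' _ _ φ g isp ((S3 f f1 σ).anti fun _ _ => le_max_left _ _)
  obtain ⟨j, s, s', c⟩ := hCST _ _ _ _ _ _ _ _ _ _ g g' isp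
  have gg : GG _ _ := (hG n j _ _ s.cl ((S3 f f1 σ).anti fun _ _ => le_max_right _ _)).1
  have gg' := (hGJF n _ _ r p (fun i => (s.ns i).nc.smooth) hp).2 gg
  exact hCGM.2 n Ω Ω' _ _ φ φ' r p g g' h.2.1 h'.2.1 hp
    (hPM n f f2 σ j r p ⟨s, gg, hSCL _ _ _ _ _ g h.2.1⟩ ⟨s', gg', hSCL _ _ _ _ _ g' h'.2.1⟩ hp c)

end Pool.Agent.Lib.IS3
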