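import Pool.Agent.Lib.IS3.B_TAYL1

/-! The Taylor step on a scaled curve. -/

open scoped ContDiff ComplexConjugate Topology Real
open Complex MeasureTheory Set Filter

noncomputable section

namespace Pool.Agent.Lib.IS3

open Pool.Agent.Lib.ISO Pool.Agent.Lib.IS2 Pool.Agent.Lib.IS2.TAY

open TAYL in
theorem st_tayl (hGH : IS2.St_GH) (hL : St_LH1) (hCUT : IS2.St_CUT) (hK : St_KILLL) (hH : St_H1L)
    (hLOC : St_LOC) (hR : St_RSP) : St_TAYL := by
  classical
  intro j K M p q hM hq hpq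
  rcases lt_or_ge j 1 with hj | hj
  · exact ⟨0, 0, fun h _ W n l G a R _ hG => absurd hG.nc.one_le (not_le.2 hj)⟩
  have j0 : 0 < j := by linarith
  obtain ⟨CG, hG⟩ := hGH
  obtain ⟨CL, a1, hL⟩ := hL j q (by omega)
  obtain ⟨Cc, hCc, -, hP⟩ := hCUT
  obtain ⟨B, hH⟩ := hH j
  obtain ⟨C1, a2, hH⟩ := hH K M q (by omega) hq
  obtain ⟨CK, a3, hK⟩ := hK j B q (2 * M + 6) (by omega)
  obtain ⟨CO, a4, hLOC⟩ := hLOC j (1 / (16 * j)) q (2 * M + 6) (by positivity) (by omega)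
  obtain ⟨CR, a5, hR⟩ := hR j p q (2 * M + 4) hpq
  set c1 : ℝ := j * |C1| with hc1
  set A : ℝ := |CK| + 4 * Cc * |CG| * |CK| + 16 * Cc ^ 2 * |CG| * |CK| +
    65536 * Cc ^ 4 * |CG| * |CL| * c1 ^ 3 + |CG| * |CL| * c1 ^ 3 with hA0
  refine ⟨A + 16 * Cc ^ 2 * |CO| + ⌈64 * j⌉₊ * |CR|,
    max (max (max a1 a2) (max a3 a4)) (max (max a5 (8 * j ^ 2))
      (max (16 * Cc ^ 2) (128 * Cc * (j * c1) + 1))),
    fun h hh W n0 l γ a0 R hW hγ hCm hNq hTon hRR => ?_⟩
  simp only [max_le_iff] at hh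
  obtain ⟨⟨⟨b1, b2⟩, b3, b4⟩, ⟨b5, b6⟩, b7, b8⟩ := hh
  have c10 : 0 ≤ c1 := by positivity
  have A0 : 0 ≤ A := by positivity
  have hh1 : 1 ≤ h := le_trans (by linarith [one_le_pow₀ (n := 2) hj]) b6
  have l0 : 0 < l := (inv_pos.2 j0).trans_le hγ.lo
  obtain ⟨e, he, he1, ee1, ee2, ee3, ee4, ho, ee5⟩ := par' (q := q) (by omega) hj b6
  obtain ⟨hstr, hx0, sZ, pZ, hsp, hnm⟩ := hH h b2 W n0 l γ a0 hW hγ.nc hNq hTon
  have hL : ∀ x0 ∈ SP, nm (x0 - cp (sc l γ)) ≤ (om q h)⁻¹ →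
      LH SP nm (FT q h) x0 (om q h)⁻¹ (CL * om q h ^ 3) := fun x0 h1 h2 => by
    have := (hL h b1 (sc l γ) (fun _ _ => 1) 0 hγ.n1
      (fun _ => ⟨measurable_const, fun _ => by simp, fun _ _ => rfl⟩)
      (fun _ v _ => Finset.sum_nonneg fun _ _ => norm_nonneg _)).2 x0 h1 h2
    rwa [zero_div, neg_zero, Real.exp_zero, mul_one] at this
  obtain ⟨n, α, φ, hP⟩ := hP e he he1
  have hK := hK h b3 l γ _ hγ hstr
  have hLOC := hLOC h b4 _ hγ.n1
  have hR := fun β F => hR h b5 l γ β n φ F (sc l (Zc (Xi q h) γ)) R hγ (hCm β)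
  have hA : amp M W = (om q h ^ M)⁻¹ := by rw [amp, pow_mul, hW]
  have hρ : (fun s => l * rho q h γ s) = fun s => rdot (sc l (Zc (Xi q h) γ) s) (nr γ s) := by
    funext s
    simp only [rho, rdot, sc, mul_assoc, re_ofReal_mul]
  have hRR' : ∫ s in (0 : ℝ)..(2 * π), rdot (sc l (Zc (Xi q h) γ) s) (nr γ s) ^ 2 ≤ R := by
    refine le_trans (le_of_eq ?_) hRR
    congr 1
    funext s
    rw [congrFun hρ s]
  have R0 : 0 ≤ R := (intervalIntegral.integral_nonneg Real.two_pi_pos.le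
    fun _ _ => sq_nonneg _).trans hRR
  have E0 : 0 ≤ Er p q h R := by
    have := EXP.T_pos q (one_pos.trans_le hh1)
    have := EXP.o_pos q (one_pos.trans_le hh1)
    unfold Er eps
    positivity
  rw [hρ]
  simp only [WfL, ee1, ee2]
  generalize Zc (Xi q h) γ = Z0 at *
  generalize rs (lo (Xi q h) γ) = x1 at *
  have hO : ∀ β F, Pr j q h β R γ (sc l Z0) φ F → (F.card : ℝ) ≤ om q h ^ 3 → _ := hR
  generalize om q h = o at *
  have o1 : 1 ≤ o := hh1.trans ho
  have o0 : 0 < o := by linarith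
  have oi : 0 < o⁻¹ := by positivity
  have oi1 : o⁻¹ ≤ 1 := inv_le_one_of_one_le₀ o1
  obtain ⟨s1, s2⟩ := small o1 (show 20 ≤ M by omega) (mul_nonneg j0.le c10) hCc (b8.trans ho)
  set p0 : ℝ := c1 * (o ^ M)⁻¹ * o ^ 2 with hp0
  set p1 : ℝ := 64 * Cc * o * p0 with hp1
  have p00 : 0 ≤ p0 := by positivity
  have p10 : 0 ≤ p1 := by positivity
  have s3 : j * p0 ≤ o⁻¹ / 8 := le_trans (le_of_eq (by rw [hp0]; ring)) s1
  have s4 : 2 * (j * p1) < o⁻¹ := lt_of_le_of_lt (le_of_eq (by rw [hp1, hp0]; ring)) s2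
  have s5 : p0 ≤ j * p0 := le_mul_of_one_le_left p00 hj
  have s6 : p1 ≤ j * p1 := le_mul_of_one_le_left p10 hj
  have mZ0 : cp Z0 ∈ SP := cp_mem sZ pZ
  have nZ00 := sn_nm.nn _ mZ0
  have nZ1 : j * nm (cp Z0) ≤ p0 := by
    rw [hA] at hnm
    rw [hp0, hc1, mul_assoc, mul_assoc, ← mul_assoc |C1|]
    refine mul_le_mul_of_nonneg_left (hnm.trans ?_) j0.le
    gcongr
    exact le_abs_self _
  have neg : ∀ Q ∈ SP, nm (-Q) ≤ nm Q := fun Q hQ => by
    have := sn_nm.smul (-1) _ hQ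
    rwa [neg_one_smul, norm_neg, norm_one, one_mul] at this
  obtain ⟨k0, k1⟩ := hK (by
    rw [hsp, sub_add_cancel_left, le_div_iff₀ j0]
    have := mul_le_mul_of_nonneg_left (neg _ mZ0) j0.le
    linarith)
  have sZ' : ContDiff ℝ ∞ (sc l Z0) := contDiff_const.mul sZ
  have pZ' : Function.Periodic (sc l Z0) (2 * π) := fun s => by simp only [sc, pZ s]
  have nZ : nm (cp (sc l Z0)) ≤ p0 := by
    have := sn_nm.smul (l : ℂ) _ mZ0
    rw [norm_real, Real.norm_eq_abs, abs_of_pos l0] at this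
    rw [cp_sc]
    exact this.trans ((mul_le_mul_of_nonneg_right hγ.hi nZ00).trans nZ1)
  have hsp' : cp (sc l γ) = (l : ℂ) • x1 + cp (sc l Z0) := by rw [cp_sc, cp_sc, hsp, smul_add]
  have hx0' : (l : ℂ) • x1 ∈ SP := SP.smul_mem _ hx0
  generalize sc l Z0 = Z at *
  generalize (l : ℂ) • x1 = x0 at *
  have mZ : cp Z ∈ SP := cp_mem sZ' pZ'
  have nZ0 := sn_nm.nn _ mZ
  have nx : nm (x0 - cp (sc l γ)) ≤ o⁻¹ := by
    rw [hsp', sub_add_cancel_left]
    linarith [neg _ mZ]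
  set y : Fin n → ℝ → C2 := yk φ Z with hy
  have my : ∀ k, y k ∈ SP := fun k => smul_mem_SP (hP.per k) mZ
  have ny : ∀ k, nm (y k) ≤ p1 := fun k => by
    refine (pu_nm hP hCc he he1 mZ k).trans ?_
    rw [div_eq_mul_inv]
    calc 4 * (Cc * (e ^ 2)⁻¹) * nm (cp Z) ≤ 4 * (Cc * (16 * o)) * p0 := by gcongr
      _ = p1 := by rw [hp1]; ring
  have ny0 := fun k => sn_nm.nn _ (my k)
  have ny1 : ∀ k, nm (y k) ≤ 1 := fun k => by linarith [ny k]
  have hn : (n : ℝ) ≤ 4 * Cc * o := by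
    refine hP.card.trans ?_
    rw [div_eq_mul_inv]
    calc Cc * e⁻¹ ≤ Cc * (4 * o) := by gcongr
      _ = _ := by ring
  have hcard : ∀ F : Finset (Fin n × Fin n), (F.card : ℝ) ≤ 16 * Cc ^ 2 * o ^ 2 := fun F => by
    have h : F.card ≤ n * n := by simpa using F.card_le_univ
    have h' : (F.card : ℝ) ≤ n * n := by exact_mod_cast h
    exact h'.trans ((mul_self_le_mul_self (Nat.cast_nonneg _) hn).trans_eq (by ring))
  have sy : ∑ k, y k = cp Z := pu_split hP _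
  obtain ⟨g1, g2, g3, g4⟩ := hG _ SP nm _ x0 _ _ sn_nm oi (hL x0 hx0' nx)
  have z0 : nm (0 : ℝ → C2) ≤ o⁻¹ / 4 := by rw [nm_zero]; positivity
  have kk : CK / o ^ (2 * M + 6) ≤ |CK| / o ^ (2 * M + 6) := by
    gcongr
    exact le_abs_self _
  have kp0 : 0 ≤ |CK| / o ^ (2 * M + 6) := by positivity
  have near : ∀ k m, dc (α k) (α m) ≤ 4 * e →
      ‖D1 (FT q h) x0 (y k)‖ ≤ |CG| * (|CK| / o ^ (2 * M + 6)) ∧
      ‖D2 (FT q h) x0 (y k) (y m)‖ ≤ |CG| * (|CK| / o ^ (2 * M + 6)) := fun k m hkl => by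
    have := g4 _ (my k) _ (my m) (|CK| / o ^ (2 * M + 6)) (by linarith [ny k, ny m])
      fun ε δ hε hδ => by
        have m1 := SP.smul_mem ε (my k)
        have m2 := SP.smul_mem δ (my m)
        refine (k1 _ (SP.add_mem m1 m2) (α k) ?_ fun s hs => ?_).trans kk
        · have t1 := sn_nm.add _ m1 _ m2
          have t2 := (sn_nm.smul ε _ (my k)).trans (mul_le_of_le_one_left (ny0 k) hε)
          have t3 := (sn_nm.smul δ _ (my m)).trans (mul_le_of_le_one_left (ny0 m) hδ)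
          have t4 : nm (ε • y k + δ • y m) ≤ 2 * p1 := by linarith [ny k, ny m]
          have t5 := mul_le_mul_of_nonneg_right t4 j0.le
          rw [le_div_iff₀ j0]
          linarith
        · rw [ee2] at hs
          have t := dc_triangle s (α m) (α k)
          rw [dc_comm (α m)] at t
          simp [hy, yk, hP.supp k s (by linarith), hP.supp m s (by linarith)]
    have hle : CG * (|CK| / o ^ (2 * M + 6)) ≤ |CG| * (|CK| / o ^ (2 * M + 6)) := by
      gcongr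
      exact le_abs_self _
    exact ⟨this.1.trans hle, this.2.trans hle⟩
  set F' : Finset (Fin n × Fin n) := Finset.univ.filter fun p => 4 * e < dc (α p.1) (α p.2) with hF
  have hF' : ∀ p, p ∈ F' ↔ 4 * e < dc (α p.1) (α p.2) := fun p => by simp [hF]
  have cl0 : 0 ≤ CL * o ^ 3 := (norm_nonneg _).trans
    ((hL x0 hx0' nx).bd 0 SP.zero_mem (by linarith))
  have cl1 : CG * (CL * o ^ 3) ≤ |CG| * (|CL| * o ^ 3) :=
    mul_le_mul (le_abs_self _) (by gcongr; exact le_abs_self _) cl0 (abs_nonneg _)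
  set c : Fin n × Fin n → ℂ := fun p => D2 (FT q h) (cp (sc l γ)) (y p.1) (y p.2) with hc
  have main := (comb F' (FT q h (cp (sc l γ))) (FT q h x0) (fun k => D1 (FT q h) x0 (y k))
    (fun p => D2 (FT q h) x0 (y p.1) (y p.2)) c
    (η2 := |CG| * (|CL| * o ^ 3) * p0 * p1 * p1 / o⁻¹ ^ 3)
    (η3 := |CG| * (|CL| * o ^ 3) * p0 ^ 3 / o⁻¹ ^ 3) hn (by positivity) (by positivity)
    (k0.trans kk) (fun k => (near k k (by rw [dc_self]; positivity)).1)
    (fun p hp => (near p.1 p.2 (not_lt.1 fun a => hp ((hF' p).2 a))).2)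
    (fun p => by
      have := (g2 _ mZ (by linarith) _ (my p.1) _ (my p.2)).2.2.2.2.1
      rw [← hsp'] at this
      refine this.trans ?_
      have := ny p.1
      have := ny p.2
      have := ny0 p.1
      have := ny0 p.2
      gcongr)
    (by
      have := g3 _ mZ (by linarith)
      have e1 := add_sum g1 y my Finset.univ
      have e2 := bil_sum (g := D2 (FT q h) x0)
        (fun a ha b hb c hc => by simpa using (g2 0 SP.zero_mem z0 a ha b hb).1 c hc)
        (fun a ha b hb => by simpa using (g2 0 SP.zero_mem z0 a ha b hb).2.2.1) y my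
      rw [sy] at e1 e2
      rw [← hsp', e1, e2] at this
      refine this.trans ?_
      gcongr)).trans (num o1 (by omega) c10 (abs_nonneg _) (abs_nonneg _) (abs_nonneg _)
        (by linarith) hp0 hp1)
  have r8 : 1 / (8 * j) = 2 * (1 / (16 * j)) := by field_simp; ring
  set F := F'.filter fun p => dc (α p.1) (α p.2) ≤ 1 / (8 * j) with hFF
  have far : ‖∑ p ∈ F'.filter fun p => ¬dc (α p.1) (α p.2) ≤ 1 / (8 * j), c p‖ ≤
      16 * Cc ^ 2 * |CO| / o ^ (2 * M + 4) := by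
    refine (norm_sum_le_of_le _ (n := fun _ => |CO| / o ^ (2 * M + 6)) fun p hp => ?_).trans ?_
    · have hp' := not_le.1 (Finset.mem_filter.1 hp).2
      refine ((hLOC _ (my p.1) _ (my p.2)).2 fun s t hs ht => ?_).trans ?_
      · have := pu_gt hP (k := p.1) (l := p.2) (s := s) (t := t)
          (fun h0 => hs (by simp [hy, yk, h0])) (fun h0 => ht (by simp [hy, yk, h0]))
        linarith
      · refine div_le_div_of_nonneg_right ?_ (by positivity)
        have := mul_le_one₀ (ny1 p.1) (ny0 p.2) (ny1 p.2)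
        have := mul_nonneg (ny0 p.1) (ny0 p.2)
        rw [mul_assoc]
        exact (mul_le_mul_of_nonneg_right (le_abs_self _) this).trans
          (mul_le_of_le_one_right (abs_nonneg _) ‹_›)
    · rw [Finset.sum_const, nsmul_eq_mul]
      refine (mul_le_mul_of_nonneg_right (hcard _) (by positivity)).trans (le_of_eq ?_)
      field_simp
      ring
  choose g hg1 hg2 using fun k => grp hj (α k)
  have wf : ∀ i, Wf0 (2 * e) (ws φ (F.filter fun p => g p.1 = i)) := fun i =>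
    wf0 hP _ fun p hp => (hF' p).1 (Finset.mem_filter.1 (Finset.mem_filter.1 hp).1).1
  have p1' : Function.Periodic (deriv γ) (2 * π) := per_deriv' hγ.nc.per
  have pρ : Per (2 * π) fun s => rdot (Z s) (nr γ s) :=
    per_rdot sZ' (contDiff_const.mul hγ.nc.s1) pZ' fun s => by simp only [nr, p1' s]
  have md := mid φ F g hg1 c (p + 2) (η := |CR| * Er p q h R + |CR| / o ^ (2 * M + 4))
    (κ := kh l (kp γ)) (one_pos.trans_le hh1) (by positivity : 0 < 2 * e) l0 pρ.smooth.continuous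
    ((H0.smk hγ.nc).continuous.div_const l) wf fun i => by
      refine (hO (i / (8 * j)) _ ⟨hP.per, sZ', pZ', fun x hx s t hs ht => ?_, ee1 ▸ wf i,
        fun x hx s hs => ?_, hRR'⟩ ((hcard _).trans ?_) ny1).trans ?_
      · rw [ee1]
        exact (pu_far hP ((hF' x).1 (Finset.mem_filter.1 (Finset.mem_filter.1 hx).1).1) hs ht).le
      · obtain ⟨u1, u2⟩ := Finset.mem_filter.1 hx
        refine supp_grp hP (r := 1 / (8 * j)) (by linarith) (u2 ▸ hg2 x.1)
          (Finset.mem_filter.1 u1).2 (lt_of_le_of_lt (le_of_eq (by ring)) hs)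
      · have := mul_le_mul_of_nonneg_right (b7.trans ho) (sq_nonneg o)
        linarith
      · gcongr <;> exact le_abs_self _
  refine ⟨ws φ F, ⟨wf0 hP _ fun p hp => (hF' p).1 (Finset.mem_filter.1 hp).1,
    fun s t h1 h2 => ws_one hP (r := 1 / (16 * j)) he F (fun p hp => ?_) h1 (by rwa [one_div])⟩, ?_⟩
  · by_contra hne
    obtain ⟨u1, u2⟩ := not_or.1 hne
    exact hp (Finset.mem_filter.2 ⟨(hF' p).2 (not_le.1 u1), r8 ▸ not_lt.1 u2⟩)
  rw [← Finset.sum_filter_add_sum_filter_not F' fun p => dc (α p.1) (α p.2) ≤ 1 / (8 * j)] at main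
  generalize ∑ p ∈ F'.filter fun p => ¬dc (α p.1) (α p.2) ≤ 1 / (8 * j), c p = S2 at *
  generalize ∑ p ∈ F, c p = S1 at *
  generalize Mo q h l (p + 2) (ws φ F) _ _ = X at *
  generalize FT q h (cp (sc l γ)) = f at *
  have e3 : f - 1 / 2 * X = f - 1 / 2 * (S1 + S2) + 1 / 2 * (S1 - X) + 1 / 2 * S2 := by ring
  have n2 : ‖(1 / 2 : ℂ)‖ = 1 / 2 := by simp
  have t1 := norm_add_le (f - 1 / 2 * (S1 + S2) + 1 / 2 * (S1 - X)) (1 / 2 * S2)
  have t2 := norm_add_le (f - 1 / 2 * (S1 + S2)) (1 / 2 * (S1 - X))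
  rw [norm_mul, n2] at t1 t2
  have t3 := mul_nonneg A0 E0
  have t4 : 0 ≤ 16 * Cc ^ 2 * |CO| * Er p q h R := by positivity
  have t5 := norm_nonneg S2
  have t6 := norm_nonneg (S1 - X)
  rw [mul_add, ← mul_div_assoc, ← mul_assoc] at md
  rw [e3, add_div, add_div, add_mul, add_mul]
  linarith

end Pool.Agent.Lib.IS3
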