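import Pool.Agent.Lib.IS3.Kit
import Pool.Agent.Lib.IS2.B_TEQ

/-! Traces that differ by a constant give almost equal sums over the curves. -/

open scoped ContDiff ComplexConjugate Topology Real
open Complex MeasureTheory Set Filter

noncomputable section

namespace Pool.Agent.Lib.IS3

open Pool.Agent.Lib.ISO Pool.Agent.Lib.IS2 Pool.Agent.Lib.IS2.TEQ

theorem st_teq2 (hLHW : St_LHW) (hLH1 : St_LH1) (hSPL : St_SPL) (hSH : St_SH) : St_TEQ2 := by
  intro j q n hq
  obtain ⟨C1, h1, H1⟩ := hLHW j q hq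
  obtain ⟨C2, h2, H2⟩ := hLH1 j q hq
  obtain ⟨C3, h3, H3⟩ := hSH q hq
  obtain ⟨h4, H4⟩ := hSPL j q hq
  refine ⟨2 * (|C3| * (2 * |C1|) * (3 * q * (n + 3)).factorial),
    max (max (max h1 h2) (max h3 2)) (max h4 j), ?_⟩
  intro h hh N N' Γ Γ' hΓ hΓ' ⟨c, hc⟩
  simp only [max_le_iff] at hh
  obtain ⟨⟨⟨g1, g2⟩, g3, g4⟩, g5, g6⟩ := hh
  have hp : 0 < h := by linarith
  have j0 := hΓ.pos
  have o0 : 0 < om q h := pow_pos hp _
  set A := h ^ (q + 2) with hA
  have A0 : h ^ 3 ≤ A := pow_le_pow_right₀ (by linarith) (by omega)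
  have A1 : j ≤ A := by nlinarith [mul_pos hp hp]
  have Ap : 0 < A := j0.trans_le A1
  have A2 : 2 * A < om q h := by
    have : h ^ (q + 2 + 2) ≤ h ^ (3 * q) := pow_le_pow_right₀ (by linarith) (by omega)
    rw [pow_add] at this
    unfold om
    nlinarith [mul_le_mul_of_nonneg_left (show 4 ≤ h ^ 2 by nlinarith) Ap.le]
  have mem : ∀ a : ℝ, A ≤ a → a ≤ 2 * A → (a : ℂ) ∈ DD q h := fun a p1 p2 => by
    refine ⟨?_, ?_⟩
    · rw [Tt, ← hA, mul_inv, inv_inv, ofReal_re]
      linarith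
    · rw [norm_real, Real.norm_eq_abs, abs_of_pos (by linarith)]
      linarith
  have o2 : 0 ≤ 2 / om q h := by positivity
  have one : ∀ {K : ℕ} {G : MC K}, Nv j G → DifferentiableOn ℂ (fun μ => TM μ (cpm G)) (DD q h) ∧
      ∀ μ ∈ DD q h, ‖TM μ (cpm G)‖ ≤ |C1| * om q h := fun {K G} hG => by
    obtain ⟨-, d, b⟩ := (H1 h g1 K G 1 0 hG wm_one (lg_zero _ _)).1 _ hG.cpm_mem
      (by simpa [nmm, nm_zero] using o2)
    refine ⟨d, fun μ hμ => ?_⟩
    have k := (b μ hμ).2.1
    rw [ga0, mul_zero, neg_zero, Real.exp_zero, mul_one] at k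
    exact k.trans (mul_le_mul_of_nonneg_right (le_abs_self _) o0.le)
  obtain ⟨-, s2, s3, s4⟩ := H3 h g3
  have crs : ∀ {K : ℕ} {G : MC K}, Nv j G →
      DifferentiableOn ℂ (fun μ => TW (wX id) μ (cpm G)) (DD q h) ∧ ∀ y, |y| ≤ YY q h →
        ‖TW (wX id) (mu q h y) (cpm G)‖ ≤ |C1| * om q h * Real.exp (-(h ^ 2 / 2)) :=
    fun {K G} hG => by
      obtain ⟨-, d, b⟩ := (H1 h g1 K G (wX id) (2 / j) hG (wm_wX _) (hG.lg_wX _)).1 _ hG.cpm_mem
        (by simpa [nmm, nm_zero] using o2)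
      refine ⟨d, fun y hy => ((b _ (s2 y hy).1).2.1).trans ?_⟩
      have e : (mu q h y).re = A := by simp [mu, Tt, hA, ← ofReal_pow]
      have l : ga0 q h (2 / j) (mu q h y) ≤ Real.exp (-(h ^ 2 / 2)) := by
        rw [ga0, e, Tt, ← hA, mul_inv, inv_inv]
        refine Real.exp_le_exp.2 (neg_le_neg ?_)
        rw [show (A - 2⁻¹ * A) * (2 / j) = A / j by ring, le_div_iff₀ j0]
        nlinarith [mul_pos hp hp]
      exact mul_le_mul (mul_le_mul_of_nonneg_right (le_abs_self _) o0.le) l (Real.exp_pos _).le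
        (by positivity)
  have sgl : ∀ {K : ℕ} {G : MC K}, Nv j G → ∀ i,
      DifferentiableOn ℂ (fun μ => TT μ (cp (G i))) (DD q h) := fun {K G} hG i =>
    ((H2 h g2 (G i) (fun _ _ => 1) 0 (hG.n1 i)
      (fun _ => ⟨measurable_const, fun _ => by simp, fun _ _ => rfl⟩)
      fun _ v _ => Finset.sum_nonneg fun _ _ => norm_nonneg _).1 _
        (cp_mem (hG.smooth i) (hG.per i)) (by simpa [nm_zero] using o2)).2.1
  have mA := mem A le_rfl (by linarith)
  have eq : EqOn (fun μ => TM μ (cpm Γ) - TM μ (cpm Γ')) (fun _ => c) (DD q h) := by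
    refine AnalyticOnNhd.eqOn_of_preconnected_of_frequently_eq
      (((one hΓ).1.sub (one hΓ').1).analyticOnNhd (open_DD q h)) analyticOnNhd_const
      (conv_DD q h).isPreconnected mA ?_
    have t : Tendsto (fun x : ℝ => (x : ℂ)) (𝓝[>] A) (𝓝[≠] (A : ℂ)) :=
      tendsto_nhdsWithin_iff.2 ⟨(continuous_ofReal.tendsto A).mono_left nhdsWithin_le_nhds, by
        filter_upwards [self_mem_nhdsWithin] with x hx
        exact fun e => (ne_of_gt hx) (ofReal_injective e)⟩
    refine t.frequently (Eventually.frequently ?_)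
    filter_upwards [self_mem_nhdsWithin] with x hx
    exact hc x (A1.trans (le_of_lt hx))
  have Y0 : 0 ≤ YY q h := by unfold YY Tt; positivity
  have seg : ∀ y ∈ uIcc (-YY q h) (YY q h), mu q h y ∈ DD q h := fun y hy => by
    rw [uIcc_of_le (by linarith)] at hy
    exact (s2 y (abs_le.2 hy)).1
  have cm : Continuous (mu q h) := by unfold mu; fun_prop
  have ii : ∀ f : ℂ → ℂ, DifferentiableOn ℂ f (DD q h) → IntervalIntegrable
      (fun y => 2 * mu q h y * Gs q h (mu q h y) * f (mu q h y)) volume (-YY q h) (YY q h) :=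
    fun f hf => by
      refine ContinuousOn.intervalIntegrable (ContinuousOn.mul (Continuous.continuousOn ?_)
        (hf.continuousOn.comp cm.continuousOn seg))
      unfold Gs ze
      fun_prop
  have sm : ∀ {K : ℕ} {G : MC K}, Nv j G → ∑ i, FT q h (cp (G i)) =
      FF q h fun μ => TM μ (cpm G) - TW (wX id) μ (cpm G) := fun {K G} hG => by
    unfold FT FF
    rw [← intervalIntegral.integral_finsetSum fun i _ => ii _ (sgl hG i)]
    refine intervalIntegral.integral_congr fun y hy => ?_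
    simp only
    rw [H4 h g5 K G hG _ (seg y hy), add_sub_cancel_right, Finset.mul_sum]
  have e : ∑ i, FT q h (cp (Γ i)) - ∑ i, FT q h (cp (Γ' i)) = (FF q h fun _ => c) +
      FF q h fun μ => TW (wX id) μ (cpm Γ') - TW (wX id) μ (cpm Γ) := by
    rw [sm hΓ, sm hΓ']
    unfold FF
    rw [← intervalIntegral.integral_sub (ii _ ((one hΓ).1.fun_sub (crs hΓ).1))
      (ii _ ((one hΓ').1.fun_sub (crs hΓ').1)), ← intervalIntegral.integral_add
      (ii _ (differentiableOn_const c)) (ii _ ((crs hΓ').1.fun_sub (crs hΓ).1))]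
    refine intervalIntegral.integral_congr fun y hy => ?_
    have := eq (seg y hy)
    simp only at this ⊢
    rw [← this]
    ring
  have T0 : 0 ≤ Tt q h / 2 := by unfold Tt; positivity
  have k := s4 (fun _ => c) 0 ‖c‖ (differentiableOn_const c) (fun μ _ => by simp) le_rfl (Or.inl T0)
  rw [zero_div, neg_zero, Real.exp_zero, mul_one] at k
  have k' := s3 (fun μ => TW (wX id) μ (cpm Γ') - TW (wX id) μ (cpm Γ))
    (2 * |C1| * om q h * Real.exp (-(h ^ 2 / 2))) fun y hy =>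
      (norm_sub_le _ _).trans (by linarith [(crs hΓ).2 y hy, (crs hΓ').2 y hy])
  have cb : ‖c‖ ≤ 2 * |C1| * om q h := by
    rw [← hc A A1]
    exact (norm_sub_le _ _).trans (by linarith [(one hΓ).2 _ mA, (one hΓ').2 _ mA])
  have ex : om q h ^ (n + 3) * Real.exp (-(h ^ 2 / 2)) ≤ (3 * q * (n + 3)).factorial := by
    have := Real.pow_div_factorial_le_exp h hp.le (3 * q * (n + 3))
    rw [div_le_iff₀ (by positivity)] at this
    have l : Real.exp h * Real.exp (-(h ^ 2 / 2)) ≤ 1 := by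
      rw [← Real.exp_add]
      exact Real.exp_le_one_iff.2 (by nlinarith)
    rw [om, ← pow_mul]
    calc _ ≤ Real.exp h * (3 * q * (n + 3)).factorial * Real.exp (-(h ^ 2 / 2)) := by gcongr
      _ = Real.exp h * Real.exp (-(h ^ 2 / 2)) * (3 * q * (n + 3)).factorial := by ring
      _ ≤ 1 * _ := by gcongr
      _ = _ := one_mul _
  have k1 : ‖FF q h fun _ => c‖ ≤
      |C3| * om q h ^ 2 * (2 * |C1| * om q h) * Real.exp (-(h ^ 2 / 2)) := by
    refine k.trans ?_
    gcongr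
    exact le_abs_self _
  have k2 : ‖FF q h fun μ => TW (wX id) μ (cpm Γ') - TW (wX id) μ (cpm Γ)‖ ≤
      |C3| * om q h ^ 2 * (2 * |C1| * om q h * Real.exp (-(h ^ 2 / 2))) := by
    refine k'.trans ?_
    gcongr
    exact le_abs_self _
  rw [e, le_div_iff₀ (by positivity)]
  calc _ ≤ (2 * (|C3| * om q h ^ 2 * (2 * |C1| * om q h) * Real.exp (-(h ^ 2 / 2)))) *
        om q h ^ n := mul_le_mul_of_nonneg_right ((norm_add_le _ _).trans (by linarith))
          (by positivity)
    _ = 2 * (|C3| * (2 * |C1|) * (om q h ^ (n + 3) * Real.exp (-(h ^ 2 / 2)))) := by ring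
    _ ≤ _ := by gcongr

end Pool.Agent.Lib.IS3
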