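import Pool.Agent.Lib.IS3.Kit
import Pool.Agent.Lib.IS2.B_TEQ

/-! Equal Hilbert-Schmidt norms give equal regularised traces up to a constant (several curves). -/

open scoped ContDiff ComplexConjugate Topology Real
open Complex MeasureTheory Set Filter

noncomputable section

namespace Pool.Agent.Lib.IS3

open Pool.Agent.Lib.ISO Pool.Agent.Lib.IS2

namespace TEQM

lemma mono (hG : St_GREm) (hR : St_RESm) {N : ℕ} {a b : ℝ} {Γ : MC N} {Ω : Set ℂ}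
    (ha : Potm a Γ Ω) (hb : Potm b Γ Ω) (hab : a ≤ b) :
    RRm b b Γ Ω ≤ RRm a b Γ Ω ∧ RRm a b Γ Ω ≤ RRm a a Γ Ω := by
  have hm := ha.cd.opn.measurableSet
  have pos : ∀ {c : ℝ}, Potm c Γ Ω → ∀ x ∈ Ω, ∀ y ∈ Ω, x ≠ y → 0 ≤ Rgm c Γ Ω x y :=
    fun hc x hx y hy h => (((hG N _ _ _ hc).2.2.2 y hy).2.2 x hx).2.2 h
  have le : ∀ x ∈ Ω, ∀ y ∈ Ω, x ≠ y → Rgm b Γ Ω x y ≤ Rgm a Γ Ω x y := fun x hx y hy h => by
    have e := ((hR N a b Γ Ω ha hb).1 x hx y hy h).2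
    have i : 0 ≤ ∫ z in Ω, Rgm a Γ Ω x z * Rgm b Γ Ω z y := by
      refine integral_nonneg_of_ae ?_
      filter_upwards [ae_restrict_mem hm, ae_restrict_of_ae (Measure.ae_ne volume x),
        ae_restrict_of_ae (Measure.ae_ne volume y)] with z hz h1 h2
      exact mul_nonneg (pos ha x hx z hz h1.symm) (pos hb z hz y hy h2)
    have : 0 ≤ b ^ 2 - a ^ 2 := by nlinarith [ha.pos]
    nlinarith [mul_nonneg this i]
  have ae : ∀ᵐ p ∂((volume.restrict Ω).prod (volume.restrict Ω)),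
      p.1 ∈ Ω ∧ p.2 ∈ Ω ∧ p.1 ≠ p.2 := by
    rw [Measure.ae_prod_iff_ae_ae]
    · filter_upwards [ae_restrict_mem hm] with x hx
      filter_upwards [ae_restrict_mem hm, ae_restrict_of_ae (Measure.ae_ne volume x)] with z hz h1
      exact ⟨hx, hz, h1.symm⟩
    · exact (measurable_fst hm).inter ((measurable_snd hm).inter
        (measurableSet_eq_fun measurable_fst measurable_snd).compl)
  have i1 := (hR N b b Γ Ω hb hb).2.1
  have i2 := (hR N a b Γ Ω ha hb).2.1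
  have i3 := (hR N a a Γ Ω ha ha).2.1
  unfold RRm
  rw [← integral_prod _ i1, ← integral_prod _ i2, ← integral_prod _ i3]
  refine ⟨integral_mono_ae i1 i2 ?_, integral_mono_ae i2 i3 ?_⟩
  · filter_upwards [ae] with p hp
    exact mul_le_mul_of_nonneg_right (le _ hp.1 _ hp.2.1 hp.2.2) (pos hb _ hp.1 _ hp.2.1 hp.2.2)
  · filter_upwards [ae] with p hp
    exact mul_le_mul_of_nonneg_left (le _ hp.1 _ hp.2.1 hp.2.2) (pos ha _ hp.1 _ hp.2.1 hp.2.2)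

end TEQM

theorem st_teqm (hL : St_LNKm) (hG : St_GREm) (hR : St_RESm) (hT : St_TRm) : St_TEQM := by
  intro N N' Γ Γ' Ω Ω' j hΓ hΓ' hΩ hΩ' hv hRR
  obtain ⟨μ1, H⟩ := hL.2 j
  set A := max μ1 1 with hA
  have A1 : 1 ≤ A := le_max_right _ _
  have A2 : μ1 ≤ A := le_max_left _ _
  have pt := fun a (p : A ≤ a) => H a (A2.trans p) N Γ Ω hΓ hΩ
  have pt' := fun a (p : A ≤ a) => H a (A2.trans p) N' Γ' Ω' hΓ' hΩ'
  have cD : ∀ b, A ≤ b → TBm A Γ Ω - TBm A Γ' Ω' = TBm b Γ Ω - TBm b Γ' Ω' := fun b p1 => by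
    refine IS2.TEQ.const (D := fun a => TBm a Γ Ω - TBm a Γ' Ω') (f := fun a => RRm a a Γ Ω)
      (B := b) (fun a c q1 q2 _ => ?_) p1 le_rfl
    have a1 := pt a q1
    have b1 := pt c (q1.trans q2)
    have a2 := pt' a q1
    have b2 := pt' c (q1.trans q2)
    obtain ⟨m1, m2⟩ := TEQM.mono hG hR a1 b1 q2
    obtain ⟨m3, m4⟩ := TEQM.mono hG hR a2 b2 q2
    rw [← hRR a (by linarith) a1 a2] at m4
    rw [← hRR c (by linarith) b1 b2] at m3
    have e1 := (hR N a c Γ Ω a1 b1).2.2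
    have e2 := (hR N' a c Γ' Ω' a2 b2).2.2
    rw [← hv] at e2
    have d : 0 ≤ c ^ 2 - a ^ 2 := by nlinarith
    refine ⟨m1.trans m2, abs_le.2 ⟨?_, ?_⟩⟩
    · nlinarith [mul_nonneg d (show 0 ≤ RRm a c Γ Ω - RRm c c Γ Ω by linarith),
        mul_nonneg d (show 0 ≤ RRm a a Γ Ω - RRm a c Γ' Ω' by linarith)]
    · nlinarith [mul_nonneg d (show 0 ≤ RRm a c Γ' Ω' - RRm c c Γ Ω by linarith),
        mul_nonneg d (show 0 ≤ RRm a a Γ Ω - RRm a c Γ Ω by linarith)]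
  refine ⟨A, fun j' hj => ⟨((TBm A Γ Ω - TBm A Γ' Ω' : ℝ) : ℂ), fun μ hμ => ?_⟩⟩
  have p := hj.trans hμ
  rw [hT N μ Γ Ω (pt μ p), hT N' μ Γ' Ω' (pt' μ p), ← ofReal_sub, cD μ p]

end Pool.Agent.Lib.IS3
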