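import Pool.Agent.Lib.IS3.Kit
import Pool.Agent.Lib.IS2.B_TONE

/-! Block TONL: a spectrum concentrated at one scale forces a pure tone. -/

open scoped ContDiff ComplexConjugate Topology Real
open Complex MeasureTheory Set Filter

noncomputable section

namespace Pool.Agent.Lib.IS3

open Pool.Agent.Lib.ISO Pool.Agent.Lib.ISO.K4 Pool.Agent.Lib.IS2 Pool.Agent.Lib.IS2.TONE

namespace TONL

variable {κ : ℝ → ℝ} {j K l : ℝ} {M W : ℕ} {z : ℤ → ℂ} {ξ : ℤ}

lemma yl0 (l : ℝ) (W : ℕ) (ξ : ℤ) : 0 ≤ yl l W ξ := by unfold yl; positivity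

lemma sNr (h : Dec z) (l : ℝ) (W : ℕ) : HasSum (fun ξ : ℤ =>
    if 2 * |ce l W ξ| ≤ (W : ℝ) ^ 2 then (1 + ce l W ξ ^ 2) * ‖z ξ‖ ^ 2 else 0) (NrL l W z) := by
  refine (Summable.of_nonneg_of_le (fun ξ => ?_) (fun ξ => ?_)
    ((h.sq 0).mul_left (1 + ((W : ℝ) ^ 2) ^ 2))).hasSum
  · split_ifs <;> positivity
  · split_ifs with h1
    · rw [pow_zero, one_mul, ← sq_abs (ce l W ξ)]
      have := abs_nonneg (ce l W ξ)
      gcongr
      linarith
    · positivity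

lemma sJk (h : Dec z) (m : ℕ) (l : ℝ) (W : ℕ) : HasSum (fun ξ : ℤ =>
    if (W : ℤ) < |ξ| ∧ (W : ℝ) ^ 2 < 2 * |ce l W ξ| then
      (yl l W ξ ^ m + yl l W ξ ^ (m + 4)) * ‖z ξ‖ ^ 2 else 0) (JkL m l W z) := by
  have s : ∀ e, Summable fun ξ : ℤ => yl l W ξ ^ e * ‖z ξ‖ ^ 2 := fun e =>
    ((h.sq (2 * e)).mul_left ((l ^ 2 * (W : ℝ) ^ 4)⁻¹ ^ e)).congr fun ξ => by
      rw [yl, pow_mul, sq_abs, div_eq_mul_inv, mul_pow]
      ring
  refine (Summable.of_nonneg_of_le (fun ξ => ?_) (fun ξ => ?_) ((s m).add (s (m + 4)))).hasSum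
  all_goals
    have := yl0 l W ξ
    split_ifs
    all_goals first | positivity | exact (add_mul _ _ _).le

/-- the hypotheses on the scale -/
structure Sc (j l : ℝ) (W : ℕ) : Prop where
  j1 : 1 ≤ j
  lo : j⁻¹ ≤ l
  hi : l ≤ j
  w : j ≤ W

namespace Sc

variable (h : Sc j l W)
include h

lemma l0 : 0 < l := (inv_pos.2 (one_pos.trans_le h.j1)).trans_le h.lo

lemma w1 : (1 : ℝ) ≤ W := h.j1.trans h.w

lemma jl : 1 ≤ l * j := by
  have := mul_le_mul_of_nonneg_right h.lo (zero_le_one.trans h.j1)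
  rwa [inv_mul_cancel₀ (one_pos.trans_le h.j1).ne'] at this

lemma ce_eq (ξ : ℤ) : l * ce l W ξ = |(ξ : ℝ)| - l * (W : ℝ) ^ 2 := by
  rw [ce, mul_sub, mul_div_cancel₀ _ h.l0.ne']

lemma ce_le (ξ : ℤ) : |(|(ξ : ℝ)| - nq l W)| ≤ j * |ce l W ξ| + 1 / 2 := by
  have a := abs_sub_le |(ξ : ℝ)| (l * (W : ℝ) ^ 2) (nq l W)
  rw [← h.ce_eq, abs_mul, abs_of_pos h.l0, abs_sub_comm (l * _)] at a
  linarith [nq_near h.l0.le W, mul_le_mul_of_nonneg_right h.hi (abs_nonneg (ce l W ξ))]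

lemma off (k : |ξ| ≠ nq l W) : 1 ≤ 4 * j ^ 2 * ce l W ξ ^ 2 := by
  have a : (1 : ℝ) ≤ |(|(ξ : ℝ)| - nq l W)| := by
    exact_mod_cast Int.one_le_abs (sub_ne_zero.2 k)
  have b : 1 ≤ 2 * j * |ce l W ξ| := by linarith [h.ce_le ξ]
  rw [← sq_abs (ce l W ξ)]
  nlinarith

lemma near (k : 2 * |ce l W ξ| ≤ (W : ℝ) ^ 2) : |(ξ : ℝ)| ≤ 2 * j * (W : ℝ) ^ 2 := by
  have a := mul_le_mul_of_nonneg_left (show ce l W ξ ≤ (W : ℝ) ^ 2 by
    linarith [le_abs_self (ce l W ξ), abs_nonneg (ce l W ξ)]) h.l0.le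
  linarith [h.ce_eq ξ, mul_le_mul_of_nonneg_right h.hi (sq_nonneg (W : ℝ))]

lemma far (e : ℕ) (ξ : ℤ) : ((ξ : ℝ) ^ 2) ^ e ≤ (j ^ 2 * (W : ℝ) ^ 4) ^ e * yl l W ξ ^ e := by
  have a := h.l0
  have b := h.w1
  have c := h.hi
  rw [← mul_pow]
  refine pow_le_pow_left₀ (sq_nonneg _) ?_ _
  rw [yl, ← mul_div_assoc, le_div_iff₀ (by positivity), mul_comm]
  gcongr

lemma mem (k0 : 0 ≤ ξ) (k : |ce l W ξ| ≤ W) : ξ ∈ winL l W := by
  have a := h.ce_eq ξ
  have b := mul_le_mul_of_nonneg_left (abs_le.1 k).1 h.l0.le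
  have c := mul_le_mul_of_nonneg_left (abs_le.1 k).2 h.l0.le
  rw [abs_of_nonneg (Int.cast_nonneg k0)] at a
  rw [winL, Finset.mem_Icc, Int.ceil_le, Int.le_floor]
  constructor <;> linarith

lemma ce_n : |ce l W (nq l W)| ≤ j / 2 := by
  have a := nq_near h.l0.le W
  have b := h.ce_eq (nq l W)
  rw [Int.cast_natCast, Nat.abs_cast] at b
  rw [← b, abs_mul, abs_of_pos h.l0] at a
  have c := mul_le_mul_of_nonneg_right a (zero_le_one.trans h.j1)
  nlinarith [h.jl, abs_nonneg (ce l W (nq l W))]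

lemma n0 : 0 < nq l W := by
  refine Nat.floor_pos.2 ?_
  have a := mul_le_mul_of_nonneg_left h.w h.l0.le
  have b := mul_le_mul_of_nonneg_left (le_self_pow₀ h.w1 two_ne_zero) h.l0.le
  linarith [h.jl]

end Sc

lemma top (h : Sc j l W) (hz : Sq z) (hN : NrL l W z ≤ K * amp M W ^ 2)
    (hJ : JkL (2 * M + 4) l W z ≤ K * amp M W ^ 2 / (W : ℝ) ^ 4) :
    Ar (2 * M + 3) z ≤ (Ar 2 z + (2 * j) ^ (2 * M + 3) * (K + 4 * j ^ 2 * S1) +
      ((j ^ 2) ^ (2 * M + 4) * K + S0)) * (W : ℝ) ^ (2 * M + 6) := by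
  have w := h.w1
  have j1 := h.j1
  have w0 : (0 : ℝ) < W := by linarith
  have A0 : 0 < amp M W := by unfold amp; positivity
  have Y0 : 0 < (W : ℝ) ^ (2 * M + 6) := by positivity
  have c1 : ((W : ℝ) ^ 2) ^ (2 * M + 3) * amp M W = (W : ℝ) ^ (2 * M + 6) := by
    unfold amp; field_simp; ring
  have c2 : ((W : ℝ) ^ 4) ^ (2 * M + 4) * (amp M W ^ 2 / (W : ℝ) ^ 4) =
      ((W : ℝ) ^ (2 * M + 6)) ^ 2 := by
    unfold amp; field_simp; ring
  have g := hasSum_le (fun ξ => ?_) (hz.dec (2 * M + 3)).hasSum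
    ((((hz.dec 2).hasSum.mul_left ((W : ℝ) ^ (2 * M + 6))).add
      ((((sNr hz.dec l W).div_const (amp M W)).add
        (((hS1 (-(nq l W : ℤ))).add (hS1 (nq l W))).mul_left (amp M W * (2 * j ^ 2)))).mul_left
        ((2 * j * (W : ℝ) ^ 2) ^ (2 * M + 3)))).add
      ((((sJk hz.dec (2 * M + 4) l W).mul_left ((j ^ 2 * (W : ℝ) ^ 4) ^ (2 * M + 4))).div_const
        ((W : ℝ) ^ (2 * M + 6))).add (hS0.mul_left ((W : ℝ) ^ (2 * M + 6)))))
  · refine g.trans ?_
    have a : NrL l W z / amp M W ≤ K * amp M W := by rw [div_le_iff₀ A0]; linarith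
    have b : (j ^ 2 * (W : ℝ) ^ 4) ^ (2 * M + 4) * JkL (2 * M + 4) l W z / (W : ℝ) ^ (2 * M + 6) ≤
        (j ^ 2) ^ (2 * M + 4) * K * (W : ℝ) ^ (2 * M + 6) := by
      rw [div_le_iff₀ Y0, mul_assoc, ← sq, ← c2, mul_pow]
      refine (mul_le_mul_of_nonneg_left hJ (by positivity)).trans_eq (by ring)
    have c := mul_le_mul_of_nonneg_left a
      (show 0 ≤ (2 * j * (W : ℝ) ^ 2) ^ (2 * M + 3) by positivity)
    rw [mul_pow (2 * j)] at c ⊢
    unfold Ar
    linear_combination b + c + ((2 * j) ^ (2 * M + 3) * (K + 4 * j ^ 2 * S1)) * c1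
  have y := yl0 l W ξ
  have n := norm_nonneg (z ξ)
  by_cases k1 : |ξ| ≤ W
  · have k : |(ξ : ℝ)| ≤ W := by exact_mod_cast k1
    refine le_add_of_le_of_nonneg (le_add_of_le_of_nonneg ?_ (by split_ifs <;> positivity))
      (by split_ifs <;> positivity)
    rw [← mul_assoc, show 2 * M + 3 = 2 * M + 1 + 2 by omega, pow_add]
    gcongr
    exact (pow_le_pow_left₀ (abs_nonneg _) k _).trans (pow_le_pow_right₀ w (by omega))
  by_cases k2 : 2 * |ce l W ξ| ≤ (W : ℝ) ^ 2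
  · refine le_add_of_le_of_nonneg (le_add_of_nonneg_of_le (by positivity) ?_)
      (by split_ifs <;> positivity)
    have t0 : 0 < 1 + ce l W ξ ^ 2 := by positivity
    rw [if_pos k2]
    refine mul_le_mul (pow_le_pow_left₀ (abs_nonneg _) (h.near k2) _) ?_ n (by positivity)
    have a := amgm (x := ‖z ξ‖) (y := 1) (div_pos A0 t0)
    have b : 1 / (1 + (|(ξ : ℝ)| - nq l W) ^ 2) ≤ 1 / (1 + ((ξ : ℝ) + (-(nq l W : ℤ) : ℤ)) ^ 2) +
        1 / (1 + ((ξ : ℝ) + (nq l W : ℤ)) ^ 2) := by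
      push_cast
      rcases abs_choice (ξ : ℝ) with e | e <;> rw [e]
      · exact le_add_of_le_of_nonneg (le_of_eq (by ring)) (by positivity)
      · exact le_add_of_nonneg_of_le (by positivity) (le_of_eq (by ring))
    have c : 1 / (1 + ce l W ξ ^ 2) ≤ 2 * j ^ 2 * (1 / (1 + (|(ξ : ℝ)| - nq l W) ^ 2)) := by
      have d := pow_le_pow_left₀ (abs_nonneg _) (h.ce_le ξ) 2
      rw [sq_abs] at d
      rw [mul_one_div, div_le_div_iff₀ t0 (by positivity), ← sq_abs (ce l W ξ)]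
      nlinarith [sq_nonneg (j * |ce l W ξ| - 1 / 2)]
    refine (le_of_eq_of_le (mul_one _).symm a).trans (add_le_add (le_of_eq ?_) ?_)
    · field_simp
    · rw [one_pow, mul_one, div_eq_mul_one_div, mul_assoc]
      exact mul_le_mul_of_nonneg_left (c.trans (mul_le_mul_of_nonneg_left b (by positivity))) A0.le
  · refine le_add_of_nonneg_of_le (by rw [if_neg k2]; positivity) ?_
    have x0 : (ξ : ℝ) ≠ 0 := Int.cast_ne_zero.2 (by rintro rfl; simp at k1)
    rw [if_pos ⟨not_le.1 k1, not_le.1 k2⟩]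
    have a := amgm (x := |(ξ : ℝ)| ^ (2 * M + 4) * ‖z ξ‖) (y := |(ξ : ℝ)|⁻¹) Y0
    refine (le_of_eq_of_le (by field_simp; ring) a).trans (add_le_add ?_ (le_of_eq ?_))
    · gcongr
      rw [← mul_assoc, mul_pow, mul_add ((_ : ℝ) ^ _), pow_right_comm, sq_abs]
      gcongr
      exact le_add_of_le_of_nonneg (h.far _ ξ) (by positivity)
    · rw [inv_pow, sq_abs, one_div]

lemma hs {r : ℤ → ℝ} {B S : ℝ} (h : Sc j l W) (hz : Sq z) (hr : HasSum r S)
    (e : ∀ ξ, r ξ = if |ξ| = nq l W then 0 else ((ξ : ℝ) ^ 2) ^ (2 * M + 4) * ‖z ξ‖ ^ 2)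
    (b0 : ∀ ξ, ‖z ξ‖ ≤ j) (hB : An z ≤ B) (hK : 0 ≤ K) (hc : Cn M K W l z) :
    S ≤ (j * B + (j ^ 2) ^ (2 * M + 4) * K + (4 * j ^ 2) ^ (2 * M + 4) * (1 + 8 * j ^ 2) * K) *
      (XX M W ^ 2 / W) := by
  obtain ⟨hN, hJ, hc⟩ := hc
  have w := h.w1
  have j1 := h.j1
  have w0 : (0 : ℝ) < W := by linarith
  have A0 : 0 < amp M W := by unfold amp; positivity
  obtain ⟨m, hm⟩ : ∃ m, 2 * M + 4 = m := ⟨_, rfl⟩
  have X : XX M W ^ 2 = ((W : ℝ) ^ 4) ^ m * amp M W ^ 2 := by rw [XX, hm]; ring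
  have X1 : ((W : ℝ) ^ 2) ^ m ≤ XX M W ^ 2 / W := by
    rw [show XX M W ^ 2 / W = ((W : ℝ) ^ 2) ^ m * W ^ 7 by rw [XX, amp, ← hm]; field_simp; ring]
    exact le_mul_of_one_le_right (by positivity) (one_le_pow₀ w)
  have s : Summable fun ξ : ℤ => (1 + |(ξ : ℝ)|) * ‖z ξ‖ :=
    ((hz.dec 0).add (hz.dec 1)).congr fun ξ => by ring
  obtain ⟨f, hf⟩ : ∃ f : ℤ → ℝ, f = fun ξ =>
    if ξ ∈ winL l W then ce l W ξ ^ 2 * ‖z ξ‖ ^ 2 else 0 := ⟨_, rfl⟩
  have f0 : ∀ ξ, 0 ≤ f ξ := fun ξ => by rw [hf]; dsimp only; split_ifs <;> positivity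
  have f1 : HasSum f (∑ ξ ∈ winL l W, f ξ) :=
    hasSum_sum_of_ne_finset_zero fun ξ k => by rw [hf]; exact if_neg k
  have f2 : ∑ ξ ∈ winL l W, f ξ ≤ K / W * amp M W ^ 2 := by
    rw [momL, div_le_iff₀ (by positivity)] at hc
    exact (Finset.sum_congr rfl fun ξ k => by rw [hf]; exact if_pos k).trans_le hc
  rw [hm] at hJ e ⊢
  have g := hasSum_le (fun ξ => ?_) hr ((((s.hasSum.mul_left (((W : ℝ) ^ 2) ^ m * j)).add
    ((sJk hz.dec m l W).mul_left ((j ^ 2 * (W : ℝ) ^ 4) ^ m))).add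
    ((sNr hz.dec l W).mul_left ((4 * j ^ 2 * (W : ℝ) ^ 4) ^ m / W))).add
    ((f1.add ((Equiv.neg ℤ).hasSum_iff.2 f1)).mul_left
      ((4 * j ^ 2 * (W : ℝ) ^ 4) ^ m * (4 * j ^ 2))))
  · refine g.trans ?_
    have a1 : ((W : ℝ) ^ 2) ^ m * j * An z ≤ XX M W ^ 2 / W * j * B := by
      have : 0 ≤ An z := tsum_nonneg fun _ => by positivity
      gcongr
    have a2 : (j ^ 2 * (W : ℝ) ^ 4) ^ m * JkL m l W z ≤ (j ^ 2) ^ m * K * (XX M W ^ 2 / W) := by
      refine (mul_le_mul_of_nonneg_left hJ (by positivity)).trans ?_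
      rw [X, mul_pow, show (j ^ 2) ^ m * ((W : ℝ) ^ 4) ^ m * (K * amp M W ^ 2 / (W : ℝ) ^ 4) =
        (j ^ 2) ^ m * K * (((W : ℝ) ^ 4) ^ m * amp M W ^ 2 / (W : ℝ) ^ 4) by ring]
      gcongr
      exact le_self_pow₀ w (by norm_num)
    have a3 := mul_le_mul_of_nonneg_left hN
      (show 0 ≤ (4 * j ^ 2 * (W : ℝ) ^ 4) ^ m / W by positivity)
    have a4 := mul_le_mul_of_nonneg_left f2
      (show 0 ≤ (4 * j ^ 2 * (W : ℝ) ^ 4) ^ m * (4 * j ^ 2) by positivity)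
    rw [mul_pow (4 * j ^ 2)] at a3 a4 ⊢
    rw [X] at a1 a2 ⊢
    unfold An at a1
    linear_combination a1 + a2 + a3 + 2 * a4
  have y := yl0 l W ξ
  have n := norm_nonneg (z ξ)
  have p1 := f0 ξ
  have p2 := f0 (-ξ)
  change r ξ ≤ _ + _ * (f ξ + f (-ξ))
  rw [e]
  by_cases k3 : |ξ| = nq l W
  · rw [if_pos k3]
    split_ifs <;> positivity
  rw [if_neg k3]
  by_cases k2 : 2 * |ce l W ξ| ≤ (W : ℝ) ^ 2
  · have nb : ((ξ : ℝ) ^ 2) ^ m ≤ (4 * j ^ 2 * (W : ℝ) ^ 4) ^ m := by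
      rw [← sq_abs, show 4 * j ^ 2 * (W : ℝ) ^ 4 = (2 * j * W ^ 2) ^ 2 by ring]
      exact pow_le_pow_left₀ (by positivity) (pow_le_pow_left₀ (abs_nonneg _) (h.near k2) _) _
    rcases le_total |ce l W ξ| W with k0 | k0
    · refine le_add_of_nonneg_of_le (by split_ifs <;> positivity) ?_
      have q : ce l W ξ ^ 2 * ‖z ξ‖ ^ 2 ≤ f ξ + f (-ξ) := by
        rcases le_total 0 ξ with k | k
        · exact le_add_of_le_of_nonneg (by rw [hf]; exact (if_pos (h.mem k k0)).ge) p2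
        · have c : ce l W (-ξ) = ce l W ξ := by rw [ce, ce, Int.cast_neg, abs_neg]
          refine le_add_of_nonneg_of_le p1 ?_
          rw [hf]
          refine le_of_eq_of_le ?_ (if_pos (h.mem (neg_nonneg.2 k) (c ▸ k0))).ge
          rw [c, hz.cj, norm_conj]
      rw [mul_assoc]
      refine mul_le_mul nb (le_trans ?_ (mul_le_mul_of_nonneg_left q (by positivity)))
        (by positivity) (by positivity)
      rw [← mul_assoc]
      exact le_mul_of_one_le_left (by positivity) (h.off k3)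
    · refine le_add_of_le_of_nonneg (le_add_of_nonneg_of_le (by split_ifs <;> positivity) ?_)
        (by positivity)
      rw [if_pos k2, ← mul_assoc, ← sq_abs (ce l W ξ), div_mul_eq_mul_div, mul_div_assoc]
      refine mul_le_mul_of_nonneg_right (nb.trans (le_mul_of_one_le_right (by positivity) ?_))
        (by positivity)
      rw [one_le_div w0]
      nlinarith
  refine le_add_of_le_of_nonneg (le_add_of_le_of_nonneg ?_ (by rw [if_neg k2, mul_zero]))
    (by positivity)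
  by_cases k1 : |ξ| ≤ W
  · have k : |(ξ : ℝ)| ≤ W := by exact_mod_cast k1
    refine le_add_of_le_of_nonneg ?_ (by split_ifs <;> positivity)
    rw [← sq_abs, mul_assoc, sq ‖z ξ‖]
    gcongr
    · exact b0 ξ
    · exact le_mul_of_one_le_left n (by linarith [abs_nonneg (ξ : ℝ)])
  · refine le_add_of_nonneg_of_le (by positivity) ?_
    rw [if_pos ⟨not_le.1 k1, not_le.1 k2⟩, ← mul_assoc, mul_add]
    gcongr
    exact le_add_of_le_of_nonneg (h.far _ ξ) (by positivity)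

lemma per_it (hκ : Per (2 * π) κ) (a : ℕ) : Per (2 * π) (iteratedDeriv a κ) :=
  ⟨by rw [iteratedDeriv_eq_iterate]; exact hκ.smooth.iterate_deriv _, fun s => by
    rw [← congrFun (iteratedDeriv_comp_add_const a κ (2 * π)) s, funext hκ.per]⟩

lemma sup (hF : St_FOU) (hκ : Per (2 * π) κ) (hb : Bk j κ) (w : (1 : ℝ) ≤ W) {c : ℝ} (c0 : 0 ≤ c)
    (t : Ar (2 * M + 3) (fc κ) ≤ c * (W : ℝ) ^ (2 * M + 6)) {a : ℕ} (ha : a ≤ 2 * M + 3) (s : ℝ) :
    |iteratedDeriv a κ s| ≤ (j + j * S0 + c) * lam M W ^ (a - 2) := by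
  obtain ⟨j0, -, b2, -⟩ := low hF hκ hb
  obtain ⟨q, -, -, -, -, -, f⟩ := hF κ hκ
  have s0 := mul_nonneg j0 S0_nonneg
  have l1 : 1 ≤ lam M W := Real.one_le_rpow w (by positivity)
  have l2 : lam M W ^ (2 * M + 1) = (W : ℝ) ^ (2 * M + 6) := by
    rw [lam, ← Real.rpow_natCast, ← Real.rpow_mul (by linarith), div_mul_cancel₀ _ (by positivity),
      Real.rpow_natCast]
  rcases le_total a 2 with h | h
  · rw [Nat.sub_eq_zero_of_le h, pow_zero, mul_one]
    linarith [hb a (by omega) s]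
  obtain ⟨b, rfl⟩ := Nat.exists_eq_add_of_le' h
  obtain ⟨d, hd⟩ := Nat.exists_eq_add_of_le (show b ≤ 2 * M + 1 by omega)
  rw [← l2, ← div_le_iff₀ (by positivity)] at t
  have := HasSum.norm_le_of_bounded ((hF _ (per_it hκ (b + 2))).2.2.2.2.2.1 s)
    (((q.dec 2).hasSum.add
    ((q.dec (2 * M + 3)).hasSum.div_const (lam M W ^ (2 * M + 1)))).mul_left (lam M W ^ b))
    fun ξ => by
      rw [norm_mul, show I * ξ * s = I * (ξ * s : ℝ) by push_cast; ring, nex, mul_one, f, norm_mul,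
        norm_pow, norm_mul, norm_I, one_mul, norm_intCast, ← div_mul_eq_mul_div, ← add_mul,
        ← mul_assoc, mul_add]
      refine mul_le_mul_of_nonneg_right ?_ (norm_nonneg _)
      rcases le_total |(ξ : ℝ)| (lam M W) with k | k
      · refine le_add_of_le_of_nonneg ?_ (by positivity)
        rw [pow_add]
        gcongr
      · refine le_add_of_nonneg_of_le (by positivity) ?_
        rw [show 2 * M + 3 = b + 2 + d by omega, hd, pow_add _ b d, pow_add _ _ d, ← mul_div_assoc,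
          mul_div_mul_left _ _ (by positivity), mul_div_assoc]
        exact le_mul_of_one_le_right (by positivity) ((one_le_div (by positivity)).2 (by gcongr))
  rw [norm_real, Real.norm_eq_abs] at this
  rw [Nat.add_sub_cancel, mul_comm]
  refine this.trans (mul_le_mul_of_nonneg_left ?_ (by positivity))
  unfold Ar at t b2
  linarith

lemma per_tnn (M W n : ℕ) (a : ℂ) : Per (2 * π) (tnn M W n a) where
  smooth := contDiff_const.mul (reCLM.contDiff.comp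
    (contDiff_const.mul (contDiff_const.mul ofRealCLM.contDiff).cexp))
  per s := by
    have : exp (I * n * (2 * π)) = 1 := by
      rw [← exp_nat_mul_two_pi_mul_I n]; congr 1; ring
    simp only [tnn, ofReal_add, mul_add, exp_add, ofReal_mul, ofReal_ofNat, this, mul_one]

lemma fc_tnn (M W n : ℕ) (a : ℂ) (ξ : ℤ) : fc (tnn M W n a) ξ =
    amp M W * ((if ξ = n then a else 0) + if ξ = -n then conj a else 0) := by
  have e : ∀ s : ℝ, (tnn M W n a s : ℂ) * exp (-(I * ξ * s)) = amp M W *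
      (a * (exp (I * (n : ℤ) * s) * exp (-(I * ξ * s))) +
      conj a * (exp (I * (-n : ℤ) * s) * exp (-(I * ξ * s)))) := fun s => by
    rw [tnn, ofReal_mul, re_eq_add_conj]
    simp only [map_mul, ← exp_conj, conj_I, conj_ofReal, conj_natCast]
    push_cast
    simp only [neg_mul, mul_neg]
    ring
  have p : (2 * π : ℂ) ≠ 0 := by exact_mod_cast Real.two_pi_pos.ne'
  rw [fc]
  simp_rw [e]
  rw [intervalIntegral.integral_const_mul, intervalIntegral.integral_add]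
  · simp only [intervalIntegral.integral_const_mul, int_ex]
    split_ifs <;> field_simp <;> ring
  all_goals exact Continuous.intervalIntegrable (by fun_prop) _ _

lemma res (hz : Sq z) {n : ℕ} (n0 : 0 < n) {A : ℝ} (A0 : A ≠ 0) (M : ℕ) (ξ : ℤ) {c : ℝ}
    (hc : c = (-1) ^ M * (n : ℝ) ^ (2 * M + 4)) :
    ‖(I * ξ) ^ (2 * M + 4) * z ξ - A * ((if ξ = n then c * (z n / A) else 0) +
      if ξ = -n then conj (c * (z n / A)) else 0)‖ ^ 2 =
      if |ξ| = n then 0 else ((ξ : ℝ) ^ 2) ^ (2 * M + 4) * ‖z ξ‖ ^ 2 := by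
  have a : (A : ℂ) ≠ 0 := ofReal_ne_zero.2 A0
  have i : I ^ (2 * M + 4) = (-1) ^ M := by rw [pow_add, pow_mul, I_sq, I_pow_four, mul_one]
  by_cases k : ξ = n
  · rw [if_pos k, if_neg (by omega), if_pos (by rw [k, Nat.abs_cast]), k, hc, mul_pow, i, sq_eq_zero_iff,
      norm_eq_zero]
    push_cast
    field_simp
    ring
  by_cases k' : ξ = -n
  · rw [if_neg k, if_pos k', if_pos (by rw [k', abs_neg, Nat.abs_cast]), k', hz.cj, map_mul, map_div₀, conj_ofReal,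
      conj_ofReal, hc, mul_pow, i, sq_eq_zero_iff, norm_eq_zero]
    push_cast
    rw [Even.neg_pow (n := 2 * M + 4) ⟨M + 2, by ring⟩]
    field_simp
    ring
  rw [if_neg k, if_neg k', if_neg (by rw [abs_eq n.cast_nonneg]; exact not_or.2 ⟨k, k'⟩), add_zero,
    mul_zero, sub_zero, norm_mul, norm_pow, norm_mul,
    norm_I, one_mul, norm_intCast, mul_pow, pow_right_comm, sq_abs]

end TONL

open TONL in
theorem st_tonl (hF : St_FOU) : St_TONL := by
  intro M j K j1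
  obtain ⟨c1, e1⟩ : ∃ c, c = j * (1 + j * (1 + 2 * S0)) + (j ^ 2) ^ (2 * M + 4) * K +
    (4 * j ^ 2) ^ (2 * M + 4) * (1 + 8 * j ^ 2) * K := ⟨_, rfl⟩
  obtain ⟨c2, e2⟩ : ∃ c, c = j * S0 + (2 * j) ^ (2 * M + 3) * (K + 4 * j ^ 2 * S1) +
    ((j ^ 2) ^ (2 * M + 4) * K + S0) := ⟨_, rfl⟩
  refine ⟨max (max (2 * π * c1) (j + j * S0 + c2)) (max (1 + K) (4 * j ^ 2 * K)), ⌈j⌉₊,
    fun W hW κ l hκ hb lo hi hc => ?_⟩
  generalize hK' : max (max (2 * π * c1) (j + j * S0 + c2)) (max (1 + K) (4 * j ^ 2 * K)) = K'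
  have hk := hK'.le
  simp only [max_le_iff] at hk
  obtain ⟨⟨k1, k2⟩, k3, k4⟩ := hk
  have h : Sc j l W := ⟨j1, lo, hi, Nat.ceil_le.1 hW⟩
  have w := h.w1
  have A0 : 0 < amp M W := by unfold amp; positivity
  obtain ⟨-, b0, b2, bn⟩ := low hF hκ hb
  obtain ⟨q, -, -, -, -, -, f⟩ := hF κ hκ
  have cn := h.ce_n
  have n2 : ‖fc κ (nq l W) / amp M W‖ ^ 2 = ‖fc κ (nq l W)‖ ^ 2 / amp M W ^ 2 := by
    rw [norm_div, norm_real, div_pow, Real.norm_eq_abs, sq_abs]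
  have n3 : ‖fc κ (nq l W) / amp M W‖ ^ 2 ≤ K := by
    have a := le_hasSum (sNr q.dec l W) (nq l W) fun ξ _ => by split_ifs <;> positivity
    rw [if_pos (by linarith [h.w, le_self_pow₀ w two_ne_zero])] at a
    rw [n2, div_le_iff₀ (by positivity)]
    exact (le_mul_of_one_le_left (by positivity) (le_add_of_nonneg_right (by positivity))).trans
      (a.trans hc.1)
  have hK : 0 ≤ K := (sq_nonneg _).trans n3
  refine ⟨⟨?_, fun a ha s => ?_, ?_⟩, ?_⟩
  · obtain ⟨c, e⟩ : ∃ c, c = (-1) ^ M * (nq l W : ℝ) ^ (2 * M + 4) := ⟨_, rfl⟩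
    have p1 := per_it hκ (2 * M + 4)
    have p2 := per_tnn M W (nq l W) (c * (fc κ (nq l W) / amp M W))
    have pr : Per (2 * π) fun s => iteratedDeriv (2 * M + 4) κ s -
        tnn M W (nq l W) (c * (fc κ (nq l W) / amp M W)) s :=
      ⟨p1.smooth.sub p2.smooth, fun s => by rw [p1.per, p2.per]⟩
    obtain ⟨qr, fr, -⟩ := hF _ pr
    have g := hs h q (Dec.sq qr.dec 0).hasSum (fun ξ => by
      rw [pow_zero, one_mul, fc_sub p1.smooth.continuous p2.smooth.continuous, fc_tnn, f]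
      exact res q h.n0 A0.ne' M ξ e) b0 bn hK hc
    have g2 := fr 0
    simp only [mint, mono, List.map_cons, List.map_nil, List.prod_cons, List.prod_nil, mul_one,
      iteratedDeriv_zero, Hs, mul_zero, pow_zero, one_mul] at g2
    simp only [pow_zero, one_mul] at g
    rw [← e1] at g
    rw [← e, intervalIntegral.integral_congr (g := fun s => (iteratedDeriv (2 * M + 4) κ s -
        tnn M W (nq l W) (c * (fc κ (nq l W) / amp M W)) s) * (iteratedDeriv (2 * M + 4) κ s -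
        tnn M W (nq l W) (c * (fc κ (nq l W) / amp M W)) s)) fun s _ => by
      simp only [tnn, mul_assoc (c : ℂ), re_ofReal_mul]
      ring, g2, mul_div_assoc]
    have a := mul_le_mul_of_nonneg_right k1 (show 0 ≤ XX M W ^ 2 / W by positivity)
    linarith [mul_le_mul_of_nonneg_left g Real.two_pi_pos.le]
  · have c0 : 0 ≤ c2 := by have := S0_nonneg; have := S1_nonneg; rw [e2]; positivity
    refine (sup hF hκ hb w c0 ((top h q hc.1 hc.2.1).trans ?_) ha s).trans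
      (mul_le_mul_of_nonneg_right k2 (by unfold lam; positivity))
    exact mul_le_mul_of_nonneg_right (by linarith) (by positivity)
  · nlinarith [norm_nonneg (fc κ (nq l W) / amp M W)]
  · have i := h.mem (Int.natCast_nonneg (nq l W)) (by linarith [h.w])
    have a := hc.2.2
    rw [momL, ← Finset.add_sum_erase _ _ i, div_le_iff₀ (by positivity)] at a
    have b : ∑ ξ ∈ (winL l W).erase (nq l W), ce l W ξ ^ 0 * ‖fc κ ξ‖ ^ 2 ≤
        4 * j ^ 2 * ∑ ξ ∈ (winL l W).erase (nq l W), ce l W ξ ^ 2 * ‖fc κ ξ‖ ^ 2 := by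
      rw [Finset.mul_sum]
      refine Finset.sum_le_sum fun ξ k => ?_
      obtain ⟨u, v⟩ := Finset.mem_erase.1 k
      have v0 : 0 ≤ ξ := le_trans (Int.ceil_nonneg (mul_nonneg h.l0.le
        (sub_nonneg.2 (le_self_pow₀ w two_ne_zero)))) (Finset.mem_Icc.1 v).1
      rw [pow_zero, ← mul_assoc]
      exact mul_le_mul_of_nonneg_right (h.off (by rwa [abs_of_nonneg v0])) (by positivity)
    rw [momL, ← Finset.add_sum_erase _ _ i, n2, pow_zero, one_mul, add_div, sub_add_cancel_left,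
      abs_neg, abs_of_nonneg (by positivity), div_le_iff₀ (by positivity)]
    have c := mul_le_mul_of_nonneg_left ((le_add_of_nonneg_left (by positivity)).trans a)
      (show 0 ≤ 4 * j ^ 2 by positivity)
    have d := mul_le_mul_of_nonneg_right k4 (show 0 ≤ amp M W ^ 2 / W by positivity)
    linear_combination b + c + d

end Pool.Agent.Lib.IS3
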