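import Pool.Agent.Lib.IS3.Kit
import Pool.Agent.Lib.IS2.B_TONE

/-! Block TONM: a marker on one curve forces tones on all curves of both families. -/

open scoped ContDiff ComplexConjugate Topology Real
open Complex MeasureTheory Set Filter

noncomputable section

namespace Pool.Agent.Lib.IS3

open Pool.Agent.Lib.ISO Pool.Agent.Lib.IS2

namespace TONM

variable {M W : ℕ} {K K' l A : ℝ} {z : ℤ → ℂ}

lemma cn_mono (h : Cn M K W l z) (hK : K ≤ K') : Cn M K' W l z :=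
  ⟨h.1.trans (by gcongr), h.2.1.trans (by gcongr), h.2.2.trans (by gcongr)⟩

lemma pow_le (hW : 1 ≤ W) (hK : K ≤ K') (h0 : 0 ≤ K') :
    K * A ^ 2 / (W : ℝ) ^ 8 ≤ K' * A ^ 2 / (W : ℝ) ^ 4 := by
  have w : (1 : ℝ) ≤ W := by exact_mod_cast hW
  calc K * A ^ 2 / (W : ℝ) ^ 8 ≤ K' * A ^ 2 / (W : ℝ) ^ 8 := by gcongr
    _ ≤ K' * A ^ 2 / (W : ℝ) ^ 4 := by gcongr; norm_num

lemma cz {N : ℕ} {j : ℝ} {l : Fin N → ℝ} {k : Fin N → ℝ → ℝ} (hF : St_FOU) (h : Cl j l k) :
    Cz j (1 + j * (1 + 2 * TONE.S0)) l fun i => fc (k i) :=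
  ⟨h.one_le, h.card, fun i => (hF _ (h.per i)).1,
    fun i => (TONE.low hF (h.per i) (h.bk i)).2.2.2, h.lo, h.hi⟩

lemma sum_le {N : ℕ} {j e : ℝ} {l x y : Fin N → ℝ} (hj : 1 ≤ j) (hN : (N : ℝ) ≤ j)
    (lo : ∀ i, j⁻¹ ≤ l i) (he : 0 ≤ e) (h : ∀ i, |x i - y i| ≤ e) :
    |∑ i, x i / l i - ∑ i, y i / l i| ≤ j * j * e := by
  have j0 : 0 < j := by linarith
  rw [← Finset.sum_sub_distrib]
  refine (Finset.abs_sum_le_sum_abs _ _).trans ((Finset.sum_le_card_nsmul _ _ (j * e) fun i _ => ?_).trans ?_)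
  · have p : 0 < l i := (inv_pos.2 j0).trans_le (lo i)
    rw [← sub_div, abs_div, abs_of_pos p, div_le_iff₀ p]
    have : 1 ≤ j * l i := by
      have := mul_le_mul_of_nonneg_left (lo i) j0.le
      rwa [mul_inv_cancel₀ j0.ne'] at this
    nlinarith [h i]
  · rw [Finset.card_univ, Fintype.card_fin, nsmul_eq_mul, mul_assoc]
    gcongr

end TONM

theorem st_tonm (hF : St_FOU) (hMKS : St_MKS) (hK4M : St_K4M) (hTONL : St_TONL) (hPOSL : St_POSL) :
    St_TONM := by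
  intro C M j
  by_cases hj : 1 ≤ j
  swap
  · exact ⟨0, 0, fun W _ N N' l k l' k' i0 h => absurd h.one_le hj⟩
  obtain ⟨K1, W1, h1⟩ := hMKS M j hj
  obtain ⟨K2, W2, h2⟩ := hK4M C M j (1 + j * (1 + 2 * TONE.S0))
  obtain ⟨γ, Λ, -, hP⟩ := hPOSL 0
  obtain ⟨K3, W3, h3⟩ := hTONL M j (|K1| + |K2|) hj
  have p1 := abs_nonneg K1
  have p2 := abs_nonneg K2
  have p3 := abs_nonneg K3
  have q1 := le_abs_self K1
  have q2 := le_abs_self K2
  have q3 := le_abs_self K3
  have p4 : 0 ≤ j * j * |K3| := by positivity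
  refine ⟨|K1| + |K2| + |K3| + j * j * |K3|, max (max W1 W2) (max W3 (max 4 (⌈2 * j⌉₊ + 1))), ?_⟩
  intro W hW N N' l k l' k' i0 hc hc' hI hM hl
  simp only [max_le_iff] at hW
  obtain ⟨⟨w1, w2⟩, w3, w4, w5⟩ := hW
  have wj : 2 * j < W := (Nat.le_ceil _).trans_lt (by exact_mod_cast w5)
  have W0 : (0 : ℝ) < W := by linarith
  have W1' : (1 : ℝ) ≤ W := by linarith
  have hA : 0 < amp M W := by unfold amp; positivity
  have cz := TONM.cz hF hc
  have cz' := TONM.cz hF hc'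
  have hB : 1 ≤ 1 + j * (1 + 2 * TONE.S0) := by
    have := TONE.S0_nonneg
    have : 0 ≤ j * (1 + 2 * TONE.S0) := by positivity
    linarith
  obtain ⟨c', s'⟩ := h2 W w2 N N' l _ l' _ i0 cz cz' (hI _ hB cz.an cz'.an) hM hl
  have m0 : Mk M W (env 0) (fc (k i0)) := by simpa using hM i0
  obtain ⟨n0, j0, -, -, -, t0, a0⟩ := (h1 W w1 _ (cz.sq i0)).2 m0
  have sil : ∀ i ≠ i0, Cn M (|K1| + |K2|) W (l i) (fc (k i)) ∧
      momL 0 (l i) W (amp M W) (fc (k i)) ≤ |K1| / W := fun i hi => by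
    have mi : Mk M W 0 (fc (k i)) := by simpa [hi] using hM i
    obtain ⟨n, jk⟩ := (h1 W w1 _ (cz.sq i)).1 (l i) (hc.lo i) (hc.hi i) mi
    have q := hP j W (amp M W) (l i) _ w4 wj (hc.lo i) (hc.hi i) hj (cz.sq i) hA
    have u0 := q.m0
    have u2 := q.m2
    have u := q.o0
    simp only [qL] at u0 u2 u
    have v : NrL (l i) W (fc (k i)) / amp M W ^ 2 ≤ |K1| / W := by
      rw [div_le_iff₀ (by positivity)]
      calc _ ≤ K1 * amp M W ^ 2 / W := n
        _ ≤ |K1| * amp M W ^ 2 / W := by gcongr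
        _ = _ := by ring
    have v' : |K1| / W ≤ (|K1| + |K2|) / W := by gcongr; linarith
    have v0 : 0 ≤ |K1| / W := by positivity
    refine ⟨⟨n.trans ?_, jk.trans (TONM.pow_le (by omega) (by linarith) (by positivity)), by linarith⟩,
      by linarith⟩
    calc K1 * amp M W ^ 2 / W ≤ (|K1| + |K2|) * amp M W ^ 2 / W := by gcongr; linarith
      _ ≤ _ := div_le_self (by positivity) W1'
  have c : ∀ i, Cn M (|K1| + |K2|) W (l i) (fc (k i)) := fun i => by
    rcases eq_or_ne i i0 with rfl | hi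
    · rw [hl]
      exact ⟨n0.trans (by gcongr; linarith),
        j0.trans (TONM.pow_le (by omega) (by linarith) (by positivity)),
        t0.trans (by gcongr; linarith)⟩
    · exact (sil i hi).1
  have T := fun i => h3 W w3 (k i) (l i) (hc.per i) (hc.bk i) (hc.lo i) (hc.hi i) (c i)
  have T' := fun i => h3 W w3 (k' i) (l' i) (hc'.per i) (hc'.bk i) (hc'.lo i) (hc'.hi i)
    (TONM.cn_mono (c' i) (by linarith))
  refine ⟨_, _, fun i => (T i).1.mono (by linarith), fun i => (T' i).1.mono (by linarith), ?_,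
    fun i hi => ?_, ?_⟩
  · rw [hl, nq_one]
    push_cast
    exact a0.trans (by gcongr; linarith)
  · have := (abs_le.1 (T i).2).2
    have := (sil i hi).2
    calc _ ≤ (|K1| + K3) / W := by rw [add_div]; linarith
      _ ≤ _ := div_le_div_of_nonneg_right (by linarith) W0.le
  · have e := TONM.sum_le hj hc'.card hc'.lo (e := |K3| / W) (by positivity)
      fun i => (T' i).2.trans (by gcongr)
    calc _ ≤ _ := abs_sub_le _ (∑ a, momL 0 (l' a) W (amp M W) (fc (k' a)) / l' a) _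
      _ ≤ j * j * (|K3| / W) + K2 / W := add_le_add e s'
      _ = (j * j * |K3| + K2) / W := by ring
      _ ≤ _ := div_le_div_of_nonneg_right (by linarith) W0.le

end Pool.Agent.Lib.IS3
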