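import Pool.Agent.Lib.IS3.Blue

/-! The generic set of the placement step is a dense `G_δ`. -/

open Set

noncomputable section

namespace Pool.Agent.Lib.IS3

open Pool.Agent.Lib.ISO

theorem st_top (hD : St_DEN) : St_TOP := by
  intro N
  haveI := (hD N).1
  haveI := (TopologicalSpace.countable_countableBasis (Fin N → ℂ × ℂ)).to_subtype
  have e : GP N = ⋂ i : (Fin N → Bool) × (Fin N → Bool) × (Fin N → Fin N) ×
      (Fin (4 * N + 1) → ℕ) × TopologicalSpace.countableBasis (Fin N → ℂ × ℂ),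
      (frontier (closure (Bs i.1 i.2.1 i.2.2.1 i.2.2.2.1 i.2.2.2.2)))ᶜ := by
    ext f
    rw [mem_iInter]
    exact ⟨fun h i => h _ _ _ _ _ i.2.2.2.2.2, fun h σ r cl μ U hU => h (σ, r, cl, μ, ⟨U, hU⟩)⟩
  rw [e]
  refine ⟨IsGδ.iInter fun _ => isClosed_frontier.isOpen_compl.isGδ,
    dense_iInter_of_isOpen (fun _ => isClosed_frontier.isOpen_compl) fun _ => ?_⟩
  rw [← interior_eq_empty_iff_dense_compl]
  exact interior_frontier isClosed_closure

end Pool.Agent.Lib.IS3
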