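import Pool.Agent.Lib.IS3.Kit
import Pool.Agent.Lib.IS2.B_TR1

/-! Row TR1m: the volume integral of the product of the two kernels, several curves. -/

open scoped ContDiff ComplexConjugate Topology Real Interval
open Complex MeasureTheory Set Filter

noncomputable section

namespace Pool.Agent.Lib.IS3

open Pool.Agent.Lib.ISO Pool.Agent.Lib.IS2

namespace TR1m

open K28 TR1

variable {N : ℕ} {μ : ℝ} {Ω : Set ℂ} {Γ : MC N}

theorem W_Kd (s t : XN N) : W μ (gn Γ t) (gp Γ s - gp Γ t) = Kdm μ Γ s t := by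
  have : rdot (-gn Γ t) (gp Γ t - gp Γ s) = rdot (gp Γ s - gp Γ t) (gn Γ t) := by simp [rdot]; ring
  rw [W, Kdm, Gr, LAY.rL_apply, this, cm]
  ring

theorem W_Nd (hA : St_A3) (hμ : 0 < μ) {v t : XN N} (h : gp Γ v - gp Γ t ≠ 0) :
    fderiv ℝ (W μ (gn Γ t)) (gp Γ v - gp Γ t) (-gn Γ v) = -Ndm μ Γ v t := by
  have e1 : rdot (gp Γ v - gp Γ t) (-gn Γ v) = rdot (gn Γ v) (gp Γ t - gp Γ v) := by
    simp [rdot]; ring
  have e2 : rdot (gp Γ v - gp Γ t) (gn Γ t) = -rdot (gn Γ t) (gp Γ t - gp Γ v) := by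
    simp [rdot]; ring
  have e3 : rdot (-gn Γ v) (gn Γ t) = -rdot (gn Γ v) (gn Γ t) := by simp [rdot]
  rw [dW hA hμ _ _ h, LAY.D_Gr hA hμ _ h, LAY.rL_apply, LAY.rL_apply, e1, e2, e3, Ndm, Gr, cm]
  ring

/-- weakly singular integrals over the domain -/
theorem vol (h : CDm Ω Γ) : ∃ C, ∀ s, IntegrableOn (fun x => ‖x - gp Γ s‖ ^ (-(5 / 4) : ℝ)) Ω ∧
    ∫ x in Ω, ‖x - gp Γ s‖ ^ (-(5 / 4) : ℝ) ≤ C := by
  obtain ⟨R, hR⟩ := h.bdd.closure.exists_norm_le
  have g := (LAY.int_rad (a := 5 / 4) (b := 1) (by norm_num) one_pos).const_mul (Real.exp (2 * R))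
  refine ⟨∫ z : ℂ, Real.exp (2 * R) * (‖z‖ ^ (-(5 / 4) : ℝ) * Real.exp (-(1 * ‖z‖))), fun s => ?_⟩
  have g1 := g.comp_sub_right (gp Γ s)
  have b : ∀ x ∈ Ω, ‖x - gp Γ s‖ ^ (-(5 / 4) : ℝ) ≤
      Real.exp (2 * R) * (‖x - gp Γ s‖ ^ (-(5 / 4) : ℝ) * Real.exp (-(1 * ‖x - gp Γ s‖))) := by
    intro x hx
    have h1 := norm_sub_le x (gp Γ s)
    rw [mul_left_comm, ← Real.exp_add]
    refine le_mul_of_one_le_right (by positivity) (Real.one_le_exp ?_)
    linarith [hR x (subset_closure hx), hR _ (h.mem_cl s)]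
  have m : Measurable fun x : ℂ => ‖x - gp Γ s‖ ^ (-(5 / 4) : ℝ) :=
    (continuous_id.sub continuous_const).norm.measurable.pow_const _
  have i : IntegrableOn (fun x => ‖x - gp Γ s‖ ^ (-(5 / 4) : ℝ)) Ω :=
    g1.integrableOn.mono' m.aestronglyMeasurable ((ae_restrict_mem h.opn.measurableSet).mono
      fun x hx => (Real.norm_of_nonneg (by positivity)).trans_le (b x hx))
  refine ⟨i, (setIntegral_mono_on i g1.integrableOn h.opn.measurableSet b).trans ?_⟩
  refine (setIntegral_le_integral g1 (ae_of_all _ fun x => by positivity)).trans_eq ?_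
  exact integral_sub_right_eq_self
    (fun z : ℂ => Real.exp (2 * R) * (‖z‖ ^ (-(5 / 4) : ℝ) * Real.exp (-(1 * ‖z‖)))) (gp Γ s)

/-- Green formula at a point of the curve -/
theorem green (hA : St_A3) (hL : St_LAYm) (hR : St_GRNm) (hV : St_VP) (hJ : St_JMPm) (hμ : 0 < μ)
    (h : CDm Ω Γ) {O : Set ℂ} {u : ℂ → ℝ} (hO : IsOpen O) (hc : closure Ω ⊆ O)
    (hu : ContDiffOn ℝ 2 u O) (s : XN N) :
    u (gp Γ s) / 2 = (∫ z in Ω, Gr μ (gp Γ s - z) * (μ ^ 2 * u z - lap u z)) +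
      (∫ v, Srm μ Γ s v * fderiv ℝ u (gp Γ v) (-gn Γ v) ∂nx N) +
      ∫ v, Krm μ Γ s v * u (gp Γ v) ∂nx N := by
  have cγ := h.rc.gp_cont
  have m := h.opn.measurableSet
  have ca : ∀ x ∈ closure Ω, ContDiffAt ℝ 2 u x := fun x hx => hu.contDiffAt (hO.mem_nhds (hc hx))
  set F : ℂ → ℝ := fun z => μ ^ 2 * u z - lap u z with hF
  have cF : ContinuousOn F (closure Ω) := fun x hx => by
    have d (a : ℂ) : ContinuousAt (fun z => fderiv ℝ (fun y => fderiv ℝ u y a) z a) x :=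
      (cd_dir (m := 0) (cd_dir (m := 1) (ca x hx) (by norm_num) a) (by norm_num) a).continuousAt
    exact ((continuousAt_const.mul (ca x hx).continuousAt).sub
      ((d 1).add (d I))).continuousWithinAt
  obtain ⟨B, hB⟩ := h.bdd.isCompact_closure.exists_bound_of_continuousOn cF
  obtain ⟨R, hR'⟩ := h.bdd.exists_norm_le
  have fin : IsFiniteMeasure (volume.restrict Ω) :=
    isFiniteMeasure_restrict.2 h.bdd.measure_lt_top.ne
  have l2 : MemLp (Ω.indicator F) 2 := (memLp_indicator_iff_restrict m).2 (MemLp.of_bound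
    ((cF.mono subset_closure).aestronglyMeasurable m) B
    ((ae_restrict_mem m).mono fun x hx => hB x (subset_closure hx)))
  have cV := (hV μ _ hμ l2 ⟨R, fun z hz => indicator_of_notMem
    (fun e => absurd (hR' z e) (not_le.2 hz)) _⟩).1
  have eV : ∀ x, Vp μ (Ω.indicator F) x = ∫ z in Ω, Gr μ (x - z) * F z := fun x => by
    rw [Vp, ← integral_indicator m]
    refine integral_congr_ae (ae_of_all _ fun z => ?_)
    by_cases hz : z ∈ Ω <;> simp [hz]
  have pφ : CPm fun v => fderiv ℝ u (gp Γ v) (-gn Γ v) := by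
    refine ⟨continuous_iff_continuousAt.2 fun v => ?_, fun v => by
      simp only [h.rc.gp_per v, h.rc.gn_per v]⟩
    exact (ContinuousAt.comp (f := gp Γ) ((ca _ (h.mem_cl v)).fderiv_right (m := 0)
      (by norm_num)).continuousAt cγ.continuousAt).clm_apply h.rc.gn_cont.neg.continuousAt
  have pψ : CPm fun v => u (gp Γ v) := ⟨continuous_iff_continuousAt.2 fun v =>
    ContinuousAt.comp (f := gp Γ) (ca _ (h.mem_cl v)).continuousAt cγ.continuousAt,
    fun v => by simp only [h.rc.gp_per v]⟩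
  have cS := ((hL N Ω Γ h).2 μ hμ _ pφ.1.measurable (pφ.bd.imp fun _ a => a.2)).1
  have nb : (𝓝[Ω] (gp Γ s)).NeBot := mem_closure_iff_nhdsWithin_neBot.1 (h.mem_cl s)
  have t1 : Tendsto u (𝓝[Ω] (gp Γ s)) (𝓝 (u (gp Γ s))) :=
    (ca _ (h.mem_cl s)).continuousAt.continuousWithinAt
  have t2 := ((cV.fun_add cS).continuousAt (x := gp Γ s)).continuousWithinAt (s := Ω) |>.tendsto.add
    ((hJ μ N Ω Γ hμ h).2 _ pψ s)
  have e := tendsto_nhds_unique_of_eventuallyEq t1 t2 (by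
    filter_upwards [self_mem_nhdsWithin] with x hx
    have hx' := h.sub_compl hx
    have g := hR μ hμ N Ω Γ O u x h hO hc hu hx'
    have c1 : Continuous fun v => Gr μ (x - gp Γ v) := continuous_iff_continuousAt.2 fun v =>
      ContinuousAt.comp (f := fun v => x - gp Γ v)
        (c2G hA hμ (sub_ne_zero.2 (h.ne_curve hx v))).continuousAt (by fun_prop)
    rw [indicator_of_mem hx, integral_add (int_cont (c1.fun_mul pφ.1))
      (int_cont ((h.rc.DLx_cont1 hA hμ hx').fun_mul pψ.1))] at g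
    rw [g, eV, add_assoc]
    rfl)
  rw [eV] at e
  simp only [SLom] at e
  simp only [Srm]
  linarith

theorem out (hG : St_GCm) (h : CDm Ω Γ) (t : XN N) : ∀ᶠ r : ℝ in 𝓝[>] 0,
    gp Γ t - r * gn Γ t ∉ closure Ω ∧
      ∀ z ∈ closure Ω, ‖z - gp Γ t‖ ≤ 2 * ‖z - (gp Γ t - r * gn Γ t)‖ := by
  obtain ⟨c, hc, -, -, h3, h4⟩ := hG N Ω Γ h
  filter_upwards [Ioc_mem_nhdsGT hc] with r hr
  refine ⟨(h3 t r hr.1 hr.2).2, fun z hz => le_on_closure (f := fun z => ‖z - gp Γ t‖)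
    (g := fun z => 2 * ‖z - (gp Γ t - r * gn Γ t)‖) (fun z hz => ?_) (by fun_prop) (by fun_prop) hz⟩
  have a1 := h4 t z hz
  have a2 := norm_add_le (z - (gp Γ t - r * gn Γ t)) (((c - r : ℝ) : ℂ) * gn Γ t)
  have a3 := norm_sub_le (z - (gp Γ t - r * gn Γ t)) ((r : ℂ) * gn Γ t)
  rw [norm_mul, norm_real, Real.norm_of_nonneg (by linarith [hr.2] : 0 ≤ c - r),
    show z - (gp Γ t - r * gn Γ t) + ((c - r : ℝ) : ℂ) * gn Γ t = z - (gp Γ t - c * gn Γ t) by
      push_cast; ring] at a2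
  rw [norm_mul, norm_real, Real.norm_of_nonneg hr.1.le,
    show z - (gp Γ t - r * gn Γ t) - (r : ℂ) * gn Γ t = z - gp Γ t by ring] at a3
  linarith

end TR1m

open TR1 K28 in
theorem st_tr1m (hA : IS2.St_A3) (hG : St_GCm) (hL : IS2.St_LAY) (hLm : St_LAYm) (hR : St_GRNm)
    (hV : IS2.St_VP) (hJ : St_JMPm) (hN : St_NEUm) : St_TR1m := by
  intro N μ Γ Ω hp
  have h := hp.cd
  have hμ := hp.pos
  have cγ := h.rc.gp_cont
  have m := h.opn.measurableSet
  have mG := LAY.meas_Gr hA μ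
  obtain ⟨C, C0, hC⟩ := bG hA hμ
  obtain ⟨V, hV'⟩ := TR1m.vol h
  have maj : ∀ (s t : XN N) (D : ℝ), IntegrableOn (fun x => D * (‖x - gp Γ s‖ ^ (-(5 / 4) : ℝ) +
      ‖x - gp Γ t‖ ^ (-(5 / 4) : ℝ))) Ω := fun s t D => ((hV' s).1.add (hV' t).1).const_mul D
  have bd : ∀ (s t : XN N) (M a : ℝ) x, 0 ≤ M → |a| ≤ M * ‖x - gp Γ t‖⁻¹ → ‖Gr μ (gp Γ s - x) * a‖ ≤
      C * M * (‖x - gp Γ s‖ ^ (-(5 / 4) : ℝ) + ‖x - gp Γ t‖ ^ (-(5 / 4) : ℝ)) := by
    intro s t M a x M0 ha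
    rw [Real.norm_eq_abs, abs_mul, Gr_sub]
    refine (mul_le_mul (hC _) ha (abs_nonneg _) (by positivity)).trans ?_
    rw [mul_mul_mul_comm]
    exact mul_le_mul_of_nonneg_left (young (norm_nonneg _) (norm_nonneg _)) (by positivity)
  refine ⟨?_, fun s t => ?_⟩
  · obtain ⟨M, M0, hM⟩ := h.rc.DLx_bd hA hμ
    refine ⟨C * M * (V + V), fun s t => ?_⟩
    have m1 : Measurable fun x => DLx μ Γ x t :=
      Measurable.comp (f := fun x : ℂ => (x, t)) (h.rc.DLx_meas hA μ) (by fun_prop)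
    have me : Measurable fun x => Gr μ (gp Γ s - x) * DLx μ Γ x t :=
      (mG.comp (measurable_const.sub measurable_id)).mul m1
    have i : IntegrableOn (fun x => Gr μ (gp Γ s - x) * DLx μ Γ x t) Ω := (maj s t (C * M)).mono'
      me.aestronglyMeasurable (ae_of_all _ fun x => bd s t M _ x M0 (hM x t))
    refine ⟨i, (integral_mono i.abs (maj s t (C * M)) fun x => bd s t M _ x M0 (hM x t)).trans ?_⟩
    rw [integral_const_mul, integral_add (hV' s).1 (hV' t).1]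
    exact mul_le_mul_of_nonneg_left (add_le_add (hV' s).2 (hV' t).2) (by positivity)
  set n := gn Γ t with hn
  set y : ℝ → ℂ := fun r => gp Γ t - r * n with hy
  have cy : Continuous y := by fun_prop
  have y0 : y 0 = gp Γ t := by simp [hy]
  have ty : ∀ z : ℂ, Tendsto (fun r => z - y r) (𝓝[>] 0) (𝓝 (z - gp Γ t)) := fun z => by
    rw [← y0]
    exact (continuous_const.sub cy).continuousAt.continuousWithinAt
  have ho : ∀ᶠ r : ℝ in 𝓝[>] 0, y r ∉ closure Ω ∧ ∀ z ∈ closure Ω, ‖z - gp Γ t‖ ≤ 2 * ‖z - y r‖ :=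
    TR1m.out hG h t
  have ne : ∀ {r z}, y r ∉ closure Ω → z ∈ closure Ω → z - y r ≠ 0 := fun a b =>
    sub_ne_zero.2 fun e => a (e ▸ b)
  have c := cW hA hμ n
  have t0 : Tendsto (fun r => W μ n (gp Γ s - y r) / 2) (𝓝[>] 0) (𝓝 (Kdm μ Γ s t / 2)) := by
    rw [← TR1m.W_Kd]
    exact ((c.tendsto _).comp (ty _)).div_const 2
  have t1 : Tendsto (fun r => ∫ z in Ω, Gr μ (gp Γ s - z) * fderiv ℝ (Gr μ) (z - y r) n) (𝓝[>] 0)
      (𝓝 (∫ z in Ω, -(Gr μ (gp Γ s - z) * DLx μ Γ z t))) := by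
    refine tendsto_integral_filter_of_dominated_convergence _ (Eventually.of_forall fun r => ?_)
      (ho.mono fun r hr => (ae_restrict_mem m).mono fun z hz => bd s t (‖n‖ * 2) _ z
        (by positivity) ?_) (maj s t _) ((ae_restrict_mem m).mono fun z hz => ?_)
    · exact ((mG.comp (measurable_const.sub measurable_id)).mul
        ((measurable_fderiv_apply_const ℝ _ n).comp
          (measurable_id.sub measurable_const))).aestronglyMeasurable
    · refine (bD hA hμ n (ne hr.1 (subset_closure hz))).trans ?_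
      rw [mul_assoc]
      exact mul_le_mul_of_nonneg_left (half (norm_pos_iff.2 (sub_ne_zero.2 (h.ne_curve hz t)))
        (hr.2 z (subset_closure hz))).1 (norm_nonneg _)
    · rw [DLx_eq hL hμ (h.ne_curve hz t), map_neg, mul_neg, neg_neg]
      exact (((cd_dir (m := 0) (c2G hA hμ (sub_ne_zero.2 (h.ne_curve hz t))) (by norm_num)
        n).continuousAt.tendsto).comp (ty z)).const_mul _
  have t2 : Tendsto (fun r => ∫ v,
      Srm μ Γ s v * fderiv ℝ (W μ n) (gp Γ v - y r) (-gn Γ v) ∂nx N) (𝓝[>] 0)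
      (𝓝 (∫ v, -(Srm μ Γ s v * Ndm μ Γ v t) ∂nx N)) := by
    obtain ⟨M, M0, hM⟩ := h.rc.gn_bd
    obtain ⟨_, i1⟩ := (hLm N Ω Γ h).1 (1 / 4) (by norm_num) (by norm_num)
    obtain ⟨_, i2⟩ := (hLm N Ω Γ h).1 (2 / 4) (by norm_num) (by norm_num)
    have ae : ∀ᵐ v ∂nx N, gp Γ v - gp Γ t ≠ 0 :=
      (h.rc.ae_ne t).mono fun v hv => sub_ne_zero.2 hv.symm
    refine tendsto_integral_filter_of_dominated_convergence
      (fun v => C * (M * M) * (‖gp Γ s - gp Γ v‖ ^ (-(1 / 4) : ℝ) +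
        C * (‖gp Γ s - gp Γ v‖ ^ (-(2 / 4) : ℝ) + ‖gp Γ t - gp Γ v‖ ^ (-(2 / 4) : ℝ))))
      (ho.mono fun r hr => ?_) (ho.mono fun r hr => ae.mono fun v hv => ?_)
      (((i1 _).1.add (((i2 _).1.add (i2 _).1).const_mul C)).const_mul _)
      (ae.mono fun v hv => ?_)
    · refine ((mG.comp (measurable_const.sub cγ.measurable)).mul (Continuous.measurable
        (continuous_iff_continuousAt.2 fun v => ?_))).aestronglyMeasurable
      exact (ContinuousAt.comp (f := fun v => gp Γ v - y r) ((c2W hA hμ n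
        (ne hr.1 (h.mem_cl v))).fderiv_right (m := 0) (by norm_num)).continuousAt
        (by fun_prop)).clm_apply h.rc.gn_cont.neg.continuousAt
    · have a1 := bdW hA hμ n (-gn Γ v) (ne hr.1 (h.mem_cl v))
      have a2 := (hC (gp Γ v - y r)).trans (mul_le_mul_of_nonneg_left
        (half (norm_pos_iff.2 hv) (hr.2 _ (h.mem_cl v))).2 C0)
      have a3 : |fderiv ℝ (W μ n) (gp Γ v - y r) (-gn Γ v)| ≤
          M * M * (1 + C * (2 * ‖gp Γ v - gp Γ t‖ ^ (-(1 / 4) : ℝ))) := by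
        rw [norm_neg] at a1
        exact a1.trans (mul_le_mul (mul_le_mul (hM v) (hM t) (norm_nonneg _) M0)
          (by linarith) (by positivity) (by positivity))
      have p1 := pw (norm_nonneg (gp Γ s - gp Γ v)) 2
      have p2 := pw (norm_nonneg (gp Γ v - gp Γ t)) 2
      push_cast at p1 p2
      rw [Real.norm_eq_abs, abs_mul, Srm, norm_sub_rev (gp Γ t), ← p1, ← p2]
      refine (mul_le_mul (hC _) a3 (abs_nonneg _) (by positivity)).trans ?_
      rw [mul_mul_mul_comm]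
      refine mul_le_mul_of_nonneg_left ?_ (by positivity)
      nlinarith [mul_nonneg C0 (sq_nonneg (‖gp Γ s - gp Γ v‖ ^ (-(1 / 4) : ℝ) -
        ‖gp Γ v - gp Γ t‖ ^ (-(1 / 4) : ℝ)))]
    · rw [← mul_neg, ← TR1m.W_Nd hA hμ hv]
      exact (((cd_dir (m := 0) (c2W hA hμ n hv) (by norm_num) _).continuousAt.tendsto).comp
        (ty _)).const_mul _
  have t3 : Tendsto (fun r => ∫ v, Krm μ Γ s v * W μ n (gp Γ v - y r) ∂nx N) (𝓝[>] 0)
      (𝓝 (∫ v, Krm μ Γ s v * Kdm μ Γ v t ∂nx N)) := by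
    have cK : Continuous (Krm μ Γ s) := (hN N μ Γ Ω hp).1.uncurry_left s
    have := cont_int
      (f := fun r v => Krm μ Γ s v * W μ n (gp Γ v - y r)) ((cK.comp continuous_snd).mul
        (c.comp ((cγ.comp continuous_snd).sub (cy.comp continuous_fst))))
    have := (this.continuousAt (x := 0)).continuousWithinAt (s := Ioi 0) |>.tendsto
    simpa only [y0, hn, TR1m.W_Kd] using this
  have e := tendsto_nhds_unique_of_eventuallyEq t0 ((t1.add t2).add t3) (ho.mono fun r hr => by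
    have g := TR1m.green hA hLm hR hV hJ hμ h (O := {y r}ᶜ) (u := fun x => W μ n (x - y r))
      isOpen_compl_singleton (fun z hz e => hr.1 (e ▸ hz)) (fun z hz =>
        (ContDiffAt.comp (f := fun x => x - y r) z (c2W hA hμ n (sub_ne_zero.2 hz))
          (by fun_prop)).contDiffWithinAt) s
    simp only [lap_shift, fderiv_comp_sub] at g
    simp only
    rw [g]
    refine congrArg (· + _ + _) (setIntegral_congr_fun m fun z hz => ?_)
    rw [lapW hA hμ n (ne hr.1 (subset_closure hz))])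
  rw [integral_neg, integral_neg] at e
  linarith

end Pool.Agent.Lib.IS3
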