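import Pool.Agent.Lib.IS3.Kit
import Pool.Agent.Lib.IS2.B_B34

/-! Testing the branch identity against one branch, several scales. -/

open scoped ContDiff ComplexConjugate Topology Real
open Complex MeasureTheory Set Filter

noncomputable section

namespace Pool.Agent.Lib.IS3

open Pool.Agent.Lib.ISO Pool.Agent.Lib.IS2 Pool.Agent.Lib.IS2.B34

namespace TSTM

theorem cst {c1 c2 j : ℝ} {a : ℂ} (h : ‖a‖ ≤ j) : Bd c1 c2 j fun _ => a := fun _ _ =>
  ⟨differentiableAt_const _, h, by simpa using (norm_nonneg _).trans h⟩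

/-- a phase without resonance -/
theorem osc (n : ℕ) (j : ℝ) : ∃ C, 0 ≤ C ∧ ∀ (c1 c2 σ σ0 ε o : ℝ) (κ κ0 u v : ℝ → ℝ) (a : ℂ),
    B1 j c1 c2 κ u σ → B1 j c1 c2 κ0 v σ0 → c1 ≤ c2 → |ε| ≤ j → 0 < o → ‖a‖ ≤ j →
    (∀ x ∈ Icc c1 c2, j⁻¹ ≤ |ε * (deriv κ (u x))⁻¹ - (deriv κ0 (v x))⁻¹|) →
    ‖∫ x in c1..c2, Pm n o κ κ0 u v (fun _ => a) ε x‖ ≤ C / o := by
  refine ⟨|(2 + 2 * j) * (2 * (2 * (2 * (2 * (2 * 1 * ((j * j + 1) * j ^ 2)) *
    (2 * 1 * (j * j)))) ^ n * j) * ((2 * j * ((j * j + 1) * j ^ 2) + (j * j + 1) * j ^ 2 + 1) *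
      j ^ 2))|, abs_nonneg _, fun c1 c2 σ σ0 ε o κ κ0 u v a h h0 hc hε o0 ha hn => ?_⟩
  have hb := (((((Bd.const h.sg).mul h.bdq).mul ((Bd.const h0.sg).mul h0.bdd)).pow n).mul
    (cst ha)).mul ((((cst (a := (ε : ℂ)) (j := j) (by rwa [norm_real])).mul h.bdq).sub h0.bdq).inv h.j1
      fun x hx => by
        have := hn x hx
        rw [← Real.norm_eq_abs, ← norm_real] at this
        simpa using this)
  have k := ibp hc hb o0 (φ := fun x => ε * u x - v x)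
    (fun x hx => ((h.der x hx).const_mul ε).sub (h0.der x hx))
    ((continuousOn_const.mul h.cq).sub h0.cq)
  refine le_trans (le_of_eq ?_) (k.trans (div_le_div_of_nonneg_right (le_trans
    (mul_le_mul_of_nonneg_right (by linarith [h.len hc])
      ((norm_nonneg _).trans (hb c1 (left_mem_Icc.2 hc)).2.1)) (le_abs_self _)) o0.le))
  refine congrArg norm (intervalIntegral.integral_congr fun x hx => ?_)
  rw [uIcc_of_le hc] at hx
  have b : ((ε * (deriv κ (u x))⁻¹ - (deriv κ0 (v x))⁻¹ : ℝ) : ℂ) ≠ 0 := ofReal_ne_zero.2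
    (abs_pos.1 ((inv_pos.2 (one_pos.trans_le h.j1)).trans_le (hn x hx)))
  rw [Pm, h.sl_eq hx, h0.ab x hx]
  push_cast at b ⊢
  rw [inv_mul_cancel_right₀ b]

/-- the alternatives for a branch -/
def Alt (j c1 c2 : ℝ) (W n : ℕ) (κ κ0 u v : ℝ → ℝ) (a ρ : ℂ) : Prop :=
  (ρ = 0 ∧ ∀ x ∈ Icc c1 c2, j⁻¹ ≤ |n / (W : ℝ) ^ 2 * sl κ (u x) - sl κ0 (v x)|) ∨
    (ρ = a ∧ κ = κ0 ∧ u = v ∧ n = W ^ 2)

theorem weak (m : ℕ) (j : ℝ) : ∃ C, 0 ≤ C ∧ ∀ (c1 c2 σ σ0 : ℝ) (W n : ℕ) (κ κ0 u v : ℝ → ℝ)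
    (a ρ : ℂ), B1 j c1 c2 κ u σ → B1 j c1 c2 κ0 v σ0 → c1 ≤ c2 → 1 ≤ W → ‖a‖ ≤ j →
    n / (W : ℝ) ^ 2 ≤ j → Alt j c1 c2 W n κ κ0 u v a ρ →
    ‖∫ x in c1..c2, (ρ - (Pm m (W ^ 2) κ κ0 u v (fun _ => a) (n / (W : ℝ) ^ 2) x +
      Pm m (W ^ 2) κ κ0 u v (fun _ => conj a) (-(n / (W : ℝ) ^ 2)) x))‖ ≤ 2 * C / W ^ 2 := by
  obtain ⟨C, C0, hC⟩ := osc m j
  refine ⟨C, C0, fun c1 c2 σ σ0 W n κ κ0 u v a ρ h h0 hc hW ha hn hA => ?_⟩
  have o0 : (0 : ℝ) < W ^ 2 := by positivity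
  have n0 : |n / (W : ℝ) ^ 2| = n / (W : ℝ) ^ 2 := abs_of_nonneg (by positivity)
  have p1 := hC c1 c2 σ σ0 (n / (W : ℝ) ^ 2) _ κ κ0 u v a h h0 hc (n0.trans_le hn) o0 ha
  have p2 := hC c1 c2 σ σ0 (-(n / (W : ℝ) ^ 2)) _ κ κ0 u v (conj a) h h0 hc
    (((abs_neg _).trans n0).trans_le hn) o0 (by rwa [norm_conj])
  rcases hA with ⟨rfl, hr⟩ | ⟨rfl, rfl, rfl, rfl⟩
  · have k : ∀ ε : ℝ, |ε| = n / (W : ℝ) ^ 2 → ∀ x ∈ Icc c1 c2,
        j⁻¹ ≤ |ε * (deriv κ (u x))⁻¹ - (deriv κ0 (v x))⁻¹| := fun ε hε x hx =>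
      (hr x hx).trans (by
        simpa only [abs_mul, hε, abs_inv, sl] using
          abs_abs_sub_abs_le_abs_sub (ε * (deriv κ (u x))⁻¹) (deriv κ0 (v x))⁻¹)
    simp only [zero_sub, intervalIntegral.integral_neg, norm_neg]
    rw [intervalIntegral.integral_add (ii hc (cPm h h0 m _ _ continuous_const))
      (ii hc (cPm h h0 m _ _ continuous_const)), two_mul, add_div]
    exact (norm_add_le _ _).trans (add_le_add (p1 (k _ n0)) (p2 (k _ ((abs_neg _).trans n0))))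
  · have e : ((W ^ 2 : ℕ) : ℝ) / (W : ℝ) ^ 2 = 1 := by rw [Nat.cast_pow, div_self o0.ne']
    rw [e] at p2 ⊢
    refine le_trans (le_of_eq ?_) ((p2 fun x hx => ?_).trans
      (div_le_div_of_nonneg_right (by linarith) o0.le))
    · rw [← norm_neg, ← intervalIntegral.integral_neg]
      refine congrArg norm (intervalIntegral.integral_congr fun x hx => ?_)
      rw [uIcc_of_le hc] at hx
      have q : sl κ (u x) * |deriv κ (u x)| = 1 := inv_mul_cancel₀ (abs_pos.2 (h.ne x hx)).ne'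
      simp [Pm, q]
    · have t2 := inv_anti₀ (abs_pos.2 (h.ne x hx)) (h.b1 (u x))
      rw [show -1 * (deriv κ (u x))⁻¹ - (deriv κ (u x))⁻¹ = -(2 * (deriv κ (u x))⁻¹) by ring,
        abs_neg, abs_mul, abs_two, abs_inv]
      linarith [inv_pos.2 (abs_pos.2 (h.ne x hx))]

/-- a normalised tone -/
structure Tg (M : ℕ) (K : ℝ) (W n : ℕ) (a : ℂ) (κ : ℝ → ℝ) : Prop where
  l2 : ∫ s in (0 : ℝ)..(2 * π), (iteratedDeriv (2 * M + 4) κ s -
    (-1) ^ M * XX M W * (2 * (a * exp (I * n * s)).re)) ^ 2 ≤ K * XX M W ^ 2 / W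
  sup : ∀ b ≤ 2 * M + 3, ∀ s, |iteratedDeriv b κ s| ≤ K * lam M W ^ (b - 2)
  b0 : ‖a‖ ≤ K
  fr : n / (W : ℝ) ^ 2 ≤ K

/-- the estimate for one branch -/
theorem one (hE : St_EN) (M J : ℕ) (δ : ℝ) (hJ : 1 ≤ J) (δ0 : 0 < δ) : ∃ W1 : ℕ, ∀ W, W1 ≤ W →
    ∀ (n : ℕ) (c1 c2 σ σ0 : ℝ) (κ κ0 u v : ℝ → ℝ) (a ρ : ℂ), B1 J c1 c2 κ u σ →
    B1 J c1 c2 κ0 v σ0 → c1 ≤ c2 → Tg M J W n a κ → Alt J c1 c2 W n κ κ0 u v a ρ →
    IntervalIntegrable (fun x => (σ * En κ (2 * M + 3) (u x) : ℝ) * wt M W κ0 v x) volume c1 c2 ∧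
    ‖∫ x in c1..c2, (ρ + (σ * En κ (2 * M + 3) (u x) : ℝ) * wt M W κ0 v x)‖ ≤ δ := by
  obtain ⟨C, C0, hC⟩ := weak (2 * M + 5) J
  obtain ⟨C1, hC1⟩ := hE.2 (2 * M + 3) (by omega)
  have j1 : (1 : ℝ) ≤ J := by exact_mod_cast hJ
  obtain ⟨F, hF⟩ : ∃ F : ℝ, F = J ^ (2 * M + 5) := ⟨_, rfl⟩
  have F0 : 0 < F := by rw [hF]; positivity
  obtain ⟨η, η0, hη⟩ : ∃ η : ℝ, 0 < η ∧ F * F * η * (2 * J) = δ / 2 :=
    ⟨δ / 2 / (F * F * (2 * J)), by positivity, by field_simp⟩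
  obtain ⟨e, he⟩ : ∃ e, e = |C1 * ((J : ℝ) * J) ^ (2 * (2 * M + 3) + 1)| := ⟨_, rfl⟩
  have e0 : 0 ≤ e := he ▸ abs_nonneg _
  obtain ⟨W1, hW1⟩ := exists_nat_ge ((2 * C + F * e * (2 * J) + F * F / η * (J ^ 3 * J)) / (δ / 2))
  refine ⟨W1 + 1, fun W hW n c1 c2 σ σ0 κ κ0 u v a ρ h h0 hc hT hA => ?_⟩
  have W1' : 1 ≤ W := by omega
  have w1 : (1 : ℝ) ≤ W := by exact_mod_cast W1'
  have w0 : (0 : ℝ) < W := one_pos.trans_le w1
  have hl := H0.one_le_lam (M := M) W1'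
  have X0 : 0 < XX M W := by
    rw [← H0.lam_pow W1']
    positivity
  have b1 := hC c1 c2 σ σ0 W n κ κ0 u v a ρ h h0 hc W1' hT.b0 hT.fr hA
  have cP := (cPm h h0 (2 * M + 5) (W ^ 2) (n / (W : ℝ) ^ 2) (G := fun _ => a) continuous_const).add
    (cPm h h0 (2 * M + 5) (W ^ 2) (-(n / (W : ℝ) ^ 2)) (G := fun _ => conj a) continuous_const)
  have cE : ContinuousOn (fun x => ((σ * En κ (2 * M + 3) (u x) : ℝ) : ℂ) * wt M W κ0 v x)
      (Icc c1 c2) := by
    have a : ContinuousOn (fun x => En κ (2 * M + 3) (u x)) (Icc c1 c2) := fun x hx =>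
      (hE.1 κ h.per.smooth _ _ (h.ne x hx)).continuousAt.comp_continuousWithinAt (h.cont x hx)
    have b := h0.cont
    have d := h0.s1.continuous
    unfold B34.wt
    fun_prop
  refine ⟨ii hc cE, ?_⟩
  obtain ⟨r, hr⟩ : ∃ r : ℝ → ℝ, r = fun s => iteratedDeriv (2 * M + 4) κ s -
    (-1) ^ M * XX M W * (2 * (a * exp (I * n * s)).re) := ⟨_, rfl⟩
  have rc : Continuous r := by
    have := h.per.smooth.continuous_iteratedDeriv (2 * M + 4) (H0.le_inf _)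
    rw [hr]
    fun_prop
  have rp : Function.Periodic (fun s => r s ^ 2) (2 * π) := fun s => by
    have e2 : exp (I * n * (s + 2 * π : ℝ)) = exp (I * n * s) := by
      rw [← exp_periodic.nat_mul n (I * n * s)]
      congr 1
      push_cast
      ring
    simp only [hr, per_it h.per.per _ s, e2]
  have r2 : ∫ x in c1..c2, r (u x) ^ 2 ≤ J ^ 3 * (J * XX M W ^ 2 / W) :=
    (h.chg rfl hc (fun t => sq_nonneg (r t)) (rc.pow 2) rp).trans (mul_le_mul_of_nonneg_left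
      (by rw [hr]; exact hT.l2) (by positivity))
  have pt : ∀ x ∈ Icc c1 c2, ‖Pm (2 * M + 5) (W ^ 2) κ κ0 u v (fun _ => a) (n / (W : ℝ) ^ 2) x +
      Pm (2 * M + 5) (W ^ 2) κ κ0 u v (fun _ => conj a) (-(n / (W : ℝ) ^ 2)) x +
      (σ * En κ (2 * M + 3) (u x) : ℝ) * wt M W κ0 v x‖ ≤
      (F * e / W ^ 2 + F * F * η) + F * F / η / XX M W ^ 2 * r (u x) ^ 2 := fun x hx => by
    have k1 := hC1 κ (u x) J (lam M W) J h.per.smooth j1 hl j1 (h.ne x hx) (h.le x hx)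
      fun b hb => hT.sup b hb _
    have k2 : |σ * (En κ (2 * M + 3) (u x) + iteratedDeriv (2 * M + 4) κ (u x) /
        deriv κ (u x) ^ (2 * M + 5))| ≤ e * (XX M W / W ^ 2) := by
      have t1 : |σ| = 1 := by rcases h.sg with rfl | rfl <;> simp
      rw [abs_mul, t1, one_mul, ← H0.lam_pow W1', mul_div_cancel_right₀ _ (by positivity), he]
      exact k1.trans (mul_le_mul_of_nonneg_right (le_abs_self _) (by positivity))
    have k3 : sl κ (u x) ^ (2 * M + 5) = σ / deriv κ (u x) ^ (2 * M + 5) := by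
      rw [h.sl_eq hx, mul_pow, inv_pow, div_eq_mul_inv]
      rcases h.sg with rfl | rfl
      · rw [one_pow]
      · rw [Odd.neg_one_pow ⟨M + 2, by ring⟩]
    have k4 : Pm (2 * M + 5) (W ^ 2) κ κ0 u v (fun _ => a) (n / (W : ℝ) ^ 2) x +
        Pm (2 * M + 5) (W ^ 2) κ κ0 u v (fun _ => conj a) (-(n / (W : ℝ) ^ 2)) x +
        (σ * En κ (2 * M + 3) (u x) : ℝ) * wt M W κ0 v x =
        (σ * (En κ (2 * M + 3) (u x) + iteratedDeriv (2 * M + 4) κ (u x) /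
          deriv κ (u x) ^ (2 * M + 5)) - sl κ (u x) ^ (2 * M + 5) * r (u x) : ℝ) *
          wt M W κ0 v x := by
      have a1' : ((-1 : ℝ) ^ M) * (-1) ^ M = 1 := by rw [← mul_pow]; simp
      have a2 : σ * (En κ (2 * M + 3) (u x) + iteratedDeriv (2 * M + 4) κ (u x) /
          deriv κ (u x) ^ (2 * M + 5)) - sl κ (u x) ^ (2 * M + 5) * r (u x) =
          σ * En κ (2 * M + 3) (u x) + sl κ (u x) ^ (2 * M + 5) * ((-1) ^ M * XX M W *
            (2 * (a * exp (I * n * u x)).re)) := by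
        rw [k3, hr]
        ring
      have a3 : ∀ y : ℝ, y * ((-1) ^ M * XX M W) * ((-1) ^ M / XX M W) = y := fun y => by
        rw [mul_assoc, mul_div_assoc', mul_right_comm, a1', one_mul, div_self X0.ne', mul_one]
      have a4 : conj (exp (I * n * u x)) = exp (-(I * n * u x)) := by
        rw [← exp_conj]
        simp
      have a5 := congrArg ofReal (a3 (sl κ (u x) ^ (2 * M + 5)))
      have a6 := add_conj (a * exp (I * n * u x))
      rw [map_mul, a4] at a6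
      have wc : (W : ℂ) ≠ 0 := by exact_mod_cast w0.ne'
      have a7 : exp (I * ((W : ℝ) ^ 2 : ℝ) * (n / (W : ℝ) ^ 2 * u x - v x : ℝ)) =
          exp (I * n * u x) * exp (-(I * (W : ℂ) ^ 2 * v x)) := by
        rw [← exp_add]
        congr 1
        push_cast
        field_simp
        ring
      have a8 : exp (I * ((W : ℝ) ^ 2 : ℝ) * (-(n / (W : ℝ) ^ 2) * u x - v x : ℝ)) =
          exp (-(I * n * u x)) * exp (-(I * (W : ℂ) ^ 2 * v x)) := by
        rw [← exp_add]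
        congr 1
        push_cast
        field_simp
        ring
      rw [a2, ofReal_add, add_mul, add_comm (_ * _ : ℂ), add_left_inj, ofReal_mul, ofReal_mul,
        ← a6, Pm, Pm, B34.wt, a7, a8, ofReal_mul, mul_pow]
      push_cast at a5 ⊢
      linear_combination (-(|deriv κ0 (v x)| : ℝ) ^ (2 * M + 5) * exp (-(I * (W : ℂ) ^ 2 * v x)) *
        (a * exp (I * n * u x) + conj a * exp (-(I * n * u x)))) * a5
    have k5 : ‖wt M W κ0 v x‖ ≤ F / XX M W := by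
      rw [B34.wt, norm_mul, mul_assoc, ← ofReal_mul, ← mul_neg, ← ofReal_neg, norm_exp_I_mul_ofReal,
        mul_one, norm_real, Real.norm_eq_abs, abs_mul, abs_div, abs_neg_one_pow, abs_of_pos X0,
        abs_pow, abs_abs, one_div_mul_eq_div, hF]
      gcongr
      exact h0.b1 _
    have k6 : |sl κ (u x) ^ (2 * M + 5) * r (u x)| ≤ F * |r (u x)| := by
      have s0 : 0 ≤ sl κ (u x) := inv_nonneg.2 (abs_nonneg _)
      rw [abs_mul, abs_of_nonneg (pow_nonneg s0 _), hF]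
      gcongr
      exact h.le x hx
    have k7 : |r (u x)| / XX M W ≤ η + r (u x) ^ 2 / XX M W ^ 2 / η := by
      rw [← sq_abs (r _), ← div_pow, add_div' _ _ _ η0.ne', le_div_iff₀ η0]
      nlinarith [sq_nonneg (η - |r (u x)| / XX M W), sq_nonneg η, sq_nonneg (|r (u x)| / XX M W)]
    rw [k4, norm_mul, norm_real, Real.norm_eq_abs]
    calc _ ≤ (e * (XX M W / W ^ 2) + F * |r (u x)|) * (F / XX M W) :=
          mul_le_mul ((abs_sub _ _).trans (add_le_add k2 k6)) k5 (norm_nonneg _) (by positivity)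
      _ = F * e / W ^ 2 + F * F * (|r (u x)| / XX M W) := by field_simp
      _ ≤ F * e / W ^ 2 + F * F * (η + r (u x) ^ 2 / XX M W ^ 2 / η) := by gcongr
      _ = _ := by ring
  have ir : IntervalIntegrable (fun x => r (u x) ^ 2) volume c1 c2 :=
    ((rc.comp_continuousOn h.cont).pow 2).intervalIntegrable_of_Icc hc
  have b2 := intervalIntegral.norm_integral_le_of_norm_le hc
    (ae_of_all volume fun x hx => pt x (Ioc_subset_Icc_self hx))
    (intervalIntegrable_const.add (ir.const_mul _))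
  rw [intervalIntegral.integral_add intervalIntegrable_const (ir.const_mul _),
    intervalIntegral.integral_const, intervalIntegral.integral_const_mul, smul_eq_mul] at b2
  have b3 := intervalIntegral.integral_add
    (ii hc ((continuousOn_const (c := ρ)).sub cP)) (ii hc (cP.add cE))
  simp only [Pi.add_apply, Pi.sub_apply] at b3
  simp only [show ∀ x y z : ℂ, x - y + (y + z) = x + z from fun x y z => by ring] at b3
  rw [b3]
  refine (norm_add_le _ _).trans ((add_le_add b1 b2).trans ?_)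
  have ww : (W : ℝ) ≤ W ^ 2 := by nlinarith
  have b4 : (2 * C + F * e * (2 * J) + F * F / η * (J ^ 3 * J)) / W ≤ δ / 2 := by
    rw [div_le_iff₀' w0, ← div_le_iff₀ (half_pos δ0)]
    exact hW1.trans (by exact_mod_cast (Nat.le_succ W1).trans hW)
  calc _ ≤ 2 * C / W + (2 * J * (F * e / W + F * F * η) +
        F * F / η / XX M W ^ 2 * (J ^ 3 * (J * XX M W ^ 2 / W))) := by
        gcongr
        exact h.len hc
    _ = (2 * C + F * e * (2 * J) + F * F / η * (J ^ 3 * J)) / W + F * F * η * (2 * J) := by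
        field_simp
        ring
    _ ≤ δ := by linarith

variable {κ s : ℝ → ℝ} {a b x : ℝ}

theorem sign (hp : Per (2 * π) κ) (h : Bq κ a b s) : ∃ σ : ℝ, (σ = 1 ∨ σ = -1) ∧
    ∀ x ∈ Ioo a b, |deriv κ (s x)| = σ * deriv κ (s x) := by
  have c : ContinuousOn (fun x => deriv κ (s x)) (Ioo a b) :=
    (contDiff_infty_iff_deriv.1 hp.smooth).2.continuous.comp_continuousOn fun x hx =>
      (h x hx).2.2.continuousAt.continuousWithinAt
  rcases isPreconnected_Ioo.mapsTo_Ioi_or_Iio c (fun x hx => (h x hx).2.1) with k | k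
  · exact ⟨1, .inl rfl, fun x hx => by rw [abs_of_pos (k hx), one_mul]⟩
  · exact ⟨-1, .inr rfl, fun x hx => by rw [abs_of_neg (k hx), neg_one_mul]⟩

theorem der (hE : St_EN) (hp : Per (2 * π) κ) (h : Bq κ a b s) (σ : ℝ) (n : ℕ) (hx : x ∈ Ioo a b) :
    HasDerivAt (fun x => σ * En κ n (s x)) (σ * En κ (n + 1) (s x)) x :=
  (((hE.1 κ hp.smooth n _ (h x hx).2.1).differentiableAt (by simp)).hasDerivAt.comp x
    (h x hx).2.2).const_mul _

theorem zero {σ : ℝ} (h : σ = 1 ∨ σ = -1) (e : |deriv κ x| = σ * deriv κ x) :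
    σ * En κ 0 x = sl κ x := by
  rw [sl, e, mul_inv, En]
  rcases h with e | e <;> rw [e] <;> norm_num

/-- the scaled function -/
theorem scale {M W n : ℕ} {j J K l : ℝ} {c : ℂ} (hj : 1 ≤ j) (hW : 1 ≤ W) (p : Per (2 * π) κ)
    (k : Bk j κ) (q : Nq j l W n) (t : Ton1 M K W n c κ) (h1 : 2 * j ^ 2 ≤ J)
    (h2 : |K| * j ^ 2 * (2 * j) ^ (2 * M + 4) ≤ J) :
    Per (2 * π) (kh l κ) ∧ Bk J (kh l κ) ∧ |n / (W : ℝ) ^ 2 - l| ≤ ((W : ℝ) ^ 2)⁻¹ ∧
      Tg M J W n (((n / (W : ℝ) ^ 2) ^ (2 * M + 4) / l : ℝ) * c) (kh l κ) := by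
  have w1 : (1 : ℝ) ≤ W := by exact_mod_cast hW
  have w2 : (1 : ℝ) ≤ W ^ 2 := one_le_pow₀ w1
  have j0 : 0 < j := one_pos.trans_le hj
  have l0 : 0 < l := (inv_pos.2 j0).trans_le q.lo
  have li : l⁻¹ ≤ j := inv_le_of_inv_le₀ j0 q.lo
  have d : ∀ i s, iteratedDeriv i (kh l κ) s = iteratedDeriv i κ s / l :=
    fun i s => iteratedDeriv_div_const κ l
  have da : ∀ i s, |iteratedDeriv i (kh l κ) s| ≤ |iteratedDeriv i κ s| * j := fun i s => by
    rw [d, abs_div, abs_of_pos l0, div_eq_mul_inv]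
    gcongr
  have f1 : |n / (W : ℝ) ^ 2 - l| ≤ ((W : ℝ) ^ 2)⁻¹ := by
    rw [div_sub' (by positivity), abs_div, abs_of_pos (a := (W : ℝ) ^ 2) (by positivity), mul_comm,
      ← one_div]
    gcongr
    exact q.nr
  have f2 : n / (W : ℝ) ^ 2 ≤ 2 * j := by
    linarith [(abs_le.1 f1).2, inv_le_one_of_one_le₀ w2, q.hi]
  have p1 : 1 ≤ (2 * j) ^ (2 * M + 4) := one_le_pow₀ (by linarith)
  have jj : j ≤ j ^ 2 := by nlinarith
  have K1 : |K| * j ^ 2 ≤ J := (le_mul_of_one_le_right (by positivity) p1).trans h2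
  have K2 : K * j ≤ J := le_trans (by gcongr; exact le_abs_self K) K1
  refine ⟨⟨p.smooth.div_const l, fun s => by rw [kh, kh, p.per]⟩, fun i hi s => (da i s).trans ?_,
    f1, ?_, fun i hi s => (da i s).trans ?_, ?_, by linarith⟩
  · nlinarith [k i hi s]
  · have e : ∀ s : ℝ, (iteratedDeriv (2 * M + 4) (kh l κ) s - (-1) ^ M * XX M W *
        (2 * ((((n / (W : ℝ) ^ 2) ^ (2 * M + 4) / l : ℝ) : ℂ) * c * exp (I * n * s)).re)) ^ 2 =
        l⁻¹ ^ 2 * (iteratedDeriv (2 * M + 4) κ s -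
          (-1) ^ M * (n : ℝ) ^ (2 * M + 4) * tnn M W n c s) ^ 2 := fun s => by
      rw [d, mul_assoc _ c, re_ofReal_mul, XX, tnn, div_pow]
      field_simp
    simp only [e, intervalIntegral.integral_const_mul]
    calc _ ≤ j ^ 2 * (|K| * XX M W ^ 2 / W) := mul_le_mul (by gcongr)
          (t.l2.trans (by gcongr; exact le_abs_self K))
          (intervalIntegral.integral_nonneg (by positivity) fun _ _ => sq_nonneg _) (by positivity)
      _ = |K| * j ^ 2 * XX M W ^ 2 / W := by ring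
      _ ≤ _ := by gcongr
  · have := pow_nonneg (zero_le_one.trans (H0.one_le_lam (M := M) hW)) (i - 2)
    calc _ ≤ K * lam M W ^ (i - 2) * j := by gcongr; exact t.sup i hi s
      _ = K * j * lam M W ^ (i - 2) := by ring
      _ ≤ _ := by gcongr
  · rw [norm_mul, norm_real, Real.norm_of_nonneg (by positivity), div_eq_mul_inv _ l]
    calc _ ≤ (2 * j) ^ (2 * M + 4) * j ^ 2 * |K| := by
          gcongr
          exacts [li.trans jj, t.b0.trans (le_abs_self K)]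
      _ = _ := by ring
      _ ≤ J := h2

end TSTM

open TSTM in
theorem st_tstm (hE : St_EN) : St_TSTM := by
  intro M j K hj
  have j1 : (1 : ℝ) ≤ j := by exact_mod_cast hj
  have j0 : (0 : ℝ) < j := one_pos.trans_le j1
  obtain ⟨J, hJ⟩ := exists_nat_ge (2 * (j : ℝ) ^ 2 + |K| * j ^ 2 * (2 * j) ^ (2 * M + 4))
  have h1 : 2 * (j : ℝ) ^ 2 ≤ J := le_trans (le_add_of_nonneg_right (by positivity)) hJ
  have h2 : |K| * j ^ 2 * (2 * j) ^ (2 * M + 4) ≤ (J : ℝ) :=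
    le_trans (le_add_of_nonneg_left (by positivity)) hJ
  have jJ : 2 * (j : ℝ) ≤ J := by nlinarith
  have J1 : (1 : ℝ) ≤ J := by linarith
  obtain ⟨W1, hW1⟩ := one hE M J ((4 * j ^ 3)⁻¹) (by exact_mod_cast J1) (by positivity)
  refine ⟨W1 + J, fun W hW κ a0 F p k t ha hF a b c1 c2 n s0 s g l w h0 hk hid hn l1 l2 l3 hx => ?_⟩
  have wJ : (J : ℝ) ≤ W := by exact_mod_cast (Nat.le_add_left J W1).trans hW
  have W1' : 1 ≤ W := by exact_mod_cast J1.trans wJ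
  have wp : (0 : ℝ) < W ^ 2 := by positivity
  choose κ' m c e p' k' q t' using fun i => hF _ (hk i).1
  have sc := fun i => scale j1 W1' (p' i) (k' i) (q i) (t' i) h1 h2
  simp only [← e] at sc
  have e1 : kh 1 κ = κ := funext fun _ => div_one _
  have s1 := scale j1 W1' p k (l := 1) ⟨inv_le_one_of_one_le₀ j1, j1, by simp⟩ t h1 h2
  rw [e1, Nat.cast_pow, div_self wp.ne', one_pow, div_one, ofReal_one, one_mul] at s1
  obtain ⟨σ0, g0, g1⟩ := sign p h0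
  choose σ g2 g3 using fun i => sign (sc i).1 (hk i).2.1
  have sub : Icc c1 c2 ⊆ Ioo a b := Icc_subset_Ioo l1 l3
  have id : ∀ r, ∀ x ∈ Ioo a b, σ0 * En κ r (s0 x) = ∑ i, w i * (σ i * En (g i) r (s i x)) := by
    intro r
    induction r with
    | zero => exact fun x y => by simp only [zero g0 (g1 x y), zero (g2 _) (g3 _ x y), hid x y]
    | succ r ih =>
      exact fun x y => (der hE p h0 σ0 r y).unique ((HasDerivAt.fun_sum fun i _ =>
        (der hE (sc i).1 (hk i).2.1 (σ i) r y).const_mul (w i)).congr_of_eventuallyEq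
          (eventually_of_mem (isOpen_Ioo.mem_nhds y) ih))
  have b0 : B1 J c1 c2 κ s0 σ0 := ⟨J1, p, s1.2.1, fun x y => (h0 x (sub y)).1,
    fun x y => (h0 x (sub y)).2.2, fun x y => (h0 x (sub y)).2.1,
    fun x y => (hx x y).1.trans (by linarith), g0, fun x y => g1 x (sub y)⟩
  have b1 : ∀ i, B1 J c1 c2 (g i) (s i) (σ i) := fun i => ⟨J1, (sc i).1, (sc i).2.1,
    fun x y => ((hk i).2.1 x (sub y)).1, fun x y => ((hk i).2.1 x (sub y)).2.2,
    fun x y => ((hk i).2.1 x (sub y)).2.1, fun x y => ((hx x y).2 i).1.trans (by linarith), g2 i,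
    fun x y => g3 i x (sub y)⟩
  have hW' := (Nat.le_add_right W1 J).trans hW
  obtain ⟨d0, d1⟩ := hW1 W hW' _ c1 c2 _ _ κ κ _ _ a0 a0 b0 b0 l2.le s1.2.2.2
    (.inr ⟨rfl, rfl, rfl, rfl⟩)
  have d2 := fun i => hW1 W hW' _ c1 c2 _ _ _ κ _ _ _ 0 (b1 i) b0 l2.le (sc i).2.2.2
    (.inl ⟨rfl, fun x y => by
      obtain ⟨u1, u2⟩ := (hx x y).2 i
      have u0 : 0 ≤ sl (g i) (s i x) := inv_nonneg.2 (abs_nonneg _)
      have u3 : |(m i / (W : ℝ) ^ 2 - l i) * sl (g i) (s i x)| ≤ (2 * (j : ℝ))⁻¹ := by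
        rw [abs_mul, abs_of_nonneg u0]
        refine (mul_le_mul (sc i).2.2.1 u1 u0 (by positivity)).trans ?_
        rw [inv_mul_le_iff₀ wp, le_mul_inv_iff₀ (by positivity)]
        nlinarith
      have u4 := abs_sub (m i / (W : ℝ) ^ 2 * sl (g i) (s i x) - sl κ (s0 x))
        ((m i / (W : ℝ) ^ 2 - l i) * sl (g i) (s i x))
      rw [show m i / (W : ℝ) ^ 2 * sl (g i) (s i x) - sl κ (s0 x) -
        (m i / (W : ℝ) ^ 2 - l i) * sl (g i) (s i x) = l i * sl (g i) (s i x) - sl κ (s0 x) by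
          ring] at u4
      have u5 := inv_anti₀ (by positivity) jJ
      rw [mul_inv] at u3 u5
      linarith⟩)
  simp only [zero_add] at d2
  have n1 : ‖∫ x in c1..c2, (σ0 * En κ (2 * M + 3) (s0 x) : ℝ) * wt M W κ s0 x‖ ≤
      j * (j * (4 * (j : ℝ) ^ 3)⁻¹) := by
    rw [intervalIntegral.integral_congr (g := fun x => ∑ i, (w i : ℂ) *
      ((σ i * En (g i) (2 * M + 3) (s i x) : ℝ) * wt M W κ s0 x)) fun x y => by
        rw [uIcc_of_le l2.le] at y
        simp only [id _ x (sub y), ofReal_sum, Finset.sum_mul, ofReal_mul (w _), mul_assoc],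
      intervalIntegral.integral_finsetSum fun i _ => (d2 i).1.const_mul _]
    refine (norm_sum_le _ _).trans ((Finset.sum_le_card_nsmul _ _ ((j : ℝ) * (4 * (j : ℝ) ^ 3)⁻¹)
      fun i _ => ?_).trans ?_)
    · rw [intervalIntegral.integral_const_mul, norm_mul, norm_real]
      exact mul_le_mul (hk i).2.2 (d2 i).2 (norm_nonneg _) j0.le
    · rw [Finset.card_fin, nsmul_eq_mul]
      gcongr
  rw [intervalIntegral.integral_add intervalIntegrable_const d0, intervalIntegral.integral_const]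
    at d1
  have n2 := norm_sub_le ((c2 - c1) • a0 + _) _ |>.trans (add_le_add d1 n1)
  rw [add_sub_cancel_right, norm_smul, Real.norm_of_nonneg (by linarith)] at n2
  have n3 : (4 * (j : ℝ) ^ 3)⁻¹ ≤ (4 * j : ℝ)⁻¹ :=
    inv_anti₀ (by positivity) (by nlinarith [one_le_pow₀ (n := 2) j1])
  have n4 : j * (j * (4 * (j : ℝ) ^ 3)⁻¹) = (4 * j : ℝ)⁻¹ := by field_simp
  rw [n4] at n2
  rw [mul_inv (4 : ℝ) (j : ℝ)] at n2 n3
  linarith [mul_le_mul_of_nonneg_left ha (sub_nonneg.2 l2.le)]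

end Pool.Agent.Lib.IS3
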