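import Pool.Agent.Lib.IS2.All
import Pool.Agent.Lib.IS3.B_RI
import Pool.Agent.Lib.IS3.B_LIP
import Pool.Agent.Lib.IS3.B_DIM
import Pool.Agent.Lib.IS3.B_PATH
import Pool.Agent.Lib.IS3.B_COV
import Pool.Agent.Lib.IS3.B_BUMP
import Pool.Agent.Lib.IS3.B_KBm
import Pool.Agent.Lib.IS3.B_KMm
import Pool.Agent.Lib.IS3.B_CRm
import Pool.Agent.Lib.IS3.B_HOLm
import Pool.Agent.Lib.IS3.B_LHW
import Pool.Agent.Lib.IS3.B_BR1
import Pool.Agent.Lib.IS3.B_LH1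
import Pool.Agent.Lib.IS3.B_REPm
import Pool.Agent.Lib.IS3.B_SYM
import Pool.Agent.Lib.IS3.B_SPL
import Pool.Agent.Lib.IS3.B_TEQ2
import Pool.Agent.Lib.IS3.B_DIF
import Pool.Agent.Lib.IS3.B_DEFL
import Pool.Agent.Lib.IS3.B_ESTL
import Pool.Agent.Lib.IS3.B_KILLL
import Pool.Agent.Lib.IS3.B_H0L
import Pool.Agent.Lib.IS3.B_H1L
import Pool.Agent.Lib.IS3.B_H2L
import Pool.Agent.Lib.IS3.B_LOC
import Pool.Agent.Lib.IS3.B_CMP1
import Pool.Agent.Lib.IS3.B_PSI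
import Pool.Agent.Lib.IS3.B_NVE
import Pool.Agent.Lib.IS3.B_STAR
import Pool.Agent.Lib.IS3.B_CMP
import Pool.Agent.Lib.IS3.B_RS0
import Pool.Agent.Lib.IS3.B_RSP2
import Pool.Agent.Lib.IS3.B_RSP
import Pool.Agent.Lib.IS3.B_TAYL
import Pool.Agent.Lib.IS3.B_J2L
import Pool.Agent.Lib.IS3.B_EXPL
import Pool.Agent.Lib.IS3.B_GCm
import Pool.Agent.Lib.IS3.B_LAYm
import Pool.Agent.Lib.IS3.B_GRNm
import Pool.Agent.Lib.IS3.B_JMPm
import Pool.Agent.Lib.IS3.B_NEUm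
import Pool.Agent.Lib.IS3.B_POIm
import Pool.Agent.Lib.IS3.B_GREm
import Pool.Agent.Lib.IS3.B_RESm
import Pool.Agent.Lib.IS3.B_KBP
import Pool.Agent.Lib.IS3.B_LNKm
import Pool.Agent.Lib.IS3.B_CHm
import Pool.Agent.Lib.IS3.B_TR1m
import Pool.Agent.Lib.IS3.B_TRm
import Pool.Agent.Lib.IS3.B_TEQM
import Pool.Agent.Lib.IS3.B_POSL
import Pool.Agent.Lib.IS3.B_MASA
import Pool.Agent.Lib.IS3.B_MASB
import Pool.Agent.Lib.IS3.B_MKS
import Pool.Agent.Lib.IS3.B_K4M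
import Pool.Agent.Lib.IS3.B_TONL
import Pool.Agent.Lib.IS3.B_TONM
import Pool.Agent.Lib.IS3.B_QUI
import Pool.Agent.Lib.IS3.B_PAR
import Pool.Agent.Lib.IS3.B_GEN
import Pool.Agent.Lib.IS3.B_GJF
import Pool.Agent.Lib.IS3.B_MOMW
import Pool.Agent.Lib.IS3.B_BRM
import Pool.Agent.Lib.IS3.B_TSTM
import Pool.Agent.Lib.IS3.B_S1
import Pool.Agent.Lib.IS3.B_SB1
import Pool.Agent.Lib.IS3.B_B2a
import Pool.Agent.Lib.IS3.B_B2
import Pool.Agent.Lib.IS3.B_B3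
import Pool.Agent.Lib.IS3.B_DEN1
import Pool.Agent.Lib.IS3.B_DEN
import Pool.Agent.Lib.IS3.B_DIVm
import Pool.Agent.Lib.IS3.B_HSQ1m
import Pool.Agent.Lib.IS3.B_HSQm
import Pool.Agent.Lib.IS3.B_NCM
import Pool.Agent.Lib.IS3.B_ONEM
import Pool.Agent.Lib.IS3.B_CST
import Pool.Agent.Lib.IS3.B_GEOM
import Pool.Agent.Lib.IS3.B_CGM
import Pool.Agent.Lib.IS3.B_SBM
import Pool.Agent.Lib.IS3.B_SCL
import Pool.Agent.Lib.IS3.B_PU
import Pool.Agent.Lib.IS3.B_DLP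
import Pool.Agent.Lib.IS3.B_PUX
import Pool.Agent.Lib.IS3.B_PLE
import Pool.Agent.Lib.IS3.B_PLS
import Pool.Agent.Lib.IS3.B_PLM
import Pool.Agent.Lib.IS3.B_PLA
import Pool.Agent.Lib.IS3.B_PLI
import Pool.Agent.Lib.IS3.B_PLJ
import Pool.Agent.Lib.IS3.B_PL
import Pool.Agent.Lib.IS3.B_NNE
import Pool.Agent.Lib.IS3.B_JL0
import Pool.Agent.Lib.IS3.B_JLM
import Pool.Agent.Lib.IS3.B_PARG
import Pool.Agent.Lib.IS3.B_P3A
import Pool.Agent.Lib.IS3.B_P3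
import Pool.Agent.Lib.IS3.B_P4
import Pool.Agent.Lib.IS3.B_RPM
import Pool.Agent.Lib.IS3.B_FZ
import Pool.Agent.Lib.IS3.B_LOCS
import Pool.Agent.Lib.IS3.B_TOP
import Pool.Agent.Lib.IS3.B_PM
import Pool.Agent.Lib.IS3.B_T3

/-! All blocks together. -/

namespace Pool.Agent.Lib.IS3.All

theorem a_ri : St_RI := st_ri
theorem a_lip : St_LIP := st_lip IS2.All.a_gh
theorem a_dim : St_DIM := st_dim
theorem a_path : St_PATH := st_path
theorem a_cov : St_COV := st_cov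
theorem a_bump : St_BUMP := st_bump
theorem a_kbm : St_KBm := st_kbm IS2.All.a_a2
theorem a_kmm : St_KMm := st_kmm IS2.All.a_a1
theorem a_crm : St_CRm := st_crm a_path
theorem a_holm : St_HOLm := st_holm a_kbm a_kmm a_crm IS2.All.a_hi
theorem a_lhw : St_LHW := st_lhw a_holm
theorem a_br1 : St_BR1 := st_br1 a_kbm a_kmm a_crm a_holm
theorem a_lh1 : St_LH1 := st_lh1 a_br1 IS2.All.a_sh IS2.All.a_hi
theorem a_repm : St_REPm := st_repm a_cov
theorem a_sym : St_SYM := st_sym a_cov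
theorem a_spl : St_SPL := st_spl a_lhw a_lh1 a_holm
theorem a_teq2 : St_TEQ2 := st_teq2 a_lhw a_lh1 a_spl IS2.All.a_sh
theorem a_dif : St_DIF := st_dif a_kbm a_kmm a_crm a_holm a_lhw
theorem a_defl : St_DEFL := st_defl
theorem a_estl : St_ESTL := st_estl a_br1 IS2.All.a_sh IS2.All.a_km
theorem a_killl : St_KILLL := st_killl IS2.All.a_cut IS2.All.a_sh a_defl IS2.All.a_rep a_br1 a_lh1
  a_estl
theorem a_h0l : St_H0L := st_h0l
theorem a_h1l : St_H1L := st_h1l a_h0l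
theorem a_h2l : St_H2L := st_h2l a_h0l
theorem a_loc : St_LOC := st_loc IS2.All.a_gh a_lh1
theorem a_cmp1 : St_CMP1 := st_cmp1
theorem a_psi : St_PSI := st_psi
theorem a_nve : St_NVE := st_nve
theorem a_star : St_STAR := st_star
theorem a_cmp : St_CMP := st_cmp a_cmp1 a_psi a_nve a_star IS2.All.a_b0 IS2.All.a_nce
theorem a_rs0 : St_RS0 := st_rs0 IS2.All.a_gh IS2.All.a_lht IS2.All.a_tan IS2.All.a_c5
  IS2.All.a_nh IS2.All.a_sh IS2.All.a_f2 IS2.All.a_j1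
theorem a_rsp2 : St_RSP2 := st_rsp2 a_rs0 IS2.All.a_rep a_bump
theorem a_rsp : St_RSP := st_rsp a_loc a_rsp2
theorem a_tayl : St_TAYL := st_tayl IS2.All.a_gh a_lh1 IS2.All.a_cut a_killl a_h1l a_loc a_rsp
theorem a_j2l : St_J2L := st_j2l
theorem a_expl : St_EXPL := st_expl a_h2l a_tayl IS2.All.a_g IS2.All.a_j1 IS2.All.a_j2 a_j2l
theorem a_gcm : St_GCm := st_gcm
theorem a_laym : St_LAYm := st_laym IS2.All.a_a3 IS2.All.a_lay a_gcm
theorem a_grnm : St_GRNm := st_grnm IS2.All.a_a3 IS2.All.a_lay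
theorem a_jmpm : St_JMPm := st_jmpm IS2.All.a_a3 IS2.All.a_qs a_gcm a_grnm IS2.All.a_vp
theorem a_neum : St_NEUm := st_neum IS2.All.a_a3 IS2.All.a_qs
theorem a_poim : St_POIm := st_poim IS2.All.a_a3 a_laym IS2.All.a_max a_jmpm a_neum
theorem a_grem : St_GREm := st_grem IS2.All.a_lay a_laym IS2.All.a_vp IS2.All.a_max a_poim
theorem a_resm : St_RESm := st_resm IS2.All.a_a3 IS2.All.a_lay IS2.All.a_vp IS2.All.a_max a_poim
  a_grem
theorem a_kbp : St_KBP := st_kbp IS2.All.a_a2 a_kbm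
theorem a_lnkm : St_LNKm := st_lnkm IS2.All.a_a1 a_kbp a_ri
theorem a_chm : St_CHm := st_chm IS2.All.a_a3 a_laym a_lnkm a_neum
theorem a_tr1m : St_TR1m := st_tr1m IS2.All.a_a3 a_gcm IS2.All.a_lay a_laym a_grnm IS2.All.a_vp
  a_jmpm a_neum
theorem a_trm : St_TRm := st_trm IS2.All.a_a3 IS2.All.a_lay a_neum a_poim a_chm a_tr1m
theorem a_teqm : St_TEQM := st_teqm a_lnkm a_grem a_resm a_trm
theorem a_posl : St_POSL := st_posl
theorem a_masa : St_MASA := st_masa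
theorem a_masb : St_MASB := st_masb
theorem a_mks : St_MKS := st_mks
theorem a_k4m : St_K4M := st_k4m a_posl a_masa a_masb a_mks ISO.st_k8
theorem a_tonl : St_TONL := st_tonl ISO.st_fou
theorem a_tonm : St_TONM := st_tonm ISO.st_fou a_mks a_k4m a_tonl a_posl
theorem a_qui : St_QUI := st_qui
theorem a_par : St_PAR := st_par
theorem a_gen : St_GEN := st_gen IS2.All.a_jet2 a_qui a_par
theorem a_gjf : St_GJF := st_gjf
theorem a_momw : St_MOMW := st_momw a_tonm a_teq2 a_expl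
theorem a_brm : St_BRM := st_brm
theorem a_tstm : St_TSTM := st_tstm IS2.All.a_en
theorem a_s1 : St_S1 := st_s1 IS2.All.a_br a_brm
theorem a_sb1 : St_SB1 := st_sb1 a_tonm a_tstm a_s1
theorem a_b2a : St_B2a := st_b2a
theorem a_b2 : St_B2 := st_b2 a_b2a
theorem a_b3 : St_B3 := st_b3
theorem a_den1 : St_DEN1 := st_den1 ISO.st_emb ISO.st_fou ISO.All.a_open
theorem a_den : St_DEN := st_den ISO.st_emb ISO.st_fou ISO.All.a_open a_den1
theorem a_divm : St_DIVm := st_divm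
theorem a_hsq1m : St_HSQ1m := st_hsq1m IS2.All.a_lay IS2.All.a_vp a_neum a_poim a_grem
theorem a_hsqm : St_HSQm := st_hsqm IS2.All.a_lay a_grem a_resm a_hsq1m
theorem a_ncm : St_NCM := st_ncm a_divm a_nve a_cmp
theorem a_onem : St_ONEM := st_onem ISO.All.a_exp ISO.All.a_coef ISO.st_dom ISO.st_scl
  ISO.All.a_tame ISO.st_fou a_ncm
theorem a_cst : St_CST := st_cst a_divm a_ncm a_onem a_hsqm a_teqm
theorem a_geom : St_GEOM := st_geom
theorem a_cgm : St_CGM := st_cgm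
theorem a_sbm : St_SBM := st_sbm a_geom IS2.All.a_sca a_onem a_cst a_momw a_sb1 a_gen a_b2 a_b3
  a_cgm
theorem a_scl : St_SCL := st_scl
theorem a_pu : St_PU := st_pu a_lhw a_lip
theorem a_dlp : St_DLP := st_dlp
theorem a_pux : St_PUX := st_pux a_pu a_dif a_dlp
theorem a_ple : St_PLE := st_ple a_kbp
theorem a_pls : St_PLS := st_pls IS2.All.a_a1 IS2.All.a_a2 a_kbp a_lnkm
theorem a_plm : St_PLM := st_plm a_kbm a_kmm a_lnkm a_ple a_pls
theorem a_pla : St_PLA := st_pla a_dlp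
theorem a_pli : St_PLI := st_pli a_path a_ri a_pla
theorem a_plj : St_PLJ := st_plj
theorem a_pl : St_PL := st_pl a_bump a_dif a_pu a_plm a_pla a_pli a_plj a_dlp a_pux
theorem a_nne : St_NNE := st_nne a_dlp
theorem a_jl0 : St_JL0 := st_jl0
theorem a_jlm : St_JLM := st_jlm a_jl0
theorem a_parg : St_PARG := st_parg a_dlp a_jl0
theorem a_p3a : St_P3A := st_p3a a_dlp a_jlm
theorem a_p3 : St_P3 := st_p3 a_dlp a_nne a_parg a_p3a
theorem a_p4 : St_P4 := st_p4 a_pl a_pu a_pux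
theorem a_rpm : St_RPM := st_rpm ISO.st_rp ISO.st_emb
theorem a_fz : St_FZ := st_fz a_lip a_pu
theorem a_locs : St_LOCS := st_locs a_fz a_rpm a_repm a_dim
theorem a_top : St_TOP := st_top a_den
theorem a_pm : St_PM := st_pm a_p3 a_p4 a_locs a_sym a_pu
theorem a_t3 : St_T3 := st_t3 a_den a_top a_geom a_sbm a_cst a_gen a_gjf a_scl a_pm a_cgm

end Pool.Agent.Lib.IS3.All
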