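import Pool.Agent.Lib.IS3.Kit
import Pool.Agent.Lib.IS2.B_JET2

/-! Project is3, row B3: from equal jets to a bijection of the curves. -/

open scoped ContDiff Topology
open Set Filter

noncomputable section

namespace Pool.Agent.Lib.IS3

open Pool.Agent.Lib.ISO Pool.Agent.Lib.IS2

namespace B3

variable {κ κ' g : ℝ → ℝ} {L s s' t τ β : ℝ}

theorem cont (h : ContDiff ℝ ∞ g) (n : ℕ) : Continuous (iteratedDeriv n g) :=
  h.continuous_iteratedDeriv n (by exact_mod_cast le_top)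

theorem jet_aff (hτ : τ = 1 ∨ τ = -1) (n : ℕ) :
    |iteratedDeriv n (fun x => κ (τ * x + β)) t| = |iteratedDeriv n κ (τ * t + β)| := by
  rcases hτ with rfl | rfl
  · simp only [one_mul, iteratedDeriv_comp_add_const]
  · simp only [neg_one_mul]
    rw [iteratedDeriv_comp_neg n (fun y => κ (y + β)) t, iteratedDeriv_comp_add_const, smul_eq_mul,
      abs_mul, abs_pow, abs_neg, abs_one, one_pow, one_mul]

theorem eqj_of (hτ : τ = 1 ∨ τ = -1) (h : g =ᶠ[𝓝 t] fun x => κ (τ * x + β)) :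
    Eqj κ (τ * t + β) g t :=
  ⟨h.eq_of_nhds.symm, fun n _ => by rw [h.iteratedDeriv_eq, jet_aff hτ]⟩

theorem closed (hκ : ContDiff ℝ ∞ κ) (hg : ContDiff ℝ ∞ g) :
    IsClosed {p : ℝ × ℝ | Eqj κ p.2 g p.1} := by
  refine IsClosed.inter (isClosed_eq (hκ.continuous.comp continuous_snd)
    (hg.continuous.comp continuous_fst)) ?_
  have : IsClosed (⋂ n : ℕ, ⋂ _ : 1 ≤ n,
      {p : ℝ × ℝ | |iteratedDeriv n κ p.2| = |iteratedDeriv n g p.1|}) :=
    isClosed_iInter fun n => isClosed_iInter fun _ => isClosed_eq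
      ((cont hκ n).comp continuous_snd).abs ((cont hg n).comp continuous_fst).abs
  simp only [← ofPred_forall] at this
  exact this

theorem pint (h : Per L κ) (m : ℤ) (s : ℝ) : κ (s + m * L) = κ s :=
  Function.Periodic.int_mul (f := κ) h.per m s

theorem shift (h : Per L κ) (e : Eqj κ s g t) (m : ℤ) : Eqj κ (s + m * L) g t := by
  refine ⟨(pint h m s).trans e.1, fun n hn => ?_⟩
  have h1 := congrFun (iteratedDeriv_comp_add_const n κ (m * L)) s
  simp only [pint h m] at h1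
  rw [← h1]
  exact e.2 n hn

theorem avoid (hκ : ContDiff ℝ ∞ κ) (hg : ContDiff ℝ ∞ g) {K : Set ℝ} (hK : IsCompact K)
    (h : ∀ s ∈ K, ¬Eqj κ s g t) : ∀ᶠ x in 𝓝 t, ∀ s ∈ K, ¬Eqj κ s g x :=
  hK.eventually_forall_of_forall_eventually (P := fun x s => ¬Eqj κ s g x) fun s hs =>
    (closed hκ hg).isOpen_compl.mem_nhds (h s hs)

theorem red (hL : 0 < L) (s a : ℝ) : ∃ m : ℤ, s + m * L ∈ Ico a (a + L) :=
  ⟨-toIcoDiv hL a s, by
    have := toIcoMod_mem_Ico hL a s
    rwa [toIcoMod, zsmul_eq_mul, sub_eq_add_neg, ← neg_mul, ← Int.cast_neg] at this⟩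

theorem int_zero (hL : 0 < L) {m : ℤ} (h : |m * L| < L) : m = 0 := by
  rw [abs_mul, abs_of_pos hL, mul_lt_iff_lt_one_left hL] at h
  have : |m| < 1 := by exact_mod_cast h
  exact Int.abs_lt_one_iff.1 this

/-- One generic curvature function and a function with the same jets. -/
structure One (κ : ℝ → ℝ) (L : ℝ) (g : ℝ → ℝ) : Prop where
  pos : 0 < L
  per : Per L κ
  jet : ∀ s t, (∀ n, 1 ≤ n → |iteratedDeriv n κ s| = |iteratedDeriv n κ t|) →
    ∃ m : ℤ, t = s + m * L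
  flat : ∀ s, ∃ n, 1 ≤ n ∧ iteratedDeriv n κ s ≠ 0
  sm : ContDiff ℝ ∞ g
  all : ∀ t, ∃ s, Eqj κ s g t

namespace One

theorem uniq (h : One κ L g) (e : Eqj κ s g t) (e' : Eqj κ s' g t) : ∃ m : ℤ, s' = s + m * L :=
  h.jet s s' fun n hn => (e.2 n hn).trans (e'.2 n hn).symm

theorem near (h : One κ L g) (e : Eqj κ s g t) {ε : ℝ} (hε : 0 < ε) :
    ∀ᶠ x in 𝓝 t, ∃ u, |u - s| < ε ∧ Eqj κ u g x := by
  have h1 := avoid (t := t) h.per.smooth h.sm (isCompact_Icc (a := s + min ε L / 2)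
    (b := s + L - min ε L / 2)) fun u hu e' => by
      obtain ⟨m, hm⟩ := h.uniq e e'
      have h2 := lt_min hε h.pos
      have h3 : (0 : ℝ) < m * L := by linarith [hu.1]
      have h4 := int_zero (m := m) h.pos (by rw [abs_of_pos h3]; linarith [hu.2])
      rw [h4, Int.cast_zero, zero_mul] at h3
      exact lt_irrefl _ h3
  filter_upwards [h1] with x hx
  obtain ⟨u, hu⟩ := h.all x
  obtain ⟨m, hm⟩ := red h.pos u (s + min ε L / 2)
  have h5 := shift h.per hu m
  have h6 : s + L - min ε L / 2 < u + m * L := not_le.1 fun k => hx _ ⟨hm.1, k⟩ h5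
  refine ⟨u + (m - 1 : ℤ) * L, ?_, shift h.per hu _⟩
  have h7 := min_le_left ε L
  rw [Int.cast_sub, Int.cast_one, abs_lt]
  constructor <;> linarith [hm.2]

theorem reg (h : One κ L g) (ht : deriv g t ≠ 0) :
    ∃ τ β : ℝ, (τ = 1 ∨ τ = -1) ∧ g =ᶠ[𝓝 t] fun x => κ (τ * x + β) := by
  obtain ⟨s, e⟩ := h.all t
  have ck := cont h.per.smooth 1
  have cg := cont h.sm 1
  rw [iteratedDeriv_one] at ck cg
  have e1 : ∀ {u x}, Eqj κ u g x → |deriv κ u| = |deriv g x| := fun e => by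
    simpa only [iteratedDeriv_one] using e.2 1 le_rfl
  have k0 : deriv κ s ≠ 0 := abs_ne_zero.1 (by rw [e1 e]; exact abs_ne_zero.2 ht)
  obtain ⟨ε₀, hε₀, hk⟩ := Metric.eventually_nhds_iff.1
    ((ck.mul continuous_const).continuousAt.eventually (lt_mem_nhds (mul_self_pos.2 k0)))
  have hε := lt_min hε₀ (half_pos h.pos)
  obtain ⟨δ, hδ, hd⟩ := Metric.eventually_nhds_iff_ball.1 ((h.near e hε).and
    ((cg.mul continuous_const).continuousAt.eventually (lt_mem_nhds (mul_self_pos.2 ht))))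
  choose! σ hσ eσ using fun x hx => (hd x hx).1
  have hτ : deriv g t / deriv κ s = 1 ∨ deriv g t / deriv κ s = -1 := by
    rcases abs_eq_abs.1 (e1 e).symm with k | k
    · exact Or.inl (by rw [k, div_self k0])
    · exact Or.inr (by rw [k, neg_div, div_self k0])
  have hD : ∀ x ∈ Metric.ball t δ, HasDerivAt σ (deriv g t / deriv κ s) x := fun x hx => by
    have hb := Metric.isOpen_ball.mem_nhds hx
    have c1 : ContinuousAt σ x := Metric.tendsto_nhds.2 fun η hη => by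
      filter_upwards [h.near (eσ x hx) (lt_min hη (sub_pos.2 (hσ x hx))), hb] with y ⟨u, hu, eu⟩ hy
      obtain ⟨m, hm⟩ := h.uniq eu (eσ y hy)
      have h1 := abs_lt.1 (hu.trans_le (min_le_right _ _))
      have h2 := abs_lt.1 (hσ y hy)
      have h3 := min_le_right ε₀ (L / 2)
      have h4 := le_abs_self (σ x - s)
      have h5 := neg_abs_le (σ x - s)
      have h6 := int_zero (m := m) h.pos (abs_lt.2 ⟨by linarith [h1.2, h2.1], by linarith [h1.1, h2.2]⟩)
      rw [h6, Int.cast_zero, zero_mul, add_zero] at hm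
      rw [hm]
      exact hu.trans_le (min_le_left _ _)
    have p1 : 0 < deriv κ (σ x) * deriv κ s := hk ((hσ x hx).trans_le (min_le_left _ _))
    have p2 : 0 < deriv g x * deriv g t := (hd x hx).2
    have k1 : deriv κ (σ x) ≠ 0 := left_ne_zero_of_mul p1.ne'
    have c2 := HasDerivAt.of_comp_left c1
      (h.per.smooth.differentiable (by simp) (σ x)).hasDerivAt
      (h.sm.differentiable (by simp) x).hasDerivAt k1
      (by filter_upwards [hb] with y hy using (eσ y hy).1)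
    refine c2.congr_deriv ?_
    rw [div_eq_div_iff k1 k0]
    rcases abs_eq_abs.1 (e1 e) with k | k <;> rcases abs_eq_abs.1 (e1 (eσ x hx)) with k' | k' <;>
      rw [k, k'] at p1 ⊢ <;> nlinarith
  obtain ⟨β, hβ⟩ := Metric.isOpen_ball.exists_is_const_of_deriv_eq_zero
    (f := fun x => σ x - deriv g t / deriv κ s * x) (convex_ball t δ).isPreconnected
    (fun x hx => ((hD x hx).sub ((hasDerivAt_id x).const_mul _)).differentiableAt.differentiableWithinAt)
    fun x hx => by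
      simpa using
        ((hD x hx).fun_sub ((hasDerivAt_id' x).const_mul (deriv g t / deriv κ s))).deriv
  refine ⟨_, β, hτ, ?_⟩
  filter_upwards [Metric.ball_mem_nhds t hδ] with x hx
  rw [← hβ x hx, add_sub_cancel]
  exact (eσ x hx).1.symm

theorem glue (h : One κ L g) {S : Set ℝ} (hS : IsPreconnected S) (hne : S.Nonempty)
    (hl : ∀ t ∈ S, ∃ τ β : ℝ, (τ = 1 ∨ τ = -1) ∧ g =ᶠ[𝓝 t] fun x => κ (τ * x + β)) :
    ∃ τ β : ℝ, (τ = 1 ∨ τ = -1) ∧ ∀ t ∈ S, g =ᶠ[𝓝 t] fun x => κ (τ * x + β) := by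
  obtain ⟨t₀, h₀⟩ := hne
  obtain ⟨τ, β, hτ, e₀⟩ := hl t₀ h₀
  refine ⟨τ, β, hτ, hS.subset_of_closure_inter_subset
    (u := {t | ∀ᶠ x in 𝓝 t, g x = κ (τ * x + β)}) isOpen_setOfPred_eventually_nhds ⟨t₀, h₀, e₀⟩ ?_⟩
  rintro t₁ ⟨h₁, h₂⟩
  obtain ⟨τ', β', hτ', e₁⟩ := hl t₁ h₂
  obtain ⟨t₂, e₂, e₃⟩ := mem_closure_iff_nhds.1 h₁ _ e₁.eventually_nhds
  obtain ⟨m, hm⟩ := h.uniq (eqj_of hτ e₃) (eqj_of hτ' e₂)
  obtain ⟨δ, hδ, hd⟩ := Metric.eventually_nhds_iff.1
    ((Filter.Eventually.eventually_nhds e₃).and (Filter.Eventually.eventually_nhds e₂))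
  have hr := half_pos (lt_min hδ h.pos)
  have r1 := min_le_left δ L
  have r2 := min_le_right δ L
  obtain ⟨e₄, e₅⟩ := @hd (t₂ + min δ L / 4) (by
    rw [Real.dist_eq, add_sub_cancel_left, abs_of_pos (by linarith)]; linarith)
  obtain ⟨m', hm'⟩ := h.uniq (eqj_of hτ e₄) (eqj_of hτ' e₅)
  have hm0 : ((m' - m : ℤ) : ℝ) * L = (τ' - τ) * (min δ L / 4) := by
    rw [Int.cast_sub]; linarith
  have hττ : τ' = τ := by
    have h3 := int_zero (m := m' - m) h.pos (by
      rw [hm0, abs_lt]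
      rcases hτ with rfl | rfl <;> rcases hτ' with rfl | rfl <;> constructor <;> linarith)
    rw [h3, Int.cast_zero, zero_mul] at hm0
    exact sub_eq_zero.1 ((mul_eq_zero.1 hm0.symm).resolve_right (by linarith))
  filter_upwards [e₁] with x hx
  rw [hx, hττ, show τ * x + β' = τ * x + β + m * L by rw [hττ] at hm; linarith, pint h.per]

theorem iso (h : One κ L g) (t : ℝ) : ∀ᶠ x in 𝓝[≠] t, deriv g x ≠ 0 := by
  by_contra hx
  have h0 : ∃ᶠ x in 𝓝[≠] t, deriv g x = 0 := by simpa only [not_eventually, ne_eq, not_not] using hx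
  have h1 : ∀ n, 1 ≤ n → ∃ᶠ x in 𝓝[≠] t, iteratedDeriv n g x = 0 := fun n hn => by
    induction n, hn using Nat.le_induction with
    | base => rwa [iteratedDeriv_one]
    | succ m _ ih => rw [iteratedDeriv_succ]; exact (JET2.rolle (cont h.sm m) ih).2
  obtain ⟨s, e⟩ := h.all t
  obtain ⟨n, hn, k⟩ := h.flat s
  refine k (abs_eq_zero.1 ?_)
  rw [e.2 n hn, (JET2.rolle (cont h.sm n) (h1 n hn)).1, abs_zero]

theorem side (h : One κ L g) {a b : ℝ} (hab : a < b) (hd : ∀ x ∈ Ioo a b, deriv g x ≠ 0) :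
    ∃ τ β : ℝ, (τ = 1 ∨ τ = -1) ∧ ∀ x ∈ Icc a b, Eqj κ (τ * x + β) g x := by
  obtain ⟨τ, β, hτ, e⟩ := h.glue isPreconnected_Ioo (nonempty_Ioo.2 hab) fun x hx => h.reg (hd x hx)
  refine ⟨τ, β, hτ, fun x hx => ?_⟩
  rw [← closure_Ioo hab.ne] at hx
  have hc : IsClosed {x | Eqj κ (τ * x + β) g x} := (closed h.per.smooth h.sm).preimage
    (f := fun x : ℝ => (x, τ * x + β)) (by fun_prop)
  exact closure_minimal (fun y hy => eqj_of hτ (e y hy)) hc hx

theorem loc (h : One κ L g) {L' : ℝ} (hL : 0 < L')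
    (hn : ∀ t t' δ : ℝ, 0 < δ → (∀ u, |u| < δ → g (t + u) = g (t' + -1 * u)) →
      ∃ m : ℤ, t' = t + m * L') (t : ℝ) :
    ∃ τ β : ℝ, (τ = 1 ∨ τ = -1) ∧ g =ᶠ[𝓝 t] fun x => κ (τ * x + β) := by
  obtain ⟨δ, hδ, hd⟩ := Metric.eventually_nhds_iff.1 (eventually_nhdsWithin_iff.1 (h.iso t))
  obtain ⟨τ, β, hτ, e⟩ := h.side (a := t - δ) (b := t) (by linarith) fun x hx =>
    hd (by rw [Real.dist_eq, abs_lt]; constructor <;> linarith [hx.1, hx.2]) hx.2.ne
  obtain ⟨τ', β', hτ', e'⟩ := h.side (a := t) (b := t + δ) (by linarith) fun x hx =>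
    hd (by rw [Real.dist_eq, abs_lt]; constructor <;> linarith [hx.1, hx.2]) hx.1.ne'
  obtain ⟨m, hm⟩ := h.uniq (e t ⟨by linarith, le_rfl⟩) (e' t ⟨le_rfl, by linarith⟩)
  have hr : ∀ u, 0 ≤ u → u ≤ δ → g (t + u) = κ (τ * t + β + τ' * u) := fun u h0 h1 => by
    rw [← (e' (t + u) ⟨by linarith, by linarith⟩).1, ← pint h.per m (τ * t + β + τ' * u)]
    exact congrArg κ (by linarith)
  by_cases hττ : τ' = τ
  · refine ⟨τ, β, hτ, ?_⟩
    filter_upwards [Icc_mem_nhds (show t - δ < t by linarith) (show t < t + δ by linarith)] with x hx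
    rcases le_total x t with k | k
    · exact (e x ⟨hx.1, k⟩).1.symm
    · have := hr (x - t) (by linarith) (by linarith [hx.2])
      rw [add_sub_cancel, hττ] at this
      exact this.trans (congrArg κ (by ring))
  · have h1 : τ' = -τ := by
      rcases hτ with rfl | rfl <;> rcases hτ' with rfl | rfl <;> first | exact absurd rfl hττ | simp
    have hρ := lt_min hδ hL
    have r1 := min_le_left δ L'
    have r2 := min_le_right δ L'
    obtain ⟨k, hk⟩ := hn (t + min δ L' / 4) (t - min δ L' / 4) (min δ L' / 4) (by linarith)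
      fun u hu => by
        obtain ⟨u1, u2⟩ := abs_lt.1 hu
        rw [add_assoc, hr _ (by linarith) (by linarith),
          ← (e (t - min δ L' / 4 + -1 * u) ⟨by linarith, by linarith⟩).1, h1]
        exact congrArg κ (by ring)
    have h2 := int_zero (m := k) hL (abs_lt.2 ⟨by linarith, by linarith⟩)
    rw [h2, Int.cast_zero, zero_mul] at hk
    exact absurd hk (by linarith)

end One

variable {N : ℕ} {k : Fin N → ℝ → ℝ} {l : Fin N → ℝ}

theorem pn_zero (κ : ℝ → ℝ) (n : ℕ) : Pn 0 κ n = iteratedDeriv n κ := by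
  induction n with
  | zero => funext t; simp [Pn]
  | succ n ih => funext t; simp [Pn, ih, iteratedDeriv_succ]

theorem label (h : GJ k l) {i j : Fin N} (e : Eqj (k i) s g t) (e' : Eqj (k j) s' g t) : i = j := by
  by_contra hij
  obtain ⟨n, hn⟩ := h.par i j hij 0 s s' (by simp)
  rw [pn_zero] at hn
  rcases Nat.eq_zero_or_pos n with rfl | h0
  · exact hn (by rw [iteratedDeriv_zero, iteratedDeriv_zero, e.1, e'.1])
  · exact hn ((e.2 n h0).trans (e'.2 n h0).symm)

theorem one_label (h : GJ k l) (hg : ContDiff ℝ ∞ g) (ha : ∀ t, ∃ i s, Eqj (k i) s g t) :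
    ∃ i, ∀ t, ∃ s, Eqj (k i) s g t := by
  choose ι σ e using ha
  have hc : IsLocallyConstant ι := (IsLocallyConstant.iff_eventually_eq ι).2 fun t => by
    have h1 : ∀ᶠ x in 𝓝 t, ∀ j, j ≠ ι t → ∀ s ∈ Icc 0 (l j), ¬Eqj (k j) s g x :=
      eventually_all.2 fun j => by
        by_cases hj : j = ι t
        · exact Eventually.of_forall fun x hx => absurd hj hx
        · exact (avoid (h.per j).smooth hg isCompact_Icc
            fun s _ e' => hj (label h e' (e t))).mono fun x hx _ => hx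
    filter_upwards [h1] with x hx
    by_contra hne
    obtain ⟨m, hm⟩ := red (h.pos (ι x)) (σ x) 0
    exact hx _ hne _ ⟨hm.1, by linarith [hm.2]⟩ (shift (h.per _) (e x) m)
  exact ⟨ι 0, fun t => ⟨σ t, hc.apply_eq_of_preconnectedSpace t 0 ▸ e t⟩⟩

end B3

open B3 in
theorem st_b3 : St_B3 := by
  intro N N' κ L g L' h hg ⟨t1, t2, t3⟩
  have key : ∀ a, ∃ (i : Fin N) (τ β : ℝ), (τ = 1 ∨ τ = -1) ∧ ∀ t, g a t = κ i (τ * t + β) :=
    fun a => by
      obtain ⟨i, hi⟩ := one_label h (hg a).2.smooth (t2 a)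
      have o : One (κ i) (L i) (g a) := ⟨h.pos i, h.per i, h.jet i, h.flat i, (hg a).2.smooth, hi⟩
      obtain ⟨τ, β, hτ, e⟩ := o.glue isPreconnected_univ univ_nonempty fun t _ =>
        o.loc (hg a).1 (fun t t' δ hδ e => (t3 a a t t' (-1) δ (Or.inr rfl) hδ e).2) t
      exact ⟨i, τ, β, hτ, fun t => (e t (mem_univ t)).eq_of_nhds⟩
  choose ι τ β hτ e using key
  have ej : ∀ a t, Eqj (κ (ι a)) (τ a * t + β a) (g a) t := fun a t =>
    eqj_of (hτ a) (Eventually.of_forall (e a))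
  have inj : Function.Injective ι := fun a a' hi => by
    refine (t3 a a' 0 (τ a' * (β a - β a')) (τ a' * τ a) 1 ?_ one_pos fun u _ => ?_).1
    · rcases hτ a with k | k <;> rcases hτ a' with k' | k' <;> rw [k, k'] <;> simp
    · rw [e, e, hi]
      refine congrArg _ ?_
      rcases hτ a' with k' | k' <;> rw [k'] <;> ring
  have sur : Function.Surjective ι := fun i => by
    obtain ⟨a, t, h1⟩ := t1 i 0
    exact ⟨a, label h (ej a t) h1⟩
  have len : ∀ a, L' a = L (ι a) := fun a => by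
    have hp := (hg a).1
    obtain ⟨m, hm⟩ := h.jet (ι a) (τ a * 0 + β a) (τ a * (0 + (1 : ℤ) * L' a) + β a) fun n hn => by
      have h1 := congrFun (iteratedDeriv_comp_add_const n (g a) ((1 : ℤ) * L' a)) 0
      simp only [pint (hg a).2 1] at h1
      rw [(ej a _).2 n hn, (ej a _).2 n hn, h1]
    obtain ⟨-, m', hm'⟩ := t3 a a 0 (L (ι a)) 1 1 (Or.inl rfl) one_pos fun u _ => by
      rw [e, e]
      rcases hτ a with k | k
      · rw [← pint (h.per (ι a)) 1 (τ a * (0 + u) + β a), k]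
        exact congrArg _ (by push_cast; ring)
      · rw [← pint (h.per (ι a)) (-1) (τ a * (0 + u) + β a), k]
        exact congrArg _ (by push_cast; ring)
    rw [zero_add] at hm'
    have h1 : τ a = (m * m' : ℤ) := mul_right_cancel₀ hp.ne' (by
      push_cast at hm ⊢
      rw [mul_assoc, ← hm']
      linarith)
    have h2 : IsUnit m' := by
      rcases hτ a with k | k <;> rw [k] at h1
      · exact IsUnit.of_mul_eq_one_right m (by exact_mod_cast h1.symm)
      · exact IsUnit.of_mul_eq_one_right (-m) (by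
          rw [neg_mul, neg_eq_iff_eq_neg]; exact_mod_cast h1.symm)
    rcases Int.isUnit_iff.1 h2 with k | k
    · rw [hm', k, Int.cast_one, one_mul]
    · have := h.pos (ι a)
      rw [hm', k] at this
      push_cast at this
      linarith
  let ε := Equiv.ofBijective ι ⟨inj, sur⟩
  refine ⟨ε.symm, fun i => τ (ε.symm i), fun i => β (ε.symm i), fun i => ?_⟩
  have hi : ι (ε.symm i) = i := ε.apply_symm_apply i
  exact ⟨by rw [len, hi], hτ _, fun t => by rw [e, hi]⟩

end Pool.Agent.Lib.IS3
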