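import Pool.Agent.Lib.IS3.Kit

/-! The distance to the other clusters. -/

open scoped ContDiff ComplexConjugate Topology Real
open Complex MeasureTheory Set Filter

noncomputable section

namespace Pool.Agent.Lib.IS3

open Pool.Agent.Lib.ISO Pool.Agent.Lib.IS2

namespace DLP

variable {N : ℕ} {j : ℝ} {Γ : MC N}

lemma cpt (h : Nv j Γ) (cl : Fin N → Fin N) (c : Fin N) :
    IsCompact {z | ∃ x : XN N, cl x.1 ≠ c ∧ z = gp Γ x} := by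
  have hc : IsClosed {x : XN N | cl x.1 ≠ c} :=
    (isClosed_discrete {i : Fin N | cl i ≠ c}).preimage continuous_fst
  have e : {z | ∃ x : XN N, cl x.1 ≠ c ∧ z = gp Γ x} =
      gp Γ '' (KX N ∩ {x : XN N | cl x.1 ≠ c}) := by
    ext z
    constructor
    · rintro ⟨x, hx, rfl⟩
      obtain ⟨k, hk⟩ := red_KX x
      exact ⟨_, ⟨hk, hx⟩, h.rc.gp_int x k⟩
    · rintro ⟨x, ⟨_, hx⟩, rfl⟩
      exact ⟨x, hx, rfl⟩
  rw [e]
  exact (cpt_KX.inter_right hc).image h.rc.gp_cont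

lemma le (cl : Fin N → Fin N) {x y : XN N} (e : cl x.1 ≠ cl y.1) : dl cl Γ y ≤ cm Γ x y := by
  rw [cm_comm, cm_eq_dist]
  exact Metric.infDist_le_dist_of_mem ⟨x, e, rfl⟩

lemma near (h : Nv j Γ) (cl : Fin N → Fin N) {x y : XN N} (e : cl x.1 ≠ cl y.1) :
    ∃ x', Nr0 cl Γ x' y := by
  obtain ⟨z, ⟨x', hx, rfl⟩, hz⟩ :=
    (cpt h cl (cl y.1)).exists_infDist_eq_dist ⟨_, x, e, rfl⟩ (gp Γ y)
  exact ⟨x', hx, by rw [cm_comm, cm_eq_dist]; exact hz.symm⟩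

lemma gmin (h : Nv j Γ) (cl : Fin N → Fin N) (hne : ∃ i k, cl i ≠ cl k) :
    ∃ x y : XN N, cl x.1 ≠ cl y.1 ∧ ∀ a b : XN N, cl a.1 ≠ cl b.1 → cm Γ x y ≤ cm Γ a b := by
  obtain ⟨i, k, hik⟩ := hne
  have hc : IsClosed {p : XN N × XN N | cl p.1.1 ≠ cl p.2.1} :=
    (isClosed_discrete {q : Fin N × Fin N | cl q.1 ≠ cl q.2}).preimage
      (continuous_fst.fst.prodMk continuous_snd.fst)
  have hK : IsCompact ((KX N ×ˢ KX N) ∩ {p : XN N × XN N | cl p.1.1 ≠ cl p.2.1}) :=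
    (cpt_KX.prod cpt_KX).inter_right hc
  obtain ⟨a, ha⟩ := red_KX ((i, 0) : XN N)
  obtain ⟨b, hb⟩ := red_KX ((k, 0) : XN N)
  obtain ⟨p, hp, hm⟩ := hK.exists_isMinOn ⟨(_, _), ⟨ha, hb⟩, hik⟩ h.rc.cm_cont.continuousOn
  refine ⟨p.1, p.2, hp.2, fun x y e => ?_⟩
  obtain ⟨c, hc1⟩ := red_KX x
  obtain ⟨d, hd1⟩ := red_KX y
  have h1 := hm (a := (_, _)) ⟨⟨hc1, hd1⟩, e⟩
  have h2 : cm Γ (x.1, x.2 + c * (2 * π)) (y.1, y.2 + d * (2 * π)) = cm Γ x y := by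
    unfold cm
    rw [h.rc.gp_int x c, h.rc.gp_int y d]
  exact h2 ▸ h1

lemma hd_sq {γ : ℝ → ℂ} {v : ℂ} {s : ℝ} (h : HasDerivAt γ v s) (w : ℂ) :
    HasDerivAt (fun u => ‖w - γ u‖ ^ 2) (2 * rdot v (γ s - w)) s := by
  have h1 := ((hasDerivAt_const s w).sub h).norm_sq
  refine h1.congr_deriv ?_
  simp only [rdot, Pi.sub_apply, Complex.inner, zero_sub, mul_re, neg_re, neg_im, conj_re, conj_im,
    sub_re, sub_im]
  ring

lemma der (h : Nv j Γ) (cl : Fin N → Fin N) {x y : XN N} (hn : Nr0 cl Γ x y)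
    (hd : DifferentiableAt ℝ (fun s => dl cl Γ (y.1, s)) y.2) :
    deriv (fun s => dl cl Γ (y.1, s)) y.2 * cm Γ x y =
      rdot (deriv (Γ y.1) y.2) (gp Γ y - gp Γ x) := by
  have h1 := (hd_sq (h.hd y.1 y.2) (gp Γ x)).sub (hd.hasDerivAt.pow 2)
  have hm : IsLocalMin ((fun u => ‖gp Γ x - Γ y.1 u‖ ^ 2) - (fun s => dl cl Γ (y.1, s)) ^ 2) y.2 := by
    refine Eventually.of_forall fun u => ?_
    have a1 : dl cl Γ (y.1, u) ≤ cm Γ x (y.1, u) := le cl (y := (y.1, u)) hn.1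
    have a0 : 0 ≤ dl cl Γ (y.1, u) := Metric.infDist_nonneg
    have a2 : cm Γ x y = dl cl Γ y := hn.2
    have a3 : dl cl Γ (y.1, u) ^ 2 ≤ cm Γ x (y.1, u) ^ 2 := pow_le_pow_left₀ a0 a1 2
    show cm Γ x y ^ 2 - dl cl Γ y ^ 2 ≤ cm Γ x (y.1, u) ^ 2 - dl cl Γ (y.1, u) ^ 2
    rw [a2]
    linarith
  have h2 := hm.hasDerivAt_eq_zero h1
  have a2 : cm Γ x y = dl cl Γ y := hn.2
  rw [a2]
  have e : gp Γ y = Γ y.1 y.2 := rfl
  have e2 : dl cl Γ (y.1, y.2) = dl cl Γ y := rfl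
  simp only [e2, Nat.cast_ofNat, Nat.add_one_sub_one, pow_one] at h2
  rw [e]
  linarith

end DLP

theorem st_dlp : St_DLP := by
  intro j N cl Γ h
  refine ⟨fun k s t => ?_, fun x y e => ?_, DLP.gmin h cl, fun x y hn hd => DLP.der h cl hn hd⟩
  · refine le_trans ?_ (h.le_dc k s t)
    have h1 := (Metric.lipschitz_infDist_pt {z | ∃ x : XN N, cl x.1 ≠ cl k ∧ z = gp Γ x}).dist_le_mul
      (Γ k s) (Γ k t)
    rw [Real.dist_eq, dist_eq_norm, NNReal.coe_one, one_mul] at h1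
    exact h1
  · obtain ⟨x', hx⟩ := DLP.near h cl e
    refine ⟨DLP.le cl e, ?_, ?_, x', hx⟩
    · rw [← hx.2]
      exact h.inv_le_cm fun e' => hx.1 (by rw [e'])
    · rw [← hx.2]
      exact h.cm_le_j _ _

end Pool.Agent.Lib.IS3
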