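import Pool.Agent.Lib.IS3.Kit
import Pool.Agent.Lib.IS2.B_K4Q

/-! Row K4M: a marker on one curve forces pure tones on the other family. -/

open Filter Topology

noncomputable section

namespace Pool.Agent.Lib.IS3

open Pool.Agent.Lib.ISO Pool.Agent.Lib.ISO.K4 Pool.Agent.Lib.IS2

namespace K4M

variable {N N' : ℕ} {j B R : ℝ} {l : Fin N → ℝ} {z : Fin N → ℤ → ℂ}

/-- a combination -/
def cb (s : Finset (Fin N)) (w : Fin N → ℝ) (x : Fin N → Q) : Q :=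
  ⟨fun k => ∑ i ∈ s, w i * (x i).e k, fun e => ∑ i ∈ s, w i * (x i).m e, ∑ i ∈ s, w i * (x i).n,
    ∑ i ∈ s, w i * (x i).j⟩

lemma step {γ Λ μ v w : ℝ} {x y : Q} (hx : Ineq γ Λ μ v x) (hy : Ineq γ Λ μ v y) (h : 0 ≤ w) :
    Ineq γ Λ μ v ⟨fun k => w * x.e k + y.e k, fun e => w * x.m e + y.m e, w * x.n + y.n,
      w * x.j + y.j⟩ := by
  have t := fun {a b : ℝ} (k : a ≤ b) => mul_le_mul_of_nonneg_left k h
  refine ⟨?_, ?_, ?_, ?_, ?_, ?_, ?_, ?_, abs_le.2 ⟨?_, ?_⟩, abs_le.2 ⟨?_, ?_⟩, fun ν a b => ?_,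
    fun ν a b => ?_⟩ <;> dsimp only
  · linarith [t hx.m0, hy.m0]
  · linarith [t hx.m2, hy.m2]
  · linarith [t hx.j0, hy.j0]
  · linarith [t hx.o0, hy.o0]
  · linarith [t hx.L1, hy.L1]
  · linarith [t hx.L2, hy.L2]
  · linarith [t hx.U1, hy.U1]
  · linarith [t hx.U2, hy.U2]
  · linarith [t (abs_le.1 hx.A).1, (abs_le.1 hy.A).1]
  · linarith [t (abs_le.1 hx.A).2, (abs_le.1 hy.A).2]
  · linarith [t (abs_le.1 hx.B).1, (abs_le.1 hy.B).1]
  · linarith [t (abs_le.1 hx.B).2, (abs_le.1 hy.B).2]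
  · linarith [t (hx.lo ν a b), hy.lo ν a b]
  · linarith [t (hx.up ν a b), hy.up ν a b]

lemma ineq_cb {γ Λ μ v : ℝ} {w : Fin N → ℝ} {x : Fin N → Q} (h : ∀ i, 0 ≤ w i)
    (hx : ∀ i, Ineq γ Λ μ v (x i)) (s : Finset (Fin N)) : Ineq γ Λ μ v (cb s w x) := by
  induction s using Finset.induction_on with
  | empty => constructor <;> simp [cb]
  | insert a s ha ih =>
    simpa only [cb, Finset.sum_insert ha] using step (hx a) ih (h a)

lemma fd_sum (w : Fin N → ℝ) (f : Fin N → ℕ → ℝ) (k : ℕ) :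
    fd (fun i => ∑ a, w a * f a i) k = ∑ a, w a * fd (f a) k := by
  unfold fd
  split <;> simp only [mul_sub, mul_add, Finset.sum_add_distrib, Finset.sum_sub_distrib,
    Finset.mul_sum, mul_left_comm]

lemma inv_le {j l : ℝ} (h1 : 1 ≤ j) (h : j⁻¹ ≤ l) : 0 < l ∧ l⁻¹ ≤ j :=
  have j0 : 0 < j := by linarith
  ⟨(inv_pos.2 j0).trans_le h, inv_le_of_inv_le₀ j0 h⟩

lemma sb (h : Cz j B l z) {f : Fin N → ℝ} (R0 : 0 ≤ R) (hf : ∀ i, |f i| ≤ R) :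
    |∑ i, (l i)⁻¹ * f i| ≤ j ^ 2 * R := by
  have j0 : 0 ≤ j := by linarith [h.one_le]
  refine (Finset.abs_sum_le_sum_abs _ _).trans ((Finset.sum_le_card_nsmul _ _ (j * R)
    fun i _ => ?_).trans ?_)
  · obtain ⟨a, b⟩ := inv_le h.one_le (h.lo i)
    rw [abs_mul, abs_of_pos (inv_pos.2 a)]
    exact mul_le_mul b (hf i) (abs_nonneg _) j0
  · rw [Finset.card_fin, nsmul_eq_mul, sq, mul_assoc]
    exact mul_le_mul_of_nonneg_right h.card (mul_nonneg j0 R0)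

lemma le_sum (h : Cz j B l z) {f : Fin N → ℝ} (hf : ∀ i, 0 ≤ f i) (hR : ∑ i, (l i)⁻¹ * f i ≤ R)
    (a : Fin N) : f a ≤ j * R := by
  have p := fun i => (inv_le h.one_le (h.lo i)).1
  have h0 := fun i => mul_nonneg (inv_pos.2 (p i)).le (hf i)
  have h1 := (Finset.single_le_sum (f := fun i => (l i)⁻¹ * f i) (fun i _ => h0 i)
    (Finset.mem_univ a)).trans hR
  rw [inv_mul_le_iff₀ (p a)] at h1
  exact h1.trans (mul_le_mul_of_nonneg_right (h.hi a)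
    ((Finset.sum_nonneg fun i _ => h0 i).trans hR))

lemma nr0 (l : ℝ) (W : ℕ) (z : ℤ → ℂ) : 0 ≤ NrL l W z :=
  tsum_nonneg fun _ => by split_ifs <;> positivity

lemma jk0 (m : ℕ) (l : ℝ) (W : ℕ) (z : ℤ → ℂ) : 0 ≤ JkL m l W z := tsum_nonneg fun ξ => by
  have : 0 ≤ yl l W ξ := by unfold yl; positivity
  split_ifs <;> positivity

lemma er0 (m : ℕ) (l : ℝ) (W : ℕ) (z : ℤ → ℂ) : 0 ≤ erL m l W z := by
  have := nr0 l W z
  have := jk0 m l W z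
  unfold erL
  positivity

lemma one (hA : St_MASA) (hB : St_MASB) (C : ℕ → ℝ) (m : ℕ) (B : ℝ) (hm : 2 ≤ m) (h1 : 1 ≤ j) :
    ∃ c, 0 ≤ c ∧ ∀ (W : ℕ) (l : ℝ) z, 4 ≤ W → 2 * j < W → j⁻¹ ≤ l → l ≤ j → Sq z → An z ≤ B →
    ∀ i ≤ 4, |Iv (m + i) z / l ^ (2 * (m + i) + 1) / (W : ℝ) ^ (4 * (m + i)) -
      (l⁻¹ * HiL (m + i) l W z + 2 * (l⁻¹ * (l⁻¹ ^ 2 * qfL l W 1 z)) / (W : ℝ) ^ 4 * Sc (m + i))| ≤
        c * (l⁻¹ * erL m l W z) ∧
      |C (m + i) * B ^ (2 * (m + i) + 2)| * (Tm (m + i - 1) z / l ^ (2 * (m + i) + 1) /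
        (W : ℝ) ^ (4 * (m + i))) ≤ c * (l⁻¹ * erL m l W z) := by
  obtain ⟨a, ha⟩ := hA m j B hm h1
  obtain ⟨b, hb⟩ := hB m j B hm h1
  have j0 : 0 < j := by linarith
  let g : ℕ → ℝ := fun i => |a| + |Sc (m + i)| * j ^ 2 * |b| +
    |C (m + i) * B ^ (2 * (m + i) + 2)| * j ^ (2 * (m + i)) * |a|
  have c1 : ∀ i ≤ 4, g i ≤ ∑ i ∈ Finset.range 5, g i := fun i hi =>
    Finset.single_le_sum (f := g) (fun _ _ => by positivity) (Finset.mem_range.2 (by omega))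
  refine ⟨∑ i ∈ Finset.range 5, g i, by positivity, fun W l z w4 wj l1 l2 hz bz i hi => ?_⟩
  obtain ⟨l0, l3⟩ := inv_le h1 l1
  obtain ⟨z1, z3⟩ := (ha W l z w4 wj l1 l2 hz bz).2 i hi
  have z2 := hb W l z w4 wj l1 l2 hz bz i hi
  have e0 := er0 m l W z
  have ea := mul_le_mul_of_nonneg_right (le_abs_self a) e0
  have eb := mul_le_mul_of_nonneg_right (le_abs_self b) e0
  have u0 := (inv_pos.2 l0).le
  have w0 : (0 : ℝ) < W := by linarith
  have k := mul_le_mul_of_nonneg_right (c1 i hi) (mul_nonneg u0 e0)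
  have q0 : 0 ≤ l⁻¹ * erL m l W z := mul_nonneg u0 e0
  have q1 : 0 ≤ |a| * (l⁻¹ * erL m l W z) := by positivity
  have q2 : 0 ≤ |Sc (m + i)| * j ^ 2 * |b| * (l⁻¹ * erL m l W z) := by positivity
  have q3 : 0 ≤ |C (m + i) * B ^ (2 * (m + i) + 2)| * j ^ (2 * (m + i)) * |a| *
    (l⁻¹ * erL m l W z) := by positivity
  simp only [g, add_mul] at k
  refine ⟨le_trans ?_ ((le_add_of_nonneg_right q3).trans k), le_trans ?_
    ((le_add_of_nonneg_left (add_nonneg q1 q2)).trans k)⟩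
  · obtain ⟨p, hp⟩ : ∃ p, m + i = p + 1 := ⟨m + i - 1, by omega⟩
    have e1 : Iv (m + i) z / l ^ (2 * (m + i) + 1) / (W : ℝ) ^ (4 * (m + i)) -
        (l⁻¹ * HiL (m + i) l W z + 2 * (l⁻¹ * (l⁻¹ ^ 2 * qfL l W 1 z)) / (W : ℝ) ^ 4 * Sc (m + i)) =
        l⁻¹ * (Hs (m + i) z / (l ^ (2 * (m + i)) * (W : ℝ) ^ (4 * (m + i))) - HiL (m + i) l W z) +
        l⁻¹ * (Sc (m + i) * (l⁻¹ ^ 2 * (Qs (m + i - 1) z /
          (l ^ (2 * (m + i - 1)) * (W : ℝ) ^ (4 * (m + i))) - 2 * qfL l W 1 z / (W : ℝ) ^ 4))) := by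
      rw [Iv, hp, Nat.add_sub_cancel]
      field_simp
      ring
    rw [e1]
    refine (abs_add_le _ _).trans (add_le_add ?_ ?_)
    · rw [abs_mul, abs_of_nonneg u0, mul_left_comm]
      exact mul_le_mul_of_nonneg_left (z1.trans ea) u0
    · rw [abs_mul, abs_mul, abs_mul, abs_of_nonneg u0, mul_left_comm _ l⁻¹, mul_assoc, mul_assoc,
        abs_of_nonneg (sq_nonneg l⁻¹)]
      exact mul_le_mul_of_nonneg_left (mul_le_mul_of_nonneg_left (mul_le_mul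
        (pow_le_pow_left₀ u0 l3 2) (z2.trans eb) (abs_nonneg _) (sq_nonneg _)) (abs_nonneg _)) u0
  · rw [mul_assoc, mul_assoc]
    refine mul_le_mul_of_nonneg_left ?_ (abs_nonneg _)
    have e1 : Tm (m + i - 1) z / l ^ (2 * (m + i) + 1) / (W : ℝ) ^ (4 * (m + i)) =
        l⁻¹ ^ (2 * (m + i)) * (l⁻¹ * (Tm (m + i - 1) z / (W : ℝ) ^ (4 * (m + i)))) := by
      rw [inv_pow]
      field_simp
      ring
    rw [e1, mul_left_comm |a|]
    exact mul_le_mul (pow_le_pow_left₀ u0 l3 _) (mul_le_mul_of_nonneg_left (z3.trans ea) u0)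
      (mul_nonneg u0 (div_nonneg (Real.sqrt_nonneg _) (by positivity))) (by positivity)

/-- the combination of the curves -/
def xq (m W : ℕ) (A : ℝ) (l : Fin N → ℝ) (z : Fin N → ℤ → ℂ) : Q :=
  cb Finset.univ (fun i => (l i)⁻¹) fun i => qL m (l i) W A (z i)

def dq (W : ℕ) (A : ℝ) (l : Fin N → ℝ) (z : Fin N → ℤ → ℂ) : ℝ :=
  ∑ i, (l i)⁻¹ * ((l i)⁻¹ ^ 2 * qfL (l i) W A (z i))

lemma dd (hA : St_MASA) (hB : St_MASB) (C : ℕ → ℝ) (M : ℕ) (B : ℝ) (h1 : 1 ≤ j) :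
    ∃ K, 0 ≤ K ∧ ∀ (W N N' : ℕ) (l : Fin N → ℝ) z (l' : Fin N' → ℝ) z', 4 ≤ W → 2 * j < W →
    Cz j B l z → Cz j B l' z' → InvM C B l z l' z' → ∀ k,
    |(xq (2 * M + 4) W (amp M W) l' z').e k - (xq (2 * M + 4) W (amp M W) l z).e k +
      2 * fd (fun i => Sc (2 * M + 4 + i)) k * ((W : ℝ)⁻¹ ^ 4 *
        (dq W (amp M W) l' z' - dq W (amp M W) l z))| ≤
      K * ((W : ℝ)⁻¹ * ((W : ℝ)⁻¹ ^ 4 * (xq (2 * M + 4) W (amp M W) l z).n +
        (xq (2 * M + 4) W (amp M W) l z).j) + (W : ℝ)⁻¹ * ((W : ℝ)⁻¹ ^ 4 *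
        (xq (2 * M + 4) W (amp M W) l' z').n + (xq (2 * M + 4) W (amp M W) l' z').j) +
        2 * (W : ℝ)⁻¹ ^ 8) := by
  obtain ⟨m, hm⟩ : ∃ m, 2 * M + 4 = m := ⟨_, rfl⟩
  obtain ⟨c, c0, hc⟩ := one hA hB C m B (by omega) h1
  refine ⟨32 * c * j ^ 2, by positivity, fun W N N' l z l' z' w4 wj hz hy hi k => ?_⟩
  have w0 : (0 : ℝ) < W := by linarith
  have A0 : 0 < amp M W := by unfold amp; positivity
  have h5 : ((W : ℝ) ^ (2 * m))⁻¹ = amp M W ^ 2 * (W : ℝ)⁻¹ ^ 8 := by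
    rw [← hm, amp]; field_simp; ring
  have mu : ∀ {N : ℕ} {l : Fin N → ℝ} {z}, Cz j B l z → ∀ i ≤ 4,
      |IvM (m + i) l z / (W : ℝ) ^ (4 * (m + i)) - (∑ a, (l a)⁻¹ * HiL (m + i) (l a) W (z a) +
        2 * dq W 1 l z / (W : ℝ) ^ 4 * Sc (m + i))| ≤ c * ∑ a, (l a)⁻¹ * erL m (l a) W (z a) ∧
      |C (m + i) * B ^ (2 * (m + i) + 2)| * (TmM (m + i) l z / (W : ℝ) ^ (4 * (m + i))) ≤
        c * ∑ a, (l a)⁻¹ * erL m (l a) W (z a) := fun {N l z} h i i4 => by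
    have t := fun a => hc W (l a) (z a) w4 wj (h.lo a) (h.hi a) (h.sq a) (h.an a) i i4
    simp only [IvM, TmM, dq, Finset.sum_div, Finset.mul_sum, Finset.sum_mul,
      ← Finset.sum_add_distrib, ← Finset.sum_sub_distrib]
    exact ⟨(Finset.abs_sum_le_sum_abs _ _).trans (Finset.sum_le_sum fun a _ => (t a).1),
      Finset.sum_le_sum fun a _ => (t a).2⟩
  have eb : ∀ {N : ℕ} {l : Fin N → ℝ} {z}, Cz j B l z →
      (∑ a, (l a)⁻¹ * erL m (l a) W (z a)) / amp M W ^ 2 ≤ j ^ 2 * ((W : ℝ)⁻¹ * ((W : ℝ)⁻¹ ^ 4 *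
        (xq m W (amp M W) l z).n + (xq m W (amp M W) l z).j) + (W : ℝ)⁻¹ ^ 8) := fun {N l z} h => by
    have a1 := (le_abs_self _).trans (sb h (f := fun _ => (W : ℝ)⁻¹ ^ 8) (by positivity)
      fun _ => (abs_of_nonneg (by positivity)).le)
    have p := fun i => (inv_pos.2 (inv_le h.one_le (h.lo i)).1).le
    have b1 : 0 ≤ (xq m W (amp M W) l z).n := Finset.sum_nonneg (s := Finset.univ) fun i _ =>
      mul_nonneg (p i) (div_nonneg (nr0 (l i) W (z i)) (sq_nonneg (amp M W)))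
    have b2 : 0 ≤ (xq m W (amp M W) l z).j := Finset.sum_nonneg (s := Finset.univ) fun i _ =>
      mul_nonneg (p i) (div_nonneg (jk0 m (l i) W (z i)) (sq_nonneg (amp M W)))
    have a2 : 0 ≤ (W : ℝ)⁻¹ * ((W : ℝ)⁻¹ ^ 4 * (xq m W (amp M W) l z).n +
        (xq m W (amp M W) l z).j) := by positivity
    have a3 : (∑ a, (l a)⁻¹ * erL m (l a) W (z a)) / amp M W ^ 2 = (W : ℝ)⁻¹ * ((W : ℝ)⁻¹ ^ 4 *
        (xq m W (amp M W) l z).n + (xq m W (amp M W) l z).j) + ∑ a, (l a)⁻¹ * (W : ℝ)⁻¹ ^ 8 := by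
      simp only [xq, cb, qL, erL, h5, Finset.sum_div, Finset.mul_sum, ← Finset.sum_add_distrib]
      refine Finset.sum_congr rfl fun a _ => ?_
      field_simp
    rw [a3, mul_add (j ^ 2)]
    exact add_le_add (le_mul_of_one_le_left a2 (one_le_pow₀ h1)) a1
  have h3 := fd_le (R := 2 * c * (∑ a, (l a)⁻¹ * erL m (l a) W (z a) +
      ∑ a, (l' a)⁻¹ * erL m (l' a) W (z' a))) (f := fun i =>
      ∑ a, (l' a)⁻¹ * HiL (m + i) (l' a) W (z' a) - ∑ a, (l a)⁻¹ * HiL (m + i) (l a) W (z a) +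
      2 * (dq W 1 l' z' - dq W 1 l z) / (W : ℝ) ^ 4 * Sc (m + i)) (fun i i4 => by
    obtain ⟨z1, z3⟩ := mu hz i i4
    obtain ⟨y1, y3⟩ := mu hy i i4
    have P0 : 0 < (W : ℝ) ^ (4 * (m + i)) := by positivity
    have t0 : ∀ {N : ℕ} {l : Fin N → ℝ} {z}, Cz j B l z → 0 ≤ TmM (m + i) l z := fun h =>
      Finset.sum_nonneg fun a _ => div_nonneg (Real.sqrt_nonneg _)
        (pow_pos (inv_le h1 (h.lo a)).1 _).le
    have h4 := div_le_div_of_nonneg_right ((hi (m + i) (by omega)).trans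
      (mul_le_mul_of_nonneg_right (le_abs_self _) (add_nonneg (t0 hz) (t0 hy)))) P0.le
    rw [← abs_of_pos P0, ← abs_div, abs_of_pos P0, mul_div_assoc, add_div, sub_div] at h4
    rw [mul_sub, sub_div, sub_mul]
    rw [abs_le] at h4 z1 y1 ⊢
    constructor <;> linarith [h4.1, h4.2, z1.1, z1.2, y1.1, y1.2]) k
  rw [fd_lin, fd_sum, fd_sum] at h3
  have h4 := div_le_div_of_nonneg_right h3 (sq_nonneg (amp M W))
  rw [← abs_of_nonneg (sq_nonneg (amp M W)), ← abs_div, abs_of_nonneg (sq_nonneg (amp M W))] at h4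
  have e1 : ∀ {N : ℕ} (l : Fin N → ℝ) z, (xq m W (amp M W) l z).e k =
      (∑ a, (l a)⁻¹ * fd (fun i => HiL (m + i) (l a) W (z a)) k) / amp M W ^ 2 := fun l z => by
    simp only [xq, cb, qL, Finset.sum_div, mul_div_assoc]
  have e2 : ∀ {N : ℕ} (l : Fin N → ℝ) z, dq W (amp M W) l z = dq W 1 l z / amp M W ^ 2 :=
    fun l z => by simp only [dq, qfL, Finset.sum_div, mul_div_assoc, one_pow, div_one]
  rw [hm, e1, e1, e2, e2]
  refine (le_of_eq (congrArg abs ?_)).trans (h4.trans ?_)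
  · field_simp
  · rw [mul_div_assoc, mul_div_assoc, add_div]
    linarith [mul_le_mul_of_nonneg_left (add_le_add (eb hz) (eb hy)) c0]

/-- the data of the statement -/
structure Dq (C : ℕ → ℝ) (M : ℕ) (j B : ℝ) (W1 : ℕ) where
  W : ℕ
  N : ℕ
  N' : ℕ
  l : Fin N → ℝ
  z : Fin N → ℤ → ℂ
  l' : Fin N' → ℝ
  y : Fin N' → ℤ → ℂ
  i : Fin N
  w4 : 4 ≤ W
  wj : 2 * j < W
  w1 : W1 ≤ W
  hz : Cz j B l z
  hy : Cz j B l' y
  hi : InvM C B l z l' y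
  hm : Mkm M W i (env 0) z
  l1 : l i = 1

end K4M

open K4M in
theorem st_k4m (hP : St_POSL) (hA : St_MASA) (hB : St_MASB) (hS : St_MKS) (hK8 : St_K8) :
    St_K4M := by
  intro C M j B
  by_cases h1 : 1 ≤ j
  swap
  · exact ⟨0, 0, fun _ _ _ _ _ _ _ _ _ h => absurd h.one_le h1⟩
  obtain ⟨γ, Λ, hγ, hI⟩ := hP (2 * M + 4)
  obtain ⟨K, hK, hD⟩ := K4M.dd hA hB C M B h1
  obtain ⟨s2, s3⟩ := hK8 (2 * M + 4) (by omega)
  obtain ⟨c, hq⟩ := hA (2 * M + 4) j B (by omega) h1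
  obtain ⟨K0, W1, hM⟩ := hS M j h1
  let l : Filter (Dq C M j B W1) := comap Dq.W atTop
  let v : Dq C M j B W1 → ℝ := fun d => (d.W : ℝ)⁻¹
  have hv : Tendsto v l (𝓝 0) := tendsto_inv_atTop_nhds_zero_nat.comp tendsto_comap
  have w1 : ∀ d : Dq C M j B W1, (1 : ℝ) ≤ d.W := fun d => by
    exact_mod_cast d.w4.trans' (by norm_num)
  have v0 : ∀ d, 0 < v d := fun d => inv_pos.2 (one_pos.trans_le (w1 d))
  have A0 : ∀ d : Dq C M j B W1, 0 < amp M d.W := fun d =>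
    inv_pos.2 (pow_pos (one_pos.trans_le (w1 d)) _)
  have p : ∀ {N : ℕ} {l : Fin N → ℝ} {z}, Cz j B l z → ∀ i, 0 ≤ (l i)⁻¹ := fun h i =>
    (inv_pos.2 (inv_le h1 (h.lo i)).1).le
  have iq : ∀ (d : Dq C M j B W1) {N : ℕ} {l : Fin N → ℝ} {z}, Cz j B l z → ∀ i,
      Ineq γ Λ (2 * M + 4 : ℕ) (v d) (qL (2 * M + 4) (l i) d.W (amp M d.W) (z i)) :=
    fun d _ _ _ h i => hI j _ _ _ _ d.w4 d.wj (h.lo i) (h.hi i) h1 (h.sq i) (A0 d)
  let x : Dq C M j B W1 → Q := fun d => xq (2 * M + 4) d.W (amp M d.W) d.l d.z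
  let y : Dq C M j B W1 → Q := fun d => xq (2 * M + 4) d.W (amp M d.W) d.l' d.y
  have hx : ∀ d, Ineq γ Λ (2 * M + 4 : ℕ) (v d) (x d) := fun d => ineq_cb (p d.hz) (iq d d.hz) _
  have hy : ∀ d, Ineq γ Λ (2 * M + 4 : ℕ) (v d) (y d) := fun d => ineq_cb (p d.hy) (iq d d.hy) _
  let q : ∀ d : Dq C M j B W1, Fin d.N → Q := fun d i =>
    qL (2 * M + 4) (d.l i) d.W (amp M d.W) (d.z i)
  have es : ∀ d i, |(q d i).n| ≤ |K0| ∧ |(q d i).j| ≤ |K0| * v d ^ 8 ∧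
      |(q d i).n - 2 * (q d i).m 0 - 2 * (q d i).m 2| ≤ |K0| * v d ∧
      |(q d i).m 0 - if i = d.i then 1 else 0| ≤ |K0| * v d ∧ |(q d i).m 2| ≤ |K0| * v d :=
    fun d i => by
      have a := iq d d.hz i
      have a2 := pow_pos (A0 d) 2
      have k0 := le_abs_self K0
      have k1 := mul_le_mul_of_nonneg_right k0 (v0 d).le
      have k2 : |K0| * v d ≤ |K0| :=
        mul_le_of_le_one_right (abs_nonneg _) (inv_le_one_of_one_le₀ (w1 d))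
      have k3 : K0 / d.W = K0 * v d := rfl
      have jj : JkL (2 * M + 4) (d.l i) d.W (d.z i) ≤ K0 * amp M d.W ^ 2 / (d.W : ℝ) ^ 8 →
          (q d i).j ≤ |K0| * v d ^ 8 := fun h => (div_le_iff₀ a2).2 (h.trans (by
        simp only [v, inv_pow]
        rw [div_eq_mul_inv, mul_right_comm]
        exact mul_le_mul_of_nonneg_right (mul_le_mul_of_nonneg_right k0 (by positivity)) a2.le))
      have m := d.hm i
      obtain ⟨b1, b2⟩ := hM d.W d.w1 (d.z i) (d.hz.sq i)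
      rw [abs_of_nonneg (show 0 ≤ (q d i).n by linarith [a.m0, a.m2, a.o0]), abs_of_nonneg a.j0,
        abs_of_nonneg (show 0 ≤ (q d i).n - 2 * (q d i).m 0 - 2 * (q d i).m 2 by linarith [a.o0]),
        abs_of_nonneg a.m2]
      split_ifs at m ⊢ with h
      · obtain ⟨c1, c2, c3, c4, -, c6, -⟩ := b2 m
        have e : d.l i = 1 := h ▸ d.l1
        simp only [q, qL, e] at jj ⊢
        exact ⟨((div_le_iff₀ a2).2 c1).trans k0, jj c2, c3.trans (k3 ▸ k1), c4.trans (k3 ▸ k1),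
          c6.trans (k3 ▸ k1)⟩
      · obtain ⟨c1, c2⟩ := b1 _ (d.hz.lo i) (d.hz.hi i) m
        have c3 : (q d i).n ≤ K0 * v d := (div_le_iff₀ a2).2 (c1.trans_eq (by simp only [v]; ring))
        rw [sub_zero, abs_of_nonneg a.m0]
        exact ⟨by linarith, jj c2, by linarith [a.m0, a.m2], by linarith [a.m0, a.m2, a.o0],
          by linarith [a.m0, a.m2, a.o0]⟩
  have kv : ∀ d, 0 ≤ |K0| * v d := fun d => mul_nonneg (abs_nonneg _) (v0 d).le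
  have hn : Ov l v 0 fun d => (x d).n := (Ov.const _).of_le fun d =>
    sb d.hz (abs_nonneg _) fun i => (es d i).1
  have hj : Ov l v 8 fun d => (x d).j := (((Ov.pow 8).cmul _).cmul _).of_le fun d =>
    sb d.hz (mul_nonneg (abs_nonneg _) (pow_pos (v0 d) 8).le) fun i => (es d i).2.1
  have ho : Ov l v 1 fun d => (x d).n - 2 * (x d).m 0 - 2 * (x d).m 2 :=
    ((Ov.one.cmul _).cmul _).of_le fun d => by
      refine le_of_eq_of_le (congrArg abs ?_) (sb d.hz (kv d) fun i => (es d i).2.2.1)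
      simp only [x, xq, cb, q, mul_sub, Finset.sum_sub_distrib, Finset.mul_sum, mul_left_comm]
  have m0 : Ov l v 1 fun d => (x d).m 0 - 1 := ((Ov.one.cmul _).cmul _).of_le fun d => by
    refine le_of_eq_of_le (congrArg abs ?_) (sb d.hz (kv d) fun i => (es d i).2.2.2.1)
    simp only [x, xq, cb, q, mul_sub, Finset.sum_sub_distrib, mul_ite, mul_one, mul_zero,
      Finset.sum_ite_eq', Finset.mem_univ, if_true, d.l1, inv_one]
  have m2 : Ov l v 1 fun d => (x d).m 2 := ((Ov.one.cmul _).cmul _).of_le fun d =>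
    sb d.hz (kv d) fun i => (es d i).2.2.2.2
  have qb : ∀ (d : Dq C M j B W1) {N : ℕ} {l : Fin N → ℝ} {z}, Cz j B l z →
      |dq d.W (amp M d.W) l z| ≤ j ^ 2 * B ^ 2 * (xq (2 * M + 4) d.W (amp M d.W) l z).m 0 :=
    fun d _ l z h => by
      simp only [dq, xq, cb, Finset.mul_sum]
      refine (Finset.abs_sum_le_sum_abs _ _).trans (Finset.sum_le_sum fun i _ => ?_)
      rw [abs_mul, abs_mul, abs_of_nonneg (p h i), abs_of_nonneg (sq_nonneg (l i)⁻¹),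
        mul_left_comm _ (l i)⁻¹, mul_assoc]
      exact mul_le_mul_of_nonneg_left (mul_le_mul (pow_le_pow_left₀ (p h i) (inv_le h1 (h.lo i)).2 2)
        ((hq _ _ _ d.w4 d.wj (h.lo i) (h.hi i) (h.sq i) (h.an i)).1 _) (abs_nonneg _)
        (sq_nonneg _)) (p h i)
  let δ : Dq C M j B W1 → ℝ := fun d => dq d.W (amp M d.W) d.l' d.y - dq d.W (amp M d.W) d.l d.z
  have hδ : ∀ d, |δ d| ≤ j ^ 2 * B ^ 2 * ((y d).m 0 + (x d).m 0) := fun d => by
    rw [mul_add]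
    exact (abs_sub _ _).trans (add_le_add (qb d d.hy) (qb d d.hz))
  obtain ⟨yn, yj, o0, -, g, og, hg⟩ := core (σ := fd fun i => Sc (2 * M + 4 + i)) hγ
    (Nat.cast_nonneg _) (by positivity) hK v0 hv hx hy hn hj ho hδ
    (fun d => hD d.W _ _ d.l d.z d.l' d.y d.w4 d.wj d.hz d.hy d.hi)
    (by simpa only [fd, add_zero] using s2) (by simpa only [fd, add_zero] using s3)
  obtain ⟨K', k0, k1, k2, k3, k5⟩ := ((eventually_ge_atTop 0).and ((K4Q.bnd v0 yn).and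
    ((K4Q.bnd v0 yj).and ((K4Q.bnd v0 (o0.add m0)).and
    (K4Q.bnd v0 ((og.cmul (1 / 4)).add m2)))))).exists
  have fin : ∀ᶠ d in l, (∀ a, Cn M (j * K') d.W (d.l' a) (d.y a)) ∧
      |∑ a, momL 0 (d.l' a) d.W (amp M d.W) (d.y a) / d.l' a - 1| ≤ j * K' / d.W := by
    filter_upwards [k1, k2, k3, k5] with d e1 e2 e3 e5
    rw [sub_add_sub_cancel, pow_one] at e3
    rw [pow_one] at e5
    rw [pow_zero, mul_one] at e1
    have a2 := pow_pos (A0 d) 2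
    have a := iq d d.hy
    refine ⟨fun b => ⟨(div_le_iff₀ a2).1 (le_sum d.hy (fun i => by
      linarith [(a i).m0, (a i).m2, (a i).o0]) (abs_le.1 e1).2 b), ((div_le_iff₀ a2).1
      (le_sum d.hy (fun i => (a i).j0) (abs_le.1 e2).2 b)).trans_eq ?_, ?_⟩, ?_⟩
    · simp only [v, inv_pow]
      ring
    · have h2 := mul_nonneg (Nat.cast_nonneg (α := ℝ) (2 * M + 4)) (abs_nonneg (δ d))
      rw [mul_div_assoc]
      exact le_sum d.hy (fun i => (a i).m2) (show (y d).m 2 ≤ K' * v d by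
        linarith [(abs_le.1 e5).2, hg d]) b
    · simp only [div_eq_inv_mul _ (d.l' _)]
      rw [mul_div_assoc]
      exact e3.trans (le_mul_of_one_le_left (mul_nonneg k0 (v0 d).le) h1)
  obtain ⟨W0, h0⟩ := eventually_atTop.1 (eventually_comap.1 fin)
  obtain ⟨n, hn⟩ := exists_nat_gt (2 * j)
  refine ⟨j * K', max (max W0 W1) (max 4 n), fun W hW N N' l z l' z' i a1 a2 a3 a4 a5 => ?_⟩
  simp only [max_le_iff] at hW
  exact h0 W hW.1.1 ⟨W, N, N', l, z, l', z', i, hW.2.1, hn.trans_le (Nat.cast_le.2 hW.2.2), hW.1.2,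
    a1, a2, a3, a4, a5⟩ rfl

end Pool.Agent.Lib.IS3
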