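import Pool.Agent.Lib.IS3.Kit1
import Pool.Agent.Lib.IS2.B_LHT

/-! The weighted trace of one curve is bounded and holomorphic on lines. -/

open scoped Topology Real
open Complex MeasureTheory Set Filter

noncomputable section

namespace Pool.Agent.Lib.IS3

open Pool.Agent.Lib.ISO Pool.Agent.Lib.IS2 Pool.Agent.Lib.IS2.LHT

namespace LH1

theorem adm {j o : ℝ} {γ : ℝ → ℂ} (hγ : N1 j γ) (ho : 80 * j ≤ o) {P : ℝ → C2} (hP : P ∈ SP)
    (hn : nm (P - cp γ) ≤ 2 / o) : Adm j (j + 1) γ (2 / o) P := by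
  obtain ⟨hc, -, -, b⟩ : Adm j j γ 0 (cp γ) := (Nv.adm0 hγ).1 0
  have hQ := SP.sub_mem hP hc
  have j1 := hγ.one_le
  have e1 : deriv (P - cp γ) = deriv P - deriv (cp γ) :=
    funext fun s => deriv_sub (SP.diff hP s) (SP.diff hc s)
  have k : ∀ s, ‖P s - cp γ s‖ + ‖deriv P s - deriv (cp γ) s‖ +
      ‖deriv (deriv P) s - deriv (deriv (cp γ)) s‖ ≤ 2 / o := fun s => by
    have := le_nm hQ s
    rw [e1, deriv_sub (SP.diff (SP.s1 hP) s) (SP.diff (SP.s1 hc) s)] at this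
    exact this.trans hn
  have s1 : 2 / o ≤ (40 * j)⁻¹ := by
    rw [inv_eq_one_div, div_le_div_iff₀ (by linarith) (by linarith)]; linarith
  have s2 : 2 / o ≤ 1 := by rw [div_le_one (by linarith)]; linarith
  refine ⟨hP, fun s => ?_, fun s => ?_, fun s => ?_⟩ <;>
    linarith [k s, b s, norm_nonneg (P s - cp γ s), norm_nonneg (deriv P s - deriv (cp γ) s),
      norm_nonneg (deriv (deriv P) s - deriv (deriv (cp γ)) s),
      norm_sub_norm_le (deriv (deriv P) s) (deriv (deriv (cp γ)) s)]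

theorem term {C o h g : ℝ} {X : ℂ} {n : ℕ} (ho : 0 < o) (hh : 0 < h) (hg : 0 < g)
    (hX : ‖X‖ ≤ C * o * (C / h ^ 3) ^ n * Real.exp (C * (n + 2) * o * (2 / o)) * g) :
    ‖2 * (-2) ^ n * X‖ ≤ 2 * (|C| + 1) * Real.exp (4 * |C|) * o * g *
      (2 * (|C| + 1) * Real.exp (4 * |C|) / h ^ 3) ^ n := by
  have := LHT.term (X := X / g) ho hh (by
    rwa [norm_div, norm_real, Real.norm_of_nonneg hg.le, div_le_iff₀ hg])
  rw [← mul_div_assoc, norm_div, norm_real, Real.norm_of_nonneg hg.le, div_le_iff₀ hg] at this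
  exact this.trans_eq (by ring)

theorem lg0 (γ : ℝ → ℂ) (w : ∀ n, (Fin n → ℝ) → ℂ) : Lg1 γ 0 w :=
  fun _ _ _ => Finset.sum_nonneg fun _ _ => norm_nonneg _

theorem ga_mu (q : ℕ) (h l y : ℝ) : ga0 q h l (mu q h y) = Real.exp (-(l / (2 * Tt q h))) := by
  simp only [ga0, mu, add_re, ofReal_re, mul_re, I_re, I_im, ofReal_im]
  congr 1
  ring

end LH1

open LH1 in
theorem st_lh1 (hBR1 : St_BR1) (hSH : IS2.St_SH) (hHI : IS2.St_HI) : St_LH1 := by
  intro j q hq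
  obtain ⟨C1, h1, hol⟩ := hBR1.2.2.2 j (j + 1) q (by omega)
  obtain ⟨Cs, h2, sh⟩ := hSH q hq
  set A := 2 * (|C1| + 1) * Real.exp (4 * |C1|) with hA
  have A0 : 0 < A := by positivity
  have a2 := abs_nonneg Cs
  refine ⟨2 * A * (|Cs| + 1), max (max h1 h2) (max (max (2 * A) (80 * j)) 1),
    fun h hh γ w l0 hγ hw hl => ?_⟩
  simp only [max_le_iff] at hh
  obtain ⟨⟨k1, k2⟩, ⟨k3, k4⟩, k5⟩ := hh
  have o1 : h ≤ om q h := le_self_pow₀ k5 (by omega)
  have o0 : 0 < om q h := by linarith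
  have t1 : h ≤ h ^ 3 := le_self_pow₀ k5 (by omega)
  have r0 : 0 ≤ A / h ^ 3 := by positivity
  have r1 : A / h ^ 3 ≤ 1 / 2 := by rw [div_le_iff₀ (by positivity)]; linarith
  have hY : 0 ≤ YY q h := by unfold YY Tt; positivity
  have c1 : Cs ≤ |Cs| + 1 := by linarith [le_abs_self Cs]
  have c2 : A ≤ 2 * A * (|Cs| + 1) := by nlinarith
  have sg := summable_geometric_of_lt_one r0 (by linarith)
  obtain ⟨-, s2, s3, -⟩ := sh h k2
  have hm : ∀ y, |y| ≤ YY q h → mu q h y ∈ DD q h := fun y hy => (s2 y hy).1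
  have hG : ∀ y, |y| ≤ YY q h → ‖Gs q h (mu q h y)‖ ≤ Cs := fun y hy => (s2 y hy).2.2.2
  have ad : ∀ P ∈ SP, nm (P - cp γ) ≤ 2 / om q h → Adm j (j + 1) γ (2 / om q h) P :=
    fun P hP hn => LH1.adm hγ (k4.trans o1) hP hn
  have tl : ∀ w l, Wt w → Lg1 γ l w → ∀ P ∈ SP, nm (P - cp γ) ≤ 2 / om q h → ∀ μ ∈ DD q h, ∀ n,
      ‖2 * (-2) ^ n * Tn w μ P n‖ ≤ A * om q h * ga0 q h l μ * (A / h ^ 3) ^ n :=
    fun w l hw hl P hP hn μ hμ n => LH1.term o0 (by linarith) (Real.exp_pos _)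
      ((hol h k1 γ _ _ n hγ hw).1 P μ l (ad P hP hn) hμ hl).2
  have tb : ∀ w, Wt w → ∀ P ∈ SP, nm (P - cp γ) ≤ 2 / om q h → ∀ μ ∈ DD q h, ∀ n,
      ‖2 * (-2) ^ n * Tn w μ P n‖ ≤ A * om q h * (A / h ^ 3) ^ n := fun w hw P hP hn μ hμ n => by
    have := tl w 0 hw (lg0 γ w) P hP hn μ hμ n
    rwa [ga0, mul_zero, neg_zero, Real.exp_zero, mul_one] at this
  have sm : ∀ w, Wt w → ∀ P ∈ SP, nm (P - cp γ) ≤ 2 / om q h → ∀ μ ∈ DD q h,
      Summable fun n => 2 * (-2) ^ n * Tn w μ P n := fun w hw P hP hn μ hμ =>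
    .of_norm_bounded (sg.mul_left _) (tb w hw P hP hn μ hμ)
  have k : ∀ w, Wt w → ∀ (U : Set ℂ) (μ : ℂ → ℂ) (P : ℂ → ℝ → C2), IsOpen U →
      DifferentiableOn ℂ μ U → (∀ ζ ∈ U, μ ζ ∈ DD q h ∧ P ζ ∈ SP ∧ nm (P ζ - cp γ) ≤ 2 / om q h) →
      (∀ s, DifferentiableOn ℂ (fun ζ => P ζ s) U ∧
        DifferentiableOn ℂ (fun ζ => deriv (P ζ) s) U) →
      DifferentiableOn ℂ (fun ζ => T1 w (μ ζ) (P ζ)) U := fun w hw U μ P hU hμ hP hd =>
    differentiableOn_tsum_of_summable_norm (sg.mul_left (A * om q h))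
      (fun n => ((hol h k1 γ _ _ n hγ hw).2 U μ P hU hμ (fun ζ hζ => ⟨(hP ζ hζ).1,
        ad _ (hP ζ hζ).2.1 (hP ζ hζ).2.2⟩) hd).const_mul _) hU
      fun n ζ hζ => tb w hw _ (hP ζ hζ).2.1 (hP ζ hζ).2.2 _ (hP ζ hζ).1 n
  have dm : ∀ w, Wt w → ∀ P ∈ SP, nm (P - cp γ) ≤ 2 / om q h →
      DifferentiableOn ℂ (fun μ => T1 w μ P) (DD q h) :=
    fun w hw P hP hn => k w hw _ (fun μ => μ) (fun _ => P) (opn q h) differentiableOn_id
      (fun _ hζ => ⟨hζ, hP, hn⟩) fun s => ⟨differentiableOn_const _, differentiableOn_const _⟩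
  refine ⟨fun P hP hn => ⟨ad P hP hn, dm w hw P hP hn, sm w hw P hP hn, fun n0 => ?_,
    fun w' hw' => ?_⟩, fun x0 hx0 hn0 => ?_⟩
  · unfold F1
    rw [ff_tail hY hm (fun n => 2 * (-2) ^ n) (dm w hw P hP hn).continuousOn (fun n =>
      ((hol h k1 γ _ _ n hγ hw).2 _ (fun μ => μ) (fun _ => P) (opn q h) differentiableOn_id
        (fun _ hζ => ⟨hζ, ad P hP hn⟩) fun s =>
          ⟨differentiableOn_const _, differentiableOn_const _⟩).continuousOn) n0]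
    refine (s3 _ _ fun y hy => tail (by positivity) r0 r1 (tb w hw P hP hn _ (hm y hy)) n0).trans ?_
    calc _ ≤ (|Cs| + 1) * om q h ^ 2 * (2 * (A * om q h) * (2 * A * (|Cs| + 1) / h ^ 3) ^ n0) := by
          gcongr
      _ = _ := by ring
  · unfold F1 FF
    rw [← intervalIntegral.integral_add (ii hY hm (dm w hw P hP hn).continuousOn)
      (ii hY hm (dm w' hw' P hP hn).continuousOn)]
    refine intervalIntegral.integral_congr fun y hy => ?_
    rw [uIcc_of_le (by linarith)] at hy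
    have m := hm y (abs_le.2 hy)
    simp only [T1]
    rw [← mul_add, ← (sm w hw P hP hn _ m).tsum_add (sm w' hw' P hP hn _ m)]
    refine congrArg _ (tsum_congr fun n => ?_)
    rw [← mul_add, Tn, Tn, Tn, ← integral_add
      ((hol h k1 γ _ _ n hγ hw).1 P _ 0 (ad P hP hn) m (lg0 γ w)).1
      ((hol h k1 γ _ _ n hγ hw').1 P _ 0 (ad P hP hn) m (lg0 γ w')).1]
    simp only [Pi.add_apply, add_mul]
  have nr : ∀ x ∈ SP, nm x < (om q h)⁻¹ → x0 + x ∈ SP ∧ nm (x0 + x - cp γ) ≤ 2 / om q h :=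
    fun x hx hn => ⟨SP.add_mem hx0 hx, by
      have := sn_nm.add _ (SP.sub_mem hx0 (cp_mem (hγ.smooth 0) (hγ.per 0))) x hx
      rw [add_sub_right_comm, div_eq_mul_inv]; linarith⟩
  have nl : ∀ x ∈ SP, ∀ y ∈ SP, ∀ ε : ℂ, nm (x + ε • y) < (om q h)⁻¹ →
      x0 + x + ε • y ∈ SP ∧ nm (x0 + x + ε • y - cp γ) ≤ 2 / om q h := fun x hx y hy ε hε => by
    rw [add_assoc]; exact nr _ (SP.add_mem hx (SP.smul_mem ε hy)) hε
  refine ⟨fun x hx y hy ε hε => (ff_der hHI hY hm hG (F := 2 * (A * om q h))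
    (G := fun ε μ => T1 w μ (x0 + x + ε • y)) (GH.opn sn_nm hx hy _)
    (fun ε hε => (dm w hw _ (nl x hx y hy ε hε).1 (nl x hx y hy ε hε).2).continuousOn)
    (fun μ hμ => k w hw _ (fun _ => μ) (fun ε => x0 + x + ε • y)
      (GH.opn sn_nm hx hy _) (differentiableOn_const _) (fun ε hε => ⟨hμ, nl x hx y hy ε hε⟩)
      fun s => ⟨by simp only [Pi.add_apply, Pi.smul_apply]; fun_prop, ?_⟩)
    (fun ε hε μ hμ => ?_) hε).differentiableAt.differentiableWithinAt, fun x hx hn => ?_⟩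
  · have : (fun ε : ℂ => deriv (x0 + x + ε • y) s) =
        fun ε : ℂ => deriv (x0 + x) s + ε • deriv y s := funext fun ε => by
      rw [deriv_add (SP.diff (SP.add_mem hx0 hx) s) (SP.diff (SP.smul_mem ε hy) s),
        deriv_const_smul ε (SP.diff hy s)]
    rw [this]; fun_prop
  · have := tail (by positivity) r0 r1 (tb w hw _ (nl x hx y hy ε hε).1 (nl x hx y hy ε hε).2 μ hμ) 0
    rwa [Finset.sum_range_zero, sub_zero, pow_zero, mul_one] at this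
  · refine (s3 _ (2 * (A * om q h * Real.exp (-(l0 / (2 * Tt q h))))) fun y hy => ?_).trans ?_
    · have := tail (mul_pos (mul_pos A0 o0) (Real.exp_pos _)).le r0 r1
        (tl w l0 hw hl _ (nr x hx hn).1 (nr x hx hn).2 _ (hm y hy)) 0
      rwa [Finset.sum_range_zero, sub_zero, pow_zero, mul_one, ← ga0, ga_mu] at this
    · calc _ ≤ (|Cs| + 1) * om q h ^ 2 *
            (2 * (A * om q h * Real.exp (-(l0 / (2 * Tt q h))))) := by gcongr
        _ = _ := by ring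

end Pool.Agent.Lib.IS3
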