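import Pool.Agent.Lib.IS3.Kit
import Pool.Agent.Lib.ISO.B_MAS

/-! The three ranges of frequencies at a scale `l`. -/

open scoped ComplexConjugate
open Complex

noncomputable section

namespace Pool.Agent.Lib.IS3.MASA

open Pool.Agent.Lib.ISO Pool.Agent.Lib.ISO.MAS

/-- terms of `NrL` and `JkL` -/
def nrl (l : ℝ) (W : ℕ) (z : ℤ → ℂ) (ξ : ℤ) : ℝ :=
  if 2 * |ce l W ξ| ≤ (W : ℝ) ^ 2 then (1 + ce l W ξ ^ 2) * ‖z ξ‖ ^ 2 else 0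
def jkl (m : ℕ) (l : ℝ) (W : ℕ) (z : ℤ → ℂ) (ξ : ℤ) : ℝ :=
  if (W : ℤ) < |ξ| ∧ (W : ℝ) ^ 2 < 2 * |ce l W ξ| then
    (yl l W ξ ^ m + yl l W ξ ^ (m + 4)) * ‖z ξ‖ ^ 2 else 0

/-- the standing assumptions -/
structure St (j l : ℝ) (W : ℕ) : Prop where
  j1 : 1 ≤ j
  w4 : 4 ≤ W
  wj : 2 * j < W
  lo : j⁻¹ ≤ l
  hi : l ≤ j

variable {z : ℤ → ℂ} {B j l : ℝ} {W : ℕ}

theorem St.l0 (s : St j l W) : 0 < l := (inv_pos.2 (one_pos.trans_le s.j1)).trans_le s.lo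

theorem St.jl (s : St j l W) : 1 ≤ j * l :=
  (inv_le_iff_one_le_mul₀' (one_pos.trans_le s.j1)).1 s.lo

theorem St.w1 (s : St j l W) : (1 : ℝ) ≤ W := by linarith [s.j1, s.wj]

theorem yl0 (l : ℝ) (W : ℕ) (ξ : ℤ) : 0 ≤ yl l W ξ := by unfold yl; positivity

theorem nrl0 (l : ℝ) (W : ℕ) (z : ℤ → ℂ) (ξ : ℤ) : 0 ≤ nrl l W z ξ := by
  unfold nrl; split_ifs <;> positivity

theorem jkl0 (m : ℕ) (l : ℝ) (W : ℕ) (z : ℤ → ℂ) (ξ : ℤ) : 0 ≤ jkl m l W z ξ := by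
  have := yl0 l W ξ
  unfold jkl; split_ifs <;> positivity

theorem NrL0 (l : ℝ) (W : ℕ) (z : ℤ → ℂ) : 0 ≤ NrL l W z := tsum_nonneg (nrl0 l W z)

theorem JkL0 (m : ℕ) (l : ℝ) (W : ℕ) (z : ℤ → ℂ) : 0 ≤ JkL m l W z := tsum_nonneg (jkl0 m l W z)

theorem yl_sum (h : Sq z) (l : ℝ) (W e : ℕ) :
    HasSum (fun ξ => yl l W ξ ^ e * ‖z ξ‖ ^ 2) (Hs e z / (l ^ (2 * e) * (W : ℝ) ^ (4 * e))) := by
  have e1 : (fun ξ => yl l W ξ ^ e * ‖z ξ‖ ^ 2) =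
      fun ξ : ℤ => (ξ : ℝ) ^ (2 * e) * ‖z ξ‖ ^ 2 / (l ^ (2 * e) * (W : ℝ) ^ (4 * e)) :=
    funext fun ξ => by rw [yl, div_pow, mul_pow, ← pow_mul, ← pow_mul, ← pow_mul]; ring
  rw [e1]; exact (pw_sum h e).hasSum.div_const _

theorem nrl_sum (h : Sq z) (l : ℝ) (W : ℕ) : Summable (nrl l W z) := by
  refine ((sq_sum h).mul_left (1 + ((W : ℝ) ^ 2) ^ 2)).of_nonneg_of_le (nrl0 l W z) fun ξ => ?_
  unfold nrl; split_ifs with h1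
  · have h3 : ce l W ξ ^ 2 ≤ ((W : ℝ) ^ 2) ^ 2 := by
      rw [← sq_abs (ce l W ξ)]
      exact pow_le_pow_left₀ (abs_nonneg _) (by linarith [abs_nonneg (ce l W ξ)]) 2
    gcongr
  · positivity

theorem jkl_sum (h : Sq z) (m : ℕ) (l : ℝ) (W : ℕ) : Summable (jkl m l W z) := by
  refine ((yl_sum h l W m).summable.add (yl_sum h l W (m + 4)).summable).of_nonneg_of_le
    (jkl0 m l W z) fun ξ => ?_
  have := yl0 l W ξ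
  unfold jkl; split_ifs with h1
  · rw [add_mul]
  · positivity

theorem sumbl (h : Sq z) (hB : An z ≤ B) (m : ℕ) (l : ℝ) (W : ℕ) {f : ℤ → ℝ} {a b c : ℝ}
    (hc : 0 ≤ c) (f0 : ∀ ξ, 0 ≤ f ξ)
    (hf : ∀ ξ, f ξ ≤ a * nrl l W z ξ + b * jkl m l W z ξ + c * ‖z ξ‖ ^ 2) :
    Summable f ∧ ∑' ξ, f ξ ≤ a * NrL l W z + b * JkL m l W z + c * B ^ 2 := by
  have h1 := (((nrl_sum h l W).hasSum.mul_left a).add ((jkl_sum h m l W).hasSum.mul_left b)).add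
    ((sq_sum h).hasSum.mul_left c)
  have h2 := h1.summable.of_nonneg_of_le f0 hf
  refine ⟨h2, (hasSum_le hf h2.hasSum h1).trans ?_⟩
  exact add_le_add le_rfl (mul_le_mul_of_nonneg_left (sq_le h hB) hc)

theorem St.low (s : St j l W) {ξ : ℤ} (h : |ξ| ≤ W) {r e : ℕ} (hr : r ≤ e) :
    yl l W ξ ^ r ≤ j ^ (2 * e) * ((W : ℝ) ^ (2 * r))⁻¹ := by
  have := s.w1
  have := s.l0
  have := s.j1
  have h1 : |(ξ : ℝ)| ≤ W := by exact_mod_cast h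
  have h2 : yl l W ξ ≤ j ^ 2 * ((W : ℝ) ^ 2)⁻¹ := by
    rw [yl, div_le_iff₀ (by positivity), ← sq_abs]
    calc |(ξ : ℝ)| ^ 2 ≤ (W : ℝ) ^ 2 := by gcongr
      _ ≤ (j * l) ^ 2 * (W : ℝ) ^ 2 := le_mul_of_one_le_left (by positivity) (one_le_pow₀ s.jl)
      _ = _ := by field_simp
  calc _ ≤ (j ^ 2 * ((W : ℝ) ^ 2)⁻¹) ^ r := pow_le_pow_left₀ (yl0 l W ξ) h2 r
    _ = j ^ (2 * r) * ((W : ℝ) ^ (2 * r))⁻¹ := by rw [mul_pow, inv_pow, ← pow_mul, ← pow_mul]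
    _ ≤ _ := by gcongr

theorem St.tri (s : St j l W) (z : ℤ → ℂ) {m r k : ℕ} (h1 : m ≤ r + k) (h2 : r + k ≤ m + 4)
    (ξ : ℤ) : (nrl l W z ξ = (1 + ce l W ξ ^ 2) * ‖z ξ‖ ^ 2 ∧ yl l W ξ ^ r ≤ 3 ^ (m + 4)) ∨
      yl l W ξ ^ r * ‖z ξ‖ ^ 2 ≤ j ^ (2 * (m + 4)) * (W : ℝ) ^ (2 * k) * jkl m l W z ξ +
        j ^ (2 * (m + 4)) * ((W : ℝ) ^ (2 * r))⁻¹ * ‖z ξ‖ ^ 2 := by
  have := s.w1
  have := s.l0
  have := s.j1
  have y0 := yl0 l W ξ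
  by_cases hn : 2 * |ce l W ξ| ≤ (W : ℝ) ^ 2
  · refine Or.inl ⟨if_pos hn, ?_⟩
    have h4 : |(ξ : ℝ)| ≤ 3 / 2 * (W : ℝ) ^ 2 * l := by
      rw [← div_le_iff₀ s.l0]
      have := le_abs_self (ce l W ξ)
      unfold ce at this hn
      linarith
    have h5 : yl l W ξ ≤ 3 := by
      rw [yl, div_le_iff₀ (by positivity), ← sq_abs]
      calc |(ξ : ℝ)| ^ 2 ≤ (3 / 2 * (W : ℝ) ^ 2 * l) ^ 2 := by gcongr
        _ = 9 / 4 * (l ^ 2 * (W : ℝ) ^ 4) := by ring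
        _ ≤ _ := by gcongr; norm_num
    exact (pow_le_pow_left₀ y0 h5 r).trans (pow_le_pow_right₀ (by norm_num) (by omega))
  right
  have j0 := jkl0 m l W z ξ
  rcases le_or_gt |ξ| W with hl | hl
  · exact le_add_of_nonneg_of_le (by positivity)
      (mul_le_mul_of_nonneg_right (s.low hl (by omega)) (by positivity))
  refine le_add_of_le_of_nonneg ?_ (by positivity)
  rw [jkl, if_pos ⟨hl, not_le.1 hn⟩, ← mul_assoc]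
  refine mul_le_mul_of_nonneg_right ?_ (by positivity)
  have h3 : (W : ℝ) ≤ |(ξ : ℝ)| := by exact_mod_cast hl.le
  have h4 : 1 ≤ j ^ 2 * (W : ℝ) ^ 2 * yl l W ξ := by
    have := s.hi
    rw [yl, ← mul_div_assoc, le_div_iff₀ (by positivity), ← sq_abs (ξ : ℝ)]
    calc 1 * (l ^ 2 * (W : ℝ) ^ 4) = l ^ 2 * W ^ 2 * W ^ 2 := by ring
      _ ≤ _ := by gcongr
  have h5 : yl l W ξ ^ (r + k) ≤ yl l W ξ ^ m + yl l W ξ ^ (m + 4) := by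
    rcases le_total (yl l W ξ) 1 with a | a
    · exact le_add_of_le_of_nonneg (pow_le_pow_of_le_one y0 a h1) (by positivity)
    · exact le_add_of_nonneg_of_le (by positivity) (pow_le_pow_right₀ a h2)
  calc yl l W ξ ^ r ≤ (j ^ 2 * (W : ℝ) ^ 2 * yl l W ξ) ^ k * yl l W ξ ^ r :=
        le_mul_of_one_le_left (by positivity) (one_le_pow₀ h4)
    _ = j ^ (2 * k) * (W : ℝ) ^ (2 * k) * yl l W ξ ^ (r + k) := by ring
    _ ≤ _ := by gcongr; omega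

theorem erL0 (m : ℕ) (l : ℝ) (W : ℕ) (z : ℤ → ℂ) : 0 ≤ erL m l W z := by
  have := NrL0 l W z
  have := JkL0 m l W z
  unfold erL; positivity

end Pool.Agent.Lib.IS3.MASA
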