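import Pool.Agent.Lib.IS3.Kit

/-! The Neumann series of the double layer operator on several curves. -/

open scoped ContDiff ComplexConjugate Topology Real
open Complex MeasureTheory Set Filter Function

noncomputable section

namespace Pool.Agent.Lib.IS3

open Pool.Agent.Lib.ISO Pool.Agent.Lib.IS2

namespace NEUm

variable {N : ℕ}

/-- Composition of kernels. -/
def kv (A B : XN N → XN N → ℝ) (s t : XN N) : ℝ := ∫ u, A s u * B u t ∂nx N

variable {A B C : XN N → XN N → ℝ}

theorem cont_cv (hA : Continuous (uncurry A)) (hB : Continuous (uncurry B)) :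
    Continuous (uncurry (kv A B)) :=
  cont_int (f := fun (p : XN N × XN N) u => A p.1 u * B u p.2) (by fun_prop)

theorem cv_assoc (hA : Continuous (uncurry A)) (hB : Continuous (uncurry B))
    (hC : Continuous (uncurry C)) : kv (kv A B) C = kv A (kv B C) := by
  funext s t
  simp only [kv, ← integral_mul_const, ← integral_const_mul]
  rw [swap_nx (F := fun u v => A s v * B v u * C u t) (by fun_prop)]
  simp only [mul_assoc]

theorem cv_le (hB : Continuous (uncurry B)) {M m : ℝ} {s t : XN N} (M0 : 0 ≤ M)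
    (h1 : ∀ u, |A s u| ≤ M) (h2 : ∫ u, |B u t| ∂nx N ≤ m) : |kv A B s t| ≤ M * m := by
  refine (norm_integral_le_of_norm_le (f := fun u => A s u * B u t) (g := fun u => M * |B u t|)
    (int_cont (by fun_prop)) (.of_forall fun u => ?_)).trans ?_
  · rw [Real.norm_eq_abs, abs_mul]
    exact mul_le_mul_of_nonneg_right (h1 u) (abs_nonneg _)
  · rw [integral_const_mul]
    exact mul_le_mul_of_nonneg_left h2 M0

/-- Integration of a uniformly convergent series. -/
theorem int_tsum {F : ℕ → XN N → ℝ} {b : ℕ → ℝ} (hF : ∀ n, Continuous (F n)) (hb : Summable b)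
    (h : ∀ n u, |F n u| ≤ b n) : HasSum (fun n => ∫ u, F n u ∂nx N) (∫ u, ∑' n, F n u ∂nx N) :=
  hasSum_integral_of_dominated_convergence (fun n _ => b n)
    (fun n => (hF n).aestronglyMeasurable) (fun n => .of_forall (h n))
    (.of_forall fun _ => hb) (integrable_const _)
    (.of_forall fun u => (hb.of_norm_bounded fun n => h n u).hasSum)

end NEUm

open NEUm in
theorem st_neum (hA : St_A3) (hQ : St_QS) : St_NEUm := by
  intro N μ Γ Ω h
  have hr := h.cd.rc
  have p0 := h.cd.per
  have p1 := fun i => per_deriv' (p0 i)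
  have p2 := fun i => per_deriv' (p1 i)
  have cK : Continuous (uncurry (Krm μ Γ)) := cont_x2 fun i k => by
    by_cases e : i = k
    · subst e
      have hγ := (h.cd.smooth i).continuous
      simp only [Krm, if_true]
      exact ((hA.2.2.1.comp_continuous (f := fun p : ℝ × ℝ => μ * c0 (Γ i) p.1 p.2)
        (by unfold c0; fun_prop) fun p => mul_nonneg h.pos.le (norm_nonneg _)).mul
        (hQ.1 _ (h.cd.smooth i) (p0 i) (h.cd.reg i) fun s t e =>
          (h.cd.inj (i, s) (i, t) e).2).continuous).div_const _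
    · simp only [Krm, if_neg e]
      have := hr.gp_cont
      exact (hr.DLx_cont hA h.pos).comp_continuous
        (f := fun p : ℝ × ℝ => (gp Γ (i, p.1), (k, p.2))) (by fun_prop)
        fun p e' => e (h.cd.inj _ _ e').1
  have pK : P2 (Krm μ Γ) := fun s t => by
    simp only [Krm, hr.gp_per, hr.DLx_per, Kr, c0, qq, nr, p0 _ s.2, p0 _ t.2, p1 _ t.2, p2 _ t.2,
      and_self]
  have e1 : ∀ n, Kpm μ Γ (n + 1) = kv (Kpm μ Γ n) (Krm μ Γ) := fun n => rfl
  have cP : ∀ n, Continuous (uncurry (Kpm μ Γ n)) := fun n => by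
    induction n with
    | zero => exact cK
    | succ n ih => exact cont_cv ih cK
  have pP : ∀ n, P2 (Kpm μ Γ n) := fun n => by
    induction n with
    | zero => exact pK
    | succ n ih => exact fun s t => by simp only [e1, kv, (ih s _).1, (pK _ t).2, and_self]
  obtain ⟨M, M0, hM⟩ := bd_per2 cK pK
  have bP : ∀ n s t, |Kpm μ Γ n s t| ≤ M / 4 ^ n := fun n => by
    induction n with
    | zero => simpa [Kpm] using hM
    | succ n ih =>
      exact fun s t => (cv_le cK (by positivity) (ih s) (h.col t)).trans_eq (by ring)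
  have e2 : ∀ n, Kpm μ Γ (n + 1) = kv (Krm μ Γ) (Kpm μ Γ n) := fun n => by
    induction n with
    | zero => rfl
    | succ n ih => rw [e1 (n + 1), ih, cv_assoc cK (cP n) cK, ← e1, ih]
  have bT : ∀ n s t, |2 * (-2) ^ (n + 1) * Kpm μ Γ n s t| ≤ 4 * M * (1 / 2) ^ n := fun n s t => by
    rw [abs_mul, abs_mul, abs_pow, abs_neg, abs_two]
    refine (mul_le_mul_of_nonneg_left (bP n s t) (by positivity)).trans_eq ?_
    rw [show (4 : ℝ) ^ n = 2 ^ n * 2 ^ n by rw [← mul_pow]; norm_num, one_div, inv_pow]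
    field_simp
    ring
  have sb : Summable fun n : ℕ => 4 * M * (1 / 2 : ℝ) ^ n := summable_geometric_two.mul_left _
  have cH : Continuous (uncurry (Phm μ Γ)) :=
    continuous_tsum (f := fun n (p : XN N × XN N) => 2 * (-2) ^ (n + 1) * Kpm μ Γ n p.1 p.2)
      (fun n => continuous_const.mul (cP n)) sb fun n p => bT n p.1 p.2
  have e3 : ∀ s t, Phm μ Γ s t =
      -4 * Krm μ Γ s t - 2 * ∑' n, 2 * (-2) ^ (n + 1) * Kpm μ Γ (n + 1) s t := fun s t => by
    rw [Phm, (sb.of_norm_bounded fun n => bT n s t).tsum_eq_zero_add, sub_eq_add_neg, ← neg_mul,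
      ← tsum_mul_left]
    congr 1
    · norm_num [Kpm]
    · exact tsum_congr fun n => by ring
  have e4 : ∀ s t, Phm μ Γ s t = -4 * Krm μ Γ s t - 2 * kv (Krm μ Γ) (Phm μ Γ) s t := fun s t => by
    have := int_tsum (F := fun n u => Krm μ Γ s u * (2 * (-2) ^ (n + 1) * Kpm μ Γ n u t))
      (fun n => by have := cP n; fun_prop) (sb.mul_left M) (fun n u => by
        rw [abs_mul]
        exact mul_le_mul (hM s u) (bT n u t) (abs_nonneg _) M0)
    simp only [mul_left_comm (Krm μ Γ s _), integral_const_mul] at this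
    rw [e3]
    simp only [e2]
    exact congrArg (fun x => -4 * Krm μ Γ s t - 2 * x) (this.tsum_eq.trans (by
      simp only [kv, Phm, ← tsum_mul_left, mul_left_comm (Krm μ Γ s _)]))
  have e5 : ∀ s t, Phm μ Γ s t = -4 * Krm μ Γ s t - 2 * kv (Phm μ Γ) (Krm μ Γ) s t := fun s t => by
    have := int_tsum (F := fun n u => 2 * (-2) ^ (n + 1) * Kpm μ Γ n s u * Krm μ Γ u t)
      (fun n => by have := cP n; fun_prop) (sb.mul_right M) (fun n u => by
        rw [abs_mul]
        exact mul_le_mul (bT n s u) (hM u t) (abs_nonneg _) (by positivity))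
    simp only [tsum_mul_right] at this
    simp only [mul_assoc _ (Kpm μ Γ _ s _), integral_const_mul] at this
    rw [e3]
    exact congrArg (fun x => -4 * Krm μ Γ s t - 2 * x) this.tsum_eq
  have pH : P2 (Phm μ Γ) := fun s t => by simp only [Phm, (pP _ s t).1, (pP _ s t).2, and_self]
  refine ⟨cK, pK, fun s t hst => ?_, cP, ⟨M, bP⟩, fun n s t => by rw [e2]; rfl, cH, pH,
    fun s t => ⟨e4 s t, e5 s t⟩, fun φ ⟨c1, c2⟩ => ⟨⟨?_, fun s => ?_⟩, fun s => ?_⟩⟩
  · rw [Krm]
    split_ifs with e
    · rw [gp, gp, e] at hst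
      rw [DLx, DLk, Kr, qq, if_neg hst, c0, norm_sub_rev (Γ t.1 s.2), gp, e]
      ring
    · rfl
  · exact (continuous_const.mul c1).add (cont_int (f := fun s t => Phm μ Γ s t * φ t) (by fun_prop))
  · simp only [Hom, c2 s, (pH s _).1]
  · have i1 : Integrable (fun t => Krm μ Γ s t * φ t) (nx N) := int_cont (by fun_prop)
    have i2 : Integrable (fun t => Phm μ Γ s t * φ t) (nx N) := int_cont (by fun_prop)
    have c3 := cont_int (f := fun t u => Krm μ Γ s t * Phm μ Γ t u * φ u) (by fun_prop)
    have a1 : ∀ t, Krm μ Γ s t * Hom μ Γ φ t = 2 * (Krm μ Γ s t * φ t) +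
        ∫ u, Krm μ Γ s t * Phm μ Γ t u * φ u ∂nx N := fun t => by
      simp only [Hom, mul_assoc, integral_const_mul]
      ring
    have a2 : ∀ u, ∫ t, Krm μ Γ s t * Phm μ Γ t u * φ u ∂nx N =
        -2 * (Krm μ Γ s u * φ u) - 1 / 2 * (Phm μ Γ s u * φ u) := fun u => by
      rw [integral_mul_const, e4 s u, kv]
      ring
    simp only [a1]
    rw [integral_add (i1.const_mul 2) (int_cont c3),
      swap_nx (F := fun t u => Krm μ Γ s t * Phm μ Γ t u * φ u) (by fun_prop)]
    simp only [a2]
    rw [integral_sub (i1.const_mul _) (i2.const_mul _)]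
    simp only [integral_const_mul, Hom]
    ring

end Pool.Agent.Lib.IS3
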