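import Pool.Agent.Lib.IS3.Kit

/-! Points at which the two distance functions differ. -/

open scoped ContDiff ComplexConjugate Topology Real ENNReal
open Complex MeasureTheory Set Filter

noncomputable section

namespace Pool.Agent.Lib.IS3

open Pool.Agent.Lib.ISO Pool.Agent.Lib.IS2

namespace P3

variable {N : ℕ} {j : ℝ}

lemma lip (hD : St_DLP) {Γ : MC N} (h : Nv j Γ) (cl : Fin N → Fin N) (k : Fin N) :
    LipschitzWith j.toNNReal fun s => dl cl Γ (k, s) :=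
  LipschitzWith.of_dist_le' fun s t => ((hD j N cl Γ h).1 k s t).trans
    (mul_le_mul_of_nonneg_left (dc_le_abs s t) (zero_le_one.trans h.one_le))

lemma ioo {O : Set ℝ} (hO : IsOpen O) {s : ℝ} (hs : s ∈ O) : ∃ a b, a < b ∧ Ioo a b ⊆ O := by
  obtain ⟨a, b, h1, h2⟩ := mem_nhds_iff_exists_Ioo_subset.1 (hO.mem_nhds hs)
  exact ⟨a, b, h1.1.trans h1.2, h2⟩

lemma pick (hD : St_DLP) (hP : St_PARG) {l : Fin N → ℝ} {G : MC N} (h : Gc j l G)
    {cl : Fin N → Fin N} {k i : Fin N} (hi : cl i ≠ cl k) {d : ℝ}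
    (hd : ∀ x y, cl x.1 ≠ cl y.1 → d ≤ cm (scm l G) x y) {O : Set ℝ} (hO : IsOpen O) {s : ℝ}
    (hs : s ∈ O) : ∃ t ∈ O, d < dl cl (scm l G) (k, t) ∧ (∃ x, Nr0 cl (scm l G) x (k, t)) ∧
      DifferentiableAt ℝ (fun s => dl cl (scm l G) (k, s)) t := by
  have nr : ∀ t, ∃ x, Nr0 cl (scm l G) x (k, t) := fun t =>
    ((hD j N cl _ h.sd.nv).2.1 (i, 0) (k, t) hi).2.2.2
  have L := lip hD h.sd.nv cl k
  obtain ⟨a, b, hab, hs'⟩ := ioo hO hs
  have h1 := hP j N l G cl k a b d h ⟨i, hi⟩ hab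
  push Not at h1
  obtain ⟨u, hu, hu'⟩ := h1
  obtain ⟨x, hx⟩ := nr u
  obtain ⟨t, ht, ht'⟩ := (Measure.dense_of_ae L.ae_differentiableAt_real).inter_open_nonempty _
    (hO.inter (isOpen_lt continuous_const L.continuous))
    ⟨u, hs' hu, lt_of_le_of_ne ((hd x (k, u) hx.1).trans_eq hx.2) hu'.symm⟩
  exact ⟨t, ht.1, ht.2, nr t, ht'⟩

end P3

open P3 in
theorem st_p3 (hD : St_DLP) (hN : St_NNE) (hP : St_PARG) (hA : St_P3A) : St_P3 := by
  intro j N l G r p cl h h' hp hc hne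
  obtain ⟨x0, y0, n0, m0⟩ := (hD j N cl _ h.sd.nv).2.2.1 hne
  obtain ⟨x1, y1, n1, m1⟩ := (hD j N cl _ h'.sd.nv).2.2.1 hne
  set Γ := scm l G with hΓ
  set Γ' := scm l (actm r p G) with hΓ'
  set d := min (cm Γ x0 y0) (cm Γ' x1 y1) with hd
  have d0 : ∀ x y, cl x.1 ≠ cl y.1 → d ≤ cm Γ x y := fun x y g => (min_le_left _ _).trans (m0 x y g)
  have d1 : ∀ x y, cl x.1 ≠ cl y.1 → d ≤ cm Γ' x y :=
    fun x y g => (min_le_right _ _).trans (m1 x y g)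
  refine ⟨d, fun θ α hθ hα => ?_⟩
  obtain ⟨α0, a0, b0⟩ := hN j N cl Γ d θ h.sd.nv h.sc hθ d0
  obtain ⟨α1, a1, b1⟩ := hN j N cl Γ' d θ h'.sd.nv h'.sc hθ d1
  set β := min α (min α0 α1) with hβ
  have β0 : d < β := lt_min hα (lt_min a0 a1)
  have β1 : β ≤ α := min_le_left _ _
  have β2 : β ≤ α0 := (min_le_right _ _).trans (min_le_left _ _)
  have β3 : β ≤ α1 := (min_le_right _ _).trans (min_le_right _ _)
  obtain ⟨k, i, s, hi, hs⟩ : ∃ k i s, cl i ≠ cl k ∧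
      min (dl cl Γ (k, s)) (dl cl Γ' (k, fl (r k) s)) < β := by
    rcases le_total (cm Γ x0 y0) (cm Γ' x1 y1) with g | g
    · exact ⟨y0.1, x0.1, y0.2, n0, ((min_le_left _ _).trans (((hD j N cl _ h.sd.nv).2.1 x0 y0
        n0).1.trans_eq (min_eq_left g).symm)).trans_lt β0⟩
    · refine ⟨y1.1, x1.1, fl (r y1.1) y1.2, n1, ((min_le_right _ _).trans ?_).trans_lt β0⟩
      rw [fl_fl]
      exact ((hD j N cl _ h'.sd.nv).2.1 x1 y1 n1).1.trans_eq (min_eq_right g).symm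
  have cf : Continuous (fl (r k)) := by
    unfold fl
    split_ifs <;> fun_prop
  have c0 : Continuous fun s => dl cl Γ (k, s) := (lip hD h.sd.nv cl k).continuous
  have c1 : Continuous fun s => dl cl Γ' (k, fl (r k) s) :=
    (lip hD h'.sd.nv cl k).continuous.comp cf
  have hO := isOpen_lt (c0.min c1) (continuous_const (y := β))
  obtain ⟨a, b, hab, hs'⟩ := ioo hO hs
  obtain ⟨u, hu, hu'⟩ : ∃ u, min (dl cl Γ (k, u)) (dl cl Γ' (k, fl (r k) u)) < β ∧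
      dl cl Γ (k, u) ≠ dl cl Γ' (k, fl (r k) u) := by
    by_contra g
    push Not at g
    refine hA j N l G r p cl k a b h h' hp hc ⟨i, hi⟩ hab fun u hu => ?_
    have e := g u (hs' hu)
    have e1 : min (dl cl Γ (k, u)) (dl cl Γ' (k, fl (r k) u)) < β := hs' hu
    refine ⟨e, fun x hx => (b0 x _ hx ?_).1, fun x hx => (b1 x _ hx ?_).1⟩
    · rw [← e, min_self] at e1
      exact hx.2.trans_lt (e1.trans_le β2)
    · rw [e, min_self] at e1
      exact hx.2.trans_lt (e1.trans_le β3)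
  rcases lt_or_gt_of_ne hu' with g | g
  · obtain ⟨t, ⟨t1, t2⟩, t3, ⟨x, hx⟩, t4⟩ := pick hD hP h hi d0 (hO.inter (isOpen_lt c0 c1)) ⟨hu, g⟩
    have t5 : dl cl Γ (k, t) < β := (min_eq_left (le_of_lt t2)).symm.trans_lt t1
    exact ⟨(k, t), Or.inl ⟨t3, t5.trans_le β1, t2, x,
      (b0 x _ hx (hx.2.trans_lt (t5.trans_le β2))).2 t4⟩⟩
  · obtain ⟨t, ⟨t1, t2⟩, t3, ⟨x, hx⟩, t4⟩ := pick hD hP h' hi d1
      ((hO.inter (isOpen_lt c1 c0)).preimage cf) (s := fl (r k) u)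
      (by rw [mem_preimage, fl_fl]; exact ⟨hu, g⟩)
    simp only [mem_setOf_eq, fl_fl] at t1 t2
    have t5 : dl cl Γ' (k, t) < β := (min_eq_right (le_of_lt t2)).symm.trans_lt t1
    refine ⟨(k, fl (r k) t), Or.inr ?_⟩
    simp only [fx, fl_fl]
    exact ⟨t3, t5.trans_le β1, t2, x, (b1 x _ hx (hx.2.trans_lt (t5.trans_le β3))).2 t4⟩

end Pool.Agent.Lib.IS3
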