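import Pool.Agent.Lib.IS3.Kit
import Pool.Agent.Lib.ISO.B_RP

/-! Project is3, row PSI: a change of the parameter that is linear near a point. -/

open scoped ContDiff Topology Real
open Set Filter MeasureTheory

noncomputable section

namespace Pool.Agent.Lib.IS3

open Pool.Agent.Lib.ISO Pool.Agent.Lib.IS2

namespace PSI

theorem bump {r : ℝ} (hr : 0 < r) (hr1 : r ≤ 1) : ∃ b : ℝ → ℝ, ContDiff ℝ ∞ b ∧
    Function.Periodic b (2 * π) ∧ (∀ u, 0 ≤ b u ∧ b u ≤ 1) ∧ (∀ u, |u| ≤ r / π → b u = 1) ∧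
    ∫ u in (-π)..π, b u ≤ 2 * r := by
  have hπ := Real.pi_gt_three
  have hε : 0 < (r / π) ^ 2 := by positivity
  refine ⟨fun u => Real.smoothTransition (2 - (1 - Real.cos u) / (r / π) ^ 2),
    Real.smoothTransition.contDiff.comp (by fun_prop), fun u => by simp only [Real.cos_add_two_pi],
    fun u => ⟨Real.smoothTransition.nonneg _, Real.smoothTransition.le_one _⟩, fun u hu => ?_, ?_⟩
  · refine Real.smoothTransition.one_of_one_le ?_
    have h1 := Real.one_sub_sq_div_two_le_cos (x := u)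
    have h2 : u ^ 2 ≤ (r / π) ^ 2 := sq_le_sq' (abs_le.1 hu).1 (abs_le.1 hu).2
    have h3 : (1 - Real.cos u) / (r / π) ^ 2 ≤ 1 := (div_le_one hε).2 (by linarith)
    linarith
  · rw [intervalIntegral.integral_of_le (by linarith),
      setIntegral_eq_of_subset_of_forall_sdiff_eq_zero measurableSet_Ioc
        (Ioc_subset_Ioc (show -π ≤ -r by linarith) (show r ≤ π by linarith)) fun u hu => ?_,
      ← intervalIntegral.integral_of_le (by linarith)]
    · refine (Real.le_norm_self _).trans ((intervalIntegral.norm_integral_le_of_norm_le_const (C := 1)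
        fun u _ => ?_).trans_eq ?_)
      · rw [Real.norm_of_nonneg (Real.smoothTransition.nonneg _)]
        exact Real.smoothTransition.le_one _
      · rw [one_mul, abs_of_pos (by linarith)]; ring
    · refine Real.smoothTransition.zero_of_nonpos ?_
      have h1 := Real.cos_le_one_sub_mul_cos_sq (abs_le.2 ⟨hu.1.1.le, hu.1.2⟩)
      have h2 : r ^ 2 ≤ u ^ 2 := by
        rcases not_and_or.1 hu.2 with k | k
        · nlinarith [not_lt.1 k]
        · nlinarith [not_le.1 k]
      have h3 : 2 / π ^ 2 * r ^ 2 ≤ 2 / π ^ 2 * u ^ 2 := mul_le_mul_of_nonneg_left h2 (by positivity)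
      have h4 : 2 ≤ (1 - Real.cos u) / (r / π) ^ 2 := (le_div_iff₀ hε).2 (by
        rw [show 2 * (r / π) ^ 2 = 2 / π ^ 2 * r ^ 2 by ring]; linarith)
      linarith

theorem speed {l : ℝ} (hl : 0 < l) : ∃ w : ℝ → ℝ, ∃ δ > 0, ContDiff ℝ ∞ w ∧
    Function.Periodic w (2 * π) ∧ (∀ u, 0 < w u) ∧ (∀ u, |u| ≤ δ → w u = l) ∧
    ∫ u in (0 : ℝ)..(2 * π), w u = 2 * π := by
  have hπ := Real.pi_gt_three
  have hr := lt_min one_pos (inv_pos.2 hl)
  obtain ⟨b, h1, h2, h3, h4, h5⟩ := bump hr (min_le_left _ _)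
  set J := ∫ u in (-π)..π, b u with hJ
  have j1 : J < 2 * π := by linarith [min_le_left 1 l⁻¹]
  have j2 : l * J < 2 * π := by
    have := mul_le_mul_of_nonneg_left (h5.trans
      (mul_le_mul_of_nonneg_left (min_le_right 1 l⁻¹) zero_le_two)) hl.le
    rw [mul_left_comm, mul_inv_cancel₀ hl.ne'] at this
    linarith
  have hc := div_pos (sub_pos.2 j2) (sub_pos.2 j1)
  have hcm := div_mul_cancel₀ (2 * π - l * J) (sub_pos.2 j1).ne'
  set c := (2 * π - l * J) / (2 * π - J)
  have hp : Function.Periodic (fun u => c + (l - c) * b u) (2 * π) := fun u => by simp only [h2 u]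
  refine ⟨fun u => c + (l - c) * b u, _, div_pos hr Real.pi_pos, by fun_prop, hp, fun u => ?_,
    fun u hu => by simp only [h4 u hu, mul_one, add_sub_cancel], ?_⟩
  · beta_reduce
    rcases (h3 u).1.eq_or_lt with k | k
    · rw [← k]; linarith
    · nlinarith [mul_pos hl k, mul_nonneg hc.le (sub_nonneg.2 (h3 u).2)]
  · have h6 := hp.intervalIntegral_add_eq 0 (-π)
    rw [zero_add, show -π + 2 * π = π by ring] at h6
    rw [h6, intervalIntegral.integral_add intervalIntegrable_const
      ((h1.continuous.intervalIntegrable _ _).const_mul _), intervalIntegral.integral_const_mul,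
      intervalIntegral.integral_const, smul_eq_mul, ← hJ]
    linarith

end PSI

theorem st_psi : St_PSI := by
  intro l β hl
  obtain ⟨w, δ, hδ, h1, h2, h3, h4, h5⟩ := PSI.speed hl
  obtain ⟨ℓ, l0, ld, lp⟩ := RP.exists_len h1.continuous Real.two_pi_pos h2 h3
  have ls : ContDiff ℝ ∞ ℓ := by
    rw [contDiff_infty_iff_deriv, funext fun θ => (ld θ).deriv]
    exact ⟨fun θ => (ld θ).differentiableAt, h1⟩
  have li : ContDiff ℝ ∞ ℓ.symm :=
    Homeomorph.contDiff_symm_deriv ℓ.toHomeomorph (fun θ => (h3 θ).ne') ld ls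
  have ft : ∀ u, ∫ x in (0 : ℝ)..u, w x = ℓ u := fun u => by
    rw [intervalIntegral.integral_eq_sub_of_hasDerivAt (fun x _ => ld x)
      (h1.continuous.intervalIntegrable _ _), l0, sub_zero]
  rw [← ft, h5] at lp
  refine ⟨fun u => ℓ (u - β), fun v => ℓ.symm v + β, δ, hδ, ⟨ls.comp (by fun_prop),
    li.add contDiff_const, fun u => by simp, fun u => by simp, fun u => ?_, fun u => ?_,
    fun u => ?_, fun u => ?_⟩, fun u hu => ?_⟩
  · rw [((ld (u - β)).comp_sub_const u β).deriv]
    exact h3 _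
  · have h6 := (ld (ℓ.symm u)).of_local_left_inverse li.continuous.continuousAt (h3 _).ne'
      (Eventually.of_forall ℓ.apply_symm_apply)
    rw [(h6.add_const β).deriv]
    exact inv_pos.2 (h3 _)
  · rw [← lp, add_sub_right_comm]
  · obtain ⟨θ, rfl⟩ := ℓ.surjective u
    rw [← lp, ℓ.symm_apply_apply, ℓ.symm_apply_apply, add_right_comm]
  · beta_reduce
    rw [← ft, intervalIntegral.integral_congr (g := fun _ => l) fun x hx =>
      h4 x (le_trans (by simpa using abs_sub_left_of_mem_uIcc hx) hu),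
      intervalIntegral.integral_const, smul_eq_mul, sub_zero, mul_comm]

end Pool.Agent.Lib.IS3
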