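import Pool.Agent.Lib.IS3.Kit
import Pool.Agent.Lib.IS2.B_TAY

/-! Groups of pairs and additivity of the model for the Taylor step on a scaled curve. -/

open scoped ContDiff ComplexConjugate Topology Real
open Complex MeasureTheory Set Filter

noncomputable section

namespace Pool.Agent.Lib.IS3.TAYL

open Pool.Agent.Lib.ISO Pool.Agent.Lib.IS2 Pool.Agent.Lib.IS2.TAY

lemma grp {j : ℝ} (hj : 1 ≤ j) (α : ℝ) : ∃ m ∈ Finset.range ⌈64 * j⌉₊,
    dc α (m / (8 * j)) ≤ 1 / (8 * j) := by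
  have hπ := Real.two_pi_pos
  have j0 : 0 < 8 * j := by linarith
  obtain ⟨h0, h1⟩ := toIcoMod_mem_Ico' hπ α
  set a := toIcoMod hπ 0 α with ha
  have e : dc α = dc a := by
    funext t
    rw [← toIcoMod_add_toIcoDiv_zsmul hπ 0 α, zsmul_eq_mul, dc_add_left]
  have p0 : 0 ≤ 8 * j * a := by positivity
  have f1 := Nat.floor_le p0
  have f2 := Nat.lt_floor_add_one (8 * j * a)
  refine ⟨⌊8 * j * a⌋₊, Finset.mem_range.2 (Nat.lt_ceil.2 ?_), ?_⟩
  · have := Real.pi_le_four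
    nlinarith
  · rw [e]
    refine (dc_le_abs _ _).trans ?_
    have : a - ⌊8 * j * a⌋₊ / (8 * j) = (8 * j * a - ⌊8 * j * a⌋₊) / (8 * j) := by field_simp
    rw [this, abs_of_nonneg (div_nonneg (by linarith) j0.le)]
    gcongr
    linarith

lemma uwL_c {e l : ℝ} {w : ℝ → ℝ → ℝ} {ρ κ : ℝ → ℝ} (he : 0 < e) (hl : 0 < l) (hw : Wf0 e w)
    (hρ : Continuous ρ) (hκ : Continuous κ) (n : ℕ) : Continuous (uwL l w ρ κ n) := by
  have c1 : Continuous fun z : ℝ × ℝ => w z.1 (z.1 + z.2) :=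
    hw.cont.comp (f := fun z : ℝ × ℝ => (z.1, z.1 + z.2)) (by fun_prop)
  have c2 : Continuous fun z : ℝ × ℝ => (l * max |z.2| e) ^ (3 * (n : ℝ) / 2 - 3) :=
    Continuous.rpow_const (by fun_prop) fun z =>
      Or.inl (mul_pos hl (he.trans_le (le_max_right _ _))).ne'
  have : uwL l w ρ κ n = fun z => l ^ 2 * (w z.1 (z.1 + z.2) * (ρ z.1 * ρ (z.1 + z.2)) *
      (κ z.1 ^ n * (l * max |z.2| e) ^ (3 * (n : ℝ) / 2 - 3))) := by
    ext z
    rcases le_total |z.2| e with h | h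
    · have : w z.1 (z.1 + z.2) = 0 := hw.zero _ _ ((dc_le_abs _ _).trans (by simpa using h))
      simp only [uwL, this, zero_mul]
    · rw [uwL, max_eq_left h]
  rw [this]
  exact continuous_const.mul ((c1.mul (by fun_prop)).mul (Continuous.mul (by fun_prop) c2))

lemma mo_sum {ι : Type} (A : Finset ι) {q : ℕ} {h e l : ℝ} (m : ℕ) (w : ι → ℝ → ℝ → ℝ)
    {ρ κ : ℝ → ℝ} (hh : 0 < h) (he : 0 < e) (hl : 0 < l) (hw : ∀ i ∈ A, Wf0 e (w i))
    (hρ : Continuous ρ) (hκ : Continuous κ) :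
    Mo q h l m (fun s t => ∑ i ∈ A, w i s t) ρ κ = ∑ i ∈ A, Mo q h l m (w i) ρ κ := by
  unfold Mo
  rw [Finset.sum_comm]
  refine Finset.sum_congr rfl fun n _ => ?_
  have cM := EXP.Mp_c q hh n
  rw [← Finset.mul_sum, ← integral_finsetSum _ fun i hi => EXP.int_c (by
    have := uwL_c he hl (hw i hi) hρ hκ n
    fun_prop)]
  refine congrArg _ (integral_congr_ae (Eventually.of_forall fun z => ?_))
  simp only [uwL, Finset.sum_mul, Finset.mul_sum, ofReal_sum]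

section
variable {C e : ℝ} {K : ℕ} {α : Fin K → ℝ} {φ : Fin K → ℝ → ℝ} (h : Pu C e K α φ)
include h

lemma wf0 (F : Finset (Fin K × Fin K)) (hF : ∀ p ∈ F, 4 * e < dc (α p.1) (α p.2)) :
    Wf0 (2 * e) (ws φ F) where
  cont := continuous_finsetSum _ fun p _ => ((h.per p.1).smooth.continuous.comp continuous_fst).mul
    ((h.per p.2).smooth.continuous.comp continuous_snd)
  p1 s t := by simp only [ws, (h.per _).per s]
  p2 s t := by simp only [ws, (h.per _).per t]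
  nn s t := Finset.sum_nonneg fun p _ => mul_nonneg (h.nn _ _) (h.nn _ _)
  le s t := (Finset.sum_le_univ_sum_of_nonneg fun p => mul_nonneg (h.nn _ _) (h.nn _ _)).trans_eq
    (pu_sum h s t)
  zero s t hd := Finset.sum_eq_zero fun p hp => by
    by_contra hne
    have := pu_far h (hF p hp) (left_ne_zero_of_mul hne) (right_ne_zero_of_mul hne)
    linarith

lemma pu_gt {k l : Fin K} {s t : ℝ} (hs : φ k s ≠ 0) (ht : φ l t ≠ 0) :
    dc (α k) (α l) - 2 * e < dc s t := by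
  have h1 := pu_lt h hs
  have h2 := pu_lt h ht
  have h3 := dc_triangle (α k) s (α l)
  have h4 := dc_triangle s t (α l)
  rw [dc_comm (α k) s] at h3
  linarith

lemma ws_one {r : ℝ} (he : 0 < e) (F : Finset (Fin K × Fin K))
    (hF : ∀ p, p ∉ F → dc (α p.1) (α p.2) ≤ 4 * e ∨ 2 * r < dc (α p.1) (α p.2)) {s t : ℝ}
    (h1 : 8 * e ≤ dc s t) (h2 : dc s t ≤ r) : ws φ F s t = 1 := by
  rw [← pu_sum h s t]
  refine Finset.sum_subset (Finset.subset_univ _) fun p _ hp => ?_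
  by_contra hne
  rcases hF p hp with a | a
  · have := pu_near h a (left_ne_zero_of_mul hne) (right_ne_zero_of_mul hne)
    linarith
  · have := pu_gt h (left_ne_zero_of_mul hne) (right_ne_zero_of_mul hne)
    linarith

lemma supp_grp {r β : ℝ} (he : e ≤ r) {k l : Fin K} (h1 : dc (α k) β ≤ r)
    (h2 : dc (α k) (α l) ≤ r) {s : ℝ} (hs : 3 * r < dc s β) : φ k s = 0 ∧ φ l s = 0 := by
  have t1 := dc_triangle s (α k) β
  have t2 := dc_triangle s (α l) (α k)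
  have t3 := dc_nonneg (α k) (α l)
  rw [dc_comm (α l)] at t2
  exact ⟨h.supp k s (by linarith), h.supp l s (by linarith)⟩
end

/-- the middle pairs, group by group -/
lemma mid {K m0 : ℕ} (φ : Fin K → ℝ → ℝ) (F : Finset (Fin K × Fin K)) (g : Fin K → ℕ)
    (hg : ∀ k, g k ∈ Finset.range m0) (c : Fin K × Fin K → ℂ) {q : ℕ} {h e l η : ℝ} (m : ℕ)
    {ρ κ : ℝ → ℝ} (hh : 0 < h) (he : 0 < e) (hl : 0 < l) (hρ : Continuous ρ) (hκ : Continuous κ)
    (hw : ∀ i, Wf0 e (ws φ (F.filter fun p => g p.1 = i)))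
    (hc : ∀ i, ‖∑ p ∈ F.filter fun p => g p.1 = i, c p -
      Mo q h l m (ws φ (F.filter fun p => g p.1 = i)) ρ κ‖ ≤ η) :
    ‖∑ p ∈ F, c p - Mo q h l m (ws φ F) ρ κ‖ ≤ m0 * η := by
  have e1 : ws φ F = fun s t => ∑ i ∈ Finset.range m0, ws φ (F.filter fun p => g p.1 = i) s t := by
    funext s t
    exact (Finset.sum_fiberwise_of_maps_to (fun p _ => hg p.1) _).symm
  rw [e1, mo_sum _ m _ hh he hl (fun i _ => hw i) hρ hκ,
    ← Finset.sum_fiberwise_of_maps_to (fun p (_ : p ∈ F) => hg p.1) c, ← Finset.sum_sub_distrib]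
  refine (norm_sum_le_of_le _ fun i _ => hc i).trans ?_
  simp

lemma par' {q : ℕ} {h j : ℝ} (hq : 6 ≤ q) (hj : 1 ≤ j) (hh : 8 * j ^ 2 ≤ h) : ∃ e : ℝ, 0 < e ∧
    e ≤ 1 ∧ j * Tt q h / (2 * h) = 2 * e ∧ 2 * j * Tt q h / h = 8 * e ∧ e⁻¹ ≤ 4 * om q h ∧
    (e ^ 2)⁻¹ ≤ 16 * om q h ∧ h ≤ om q h ∧ 2 * e ≤ 1 / (16 * j) := by
  have h1 : 1 ≤ h := by nlinarith
  have h0 : 0 < h := by linarith
  obtain ⟨e, he, -, e1, e2, e3, e4, e5, -⟩ := par hq h1
  have hT : Tt q h ≤ 1 := inv_le_one_of_one_le₀ (one_le_pow₀ h1)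
  have b : e ≤ j * e := le_mul_of_one_le_left he.le hj
  have a : 2 * (j * e) ≤ 1 / (16 * j) := by
    have a1 : 2 * e * (2 * h) = Tt q h := by rw [← e1]; field_simp
    rw [le_div_iff₀ (by linarith)]
    nlinarith
  refine ⟨j * e, by positivity, ?_, ?_, ?_, (inv_anti₀ he b).trans e3,
    (inv_anti₀ (by positivity) (by gcongr)).trans e4, e5, a⟩
  · have : 1 / (16 * j) ≤ 1 := by rw [div_le_one (by linarith)]; linarith
    linarith
  · rw [mul_div_assoc, e1]; ring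
  · rw [show 2 * j * Tt q h / h = j * (2 * Tt q h / h) by ring, e2]; ring

end Pool.Agent.Lib.IS3.TAYL
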