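import Pool.Agent.Lib.IS3.Base

/-! Statements of the blocks that need no operator theory. -/

open scoped ContDiff ComplexConjugate Topology Real ENNReal
open Complex MeasureTheory Set Filter

noncomputable section

namespace Pool.Agent.Lib.IS3

open Pool.Agent.Lib.ISO Pool.Agent.Lib.IS2

/-! ## A. Abstract tools -/

def St_RI : Prop := ∀ j : ℝ, ∃ C, ∀ (N : ℕ) (Γ : MC N) (μ : ℝ) x, Nv j Γ → 1 ≤ μ →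
  (∀ᵐ y ∂nx N, gp Γ x ≠ gp Γ y) ∧ Integrable (fun y => rk (μ * cm Γ x y)) (nx N) ∧
  ∫ y, rk (μ * cm Γ x y) ∂nx N ≤ C / μ

def St_LIP : Prop := ∃ C : ℝ, ∀ (E : Type) [AddCommGroup E] [Module ℂ E] (S : Submodule ℂ E)
  (p : E → ℝ) (f : E → ℂ) (x0 : E) (r M : ℝ), Sn S p → 0 < r → LH S p f x0 r M →
  (∀ y ∈ S, ∀ z ∈ S, D1 f x0 (y + z) = D1 f x0 y + D1 f x0 z) ∧
  (∀ y ∈ S, (∀ c : ℂ, D1 f x0 (c • y) = c * D1 f x0 y) ∧ ‖D1 f x0 y‖ ≤ C * M * p y / r) ∧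
  ∀ x ∈ S, ∀ y ∈ S, p x ≤ r / 8 → p y ≤ r / 8 → ‖f (x0 + x + y) - f (x0 + x)‖ ≤ C * M * p y / r ∧
    ‖f (x0 + x + y) - f (x0 + x) - D1 f x0 y‖ ≤ C * M * (p x + p y) * p y / r ^ 2

def St_DIM : Prop := ∀ (N m : ℕ) (F : (Fin m → ℝ) → (Fin N → ℂ × ℂ) → Fin m → ℝ)
  (S : Set (Fin m → ℝ)) (U : Set (Fin N → ℂ × ℂ)) (c L : ℝ), 4 * N < m → 0 < c →
  (∀ t ∈ S, ∀ t' ∈ S, ∀ p ∈ U, c * ‖t - t'‖ ≤ ‖F t p - F t' p‖) →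
  (∀ t ∈ S, ∀ p ∈ U, ∀ p' ∈ U, ‖F t p - F t p'‖ ≤ L * ‖p - p'‖) →
  Dense {t | t ∈ S ∧ ∃ p ∈ U, F t p = 0}ᶜ

/-- a cycle with one edge removed, integrated from a root -/
def St_PATH : Prop := ∀ (X : Type) [MeasurableSpace X] (ν : Measure X) [SigmaFinite ν] (n : ℕ)
  (a e : Fin (n + 2)) (g : X → ℝ≥0∞) (k : Fin (n + 2) → X → X → ℝ≥0∞) (b : Fin (n + 2) → ℝ≥0∞),
  Measurable g → (∀ i, Measurable (Function.uncurry (k i))) →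
  (∀ i, (i - a).val < (e - a).val → ∀ x, ∫⁻ y, k i x y ∂ν ≤ b i) →
  (∀ i, (e - a).val < (i - a).val → ∀ y, ∫⁻ x, k i x y ∂ν ≤ b i) →
  ∫⁻ v, g (v a) * ∏ i ∈ Finset.univ.erase e, k i (v i) (v (i + 1))
      ∂(Measure.pi fun _ : Fin (n + 2) => ν) ≤ (∫⁻ x, g x ∂ν) * ∏ i ∈ Finset.univ.erase e, b i

/-- periodic in every vertex -/
def Pw {N n : ℕ} (F : (Fin n → XN N) → ℂ) : Prop :=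
  ∀ v (k : Fin n → ℤ), F (fun i => ((v i).1, (v i).2 + k i * (2 * π))) = F v

def St_COV : Prop := ∀ (N n : ℕ) (F : (Fin n → XN N) → ℂ), Pw F →
  (∀ φ : Fin N → ℝ → ℝ, (∀ i, Up (φ i)) →
    ∫ v, ((∏ i, deriv (φ (v i).1) (v i).2 : ℝ) : ℂ) * F (fun i => ((v i).1, φ (v i).1 (v i).2))
      ∂bm N n = ∫ v, F v ∂bm N n) ∧
  ∀ r, ∫ v, F (fun i => fx r (v i)) ∂bm N n = ∫ v, F v ∂bm N n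

def St_BUMP : Prop := ∃ Cb : ℝ, ∀ e α : ℝ, 0 < e → e ≤ 1 → ∃ ρ, Bm Cb e α ρ

/-! ## D. Chains on several curves -/

def St_KBm : Prop := ∀ j B : ℝ, ∃ C, 1 ≤ C ∧ ∀ (N : ℕ) (Γ : MC N) ϖ P, Nv j Γ → Admm j B Γ ϖ P →
  (∀ x y, gp Γ x ≠ gp Γ y → ‖mc P x y - cm Γ x y‖ ≤ cm Γ x y / 10 ∧ ‖mc P x y - cm Γ x y‖ ≤ C * ϖ) ∧
  ∀ (n : ℕ) (v : Fin (n + 2) → XN N) μ o, Gw Γ v → Sm μ → ‖μ‖ ≤ o →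
    ‖IM μ P n v‖ ≤ C ^ (n + 2) * Mm o Γ n v * ‖exp (-(μ * ecm P v))‖ ∧
    ‖exp (-(μ * ecm P v))‖ ≤ Real.exp (-(μ.re * elm Γ v) + C * (n + 2) * ‖μ‖ * ϖ)

def St_KMm : Prop := ∀ N : ℕ,
  (∀ P ∈ SPm N, ∀ n, Measurable fun p : ℂ × (Fin (n + 2) → XN N) => IM p.1 P n p.2) ∧
  ∀ j B (Γ : MC N) ϖ (μ : ℂ → ℂ) (P : ℂ → MQ N) ζ n (v : Fin (n + 2) → XN N), Nv j Γ →
    Admm j B Γ ϖ (P ζ) → Sm (μ ζ) → Gw Γ v → DifferentiableAt ℂ μ ζ →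
    (∀ i s, DifferentiableAt ℂ (fun ζ => P ζ i s) ζ ∧
      DifferentiableAt ℂ (fun ζ => deriv (P ζ i) s) ζ) →
    DifferentiableAt ℂ (fun ζ => IM (μ ζ) (P ζ) n v) ζ

def St_CRm : Prop := ∀ (j : ℝ) (q : ℕ), 1 ≤ q → ∃ C h0, ∀ h, h0 ≤ h → ∀ (N : ℕ) (Γ : MC N), Nv j Γ →
  ∀ n, (∀ᵐ v ∂bm N (n + 2), Gw Γ v) ∧
    Integrable (fun v => Mm (om q h) Γ n v * Real.exp (-(elm Γ v / (2 * Tt q h)))) (bm N (n + 2)) ∧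
    ∫ v, Mm (om q h) Γ n v * Real.exp (-(elm Γ v / (2 * Tt q h))) ∂bm N (n + 2) ≤
      C * om q h * (C / h ^ 3) ^ n

/-- the weight lives on chains of length at least `l0` -/
def Lg {N : ℕ} (Γ : MC N) (l0 : ℝ) (w : Wg N) : Prop := ∀ n v, w (n + 2) v ≠ 0 → l0 ≤ elm Γ v
def ga0 (q : ℕ) (h l0 : ℝ) (μ : ℂ) : ℝ := Real.exp (-((μ.re - (2 * Tt q h)⁻¹) * l0))

def St_HOLm : Prop := ∀ (j B : ℝ) (q : ℕ), 1 ≤ q → ∃ C h0, ∀ h, h0 ≤ h →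
  ∀ (N : ℕ) (Γ : MC N) ϖ w n, Nv j Γ → Wm w →
  (∀ P μ l0, Admm j B Γ ϖ P → μ ∈ DD q h → Lg Γ l0 w →
    Integrable (fun v => w (n + 2) v * IM μ P n v) (bm N (n + 2)) ∧ ‖Tc w μ P n‖ ≤
      C * om q h * (C / h ^ 3) ^ n * Real.exp (C * (n + 2) * om q h * ϖ) * ga0 q h l0 μ) ∧
  ∀ (U : Set ℂ) (μ : ℂ → ℂ) (P : ℂ → MQ N), IsOpen U → DifferentiableOn ℂ μ U →
    (∀ ζ ∈ U, μ ζ ∈ DD q h ∧ Admm j B Γ ϖ (P ζ)) →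
    (∀ i s, DifferentiableOn ℂ (fun ζ => P ζ i s) U ∧
      DifferentiableOn ℂ (fun ζ => deriv (P ζ i) s) U) →
    DifferentiableOn ℂ (fun ζ => Tc w (μ ζ) (P ζ) n) U

def St_LHW : Prop := ∀ (j : ℝ) (q : ℕ), 4 ≤ q → ∃ C h0, ∀ h, h0 ≤ h →
  ∀ (N : ℕ) (Γ : MC N) w l0, Nv j Γ → Wm w → Lg Γ l0 w →
  (∀ P ∈ SPm N, nmm (P - cpm Γ) ≤ 2 / om q h → Admm j (j + 1) Γ (2 / om q h) P ∧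
    DifferentiableOn ℂ (fun μ => TW w μ P) (DD q h) ∧ ∀ μ ∈ DD q h,
      (Summable fun n => 2 * (-2) ^ n * Tc w μ P n) ∧ ‖TW w μ P‖ ≤ C * om q h * ga0 q h l0 μ ∧
      ∀ w', Wm w' → TW (w + w') μ P = TW w μ P + TW w' μ P) ∧
  ∀ μ ∈ DD q h, LH (SPm N) nmm (TW w μ) (cpm Γ) (om q h)⁻¹ (C * om q h * ga0 q h l0 μ)

def St_KB1 : Prop := ∀ j B : ℝ, ∃ C, 1 ≤ C ∧ ∀ γ ϖ P, N1 j γ → Adm j B γ ϖ P →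
  ∀ (n : ℕ) (v : Fin (n + 2) → ℝ) μ o, Gv γ v → Sm μ → ‖μ‖ ≤ o →
    ‖In μ P n v‖ ≤ C ^ (n + 2) * Mj o γ n v * ‖exp (-(μ * elc P v))‖ ∧
    ‖exp (-(μ * elc P v))‖ ≤ Real.exp (-(μ.re * ell γ v) + C * (n + 2) * ‖μ‖ * ϖ)

def St_KM1 : Prop := ∀ j B γ ϖ (μ : ℂ → ℂ) (P : ℂ → ℝ → C2) ζ n (v : Fin (n + 2) → ℝ), N1 j γ →
  Adm j B γ ϖ (P ζ) → Sm (μ ζ) → Gv γ v → DifferentiableAt ℂ μ ζ →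
  (∀ s, DifferentiableAt ℂ (fun ζ => P ζ s) ζ ∧ DifferentiableAt ℂ (fun ζ => deriv (P ζ) s) ζ) →
  DifferentiableAt ℂ (fun ζ => In (μ ζ) (P ζ) n v) ζ

def St_CR1 : Prop := ∀ (j : ℝ) (q : ℕ), 1 ≤ q → ∃ C h0, ∀ h, h0 ≤ h → ∀ γ, N1 j γ →
  ∀ n, (∀ᵐ v ∂box (n + 2), Gv γ v) ∧
    Integrable (fun v => Mj (om q h) γ n v * Real.exp (-(ell γ v / (2 * Tt q h)))) (box (n + 2)) ∧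
    ∫ v, Mj (om q h) γ n v * Real.exp (-(ell γ v / (2 * Tt q h))) ∂box (n + 2) ≤
      C * om q h * (C / h ^ 3) ^ n

def Lg1 (γ : ℝ → ℂ) (l0 : ℝ) (w : ∀ n, (Fin n → ℝ) → ℂ) : Prop :=
  ∀ n v, w (n + 2) v ≠ 0 → l0 ≤ ell γ v

def St_HOL1 : Prop := ∀ (j B : ℝ) (q : ℕ), 1 ≤ q → ∃ C h0, ∀ h, h0 ≤ h → ∀ γ ϖ w n, N1 j γ → Wt w →
  (∀ P μ l0, Adm j B γ ϖ P → μ ∈ DD q h → Lg1 γ l0 w →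
    Integrable (fun v => w (n + 2) v * In μ P n v) (box (n + 2)) ∧ ‖Tn w μ P n‖ ≤
      C * om q h * (C / h ^ 3) ^ n * Real.exp (C * (n + 2) * om q h * ϖ) * ga0 q h l0 μ) ∧
  ∀ (U : Set ℂ) (μ : ℂ → ℂ) (P : ℂ → ℝ → C2), IsOpen U → DifferentiableOn ℂ μ U →
    (∀ ζ ∈ U, μ ζ ∈ DD q h ∧ Adm j B γ ϖ (P ζ)) → (∀ s, DifferentiableOn ℂ (fun ζ => P ζ s) U ∧
      DifferentiableOn ℂ (fun ζ => deriv (P ζ) s) U) →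
    DifferentiableOn ℂ (fun ζ => Tn w (μ ζ) (P ζ) n) U

/-- one curve -/
def St_BR1 : Prop := St_KB1 ∧ St_KM1 ∧ St_CR1 ∧ St_HOL1

def St_LH1 : Prop := ∀ (j : ℝ) (q : ℕ), 4 ≤ q → ∃ C h0, ∀ h, h0 ≤ h → ∀ γ w l0, N1 j γ → Wt w →
  Lg1 γ l0 w →
  (∀ P ∈ SP, nm (P - cp γ) ≤ 2 / om q h → Adm j (j + 1) γ (2 / om q h) P ∧
    DifferentiableOn ℂ (fun μ => T1 w μ P) (DD q h) ∧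
    (∀ μ ∈ DD q h, Summable fun n => 2 * (-2) ^ n * Tn w μ P n) ∧
    (∀ n0, ‖F1 q h w P - ∑ n ∈ Finset.range n0, 2 * (-2) ^ n * FF q h fun μ => Tn w μ P n‖ ≤
      C * om q h ^ 3 * (C / h ^ 3) ^ n0) ∧
    ∀ w', Wt w' → F1 q h (w + w') P = F1 q h w P + F1 q h w' P) ∧
  ∀ x0 ∈ SP, nm (x0 - cp γ) ≤ (om q h)⁻¹ →
    LH SP nm (F1 q h w) x0 (om q h)⁻¹ (C * om q h ^ 3 * Real.exp (-(l0 / (2 * Tt q h))))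

def St_REPm : Prop := ∀ (N : ℕ), ∀ P ∈ SPm N, ∀ (φ : Fin N → ℝ → ℝ) cl μ, (∀ i, Up (φ i)) →
  TW (wX cl) μ (fun i s => P i (φ i s)) = TW (wX cl) μ P

def St_SYM : Prop := ∀ (N : ℕ) (Γ : MC N) cl r (p : Fin N → ℂ × ℂ) μ, Rc Γ → (∀ i, ‖(p i).1‖ = 1) →
  (∀ i k, cl i = cl k → r i = r k ∧ p i = p k) →
  TW (1 - wX cl) μ (cpm (actm r p Γ)) = TW (1 - wX cl) μ (cpm Γ)

def St_SPL : Prop := ∀ (j : ℝ) (q : ℕ), 4 ≤ q → ∃ h0, ∀ h, h0 ≤ h → ∀ (N : ℕ) (Γ : MC N), Nv j Γ →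
  ∀ μ ∈ DD q h, TM μ (cpm Γ) = ∑ i, TT μ (cp (Γ i)) + TW (wX id) μ (cpm Γ)

def St_TEQ2 : Prop := ∀ (j : ℝ) (q n : ℕ), 4 ≤ q → ∃ C h0, ∀ h, h0 ≤ h →
  ∀ (N N' : ℕ) (Γ : MC N) (Γ' : MC N'), Nv j Γ → Nv j Γ' → Cst j Γ Γ' →
  ‖∑ i, FT q h (cp (Γ i)) - ∑ i, FT q h (cp (Γ' i))‖ ≤ C / om q h ^ n

def St_DIF : Prop := ∀ j : ℝ, ∃ μ0, ∀ μ : ℝ, μ0 ≤ μ → ∀ (N : ℕ) (Γ : MC N) w, Nv j Γ → Wm w →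
  (∀ y ∈ SPm N, (∀ n, Integrable (fun v => w (n + 2) v * dI μ (cpm Γ) y n v) (bm N (n + 2))) ∧
    HasSum (fun n => 2 * (-2) ^ n * ∫ v, w (n + 2) v * dI μ (cpm Γ) y n v ∂bm N (n + 2))
      (D1 (TW w μ) (cpm Γ) y) ∧ ∀ w', Wm w' → Wm (w + w') →
      D1 (TW (w + w') μ) (cpm Γ) y = D1 (TW w μ) (cpm Γ) y + D1 (TW w' μ) (cpm Γ) y) ∧
  ∀ k S ρ, Wm (wH k S) → Per (2 * π) ρ → (∀ s ∉ S, ρ s = 0 ∧ deriv ρ s = 0) →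
    D1 (TW w μ) (cpm Γ) (bu Γ k ρ) = D1 (TW (w * wH k S) μ) (cpm Γ) (bu Γ k ρ)

/-! ## E. One scaled curve -/

def St_DEFL : Prop := ∀ (j B Cb : ℝ) (q : ℕ), 6 ≤ q → ∃ B' C h0, ∀ h, h0 ≤ h → ∀ l G P p α b,
  Ns j l G → Str B (100 * j * h / om q h) (om q h)⁻¹ P → nm (rs P - cp G) ≤ (om q h)⁻¹ / j →
  p ∈ SP → nm p ≤ (om q h)⁻¹ / j → Bf Cb (2 * j * Tt q h / h) (20 * j * Tt q h) α b →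
  (∀ ζ : ℂ, ‖ζ‖ < 2 * vt q h → Adm j B' (sc l G) (C * h / om q h) (PzL l P p b ζ)) ∧
  (∀ s, Differentiable ℂ (fun ζ => PzL l P p b ζ s) ∧
    Differentiable ℂ fun ζ => deriv (PzL l P p b ζ) s) ∧
  GainL j q h C α (PzL l P p b (-I * vt q h))

def St_ESTL : Prop := ∀ (j B C1 : ℝ) (q n : ℕ), 4 ≤ q → ∃ C h0, ∀ h, h0 ≤ h → ∀ γ P α w, N1 j γ →
  Adm j B γ (C1 * h / om q h) P → GainL j q h C1 α P → Wt w →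
  (∀ v, w (n + 2) v ≠ 0 → ∃ i, dc (v i) α ≤ 2 * j * Tt q h / h) →
  ‖FF q h fun μ => Tn w μ P n‖ ≤ C * om q h ^ 3 * Real.exp (-(h / (8 * j ^ 2)))

def St_KILLL : Prop := ∀ (j B : ℝ) (q n : ℕ), 6 ≤ q → ∃ C h0, ∀ h, h0 ≤ h → ∀ l G P, Ns j l G →
  Str B (100 * j * h / om q h) (om q h)⁻¹ P → nm (rs P - cp G) ≤ (om q h)⁻¹ / j →
  ‖FT q h ((l : ℂ) • rs P)‖ ≤ C / om q h ^ n ∧ ∀ p ∈ SP, ∀ α, nm p ≤ (om q h)⁻¹ / j →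
    (∀ s, 2 * j * Tt q h / h ≤ dc s α → p s = 0) →
    ‖FT q h ((l : ℂ) • rs P + p) - FT q h ((l : ℂ) • rs P)‖ ≤ C / om q h ^ n

def St_H0L : Prop := ∀ (j K : ℝ) (M : ℕ), 2 ≤ M → ∃ C, ∀ (W n : ℕ) l G a, 1 ≤ W → Nc j G →
  Nq j l W n → Ton1 M K W n a (kp G) →
  (∀ i ≤ 2 * M + 4, ∀ s, ‖iteratedDeriv (i + 1) G s‖ ≤ C * lam M W ^ (i - 3)) ∧
  ∫ s in (0 : ℝ)..(2 * π), ‖iteratedDeriv (2 * M + 6) G s‖ ^ 2 ≤ C * XX M W ^ 2 ∧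
  ∫ s in (0 : ℝ)..(2 * π), ‖iteratedDeriv (2 * M + 4)
    (fun s => ((kp G s - tnn M W n a s : ℝ) : ℂ) * deriv G s) s‖ ^ 2 ≤ C * XX M W ^ 2 / W

def St_H1L : Prop := ∀ j : ℝ, ∃ B, ∀ (K : ℝ) (M q : ℕ), 5 ≤ M → 2 * M + 4 ≤ q → ∃ C h0, ∀ h, h0 ≤ h →
  ∀ (W n : ℕ) l G a, (W : ℝ) ^ 2 = om q h → Nc j G → Nq j l W n → Ton1 M K W n a (kp G) →
  Str B (100 * j * h / om q h) (om q h)⁻¹ (lo (Xi q h) G) ∧ rs (lo (Xi q h) G) ∈ SP ∧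
  ContDiff ℝ ∞ (Zc (Xi q h) G) ∧ Function.Periodic (Zc (Xi q h) G) (2 * π) ∧
  cp G = rs (lo (Xi q h) G) + cp (Zc (Xi q h) G) ∧
  nm (cp (Zc (Xi q h) G)) ≤ C * amp M W * om q h ^ 2

def St_H2L : Prop := ∀ (j K : ℝ) (M q : ℕ), 5 ≤ M → 2 * M + 4 ≤ q → ∃ C h0, ∀ h, h0 ≤ h →
  ∀ (W n : ℕ) l G a, (W : ℝ) ^ 2 = om q h → Nc j G → Nq j l W n → Ton1 M K W n a (kp G) →
  Per (2 * π) (rho q h G) ∧ ∫ s in (0 : ℝ)..(2 * π),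
    (l * rho q h G s + tnn M W n a s / (l * om q h ^ 2)) ^ 2 ≤
      C * (amp M W ^ 2 / om q h ^ 4) * (h ^ (8 * M + 24) / W)

/-- the second variation is local -/
def St_LOC : Prop := ∀ (j r : ℝ) (q n : ℕ), 0 < r → 4 ≤ q → ∃ C h0, ∀ h, h0 ≤ h → ∀ γ, N1 j γ →
  ∀ y ∈ SP, ∀ z ∈ SP,
  (∀ γ' β, N1 j γ' → (∀ s, dc s β ≤ 2 * r → γ s = γ' s) → (∀ s, r < dc s β → y s = 0 ∧ z s = 0) →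
    ‖D2 (FT q h) (cp γ) y z - D2 (FT q h) (cp γ') y z‖ ≤ C * nm y * nm z / om q h ^ n) ∧
  (Sep r y z → ‖D2 (FT q h) (cp γ) y z‖ ≤ C * nm y * nm z / om q h ^ n)

/-- an arc closes up to a curve near a circle -/
def St_CMP1 : Prop := ∀ (g : ℝ → ℂ) (ε : ℝ), ContDiff ℝ ∞ g → (∀ s, ‖deriv g s‖ = 1) → 0 < ε →
  ∃ δ > 0, ∃ (H : ℝ → ℂ) (z u : ℂ), ‖u‖ = 1 ∧ ContDiff ℝ ∞ H ∧ Function.Periodic H (2 * π) ∧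
    (∀ s, ‖deriv H s‖ = 1) ∧ (∀ s, |s| ≤ δ → H s = g s) ∧
    ∀ s : ℝ, ‖H s - (z + u * exp (I * s))‖ ≤ ε ∧ ‖deriv H s - I * u * exp (I * s)‖ ≤ ε

def St_PSI : Prop := ∀ l β : ℝ, 0 < l → ∃ ψ χ, ∃ δ > 0, Rp ψ χ ∧ ∀ u, |u - β| ≤ δ → ψ u = l * (u - β)

def St_NVE : Prop := (∀ (N : ℕ) (Γ : MC N), Rc Γ → ∃ j0, ∀ j, j0 ≤ j → Nv j Γ) ∧
  ∀ G : ℝ → ℂ, (Rc fun _ : Fin 1 => G) → (∀ s, ‖deriv G s‖ = 1) →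
    Per (2 * π) (kp G) ∧ ∃ j0, ∀ j, j0 ≤ j → Nc j G

def St_CMP : Prop := ∀ (j l : ℝ) G, 0 < l → Nc j G → ∃ j0, ∀ j', j0 ≤ j' → Cm j' l G

def St_RS0 : Prop := ∀ (j : ℝ) (p q : ℕ), 9 * (p + 1) + 2 ≤ 2 * q → ∃ C h0, ∀ h, h0 ≤ h →
  ∀ Ω H η (K : ℕ) (φ : Fin K → ℝ → ℝ) F Z R, Dg Ω H η → Nc j H → (∀ k, Per (2 * π) (φ k)) →
  ContDiff ℝ ∞ Z → Function.Periodic Z (2 * π) →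
  (∀ x ∈ F, Sep (Tt q h / (2 * h)) (φ x.1) (φ x.2)) → Wf0 (Tt q h / (2 * h)) (ws φ F) →
  ∫ s in (0 : ℝ)..(2 * π), rdot (Z s) (nr H s) ^ 2 ≤ R →
  ‖∑ x ∈ F, D2 (FT q h) (cp H) (yk φ Z x.1) (yk φ Z x.2) -
    Mo q h 1 (p + 2) (ws φ F) (fun s => rdot (Z s) (nr H s)) (kp H)‖ ≤ C * Er p q h R

/-- the data of a group of pairs near `β` -/
structure Pr (j : ℝ) (q : ℕ) (h β R : ℝ) (G Z : ℝ → ℂ) {K : ℕ} (φ : Fin K → ℝ → ℝ)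
    (F : Finset (Fin K × Fin K)) : Prop where
  per : ∀ k, Per (2 * π) (φ k)
  sm : ContDiff ℝ ∞ Z
  pz : Function.Periodic Z (2 * π)
  sep : ∀ x ∈ F, Sep (j * Tt q h / (2 * h)) (φ x.1) (φ x.2)
  wf : Wf0 (j * Tt q h / (2 * h)) (ws φ F)
  supp : ∀ x ∈ F, ∀ s, 3 / (8 * j) < dc s β → φ x.1 s = 0 ∧ φ x.2 s = 0
  l2 : ∫ s in (0 : ℝ)..(2 * π), rdot (Z s) (nr G s) ^ 2 ≤ R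

def St_RSP2 : Prop := ∀ (j : ℝ) (p q : ℕ), 9 * (p + 1) + 2 ≤ 2 * q → ∃ C h0, ∀ h, h0 ≤ h →
  ∀ l G β Ω H η ψ χ (c : ℝ) (K : ℕ) (φ : Fin K → ℝ → ℝ) F Z R, Ns j l G → Dg Ω H η → Nc j H →
  Rp ψ χ → N1 j (fun u => H (ψ u)) →
  (∀ u, |u - β| ≤ j⁻¹ → H (ψ u) = sc l G u ∧ ψ u = l * u + c) → Pr j q h β R G Z φ F →
  ‖∑ x ∈ F, D2 (FT q h) (cp fun u => H (ψ u)) (yk φ Z x.1) (yk φ Z x.2) -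
    Mo q h l (p + 2) (ws φ F) (fun s => rdot (Z s) (nr G s)) (kh l (kp G))‖ ≤ C * Er p q h R

def St_RSP : Prop := ∀ (j : ℝ) (p q n : ℕ), 9 * (p + 1) + 2 ≤ 2 * q → ∃ C h0, ∀ h, h0 ≤ h →
  ∀ l G β (K : ℕ) (φ : Fin K → ℝ → ℝ) F Z R, Ns j l G → Cp j l G β → Pr j q h β R G Z φ F →
  (F.card : ℝ) ≤ om q h ^ 3 → (∀ k, nm (yk φ Z k) ≤ 1) →
  ‖∑ x ∈ F, D2 (FT q h) (cp (sc l G)) (yk φ Z x.1) (yk φ Z x.2) -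
    Mo q h l (p + 2) (ws φ F) (fun s => rdot (Z s) (nr G s)) (kh l (kp G))‖ ≤
    C * Er p q h R + C / om q h ^ n

def St_TAYL : Prop := ∀ (j K : ℝ) (M p q : ℕ), 25 ≤ M → 2 * M + 4 ≤ q → 9 * (p + 1) + 2 ≤ 2 * q →
  ∃ C h0, ∀ h, h0 ≤ h → ∀ (W n : ℕ) l G a R, (W : ℝ) ^ 2 = om q h → Ns j l G → Cm j l G →
  Nq j l W n → Ton1 M K W n a (kp G) → ∫ s in (0 : ℝ)..(2 * π), (l * rho q h G s) ^ 2 ≤ R →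
  ∃ w, WfL j q h w ∧ ‖FT q h (cp (sc l G)) -
    1 / 2 * Mo q h l (p + 2) w (fun s => l * rho q h G s) (kh l (kp G))‖ ≤
    C * Er p q h R + C / om q h ^ (2 * M + 4)

def St_J2L : Prop := ∀ (j B : ℝ) (q p : ℕ), 4 ≤ q → 1 ≤ j → ∃ C h0, ∀ h, h0 ≤ h →
  ∀ (M W n : ℕ) l κ ρ w a (η : ℝ), (W : ℝ) ^ 2 = om q h → Nq j l W n → Per (2 * π) κ → Bk B κ →
    Per (2 * π) ρ → WfL j q h w → ‖a‖ ≤ B → 0 ≤ η → η ≤ 1 →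
    ∫ s in (0 : ℝ)..(2 * π), (ρ s + tnn M W n a s / (l * om q h ^ 2)) ^ 2 ≤
      η ^ 2 * (amp M W ^ 2 / om q h ^ 4) →
    ‖(∫ s in (0 : ℝ)..(2 * π), ∫ d in (-π)..π,
        ((l ^ 2 * (w s (s + d) * (ρ s * ρ (s + d)) * κ s ^ p * g0 q h p (l * |d|)) : ℝ) : ℂ) *
          exp (-(I * om q h * (l * |d| : ℝ)))) -
      ((amp M W ^ 2 / om q h ^ 4 * (2 * (‖a‖ ^ 2 / l) * jp q h p *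
        ∫ s in (0 : ℝ)..(2 * π), κ s ^ p) : ℝ) : ℂ)‖ ≤
      C * (amp M W ^ 2 / om q h ^ 4) * Tt q h ^ (3 * (p : ℝ) / 2 - 2) *
        (η + h ^ 6 / (om q h * Tt q h) + Tt q h)

def St_EXPL : Prop := ∀ (j K : ℝ) (p0 M : ℕ), 25 ≤ M → ∃ r0 P : ℕ, p0 ≤ P ∧ ∀ r, r0 ≤ r →
  ∃ (c C h0 : ℝ) (cf : ℕ → ℝ → ℂ), 0 < c ∧ ∀ h, h0 ≤ h →
  (∀ p ≤ P, ‖cf p h‖ ≤ C / h ^ (3 * p)) ∧ c / h ^ (3 * p0) ≤ ‖cf p0 h‖ ∧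
  ∀ (W n : ℕ) l G a, (W : ℝ) ^ 2 = om (2 * r) h → Ns j l G → Cm j l G → Nq j l W n →
    Ton1 M K W n a (kp G) →
    ‖FT (2 * r) h (cp (sc l G)) / La M W (2 * r) h - (‖a‖ ^ 2 / l : ℝ) * ∑ p ∈ Finset.range (P + 1),
      cf p h * (∫ s in (0 : ℝ)..(2 * π), kh l (kp G) s ^ p : ℝ)‖ ≤ C / h ^ (3 * p0 + 1)

/-! ## B. Potential theory on several curves -/

def St_GCm : Prop := ∀ (N : ℕ) Ω (Γ : MC N), CDm Ω Γ → ∃ c > 0,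
  (∀ x y (r : ℝ), |r| ≤ c → c * (dm x y + |r|) ≤ ‖gp Γ y - (gp Γ x + r * gn Γ x)‖) ∧
  (∀ z y, ‖z - gp Γ y‖ < c → ∃ x, ∃ r : ℝ, c * |r| ≤ ‖z - gp Γ y‖ ∧ z = gp Γ x + r * gn Γ x ∧
    (z ∈ Ω → 0 < r)) ∧
  (∀ x (r : ℝ), 0 < r → r ≤ c → gp Γ x + r * gn Γ x ∈ Ω ∧ gp Γ x - r * gn Γ x ∉ closure Ω) ∧
  ∀ x, ∀ z ∈ Ω, c * ‖gn Γ x‖ ≤ ‖z - (gp Γ x - c * gn Γ x)‖

def St_LAYm : Prop := ∀ (N : ℕ) Ω (Γ : MC N), CDm Ω Γ →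
  (∀ a : ℝ, 0 ≤ a → a < 1 → ∃ C, ∀ z, Integrable (fun y => ‖z - gp Γ y‖ ^ (-a)) (nx N) ∧
    ∫ y, ‖z - gp Γ y‖ ^ (-a) ∂nx N ≤ C) ∧
  ∀ μ : ℝ, 0 < μ → ∀ φ, Measurable φ → (∃ B, ∀ t, |φ t| ≤ B) → Continuous (SLom μ Γ φ) ∧
    Har μ (range (gp Γ))ᶜ (SLom μ Γ φ) ∧ Har μ (range (gp Γ))ᶜ (DLom μ Γ φ)

def St_GRNm : Prop := ∀ μ : ℝ, 0 < μ → ∀ (N : ℕ) Ω (Γ : MC N) (O : Set ℂ) (u : ℂ → ℝ) z, CDm Ω Γ →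
  IsOpen O → closure Ω ⊆ O → ContDiffOn ℝ 2 u O → z ∉ range (gp Γ) →
  Ω.indicator u z = (∫ x in Ω, Gr μ (z - x) * (μ ^ 2 * u x - lap u x)) +
    ∫ t, (Gr μ (z - gp Γ t) * fderiv ℝ u (gp Γ t) (-gn Γ t) + DLx μ Γ z t * u (gp Γ t)) ∂nx N

def St_JMPm : Prop := ∀ (μ : ℝ) (N : ℕ) Ω (Γ : MC N), 0 < μ → CDm Ω Γ →
  (∃ C, ∀ z ∉ range (gp Γ), ∫ t, |DLx μ Γ z t| ∂nx N ≤ C) ∧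
  ∀ φ, CPm φ → ∀ x, Tendsto (DLom μ Γ φ) (𝓝[Ω] (gp Γ x))
    (𝓝 (φ x / 2 + ∫ t, Krm μ Γ x t * φ t ∂nx N))

/-- periodic in both variables -/
def P2 {N : ℕ} (k : XN N → XN N → ℝ) : Prop :=
  ∀ x y : XN N, k (x.1, x.2 + 2 * π) y = k x y ∧ k x (y.1, y.2 + 2 * π) = k x y

def St_NEUm : Prop := ∀ (N : ℕ) μ (Γ : MC N) Ω, Potm μ Γ Ω →
  Continuous (Function.uncurry (Krm μ Γ)) ∧ P2 (Krm μ Γ) ∧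
  (∀ s t, gp Γ s ≠ gp Γ t → DLx μ Γ (gp Γ s) t = Krm μ Γ s t) ∧
  (∀ n, Continuous (Function.uncurry (Kpm μ Γ n))) ∧ (∃ C, ∀ n s t, |Kpm μ Γ n s t| ≤ C / 4 ^ n) ∧
  (∀ n s t, Kpm μ Γ (n + 1) s t = ∫ u, Krm μ Γ s u * Kpm μ Γ n u t ∂nx N) ∧
  Continuous (Function.uncurry (Phm μ Γ)) ∧ P2 (Phm μ Γ) ∧
  (∀ s t, Phm μ Γ s t = -4 * Krm μ Γ s t - 2 * (∫ u, Krm μ Γ s u * Phm μ Γ u t ∂nx N) ∧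
    Phm μ Γ s t = -4 * Krm μ Γ s t - 2 * ∫ u, Phm μ Γ s u * Krm μ Γ u t ∂nx N) ∧
  ∀ φ, CPm φ → CPm (Hom μ Γ φ) ∧
    ∀ s, Hom μ Γ φ s / 2 + ∫ t, Krm μ Γ s t * Hom μ Γ φ t ∂nx N = φ s

def St_POIm : Prop := ∀ (N : ℕ) μ (Γ : MC N) Ω, Potm μ Γ Ω →
  (∀ φ, CPm φ → ContinuousOn (Uem μ Γ Ω φ) (closure Ω) ∧ Har μ Ω (Uem μ Γ Ω φ) ∧
    (∀ t, Uem μ Γ Ω φ (gp Γ t) = φ t) ∧
    ∀ z ∈ Ω, Uem μ Γ Ω φ z = DLom μ Γ (Hom μ Γ φ) z ∧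
      Uem μ Γ Ω φ z = ∫ t, psm μ Γ z t * φ t ∂nx N) ∧
  (∀ u, ContinuousOn u (closure Ω) → Har μ Ω u →
    ∀ z ∈ closure Ω, u z = Uem μ Γ Ω (fun t => u (gp Γ t)) z) ∧
  (∀ (S : Set ℂ) (F : ℂ → XN N → ℝ), ContinuousOn (Function.uncurry F) (S ×ˢ univ) →
    (∀ y ∈ S, ∀ x : XN N, F y (x.1, x.2 + 2 * π) = F y x) →
    ContinuousOn (fun p : ℂ × ℂ => Uem μ Γ Ω (F p.2) p.1) (closure Ω ×ˢ S)) ∧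
  (∃ C, ∀ z ∈ Ω, ∀ t, psm μ Γ z t ≤ C * (1 + ‖z - gp Γ t‖⁻¹)) ∧
  ∀ z ∈ Ω, CPm (psm μ Γ z) ∧ ∀ t, 0 ≤ psm μ Γ z t

def St_GREm : Prop := ∀ (N : ℕ) μ (Γ : MC N) Ω, Potm μ Γ Ω →
  ContinuousOn (Function.uncurry (hRm μ Γ Ω)) (closure Ω ×ˢ Ω) ∧
  IntegrableOn (fun x => hRm μ Γ Ω x x) Ω ∧
  (∀ F : ℂ → ℝ, MemLp F 2 → (∀ z ∉ Ω, F z = 0) → ∀ x ∈ Ω,
    IntegrableOn (fun z => Rgm μ Γ Ω x z * F z) Ω ∧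
    ∫ z in Ω, Rgm μ Γ Ω x z * F z = Vp μ F x - Uem μ Γ Ω (fun t => Vp μ F (gp Γ t)) x) ∧
  ∀ y ∈ Ω, Har μ Ω (fun x => hRm μ Γ Ω x y) ∧ (∀ t, Rgm μ Γ Ω (gp Γ t) y = 0) ∧
    ∀ x ∈ Ω, hRm μ Γ Ω x y = hRm μ Γ Ω y x ∧ 0 ≤ hRm μ Γ Ω x y ∧ (x ≠ y → 0 ≤ Rgm μ Γ Ω x y)

def St_RESm : Prop := ∀ (N : ℕ) μ μ' (Γ : MC N) Ω, Potm μ Γ Ω → Potm μ' Γ Ω →
  (∀ x ∈ Ω, ∀ y ∈ Ω, x ≠ y → IntegrableOn (fun z => Rgm μ Γ Ω x z * Rgm μ' Γ Ω z y) Ω ∧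
    Rgm μ Γ Ω x y - Rgm μ' Γ Ω x y =
      (μ' ^ 2 - μ ^ 2) * ∫ z in Ω, Rgm μ Γ Ω x z * Rgm μ' Γ Ω z y) ∧
  Integrable (fun p : ℂ × ℂ => Rgm μ Γ Ω p.1 p.2 * Rgm μ' Γ Ω p.1 p.2)
    ((volume.restrict Ω).prod (volume.restrict Ω)) ∧
  (μ' ^ 2 - μ ^ 2) * RRm μ μ' Γ Ω =
    TBm μ Γ Ω - TBm μ' Γ Ω + volume.real Ω * Real.log (μ' / μ) / (2 * π)

def St_LNKm : Prop :=
  (∀ (N : ℕ) (Γ : MC N) (μ : ℝ) s t, (∀ i, Differentiable ℝ (Γ i)) → 0 < μ → gp Γ s ≠ gp Γ t →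
    mc (cpm Γ) s t = cm Γ s t ∧ mS μ (cpm Γ) s t = Srm μ Γ s t ∧
    mK μ (cpm Γ) s t = Krm μ Γ s t ∧ mK μ (cpm Γ) s t = DLx μ Γ (gp Γ s) t ∧
    mKd μ (cpm Γ) s t = Kdm μ Γ s t ∧ mNd μ (cpm Γ) s t = Ndm μ Γ s t) ∧
  ∀ j : ℝ, ∃ μ1, ∀ μ : ℝ, μ1 ≤ μ → ∀ (N : ℕ) (Γ : MC N) Ω, Nv j Γ → CDm Ω Γ → Potm μ Γ Ω

def St_CHm : Prop := ∀ (N : ℕ) μ (Γ : MC N) Ω, Potm μ Γ Ω →
  (∃ C, ∀ t s, |Lmm μ Γ t s| ≤ C ∧ |Kdm μ Γ t s| ≤ C ∧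
    Integrable (fun u => Srm μ Γ t u * Ndm μ Γ u s) (nx N)) ∧
  Measurable (Function.uncurry (Lmm μ Γ)) ∧ Continuous (Function.uncurry (Kdm μ Γ)) ∧
  Tc (fun _ _ => 1) μ (cpm Γ) 0 = (∫ s, Lmm μ Γ s s ∂nx N : ℝ) ∧
  ∀ n, Tc (fun _ _ => 1) μ (cpm Γ) (n + 1) =
    (∫ s, ∫ t, Kpm μ Γ n s t * Lmm μ Γ t s ∂nx N ∂nx N : ℝ)

def St_TR1m : Prop := ∀ (N : ℕ) μ (Γ : MC N) Ω, Potm μ Γ Ω →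
  (∃ C, ∀ s t, IntegrableOn (fun x => Gr μ (gp Γ s - x) * DLx μ Γ x t) Ω ∧
    ∫ x in Ω, |Gr μ (gp Γ s - x) * DLx μ Γ x t| ≤ C) ∧
  ∀ s t, ∫ x in Ω, Gr μ (gp Γ s - x) * DLx μ Γ x t = -Kdm μ Γ s t / 2 +
    (∫ u, Krm μ Γ s u * Kdm μ Γ u t ∂nx N) - ∫ u, Srm μ Γ s u * Ndm μ Γ u t ∂nx N

def St_TRm : Prop := ∀ (N : ℕ) (μ : ℝ) (Γ : MC N) Ω, Potm μ Γ Ω → TM μ (cpm Γ) = TBm μ Γ Ω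

def St_TEQM : Prop := ∀ (N N' : ℕ) (Γ : MC N) (Γ' : MC N') Ω Ω' (j : ℝ), Nv j Γ → Nv j Γ' →
  CDm Ω Γ → CDm Ω' Γ' → volume.real Ω = volume.real Ω' →
  (∀ μ, 1 ≤ μ → Potm μ Γ Ω → Potm μ Γ' Ω' → RRm μ μ Γ Ω = RRm μ μ Γ' Ω') →
  ∃ j0, ∀ j', j0 ≤ j' → Cst j' Γ Γ'

/-! ## K. Markers, tones, moments, branches -/

def St_POSL : Prop := ∀ (m : ℕ), ∃ γ Λ, 0 < γ ∧ ∀ (j : ℝ) (W : ℕ) (A l : ℝ) z, 4 ≤ W → 2 * j < W →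
  j⁻¹ ≤ l → l ≤ j → 1 ≤ j → Sq z → 0 < A → K4.Ineq γ Λ m (W : ℝ)⁻¹ (qL m l W A z)

def St_MASA : Prop := ∀ (m : ℕ) (j B : ℝ), 2 ≤ m → 1 ≤ j → ∃ C, ∀ (W : ℕ) (l : ℝ) z, 4 ≤ W →
  2 * j < W → j⁻¹ ≤ l → l ≤ j → Sq z → An z ≤ B → (∀ A, |qfL l W A z| ≤ B ^ 2 * momL 0 l W A z) ∧
  ∀ i ≤ 4, |Hs (m + i) z / (l ^ (2 * (m + i)) * (W : ℝ) ^ (4 * (m + i))) - HiL (m + i) l W z| ≤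
      C * erL m l W z ∧ Tm (m + i - 1) z / (W : ℝ) ^ (4 * (m + i)) ≤ C * erL m l W z

def St_MASB : Prop := ∀ (m : ℕ) (j B : ℝ), 2 ≤ m → 1 ≤ j → ∃ C, ∀ (W : ℕ) (l : ℝ) z, 4 ≤ W →
  2 * j < W → j⁻¹ ≤ l → l ≤ j → Sq z → An z ≤ B → ∀ i ≤ 4,
    |Qs (m + i - 1) z / (l ^ (2 * (m + i - 1)) * (W : ℝ) ^ (4 * (m + i))) -
      2 * qfL l W 1 z / (W : ℝ) ^ 4| ≤ C * erL m l W z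

def St_MKS : Prop := ∀ (M : ℕ) (j : ℝ), 1 ≤ j → ∃ (K : ℝ) (W1 : ℕ), ∀ W, W1 ≤ W → ∀ z, Sq z →
  (∀ l, j⁻¹ ≤ l → l ≤ j → Mk M W 0 z → NrL l W z ≤ K * amp M W ^ 2 / W ∧
    JkL (2 * M + 4) l W z ≤ K * amp M W ^ 2 / (W : ℝ) ^ 8) ∧
  (Mk M W (env 0) z → NrL 1 W z ≤ K * amp M W ^ 2 ∧
    JkL (2 * M + 4) 1 W z ≤ K * amp M W ^ 2 / (W : ℝ) ^ 8 ∧
    NrL 1 W z / amp M W ^ 2 - 2 * momL 0 1 W (amp M W) z - 2 * momL 2 1 W (amp M W) z ≤ K / W ∧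
    |momL 0 1 W (amp M W) z - 1| ≤ K / W ∧ |momL 1 1 W (amp M W) z| ≤ K / W ∧
    momL 2 1 W (amp M W) z ≤ K / W ∧ ‖z ((W : ℤ) ^ 2) / amp M W - 1‖ ≤ K / W)

/-- the spectrum is concentrated at one scale -/
def Cn (M : ℕ) (K : ℝ) (W : ℕ) (l : ℝ) (z : ℤ → ℂ) : Prop := NrL l W z ≤ K * amp M W ^ 2 ∧
  JkL (2 * M + 4) l W z ≤ K * amp M W ^ 2 / (W : ℝ) ^ 4 ∧ momL 2 l W (amp M W) z ≤ K / W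

def St_K4M : Prop := ∀ (C : ℕ → ℝ) (M : ℕ) (j B : ℝ), ∃ (K : ℝ) (W1 : ℕ), ∀ W, W1 ≤ W →
  ∀ (N N' : ℕ) (l : Fin N → ℝ) z (l' : Fin N' → ℝ) z' i0, Cz j B l z → Cz j B l' z' →
  InvM C B l z l' z' → Mkm M W i0 (env 0) z → l i0 = 1 →
  (∀ a, Cn M K W (l' a) (z' a)) ∧ |∑ a, momL 0 (l' a) W (amp M W) (z' a) / l' a - 1| ≤ K / W

def St_TONL : Prop := ∀ (M : ℕ) (j K : ℝ), 1 ≤ j → ∃ (K' : ℝ) (W1 : ℕ), ∀ W, W1 ≤ W → ∀ κ l,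
  Per (2 * π) κ → Bk j κ → j⁻¹ ≤ l → l ≤ j → Cn M K W l (fc κ) →
  Ton1 M K' W (nq l W) (fc κ (nq l W) / amp M W) κ ∧
    |‖fc κ (nq l W) / amp M W‖ ^ 2 - momL 0 l W (amp M W) (fc κ)| ≤ K' / W

def St_TONM : Prop := ∀ (C : ℕ → ℝ) (M : ℕ) (j : ℝ), ∃ (K : ℝ) (W1 : ℕ), ∀ W, W1 ≤ W →
  ∀ (N N' : ℕ) (l : Fin N → ℝ) k (l' : Fin N' → ℝ) k' i0, Cl j l k → Cl j l' k' → InvB C l k l' k' →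
  Mkm M W i0 (env 0) (fun i => fc (k i)) → l i0 = 1 → ∃ (a : Fin N → ℂ) (a' : Fin N' → ℂ),
    (∀ i, Ton1 M K W (nq (l i) W) (a i) (k i)) ∧ (∀ i, Ton1 M K W (nq (l' i) W) (a' i) (k' i)) ∧
    ‖a i0 - 1‖ ≤ K / W ∧ (∀ i ≠ i0, ‖a i‖ ^ 2 ≤ K / W) ∧ |∑ i, ‖a' i‖ ^ 2 / l' i - 1| ≤ K / W

def St_QUI : Prop := ∀ (M : ℕ) (j : ℝ), ∃ C, ∀ (W : ℕ) κ, 1 ≤ W → Per (2 * π) κ → Bk j κ →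
  Mk M W 0 (fc κ) → ∀ a ≤ 2 * M + 5, ∀ s, |iteratedDeriv a κ s| ≤ C * (W : ℝ) ^ a

def St_PAR : Prop := ∀ (n : ℕ) (B : ℝ), ∃ C, ∀ (κ : ℝ → ℝ) (d t w : ℝ), ContDiff ℝ ∞ κ → 1 ≤ w →
  |d| ≤ B → 1 - d * κ t ≠ 0 → |1 - d * κ t|⁻¹ ≤ B → (∀ a ≤ n, |iteratedDeriv a κ t| ≤ B * w ^ a) →
  |Pn d κ n t| ≤ C * w ^ n

def St_GEN : Prop := ∃ W0 : ℕ → ℕ → ℕ, ∀ (N : ℕ) (j : ℝ) (l : Fin N → ℝ) k, Cl j l k →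
  Gmm W0 (fun i => fc (k i)) →
  GJ (fun i => ph (l i) (k i)) (fun i => 2 * π * l i) ∧ ∀ i, G01 (k i)

def St_GJF : Prop := ∀ (N : ℕ) (l : Fin N → ℝ) (G : MC N) r (p : Fin N → ℂ × ℂ),
  (∀ i, ContDiff ℝ ∞ (G i)) → (∀ i, ‖(p i).1‖ = 1) →
  (∀ i s, kp (actm r p G i) s = kp (G i) (fl (r i) s)) ∧ (GG l G → GG l (actm r p G))

/-- equal traces give a weighted equality of moments -/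
def St_MOMW : Prop := ∀ C : ℕ → ℝ, ∃ W0 : ℕ → ℕ → ℕ, ∀ (N N' : ℕ) (j : ℝ) (l : Fin N → ℝ) G
  (l' : Fin N' → ℝ) G' i0, Sd j l G → Sd j l' G' → Cst j (scm l G) (scm l' G') →
  InvB C l (fun i => kp (G i)) l' (fun i => kp (G' i)) → Gmm W0 (fun i => fc (kp (G i))) →
  l i0 = 1 → ∃ m, MoM (kp (G i0)) m fun a => kh (l' a) (kp (G' a))

def St_BRM : Prop := ∀ (N : ℕ) κ (m : Fin N → ℝ) g, Per (2 * π) κ → (∀ c, Per (2 * π) (g c)) →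
  MoM κ m g → ∀ a b n s (n' : Fin N → ℕ) (s' : ∀ c, Fin (n' c) → ℝ → ℝ), Br κ a b n s →
  (∀ c, Br (g c) a b (n' c) (s' c)) →
  ∀ x ∈ Ioo a b, ∑ i, sl κ (s i x) = ∑ c, m c * ∑ k, sl (g c) (s' c k x)

def St_TSTM : Prop := ∀ (M j : ℕ) (K : ℝ), 1 ≤ j → ∃ W1 : ℕ, ∀ W, W1 ≤ W → ∀ κ a0 F,
  Per (2 * π) κ → Bk j κ → Ton1 M K W (W ^ 2) a0 κ → 1 / 2 ≤ ‖a0‖ →
  (∀ x ∈ F, ∃ κ' n a, x.1 = kh x.2 κ' ∧ Per (2 * π) κ' ∧ Bk j κ' ∧ Nq j x.2 W n ∧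
    Ton1 M K W n a κ') → TsM κ F j

def St_S1 : Prop := ∀ (N : ℕ) κ (l m : Fin N → ℝ) (k : Fin N → ℝ → ℝ), Per (2 * π) κ → G01 κ →
  (∀ a, 0 < l a ∧ Per (2 * π) (k a)) → MoM κ m (fun a => kh (l a) (k a)) →
  (∀ j0 : ℕ, ∃ j, j0 ≤ j ∧ TsM κ (insert (κ, 1) (range fun a => (kh (l a) (k a), l a))) j) →
  Ger κ fun a => ph (l a) (k a)

def St_SB1 : Prop := ∀ C : ℕ → ℝ, ∃ W0 : ℕ → ℕ → ℕ, ∀ (N N' : ℕ) (j : ℝ) (l : Fin N → ℝ) k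
  (l' : Fin N' → ℝ) k' i0 m, Cl j l k → Cl j l' k' → InvB C l k l' k' → Gmm W0 (fun i => fc (k i)) →
  l i0 = 1 → G01 (k i0) → MoM (k i0) m (fun a => kh (l' a) (k' a)) →
  Ger (k i0) fun a => ph (l' a) (k' a)

def St_B2a : Prop := ∀ (N N' : ℕ) (κ : Fin N → ℝ → ℝ) L (g : Fin N' → ℝ → ℝ) (S : Fin N' → Set ℝ),
  GJ κ L → (∀ a, ContDiff ℝ ∞ (g a)) → (∀ a, MeasurableSet (S a)) →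
  (∀ i s, ∃ a, ∃ t ∈ S a, Eqj (κ i) s (g a) t) → ENNReal.ofReal (∑ i, L i) ≤ ∑ a, volume (S a)

/-- every jet occurs on both sides, and no germ occurs twice -/
def Tot {N N' : ℕ} (κ : Fin N → ℝ → ℝ) (g : Fin N' → ℝ → ℝ) (L' : Fin N' → ℝ) : Prop :=
  (∀ i s, ∃ a t, Eqj (κ i) s (g a) t) ∧ (∀ a t, ∃ i s, Eqj (κ i) s (g a) t) ∧
  ∀ a a' (t t' τ δ : ℝ), (τ = 1 ∨ τ = -1) → 0 < δ →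
    (∀ u, |u| < δ → g a (t + u) = g a' (t' + τ * u)) → a = a' ∧ ∃ m : ℤ, t' = t + m * L' a

def St_B2 : Prop := ∀ (N N' : ℕ) (κ : Fin N → ℝ → ℝ) L (g : Fin N' → ℝ → ℝ) L', GJ κ L →
  (∀ a, 0 < L' a ∧ Per (L' a) (g a)) → ∑ i, L i = ∑ a, L' a → (∀ i, Ger (κ i) g) → Tot κ g L'

def St_B3 : Prop := ∀ (N N' : ℕ) (κ : Fin N → ℝ → ℝ) L (g : Fin N' → ℝ → ℝ) L', GJ κ L →
  (∀ a, 0 < L' a ∧ Per (L' a) (g a)) → Tot κ g L' → ∃ (e : Fin N ≃ Fin N') (τ β : Fin N → ℝ),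
    ∀ i, L' (e i) = L i ∧ (τ i = 1 ∨ τ i = -1) ∧ ∀ t, g (e i) t = κ i (τ i * t + β i)

def St_DEN1 : Prop := ∀ (f : Jordan) (J : ℕ) a, Env J a → ∀ U ∈ 𝓝 f, ∃ M0, ∀ M, M0 ≤ M →
  ∃ W1, ∀ W, W1 ≤ W → ∃ g ∈ U, Mk M W a (fc (kf g.1))

def St_DEN : Prop := ∀ N : ℕ, BaireSpace (Fin N → Jordan) ∧ ∀ W0, ∃ S : Set (Fin N → Jordan),
  IsGδ S ∧ Dense S ∧ ∀ f ∈ S, ∀ σ, Gmm W0 fun i => fc (kp (uc σ f i))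

/-! ## P. The placement of the curves -/

def St_PU : Prop := ∀ j η : ℝ, 0 < η → ∃ μ0, ∀ μ : ℝ, μ0 ≤ μ →
  (∃ r > 0, ∃ M, ∀ (N : ℕ) (Γ : MC N) w, Nv j Γ → Wm w → LH (SPm N) nmm (TW w μ) (cpm Γ) r M) ∧
  ∀ (N : ℕ) (Γ : MC N) w, Nv j Γ → Wm w →
    (∀ w', Wm w' → TW (w + w') μ (cpm Γ) = TW w μ (cpm Γ) + TW w' μ (cpm Γ)) ∧
    ∀ α, 0 ≤ α → α ≤ 2 * j → Lg Γ (2 * α) w →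
      ‖TW w μ (cpm Γ)‖ ≤ Real.exp (-(2 * μ * α) + η * μ) ∧
      ∀ Q ∈ SPm N, ‖D1 (TW w μ) (cpm Γ) Q‖ ≤ nmm Q * Real.exp (-(2 * μ * α) + η * μ)

/-- the distance to the other clusters -/
def St_DLP : Prop := ∀ (j : ℝ) (N : ℕ) cl (Γ : MC N), Nv j Γ →
  (∀ k s t, |dl cl Γ (k, s) - dl cl Γ (k, t)| ≤ j * dc s t) ∧
  (∀ x y, cl x.1 ≠ cl y.1 → dl cl Γ y ≤ cm Γ x y ∧ j⁻¹ ≤ dl cl Γ y ∧ dl cl Γ y ≤ j ∧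
    ∃ x', Nr0 cl Γ x' y) ∧
  ((∃ i k, cl i ≠ cl k) → ∃ x y, cl x.1 ≠ cl y.1 ∧
    ∀ a b, cl a.1 ≠ cl b.1 → cm Γ x y ≤ cm Γ a b) ∧
  ∀ x y, Nr0 cl Γ x y → DifferentiableAt ℝ (fun s => dl cl Γ (y.1, s)) y.2 →
    deriv (fun s => dl cl Γ (y.1, s)) y.2 * cm Γ x y = rdot (deriv (Γ y.1) y.2) (gp Γ y - gp Γ x)

def St_PUX : Prop := ∀ (j : ℝ) (N : ℕ) (Γ : MC N), Nv j Γ →
  (∃ C, ∀ μ, 1 ≤ μ → ∀ k e α ρ, Tb μ e α ρ → bu Γ k ρ ∈ SPm N ∧ nmm (bu Γ k ρ) ≤ C * μ ^ 2) ∧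
  ∀ η > 0, ∃ μ0, ∀ μ, μ0 ≤ μ → ∀ cl y e ρ, Tb μ e y.2 ρ →
    |DX cl μ Γ y.1 ρ| ≤ Real.exp (-(2 * μ * (dl cl Γ y - j * e)) + η * μ)

def St_KBP : Prop := ∀ j : ℝ, ∃ C, 1 ≤ C ∧ ∀ (N : ℕ) (Γ : MC N) B ϖ P (μ : ℝ) x y, Nv j Γ →
  Admm j B Γ ϖ P → 1 ≤ B → B ≤ μ → gp Γ x ≠ gp Γ y →
  let R := rk (μ * cm Γ x y) * Real.exp (-(μ * cm Γ x y / 2))
  let E := exp (μ * mc P x y)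
  (x.1 = y.1 → ‖mK μ P x y‖ ≤ C * B * R ∧ ‖mS μ P x y‖ ≤ C * R ∧ ‖mNd μ P x y‖ ≤ C * R ∧
    ‖mKd μ P x y‖ ≤ C * R / μ) ∧
  (x.1 ≠ y.1 → ‖mK μ P x y * E‖ ≤ C * √μ ∧ ‖mNd μ P x y * E‖ ≤ C * √μ ∧
    ‖mS μ P x y * E‖ ≤ C / √μ ∧ ‖mKd μ P x y * E‖ ≤ C / √μ)

/-- the chain without the exponentials of its long edges -/
def IE {N : ℕ} (μ : ℝ) (P : MQ N) (n : ℕ) (v : Fin (n + 2) → XN N) : ℂ :=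
  IM μ P n v * exp (μ * ∑ i ∈ crs v, mc P (v i) (v (i + 1)))

def St_PLE : Prop := ∀ j : ℝ, ∃ C, 1 ≤ C ∧ ∀ (N : ℕ) (Γ : MC N) B ϖ P (μ : ℝ), Nv j Γ →
  Admm j B Γ ϖ P → 1 ≤ B → B ≤ μ →
  (∀ n (v : Fin (n + 2) → XN N), Gw Γ v → (crs v).card = 2 →
    ‖IE μ P n v‖ ≤ C ^ (n + 2) * (B / μ) ^ (n - 1) * Sk μ Γ v) ∧
  ∀ v : Fin (1 + 2) → XN N, Gw Γ v → (crs v).card = 2 → 1 ∈ crs v →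
    ‖IE μ P 1 v‖ ≤ C * (B / μ) * Sk μ Γ v

/-- the values at the real curves -/
def St_PLS : Prop := ∀ j : ℝ, ∃ c C μ0 : ℝ, 0 < c ∧ ∀ μ, μ0 ≤ μ → ∀ (N : ℕ) (Γ : MC N), Nv j Γ →
  (∀ v : Fin (0 + 2) → XN N, (v 0).1 ≠ (v 1).1 → Eg (2 * j)⁻¹ Γ (v 0) (v 1) →
    (IE μ (cpm Γ) 0 v).im = 0 ∧ c ≤ (IE μ (cpm Γ) 0 v).re) ∧
  (∀ v : Fin (1 + 2) → XN N, Gw Γ v → (v 0).1 ≠ (v 1).1 → (v 1).1 = (v 2).1 →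
    Eg (2 * j)⁻¹ Γ (v 0) (v 1) → Eg (2 * j)⁻¹ Γ (v 2) (v 0) →
    (IE μ (cpm Γ) 1 v).im = 0 ∧ (IE μ (cpm Γ) 1 v).re ≤ C / μ * Sk μ Γ v) ∧
  ∀ k ρ a b, Per (2 * π) ρ → (∀ s, 0 ≤ ρ s ∧ ρ s ≤ 1) → a.1 ≠ b.1 → ∃ d : ℝ,
    HasDerivAt (fun ε : ℂ => mc (cpm Γ + ε • bu Γ k ρ) a b) d 0 ∧ |d| ≤ C ∧
    (Eg (2 * j)⁻¹ Γ a b → c * rv k ρ ![a, b] ≤ -d)

def St_PLM : Prop := ∀ j Cb : ℝ, ∃ c C : ℝ, 0 < c ∧ 1 ≤ C ∧ ∀ A, C ≤ A → ∀ (N : ℕ) (Γ : MC N),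
  Nv j Γ → ∃ μ0, ∀ μ, μ0 ≤ μ → ∀ k ρ α n (v : Fin (n + 2) → XN N), Bm Cb (A / μ) α ρ → Gw Γ v →
  (crs v).card = 2 → (∀ i ∈ crs v, Eg (2 * j)⁻¹ Γ (v i) (v (i + 1))) →
  ((if n = 0 then c * μ * rv k ρ v else 0) - C ^ (n + 2) * (μ / A ^ max 1 (n - 1)) * Sk μ Γ v) *
    Real.exp (-(μ * Lc Γ v)) ≤ (2 * (-2) ^ n * dI μ (cpm Γ) (bu Γ k ρ) n v).re

def St_PLA : Prop := ∀ j (N : ℕ) cl (Γ : MC N) r θ δ x y A μ n (v : Fin (n + 2) → XN N),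
  Pd j cl Γ r θ δ x y A μ → wQ cl Γ δ y (A / μ) (n + 2) v ≠ 0 →
  (∀ i, Wn r x (v i) ∨ Wn r y (v i)) ∧ (crs v).card = 2 ∧
  (∀ i ∈ crs v, Eg θ Γ (v i) (v (i + 1))) ∧ ∀ i, (v i).1 = x.1 →
    2 * cm Γ (v i) y - θ * j * ∑ e ∈ (crs v)ᶜ, cm Γ (v e) (v (e + 1)) - 2 * θ * (A / μ) ≤ Lc Γ v

def St_PLI : Prop := ∀ j : ℝ, ∃ C, 1 ≤ C ∧ ∀ (N : ℕ) cl (Γ : MC N) r θ δ x y A μ n,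
  Pd j cl Γ r θ δ x y A μ →
  Integrable (fun v => ‖wQ cl Γ δ y (A / μ) (n + 2) v‖ * (Sk μ Γ v * Real.exp (-(μ * Lc Γ v))))
    (bm N (n + 2)) ∧
  ∫ v, ‖wQ cl Γ δ y (A / μ) (n + 2) v‖ * (Sk μ Γ v * Real.exp (-(μ * Lc Γ v))) ∂bm N (n + 2) ≤
    C ^ (n + 2) * (n + 2) ^ 3 * (A / μ) * Real.exp (2 * θ * A) * Jw μ Γ r x y

def St_PLJ : Prop := ∀ j (N : ℕ) cl (Γ : MC N) r θ δ x y A μ Cb ρ, Pd j cl Γ r θ δ x y A μ →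
  Bm Cb (A / μ) y.2 ρ →
  Real.exp (-(2 * j)) / μ * Real.exp (-(2 * μ * dl cl Γ y)) ≤ Jw μ Γ r x y ∧
  Integrable (fun v => ‖wQ cl Γ δ y (A / μ) (0 + 2) v‖ * (rv y.1 ρ v * Real.exp (-(μ * Lc Γ v))))
    (bm N (0 + 2)) ∧
  A / μ * Real.exp (-(θ * A)) * (Jw μ Γ r x y - 2 * π * Real.exp (-(2 * μ * (dl cl Γ y + δ / 8)))) ≤
    ∫ v, ‖wQ cl Γ δ y (A / μ) (0 + 2) v‖ * (rv y.1 ρ v * Real.exp (-(μ * Lc Γ v))) ∂bm N (0 + 2)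

/-- the lower bound -/
def St_PL : Prop := ∀ j : ℝ, ∃ θ0 > 0, ∀ (N : ℕ) cl (Γ : MC N) r δ x y, Nv j Γ →
  NW cl Γ r θ0 δ x y → ∀ e > 0, ∃ μ0, ∀ μ, μ0 ≤ μ → ∃ ρ, Tb μ e y.2 ρ ∧
    Real.exp (-(2 * μ * dl cl Γ y)) / μ ^ 2 ≤ DX cl μ Γ y.1 ρ

def St_NNE : Prop := ∀ (j : ℝ) (N : ℕ) cl (Γ : MC N) (d θ : ℝ), Nv j Γ → SCq Γ → 0 < θ →
  (∀ x y, cl x.1 ≠ cl y.1 → d ≤ cm Γ x y) → ∃ α, d < α ∧ ∀ x y, Nr0 cl Γ x y → cm Γ x y < α →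
    0 ≤ rdot (gn Γ y) (gp Γ x - gp Γ y) ∧
    (DifferentiableAt ℝ (fun s => dl cl Γ (y.1, s)) y.2 → ∃ r δ, NW cl Γ r θ δ x y)

/-- curves that meet often have equal jets -/
def St_JL0 : Prop := ∀ c g : ℝ → ℂ, ContDiff ℝ ∞ c → ContDiff ℝ ∞ g → (∀ s, ‖deriv g s‖ = 1) →
  {t | deriv c t ≠ 0 ∧ ∃ s, c t = g s ∧ ¬∃ τ : ℝ, (τ = 1 ∨ τ = -1) ∧
    ∀ n, iteratedDeriv n (kp g) s = τ ^ (n + 1) * Dn c n t}.Countable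

def St_JLM : Prop := ∀ j (N : ℕ) l (G : MC N), Gc j l G →
  (∀ i z v, v ≠ 0 → {s | ∃ t : ℝ, scm l G i s = z + t * v}.Countable) ∧
  ∀ i i' r r' (p p' : ℂ × ℂ), ‖p.1‖ = 1 → ‖p'.1‖ = 1 →
    ¬(range (act r p (scm l G i)) ∩ range (act r' p' (scm l G i'))).Countable →
    i = i' ∧ r = r' ∧ p = p'

def St_PARG : Prop := ∀ j (N : ℕ) l (G : MC N) cl k (a b D : ℝ), Gc j l G → (∃ i, cl i ≠ cl k) →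
  a < b → ¬∀ s ∈ Ioo a b, dl cl (scm l G) (k, s) = D

/-- the two distance functions do not agree on an interval -/
def St_P3A : Prop := ∀ j (N : ℕ) l (G : MC N) r p cl k (a b : ℝ), Gc j l G → Gc j l (actm r p G) →
  (∀ i, ‖(p i).1‖ = 1) → (∀ i k, cl i = cl k ↔ r i = r k ∧ pl l p i = pl l p k) →
  (∃ i, cl i ≠ cl k) → a < b → ¬∀ s ∈ Ioo a b,
    dl cl (scm l G) (k, s) = dl cl (scm l (actm r p G)) (k, fl (r k) s) ∧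
    (∀ x, Nr0 cl (scm l G) x (k, s) →
      0 ≤ rdot (gn (scm l G) (k, s)) (gp (scm l G) x - gp (scm l G) (k, s))) ∧
    ∀ x, Nr0 cl (scm l (actm r p G)) x (k, fl (r k) s) →
      0 ≤ rdot (gn (scm l (actm r p G)) (k, fl (r k) s))
        (gp (scm l (actm r p G)) x - gp (scm l (actm r p G)) (k, fl (r k) s))

def St_P3 : Prop := ∀ j (N : ℕ) l (G : MC N) r p cl, Gc j l G → Gc j l (actm r p G) →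
  (∀ i, ‖(p i).1‖ = 1) → (∀ i k, cl i = cl k ↔ r i = r k ∧ pl l p i = pl l p k) →
  (∃ i k, cl i ≠ cl k) → Chn cl r (scm l G) (scm l (actm r p G))

def St_P4 : Prop := ∀ j (N : ℕ) cl r (Γ Γ' : MC N) (μ1 : ℝ) (m : ℕ), Nv j Γ → Nv j Γ' →
  Chn cl r Γ Γ' → ∃ (μ : Fin m → ℕ) (k : Fin m → Fin N) (ρ : Fin m → ℝ → ℝ),
    (∀ a, μ1 ≤ μ a) ∧ (∀ b, Per (2 * π) (ρ b)) ∧ Dt cl r Γ Γ' μ k ρ ≠ 0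

/-- constant speed parametrisation of a perturbed curve -/
def St_RPM : Prop := ∀ (f : Jordan) (m : ℕ) (Z : Fin m → ℝ → ℂ),
  (∀ b, ContDiff ℝ ∞ (Z b) ∧ Function.Periodic (Z b) (2 * π)) → ∃ F : (Fin m → ℝ) → Jordan,
    Tendsto F (𝓝 0) (𝓝 f) ∧ ∀ᶠ t in 𝓝 0, ∃ φ, Up φ ∧ ∀ s, UniformFun.toFun ((F t).1 0) s =
      UniformFun.toFun (f.1 0) (φ s) + ∑ b, t b * Z b (φ s)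

def St_FZ : Prop := ∀ j : ℝ, ∃ μ1 : ℝ, ∀ (N m : ℕ) cl r (μ : Fin m → ℕ) (Γ : MC N) p0 k ρ,
  (∀ a, μ1 ≤ μ a) → Nv j Γ → Nv j (actm r p0 Γ) → (∀ b, Per (2 * π) (ρ b)) →
  Dt cl r Γ (actm r p0 Γ) μ k ρ ≠ 0 → ∃ δ > 0, ∃ c > 0, ∃ L,
    (∀ t t' p, ‖t‖ ≤ δ → ‖t'‖ ≤ δ → ‖p - p0‖ ≤ δ →
      c * ‖t - t'‖ ≤ ‖Fz cl r μ (pert Γ k ρ t) p - Fz cl r μ (pert Γ k ρ t') p‖) ∧
    ∀ Γ1 Γ2 p p', cpm Γ1 ∈ SPm N → cpm Γ2 ∈ SPm N → nmm (cpm Γ1 - cpm Γ) ≤ δ →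
      nmm (cpm Γ2 - cpm Γ) ≤ δ → ‖p - p0‖ ≤ δ → ‖p' - p0‖ ≤ δ →
      ‖Fz cl r μ Γ1 p - Fz cl r μ Γ2 p'‖ ≤ L * (nmm (cpm Γ1 - cpm Γ2) + ‖p - p'‖)

def St_LOCS : Prop := ∀ j : ℝ, ∃ μ1 : ℝ, ∀ (N : ℕ) σ cl r (μ : Fin (4 * N + 1) → ℕ)
  (f : Fin N → Jordan) p0 k ρ, (∀ a, μ1 ≤ μ a) → Nv j (ori σ f) → Nv j (actm r p0 (ori σ f)) →
  (∀ b, Per (2 * π) (ρ b)) → Dt cl r (ori σ f) (actm r p0 (ori σ f)) μ k ρ ≠ 0 →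
  ∃ ε > 0, ∀ U ⊆ Metric.ball p0 ε, f ∉ interior (closure (Bs σ r cl μ U))

def St_TOP : Prop := ∀ N, IsGδ (GP N) ∧ Dense (GP N)

/-- all curves are moved by one motion -/
def St_PM : Prop := ∀ (N : ℕ), ∀ f ∈ GP N, ∀ σ j r p, Gc j (sp f) (uc σ f) →
  Gc j (sp f) (actm r p (uc σ f)) → (∀ i, ‖(p i).1‖ = 1) →
  Cst j (scm (sp f) (uc σ f)) (scm (sp f) (actm r p (uc σ f))) →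
  ∀ i k, r i = r k ∧ pl (sp f) p i = pl (sp f) p k

end Pool.Agent.Lib.IS3
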