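import Pool.Agent.Lib.IS2.K86B
import Pool.Agent.Lib.ISO.B_K42

/-! Definitions for several boundary curves: chains, scaled curves, markers, placements, layer
potentials. -/

open scoped ContDiff ComplexConjugate Topology Real
open Complex MeasureTheory Set Filter

noncomputable section

namespace Pool.Agent.Lib.IS3

open Pool.Agent.Lib.ISO Pool.Agent.Lib.IS2

/-! ## Chains on several curves -/

abbrev XN (N : ℕ) := Fin N × ℝ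
abbrev MC (N : ℕ) := Fin N → ℝ → ℂ
abbrev MQ (N : ℕ) := Fin N → ℝ → C2
abbrev nx (N : ℕ) : Measure (XN N) := Measure.count.prod (volume.restrict (Ioc 0 (2 * π)))
abbrev bm (N n : ℕ) : Measure (Fin n → XN N) := Measure.pi fun _ => nx N
abbrev Wg (N : ℕ) := ∀ n, (Fin n → XN N) → ℂ

section
variable {N : ℕ}

def cpm (Γ : MC N) : MQ N := fun i => cp (Γ i)
def gp (Γ : MC N) (x : XN N) : ℂ := Γ x.1 x.2
def gn (Γ : MC N) (x : XN N) : ℂ := nr (Γ x.1) x.2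
def cm (Γ : MC N) (x y : XN N) : ℝ := ‖gp Γ x - gp Γ y‖
def mn (P : MQ N) (x : XN N) : C2 := pn (P x.1) x.2
def mD (P : MQ N) (x y : XN N) : C2 := P y.1 y.2 - P x.1 x.2
def mc (P : MQ N) (x y : XN N) : ℂ := dot (mD P x y) (mD P x y) ^ (1 / 2 : ℂ)
def mS (μ : ℂ) (P : MQ N) (x y : XN N) : ℂ := K0 (μ * mc P x y) / (2 * π)
def mK (μ : ℂ) (P : MQ N) (x y : XN N) : ℂ :=
  L1 (μ * mc P x y) * dot (mn P y) (mD P x y) / (2 * π * dot (mD P x y) (mD P x y))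
def mKd (μ : ℂ) (P : MQ N) (x y : XN N) : ℂ :=
  -(K0 (μ * mc P x y) * dot (mn P y) (mD P x y)) / (4 * π)
def mNd (μ : ℂ) (P : MQ N) (x y : XN N) : ℂ :=
  -(K0 (μ * mc P x y) * dot (mn P x) (mn P y)) / (4 * π) +
    L1 (μ * mc P x y) * dot (mn P x) (mD P x y) * dot (mn P y) (mD P x y) /
      (4 * π * dot (mD P x y) (mD P x y))

/-- the integrand of the chain with `n + 2` vertices -/
def IM (μ : ℂ) (P : MQ N) (n : ℕ) (v : Fin (n + 2) → XN N) : ℂ :=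
  (∏ i : Fin n, mK μ P (v i.castSucc.castSucc) (v i.succ.castSucc)) *
    (mS μ P (v (Fin.last n).castSucc) (v (Fin.last (n + 1))) * mNd μ P (v (Fin.last (n + 1))) (v 0) -
      2 * mK μ P (v (Fin.last n).castSucc) (v (Fin.last (n + 1))) *
        mKd μ P (v (Fin.last (n + 1))) (v 0))
def Tc (w : Wg N) (μ : ℂ) (P : MQ N) (n : ℕ) : ℂ := ∫ v, w (n + 2) v * IM μ P n v ∂bm N (n + 2)
def TW (w : Wg N) (μ : ℂ) (P : MQ N) : ℂ := ∑' n, 2 * (-2) ^ n * Tc w μ P n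
def TM (μ : ℂ) (P : MQ N) : ℂ := TW (fun _ _ => 1) μ P
/-- bounded measurable periodic weight -/
def Wm (w : Wg N) : Prop := ∀ n, Measurable (w n) ∧ (∀ v, ‖w n v‖ ≤ 1) ∧
  ∀ v (k : Fin n → ℤ), w n (fun i => ((v i).1, (v i).2 + k i * (2 * π))) = w n v
def Gw (Γ : MC N) {n : ℕ} (v : Fin (n + 2) → XN N) : Prop := ∀ i, gp Γ (v i) ≠ gp Γ (v (i + 1))
def elm (Γ : MC N) {n : ℕ} (v : Fin (n + 2) → XN N) : ℝ := ∑ i, cm Γ (v i) (v (i + 1))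
def ecm (P : MQ N) {n : ℕ} (v : Fin (n + 2) → XN N) : ℂ := ∑ i, mc P (v i) (v (i + 1))
def Mm (o : ℝ) (Γ : MC N) (n : ℕ) (v : Fin (n + 2) → XN N) : ℝ :=
  (∏ i : Fin n, (1 + √(o * cm Γ (v i.castSucc.castSucc) (v i.succ.castSucc)))) *
    (√o * cm Γ (v (Fin.last n).castSucc) (v (Fin.last (n + 1))) ^ (-(1 / 4) : ℝ) *
      cm Γ (v (Fin.last (n + 1))) (v 0) ^ (-(1 / 4) : ℝ) +
      (1 + √(o * cm Γ (v (Fin.last n).castSucc) (v (Fin.last (n + 1))))))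

/-- regular disjoint curves with bounded geometry -/
structure Nv (j : ℝ) (Γ : MC N) : Prop where
  one_le : 1 ≤ j
  card : (N : ℝ) ≤ j
  smooth : ∀ i, ContDiff ℝ ∞ (Γ i)
  per : ∀ i, Function.Periodic (Γ i) (2 * π)
  b1 : ∀ i s, ‖deriv (Γ i) s‖ ≤ j
  b2 : ∀ i s, ‖deriv (deriv (Γ i)) s‖ ≤ j
  arc : ∀ i s t, dc s t ≤ j * ‖Γ i s - Γ i t‖
  sep : ∀ i k s t, i ≠ k → 1 ≤ j * ‖Γ i s - Γ k t‖
  diam : ∀ i k s t, ‖Γ i s - Γ k t‖ ≤ j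

def Admm (j B : ℝ) (Γ : MC N) (ϖ : ℝ) (P : MQ N) : Prop :=
  (∀ i, Adm j B (Γ i) ϖ (P i)) ∧ ∀ i k : Fin N, i ≠ k → ϖ ≤ (80 * j)⁻¹
def SPm (N : ℕ) : Submodule ℂ (MQ N) := Submodule.pi univ fun _ => SP
def nmm (Q : MQ N) : ℝ := ∑ i, nm (Q i)
/-- derivative of the integrand in the direction `y` -/
def dI (μ : ℂ) (P y : MQ N) (n : ℕ) (v : Fin (n + 2) → XN N) : ℂ :=
  deriv (fun ε : ℂ => IM μ (P + ε • y) n v) 0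
/-- the traces differ by a constant -/
def Cst {N' : ℕ} (j : ℝ) (Γ : MC N) (Γ' : MC N') : Prop :=
  ∃ c : ℂ, ∀ μ : ℝ, j ≤ μ → TM μ (cpm Γ) - TM μ (cpm Γ') = c

open Classical in
/-- the chain visits two clusters -/
def wX (cl : Fin N → Fin N) : Wg N := fun _ v => if ∃ a b, cl (v a).1 ≠ cl (v b).1 then 1 else 0
open Classical in
/-- the chain has a vertex on the curve `k` with parameter in `S` -/
def wH (k : Fin N) (S : Set ℝ) : Wg N := fun _ v => if ∃ a, (v a).1 = k ∧ (v a).2 ∈ S then 1 else 0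

end

def N1 (j : ℝ) (γ : ℝ → ℂ) : Prop := Nv j fun _ : Fin 1 => γ
def T1 (w : ∀ n, (Fin n → ℝ) → ℂ) (μ : ℂ) (P : ℝ → C2) : ℂ := ∑' n, 2 * (-2) ^ n * Tn w μ P n
def F1 (q : ℕ) (h : ℝ) (w : ∀ n, (Fin n → ℝ) → ℂ) (P : ℝ → C2) : ℂ := FF q h fun μ => T1 w μ P

/-- smooth regular disjoint simple closed curves -/
structure Rc {N : ℕ} (Γ : MC N) : Prop where
  smooth : ∀ i, ContDiff ℝ ∞ (Γ i)
  per : ∀ i, Function.Periodic (Γ i) (2 * π)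
  reg : ∀ i s, deriv (Γ i) s ≠ 0
  inj : ∀ x y, gp Γ x = gp Γ y → x.1 = y.1 ∧ ∃ k : ℤ, y.2 = x.2 + k * (2 * π)
/-- increasing change of parameter -/
def Up (φ : ℝ → ℝ) : Prop :=
  ContDiff ℝ 1 φ ∧ (∀ s, 0 < deriv φ s) ∧ ∀ s, φ (s + 2 * π) = φ s + 2 * π
def yk {K : ℕ} (φ : Fin K → ℝ → ℝ) (Z : ℝ → ℂ) (k : Fin K) (s : ℝ) : C2 := φ k s • cp Z s
def ws {K : ℕ} (φ : Fin K → ℝ → ℝ) (F : Finset (Fin K × Fin K)) (s t : ℝ) : ℝ :=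
  ∑ p ∈ F, φ p.1 s * φ p.2 t

/-! ## Scaled curves -/

def sc (l : ℝ) (G : ℝ → ℂ) (s : ℝ) : ℂ := l * G s
def scm {N : ℕ} (l : Fin N → ℝ) (G : MC N) : MC N := fun i => sc (l i) (G i)
structure Ns (j l : ℝ) (G : ℝ → ℂ) : Prop where
  nc : Nc j G
  lo : j⁻¹ ≤ l
  hi : l ≤ j
  n1 : N1 j (sc l G)
/-- change of parameter with smooth inverse -/
structure Rp (ψ χ : ℝ → ℝ) : Prop where
  s1 : ContDiff ℝ ∞ ψ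
  s2 : ContDiff ℝ ∞ χ
  l : ∀ u, χ (ψ u) = u
  r : ∀ u, ψ (χ u) = u
  p1 : ∀ u, 0 < deriv ψ u
  p2 : ∀ u, 0 < deriv χ u
  a1 : ∀ u, ψ (u + 2 * π) = ψ u + 2 * π
  a2 : ∀ u, χ (u + 2 * π) = χ u + 2 * π
/-- a Jordan domain of length `2π` whose boundary contains an arc of the scaled curve -/
def Cp (j l : ℝ) (G : ℝ → ℂ) (β : ℝ) : Prop := ∃ Ω H η ψ χ, ∃ c : ℝ, Dg Ω H η ∧ Nc j H ∧ Rp ψ χ ∧
  N1 j (fun u => H (ψ u)) ∧ ∀ u, |u - β| ≤ j⁻¹ → H (ψ u) = sc l G u ∧ ψ u = l * u + c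
def Cm (j l : ℝ) (G : ℝ → ℂ) : Prop := ∀ β, Cp j l G β
structure Sd {N : ℕ} (j : ℝ) (l : Fin N → ℝ) (G : MC N) : Prop where
  nv : Nv j (scm l G)
  ns : ∀ i, Ns j (l i) (G i)
  cm : ∀ i, Cm j (l i) (G i)

def PzL (l : ℝ) (P : ℂ → C2) (p : ℝ → C2) (b : ℝ → ℝ) (ζ : ℂ) (s : ℝ) : C2 :=
  (l : ℂ) • P (s + ζ * b s) + p s
def GainL (j : ℝ) (q : ℕ) (h C α : ℝ) (P : ℝ → C2) : Prop := ∀ s t, |s - α| ≤ 20 * j * Tt q h →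
  |t - α| ≤ 20 * j * Tt q h → vt q h * |t - s| / j - C / om q h ≤ -(pc P s t).im
structure Wf0 (e : ℝ) (w : ℝ → ℝ → ℝ) : Prop where
  cont : Continuous (Function.uncurry w)
  p1 : ∀ s t, w (s + 2 * π) t = w s t
  p2 : ∀ s t, w s (t + 2 * π) = w s t
  nn : ∀ s t, 0 ≤ w s t
  le : ∀ s t, w s t ≤ 1
  zero : ∀ s t, dc s t ≤ e → w s t = 0
def WfL (j : ℝ) (q : ℕ) (h : ℝ) (w : ℝ → ℝ → ℝ) : Prop := Wf0 (j * Tt q h / (2 * h)) w ∧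
  ∀ s t, 2 * j * Tt q h / h ≤ dc s t → dc s t ≤ (16 * j)⁻¹ → w s t = 1
def uwL (l : ℝ) (w : ℝ → ℝ → ℝ) (ρ κ : ℝ → ℝ) (n : ℕ) (z : ℝ × ℝ) : ℝ :=
  l ^ 2 * (w z.1 (z.1 + z.2) * (ρ z.1 * ρ (z.1 + z.2)) *
    (κ z.1 ^ n * (l * |z.2|) ^ (3 * (n : ℝ) / 2 - 3)))
/-- the model of the second variation -/
def Mo (q : ℕ) (h l : ℝ) (m : ℕ) (w : ℝ → ℝ → ℝ) (ρ κ : ℝ → ℝ) : ℂ :=
  ∑ n ∈ Finset.range (2 * m + 1), (EXP.cn m n : ℂ) *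
    ∫ z, uwL l w ρ κ n z * Mp q h n (l * |z.2|) ∂EXP.bx
def Er (p q : ℕ) (h R : ℝ) : ℝ :=
  (eps p h * h ^ 6 + Real.exp (-(h ^ 4 / 2)) * h ^ 4) * (R * (om q h / Tt q h ^ 2))
def kh (l : ℝ) (k : ℝ → ℝ) (s : ℝ) : ℝ := k s / l
/-- curvature in arc length -/
def ph (l : ℝ) (k : ℝ → ℝ) (s : ℝ) : ℝ := k (s / l) / l

/-! ## Tones -/

def tnn (M W n : ℕ) (a : ℂ) (s : ℝ) : ℝ := 2 * amp M W * (a * exp (I * n * s)).re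
structure Ton1 (M : ℕ) (K : ℝ) (W n : ℕ) (a : ℂ) (κ : ℝ → ℝ) : Prop where
  l2 : ∫ s in (0 : ℝ)..(2 * π), (iteratedDeriv (2 * M + 4) κ s -
    (-1) ^ M * (n : ℝ) ^ (2 * M + 4) * tnn M W n a s) ^ 2 ≤ K * XX M W ^ 2 / W
  sup : ∀ b ≤ 2 * M + 3, ∀ s, |iteratedDeriv b κ s| ≤ K * lam M W ^ (b - 2)
  b0 : ‖a‖ ≤ K
def nq (l : ℝ) (W : ℕ) : ℕ := ⌊l * (W : ℝ) ^ 2 + 1 / 2⌋₊
structure Cl {N : ℕ} (j : ℝ) (l : Fin N → ℝ) (k : Fin N → ℝ → ℝ) : Prop where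
  one_le : 1 ≤ j
  card : (N : ℝ) ≤ j
  per : ∀ i, Per (2 * π) (k i)
  bk : ∀ i, Bk j (k i)
  lo : ∀ i, j⁻¹ ≤ l i
  hi : ∀ i, l i ≤ j

/-- the frequency `n` matches the scale `l` -/
structure Nq (j l : ℝ) (W n : ℕ) : Prop where
  lo : j⁻¹ ≤ l
  hi : l ≤ j
  nr : |(n : ℝ) - l * (W : ℝ) ^ 2| ≤ 1
structure Cz {N : ℕ} (j B : ℝ) (l : Fin N → ℝ) (z : Fin N → ℤ → ℂ) : Prop where
  one_le : 1 ≤ j
  card : (N : ℝ) ≤ j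
  sq : ∀ i, Sq (z i)
  an : ∀ i, An (z i) ≤ B
  lo : ∀ i, j⁻¹ ≤ l i
  hi : ∀ i, l i ≤ j

section
variable {N N' : ℕ}
def IvM (m : ℕ) (l : Fin N → ℝ) (z : Fin N → ℤ → ℂ) : ℝ := ∑ i, Iv m (z i) / l i ^ (2 * m + 1)
def TmM (m : ℕ) (l : Fin N → ℝ) (z : Fin N → ℤ → ℂ) : ℝ := ∑ i, Tm (m - 1) (z i) / l i ^ (2 * m + 1)
def InvM (C : ℕ → ℝ) (B : ℝ) (l : Fin N → ℝ) (z : Fin N → ℤ → ℂ) (l' : Fin N' → ℝ)
    (z' : Fin N' → ℤ → ℂ) : Prop := ∀ m, 2 ≤ m →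
  |IvM m l z - IvM m l' z'| ≤ C m * B ^ (2 * m + 2) * (TmM m l z + TmM m l' z')
def InvB (C : ℕ → ℝ) (l : Fin N → ℝ) (k : Fin N → ℝ → ℝ) (l' : Fin N' → ℝ)
    (k' : Fin N' → ℝ → ℝ) : Prop := ∀ B, 1 ≤ B → (∀ i, An (fc (k i)) ≤ B) →
  (∀ i, An (fc (k' i)) ≤ B) → InvM C B l (fun i => fc (k i)) l' fun i => fc (k' i)
/-- a marker on the curve `i`, silence on the others -/
def Mkm (M W : ℕ) (i : Fin N) (a : ℤ → ℂ) (z : Fin N → ℤ → ℂ) : Prop :=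
  ∀ k, Mk M W (if k = i then a else 0) (z k)
def Gmm (W0 : ℕ → ℕ → ℕ) (z : Fin N → ℤ → ℂ) : Prop := ∀ (j : ℕ) (i : Fin N) (l : ℤ →₀ ℚ × ℚ),
  Env j (ra l) → ∃ M W, j ≤ M ∧ W0 j M ≤ W ∧ Mkm M W i (ra l) z
end

def ce (l : ℝ) (W : ℕ) (ξ : ℤ) : ℝ := |(ξ : ℝ)| / l - (W : ℝ) ^ 2
def yl (l : ℝ) (W : ℕ) (ξ : ℤ) : ℝ := (ξ : ℝ) ^ 2 / (l ^ 2 * (W : ℝ) ^ 4)
def NrL (l : ℝ) (W : ℕ) (z : ℤ → ℂ) : ℝ := ∑' ξ : ℤ,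
  if 2 * |ce l W ξ| ≤ (W : ℝ) ^ 2 then (1 + ce l W ξ ^ 2) * ‖z ξ‖ ^ 2 else 0
def JkL (m : ℕ) (l : ℝ) (W : ℕ) (z : ℤ → ℂ) : ℝ := ∑' ξ : ℤ,
  if (W : ℤ) < |ξ| ∧ (W : ℝ) ^ 2 < 2 * |ce l W ξ| then
    (yl l W ξ ^ m + yl l W ξ ^ (m + 4)) * ‖z ξ‖ ^ 2 else 0
def HiL (e : ℕ) (l : ℝ) (W : ℕ) (z : ℤ → ℂ) : ℝ := ∑' ξ : ℤ,
  if (W : ℤ) < |ξ| then yl l W ξ ^ e * ‖z ξ‖ ^ 2 else 0
def winL (l : ℝ) (W : ℕ) : Finset ℤ :=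
  Finset.Icc ⌈l * ((W : ℝ) ^ 2 - W)⌉ ⌊l * ((W : ℝ) ^ 2 + W)⌋
def momL (e : ℕ) (l : ℝ) (W : ℕ) (A : ℝ) (z : ℤ → ℂ) : ℝ :=
  (∑ ξ ∈ winL l W, ce l W ξ ^ e * ‖z ξ‖ ^ 2) / A ^ 2
def qfL (l : ℝ) (W : ℕ) (A : ℝ) (z : ℤ → ℂ) : ℝ :=
  (∑ ξ ∈ winL l W, ∑ ξ' ∈ winL l W, z ξ * conj (z ξ') * cv z z (ξ' - ξ)).re / A ^ 2
def erL (m : ℕ) (l : ℝ) (W : ℕ) (z : ℤ → ℂ) : ℝ :=
  (W : ℝ)⁻¹ * (NrL l W z / (W : ℝ) ^ 4 + JkL m l W z) + ((W : ℝ) ^ (2 * m))⁻¹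
def qL (m : ℕ) (l : ℝ) (W : ℕ) (A : ℝ) (z : ℤ → ℂ) : K4.Q where
  e k := K4.fd (fun i => HiL (m + i) l W z) k / A ^ 2
  m e := momL e l W A z
  n := NrL l W z / A ^ 2
  j := JkL m l W z / A ^ 2

/-! ## Branches and jets -/

/-- one branch of the inverse -/
def Bq (κ : ℝ → ℝ) (a b : ℝ) (s : ℝ → ℝ) : Prop := ∀ c ∈ Ioo a b,
  κ (s c) = c ∧ deriv κ (s c) ≠ 0 ∧ HasDerivAt s (deriv κ (s c))⁻¹ c
/-- the outcome of testing a branch of `κ` against branches of the functions in `F` -/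
def TsM (κ : ℝ → ℝ) (F : Set ((ℝ → ℝ) × ℝ)) (j : ℕ) : Prop :=
  ∀ (a b c1 c2 : ℝ) (n : ℕ) (s0 : ℝ → ℝ) (s g : Fin n → ℝ → ℝ) (l w : Fin n → ℝ), Bq κ a b s0 →
    (∀ k, (g k, l k) ∈ F ∧ Bq (g k) a b (s k) ∧ |w k| ≤ j) →
    (∀ x ∈ Ioo a b, sl κ (s0 x) = ∑ k, w k * sl (g k) (s k x)) → n ≤ j → a < c1 → c1 < c2 → c2 < b →
    (∀ x ∈ Icc c1 c2, sl κ (s0 x) ≤ j ∧ ∀ k, sl (g k) (s k x) ≤ j ∧
      (j : ℝ)⁻¹ ≤ |l k * sl (g k) (s k x) - sl κ (s0 x)|) → c2 - c1 ≤ (j : ℝ)⁻¹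
/-- weighted equality of moments -/
def MoM {N : ℕ} (κ : ℝ → ℝ) (m : Fin N → ℝ) (g : Fin N → ℝ → ℝ) : Prop := (∀ a, 0 ≤ m a) ∧
  ∀ p : ℕ, ∫ s in (0 : ℝ)..(2 * π), κ s ^ p = ∑ a, m a * ∫ s in (0 : ℝ)..(2 * π), g a s ^ p
/-- a dense set of germs of `κ` occurs among the functions `g a` -/
def Ger {N : ℕ} (κ : ℝ → ℝ) (g : Fin N → ℝ → ℝ) : Prop := ∀ s ε : ℝ, 0 < ε →
  ∃ a, ∃ τ β u0 δ : ℝ, (τ = 1 ∨ τ = -1) ∧ 0 < δ ∧ |u0 - s| < ε ∧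
    ∀ u, |u - u0| < δ → g a (τ * u + β) = κ u
def Eqj (κ : ℝ → ℝ) (s : ℝ) (κ' : ℝ → ℝ) (t : ℝ) : Prop :=
  κ s = κ' t ∧ ∀ n, 1 ≤ n → |iteratedDeriv n κ s| = |iteratedDeriv n κ' t|
/-- jets of the curvature of the parallel curve at distance `d` -/
def Pn (d : ℝ) (κ : ℝ → ℝ) : ℕ → ℝ → ℝ
  | 0 => fun t => κ t / (1 - d * κ t)
  | n + 1 => fun t => deriv (Pn d κ n) t / (1 - d * κ t)
/-- jets in arc length of the curvature of a regular curve -/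
def Dn (c : ℝ → ℂ) : ℕ → ℝ → ℝ
  | 0 => fun t => kp c t / ‖deriv c t‖ ^ 3
  | n + 1 => fun t => deriv (Dn c n) t / ‖deriv c t‖

theorem Pn.rlz : True := by
  have := @Pn.eq_def
  trivial

theorem Dn.rlz : True := by
  have := @Dn.eq_def
  trivial

/-- the generic properties of the curvature functions, of periods `L i` -/
structure GJ {N : ℕ} (κ : Fin N → ℝ → ℝ) (L : Fin N → ℝ) : Prop where
  pos : ∀ i, 0 < L i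
  per : ∀ i, Per (L i) (κ i)
  fin : ∀ i c, {t ∈ Icc 0 (L i) | κ i t = c}.Finite
  jet : ∀ i s t, (∀ n, 1 ≤ n → |iteratedDeriv n (κ i) s| = |iteratedDeriv n (κ i) t|) →
    ∃ m : ℤ, t = s + m * L i
  flat : ∀ i s, ∃ n, 1 ≤ n ∧ iteratedDeriv n (κ i) s ≠ 0
  par : ∀ i k, i ≠ k → ∀ d s t, 1 - d * κ k t ≠ 0 →
    ∃ n, |iteratedDeriv n (κ i) s| ≠ |Pn d (κ k) n t|
def GG {N : ℕ} (l : Fin N → ℝ) (G : MC N) : Prop :=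
  GJ (fun i => ph (l i) (kp (G i))) fun i => 2 * π * l i

/-! ## Placements -/

def fl (r : Bool) (s : ℝ) : ℝ := if r then -s else s
def mo (r : Bool) (p : ℂ × ℂ) (z : ℂ) : ℂ := p.1 * (if r then conj z else z) + p.2
def act (r : Bool) (p : ℂ × ℂ) (γ : ℝ → ℂ) (s : ℝ) : ℂ := mo r p (γ (fl r s))
def rk (x : ℝ) : ℝ := (x ^ (-(1 / 4) : ℝ) + 1 + x ^ 3) * Real.exp (-(x / 4))

section
variable {N : ℕ}
def actm (r : Fin N → Bool) (p : Fin N → ℂ × ℂ) (Γ : MC N) : MC N := fun i => act (r i) (p i) (Γ i)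
/-- distance to the other clusters -/
def dl (cl : Fin N → Fin N) (Γ : MC N) (y : XN N) : ℝ :=
  Metric.infDist (gp Γ y) {z | ∃ x : XN N, cl x.1 ≠ cl y.1 ∧ z = gp Γ x}
/-- `x` is a nearest point of the other clusters -/
def Nr0 (cl : Fin N → Fin N) (Γ : MC N) (x y : XN N) : Prop :=
  cl x.1 ≠ cl y.1 ∧ cm Γ x y = dl cl Γ y
def Wn (r : ℝ) (x z : XN N) : Prop := z.1 = x.1 ∧ dc z.2 x.2 ≤ r
/-- the chord is almost normal and leaves on the inner side at both ends -/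
def Eg (θ : ℝ) (Γ : MC N) (a b : XN N) : Prop :=
  |rdot (deriv (Γ a.1) a.2) (gp Γ a - gp Γ b)| ≤ θ * cm Γ a b ∧
  |rdot (deriv (Γ b.1) b.2) (gp Γ a - gp Γ b)| ≤ θ * cm Γ a b ∧
  0 ≤ rdot (gn Γ b) (gp Γ a - gp Γ b) ∧ 0 ≤ rdot (gn Γ a) (gp Γ b - gp Γ a)
/-- the windows at a nearest pair -/
structure NW (cl : Fin N → Fin N) (Γ : MC N) (r θ δ : ℝ) (x y : XN N) : Prop where
  r0 : 0 < r
  r1 : r ≤ 1
  d0 : 0 < δ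
  near : Nr0 cl Γ x y
  ell : ∀ a z : XN N, cl a.1 ≠ cl y.1 → cm Γ z a + cm Γ z y ≤ dl cl Γ y + δ → Wn r x z ∨ Wn r y z
  ang : ∀ a b : XN N, Wn r x a → Wn r y b → Eg θ Γ a b
/-- free segments between different curves leave on the inner side -/
def SCq (Γ : MC N) : Prop := ∀ x y : XN N, x.1 ≠ y.1 →
  (∀ z ∈ openSegment ℝ (gp Γ x) (gp Γ y), ∀ a, z ≠ gp Γ a) → 0 ≤ rdot (gn Γ x) (gp Γ y - gp Γ x)
/-- generic configuration -/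
structure Gc (j : ℝ) (l : Fin N → ℝ) (G : MC N) : Prop where
  sd : Sd j l G
  gg : GG l G
  sc : SCq (scm l G)
/-- the placement of the scaled curves -/
def pl (l : Fin N → ℝ) (p : Fin N → ℂ × ℂ) (i : Fin N) : ℂ × ℂ := ((p i).1, l i * (p i).2)
/-- normal displacement of the curve `k` -/
def bu (Γ : MC N) (k : Fin N) (ρ : ℝ → ℝ) : MQ N := Pi.single k (nl (Γ k) ρ)
def DX (cl : Fin N → Fin N) (μ : ℝ) (Γ : MC N) (k : Fin N) (ρ : ℝ → ℝ) : ℝ :=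
  (D1 (TW (wX cl) μ) (cpm Γ) (bu Γ k ρ)).re
def Dd (cl : Fin N → Fin N) (r : Fin N → Bool) (μ : ℝ) (Γ Γ' : MC N) (k : Fin N) (ρ : ℝ → ℝ) : ℝ :=
  DX cl μ Γ k ρ - DX cl μ Γ' k fun s => ρ (fl (r k) s)
def fx (r : Fin N → Bool) (y : XN N) : XN N := (y.1, fl (r y.1) y.2)
/-- points at which the two distances differ, with distances decreasing to `d` -/
def Chn (cl : Fin N → Fin N) (r : Fin N → Bool) (Γ Γ' : MC N) : Prop := ∃ d : ℝ, ∀ θ α : ℝ,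
  0 < θ → d < α → ∃ y : XN N,
    (d < dl cl Γ y ∧ dl cl Γ y < α ∧ dl cl Γ y < dl cl Γ' (fx r y) ∧
      ∃ x ρ δ, NW cl Γ ρ θ δ x y) ∨
    (d < dl cl Γ' (fx r y) ∧ dl cl Γ' (fx r y) < α ∧ dl cl Γ' (fx r y) < dl cl Γ y ∧
      ∃ x ρ δ, NW cl Γ' ρ θ δ x (fx r y))
/-- edges between different curves -/
def crs {n : ℕ} (v : Fin (n + 2) → XN N) : Finset (Fin (n + 2)) :=
  Finset.univ.filter fun i => (v i).1 ≠ (v (i + 1)).1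
def Lc (Γ : MC N) {n : ℕ} (v : Fin (n + 2) → XN N) : ℝ := ∑ i ∈ crs v, cm Γ (v i) (v (i + 1))
/-- majorant of the short edges -/
def Sk (μ : ℝ) (Γ : MC N) {n : ℕ} (v : Fin (n + 2) → XN N) : ℝ :=
  ∏ i ∈ (crs v)ᶜ, μ * rk (μ * cm Γ (v i) (v (i + 1))) *
    Real.exp (-(μ * cm Γ (v i) (v (i + 1)) / 2))
open Classical in
/-- short chains through two clusters and the set `S` on the curve `k` -/
def wP (cl : Fin N → Fin N) (Γ : MC N) (k : Fin N) (S : Set ℝ) (L : ℝ) : Wg N := fun n v =>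
  match n, v with
  | _ + 2, v => if elm Γ v ≤ L then wX cl _ v * wH k S _ v else 0
  | _, _ => 0
/-- bump of height one and width `e` -/
structure Bm (C e α : ℝ) (ρ : ℝ → ℝ) : Prop where
  per : Per (2 * π) ρ
  nn : ∀ s, 0 ≤ ρ s
  le : ∀ s, ρ s ≤ 1
  one : ∀ s, dc s α ≤ e / 2 → ρ s = 1
  zero : ∀ s, e ≤ dc s α → ρ s = 0
  b1 : ∀ s, |deriv ρ s| ≤ C / e
  b2 : ∀ s, |deriv (deriv ρ) s| ≤ C / e ^ 2
/-- test function near `α` -/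
structure Tb (μ e α : ℝ) (ρ : ℝ → ℝ) : Prop where
  per : Per (2 * π) ρ
  zero : ∀ s, e ≤ dc s α → ρ s = 0
  b0 : ∀ s, |ρ s| ≤ 1
  b1 : ∀ s, |deriv ρ s| ≤ μ ^ 2
  b2 : ∀ s, |deriv (deriv ρ) s| ≤ μ ^ 2
def rv (k : Fin N) (ρ : ℝ → ℝ) {n : ℕ} (v : Fin n → XN N) : ℝ :=
  ∑ i, if (v i).1 = k then ρ (v i).2 else 0
def Jw (μ : ℝ) (Γ : MC N) (r : ℝ) (x y : XN N) : ℝ :=
  ∫ a, {a | Wn r x a}.indicator (fun a => Real.exp (-(2 * μ * cm Γ a y))) a ∂nx N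
/-- the data of the lower bound -/
structure Pd (j : ℝ) (cl : Fin N → Fin N) (Γ : MC N) (r θ δ : ℝ) (x y : XN N) (A μ : ℝ) : Prop where
  nv : Nv j Γ
  nw : NW cl Γ r θ δ x y
  t1 : θ * j ≤ 1 / 8
  d1 : δ ≤ j⁻¹
  m1 : 1 ≤ μ
  a1 : 1 ≤ A
  a2 : A / μ ≤ r
  a3 : 4 * j * (A / μ) ≤ δ
def wQ (cl : Fin N → Fin N) (Γ : MC N) (δ : ℝ) (y : XN N) (e : ℝ) : Wg N :=
  wP cl Γ y.1 {s | dc s y.2 < e} (2 * dl cl Γ y + δ / 2)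
def ori (σ : Fin N → Bool) (f : Fin N → Jordan) : MC N :=
  fun i s => UniformFun.toFun ((f i).1 0) (fl (σ i) s)
/-- speeds and unit speed curves -/
def sp (f : Fin N → Jordan) (i : Fin N) : ℝ := ‖UniformFun.toFun ((f i).1 1) 0‖
def uc (σ : Fin N → Bool) (f : Fin N → Jordan) : MC N := fun i s => ori σ f i s / sp f i
def Fz (cl : Fin N → Fin N) (r : Fin N → Bool) {m : ℕ} (μ : Fin m → ℕ) (Γ : MC N)
    (p : Fin N → ℂ × ℂ) (a : Fin m) : ℝ :=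
  (TW (wX cl) (μ a) (cpm Γ)).re - (TW (wX cl) (μ a) (cpm (actm r p Γ))).re
def pert (Γ : MC N) {m : ℕ} (k : Fin m → Fin N) (ρ : Fin m → ℝ → ℝ) (t : Fin m → ℝ) : MC N :=
  fun i s => Γ i s + ∑ b, t b * if k b = i then ρ b s * nr (Γ i) s else 0
def Dt (cl : Fin N → Fin N) (r : Fin N → Bool) (Γ Γ' : MC N) {m : ℕ} (μ : Fin m → ℕ)
    (k : Fin m → Fin N) (ρ : Fin m → ℝ → ℝ) : ℝ :=
  (Matrix.of fun a b => Dd cl r (μ a) Γ Γ' (k b) (ρ b)).det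
def Bs (σ r : Fin N → Bool) (cl : Fin N → Fin N) {m : ℕ} (μ : Fin m → ℕ)
    (U : Set (Fin N → ℂ × ℂ)) : Set (Fin N → Jordan) := {f | ∃ p ∈ U, Fz cl r μ (ori σ f) p = 0}
end

def GP (N : ℕ) : Set (Fin N → Jordan) := {f | ∀ σ r cl (μ : Fin (4 * N + 1) → ℕ),
  ∀ U ∈ TopologicalSpace.countableBasis (Fin N → ℂ × ℂ), f ∉ frontier (closure (Bs σ r cl μ U))}

/-! ## Potential theory for real `μ` -/

section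
variable {N : ℕ}
def CPm (φ : XN N → ℝ) : Prop := Continuous φ ∧ ∀ x : XN N, φ (x.1, x.2 + 2 * π) = φ x
def dm (x y : XN N) : ℝ := if x.1 = y.1 then dc x.2 y.2 else 1

/-- a domain bounded by regular curves, with the divergence theorem -/
structure CDm (Ω : Set ℂ) (Γ : MC N) : Prop where
  opn : IsOpen Ω
  bdd : Bornology.IsBounded Ω
  smooth : ∀ i, ContDiff ℝ ∞ (Γ i)
  per : ∀ i, Function.Periodic (Γ i) (2 * π)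
  reg : ∀ i s, deriv (Γ i) s ≠ 0
  inj : ∀ x y, gp Γ x = gp Γ y → x.1 = y.1 ∧ ∃ k : ℤ, y.2 = x.2 + k * (2 * π)
  fr : frontier Ω = range (gp Γ)
  side : ∀ x, ∃ δ > 0, ∀ r : ℝ, 0 < r → r < δ →
    gp Γ x + r * gn Γ x ∈ Ω ∧ gp Γ x - r * gn Γ x ∉ closure Ω
  div : ∀ X : ℂ → ℂ, ContDiff ℝ 1 X → ∫ z in Ω, ((fderiv ℝ X z 1).re + (fderiv ℝ X z I).im) =
    ∫ x, rdot (X (gp Γ x)) (-gn Γ x) ∂nx N

variable (μ : ℝ) (Γ : MC N)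
def DLx (z : ℂ) (y : XN N) : ℝ := DLk μ (Γ y.1) z y.2
def Krm (x y : XN N) : ℝ := if x.1 = y.1 then Kr μ (Γ y.1) x.2 y.2 else DLx μ Γ (gp Γ x) y
def Srm (x y : XN N) : ℝ := Gr μ (gp Γ x - gp Γ y)
def Kdm (x y : XN N) : ℝ := -(k0 (μ * cm Γ x y) * rdot (-gn Γ y) (gp Γ y - gp Γ x)) / (4 * π)
def Ndm (x y : XN N) : ℝ := -(k0 (μ * cm Γ x y) * rdot (gn Γ x) (gn Γ y)) / (4 * π) +
  l1 (μ * cm Γ x y) * rdot (gn Γ x) (gp Γ y - gp Γ x) * rdot (gn Γ y) (gp Γ y - gp Γ x) /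
    (4 * π * cm Γ x y ^ 2)
def Kpm : ℕ → XN N → XN N → ℝ
  | 0 => Krm μ Γ
  | n + 1 => fun x y => ∫ u, Kpm n x u * Krm μ Γ u y ∂nx N
def Phm (x y : XN N) : ℝ := ∑' n, 2 * (-2) ^ (n + 1) * Kpm μ Γ n x y
def Lmm (x y : XN N) : ℝ := ∫ u, (Srm μ Γ x u * Ndm μ Γ u y - 2 * Krm μ Γ x u * Kdm μ Γ u y) ∂nx N
def Hom (φ : XN N → ℝ) (x : XN N) : ℝ := 2 * φ x + ∫ y, Phm μ Γ x y * φ y ∂nx N
def DLom (φ : XN N → ℝ) (z : ℂ) : ℝ := ∫ y, DLx μ Γ z y * φ y ∂nx N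
def SLom (φ : XN N → ℝ) (z : ℂ) : ℝ := ∫ y, Gr μ (z - gp Γ y) * φ y ∂nx N
def psm (z : ℂ) (y : XN N) : ℝ := 2 * DLx μ Γ z y + ∫ u, DLx μ Γ z u * Phm μ Γ u y ∂nx N
variable (Ω : Set ℂ)
def Uem (φ : XN N → ℝ) : ℂ → ℝ := extendFrom Ω (DLom μ Γ (Hom μ Γ φ))
def hRm (x y : ℂ) : ℝ := Uem μ Γ Ω (fun t => Gr μ (gp Γ t - y)) x
def Rgm (x y : ℂ) : ℝ := Gr μ (x - y) - hRm μ Γ Ω x y
def TBm : ℝ := -∫ x in Ω, hRm μ Γ Ω x x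
end

theorem Kpm.rlz : True := by
  have := @Kpm.eq_def
  trivial

def RRm {N : ℕ} (μ μ' : ℝ) (Γ : MC N) (Ω : Set ℂ) : ℝ :=
  ∫ x in Ω, ∫ y in Ω, Rgm μ Γ Ω x y * Rgm μ' Γ Ω x y

structure Potm {N : ℕ} (μ : ℝ) (Γ : MC N) (Ω : Set ℂ) : Prop where
  cd : CDm Ω Γ
  pos : 0 < μ
  row : ∀ x, ∫ y, |Krm μ Γ x y| ∂nx N ≤ 1 / 4
  col : ∀ y, ∫ x, |Krm μ Γ x y| ∂nx N ≤ 1 / 4

end Pool.Agent.Lib.IS3
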