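import Pool.Agent.Lib.IS3.Kit1
import Pool.Agent.Lib.IS2.K28

/-! Monotonicity in `j`, motions of curves, domains bounded by several curves. -/

open scoped ContDiff ComplexConjugate Topology Real ENNReal
open Complex MeasureTheory Set Filter

noncomputable section

namespace Pool.Agent.Lib.IS3

open Pool.Agent.Lib.ISO Pool.Agent.Lib.IS2

variable {N N' n : ℕ}

/-! ## Monotonicity -/

section
variable {j j' : ℝ}

lemma bk_mono {κ : ℝ → ℝ} (h : Bk j κ) (hj : j ≤ j') : Bk j' κ := fun i hi s => (h i hi s).trans hj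
lemma nc_mono {γ : ℝ → ℂ} (h : Nc j γ) (hj : j ≤ j') : Nc j' γ :=
  ⟨h.one_le.trans hj, h.smooth, h.per, h.unit, fun k a b s => (h.bd k a b s).trans hj,
    fun s t => (h.arc s t).trans (by gcongr), bk_mono h.kb hj⟩
lemma N1.mono {γ : ℝ → ℂ} (h : N1 j γ) (hj : j ≤ j') : N1 j' γ := Nv.mono h hj
lemma nc_n1 {γ : ℝ → ℂ} (h : Nc j γ) (hj : π ≤ j) : N1 j γ :=
  ⟨h.one_le, by simpa using h.one_le, fun _ => h.smooth, fun _ => h.per,
    fun _ s => (h.unit s).trans_le h.one_le, fun _ => h.b2, fun _ => h.arc,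
    fun _ _ _ _ e => absurd (Subsingleton.elim _ _) e,
    fun _ _ s t => ((h.c0_le s t).trans (dc_le_pi s t)).trans hj⟩
lemma Ns.pos {l : ℝ} {G : ℝ → ℂ} (h : Ns j l G) : 0 < l := (inv_pos.2 h.nc.pos).trans_le h.lo
lemma Ns.mono {l : ℝ} {G : ℝ → ℂ} (h : Ns j l G) (hj : j ≤ j') : Ns j' l G :=
  ⟨nc_mono h.nc hj, (inv_anti₀ h.nc.pos hj).trans h.lo, h.hi.trans hj, h.n1.mono hj⟩
lemma Cp.mono {l β : ℝ} {G : ℝ → ℂ} (h : Cp j l G β) (hj : j ≤ j') : Cp j' l G β := by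
  obtain ⟨Ω, H, η, ψ, χ, c, h1, h2, h3, h4, h5⟩ := h
  exact ⟨Ω, H, η, ψ, χ, c, h1, nc_mono h2 hj, h3, h4.mono hj,
    fun u hu => h5 u (hu.trans (inv_anti₀ h2.pos hj))⟩
lemma Cm.mono {l : ℝ} {G : ℝ → ℂ} (h : Cm j l G) (hj : j ≤ j') : Cm j' l G := fun β => (h β).mono hj
lemma Sd.mono {l : Fin N → ℝ} {G : MC N} (h : Sd j l G) (hj : j ≤ j') : Sd j' l G :=
  ⟨h.nv.mono hj, fun i => (h.ns i).mono hj, fun i => (h.cm i).mono hj⟩
lemma Gc.mono {l : Fin N → ℝ} {G : MC N} (h : Gc j l G) (hj : j ≤ j') : Gc j' l G :=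
  ⟨h.sd.mono hj, h.gg, h.sc⟩
lemma Cst.mono {Γ : MC N} {Γ' : MC N'} (h : Cst j Γ Γ') (hj : j ≤ j') : Cst j' Γ Γ' :=
  let ⟨c, hc⟩ := h
  ⟨c, fun μ hμ => hc μ (hj.trans hμ)⟩
lemma Cl.pos {l : Fin N → ℝ} {k : Fin N → ℝ → ℝ} (h : Cl j l k) (i : Fin N) : 0 < l i :=
  (inv_pos.2 (one_pos.trans_le h.one_le)).trans_le (h.lo i)
lemma Cl.mono {l : Fin N → ℝ} {k : Fin N → ℝ → ℝ} (h : Cl j l k) (hj : j ≤ j') : Cl j' l k :=
  ⟨h.one_le.trans hj, h.card.trans hj, h.per, fun i => bk_mono (h.bk i) hj,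
    fun i => (inv_anti₀ (one_pos.trans_le h.one_le) hj).trans (h.lo i), fun i => (h.hi i).trans hj⟩
lemma Nq.mono {l : ℝ} {W m : ℕ} (h : Nq j l W m) (h0 : 0 < j) (hj : j ≤ j') : Nq j' l W m :=
  ⟨(inv_anti₀ h0 hj).trans h.lo, h.hi.trans hj, h.nr⟩

lemma kp_smooth {γ : ℝ → ℂ} (h : ContDiff ℝ ∞ γ) : ContDiff ℝ ∞ (kp γ) := by
  have h1 := (contDiff_infty_iff_deriv.1 h).2
  exact imCLM.contDiff.comp ((contDiff_infty_iff_deriv.1 h1).2.mul (conjCLE.contDiff.comp h1))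
lemma kp_per {γ : ℝ → ℂ} (h : ContDiff ℝ ∞ γ) (hp : Function.Periodic γ (2 * π)) :
    Per (2 * π) (kp γ) :=
  ⟨kp_smooth h, fun s => by simp only [kp, per_deriv' hp s, per_deriv' (per_deriv' hp) s]⟩
lemma Sd.cl {l : Fin N → ℝ} {G : MC N} (h : Sd j l G) : Cl j l fun i => kp (G i) :=
  ⟨h.nv.one_le, h.nv.card, fun i => kp_per (h.ns i).nc.smooth (h.ns i).nc.per,
    fun i => (h.ns i).nc.kb, fun i => (h.ns i).lo, fun i => (h.ns i).hi⟩
lemma Gmm.anti {W0 W1 : ℕ → ℕ → ℕ} {z : Fin N → ℤ → ℂ} (h : Gmm W0 z) (hW : ∀ a b, W1 a b ≤ W0 a b) :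
    Gmm W1 z := fun j i l e =>
  let ⟨M, W, a, b, c⟩ := h j i l e
  ⟨M, W, a, (hW _ _).trans b, c⟩
lemma Ton1.mono {M W m : ℕ} {K K' : ℝ} {a : ℂ} {κ : ℝ → ℝ} (h : Ton1 M K W m a κ) (hK : K ≤ K') :
    Ton1 M K' W m a κ :=
  ⟨h.l2.trans (by gcongr), fun b hb s => (h.sup b hb s).trans (by
    have : 0 ≤ lam M W := Real.rpow_nonneg (Nat.cast_nonneg _) _
    gcongr), h.b0.trans hK⟩

end

/-! ## Motions -/

@[simp] lemma fl_fl (r : Bool) (s : ℝ) : fl r (fl r s) = s := by cases r <;> simp [fl]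
lemma fx_fx (r : Fin N → Bool) (y : XN N) : fx r (fx r y) = y := by simp [fx]
lemma dc_neg (s t : ℝ) : dc (-s) (-t) = dc s t := by
  rw [dc_comm, dc, dc, neg_sub_neg]
lemma dc_fl (r : Bool) (s t : ℝ) : dc (fl r s) (fl r t) = dc s t := by
  cases r <;> simp [fl, dc_neg]
/-- the sign of a flip -/
def sg (r : Bool) : ℝ := if r then -1 else 1
lemma fl_eq (r : Bool) (s : ℝ) : fl r s = sg r * s := by cases r <;> simp [fl, sg]
lemma sg_sq (r : Bool) : sg r * sg r = 1 := by cases r <;> simp [sg]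
lemma abs_sg (r : Bool) : |sg r| = 1 := by cases r <;> simp [sg]
lemma hd_fl (r : Bool) (s : ℝ) : HasDerivAt (fl r) (sg r) s := by
  simpa [← fl_eq] using (hasDerivAt_id s).const_mul (sg r)
lemma fl_smooth (r : Bool) : ContDiff ℝ ∞ (fl r) := by
  rw [show fl r = fun s => sg r * s from funext (fl_eq r)]; fun_prop
lemma per_fl {E : Type} {f : ℝ → E} {L : ℝ} (h : Function.Periodic f L) (r : Bool) :
    Function.Periodic (fun s => f (fl r s)) L := fun s => by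
  cases r
  · exact h s
  · simpa [fl, add_comm] using h.neg (-s)
lemma Per.fl {L : ℝ} {ρ : ℝ → ℝ} (h : Per L ρ) (r : Bool) : Per L fun s => ρ (fl r s) :=
  ⟨h.smooth.comp (fl_smooth r), per_fl h.per r⟩

/-- the linear part of a motion -/
def ml (r : Bool) (u : ℂ) : ℂ →L[ℝ] ℂ :=
  u • if r then (conjCLE : ℂ →L[ℝ] ℂ) else ContinuousLinearMap.id ℝ ℂ
lemma ml_apply (r : Bool) (u z : ℂ) : ml r u z = u * if r then conj z else z := by
  cases r <;> simp [ml]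
lemma mo_eq (r : Bool) (p : ℂ × ℂ) (z : ℂ) : mo r p z = ml r p.1 z + p.2 := by rw [ml_apply, mo]
lemma mo_sub (r : Bool) (p : ℂ × ℂ) (z w : ℂ) : mo r p z - mo r p w = ml r p.1 (z - w) := by
  rw [mo_eq, mo_eq, map_sub, add_sub_add_right_eq_sub]
lemma norm_ml (r : Bool) (u z : ℂ) : ‖ml r u z‖ = ‖u‖ * ‖z‖ := by cases r <;> simp [ml_apply]
lemma rdot_ml (r : Bool) {u : ℂ} (hu : ‖u‖ = 1) (a b : ℂ) : rdot (ml r u a) (ml r u b) = rdot a b := by
  have e : u.re ^ 2 + u.im ^ 2 = 1 := by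
    have := Complex.sq_norm u
    rw [hu, normSq_apply] at this
    linarith
  cases r <;> simp [ml_apply, rdot] <;> linear_combination (a.re * b.re + a.im * b.im) * e
lemma ml_I (r : Bool) (u z : ℂ) : ml r u (I * z) = sg r * (I * ml r u z) := by
  cases r <;> simp [ml_apply, sg] <;> ring
lemma ml_real (r : Bool) (u z : ℂ) (c : ℝ) : ml r u (c * z) = c * ml r u z := by
  rw [← real_smul, map_smul, real_smul]

lemma hd_act (r : Bool) (p : ℂ × ℂ) {γ : ℝ → ℂ} {s : ℝ} {v : ℂ} (h : HasDerivAt γ v (fl r s)) :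
    HasDerivAt (act r p γ) (sg r * ml r p.1 v) s := by
  have := (((ml r p.1).hasFDerivAt.comp_hasDerivAt _ h).scomp s (hd_fl r s)).add_const p.2
  simp only [real_smul, Function.comp_def, ← mo_eq] at this
  exact this
lemma deriv_act (r : Bool) (p : ℂ × ℂ) {γ : ℝ → ℂ} (h : Differentiable ℝ γ) (s : ℝ) :
    deriv (act r p γ) s = sg r * ml r p.1 (deriv γ (fl r s)) := (hd_act r p (h _).hasDerivAt).deriv
lemma deriv2_act (r : Bool) (p : ℂ × ℂ) {γ : ℝ → ℂ} (h : ContDiff ℝ ∞ γ) (s : ℝ) :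
    deriv (deriv (act r p γ)) s = ml r p.1 (deriv (deriv γ) (fl r s)) := by
  have h1 := (contDiff_infty_iff_deriv.1 h).2.differentiable (by simp)
  have e : deriv (act r p γ) = fun s => sg r * act r (p.1, 0) (deriv γ) s := funext fun s => by
    rw [deriv_act r p (h.differentiable (by simp)), act, mo_eq, add_zero]
  rw [e, ((hd_act r (p.1, 0) (h1 _).hasDerivAt).const_mul _).deriv, ← mul_assoc, ← ofReal_mul, sg_sq]
  simp
lemma nr_act (r : Bool) (p : ℂ × ℂ) {γ : ℝ → ℂ} (h : Differentiable ℝ γ) (s : ℝ) :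
    nr (act r p γ) s = ml r p.1 (nr γ (fl r s)) := by
  rw [nr, nr, deriv_act r p h, ml_I]; ring
lemma act_smooth (r : Bool) (p : ℂ × ℂ) {γ : ℝ → ℂ} (h : ContDiff ℝ ∞ γ) : ContDiff ℝ ∞ (act r p γ) := by
  rw [show act r p γ = fun s => ml r p.1 (γ (fl r s)) + p.2 from funext fun s => mo_eq _ _ _]
  exact ((ml r p.1).contDiff.comp (h.comp (fl_smooth r))).add contDiff_const
lemma act_per (r : Bool) (p : ℂ × ℂ) {γ : ℝ → ℂ} {L : ℝ} (h : Function.Periodic γ L) :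
    Function.Periodic (act r p γ) L := fun s => by simp only [act, per_fl h r s]

lemma gp_actm (r : Fin N → Bool) (p : Fin N → ℂ × ℂ) (Γ : MC N) (x : XN N) :
    gp (actm r p Γ) (fx r x) = mo (r x.1) (p x.1) (gp Γ x) := by simp [gp, actm, act, fx]
lemma gn_actm (r : Fin N → Bool) (p : Fin N → ℂ × ℂ) {Γ : MC N} (h : ∀ i, Differentiable ℝ (Γ i))
    (x : XN N) : gn (actm r p Γ) (fx r x) = ml (r x.1) (p x.1).1 (gn Γ x) := by
  simp only [gn, actm, fx, nr_act _ _ (h _), fl_fl]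
lemma scm_actm (l : Fin N → ℝ) (r : Fin N → Bool) (p : Fin N → ℂ × ℂ) (G : MC N) :
    scm l (actm r p G) = actm r (pl l p) (scm l G) := by
  funext i s
  simp only [scm, sc, actm, act, mo_eq, pl, ml_real, mul_add]

lemma hd_sc (l : ℝ) {G : ℝ → ℂ} {s : ℝ} {v : ℂ} (h : HasDerivAt G v s) :
    HasDerivAt (sc l G) (l * v) s := h.const_mul _
lemma deriv_sc (l : ℝ) (G : ℝ → ℂ) : deriv (sc l G) = sc l (deriv G) :=
  funext fun _ => deriv_const_mul_field _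
lemma nr_sc (l : ℝ) (G : ℝ → ℂ) (s : ℝ) : nr (sc l G) s = l * nr G s := by
  rw [nr, nr, deriv_sc, sc]; ring
lemma cp_sc (l : ℝ) (G : ℝ → ℂ) : cp (sc l G) = (l : ℂ) • cp G := by
  funext s; simp [cp, sc]

section
variable (σ : Fin N → Bool) (f : Fin N → Jordan)
lemma sp_pos (i : Fin N) : 0 < sp f i := by
  obtain ⟨v, hv, e⟩ := (f i).2.2.2.2
  rwa [sp, e]
lemma norm_f1 (i : Fin N) (s : ℝ) : ‖UniformFun.toFun ((f i).1 1) s‖ = sp f i := by
  obtain ⟨v, -, e⟩ := (f i).2.2.2.2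
  rw [sp, e, e]
lemma scm_uc : scm (sp f) (uc σ f) = ori σ f := by
  funext i s
  have : (sp f i : ℂ) ≠ 0 := ofReal_ne_zero.2 (sp_pos f i).ne'
  simp only [scm, sc, uc]
  field_simp
lemma f_smooth (g : Jordan) (k : ℕ) : ContDiff ℝ ∞ (UniformFun.toFun (g.1 k)) := by
  refine contDiff_infty.2 fun m => ?_
  induction m generalizing k with
  | zero => exact contDiff_zero.2 (Differentiable.continuous fun t => (g.2.1 k t).differentiableAt)
  | succ m ih =>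
    rw [Nat.cast_succ, contDiff_succ_iff_deriv]
    refine ⟨fun t => (g.2.1 k t).differentiableAt, by simp, ?_⟩
    rw [funext fun t => (g.2.1 k t).deriv]
    exact ih _
lemma ori_smooth (i : Fin N) : ContDiff ℝ ∞ (ori σ f i) := (f_smooth (f i) 0).comp (fl_smooth _)
lemma ori_per (i : Fin N) : Function.Periodic (ori σ f i) (2 * π) := per_fl (f i).2.2.1 _
lemma hd_ori (i : Fin N) (s : ℝ) :
    HasDerivAt (ori σ f i) (sg (σ i) * UniformFun.toFun ((f i).1 1) (fl (σ i) s)) s := by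
  have := ((f i).2.1 0 _).scomp s (hd_fl (σ i) s)
  simp only [real_smul, Function.comp_def] at this
  exact this
lemma ori_mem : cpm (ori σ f) ∈ SPm N := fun i _ => cp_mem (ori_smooth σ f i) (ori_per σ f i)
end

/-! ## Densities and domains -/

lemma CPm.bd {φ : XN N → ℝ} (h : CPm φ) : ∃ B, 0 ≤ B ∧ ∀ x, |φ x| ≤ B := bd_per h.1 h.2
lemma CPm.int {φ : XN N → ℝ} (h : CPm φ) : Integrable φ (nx N) := int_cont h.1
lemma CPm.cp {φ : XN N → ℝ} (h : CPm φ) (i : Fin N) : CP fun s => φ (i, s) :=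
  ⟨h.1.comp (Continuous.prodMk_right i), fun s => h.2 (i, s)⟩
lemma cpm_of {φ : XN N → ℝ} (h : ∀ i, CP fun s => φ (i, s)) : CPm φ :=
  ⟨cont_x1 fun i => (h i).1, fun x => (h x.1).2 x.2⟩
lemma int_bd {E : Type} [NormedAddCommGroup E] {f : XN N → E} (h : AEStronglyMeasurable f (nx N))
    {B : ℝ} (hB : ∀ x, ‖f x‖ ≤ B) : Integrable f (nx N) := Integrable.of_bound h B (ae_of_all _ hB)
lemma int_cont2 {E : Type} [NormedAddCommGroup E] {F : XN N × XN N → E} (h : Continuous F) :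
    Integrable F ((nx N).prod (nx N)) := by
  have a : ∀ᵐ x ∂nx N, x ∈ KX N := ae_nx.2 fun i =>
    (ae_restrict_mem measurableSet_Ioc).mono fun s hs => ⟨trivial, Ioc_subset_Icc_self hs⟩
  obtain ⟨B, hB⟩ := (cpt_KX.prod cpt_KX).exists_bound_of_continuousOn h.continuousOn
  refine Integrable.of_bound h.aestronglyMeasurable B ?_
  filter_upwards [Measure.quasiMeasurePreserving_fst.ae a, Measure.quasiMeasurePreserving_snd.ae a]
    with p h1 h2 using hB p ⟨h1, h2⟩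
lemma swap_nx {F : XN N → XN N → ℝ} (h : Continuous (Function.uncurry F)) :
    ∫ s, ∫ t, F s t ∂nx N ∂nx N = ∫ t, ∫ s, F s t ∂nx N ∂nx N := integral_integral_swap (int_cont2 h)
lemma bd_per2 {k : XN N → XN N → ℝ} (hc : Continuous (Function.uncurry k)) (h : P2 k) :
    ∃ B, 0 ≤ B ∧ ∀ x y, |k x y| ≤ B := by
  obtain ⟨B, hB⟩ := (cpt_KX.prod cpt_KX).exists_bound_of_continuousOn hc.continuousOn
  refine ⟨max B 0, le_max_right _ _, fun x y => ?_⟩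
  obtain ⟨a, ha⟩ := red_KX x
  obtain ⟨b, hb⟩ := red_KX y
  have := hB (_, _) ⟨ha, hb⟩
  rw [Function.uncurry_apply_pair, per_int (f := fun x => k x _) (fun x => (h x _).1),
    per_int (f := k x) fun y => (h x y).2] at this
  exact le_max_of_le_left this

lemma dm_nonneg (x y : XN N) : 0 ≤ dm x y := by
  unfold dm; split_ifs
  · exact dc_nonneg _ _
  · exact zero_le_one
lemma dc_le_dm (x y : XN N) : dc x.2 y.2 ≤ 4 * dm x y := by
  unfold dm; split_ifs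
  · linarith [dc_nonneg x.2 y.2]
  · linarith [dc_le_pi x.2 y.2, Real.pi_le_four]

lemma Rc.DLx_per {Γ : MC N} (h : Rc Γ) (μ : ℝ) (z : ℂ) (y : XN N) :
    DLx μ Γ z (y.1, y.2 + 2 * π) = DLx μ Γ z y := by
  simp only [DLx, DLk, h.nr_per _ y.2, h.per _ y.2]
lemma DLx_def (μ : ℝ) (Γ : MC N) (z : ℂ) (y : XN N) : DLx μ Γ z y =
    l1 (μ * ‖gp Γ y - z‖) * rdot (-gn Γ y) (gp Γ y - z) / (2 * π * ‖gp Γ y - z‖ ^ 2) := rfl

section
variable {μ : ℝ} {Ω : Set ℂ} {Γ : MC N} {u v : ℂ → ℝ}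

lemma Rc.DLx_cont (h3 : St_A3) (h : Rc Γ) (hμ : 0 < μ) :
    ContinuousOn (fun p : ℂ × XN N => DLx μ Γ p.1 p.2) {p | p.1 ≠ gp Γ p.2} := by
  have cγ := h.gp_cont
  have cn := h.gn_cont
  have c1 : Continuous fun p : ℂ × XN N => l1 (μ * ‖gp Γ p.2 - p.1‖) :=
    h3.2.2.1.comp_continuous (by fun_prop) fun p => mul_nonneg hμ.le (norm_nonneg _)
  simp only [DLx_def]
  refine ContinuousOn.div (c1.mul ?_).continuousOn (by fun_prop) fun p hp => ?_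
  · exact K28.rdot_cont (by fun_prop) (by fun_prop)
  · have : ‖gp Γ p.2 - p.1‖ ≠ 0 := norm_ne_zero_iff.2 (sub_ne_zero.2 (Ne.symm hp))
    have := Real.pi_pos
    positivity

lemma Rc.DLx_cont1 (h3 : St_A3) (h : Rc Γ) (hμ : 0 < μ) {z : ℂ} (hz : z ∉ range (gp Γ)) :
    Continuous (DLx μ Γ z) :=
  (h.DLx_cont h3 hμ).comp_continuous (f := fun t => (z, t)) (by fun_prop) fun t e => hz ⟨t, e.symm⟩

lemma Rc.DLx_meas (h3 : St_A3) (h : Rc Γ) (μ : ℝ) :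
    Measurable fun p : ℂ × XN N => DLx μ Γ p.1 p.2 := by
  have cγ := h.gp_cont
  have cn := h.gn_cont
  simp only [DLx_def]
  refine ((h3.2.2.2.2.2.2.1.comp (Continuous.measurable (by fun_prop))).mul
    (Continuous.measurable ?_)).div (Continuous.measurable (by fun_prop))
  exact K28.rdot_cont (by fun_prop) (by fun_prop)

lemma Rc.DLx_bd (h3 : St_A3) (h : Rc Γ) (hμ : 0 < μ) :
    ∃ M, 0 ≤ M ∧ ∀ z t, |DLx μ Γ z t| ≤ M * ‖z - gp Γ t‖⁻¹ := by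
  obtain ⟨M, M0, hM⟩ := h.gn_bd
  refine ⟨M, M0, fun x t => ?_⟩
  rw [norm_sub_rev x, DLx_def]
  rcases (norm_nonneg (gp Γ t - x)).eq_or_lt with e | p
  · simp [← e]
  obtain ⟨-, -, -, l0, l1'⟩ := h3.2.2.2.2.2.2.2.1 _ (mul_pos hμ p)
  have pi := Real.pi_gt_three
  have r := K28.abs_rdot (-gn Γ t) (gp Γ t - x)
  rw [norm_neg] at r
  rw [abs_div, abs_mul, abs_of_pos l0, abs_of_pos (by positivity : 0 < 2 * π * ‖gp Γ t - x‖ ^ 2),
    div_le_iff₀ (by positivity)]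
  calc _ ≤ 1 * (M * ‖gp Γ t - x‖) := by
        gcongr
        exact r.trans (by gcongr; exact hM t)
    _ ≤ (2 * π) * (M * ‖gp Γ t - x‖) := by gcongr; linarith
    _ = _ := by field_simp

lemma DLx_eq (hL : St_LAY) (hμ : 0 < μ) {z : ℂ} {t : XN N} (hz : z ≠ gp Γ t) :
    DLx μ Γ z t = fderiv ℝ (Gr μ) (z - gp Γ t) (-gn Γ t) := K28.DLk_eq hL hμ hz
lemma har_DLx (hL : St_LAY) (hμ : 0 < μ) (t : XN N) : Har μ {gp Γ t}ᶜ fun z => DLx μ Γ z t :=
  K28.har_DLk hL hμ t.2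

namespace CDm

variable (h : CDm Ω Γ)
include h

lemma rc : Rc Γ := ⟨h.smooth, h.per, h.reg, h.inj⟩
lemma ne_curve {z : ℂ} (hz : z ∈ Ω) (t : XN N) : z ≠ gp Γ t := fun e => by
  have : z ∈ Ω ∩ frontier Ω := ⟨hz, h.fr ▸ ⟨t, e.symm⟩⟩
  rw [h.opn.inter_frontier_eq] at this
  exact this
lemma sub_compl : Ω ⊆ (range (gp Γ))ᶜ := fun _ hx ⟨t, e⟩ => h.ne_curve hx t e.symm
lemma mem_cl (t : XN N) : gp Γ t ∈ closure Ω := frontier_subset_closure (h.fr ▸ ⟨t, rfl⟩)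
lemma cl_cases {z : ℂ} (hz : z ∈ closure Ω) : z ∈ Ω ∨ ∃ t, gp Γ t = z := by
  rw [closure_eq_self_union_frontier, h.fr] at hz
  exact hz

/-- one sided comparison -/
lemma le_of_bd (hM : St_MAX) (hμ : 0 < μ) (c : ContinuousOn u (closure Ω))
    (hu : Har μ Ω u) {m : ℝ} (m0 : 0 ≤ m) (hb : ∀ t, u (gp Γ t) ≤ m) : ∀ x ∈ closure Ω, u x ≤ m :=
  (hM μ hμ).1 Ω u m h.opn h.bdd m0 c hu.1 (fun x hx => (hu.2 x hx).ge) fun x hx => by
    rw [h.fr] at hx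
    obtain ⟨t, rfl⟩ := hx
    exact hb t

/-- comparison of two solutions -/
lemma cmp (hM : St_MAX) (hμ : 0 < μ) (cu : ContinuousOn u (closure Ω))
    (cv : ContinuousOn v (closure Ω)) (hu : Har μ Ω u) (hv : Har μ Ω v) {m : ℝ} (m0 : 0 ≤ m)
    (hb : ∀ t, |u (gp Γ t) - v (gp Γ t)| ≤ m) : ∀ x ∈ closure Ω, |u x - v x| ≤ m := fun x hx =>
  abs_sub_le_iff.2 ⟨h.le_of_bd hM hμ (cu.sub cv) (K28.har_sub h.opn hu hv) m0
      (fun t => (abs_sub_le_iff.1 (hb t)).1) x hx,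
    h.le_of_bd hM hμ (cv.sub cu) (K28.har_sub h.opn hv hu) m0
      (fun t => (abs_sub_le_iff.1 (hb t)).2) x hx⟩

end CDm

end

end Pool.Agent.Lib.IS3
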