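import Pool.Agent.Lib.IS3.Blue

/-! Elementary facts on families of curves, weights and placements. -/

open scoped ContDiff ComplexConjugate Topology Real ENNReal
open Complex MeasureTheory Set Filter

noncomputable section

namespace Pool.Agent.Lib.IS3

open Pool.Agent.Lib.ISO Pool.Agent.Lib.IS2

variable {N n : ℕ}

/-! ## Chords -/

lemma cm_nonneg (Γ : MC N) (x y : XN N) : 0 ≤ cm Γ x y := norm_nonneg _
lemma cm_self (Γ : MC N) (x : XN N) : cm Γ x x = 0 := by simp [cm]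
lemma cm_comm (Γ : MC N) (x y : XN N) : cm Γ x y = cm Γ y x := norm_sub_rev _ _
lemma cm_eq_dist (Γ : MC N) (x y : XN N) : cm Γ x y = dist (gp Γ x) (gp Γ y) := (dist_eq_norm _ _).symm
lemma cm_triangle (Γ : MC N) (x y z : XN N) : cm Γ x z ≤ cm Γ x y + cm Γ y z := by
  simp only [cm_eq_dist]; exact dist_triangle _ _ _
lemma cm_pos {Γ : MC N} {x y : XN N} (h : gp Γ x ≠ gp Γ y) : 0 < cm Γ x y :=
  norm_pos_iff.2 (sub_ne_zero.2 h)
lemma elm_nonneg (Γ : MC N) (v : Fin (n + 2) → XN N) : 0 ≤ elm Γ v :=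
  Finset.sum_nonneg fun _ _ => cm_nonneg _ _ _
lemma two_cm_le (Γ : MC N) (v : Fin (n + 2) → XN N) (a b : Fin (n + 2)) :
    2 * cm Γ (v a) (v b) ≤ elm Γ v := by
  rw [cm_eq_dist]
  exact cyc2 (fun i => gp Γ (v i)) _ (fun i => (cm_eq_dist _ _ _).ge) a b
lemma three_cm_le (Γ : MC N) (v : Fin (n + 2) → XN N) (a b c : Fin (n + 2)) :
    cm Γ (v a) (v b) + cm Γ (v b) (v c) + cm Γ (v c) (v a) ≤ elm Γ v := by
  simp only [cm_eq_dist]
  exact cyc3 (fun i => gp Γ (v i)) _ (fun i => (cm_eq_dist _ _ _).ge) a b c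
lemma lg_zero (Γ : MC N) (w : Wg N) : Lg Γ 0 w := fun _ v _ => elm_nonneg Γ v
lemma Lg.mono {Γ : MC N} {w : Wg N} {a b : ℝ} (h : Lg Γ a w) (hb : b ≤ a) : Lg Γ b w :=
  fun n v hv => hb.trans (h n v hv)

namespace Rc

variable {Γ : MC N} (h : Rc Γ)
include h

lemma diff (i : Fin N) : Differentiable ℝ (Γ i) := (h.smooth i).differentiable (by simp)
lemma s1 (i : Fin N) : ContDiff ℝ ∞ (deriv (Γ i)) := (contDiff_infty_iff_deriv.1 (h.smooth i)).2
lemma nr_smooth (i : Fin N) : ContDiff ℝ ∞ (nr (Γ i)) := contDiff_const.mul (h.s1 i)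
lemma nr_per (i : Fin N) : Function.Periodic (nr (Γ i)) (2 * π) := fun s => by
  simp only [nr, per_deriv' (h.per i) s]
lemma gp_cont : Continuous (gp Γ) := cont_ev fun i => (h.smooth i).continuous
lemma gn_cont : Continuous (gn Γ) := cont_ev (P := fun i => nr (Γ i)) fun i => (h.nr_smooth i).continuous
lemma d1_cont : Continuous fun x : XN N => deriv (Γ x.1) x.2 :=
  cont_ev (P := fun i => deriv (Γ i)) fun i => (h.s1 i).continuous
lemma gp_per (x : XN N) : gp Γ (x.1, x.2 + 2 * π) = gp Γ x := h.per x.1 x.2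
lemma gn_per (x : XN N) : gn Γ (x.1, x.2 + 2 * π) = gn Γ x := h.nr_per x.1 x.2
lemma gp_int (x : XN N) (k : ℤ) : gp Γ (x.1, x.2 + k * (2 * π)) = gp Γ x := per_int h.gp_per x k
lemma gn_int (x : XN N) (k : ℤ) : gn Γ (x.1, x.2 + k * (2 * π)) = gn Γ x := per_int h.gn_per x k
lemma gn_bd : ∃ M, 0 ≤ M ∧ ∀ x, ‖gn Γ x‖ ≤ M := bd_per h.gn_cont h.gn_per
lemma cm_cont : Continuous (Function.uncurry (cm Γ)) :=
  ((h.gp_cont.comp continuous_fst).sub (h.gp_cont.comp continuous_snd)).norm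
lemma range_eq : range (gp Γ) = gp Γ '' KX N := by
  refine subset_antisymm ?_ (image_subset_range _ _)
  rintro _ ⟨x, rfl⟩
  obtain ⟨k, hk⟩ := red_KX x
  exact ⟨_, hk, h.gp_int x k⟩
lemma cpt : IsCompact (range (gp Γ)) := h.range_eq ▸ cpt_KX.image h.gp_cont
lemma cpm_mem : cpm Γ ∈ SPm N := fun i _ => cp_mem (h.smooth i) (h.per i)
lemma one (i : Fin N) : Rc fun _ : Fin 1 => Γ i :=
  ⟨fun _ => h.smooth i, fun _ => h.per i, fun _ => h.reg i, fun x y e =>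
    ⟨Subsingleton.elim _ _, (h.inj (i, x.2) (i, y.2) e).2⟩⟩

lemma ae_ne (x : XN N) : ∀ᵐ y ∂nx N, gp Γ x ≠ gp Γ y := ae_nx.2 fun i => by
  refine ae_restrict_of_ae ?_
  have : (range fun k : ℤ => x.2 + k * (2 * π)).Countable := countable_range _
  filter_upwards [this.ae_notMem volume] with s hs e
  obtain ⟨-, k, hk⟩ := h.inj x (i, s) e
  exact hs ⟨k, hk.symm⟩

lemma ae_pair (a b : Fin (n + 1)) (hab : b ≠ a) :
    ∀ᵐ v ∂bm N (n + 1), gp Γ (v a) ≠ gp Γ (v b) := by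
  obtain ⟨k, hk⟩ := Fin.exists_succAbove_eq hab
  have hc := h.gp_cont.measurable
  have : ∀ᵐ p ∂(nx N).prod (bm N n), gp Γ p.1 ≠ gp Γ (p.2 k) :=
    (Measure.ae_prod_iff_ae_ae
      (measurableSet_eq_fun (hc.comp measurable_fst) (by fun_prop)).compl).2
      (Eventually.of_forall fun s => (Measure.quasiMeasurePreserving_eval
        (fun _ => nx N) k).ae (h.ae_ne s))
  rw [← hk]
  exact (measurePreserving_piFinSuccAbove (fun _ => nx N) a).quasiMeasurePreserving.ae this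

lemma ae_gw : ∀ᵐ v ∂bm N (n + 2), Gw Γ v := ae_all_iff.2 fun i => h.ae_pair i (i + 1) (by
  simp)

end Rc

namespace Nv

variable {j : ℝ} {Γ : MC N} (h : Nv j Γ)
include h

lemma pos : 0 < j := one_pos.trans_le h.one_le
lemma hd (i : Fin N) (s : ℝ) : HasDerivAt (Γ i) (deriv (Γ i) s) s :=
  ((h.smooth i).differentiable (by simp) s).hasDerivAt
lemma n1 (i : Fin N) : N1 j (Γ i) :=
  ⟨h.one_le, by simpa using h.one_le, fun _ => h.smooth i, fun _ => h.per i, fun _ => h.b1 i,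
    fun _ => h.b2 i, fun _ => h.arc i, fun _ _ _ _ e => absurd (Subsingleton.elim _ _) e,
    fun _ _ => h.diam i i⟩
lemma mono {j' : ℝ} (hj : j ≤ j') : Nv j' Γ :=
  ⟨h.one_le.trans hj, h.card.trans hj, h.smooth, h.per, fun i s => (h.b1 i s).trans hj,
    fun i s => (h.b2 i s).trans hj, fun i s t => (h.arc i s t).trans (by gcongr),
    fun i k s t e => (h.sep i k s t e).trans (by gcongr), fun i k s t => (h.diam i k s t).trans hj⟩
lemma le_abs (i : Fin N) (s t : ℝ) : ‖Γ i s - Γ i t‖ ≤ j * |s - t| := by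
  simpa using (convex_univ (𝕜 := ℝ) (E := ℝ)).norm_image_sub_le_of_norm_deriv_le (C := j)
    (fun x _ => (h.hd i x).differentiableAt) (fun x _ => h.b1 i x) (mem_univ t) (mem_univ s)
lemma le_dc (i : Fin N) (s t : ℝ) : ‖Γ i s - Γ i t‖ ≤ j * dc s t := by
  obtain ⟨k, hk⟩ := exists_dc s t
  have := h.le_abs i s (t + k * (2 * π))
  rwa [hk, (h.per i).int_mul k t] at this
lemma cm_le {x y : XN N} (e : x.1 = y.1) : cm Γ x y ≤ j * dc x.2 y.2 := by
  have := h.le_dc x.1 x.2 y.2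
  rwa [cm, gp, gp, ← e]
lemma le_cm {x y : XN N} (e : x.1 = y.1) : dc x.2 y.2 ≤ j * cm Γ x y := by
  have := h.arc x.1 x.2 y.2
  rwa [cm, gp, gp, ← e]
lemma inv_le_cm {x y : XN N} (e : x.1 ≠ y.1) : j⁻¹ ≤ cm Γ x y := by
  rw [inv_le_iff_one_le_mul₀' h.pos]
  exact h.sep _ _ _ _ e
lemma cm_le_j (x y : XN N) : cm Γ x y ≤ j := h.diam _ _ _ _
lemma dc_le (x y : XN N) : dc x.2 y.2 ≤ 4 * j * cm Γ x y := by
  have := h.pos
  have := cm_nonneg Γ x y
  by_cases e : x.1 = y.1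
  · nlinarith [h.le_cm e]
  · have : 1 ≤ j * cm Γ x y := h.sep _ _ _ _ e
    nlinarith [dc_le_pi x.2 y.2, Real.pi_le_four]
lemma inv_le_d1 (i : Fin N) (s : ℝ) : j⁻¹ ≤ ‖deriv (Γ i) s‖ := by
  rw [inv_le_iff_one_le_mul₀' h.pos]
  have t := ((h.hd i s).tendsto_slope_zero.norm).const_mul j
  refine ge_of_tendsto t ?_
  have : ∀ᶠ t : ℝ in 𝓝[≠] 0, |t| ≤ π :=
    nhdsWithin_le_nhds (by
      filter_upwards [Metric.closedBall_mem_nhds (0 : ℝ) Real.pi_pos] with t ht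
      simpa using ht)
  filter_upwards [this, self_mem_nhdsWithin] with t ht (t0 : t ≠ 0)
  have a := h.arc i (s + t) s
  rw [dc_eq_abs (by simpa using ht), add_sub_cancel_left] at a
  have p := abs_pos.2 t0
  rw [norm_smul, norm_inv, Real.norm_eq_abs, mul_left_comm, ← div_eq_inv_mul, one_le_div p]
  exact a
lemma rc : Rc Γ :=
  ⟨h.smooth, h.per, fun i s => norm_pos_iff.1 ((inv_pos.2 h.pos).trans_le (h.inv_le_d1 i s)),
    fun x y e => by
      have c : cm Γ x y = 0 := by simp [cm, e]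
      by_cases l : x.1 = y.1
      · refine ⟨l, dc_eq_zero (le_antisymm ?_ (dc_nonneg _ _))⟩
        have := h.le_cm l
        rwa [c, mul_zero, dc_comm] at this
      · exact absurd (h.inv_le_cm l) (by rw [c]; exact not_le.2 (inv_pos.2 h.pos))⟩
lemma gn_le (x : XN N) : ‖gn Γ x‖ ≤ j := by simpa [gn, nr] using h.b1 x.1 x.2
lemma le_gn (x : XN N) : j⁻¹ ≤ ‖gn Γ x‖ := by simpa [gn, nr] using h.inv_le_d1 x.1 x.2
lemma cpm_mem : cpm Γ ∈ SPm N := h.rc.cpm_mem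
lemma ae_gw : ∀ᵐ v ∂bm N (n + 2), Gw Γ v := h.rc.ae_gw
lemma adm0 : Admm j j Γ 0 (cpm Γ) := by
  have p := h.pos
  refine ⟨fun i => ⟨cp_mem (h.smooth i) (h.per i), fun s => by simp [cpm], fun s => ?_, fun s => ?_⟩,
    fun _ _ _ => by positivity⟩
  · simp only [cpm, sub_self, norm_zero]; positivity
  · rw [cpm, deriv_cp (h.rc.diff i), deriv_cp ((h.rc.s1 i).differentiable (by simp)), norm_cp]
    exact h.b2 i s
lemma lg_wX (cl : Fin N → Fin N) : Lg Γ (2 / j) (wX cl) := fun n v hv => by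
  by_cases e : ∃ a b, cl (v a).1 ≠ cl (v b).1
  · obtain ⟨a, b, e⟩ := e
    have := h.inv_le_cm (x := v a) (y := v b) fun e' => e (by rw [e'])
    have := two_cm_le Γ v a b
    rw [div_eq_mul_inv]; linarith
  · exact absurd (if_neg e) hv
lemma mass : (nx N).real univ ≤ 2 * π * j := by
  rw [nx_univ, mul_comm]
  exact mul_le_mul_of_nonneg_left h.card Real.two_pi_pos.le

end Nv

lemma Admm.mem {j B ϖ : ℝ} {Γ : MC N} {P : MQ N} (h : Admm j B Γ ϖ P) : P ∈ SPm N :=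
  fun i _ => (h.1 i).sp
lemma Admm.mono {j B B' ϖ : ℝ} {Γ : MC N} {P : MQ N} (h : Admm j B Γ ϖ P) (hB : B ≤ B') :
    Admm j B' Γ ϖ P :=
  ⟨fun i => ⟨(h.1 i).sp, (h.1 i).a0, (h.1 i).a1, fun s => ((h.1 i).a2 s).trans hB⟩, h.2⟩

/-! ## The seminorm -/

lemma mem_SPm {P : MQ N} : P ∈ SPm N ↔ ∀ i, P i ∈ SP := ⟨fun h i => h i trivial, fun h i _ => h i⟩
lemma nm_nonneg {Q : ℝ → C2} (h : Q ∈ SP) : 0 ≤ nm Q := sn_nm.nn _ h
lemma nm_le_nmm {P : MQ N} (h : P ∈ SPm N) (i : Fin N) : nm (P i) ≤ nmm P :=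
  Finset.single_le_sum (f := fun i => nm (P i)) (fun i _ => nm_nonneg (mem_SPm.1 h i)) (Finset.mem_univ i)
lemma sn_nmm : Sn (SPm N) nmm where
  nn _ h := Finset.sum_nonneg fun i _ => nm_nonneg (mem_SPm.1 h i)
  add x hx y hy := by
    rw [nmm, nmm, nmm, ← Finset.sum_add_distrib]
    exact Finset.sum_le_sum fun i _ => sn_nm.add _ (mem_SPm.1 hx i) _ (mem_SPm.1 hy i)
  smul c x hx := by
    rw [nmm, nmm, Finset.mul_sum]
    exact Finset.sum_le_sum fun i _ => sn_nm.smul c _ (mem_SPm.1 hx i)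
lemma nm_zero : nm 0 = 0 := by simp [nm]
lemma single_mem (k : Fin N) {Q : ℝ → C2} (h : Q ∈ SP) : Pi.single k Q ∈ SPm N := mem_SPm.2 fun i => by
  by_cases e : i = k
  · rwa [e, Pi.single_eq_same]
  · rw [Pi.single_eq_of_ne e]; exact SP.zero_mem
lemma nmm_single (k : Fin N) (Q : ℝ → C2) : nmm (Pi.single k Q : MQ N) = nm Q := by
  rw [nmm, Finset.sum_eq_single k (fun i _ e => by rw [Pi.single_eq_of_ne e, nm_zero]) (by simp),
    Pi.single_eq_same]
lemma nl_mem {γ : ℝ → ℂ} (h : ContDiff ℝ ∞ γ) (hp : Function.Periodic γ (2 * π)) {ρ : ℝ → ℝ}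
    (hρ : Per (2 * π) ρ) : nl γ ρ ∈ SP :=
  cp_mem ((ofRealCLM.contDiff.comp hρ.smooth).mul
    (contDiff_const.mul (contDiff_infty_iff_deriv.1 h).2)) fun s => by
      simp only [nr, hρ.per s, per_deriv' hp s]
lemma Rc.bu_mem {Γ : MC N} (h : Rc Γ) (k : Fin N) {ρ : ℝ → ℝ} (hρ : Per (2 * π) ρ) :
    bu Γ k ρ ∈ SPm N := single_mem k (nl_mem (h.smooth k) (h.per k) hρ)

/-- the integrand sees only values and first derivatives at the vertices -/
lemma IM_congr {P Q : MQ N} {v w : Fin (n + 2) → XN N} (μ : ℂ)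
    (h : ∀ i, P (v i).1 (v i).2 = Q (w i).1 (w i).2 ∧
      deriv (P (v i).1) (v i).2 = deriv (Q (w i).1) (w i).2) : IM μ P n v = IM μ Q n w := by
  simp only [IM, mK, mS, mNd, mKd, mc, mD, mn, pn, (h _).1, (h _).2]

lemma IM_per {P : MQ N} (h : P ∈ SPm N) (μ : ℂ) : Pw (IM μ P n) := fun _ k =>
  IM_congr μ fun i => ⟨(mem_SPm.1 h _).2.int_mul (k i) _, (SP.s1 (mem_SPm.1 h _)).2.int_mul (k i) _⟩

lemma IM_lab (μ : ℂ) (P : MQ N) (i : Fin N) (v : Fin (n + 2) → ℝ) :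
    IM μ P n (lab (fun _ => i) v) = In μ (P i) n v := rfl

/-! ## Weights -/

lemma wm_of {w : Wg N} (p : ∀ n, (Fin n → XN N) → Prop) (hw : ∀ n v, (p n v → w n v = 1) ∧
    (¬p n v → w n v = 0)) (hm : ∀ n, MeasurableSet {v | p n v})
    (hp : ∀ n v (k : Fin n → ℤ), p n (fun i => ((v i).1, (v i).2 + k i * (2 * π))) ↔ p n v) :
    Wm w := fun n => by
  have e : w n = {v | p n v}.indicator 1 := funext fun v => by
    by_cases h : p n v
    · rw [(hw n v).1 h, indicator_of_mem (s := {v | p n v}) h]; rfl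
    · rw [(hw n v).2 h, indicator_of_notMem (s := {v | p n v}) h]
  refine ⟨e ▸ measurable_const.indicator (hm n), fun v => ?_, fun v k => ?_⟩
  · by_cases h : p n v
    · simp [(hw n v).1 h]
    · simp [(hw n v).2 h]
  · by_cases h : p n v
    · rw [(hw n v).1 h, (hw n _).1 ((hp n v k).2 h)]
    · rw [(hw n v).2 h, (hw n _).2 (mt (hp n v k).1 h)]

lemma wm_one : Wm (1 : Wg N) := fun _ => ⟨measurable_const, fun _ => by simp, fun _ _ => rfl⟩
lemma wm_zero : Wm (0 : Wg N) := fun _ => ⟨measurable_const, fun _ => by simp, fun _ _ => rfl⟩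
lemma Wm.mul {w w' : Wg N} (h : Wm w) (h' : Wm w') : Wm (w * w') := fun n =>
  ⟨(h n).1.mul (h' n).1, fun v => (norm_mul_le _ _).trans
    (mul_le_one₀ ((h n).2.1 v) (norm_nonneg _) ((h' n).2.1 v)),
    fun v k => by simp only [Pi.mul_apply, (h n).2.2, (h' n).2.2]⟩
/-- weights with values `0` and `1` -/
lemma Wm.compl {w : Wg N} (h : Wm w) (h01 : ∀ n v, w n v = 0 ∨ w n v = 1) : Wm (1 - w) := fun n =>
  ⟨measurable_const.sub (h n).1, fun v => by rcases h01 n v with e | e <;> simp [e],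
    fun v k => by simp only [Pi.sub_apply, Pi.one_apply, (h n).2.2]⟩
lemma Wm.pw {w : Wg N} (h : Wm w) (n : ℕ) : Pw (w n) := (h n).2.2
lemma Pw.mul {F G : (Fin n → XN N) → ℂ} (h : Pw F) (h' : Pw G) : Pw fun v => F v * G v :=
  fun v k => by simp only [h v k, h' v k]

lemma wX_01 (cl : Fin N → Fin N) (n : ℕ) (v : Fin n → XN N) : wX cl n v = 0 ∨ wX cl n v = 1 := by
  unfold wX; split_ifs <;> simp
lemma wH_01 (k : Fin N) (S : Set ℝ) (n : ℕ) (v : Fin n → XN N) : wH k S n v = 0 ∨ wH k S n v = 1 := by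
  unfold wH; split_ifs <;> simp
lemma wX_ne {cl : Fin N → Fin N} {v : Fin n → XN N} :
    wX cl n v ≠ 0 ↔ ∃ a b, cl (v a).1 ≠ cl (v b).1 := by
  unfold wX; split_ifs with h <;> simp only [h, ne_eq, one_ne_zero, not_false_eq_true, not_true]
lemma wH_ne {k : Fin N} {S : Set ℝ} {v : Fin n → XN N} :
    wH k S n v ≠ 0 ↔ ∃ a, (v a).1 = k ∧ (v a).2 ∈ S := by
  unfold wH; split_ifs with h <;> simp only [h, ne_eq, one_ne_zero, not_false_eq_true, not_true]

lemma wm_wX (cl : Fin N → Fin N) : Wm (wX cl) :=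
  wm_of (fun _ v => ∃ a b, cl (v a).1 ≠ cl (v b).1) (fun _ _ => ⟨fun h => if_pos h, fun h => if_neg h⟩)
    (fun n => by
      simp only [ofPred_exists]
      exact MeasurableSet.iUnion fun a => MeasurableSet.iUnion fun b =>
        (measurableSet_eq_fun ((measurable_of_countable cl).comp (by fun_prop))
          ((measurable_of_countable cl).comp (by fun_prop))).compl)
    fun _ _ _ => Iff.rfl
lemma wm_wXc (cl : Fin N → Fin N) : Wm (1 - wX cl) := (wm_wX cl).compl (wX_01 cl)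

lemma wm_wH (k : Fin N) {S : Set ℝ} (hS : MeasurableSet S)
    (hp : ∀ s (m : ℤ), s + m * (2 * π) ∈ S ↔ s ∈ S) : Wm (wH k S) :=
  wm_of (fun _ v => ∃ a, (v a).1 = k ∧ (v a).2 ∈ S) (fun _ _ => ⟨fun h => if_pos h, fun h => if_neg h⟩)
    (fun n => by
      simp only [ofPred_exists]
      exact MeasurableSet.iUnion fun a =>
        (measurableSet_eq_fun (by fun_prop) measurable_const).inter
          (hS.preimage (f := fun v : Fin n → XN N => (v a).2) (by fun_prop)))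
    fun _ _ _ => by simp only [hp]
lemma cont_dc (α : ℝ) : Continuous fun s => dc s α :=
  continuous_dc.comp (f := fun s => (s, α)) (by fun_prop)
lemma wm_wH_lt (k : Fin N) (α e : ℝ) : Wm (wH k {s | dc s α < e}) :=
  wm_wH k (isOpen_lt (cont_dc α) continuous_const).measurableSet fun _ _ => by
    simp only [mem_ofPred_eq, dc_add_left]
lemma wm_wH_le (k : Fin N) (α e : ℝ) : Wm (wH k {s | dc s α ≤ e}) :=
  wm_wH k (isClosed_le (cont_dc α) continuous_const).measurableSet fun _ _ => by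
    simp only [mem_ofPred_eq, dc_add_left]

lemma Rc.elm_cont {Γ : MC N} (h : Rc Γ) : Continuous (elm Γ (n := n)) :=
  continuous_finsetSum _ fun i _ => h.cm_cont.comp
    (f := fun v : Fin (n + 2) → XN N => (v i, v (i + 1))) (by fun_prop)
lemma Rc.elm_per {Γ : MC N} (h : Rc Γ) (v : Fin (n + 2) → XN N) (k : Fin (n + 2) → ℤ) :
    elm Γ (fun i => ((v i).1, (v i).2 + k i * (2 * π))) = elm Γ v := by
  simp only [elm, cm, h.gp_int]

lemma wP_eq (cl : Fin N → Fin N) (Γ : MC N) (k : Fin N) (S : Set ℝ) (L : ℝ) (v : Fin (n + 2) → XN N) :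
    wP cl Γ k S L (n + 2) v = if elm Γ v ≤ L then wX cl _ v * wH k S _ v else 0 := rfl

lemma wP_ne {cl : Fin N → Fin N} {Γ : MC N} {k : Fin N} {S : Set ℝ} {L : ℝ} {v : Fin (n + 2) → XN N} :
    wP cl Γ k S L (n + 2) v ≠ 0 ↔ elm Γ v ≤ L ∧ (∃ a b, cl (v a).1 ≠ cl (v b).1) ∧
      ∃ a, (v a).1 = k ∧ (v a).2 ∈ S := by
  rw [wP_eq, ← wX_ne, ← wH_ne]
  split_ifs with h <;> simp [h]

lemma wP_01 (cl : Fin N → Fin N) (Γ : MC N) (k : Fin N) (S : Set ℝ) (L : ℝ) :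
    ∀ n v, wP cl Γ k S L n v = 0 ∨ wP cl Γ k S L n v = 1
  | 0, _ => Or.inl rfl
  | 1, _ => Or.inl rfl
  | n + 2, v => by
    rw [wP_eq]
    rcases wX_01 cl _ v with a | a <;> rcases wH_01 k S _ v with b | b <;> split_ifs <;> simp [a, b]

lemma wm_wP {Γ : MC N} (h : Rc Γ) (cl : Fin N → Fin N) {k : Fin N} {S : Set ℝ} (hS : Wm (wH k S))
    (L : ℝ) : Wm (wP cl Γ k S L)
  | 0 => ⟨measurable_const, fun _ => by simp [wP], fun _ _ => rfl⟩
  | 1 => ⟨measurable_const, fun _ => by simp [wP], fun _ _ => rfl⟩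
  | n + 2 => ⟨Measurable.ite (isClosed_le h.elm_cont continuous_const).measurableSet
      (((wm_wX cl).mul hS) _).1 measurable_const,
      fun v => by rcases wP_01 cl Γ k S L _ v with e | e <;> simp [e],
      fun v m => by rw [wP_eq, wP_eq, h.elm_per, (wm_wX cl _).2.2, (hS _).2.2]⟩

/-- the long chains through two clusters and `S` -/
lemma wm_rest {Γ : MC N} (h : Rc Γ) (cl : Fin N → Fin N) {k : Fin N} {S : Set ℝ} (hS : Wm (wH k S))
    (L : ℝ) : Wm (wX cl * wH k S - wP cl Γ k S L) ∧ Lg Γ L (wX cl * wH k S - wP cl Γ k S L) := by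
  have a := (wm_wX cl).mul hS
  have b := wm_wP h cl hS L
  refine ⟨fun n => ⟨(a n).1.sub (b n).1, fun v => ?_, fun v m => ?_⟩, fun n v hv => ?_⟩
  · rcases n with _ | _ | n
    · simpa [wP] using (a _).2.1 v
    · simpa [wP] using (a _).2.1 v
    · simp only [Pi.sub_apply, wP_eq]
      split_ifs
      · simp
      · simpa using (a _).2.1 v
  · simp only [Pi.sub_apply, (a n).2.2, (b n).2.2]
  · by_contra c
    simp [wP_eq, (not_le.1 c).le] at hv

/-! ## Parameters -/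

/-- every large real `μ` is `h ^ 9` and lies in the domain for `q = 4` -/
lemma dd_real (h0 : ℝ) : ∃ μ0 : ℝ, 1 ≤ μ0 ∧ ∀ μ, μ0 ≤ μ → ∃ h, h0 ≤ h ∧ 2 ≤ h ∧ μ = h ^ 9 ∧
    (μ : ℂ) ∈ DD 4 h ∧ om 4 h = h ^ 12 ∧ (2 * Tt 4 h)⁻¹ = h ^ 6 / 2 := by
  refine ⟨max h0 2 ^ 9, one_le_pow₀ (le_max_of_le_right one_le_two), fun μ hμ => ?_⟩
  have m0 : 0 ≤ max h0 2 := le_max_of_le_right zero_le_two
  have μ0 : 0 ≤ μ := (pow_nonneg m0 9).trans hμ
  have e : (μ ^ ((9 : ℕ) : ℝ)⁻¹) ^ 9 = μ := Real.rpow_inv_natCast_pow μ0 (by norm_num)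
  obtain ⟨h, hp, e⟩ : ∃ h : ℝ, 0 ≤ h ∧ h ^ 9 = μ := ⟨_, Real.rpow_nonneg μ0 _, e⟩
  have hh : max h0 2 ≤ h := le_of_pow_le_pow_left₀ (n := 9) (by norm_num) hp (e ▸ hμ)
  have h2 : 2 ≤ h := (le_max_right _ _).trans hh
  have t : (2 * Tt 4 h)⁻¹ = h ^ 6 / 2 := by rw [Tt, mul_inv, inv_inv]; ring
  refine ⟨h, (le_max_left _ _).trans hh, h2, e.symm, ⟨?_, ?_⟩, rfl, t⟩
  · rw [t, ofReal_re, ← e]
    have := pow_le_pow_right₀ (one_le_two.trans h2) (by norm_num : 6 ≤ 9)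
    have := pow_pos (two_pos.trans_le h2) 6
    linarith
  · rw [norm_real, Real.norm_of_nonneg μ0, ← e]
    exact pow_lt_pow_right₀ (one_lt_two.trans_le h2) (by norm_num)

lemma nq_near {l : ℝ} (hl : 0 ≤ l) (W : ℕ) : |(nq l W : ℝ) - l * (W : ℝ) ^ 2| ≤ 1 / 2 := by
  have p : 0 ≤ l * (W : ℝ) ^ 2 + 1 / 2 := by positivity
  have := Nat.floor_le p
  have := Nat.lt_floor_add_one (l * (W : ℝ) ^ 2 + 1 / 2)
  rw [nq, abs_le]; constructor <;> linarith
lemma nq_nq {j l : ℝ} (hj : 0 ≤ j) (h1 : j⁻¹ ≤ l) (h2 : l ≤ j) (W : ℕ) : Nq j l W (nq l W) :=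
  ⟨h1, h2, (nq_near ((inv_nonneg.2 hj).trans h1) W).trans (by norm_num)⟩
lemma nq_one (W : ℕ) : nq 1 W = W ^ 2 := by
  rw [nq, Nat.floor_eq_iff (by positivity)]
  push_cast
  constructor <;> linarith

end Pool.Agent.Lib.IS3
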