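import Pool.Agent.Lib.ISO.SDefs
import Pool.Agent.Lib.MP_312682_mp.Defs

/-! Smooth domains bounded by a tuple of curves. -/

namespace Pool.Agent.Lib.IS3

open Pool.Agent.Lib.ISO Pool.Agent.Lib.MP_312682_mp.Defs

/-- `Ω` is a smooth domain whose boundary is the disjoint union of the curves `f i` -/
def Bounds {n : ℕ} (f : Fin n → Jordan) (Ω : Set ℂ) : Prop :=
  SmoothDomain Ω ∧
    Pairwise (fun i k => Disjoint (Set.range (UniformFun.toFun ((f i).1 0)))
      (Set.range (UniformFun.toFun ((f k).1 0)))) ∧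
    frontier Ω = ⋃ i, Set.range (UniformFun.toFun ((f i).1 0))

end Pool.Agent.Lib.IS3
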