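import Pool.Agent.Lib.IS3.Kit
import Pool.Agent.Lib.IS3.SDefs

/-! The tuples of curves that bound a smooth domain form an open set. -/

open scoped ContDiff ComplexConjugate Topology Real NNReal Manifold
open Complex Set Filter

noncomputable section

namespace Pool.Agent.Lib.IS3.OPN

open Pool.Agent.Lib.ISO Pool.Agent.Lib.IS2 Pool.Agent.Lib.MP_312682_mp.Defs

variable {N : ℕ}

lemma inv {g : ℝ → ℂ} (hg : ContDiff ℝ ∞ g) {s : ℝ} (h1 : deriv g s ≠ 0) :
    ∃ σ : ℂ → ℝ, (∀ᶠ y in 𝓝 (g s), ContDiffAt ℝ ∞ σ y) ∧ ∀ᶠ r in 𝓝 s, σ (g r) = r := by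
  have sl : ContDiff ℝ ∞ fun z : ℂ => (z * conj (deriv g s)).re :=
    reCLM.contDiff.comp (contDiff_id.mul contDiff_const)
  let p := fun r => (g r * conj (deriv g s)).re
  have ps : ContDiff ℝ ∞ p := sl.comp hg
  have d : HasDerivAt p (normSq (deriv g s)) s := by
    have := reCLM.hasFDerivAt.comp_hasDerivAt s
      ((((contDiff_infty_iff_deriv.1 hg).1 s).hasDerivAt).mul_const (conj (deriv g s)))
    rwa [mul_conj, reCLM_apply, ofReal_re] at this
  have n0 := (normSq_pos.2 h1).ne'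
  have d' := d.hasFDerivAt_equiv n0
  let e := (ps.contDiffAt (x := s)).toOpenPartialHomeomorph p d' (by simp)
  have hs : s ∈ e.source := ContDiffAt.mem_toOpenPartialHomeomorph_source _ _ _
  have ht : p s ∈ e.target := e.map_source hs
  have ec : Tendsto e.symm (𝓝 (p s)) (𝓝 s) := e.tendsto_symm hs
  have ev : ∀ᶠ a in 𝓝 (p s), ContDiffAt ℝ ∞ e.symm a := by
    filter_upwards [e.open_target.mem_nhds ht, ec.eventually
      ((ps.continuous_deriv (by simp)).continuousAt.eventually_ne (d.deriv.trans_ne n0))] with a h1 h2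
    exact e.contDiffAt_symm_deriv h2 h1 (ps.differentiable (by simp) _).hasDerivAt ps.contDiffAt
  refine ⟨e.symm ∘ fun z => (z * conj (deriv g s)).re, ?_, e.eventually_left_inverse hs⟩
  filter_upwards [(sl.continuous.tendsto (g s)).eventually ev] with y hy
  exact hy.comp y sl.contDiffAt

lemma exp_per (s : ℝ) (k : ℤ) : exp (((s + k * (2 * π) : ℝ) : ℂ) * I) = exp (s * I) := by
  rw [show ((s + k * (2 * π) : ℝ) : ℂ) * I = s * I + k * (2 * π * I) by push_cast; ring, exp_add,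
    exp_int_mul_two_pi_mul_I, mul_one]

/-- a smooth map that reads the label and the parameter -/
lemma exU {j : ℝ} {Γ : MC N} (h : Nv j Γ) : ∃ (U : ℂ → Fin N → ℂ) (C : ℝ≥0), ContDiff ℝ ∞ U ∧
    LipschitzWith C U ∧ ∀ x, U (gp Γ x) = Pi.single x.1 (exp (x.2 * I)) := by
  have j0 := h.pos
  obtain ⟨U, hU⟩ := exists_contMDiffMap_forall_mem_convex_of_local (n := ⊤) 𝓘(ℝ, ℂ)
    (t := fun z => ⋂ x ∈ {x | gp Γ x = z}, {(Pi.single x.1 (exp (x.2 * I)) : Fin N → ℂ)})
    (fun _ => convex_iInter₂ fun _ _ => convex_singleton _) fun z => by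
      by_cases hz : z ∈ range (gp Γ)
      · obtain ⟨x, rfl⟩ := hz
        obtain ⟨σ, s1, s2⟩ := inv (h.smooth x.1) (h.rc.reg x.1 x.2)
        obtain ⟨δ, d0, hδ⟩ := Metric.eventually_nhds_iff.1 s2
        refine ⟨_, inter_mem s1 (Metric.ball_mem_nhds _ (lt_min (inv_pos.2 j0) (div_pos d0 j0))),
          fun y => Pi.single x.1 (exp (σ y * I)), contMDiffOn_iff_contDiffOn.2 fun y hy => ?_,
          fun y hy => mem_iInter₂.2 fun a e => ?_⟩
        · have hσ : ContDiffAt ℝ ∞ σ y := hy.1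
          exact (((ContinuousLinearMap.single ℝ (fun _ : Fin N => ℂ) x.1).contDiff.contDiffAt).comp y
            (((ofRealCLM.contDiff.contDiffAt.comp y hσ).mul contDiffAt_const).cexp)).contDiffWithinAt
        · obtain rfl : gp Γ a = y := e
          have c : cm Γ a x < min j⁻¹ (δ / j) := by rw [cm_eq_dist]; exact hy.2
          have l : a.1 = x.1 := by
            by_contra l
            exact absurd (h.inv_le_cm l) (not_le.2 (c.trans_le (min_le_left _ _)))
          obtain ⟨k, hk⟩ := exists_dc x.2 a.2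
          have := hδ (y := a.2 + k * (2 * π)) (by
            rw [Real.dist_eq, abs_sub_comm, hk, dc_comm]
            exact (h.le_cm l).trans_lt ((lt_div_iff₀' j0).1 (c.trans_le (min_le_right _ _))))
          rw [(h.per _).int_mul, ← l] at this
          simp only [mem_singleton_iff, ← l, gp, this, exp_per]
      · refine ⟨_, h.rc.cpt.isClosed.isOpen_compl.mem_nhds hz, fun _ => 0, contMDiffOn_const,
          fun y hy => mem_iInter₂.2 fun x e => absurd ⟨x, e⟩ hy⟩
  obtain ⟨R, R0, hR⟩ := h.rc.cpt.isBounded.subset_closedBall_lt 0 0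
  let χ : ContDiffBump (0 : ℂ) := ⟨R, R + 1, R0, by linarith⟩
  have s : ContDiff ℝ ∞ fun z => χ z • U z := χ.contDiff.smul U.contMDiff.contDiff
  obtain ⟨C, hC⟩ := s.lipschitzWith_of_hasCompactSupport χ.hasCompactSupport.smul_right (by simp)
  refine ⟨_, C, s, hC, fun x => ?_⟩
  rw [χ.one_of_mem_closedBall (hR ⟨x, rfl⟩), one_smul]
  exact mem_iInter₂.1 (hU _) x rfl

lemma per_eq {h : ℝ → ℂ} (hp : Function.Periodic h (2 * π)) {a b : ℝ}
    (e : exp (a * I) = exp (b * I)) : h a = h b := by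
  obtain ⟨n, hn⟩ := exp_eq_exp_iff_exists_int.1 e
  have := congrArg im hn
  simp only [mul_im, ofReal_re, I_im, mul_one, ofReal_im, I_re, mul_zero, add_zero, add_im,
    intCast_re, intCast_im, mul_re, re_ofNat, im_ofNat, zero_mul, sub_zero] at this
  rw [this, hp.int_mul n b]

lemma loc {h : ℝ → ℂ} (hp : Function.Periodic h (2 * π)) {w : ℂ} (hw : w ≠ 0) :
    (fun z => h (arg z)) =ᶠ[𝓝 w] fun z => h (arg w + (log (w⁻¹ * z)).im) := by
  filter_upwards [isOpen_ne.mem_nhds hw] with z hz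
  refine per_eq hp (mul_left_cancel₀ (ofReal_ne_zero.2 (norm_ne_zero_iff.2 hz)) ?_)
  have e : (‖z‖ : ℂ) = ‖w‖ * ‖w⁻¹ * z‖ := by
    rw [← ofReal_mul, ← norm_mul, mul_inv_cancel_left₀ hw]
  rw [norm_mul_exp_arg_mul_I, log_im, ofReal_add, add_mul, exp_add, e, mul_mul_mul_comm,
    norm_mul_exp_arg_mul_I, norm_mul_exp_arg_mul_I, mul_inv_cancel_left₀ hw]

lemma ang {h : ℝ → ℂ} (hs : ContDiff ℝ ∞ h) (hp : Function.Periodic h (2 * π)) {w : ℂ} (hw : w ≠ 0) :
    ContDiffAt ℝ ∞ (fun z => h (arg z)) w ∧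
      ∀ η, (∀ s, ‖deriv h s‖ ≤ η) → ‖fderiv ℝ (fun z => h (arg z)) w‖ ≤ η * ‖w‖⁻¹ := by
  have one : w⁻¹ * w ∈ slitPlane := by rw [inv_mul_cancel₀ hw]; exact one_mem_slitPlane
  refine ⟨ContDiffAt.congr_of_eventuallyEq (hs.contDiffAt.comp w (contDiffAt_const.add
    (imCLM.contDiff.contDiffAt.comp w (((contDiffAt_log one).restrict_scalars ℝ).comp w
      (contDiffAt_const.mul contDiffAt_id))))) (loc hp hw), fun η hη => ?_⟩
  have d1 := ((hasDerivAt_id w).const_mul w⁻¹).clog one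
  have d2 := (imCLM.hasFDerivAt.comp w (d1.hasFDerivAt.restrictScalars ℝ)).const_add (arg w)
  have d3 := (hs.differentiable (by simp) _).hasDerivAt.hasFDerivAt.comp w d2
  rw [(d3.congr_of_eventuallyEq (loc hp hw)).fderiv]
  refine ContinuousLinearMap.opNorm_le_bound _
    (mul_nonneg ((norm_nonneg _).trans (hη 0)) (by positivity)) fun v => ?_
  simp only [ContinuousLinearMap.comp_apply, ContinuousLinearMap.toSpanSingleton_apply, norm_smul,
    imCLM_apply, ContinuousLinearMap.coe_restrictScalars', id, inv_mul_cancel₀ hw, div_one, mul_one,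
    smul_eq_mul, Real.norm_eq_abs]
  rw [mul_comm, mul_assoc]
  refine mul_le_mul (hη _) ((abs_im_le_norm _).trans_eq ?_) (abs_nonneg _)
    ((norm_nonneg _).trans (hη 0))
  rw [norm_mul, norm_inv, mul_comm]

/-- extension from the circle to the plane -/
lemma ext : ∃ C : ℝ≥0, ∀ (h : ℝ → ℂ) (η : ℝ≥0), ContDiff ℝ ∞ h → Function.Periodic h (2 * π) →
    (∀ s, ‖h s‖ ≤ η) → (∀ s, ‖deriv h s‖ ≤ η) → ∃ B : ℂ → ℂ, ContDiff ℝ ∞ B ∧
      LipschitzWith (C * η) B ∧ B 0 = 0 ∧ ∀ s : ℝ, B (exp (s * I)) = h s := by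
  let χ : ContDiffBump (0 : ℂ) := ⟨1 / 2, 1, by norm_num, by norm_num⟩
  obtain ⟨C, hC⟩ := (χ.contDiff (n := 1)).lipschitzWith_of_hasCompactSupport χ.hasCompactSupport
    (by simp)
  refine ⟨C + 2, fun h η hs hp h0 h1 => ?_⟩
  have sχ : ContDiff ℝ ∞ fun z => 1 - χ z := contDiff_const.sub χ.contDiff
  have z0 : ∀ w : ℂ, ‖w‖ < 1 / 2 → (fun z => (1 - χ z) • h (arg z)) =ᶠ[𝓝 w] fun _ => 0 :=
    fun w hw => by
      filter_upwards [Metric.isOpen_ball.mem_nhds (mem_ball_zero_iff.2 hw)] with z hz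
      rw [χ.one_of_mem_closedBall (Metric.ball_subset_closedBall hz), sub_self, zero_smul]
  have ne : ∀ w : ℂ, ¬‖w‖ < 1 / 2 → w ≠ 0 := fun w hw e => hw (by rw [e]; simp)
  have s : ContDiff ℝ ∞ fun z => (1 - χ z) • h (arg z) := contDiff_iff_contDiffAt.2 fun w => by
    by_cases hw : ‖w‖ < 1 / 2
    · exact contDiffAt_const.congr_of_eventuallyEq (z0 w hw)
    · exact sχ.contDiffAt.smul (ang hs hp (ne w hw)).1
  refine ⟨_, s, lipschitzWith_of_nnnorm_fderiv_le (𝕜 := ℝ) (s.differentiable (by simp)) fun w => ?_,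
    (z0 0 (by simp)).eq_of_nhds, fun t => ?_⟩
  · rw [← NNReal.coe_le_coe, coe_nnnorm]
    by_cases hw : ‖w‖ < 1 / 2
    · rw [(z0 w hw).fderiv_eq]; simp; positivity
    obtain ⟨a1, a2⟩ := ang hs hp (ne w hw)
    rw [fderiv_fun_smul (sχ.differentiable (by simp) w) (a1.differentiableAt (by simp))]
    refine (norm_add_le _ _).trans ?_
    rw [norm_smul, ContinuousLinearMap.norm_smulRight_apply, fderiv_const_sub, norm_neg]
    have b1 : ‖1 - χ w‖ ≤ 1 := by
      rw [Real.norm_of_nonneg (sub_nonneg.2 χ.le_one)]; linarith [χ.nonneg' w]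
    have b2 : ‖w‖⁻¹ ≤ 2 := by
      rw [inv_le_comm₀ (norm_pos_iff.2 (ne w hw)) two_pos]; linarith [not_lt.1 hw]
    have b3 := mul_le_mul b1 ((a2 η h1).trans (mul_le_mul_of_nonneg_left b2 η.2)) (norm_nonneg _)
      zero_le_one
    have b4 := mul_le_mul (norm_fderiv_le_of_lipschitz ℝ hC (x₀ := w)) (h0 (arg w)) (norm_nonneg _)
      C.2
    push_cast
    linarith
  · rw [χ.zero_of_le_dist (by simp [χ]), sub_zero, one_smul]
    refine per_eq hp ?_
    simpa using norm_mul_exp_arg_mul_I (exp (t * I))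

/-- small perturbations of the identity are diffeomorphisms -/
lemma dif {V : ℂ → ℂ} (hs : ContDiff ℝ ∞ V) {c : ℝ≥0} (hc : c < 1) (hV : LipschitzWith c V) :
    ∃ Ψ : ℂ ≃ₜ ℂ, (∀ z, Ψ z = z + V z) ∧ ContDiff ℝ ∞ Ψ ∧ ContDiff ℝ ∞ Ψ.symm := by
  have a : ApproximatesLinearOn (fun z => z + V z)
      (ContinuousLinearEquiv.refl ℝ ℂ : ℂ →L[ℝ] ℂ) univ c := by
    rw [ApproximatesLinearOn.approximatesLinearOn_iff_lipschitzOnWith]
    have : (fun z => z + V z) - ⇑(ContinuousLinearEquiv.refl ℝ ℂ : ℂ →L[ℝ] ℂ) = V := by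
      funext z; simp
    rw [this]
    exact hV.lipschitzOnWith
  have s : ContDiff ℝ ∞ fun z => z + V z := contDiff_id.add hs
  have n : ∀ z, ‖-fderiv ℝ V z‖ < 1 := fun z => by
    rw [norm_neg]; exact (norm_fderiv_le_of_lipschitz ℝ hV).trans_lt hc
  refine ⟨a.toHomeomorph _ (Or.inr (by simpa using hc)), fun _ => rfl, s,
    Homeomorph.contDiff_symm _ (f₀' := fun z =>
      ContinuousLinearEquiv.unitsEquiv ℝ ℂ (Units.oneSub _ (n z))) (fun z => ?_) s⟩
  refine ((hasFDerivAt_id z).add (hs.differentiable (by simp) z).hasFDerivAt).congr_fderiv ?_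
  ext v
  simp

lemma dom {Ω : Set ℂ} (h : SmoothDomain Ω) (Ψ : ℂ ≃ₜ ℂ) (s : ContDiff ℝ ∞ Ψ)
    (s' : ContDiff ℝ ∞ Ψ.symm) : SmoothDomain (Ψ '' Ω) := by
  obtain ⟨o, c, b, φ, hφ, e, r⟩ := h
  refine ⟨Ψ.isOpenMap _ o, c.image _ Ψ.continuous.continuousOn,
    (b.isCompact_closure.image Ψ.continuous).isBounded.subset (image_mono subset_closure),
    fun z => φ (Ψ.symm z), hφ.comp s', ?_, fun z hz d => r _ hz ?_⟩
  · rw [e, ← Ψ.preimage_symm]; rfl
  · have e1 : φ = (fun z => φ (Ψ.symm z)) ∘ Ψ := funext fun z => by simp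
    have d1 : Differentiable ℝ fun z => φ (Ψ.symm z) := (hφ.comp s').differentiable (by simp)
    rw [e1, fderiv_comp _ (d1 _) (s.differentiable (by simp) _), Ψ.apply_symm_apply, d,
      ContinuousLinearMap.zero_comp]

lemma rc {f : Fin N → Jordan} {Ω : Set ℂ} (h : Bounds f Ω) :
    Rc fun i => UniformFun.toFun ((f i).1 0) := by
  refine ⟨fun i => f_smooth _ 0, fun i => (f i).2.2.1, fun i s => ?_, fun x y e => ?_⟩
  · rw [((f i).2.1 0 s).deriv, ← norm_pos_iff]
    exact (norm_f1 f i s).symm ▸ sp_pos f i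
  · have l : x.1 = y.1 := by
      by_contra l
      exact disjoint_left.1 (h.2.1 l) ⟨x.2, rfl⟩ ⟨y.2, e.symm⟩
    refine ⟨l, ?_⟩
    have p := (f x.1).2.2.1
    have a := toIcoMod_mem_Ico' Real.two_pi_pos x.2
    have b := toIcoMod_mem_Ico' Real.two_pi_pos y.2
    have := (f x.1).2.2.2.1 a b (by
      rw [toIcoMod, toIcoMod, p.sub_zsmul_eq, p.sub_zsmul_eq]
      simpa only [gp, ← l] using e)
    refine ⟨toIcoDiv Real.two_pi_pos 0 y.2 - toIcoDiv Real.two_pi_pos 0 x.2, ?_⟩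
    simp only [toIcoMod, zsmul_eq_mul] at this
    push_cast
    linarith

theorem opn (hN : St_NVE) : IsOpen {f : Fin N → Jordan | ∃ Ω, Bounds f Ω} := by
  refine isOpen_iff_mem_nhds.2 fun f ⟨Ω, h⟩ => ?_
  obtain ⟨j, hj⟩ := hN.1 N _ (rc h)
  obtain ⟨U, C, sU, lU, eU⟩ := exU (hj j le_rfl)
  obtain ⟨D, hD⟩ := ext
  let η : ℝ≥0 := (N * (D * C) + 1)⁻¹
  have p : (0 : ℝ) < η := by positivity
  have ev : ∀ᶠ g in 𝓝 f, ∀ i, ∀ n ∈ Finset.range 2, ∀ s,
      ‖UniformFun.toFun ((g i).1 n) s - UniformFun.toFun ((f i).1 n) s‖ ≤ η := by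
    refine eventually_all.2 fun i => (eventually_all_finset _).2 fun n _ => ?_
    have c : Continuous fun g : Fin N → Jordan => (g i).1 n :=
      (continuous_apply n).comp (continuous_subtype_val.comp (continuous_apply i))
    filter_upwards [Metric.tendstoUniformly_iff.1
      (UniformFun.tendsto_iff_tendstoUniformly.1 (c.tendsto f)) _ p] with g hg s
    rw [← dist_eq_norm, dist_comm]
    exact (hg s).le
  filter_upwards [ev] with g hg
  choose B sB lB zB eB using fun i => hD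
    (fun s => UniformFun.toFun ((g i).1 0) s - UniformFun.toFun ((f i).1 0) s) η
    ((f_smooth _ 0).sub (f_smooth _ 0)) ((g i).2.2.1.sub (f i).2.2.1) (hg i 0 (by simp))
    fun s => by rw [(((g i).2.1 0 s).fun_sub ((f i).2.1 0 s)).deriv]; exact hg i 1 (by simp) s
  have lV : LipschitzWith (N * (D * C) * η) fun z => ∑ k, B k (U z k) := by
    refine LipschitzWith.of_dist_le_mul fun z w => (dist_sum_sum_le _ _ _).trans ?_
    refine (Finset.sum_le_sum fun k _ => ((lB k).dist_le_mul _ _).trans (mul_le_mul_of_nonneg_left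
      ((dist_le_pi_dist _ _ k).trans (lU.dist_le_mul z w)) (by positivity))).trans_eq ?_
    simp only [Finset.sum_const, Finset.card_univ, Fintype.card_fin, nsmul_eq_mul]
    push_cast
    ring
  obtain ⟨Ψ, e, s, s'⟩ := dif (ContDiff.sum fun k _ => (sB k).comp (contDiff_pi.1 sU k))
    (by rw [← div_eq_mul_inv, div_lt_one (by positivity)]; exact lt_add_one _) lV
  have r : ∀ i, range (UniformFun.toFun ((g i).1 0)) = Ψ '' range (UniformFun.toFun ((f i).1 0)) :=
    fun i => by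
      rw [← range_comp]
      refine congrArg range (funext fun t => ?_)
      have := eU (i, t)
      simp only [gp] at this
      simp only [Function.comp_apply, e, this]
      rw [Finset.sum_eq_single i (fun k _ hk => by rw [Pi.single_eq_of_ne hk, zB]) (by simp),
        Pi.single_eq_same, eB]
      ring
  refine ⟨Ψ '' Ω, dom h.1 Ψ s s', fun i k hk => ?_, ?_⟩
  · simp only [r]; exact (disjoint_image_iff Ψ.injective).2 (h.2.1 hk)
  · rw [← Ψ.image_frontier, h.2.2, image_iUnion]; simp only [r]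

end Pool.Agent.Lib.IS3.OPN
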